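import Pool.Agent.MP_67227b_nt.Ah.AhDefs

set_option autoImplicit false

open Filter Topology Set MeasureTheory Complex
open scoped Real ArithmeticFunction ContDiff

namespace Pool.Agent.MP_67227b_nt.Ah

open Pool.Agent.Lib.ZetaCount_helper33 Pool.Agent.MP_67227b_nt Pool.Agent.MP_67227b_nt.Mo
open Pool.Agent.MP_67227b_nt.Sg Pool.Agent.MP_67227b_nt.Pp
open Pool.Agent.MP_67227b_nt.Mo.MomentBAux (DP)

private lemma aff_half_re {s : ℂ} (hs : 0 < s.re) : 0 < (s / 2).re := by
  have : (s / 2).re = s.re / 2 := by simp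
  rw [this]
  linarith

private lemma aff_im_le_norm {σ t : ℝ} : |t| ≤ ‖pl σ t‖ := by
  have := abs_im_le_norm (pl σ t)
  rwa [pl_im] at this

private lemma aff_deriv {σ t : ℝ} (hσ : 0 < σ) (ht : 2 ≤ t) :
    DifferentiableAt ℂ archF (pl σ t) ∧ ‖deriv archF (pl σ t)‖ ≤ 4 / t := by
  have hs : 0 < (pl σ t).re := by rw [pl_re]; linarith
  have hti : (pl σ t).im = t := pl_im σ t
  set s := pl σ t with hsd
  have ht0 : 0 < t := by linarith
  have h0 : s ≠ 0 := by
    intro h
    rw [h] at hs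
    simp at hs
  have h1 : s - 1 ≠ 0 := by
    intro h
    have := congrArg Complex.im h
    simp at this
    linarith
  have h2 := analyticAt_Gamma (aff_half_re hs)
  have h3 : AnalyticAt ℂ digamma (s / 2) :=
    h2.deriv.div h2 (Gamma_ne_zero_of_re_pos (aff_half_re hs))
  have d1 : HasDerivAt (fun s : ℂ => s⁻¹) (-(s ^ 2)⁻¹) s := hasDerivAt_inv h0
  have d2 : HasDerivAt (fun s : ℂ => (s - 1)⁻¹) (-1 / (s - 1) ^ 2) s :=
    ((hasDerivAt_id s).sub_const 1).inv h1
  have d3 : HasDerivAt (fun s : ℂ => digamma (s / 2)) (deriv digamma (s / 2) * (1 / 2)) s :=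
    h3.differentiableAt.hasDerivAt.comp s ((hasDerivAt_id s).div_const 2)
  have d4 : HasDerivAt archF (-(s ^ 2)⁻¹ + -1 / (s - 1) ^ 2 + deriv digamma (s / 2) * (1 / 2) / 2)
      s := by
    have := ((d1.add d2).sub_const ((Real.log Real.pi : ℂ) / 2)).add (d3.div_const 2)
    exact this
  refine ⟨d4.differentiableAt, ?_⟩
  rw [d4.deriv]
  have i1 : (s / 2).im = t / 2 := by simp [hti]
  have b1 : ‖-(s ^ 2)⁻¹‖ ≤ 1 / (2 * t) := by
    rw [norm_neg, norm_inv, norm_pow, ← one_div]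
    apply one_div_le_one_div_of_le (by positivity)
    have := aff_im_le_norm (σ := σ) (t := t)
    rw [← hsd, abs_of_nonneg ht0.le] at this
    nlinarith
  have b2 : ‖-1 / (s - 1) ^ 2‖ ≤ 1 / (2 * t) := by
    rw [norm_div, norm_neg, norm_one, norm_pow]
    apply one_div_le_one_div_of_le (by positivity)
    have h4 := abs_im_le_norm (s - 1)
    have h5 : (s - 1).im = t := by simp [hti]
    rw [h5, abs_of_nonneg ht0.le] at h4
    nlinarith
  have b3 : ‖deriv digamma (s / 2) * (1 / 2) / 2‖ ≤ 2 / t := by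
    have h4 := deriv_digamma_bound (aff_half_re hs) (by
      rw [i1, abs_of_nonneg (by linarith : (0 : ℝ) ≤ t / 2)]
      linarith)
    rw [i1, abs_of_nonneg (by linarith : (0 : ℝ) ≤ t / 2)] at h4
    rw [norm_div, norm_mul, norm_div, norm_one, norm_ofNat]
    have h5 : 4 / (t / 2) = 8 / t := by field_simp; norm_num
    rw [h5] at h4
    have h6 : (2 : ℝ) / t = 8 / t * (1 / 2) / 2 := by ring
    rw [h6]
    gcongr
  calc _ ≤ (‖-(s ^ 2)⁻¹‖ + ‖-1 / (s - 1) ^ 2‖) + ‖deriv digamma (s / 2) * (1 / 2) / 2‖ :=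
        (norm_add_le _ _).trans (by gcongr; exact norm_add_le _ _)
    _ ≤ (1 / (2 * t) + 1 / (2 * t)) + 2 / t := by gcongr
    _ = 3 / t := by
        field_simp
        norm_num
    _ ≤ 4 / t := by gcongr; norm_num

/-- MODULE ARCHF. The archimedean factor varies slowly in `σ` (digamma; compare `Sg.archF_lip`). -/
theorem archF_flat : ∃ C : ℝ, 0 < C ∧ ∀ σ t : ℝ, 1 / 2 ≤ σ → σ ≤ 2 → 8 ≤ t →
    ‖archF (pl σ t) - archF (pt32 t)‖ ≤ C / t := by
  refine ⟨4, by norm_num, fun σ t hσ hσ2 ht => ?_⟩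
  have ht0 : 0 < t := by linarith
  have hp : pt32 t = pl (3 / 2) t := by
    unfold pt32 pl
    push_cast
    ring
  have hline : ∀ u ∈ segment ℝ (3 / 2) σ, 1 / 2 ≤ u := by
    intro u hu
    rw [segment_eq_uIcc, mem_uIcc] at hu
    rcases hu with h | h <;> linarith [h.1, h.2]
  have h3 := (convex_segment (3 / 2) σ).norm_image_sub_le_of_norm_hasDerivWithin_le
    (f := fun u : ℝ => archF (pl u t)) (f' := fun u => deriv archF (pl u t) * 1)
    (C := 4 / t) (fun u hu => by
      have h4 : HasDerivAt archF (deriv archF (pl u t)) (pl u t) :=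
        (aff_deriv (by linarith [hline u hu]) (by linarith)).1.hasDerivAt
      have h5 : HasDerivAt (fun u : ℝ => pl u t) 1 u := by
        have h6 : HasDerivAt (fun u : ℝ => (u : ℂ) + (t : ℂ) * I) 1 u :=
          ((hasDerivAt_id u).ofReal_comp).add_const _
        exact h6
      exact (h4.comp u h5).hasDerivWithinAt) (fun u hu => by
      rw [mul_one]
      exact (aff_deriv (by linarith [hline u hu]) (by linarith)).2)
      (left_mem_segment ℝ (3 / 2) σ) (right_mem_segment ℝ (3 / 2) σ)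
  rw [Real.norm_eq_abs] at h3
  have h4 : |σ - 3 / 2| ≤ 1 := by
    rw [abs_le]
    constructor <;> linarith
  rw [hp]
  calc ‖archF (pl σ t) - archF (pl (3 / 2) t)‖ ≤ 4 / t * |σ - 3 / 2| := h3
    _ ≤ 4 / t * 1 := by gcongr
    _ = 4 / t := mul_one _

end Pool.Agent.MP_67227b_nt.Ah
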