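import Pool.Agent.MP_67227b_nt.Ah.AhDefs
import Pool.Agent.MP_67227b_nt.Pp.PpMert

set_option autoImplicit false

open Filter Topology Set MeasureTheory Complex
open scoped Real ArithmeticFunction ContDiff

namespace Pool.Agent.MP_67227b_nt.Ah

open Pool.Agent.Lib.ZetaCount_helper33 Pool.Agent.MP_67227b_nt Pool.Agent.MP_67227b_nt.Mo
open Pool.Agent.MP_67227b_nt.Sg Pool.Agent.MP_67227b_nt.Pp
open Pool.Agent.MP_67227b_nt.Mo.MomentBAux (DP)

namespace SumInvPrimeAux

/-- coefficients -/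
noncomputable def cc (k : ℕ) : ℝ := if k.Prime then Real.log k / k else 0

theorem hd {t : ℝ} (ht : 1 < t) : HasDerivAt (fun t : ℝ => (Real.log t)⁻¹)
    (-(t⁻¹ / Real.log t ^ 2)) t := by
  have h0 : (0 : ℝ) < t := by linarith
  have h1 : 0 < Real.log t := Real.log_pos ht
  have := (Real.hasDerivAt_log h0.ne').fun_inv h1.ne'
  rw [neg_div] at this
  exact this

theorem hd2 {t : ℝ} (ht : 1 < t) : HasDerivAt (fun t : ℝ => Real.log (Real.log t))
    (t⁻¹ / Real.log t) t := by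
  have h0 : (0 : ℝ) < t := by linarith
  have h1 : 0 < Real.log t := Real.log_pos ht
  exact (Real.hasDerivAt_log h0.ne').log h1.ne'

theorem cc_sum : ∃ C : ℝ, 0 < C ∧ ∀ t : ℝ, 1 ≤ t →
    |(∑ k ∈ Finset.Icc 0 ⌊t⌋₊, cc k) - Real.log t| ≤ C := by
  obtain ⟨C, hC, h⟩ := sum_prime_div
  refine ⟨C, hC, fun t ht => ?_⟩
  have h1 := h 1 t le_rfl ht
  rw [Real.log_one, sub_zero, Nat.floor_one] at h1
  have h2 : ∑ k ∈ Finset.Icc 0 ⌊t⌋₊, cc k =
      ∑ p ∈ (Finset.Ioc 1 ⌊t⌋₊).filter Nat.Prime, Real.log p / p := by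
    rw [Finset.sum_filter]
    symm
    apply Finset.sum_subset
    · intro k hk
      rw [Finset.mem_Ioc] at hk
      rw [Finset.mem_Icc]
      exact ⟨Nat.zero_le _, hk.2⟩
    · intro k hk hk2
      rw [Finset.mem_Icc] at hk
      rw [Finset.mem_Ioc] at hk2
      rw [if_neg]
      intro hp
      exact hk2 ⟨hp.one_lt, hk.2⟩
  rw [h2]
  exact h1

theorem mert : ∃ C : ℝ, 0 < C ∧ ∀ x y : ℝ, 2 ≤ x → x ≤ y →
    |(∑ p ∈ (Finset.Ioc ⌊x⌋₊ ⌊y⌋₊).filter Nat.Prime, (1 : ℝ) / p) -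
      (Real.log (Real.log y) - Real.log (Real.log x))| ≤ C / Real.log x := by
  obtain ⟨C, hC, hS⟩ := cc_sum
  refine ⟨2 * C, by positivity, fun x y hx hxy => ?_⟩
  have hx1 : 1 < x := by linarith
  have hlx : 0 < Real.log x := Real.log_pos hx1
  have hly : 0 < Real.log y := Real.log_pos (by linarith)
  have hgt : ∀ t ∈ Icc x y, 1 < t := fun t ht => lt_of_lt_of_le hx1 ht.1
  have hdf : ∀ t ∈ Icc x y, deriv (fun t : ℝ => (Real.log t)⁻¹) t = -(t⁻¹ / Real.log t ^ 2) :=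
    fun t ht => (hd (hgt t ht)).deriv
  have hcont1 : ContinuousOn (fun t : ℝ => -(t⁻¹ / Real.log t ^ 2)) (Icc x y) := by
    have h1 : ContinuousOn (fun t : ℝ => t⁻¹) (Icc x y) :=
      continuousOn_id.inv₀ fun t ht => by
        have := hgt t ht
        show t ≠ 0
        linarith
    have h2 : ContinuousOn Real.log (Icc x y) :=
      Real.continuousOn_log.mono fun t ht => by
        have := hgt t ht
        show t ≠ 0
        linarith
    exact (h1.div (h2.pow 2) fun t ht => (pow_pos (Real.log_pos (hgt t ht)) 2).ne').neg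
  have hint1 : IntegrableOn (fun t : ℝ => -(t⁻¹ / Real.log t ^ 2)) (Icc x y) :=
    hcont1.integrableOn_Icc
  have hint : IntegrableOn (deriv fun t : ℝ => (Real.log t)⁻¹) (Icc x y) :=
    hint1.congr_fun (fun t ht => (hdf t ht).symm) measurableSet_Icc
  have habel := sum_mul_eq_sub_sub_integral_mul cc (f := fun t : ℝ => (Real.log t)⁻¹)
    (by linarith : (0 : ℝ) ≤ x) hxy (fun t ht => (hd (hgt t ht)).differentiableAt) hint
  have hsum : ∑ k ∈ Finset.Ioc ⌊x⌋₊ ⌊y⌋₊, (Real.log (k : ℝ))⁻¹ * cc k =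
      ∑ p ∈ (Finset.Ioc ⌊x⌋₊ ⌊y⌋₊).filter Nat.Prime, (1 : ℝ) / p := by
    rw [Finset.sum_filter]
    apply Finset.sum_congr rfl
    intro k hk
    unfold cc
    split_ifs with hp
    · have h1 : 0 < Real.log (k : ℝ) := Real.log_pos (by exact_mod_cast hp.one_lt)
      have h2 : (k : ℝ) ≠ 0 := by exact_mod_cast hp.ne_zero
      field_simp
    · rw [mul_zero]
  rw [hsum] at habel
  rw [habel]
  -- integral of `f' * S`
  have hI : IntegrableOn (fun t => deriv (fun t : ℝ => (Real.log t)⁻¹) t *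
      ∑ k ∈ Finset.Icc 0 ⌊t⌋₊, cc k) (Icc x y) :=
    integrableOn_mul_sum_Icc cc (by linarith) hint
  have hI' : IntervalIntegrable (fun t => deriv (fun t : ℝ => (Real.log t)⁻¹) t *
      ∑ k ∈ Finset.Icc 0 ⌊t⌋₊, cc k) volume x y := by
    rw [intervalIntegrable_iff_integrableOn_Ioc_of_le hxy]
    exact hI.mono_set Ioc_subset_Icc_self
  rw [← intervalIntegral.integral_of_le hxy]
  have key : ∀ c : ℝ, (∫ t in x..y, -(t⁻¹ / Real.log t ^ 2) * (Real.log t + c)) =
      c * ((Real.log y)⁻¹ - (Real.log x)⁻¹) -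
        (Real.log (Real.log y) - Real.log (Real.log x)) := by
    intro c
    have hder : ∀ t ∈ uIcc x y, HasDerivAt
        (fun t : ℝ => c * (Real.log t)⁻¹ - Real.log (Real.log t))
        (-(t⁻¹ / Real.log t ^ 2) * (Real.log t + c)) t := by
      intro t ht
      rw [uIcc_of_le hxy] at ht
      have h1 := (hd (hgt t ht)).const_mul c
      have h2 := h1.fun_sub (hd2 (hgt t ht))
      have hl : Real.log t ≠ 0 := (Real.log_pos (hgt t ht)).ne'
      have e : -(t⁻¹ / Real.log t ^ 2) * (Real.log t + c) =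
          c * -(t⁻¹ / Real.log t ^ 2) - t⁻¹ / Real.log t := by
        have e1 : t⁻¹ / Real.log t = t⁻¹ / Real.log t ^ 2 * Real.log t := by
          rw [pow_two, ← div_div, div_mul_cancel₀ _ hl]
        rw [e1]
        ring
      rw [e]
      exact h2
    rw [intervalIntegral.integral_eq_sub_of_hasDerivAt hder]
    · ring
    · apply ContinuousOn.intervalIntegrable
      rw [uIcc_of_le hxy]
      apply hcont1.mul
      apply ContinuousOn.add _ continuousOn_const
      exact Real.continuousOn_log.mono fun t ht => by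
        have := hgt t ht
        show t ≠ 0
        linarith
  have hci : ∀ c : ℝ, IntervalIntegrable (fun t : ℝ => -(t⁻¹ / Real.log t ^ 2) * (Real.log t + c))
      volume x y := by
    intro c
    apply ContinuousOn.intervalIntegrable
    rw [uIcc_of_le hxy]
    apply hcont1.mul
    apply ContinuousOn.add _ continuousOn_const
    exact Real.continuousOn_log.mono fun t ht => by
      have := hgt t ht
      show t ≠ 0
      linarith
  have hneg : ∀ t ∈ Icc x y, 0 ≤ t⁻¹ / Real.log t ^ 2 := fun t ht => by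
    have h1 := hgt t ht
    have h2 : 0 < t := by linarith
    positivity
  have hlow : (∫ t in x..y, -(t⁻¹ / Real.log t ^ 2) * (Real.log t + C)) ≤
      ∫ t in x..y, deriv (fun t : ℝ => (Real.log t)⁻¹) t * ∑ k ∈ Finset.Icc 0 ⌊t⌋₊, cc k := by
    apply intervalIntegral.integral_mono_on hxy (hci C) hI'
    intro t ht
    rw [hdf t ht]
    have h1 := (abs_le.1 (hS t (hgt t ht).le)).2
    have h2 := mul_le_mul_of_nonneg_left h1 (hneg t ht)
    nlinarith [hneg t ht]
  have hupp : (∫ t in x..y, deriv (fun t : ℝ => (Real.log t)⁻¹) t *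
      ∑ k ∈ Finset.Icc 0 ⌊t⌋₊, cc k) ≤
      ∫ t in x..y, -(t⁻¹ / Real.log t ^ 2) * (Real.log t + -C) := by
    apply intervalIntegral.integral_mono_on hxy hI' (hci (-C))
    intro t ht
    rw [hdf t ht]
    have h1 := (abs_le.1 (hS t (hgt t ht).le)).1
    have h2 := mul_le_mul_of_nonneg_left h1 (hneg t ht)
    nlinarith [hneg t ht]
  rw [key] at hlow hupp
  have hSx := abs_le.1 (hS x (by linarith))
  have hSy := abs_le.1 (hS y (by linarith))
  have ex : (Real.log x)⁻¹ * Real.log x = 1 := inv_mul_cancel₀ hlx.ne'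
  have ey : (Real.log y)⁻¹ * Real.log y = 1 := inv_mul_cancel₀ hly.ne'
  have ix : 0 < (Real.log x)⁻¹ := inv_pos.2 hlx
  have iy : 0 < (Real.log y)⁻¹ := inv_pos.2 hly
  have a1 := mul_le_mul_of_nonneg_left hSx.1 ix.le
  have a2 := mul_le_mul_of_nonneg_left hSx.2 ix.le
  have a3 := mul_le_mul_of_nonneg_left hSy.1 iy.le
  have a4 := mul_le_mul_of_nonneg_left hSy.2 iy.le
  rw [mul_sub, ex] at a1 a2
  rw [mul_sub, ey] at a3 a4
  rw [abs_le, div_eq_mul_inv]
  constructor <;> nlinarith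

end SumInvPrimeAux

/-- MODULE MERT. Mertens' second theorem. With `L = log T`, partial summation in
`∑_{T^a < p ≤ x} (log p)/p = log x - a L + O(1)` (`Pp.sum_prime_div`, `Pp/PpMert.lean`):
`∑ 1/p = log (b/a) + O(1/(a L))`. -/
theorem sum_inv_prime {a₀ ε : ℝ} (ha₀ : 0 < a₀) (hε : 0 < ε) : ∀ᶠ T : ℝ in atTop,
    ∀ a b : ℝ, a₀ ≤ a → a ≤ b → b ≤ 1 →
      |(∑ p ∈ (Finset.Ioc ⌊T ^ a⌋₊ ⌊T ^ b⌋₊).filter Nat.Prime, (1 : ℝ) / p) -
        Real.log (b / a)| ≤ ε := by
  obtain ⟨C, hC, h⟩ := SumInvPrimeAux.mert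
  have h1 : ∀ᶠ T : ℝ in atTop, (2 : ℝ) ≤ T ^ a₀ := (tendsto_rpow_atTop ha₀).eventually_ge_atTop 2
  have h2 : ∀ᶠ T : ℝ in atTop, C / (ε * a₀) ≤ Real.log T :=
    Real.tendsto_log_atTop.eventually_ge_atTop _
  filter_upwards [h1, h2, eventually_gt_atTop (1 : ℝ)] with T hT1 hT2 hT a b ha hab hb
  have hT0 : 0 < T := by linarith
  have ha0 : 0 < a := lt_of_lt_of_le ha₀ ha
  have hb0 : 0 < b := lt_of_lt_of_le ha0 hab
  have hL : 0 < Real.log T := Real.log_pos hT
  have h3 := h (T ^ a) (T ^ b) (hT1.trans (Real.rpow_le_rpow_of_exponent_le hT.le ha))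
    (Real.rpow_le_rpow_of_exponent_le hT.le hab)
  rw [Real.log_rpow hT0, Real.log_rpow hT0, Real.log_mul hb0.ne' hL.ne',
    Real.log_mul ha0.ne' hL.ne'] at h3
  have e : Real.log b + Real.log (Real.log T) - (Real.log a + Real.log (Real.log T)) =
      Real.log (b / a) := by
    rw [Real.log_div hb0.ne' ha0.ne']
    ring
  rw [e] at h3
  refine h3.trans ?_
  rw [div_le_iff₀ (by positivity)]
  rw [div_le_iff₀ (by positivity)] at hT2
  calc C ≤ Real.log T * (ε * a₀) := hT2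
    _ ≤ Real.log T * (ε * a) := by gcongr
    _ = ε * (a * Real.log T) := by ring

/-- MODULE MERT2. Primes with the weight `(log p)²/p`: at most `(log x) ∑_{p ≤ x} (log p)/p`. -/
theorem sum_log_sq_prime : ∃ C : ℝ, 0 < C ∧ ∀ x : ℝ, 2 ≤ x →
    ∑ p ∈ (Finset.Ioc 0 ⌊x⌋₊).filter Nat.Prime, Real.log p ^ 2 / p ≤ C * Real.log x ^ 2 := by
  obtain ⟨C, hC, h⟩ := sum_prime_div
  have hl2 : 0 < Real.log 2 := Real.log_pos (by norm_num)
  refine ⟨1 + C / Real.log 2, by positivity, fun x hx => ?_⟩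
  have h1 := h 1 x le_rfl (by linarith)
  rw [Real.log_one, sub_zero, Nat.floor_one] at h1
  have hlx : Real.log 2 ≤ Real.log x := Real.log_le_log (by norm_num) hx
  have h2 : ∑ p ∈ (Finset.Ioc 0 ⌊x⌋₊).filter Nat.Prime, Real.log p ^ 2 / p ≤
      Real.log x * ∑ p ∈ (Finset.Ioc 1 ⌊x⌋₊).filter Nat.Prime, Real.log p / p := by
    rw [Finset.mul_sum]
    have h3 : (Finset.Ioc 0 ⌊x⌋₊).filter Nat.Prime = (Finset.Ioc 1 ⌊x⌋₊).filter Nat.Prime := by
      ext p
      simp only [Finset.mem_filter, Finset.mem_Ioc]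
      constructor
      · rintro ⟨⟨h4, h5⟩, h6⟩
        exact ⟨⟨h6.one_lt, h5⟩, h6⟩
      · rintro ⟨⟨h4, h5⟩, h6⟩
        exact ⟨⟨by omega, h5⟩, h6⟩
    rw [h3]
    apply Finset.sum_le_sum
    intro p hp
    rw [Finset.mem_filter, Finset.mem_Ioc] at hp
    have hp0 : (0 : ℝ) < p := by exact_mod_cast hp.2.pos
    have hp1 : (1 : ℝ) ≤ p := by exact_mod_cast hp.2.one_le
    have hpx : (p : ℝ) ≤ x := (Nat.le_floor_iff (by linarith)).1 hp.1.2
    have h4 : Real.log p ≤ Real.log x := Real.log_le_log hp0 hpx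
    have h5 : 0 ≤ Real.log p := Real.log_nonneg hp1
    rw [sq, mul_div_assoc]
    exact mul_le_mul_of_nonneg_right h4 (by positivity)
  have h3 : C ≤ C / Real.log 2 * Real.log x := by
    rw [div_mul_eq_mul_div, le_div_iff₀ hl2]
    gcongr
  have h4 := (abs_le.1 h1).2
  have h5 : 0 < Real.log x := lt_of_lt_of_le hl2 hlx
  calc _ ≤ Real.log x * ∑ p ∈ (Finset.Ioc 1 ⌊x⌋₊).filter Nat.Prime, Real.log p / p := h2
    _ ≤ Real.log x * (Real.log x + C / Real.log 2 * Real.log x) := by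
        gcongr
        linarith
    _ = (1 + C / Real.log 2) * Real.log x ^ 2 := by ring

end Pool.Agent.MP_67227b_nt.Ah
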