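import Pool.Agent.MP_67227b_nt.Ah.AhAn
import Pool.Agent.MP_67227b_nt.Ah.AhMert
import Pool.Agent.MP_67227b_nt.Pp.PpFA
import Pool.Agent.MP_67227b_nt.Pp.PpFI

set_option autoImplicit false

open Filter Topology Set MeasureTheory Complex
open scoped Real ArithmeticFunction ContDiff

namespace Pool.Agent.MP_67227b_nt.Ah

open Pool.Agent.Lib.ZetaCount_helper33 Pool.Agent.MP_67227b_nt Pool.Agent.MP_67227b_nt.Mo
open Pool.Agent.MP_67227b_nt.Sg Pool.Agent.MP_67227b_nt.Pp
open Pool.Agent.MP_67227b_nt.Mo.MomentBAux (DP)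

/-- expansion of the Euler product over squarefree numbers -/
private theorem FF_leAux_prod (R : Finset ℕ) (P : Finset ℕ) (hR : ∀ n ∈ R, Squarefree n)
    (hP : ∀ n ∈ R, n.primeFactors ⊆ P) :
    ∑ n ∈ R, (1 : ℝ) / n ≤ Real.exp (∑ p ∈ P, (1 : ℝ) / p) := by
  have h1 : ∀ n ∈ R, (1 : ℝ) / n = ∏ p ∈ n.primeFactors, (1 : ℝ) / p := by
    intro n hn
    conv_lhs => rw [← Nat.prod_primeFactors_of_squarefree (hR n hn)]
    push_cast
    rw [Finset.prod_div_distrib, Finset.prod_const_one]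
  have hinj : Set.InjOn Nat.primeFactors (R : Set ℕ) := by
    intro a ha b hb hab
    rw [← Nat.prod_primeFactors_of_squarefree (hR a ha),
      ← Nat.prod_primeFactors_of_squarefree (hR b hb), hab]
  calc ∑ n ∈ R, (1 : ℝ) / n = ∑ n ∈ R, ∏ p ∈ n.primeFactors, (1 : ℝ) / p :=
        Finset.sum_congr rfl h1
    _ = ∑ S ∈ R.image Nat.primeFactors, ∏ p ∈ S, (1 : ℝ) / p :=
        (Finset.sum_image (f := fun S : Finset ℕ => ∏ p ∈ S, (1 : ℝ) / p) hinj).symm
    _ ≤ ∑ S ∈ P.powerset, ∏ p ∈ S, (1 : ℝ) / p := by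
        refine Finset.sum_le_sum_of_subset_of_nonneg ?_ fun S _ _ => Finset.prod_nonneg fun p _ => by
          positivity
        intro S hS
        obtain ⟨n, hn, rfl⟩ := Finset.mem_image.1 hS
        exact Finset.mem_powerset.2 (hP n hn)
    _ = ∏ p ∈ P, (1 + (1 : ℝ) / p) := (Finset.prod_one_add P).symm
    _ ≤ ∏ p ∈ P, Real.exp ((1 : ℝ) / p) := by
        refine Finset.prod_le_prod (fun p _ => by positivity) fun p _ => ?_
        rw [add_comm]
        exact Real.add_one_le_exp _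
    _ = Real.exp (∑ p ∈ P, (1 : ℝ) / p) := (Real.exp_sum _ _).symm

/-- MODULE FF1. `FF T δ 1 ≤ ∏ (1 + 1/p) ≤ exp (∑ 1/p)` over the primes `T^δ ≤ p ≤ T` (expand the
product: every squarefree rough `n ≤ T` occurs), and `sum_inv_prime` (the prime `p = T^δ`, if it
is one, adds at most `1`). -/
theorem FF_le : ∃ C : ℝ, 0 < C ∧ ∀ δ : ℝ, 0 < δ → δ ≤ 1 / 2 → ∀ᶠ T : ℝ in atTop,
    FF T δ 1 ≤ C / δ := by
  refine ⟨Real.exp 2, Real.exp_pos _, fun δ hδ hδ1 => ?_⟩
  filter_upwards [sum_inv_prime (a₀ := δ) (ε := 1) hδ one_pos, eventually_gt_atTop (1 : ℝ)] with T hm hT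
  classical
  have hT0 : 0 < T := by linarith
  have hL : 0 < Real.log T := Real.log_pos hT
  have h1 := hm δ 1 le_rfl (by linarith) le_rfl
  set Q : Finset ℕ := (Finset.Ioc ⌊T ^ δ⌋₊ ⌊T ^ (1 : ℝ)⌋₊).filter Nat.Prime with hQ
  have h2 : FF T δ 1 ≤ Real.exp (∑ p ∈ insert ⌊T ^ δ⌋₊ Q, (1 : ℝ) / p) := by
    have h3 := FF_leAux_prod ((Finset.Icc 1 ⌊T ^ (1 : ℝ)⌋₊).filter
      (fun n => Squarefree n ∧ Rgh (δ * Real.log T) n)) (insert ⌊T ^ δ⌋₊ Q)
      (fun n hn => (Finset.mem_filter.1 hn).2.1) ?_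
    · unfold FF
      convert h3
    · intro n hn p hp
      obtain ⟨hn1, hn2, hn3⟩ := Finset.mem_filter.1 hn
      have hn4 := Finset.mem_Icc.1 hn1
      have hpp := Nat.prime_of_mem_primeFactors hp
      have hpd := Nat.dvd_of_mem_primeFactors hp
      have hple : p ≤ ⌊T ^ (1 : ℝ)⌋₊ := (Nat.le_of_dvd (by omega) hpd).trans hn4.2
      have h4 : T ^ δ ≤ p := by
        have h5 := hn3.2 p hpp hpd
        rw [← Real.log_rpow hT0] at h5
        exact (Real.log_le_log_iff (Real.rpow_pos_of_pos hT0 _) (by exact_mod_cast hpp.pos)).1 h5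
      have h6 : ⌊T ^ δ⌋₊ ≤ p := by
        rw [← Nat.floor_natCast (R := ℝ) p]
        exact Nat.floor_le_floor h4
      rw [Finset.mem_insert]
      rcases h6.eq_or_lt with h7 | h7
      · exact Or.inl h7.symm
      · right
        rw [hQ, Finset.mem_filter, Finset.mem_Ioc]
        exact ⟨⟨h7, hple⟩, hpp⟩
  have h3 : ∑ p ∈ insert ⌊T ^ δ⌋₊ Q, (1 : ℝ) / p ≤ 1 + (Real.log (1 / δ) + 1) := by
    have h4 : ∑ p ∈ insert ⌊T ^ δ⌋₊ Q, (1 : ℝ) / p ≤ 1 / (⌊T ^ δ⌋₊ : ℝ) + ∑ p ∈ Q, (1 : ℝ) / p := by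
      by_cases h : ⌊T ^ δ⌋₊ ∈ Q
      · rw [Finset.insert_eq_of_mem h]
        have : (0 : ℝ) ≤ 1 / (⌊T ^ δ⌋₊ : ℝ) := by positivity
        linarith
      · rw [Finset.sum_insert h]
    have h5 : 1 / (⌊T ^ δ⌋₊ : ℝ) ≤ 1 := by
      rcases Nat.eq_zero_or_pos ⌊T ^ δ⌋₊ with h | h
      · rw [h]; simp
      · rw [div_le_one (by exact_mod_cast h)]
        exact_mod_cast h
    have h6 := (abs_le.1 h1).2
    linarith
  calc FF T δ 1 ≤ _ := h2
    _ ≤ Real.exp (Real.log (1 / δ) + 2) := Real.exp_le_exp.2 (by linarith)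
    _ = Real.exp 2 / δ := by
        rw [Real.exp_add, Real.exp_log (by positivity)]
        ring

private theorem FF_leAux_int {z y δ : ℝ} (hz : 0 < z) :
    ∫ v in (0 : ℝ)..y, z * Real.exp (z * v) * (y - v + δ) =
      Real.exp (z * y) * (δ + 1 / z) - (y + δ + 1 / z) := by
  have h1 : ∀ v ∈ Set.uIcc 0 y, HasDerivAt (fun v : ℝ => Real.exp (z * v) * (y - v + δ + 1 / z))
      (z * Real.exp (z * v) * (y - v + δ)) v := by
    intro v _
    have h2 : HasDerivAt (fun v : ℝ => z * v) z v := by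
      simpa using (hasDerivAt_id v).const_mul z
    have h3 : HasDerivAt (fun v : ℝ => y - v + δ + 1 / z) (-1) v := by
      have := (((hasDerivAt_id v).const_sub y).add_const δ).add_const (1 / z)
      simpa using this
    have h4 := h2.exp.mul h3
    refine h4.congr_deriv ?_
    field_simp
    ring
  rw [intervalIntegral.integral_eq_sub_of_hasDerivAt h1
    (Continuous.intervalIntegrable (by fun_prop) _ _)]
  simp

private theorem FF_leAux_int1 {z y : ℝ} :
    ∫ v in (0 : ℝ)..y, z * Real.exp (z * v) = Real.exp (z * y) - 1 := by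
  have h1 : ∀ v ∈ Set.uIcc 0 y, HasDerivAt (fun v : ℝ => Real.exp (z * v))
      (z * Real.exp (z * v)) v := by
    intro v _
    have h2 : HasDerivAt (fun v : ℝ => z * v) z v := by
      simpa using (hasDerivAt_id v).const_mul z
    exact h2.exp.congr_deriv (mul_comm _ _)
  rw [intervalIntegral.integral_eq_sub_of_hasDerivAt h1
    (Continuous.intervalIntegrable (by fun_prop) _ _)]
  simp

open Classical in
/-- real form of the Abel summation -/
private theorem FF_leAux_abel {T δ κ : ℝ} (hT : 1 < T) (hκ : 0 ≤ κ) (z : ℝ) :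
    ∑ n ∈ (Finset.Icc 1 ⌊T ^ κ⌋₊).filter (fun n => Squarefree n ∧ Rgh (δ * Real.log T) n),
        (1 / (n : ℝ)) * Real.exp (z * (Real.log n / Real.log T)) =
      Real.exp (z * κ) * FF T δ κ - ∫ x in (0 : ℝ)..κ, z * Real.exp (z * x) * FF T δ x := by
  have h1 := FF_abel (T := T) (δ := δ) (κ := κ) hT hκ (z : ℂ)
  rw [← Finset.sum_filter] at h1
  have h2 : ∫ x in (0 : ℝ)..κ, Complex.exp ((z : ℂ) * x) * (FF T δ x : ℂ) =
      ((∫ x in (0 : ℝ)..κ, Real.exp (z * x) * FF T δ x : ℝ) : ℂ) := by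
    rw [← intervalIntegral.integral_ofReal]
    refine intervalIntegral.integral_congr fun x _ => ?_
    push_cast
    rfl
  rw [h2] at h1
  have h3 : (∫ x in (0 : ℝ)..κ, z * Real.exp (z * x) * FF T δ x) =
      z * ∫ x in (0 : ℝ)..κ, Real.exp (z * x) * FF T δ x := by
    rw [← intervalIntegral.integral_const_mul]
    refine intervalIntegral.integral_congr fun x _ => ?_
    ring
  rw [h3]
  apply Complex.ofReal_injective
  push_cast
  rw [← h1]
  push_cast
  rfl

/-- MODULE FF2. The mass near the end. Put `y = log x/log T ∈ [1/2, 1]`, `z = 2/δ`. By `FF_abel` the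
sum is `e^{-zy} (e^{zy} F(y) - z ∫_0^y e^{zv} F(v) dv) = e^{-zy} F(y) + z ∫_0^y e^{-z(y-v)} (F(y) - F(v)) dv`
(`T^y = x`). `F = FF T δ` satisfies the hypotheses of `analysis_unif` with `κ = y` (`FF_mono`,
`one_le_FF`, `FF_right`, `FF_ineq`), so `F(y) - F(v) ≤ C (y - v + δ) ∫_0^y F ≤ C' (y - v + δ)/δ` by
`FF_le`; and `z ∫_0^∞ e^{-zr} (r + δ) dr/δ = (δ/2 + δ)/δ`. Finally `e^{-zy} F(y) ≤ e^{-1/δ} C/δ ≤ C`. -/
theorem FF_edge : ∃ C : ℝ, 0 < C ∧ ∀ δ : ℝ, 0 < δ → δ ≤ 1 / 16 → ∀ᶠ T : ℝ in atTop,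
    ∀ x : ℝ, T ^ (1 / 2 : ℝ) ≤ x → x ≤ T → ∀ S : Finset ℕ,
      (∀ n ∈ S, (n : ℝ) ≤ x ∧ Squarefree n ∧ Rgh (δ * Real.log T) n) →
      ∑ n ∈ S, (1 : ℝ) / n * ((n : ℝ) / x) ^ (2 / (δ * Real.log T)) ≤ C := by
  obtain ⟨C1, hC1, hC1'⟩ := analysis_unif
  obtain ⟨C2, hC2, hC2'⟩ := FF_le
  refine ⟨C2 + 2 * (C1 * C2), by positivity, fun δ hδ hδ1 => ?_⟩
  filter_upwards [hC2' δ hδ (by linarith), FF_ineq hδ (by linarith), eventually_gt_atTop (1 : ℝ)]
    with T h2 h3 hT x hx1 hx2 S hS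
  classical
  have hT0 : 0 < T := by linarith
  have hL : 0 < Real.log T := Real.log_pos hT
  have hx0 : 0 < x := lt_of_lt_of_le (Real.rpow_pos_of_pos hT0 _) hx1
  set y : ℝ := Real.log x / Real.log T with hy
  set z : ℝ := 2 / δ with hz
  have hz0 : 0 < z := by positivity
  have hTy : T ^ y = x := by
    rw [Real.rpow_def_of_pos hT0, hy, mul_div_cancel₀ _ hL.ne', Real.exp_log hx0]
  have hy1 : 1 / 2 ≤ y := by
    rw [hy, le_div_iff₀ hL, ← Real.log_rpow hT0]
    exact Real.log_le_log (Real.rpow_pos_of_pos hT0 _) hx1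
  have hy2 : y ≤ 1 := by
    rw [hy, div_le_one hL]
    exact Real.log_le_log hx0 hx2
  set F : ℝ → ℝ := FF T δ with hF
  have hmono : Monotone F := FF_mono hT
  have hFint : ∀ a b : ℝ, IntervalIntegrable F volume a b := fun a b => hmono.intervalIntegrable
  have hF0 : ∀ v, 0 ≤ v → 0 ≤ F v := fun v hv => zero_le_one.trans (one_le_FF hT hv)
  have hI : ∫ v in (0 : ℝ)..y, F v ≤ C2 / δ := by
    have h4 : ∫ v in (0 : ℝ)..y, F v ≤ ∫ v in (0 : ℝ)..y, C2 / δ := by
      refine intervalIntegral.integral_mono_on (by linarith) (hFint _ _) (by simp) fun v hv => ?_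
      exact (hmono (hv.2.trans hy2)).trans h2
    rw [intervalIntegral.integral_const, smul_eq_mul, sub_zero] at h4
    have h5 : 0 ≤ C2 / δ := by positivity
    nlinarith
  have hI0 : 0 ≤ ∫ v in (0 : ℝ)..y, F v :=
    intervalIntegral.integral_nonneg (by linarith) fun v hv => hF0 v hv.1
  obtain ⟨-, -, hA⟩ := hC1' y 0 δ hy1 hy2 (by simp) hδ hδ1 F hmono (fun v hv => one_le_FF hT hv)
    (fun v => FF_right hT v) (fun v hv hvy => h3 v hv (hvy.trans hy2))
  -- the full sum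
  have hsum : ∑ n ∈ S, (1 : ℝ) / n * ((n : ℝ) / x) ^ (2 / (δ * Real.log T)) ≤
      Real.exp (-(z * y)) * ∑ n ∈ (Finset.Icc 1 ⌊T ^ y⌋₊).filter
        (fun n => Squarefree n ∧ Rgh (δ * Real.log T) n),
        (1 / (n : ℝ)) * Real.exp (z * (Real.log n / Real.log T)) := by
    rw [Finset.mul_sum]
    have h4 : ∀ n ∈ S, (1 : ℝ) / n * ((n : ℝ) / x) ^ (2 / (δ * Real.log T)) =
        Real.exp (-(z * y)) * ((1 / (n : ℝ)) * Real.exp (z * (Real.log n / Real.log T))) := by
      intro n hn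
      have hn0 : n ≠ 0 := (hS n hn).2.2.1
      have hn1 : (0 : ℝ) < n := by exact_mod_cast Nat.pos_of_ne_zero hn0
      rw [Real.rpow_def_of_pos (by positivity), Real.log_div hn1.ne' hx0.ne']
      rw [show Real.exp (-(z * y)) * ((1 / (n : ℝ)) * Real.exp (z * (Real.log n / Real.log T))) =
        (1 / (n : ℝ)) * (Real.exp (-(z * y)) * Real.exp (z * (Real.log n / Real.log T))) by ring,
        ← Real.exp_add]
      congr 2
      rw [hz, hy]
      field_simp
      ring
    rw [Finset.sum_congr rfl h4]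
    refine Finset.sum_le_sum_of_subset_of_nonneg ?_ fun n _ _ => by positivity
    intro n hn
    obtain ⟨h5, h6, h7⟩ := hS n hn
    rw [Finset.mem_filter, Finset.mem_Icc]
    refine ⟨⟨Nat.one_le_iff_ne_zero.2 h7.1, Nat.le_floor ?_⟩, h6, h7⟩
    rw [hTy]
    exact h5
  have hab := FF_leAux_abel (T := T) (δ := δ) (κ := y) hT (by linarith) z
  rw [← hF] at hab
  rw [hab] at hsum
  -- the integral
  have hce : Continuous (fun v : ℝ => z * Real.exp (z * v)) := by fun_prop
  have hi1 : IntervalIntegrable (fun v => z * Real.exp (z * v) * F v) volume 0 y :=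
    (hFint 0 y).continuousOn_mul hce.continuousOn
  have hi2 : IntervalIntegrable (fun v => z * Real.exp (z * v) * F y) volume 0 y :=
    Continuous.intervalIntegrable (by fun_prop) _ _
  have hdiff : Real.exp (z * y) * F y - ∫ v in (0 : ℝ)..y, z * Real.exp (z * v) * F v =
      F y + ∫ v in (0 : ℝ)..y, z * Real.exp (z * v) * (F y - F v) := by
    have h4 : ∫ v in (0 : ℝ)..y, z * Real.exp (z * v) * (F y - F v) =
        (∫ v in (0 : ℝ)..y, z * Real.exp (z * v) * F y) -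
          ∫ v in (0 : ℝ)..y, z * Real.exp (z * v) * F v := by
      rw [← intervalIntegral.integral_sub hi2 hi1]
      refine intervalIntegral.integral_congr fun v _ => ?_
      ring
    rw [h4, intervalIntegral.integral_mul_const, FF_leAux_int1]
    ring
  have hbd : ∫ v in (0 : ℝ)..y, z * Real.exp (z * v) * (F y - F v) ≤
      (C1 * (C2 / δ)) * (Real.exp (z * y) * (δ + 1 / z)) := by
    have h4 : ∫ v in (0 : ℝ)..y, z * Real.exp (z * v) * (F y - F v) ≤
        ∫ v in (0 : ℝ)..y, (C1 * (C2 / δ)) * (z * Real.exp (z * v) * (y - v + δ)) := by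
      refine intervalIntegral.integral_mono_on (by linarith) ?_
        (Continuous.intervalIntegrable (by fun_prop) _ _) fun v hv => ?_
      · have h5 := hi2.sub hi1
        exact h5.congr fun v _ => by ring
      · have h5 := hA v hv.1 hv.2
        have h6 : 0 ≤ y - v + δ := by linarith [hv.2]
        have h7 : C1 * (y - v + δ) * (∫ x in (0 : ℝ)..y, F x) ≤ C1 * (y - v + δ) * (C2 / δ) :=
          mul_le_mul_of_nonneg_left hI (by positivity)
        have h8 : 0 ≤ z * Real.exp (z * v) := by positivity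
        calc z * Real.exp (z * v) * (F y - F v) ≤
              z * Real.exp (z * v) * (C1 * (y - v + δ) * (C2 / δ)) :=
              mul_le_mul_of_nonneg_left (h5.trans h7) h8
          _ = _ := by ring
    rw [intervalIntegral.integral_const_mul, FF_leAux_int hz0] at h4
    refine h4.trans (mul_le_mul_of_nonneg_left ?_ (by positivity))
    have : 0 ≤ y + δ + 1 / z := by positivity
    linarith
  rw [hdiff] at hsum
  have hexp : Real.exp (-(z * y)) * Real.exp (z * y) = 1 := by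
    rw [← Real.exp_add, neg_add_cancel, Real.exp_zero]
  have hsmall : Real.exp (-(z * y)) ≤ δ := by
    have h4 : 1 / δ ≤ z * y := by
      rw [hz]
      calc 1 / δ = 2 / δ * (1 / 2) := by ring
        _ ≤ 2 / δ * y := mul_le_mul_of_nonneg_left hy1 (by positivity)
    have h5 : 1 / δ ≤ Real.exp (z * y) := by
      have := Real.add_one_le_exp (z * y)
      linarith
    rw [Real.exp_neg]
    exact inv_le_of_inv_le₀ hδ (by rw [← one_div]; exact h5)
  have hFy : F y ≤ C2 / δ := (hmono hy2).trans h2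
  calc _ ≤ _ := hsum
    _ ≤ Real.exp (-(z * y)) * (C2 / δ + (C1 * (C2 / δ)) * (Real.exp (z * y) * (δ + 1 / z))) :=
        mul_le_mul_of_nonneg_left (by linarith) (Real.exp_pos _).le
    _ = Real.exp (-(z * y)) * (C2 / δ) +
        (C1 * (C2 / δ)) * (δ + 1 / z) * (Real.exp (-(z * y)) * Real.exp (z * y)) := by ring
    _ ≤ δ * (C2 / δ) + (C1 * (C2 / δ)) * (δ + 1 / z) * 1 := by
        rw [hexp]
        have : 0 ≤ C2 / δ := by positivity
        nlinarith [mul_le_mul_of_nonneg_right hsmall this]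
    _ ≤ C2 + 2 * (C1 * C2) := by
        rw [hz]
        have e1 : δ * (C2 / δ) = C2 := by field_simp
        have e2 : (C1 * (C2 / δ)) * (δ + 1 / (2 / δ)) * 1 = 3 / 2 * (C1 * C2) := by
          field_simp
          ring
        rw [e1, e2]
        have : 0 < C1 * C2 := by positivity
        linarith

end Pool.Agent.MP_67227b_nt.Ah
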