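import Pool.Agent.MP_67227b_nt.Ah.AhGg
import Pool.Agent.MP_67227b_nt.Ah.AhMert

set_option autoImplicit false

open Filter Topology Set MeasureTheory Complex
open scoped Real ArithmeticFunction ContDiff

namespace Pool.Agent.MP_67227b_nt.Ah

open Pool.Agent.Lib.ZetaCount_helper33 Pool.Agent.MP_67227b_nt Pool.Agent.MP_67227b_nt.Mo
open Pool.Agent.MP_67227b_nt.Sg Pool.Agent.MP_67227b_nt.Pp
open Pool.Agent.MP_67227b_nt.Mo.MomentBAux (DP)

namespace SmAux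

/-- The multiplicative function of Rankin's trick. -/
noncomputable def F (α ε : ℝ) (q : ℕ) : ℝ := ‖gg α q‖ ^ 2 * (q : ℝ) ^ (ε - 1)

theorem F_nonneg (α ε : ℝ) (q : ℕ) : 0 ≤ F α ε q := by unfold F; positivity

theorem F_one (α ε : ℝ) : F α ε 1 = 1 := by
  unfold F
  rw [gg_one]
  simp

theorem F_mul (α ε : ℝ) {m n : ℕ} (h : Nat.Coprime m n) :
    F α ε (m * n) = F α ε m * F α ε n := by
  unfold F
  rw [gg_mul α h, norm_mul, mul_pow]
  push_cast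
  rw [Real.mul_rpow (Nat.cast_nonneg m) (Nat.cast_nonneg n)]
  ring

theorem F_pow {α ε : ℝ} (hα : 0 ≤ α) {p k : ℕ} (hp : p.Prime) (hk : 1 ≤ k) :
    F α ε (p ^ k) ≤ (α * Real.log p) ^ 2 * ((p : ℝ) ^ (ε - 1)) ^ k ∧
      F α ε (p ^ k) ≤ 4 * ((p : ℝ) ^ (ε - 1)) ^ k := by
  have h := gg_pow hα hp hk
  have h1 : (((p ^ k : ℕ) : ℝ)) ^ (ε - 1) = ((p : ℝ) ^ (ε - 1)) ^ k := by
    push_cast
    rw [← Real.rpow_natCast ((p : ℝ) ^ (ε - 1)), ← Real.rpow_mul (Nat.cast_nonneg p),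
      ← Real.rpow_natCast (p : ℝ), ← Real.rpow_mul (Nat.cast_nonneg p), mul_comm]
  have h2 : 0 ≤ ((p : ℝ) ^ (ε - 1)) ^ k := by positivity
  unfold F
  rw [h1]
  constructor
  · refine mul_le_mul_of_nonneg_right ?_ h2
    exact pow_le_pow_left₀ (norm_nonneg _) h.1 2
  · refine mul_le_mul_of_nonneg_right ?_ h2
    calc ‖gg α (p ^ k)‖ ^ 2 ≤ 2 ^ 2 := pow_le_pow_left₀ (norm_nonneg _) h.2 2
      _ = 4 := by norm_num

/-- The ratio of the geometric series. -/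
theorem ratio_le {ε : ℝ} (hε : ε ≤ 1 / 2) {p : ℕ} (hp : p.Prime) :
    (p : ℝ) ^ (ε - 1) ≤ 71 / 100 := by
  have hp2 : (2 : ℝ) ≤ p := by exact_mod_cast hp.two_le
  have h1 : (p : ℝ) ^ (ε - 1) ≤ (p : ℝ) ^ (-(1 / 2) : ℝ) :=
    Real.rpow_le_rpow_of_exponent_le (by linarith) (by linarith)
  have h2 : (p : ℝ) ^ (-(1 / 2) : ℝ) ≤ (2 : ℝ) ^ (-(1 / 2) : ℝ) :=
    Real.rpow_le_rpow_of_nonpos (by norm_num) hp2 (by norm_num)
  have h3 : (2 : ℝ) ^ (-(1 / 2) : ℝ) ≤ 71 / 100 := by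
    rw [Real.rpow_neg (by norm_num), ← Real.sqrt_eq_rpow]
    have h4 : (100 / 71 : ℝ) ≤ Real.sqrt 2 := by
      rw [Real.le_sqrt (by norm_num) (by norm_num)]
      norm_num
    calc (Real.sqrt 2)⁻¹ ≤ (100 / 71 : ℝ)⁻¹ := inv_anti₀ (by norm_num) h4
      _ = 71 / 100 := by norm_num
  linarith

theorem summable_F {α ε : ℝ} (hα : 0 ≤ α) (hε : ε ≤ 1 / 2) {p : ℕ} (hp : p.Prime) :
    Summable (fun k : ℕ => ‖F α ε (p ^ k)‖) := by
  have hr := ratio_le hε hp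
  have hr0 : 0 ≤ (p : ℝ) ^ (ε - 1) := by positivity
  have h1 : Summable (fun k : ℕ => 4 * ((p : ℝ) ^ (ε - 1)) ^ k) :=
    (summable_geometric_of_lt_one hr0 (by linarith)).mul_left 4
  refine Summable.of_nonneg_of_le (fun k => norm_nonneg _) (fun k => ?_) h1
  rw [Real.norm_of_nonneg (F_nonneg _ _ _)]
  rcases Nat.eq_zero_or_pos k with h | h
  · subst h
    rw [pow_zero, pow_zero, F_one]
    norm_num
  · exact (F_pow hα hp h).2

/-- The local factor. -/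
theorem tsum_F_le {α ε : ℝ} (hα : 0 ≤ α) (hε : ε ≤ 1 / 2) {p : ℕ} (hp : p.Prime)
    (he : (p : ℝ) ^ ε ≤ Real.exp 1) :
    ∑' k : ℕ, F α ε (p ^ k) ≤ Real.exp (10 * (α ^ 2 * (Real.log p ^ 2 / p))) := by
  have hr := ratio_le hε hp
  have hp0 : (0 : ℝ) < p := by exact_mod_cast hp.pos
  have hr0 : 0 ≤ (p : ℝ) ^ (ε - 1) := by positivity
  have hs : Summable (fun k : ℕ => F α ε (p ^ k)) := by
    refine (summable_F hα hε hp).congr fun k => ?_
    rw [Real.norm_of_nonneg (F_nonneg _ _ _)]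
  rw [hs.tsum_eq_zero_add, pow_zero, F_one]
  have hg : Summable (fun k : ℕ => (α * Real.log p) ^ 2 * ((p : ℝ) ^ (ε - 1)) ^ (k + 1)) := by
    refine Summable.mul_left _ ?_
    simp only [pow_succ]
    exact (summable_geometric_of_lt_one hr0 (by linarith)).mul_right _
  have h1 : ∑' k : ℕ, F α ε (p ^ (k + 1)) ≤
      ∑' k : ℕ, (α * Real.log p) ^ 2 * ((p : ℝ) ^ (ε - 1)) ^ (k + 1) := by
    refine Summable.tsum_le_tsum (fun k => (F_pow hα hp (by omega)).1)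
      ((summable_nat_add_iff 1).2 hs) hg
  have h2 : ∑' k : ℕ, (α * Real.log p) ^ 2 * ((p : ℝ) ^ (ε - 1)) ^ (k + 1) =
      (α * Real.log p) ^ 2 * ((p : ℝ) ^ (ε - 1) / (1 - (p : ℝ) ^ (ε - 1))) := by
    rw [tsum_mul_left]
    congr 1
    simp only [pow_succ]
    rw [tsum_mul_right, tsum_geometric_of_lt_one hr0 (by linarith)]
    field_simp
  have h3 : (p : ℝ) ^ (ε - 1) / (1 - (p : ℝ) ^ (ε - 1)) ≤ 10 / p := by
    have h4 : (p : ℝ) ^ (ε - 1) ≤ Real.exp 1 / p := by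
      rw [Real.rpow_sub_one hp0.ne']
      gcongr
    have h5 : Real.exp 1 ≤ 2.9 := by
      have := Real.exp_one_lt_d9
      linarith
    rw [div_le_div_iff₀ (by linarith) hp0]
    have h6 : (p : ℝ) ^ (ε - 1) * p ≤ 2.9 := by
      calc (p : ℝ) ^ (ε - 1) * p ≤ Real.exp 1 / p * p := by gcongr
        _ = Real.exp 1 := by field_simp
        _ ≤ 2.9 := h5
    linarith
  have h7 : (1 : ℝ) + ∑' k : ℕ, F α ε (p ^ (k + 1)) ≤
      1 + 10 * (α ^ 2 * (Real.log p ^ 2 / p)) := by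
    have h8 : (α * Real.log p) ^ 2 * ((p : ℝ) ^ (ε - 1) / (1 - (p : ℝ) ^ (ε - 1))) ≤
        (α * Real.log p) ^ 2 * (10 / p) := mul_le_mul_of_nonneg_left h3 (sq_nonneg _)
    have h9 : (α * Real.log p) ^ 2 * (10 / p) = 10 * (α ^ 2 * (Real.log p ^ 2 / p)) := by ring
    linarith
  have h10 := Real.add_one_le_exp (10 * (α ^ 2 * (Real.log p ^ 2 / p)))
  linarith

/-- Euler product bound. -/
theorem euler_bound {α ε : ℝ} (hα : 0 ≤ α) (hε : ε ≤ 1 / 2) (P S : Finset ℕ)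
    (hP : ∀ p ∈ P, p.Prime ∧ (p : ℝ) ^ ε ≤ Real.exp 1)
    (hS : ∀ q ∈ S, q ≠ 0 ∧ ∀ p : ℕ, p.Prime → p ∣ q → p ∈ P) :
    ∑ q ∈ S, F α ε q ≤ Real.exp (10 * (α ^ 2 * ∑ p ∈ P, Real.log p ^ 2 / p)) := by
  have h := EulerProduct.summable_and_hasSum_factoredNumbers_prod_filter_prime_tsum
    (f := F α ε) (F_one α ε) (fun {m n} hmn => F_mul α ε hmn)
    (fun {p} hp => summable_F hα hε hp) P
  have hmem : ∀ q ∈ S, q ∈ Nat.factoredNumbers P := by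
    intro q hq
    rw [Nat.mem_factoredNumbers_iff_forall_le]
    refine ⟨(hS q hq).1, fun p _ hp hpq => (hS q hq).2 p hp hpq⟩
  have hsum : Summable (fun m : Nat.factoredNumbers P => F α ε m) := h.2.summable
  have h1 : ∑ q ∈ S, F α ε q ≤ ∑' m : Nat.factoredNumbers P, F α ε m := by
    have h2 : ∑ q ∈ S, F α ε q = ∑ q ∈ S.attach, F α ε q := (Finset.sum_attach S _).symm
    rw [h2]
    have h3 : ∑ q ∈ S.attach, F α ε q =
        ∑ m ∈ S.attach.image (fun q => (⟨q.1, hmem q.1 q.2⟩ : Nat.factoredNumbers P)),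
          F α ε m := by
      rw [Finset.sum_image]
      intro a _ b _ hab
      simp only [Subtype.mk.injEq] at hab
      exact Subtype.ext hab
    rw [h3]
    exact hsum.sum_le_tsum _ (fun m _ => F_nonneg _ _ _)
  refine h1.trans ?_
  rw [h.2.tsum_eq]
  have hfil : P.filter (fun p => Nat.Prime p) = P :=
    Finset.filter_true_of_mem fun p hp => (hP p hp).1
  rw [hfil, Finset.mul_sum, Finset.mul_sum, Real.exp_sum]
  refine Finset.prod_le_prod (fun p _ => tsum_nonneg fun k => F_nonneg _ _ _) fun p hp => ?_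
  exact tsum_F_le hα hε (hP p hp).1 (hP p hp).2

/-- The sum over the primes. -/
theorem prime_part : ∃ C : ℝ, 0 < C ∧ ∀ δ : ℝ, 0 < δ → ∀ᶠ T : ℝ in atTop,
    10 * (al T ^ 2 * ∑ p ∈ (Finset.Ioc 0 ⌊T ^ δ⌋₊).filter Nat.Prime, Real.log p ^ 2 / p) ≤
      C * δ ^ 2 := by
  obtain ⟨C, hC, h⟩ := sum_log_sq_prime
  refine ⟨10 * (π ^ 2 * C), by positivity, fun δ hδ => ?_⟩
  filter_upwards [(tendsto_rpow_atTop hδ).eventually_ge_atTop 2, eventually_gt_atTop (1 : ℝ)]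
    with T hT hT1
  have hL : 0 < Real.log T := Real.log_pos hT1
  have h1 := h (T ^ δ) hT
  rw [Real.log_rpow (by linarith)] at h1
  have hal : al T * Real.log T = π := by
    unfold al
    field_simp
  calc 10 * (al T ^ 2 * ∑ p ∈ (Finset.Ioc 0 ⌊T ^ δ⌋₊).filter Nat.Prime, Real.log p ^ 2 / p)
      ≤ 10 * (al T ^ 2 * (C * (δ * Real.log T) ^ 2)) := by gcongr
    _ = 10 * (C * (al T * Real.log T) ^ 2 * δ ^ 2) := by ring
    _ = 10 * (π ^ 2 * C) * δ ^ 2 := by rw [hal]; ring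

theorem al_nonneg {T : ℝ} (hT : 1 ≤ T) : 0 ≤ al T := by
  unfold al
  have := Real.log_nonneg hT
  positivity

theorem mem_primes {T δ : ℝ} (hT : 0 < T) {p : ℕ} (hp : p.Prime)
    (h : Real.log p ≤ δ * Real.log T) : p ∈ (Finset.Ioc 0 ⌊T ^ δ⌋₊).filter Nat.Prime := by
  have hp0 : (0 : ℝ) < p := by exact_mod_cast hp.pos
  refine Finset.mem_filter.2 ⟨Finset.mem_Ioc.2 ⟨hp.pos, Nat.le_floor ?_⟩, hp⟩
  rw [← Real.log_le_log_iff hp0 (by positivity), Real.log_rpow hT]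
  exact h

end SmAux

/-- MODULE SM1. The smooth part. For `q` with all prime factors at most `T^δ`, `α = al T`:
`∑_{q ≠ 1} ‖gg q‖²/q ≤ ∏_p (1 + ∑_k ‖gg(p^k)‖²/p^k) - 1 ≤ exp (2 α² ∑_{p ≤ T^δ} (log p)²/p) - 1 ≤ C δ²`
(`gg_pow`, `∑_{k≥1} p^{-k} ≤ 2/p`, `sum_log_sq_prime`, `α L = π`). -/
theorem smooth_sum : ∃ C : ℝ, 0 < C ∧ ∀ δ : ℝ, 0 < δ → δ ≤ 1 → ∀ᶠ T : ℝ in atTop,
    ∀ S : Finset ℕ, (∀ q ∈ S, q ≠ 0 ∧ q ≠ 1 ∧ ∀ p : ℕ, p.Prime → p ∣ q →
      Real.log p ≤ δ * Real.log T) → ∑ q ∈ S, ‖gg (al T) q‖ ^ 2 / q ≤ C * δ ^ 2 := by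
  obtain ⟨C, hC, h⟩ := SmAux.prime_part
  refine ⟨C * Real.exp C, by positivity, fun δ hδ hδ1 => ?_⟩
  filter_upwards [h δ hδ, eventually_ge_atTop (1 : ℝ)] with T hT hT1 S hS
  have h1 := SmAux.euler_bound (SmAux.al_nonneg hT1) (show (0 : ℝ) ≤ 1 / 2 by norm_num)
    ((Finset.Ioc 0 ⌊T ^ δ⌋₊).filter Nat.Prime) (insert 1 S)
    (fun p hp => ⟨(Finset.mem_filter.1 hp).2, by
      rw [Real.rpow_zero]
      exact Real.one_le_exp (by norm_num)⟩)
    (by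
      intro q hq
      rcases Finset.mem_insert.1 hq with h2 | h2
      · subst h2
        refine ⟨one_ne_zero, fun p hp hp1 => ?_⟩
        exact absurd (Nat.dvd_one.1 hp1) hp.ne_one
      · exact ⟨(hS q h2).1, fun p hp hpq =>
          SmAux.mem_primes (by linarith) hp ((hS q h2).2.2 p hp hpq)⟩)
  have h1S : 1 ∉ S := fun h2 => (hS 1 h2).2.1 rfl
  rw [Finset.sum_insert h1S, SmAux.F_one] at h1
  have h2 : ∑ q ∈ S, SmAux.F (al T) 0 q = ∑ q ∈ S, ‖gg (al T) q‖ ^ 2 / q := by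
    refine Finset.sum_congr rfl fun q _ => ?_
    unfold SmAux.F
    rw [zero_sub, Real.rpow_neg_one, div_eq_mul_inv]
  rw [h2] at h1
  have h3 : Real.exp (10 * (al T ^ 2 *
      ∑ p ∈ (Finset.Ioc 0 ⌊T ^ δ⌋₊).filter Nat.Prime, Real.log p ^ 2 / p)) ≤
      Real.exp (C * δ ^ 2) := Real.exp_le_exp.2 hT
  have h4 : Real.exp (C * δ ^ 2) ≤ 1 + C * δ ^ 2 * Real.exp (C * δ ^ 2) := by
    have h5 := Real.add_one_le_exp (-(C * δ ^ 2))
    have h6 : Real.exp (C * δ ^ 2) * Real.exp (-(C * δ ^ 2)) = 1 := by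
      rw [← Real.exp_add]; simp
    nlinarith [Real.exp_pos (C * δ ^ 2)]
  have h7 : Real.exp (C * δ ^ 2) ≤ Real.exp C := by
    refine Real.exp_le_exp.2 ?_
    have : δ ^ 2 ≤ 1 := by nlinarith
    nlinarith
  have h8 : C * δ ^ 2 * Real.exp (C * δ ^ 2) ≤ C * Real.exp C * δ ^ 2 := by
    calc C * δ ^ 2 * Real.exp (C * δ ^ 2) ≤ C * δ ^ 2 * Real.exp C := by gcongr
      _ = _ := by ring
  linarith

/-- MODULE SM2. Rankin's trick: the smooth `q > T^{1/4}`. With `ε = 1/(δ L)`, `p^ε ≤ e` for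
`p ≤ T^δ`; the sum is at most `T^{-ε/4} ∑ ‖gg q‖² q^{ε-1} ≤ e^{-1/(4δ)} exp (C α² ∑ (log p)²/p)`. (For
`T` large, `∑_k p^{k(ε-1)} ≤ C/p` also for `p = 2`.) -/
theorem smooth_tail : ∃ C : ℝ, 0 < C ∧ ∀ δ : ℝ, 0 < δ → δ ≤ 1 → ∀ᶠ T : ℝ in atTop,
    ∀ S : Finset ℕ, (∀ q ∈ S, q ≠ 0 ∧ T ^ (1 / 4 : ℝ) ≤ (q : ℝ) ∧ ∀ p : ℕ, p.Prime → p ∣ q →
      Real.log p ≤ δ * Real.log T) →
      ∑ q ∈ S, ‖gg (al T) q‖ ^ 2 / q ≤ C * Real.exp (-(1 / (4 * δ))) := by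
  obtain ⟨C, hC, h⟩ := SmAux.prime_part
  refine ⟨Real.exp C, by positivity, fun δ hδ hδ1 => ?_⟩
  have hlog : Tendsto (fun T : ℝ => Real.log T) atTop atTop := Real.tendsto_log_atTop
  filter_upwards [h δ hδ, eventually_ge_atTop (1 : ℝ), hlog.eventually_ge_atTop (2 / δ),
    hlog.eventually_ge_atTop 1] with T hT hT1 hL hL1 S hS
  have hT0 : 0 < T := by linarith
  have hL0 : 0 < Real.log T := by linarith
  set ε : ℝ := 1 / (δ * Real.log T) with hε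
  have hε0 : 0 < ε := by positivity
  have hε1 : ε ≤ 1 / 2 := by
    rw [hε, div_le_div_iff₀ (by positivity) (by norm_num)]
    rw [div_le_iff₀ hδ] at hL
    linarith
  have hpe : ∀ p : ℕ, p.Prime → Real.log p ≤ δ * Real.log T → (p : ℝ) ^ ε ≤ Real.exp 1 := by
    intro p hp hpl
    have hp0 : (0 : ℝ) < p := by exact_mod_cast hp.pos
    rw [Real.rpow_def_of_pos hp0]
    refine Real.exp_le_exp.2 ?_
    rw [hε, mul_one_div, div_le_one (by positivity)]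
    exact hpl
  have h1 := SmAux.euler_bound (SmAux.al_nonneg hT1) hε1
    ((Finset.Ioc 0 ⌊T ^ δ⌋₊).filter Nat.Prime) S
    (fun p hp => ⟨(Finset.mem_filter.1 hp).2, by
      have hp1 := Finset.mem_filter.1 hp
      refine hpe p hp1.2 ?_
      have hp2 : (p : ℝ) ≤ T ^ δ := (Nat.le_floor_iff (by positivity)).1 (Finset.mem_Ioc.1 hp1.1).2
      have hp0 : (0 : ℝ) < p := by exact_mod_cast hp1.2.pos
      have := Real.log_le_log hp0 hp2
      rwa [Real.log_rpow hT0] at this⟩)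
    (fun q hq => ⟨(hS q hq).1, fun p hp hpq =>
      SmAux.mem_primes hT0 hp ((hS q hq).2.2 p hp hpq)⟩)
  have h2 : Real.exp (10 * (al T ^ 2 *
      ∑ p ∈ (Finset.Ioc 0 ⌊T ^ δ⌋₊).filter Nat.Prime, Real.log p ^ 2 / p)) ≤
      Real.exp C := by
    refine Real.exp_le_exp.2 (hT.trans ?_)
    have : δ ^ 2 ≤ 1 := by nlinarith
    nlinarith
  -- Rankin
  have h3 : (T ^ (1 / 4 : ℝ)) ^ (-ε) = Real.exp (-(1 / (4 * δ))) := by
    rw [← Real.rpow_mul hT0.le, Real.rpow_def_of_pos hT0]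
    congr 1
    rw [hε]
    field_simp
  calc ∑ q ∈ S, ‖gg (al T) q‖ ^ 2 / q
      ≤ ∑ q ∈ S, SmAux.F (al T) ε q * Real.exp (-(1 / (4 * δ))) := by
        refine Finset.sum_le_sum fun q hq => ?_
        obtain ⟨hq0, hqT, _⟩ := hS q hq
        have hq0' : (0 : ℝ) < q := by
          have := Nat.pos_of_ne_zero hq0
          exact_mod_cast this
        have h4 : (q : ℝ) ^ (-ε) ≤ Real.exp (-(1 / (4 * δ))) := by
          rw [← h3]
          exact Real.rpow_le_rpow_of_nonpos (by positivity) hqT (by linarith)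
        have h5 : ‖gg (al T) q‖ ^ 2 / q =
            SmAux.F (al T) ε q * (q : ℝ) ^ (-ε) := by
          unfold SmAux.F
          rw [mul_assoc, ← Real.rpow_add hq0']
          rw [show ε - 1 + -ε = (-1 : ℝ) by ring, Real.rpow_neg_one, div_eq_mul_inv]
        rw [h5]
        exact mul_le_mul_of_nonneg_left h4 (SmAux.F_nonneg _ _ _)
    _ = (∑ q ∈ S, SmAux.F (al T) ε q) * Real.exp (-(1 / (4 * δ))) := by rw [Finset.sum_mul]
    _ ≤ Real.exp C * Real.exp (-(1 / (4 * δ))) := by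
        refine mul_le_mul_of_nonneg_right (h1.trans h2) (Real.exp_pos _).le

end Pool.Agent.MP_67227b_nt.Ah
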