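import Pool.Agent.MP_67227b_nt.Ah.AhBad
import Pool.Agent.MP_67227b_nt.Ah.AhFF
import Pool.Agent.MP_67227b_nt.Ah.AhSm
import Pool.Agent.MP_67227b_nt.Pp.PpApB
import Pool.Agent.MP_67227b_nt.Pp.PpApG
import Pool.Agent.MP_67227b_nt.Pp.PpCaG

set_option autoImplicit false

open Filter Topology Set MeasureTheory Complex
open scoped Real ArithmeticFunction ContDiff

namespace Pool.Agent.MP_67227b_nt.Ah

open Pool.Agent.Lib.ZetaCount_helper33 Pool.Agent.MP_67227b_nt Pool.Agent.MP_67227b_nt.Mo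
open Pool.Agent.MP_67227b_nt.Sg Pool.Agent.MP_67227b_nt.Pp
open Pool.Agent.MP_67227b_nt.Mo.MomentBAux (DP)

/-- a rough number below `T` has few prime factors -/
private lemma AR1_omega {δ T : ℝ} (hδ : 0 < δ) (hT : 1 < T) {m : ℕ} (hm : (m : ℝ) ≤ T)
    (hr : Rgh (δ / 2 * Real.log T) m) : m.primeFactorsList.length ≤ ⌈2 / δ⌉₊ := by
  have hL : 0 < Real.log T := Real.log_pos hT
  obtain ⟨hm0, hp⟩ := hr
  have hmR : (0 : ℝ) < m := by exact_mod_cast Nat.pos_of_ne_zero hm0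
  have h1 : ∀ l : List ℕ, (∀ p ∈ l, δ / 2 * Real.log T ≤ Real.log p ∧ p ≠ 0) →
      (l.length : ℝ) * (δ / 2 * Real.log T) ≤ Real.log (l.prod : ℕ) := by
    intro l
    induction l with
    | nil => intro _; simp
    | cons a l ih =>
      intro h
      have ha := h a (by simp)
      have ih' := ih (fun p hp => h p (by simp [hp]))
      have hl0 : l.prod ≠ 0 := by
        apply List.prod_ne_zero
        intro h0
        exact (h 0 (by simp [h0])).2 rfl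
      rw [List.prod_cons, Nat.cast_mul, Real.log_mul (by exact_mod_cast ha.2) (by exact_mod_cast hl0),
        List.length_cons, Nat.cast_succ]
      have e2 : ((l.length : ℝ) + 1) * (δ / 2 * Real.log T) =
        (l.length : ℝ) * (δ / 2 * Real.log T) + δ / 2 * Real.log T := by ring
      rw [e2]
      linarith [ha.1]
  have h2 := h1 m.primeFactorsList (fun p hpm => ⟨hp p (Nat.prime_of_mem_primeFactorsList hpm)
    (Nat.dvd_of_mem_primeFactorsList hpm), (Nat.prime_of_mem_primeFactorsList hpm).ne_zero⟩)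
  rw [Nat.prod_primeFactorsList hm0] at h2
  have h3 : Real.log m ≤ Real.log T := Real.log_le_log hmR hm
  have h4 : (m.primeFactorsList.length : ℝ) ≤ 2 / δ := by
    rw [le_div_iff₀ hδ]
    have : ((m.primeFactorsList.length : ℝ) * δ) * Real.log T ≤ 2 * Real.log T := by
      linarith
    exact le_of_mul_le_mul_right this hL
  have h5 : (m.primeFactorsList.length : ℝ) ≤ (⌈2 / δ⌉₊ : ℝ) := h4.trans (Nat.le_ceil _)
  exact_mod_cast h5

/-- splitting of a weighted sum into the good and the bad numbers -/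
private lemma AR1_split (S : Finset ℕ) (G : ℕ → Prop) [DecidablePred G] (f : ℕ → ℂ) (w : ℕ → ℝ)
    (D : ℝ) (hD : 0 ≤ D) (hw : ∀ m, 0 ≤ w m) (hw1 : ∀ m, w m ≤ 1)
    (hg : ∀ m ∈ S, G m → ‖f m‖ ≤ 1) (hb : ∀ m ∈ S, ‖f m‖ ≤ D) :
    ∑ m ∈ S, ‖f m‖ ^ 2 * w m / m ≤ ∑ m ∈ S.filter G, w m / m +
      D ^ 2 * ∑ m ∈ S.filter (fun m => ¬ G m), (1 : ℝ) / m := by
  rw [← Finset.sum_filter_add_sum_filter_not S G, Finset.mul_sum]
  refine add_le_add (Finset.sum_le_sum fun m hm => ?_) (Finset.sum_le_sum fun m hm => ?_)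
  · obtain ⟨h1, h2⟩ := Finset.mem_filter.1 hm
    refine div_le_div_of_nonneg_right ?_ (Nat.cast_nonneg _)
    have h3 : ‖f m‖ ^ 2 ≤ 1 := pow_le_one₀ (norm_nonneg _) (hg m h1 h2)
    have h4 := mul_le_mul_of_nonneg_right h3 (hw m)
    linarith
  · obtain ⟨h1, h2⟩ := Finset.mem_filter.1 hm
    rw [mul_one_div]
    refine div_le_div_of_nonneg_right ?_ (Nat.cast_nonneg _)
    have h3 : ‖f m‖ ^ 2 ≤ D ^ 2 := pow_le_pow_left₀ (norm_nonneg _) (hb m h1) 2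
    calc ‖f m‖ ^ 2 * w m ≤ D ^ 2 * 1 := mul_le_mul h3 (hw1 m) (hw m) (by positivity)
      _ = D ^ 2 := mul_one _

/-- MODULE AR1. The rough numbers: `m ≤ N` rough (`n δ/(n+1)`). If `m` is squarefree, `δ`-rough and
`log m ≤ (1 - δ - 2Kη) L`, then `am m = μ(m) = ca m` (`ap_good`, `ca_good`). Otherwise (`bad_mass`)
`|am m| ≤ e^K`, `‖ca m‖ ≤ e^K 4^{2/δ + 1}` (`ap_bound`, `ca_crude`; a rough `m ≤ T` has at most `2/δ`
prime factors). So for every weight `0 ≤ w ≤ 1` the sum of `‖ca m‖² w(m)/m` over rough `m` is at most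
the sum over the squarefree `δ`-rough numbers plus `1`, and the sums of `‖ca m - am m‖²/m` are at
most `ε`. -/
theorem rough_part {δ ε : ℝ} (hδ : 0 < δ) (hδ1 : δ ≤ 1 / 16) (hε : 0 < ε) :
    ∀ᶠ n : ℕ in atTop, ∀ᶠ T : ℝ in atTop, ∀ S : Finset ℕ,
      (∀ m ∈ S, m ≤ Nn δ T ∧ Rgh ((n : ℝ) * (δ / (n + 1)) * Real.log T) m) →
      (∑ m ∈ S, ‖ca (am δ n T) (al T) (Nn δ T) m - (am δ n T m : ℂ)‖ ^ 2 / m ≤ ε) ∧
      ∀ w : ℕ → ℝ, (∀ m, 0 ≤ w m) → (∀ m, w m ≤ 1) → ∃ S' ⊆ S,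
        (∀ m ∈ S', Squarefree m ∧ Rgh (δ * Real.log T) m) ∧
        (∑ m ∈ S, ‖ca (am δ n T) (al T) (Nn δ T) m‖ ^ 2 * w m / m ≤
          ∑ m ∈ S', w m / m + ε) ∧
        (∑ m ∈ S, ‖(am δ n T m : ℂ)‖ ^ 2 * w m / m ≤ ∑ m ∈ S', w m / m + ε) := by
  classical
  set K : ℕ := ⌈1 / δ⌉₊ with hK
  set K' : ℕ := ⌈2 / δ⌉₊ with hK'
  set D : ℝ := Real.exp K * 4 ^ K' + Real.exp K with hD
  have hDp : 0 < D := by positivity
  have hmass := bad_mass hδ hδ1 (show 0 < ε / D ^ 2 by positivity)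
  filter_upwards [hmass, eventually_ge_atTop 1] with n hmn hn
  filter_upwards [hmn, eventually_gt_atTop (1 : ℝ)] with T hmT hT S hS
  set η : ℝ := δ / ((n : ℝ) + 1) with hη
  have hn1 : (1 : ℝ) ≤ n := by exact_mod_cast hn
  have hηp : 0 < η := by positivity
  have hnη : (n : ℝ) * η + η = δ := by rw [hη]; field_simp
  have hnη' : ((n : ℝ) + 1) * η = δ := by rw [← hnη]; ring
  have hη2 : δ / 2 ≤ (n : ℝ) * η := by nlinarith
  have hL : 0 < Real.log T := Real.log_pos hT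
  have hTκ : T ^ (1 - δ) ≤ T := by
    calc T ^ (1 - δ) ≤ T ^ (1 : ℝ) := Real.rpow_le_rpow_of_exponent_le hT.le (by linarith)
      _ = T := Real.rpow_one T
  have hKδ : 1 ≤ (K : ℝ) * δ := by
    have := Nat.le_ceil (1 / δ)
    rwa [div_le_iff₀ hδ] at this
  have hi1 : 1 - δ ≤ (⌈((n : ℝ) + 1) / δ⌉₊ : ℝ) * η := by
    have h1 := Nat.le_ceil (((n : ℝ) + 1) / δ)
    have h2 : ((n : ℝ) + 1) / δ * η = 1 := by rw [hη]; field_simp
    have h3 := mul_le_mul_of_nonneg_right h1 hηp.le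
    linarith
  have hKcond : 1 - δ < ((K : ℝ) + 1) * (((n : ℝ) + 1) * η) := by
    rw [hnη']
    linarith
  set A : ℕ → ℝ := am δ n T with hA
  have hAap : A = ap T η (1 - δ) n ⌈((n : ℝ) + 1) / δ⌉₊ K := by
    rw [hA]; unfold am; rfl
  set N : ℕ := Nn δ T with hN
  have hmT' : ∀ m ∈ S, (m : ℝ) ≤ T ^ (1 - δ) := by
    intro m hm
    have h1 : (m : ℝ) ≤ N := by exact_mod_cast (hS m hm).1
    refine h1.trans ?_
    rw [hN]
    unfold Nn
    exact Nat.floor_le (Real.rpow_nonneg (by linarith) _)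
  set G : ℕ → Prop := fun m => (Squarefree m ∧ Rgh (δ * Real.log T) m) ∧
    Real.log m ≤ (1 - δ - 2 * K * η) * Real.log T with hG
  -- good numbers
  have hAg : ∀ m ∈ S, G m → A m = (ArithmeticFunction.moebius m : ℤ) ∧
      ca A (al T) N m = ((ArithmeticFunction.moebius m : ℤ) : ℂ) := by
    intro m hm hg
    obtain ⟨⟨hsq, hr0, hr⟩, hlog⟩ := hg
    have hm1 : 1 ≤ m := Nat.one_le_iff_ne_zero.2 hr0
    have hdiv : ∀ d : ℕ, d ∣ m → A d = (ArithmeticFunction.moebius d : ℤ) := by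
      intro d hd
      have hd0 : d ≠ 0 := fun h => hr0 (by rw [h] at hd; exact zero_dvd_iff.1 hd)
      have hdm : (d : ℝ) ≤ m := by exact_mod_cast Nat.le_of_dvd (by omega) hd
      have hdp : (0 : ℝ) < d := by exact_mod_cast Nat.pos_of_ne_zero hd0
      rw [hAap]
      apply ap_good hT hηp (by linarith) hi1 hKcond (hsq.squarefree_of_dvd hd)
      · exact (Real.log_le_log hdp hdm).trans hlog
      · intro p hp hpd
        rw [hnη']
        exact hr p hp (hpd.trans hd)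
    exact ⟨hdiv m dvd_rfl, ca_good (al T) hm1 (hS m hm).1 hdiv⟩
  have hAb : ∀ m, ‖(A m : ℂ)‖ ≤ Real.exp K := by
    intro m
    rw [Complex.norm_real, Real.norm_eq_abs, hAap]
    exact ap_bound hηp _ _ K m
  have hcab : ∀ m ∈ S, ‖ca A (al T) N m‖ ≤ Real.exp K * 4 ^ K' := by
    intro m hm
    obtain ⟨h1, h2⟩ := (hS m hm).2
    have hr : Rgh (δ / 2 * Real.log T) m :=
      ⟨h1, fun p hp hpm => le_trans (mul_le_mul_of_nonneg_right hη2 hL.le) (h2 p hp hpm)⟩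
    exact ca_crude (fun k => by rw [hAap]; exact ap_bound hηp _ _ K k) (al T) N h1
      (AR1_omega hδ hT ((hmT' m hm).trans hTκ) hr)
  -- the bad numbers
  have hbad : ∑ m ∈ S.filter (fun m => ¬ G m), (1 : ℝ) / m ≤ ε / D ^ 2 := by
    apply hmT
    intro m hm
    obtain ⟨hm1, hm2⟩ := Finset.mem_filter.1 hm
    refine ⟨hmT' m hm1, (hS m hm1).2, ?_⟩
    by_contra hcon
    push Not at hcon
    exact hm2 ⟨⟨hcon.1, (hS m hm1).2.1, hcon.2.1⟩, hcon.2.2⟩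
  have hbad' : D ^ 2 * ∑ m ∈ S.filter (fun m => ¬ G m), (1 : ℝ) / m ≤ ε := by
    calc _ ≤ D ^ 2 * (ε / D ^ 2) := mul_le_mul_of_nonneg_left hbad (by positivity)
      _ = ε := by field_simp
  have hμ : ∀ m : ℕ, ‖((ArithmeticFunction.moebius m : ℤ) : ℂ)‖ ≤ 1 := by
    intro m
    rw [Complex.norm_intCast]
    exact_mod_cast ArithmeticFunction.abs_moebius_le_one
  refine ⟨?_, fun w hw hw1 => ⟨S.filter G, Finset.filter_subset _ _, fun m hm =>
    (Finset.mem_filter.1 hm).2.1, ?_, ?_⟩⟩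
  · rw [← Finset.sum_filter_add_sum_filter_not S G]
    have h1 : ∑ m ∈ S.filter G, ‖ca A (al T) N m - (A m : ℂ)‖ ^ 2 / m = 0 := by
      refine Finset.sum_eq_zero fun m hm => ?_
      obtain ⟨hm1, hm2⟩ := Finset.mem_filter.1 hm
      obtain ⟨h2, h3⟩ := hAg m hm1 hm2
      rw [h3, h2]
      simp
    rw [h1, zero_add]
    refine le_trans ?_ hbad'
    rw [Finset.mul_sum]
    refine Finset.sum_le_sum fun m hm => ?_
    obtain ⟨hm1, -⟩ := Finset.mem_filter.1 hm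
    rw [mul_one_div]
    refine div_le_div_of_nonneg_right (pow_le_pow_left₀ (norm_nonneg _) ?_ 2) (Nat.cast_nonneg _)
    exact (norm_sub_le _ _).trans (add_le_add (hcab m hm1) (hAb m))
  · have h1 := AR1_split S G (fun m => ca A (al T) N m) w D hDp.le hw hw1
      (fun m hm hg => by rw [(hAg m hm hg).2]; exact hμ m)
      (fun m hm => (hcab m hm).trans (by rw [hD]; linarith [Real.exp_pos (K : ℝ)]))
    linarith
  · have h1 := AR1_split S G (fun m => (A m : ℂ)) w D hDp.le hw hw1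
      (fun m hm hg => by rw [(hAg m hm hg).1]; push_cast; exact hμ m)
      (fun m _ => (hAb m).trans (by rw [hD]; linarith [show 0 < Real.exp (K : ℝ) * 4 ^ K' by positivity]))
    linarith

namespace CaAux

/-- every positive number is the product of a smooth and a rough number -/
theorem exists_split (z : ℝ) {m : ℕ} (hm : m ≠ 0) : ∃ q r : ℕ, q * r = m ∧ Nat.Coprime q r ∧
    (∀ p : ℕ, p.Prime → p ∣ q → Real.log p < z) ∧ Rgh z r := by
  induction m using Nat.recOnPosPrimePosCoprime with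
  | zero => exact absurd rfl hm
  | one =>
    refine ⟨1, 1, rfl, Nat.coprime_one_left 1, fun p hp h => ?_, one_ne_zero, fun p hp h => ?_⟩
    · exact absurd (Nat.dvd_one.1 h) hp.one_lt.ne'
    · exact absurd (Nat.dvd_one.1 h) hp.one_lt.ne'
  | prime_pow p k hp hk =>
    by_cases hz : Real.log p < z
    · refine ⟨p ^ k, 1, mul_one _, Nat.coprime_one_right _, fun l hl h => ?_, one_ne_zero,
        fun l hl h => ?_⟩
      · have h1 : l = p := (Nat.prime_dvd_prime_iff_eq hl hp).1 (hl.dvd_of_dvd_pow h)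
        rw [h1]
        exact hz
      · exact absurd (Nat.dvd_one.1 h) hl.one_lt.ne'
    · refine ⟨1, p ^ k, one_mul _, Nat.coprime_one_left _, fun l hl h => ?_,
        pow_ne_zero _ hp.ne_zero, fun l hl h => ?_⟩
      · exact absurd (Nat.dvd_one.1 h) hl.one_lt.ne'
      · have h1 : l = p := (Nat.prime_dvd_prime_iff_eq hl hp).1 (hl.dvd_of_dvd_pow h)
        rw [h1]
        exact not_lt.1 hz
  | coprime a b ha hb hab iha ihb =>
    obtain ⟨q, r, h1, h2, h3, h4, h5⟩ := iha (by omega)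
    obtain ⟨q', r', h1', h2', h3', h4', h5'⟩ := ihb (by omega)
    have hqr : Nat.Coprime q r' := by
      rw [Nat.coprime_iff_gcd_eq_one]
      by_contra hg
      obtain ⟨p, hp, hpg⟩ := Nat.exists_prime_and_dvd hg
      have e1 := h3 p hp (hpg.trans (Nat.gcd_dvd_left _ _))
      have e2 := h5' p hp (hpg.trans (Nat.gcd_dvd_right _ _))
      linarith
    have hqr' : Nat.Coprime q' r := by
      rw [Nat.coprime_iff_gcd_eq_one]
      by_contra hg
      obtain ⟨p, hp, hpg⟩ := Nat.exists_prime_and_dvd hg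
      have e1 := h3' p hp (hpg.trans (Nat.gcd_dvd_left _ _))
      have e2 := h5 p hp (hpg.trans (Nat.gcd_dvd_right _ _))
      linarith
    refine ⟨q * q', r * r', by rw [← h1, ← h1']; ring, ?_, ?_, mul_ne_zero h4 h4', ?_⟩
    · exact Nat.Coprime.mul_left (Nat.Coprime.mul_right h2 hqr) (Nat.Coprime.mul_right hqr' h2')
    · intro p hp h
      rcases hp.dvd_mul.1 h with h | h
      · exact h3 p hp h
      · exact h3' p hp h
    · intro p hp h
      rcases hp.dvd_mul.1 h with h | h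
      · exact h5 p hp h
      · exact h5' p hp h

/-- a rough number is its own rough part -/
theorem split_one {z : ℝ} {q r : ℕ} (h : Rgh z (q * r))
    (hq : ∀ p : ℕ, p.Prime → p ∣ q → Real.log p < z) : q = 1 := by
  by_contra hne
  obtain ⟨p, hp, hpq⟩ := Nat.exists_prime_and_dvd hne
  have h1 := hq p hp hpq
  have h2 := h.2 p hp (hpq.mul_right r)
  linarith

theorem ca_mul {δ : ℝ} (hδ : 0 < δ) {n : ℕ} {T : ℝ} (hT : 1 < T) {q r : ℕ} (hq : q ≠ 0)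
    (hr : r ≠ 0) (hc : Nat.Coprime q r)
    (hqz : ∀ p : ℕ, p.Prime → p ∣ q → Real.log p < (n : ℝ) * (δ / (n + 1)) * Real.log T) :
    ca (am δ n T) (al T) (Nn δ T) (q * r) =
      gg (al T) q * ca (am δ n T) (al T) (Nn δ T) r := by
  refine ca_split (al T) (Nn δ T) hq hr hc fun d _ hd => ?_
  have h1 := ap_rough hT (η := δ / (n + 1)) (by positivity) hd
  rw [Nat.coprime_iff_gcd_eq_one]
  by_contra hg
  obtain ⟨p, hp, hpg⟩ := Nat.exists_prime_and_dvd hg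
  have e1 := hqz p hp (hpg.trans (Nat.gcd_dvd_left _ _))
  have e2 := h1.2 p hp (hpg.trans (Nat.gcd_dvd_right _ _))
  linarith

/-- summation over the smooth and the rough part -/
theorem key {δ : ℝ} (hδ : 0 < δ) {n : ℕ} {T : ℝ} (hT : 1 < T) {f g : ℕ → ℕ}
    (hfg : ∀ m : ℕ, m ≠ 0 → f m * g m = m ∧ Nat.Coprime (f m) (g m) ∧
      (∀ p : ℕ, p.Prime → p ∣ f m → Real.log p < (n : ℝ) * (δ / (n + 1)) * Real.log T) ∧
      Rgh ((n : ℝ) * (δ / (n + 1)) * Real.log T) (g m))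
    (A : Finset ℕ) (hA : ∀ m ∈ A, m ≠ 0 ∧ m ≤ Nn δ T) (w B : ℕ → ℝ)
    (hB : ∀ q : ℕ, q ≠ 0 → ∀ S : Finset ℕ, (∀ r ∈ S, q * r ≤ Nn δ T ∧
      Rgh ((n : ℝ) * (δ / (n + 1)) * Real.log T) r) →
      ∑ r ∈ S, ‖ca (am δ n T) (al T) (Nn δ T) r‖ ^ 2 * w (q * r) / r ≤ B q) :
    ∑ m ∈ A, ‖ca (am δ n T) (al T) (Nn δ T) m‖ ^ 2 / m * w m ≤
      ∑ q ∈ A.image f, ‖gg (al T) q‖ ^ 2 / q * B q := by
  classical
  rw [← Finset.sum_fiberwise_of_maps_to (g := f) (t := A.image f)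
    (fun m hm => Finset.mem_image_of_mem f hm)]
  refine Finset.sum_le_sum fun q hq => ?_
  obtain ⟨m0, hm0, hm0q⟩ := Finset.mem_image.1 hq
  have hq0 : q ≠ 0 := by
    intro h
    have h1 := (hfg m0 (hA m0 hm0).1).1
    rw [hm0q, h, zero_mul] at h1
    exact (hA m0 hm0).1 h1.symm
  have hq0' : (0 : ℝ) < q := by exact_mod_cast Nat.pos_of_ne_zero hq0
  have h1 : ∑ m ∈ A with f m = q, ‖ca (am δ n T) (al T) (Nn δ T) m‖ ^ 2 / m * w m =
      ∑ m ∈ A with f m = q, ‖gg (al T) q‖ ^ 2 / q *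
        (‖ca (am δ n T) (al T) (Nn δ T) (g m)‖ ^ 2 * w (q * g m) / (g m : ℕ)) := by
    refine Finset.sum_congr rfl fun m hm => ?_
    rw [Finset.mem_filter] at hm
    obtain ⟨h2, h3, h4, h5⟩ := hfg m (hA m hm.1).1
    have hm2 : f m = q := hm.2
    have h6 := ca_mul hδ hT (n := n) (hm2 ▸ hq0 : f m ≠ 0) h5.1 h3 h4
    rw [h2, hm2] at h6
    rw [hm2] at h2
    have h7 : (m : ℝ) = q * (g m : ℕ) := by
      have h9 : ((q * g m : ℕ) : ℝ) = m := by rw [h2]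
      rw [← h9]
      push_cast
      ring
    have h8 : ((g m : ℕ) : ℝ) ≠ 0 := by exact_mod_cast h5.1
    rw [h2, h6, norm_mul, mul_pow]
    generalize w m = W
    rw [h7]
    field_simp
  rw [h1, ← Finset.mul_sum]
  refine mul_le_mul_of_nonneg_left ?_ (by positivity)
  have hinj : Set.InjOn g (A.filter fun m => f m = q : Finset ℕ) := by
    intro m hm m' hm' he
    rw [Finset.mem_coe, Finset.mem_filter] at hm hm'
    have e1 := (hfg m (hA m hm.1).1).1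
    have e2 := (hfg m' (hA m' hm'.1).1).1
    rw [← e1, ← e2, hm.2, hm'.2, he]
  have h2 := hB q hq0 ((A.filter fun m => f m = q).image g) (by
    intro r hr
    obtain ⟨m, hm, rfl⟩ := Finset.mem_image.1 hr
    rw [Finset.mem_filter] at hm
    obtain ⟨e1, -, -, e4⟩ := hfg m (hA m hm.1).1
    rw [hm.2] at e1
    rw [e1]
    exact ⟨(hA m hm.1).2, e4⟩)
  rw [Finset.sum_image hinj] at h2
  exact h2

theorem Nn_le {δ T : ℝ} (hT : 1 < T) (hδ : 0 < δ) {m : ℕ} (hm : m ≤ Nn δ T) : (m : ℝ) ≤ T := by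
  have h1 : (m : ℝ) ≤ T ^ (1 - δ) :=
    (Nat.cast_le.2 hm).trans (Nat.floor_le (Real.rpow_nonneg (by linarith) _))
  refine h1.trans ?_
  calc T ^ (1 - δ) ≤ T ^ (1 : ℝ) := Real.rpow_le_rpow_of_exponent_le hT.le (by linarith)
    _ = T := Real.rpow_one T

theorem le_FF {δ T : ℝ} (hT : 1 < T) (hδ : 0 < δ) (S : Finset ℕ)
    (hS : ∀ m ∈ S, m ≤ Nn δ T ∧ Squarefree m ∧ Rgh (δ * Real.log T) m) :
    ∑ m ∈ S, (1 : ℝ) / m ≤ FF T δ 1 := by
  classical
  unfold FF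
  refine Finset.sum_le_sum_of_subset_of_nonneg ?_ fun i _ _ => by positivity
  intro m hm
  obtain ⟨h1, h2, h3⟩ := hS m hm
  rw [Finset.mem_filter, Finset.mem_Icc]
  refine ⟨⟨Nat.one_le_iff_ne_zero.2 h3.1, ?_⟩, h2, h3⟩
  rw [Real.rpow_one]
  exact Nat.le_floor (Nn_le hT hδ h1)

end CaAux

open CaAux in
/-- MODULE AR2. All numbers. Every `m ≤ N` is `q m'` with `q` smooth (all prime factors
`< e^z`, `z = n δ/(n+1) L`) and `m'` rough; `ca m = gg q · ca m'` (`ca_split`, `ap_rough`),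
`am m = 0` unless `q = 1`. So with `smooth_sum`:
`∑ ‖ca m‖²/m ≤ (1 + C δ²)(FF T δ 1 + 1) ≤ C/δ` (`FF_le`) and
`∑ ‖ca m - am m‖²/m ≤ ε + C δ² (FF T δ 1 + 1) ≤ C δ`. -/
theorem ca_sums : ∃ C : ℝ, 0 < C ∧ ∀ δ : ℝ, 0 < δ → δ ≤ 1 / 16 →
    ∀ᶠ n : ℕ in atTop, ∀ᶠ T : ℝ in atTop,
      (∑ m ∈ Finset.Icc 1 (Nn δ T), ‖ca (am δ n T) (al T) (Nn δ T) m‖ ^ 2 / m ≤ C / δ) ∧
      (∑ m ∈ Finset.Icc 1 (Nn δ T), ‖(am δ n T m : ℂ)‖ ^ 2 / m ≤ C / δ) ∧
      (∑ m ∈ Finset.Icc 1 (Nn δ T),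
        ‖ca (am δ n T) (al T) (Nn δ T) m - (am δ n T m : ℂ)‖ ^ 2 / m ≤ C * δ) := by
  classical
  obtain ⟨C1, hC1, h1⟩ := FF_le
  obtain ⟨C2, hC2, h2⟩ := smooth_sum
  refine ⟨(1 + C2) * (C1 + 1), by positivity, fun δ hδ hδ1 => ?_⟩
  filter_upwards [rough_part hδ hδ1 hδ] with n hn
  filter_upwards [hn, h1 δ hδ (by linarith), h2 δ hδ (by linarith), eventually_gt_atTop 1]
    with T hr hF hs hT
  have hL : 0 < Real.log T := Real.log_pos hT
  set z := (n : ℝ) * (δ / (n + 1)) * Real.log T with hz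
  have hzL : z ≤ δ * Real.log T := by
    rw [hz]
    refine mul_le_mul_of_nonneg_right ?_ hL.le
    rw [mul_div_assoc', div_le_iff₀ (by positivity)]
    nlinarith
  have hsplit : ∀ m : ℕ, ∃ q r : ℕ, m ≠ 0 → q * r = m ∧ Nat.Coprime q r ∧
      (∀ p : ℕ, p.Prime → p ∣ q → Real.log p < z) ∧ Rgh z r := by
    intro m
    by_cases hm : m = 0
    · exact ⟨0, 0, fun h => absurd hm h⟩
    · obtain ⟨q, r, h⟩ := exists_split z hm
      exact ⟨q, r, fun _ => h⟩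
  choose f g hfg using hsplit
  have hone : ∀ S : Finset ℕ, (∀ m ∈ S, m ≤ Nn δ T ∧ Rgh z m) →
      (∑ m ∈ S, ‖ca (am δ n T) (al T) (Nn δ T) m‖ ^ 2 / m ≤ (C1 + 1) / δ) ∧
      (∑ m ∈ S, ‖(am δ n T m : ℂ)‖ ^ 2 / m ≤ (C1 + 1) / δ) := by
    intro S hS
    obtain ⟨S', hS', h3, h4, h5⟩ := (hr S hS).2 (fun _ => 1) (fun _ => zero_le_one)
      (fun _ => le_refl _)
    have h6 := le_FF hT hδ S' fun m hm => ⟨(hS m (hS' hm)).1, (h3 m hm).1, (h3 m hm).2⟩
    have h7 : δ ≤ 1 / δ := by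
      rw [le_div_iff₀ hδ]
      nlinarith
    have h8 : (C1 + 1) / δ = C1 / δ + 1 / δ := add_div _ _ _
    simp only [mul_one] at h4 h5
    constructor <;> linarith
  have hB : ∀ q : ℕ, q ≠ 0 → ∀ S : Finset ℕ, (∀ r ∈ S, q * r ≤ Nn δ T ∧ Rgh z r) →
      ∑ r ∈ S, ‖ca (am δ n T) (al T) (Nn δ T) r‖ ^ 2 * (fun _ : ℕ => (1 : ℝ)) (q * r) / r ≤
        (fun _ : ℕ => (C1 + 1) / δ) q := by
    intro q hq S hS
    simp only [mul_one]
    exact (hone S fun r hr => ⟨(Nat.le_mul_of_pos_left r (Nat.pos_of_ne_zero hq)).trans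
      (hS r hr).1, (hS r hr).2⟩).1
  have hgg : ∀ Q : Finset ℕ, (∀ q ∈ Q, q ≠ 0 ∧ q ≠ 1 ∧
      ∀ p : ℕ, p.Prime → p ∣ q → Real.log p < z) →
      ∑ q ∈ Q, ‖gg (al T) q‖ ^ 2 / q ≤ C2 * δ ^ 2 := fun Q hQ =>
    hs Q fun q hq => ⟨(hQ q hq).1, (hQ q hq).2.1, fun p hp hpq =>
      ((hQ q hq).2.2 p hp hpq).le.trans hzL⟩
  have hf0 : ∀ m : ℕ, m ≠ 0 → f m ≠ 0 := by
    intro m hm h
    have h3 := (hfg m hm).1
    rw [h, zero_mul] at h3
    exact hm h3.symm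
  have hCδ : 0 ≤ (C1 + 1) / δ := by positivity
  refine ⟨?_, ?_, ?_⟩
  · have h3 := key hδ hT hfg (Finset.Icc 1 (Nn δ T)) (fun m hm => by
      rw [Finset.mem_Icc] at hm
      exact ⟨by omega, hm.2⟩) (fun _ => 1) (fun _ => (C1 + 1) / δ) hB
    simp only [mul_one] at h3
    refine h3.trans ?_
    rw [← Finset.sum_mul]
    have h4 : ∑ q ∈ (Finset.Icc 1 (Nn δ T)).image f, ‖gg (al T) q‖ ^ 2 / q ≤ 1 + C2 * δ ^ 2 := by
      rw [← Finset.sum_filter_add_sum_filter_not ((Finset.Icc 1 (Nn δ T)).image f)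
        (fun q => q = 1)]
      refine add_le_add ?_ ?_
      · calc ∑ q ∈ ((Finset.Icc 1 (Nn δ T)).image f).filter (fun q => q = 1),
              ‖gg (al T) q‖ ^ 2 / q ≤ ∑ q ∈ ({1} : Finset ℕ), ‖gg (al T) q‖ ^ 2 / q := by
              refine Finset.sum_le_sum_of_subset_of_nonneg ?_ fun i _ _ => by positivity
              intro q hq
              rw [Finset.mem_filter] at hq
              exact Finset.mem_singleton.2 hq.2
          _ = 1 := by rw [Finset.sum_singleton, gg_one]; simp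
      · refine hgg _ fun q hq => ?_
        rw [Finset.mem_filter] at hq
        obtain ⟨m, hm, hmq⟩ := Finset.mem_image.1 hq.1
        rw [Finset.mem_Icc] at hm
        rw [← hmq]
        exact ⟨hf0 m (by omega), hmq ▸ hq.2, (hfg m (by omega)).2.2.1⟩
    have h5 : 1 + C2 * δ ^ 2 ≤ 1 + C2 := by
      have h6 : δ ^ 2 ≤ 1 := pow_le_one₀ hδ.le (by linarith)
      have h7 := mul_le_of_le_one_right hC2.le h6
      linarith
    calc (∑ q ∈ (Finset.Icc 1 (Nn δ T)).image f, ‖gg (al T) q‖ ^ 2 / q) * ((C1 + 1) / δ)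
        ≤ (1 + C2) * ((C1 + 1) / δ) := mul_le_mul_of_nonneg_right (h4.trans h5) hCδ
      _ = (1 + C2) * (C1 + 1) / δ := by ring
  · have h3 : ∑ m ∈ Finset.Icc 1 (Nn δ T), ‖(am δ n T m : ℂ)‖ ^ 2 / m =
        ∑ m ∈ (Finset.Icc 1 (Nn δ T)).filter (fun m => am δ n T m ≠ 0),
          ‖(am δ n T m : ℂ)‖ ^ 2 / m := by
      rw [Finset.sum_filter]
      refine Finset.sum_congr rfl fun m _ => ?_
      by_cases h : am δ n T m = 0
      · rw [if_neg (not_not.2 h), h]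
        simp
      · rw [if_pos h]
    rw [h3]
    refine ((hone _ fun m hm => ?_).2).trans ?_
    · rw [Finset.mem_filter, Finset.mem_Icc] at hm
      have h4 := ap_rough hT (η := δ / (n + 1)) (by positivity) hm.2
      exact ⟨hm.1.2, h4.1, h4.2⟩
    · rw [div_le_div_iff_of_pos_right hδ]
      nlinarith
  · rw [← Finset.sum_filter_add_sum_filter_not (Finset.Icc 1 (Nn δ T)) (fun m => f m = 1)]
    have h3 := (hr ((Finset.Icc 1 (Nn δ T)).filter fun m => f m = 1) (fun m hm => by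
      rw [Finset.mem_filter, Finset.mem_Icc] at hm
      obtain ⟨e1, -, -, e4⟩ := hfg m (by omega)
      rw [hm.2, one_mul] at e1
      rw [e1] at e4
      exact ⟨hm.1.2, e4⟩)).1
    have h4 := key hδ hT hfg ((Finset.Icc 1 (Nn δ T)).filter fun m => ¬ f m = 1) (fun m hm => by
      rw [Finset.mem_filter, Finset.mem_Icc] at hm
      exact ⟨by omega, hm.1.2⟩) (fun _ => 1) (fun _ => (C1 + 1) / δ) hB
    simp only [mul_one] at h4
    rw [← Finset.sum_mul] at h4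
    have h5 : ∑ q ∈ ((Finset.Icc 1 (Nn δ T)).filter fun m => ¬ f m = 1).image f,
        ‖gg (al T) q‖ ^ 2 / q ≤ C2 * δ ^ 2 := by
      refine hgg _ fun q hq => ?_
      obtain ⟨m, hm, hmq⟩ := Finset.mem_image.1 hq
      rw [Finset.mem_filter, Finset.mem_Icc] at hm
      rw [← hmq]
      exact ⟨hf0 m (by omega), hm.2, (hfg m (by omega)).2.2.1⟩
    have h6 : ∑ m ∈ (Finset.Icc 1 (Nn δ T)).filter (fun m => ¬ f m = 1),
        ‖ca (am δ n T) (al T) (Nn δ T) m - (am δ n T m : ℂ)‖ ^ 2 / m =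
        ∑ m ∈ (Finset.Icc 1 (Nn δ T)).filter (fun m => ¬ f m = 1),
        ‖ca (am δ n T) (al T) (Nn δ T) m‖ ^ 2 / m := by
      refine Finset.sum_congr rfl fun m hm => ?_
      rw [Finset.mem_filter, Finset.mem_Icc] at hm
      have h7 : am δ n T m = 0 := by
        by_contra hne
        have h8 := ap_rough hT (η := δ / (n + 1)) (by positivity) hne
        obtain ⟨e1, -, e3, -⟩ := hfg m (by omega)
        refine hm.2 (split_one (z := z) (q := f m) (r := g m) ?_ e3)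
        rw [e1]
        exact h8
      rw [h7]
      simp
    rw [h6]
    have h7 : (∑ q ∈ ((Finset.Icc 1 (Nn δ T)).filter fun m => ¬ f m = 1).image f,
        ‖gg (al T) q‖ ^ 2 / q) * ((C1 + 1) / δ) ≤ C2 * (C1 + 1) * δ := by
      refine (mul_le_mul_of_nonneg_right h5 hCδ).trans (le_of_eq ?_)
      field_simp
    nlinarith [mul_pos hC1 hδ]

namespace CaAux

theorem exp_div {δ : ℝ} (hδ : 0 < δ) : Real.exp (-(1 / (4 * δ))) / δ ≤ 4 := by
  have h1 := Real.add_one_le_exp (1 / (4 * δ))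
  have h2 : 0 < 1 / (4 * δ) := by positivity
  rw [div_le_iff₀ hδ, Real.exp_neg, inv_le_comm₀ (Real.exp_pos _) (by positivity)]
  have h3 : (4 * δ)⁻¹ = 1 / (4 * δ) := (one_div _).symm
  rw [h3]
  linarith

/-- the point `M = N + 1/2` -/
theorem ev_M {δ : ℝ} (hδ : 0 < δ) (hδ1 : δ ≤ 1 / 16) : ∀ᶠ T : ℝ in atTop,
    T ^ (1 / 4 : ℝ) * T ^ (1 / 2 : ℝ) ≤ (Nn δ T : ℝ) + 1 / 2 ∧ (Nn δ T : ℝ) + 1 / 2 ≤ T := by
  have h1 : Tendsto (fun T : ℝ => T ^ (δ : ℝ)) atTop atTop := tendsto_rpow_atTop hδ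
  have h2 : Tendsto (fun T : ℝ => T ^ (3 / 16 : ℝ)) atTop atTop := tendsto_rpow_atTop (by norm_num)
  filter_upwards [h1.eventually_ge_atTop 2, h2.eventually_ge_atTop 2, eventually_gt_atTop 1]
    with T h3 h4 hT
  have hT0 : 0 < T := by linarith
  constructor
  · have h5 : T ^ (1 - δ) < (Nn δ T : ℝ) + 1 := Nat.lt_floor_add_one _
    have h6 : T ^ (15 / 16 : ℝ) ≤ T ^ (1 - δ) :=
      Real.rpow_le_rpow_of_exponent_le hT.le (by linarith)
    have h7 : T ^ (15 / 16 : ℝ) = T ^ (3 / 4 : ℝ) * T ^ (3 / 16 : ℝ) := by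
      rw [← Real.rpow_add hT0]
      norm_num
    have h8 : T ^ (1 / 4 : ℝ) * T ^ (1 / 2 : ℝ) = T ^ (3 / 4 : ℝ) := by
      rw [← Real.rpow_add hT0]
      norm_num
    have h9 : 1 ≤ T ^ (3 / 4 : ℝ) := Real.one_le_rpow hT.le (by norm_num)
    rw [h8]
    nlinarith
  · have h5 : (Nn δ T : ℝ) ≤ T ^ (1 - δ) := Nat.floor_le (Real.rpow_nonneg hT0.le _)
    have h6 : T ^ (1 - δ) * T ^ δ = T := by
      rw [← Real.rpow_add hT0]
      simp
    have h7 : 1 ≤ T ^ (1 - δ) := Real.one_le_rpow hT.le (by linarith)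
    nlinarith

end CaAux

open CaAux in
/-- MODULE AR3. The edge. For `q ≤ T^{1/4}` the rough `m' ≤ N/q` satisfy
`∑ (1/m') (q m'/M)^{2/(δL)} ≤ C` (`FF_edge` with `x = M/q ≥ T^{1/2}`, `M = N + 1/2 ≤ T`); for
`q > T^{1/4}` the weight is at most `1` and the sum at most `FF T δ 1 + 1 ≤ C/δ`, and
`∑_{q > T^{1/4}} ‖gg q‖²/q ≤ C e^{-1/(4δ)}` (`smooth_tail`), `e^{-1/(4δ)}/δ ≤ 4`. -/
theorem ca_edge : ∃ C : ℝ, 0 < C ∧ ∀ δ : ℝ, 0 < δ → δ ≤ 1 / 16 →
    ∀ᶠ n : ℕ in atTop, ∀ᶠ T : ℝ in atTop,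
      (∑ m ∈ Finset.Icc 1 (Nn δ T), ‖ca (am δ n T) (al T) (Nn δ T) m‖ ^ 2 / m *
        ((m : ℝ) / ((Nn δ T : ℝ) + 1 / 2)) ^ (2 / (δ * Real.log T)) ≤ C) ∧
      (∑ m ∈ Finset.Icc 1 (Nn δ T), ‖(am δ n T m : ℂ)‖ ^ 2 / m *
        ((m : ℝ) / ((Nn δ T : ℝ) + 1 / 2)) ^ (2 / (δ * Real.log T)) ≤ C) := by
  classical
  obtain ⟨C1, hC1, h1⟩ := FF_le
  obtain ⟨C2, hC2, h2⟩ := smooth_sum
  obtain ⟨C3, hC3, h3⟩ := smooth_tail
  obtain ⟨C4, hC4, h4⟩ := FF_edge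
  refine ⟨(1 + C2) * (C4 + 1) + 4 * (C3 * (C1 + 1)), by positivity, fun δ hδ hδ1 => ?_⟩
  filter_upwards [rough_part hδ hδ1 one_pos] with n hn
  filter_upwards [hn, h1 δ hδ (by linarith), h2 δ hδ (by linarith), h3 δ hδ (by linarith),
    h4 δ hδ hδ1, ev_M hδ hδ1, eventually_gt_atTop 1] with T hr hF hs ht he hM hT
  have hT0 : 0 < T := by linarith
  have hL : 0 < Real.log T := Real.log_pos hT
  set z := (n : ℝ) * (δ / (n + 1)) * Real.log T with hz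
  have hzL : z ≤ δ * Real.log T := by
    rw [hz]
    refine mul_le_mul_of_nonneg_right ?_ hL.le
    rw [mul_div_assoc', div_le_iff₀ (by positivity)]
    nlinarith
  set M : ℝ := (Nn δ T : ℝ) + 1 / 2 with hMd
  have hM0 : 0 < M := by positivity
  set e : ℝ := 2 / (δ * Real.log T) with hed
  have he0 : 0 ≤ e := by positivity
  have hsplit : ∀ m : ℕ, ∃ q r : ℕ, m ≠ 0 → q * r = m ∧ Nat.Coprime q r ∧
      (∀ p : ℕ, p.Prime → p ∣ q → Real.log p < z) ∧ Rgh z r := by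
    intro m
    by_cases hm : m = 0
    · exact ⟨0, 0, fun h => absurd hm h⟩
    · obtain ⟨q, r, h⟩ := exists_split z hm
      exact ⟨q, r, fun _ => h⟩
  choose f g hfg using hsplit
  have hwle : ∀ m : ℕ, m ≤ Nn δ T → ((m : ℝ) / M) ^ e ≤ 1 := by
    intro m hm
    refine Real.rpow_le_one (by positivity) ?_ he0
    rw [div_le_one hM0]
    have : (m : ℝ) ≤ (Nn δ T : ℝ) := Nat.cast_le.2 hm
    linarith
  have hgen : ∀ q : ℕ, q ≠ 0 → ∀ S : Finset ℕ, (∀ r ∈ S, q * r ≤ Nn δ T ∧ Rgh z r) →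
      ∃ S' ⊆ S, (∀ m ∈ S', Squarefree m ∧ Rgh (δ * Real.log T) m) ∧
      ∑ r ∈ S, ‖ca (am δ n T) (al T) (Nn δ T) r‖ ^ 2 * (((q * r : ℕ) : ℝ) / M) ^ e / r ≤
        ∑ r ∈ S', (((q * r : ℕ) : ℝ) / M) ^ e / r + 1 ∧
      ∑ r ∈ S, ‖(am δ n T r : ℂ)‖ ^ 2 * (((q * r : ℕ) : ℝ) / M) ^ e / r ≤
        ∑ r ∈ S', (((q * r : ℕ) : ℝ) / M) ^ e / r + 1 := by
    intro q hq S hS
    have hS1 : ∀ m ∈ S, m ≤ Nn δ T ∧ Rgh z m := fun r hr =>
      ⟨(Nat.le_mul_of_pos_left r (Nat.pos_of_ne_zero hq)).trans (hS r hr).1, (hS r hr).2⟩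
    obtain ⟨S', hS', e1, e2, e3⟩ := (hr S hS1).2
      (fun r => min 1 ((((q * r : ℕ) : ℝ) / M) ^ e))
      (fun r => le_min zero_le_one (Real.rpow_nonneg (by positivity) _))
      (fun r => min_le_left _ _)
    have e4 : ∀ r ∈ S, min 1 ((((q * r : ℕ) : ℝ) / M) ^ e) = (((q * r : ℕ) : ℝ) / M) ^ e :=
      fun r hr => min_eq_right (hwle _ (hS r hr).1)
    refine ⟨S', hS', e1, ?_, ?_⟩
    · refine le_of_eq_of_le ?_ (e2.trans (le_of_eq ?_))
      · exact Finset.sum_congr rfl fun r hr => by rw [e4 r hr]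
      · congr 1
        exact Finset.sum_congr rfl fun r hr => by rw [e4 r (hS' hr)]
    · refine le_of_eq_of_le ?_ (e3.trans (le_of_eq ?_))
      · exact Finset.sum_congr rfl fun r hr => by rw [e4 r hr]
      · congr 1
        exact Finset.sum_congr rfl fun r hr => by rw [e4 r (hS' hr)]
  have hsmall : ∀ q : ℕ, q ≠ 0 → (q : ℝ) ≤ T ^ (1 / 4 : ℝ) → ∀ S' : Finset ℕ,
      (∀ r ∈ S', q * r ≤ Nn δ T ∧ Squarefree r ∧ Rgh (δ * Real.log T) r) →
      ∑ r ∈ S', (((q * r : ℕ) : ℝ) / M) ^ e / r ≤ C4 := by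
    intro q hq hqT S' hS'
    have hq0 : (0 : ℝ) < q := by exact_mod_cast Nat.pos_of_ne_zero hq
    have hq1 : (1 : ℝ) ≤ q := by exact_mod_cast Nat.pos_of_ne_zero hq
    have e1 : T ^ (1 / 2 : ℝ) ≤ M / q := by
      rw [le_div_iff₀ hq0]
      calc T ^ (1 / 2 : ℝ) * q ≤ T ^ (1 / 2 : ℝ) * T ^ (1 / 4 : ℝ) :=
            mul_le_mul_of_nonneg_left hqT (Real.rpow_nonneg hT0.le _)
        _ = T ^ (1 / 4 : ℝ) * T ^ (1 / 2 : ℝ) := mul_comm _ _
        _ ≤ M := hM.1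
    have e2 : M / q ≤ T := (div_le_self hM0.le hq1).trans hM.2
    have e3 := he (M / q) e1 e2 S' (fun r hr => by
      refine ⟨?_, (hS' r hr).2.1, (hS' r hr).2.2⟩
      rw [le_div_iff₀ hq0]
      have e4 : ((q * r : ℕ) : ℝ) ≤ (Nn δ T : ℝ) := Nat.cast_le.2 (hS' r hr).1
      push_cast at e4
      rw [mul_comm]
      linarith)
    refine le_of_eq_of_le (Finset.sum_congr rfl fun r hr => ?_) e3
    have e5 : (r : ℝ) / (M / q) = ((q * r : ℕ) : ℝ) / M := by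
      push_cast
      field_simp
    rw [e5]
    ring
  have hB : ∀ q : ℕ, q ≠ 0 → ∀ S : Finset ℕ, (∀ r ∈ S, q * r ≤ Nn δ T ∧ Rgh z r) →
      ∑ r ∈ S, ‖ca (am δ n T) (al T) (Nn δ T) r‖ ^ 2 *
        (fun m : ℕ => ((m : ℝ) / M) ^ e) (q * r) / r ≤
        (fun q : ℕ => if (q : ℝ) ≤ T ^ (1 / 4 : ℝ) then C4 + 1 else (C1 + 1) / δ) q := by
    intro q hq S hS
    obtain ⟨S', hS', e1, e2, -⟩ := hgen q hq S hS
    have e5 : ∀ r ∈ S', q * r ≤ Nn δ T ∧ Squarefree r ∧ Rgh (δ * Real.log T) r := fun r hr =>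
      ⟨(hS r (hS' hr)).1, (e1 r hr).1, (e1 r hr).2⟩
    simp only
    split_ifs with hqT
    · exact e2.trans (add_le_add (hsmall q hq hqT S' e5) le_rfl)
    · refine e2.trans ?_
      have e6 : ∑ r ∈ S', (((q * r : ℕ) : ℝ) / M) ^ e / r ≤ ∑ r ∈ S', (1 : ℝ) / r := by
        refine Finset.sum_le_sum fun r hr => ?_
        exact div_le_div_of_nonneg_right (hwle _ (e5 r hr).1) (Nat.cast_nonneg r)
      have e7 := le_FF hT hδ S' fun m hm =>
        ⟨(Nat.le_mul_of_pos_left m (Nat.pos_of_ne_zero hq)).trans (e5 m hm).1, (e5 m hm).2⟩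
      have e8 : (C1 + 1) / δ = C1 / δ + 1 / δ := add_div _ _ _
      have e9 : 1 ≤ 1 / δ := by
        rw [le_div_iff₀ hδ]
        linarith
      linarith
  have hf0 : ∀ m : ℕ, m ≠ 0 → f m ≠ 0 := by
    intro m hm h
    have h3 := (hfg m hm).1
    rw [h, zero_mul] at h3
    exact hm h3.symm
  constructor
  · have k1 := key hδ hT hfg (Finset.Icc 1 (Nn δ T)) (fun m hm => by
      rw [Finset.mem_Icc] at hm
      exact ⟨by omega, hm.2⟩) (fun m : ℕ => ((m : ℝ) / M) ^ e)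
      (fun q : ℕ => if (q : ℝ) ≤ T ^ (1 / 4 : ℝ) then C4 + 1 else (C1 + 1) / δ) hB
    refine k1.trans ?_
    have hQ : ∀ q ∈ (Finset.Icc 1 (Nn δ T)).image f, q ≠ 0 ∧
        ∀ p : ℕ, p.Prime → p ∣ q → Real.log p ≤ δ * Real.log T := by
      intro q hq
      obtain ⟨m, hm, hmq⟩ := Finset.mem_image.1 hq
      rw [Finset.mem_Icc] at hm
      rw [← hmq]
      exact ⟨hf0 m (by omega), fun p hp hpq => ((hfg m (by omega)).2.2.1 p hp hpq).le.trans hzL⟩
    rw [← Finset.sum_filter_add_sum_filter_not ((Finset.Icc 1 (Nn δ T)).image f)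
      (fun q : ℕ => (q : ℝ) ≤ T ^ (1 / 4 : ℝ))]
    refine add_le_add ?_ ?_
    · have k2 : ∀ q ∈ ((Finset.Icc 1 (Nn δ T)).image f).filter
          (fun q : ℕ => (q : ℝ) ≤ T ^ (1 / 4 : ℝ)), ‖gg (al T) q‖ ^ 2 / q *
          (if (q : ℝ) ≤ T ^ (1 / 4 : ℝ) then C4 + 1 else (C1 + 1) / δ) =
          ‖gg (al T) q‖ ^ 2 / q * (C4 + 1) := by
        intro q hq
        rw [Finset.mem_filter] at hq
        rw [if_pos hq.2]
      rw [Finset.sum_congr rfl k2, ← Finset.sum_mul]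
      refine mul_le_mul_of_nonneg_right ?_ (by positivity)
      rw [← Finset.sum_filter_add_sum_filter_not (((Finset.Icc 1 (Nn δ T)).image f).filter
          (fun q : ℕ => (q : ℝ) ≤ T ^ (1 / 4 : ℝ))) (fun q => q = 1)]
      refine add_le_add ?_ ?_
      · calc ∑ q ∈ (((Finset.Icc 1 (Nn δ T)).image f).filter
              (fun q : ℕ => (q : ℝ) ≤ T ^ (1 / 4 : ℝ))).filter (fun q => q = 1),
              ‖gg (al T) q‖ ^ 2 / q ≤ ∑ q ∈ ({1} : Finset ℕ), ‖gg (al T) q‖ ^ 2 / q := by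
              refine Finset.sum_le_sum_of_subset_of_nonneg ?_ fun i _ _ => by positivity
              intro q hq
              rw [Finset.mem_filter] at hq
              exact Finset.mem_singleton.2 hq.2
          _ = 1 := by rw [Finset.sum_singleton, gg_one]; simp
      · refine (hs _ fun q hq => ?_).trans ?_
        · rw [Finset.mem_filter, Finset.mem_filter] at hq
          exact ⟨(hQ q hq.1.1).1, hq.2, (hQ q hq.1.1).2⟩
        · exact mul_le_of_le_one_right hC2.le (pow_le_one₀ hδ.le (by linarith))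
    · have k2 : ∀ q ∈ ((Finset.Icc 1 (Nn δ T)).image f).filter
          (fun q : ℕ => ¬ (q : ℝ) ≤ T ^ (1 / 4 : ℝ)), ‖gg (al T) q‖ ^ 2 / q *
          (if (q : ℝ) ≤ T ^ (1 / 4 : ℝ) then C4 + 1 else (C1 + 1) / δ) =
          ‖gg (al T) q‖ ^ 2 / q * ((C1 + 1) / δ) := by
        intro q hq
        rw [Finset.mem_filter] at hq
        rw [if_neg hq.2]
      rw [Finset.sum_congr rfl k2, ← Finset.sum_mul]
      have k3 := ht (((Finset.Icc 1 (Nn δ T)).image f).filter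
        (fun q : ℕ => ¬ (q : ℝ) ≤ T ^ (1 / 4 : ℝ))) fun q hq => by
          rw [Finset.mem_filter] at hq
          exact ⟨(hQ q hq.1).1, (not_le.1 hq.2).le, (hQ q hq.1).2⟩
      calc (∑ q ∈ ((Finset.Icc 1 (Nn δ T)).image f).filter
            (fun q : ℕ => ¬ (q : ℝ) ≤ T ^ (1 / 4 : ℝ)), ‖gg (al T) q‖ ^ 2 / q) * ((C1 + 1) / δ)
          ≤ C3 * Real.exp (-(1 / (4 * δ))) * ((C1 + 1) / δ) :=
            mul_le_mul_of_nonneg_right k3 (by positivity)
        _ = Real.exp (-(1 / (4 * δ))) / δ * (C3 * (C1 + 1)) := by ring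
        _ ≤ 4 * (C3 * (C1 + 1)) := mul_le_mul_of_nonneg_right (exp_div hδ) (by positivity)
  · have k0 : ∑ m ∈ Finset.Icc 1 (Nn δ T), ‖(am δ n T m : ℂ)‖ ^ 2 / m * ((m : ℝ) / M) ^ e =
        ∑ m ∈ (Finset.Icc 1 (Nn δ T)).filter (fun m => am δ n T m ≠ 0),
          ‖(am δ n T m : ℂ)‖ ^ 2 / m * ((m : ℝ) / M) ^ e := by
      rw [Finset.sum_filter]
      refine Finset.sum_congr rfl fun m _ => ?_
      by_cases h : am δ n T m = 0
      · rw [if_neg (not_not.2 h), h]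
        simp
      · rw [if_pos h]
    rw [k0]
    have hS : ∀ r ∈ (Finset.Icc 1 (Nn δ T)).filter (fun m => am δ n T m ≠ 0),
        1 * r ≤ Nn δ T ∧ Rgh z r := by
      intro m hm
      rw [Finset.mem_filter, Finset.mem_Icc] at hm
      rw [one_mul]
      exact ⟨hm.1.2, ap_rough hT (η := δ / (n + 1)) (by positivity) hm.2⟩
    obtain ⟨S', hS', e1, -, e3⟩ := hgen 1 one_ne_zero _ hS
    have e5 : ∀ r ∈ S', 1 * r ≤ Nn δ T ∧ Squarefree r ∧ Rgh (δ * Real.log T) r := fun r hr =>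
      ⟨(hS r (hS' hr)).1, (e1 r hr).1, (e1 r hr).2⟩
    have e6 := hsmall 1 one_ne_zero (by
      rw [Nat.cast_one]
      exact Real.one_le_rpow hT.le (by norm_num)) S' e5
    have e7 : ∑ m ∈ (Finset.Icc 1 (Nn δ T)).filter (fun m => am δ n T m ≠ 0),
        ‖(am δ n T m : ℂ)‖ ^ 2 / m * ((m : ℝ) / M) ^ e =
        ∑ r ∈ (Finset.Icc 1 (Nn δ T)).filter (fun m => am δ n T m ≠ 0),
          ‖(am δ n T r : ℂ)‖ ^ 2 * (((1 * r : ℕ) : ℝ) / M) ^ e / r := by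
      refine Finset.sum_congr rfl fun m _ => ?_
      rw [one_mul]
      ring
    rw [e7]
    refine e3.trans ?_
    have e8 : 0 ≤ C2 * (C4 + 1) := by positivity
    have e9 : 0 ≤ 4 * (C3 * (C1 + 1)) := by positivity
    nlinarith

end Pool.Agent.MP_67227b_nt.Ah
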