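import Pool.Agent.MP_67227b_nt.Ah.AhDefs
import Pool.Agent.MP_67227b_nt.Mo.Four

set_option autoImplicit false

open Filter Topology Set MeasureTheory Complex
open scoped Real ArithmeticFunction ContDiff

namespace Pool.Agent.MP_67227b_nt.Ah

open Pool.Agent.Lib.ZetaCount_helper33 Pool.Agent.MP_67227b_nt Pool.Agent.MP_67227b_nt.Mo
open Pool.Agent.MP_67227b_nt.Sg Pool.Agent.MP_67227b_nt.Pp
open Pool.Agent.MP_67227b_nt.Mo.MomentBAux (DP)

namespace test_funAux

open scoped Convolution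

/-- the function `g` without cutoff -/
noncomputable def g0 (k : ℤ) (v : ℝ) : ℂ :=
  (Complex.exp (-(π * I * k * v)) - (-1 : ℂ) ^ k) / 2

/-- the function `g`, extended by zero -/
noncomputable def gt (k : ℤ) (v : ℝ) : ℂ := if |v| ≤ 1 then g0 k v else 0

theorem exp_pi_int (k : ℤ) : Complex.exp (π * I * k) = (-1 : ℂ) ^ k := by
  rw [show (π : ℂ) * I * k = (k : ℂ) * (π * I) by ring, Complex.exp_int_mul, Complex.exp_pi_mul_I]

theorem norm_neg_one_zpow (k : ℤ) : ‖(-1 : ℂ) ^ k‖ = 1 := by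
  rw [norm_zpow, norm_neg, norm_one, one_zpow]

theorem neg_one_zpow_inv (k : ℤ) : (-1 : ℂ) ^ (-k) = (-1 : ℂ) ^ k := by
  rcases Int.even_or_odd k with h | h
  · rw [h.neg_one_zpow, (h.neg).neg_one_zpow]
  · rw [h.neg_one_zpow, (h.neg).neg_one_zpow]

theorem g0_one (k : ℤ) : g0 k 1 = 0 := by
  unfold g0
  have h1 : -((π : ℂ) * I * k * ((1 : ℝ) : ℂ)) = π * I * ((-k : ℤ) : ℂ) := by
    push_cast
    ring
  rw [h1, exp_pi_int, neg_one_zpow_inv, sub_self, zero_div]

theorem g0_neg_one (k : ℤ) : g0 k (-1) = 0 := by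
  unfold g0
  have h1 : -((π : ℂ) * I * k * ((-1 : ℝ) : ℂ)) = π * I * ((k : ℤ) : ℂ) := by
    push_cast
    ring
  rw [h1, exp_pi_int, sub_self, zero_div]

theorem g0_lip (k : ℤ) (v w : ℝ) : ‖g0 k v - g0 k w‖ ≤ (2 * |(k : ℝ)|) * |v - w| := by
  unfold g0
  rw [← sub_div, norm_div, Complex.norm_ofNat]
  have h1 : Complex.exp (-(π * I * k * v)) - (-1 : ℂ) ^ k - (Complex.exp (-(π * I * k * w)) - (-1 : ℂ) ^ k) =
      Complex.exp (-(π * I * k * w)) * (Complex.exp (I * ((-(π * k * (v - w)) : ℝ) : ℂ)) - 1) := by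
    rw [mul_sub, ← Complex.exp_add]
    push_cast
    ring_nf
  rw [h1, norm_mul]
  have h2 : ‖Complex.exp (-(π * I * k * w))‖ = 1 := by
    rw [Complex.norm_exp]
    simp
  rw [h2, one_mul]
  have h3 := Real.norm_exp_I_mul_ofReal_sub_one_le (x := -(π * k * (v - w)))
  rw [norm_neg, norm_mul, norm_mul, Real.norm_eq_abs, Real.norm_eq_abs, Real.norm_eq_abs,
    abs_of_pos Real.pi_pos] at h3
  have h4 := Real.pi_lt_four
  have h5 : 0 ≤ |(k : ℝ)| * |v - w| := by positivity
  rw [div_le_iff₀ (by norm_num)]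
  nlinarith

theorem gt_lip (k : ℤ) (v w : ℝ) : ‖gt k v - gt k w‖ ≤ (2 * |(k : ℝ)|) * |v - w| := by
  -- projection onto `[-1, 1]`
  have hp : ∀ v : ℝ, gt k v = g0 k (max (-1) (min 1 v)) := by
    intro v
    unfold gt
    split_ifs with h
    · obtain ⟨h1, h2⟩ := abs_le.1 h
      rw [min_eq_right h2, max_eq_right h1]
    · rw [abs_le, not_and_or, not_le, not_le] at h
      rcases h with h | h
      · rw [min_eq_right (by linarith), max_eq_left h.le, g0_neg_one]
      · rw [min_eq_left h.le, max_eq_right (by norm_num), g0_one]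
  rw [hp v, hp w]
  refine (g0_lip k _ _).trans ?_
  refine mul_le_mul_of_nonneg_left ?_ (by positivity)
  have h1 := abs_max_sub_max_le_max (-1) (min 1 v) (-1) (min 1 w)
  have h2 := abs_min_sub_min_le_max 1 v 1 w
  have h3 : max |(-1 : ℝ) - -1| |min 1 v - min 1 w| = |min 1 v - min 1 w| := by
    rw [sub_self, abs_zero]
    exact max_eq_right (abs_nonneg _)
  have h4 : max |(1 : ℝ) - 1| |v - w| = |v - w| := by
    rw [sub_self, abs_zero]
    exact max_eq_right (abs_nonneg _)
  rw [h3] at h1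
  rw [h4] at h2
  exact h1.trans h2

theorem gt_cont (k : ℤ) : Continuous (gt k) := by
  have : LipschitzWith (Real.toNNReal (2 * |(k : ℝ)|)) (gt k) := by
    refine LipschitzWith.of_dist_le_mul fun v w => ?_
    rw [dist_eq_norm, Real.dist_eq, Real.coe_toNNReal _ (by positivity)]
    exact gt_lip k v w
  exact this.continuous

theorem gt_zero {k : ℤ} {v : ℝ} (h : 1 ≤ |v|) : gt k v = 0 := by
  unfold gt
  split_ifs with h1
  · have h2 : |v| = 1 := le_antisymm h1 h
    rcases abs_eq (by norm_num : (0 : ℝ) ≤ 1) |>.1 h2 with h3 | h3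
    · rw [h3, g0_one]
    · rw [h3, g0_neg_one]
  · rfl

theorem gt_norm (k : ℤ) (v : ℝ) : ‖gt k v‖ ≤ 1 := by
  unfold gt
  split_ifs
  · unfold g0
    rw [norm_div, Complex.norm_ofNat, div_le_one (by norm_num)]
    refine (norm_sub_le _ _).trans ?_
    rw [norm_neg_one_zpow]
    have h2 : ‖Complex.exp (-(π * I * k * v))‖ = 1 := by
      rw [Complex.norm_exp]
      simp
    rw [h2]
    norm_num
  · rw [norm_zero]
    exact zero_le_one

/-- the elementary integral -/
theorem E_int (a : ℝ) : ∫ v in (-1 : ℝ)..1, Complex.exp (π * I * a * v) =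
    ((2 * Real.sinc (π * a) : ℝ) : ℂ) := by
  by_cases ha : a = 0
  · subst ha
    simp
    norm_num
  · have hpa : π * a ≠ 0 := mul_ne_zero Real.pi_ne_zero ha
    have hc : (π : ℂ) * I * a ≠ 0 := by
      have : (π : ℂ) * a ≠ 0 := by exact_mod_cast hpa
      intro h
      apply this
      have h2 : I * ((π : ℂ) * a) = 0 := by rw [← h]; ring
      exact (mul_eq_zero.1 h2).resolve_left Complex.I_ne_zero
    rw [integral_exp_mul_complex hc, Real.sinc_of_ne_zero hpa]
    have e1 : (π : ℂ) * I * a * ((1 : ℝ) : ℂ) = (π * a : ℂ) * I := by push_cast; ring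
    have e2 : (π : ℂ) * I * a * ((-1 : ℝ) : ℂ) = (-(π * a) : ℂ) * I := by push_cast; ring
    rw [e1, e2]
    push_cast
    rw [Complex.sin]
    have hpa' : (π : ℂ) * a ≠ 0 := by exact_mod_cast hpa
    field_simp
    ring_nf
    rw [Complex.I_sq]
    ring

/-- the transform of `g` -/
noncomputable def GG (k : ℤ) (u : ℝ) : ℂ := ∫ v : ℝ, gt k v * Complex.exp (2 * π * I * v * u)

theorem int_gt (k : ℤ) {f : ℝ → ℂ} : ∫ v : ℝ, gt k v * f v = ∫ v in (-1 : ℝ)..1, g0 k v * f v := by
  rw [intervalIntegral.integral_of_le (by norm_num), ← integral_Icc_eq_integral_Ioc,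
    ← integral_indicator measurableSet_Icc]
  refine integral_congr_ae (Eventually.of_forall fun v => ?_)
  simp only
  by_cases hv : v ∈ Icc (-1 : ℝ) 1
  · rw [Set.indicator_of_mem hv, gt, if_pos (abs_le.2 hv)]
  · rw [Set.indicator_of_notMem hv, gt, if_neg (fun h => hv (abs_le.1 h)), zero_mul]

theorem GG_eq (k : ℤ) (u : ℝ) : GG k u =
    (((2 * Real.sinc (π * (2 * u - k)) : ℝ) : ℂ) - (-1 : ℂ) ^ k * ((2 * Real.sinc (π * (2 * u)) : ℝ) : ℂ)) / 2 := by
  unfold GG
  rw [int_gt, ← E_int, ← E_int, ← intervalIntegral.integral_const_mul,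
    ← intervalIntegral.integral_sub, ← intervalIntegral.integral_div]
  · refine intervalIntegral.integral_congr fun v _ => ?_
    simp only [g0]
    have e1 : (π : ℂ) * I * ((2 * u - k : ℝ) : ℂ) * v = -(π * I * k * v) + 2 * π * I * v * u := by
      push_cast
      ring
    have e2 : (π : ℂ) * I * ((2 * u : ℝ) : ℂ) * v = 2 * π * I * v * u := by
      push_cast
      ring
    rw [e1, e2, Complex.exp_add]
    ring
  · exact Continuous.intervalIntegrable (by fun_prop) _ _
  · exact Continuous.intervalIntegrable (by fun_prop) _ _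

theorem sinc_pi_int {j : ℤ} (hj : j ≠ 0) : Real.sinc (π * j) = 0 := by
  have : (j : ℝ) ≠ 0 := by exact_mod_cast hj
  rw [Real.sinc_of_ne_zero (mul_ne_zero Real.pi_ne_zero this), mul_comm, Real.sin_int_mul_pi,
    zero_div]

theorem GG_half {k : ℤ} (hk : k ≠ 0) (j : ℤ) : GG k ((j : ℝ) / 2) =
    if j = k then (1 : ℂ) else if j = 0 then -((-1 : ℂ) ^ k) else 0 := by
  rw [GG_eq]
  have e1 : π * (2 * ((j : ℝ) / 2) - k) = π * ((j - k : ℤ) : ℝ) := by
    push_cast
    ring
  have e2 : π * (2 * ((j : ℝ) / 2)) = π * (j : ℝ) := by ring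
  rw [e1, e2]
  by_cases h1 : j = k
  · subst h1
    rw [if_pos rfl, sinc_pi_int hk, sub_self]
    simp
  · rw [if_neg h1, sinc_pi_int (sub_ne_zero.2 h1)]
    by_cases h2 : j = 0
    · subst h2
      rw [if_pos rfl]
      simp
      ring
    · rw [if_neg h2, sinc_pi_int h2]
      simp

theorem GG_bound (k : ℤ) (u : ℝ) : ‖GG k u‖ ≤ (2 * (1 + (k : ℝ) ^ 2)) / (1 + u ^ 2) := by
  rw [le_div_iff₀ (by positivity)]
  have hs : ∀ x : ℝ, ‖((2 * Real.sinc x : ℝ) : ℂ)‖ ≤ 2 := fun x => by
    rw [Complex.norm_real, norm_mul, Real.norm_eq_abs, Real.norm_eq_abs, abs_two]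
    have := Real.abs_sinc_le_one x
    linarith
  have htriv : ‖GG k u‖ ≤ 2 := by
    rw [GG_eq, norm_div, Complex.norm_ofNat, div_le_iff₀ (by norm_num)]
    refine (norm_sub_le _ _).trans ?_
    rw [norm_mul, norm_neg_one_zpow, one_mul]
    have h1 := hs (π * (2 * u - k))
    have h2 := hs (π * (2 * u))
    linarith
  rcases le_or_gt |u| |(k : ℝ)| with h | h
  · have h1 : u ^ 2 ≤ (k : ℝ) ^ 2 := by
      rw [← sq_abs u, ← sq_abs (k : ℝ)]
      gcongr
    nlinarith [norm_nonneg (GG k u)]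
  · rcases eq_or_ne k 0 with hk | hk
    · subst hk
      rw [GG_eq]
      simp only [Int.cast_zero, sub_zero, zpow_zero, one_mul, sub_self, zero_div, norm_zero, zero_mul]
      positivity
    have hk1 : (1 : ℝ) ≤ |(k : ℝ)| := by
      have : (1 : ℤ) ≤ |k| := Int.one_le_abs hk
      exact_mod_cast this
    have hu : u ≠ 0 := fun hu => by rw [hu, abs_zero] at h; linarith
    have hu2 : |u| ≤ |2 * u - k| := by
      have h1 : |2 * u| ≤ |2 * u - k| + |(k : ℝ)| := by
        calc |2 * u| = |(2 * u - k) + k| := by congr 1; ring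
          _ ≤ _ := abs_add_le _ _
      rw [abs_mul, abs_two] at h1
      linarith
    have hu3 : 2 * u - k ≠ 0 := fun h2 => by
      rw [h2, abs_zero] at hu2
      exact hu (abs_eq_zero.1 (le_antisymm hu2 (abs_nonneg _)))
    have hGu : GG k u = (((-1 : ℝ) ^ k * Real.sin (2 * π * u) * k / (π * (2 * u - k) * (2 * u)) : ℝ) : ℂ) := by
      rw [GG_eq, Real.sinc_of_ne_zero (mul_ne_zero Real.pi_ne_zero hu3),
        Real.sinc_of_ne_zero (mul_ne_zero Real.pi_ne_zero (mul_ne_zero two_ne_zero hu))]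
      have e1 : Real.sin (π * (2 * u - k)) = (-1 : ℝ) ^ k * Real.sin (2 * π * u) := by
        rw [show π * (2 * u - k) = 2 * π * u - k * π by ring, Real.sin_sub_int_mul_pi]
      have e2 : Real.sin (π * (2 * u)) = Real.sin (2 * π * u) := by
        congr 1
        ring
      rw [e1, e2]
      have hpi : (π : ℂ) ≠ 0 := by exact_mod_cast Real.pi_ne_zero
      have hu' : (u : ℂ) ≠ 0 := by exact_mod_cast hu
      have hu3' : (2 * (u : ℂ) - k) ≠ 0 := by exact_mod_cast hu3
      push_cast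
      field_simp
      ring
    rw [hGu, Complex.norm_real, Real.norm_eq_abs, abs_div, abs_mul, abs_mul, abs_mul, abs_mul]
    have e1 : |(-1 : ℝ) ^ k| = 1 := by
      rw [abs_zpow, abs_neg, abs_one, one_zpow]
    rw [e1, one_mul, abs_of_pos Real.pi_pos, abs_mul, abs_two]
    have hu0 : 0 < |u| := abs_pos.2 hu
    have e2 : |Real.sin (2 * π * u)| * |(k : ℝ)| / (π * |2 * u - k| * (2 * |u|)) ≤
        |(k : ℝ)| / (6 * u ^ 2) := by
      have h3 : |Real.sin (2 * π * u)| * |(k : ℝ)| ≤ |(k : ℝ)| :=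
        mul_le_of_le_one_left (abs_nonneg _) (Real.abs_sin_le_one _)
      have h4 : 6 * u ^ 2 ≤ π * |2 * u - k| * (2 * |u|) := by
        have h5 := Real.pi_gt_three
        have h6 : |u| * |u| ≤ |2 * u - k| * |u| := mul_le_mul_of_nonneg_right hu2 hu0.le
        have h7 : u ^ 2 = |u| * |u| := by rw [← sq_abs, sq]
        rw [h7]
        nlinarith [mul_pos hu0 hu0]
      refine div_le_div₀ (abs_nonneg _) h3 ?_ h4
      have : 0 < u ^ 2 := by positivity
      linarith
    refine (mul_le_mul_of_nonneg_right e2 (by positivity)).trans ?_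
    have h8 : 1 ≤ u ^ 2 := by
      rw [← sq_abs]
      nlinarith
    rw [div_mul_eq_mul_div, div_le_iff₀ (by positivity)]
    have h9 : |(k : ℝ)| ≤ 1 + (k : ℝ) ^ 2 := by
      rw [← sq_abs]
      nlinarith [abs_nonneg (k : ℝ)]
    have h10 : 0 ≤ |(k : ℝ)| := abs_nonneg _
    nlinarith [mul_nonneg h10 (by linarith : 0 ≤ u ^ 2 - 1), mul_nonneg (by linarith : 0 ≤ 1 + (k:ℝ)^2 - |(k : ℝ)|) (by linarith : 0 ≤ u ^ 2 - 1)]

/-- the value of the functional -/
theorem val {k : ℤ} (hk : k ≠ 0) : gt k 0 + (∫ x : ℝ, gt k x * ((|x| : ℝ) : ℂ)) -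
    (∫ x : ℝ, gt k x * 1) = ((1 / 2 - (1 - (-1 : ℝ) ^ k) / (π ^ 2 * (k : ℝ) ^ 2) : ℝ) : ℂ) := by
  rw [int_gt, int_gt]
  have hc0 : Continuous (fun x : ℝ => g0 k x) := by unfold g0; fun_prop
  rw [add_sub_assoc, ← intervalIntegral.integral_sub]
  · have h1 : ∀ x ∈ uIcc (-1 : ℝ) 1, g0 k x * ((|x| : ℝ) : ℂ) - g0 k x * 1 =
        ((-1 : ℂ) ^ k / 2) * ((1 - |x| : ℝ) : ℂ) * Complex.exp (2 * π * I * x * ((0 : ℝ) : ℂ)) -
          (1 / 2) * (((1 - |x| : ℝ) : ℂ) * Complex.exp (2 * π * I * x * ((-(k : ℝ) / 2 : ℝ) : ℂ))) := by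
      intro x _
      have e1 : 2 * π * I * x * ((-(k : ℝ) / 2 : ℝ) : ℂ) = -(π * I * k * x) := by
        push_cast
        ring
      rw [e1]
      unfold g0
      push_cast
      rw [mul_zero, Complex.exp_zero]
      ring
    rw [intervalIntegral.integral_congr h1, intervalIntegral.integral_sub]
    · simp_rw [mul_assoc ((-1 : ℂ) ^ k / 2)]
      rw [intervalIntegral.integral_const_mul, intervalIntegral.integral_const_mul, four_tri_exp,
        four_tri_exp]
      have hk' : (k : ℝ) ≠ 0 := by exact_mod_cast hk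
      have hk2 : π * (-(k : ℝ) / 2) ≠ 0 :=
        mul_ne_zero Real.pi_ne_zero (div_ne_zero (neg_ne_zero.2 hk') two_ne_zero)
      have e2 : Real.sinc (π * (-(k : ℝ) / 2)) ^ 2 = 2 * ((1 - (-1 : ℝ) ^ k) / (π ^ 2 * (k : ℝ) ^ 2)) := by
        rw [Real.sinc_of_ne_zero hk2, div_pow, Real.sin_sq_eq_half_sub]
        have e3 : Real.cos (2 * (π * (-(k : ℝ) / 2))) = (-1 : ℝ) ^ k := by
          rw [show 2 * (π * (-(k : ℝ) / 2)) = -(k * π) by ring, Real.cos_neg, Real.cos_int_mul_pi]
        rw [e3]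
        field_simp
      rw [e2, mul_zero, Real.sinc_zero]
      have e4 : gt k 0 = (1 - (-1 : ℂ) ^ k) / 2 := by
        unfold gt g0
        rw [if_pos (by simp)]
        simp
      rw [e4]
      push_cast
      ring
    · exact Continuous.intervalIntegrable (by fun_prop) _ _
    · exact Continuous.intervalIntegrable (by fun_prop) _ _
  · exact Continuous.intervalIntegrable (by fun_prop) _ _
  · exact Continuous.intervalIntegrable (by fun_prop) _ _

/-- the smoothed function -/
theorem exists_eta (k : ℤ) {d : ℝ} (hd : 0 < d) (hd1 : d ≤ 1 / 4) : ∃ η : ℝ → ℂ, Bump (1 - d) η ∧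
    (∀ v, ‖η v - gt k v‖ ≤ 12 * |(k : ℝ)| * d) ∧
    ∀ u : ℝ, ‖gs η (u : ℂ)‖ ≤ 8 * (1 + (k : ℝ) ^ 2) / (1 + u ^ 2) := by
  obtain ⟨l, hl⟩ : ∃ l, l = 1 - 2 * d := ⟨_, rfl⟩
  have hl0 : 1 / 2 ≤ l := by linarith
  have hl1 : l < 1 := by linarith
  have hlp : 0 < l := by linarith
  let φ : ContDiffBump (0 : ℝ) := ⟨d / 2, d, by positivity, by linarith⟩
  obtain ⟨gl, hgl⟩ : ∃ gl : ℝ → ℂ, gl = fun v => gt k (v / l) := ⟨_, rfl⟩
  have hglc : Continuous gl := by
    rw [hgl]
    exact (gt_cont k).comp (by fun_prop)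
  have hgl0 : ∀ v, l ≤ |v| → gl v = 0 := by
    intro v hv
    rw [hgl]
    refine gt_zero ?_
    rw [abs_div, abs_of_pos hlp, one_le_div hlp]
    exact hv
  have hglsupp : HasCompactSupport gl := by
    refine HasCompactSupport.intro (isCompact_Icc (a := -l) (b := l)) fun v hv => hgl0 v ?_
    by_contra h
    exact hv (abs_le.1 (not_le.1 h).le)
  have hgli : Integrable gl := hglc.integrable_of_hasCompactSupport hglsupp
  obtain ⟨η, hη⟩ : ∃ η : ℝ → ℂ, η = (φ.normed volume ⋆[ContinuousLinearMap.lsmul ℝ ℝ, volume] gl) := ⟨_, rfl⟩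
  have hηa : ∀ v, η v = ∫ t : ℝ, φ.normed volume t • gl (v - t) := fun v => by
    rw [hη]
    rfl
  have hφs : ∀ t, d ≤ |t| → φ.normed volume t = 0 := by
    intro t ht
    have h1 : Function.support (φ.normed volume) = Metric.ball 0 d := φ.support_normed_eq
    by_contra h
    have h2 : t ∈ Function.support (φ.normed volume) := h
    rw [h1, Metric.mem_ball, Real.dist_eq, sub_zero] at h2
    linarith
  refine ⟨η, ⟨?_, ?_⟩, ?_, ?_⟩
  · rw [hη]
    exact φ.hasCompactSupport_normed.contDiff_convolution_left _ φ.contDiff_normed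
      hgli.locallyIntegrable
  · intro v hv
    rw [hηa]
    refine integral_eq_zero_of_ae (Eventually.of_forall fun t => ?_)
    simp only [Pi.zero_apply]
    rcases le_or_gt d |t| with h | h
    · rw [hφs t h, zero_smul]
    · rw [hgl0 (v - t) ?_, smul_zero]
      have h1 : |v| ≤ |v - t| + |t| := by
        calc |v| = |(v - t) + t| := by congr 1; ring
          _ ≤ _ := abs_add_le _ _
      linarith
  · intro v
    have hk0 := abs_nonneg (k : ℝ)
    have h1 : dist (η v) (gl v) ≤ 4 * |(k : ℝ)| * d := by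
      rw [hη]
      refine φ.dist_normed_convolution_le hglc.aestronglyMeasurable fun x hx => ?_
      have hx' : |x - v| < d := by
        rw [Metric.mem_ball, Real.dist_eq] at hx
        exact hx
      rw [dist_eq_norm, hgl]
      refine (gt_lip k _ _).trans ?_
      rw [← sub_div, abs_div, abs_of_pos hlp]
      have h2 : |x - v| / l ≤ 2 * d := by
        rw [div_le_iff₀ hlp]
        nlinarith [abs_nonneg (x - v)]
      nlinarith
    have h2 : ‖gl v - gt k v‖ ≤ 8 * |(k : ℝ)| * d := by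
      rcases le_or_gt 1 |v| with h | h
      · rw [gt_zero h, hgl0 v (by linarith), sub_zero, norm_zero]
        positivity
      · rw [hgl]
        refine (gt_lip k _ _).trans ?_
        have h3 : v / l - v = v * (2 * d) / l := by
          rw [hl]
          have : 1 - 2 * d ≠ 0 := by rw [← hl]; exact hlp.ne'
          field_simp
          ring
        rw [h3, abs_div, abs_mul, abs_of_pos hlp, abs_of_pos (by positivity : 0 < 2 * d)]
        have h4 : |v| * (2 * d) / l ≤ 4 * d := by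
          rw [div_le_iff₀ hlp]
          nlinarith
        nlinarith
    rw [dist_eq_norm] at h1
    calc ‖η v - gt k v‖ = ‖(η v - gl v) + (gl v - gt k v)‖ := by congr 1; ring
      _ ≤ ‖η v - gl v‖ + ‖gl v - gt k v‖ := norm_add_le _ _
      _ ≤ 12 * |(k : ℝ)| * d := by linarith
  · intro u
    have hE : Continuous fun v : ℝ => Complex.exp (2 * π * I * v * u) := by fun_prop
    have hEn : ∀ v : ℝ, ‖Complex.exp (2 * π * I * v * u)‖ = 1 := fun v => by
      rw [Complex.norm_exp]
      simp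
    have hφi : Integrable fun t : ℝ => (φ.normed volume t : ℂ) * Complex.exp (2 * π * I * t * u) := by
      refine φ.integrable_normed.norm.mono' ?_ (Eventually.of_forall fun t => ?_)
      · refine Continuous.aestronglyMeasurable ?_
        exact (Complex.continuous_ofReal.comp φ.continuous_normed).mul hE
      · rw [norm_mul, hEn, mul_one, Complex.norm_real]
    have hgi : Integrable fun t : ℝ => gl t * Complex.exp (2 * π * I * t * u) := by
      refine hgli.norm.mono' (hglc.mul hE).aestronglyMeasurable (Eventually.of_forall fun t => ?_)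
      rw [norm_mul, hEn, mul_one]
    have h1 : gs η (u : ℂ) = (∫ t : ℝ, (φ.normed volume t : ℂ) * Complex.exp (2 * π * I * t * u)) *
        ∫ t : ℝ, gl t * Complex.exp (2 * π * I * t * u) := by
      have h2 := integral_convolution (L := ContinuousLinearMap.mul ℝ ℂ) (μ := volume) (ν := volume)
        hφi hgi
      rw [ContinuousLinearMap.mul_apply'] at h2
      rw [← h2]
      unfold gs
      refine integral_congr_ae (Eventually.of_forall fun v => ?_)
      simp only
      rw [hηa, ← integral_mul_const]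
      show _ = ∫ t : ℝ, ContinuousLinearMap.mul ℝ ℂ ((φ.normed volume t : ℂ) *
        Complex.exp (2 * π * I * t * u)) (gl (v - t) * Complex.exp (2 * π * I * ((v - t : ℝ) : ℂ) * u))
      refine integral_congr_ae (Eventually.of_forall fun t => ?_)
      simp only [ContinuousLinearMap.mul_apply']
      rw [Complex.real_smul]
      have e1 : Complex.exp (2 * π * I * v * u) = Complex.exp (2 * π * I * t * u) *
          Complex.exp (2 * π * I * ((v - t : ℝ) : ℂ) * u) := by
        rw [← Complex.exp_add]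
        congr 1
        push_cast
        ring
      rw [e1]
      ring
    have h3 : ‖∫ t : ℝ, (φ.normed volume t : ℂ) * Complex.exp (2 * π * I * t * u)‖ ≤ 1 := by
      refine (norm_integral_le_integral_norm _).trans ?_
      have h4 : ∀ t : ℝ, ‖(φ.normed volume t : ℂ) * Complex.exp (2 * π * I * t * u)‖ =
          φ.normed volume t := fun t => by
        rw [norm_mul, hEn, mul_one, Complex.norm_real, Real.norm_of_nonneg (φ.nonneg_normed t)]
      simp_rw [h4]
      rw [φ.integral_normed]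
    have h4 : ∫ t : ℝ, gl t * Complex.exp (2 * π * I * t * u) = (l : ℂ) * GG k (l * u) := by
      have h5 := Measure.integral_comp_div (fun v : ℝ => gt k v *
        Complex.exp (2 * π * I * v * ((l * u : ℝ) : ℂ))) l
      rw [abs_of_pos hlp, Complex.real_smul] at h5
      unfold GG
      rw [← h5, hgl]
      refine integral_congr_ae (Eventually.of_forall fun v => ?_)
      simp only
      congr 2
      push_cast
      have : (l : ℂ) ≠ 0 := by exact_mod_cast hlp.ne'
      field_simp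
    rw [h1, h4, norm_mul, norm_mul, Complex.norm_real, Real.norm_of_nonneg hlp.le]
    have h5 := GG_bound k (l * u)
    have h6 : (2 * (1 + (k : ℝ) ^ 2)) / (1 + (l * u) ^ 2) ≤ 8 * (1 + (k : ℝ) ^ 2) / (1 + u ^ 2) := by
      rw [div_le_div_iff₀ (by positivity) (by positivity)]
      have h7 : 1 + u ^ 2 ≤ 4 * (1 + (l * u) ^ 2) := by
        have h8 : 1 / 4 ≤ l ^ 2 := by nlinarith
        nlinarith [sq_nonneg u]
      have h9 : 0 ≤ 2 * (1 + (k : ℝ) ^ 2) := by positivity
      nlinarith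
    calc _ ≤ 1 * (1 * ‖GG k (l * u)‖) := by
          refine mul_le_mul h3 ?_ (by positivity) zero_le_one
          exact mul_le_mul_of_nonneg_right hl1.le (norm_nonneg _)
      _ ≤ _ := by
          rw [one_mul, one_mul]
          exact h5.trans h6

end test_funAux

open test_funAux in
/-- MODULE TEST. Test functions. Let `g(v) = (e^{-π i k v} - (-1)^k)/2`, `g(±1) = 0`, and
`η = g χ` with a smooth even cutoff `χ`, `χ = 1` on `|v| ≤ 1 - 2δ'`, `χ = 0` for `|v| ≥ 1 - δ'`, `|χ'| ≤ C/δ'`,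
`|χ''| ≤ C/δ'^2` (scale one fixed smooth step, `Real.smoothTransition`). Then `∫ ‖η''‖ ≤ C` (as
`‖g‖ ≤ C (1 - |v|)`), so two integrations by parts give the decay. For real `u`,
`‖gs η u - ∫_{-1}^1 g(v) e^{2π i v u} dv‖ ≤ C δ'`, and for `u = j/2` the integral is
`1_{j = k} - (-1)^k 1_{j = 0}`. The last expression tends to
`g(0) - ∫_{-1}^1 (1 - |x|) g = 1/2 - sinc(π k/2)^2/2` (`four_tri_exp`), and
`sinc (π k/2)^2/2 = (1 - (-1)^k)/(π^2 k^2)`. -/
theorem test_fun {k : ℤ} (hk : k ≠ 0) : ∃ C : ℝ, 0 < C ∧ ∀ ε : ℝ, 0 < ε →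
    ∃ (δ : ℝ) (η : ℝ → ℂ), 0 ≤ δ ∧ δ < 1 ∧ Bump δ η ∧
      (∀ u : ℝ, ‖gs η (u : ℂ)‖ ≤ C / (1 + u ^ 2)) ∧
      (∀ j : ℤ, ‖gs η (((j : ℝ) / 2 : ℝ) : ℂ) -
        (if j = k then (1 : ℂ) else if j = 0 then -((-1 : ℂ) ^ k) else 0)‖ ≤ ε) ∧
      ‖η 0 + (∫ x : ℝ, ((|x| : ℝ) : ℂ) * η x) - (∫ x : ℝ, η x) -
        ((1 / 2 - (1 - (-1 : ℝ) ^ k) / (π ^ 2 * (k : ℝ) ^ 2) : ℝ) : ℂ)‖ ≤ ε := by
  refine ⟨8 * (1 + (k : ℝ) ^ 2), by positivity, fun ε hε => ?_⟩
  have hk0 : 0 ≤ |(k : ℝ)| := abs_nonneg _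
  obtain ⟨d, hd⟩ : ∃ d, d = min (1 / 4) (ε / (100 * (|(k : ℝ)| + 1))) := ⟨_, rfl⟩
  have hd0 : 0 < d := by rw [hd]; positivity
  have hd1 : d ≤ 1 / 4 := by rw [hd]; exact min_le_left _ _
  have hd2 : d * (100 * (|(k : ℝ)| + 1)) ≤ ε := by
    rw [← le_div_iff₀ (by positivity), hd]
    exact min_le_right _ _
  obtain ⟨η, hb, hclose, hdec⟩ := exists_eta k hd0 hd1
  refine ⟨1 - d, η, by linarith, by linarith, hb, hdec, ?_, ?_⟩
  all_goals
    have hηi : Integrable η := four_integrable hb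
    have hηc : Continuous η := hb.smooth.continuous
    have hsm : 48 * |(k : ℝ)| * d ≤ ε := by nlinarith
    have hgi : ∀ f : ℝ → ℂ, Continuous f → Integrable fun x => gt k x * f x := by
      intro f hf
      refine ((gt_cont k).mul hf).integrable_of_hasCompactSupport ?_
      refine HasCompactSupport.intro (isCompact_Icc (a := (-1 : ℝ)) (b := 1)) fun v hv => ?_
      rw [Pi.mul_apply, gt_zero, zero_mul]
      by_contra h
      exact hv (abs_le.1 (not_le.1 h).le)
    have hηf : ∀ f : ℝ → ℂ, Continuous f → Integrable fun x => η x * f x := by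
      intro f hf
      refine (hηc.mul hf).integrable_of_hasCompactSupport ?_
      refine HasCompactSupport.intro (isCompact_Icc (a := (-1 : ℝ)) (b := 1)) fun v hv => ?_
      rw [Pi.mul_apply, hb.supp, zero_mul]
      by_contra h
      exact hv (abs_le.1 (by linarith))
    have hmain : ∀ f : ℝ → ℂ, Continuous f → (∀ x, |x| ≤ 1 → ‖f x‖ ≤ 1) →
        ‖(∫ x : ℝ, η x * f x) - ∫ x : ℝ, gt k x * f x‖ ≤ 24 * |(k : ℝ)| * d := by
      intro f hf hf1
      rw [← integral_sub (hηf f hf) (hgi f hf)]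
      have h0 : ∀ x : ℝ, x ∉ Icc (-1 : ℝ) 1 → η x * f x - gt k x * f x = 0 := by
        intro x hx
        have hx1 : 1 < |x| := by
          by_contra h
          exact hx (abs_le.1 (not_lt.1 h))
        rw [gt_zero hx1.le, hb.supp x (by linarith)]
        ring
      rw [← setIntegral_eq_integral_of_forall_compl_eq_zero h0]
      refine (norm_setIntegral_le_of_norm_le_const (C := 12 * |(k : ℝ)| * d) (by simp) fun x hx => ?_).trans ?_
      · rw [← sub_mul, norm_mul]
        have h1 := hclose x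
        have h2 := hf1 x (abs_le.2 hx)
        calc ‖η x - gt k x‖ * ‖f x‖ ≤ (12 * |(k : ℝ)| * d) * 1 :=
              mul_le_mul h1 h2 (norm_nonneg _) (by positivity)
          _ = _ := mul_one _
      · rw [Measure.real, Real.volume_Icc, ENNReal.toReal_ofReal (by norm_num)]
        linarith
  · intro j
    rw [← GG_half hk j]
    unfold gs GG
    have h1 := hmain (fun v : ℝ => Complex.exp (2 * π * I * v * (((j : ℝ) / 2 : ℝ) : ℂ))) (by fun_prop)
      (fun x _ => by rw [Complex.norm_exp]; simp)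
    refine h1.trans ?_
    nlinarith
  · rw [← val hk]
    have h1 := hmain (fun x => ((|x| : ℝ) : ℂ)) (by fun_prop) (fun x hx => by
      rw [Complex.norm_real, Real.norm_eq_abs, abs_abs]
      exact hx)
    have h2 := hmain (fun _ => 1) continuous_const (fun x _ => by simp)
    have h3 := hclose 0
    have e1 : ∀ x : ℝ, ((|x| : ℝ) : ℂ) * η x = η x * ((|x| : ℝ) : ℂ) := fun x => mul_comm _ _
    have e2 : ∫ x : ℝ, η x = ∫ x : ℝ, η x * 1 := by simp
    simp_rw [e1]
    rw [e2]
    set A := ∫ x : ℝ, η x * ((|x| : ℝ) : ℂ)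
    set A' := ∫ x : ℝ, gt k x * ((|x| : ℝ) : ℂ)
    set B := ∫ x : ℝ, η x * 1
    set B' := ∫ x : ℝ, gt k x * 1
    have e3 : η 0 + A - B - (gt k 0 + A' - B') = ((η 0 - gt k 0) + (A - A')) - (B - B') := by ring
    rw [e3]
    refine (norm_sub_le _ _).trans ?_
    have h4 := norm_add_le (η 0 - gt k 0) (A - A')
    nlinarith

end Pool.Agent.MP_67227b_nt.Ah
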