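import Pool.Agent.MP_67227b_nt.Ah.AhBand
import Pool.Agent.MP_67227b_nt.Ah.AhTest
import Pool.Agent.MP_67227b_nt.PairFar67

set_option autoImplicit false

open Filter Topology Set MeasureTheory Complex
open scoped Real ArithmeticFunction ContDiff

namespace Pool.Agent.MP_67227b_nt.Ah

open Pool.Agent.Lib.ZetaCount_helper33 Pool.Agent.MP_67227b_nt Pool.Agent.MP_67227b_nt.Mo
open Pool.Agent.MP_67227b_nt.Sg Pool.Agent.MP_67227b_nt.Pp
open Pool.Agent.MP_67227b_nt.Mo.MomentBAux (DP)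

namespace mu_atomAux

theorem between {x : ℝ} (hx : ∀ k : ℤ, x ≠ (k : ℝ) / 2) :
    (⌊2 * x⌋ : ℝ) / 2 < x ∧ x < ((⌊2 * x⌋ : ℝ) + 1) / 2 := by
  have h1 := Int.floor_le (2 * x)
  have h2 := Int.lt_floor_add_one (2 * x)
  refine ⟨lt_of_le_of_ne (by linarith) fun h => hx ⌊2 * x⌋ h.symm, by linarith⟩

theorem nohalf {m : ℤ} {x : ℝ} (h1 : (m : ℝ) / 2 < x) (h2 : x < ((m : ℝ) + 1) / 2) (k : ℤ) :
    x ≠ (k : ℝ) / 2 := by
  rintro rfl
  have h3 : (m : ℝ) < k := by linarith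
  have h4 : (k : ℝ) < (m : ℝ) + 1 := by linarith
  have h5 : m < k := by exact_mod_cast h3
  have h6 : k < m + 1 := by exact_mod_cast h4
  omega

theorem null_Icc {U : Filter ℝ} [U.NeBot] (hU : U ≤ atTop)
    {μ : Measure (Fin 1 → ℝ)} [IsLocallyFiniteMeasure μ]
    (hμ : VagueLim (fun T => nuT goodFamily_zeta 1 T) U μ)
    (hs : ∀ a b : ℝ, (∀ k : ℤ, (k : ℝ) / 2 ∉ Icc a b) →
      Tendsto (fun T : ℝ => (pairCount T a b : ℝ) / zeroScale T) U (𝓝 0))
    {a b : ℝ} (hab : ∀ k : ℤ, (k : ℝ) / 2 ∉ Icc a b) :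
    μ (Icc (fun _ => a) (fun _ => b)) = 0 := by
  rcases lt_or_ge b a with h | hle
  · have h1 : Icc (fun _ : Fin 1 => a) (fun _ => b) = ∅ := by
      refine Icc_eq_empty fun h2 => ?_
      have := h2 0
      simp only at this
      linarith
    rw [h1, measure_empty]
  have ha := between (x := a) fun k hk => hab k (by rw [← hk]; exact ⟨le_rfl, hle⟩)
  obtain ⟨m, hm⟩ : ∃ m, m = ⌊2 * a⌋ := ⟨_, rfl⟩
  rw [← hm] at ha
  have hb : b < ((m : ℝ) + 1) / 2 := by
    by_contra h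
    push Not at h
    apply hab (m + 1)
    push_cast
    exact ⟨ha.2.le, h⟩
  obtain ⟨a', ha'⟩ : ∃ a', a' = ((m : ℝ) / 2 + a) / 2 := ⟨_, rfl⟩
  obtain ⟨b', hb'⟩ : ∃ b', b' = (b + ((m : ℝ) + 1) / 2) / 2 := ⟨_, rfl⟩
  have hno : ∀ k : ℤ, (k : ℝ) / 2 ∉ Icc a' b' := by
    intro k hk
    exact nohalf (m := m) (x := (k : ℝ) / 2) (by linarith [hk.1, ha.1]) (by linarith [hk.2]) k rfl
  have hlim := hs a' b' hno
  have hK : IsCompact (Icc (fun _ : Fin 1 => a) (fun _ => b)) := isCompact_Icc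
  have hV : IsOpen {u : Fin 1 → ℝ | a' < u 0 ∧ u 0 < b'} :=
    (isOpen_lt continuous_const (continuous_apply 0)).inter
      (isOpen_lt (continuous_apply 0) continuous_const)
  have hKV : Icc (fun _ : Fin 1 => a) (fun _ => b) ⊆ {u : Fin 1 → ℝ | a' < u 0 ∧ u 0 < b'} := by
    intro u hu
    have h1 := hu.1 0
    have h2 := hu.2 0
    simp only at h1 h2
    exact ⟨by linarith [ha.1], by linarith⟩
  have hreal : μ.real (Icc (fun _ : Fin 1 => a) (fun _ => b)) = 0 := by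
    refine le_antisymm ?_ measureReal_nonneg
    refine le_of_forall_pos_le_add fun δ hδ => ?_
    have h1 := vague_lower hμ hK hV hKV (half_pos hδ)
    have h2 := hlim.eventually (gt_mem_nhds (half_pos hδ))
    have h3 : ∀ᶠ T in U, (1 : ℝ) < T := hU (eventually_gt_atTop 1)
    obtain ⟨T, h1, h2, h3⟩ := (h1.and (h2.and h3)).exists
    have h4 : (nuT goodFamily_zeta 1 T).real {u : Fin 1 → ℝ | a' < u 0 ∧ u 0 < b'} ≤
        (nuT goodFamily_zeta 1 T).real (Icc (fun _ => a') (fun _ => b')) := by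
      refine measureReal_mono fun u hu => ⟨fun i => ?_, fun i => ?_⟩
      · rw [Subsingleton.elim i 0]
        exact hu.1.le
      · rw [Subsingleton.elim i 0]
        exact hu.2.le
    rw [real_nuT _ h3, ← pairCount_eq] at h4
    linarith
  exact (measureReal_eq_zero_iff hK.measure_lt_top.ne).1 hreal

theorem summable_bound : Summable fun j : ℤ => 1 / (1 + ((j : ℝ) / 2) ^ 2) := by
  have h1 : Summable fun j : ℤ => 4 * (1 / (j : ℝ) ^ 2) + (if j = 0 then (1 : ℝ) else 0) := by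
    refine Summable.add ((Real.summable_one_div_int_pow.2 (by norm_num)).mul_left 4) ?_
    exact (hasSum_ite_eq 0 1).summable
  refine Summable.of_nonneg_of_le (fun j => by positivity) (fun j => ?_) h1
  by_cases hj : j = 0
  · subst hj
    simp
  · rw [if_neg hj, add_zero]
    have : (j : ℝ) ≠ 0 := by exact_mod_cast hj
    rw [mul_one_div, div_le_div_iff₀ (by positivity) (by positivity)]
    nlinarith [sq_nonneg (j : ℝ)]

/-- the sum over the atoms -/
theorem hasSum_atoms {μ : Measure (Fin 1 → ℝ)} (hs : μ {u | ∀ k : ℤ, u 0 ≠ (k : ℝ) / 2} = 0)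
    {f : (Fin 1 → ℝ) → ℂ} (hf : Integrable f μ) :
    HasSum (fun j : ℤ => (μ.real {fun _ => (j : ℝ) / 2} : ℂ) * f (fun _ => (j : ℝ) / 2))
      (∫ u, f u ∂μ) := by
  have hdisj : Pairwise (Function.onFun Disjoint
      fun j : ℤ => ({fun _ => (j : ℝ) / 2} : Set (Fin 1 → ℝ))) := by
    intro i j hij
    rw [Function.onFun, Set.disjoint_singleton]
    intro h
    apply hij
    have h1 : (i : ℝ) / 2 = (j : ℝ) / 2 := congrFun h 0
    have h2 : (i : ℝ) = j := by linarith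
    exact_mod_cast h2
  have h1 := hasSum_integral_iUnion (μ := μ) (f := f)
    (fun j : ℤ => measurableSet_singleton (fun _ : Fin 1 => (j : ℝ) / 2)) hdisj hf.integrableOn
  have h2 : ∫ u in ⋃ j : ℤ, ({fun _ => (j : ℝ) / 2} : Set (Fin 1 → ℝ)), f u ∂μ = ∫ u, f u ∂μ := by
    rw [Measure.restrict_eq_self_of_ae_mem]
    rw [ae_iff]
    refine measure_mono_null (fun u hu => ?_) hs
    intro k hk
    apply hu
    rw [Set.mem_iUnion]
    refine ⟨k, ?_⟩
    rw [Set.mem_singleton_iff]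
    funext i
    rw [Subsingleton.elim i 0]
    exact hk
  rw [h2] at h1
  have h3 : (fun j : ℤ => ∫ u in ({fun _ => (j : ℝ) / 2} : Set (Fin 1 → ℝ)), f u ∂μ) =
      fun j : ℤ => (μ.real {fun _ => (j : ℝ) / 2} : ℂ) * f (fun _ => (j : ℝ) / 2) := by
    funext j
    rw [integral_singleton, Complex.real_smul]
  rw [h3] at h1
  exact h1

end mu_atomAux

open mu_atomAux in
/-- MODULE ATOM1. The limit measure lives on the half-integers: the complement is a countable union of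
compact intervals `[a, b]` without half-integers; take `a' < a`, `b < b'` still without half-integers:
`μ [a, b] ≤ liminf ν_T [a', b'] = liminf pairCount T a' b'/zeroScale T = 0` (`vague_lower`, `real_nuT`,
`pairCount_eq` of `PairFar67`, or unfold). -/
theorem mu_half {U : Filter ℝ} [U.NeBot] (hU : U ≤ atTop)
    {μ : Measure (Fin 1 → ℝ)} [IsLocallyFiniteMeasure μ]
    (hμ : VagueLim (fun T => nuT goodFamily_zeta 1 T) U μ)
    (hs : ∀ a b : ℝ, (∀ k : ℤ, (k : ℝ) / 2 ∉ Icc a b) →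
      Tendsto (fun T : ℝ => (pairCount T a b : ℝ) / zeroScale T) U (𝓝 0)) :
    μ {u | ∀ k : ℤ, u 0 ≠ (k : ℝ) / 2} = 0 := by
  have h1 : {u : Fin 1 → ℝ | ∀ k : ℤ, u 0 ≠ (k : ℝ) / 2} ⊆
      ⋃ p : {p : ℚ × ℚ // ∀ k : ℤ, (k : ℝ) / 2 ∉ Icc (p.1 : ℝ) (p.2 : ℝ)},
        Icc (fun _ => (p.1.1 : ℝ)) (fun _ => (p.1.2 : ℝ)) := by
    intro u hu
    obtain ⟨h2, h3⟩ := between hu
    obtain ⟨p, hp1, hp2⟩ := exists_rat_btwn h2
    obtain ⟨q, hq1, hq2⟩ := exists_rat_btwn h3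
    rw [Set.mem_iUnion]
    refine ⟨⟨(p, q), fun k hk => ?_⟩, fun i => ?_, fun i => ?_⟩
    · exact nohalf (m := ⌊2 * u 0⌋) (x := (k : ℝ) / 2) (lt_of_lt_of_le hp1 hk.1)
        (lt_of_le_of_lt hk.2 hq2) k rfl
    · rw [Subsingleton.elim i 0]
      exact hp2.le
    · rw [Subsingleton.elim i 0]
      exact hq1.le
  refine measure_mono_null h1 (measure_iUnion_null fun p => ?_)
  exact null_Icc hU hμ hs p.2

open mu_atomAux in
/-- MODULE ATOM2. The masses. As `μ` lives on the half-integers, `∫ gs η dμ = ∑_j p_j gs η (j/2)`,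
`p_j = μ.real {j/2} ≤ C'` (`mu_tb`), `|gs η (j/2)| ≤ C/(1 + j²/4)`. With the `η` of `test_fun` and
`ε → 0` (Tannery) the sum tends to `p_k - (-1)^k p_0 = p_k`, and by `mu_band` the integral tends to
the stated value. -/
theorem mu_atom (hRH : RiemannHypothesis) {U : Filter ℝ} [U.NeBot] (hU : U ≤ atTop)
    {μ : Measure (Fin 1 → ℝ)} [IsLocallyFiniteMeasure μ]
    (hμ : VagueLim (fun T => nuT goodFamily_zeta 1 T) U μ)
    (hs : μ {u | ∀ k : ℤ, u 0 ≠ (k : ℝ) / 2} = 0) (h0 : μ {fun _ => 0} = 0) {k : ℤ}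
    (hk : k ≠ 0) : μ.real {fun _ => (k : ℝ) / 2} =
      1 / 2 - (1 - (-1 : ℝ) ^ k) / (π ^ 2 * (k : ℝ) ^ 2) := by
  obtain ⟨C', hC', htb⟩ := mu_tb hRH hU hμ
  obtain ⟨C, hC, htest⟩ := test_fun hk
  obtain ⟨p, hp⟩ : ∃ p : ℤ → ℝ, p = fun j : ℤ => μ.real {fun _ => (j : ℝ) / 2} := ⟨_, rfl⟩
  have hp0 : ∀ j, 0 ≤ p j := fun j => by rw [hp]; exact measureReal_nonneg
  have hpC : ∀ j, p j ≤ C' := fun j => by
    rw [hp]
    refine le_trans (measureReal_mono ?_ ?_) (htb ((j : ℝ) / 2))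
    · rw [Set.singleton_subset_iff]
      exact Metric.mem_closedBall_self (by norm_num)
    · exact (isCompact_closedBall _ _).measure_lt_top.ne
  choose δ η hδ0 hδ1 hb hdec hval hfun using fun n : ℕ => htest (1 / ((n : ℝ) + 1)) (by positivity)
  have heps : Tendsto (fun n : ℕ => 1 / ((n : ℝ) + 1)) atTop (𝓝 0) :=
    tendsto_one_div_add_atTop_nhds_zero_nat
  set e : ℤ → ℂ := fun j => if j = k then (1 : ℂ) else if j = 0 then -((-1 : ℂ) ^ k) else 0 with he
  have hsum : ∀ n, HasSum (fun j : ℤ => (p j : ℂ) * gs (η n) (((j : ℝ) / 2 : ℝ) : ℂ))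
      (∫ u : Fin 1 → ℝ, gs (η n) (u 0 : ℂ) ∂μ) := by
    intro n
    have h1 := hasSum_atoms hs (mu_band hRH hU hμ (hδ0 n) (hδ1 n) (hb n)).1
    rw [hp]
    exact h1
  have hlim1 : Tendsto (fun n => ∑' j : ℤ, (p j : ℂ) * gs (η n) (((j : ℝ) / 2 : ℝ) : ℂ)) atTop
      (𝓝 (∑' j : ℤ, (p j : ℂ) * e j)) := by
    refine tendsto_tsum_of_dominated_convergence (bound := fun j : ℤ => (C' * C) *
      (1 / (1 + ((j : ℝ) / 2) ^ 2))) (summable_bound.mul_left _) (fun j => ?_)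
      (Eventually.of_forall fun n j => ?_)
    · refine Tendsto.const_mul _ ?_
      rw [tendsto_iff_norm_sub_tendsto_zero]
      exact squeeze_zero (fun _ => norm_nonneg _) (fun n => hval n j) heps
    · rw [norm_mul, Complex.norm_real, Real.norm_of_nonneg (hp0 j), mul_assoc, mul_one_div]
      exact mul_le_mul (hpC j) (hdec n _) (norm_nonneg _) hC'.le
  have hlim2 : Tendsto (fun n => ∑' j : ℤ, (p j : ℂ) * gs (η n) (((j : ℝ) / 2 : ℝ) : ℂ)) atTop
      (𝓝 ((1 / 2 - (1 - (-1 : ℝ) ^ k) / (π ^ 2 * (k : ℝ) ^ 2) : ℝ) : ℂ)) := by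
    rw [tendsto_iff_norm_sub_tendsto_zero]
    refine squeeze_zero (fun _ => norm_nonneg _) (fun n => ?_) heps
    rw [(hsum n).tsum_eq, (mu_band hRH hU hμ (hδ0 n) (hδ1 n) (hb n)).2]
    exact hfun n
  have hlim := tendsto_nhds_unique hlim1 hlim2
  have hp00 : p 0 = 0 := by
    rw [hp]
    simp only [Int.cast_zero, zero_div]
    rw [Measure.real, h0, ENNReal.toReal_zero]
  have hts : ∑' j : ℤ, (p j : ℂ) * e j = p k := by
    rw [tsum_eq_single k]
    · rw [he]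
      simp
    · intro j hj
      rw [he]
      simp only [if_neg hj]
      split_ifs with h
      · rw [h, hp00]
        simp
      · rw [mul_zero]
  rw [hts] at hlim
  have h2 : p k = 1 / 2 - (1 - (-1 : ℝ) ^ k) / (π ^ 2 * (k : ℝ) ^ 2) := by exact_mod_cast hlim
  rw [← h2, hp]

end Pool.Agent.MP_67227b_nt.Ah
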