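import Pool.Agent.MP_67227b_nt.Ah.AhDefs

set_option autoImplicit false

open Filter Topology Set MeasureTheory Complex
open scoped Real ArithmeticFunction ContDiff

namespace Pool.Agent.MP_67227b_nt.Ah

open Pool.Agent.Lib.ZetaCount_helper33 Pool.Agent.MP_67227b_nt Pool.Agent.MP_67227b_nt.Mo
open Pool.Agent.MP_67227b_nt.Sg Pool.Agent.MP_67227b_nt.Pp
open Pool.Agent.MP_67227b_nt.Mo.MomentBAux (DP)

namespace AhAvgAux

private theorem swap {F : ℝ → ℝ → ℝ} {a b c d : ℝ} (hF : Continuous (Function.uncurry F)) :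
    ∫ x in a..b, ∫ y in c..d, F x y = ∫ y in c..d, ∫ x in a..b, F x y := by
  refine MeasureTheory.intervalIntegral_intervalIntegral_swap ?_
  refine IntegrableOn.mono_set (t := uIcc a b ×ˢ uIcc c d) ?_
    (prod_mono uIoc_subset_uIcc uIoc_subset_uIcc)
  exact hF.continuousOn.integrableOn_compact (isCompact_uIcc.prod isCompact_uIcc)

/-- the averages of a nonnegative function -/
private theorem both {g e : ℝ → ℝ} (hg : Continuous g) (he : Continuous e) (hg0 : ∀ t, 0 ≤ g t)
    (he0 : ∀ u, 0 ≤ e u) {a b h : ℝ} (hh : 0 ≤ h) (hab : a + h ≤ b - h) :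
    (∫ u in (-h)..h, e u) * (∫ t in (a + h)..(b - h), g t) ≤
      ∫ t₀ in a..b, ∫ u in (-h)..h, g (t₀ + u) * e u ∧
    ∫ t₀ in a..b, ∫ u in (-h)..h, g (t₀ + u) * e u ≤
      (∫ u in (-h)..h, e u) * ∫ t in (a - h)..(b + h), g t := by
  have hab' : a ≤ b := by linarith
  have hc : Continuous (Function.uncurry fun t₀ u => g (t₀ + u) * e u) := by
    show Continuous fun p : ℝ × ℝ => g (p.1 + p.2) * e p.2
    fun_prop
  have hin : ∀ u : ℝ, ∫ t₀ in a..b, g (t₀ + u) * e u = e u * ∫ t in (a + u)..(b + u), g t := by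
    intro u
    rw [intervalIntegral.integral_mul_const, mul_comm]
    congr 1
    exact intervalIntegral.integral_comp_add_right (fun t => g t) u
  rw [swap hc]
  simp only [hin]
  have hcc : Continuous fun u => e u * ∫ t in (a + u)..(b + u), g t := by
    have h1 : Continuous fun u => ∫ t₀ in a..b, g (t₀ + u) * e u := by
      refine intervalIntegral.continuous_parametric_intervalIntegral_of_continuous' ?_ _ _
      show Continuous fun p : ℝ × ℝ => g (p.2 + p.1) * e p.1
      fun_prop
    simpa only [hin] using h1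
  constructor
  · rw [← intervalIntegral.integral_mul_const]
    refine intervalIntegral.integral_mono_on (by linarith)
      ((he.mul continuous_const).intervalIntegrable _ _) (hcc.intervalIntegrable _ _) ?_
    intro u hu
    refine mul_le_mul_of_nonneg_left ?_ (he0 u)
    exact intervalIntegral.integral_mono_interval (by linarith [hu.2]) hab (by linarith [hu.1])
      (Eventually.of_forall fun t => hg0 t) (hg.intervalIntegrable _ _)
  · rw [← intervalIntegral.integral_mul_const]
    refine intervalIntegral.integral_mono_on (by linarith) (hcc.intervalIntegrable _ _)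
      ((he.mul continuous_const).intervalIntegrable _ _) ?_
    intro u hu
    refine mul_le_mul_of_nonneg_left ?_ (he0 u)
    exact intervalIntegral.integral_mono_interval (by linarith [hu.1]) (by linarith)
      (by linarith [hu.2]) (Eventually.of_forall fun t => hg0 t) (hg.intervalIntegrable _ _)

end AhAvgAux

/-- MODULE AVG. Averaging over the centre. -/
theorem avg {ε θ M κ' : ℝ} (hε : 0 < ε) (hε1 : ε ≤ 1 / 32) (hθ : 0 < θ) (hθ1 : θ < 1)
    (hM : 0 ≤ M) (hκ' : 0 < κ') : ∀ᶠ T : ℝ in atTop, ∀ f : ℝ → ℝ, ContinuousOn f (Icc (T / 2) T) →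
      (∀ t₀ ∈ Icc ((1 / 2 + 2 * ε) * T) ((1 - 2 * ε) * T),
        ∫ t in (t₀ - ε * T)..(t₀ + ε * T),
          f t * Real.exp (-(((t - t₀) / T ^ θ) ^ 2)) ≤ M * T ^ θ) →
      (∫ t in ((1 / 2 + ε) * T)..((1 - ε) * T), max (-(f t)) 0) ≤ κ' * T →
      ∫ t in ((1 / 2 + 3 * ε) * T)..((1 - 3 * ε) * T), |f t| ≤ (M + 4 * κ' + κ' * M) * T := by
  have hlim : ∀ᶠ T : ℝ in atTop, T ^ θ ≤ ε * T := by
    have h1 : Tendsto (fun T : ℝ => T ^ (θ - 1)) atTop (𝓝 0) := by
      have := tendsto_rpow_neg_atTop (y := 1 - θ) (by linarith)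
      refine this.congr fun T => ?_
      congr 1
      ring
    filter_upwards [h1.eventually (ge_mem_nhds hε), eventually_gt_atTop 0] with T hT hT0
    have h2 : T ^ θ = T ^ (θ - 1) * T := by
      rw [Real.rpow_sub_one hT0.ne']
      field_simp
    rw [h2]
    exact mul_le_mul_of_nonneg_right hT hT0.le
  filter_upwards [hlim, eventually_gt_atTop 0] with T hTε hT0 f hf hcen hneg
  set Δ : ℝ := T ^ θ with hΔ
  have hΔ0 : 0 < Δ := Real.rpow_pos_of_pos hT0 _
  have hab : T / 2 ≤ T := by linarith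
  set F : ℝ → ℝ := IccExtend hab (fun x => f x) with hF
  have hFc : Continuous F := by
    apply Continuous.Icc_extend'
    exact continuousOn_iff_continuous_domRestrict.1 hf
  have hFf : ∀ x ∈ Icc (T / 2) T, F x = f x := fun x hx => IccExtend_of_mem hab _ hx
  let p : ℝ → ℝ := fun t => max (F t) 0
  let m : ℝ → ℝ := fun t => max (-(F t)) 0
  have hp : Continuous p := by fun_prop
  have hm : Continuous m := by fun_prop
  have hp0 : ∀ t, 0 ≤ p t := fun t => le_max_right _ _
  have hm0 : ∀ t, 0 ≤ m t := fun t => le_max_right _ _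
  have hpm : ∀ t, F t = p t - m t := by
    intro t
    show F t = max (F t) 0 - max (-(F t)) 0
    rcases le_total 0 (F t) with h | h
    · rw [max_eq_left h, max_eq_right (by linarith)]; ring
    · rw [max_eq_right h, max_eq_left (by linarith)]; ring
  have hpa : ∀ t, |F t| = p t + m t := by
    intro t
    show |F t| = max (F t) 0 + max (-(F t)) 0
    rcases le_total 0 (F t) with h | h
    · rw [max_eq_left h, max_eq_right (by linarith), abs_of_nonneg h]; ring
    · rw [max_eq_right h, max_eq_left (by linarith), abs_of_nonpos h]; ring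
  let e : ℝ → ℝ := fun u => Real.exp (-((u / Δ) ^ 2))
  have he : Continuous e := by fun_prop
  have he0 : ∀ u, 0 ≤ e u := fun u => (Real.exp_pos _).le
  have hεT : 0 < ε * T := mul_pos hε hT0
  -- mass of the kernel
  have hE : Δ / 2 ≤ ∫ u in (-(ε * T))..(ε * T), e u := by
    have h1 : ∫ u in (-(Δ / 2))..(Δ / 2), (1 / 2 : ℝ) ≤ ∫ u in (-(Δ / 2))..(Δ / 2), e u := by
      refine intervalIntegral.integral_mono_on (by linarith)
        (continuous_const.intervalIntegrable _ _) (he.intervalIntegrable _ _) ?_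
      intro u hu
      have h2 : (u / Δ) ^ 2 ≤ 1 / 4 := by
        rw [div_pow, div_le_iff₀ (by positivity)]
        nlinarith [hu.1, hu.2]
      have h3 : 1 - (u / Δ) ^ 2 ≤ e u := by
        have := Real.add_one_le_exp (-((u / Δ) ^ 2))
        show _ ≤ Real.exp (-((u / Δ) ^ 2))
        linarith
      linarith
    have h4 : ∫ u in (-(Δ / 2))..(Δ / 2), e u ≤ ∫ u in (-(ε * T))..(ε * T), e u :=
      intervalIntegral.integral_mono_interval (by linarith) (by linarith) (by linarith)
        (Eventually.of_forall he0) (he.intervalIntegrable _ _)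
    rw [intervalIntegral.integral_const, smul_eq_mul] at h1
    linarith
  set E := ∫ u in (-(ε * T))..(ε * T), e u with hEdef
  have hE0 : 0 < E := by linarith
  -- each centre
  have hc1 : ∀ t₀ ∈ Icc ((1 / 2 + 2 * ε) * T) ((1 - 2 * ε) * T),
      ∫ u in (-(ε * T))..(ε * T), p (t₀ + u) * e u ≤
        M * Δ + ∫ u in (-(ε * T))..(ε * T), m (t₀ + u) * e u := by
    intro t₀ ht₀
    have h1 := hcen t₀ ht₀
    have h2 : ∫ t in (t₀ - ε * T)..(t₀ + ε * T), f t * Real.exp (-(((t - t₀) / Δ) ^ 2)) =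
        ∫ u in (-(ε * T))..(ε * T), F (t₀ + u) * e u := by
      have h3 := intervalIntegral.integral_comp_add_left
        (fun t => F t * Real.exp (-(((t - t₀) / Δ) ^ 2))) (a := -(ε * T)) (b := ε * T) t₀
      rw [← sub_eq_add_neg] at h3
      have h4 : ∫ t in (t₀ - ε * T)..(t₀ + ε * T), f t * Real.exp (-(((t - t₀) / Δ) ^ 2)) =
          ∫ t in (t₀ - ε * T)..(t₀ + ε * T), F t * Real.exp (-(((t - t₀) / Δ) ^ 2)) := by
        refine intervalIntegral.integral_congr fun t ht => ?_
        rw [uIcc_of_le (by linarith)] at ht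
        rw [hFf t ⟨by nlinarith [ht.1, ht₀.1], by nlinarith [ht.2, ht₀.2]⟩]
      rw [h4, ← h3]
      refine intervalIntegral.integral_congr fun u _ => ?_
      rw [add_sub_cancel_left]
    rw [h2] at h1
    have h5 : ∫ u in (-(ε * T))..(ε * T), F (t₀ + u) * e u =
        (∫ u in (-(ε * T))..(ε * T), p (t₀ + u) * e u) -
          ∫ u in (-(ε * T))..(ε * T), m (t₀ + u) * e u := by
      rw [← intervalIntegral.integral_sub
        ((by fun_prop : Continuous fun u => p (t₀ + u) * e u).intervalIntegrable _ _)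
        ((by fun_prop : Continuous fun u => m (t₀ + u) * e u).intervalIntegrable _ _)]
      refine intervalIntegral.integral_congr fun u _ => ?_
      rw [hpm, sub_mul]
    linarith
  have hJ : (1 / 2 + 2 * ε) * T ≤ (1 - 2 * ε) * T := by nlinarith
  have cA : Continuous fun t₀ => ∫ u in (-(ε * T))..(ε * T), p (t₀ + u) * e u := by
    refine intervalIntegral.continuous_parametric_intervalIntegral_of_continuous' ?_ _ _
    show Continuous fun q : ℝ × ℝ => p (q.1 + q.2) * e q.2
    fun_prop
  have cB : Continuous fun t₀ => ∫ u in (-(ε * T))..(ε * T), m (t₀ + u) * e u := by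
    refine intervalIntegral.continuous_parametric_intervalIntegral_of_continuous' ?_ _ _
    show Continuous fun q : ℝ × ℝ => m (q.1 + q.2) * e q.2
    fun_prop
  have hint : ∫ t₀ in ((1 / 2 + 2 * ε) * T)..((1 - 2 * ε) * T),
      ∫ u in (-(ε * T))..(ε * T), p (t₀ + u) * e u ≤
      T / 2 * (M * Δ) + ∫ t₀ in ((1 / 2 + 2 * ε) * T)..((1 - 2 * ε) * T),
      ∫ u in (-(ε * T))..(ε * T), m (t₀ + u) * e u := by
    have h1 : ∫ t₀ in ((1 / 2 + 2 * ε) * T)..((1 - 2 * ε) * T),
        ∫ u in (-(ε * T))..(ε * T), p (t₀ + u) * e u ≤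
        ∫ t₀ in ((1 / 2 + 2 * ε) * T)..((1 - 2 * ε) * T),
        (M * Δ + ∫ u in (-(ε * T))..(ε * T), m (t₀ + u) * e u) :=
      intervalIntegral.integral_mono_on hJ (cA.intervalIntegrable _ _)
        ((continuous_const.add cB).intervalIntegrable _ _) hc1
    rw [intervalIntegral.integral_add (continuous_const.intervalIntegrable _ _)
      (cB.intervalIntegrable _ _), intervalIntegral.integral_const, smul_eq_mul] at h1
    have h2 : ((1 - 2 * ε) * T - (1 / 2 + 2 * ε) * T) * (M * Δ) ≤ T / 2 * (M * Δ) := by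
      refine mul_le_mul_of_nonneg_right ?_ (mul_nonneg hM hΔ0.le)
      nlinarith
    linarith
  have b1 := (AhAvgAux.both hp he hp0 he0 hεT.le (a := (1 / 2 + 2 * ε) * T)
    (b := (1 - 2 * ε) * T) (by nlinarith)).1
  have b2 := (AhAvgAux.both hm he hm0 he0 hεT.le (a := (1 / 2 + 2 * ε) * T)
    (b := (1 - 2 * ε) * T) (by nlinarith)).2
  rw [show (1 / 2 + 2 * ε) * T + ε * T = (1 / 2 + 3 * ε) * T by ring,
    show (1 - 2 * ε) * T - ε * T = (1 - 3 * ε) * T by ring] at b1
  rw [show (1 / 2 + 2 * ε) * T - ε * T = (1 / 2 + ε) * T by ring,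
    show (1 - 2 * ε) * T + ε * T = (1 - ε) * T by ring] at b2
  have hn : ∫ t in ((1 / 2 + ε) * T)..((1 - ε) * T), m t ≤ κ' * T := by
    refine le_trans (le_of_eq ?_) hneg
    refine intervalIntegral.integral_congr fun t ht => ?_
    rw [uIcc_of_le (by nlinarith)] at ht
    show max (-(F t)) 0 = _
    rw [hFf t ⟨by nlinarith [ht.1], by nlinarith [ht.2]⟩]
  have hn2 : ∫ t in ((1 / 2 + 3 * ε) * T)..((1 - 3 * ε) * T), m t ≤ κ' * T := by
    refine le_trans ?_ hn
    exact intervalIntegral.integral_mono_interval (by nlinarith) (by nlinarith) (by nlinarith)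
      (Eventually.of_forall hm0) (hm.intervalIntegrable _ _)
  have habs : ∫ t in ((1 / 2 + 3 * ε) * T)..((1 - 3 * ε) * T), |f t| =
      (∫ t in ((1 / 2 + 3 * ε) * T)..((1 - 3 * ε) * T), p t) +
        ∫ t in ((1 / 2 + 3 * ε) * T)..((1 - 3 * ε) * T), m t := by
    rw [← intervalIntegral.integral_add (hp.intervalIntegrable _ _) (hm.intervalIntegrable _ _)]
    refine intervalIntegral.integral_congr fun t ht => ?_
    rw [uIcc_of_le (by nlinarith)] at ht
    rw [← hpa, hFf t ⟨by nlinarith [ht.1], by nlinarith [ht.2]⟩]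
  rw [habs]
  set X := ∫ t in ((1 / 2 + 3 * ε) * T)..((1 - 3 * ε) * T), p t
  set Y := ∫ t in ((1 / 2 + ε) * T)..((1 - ε) * T), m t
  have h1 : E * X ≤ T / 2 * (M * Δ) + E * Y := b1.trans (hint.trans (by linarith))
  have h2 : E * X ≤ E * (T * M + κ' * T) := by
    have h3 : T / 2 * (M * Δ) ≤ E * (T * M) := by
      have := mul_le_mul_of_nonneg_right hE (mul_nonneg hT0.le hM)
      linarith
    have h4 : E * Y ≤ E * (κ' * T) := mul_le_mul_of_nonneg_left hn hE0.le
    linarith
  have h3 : X ≤ T * M + κ' * T := le_of_mul_le_mul_left h2 hE0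
  have h4 : 0 ≤ κ' * M * T := by positivity
  have h5 : 0 ≤ κ' * T := by positivity
  nlinarith

end Pool.Agent.MP_67227b_nt.Ah
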