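import Pool.Agent.MP_67227b_nt.Ah.AhDefs
import Pool.Agent.MP_67227b_nt.Pp.PpRghT
import Pool.Agent.MP_67227b_nt.Pp.PpRghW

set_option autoImplicit false

open Filter Topology Set MeasureTheory Complex
open scoped Real ArithmeticFunction ContDiff

namespace Pool.Agent.MP_67227b_nt.Ah

open Pool.Agent.Lib.ZetaCount_helper33 Pool.Agent.MP_67227b_nt Pool.Agent.MP_67227b_nt.Mo
open Pool.Agent.MP_67227b_nt.Sg Pool.Agent.MP_67227b_nt.Pp
open Pool.Agent.MP_67227b_nt.Mo.MomentBAux (DP)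

/-- MODULE BAD. The bad rough numbers have small mass as the mesh tends to zero: `rough_sq`,
`rough_window`, `rough_tail` with the roughness `δ/2` (`n δ/(n+1) ≥ δ/2` for `n ≥ 1`), as in the proof
of `Pp.Sa_close`; their constants do not depend on the mesh, `2 ⌈1/δ⌉ δ/(n+1) → 0`. -/
theorem bad_mass {δ ε : ℝ} (hδ : 0 < δ) (hδ1 : δ ≤ 1 / 16) (hε : 0 < ε) :
    ∀ᶠ n : ℕ in atTop, ∀ᶠ T : ℝ in atTop, ∀ S : Finset ℕ,
      (∀ m ∈ S, (m : ℝ) ≤ T ^ (1 - δ) ∧ Rgh ((n : ℝ) * (δ / (n + 1)) * Real.log T) m ∧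
        (¬ Squarefree m ∨ (∃ p : ℕ, p.Prime ∧ p ∣ m ∧ Real.log p < δ * Real.log T) ∨
          (1 - δ - 2 * ⌈1 / δ⌉₊ * (δ / (n + 1))) * Real.log T < Real.log m)) →
      ∑ m ∈ S, (1 : ℝ) / m ≤ ε := by
  classical
  obtain ⟨Cw, hCw, hw⟩ := rough_window (half_pos hδ)
  obtain ⟨Ct, hCt, ht⟩ := rough_tail (half_pos hδ) (κ := 1 - δ) (by linarith) (by linarith)
  set K : ℕ := ⌈1 / δ⌉₊ with hK
  have hK1 : 1 ≤ K := by
    rw [hK, Nat.one_le_ceil_iff]
    positivity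
  have hKR : (1 : ℝ) ≤ K := by exact_mod_cast hK1
  have hlim : Tendsto (fun n : ℕ => δ / ((n : ℝ) + 1)) atTop (𝓝 0) :=
    tendsto_const_nhds.div_atTop (tendsto_atTop_add_const_right _ _ tendsto_natCast_atTop_atTop)
  have hη0 : 0 < min ((1 - δ) / (4 * K)) (min (ε / (3 * Cw)) (ε / (3 * (Ct * (2 * K))))) := by
    have h1 : 0 < 1 - δ := by linarith
    refine lt_min (by positivity) (lt_min (by positivity) (by positivity))
  filter_upwards [eventually_ge_atTop 1, hlim.eventually (gt_mem_nhds hη0)] with n hn hηn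
  set η : ℝ := δ / ((n : ℝ) + 1) with hη
  have hn1 : (1 : ℝ) ≤ n := by exact_mod_cast hn
  have hηp : 0 < η := by positivity
  have hnη : (n : ℝ) * η + η = δ := by rw [hη]; field_simp
  have hη2 : δ / 2 ≤ (n : ℝ) * η := by nlinarith
  have e1 : 2 * (K : ℝ) * η ≤ (1 - δ) / 2 := by
    have h1 : η ≤ (1 - δ) / (4 * K) := hηn.le.trans (min_le_left _ _)
    rw [le_div_iff₀ (by positivity)] at h1
    linarith
  have e2 : Cw * η ≤ ε / 3 := by
    have h1 : η ≤ ε / (3 * Cw) := hηn.le.trans ((min_le_right _ _).trans (min_le_left _ _))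
    rw [le_div_iff₀ (by positivity)] at h1
    linarith
  have e3 : Ct * (2 * K * η) ≤ ε / 3 := by
    have h1 : η ≤ ε / (3 * (Ct * (2 * K))) :=
      hηn.le.trans ((min_le_right _ _).trans (min_le_right _ _))
    rw [le_div_iff₀ (by positivity)] at h1
    linarith
  filter_upwards [hw (n * η) η hη2 hηp, ht (2 * K * η) (by positivity) e1,
    rough_sq (half_pos hδ) (show 0 < ε / 3 by positivity), eventually_gt_atTop 1]
    with T hwT htT hsT hT S hS
  have hL : 0 < Real.log T := Real.log_pos hT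
  have hTκ : T ^ (1 - δ) ≤ T := by
    calc T ^ (1 - δ) ≤ T ^ (1 : ℝ) := Real.rpow_le_rpow_of_exponent_le hT.le (by linarith)
      _ = T := Real.rpow_one T
  have hSr : ∀ m ∈ S, Rgh (δ / 2 * Real.log T) m := by
    intro m hm
    obtain ⟨h1, h2⟩ := (hS m hm).2.1
    exact ⟨h1, fun p hp hpm => le_trans (mul_le_mul_of_nonneg_right hη2 hL.le) (h2 p hp hpm)⟩
  set B1 := S.filter (fun m => ¬ Squarefree m) with hB1
  set B2 := (S.filter (fun m => Squarefree m)).filter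
    (fun m => ∃ p : ℕ, p.Prime ∧ p ∣ m ∧ Real.log p < δ * Real.log T) with hB2
  set B3 := (S.filter (fun m => Squarefree m)).filter
    (fun m => ¬ ∃ p : ℕ, p.Prime ∧ p ∣ m ∧ Real.log p < δ * Real.log T) with hB3
  have hsplit : ∑ m ∈ S, (1 : ℝ) / m = ∑ m ∈ B1, (1 : ℝ) / m + (∑ m ∈ B2, (1 : ℝ) / m +
      ∑ m ∈ B3, (1 : ℝ) / m) := by
    rw [hB2, hB3, Finset.sum_filter_add_sum_filter_not, hB1, add_comm,
      Finset.sum_filter_add_sum_filter_not]
  have h1 : ∑ m ∈ B1, (1 : ℝ) / m ≤ ε / 3 := by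
    apply hsT
    intro m hm
    obtain ⟨hm1, hm2⟩ := Finset.mem_filter.1 hm
    exact ⟨(hS m hm1).1.trans hTκ, hSr m hm1, hm2⟩
  have h2 : ∑ m ∈ B2, (1 : ℝ) / m ≤ Cw * η := by
    apply hwT
    intro m hm
    obtain ⟨hm1, p, hp, hpm, hlt⟩ := Finset.mem_filter.1 hm
    have hm2 := (Finset.mem_filter.1 hm1).1
    refine ⟨(hS m hm2).1.trans hTκ, hSr m hm2, p, hp, hpm, (hS m hm2).2.1.2 p hp hpm, ?_⟩
    rw [hnη]
    exact hlt.le
  have h3 : ∑ m ∈ B3, (1 : ℝ) / m ≤ Ct * (2 * K * η) := by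
    apply htT
    intro m hm
    obtain ⟨hm1, hm2⟩ := Finset.mem_filter.1 hm
    obtain ⟨hm3, hm4⟩ := Finset.mem_filter.1 hm1
    obtain ⟨ha, -, hc⟩ := hS m hm3
    refine ⟨ha, ?_, hSr m hm3⟩
    rcases hc with h | h | h
    · exact absurd hm4 h
    · exact absurd h hm2
    · exact h.le
  rw [hsplit]
  linarith

end Pool.Agent.MP_67227b_nt.Ah
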