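import Pool.Agent.MP_67227b_nt.Ah.AhDefs
import Pool.Agent.MP_67227b_nt.FarZeta67
import Pool.Agent.MP_67227b_nt.Mo.Montgomery

set_option autoImplicit false

open Filter Topology Set MeasureTheory Complex
open scoped Real ArithmeticFunction ContDiff

namespace Pool.Agent.MP_67227b_nt.Ah

open Pool.Agent.Lib.ZetaCount_helper33 Pool.Agent.MP_67227b_nt Pool.Agent.MP_67227b_nt.Mo
open Pool.Agent.MP_67227b_nt.Sg Pool.Agent.MP_67227b_nt.Pp
open Pool.Agent.MP_67227b_nt.Mo.MomentBAux (DP)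

private theorem bandLim_zeta (hRH : RiemannHypothesis) {U : Filter ℝ} (hU : U ≤ atTop) :
    BandLim (fun T => nuT goodFamily_zeta 1 T) (sineDet 1) {ξ : Fin 1 → ℝ | |ξ 0| < 1} U := by
  have h : BandLim (fun T => nuT goodFamily_zeta 1 T) (sineDet 1)
      {ξ : Fin 1 → ℝ | |ξ 0| < 1} atTop := by
    intro φ hφ
    refine (montgomery hRH φ hφ).congr' ?_
    filter_upwards [eventually_gt_atTop 1] with T hT
    exact (integral_nuT_complex goodFamily_zeta hT _).symm
  exact h.mono hU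

private theorem ball_sub {r : ℝ} (hr : r < 1) :
    Metric.closedBall (0 : Fin 1 → ℝ) r ⊆ {ξ : Fin 1 → ℝ | |ξ 0| < 1} := by
  intro ξ hξ
  rw [mem_closedBall_zero_iff] at hξ
  have h := norm_le_pi_norm ξ 0
  rw [Real.norm_eq_abs] at h
  exact lt_of_le_of_lt (h.trans hξ) hr

private theorem ee_sub_right (ξ u c : Fin 1 → ℝ) : ee ξ (-c) * ee ξ u = ee ξ (u - c) := by
  unfold ee
  rw [← Complex.exp_add]
  congr 1
  simp only [Pi.sub_apply, Pi.neg_apply, mul_sub, mul_neg, Finset.sum_sub_distrib,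
    Finset.sum_neg_distrib]
  push_cast
  ring

private theorem band_mod {Ω : Set (Fin 1 → ℝ)} {φ : (Fin 1 → ℝ) → ℂ} (hφ : IsBand Ω φ)
    (c : Fin 1 → ℝ) : IsBand Ω (fun ξ => φ ξ * ee ξ (-c)) ∧
      ∀ u, synth (fun ξ => φ ξ * ee ξ (-c)) u = synth φ (u - c) := by
  refine ⟨⟨?_, ?_, ?_⟩, ?_⟩
  · refine hφ.1.mul ?_
    unfold ee
    simp only [Complex.ofReal_sum, Complex.ofReal_mul]
    refine Complex.contDiff_exp.comp ?_
    refine contDiff_const.mul ?_
    refine ContDiff.sum fun i _ => ?_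
    refine ContDiff.mul ?_ contDiff_const
    exact Complex.ofRealCLM.contDiff.comp (contDiff_apply ℝ ℝ i)
  · exact hφ.2.1.mul_right
  · exact (tsupport_mul_subset_left).trans hφ.2.2
  · intro u
    unfold synth
    congr 1
    ext ξ
    rw [mul_assoc, ee_sub_right]

private theorem kap_shift_tendsto (hRH : RiemannHypothesis) {U : Filter ℝ} (hU : U ≤ atTop)
    {ρ : ℝ} (hρ : 0 < ρ) (h2 : 2 * ρ < 1) (c : Fin 1 → ℝ) :
    Tendsto (fun T => ∫ u, kap 1 ρ hρ (u - c) ∂(nuT goodFamily_zeta 1 T)) U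
      (𝓝 (∫ u, kap 1 ρ hρ (u - c) * sineDet 1 u)) := by
  obtain ⟨φ, hφ, hk⟩ := exists_band_kap (m := 1) ρ hρ
  obtain ⟨hb, hs⟩ := band_mod hφ c
  have h3 := bandLim_zeta hRH hU _ (hb.mono (ball_sub h2))
  have h4 := (Complex.continuous_re.tendsto _).comp h3
  have e1 : ∀ T, (∫ u, synth (fun ξ => φ ξ * ee ξ (-c)) u ∂(nuT goodFamily_zeta 1 T)) =
      ((∫ u, kap 1 ρ hρ (u - c) ∂(nuT goodFamily_zeta 1 T) : ℝ) : ℂ) := by
    intro T
    rw [← integral_complex_ofReal]
    congr 1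
    ext u
    rw [hs, hk]
  have e2 : (∫ u, synth (fun ξ => φ ξ * ee ξ (-c)) u * (sineDet 1 u : ℂ)) =
      ((∫ u, kap 1 ρ hρ (u - c) * sineDet 1 u : ℝ) : ℂ) := by
    rw [← integral_complex_ofReal]
    congr 1
    ext u
    rw [hs, hk]
    push_cast
    rfl
  rw [e2, Complex.ofReal_re] at h4
  refine h4.congr (fun T => ?_)
  rw [Function.comp_apply, e1, Complex.ofReal_re]

private theorem sineDet_one_le (u : Fin 1 → ℝ) : sineDet 1 u ≤ 1 := by
  rw [sineDet_one]
  nlinarith [sq_nonneg (Real.sinc (π * u 0))]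

private theorem summable_int : Summable fun n : ℤ => 1 / (1 + (n : ℝ) ^ 2) := by
  have h1 : Summable fun n : ℤ => 1 / (n : ℝ) ^ 2 :=
    Real.summable_one_div_int_pow.2 one_lt_two
  have h2 : Summable fun n : ℤ => if n = 0 then (1 : ℝ) else 0 :=
    (hasSum_ite_eq (0 : ℤ) (1 : ℝ)).summable
  refine Summable.of_nonneg_of_le (fun n => by positivity) (fun n => ?_) (h1.add h2)
  by_cases h : n = 0
  · subst h
    simp
  · rw [if_neg h, add_zero]
    have h3 : (n : ℝ) ≠ 0 := by exact_mod_cast h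
    have h4 : 0 < (n : ℝ) ^ 2 := by positivity
    exact one_div_le_one_div_of_le h4 (by linarith)

private theorem integrable_tb {μ : Measure (Fin 1 → ℝ)} [IsLocallyFiniteMeasure μ] {C : ℝ}
    (hC : 0 < C) (h : ∀ c : ℝ, μ.real (Metric.closedBall (fun _ => c) (1 / 2)) ≤ C)
    {g : (Fin 1 → ℝ) → ℂ} (hg : Continuous g) {D : ℝ} (hD : 0 ≤ D)
    (hgD : ∀ u, ‖g u‖ ≤ D / (1 + (u 0) ^ 2)) : Integrable g μ := by
  refine ⟨hg.aestronglyMeasurable, ?_⟩
  set B : ℤ → Set (Fin 1 → ℝ) := fun n => Metric.closedBall (fun _ => (n : ℝ)) (1 / 2) with hB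
  have hcover : (⋃ n : ℤ, B n) = Set.univ := by
    rw [Set.eq_univ_iff_forall]
    intro u
    rw [Set.mem_iUnion]
    refine ⟨round (u 0), ?_⟩
    rw [hB, Metric.mem_closedBall, dist_pi_le_iff (by norm_num)]
    intro i
    rw [Subsingleton.elim i 0, Real.dist_eq]
    exact abs_sub_round (u 0)
  have hsum : Summable fun n : ℤ => 2 * D * C * (1 / (1 + (n : ℝ) ^ 2)) :=
    summable_int.mul_left _
  unfold HasFiniteIntegral
  calc ∫⁻ u, ‖g u‖ₑ ∂μ = ∫⁻ u in ⋃ n : ℤ, B n, ‖g u‖ₑ ∂μ := by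
        rw [hcover, Measure.restrict_univ]
    _ ≤ ∑' n : ℤ, ∫⁻ u in B n, ‖g u‖ₑ ∂μ := lintegral_iUnion_le _ _
    _ ≤ ∑' n : ℤ, ENNReal.ofReal (2 * D * C * (1 / (1 + (n : ℝ) ^ 2))) := by
        refine ENNReal.tsum_le_tsum fun n => ?_
        have hb : ∀ u ∈ B n, ‖g u‖ₑ ≤ ENNReal.ofReal (2 * D / (1 + (n : ℝ) ^ 2)) := by
          intro u hu
          rw [← ofReal_norm]
          refine ENNReal.ofReal_le_ofReal ((hgD u).trans ?_)
          rw [div_le_div_iff₀ (by positivity) (by positivity)]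
          have h1 : |u 0 - n| ≤ 1 / 2 := by
            rw [hB, Metric.mem_closedBall, dist_pi_le_iff (by norm_num)] at hu
            have := hu 0
            rwa [Real.dist_eq] at this
          rw [abs_le] at h1
          have h2 : 1 + (n : ℝ) ^ 2 ≤ 2 * (1 + (u 0) ^ 2) := by
            nlinarith [sq_nonneg (2 * u 0 - n), h1.1, h1.2]
          nlinarith
        calc ∫⁻ u in B n, ‖g u‖ₑ ∂μ
            ≤ ∫⁻ _ in B n, ENNReal.ofReal (2 * D / (1 + (n : ℝ) ^ 2)) ∂μ :=
              setLIntegral_mono' Metric.isClosed_closedBall.measurableSet hb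
          _ = ENNReal.ofReal (2 * D / (1 + (n : ℝ) ^ 2)) * μ (B n) := setLIntegral_const _ _
          _ ≤ ENNReal.ofReal (2 * D / (1 + (n : ℝ) ^ 2)) * ENNReal.ofReal C := by
              refine mul_le_mul_right ?_ _
              have hfin : μ (B n) ≠ ⊤ := (isCompact_closedBall _ _).measure_lt_top.ne
              rw [← ENNReal.ofReal_toReal hfin]
              exact ENNReal.ofReal_le_ofReal (h n)
          _ = ENNReal.ofReal (2 * D * C * (1 / (1 + (n : ℝ) ^ 2))) := by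
              rw [← ENNReal.ofReal_mul (by positivity)]
              congr 1
              ring
    _ = ENNReal.ofReal (∑' n : ℤ, 2 * D * C * (1 / (1 + (n : ℝ) ^ 2))) := by
        rw [ENNReal.ofReal_tsum_of_nonneg (fun n => by positivity) hsum]
    _ < ⊤ := ENNReal.ofReal_lt_top

private theorem band_one {δ : ℝ} {η : ℝ → ℂ} (hδ : 0 ≤ δ) (hη : Bump δ η) :
    IsBand (Metric.closedBall (0 : Fin 1 → ℝ) δ) (fun ξ => η (ξ 0)) := by
  have hsupp : Function.support (fun ξ : Fin 1 → ℝ => η (ξ 0)) ⊆ Metric.closedBall 0 δ := by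
    intro ξ hξ
    rw [mem_closedBall_zero_iff, pi_norm_le_iff_of_nonneg hδ]
    intro i
    rw [Subsingleton.elim i 0, Real.norm_eq_abs]
    by_contra h
    exact hξ (hη.supp _ (not_le.1 h))
  refine ⟨?_, ?_, ?_⟩
  · exact hη.smooth.comp (contDiff_apply ℝ ℝ 0)
  · refine HasCompactSupport.intro (isCompact_closedBall (0 : Fin 1 → ℝ) δ) fun ξ hξ => ?_
    by_contra h
    exact hξ (hsupp h)
  · exact closure_minimal hsupp Metric.isClosed_closedBall

private theorem approx_eq (hRH : RiemannHypothesis) {U : Filter ℝ} [U.NeBot] (hU : U ≤ atTop)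
    {μ : Measure (Fin 1 → ℝ)} [IsLocallyFiniteMeasure μ]
    (hμ : VagueLim (fun T => nuT goodFamily_zeta 1 T) U μ) {δ : ℝ} {η : ℝ → ℂ} (hδ : 0 ≤ δ)
    (hη : Bump δ η) (hint : Integrable (fun u : Fin 1 → ℝ => gs η (u 0 : ℂ)) μ)
    {ρ : ℝ} (hρ : 0 < ρ) (h4 : δ + 4 * ρ < 1) :
    ∫ u : Fin 1 → ℝ, gs η (u 0 : ℂ) * ((kap 1 ρ hρ u ^ 2 : ℝ) : ℂ) ∂μ =
      ∫ u : Fin 1 → ℝ, gs η (u 0 : ℂ) * ((kap 1 ρ hρ u ^ 2 : ℝ) : ℂ) * (sineDet 1 u : ℂ) := by
  obtain ⟨φ, hφ, hk⟩ := exists_band_ee_kap_sq (m := 1) ρ hρ 0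
  have hb := band_one hδ hη
  have hc := hb.conv hφ
  have hs : ∀ u, synth (conv (fun ξ : Fin 1 → ℝ => η (ξ 0)) φ) u =
      gs η (u 0 : ℂ) * ((kap 1 ρ hρ u ^ 2 : ℝ) : ℂ) := by
    intro u
    rw [synth_conv hb.integrable hφ.integrable, hk, ee_zero_left, one_mul, synth_one]
  have hB := bandLim_zeta hRH hU
  have h3 := hB _ (hc.mono (ball_sub h4))
  simp only [hs] at h3
  set G : (Fin 1 → ℝ) → ℂ := fun u => gs η (u 0 : ℂ) * ((kap 1 ρ hρ u ^ 2 : ℝ) : ℂ) with hG
  have hgc : Continuous fun u : Fin 1 → ℝ => gs η (u 0 : ℂ) :=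
    (continuous_gs hδ hη).comp (Complex.continuous_ofReal.comp (continuous_apply 0))
  have hGc : Continuous G :=
    hgc.mul (Complex.continuous_ofReal.comp ((continuous_kap (m := 1) ρ hρ).pow 2))
  obtain ⟨D, hD, hgD⟩ := gs_real_bound hδ hη 0
  have hGb : ∀ u, ‖G u‖ ≤ D * kap 1 ρ hρ u ^ 2 := by
    intro u
    rw [hG]
    simp only
    rw [norm_mul, Complex.norm_real, Real.norm_of_nonneg (sq_nonneg _)]
    refine mul_le_mul_of_nonneg_right ?_ (sq_nonneg _)
    simpa using hgD (u 0)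
  have h2 : 2 * ρ < 1 := by linarith
  have hre := tendsto_dominated hB hμ hρ (ball_sub h2) (g := fun u => (G u).re)
    (Complex.continuous_re.comp hGc) hD.le (fun u => (Complex.abs_re_le_norm _).trans (hGb u))
  have him := tendsto_dominated hB hμ hρ (ball_sub h2) (g := fun u => (G u).im)
    (Complex.continuous_im.comp hGc) hD.le (fun u => (Complex.abs_im_le_norm _).trans (hGb u))
  have hGμ : Integrable G μ := by
    refine hint.norm.mono' hGc.aestronglyMeasurable (Eventually.of_forall fun u => ?_)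
    rw [hG]
    simp only
    rw [norm_mul, Complex.norm_real, Real.norm_of_nonneg (sq_nonneg _)]
    have h5 := kap_nonneg (m := 1) ρ hρ u
    have h6 := kap_le_one (m := 1) ρ hρ u
    exact mul_le_of_le_one_right (norm_nonneg _) (pow_le_one₀ h5 h6)
  have hGν : ∀ T : ℝ, Integrable G (nuT goodFamily_zeta 1 T) := by
    intro T
    refine (integrable_const D).mono' hGc.aestronglyMeasurable (Eventually.of_forall fun u => ?_)
    refine (hGb u).trans ?_
    have h5 := kap_nonneg (m := 1) ρ hρ u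
    have h6 := kap_le_one (m := 1) ρ hρ u
    exact mul_le_of_le_one_right hD.le (pow_le_one₀ h5 h6)
  have e1 : ∀ {κ : Measure (Fin 1 → ℝ)}, Integrable G κ →
      (∫ u, G u ∂κ) = ((∫ u, (G u).re ∂κ : ℝ) : ℂ) + ((∫ u, (G u).im ∂κ : ℝ) : ℂ) * I := by
    intro κ hκ
    exact (integral_re_add_im hκ).symm
  have h5 : Tendsto (fun T => ∫ u, G u ∂(nuT goodFamily_zeta 1 T)) U (𝓝 (∫ u, G u ∂μ)) := by
    rw [e1 hGμ]
    have h6 := ((Complex.continuous_ofReal.tendsto _).comp hre).add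
      (((Complex.continuous_ofReal.tendsto _).comp him).mul_const I)
    refine h6.congr (fun T => ?_)
    simp only [Function.comp_apply]
    exact (e1 (hGν T)).symm
  exact tendsto_nhds_unique h5 h3

/-- MODULE TB. The limit measure is translation bounded. Fix `ρ` with `kap 1 ρ ≥ 1/2` on
`closedBall 0 2`, `2 ρ < 1` (`exists_small`, `Limit67.lean`). `u ↦ kap (u - c)` is `synth` of a band function
(`exists_band_kap` times the character `ee · (-c)`), so by `Mo.montgomery` (and `integral_nuT_complex`)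
`∫ kap (u - c) dν_T → ∫ kap (u - c) sineDet 1 u du ≤ ∫ kap` (`0 ≤ sineDet 1 ≤ 1`, `integrable_kap`). For the
continuous `f` with compact support `f u = cut 1 1 (u - c)`: `1_{closedBall c (1/2)} ≤ f ≤ 2 kap (u - c)`,
so `μ (closedBall c (1/2)) ≤ ∫ f dμ = lim ∫ f dν_T ≤ 2 ∫ kap`. -/
theorem mu_tb (hRH : RiemannHypothesis) {U : Filter ℝ} [U.NeBot] (hU : U ≤ atTop)
    {μ : Measure (Fin 1 → ℝ)} [IsLocallyFiniteMeasure μ]
    (hμ : VagueLim (fun T => nuT goodFamily_zeta 1 T) U μ) :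
    ∃ C : ℝ, 0 < C ∧ ∀ c : ℝ, μ.real (Metric.closedBall (fun _ => c) (1 / 2)) ≤ C := by
  obtain ⟨ρ, hρ, hρ4, hk⟩ := exists_small 1 2 (show (0 : ℝ) < 1 / 4 by norm_num)
  have hkn := kap_nonneg (m := 1) ρ hρ
  have hM : 0 ≤ ∫ u, kap 1 ρ hρ u := integral_nonneg hkn
  refine ⟨2 * (∫ u, kap 1 ρ hρ u) + 1, by positivity, fun c => ?_⟩
  set cv : Fin 1 → ℝ := fun _ => c with hcv
  have hlim := kap_shift_tendsto hRH hU hρ (by linarith) cv
  have hkc : Continuous fun u => kap 1 ρ hρ (u - cv) :=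
    (continuous_kap (m := 1) ρ hρ).comp (continuous_id.sub continuous_const)
  have hki : Integrable fun u => kap 1 ρ hρ (u - cv) :=
    (integrable_kap (m := 1) ρ hρ).comp_sub_right cv
  have hle : ∫ u, kap 1 ρ hρ (u - cv) * sineDet 1 u ≤ ∫ u, kap 1 ρ hρ u := by
    rw [← integral_sub_right_eq_self (fun u => kap 1 ρ hρ u) cv]
    have hb : ∀ u, kap 1 ρ hρ (u - cv) * sineDet 1 u ≤ kap 1 ρ hρ (u - cv) := fun u =>
      mul_le_of_le_one_right (hkn _) (sineDet_one_le u)
    refine integral_mono ?_ hki hb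
    refine hki.mono' (hkc.mul (continuous_sineDet 1)).aestronglyMeasurable
      (Eventually.of_forall fun u => ?_)
    rw [Real.norm_of_nonneg (mul_nonneg (hkn _) (sineDet_nonneg 1 u))]
    exact hb u
  set f : (Fin 1 → ℝ) → ℝ := fun u => cut 1 1 (u - cv) with hf
  have hfc : Continuous f := (continuous_cut 1).comp (continuous_id.sub continuous_const)
  have hfs : HasCompactSupport f :=
    (hasCompactSupport_cut (m := 1) 1).comp_homeomorph (Homeomorph.subRight cv)
  have hKm : MeasurableSet (Metric.closedBall cv (1 / 2)) :=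
    Metric.isClosed_closedBall.measurableSet
  have hKfin : μ (Metric.closedBall cv (1 / 2)) ≠ ⊤ :=
    (isCompact_closedBall _ _).measure_lt_top.ne
  have h3 : μ.real (Metric.closedBall cv (1 / 2)) ≤ ∫ u, f u ∂μ := by
    calc μ.real (Metric.closedBall cv (1 / 2))
        = ∫ u, (Metric.closedBall cv (1 / 2)).indicator (fun _ => (1 : ℝ)) u ∂μ := by
          rw [integral_indicator_const _ hKm, smul_eq_mul, mul_one]
      _ ≤ ∫ u, f u ∂μ := by
          apply integral_mono _ (integrable_Cc hfc hfs)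
          · intro u
            by_cases hu : u ∈ Metric.closedBall cv (1 / 2)
            · rw [indicator_of_mem hu]
              rw [Metric.mem_closedBall, dist_eq_norm] at hu
              rw [hf]
              simp only
              rw [cut_eq_one (by linarith)]
            · rw [indicator_of_notMem hu]
              exact cut_nonneg _ _
          · rw [integrable_indicator_iff hKm]
            exact integrableOn_const hKfin
  have h4 := hμ f hfc hfs
  have h5 : ∫ u, f u ∂μ ≤ 2 * ∫ u, kap 1 ρ hρ (u - cv) * sineDet 1 u := by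
    refine le_of_tendsto_of_tendsto h4 (hlim.const_mul 2) (Eventually.of_forall fun T => ?_)
    simp only
    rw [← integral_const_mul]
    refine integral_mono (integrable_Cc hfc hfs) ?_ (fun u => ?_)
    · apply Integrable.const_mul
      refine (integrable_const (1 : ℝ)).mono' hkc.aestronglyMeasurable ?_
      filter_upwards with u
      rw [Real.norm_of_nonneg (hkn _)]
      exact kap_le_one _ _ _
    · rw [hf]
      simp only
      by_cases hu : ‖u - cv‖ ≤ 2
      · have h6 := hk (u - cv) hu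
        have h7 := cut_le_one (m := 1) 1 (u - cv)
        linarith
      · rw [cut_eq_zero (by linarith [not_le.1 hu])]
        have h6 := hkn (u - cv)
        linarith
  linarith

/-- MODULE BAND. Montgomery's theorem for the limit measure. `gs η` is continuous and
`‖gs η u‖ ≤ C/(1 + u²)` (`Mo/Decay.lean`), so integrable for `μ` (`mu_tb`, sum over unit intervals). For
`ρ` small, `gs η (u 0) · kap(u)^2` is `synth` of a band function in `|ξ| < 1` (`synth_one`, `IsBand.conv`,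
`exists_band_ee_kap_sq` with `ξ₀ = 0`; support radius `δ + 4ρ`), so by Montgomery its `ν_T`-integral
tends to its integral against `sineDet 1 = 1 - sinc(π u)²` (`sineDet_one`), and by `tendsto_dominated`
(`Limit67.lean`, real and imaginary parts) to its `μ`-integral. Let `ρ → 0` (`kap → 1` pointwise, `kap_ge`;
`kap ≤ 1`; dominated convergence on both sides) and use `integral_gs_sine`. -/
theorem mu_band (hRH : RiemannHypothesis) {U : Filter ℝ} [U.NeBot] (hU : U ≤ atTop)
    {μ : Measure (Fin 1 → ℝ)} [IsLocallyFiniteMeasure μ]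
    (hμ : VagueLim (fun T => nuT goodFamily_zeta 1 T) U μ) {δ : ℝ} {η : ℝ → ℂ} (hδ : 0 ≤ δ)
    (hδ1 : δ < 1) (hη : Bump δ η) :
    Integrable (fun u : Fin 1 → ℝ => gs η (u 0 : ℂ)) μ ∧
      ∫ u : Fin 1 → ℝ, gs η (u 0 : ℂ) ∂μ =
        η 0 + (∫ x : ℝ, ((|x| : ℝ) : ℂ) * η x) - ∫ x : ℝ, η x := by
  obtain ⟨C, hC, htb⟩ := mu_tb hRH hU hμ
  obtain ⟨D, hD, hgD⟩ := gs_real_bound hδ hη 1
  have hgc : Continuous fun u : Fin 1 → ℝ => gs η (u 0 : ℂ) :=
    (continuous_gs hδ hη).comp (Complex.continuous_ofReal.comp (continuous_apply 0))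
  have hint : Integrable (fun u : Fin 1 → ℝ => gs η (u 0 : ℂ)) μ := by
    refine integrable_tb hC htb hgc hD.le (fun u => ?_)
    simpa using hgD (u 0)
  refine ⟨hint, ?_⟩
  have hintv : Integrable (fun u : Fin 1 → ℝ => gs η (u 0 : ℂ)) := by
    refine ((band_one hδ hη).integrable_synth).congr (Eventually.of_forall fun u => ?_)
    rw [synth_one]
  set r : ℝ := (1 - δ) / 8 with hr
  have hr0 : 0 < r := by
    rw [hr]
    linarith
  have hρ : ∀ n : ℕ, 0 < r / (n + 1) := fun n => by positivity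
  have hρ1 : ∀ n : ℕ, r / ((n : ℝ) + 1) ≤ r := fun n => by
    have h1 : (1 : ℝ) ≤ (n : ℝ) + 1 := by
      have : (0 : ℝ) ≤ n := Nat.cast_nonneg n
      linarith
    exact div_le_self hr0.le h1
  have hlim0 : Tendsto (fun n : ℕ => r / ((n : ℝ) + 1)) atTop (𝓝 0) := by
    have h1 := (tendsto_one_div_add_atTop_nhds_zero_nat (𝕜 := ℝ)).const_mul r
    rw [mul_zero] at h1
    refine h1.congr (fun n => ?_)
    rw [mul_one_div]
  have hkap : ∀ u : Fin 1 → ℝ,
      Tendsto (fun n : ℕ => ((kap 1 (r / ((n : ℝ) + 1)) (hρ n) u ^ 2 : ℝ) : ℂ)) atTop (𝓝 1) := by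
    intro u
    have h1 : Tendsto (fun n : ℕ => kap 1 (r / ((n : ℝ) + 1)) (hρ n) u) atTop (𝓝 1) := by
      have h2 : Tendsto (fun n : ℕ => 1 - 4 * π * ((1 : ℕ) : ℝ) * (r / ((n : ℝ) + 1) * ‖u‖)) atTop
          (𝓝 1) := by
        have h3 := ((hlim0.mul_const ‖u‖).const_mul (4 * π * ((1 : ℕ) : ℝ))).const_sub 1
        simpa using h3
      exact tendsto_of_tendsto_of_tendsto_of_le_of_le h2 tendsto_const_nhds
        (fun n => kap_ge _ (hρ n) u) (fun n => kap_le_one _ (hρ n) u)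
    have h4 := (Complex.continuous_ofReal.tendsto _).comp (h1.pow 2)
    rw [one_pow, Complex.ofReal_one] at h4
    exact h4
  have hA : Tendsto (fun n : ℕ => ∫ u : Fin 1 → ℝ, gs η (u 0 : ℂ) *
      ((kap 1 (r / ((n : ℝ) + 1)) (hρ n) u ^ 2 : ℝ) : ℂ) ∂μ) atTop
      (𝓝 (∫ u : Fin 1 → ℝ, gs η (u 0 : ℂ) ∂μ)) := by
    refine tendsto_integral_of_dominated_convergence (fun u => ‖gs η (u 0 : ℂ)‖) ?_ hint.norm ?_ ?_
    · intro n
      exact (hgc.mul (Complex.continuous_ofReal.comp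
        ((continuous_kap (m := 1) _ (hρ n)).pow 2))).aestronglyMeasurable
    · intro n
      refine Eventually.of_forall fun u => ?_
      rw [norm_mul, Complex.norm_real, Real.norm_of_nonneg (sq_nonneg _)]
      exact mul_le_of_le_one_right (norm_nonneg _)
        (pow_le_one₀ (kap_nonneg _ (hρ n) u) (kap_le_one _ (hρ n) u))
    · refine Eventually.of_forall fun u => ?_
      have h1 := (hkap u).const_mul (gs η (u 0 : ℂ))
      rwa [mul_one] at h1
  have hB : Tendsto (fun n : ℕ => ∫ u : Fin 1 → ℝ, gs η (u 0 : ℂ) *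
      ((kap 1 (r / ((n : ℝ) + 1)) (hρ n) u ^ 2 : ℝ) : ℂ) * (sineDet 1 u : ℂ)) atTop
      (𝓝 (∫ u : Fin 1 → ℝ, gs η (u 0 : ℂ) * (sineDet 1 u : ℂ))) := by
    refine tendsto_integral_of_dominated_convergence (fun u => ‖gs η (u 0 : ℂ)‖) ?_ hintv.norm ?_ ?_
    · intro n
      exact ((hgc.mul (Complex.continuous_ofReal.comp
        ((continuous_kap (m := 1) _ (hρ n)).pow 2))).mul
        (Complex.continuous_ofReal.comp (continuous_sineDet 1))).aestronglyMeasurable
    · intro n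
      refine Eventually.of_forall fun u => ?_
      rw [norm_mul, norm_mul, Complex.norm_real, Real.norm_of_nonneg (sq_nonneg _),
        Complex.norm_real, Real.norm_of_nonneg (sineDet_nonneg 1 u)]
      have h1 : kap 1 (r / ((n : ℝ) + 1)) (hρ n) u ^ 2 ≤ 1 :=
        pow_le_one₀ (kap_nonneg _ (hρ n) u) (kap_le_one _ (hρ n) u)
      have h2 := sineDet_one_le u
      calc ‖gs η (u 0 : ℂ)‖ * kap 1 (r / ((n : ℝ) + 1)) (hρ n) u ^ 2 * sineDet 1 u
          ≤ ‖gs η (u 0 : ℂ)‖ * 1 * 1 := by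
            gcongr
            exact sineDet_nonneg 1 u
        _ = ‖gs η (u 0 : ℂ)‖ := by ring
    · refine Eventually.of_forall fun u => ?_
      have h1 := ((hkap u).const_mul (gs η (u 0 : ℂ))).mul_const (sineDet 1 u : ℂ)
      rwa [mul_one] at h1
  have heq : ∀ n : ℕ, ∫ u : Fin 1 → ℝ, gs η (u 0 : ℂ) *
      ((kap 1 (r / ((n : ℝ) + 1)) (hρ n) u ^ 2 : ℝ) : ℂ) ∂μ =
      ∫ u : Fin 1 → ℝ, gs η (u 0 : ℂ) *
      ((kap 1 (r / ((n : ℝ) + 1)) (hρ n) u ^ 2 : ℝ) : ℂ) * (sineDet 1 u : ℂ) := by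
    intro n
    refine approx_eq hRH hU hμ hδ hη hint (hρ n) ?_
    have h1 := hρ1 n
    have h2 : 8 * r = 1 - δ := by
      rw [hr]
      ring
    linarith
  rw [tendsto_nhds_unique hA (hB.congr fun n => (heq n).symm), integral_fin_one,
    ← integral_gs_sine hδ hδ1.le hη]
  apply integral_congr_ae
  apply Eventually.of_forall
  intro u
  simp only
  rw [sineDet_one]

end Pool.Agent.MP_67227b_nt.Ah
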