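import Pool.Agent.MP_67227b_nt.Ah.AhDefs
import Pool.Agent.MP_67227b_nt.Pp.PpCa
import Pool.Agent.MP_67227b_nt.Sg.SgG

set_option autoImplicit false

open Filter Topology Set MeasureTheory Complex
open scoped Real ArithmeticFunction ContDiff

namespace Pool.Agent.MP_67227b_nt.Ah

open Pool.Agent.Lib.ZetaCount_helper33 Pool.Agent.MP_67227b_nt Pool.Agent.MP_67227b_nt.Mo
open Pool.Agent.MP_67227b_nt.Sg Pool.Agent.MP_67227b_nt.Pp
open Pool.Agent.MP_67227b_nt.Mo.MomentBAux (DP)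

namespace BndAux

lemma norm_npow {n : ℕ} (hn : 0 < n) (s : ℂ) : ‖(n : ℂ) ^ (-s)‖ = (n : ℝ) ^ (-s.re) := by
  rw [Complex.norm_natCast_cpow_of_pos hn]
  simp

lemma diff_npow {n : ℕ} (hn : 1 ≤ n) : Differentiable ℂ (fun s : ℂ => (n : ℂ) ^ (-s)) := by
  have h0 : (n : ℂ) ≠ 0 := by exact_mod_cast (by omega : n ≠ 0)
  intro s
  exact DifferentiableAt.const_cpow (by fun_prop) (Or.inl h0)

lemma diff_sum (c : ℕ → ℂ) (N : ℕ) :
    Differentiable ℂ (fun s : ℂ => ∑ m ∈ Finset.Icc 1 N, c m * (m : ℂ) ^ (-s)) := by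
  intro s
  have h : ∀ m ∈ Finset.Icc 1 N, DifferentiableAt ℂ (fun s : ℂ => c m * (m : ℂ) ^ (-s)) s := by
    intro m hm
    exact (diff_npow (Finset.mem_Icc.mp hm).1 s).const_mul _
  have := DifferentiableAt.fun_sum h
  exact this

lemma sum_bound {c : ℕ → ℂ} {B R : ℝ} {N : ℕ} (hB : 0 ≤ B)
    (hc : ∀ m ∈ Finset.Icc 1 N, ‖c m‖ ≤ B) {s : ℂ}
    (hR : ∀ m ∈ Finset.Icc 1 N, (m : ℝ) ^ (-s.re) ≤ R) :
    ‖∑ m ∈ Finset.Icc 1 N, c m * (m : ℂ) ^ (-s)‖ ≤ N * (B * R) := by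
  calc ‖∑ m ∈ Finset.Icc 1 N, c m * (m : ℂ) ^ (-s)‖ ≤ ∑ m ∈ Finset.Icc 1 N, B * R := by
        apply norm_sum_le_of_le
        intro m hm
        rw [norm_mul, norm_npow (Finset.mem_Icc.mp hm).1]
        exact mul_le_mul (hc m hm) (hR m hm) (by positivity) hB
    _ = N * (B * R) := by
        rw [Finset.sum_const, nsmul_eq_mul, Nat.card_Icc, Nat.add_sub_cancel]

lemma pow_one {m : ℕ} (hm : 1 ≤ m) {σ : ℝ} (hσ : 0 ≤ σ) : (m : ℝ) ^ (-σ) ≤ 1 := by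
  apply Real.rpow_le_one_of_one_le_of_nonpos
  · exact_mod_cast hm
  · linarith

lemma pow_four {m N : ℕ} (hm : 1 ≤ m) (hmN : m ≤ N) {σ : ℝ} (hσ : -4 ≤ σ) :
    (m : ℝ) ^ (-σ) ≤ (N : ℝ) ^ 4 := by
  have h1 : (1 : ℝ) ≤ m := by exact_mod_cast hm
  have h2 : (m : ℝ) ≤ N := by exact_mod_cast hmN
  calc (m : ℝ) ^ (-σ) ≤ (m : ℝ) ^ (4 : ℝ) :=
        Real.rpow_le_rpow_of_exponent_le h1 (by linarith)
    _ = (m : ℝ) ^ 4 := by norm_cast
    _ ≤ (N : ℝ) ^ 4 := by gcongr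

lemma pow_neg {m N : ℕ} (hmN : m ≤ N) {σ : ℝ} (hσ : σ ≤ 0) :
    (m : ℝ) ^ (-σ) ≤ (N : ℝ) ^ (-σ) := by
  apply Real.rpow_le_rpow (by positivity) (by exact_mod_cast hmN) (by linarith)

/-- The polynomial with bounded coefficients, in three ranges. -/
lemma Aa_bound {a : ℕ → ℝ} {A : ℝ} (hA : 0 ≤ A) (ha : ∀ n, |a n| ≤ A) (N : ℕ) (s : ℂ) :
    (0 ≤ s.re → ‖Aa a N s‖ ≤ N * (A * 1)) ∧ (-4 ≤ s.re → ‖Aa a N s‖ ≤ N * (A * (N : ℝ) ^ 4)) ∧
      (s.re ≤ 0 → ‖Aa a N s‖ ≤ N * (A * (N : ℝ) ^ (-s.re))) := by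
  have hc : ∀ m ∈ Finset.Icc 1 N, ‖((a m : ℝ) : ℂ)‖ ≤ A := by
    intro m _
    rw [Complex.norm_real]
    exact ha m
  refine ⟨fun h => ?_, fun h => ?_, fun h => ?_⟩
  · exact sum_bound hA hc fun m hm => pow_one (Finset.mem_Icc.mp hm).1 h
  · exact sum_bound hA hc fun m hm => pow_four (Finset.mem_Icc.mp hm).1 (Finset.mem_Icc.mp hm).2 h
  · exact sum_bound hA hc fun m hm => pow_neg (Finset.mem_Icc.mp hm).2 h

lemma Pl_bound {a : ℕ → ℝ} {A : ℝ} (hA : 0 ≤ A) (ha : ∀ n, |a n| ≤ A) (α : ℝ) (N : ℕ) (s : ℂ) :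
    (0 ≤ s.re → ‖Pl a α N s‖ ≤ N * ((A * (N : ℝ) ^ 2) * 1)) ∧
    (-4 ≤ s.re → ‖Pl a α N s‖ ≤ N * ((A * (N : ℝ) ^ 2) * (N : ℝ) ^ 4)) ∧
      (s.re ≤ 0 → ‖Pl a α N s‖ ≤ N * ((A * (N : ℝ) ^ 2) * (N : ℝ) ^ (-s.re))) := by
  have hB : 0 ≤ A * (N : ℝ) ^ 2 := by positivity
  have hc : ∀ m ∈ Finset.Icc 1 N, ‖ca a α N m‖ ≤ A * (N : ℝ) ^ 2 := by
    intro m hm
    refine (ca_bound hA ha α N m).trans ?_
    have : (m : ℝ) ≤ N := by exact_mod_cast (Finset.mem_Icc.mp hm).2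
    gcongr
  refine ⟨fun h => ?_, fun h => ?_, fun h => ?_⟩
  · exact sum_bound hB hc fun m hm => pow_one (Finset.mem_Icc.mp hm).1 h
  · exact sum_bound hB hc fun m hm => pow_four (Finset.mem_Icc.mp hm).1 (Finset.mem_Icc.mp hm).2 h
  · exact sum_bound hB hc fun m hm => pow_neg (Finset.mem_Icc.mp hm).2 h

lemma Aa_shift_re (α : ℝ) (s : ℂ) : (s + (α : ℂ) * I).re = s.re := by simp

lemma Aa_shift_diff (a : ℕ → ℝ) (α : ℝ) (N : ℕ) :
    Differentiable ℂ (fun s : ℂ => Aa a N (s + (α : ℂ) * I)) := by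
  have h1 : Differentiable ℂ (Aa a N) := diff_sum (fun m => (a m : ℂ)) N
  exact h1.comp (f := fun s : ℂ => s + (α : ℂ) * I) (by fun_prop)

lemma Pl_diff (a : ℕ → ℝ) (α : ℝ) (N : ℕ) : Differentiable ℂ (Pl a α N) :=
  diff_sum (fun m => ca a α N m) N

/-- Crude bounds for zeta on `2 ≤ Re s`. -/
lemma zeta_crude {s : ℂ} (hs : 2 ≤ s.re) :
    ‖riemannZeta s‖ ≤ 2 ∧ 1 / 3 ≤ ‖riemannZeta s‖ := by
  have hs1 : 1 < s.re := by linarith
  have hsum2 : HasSum (fun n : ℕ => 1 / (n : ℝ) ^ 2) (π ^ 2 / 6) := hasSum_zeta_two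
  have hnorm : ∀ n : ℕ, ‖1 / (n : ℂ) ^ s‖ ≤ 1 / (n : ℝ) ^ 2 := by
    intro n
    rcases Nat.eq_zero_or_pos n with h0 | h0
    · subst h0
      have : s ≠ 0 := by
        rintro rfl
        simp at hs
        linarith
      simp [Complex.zero_cpow this]
    · rw [norm_div, norm_one, Complex.norm_natCast_cpow_of_pos h0]
      apply one_div_le_one_div_of_le (by positivity)
      rw [← Real.rpow_natCast]
      apply Real.rpow_le_rpow_of_exponent_le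
      · exact_mod_cast h0
      · exact_mod_cast hs
  have hsumm : Summable fun n : ℕ => 1 / (n : ℂ) ^ s :=
    Summable.of_norm_bounded hsum2.summable hnorm
  have hpi : π ^ 2 / 6 ≤ 1.6451 := by
    have h1 := Real.pi_lt_d6
    have h2 := Real.pi_pos
    nlinarith
  have hz : riemannZeta s = ∑' n : ℕ, 1 / (n : ℂ) ^ s := zeta_eq_tsum_one_div_nat_cpow hs1
  constructor
  · rw [hz]
    have h1 : ‖∑' n : ℕ, 1 / (n : ℂ) ^ s‖ ≤ π ^ 2 / 6 :=
      tsum_of_norm_bounded hsum2 hnorm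
    linarith
  · -- split off `n = 0, 1`
    have h1 : ∑' n : ℕ, 1 / (n : ℂ) ^ s = (∑ n ∈ Finset.range 2, 1 / (n : ℂ) ^ s) +
        ∑' n : ℕ, 1 / ((n + 2 : ℕ) : ℂ) ^ s := (hsumm.sum_add_tsum_nat_add 2).symm
    have h2 : ∑ n ∈ Finset.range 2, 1 / (n : ℂ) ^ s = 1 := by
      have : s ≠ 0 := by
        rintro rfl
        simp at hs
        linarith
      simp [Finset.sum_range_succ, Complex.zero_cpow this]
    have h3 : HasSum (fun n : ℕ => 1 / ((n + 2 : ℕ) : ℝ) ^ 2)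
        (π ^ 2 / 6 - ∑ n ∈ Finset.range 2, 1 / (n : ℝ) ^ 2) := by
      have := (hasSum_nat_add_iff' (f := fun n : ℕ => 1 / (n : ℝ) ^ 2) (g := π ^ 2 / 6) 2).mpr hsum2
      exact this
    have h4 : ∑ n ∈ Finset.range 2, 1 / (n : ℝ) ^ 2 = 1 := by
      simp [Finset.sum_range_succ]
    rw [h4] at h3
    have h5 : ‖∑' n : ℕ, 1 / ((n + 2 : ℕ) : ℂ) ^ s‖ ≤ π ^ 2 / 6 - 1 :=
      tsum_of_norm_bounded h3 (fun n => hnorm (n + 2))
    rw [hz, h1, h2]
    have h6 := norm_sub_le_norm_add (1 : ℂ) (∑' n : ℕ, 1 / ((n + 2 : ℕ) : ℂ) ^ s)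
    rw [norm_one] at h6
    linarith

lemma Hq_crude {α : ℝ} {s : ℂ} (hs : 2 ≤ s.re) : ‖Hq α s‖ ≤ 6 := by
  have h3 := (zeta_crude (s := s + (α : ℂ) * I) (by simpa using hs)).1
  have h4 := (zeta_crude (s := s) hs).2
  rw [Hq, norm_div]
  calc ‖riemannZeta (s + (α : ℂ) * I)‖ / ‖riemannZeta s‖ ≤ 2 / (1 / 3) := by
        apply div_le_div₀ (by norm_num) h3 (by norm_num) h4
    _ = 6 := by norm_num

/-- The high part far to the right. -/
lemma Fh_right {a : ℕ → ℝ} {A : ℝ} (hA : 0 ≤ A) (ha : ∀ n, |a n| ≤ A) (α : ℝ) (N : ℕ) {s : ℂ}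
    (hs : 4 ≤ s.re) :
    ‖Fh a α N s‖ ≤ 2 * A * ((N : ℝ) + 1) ^ 4 * ((N : ℝ) + 1) ^ (-s.re) := by
  have h1 := ca_series a α N (s := s) (by linarith)
  have h2 := (hasSum_nat_add_iff' (N + 1)).mpr h1
  have h3 : ∑ i ∈ Finset.range (N + 1), (if i = 0 then 0 else ca a α N i * (i : ℂ) ^ (-s)) =
      Pl a α N s := by
    unfold Pl
    have hsub : Finset.Icc 1 N ⊆ Finset.range (N + 1) := by
      intro m hm
      have := Finset.mem_Icc.mp hm
      exact Finset.mem_range.mpr (by omega)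
    rw [← Finset.sum_subset hsub]
    · refine Finset.sum_congr rfl fun m hm => ?_
      have := Finset.mem_Icc.mp hm
      rw [if_neg (by omega)]
    · intro m hm hm2
      have hm3 := Finset.mem_range.mp hm
      have : m = 0 := by
        by_contra hne
        exact hm2 (Finset.mem_Icc.mpr ⟨by omega, by omega⟩)
      rw [if_pos this]
  rw [h3] at h2
  have h4 : HasSum (fun i : ℕ => 1 / ((i + (N + 1) : ℕ) : ℝ) ^ 2)
      (π ^ 2 / 6 - ∑ n ∈ Finset.range (N + 1), 1 / (n : ℝ) ^ 2) :=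
    (hasSum_nat_add_iff' (f := fun n : ℕ => 1 / (n : ℝ) ^ 2) (g := π ^ 2 / 6) (N + 1)).mpr
      hasSum_zeta_two
  have hN0 : (0 : ℝ) < (N : ℝ) + 1 := by positivity
  have h5 := h4.mul_left (A * ((N : ℝ) + 1) ^ (4 - s.re))
  have h6 : ∀ i : ℕ, ‖if i + (N + 1) = 0 then (0 : ℂ) else
      ca a α N (i + (N + 1)) * ((i + (N + 1) : ℕ) : ℂ) ^ (-s)‖ ≤
      A * ((N : ℝ) + 1) ^ (4 - s.re) * (1 / ((i + (N + 1) : ℕ) : ℝ) ^ 2) := by
    intro i
    rw [if_neg (by omega), norm_mul, norm_npow (by omega)]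
    set m : ℕ := i + (N + 1) with hm
    have hmR : (N : ℝ) + 1 ≤ m := by
      have : N + 1 ≤ m := by omega
      exact_mod_cast this
    have hm0 : (0 : ℝ) < m := by linarith
    have e1 : (m : ℝ) ^ (-s.re) = (m : ℝ) ^ (4 - s.re) / (m : ℝ) ^ 4 := by
      rw [show -s.re = (4 - s.re) - (4 : ℕ) by push_cast; ring, Real.rpow_sub hm0,
        Real.rpow_natCast]
    have e2 : (m : ℝ) ^ (4 - s.re) ≤ ((N : ℝ) + 1) ^ (4 - s.re) :=
      Real.rpow_le_rpow_of_nonpos hN0 hmR (by linarith)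
    calc ‖ca a α N m‖ * (m : ℝ) ^ (-s.re) ≤ A * (m : ℝ) ^ 2 *
          (((N : ℝ) + 1) ^ (4 - s.re) / (m : ℝ) ^ 4) := by
          rw [e1]
          exact mul_le_mul (ca_bound hA ha α N m) (by gcongr) (by positivity) (by positivity)
      _ = A * ((N : ℝ) + 1) ^ (4 - s.re) * (1 / (m : ℝ) ^ 2) := by
          field_simp
  have h7 : Hq α s * Aa a N (s + (α : ℂ) * I) - Pl a α N s = Fh a α N s := rfl
  rw [h7] at h2
  have h8 := h2.tsum_eq
  have h9 : ‖Fh a α N s‖ ≤ A * ((N : ℝ) + 1) ^ (4 - s.re) *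
      (π ^ 2 / 6 - ∑ n ∈ Finset.range (N + 1), 1 / (n : ℝ) ^ 2) := by
    rw [← h8]
    exact tsum_of_norm_bounded h5 h6
  have h10 : π ^ 2 / 6 - ∑ n ∈ Finset.range (N + 1), 1 / (n : ℝ) ^ 2 ≤ 2 := by
    have e1 : 0 ≤ ∑ n ∈ Finset.range (N + 1), 1 / (n : ℝ) ^ 2 :=
      Finset.sum_nonneg fun n _ => by positivity
    have h1 := Real.pi_lt_d6
    have h2 := Real.pi_pos
    nlinarith
  calc ‖Fh a α N s‖ ≤ A * ((N : ℝ) + 1) ^ (4 - s.re) * 2 := by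
        refine h9.trans ?_
        gcongr
    _ = 2 * A * ((N : ℝ) + 1) ^ 4 * ((N : ℝ) + 1) ^ (-s.re) := by
        rw [show 4 - s.re = ((4 : ℕ) : ℝ) + -s.re by push_cast; ring, Real.rpow_add hN0,
          Real.rpow_natCast]
        ring

end BndAux

open BndAux in
/-- MODULE BND1. `Fh` to the right of the line: differentiable (`Sg.differentiableAt_Hq`); for
`Re s ≤ 4` use `Hq_growth` (`‖Hq‖ ≤ T^C`), `‖Aa‖, ‖Pl‖ ≤ A N^4 ≤ T^5` (`ca_bound`); for `Re s ≥ 4`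
`Fh = ∑_{m > N} ca(m) m^{-s}` (`ca_series`), `‖ca m‖ ≤ A m²`, and
`∑_{m ≥ N+1} m^{2-σ} ≤ (N+1)^{2-σ} (1 + (N+1)) ≤ T^4 (N+1)^{-σ}`. -/
theorem Fh_bound (hRH : RiemannHypothesis) {δ ε A : ℝ} (hδ : 0 < δ) (hδ1 : δ ≤ 1 / 16)
    (hε : 0 < ε) (hε1 : ε ≤ 1 / 8) (hA : 0 < A) : ∃ C₁ : ℝ, ∀ᶠ T : ℝ in atTop,
      ∀ a : ℕ → ℝ, (∀ n, |a n| ≤ A) → ∀ t₀ ∈ Icc ((1 / 2 + 2 * ε) * T) ((1 - 2 * ε) * T),
        DifferentiableOn ℂ (Fh a (al T) (Nn δ T))
          {s | 1 / 2 + δ / Real.log T ≤ s.re ∧ |s.im - t₀| ≤ ε * T} ∧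
        (∀ s : ℂ, 1 / 2 + δ / Real.log T ≤ s.re → s.re ≤ 4 → |s.im - t₀| ≤ ε * T →
          ‖Fh a (al T) (Nn δ T) s‖ ≤ T ^ C₁) ∧
        (∀ s : ℂ, 4 ≤ s.re → |s.im - t₀| ≤ ε * T →
          ‖Fh a (al T) (Nn δ T) s‖ ≤ T ^ C₁ * ((Nn δ T : ℝ) + 1) ^ (-s.re)) := by
  obtain ⟨C, hC, hgr⟩ := Hq_growth hRH (u := 1 / 2) (β := δ) (by norm_num) hδ
  refine ⟨C + 9, ?_⟩
  have hT1 : ∀ᶠ T : ℝ in atTop, 1 ≤ Real.log T := Real.tendsto_log_atTop.eventually_ge_atTop 1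
  filter_upwards [hgr, hT1, eventually_ge_atTop 4, eventually_ge_atTop (32 * A)] with T hgr hL1
    hT4 hTA a ha t₀ ht₀
  have hT0 : 0 < T := by linarith
  have hT1' : 1 ≤ T := by linarith
  have hL0 : 0 < Real.log T := by linarith
  set N : ℕ := Nn δ T with hN
  have hπ := Real.pi_pos
  have hal : 0 ≤ al T := by unfold al; positivity
  have hNT : (N : ℝ) ≤ T := by
    calc (N : ℝ) ≤ T ^ (1 - δ) := Nat.floor_le (by positivity)
      _ ≤ T ^ (1 : ℝ) := Real.rpow_le_rpow_of_exponent_le hT1' (by linarith)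
      _ = T := Real.rpow_one T
  have hb : 0 < δ / Real.log T := by positivity
  have him : ∀ s : ℂ, |s.im - t₀| ≤ ε * T → T / 2 ≤ s.im ∧ s.im ≤ 4 * T := by
    intro s hs
    have h1 := abs_le.mp hs
    have h2 : 0 ≤ ε * T := by positivity
    have h3 := ht₀.1
    have h4 := ht₀.2
    constructor <;> nlinarith
  have hTC : T ^ (C + 9) = T ^ C * T ^ 9 := by
    rw [Real.rpow_add hT0]
    norm_cast
  have hTC1 : 1 ≤ T ^ C := Real.one_le_rpow hT1' hC.le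
  refine ⟨?_, ?_, ?_⟩
  · intro s hs
    have h1 := him s hs.2
    have h2 : DifferentiableAt ℂ (Hq (al T)) s :=
      differentiableAt_Hq hRH hal (by linarith [hs.1]) (by linarith)
    have h3 : DifferentiableAt ℂ (Fh a (al T) N) s :=
      (h2.mul (Aa_shift_diff a (al T) N s)).sub (Pl_diff a (al T) N s)
    exact h3.differentiableWithinAt
  · intro s hs1 hs2 hs3
    have h1 := him s hs3
    have h2 : ‖Hq (al T) s‖ ≤ T ^ C := by
      have := hgr s.re s.im hs1 hs2 h1.1 h1.2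
      have e : pl s.re s.im = s := by
        unfold pl
        exact Complex.re_add_im s
      rw [e] at this
      exact this
    have hre : 0 ≤ s.re := by linarith
    have h3 := (Aa_bound hA.le ha N (s + (al T : ℂ) * I)).1 (by rw [Aa_shift_re]; exact hre)
    have h4 := (Pl_bound hA.le ha (al T) N s).1 hre
    have h5 : ‖Fh a (al T) N s‖ ≤ T ^ C * (T * (A * 1)) + T * ((A * T ^ 2) * 1) := by
      unfold Fh
      refine (norm_sub_le _ _).trans (add_le_add ?_ ?_)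
      · rw [norm_mul]
        refine mul_le_mul h2 (h3.trans ?_) (norm_nonneg _) (by positivity)
        gcongr
      · refine h4.trans ?_
        gcongr
    refine h5.trans ?_
    rw [hTC]
    have hT3 : T ≤ T ^ 3 := by nlinarith [sq_nonneg T]
    have hA2 : 2 * A ≤ T := by linarith
    have hT9 : T ^ 3 * T ≤ T ^ 9 := by
      calc T ^ 3 * T = T ^ 4 := by ring
        _ ≤ T ^ 9 := pow_le_pow_right₀ hT1' (by norm_num)
    calc T ^ C * (T * (A * 1)) + T * ((A * T ^ 2) * 1) ≤ T ^ C * (T ^ 3 * A) + T ^ C * (T ^ 3 * A)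
          := by
          apply add_le_add
          · rw [mul_one]
            gcongr
          · calc T * ((A * T ^ 2) * 1) = 1 * (T ^ 3 * A) := by ring
              _ ≤ T ^ C * (T ^ 3 * A) := by gcongr
      _ = T ^ C * (T ^ 3 * (2 * A)) := by ring
      _ ≤ T ^ C * (T ^ 3 * T) := by gcongr
      _ ≤ T ^ C * T ^ 9 := by gcongr
  · intro s hs1 hs3
    refine (Fh_right hA.le ha (al T) N hs1).trans ?_
    have hN1 : (N : ℝ) + 1 ≤ 2 * T := by linarith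
    have h1 : 2 * A * ((N : ℝ) + 1) ^ 4 ≤ T ^ (C + 9) := by
      rw [hTC]
      calc 2 * A * ((N : ℝ) + 1) ^ 4 ≤ 2 * A * (2 * T) ^ 4 := by gcongr
        _ = 32 * A * T ^ 4 := by ring
        _ ≤ T * T ^ 4 := by gcongr
        _ = T ^ 5 := by ring
        _ ≤ T ^ 9 := pow_le_pow_right₀ hT1' (by norm_num)
        _ = 1 * T ^ 9 := by ring
        _ ≤ T ^ C * T ^ 9 := by gcongr
    gcongr

open BndAux in
/-- MODULE BND2. `Hl` to the left of the line: `s ↦ conj (Hq (1 + 2b - conj s))` is differentiable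
there (`DifferentiableAt.star_star` / `conj_conj`; `Re (1 + 2b - conj s) = 1 + 2b - Re s ≥ 1/2 + b`,
same imaginary part); its growth is at most `T^C` by `Hq_growth` if `1 + 2b - Re s ≤ 4`, and it is
bounded if `1 + 2b - Re s ≥ 2` (`‖ζ(s + iα)/ζ(s)‖ ≤ ζ(2)·ζ(2)/ζ(4)`-type bound; see the crude bounds
in `Sg/SgG.lean`); `‖Aa‖ ≤ A N · N^{-Re s}`, `‖Pl‖ ≤ A N³ N^{-Re s}` for `Re s ≤ 0`. -/
theorem Hl_bound (hRH : RiemannHypothesis) {δ ε A : ℝ} (hδ : 0 < δ) (hδ1 : δ ≤ 1 / 16)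
    (hε : 0 < ε) (hε1 : ε ≤ 1 / 8) (hA : 0 < A) : ∃ C₁ : ℝ, ∀ᶠ T : ℝ in atTop,
      ∀ a : ℕ → ℝ, (∀ n, |a n| ≤ A) → ∀ t₀ ∈ Icc ((1 / 2 + 2 * ε) * T) ((1 - 2 * ε) * T),
        DifferentiableOn ℂ (Hl a (al T) (δ / Real.log T) (Nn δ T))
          {s | s.re ≤ 1 / 2 + δ / Real.log T ∧ |s.im - t₀| ≤ ε * T} ∧
        (∀ s : ℂ, -4 ≤ s.re → s.re ≤ 1 / 2 + δ / Real.log T → |s.im - t₀| ≤ ε * T →
          ‖Hl a (al T) (δ / Real.log T) (Nn δ T) s‖ ≤ T ^ C₁) ∧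
        (∀ s : ℂ, s.re ≤ -4 → |s.im - t₀| ≤ ε * T →
          ‖Hl a (al T) (δ / Real.log T) (Nn δ T) s‖ ≤ T ^ C₁ * (Nn δ T : ℝ) ^ (-s.re)) := by
  obtain ⟨C, hC, hgr⟩ := Hq_growth hRH (u := 1 / 2) (β := δ) (by norm_num) hδ
  refine ⟨C + 9, ?_⟩
  have hT1 : ∀ᶠ T : ℝ in atTop, 1 ≤ Real.log T := Real.tendsto_log_atTop.eventually_ge_atTop 1
  filter_upwards [hgr, hT1, eventually_ge_atTop 6, eventually_ge_atTop (32 * A)] with T hgr hL1
    hT4 hTA a ha t₀ ht₀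
  have hT0 : 0 < T := by linarith
  have hT1' : 1 ≤ T := by linarith
  have hL0 : 0 < Real.log T := by linarith
  set N : ℕ := Nn δ T with hN
  have hπ := Real.pi_pos
  have hal : 0 ≤ al T := by unfold al; positivity
  have hNT : (N : ℝ) ≤ T := by
    calc (N : ℝ) ≤ T ^ (1 - δ) := Nat.floor_le (by positivity)
      _ ≤ T ^ (1 : ℝ) := Real.rpow_le_rpow_of_exponent_le hT1' (by linarith)
      _ = T := Real.rpow_one T
  set b : ℝ := δ / Real.log T with hbdef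
  have hb : 0 < b := by positivity
  have him : ∀ s : ℂ, |s.im - t₀| ≤ ε * T → T / 2 ≤ s.im ∧ s.im ≤ 4 * T := by
    intro s hs
    have h1 := abs_le.mp hs
    have h2 : 0 ≤ ε * T := by positivity
    have h3 := ht₀.1
    have h4 := ht₀.2
    constructor <;> nlinarith
  have hTC : T ^ (C + 9) = T ^ C * T ^ 9 := by
    rw [Real.rpow_add hT0]
    norm_cast
  have hTC1 : 1 ≤ T ^ C := Real.one_le_rpow hT1' hC.le
  have hre' : ∀ s : ℂ, (1 + 2 * (b : ℂ) - (starRingEnd ℂ) s).re = 1 + 2 * b - s.re := by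
    intro s
    simp
  have him' : ∀ s : ℂ, (1 + 2 * (b : ℂ) - (starRingEnd ℂ) s).im = s.im := by
    intro s
    simp
  refine ⟨?_, ?_, ?_⟩
  · intro s hs
    have h1 := him s hs.2
    have h2 : DifferentiableAt ℂ (fun s : ℂ =>
        (starRingEnd ℂ) (Hq (al T) (1 + 2 * (b : ℂ) - (starRingEnd ℂ) s))) s := by
      have h3 : DifferentiableAt ℂ (Hq (al T)) (1 + 2 * (b : ℂ) - (starRingEnd ℂ) s) := by
        apply differentiableAt_Hq hRH hal
        · rw [hre']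
          linarith [hs.1]
        · rw [him']
          linarith
      have h4 : DifferentiableAt ℂ (fun z : ℂ => Hq (al T) (1 + 2 * (b : ℂ) - z))
          ((starRingEnd ℂ) s) :=
        h3.comp (f := fun z : ℂ => 1 + 2 * (b : ℂ) - z) ((starRingEnd ℂ) s) (by fun_prop)
      exact differentiableAt_conj_conj_iff.mpr h4
    have h3 : DifferentiableAt ℂ (Hl a (al T) b N) s :=
      (Pl_diff a (al T) N s).add (h2.mul (Aa_shift_diff a (al T) N s))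
    exact h3.differentiableWithinAt
  · intro s hs1 hs2 hs3
    have h1 := him s hs3
    have h2 : ‖Hq (al T) (1 + 2 * (b : ℂ) - (starRingEnd ℂ) s)‖ ≤ T ^ C * 6 := by
      rcases le_or_gt (1 + 2 * b - s.re) 4 with h | h
      · have := hgr (1 + 2 * b - s.re) s.im (by linarith) h h1.1 h1.2
        have e : pl (1 + 2 * b - s.re) s.im = 1 + 2 * (b : ℂ) - (starRingEnd ℂ) s := by
          apply Complex.ext
          · rw [hre', pl_re]
          · rw [him', pl_im]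
        rw [e] at this
        calc _ ≤ T ^ C := this
          _ ≤ T ^ C * 6 := by linarith
      · have := Hq_crude (α := al T) (s := 1 + 2 * (b : ℂ) - (starRingEnd ℂ) s)
          (by rw [hre']; linarith)
        calc _ ≤ (6 : ℝ) := this
          _ ≤ T ^ C * 6 := by linarith
    have h3 := (Aa_bound hA.le ha N (s + (al T : ℂ) * I)).2.1 (by rw [Aa_shift_re]; exact hs1)
    have h4 := (Pl_bound hA.le ha (al T) N s).2.1 hs1
    have h5 : ‖Hl a (al T) b N s‖ ≤ T * ((A * T ^ 2) * T ^ 4) + T ^ C * 6 * (T * (A * T ^ 4)) := by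
      unfold Hl
      refine (norm_add_le _ _).trans (add_le_add ?_ ?_)
      · refine h4.trans ?_
        gcongr
      · rw [norm_mul, RCLike.norm_conj]
        refine mul_le_mul h2 (h3.trans ?_) (norm_nonneg _) (by positivity)
        gcongr
    refine h5.trans ?_
    rw [hTC]
    have hA2 : 7 * A ≤ T := by linarith
    have hT5 : T ^ 5 ≤ T ^ 7 := pow_le_pow_right₀ hT1' (by norm_num)
    calc T * ((A * T ^ 2) * T ^ 4) + T ^ C * 6 * (T * (A * T ^ 4))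
        = 1 * (T ^ 7 * A) + T ^ C * (T ^ 5 * (6 * A)) := by ring
      _ ≤ T ^ C * (T ^ 7 * A) + T ^ C * (T ^ 7 * (6 * A)) := by gcongr
      _ = T ^ C * (T ^ 7 * (7 * A)) := by ring
      _ ≤ T ^ C * (T ^ 7 * T) := by gcongr
      _ = T ^ C * T ^ 8 := by ring
      _ ≤ T ^ C * T ^ 9 := by
          have : T ^ 8 ≤ T ^ 9 := pow_le_pow_right₀ hT1' (by norm_num)
          gcongr
  · intro s hs1 hs3
    have h1 := him s hs3
    have h2 : ‖Hq (al T) (1 + 2 * (b : ℂ) - (starRingEnd ℂ) s)‖ ≤ 6 :=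
      Hq_crude (by rw [hre']; linarith)
    have h3 := (Aa_bound hA.le ha N (s + (al T : ℂ) * I)).2.2 (by rw [Aa_shift_re]; linarith)
    rw [Aa_shift_re] at h3
    have h4 := (Pl_bound hA.le ha (al T) N s).2.2 (by linarith)
    have h5 : ‖Hl a (al T) b N s‖ ≤ (T * (A * T ^ 2) + 6 * (T * A)) * (N : ℝ) ^ (-s.re) := by
      unfold Hl
      calc ‖Pl a (al T) N s + (starRingEnd ℂ) (Hq (al T) (1 + 2 * (b : ℂ) - (starRingEnd ℂ) s)) *
            Aa a N (s + (al T : ℂ) * I)‖ ≤ N * ((A * (N : ℝ) ^ 2) * (N : ℝ) ^ (-s.re)) +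
            6 * (N * (A * (N : ℝ) ^ (-s.re))) := by
            refine (norm_add_le _ _).trans (add_le_add h4 ?_)
            rw [norm_mul, RCLike.norm_conj]
            exact mul_le_mul h2 h3 (norm_nonneg _) (by norm_num)
        _ = (N * (A * (N : ℝ) ^ 2) + 6 * (N * A)) * (N : ℝ) ^ (-s.re) := by ring
        _ ≤ _ := by gcongr
    refine h5.trans ?_
    have h6 : T * (A * T ^ 2) + 6 * (T * A) ≤ T ^ (C + 9) := by
      rw [hTC]
      have hA2 : 7 * A ≤ T := by linarith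
      have hT3 : T ≤ T ^ 3 := by nlinarith [sq_nonneg T]
      calc T * (A * T ^ 2) + 6 * (T * A) = T ^ 3 * A + T * (6 * A) := by ring
        _ ≤ T ^ 3 * A + T ^ 3 * (6 * A) := by gcongr
        _ = T ^ 3 * (7 * A) := by ring
        _ ≤ T ^ 3 * T := by gcongr
        _ = T ^ 4 := by ring
        _ ≤ T ^ 9 := pow_le_pow_right₀ hT1' (by norm_num)
        _ = 1 * T ^ 9 := by ring
        _ ≤ T ^ C * T ^ 9 := by gcongr
    gcongr

end Pool.Agent.MP_67227b_nt.Ah
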