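import Pool.Agent.MP_67227b_nt.Ah.AhDefs

set_option autoImplicit false

open Filter Topology Set MeasureTheory Complex
open scoped Real ArithmeticFunction ContDiff

namespace Pool.Agent.MP_67227b_nt.Ah

open Pool.Agent.Lib.ZetaCount_helper33 Pool.Agent.MP_67227b_nt Pool.Agent.MP_67227b_nt.Mo
open Pool.Agent.MP_67227b_nt.Sg Pool.Agent.MP_67227b_nt.Pp
open Pool.Agent.MP_67227b_nt.Mo.MomentBAux (DP)

/-- MODULE BOX2. Markov's inequality on an interval. -/
private theorem markov_aux {F : ℝ → ℝ} {A B lam : ℝ} (hAB : A ≤ B) (hlam : 0 < lam)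
    (hF : ContinuousOn F (Icc A B)) (hF0 : ∀ t ∈ Icc A B, 0 ≤ F t) :
    volume.real {t ∈ Icc A B | lam < F t} ≤ (∫ t in A..B, F t) / lam := by
  have h1 := mul_meas_ge_le_integral_of_nonneg (μ := volume.restrict (Icc A B)) (f := F)
    ((ae_restrict_iff' measurableSet_Icc).2 (Eventually.of_forall hF0))
    (hF.integrableOn_compact isCompact_Icc) lam
  rw [measureReal_restrict_apply' measurableSet_Icc] at h1
  rw [le_div_iff₀ hlam, intervalIntegral.integral_of_le hAB, ← integral_Icc_eq_integral_Ioc,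
    mul_comm]
  refine le_trans (mul_le_mul_of_nonneg_left ?_ hlam.le) h1
  refine measureReal_mono ?_ ?_
  · rintro t ⟨ht, htF⟩
    exact ⟨htF.le, ht⟩
  · exact ((measure_mono inter_subset_right).trans_lt isCompact_Icc.measure_lt_top).ne

private theorem box_swap {F : ℝ → ℝ → ℝ} {a b c d : ℝ} (hF : Continuous (Function.uncurry F)) :
    ∫ x in a..b, ∫ y in c..d, F x y = ∫ y in c..d, ∫ x in a..b, F x y := by
  refine MeasureTheory.intervalIntegral_intervalIntegral_swap ?_
  refine IntegrableOn.mono_set (t := uIcc a b ×ˢ uIcc c d) ?_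
    (prod_mono uIoc_subset_uIcc uIoc_subset_uIcc)
  exact hF.continuousOn.integrableOn_compact (isCompact_uIcc.prod isCompact_uIcc)

/-- MODULE BOX. From lines to boxes. `sw T t (x + iy) = sw T (t + y/L) x`; by Fubini the integral over
`t ∈ [A + Y/L, B - Y/L]` of the box integral is at most `2 Y (x₂ - x₁) M`; Markov. -/
theorem box_markov {F : ℂ → ℝ} {T A B x₁ x₂ Y M lam : ℝ} (hT : 1 < T) (hx : x₁ ≤ x₂)
    (hY : 0 ≤ Y) (hlam : 0 < lam) (hM0 : 0 ≤ M) (hAB : A + Y / Real.log T ≤ B - Y / Real.log T)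
    (hF : ContinuousOn F {s | 1 / 2 + x₁ / Real.log T ≤ s.re ∧ s.re ≤ 1 / 2 + x₂ / Real.log T ∧
      A ≤ s.im ∧ s.im ≤ B}) (hF0 : ∀ s, 0 ≤ F s)
    (hM : ∀ x ∈ Icc x₁ x₂, ∫ t in A..B, F (sw T t x) ≤ M) :
    volume.real {t ∈ Icc (A + Y / Real.log T) (B - Y / Real.log T) |
      lam < ∫ x in x₁..x₂, ∫ y in (-Y)..Y, F (sw T t ((x : ℂ) + (y : ℂ) * I))} ≤
      2 * Y * (x₂ - x₁) * M / lam := by
  have hL : 0 < Real.log T := Real.log_pos hT
  set L := Real.log T with hLdef
  have hYL : 0 ≤ Y / L := div_nonneg hY hL.le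
  have hAB' : A ≤ B := by linarith
  let P : ℝ → ℝ := fun x => max x₁ (min x₂ x)
  let Q : ℝ → ℝ := fun t => max A (min B t)
  have hP : Continuous P := by fun_prop
  have hQ : Continuous Q := by fun_prop
  have hPm : ∀ x, P x ∈ Icc x₁ x₂ := fun x => ⟨le_max_left _ _, max_le hx (min_le_left _ _)⟩
  have hQm : ∀ x, Q x ∈ Icc A B := fun x => ⟨le_max_left _ _, max_le hAB' (min_le_left _ _)⟩
  have hPx : ∀ x ∈ Icc x₁ x₂, P x = x := fun x hx => by
    show max _ (min _ x) = x
    rw [min_eq_right hx.2, max_eq_right hx.1]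
  have hQx : ∀ y ∈ Icc A B, Q y = y := fun x hx => by
    show max _ (min _ x) = x
    rw [min_eq_right hx.2, max_eq_right hx.1]
  have hsw : ∀ x t : ℝ, (sw T t x).re = 1 / 2 + x / L ∧ (sw T t x).im = t := by
    intro x t
    unfold sw
    rw [← hLdef]
    have h1 : ((x : ℂ) / (L : ℂ)) = ((x / L : ℝ) : ℂ) := by push_cast; rfl
    rw [h1]
    constructor
    · simp
    · simp
  let G : ℝ → ℝ → ℝ := fun x t => F (sw T (Q t) (P x))
  have hG : Continuous (Function.uncurry G) := by
    have h1 : Continuous fun p : ℝ × ℝ => sw T (Q p.2) (P p.1) := by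
      unfold sw
      fun_prop
    refine hF.comp_continuous h1 fun p => ?_
    have h2 := hPm p.1
    have h3 := hQm p.2
    rw [Set.mem_ofPred_eq, (hsw _ _).1, (hsw _ _).2]
    refine ⟨?_, ?_, h3.1, h3.2⟩
    · have := div_le_div_of_nonneg_right h2.1 hL.le
      linarith
    · have := div_le_div_of_nonneg_right h2.2 hL.le
      linarith
  have hG0 : ∀ x t, 0 ≤ G x t := fun x t => hF0 _
  have hGF : ∀ x ∈ Icc x₁ x₂, ∀ y ∈ Icc (-Y) Y, ∀ t ∈ Icc (A + Y / L) (B - Y / L),
      F (sw T t ((x : ℂ) + (y : ℂ) * I)) = G x (t + y / L) := by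
    intro x hx y hy t ht
    have h1 : -(Y / L) ≤ y / L := by
      rw [← neg_div]
      exact div_le_div_of_nonneg_right hy.1 hL.le
    have h2 : y / L ≤ Y / L := div_le_div_of_nonneg_right hy.2 hL.le
    show _ = F (sw T (Q (t + y / L)) (P x))
    rw [hPx x hx, hQx (t + y / L) ⟨by linarith [ht.1], by linarith [ht.2]⟩]
    congr 1
    unfold sw
    rw [← hLdef]
    push_cast
    ring
  let H : ℝ → ℝ := fun t => ∫ x in x₁..x₂, ∫ y in (-Y)..Y, G x (t + y / L)
  have hHc : Continuous H := by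
    refine intervalIntegral.continuous_parametric_intervalIntegral_of_continuous' ?_ _ _
    show Continuous fun p : ℝ × ℝ => ∫ y in (-Y)..Y, G p.2 (p.1 + y / L)
    refine intervalIntegral.continuous_parametric_intervalIntegral_of_continuous' ?_ _ _
    show Continuous fun p : (ℝ × ℝ) × ℝ => G p.1.2 (p.1.1 + p.2 / L)
    exact hG.comp (by fun_prop : Continuous fun p : (ℝ × ℝ) × ℝ => (p.1.2, p.1.1 + p.2 / L))
  have hH0 : ∀ t, 0 ≤ H t := fun t =>
    intervalIntegral.integral_nonneg hx fun x _ =>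
      intervalIntegral.integral_nonneg (by linarith) fun y _ => hG0 _ _
  have hset : {t ∈ Icc (A + Y / L) (B - Y / L) |
      lam < ∫ x in x₁..x₂, ∫ y in (-Y)..Y, F (sw T t ((x : ℂ) + (y : ℂ) * I))} =
      {t ∈ Icc (A + Y / L) (B - Y / L) | lam < H t} := by
    ext t
    refine and_congr_right fun ht => ?_
    have h1 : ∫ x in x₁..x₂, ∫ y in (-Y)..Y, F (sw T t ((x : ℂ) + (y : ℂ) * I)) = H t := by
      refine intervalIntegral.integral_congr fun x hx' => ?_
      rw [uIcc_of_le hx] at hx'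
      refine intervalIntegral.integral_congr fun y hy' => ?_
      rw [uIcc_of_le (by linarith)] at hy'
      exact hGF x hx' y hy' t ht
    rw [h1]
  rw [hset]
  refine (markov_aux hAB hlam hHc.continuousOn fun t _ => hH0 t).trans ?_
  refine div_le_div_of_nonneg_right ?_ hlam.le
  -- Fubini
  have e1 : ∫ t in (A + Y / L)..(B - Y / L), H t = ∫ x in x₁..x₂, ∫ y in (-Y)..Y,
      ∫ t in (A + Y / L)..(B - Y / L), G x (t + y / L) := by
    have h1 : ∫ t in (A + Y / L)..(B - Y / L), H t = ∫ x in x₁..x₂,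
        ∫ t in (A + Y / L)..(B - Y / L), ∫ y in (-Y)..Y, G x (t + y / L) := by
      refine box_swap ?_
      show Continuous fun p : ℝ × ℝ => ∫ y in (-Y)..Y, G p.2 (p.1 + y / L)
      refine intervalIntegral.continuous_parametric_intervalIntegral_of_continuous' ?_ _ _
      show Continuous fun p : (ℝ × ℝ) × ℝ => G p.1.2 (p.1.1 + p.2 / L)
      exact hG.comp (by fun_prop : Continuous fun p : (ℝ × ℝ) × ℝ => (p.1.2, p.1.1 + p.2 / L))
    rw [h1]
    refine intervalIntegral.integral_congr fun x _ => ?_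
    refine box_swap ?_
    show Continuous fun p : ℝ × ℝ => G x (p.1 + p.2 / L)
    exact hG.comp (by fun_prop : Continuous fun p : ℝ × ℝ => (x, p.1 + p.2 / L))
  have cG : ∀ x, Continuous (G x) := fun x =>
    hG.comp (by fun_prop : Continuous fun t : ℝ => (x, t))
  have h3 : ∀ x ∈ Icc x₁ x₂, ∀ y ∈ Icc (-Y) Y,
      ∫ t in (A + Y / L)..(B - Y / L), G x (t + y / L) ≤ M := by
    intro x hx' y hy
    have h1 : -(Y / L) ≤ y / L := by
      rw [← neg_div]
      exact div_le_div_of_nonneg_right hy.1 hL.le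
    have h2 : y / L ≤ Y / L := div_le_div_of_nonneg_right hy.2 hL.le
    rw [intervalIntegral.integral_comp_add_right (fun t => G x t) (y / L)]
    have h4 : ∫ t in (A + Y / L + y / L)..(B - Y / L + y / L), G x t ≤ ∫ t in A..B, G x t :=
      intervalIntegral.integral_mono_interval (by linarith) (by linarith) (by linarith)
        (Eventually.of_forall fun t => hG0 _ _) ((cG x).intervalIntegrable _ _)
    refine h4.trans (le_trans (le_of_eq ?_) (hM x hx'))
    refine intervalIntegral.integral_congr fun t ht => ?_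
    rw [uIcc_of_le hAB'] at ht
    show F (sw T (Q t) (P x)) = _
    rw [hPx x hx', hQx t ht]
  have c2 : ∀ x, Continuous fun y => ∫ t in (A + Y / L)..(B - Y / L), G x (t + y / L) := by
    intro x
    refine intervalIntegral.continuous_parametric_intervalIntegral_of_continuous' ?_ _ _
    show Continuous fun p : ℝ × ℝ => G x (p.2 + p.1 / L)
    exact hG.comp (by fun_prop : Continuous fun p : ℝ × ℝ => (x, p.2 + p.1 / L))
  have c1 : Continuous fun x => ∫ y in (-Y)..Y, ∫ t in (A + Y / L)..(B - Y / L), G x (t + y / L) := by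
    refine intervalIntegral.continuous_parametric_intervalIntegral_of_continuous' ?_ _ _
    show Continuous fun p : ℝ × ℝ => ∫ t in (A + Y / L)..(B - Y / L), G p.1 (t + p.2 / L)
    refine intervalIntegral.continuous_parametric_intervalIntegral_of_continuous' ?_ _ _
    show Continuous fun p : (ℝ × ℝ) × ℝ => G p.1.1 (p.2 + p.1.2 / L)
    exact hG.comp (by fun_prop : Continuous fun p : (ℝ × ℝ) × ℝ => (p.1.1, p.2 + p.1.2 / L))
  have h4 : ∀ x ∈ Icc x₁ x₂, ∫ y in (-Y)..Y, ∫ t in (A + Y / L)..(B - Y / L), G x (t + y / L) ≤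
      2 * Y * M := by
    intro x hx'
    have h5 : ∫ y in (-Y)..Y, ∫ t in (A + Y / L)..(B - Y / L), G x (t + y / L) ≤
        ∫ _ in (-Y)..Y, M :=
      intervalIntegral.integral_mono_on (by linarith) ((c2 x).intervalIntegrable _ _)
        (continuous_const.intervalIntegrable _ _) (h3 x hx')
    rw [intervalIntegral.integral_const, smul_eq_mul] at h5
    linarith
  have h5 : ∫ x in x₁..x₂, ∫ y in (-Y)..Y, ∫ t in (A + Y / L)..(B - Y / L), G x (t + y / L) ≤
      ∫ _ in x₁..x₂, 2 * Y * M :=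
    intervalIntegral.integral_mono_on hx (c1.intervalIntegrable _ _)
      (continuous_const.intervalIntegrable _ _) h4
  rw [intervalIntegral.integral_const, smul_eq_mul] at h5
  rw [e1]
  linarith

/-- MODULE BOX2. Markov's inequality on an interval. -/
theorem markov_int {F : ℝ → ℝ} {A B lam : ℝ} (hAB : A ≤ B) (hlam : 0 < lam)
    (hF : ContinuousOn F (Icc A B)) (hF0 : ∀ t ∈ Icc A B, 0 ≤ F t) :
    volume.real {t ∈ Icc A B | lam < F t} ≤ (∫ t in A..B, F t) / lam :=
  markov_aux hAB hlam hF hF0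

end Pool.Agent.MP_67227b_nt.Ah
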