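import Pool.Agent.MP_67227b_nt.Ah.AhMV

set_option autoImplicit false

open Filter Topology Set MeasureTheory Complex
open scoped Real ArithmeticFunction ContDiff

namespace Pool.Agent.MP_67227b_nt.Ah

open Pool.Agent.Lib.ZetaCount_helper33 Pool.Agent.MP_67227b_nt Pool.Agent.MP_67227b_nt.Mo
open Pool.Agent.MP_67227b_nt.Sg Pool.Agent.MP_67227b_nt.Pp
open Pool.Agent.MP_67227b_nt.Mo.MomentBAux (DP)

private theorem Bv_sum : ∃ C : ℝ, 0 < C ∧ ∀ y : ℝ, 1 ≤ y →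
    ∑ d ∈ Finset.Ioc 0 ⌊Real.exp y⌋₊, Λ d ^ 2 / d ≤ C * y ^ 2 := by
  obtain ⟨C, hC, h⟩ := PrimeSqAux.exists_A_real
  refine ⟨1 / 2 + 2 * C, by positivity, fun y hy => ?_⟩
  have h1 := h y (by linarith)
  have h2 := (abs_le.1 h1).2
  have h3 : C * (y + 1) ≤ 2 * C * y ^ 2 := by
    have : y + 1 ≤ 2 * y ^ 2 := by nlinarith
    nlinarith
  have h4 : PrimeSqAux.AA ⌊Real.exp y⌋₊ = ∑ d ∈ Finset.Ioc 0 ⌊Real.exp y⌋₊, Λ d ^ 2 / d := rfl
  rw [h4] at h2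
  linarith

private theorem Bv_pow {n : ℕ} (hn : 1 ≤ n) {L δ : ℝ} (hL : 0 < L) (hδ : 0 < δ) {w : ℂ}
    (hw : ‖w‖ ≤ 1 / δ) (hn1 : Real.log n ≤ δ * L) :
    ‖(n : ℂ) ^ (-(w / (L : ℂ))) - 1‖ ≤ ‖w‖ * (Real.log n / L) * Real.exp 1 := by
  have hn0 : (n : ℂ) ≠ 0 := by exact_mod_cast (by omega : n ≠ 0)
  have hl0 : 0 ≤ Real.log n := Real.log_natCast_nonneg n
  have e1 : (n : ℂ) ^ (-(w / (L : ℂ))) = Complex.exp (-(w * ((Real.log n / L : ℝ) : ℂ))) := by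
    rw [Complex.cpow_def_of_ne_zero hn0, ← Complex.natCast_log]
    congr 1
    push_cast
    ring
  rw [e1]
  set x : ℂ := -(w * ((Real.log n / L : ℝ) : ℂ)) with hx
  have hxn : ‖x‖ = ‖w‖ * (Real.log n / L) := by
    rw [hx, norm_neg, norm_mul, Complex.norm_real, Real.norm_of_nonneg (by positivity)]
  have hx1 : ‖x‖ ≤ 1 := by
    rw [hxn]
    have h1 : Real.log n / L ≤ δ := by rw [div_le_iff₀ hL]; exact hn1
    calc ‖w‖ * (Real.log n / L) ≤ 1 / δ * δ :=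
          mul_le_mul hw h1 (by positivity) (by positivity)
      _ = 1 := by field_simp
  have h2 := Complex.norm_exp_sub_one_le hx1
  rw [← hxn]
  refine h2.trans ?_
  have h3 : (2 : ℝ) ≤ Real.exp 1 := by
    have := Real.add_one_le_exp (1 : ℝ)
    linarith
  nlinarith [norm_nonneg x]

/-- MODULE BV1. The short sum varies slowly: `|n^{-w/L} - 1| ≤ ‖w‖ (log n/L) e^{‖w‖ δ}` and
`e^{‖w‖δ} ≤ e` for `n ≤ T^δ`, `‖w‖ ≤ 1/δ`; `mv_line` (with `σ = 1/2`) and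
`∑_{n ≤ T^δ} Λ(n)²/n ≤ C δ² L²` (`exists_A_real`, `Mo/PrimeSq.lean`). -/
theorem Bs_var : ∃ C : ℝ, 0 < C ∧ ∀ δ : ℝ, 0 < δ → δ ≤ 1 / 4 → ∀ᶠ T : ℝ in atTop, ∀ w : ℂ,
    ‖w‖ ≤ 1 / δ → ∫ t in (T / 4)..(4 * T), ‖Bs δ T (sw T t w) - Bs δ T (sw T t 0)‖ ^ 2 ≤
      C * δ ^ 2 * ‖w‖ ^ 2 * T := by
  obtain ⟨C, hC, hsum⟩ := Bv_sum
  refine ⟨5 * (Real.exp 1 ^ 2 * C), by positivity, fun δ hδ hδ1 => ?_⟩
  filter_upwards [mv_line hδ (show δ < 1 by linarith), eventually_gt_atTop (1 : ℝ),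
    Real.tendsto_log_atTop.eventually_ge_atTop (1 / δ)] with T hmv hT hTL w hw
  have hT0 : 0 < T := by linarith
  set L := Real.log T with hL
  have hL0 : 0 < L := Real.log_pos hT
  have hδL : 1 ≤ δ * L := by
    rw [div_le_iff₀ hδ] at hTL
    linarith
  have hexp : T ^ δ = Real.exp (δ * L) := by
    rw [Real.rpow_def_of_pos hT0, ← hL, mul_comm]
  set N := ⌊T ^ δ⌋₊ with hN
  have hN1 : (N : ℝ) ≤ T ^ δ := Nat.floor_le (by positivity)
  set c : ℕ → ℂ := fun n => ((Λ n / Real.log n : ℝ) : ℂ) *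
    ((n : ℂ) ^ (-(w / (L : ℂ))) - 1) with hc
  have e1 : ∀ t : ℝ, Bs δ T (sw T t w) - Bs δ T (sw T t 0) =
      ∑ m ∈ Finset.Icc 1 N, c m * (m : ℂ) ^ (-(pl (1 / 2) t)) := by
    intro t
    unfold Bs
    rw [← hN, ← Finset.sum_sub_distrib]
    have h1 : Finset.Ioc 1 N ⊆ Finset.Icc 1 N := by
      intro m hm
      rw [Finset.mem_Ioc] at hm
      rw [Finset.mem_Icc]
      omega
    have h2 : ∀ m ∈ Finset.Icc 1 N, m ∉ Finset.Ioc 1 N →
        c m * (m : ℂ) ^ (-(pl (1 / 2) t)) = 0 := by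
      intro m hm hm1
      rw [Finset.mem_Icc] at hm
      rw [Finset.mem_Ioc] at hm1
      have : m = 1 := by omega
      subst this
      simp [hc]
    rw [← Finset.sum_subset h1 h2]
    refine Finset.sum_congr rfl fun m hm => ?_
    rw [Finset.mem_Ioc] at hm
    have hm0 : (m : ℂ) ≠ 0 := by exact_mod_cast (by omega : m ≠ 0)
    have h3 : (m : ℂ) ^ (-(sw T t w)) = (m : ℂ) ^ (-(w / (L : ℂ))) * (m : ℂ) ^ (-(pl (1 / 2) t)) := by
      rw [← Complex.cpow_add _ _ hm0]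
      congr 1
      unfold sw pl
      rw [← hL]
      push_cast
      ring
    have h4 : (m : ℂ) ^ (-(sw T t 0)) = (m : ℂ) ^ (-(pl (1 / 2) t)) := by
      congr 1
      unfold sw pl
      push_cast
      ring
    rw [h3, h4, hc]
    ring
  simp only [e1]
  refine (hmv N c (1 / 2) (T / 4) (4 * T) hN1 (by linarith) (by linarith)).trans ?_
  have e2 : ∑ m ∈ Finset.Icc 1 N, ‖c m‖ ^ 2 * (m : ℝ) ^ (-2 * (1 / 2 : ℝ)) ≤
      ∑ m ∈ Finset.Ioc 0 N, (‖w‖ / L * Real.exp 1) ^ 2 * (Λ m ^ 2 / m) := by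
    have h0 : Finset.Icc 1 N = Finset.Ioc 0 N := by
      ext m; rw [Finset.mem_Icc, Finset.mem_Ioc]; omega
    rw [h0]
    refine Finset.sum_le_sum fun m hm => ?_
    rw [Finset.mem_Ioc] at hm
    have hm1 : 1 ≤ m := by omega
    have hmp : (0 : ℝ) < m := by exact_mod_cast hm1
    have hlm : Real.log m ≤ δ * L := by
      have h1 : (m : ℝ) ≤ T ^ δ := le_trans (by exact_mod_cast hm.2) hN1
      rw [hexp] at h1
      have h2 := Real.log_le_log hmp h1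
      rwa [Real.log_exp] at h2
    have h1 : (m : ℝ) ^ (-2 * (1 / 2 : ℝ)) = 1 / m := by
      rw [show (-2 * (1 / 2 : ℝ)) = -1 by norm_num, Real.rpow_neg_one, one_div]
    have h2 : ‖c m‖ ≤ ‖w‖ / L * Real.exp 1 * Λ m := by
      have h3 := Bv_pow hm1 hL0 hδ hw hlm
      rcases Nat.eq_or_lt_of_le hm1 with h4 | h4
      · subst h4
        simp [hc]
      · have hl : 0 < Real.log m := Real.log_pos (by exact_mod_cast h4)
        have hΛ : 0 ≤ Λ m := ArithmeticFunction.vonMangoldt_nonneg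
        rw [hc]
        simp only
        rw [norm_mul, Complex.norm_real, Real.norm_of_nonneg (by positivity)]
        calc Λ m / Real.log m * ‖(m : ℂ) ^ (-(w / (L : ℂ))) - 1‖
            ≤ Λ m / Real.log m * (‖w‖ * (Real.log m / L) * Real.exp 1) :=
              mul_le_mul_of_nonneg_left h3 (by positivity)
          _ = ‖w‖ / L * Real.exp 1 * Λ m := by field_simp
    have h5 : ‖c m‖ ^ 2 ≤ (‖w‖ / L * Real.exp 1 * Λ m) ^ 2 :=
      pow_le_pow_left₀ (norm_nonneg _) h2 2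
    rw [h1]
    calc ‖c m‖ ^ 2 * (1 / m) ≤ (‖w‖ / L * Real.exp 1 * Λ m) ^ 2 * (1 / m) :=
          mul_le_mul_of_nonneg_right h5 (by positivity)
      _ = (‖w‖ / L * Real.exp 1) ^ 2 * (Λ m ^ 2 / m) := by ring
  rw [← Finset.mul_sum] at e2
  have e3 := hsum (δ * L) hδL
  rw [← hexp, ← hN] at e3
  have e4 : (‖w‖ / L * Real.exp 1) ^ 2 * ∑ i ∈ Finset.Ioc 0 N, Λ i ^ 2 / (i : ℝ) ≤
      Real.exp 1 ^ 2 * C * (δ ^ 2 * ‖w‖ ^ 2) := by
    refine (mul_le_mul_of_nonneg_left e3 (by positivity)).trans (le_of_eq ?_)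
    field_simp
  have e5 := mul_le_mul_of_nonneg_left (e2.trans e4) (by positivity : (0 : ℝ) ≤ 5 * T)
  refine e5.trans (le_of_eq ?_)
  ring

end Pool.Agent.MP_67227b_nt.Ah
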