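import Pool.Agent.MP_67227b_nt.Ah.AhDefs
import Pool.Agent.MP_67227b_nt.Mo.CellMomZeta
import Pool.Agent.MP_67227b_nt.RegPalm67

set_option autoImplicit false

open Filter Topology Set MeasureTheory Complex
open scoped Real ArithmeticFunction ContDiff

namespace Pool.Agent.MP_67227b_nt.Ah

open Pool.Agent.Lib.ZetaCount_helper33 Pool.Agent.MP_67227b_nt Pool.Agent.MP_67227b_nt.Mo
open Pool.Agent.MP_67227b_nt.Sg Pool.Agent.MP_67227b_nt.Pp
open Pool.Agent.MP_67227b_nt.Mo.MomentBAux (DP)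

/-- MODULE CELL. The number of clusters is `O(Y log Y)`. `cellMom_zeta hRH (m+1)`. A tuple in the set has
all its rescaled points `xT zetaOrdinate Y (j i)` within `R` (`R/(2π) ≤ R`) of that of `j (last)`, so in the cells
`i₀ - K, ..., i₀ + K`, `K = ⌈R⌉₊ + 1`, around the cell `i₀` of the last one. So the number is at most
`∑_{i₀} (∑_{|i - i₀| ≤ K} cell i)^{m+1} ≤ (2K+1)^m ∑_{i₀} ∑_{|i - i₀| ≤ K} (cell i)^{m+1} ≤
(2K+1)^{m+1} ∑_i (cell i)^{m+1}` (all cells of points `≤ Y` have index `≤ ⌊zeroScale Y⌋₊`). -/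
theorem tuples_le (hRH : RiemannHypothesis) (m : ℕ) {R : ℝ} (hR : 0 < R) : ∃ C : ℝ, 0 < C ∧
    ∀ᶠ Y : ℝ in atTop,
      {j : Fin (m + 1) → ZetaZeroIdx | (∀ i, zetaOrdinate (j i) ≤ Y) ∧
        ∀ i, |zetaOrdinate (j i) - zetaOrdinate (j (Fin.last m))| ≤ R / Real.log Y}.Finite ∧
      ({j : Fin (m + 1) → ZetaZeroIdx | (∀ i, zetaOrdinate (j i) ≤ Y) ∧
        ∀ i, |zetaOrdinate (j i) - zetaOrdinate (j (Fin.last m))| ≤ R / Real.log Y}.ncard : ℝ) ≤
        C * (Y * Real.log Y) := by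
  classical
  obtain ⟨C, hC, hmom⟩ := mom_of_cellMom goodFamily_zeta (cellMom_zeta hRH) m (2 * R)
  have h1 := hmom (-R) R (by linarith) (by linarith) 1 one_pos
  refine ⟨C + 1, by linarith, ?_⟩
  filter_upwards [h1, eventually_gt_atTop (1 : ℝ)] with Y hY hY1
  have hY0 : 0 < Y := by linarith
  have hL : 0 < Real.log Y := Real.log_pos hY1
  set P := PT goodFamily_zeta Y with hP
  set x := xT zetaOrdinate Y with hx
  set S := {j : Fin (m + 1) → ZetaZeroIdx | (∀ i, zetaOrdinate (j i) ≤ Y) ∧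
        ∀ i, |zetaOrdinate (j i) - zetaOrdinate (j (Fin.last m))| ≤ R / Real.log Y} with hS
  let Q : Finset (Σ _ : ZetaZeroIdx, (Fin m → ZetaZeroIdx)) :=
    P.sigma (fun j₀ => Fintype.piFinset (fun _ : Fin m => insert j₀ (near P x j₀ (-R) R)))
  let f : (Fin (m + 1) → ZetaZeroIdx) → (Σ _ : ZetaZeroIdx, (Fin m → ZetaZeroIdx)) :=
    fun j => ⟨j (Fin.last m), fun i => j i.castSucc⟩
  have hf : ∀ j ∈ S, f j ∈ (Q : Set (Σ _ : ZetaZeroIdx, (Fin m → ZetaZeroIdx))) := by
    rintro j ⟨j1, j2⟩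
    rw [Finset.mem_coe, Finset.mem_sigma]
    refine ⟨(mem_PT _ _ _).2 (j1 _), ?_⟩
    rw [Fintype.mem_piFinset]
    intro i
    rw [Finset.mem_insert]
    by_cases hij : j i.castSucc = j (Fin.last m)
    · exact Or.inl hij
    · right
      rw [mem_near]
      refine ⟨(mem_PT _ _ _).2 (j1 _), hij, ?_⟩
      have h2 := j2 i.castSucc
      have h3 : x (j i.castSucc) - x (j (Fin.last m)) =
          (zetaOrdinate (j i.castSucc) - zetaOrdinate (j (Fin.last m))) *
            (Real.log Y / (2 * π)) := by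
        simp only [hx, xT]; ring
      have h4 : |x (j i.castSucc) - x (j (Fin.last m))| ≤ R := by
        rw [h3, abs_mul, abs_of_pos (div_pos hL (by positivity : (0 : ℝ) < 2 * π))]
        calc |zetaOrdinate (j i.castSucc) - zetaOrdinate (j (Fin.last m))| *
              (Real.log Y / (2 * π)) ≤ R / Real.log Y * (Real.log Y / (2 * π)) := by gcongr
          _ = R / (2 * π) := by field_simp
          _ ≤ R := by
            rw [div_le_iff₀ (by positivity)]
            nlinarith [Real.pi_gt_three]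
      exact ⟨(abs_le.1 h4).1, (abs_le.1 h4).2⟩
  have hinj : Set.InjOn f S := by
    intro j _ j' _ h
    have h2 : j (Fin.last m) = j' (Fin.last m) := congrArg Sigma.fst h
    have h3 : (fun i : Fin m => j i.castSucc) = fun i => j' i.castSucc := by
      have := congrArg Sigma.snd h
      exact this
    funext i
    refine Fin.lastCases h2 (fun i => congrFun h3 i) i
  have hQf : (Q : Set (Σ _ : ZetaZeroIdx, (Fin m → ZetaZeroIdx))).Finite := Q.finite_toSet
  refine ⟨Set.Finite.of_injOn (fun j hj => hf j hj) hinj hQf, ?_⟩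
  have h5 : S.ncard ≤ Q.card := by
    have := Set.ncard_le_ncard_of_injOn f hf hinj hQf
    rwa [Set.ncard_coe_finset] at this
  have h6 : (Q.card : ℝ) ≤ ∑ j ∈ P, (Zst goodFamily_zeta (-R) R Y j + 1) ^ m := by
    rw [Finset.card_sigma]
    push_cast
    apply Finset.sum_le_sum
    intro j₀ _
    rw [Fintype.card_piFinset_const]
    push_cast
    gcongr
    have := Finset.card_insert_le j₀ (near P x j₀ (-R) R)
    unfold Zst Z
    exact_mod_cast this
  have hz : 0 < zeroScale Y := zeroScale_pos hY1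
  have h7 : ∑ j ∈ P, (Zst goodFamily_zeta (-R) R Y j + 1) ^ m ≤ (C + 1) * zeroScale Y := by
    unfold Av at hY
    rwa [div_le_iff₀ hz] at hY
  have h8 : zeroScale Y ≤ Y * Real.log Y := by
    unfold zeroScale
    have : Y / (2 * π) ≤ Y := by
      rw [div_le_iff₀ (by positivity)]
      nlinarith [Real.pi_gt_three]
    exact mul_le_mul_of_nonneg_right this hL.le
  calc (S.ncard : ℝ) ≤ (Q.card : ℝ) := by exact_mod_cast h5
    _ ≤ _ := h6
    _ ≤ (C + 1) * zeroScale Y := h7
    _ ≤ (C + 1) * (Y * Real.log Y) := by gcongr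

end Pool.Agent.MP_67227b_nt.Ah
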