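import Pool.Agent.MP_67227b_nt.Ah.AhRect

set_option autoImplicit false

open Filter Topology Set MeasureTheory Complex
open scoped Real ArithmeticFunction ContDiff

namespace Pool.Agent.MP_67227b_nt.Ah

open Pool.Agent.Lib.ZetaCount_helper33 Pool.Agent.MP_67227b_nt Pool.Agent.MP_67227b_nt.Mo
open Pool.Agent.MP_67227b_nt.Sg Pool.Agent.MP_67227b_nt.Pp
open Pool.Agent.MP_67227b_nt.Mo.MomentBAux (DP)

namespace CloseAux

lemma om_norm {M Δ : ℝ} (hM : 0 < M) (z s : ℂ) :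
    ‖om M Δ z s‖ = M ^ (s.re - z.re) *
      Real.exp (((s.re - z.re) ^ 2 - (s.im - z.im) ^ 2) / Δ ^ 2) := by
  unfold om
  rw [norm_mul, Complex.norm_cpow_eq_rpow_re_of_pos hM, Complex.norm_exp]
  have h1 : (((s - z) / (Δ : ℂ)) ^ 2).re
      = ((s.re - z.re) ^ 2 - (s.im - z.im) ^ 2) / Δ ^ 2 := by
    have h2 : ((s - z) / (Δ : ℂ)) ^ 2
        = (((s.re - z.re : ℝ) : ℂ) + ((s.im - z.im : ℝ) : ℂ) * I) ^ 2 / ((Δ ^ 2 : ℝ) : ℂ) := by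
      have h3 : s - z = (((s.re - z.re : ℝ) : ℂ) + ((s.im - z.im : ℝ) : ℂ) * I) := by
        apply Complex.ext <;> simp
      rw [div_pow, ← h3]
      push_cast
      ring
    rw [h2, Complex.div_ofReal_re]
    congr 1
    simp [pow_two, Complex.add_re, Complex.mul_re, Complex.mul_im]
  rw [h1, Complex.sub_re]

lemma om_diff {M Δ : ℝ} (hM : 0 < M) (z : ℂ) : Differentiable ℂ (om M Δ z) := by
  unfold om
  have hM' : (M : ℂ) ≠ 0 := by exact_mod_cast hM.ne'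
  refine Differentiable.mul ?_ ?_
  · exact (differentiable_id.sub_const z).const_cpow (Or.inl hM')
  · exact (((differentiable_id.sub_const z).div_const _).pow 2).cexp

lemma seg_norm {E : ℝ → ℂ} {a b K : ℝ} (hab : a ≤ b) (h : ∀ x ∈ Icc a b, ‖E x‖ ≤ K) :
    ‖∫ x in a..b, E x‖ ≤ K * (b - a) := by
  have := intervalIntegral.norm_integral_le_of_norm_le_const (a := a) (b := b) (C := K) (f := E)
    (fun x hx => h x ⟨(by rw [uIoc_of_le hab] at hx; exact hx.1.le),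
      (by rw [uIoc_of_le hab] at hx; exact hx.2)⟩)
  rwa [abs_of_nonneg (sub_nonneg.2 hab)] at this

lemma rect_ne {p : ℂ} {a b c d : ℝ} {G : ℂ → ℂ}
    (hG : DifferentiableOn ℂ G (Icc a b ×ℂ Icc c d)) (hp : p.re < a ∨ b < p.re) :
    DifferentiableOn ℂ (fun s => G s / (s - p)) (Icc a b ×ℂ Icc c d) := by
  refine hG.div (differentiableOn_id.sub_const p) ?_
  intro s hs h0
  have h1 : s = p := by simpa [sub_eq_zero] using h0
  rw [h1] at hs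
  have h2 := (Complex.mem_reProdIm.1 hs).1
  rcases hp with h | h
  · exact absurd h2.1 (not_le.2 h)
  · exact absurd h2.2 (not_le.2 h)

lemma asm_right {G : ℂ → ℂ} {p : ℂ} {a b c d K : ℝ} (hab : a ≤ b) (hcd : c ≤ d)
    (hG : DifferentiableOn ℂ G (Icc a b ×ℂ Icc c d)) (h1 : p.re ≠ a) (h2 : p.re < b)
    (h3 : c < p.im) (h4 : p.im < d)
    (hbot : ∀ x ∈ Icc a b, ‖G (x + c * I) / (x + c * I - p)‖ ≤ K)
    (htop : ∀ x ∈ Icc a b, ‖G (x + d * I) / (x + d * I - p)‖ ≤ K)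
    (hrig : ∀ y ∈ Icc c d, ‖G (b + y * I) / (b + y * I - p)‖ ≤ K) :
    ‖(1 / (2 * π) : ℂ) * (∫ y in c..d, G (a + y * I) / (a + y * I - p)) +
      (if a < p.re then G p else 0)‖ ≤ 1 / (2 * π) * (2 * K * (b - a) + K * (d - c)) := by
  have key : bd (fun s => G s / (s - p)) a b c d = 2 * π * I * (if a < p.re then G p else 0) := by
    by_cases h : a < p.re
    · rw [if_pos h]
      exact bd_pole h h2 h3 h4 hG
    · rw [if_neg h, mul_zero]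
      refine bd_zero hab hcd (rect_ne hG (Or.inl ?_))
      exact lt_of_le_of_ne (not_lt.1 h) h1
  unfold bd at key
  set B := ∫ x in a..b, (fun s => G s / (s - p)) ((x : ℂ) + c * I) with hB
  set D := ∫ x in a..b, (fun s => G s / (s - p)) ((x : ℂ) + d * I) with hD
  set R := ∫ y in c..d, (fun s => G s / (s - p)) ((b : ℂ) + y * I) with hR
  set Lf := ∫ y in c..d, (fun s => G s / (s - p)) ((a : ℂ) + y * I) with hL
  set W : ℂ := if a < p.re then G p else 0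
  have hπ : (π : ℂ) ≠ 0 := by exact_mod_cast Real.pi_ne_zero
  have e : (1 / (2 * π) : ℂ) * Lf + W = (1 / (2 * π) : ℂ) * (-(I * B) + I * D + R) := by
    have h5 : I * Lf = B - D + I * R - 2 * π * I * W := by rw [← key]; ring
    have h6 : Lf = -(I * B) + I * D + R - 2 * π * W := by
      have h7 : Lf = -I * (I * Lf) := by
        rw [← mul_assoc, neg_mul, I_mul_I]; ring
      rw [h7, h5]
      have h8 : I * I = -1 := I_mul_I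
      linear_combination (-R + 2 * π * W) * h8
    rw [h6]
    field_simp
    ring
  have hBn : ‖B‖ ≤ K * (b - a) := seg_norm hab hbot
  have hDn : ‖D‖ ≤ K * (b - a) := seg_norm hab htop
  have hRn : ‖R‖ ≤ K * (d - c) := seg_norm hcd hrig
  show ‖(1 / (2 * π) : ℂ) * Lf + W‖ ≤ _
  rw [e, norm_mul]
  have h9 : ‖(1 / (2 * π) : ℂ)‖ = 1 / (2 * π) := by
    rw [norm_div, norm_mul, norm_one]
    simp [abs_of_pos Real.pi_pos]
  rw [h9]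
  refine mul_le_mul_of_nonneg_left ?_ (by positivity)
  calc ‖-(I * B) + I * D + R‖ ≤ ‖-(I * B) + I * D‖ + ‖R‖ := norm_add_le _ _
    _ ≤ ‖-(I * B)‖ + ‖I * D‖ + ‖R‖ := by gcongr; exact norm_add_le _ _
    _ = ‖B‖ + ‖D‖ + ‖R‖ := by rw [norm_neg, norm_mul, norm_mul, norm_I, one_mul, one_mul]
    _ ≤ 2 * K * (b - a) + K * (d - c) := by linarith

lemma asm_left {G : ℂ → ℂ} {p : ℂ} {a b c d K : ℝ} (hab : a ≤ b) (hcd : c ≤ d)
    (hG : DifferentiableOn ℂ G (Icc a b ×ℂ Icc c d)) (h1 : p.re ≠ b) (h2 : a < p.re)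
    (h3 : c < p.im) (h4 : p.im < d)
    (hbot : ∀ x ∈ Icc a b, ‖G (x + c * I) / (x + c * I - p)‖ ≤ K)
    (htop : ∀ x ∈ Icc a b, ‖G (x + d * I) / (x + d * I - p)‖ ≤ K)
    (hlef : ∀ y ∈ Icc c d, ‖G (a + y * I) / (a + y * I - p)‖ ≤ K) :
    ‖(1 / (2 * π) : ℂ) * (∫ y in c..d, G (b + y * I) / (b + y * I - p)) -
      (if p.re < b then G p else 0)‖ ≤ 1 / (2 * π) * (2 * K * (b - a) + K * (d - c)) := by
  have key : bd (fun s => G s / (s - p)) a b c d = 2 * π * I * (if p.re < b then G p else 0) := by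
    by_cases h : p.re < b
    · rw [if_pos h]
      exact bd_pole h2 h h3 h4 hG
    · rw [if_neg h, mul_zero]
      refine bd_zero hab hcd (rect_ne hG (Or.inr ?_))
      exact lt_of_le_of_ne (not_lt.1 h) h1.symm
  unfold bd at key
  set B := ∫ x in a..b, (fun s => G s / (s - p)) ((x : ℂ) + c * I) with hB
  set D := ∫ x in a..b, (fun s => G s / (s - p)) ((x : ℂ) + d * I) with hD
  set R := ∫ y in c..d, (fun s => G s / (s - p)) ((b : ℂ) + y * I) with hR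
  set Lf := ∫ y in c..d, (fun s => G s / (s - p)) ((a : ℂ) + y * I) with hL
  set W : ℂ := if p.re < b then G p else 0
  have hπ : (π : ℂ) ≠ 0 := by exact_mod_cast Real.pi_ne_zero
  have e : (1 / (2 * π) : ℂ) * R - W = (1 / (2 * π) : ℂ) * (I * B - I * D + Lf) := by
    have h5 : I * R = -B + D + I * Lf + 2 * π * I * W := by rw [← key]; ring
    have h6 : R = I * B - I * D + Lf + 2 * π * W := by
      have h7 : R = -I * (I * R) := by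
        rw [← mul_assoc, neg_mul, I_mul_I]; ring
      rw [h7, h5]
      have h8 : I * I = -1 := I_mul_I
      linear_combination (-Lf - 2 * π * W) * h8
    rw [h6]
    field_simp
    ring
  have hBn : ‖B‖ ≤ K * (b - a) := seg_norm hab hbot
  have hDn : ‖D‖ ≤ K * (b - a) := seg_norm hab htop
  have hLn : ‖Lf‖ ≤ K * (d - c) := seg_norm hcd hlef
  show ‖(1 / (2 * π) : ℂ) * R - W‖ ≤ _
  rw [e, norm_mul]
  have h9 : ‖(1 / (2 * π) : ℂ)‖ = 1 / (2 * π) := by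
    rw [norm_div, norm_mul, norm_one]
    simp [abs_of_pos Real.pi_pos]
  rw [h9]
  refine mul_le_mul_of_nonneg_left ?_ (by positivity)
  calc ‖I * B - I * D + Lf‖ ≤ ‖I * B - I * D‖ + ‖Lf‖ := norm_add_le _ _
    _ ≤ ‖I * B‖ + ‖I * D‖ + ‖Lf‖ := by gcongr; exact norm_sub_le _ _
    _ = ‖B‖ + ‖D‖ + ‖Lf‖ := by rw [norm_mul, norm_mul, norm_I, one_mul, one_mul]
    _ ≤ 2 * K * (b - a) + K * (d - c) := by linarith

/-- the conditions on `T` -/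
structure Big (δ ε C₁ T : ℝ) : Prop where
  T1 : 1 ≤ T
  five : 5 ≤ T ^ (δ / 4)
  eT : 1 ≤ ε * T
  sm : T ^ (C₁ + 10) * Real.exp 1 * Real.exp (-(ε ^ 2 * T ^ (δ / 2))) ≤ 1

lemma ev_big {δ ε C₁ : ℝ} (hδ : 0 < δ) (hε : 0 < ε) : ∀ᶠ T : ℝ in atTop, Big δ ε C₁ T := by
  have h1 : ∀ᶠ T : ℝ in atTop, 1 ≤ T := eventually_ge_atTop 1
  have h2 : ∀ᶠ T : ℝ in atTop, 5 ≤ T ^ (δ / 4) :=
    (tendsto_rpow_atTop (by positivity)).eventually_ge_atTop 5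
  have h3 : ∀ᶠ T : ℝ in atTop, 1 ≤ ε * T :=
    (tendsto_id.const_mul_atTop hε).eventually_ge_atTop 1
  have h4 : Tendsto (fun T : ℝ => (T ^ (δ / 2)) ^ (2 * (C₁ + 10) / δ) *
      Real.exp (-(ε ^ 2) * (T ^ (δ / 2)))) atTop (𝓝 0) :=
    (tendsto_rpow_mul_exp_neg_mul_atTop_nhds_zero (2 * (C₁ + 10) / δ) (ε ^ 2)
      (by positivity)).comp (tendsto_rpow_atTop (show 0 < δ / 2 by positivity))
  have h5 : ∀ᶠ T : ℝ in atTop, (T ^ (δ / 2)) ^ (2 * (C₁ + 10) / δ) *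
      Real.exp (-(ε ^ 2) * (T ^ (δ / 2))) < Real.exp (-1) :=
    h4.eventually_lt_const (Real.exp_pos _)
  filter_upwards [h1, h2, h3, h5] with T a1 a2 a3 a5
  refine ⟨a1, a2, a3, ?_⟩
  have hT0 : (0 : ℝ) ≤ T := by linarith
  rw [← Real.rpow_mul hT0] at a5
  have e1 : δ / 2 * (2 * (C₁ + 10) / δ) = C₁ + 10 := by field_simp
  rw [e1] at a5
  have e2 : T ^ (C₁ + 10) * Real.exp 1 * Real.exp (-(ε ^ 2 * T ^ (δ / 2)))
      = (T ^ (C₁ + 10) * Real.exp (-(ε ^ 2) * T ^ (δ / 2))) * Real.exp 1 := by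
    rw [neg_mul]; ring
  rw [e2]
  calc (T ^ (C₁ + 10) * Real.exp (-(ε ^ 2) * T ^ (δ / 2))) * Real.exp 1
      ≤ Real.exp (-1) * Real.exp 1 := by gcongr
    _ = 1 := by rw [← Real.exp_add]; simp

end CloseAux

namespace CloseAux

section num

variable {δ ε C₁ T : ℝ}

lemma Big.T0 (h : Big δ ε C₁ T) : 0 < T := lt_of_lt_of_le one_pos h.T1

lemma X_one (h : Big δ ε C₁ T) (hδ1 : δ ≤ 1 / 2) : 1 ≤ T ^ (1 - δ) :=
  Real.one_le_rpow h.T1 (by linarith)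

lemma sR_eq (h : Big δ ε C₁ T) : T ^ (1 - δ / 2) = T ^ (1 - δ) * T ^ (δ / 2) := by
  rw [← Real.rpow_add h.T0]; congr 1; ring

lemma De_eq (h : Big δ ε C₁ T) : T ^ (1 - δ / 4) = T ^ (1 - δ / 2) * T ^ (δ / 4) := by
  rw [← Real.rpow_add h.T0]; congr 1; ring

lemma sR_five (h : Big δ ε C₁ T) (hδ : 0 < δ) (hδ1 : δ ≤ 1 / 2) : 5 ≤ T ^ (1 - δ / 2) :=
  h.five.trans (Real.rpow_le_rpow_of_exponent_le h.T1 (by linarith))

lemma sR_De (h : Big δ ε C₁ T) (hδ : 0 < δ) (hδ1 : δ ≤ 1 / 2) :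
    T ^ (1 - δ / 2) + 4 ≤ T ^ (1 - δ / 4) := by
  rw [De_eq h]
  have h1 := sR_five h hδ hδ1
  have h2 := h.five
  nlinarith

lemma De_T (h : Big δ ε C₁ T) (hδ : 0 < δ) : T ^ (1 - δ / 4) ≤ T := by
  conv_rhs => rw [← Real.rpow_one T]
  exact Real.rpow_le_rpow_of_exponent_le h.T1 (by linarith)

lemma N_le (h : Big δ ε C₁ T) : (Nn δ T : ℝ) ≤ T ^ (1 - δ) :=
  Nat.floor_le (Real.rpow_nonneg h.T0.le _)

lemma N_one (h : Big δ ε C₁ T) (hδ1 : δ ≤ 1 / 2) : (1 : ℝ) ≤ (Nn δ T : ℝ) := by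
  have : 1 ≤ Nn δ T := Nat.le_floor (by exact_mod_cast X_one h hδ1)
  exact_mod_cast this

lemma N1_le (h : Big δ ε C₁ T) (hδ1 : δ ≤ 1 / 2) : (Nn δ T : ℝ) + 1 ≤ 2 * T ^ (1 - δ) := by
  have h1 := N_le h
  have h2 := X_one h hδ1
  linarith

lemma N1_T (h : Big δ ε C₁ T) (hδ : 0 < δ) (hδ1 : δ ≤ 1 / 2) : (Nn δ T : ℝ) + 1 ≤ T := by
  have h1 := N1_le h hδ1
  have h2 : T = T ^ (1 - δ) * T ^ δ := by
    rw [← Real.rpow_add h.T0]
    rw [show 1 - δ + δ = 1 by ring, Real.rpow_one]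
  have h3 : 5 ≤ T ^ δ := h.five.trans (Real.rpow_le_rpow_of_exponent_le h.T1 (by linarith))
  have h4 := X_one h hδ1
  nlinarith

lemma eT_sq (h : Big δ ε C₁ T) :
    (ε * T) ^ 2 / (T ^ (1 - δ / 4)) ^ 2 = ε ^ 2 * T ^ (δ / 2) := by
  have h1 : (T ^ (1 - δ / 4)) ^ 2 = T ^ (2 - δ / 2) := by
    rw [← Real.rpow_natCast, ← Real.rpow_mul h.T0.le]
    congr 1; push_cast; ring
  have h2 : T ^ 2 = T ^ (2 - δ / 2) * T ^ (δ / 2) := by
    rw [← Real.rpow_add h.T0, ← Real.rpow_natCast]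
    congr 1; push_cast; ring
  rw [h1, mul_pow, h2]
  have h3 : T ^ (2 - δ / 2) ≠ 0 := (Real.rpow_pos_of_pos h.T0 _).ne'
  rw [mul_div_assoc, mul_div_cancel_left₀ _ h3]

lemma om_le (h : Big δ ε C₁ T) {M : ℝ} (hM : 0 < M) {z s : ℂ}
    (hs : |s.re - z.re| ≤ T ^ (1 - δ / 4)) :
    ‖om M (T ^ (1 - δ / 4)) z s‖ ≤ M ^ (s.re - z.re) * Real.exp 1 := by
  rw [om_norm hM]
  have hD : 0 < T ^ (1 - δ / 4) := Real.rpow_pos_of_pos h.T0 _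
  refine mul_le_mul_of_nonneg_left (Real.exp_le_exp.2 ?_) (Real.rpow_nonneg hM.le _)
  rw [div_le_one (by positivity)]
  have h1 : (s.re - z.re) ^ 2 ≤ (T ^ (1 - δ / 4)) ^ 2 := by
    rw [← sq_abs]
    exact pow_le_pow_left₀ (abs_nonneg _) hs 2
  nlinarith [sq_nonneg (s.im - z.im)]

lemma om_le' (h : Big δ ε C₁ T) {M : ℝ} (hM : 0 < M) {z s : ℂ}
    (hs : |s.re - z.re| ≤ T ^ (1 - δ / 4)) (hi : (s.im - z.im) ^ 2 = (ε * T) ^ 2) :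
    ‖om M (T ^ (1 - δ / 4)) z s‖ ≤
      M ^ (s.re - z.re) * (Real.exp 1 * Real.exp (-(ε ^ 2 * T ^ (δ / 2)))) := by
  rw [om_norm hM, hi]
  have hD : 0 < T ^ (1 - δ / 4) := Real.rpow_pos_of_pos h.T0 _
  refine mul_le_mul_of_nonneg_left ?_ (Real.rpow_nonneg hM.le _)
  rw [← Real.exp_add]
  refine Real.exp_le_exp.2 ?_
  rw [sub_div, eT_sq h]
  have h1 : (s.re - z.re) ^ 2 ≤ (T ^ (1 - δ / 4)) ^ 2 := by
    rw [← sq_abs]
    exact pow_le_pow_left₀ (abs_nonneg _) hs 2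
  have h2 : (s.re - z.re) ^ 2 / (T ^ (1 - δ / 4)) ^ 2 ≤ 1 := by
    rw [div_le_one (by positivity)]; exact h1
  linarith

lemma pow_T8 (h : Big δ ε C₁ T) (hδ : 0 < δ) (hδ1 : δ ≤ 1 / 2) {y : ℝ} (hy : y ≤ 8) :
    ((Nn δ T : ℝ) + 1 / 2) ^ y ≤ T ^ (8 : ℝ) := by
  have h1 := N_one h hδ1
  have h2 := N1_T h hδ hδ1
  calc ((Nn δ T : ℝ) + 1 / 2) ^ y ≤ ((Nn δ T : ℝ) + 1 / 2) ^ (8 : ℝ) :=
        Real.rpow_le_rpow_of_exponent_le (by linarith) hy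
    _ ≤ T ^ (8 : ℝ) := Real.rpow_le_rpow (by positivity) (by linarith) (by norm_num)

/-- ratio of the form `(u/v)^x ≤ 1` -/
lemma ratio_one {u v x : ℝ} (hu : 0 < u) (huv : u ≤ v) (hx : 0 ≤ x) :
    u ^ x * v ^ (-x) ≤ 1 := by
  have hv : 0 < v := hu.trans_le huv
  rw [Real.rpow_neg hv.le, ← div_eq_mul_inv, ← Real.div_rpow hu.le hv.le]
  exact Real.rpow_le_one (by positivity) ((div_le_one hv).2 huv) hx

/-- `(1 - 1/(2v))^x ≤ exp (-x/(2v))` -/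
lemma ratio_exp {u v x : ℝ} (hu : 0 < u) (huv : u + 1 / 2 ≤ v) (hx : 0 ≤ x) :
    u ^ x * v ^ (-x) ≤ Real.exp (-(x / (2 * v))) := by
  have hv : 0 < v := by linarith
  rw [Real.rpow_neg hv.le, ← div_eq_mul_inv, ← Real.div_rpow hu.le hv.le]
  have h1 : u / v ≤ Real.exp (-(1 / (2 * v))) := by
    have h2 := Real.add_one_le_exp (-(1 / (2 * v)))
    refine le_trans ?_ h2
    rw [div_le_iff₀ hv]
    field_simp
    linarith
  calc (u / v) ^ x ≤ (Real.exp (-(1 / (2 * v)))) ^ x :=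
        Real.rpow_le_rpow (by positivity) h1 hx
    _ = Real.exp (-(x / (2 * v))) := by
        rw [← Real.exp_mul]; congr 1; ring

lemma exp_side (h : Big δ ε C₁ T) (hδ1 : δ ≤ 1 / 2) (hε : 0 < ε) (hε1 : ε ≤ 1 / 8) {v : ℝ}
    (hv : 0 < v) (hv2 : v ≤ 2 * T ^ (1 - δ)) :
    Real.exp (-(T ^ (1 - δ / 2) / (2 * v))) ≤ Real.exp (-(ε ^ 2 * T ^ (δ / 2))) := by
  refine Real.exp_le_exp.2 (neg_le_neg ?_)
  rw [le_div_iff₀ (by positivity), sR_eq h]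
  have h1 : 0 < T ^ (δ / 2) := Real.rpow_pos_of_pos h.T0 _
  have h2 : 0 < T ^ (1 - δ) := Real.rpow_pos_of_pos h.T0 _
  have h3 : ε ^ 2 ≤ 1 / 4 := by nlinarith
  calc ε ^ 2 * T ^ (δ / 2) * (2 * v) ≤ 1 / 4 * T ^ (δ / 2) * (2 * (2 * T ^ (1 - δ))) := by
        gcongr
    _ = T ^ (1 - δ) * T ^ (δ / 2) := by ring

lemma fin_le (h : Big δ ε C₁ T) (hε1 : ε ≤ 1 / 8) {l m : ℝ} (hl : l ≤ T) (hm : m = 2 * (ε * T)) :
    1 / (2 * π) * (2 * (T ^ (C₁ + 8) * (Real.exp 1 * Real.exp (-(ε ^ 2 * T ^ (δ / 2))))) * l +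
      (T ^ (C₁ + 8) * (Real.exp 1 * Real.exp (-(ε ^ 2 * T ^ (δ / 2))))) * m) ≤ 1 / T := by
  set E := Real.exp 1 * Real.exp (-(ε ^ 2 * T ^ (δ / 2))) with hE
  have hE0 : 0 < E := by positivity
  have hT0 := h.T0
  have hP : 0 < T ^ (C₁ + 8) := Real.rpow_pos_of_pos hT0 _
  set K := T ^ (C₁ + 8) * E with hK
  have hK0 : 0 < K := by positivity
  have h1 : K * T * T ≤ 1 := by
    have h2 := h.sm
    have h3 : T ^ (C₁ + 10) = T ^ (C₁ + 8) * T * T := by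
      rw [show C₁ + 10 = C₁ + 8 + 2 by ring, Real.rpow_add hT0]
      have : T ^ (2 : ℝ) = T * T := by
        rw [Real.rpow_two, pow_two]
      rw [this]; ring
    rw [h3] at h2
    calc K * T * T = T ^ (C₁ + 8) * T * T * Real.exp 1 * Real.exp (-(ε ^ 2 * T ^ (δ / 2))) := by
          rw [hK, hE]; ring
      _ ≤ 1 := h2
  have h4 : m ≤ T := by
    rw [hm]; nlinarith
  have h5 : 2 * K * l + K * m ≤ 3 * (K * T) := by nlinarith
  have h6 : K * T ≤ 1 / T := by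
    rw [le_div_iff₀ hT0]; exact h1
  have h7 : 1 / (2 * π) * 3 ≤ 1 := by
    rw [one_div, inv_mul_le_iff₀ (by positivity)]
    nlinarith [Real.pi_gt_three]
  calc 1 / (2 * π) * (2 * K * l + K * m) ≤ 1 / (2 * π) * (3 * (K * T)) := by gcongr
    _ = (1 / (2 * π) * 3) * (K * T) := by ring
    _ ≤ 1 * (K * T) := by gcongr
    _ ≤ 1 / T := by rw [one_mul]; exact h6

end num

end CloseAux

namespace CloseAux

section side

variable {δ ε C₁ T : ℝ}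

lemma pow_split (h : Big δ ε C₁ T) (a : ℝ) : T ^ (a + 8) = T ^ a * T ^ (8 : ℝ) :=
  Real.rpow_add h.T0 _ _

/-- product bound near the origin -/
lemma prod_near (h : Big δ ε C₁ T) (hδ : 0 < δ) (hδ1 : δ ≤ 1 / 2) {A x y : ℝ}
    (hA : A ≤ T ^ C₁) (hA0 : 0 ≤ A) (hy : |y| ≤ 4) (hx : x ≤ 4) :
    A * ((Nn δ T : ℝ) + 1 / 2) ^ (x - y) ≤ T ^ (C₁ + 8) := by
  rw [pow_split h]
  have h1 := (abs_le.1 hy).1
  exact mul_le_mul hA (pow_T8 h hδ hδ1 (by linarith)) (Real.rpow_nonneg (by positivity) _)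
    (Real.rpow_nonneg h.T0.le _)

/-- product bound far away -/
lemma prod_far (h : Big δ ε C₁ T) (hδ : 0 < δ) (hδ1 : δ ≤ 1 / 2) {A x y R r : ℝ}
    (hA : A ≤ T ^ C₁ * R) (hR : ((Nn δ T : ℝ) + 1 / 2) ^ x * R ≤ r) (hR0 : 0 ≤ R)
    (hy : |y| ≤ 4) :
    A * ((Nn δ T : ℝ) + 1 / 2) ^ (x - y) ≤ T ^ (C₁ + 8) * r := by
  rw [pow_split h]
  have h1 := (abs_le.1 hy).1
  have hM : (0 : ℝ) < (Nn δ T : ℝ) + 1 / 2 := by positivity
  have h2 : ((Nn δ T : ℝ) + 1 / 2) ^ (x - y)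
      = ((Nn δ T : ℝ) + 1 / 2) ^ x * ((Nn δ T : ℝ) + 1 / 2) ^ (-y) := by
    rw [← Real.rpow_add hM]; congr 1
  have h3 : ((Nn δ T : ℝ) + 1 / 2) ^ (-y) ≤ T ^ (8 : ℝ) := pow_T8 h hδ hδ1 (by linarith)
  have h4 : 0 ≤ ((Nn δ T : ℝ) + 1 / 2) ^ (-y) := Real.rpow_nonneg hM.le _
  have h5 : 0 ≤ ((Nn δ T : ℝ) + 1 / 2) ^ x := Real.rpow_nonneg hM.le _
  have h6 : 0 ≤ T ^ C₁ := Real.rpow_nonneg h.T0.le _
  have h7 : 0 ≤ T ^ (8 : ℝ) := Real.rpow_nonneg h.T0.le _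
  have h8 : 0 ≤ r := (mul_nonneg h5 hR0).trans hR
  rw [h2]
  calc A * (((Nn δ T : ℝ) + 1 / 2) ^ x * ((Nn δ T : ℝ) + 1 / 2) ^ (-y))
      ≤ (T ^ C₁ * R) * (((Nn δ T : ℝ) + 1 / 2) ^ x * ((Nn δ T : ℝ) + 1 / 2) ^ (-y)) := by
        gcongr
    _ = T ^ C₁ * (((Nn δ T : ℝ) + 1 / 2) ^ x * R) * ((Nn δ T : ℝ) + 1 / 2) ^ (-y) := by ring
    _ ≤ T ^ C₁ * r * T ^ (8 : ℝ) := by gcongr
    _ = T ^ C₁ * T ^ (8 : ℝ) * r := by ring

lemma re_pt (x y : ℝ) : ((x : ℂ) + y * I).re = x := by simp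

lemma im_pt (x y : ℝ) : ((x : ℂ) + y * I).im = y := by simp

/-- horizontal sides -/
lemma hor (h : Big δ ε C₁ T) (hδ : 0 < δ) (hδ1 : δ ≤ 1 / 2) {f : ℂ → ℂ} {z p : ℂ} {x y t₀ : ℝ}
    (hzi : z.im = t₀) (hpi : p.im = t₀) (hz : |z.re| ≤ 4) (hx : |x| ≤ T ^ (1 - δ / 2))
    (hy : |y - t₀| = ε * T)
    (hf : ‖f ((x : ℂ) + y * I)‖ * ((Nn δ T : ℝ) + 1 / 2) ^ (x - z.re) ≤ T ^ (C₁ + 8)) :
    ‖f ((x : ℂ) + y * I) * om ((Nn δ T : ℝ) + 1 / 2) (T ^ (1 - δ / 4)) z ((x : ℂ) + y * I) /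
      ((x : ℂ) + y * I - p)‖ ≤
      T ^ (C₁ + 8) * (Real.exp 1 * Real.exp (-(ε ^ 2 * T ^ (δ / 2)))) := by
  have hM : (0 : ℝ) < (Nn δ T : ℝ) + 1 / 2 := by positivity
  have h1 : 1 ≤ ‖(x : ℂ) + y * I - p‖ := by
    have h2 := Complex.abs_im_le_norm ((x : ℂ) + y * I - p)
    rw [Complex.sub_im, im_pt, hpi, hy] at h2
    exact h.eT.trans h2
  have h3 : ‖om ((Nn δ T : ℝ) + 1 / 2) (T ^ (1 - δ / 4)) z ((x : ℂ) + y * I)‖ ≤
      ((Nn δ T : ℝ) + 1 / 2) ^ (x - z.re) *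
        (Real.exp 1 * Real.exp (-(ε ^ 2 * T ^ (δ / 2)))) := by
    have h4 := om_le' h hM (z := z) (s := (x : ℂ) + y * I) (by
      rw [re_pt]
      have := sR_De h hδ hδ1
      calc |x - z.re| ≤ |x| + |z.re| := abs_sub _ _
        _ ≤ _ := by linarith) (by rw [im_pt, hzi, ← sq_abs, hy])
    rwa [re_pt] at h4
  rw [norm_div, norm_mul]
  refine (div_le_self (by positivity) h1).trans ?_
  calc ‖f ((x : ℂ) + y * I)‖ *
        ‖om ((Nn δ T : ℝ) + 1 / 2) (T ^ (1 - δ / 4)) z ((x : ℂ) + y * I)‖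
      ≤ ‖f ((x : ℂ) + y * I)‖ * (((Nn δ T : ℝ) + 1 / 2) ^ (x - z.re) *
        (Real.exp 1 * Real.exp (-(ε ^ 2 * T ^ (δ / 2))))) := by gcongr
    _ = (‖f ((x : ℂ) + y * I)‖ * ((Nn δ T : ℝ) + 1 / 2) ^ (x - z.re)) *
        (Real.exp 1 * Real.exp (-(ε ^ 2 * T ^ (δ / 2)))) := by ring
    _ ≤ _ := by gcongr

/-- vertical side -/
lemma ver (h : Big δ ε C₁ T) (hδ : 0 < δ) (hδ1 : δ ≤ 1 / 2) {f : ℂ → ℂ} {z p : ℂ} {x y : ℝ}
    (hz : |z.re| ≤ 4) (hp : |p.re| ≤ 4) (hx : |x| = T ^ (1 - δ / 2))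
    (hf : ‖f ((x : ℂ) + y * I)‖ * ((Nn δ T : ℝ) + 1 / 2) ^ (x - z.re) ≤
      T ^ (C₁ + 8) * Real.exp (-(ε ^ 2 * T ^ (δ / 2)))) :
    ‖f ((x : ℂ) + y * I) * om ((Nn δ T : ℝ) + 1 / 2) (T ^ (1 - δ / 4)) z ((x : ℂ) + y * I) /
      ((x : ℂ) + y * I - p)‖ ≤
      T ^ (C₁ + 8) * (Real.exp 1 * Real.exp (-(ε ^ 2 * T ^ (δ / 2)))) := by
  have hM : (0 : ℝ) < (Nn δ T : ℝ) + 1 / 2 := by positivity
  have h0 := sR_five h hδ hδ1
  have h1 : 1 ≤ ‖(x : ℂ) + y * I - p‖ := by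
    have h2 := Complex.abs_re_le_norm ((x : ℂ) + y * I - p)
    rw [Complex.sub_re, re_pt] at h2
    have h3 : |x| - |p.re| ≤ |x - p.re| := abs_sub_abs_le_abs_sub _ _
    linarith
  have h3 : ‖om ((Nn δ T : ℝ) + 1 / 2) (T ^ (1 - δ / 4)) z ((x : ℂ) + y * I)‖ ≤
      ((Nn δ T : ℝ) + 1 / 2) ^ (x - z.re) * Real.exp 1 := by
    have h4 := om_le h hM (z := z) (s := (x : ℂ) + y * I) (by
      rw [re_pt]
      have := sR_De h hδ hδ1
      calc |x - z.re| ≤ |x| + |z.re| := abs_sub _ _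
        _ ≤ _ := by linarith)
    rwa [re_pt] at h4
  rw [norm_div, norm_mul]
  refine (div_le_self (by positivity) h1).trans ?_
  calc ‖f ((x : ℂ) + y * I)‖ *
        ‖om ((Nn δ T : ℝ) + 1 / 2) (T ^ (1 - δ / 4)) z ((x : ℂ) + y * I)‖
      ≤ ‖f ((x : ℂ) + y * I)‖ * (((Nn δ T : ℝ) + 1 / 2) ^ (x - z.re) * Real.exp 1) := by
        gcongr
    _ = (‖f ((x : ℂ) + y * I)‖ * ((Nn δ T : ℝ) + 1 / 2) ^ (x - z.re)) * Real.exp 1 := by ring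
    _ ≤ (T ^ (C₁ + 8) * Real.exp (-(ε ^ 2 * T ^ (δ / 2)))) * Real.exp 1 := by gcongr
    _ = _ := by ring

lemma re_le_four {z : ℂ} {t₀ : ℝ} (hz : ‖z - (t₀ : ℂ) * I‖ ≤ 4) (hzi : z.im = t₀) :
    |z.re| ≤ 4 := by
  have e : z - (t₀ : ℂ) * I = (z.re : ℂ) := by apply Complex.ext <;> simp [hzi]
  rw [e, Complex.norm_real, Real.norm_eq_abs] at hz
  exact hz

end side

end CloseAux

/-- MODULE CLR. Closing the contour to the right. Apply `bd_zero`/`bd_pole` to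
`s ↦ f(s) om(s)/(s - p)` in the rectangle `[σ₀, σ_R] × [t₀ - εT, t₀ + εT]`, `σ_R = T^{1-δ/2}`. With
`M = Nn + 1/2`, `Δ = T^{1-δ/4}`: `‖om(s)‖ = M^{Re (s-z)} exp ((Re(s-z)² - Im(s-z)²)/Δ²)`. On the
horizontal sides `Im(s-z)² = ε²T²`, so `‖om‖ ≤ M^{Re(s-z)} e^{1} exp (-ε² T^{δ/2})`, and
`‖f‖ M^{Re s} ≤ T^{C₁ + 4}` for `Re s ≤ 4`, `≤ T^{C₁} (M/(Nn+1))^{Re s} ≤ T^{C₁}` for `Re s ≥ 4`. On the
right side `(M/(Nn+1))^{σ_R} ≤ exp (-σ_R/(2(Nn+1))) ≤ exp (-T^{δ/2}/4)`. All contributions are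
`O(T^A exp (-c T^{δ/2})) ≤ 1/T`. -/
theorem close_right {δ ε C₁ : ℝ} (hδ : 0 < δ) (hδ1 : δ ≤ 1 / 2) (hε : 0 < ε)
    (hε1 : ε ≤ 1 / 8) : ∀ᶠ T : ℝ in atTop, ∀ (f : ℂ → ℂ) (σ₀ t₀ : ℝ) (z p : ℂ),
      0 ≤ σ₀ → σ₀ ≤ 1 → ‖z - (t₀ : ℂ) * I‖ ≤ 4 → z.im = t₀ → p.im = t₀ →
      ‖p - (t₀ : ℂ) * I‖ ≤ 4 → p.re ≠ σ₀ →
      DifferentiableOn ℂ f {s | σ₀ ≤ s.re ∧ |s.im - t₀| ≤ ε * T} →
      (∀ s : ℂ, σ₀ ≤ s.re → s.re ≤ 4 → |s.im - t₀| ≤ ε * T → ‖f s‖ ≤ T ^ C₁) →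
      (∀ s : ℂ, 4 ≤ s.re → |s.im - t₀| ≤ ε * T →
        ‖f s‖ ≤ T ^ C₁ * ((Nn δ T : ℝ) + 1) ^ (-s.re)) →
      ‖(1 / (2 * π) : ℂ) * (∫ y in (t₀ - ε * T)..(t₀ + ε * T),
          f (pl σ₀ y) * om ((Nn δ T : ℝ) + 1 / 2) (T ^ (1 - δ / 4)) z (pl σ₀ y) /
            (pl σ₀ y - p)) +
        (if σ₀ < p.re then f p * om ((Nn δ T : ℝ) + 1 / 2) (T ^ (1 - δ / 4)) z p else 0)‖ ≤
        1 / T := by
  filter_upwards [CloseAux.ev_big (C₁ := C₁) hδ hε] with T h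
  intro f σ₀ t₀ z p h0 h1 hz hzi hpi hp hne hf hb1 hb2
  have hzr := CloseAux.re_le_four hz hzi
  have hpr := CloseAux.re_le_four hp hpi
  have hT0 := h.T0
  have hM0 : (0 : ℝ) < (Nn δ T : ℝ) + 1 / 2 := by positivity
  have hN1 := CloseAux.N_one h hδ1
  have hb5 := CloseAux.sR_five h hδ hδ1
  have hbD := CloseAux.sR_De h hδ hδ1
  have hDT := CloseAux.De_T h hδ
  have heT := h.eT
  have hp1 := (abs_le.1 hpr).2
  have hpow : ((Nn δ T : ℝ) + 1 / 2) ≤ (Nn δ T : ℝ) + 1 := by linarith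
  have far : ∀ x y : ℝ, 4 ≤ x → |y - t₀| ≤ ε * T →
      ‖f ((x : ℂ) + y * I)‖ * ((Nn δ T : ℝ) + 1 / 2) ^ (x - z.re) ≤ T ^ (C₁ + 8) * 1 := by
    intro x y hx hy
    have h2 := hb2 ((x : ℂ) + y * I) (by rw [CloseAux.re_pt]; exact hx)
      (by rw [CloseAux.im_pt]; exact hy)
    rw [CloseAux.re_pt] at h2
    exact CloseAux.prod_far h hδ hδ1 h2 (CloseAux.ratio_one hM0 hpow (by linarith))
      (Real.rpow_nonneg (by positivity) _) hzr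
  have hori : ∀ x y : ℝ, σ₀ ≤ x → x ≤ T ^ (1 - δ / 2) → |y - t₀| = ε * T →
      ‖f ((x : ℂ) + y * I) * om ((Nn δ T : ℝ) + 1 / 2) (T ^ (1 - δ / 4)) z ((x : ℂ) + y * I) /
      ((x : ℂ) + y * I - p)‖ ≤
      T ^ (C₁ + 8) * (Real.exp 1 * Real.exp (-(ε ^ 2 * T ^ (δ / 2)))) := by
    intro x y hx1 hx2 hy
    refine CloseAux.hor h hδ hδ1 hzi hpi hzr ?_ hy ?_
    · rw [abs_of_nonneg (h0.trans hx1)]; exact hx2
    · rcases le_total x 4 with hx | hx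
      · refine CloseAux.prod_near h hδ hδ1 ?_ (norm_nonneg _) hzr hx
        exact hb1 _ (by rw [CloseAux.re_pt]; exact hx1) (by rw [CloseAux.re_pt]; exact hx)
          (by rw [CloseAux.im_pt]; exact hy.le)
      · have := far x y hx hy.le
        rwa [mul_one] at this
  have hG : DifferentiableOn ℂ (fun s => f s *
      om ((Nn δ T : ℝ) + 1 / 2) (T ^ (1 - δ / 4)) z s)
      (Icc σ₀ (T ^ (1 - δ / 2)) ×ℂ Icc (t₀ - ε * T) (t₀ + ε * T)) := by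
    refine DifferentiableOn.mul (hf.mono ?_) (CloseAux.om_diff hM0 z).differentiableOn
    intro s hs
    obtain ⟨h2, h3⟩ := Complex.mem_reProdIm.1 hs
    refine ⟨h2.1, ?_⟩
    rw [abs_le]; constructor <;> linarith [h3.1, h3.2]
  have fin := CloseAux.asm_right (p := p)
    (K := T ^ (C₁ + 8) * (Real.exp 1 * Real.exp (-(ε ^ 2 * T ^ (δ / 2)))))
    (show σ₀ ≤ T ^ (1 - δ / 2) by linarith)
    (show t₀ - ε * T ≤ t₀ + ε * T by linarith) hG hne (by linarith)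
    (by rw [hpi]; linarith) (by rw [hpi]; linarith) ?_ ?_ ?_
  · refine fin.trans (CloseAux.fin_le h hε1 (by linarith) (by ring))
  · intro x hx
    refine hori x _ hx.1 hx.2 ?_
    rw [show t₀ - ε * T - t₀ = -(ε * T) by ring, abs_neg, abs_of_nonneg (by linarith)]
  · intro x hx
    refine hori x _ hx.1 hx.2 ?_
    rw [show t₀ + ε * T - t₀ = ε * T by ring, abs_of_nonneg (by linarith)]
  · intro y hy
    have hy' : |y - t₀| ≤ ε * T := by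
      rw [abs_le]; constructor <;> linarith [hy.1, hy.2]
    refine CloseAux.ver h hδ hδ1 hzr hpr (abs_of_nonneg (by linarith)) ?_
    have h2 := hb2 (((T ^ (1 - δ / 2) : ℝ) : ℂ) + y * I)
      (by rw [CloseAux.re_pt]; linarith) (by rw [CloseAux.im_pt]; exact hy')
    rw [CloseAux.re_pt] at h2
    refine CloseAux.prod_far h hδ hδ1 h2 ?_ (Real.rpow_nonneg (by positivity) _) hzr
    refine (CloseAux.ratio_exp hM0 (by linarith) (by linarith)).trans ?_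
    exact CloseAux.exp_side h hδ1 hε hε1 (by positivity) (CloseAux.N1_le h hδ1)

/-- MODULE CLL. Closing the contour to the left, in the rectangle `[-T^{1-δ/2}, σ₀] × ...`; for
`Re s ≤ -4`: `‖f s‖ M^{Re s} ≤ T^{C₁} (Nn/M)^{-Re s}` and
`(Nn/M)^{T^{1-δ/2}} ≤ exp (-T^{δ/2}/4)`. -/
theorem close_left {δ ε C₁ : ℝ} (hδ : 0 < δ) (hδ1 : δ ≤ 1 / 2) (hε : 0 < ε)
    (hε1 : ε ≤ 1 / 8) : ∀ᶠ T : ℝ in atTop, ∀ (f : ℂ → ℂ) (σ₀ t₀ : ℝ) (z p : ℂ),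
      0 ≤ σ₀ → σ₀ ≤ 1 → ‖z - (t₀ : ℂ) * I‖ ≤ 4 → z.im = t₀ → p.im = t₀ →
      ‖p - (t₀ : ℂ) * I‖ ≤ 4 → p.re ≠ σ₀ →
      DifferentiableOn ℂ f {s | s.re ≤ σ₀ ∧ |s.im - t₀| ≤ ε * T} →
      (∀ s : ℂ, -4 ≤ s.re → s.re ≤ σ₀ → |s.im - t₀| ≤ ε * T → ‖f s‖ ≤ T ^ C₁) →
      (∀ s : ℂ, s.re ≤ -4 → |s.im - t₀| ≤ ε * T →
        ‖f s‖ ≤ T ^ C₁ * (Nn δ T : ℝ) ^ (-s.re)) →
      ‖(1 / (2 * π) : ℂ) * (∫ y in (t₀ - ε * T)..(t₀ + ε * T),
          f (pl σ₀ y) * om ((Nn δ T : ℝ) + 1 / 2) (T ^ (1 - δ / 4)) z (pl σ₀ y) /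
            (pl σ₀ y - p)) -
        (if p.re < σ₀ then f p * om ((Nn δ T : ℝ) + 1 / 2) (T ^ (1 - δ / 4)) z p else 0)‖ ≤
        1 / T := by
  filter_upwards [CloseAux.ev_big (C₁ := C₁) hδ hε] with T h
  intro f σ₀ t₀ z p h0 h1 hz hzi hpi hp hne hf hb1 hb2
  have hzr := CloseAux.re_le_four hz hzi
  have hpr := CloseAux.re_le_four hp hpi
  have hT0 := h.T0
  have hM0 : (0 : ℝ) < (Nn δ T : ℝ) + 1 / 2 := by positivity
  have hN1 := CloseAux.N_one h hδ1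
  have hN1' := CloseAux.N1_le h hδ1
  have hb5 := CloseAux.sR_five h hδ hδ1
  have hbD := CloseAux.sR_De h hδ hδ1
  have hDT := CloseAux.De_T h hδ
  have heT := h.eT
  have hp1 := (abs_le.1 hpr).1
  have hpow : (Nn δ T : ℝ) ≤ (Nn δ T : ℝ) + 1 / 2 := by linarith
  have far : ∀ x y : ℝ, x ≤ -4 → |y - t₀| ≤ ε * T →
      ‖f ((x : ℂ) + y * I)‖ * ((Nn δ T : ℝ) + 1 / 2) ^ (x - z.re) ≤ T ^ (C₁ + 8) * 1 := by
    intro x y hx hy
    have h2 := hb2 ((x : ℂ) + y * I) (by rw [CloseAux.re_pt]; exact hx)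
      (by rw [CloseAux.im_pt]; exact hy)
    rw [CloseAux.re_pt] at h2
    refine CloseAux.prod_far h hδ hδ1 h2 ?_ (Real.rpow_nonneg (by positivity) _) hzr
    have h3 := CloseAux.ratio_one (u := (Nn δ T : ℝ)) (x := -x) (by linarith) hpow (by linarith)
    rw [neg_neg, mul_comm] at h3
    exact h3
  have hori : ∀ x y : ℝ, -(T ^ (1 - δ / 2)) ≤ x → x ≤ σ₀ → |y - t₀| = ε * T →
      ‖f ((x : ℂ) + y * I) * om ((Nn δ T : ℝ) + 1 / 2) (T ^ (1 - δ / 4)) z ((x : ℂ) + y * I) /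
      ((x : ℂ) + y * I - p)‖ ≤
      T ^ (C₁ + 8) * (Real.exp 1 * Real.exp (-(ε ^ 2 * T ^ (δ / 2)))) := by
    intro x y hx1 hx2 hy
    refine CloseAux.hor h hδ hδ1 hzi hpi hzr ?_ hy ?_
    · rw [abs_le]; constructor <;> linarith
    · rcases le_total (-4) x with hx | hx
      · refine CloseAux.prod_near h hδ hδ1 ?_ (norm_nonneg _) hzr (by linarith)
        exact hb1 _ (by rw [CloseAux.re_pt]; exact hx) (by rw [CloseAux.re_pt]; exact hx2)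
          (by rw [CloseAux.im_pt]; exact hy.le)
      · have := far x y hx hy.le
        rwa [mul_one] at this
  have hG : DifferentiableOn ℂ (fun s => f s *
      om ((Nn δ T : ℝ) + 1 / 2) (T ^ (1 - δ / 4)) z s)
      (Icc (-(T ^ (1 - δ / 2))) σ₀ ×ℂ Icc (t₀ - ε * T) (t₀ + ε * T)) := by
    refine DifferentiableOn.mul (hf.mono ?_) (CloseAux.om_diff hM0 z).differentiableOn
    intro s hs
    obtain ⟨h2, h3⟩ := Complex.mem_reProdIm.1 hs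
    refine ⟨h2.2, ?_⟩
    rw [abs_le]; constructor <;> linarith [h3.1, h3.2]
  have fin := CloseAux.asm_left (p := p)
    (K := T ^ (C₁ + 8) * (Real.exp 1 * Real.exp (-(ε ^ 2 * T ^ (δ / 2)))))
    (show -(T ^ (1 - δ / 2)) ≤ σ₀ by linarith)
    (show t₀ - ε * T ≤ t₀ + ε * T by linarith) hG hne (by linarith)
    (by rw [hpi]; linarith) (by rw [hpi]; linarith) ?_ ?_ ?_
  · refine fin.trans (CloseAux.fin_le h hε1 (by linarith) (by ring))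
  · intro x hx
    refine hori x _ hx.1 hx.2 ?_
    rw [show t₀ - ε * T - t₀ = -(ε * T) by ring, abs_neg, abs_of_nonneg (by linarith)]
  · intro x hx
    refine hori x _ hx.1 hx.2 ?_
    rw [show t₀ + ε * T - t₀ = ε * T by ring, abs_of_nonneg (by linarith)]
  · intro y hy
    have hy' : |y - t₀| ≤ ε * T := by
      rw [abs_le]; constructor <;> linarith [hy.1, hy.2]
    refine CloseAux.ver h hδ hδ1 hzr hpr
      (by rw [abs_neg]; exact abs_of_nonneg (by linarith)) ?_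
    have h2 := hb2 (((-(T ^ (1 - δ / 2)) : ℝ) : ℂ) + y * I)
      (by rw [CloseAux.re_pt]; linarith) (by rw [CloseAux.im_pt]; exact hy')
    rw [CloseAux.re_pt] at h2
    refine CloseAux.prod_far h hδ hδ1 h2 ?_ (Real.rpow_nonneg (by positivity) _) hzr
    rw [neg_neg, mul_comm]
    refine (CloseAux.ratio_exp (u := (Nn δ T : ℝ)) (by linarith) le_rfl (by linarith)).trans ?_
    exact CloseAux.exp_side h hδ1 hε hε1 hM0 (by linarith)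

end Pool.Agent.MP_67227b_nt.Ah
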