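import Pool.Agent.MP_67227b_nt.Ah.AhDefs

set_option autoImplicit false

open Filter Topology Set MeasureTheory Complex
open scoped Real ArithmeticFunction ContDiff

namespace Pool.Agent.MP_67227b_nt.Ah

open Pool.Agent.Lib.ZetaCount_helper33 Pool.Agent.MP_67227b_nt Pool.Agent.MP_67227b_nt.Mo
open Pool.Agent.MP_67227b_nt.Sg Pool.Agent.MP_67227b_nt.Pp
open Pool.Agent.MP_67227b_nt.Mo.MomentBAux (DP)

namespace MVAux

open Pool.Agent.MP_67227b_nt.Mo.MomentBAux Pool.Agent.MP_67227b_nt.Mo.MeanBBAux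

theorem int_sq (S : Finset ℕ) (a : ℕ → ℂ) (A B : ℝ) :
    ((∫ t in A..B, ‖DP S a t‖ ^ 2 : ℝ) : ℂ) =
      ∑ n ∈ S, ∑ m ∈ S, a n * (starRingEnd ℂ) (a m) *
          ∫ t in A..B, E (Real.log m - Real.log n) t := by
  rw [← intervalIntegral.integral_ofReal]
  have h1 : ∀ t : ℝ, ((‖DP S a t‖ ^ 2 : ℝ) : ℂ) =
      ∑ n ∈ S, ∑ m ∈ S, a n * (starRingEnd ℂ) (a m) * E (Real.log m - Real.log n) t := by
    intro t
    have h2 : ((‖DP S a t‖ ^ 2 : ℝ) : ℂ) = DP S a t * (starRingEnd ℂ) (DP S a t) := by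
      rw [Complex.mul_conj, Complex.normSq_eq_norm_sq]
    rw [h2]
    unfold DP
    rw [map_sum, Finset.sum_mul_sum]
    refine Finset.sum_congr rfl fun n _ => Finset.sum_congr rfl fun m _ => ?_
    rw [map_mul, E_conj, neg_neg, sub_eq_add_neg, ← E_mul]
    ring
  simp only [h1]
  rw [intervalIntegral.integral_finsetSum]
  · refine Finset.sum_congr rfl fun n _ => ?_
    rw [intervalIntegral.integral_finsetSum]
    · refine Finset.sum_congr rfl fun m _ => ?_
      rw [intervalIntegral.integral_const_mul]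
    · intro m _
      exact (continuous_const.mul (E_continuous _)).intervalIntegrable _ _
  · intro n _
    exact (continuous_finsetSum _ fun m _ =>
      continuous_const.mul (E_continuous _)).intervalIntegrable _ _

/-- The harmonic sum around `n`. -/
theorem harm (N n : ℕ) (hn : n ∈ Finset.Icc 1 N) :
    ∑ m ∈ Finset.Icc 1 N, (if m = n then (0 : ℝ) else 1 / |(m : ℝ) - n|) ≤
      2 * (1 + Real.log N) := by
  have hn' := Finset.mem_Icc.1 hn
  have hH : ∑ k ∈ Finset.Icc 1 N, (1 : ℝ) / k ≤ 1 + Real.log N := by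
    have h := harmonic_le_one_add_log N
    rw [harmonic_eq_sum_Icc] at h
    push_cast at h
    simpa [one_div] using h
  have h1 : ∑ m ∈ Finset.Icc 1 N, (if m = n then (0 : ℝ) else 1 / |(m : ℝ) - n|) =
      ∑ m ∈ (Finset.Icc 1 N).filter (fun m => m < n), 1 / ((n : ℝ) - m) +
      ∑ m ∈ (Finset.Icc 1 N).filter (fun m => n < m), 1 / ((m : ℝ) - n) := by
    rw [Finset.sum_filter, Finset.sum_filter, ← Finset.sum_add_distrib]
    refine Finset.sum_congr rfl fun m _ => ?_
    rcases lt_trichotomy m n with h | h | h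
    · have h' : (m : ℝ) < n := by exact_mod_cast h
      rw [if_neg h.ne, if_pos h, if_neg (by omega), add_zero, abs_of_neg (by linarith)]
      congr 1
      ring
    · subst h
      simp
    · have h' : (n : ℝ) < m := by exact_mod_cast h
      rw [if_neg h.ne', if_neg (by omega), if_pos h, zero_add, abs_of_pos (by linarith)]
  have h2 : ∑ m ∈ (Finset.Icc 1 N).filter (fun m => m < n), 1 / ((n : ℝ) - m) ≤
      ∑ k ∈ Finset.Icc 1 N, (1 : ℝ) / k := by
    calc ∑ m ∈ (Finset.Icc 1 N).filter (fun m => m < n), 1 / ((n : ℝ) - m)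
        = ∑ k ∈ ((Finset.Icc 1 N).filter (fun m => m < n)).image (fun m => n - m),
            (1 : ℝ) / k := by
          rw [Finset.sum_image]
          · refine Finset.sum_congr rfl fun m hm => ?_
            have := (Finset.mem_filter.1 hm).2
            rw [Nat.cast_sub this.le]
          · intro a ha b hb hab
            have h1 := (Finset.mem_filter.1 ha).2
            have h2 := (Finset.mem_filter.1 hb).2
            simp only at hab
            omega
      _ ≤ _ := by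
          refine Finset.sum_le_sum_of_subset_of_nonneg ?_ fun k _ _ => by positivity
          intro k hk
          obtain ⟨m, hm, rfl⟩ := Finset.mem_image.1 hk
          have h1 := Finset.mem_filter.1 hm
          have h2 := Finset.mem_Icc.1 h1.1
          rw [Finset.mem_Icc]
          have := h1.2
          omega
  have h3 : ∑ m ∈ (Finset.Icc 1 N).filter (fun m => n < m), 1 / ((m : ℝ) - n) ≤
      ∑ k ∈ Finset.Icc 1 N, (1 : ℝ) / k := by
    calc ∑ m ∈ (Finset.Icc 1 N).filter (fun m => n < m), 1 / ((m : ℝ) - n)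
        = ∑ k ∈ ((Finset.Icc 1 N).filter (fun m => n < m)).image (fun m => m - n),
            (1 : ℝ) / k := by
          rw [Finset.sum_image]
          · refine Finset.sum_congr rfl fun m hm => ?_
            have := (Finset.mem_filter.1 hm).2
            rw [Nat.cast_sub this.le]
          · intro a ha b hb hab
            have h1 := (Finset.mem_filter.1 ha).2
            have h2 := (Finset.mem_filter.1 hb).2
            simp only at hab
            omega
      _ ≤ _ := by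
          refine Finset.sum_le_sum_of_subset_of_nonneg ?_ fun k _ _ => by positivity
          intro k hk
          obtain ⟨m, hm, rfl⟩ := Finset.mem_image.1 hk
          have h1 := Finset.mem_filter.1 hm
          have h2 := Finset.mem_Icc.1 h1.1
          rw [Finset.mem_Icc]
          have := h1.2
          omega
  rw [h1]
  linarith

theorem log_sub_ge {N m n : ℕ} (hm : m ∈ Finset.Icc 1 N) (hn : n ∈ Finset.Icc 1 N) :
    |(m : ℝ) - n| / N ≤ |Real.log m - Real.log n| := by
  wlog hlt : n ≤ m generalizing m n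
  · rw [abs_sub_comm, abs_sub_comm (Real.log m)]
    exact this hn hm (by omega)
  have hm' := Finset.mem_Icc.1 hm
  have hn' := Finset.mem_Icc.1 hn
  have hN0 : (0 : ℝ) < N := by
    have : 1 ≤ N := by omega
    exact_mod_cast this
  have hm0 : (0 : ℝ) < m := by exact_mod_cast hm'.1
  have hn0 : (0 : ℝ) < n := by exact_mod_cast hn'.1
  have hmn : (n : ℝ) ≤ m := by exact_mod_cast hlt
  have hmN : (m : ℝ) ≤ N := by exact_mod_cast hm'.2
  refine le_trans ?_ (le_abs_self _)
  rw [← Real.log_div hm0.ne' hn0.ne']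
  have h1 := Real.one_sub_inv_le_log_of_pos (div_pos hm0 hn0)
  refine le_trans ?_ h1
  rw [inv_div, abs_of_nonneg (by linarith)]
  have h2 : 1 - (n : ℝ) / m = ((m : ℝ) - n) / m := by
    rw [sub_div, div_self hm0.ne']
  rw [h2]
  exact div_le_div_of_nonneg_left (by linarith) hm0 hmN

theorem cpow_eq {m : ℕ} (hm : m ≠ 0) (t : ℝ) :
    (m : ℂ) ^ (-((t : ℂ) * I)) = E (-(Real.log m)) t := by
  unfold E
  rw [Complex.cpow_def_of_ne_zero (by exact_mod_cast hm), ← Complex.natCast_log]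
  congr 1
  push_cast
  ring

theorem norm_cpow_line {m : ℕ} (hm : m ≠ 0) (σ t : ℝ) :
    (m : ℂ) ^ (-(pl σ t)) = (((m : ℝ) ^ (-σ) : ℝ) : ℂ) * (m : ℂ) ^ (-((t : ℂ) * I)) := by
  have h0 : (m : ℂ) ≠ 0 := by exact_mod_cast hm
  unfold pl
  rw [neg_add, Complex.cpow_add _ _ h0]
  congr 1
  rw [Complex.ofReal_cpow (Nat.cast_nonneg m)]
  push_cast
  rfl

end MVAux

/-- MODULE MV1. The mean value theorem for Dirichlet polynomials (weak form). Expand the square;
the diagonal gives `(B - A) ∑ ‖c m‖²`; the off-diagonal terms are at most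
`∑_{m ≠ n} ‖c m‖ ‖c n‖ 2/|log (m/n)| ≤ ∑_m ‖c m‖² ∑_{n ≠ m} 2/|log (m/n)|` (`2ab ≤ a² + b²`) and
`|log (m/n)| ≥ |m - n|/max (m, n) ≥ |m - n|/N`, so the inner sum is at most `4 N (1 + log N)`. -/
theorem mv : ∃ C : ℝ, 0 < C ∧ ∀ (N : ℕ) (c : ℕ → ℂ) (A B : ℝ), A ≤ B →
    ∫ t in A..B, ‖∑ m ∈ Finset.Icc 1 N, c m * (m : ℂ) ^ (-((t : ℂ) * I))‖ ^ 2 ≤
      (B - A + C * N * Real.log (N + 1)) * ∑ m ∈ Finset.Icc 1 N, ‖c m‖ ^ 2 := by
  refine ⟨10, by norm_num, fun N c A B hAB => ?_⟩
  have hD : ∀ t : ℝ, ∑ m ∈ Finset.Icc 1 N, c m * (m : ℂ) ^ (-((t : ℂ) * I)) =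
      DP (Finset.Icc 1 N) c t := by
    intro t
    unfold Pool.Agent.MP_67227b_nt.Mo.MomentBAux.DP
    refine Finset.sum_congr rfl fun m hm => ?_
    rw [MVAux.cpow_eq (by have := (Finset.mem_Icc.1 hm).1; omega)]
  simp only [hD]
  set S := Finset.Icc 1 N with hS
  have h0 : 0 ≤ ∫ t in A..B, ‖DP S c t‖ ^ 2 :=
    intervalIntegral.integral_nonneg hAB fun t _ => by positivity
  have h1 : ∫ t in A..B, ‖DP S c t‖ ^ 2 = ‖((∫ t in A..B, ‖DP S c t‖ ^ 2 : ℝ) : ℂ)‖ := by
    rw [Complex.norm_real, Real.norm_of_nonneg h0]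
  rw [h1, MVAux.int_sq]
  -- the kernel
  set G : ℕ → ℕ → ℝ := fun n m => if m = n then B - A else 2 * N / |(m : ℝ) - n| with hG
  have hG0 : ∀ n m, 0 ≤ G n m := by
    intro n m
    simp only [hG]
    split_ifs
    · linarith
    · positivity
  have hGs : ∀ n m, G n m = G m n := by
    intro n m
    simp only [hG]
    by_cases h : m = n
    · rw [if_pos h, if_pos h.symm]
    · rw [if_neg h, if_neg (Ne.symm h), abs_sub_comm]
  have hGb : ∀ n ∈ S, ∀ m ∈ S,
      ‖∫ t in A..B, Pool.Agent.MP_67227b_nt.Mo.MeanBBAux.E (Real.log m - Real.log n) t‖ ≤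
        G n m := by
    intro n hn m hm
    simp only [hG]
    split_ifs with h
    · rw [h, sub_self, Pool.Agent.MP_67227b_nt.Mo.MeanBBAux.int_E_zero, Complex.norm_real,
        Real.norm_of_nonneg (by linarith)]
    · have hN0 : (0 : ℝ) < N := by
        have := Finset.mem_Icc.1 hm
        have : 1 ≤ N := by omega
        exact_mod_cast this
      have hmn : (0 : ℝ) < |(m : ℝ) - n| := by
        rw [abs_pos, sub_ne_zero]
        exact_mod_cast h
      have h2 := MVAux.log_sub_ge hm hn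
      have h3 : 0 < |Real.log m - Real.log n| := lt_of_lt_of_le (by positivity) h2
      refine (Pool.Agent.MP_67227b_nt.Mo.MeanBBAux.int_E_le (abs_pos.1 h3) _ _).trans ?_
      rw [div_le_div_iff₀ h3 hmn]
      rw [div_le_iff₀ hN0] at h2
      nlinarith
  have hrow : ∀ n ∈ S, ∑ m ∈ S, G n m ≤ B - A + 10 * N * Real.log (N + 1) := by
    intro n hn
    have hN1 : 1 ≤ N := by
      have := Finset.mem_Icc.1 hn
      omega
    have hN1' : (1 : ℝ) ≤ N := by exact_mod_cast hN1
    have h2 : ∑ m ∈ S, G n m = (B - A) +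
        2 * N * ∑ m ∈ S, (if m = n then (0 : ℝ) else 1 / |(m : ℝ) - n|) := by
      rw [Finset.mul_sum]
      have h3 : ∀ m ∈ S, G n m = (if m = n then B - A else 0) +
          2 * N * (if m = n then (0 : ℝ) else 1 / |(m : ℝ) - n|) := by
        intro m _
        simp only [hG]
        split_ifs
        · ring
        · ring
      rw [Finset.sum_congr rfl h3, Finset.sum_add_distrib, Finset.sum_ite_eq' S n, if_pos hn]
    rw [h2]
    have h4 := MVAux.harm N n hn
    have h5 : Real.log N ≤ Real.log (N + 1) := Real.log_le_log (by linarith) (by linarith)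
    have h6 : (1 : ℝ) ≤ 3 / 2 * Real.log (N + 1) := by
      have h7 : Real.log 2 ≤ Real.log (N + 1) := Real.log_le_log (by norm_num) (by linarith)
      have := Real.log_two_gt_d9
      linarith
    have h8 : 2 * (1 + Real.log N) ≤ 5 * Real.log (N + 1) := by linarith
    have h9 : 2 * N * ∑ m ∈ S, (if m = n then (0 : ℝ) else 1 / |(m : ℝ) - n|) ≤
        2 * N * (5 * Real.log (N + 1)) := by
      refine mul_le_mul_of_nonneg_left (h4.trans h8) (by positivity)
    linarith
  calc ‖∑ n ∈ S, ∑ m ∈ S, c n * (starRingEnd ℂ) (c m) *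
          ∫ t in A..B, Pool.Agent.MP_67227b_nt.Mo.MeanBBAux.E (Real.log m - Real.log n) t‖
      ≤ ∑ n ∈ S, ∑ m ∈ S, ‖c n‖ * ‖c m‖ * G n m := by
        refine (norm_sum_le _ _).trans (Finset.sum_le_sum fun n hn => ?_)
        refine (norm_sum_le _ _).trans (Finset.sum_le_sum fun m hm => ?_)
        rw [norm_mul, norm_mul, RCLike.norm_conj]
        exact mul_le_mul_of_nonneg_left (hGb n hn m hm) (by positivity)
    _ ≤ ∑ n ∈ S, ∑ m ∈ S, (‖c n‖ ^ 2 / 2 * G n m + ‖c m‖ ^ 2 / 2 * G m n) := by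
        refine Finset.sum_le_sum fun n _ => Finset.sum_le_sum fun m _ => ?_
        rw [hGs m n]
        nlinarith [mul_nonneg (hG0 n m) (sq_nonneg (‖c n‖ - ‖c m‖))]
    _ = (∑ n ∈ S, ∑ m ∈ S, ‖c n‖ ^ 2 / 2 * G n m) +
          ∑ n ∈ S, ∑ m ∈ S, ‖c n‖ ^ 2 / 2 * G n m := by
        simp only [Finset.sum_add_distrib]
        congr 1
        exact Finset.sum_comm
    _ = ∑ n ∈ S, ‖c n‖ ^ 2 * ∑ m ∈ S, G n m := by
        rw [← Finset.sum_add_distrib]
        refine Finset.sum_congr rfl fun n _ => ?_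
        rw [← Finset.mul_sum]
        ring
    _ ≤ ∑ n ∈ S, ‖c n‖ ^ 2 * (B - A + 10 * N * Real.log (N + 1)) :=
        Finset.sum_le_sum fun n hn => mul_le_mul_of_nonneg_left (hrow n hn) (sq_nonneg _)
    _ = _ := by
        rw [← Finset.sum_mul, mul_comm]

/-- MODULE MV2. The same on the line `Re s = σ`, for short polynomials. -/
theorem mv_line {κ : ℝ} (hκ : 0 < κ) (hκ1 : κ < 1) : ∀ᶠ T : ℝ in atTop, ∀ (N : ℕ) (c : ℕ → ℂ)
    (σ A B : ℝ), (N : ℝ) ≤ T ^ κ → A ≤ B → B - A ≤ 4 * T →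
    ∫ t in A..B, ‖∑ m ∈ Finset.Icc 1 N, c m * (m : ℂ) ^ (-(pl σ t))‖ ^ 2 ≤
      5 * T * ∑ m ∈ Finset.Icc 1 N, ‖c m‖ ^ 2 * (m : ℝ) ^ (-2 * σ) := by
  obtain ⟨C, hC, hmv⟩ := mv
  have h1 : Tendsto (fun T : ℝ => Real.log (T ^ κ + 1) * T ^ κ / T) atTop (𝓝 0) := by
    have h2 : Tendsto (fun T : ℝ => Real.log T / T ^ (1 - κ)) atTop (𝓝 0) :=
      (isLittleO_log_rpow_atTop (by linarith)).tendsto_div_nhds_zero
    have h3 : Tendsto (fun T : ℝ => 2 * (Real.log T / T ^ (1 - κ))) atTop (𝓝 0) := by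
      simpa using h2.const_mul 2
    refine tendsto_of_tendsto_of_tendsto_of_le_of_le' tendsto_const_nhds h3 ?_ ?_
    · filter_upwards [eventually_ge_atTop (1 : ℝ)] with T hT
      have h4 : (0 : ℝ) ≤ T ^ κ := by positivity
      have h5 : 0 ≤ Real.log (T ^ κ + 1) := Real.log_nonneg (by linarith)
      positivity
    · filter_upwards [eventually_ge_atTop (2 : ℝ)] with T hT
      have hT0 : 0 < T := by linarith
      have h4 : T ^ κ ≤ T := by
        calc T ^ κ ≤ T ^ (1 : ℝ) := Real.rpow_le_rpow_of_exponent_le (by linarith) hκ1.le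
          _ = T := Real.rpow_one T
      have h40 : (0 : ℝ) < T ^ κ := by positivity
      have h5 : Real.log (T ^ κ + 1) ≤ 2 * Real.log T := by
        have : Real.log (T ^ κ + 1) ≤ Real.log (T ^ 2) :=
          Real.log_le_log (by linarith) (by nlinarith)
        rw [Real.log_pow] at this
        exact_mod_cast this
      have h6 : T ^ κ / T = 1 / T ^ (1 - κ) := by
        rw [Real.rpow_sub hT0, Real.rpow_one, one_div, inv_div]
      calc Real.log (T ^ κ + 1) * T ^ κ / T = Real.log (T ^ κ + 1) * (T ^ κ / T) := by ring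
        _ = Real.log (T ^ κ + 1) * (1 / T ^ (1 - κ)) := by rw [h6]
        _ ≤ 2 * Real.log T * (1 / T ^ (1 - κ)) := by gcongr
        _ = _ := by ring
  have h2 := h1.eventually (gt_mem_nhds (show (0 : ℝ) < 1 / C by positivity))
  filter_upwards [h2, eventually_ge_atTop (1 : ℝ)] with T hT hT1 N c σ A B hN hAB hBA
  have hT0 : 0 < T := by linarith
  have h3 : ∀ t : ℝ, ∑ m ∈ Finset.Icc 1 N, c m * (m : ℂ) ^ (-(pl σ t)) =
      ∑ m ∈ Finset.Icc 1 N, (c m * (((m : ℝ) ^ (-σ) : ℝ) : ℂ)) * (m : ℂ) ^ (-((t : ℂ) * I)) := by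
    intro t
    refine Finset.sum_congr rfl fun m hm => ?_
    rw [MVAux.norm_cpow_line (by have := (Finset.mem_Icc.1 hm).1; omega), mul_assoc]
  simp only [h3]
  refine (hmv N (fun m => c m * (((m : ℝ) ^ (-σ) : ℝ) : ℂ)) A B hAB).trans ?_
  have h4 : ∀ m ∈ Finset.Icc 1 N, ‖c m * (((m : ℝ) ^ (-σ) : ℝ) : ℂ)‖ ^ 2 =
      ‖c m‖ ^ 2 * (m : ℝ) ^ (-2 * σ) := by
    intro m _
    have h5 : (0 : ℝ) ≤ (m : ℝ) ^ (-σ) := by positivity
    rw [norm_mul, Complex.norm_real, Real.norm_of_nonneg h5, mul_pow, ← Real.rpow_natCast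
      ((m : ℝ) ^ (-σ)), ← Real.rpow_mul (Nat.cast_nonneg m)]
    congr 2
    push_cast
    ring
  rw [Finset.sum_congr rfl h4]
  refine mul_le_mul_of_nonneg_right ?_ (Finset.sum_nonneg fun m _ => by positivity)
  have h5 : C * N * Real.log (N + 1) ≤ T := by
    have h6 : Real.log (N + 1) ≤ Real.log (T ^ κ + 1) :=
      Real.log_le_log (by positivity) (by linarith)
    have h7 : 0 ≤ Real.log (N + 1) := Real.log_nonneg (by
      have : (0 : ℝ) ≤ N := Nat.cast_nonneg N
      linarith)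
    have h8 : Real.log (T ^ κ + 1) * T ^ κ < T / C := by
      have h9 : Real.log (T ^ κ + 1) * T ^ κ / T < 1 / C := hT
      rw [div_lt_iff₀ hT0] at h9
      calc Real.log (T ^ κ + 1) * T ^ κ < 1 / C * T := h9
        _ = T / C := by ring
    calc C * N * Real.log (N + 1) ≤ C * T ^ κ * Real.log (T ^ κ + 1) := by gcongr
      _ = C * (Real.log (T ^ κ + 1) * T ^ κ) := by ring
      _ ≤ C * (T / C) := by gcongr
      _ = T := by field_simp
  linarith

end Pool.Agent.MP_67227b_nt.Ah
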