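import Pool.Agent.MP_67227b_nt.Ah.AhArith
import Pool.Agent.MP_67227b_nt.Ah.AhMV

set_option autoImplicit false

open Filter Topology Set MeasureTheory Complex
open scoped Real ArithmeticFunction ContDiff

namespace Pool.Agent.MP_67227b_nt.Ah

open Pool.Agent.Lib.ZetaCount_helper33 Pool.Agent.MP_67227b_nt Pool.Agent.MP_67227b_nt.Mo
open Pool.Agent.MP_67227b_nt.Sg Pool.Agent.MP_67227b_nt.Pp
open Pool.Agent.MP_67227b_nt.Mo.MomentBAux (DP)

namespace MeansAux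

private lemma sw_eq (T t x : ℝ) : sw T t (x : ℂ) = pl (1 / 2 + x / Real.log T) t := by
  unfold sw pl
  push_cast
  ring

private lemma sw_eq' (T t x α : ℝ) :
    sw T t (x : ℂ) + (α : ℂ) * I = pl (1 / 2 + x / Real.log T) (t + α) := by
  unfold sw pl
  push_cast
  ring

private lemma Nn_le {δ T : ℝ} (hT : 1 < T) : ((Nn δ T : ℕ) : ℝ) ≤ T ^ (1 - δ) := by
  unfold Nn
  exact Nat.floor_le (Real.rpow_nonneg (by linarith) _)

private lemma pow_le {T x : ℝ} (hT : 1 < T) (hx : 0 ≤ x) {m : ℕ} (hm : 1 ≤ m) :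
    (m : ℝ) ^ (-2 * (1 / 2 + x / Real.log T)) ≤ 1 / m := by
  have hL : 0 < Real.log T := Real.log_pos hT
  have hm1 : (1 : ℝ) ≤ m := by exact_mod_cast hm
  have h1 : (1 : ℝ) / m = (m : ℝ) ^ (-1 : ℝ) := by rw [Real.rpow_neg_one, one_div]
  rw [h1]
  apply Real.rpow_le_rpow_of_exponent_le hm1
  have : 0 ≤ x / Real.log T := by positivity
  linarith

end MeansAux

open MeansAux in
/-- MODULE ME1. Mean squares to the right of the critical line: `mv_line` with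
`σ = 1/2 + x/L`, `m^{-2σ} ≤ 1/m`, and `ca_sums`; `Am` is also taken at the shifted points. -/
theorem PA_mean : ∃ C : ℝ, 0 < C ∧ ∀ δ : ℝ, 0 < δ → δ ≤ 1 / 16 →
    ∀ᶠ n : ℕ in atTop, ∀ᶠ T : ℝ in atTop, ∀ x A B : ℝ, 0 ≤ x → 0 ≤ A → A ≤ B → B ≤ 4 * T →
      (∫ t in A..B, ‖Pl (am δ n T) (al T) (Nn δ T) (sw T t x) - Am δ n T (sw T t x)‖ ^ 2 ≤
        C * δ * T) ∧
      (∫ t in A..B, ‖Am δ n T (sw T t x)‖ ^ 2 ≤ C / δ * T) := by
  obtain ⟨C, hC, hca⟩ := ca_sums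
  refine ⟨5 * C, by positivity, fun δ hδ hδ1 => ?_⟩
  filter_upwards [hca δ hδ hδ1] with n hn
  filter_upwards [hn, mv_line (κ := 1 - δ) (by linarith) (by linarith), eventually_gt_atTop 1]
    with T hT hmv hT1 x A B hx hA hAB hB
  obtain ⟨_, h2, h3⟩ := hT
  have hT0 : 0 < T := by linarith
  have hN := Nn_le (δ := δ) hT1
  constructor
  · have e : ∀ t : ℝ, Pl (am δ n T) (al T) (Nn δ T) (sw T t x) - Am δ n T (sw T t x) =
        ∑ m ∈ Finset.Icc 1 (Nn δ T),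
          (ca (am δ n T) (al T) (Nn δ T) m - (am δ n T m : ℂ)) *
            (m : ℂ) ^ (-(pl (1 / 2 + x / Real.log T) t)) := by
      intro t
      rw [sw_eq, Pl, Am, Aa, ← Finset.sum_sub_distrib]
      refine Finset.sum_congr rfl fun m _ => ?_
      ring
    simp_rw [e]
    refine (hmv (Nn δ T) _ (1 / 2 + x / Real.log T) A B hN hAB (by linarith)).trans ?_
    calc 5 * T * ∑ m ∈ Finset.Icc 1 (Nn δ T),
          ‖ca (am δ n T) (al T) (Nn δ T) m - (am δ n T m : ℂ)‖ ^ 2 *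
            (m : ℝ) ^ (-2 * (1 / 2 + x / Real.log T))
        ≤ 5 * T * ∑ m ∈ Finset.Icc 1 (Nn δ T),
          ‖ca (am δ n T) (al T) (Nn δ T) m - (am δ n T m : ℂ)‖ ^ 2 / m := by
          apply mul_le_mul_of_nonneg_left _ (by positivity)
          refine Finset.sum_le_sum fun m hm => ?_
          exact (mul_le_mul_of_nonneg_left (pow_le hT1 hx (Finset.mem_Icc.1 hm).1)
            (by positivity)).trans (le_of_eq (mul_one_div _ _))
      _ ≤ 5 * T * (C * δ) := mul_le_mul_of_nonneg_left h3 (by positivity)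
      _ = 5 * C * δ * T := by ring
  · have e : ∀ t : ℝ, Am δ n T (sw T t x) =
        ∑ m ∈ Finset.Icc 1 (Nn δ T), ((fun m => (am δ n T m : ℂ)) m) *
            (m : ℂ) ^ (-(pl (1 / 2 + x / Real.log T) t)) := by
      intro t
      rw [sw_eq, Am, Aa]
    simp_rw [e]
    refine (hmv (Nn δ T) _ (1 / 2 + x / Real.log T) A B hN hAB (by linarith)).trans ?_
    calc 5 * T * ∑ m ∈ Finset.Icc 1 (Nn δ T),
          ‖(am δ n T m : ℂ)‖ ^ 2 * (m : ℝ) ^ (-2 * (1 / 2 + x / Real.log T))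
        ≤ 5 * T * ∑ m ∈ Finset.Icc 1 (Nn δ T), ‖(am δ n T m : ℂ)‖ ^ 2 / m := by
          apply mul_le_mul_of_nonneg_left _ (by positivity)
          refine Finset.sum_le_sum fun m hm => ?_
          exact (mul_le_mul_of_nonneg_left (pow_le hT1 hx (Finset.mem_Icc.1 hm).1)
            (by positivity)).trans (le_of_eq (mul_one_div _ _))
      _ ≤ 5 * T * (C / δ) := mul_le_mul_of_nonneg_left h2 (by positivity)
      _ = 5 * C / δ * T := by ring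

namespace MeansAux

private lemma pow_le' {T x δ M : ℝ} (hT : 1 < T) (hx : 0 ≤ x) (hδ : 0 < δ) (hM : 0 < M) {m : ℕ}
    (hm : 1 ≤ m) :
    (M ^ (-(1 / δ / Real.log T))) ^ 2 *
      (m : ℝ) ^ (-2 * (1 / 2 + (x - 1 / δ) / Real.log T)) ≤
      1 / m * ((m : ℝ) / M) ^ (2 / (δ * Real.log T)) := by
  have hL : 0 < Real.log T := Real.log_pos hT
  have hm1 : (1 : ℝ) ≤ m := by exact_mod_cast hm
  have hm0 : (0 : ℝ) < m := by linarith
  have e1 : (M ^ (-(1 / δ / Real.log T))) ^ 2 = (M ^ (2 / (δ * Real.log T)))⁻¹ := by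
    rw [← Real.rpow_natCast, ← Real.rpow_mul hM.le, ← Real.rpow_neg hM.le]
    congr 1
    push_cast
    field_simp
  have e2 : (m : ℝ) ^ (-2 * (1 / 2 + (x - 1 / δ) / Real.log T)) =
      (m : ℝ) ^ (-2 * (1 / 2 + x / Real.log T)) * (m : ℝ) ^ (2 / (δ * Real.log T)) := by
    rw [← Real.rpow_add hm0]
    congr 1
    field_simp
    ring
  rw [e1, e2, Real.div_rpow hm0.le hM.le]
  have h1 := pow_le hT hx hm
  have h2 : 0 ≤ (m : ℝ) ^ (2 / (δ * Real.log T)) := by positivity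
  have h3 : 0 < M ^ (2 / (δ * Real.log T)) := Real.rpow_pos_of_pos hM _
  calc (M ^ (2 / (δ * Real.log T)))⁻¹ * ((m : ℝ) ^ (-2 * (1 / 2 + x / Real.log T)) *
        (m : ℝ) ^ (2 / (δ * Real.log T)))
      = (m : ℝ) ^ (-2 * (1 / 2 + x / Real.log T)) *
        ((m : ℝ) ^ (2 / (δ * Real.log T)) / M ^ (2 / (δ * Real.log T))) := by
        rw [div_eq_mul_inv]; ring
    _ ≤ 1 / m * ((m : ℝ) ^ (2 / (δ * Real.log T)) / M ^ (2 / (δ * Real.log T))) :=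
        mul_le_mul_of_nonneg_right h1 (by positivity)

/-- The common part of the two edge terms. -/
private lemma edge_one {T δ C x A B : ℝ} {N : ℕ} (c : ℕ → ℂ) (hT1 : 1 < T) (hδ : 0 < δ)
    (hx : 0 ≤ x) (hAB : A ≤ B) (hBA : B - A ≤ 4 * T) (hN : (N : ℝ) ≤ T ^ (1 - δ))
    (hmv : ∀ (N : ℕ) (c : ℕ → ℂ) (σ A B : ℝ), (N : ℝ) ≤ T ^ (1 - δ) → A ≤ B → B - A ≤ 4 * T →
      ∫ t in A..B, ‖∑ m ∈ Finset.Icc 1 N, c m * (m : ℂ) ^ (-(pl σ t))‖ ^ 2 ≤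
        5 * T * ∑ m ∈ Finset.Icc 1 N, ‖c m‖ ^ 2 * (m : ℝ) ^ (-2 * σ))
    (hsum : ∑ m ∈ Finset.Icc 1 N, ‖c m‖ ^ 2 / m *
      ((m : ℝ) / ((N : ℝ) + 1 / 2)) ^ (2 / (δ * Real.log T)) ≤ C) :
    ∫ t in A..B, (((N : ℝ) + 1 / 2) ^ (-(1 / δ / Real.log T)) *
      ‖∑ m ∈ Finset.Icc 1 N, c m *
        (m : ℂ) ^ (-(pl (1 / 2 + (x - 1 / δ) / Real.log T) t))‖) ^ 2 ≤ 5 * C * T := by
  have hM : (0 : ℝ) < (N : ℝ) + 1 / 2 := by positivity
  have hT0 : 0 < T := by linarith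
  simp_rw [mul_pow]
  rw [intervalIntegral.integral_const_mul]
  have h1 := hmv N c (1 / 2 + (x - 1 / δ) / Real.log T) A B hN hAB hBA
  calc (((N : ℝ) + 1 / 2) ^ (-(1 / δ / Real.log T))) ^ 2 *
        ∫ t in A..B, ‖∑ m ∈ Finset.Icc 1 N, c m *
          (m : ℂ) ^ (-(pl (1 / 2 + (x - 1 / δ) / Real.log T) t))‖ ^ 2
      ≤ (((N : ℝ) + 1 / 2) ^ (-(1 / δ / Real.log T))) ^ 2 *
        (5 * T * ∑ m ∈ Finset.Icc 1 N, ‖c m‖ ^ 2 *
          (m : ℝ) ^ (-2 * (1 / 2 + (x - 1 / δ) / Real.log T))) :=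
        mul_le_mul_of_nonneg_left h1 (by positivity)
    _ = 5 * T * ∑ m ∈ Finset.Icc 1 N, ‖c m‖ ^ 2 *
        ((((N : ℝ) + 1 / 2) ^ (-(1 / δ / Real.log T))) ^ 2 *
          (m : ℝ) ^ (-2 * (1 / 2 + (x - 1 / δ) / Real.log T))) := by
        rw [mul_left_comm, Finset.mul_sum]
        congr 1
        refine Finset.sum_congr rfl fun m _ => ?_
        ring
    _ ≤ 5 * T * ∑ m ∈ Finset.Icc 1 N, ‖c m‖ ^ 2 / m *
        ((m : ℝ) / ((N : ℝ) + 1 / 2)) ^ (2 / (δ * Real.log T)) := by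
        apply mul_le_mul_of_nonneg_left _ (by positivity)
        refine Finset.sum_le_sum fun m hm => ?_
        rw [div_eq_mul_one_div (‖c m‖ ^ 2), mul_assoc (‖c m‖ ^ 2)]
        exact mul_le_mul_of_nonneg_left
          (pow_le' hT1 hx hδ hM (Finset.mem_Icc.1 hm).1) (by positivity)
    _ ≤ 5 * T * C := mul_le_mul_of_nonneg_left hsum (by positivity)
    _ = 5 * C * T := by ring

end MeansAux

open MeansAux in
/-- MODULE ME2. The edge terms at `x - 1/δ`: `m^{-2σ} = (1/m) m^{-2x/L} m^{2/(δL)}`. -/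
theorem edge_mean : ∃ C : ℝ, 0 < C ∧ ∀ δ : ℝ, 0 < δ → δ ≤ 1 / 16 →
    ∀ᶠ n : ℕ in atTop, ∀ᶠ T : ℝ in atTop, ∀ x A B : ℝ, 0 ≤ x → 0 ≤ A → A ≤ B → B ≤ 4 * T →
      (∫ t in A..B, (((Nn δ T : ℝ) + 1 / 2) ^ (-(1 / δ / Real.log T)) *
        ‖Pl (am δ n T) (al T) (Nn δ T) (sw T t ((x - 1 / δ : ℝ) : ℂ))‖) ^ 2 ≤ C * T) ∧
      (∫ t in A..B, (((Nn δ T : ℝ) + 1 / 2) ^ (-(1 / δ / Real.log T)) *
        ‖Am δ n T (sw T t ((x - 1 / δ : ℝ) : ℂ) + (al T : ℂ) * I)‖) ^ 2 ≤ C * T) := by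
  obtain ⟨C, hC, hca⟩ := ca_edge
  refine ⟨5 * C, by positivity, fun δ hδ hδ1 => ?_⟩
  filter_upwards [hca δ hδ hδ1] with n hn
  filter_upwards [hn, mv_line (κ := 1 - δ) (by linarith) (by linarith), eventually_gt_atTop 1]
    with T hT hmv hT1 x A B hx hA hAB hB
  obtain ⟨h2, h3⟩ := hT
  have hN := Nn_le (δ := δ) hT1
  constructor
  · have e : ∀ t : ℝ, Pl (am δ n T) (al T) (Nn δ T) (sw T t ((x - 1 / δ : ℝ) : ℂ)) =
        ∑ m ∈ Finset.Icc 1 (Nn δ T), ca (am δ n T) (al T) (Nn δ T) m *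
            (m : ℂ) ^ (-(pl (1 / 2 + (x - 1 / δ) / Real.log T) t)) := by
      intro t
      rw [sw_eq, Pl]
    simp_rw [e]
    exact edge_one _ hT1 hδ hx hAB (by linarith) hN hmv h2
  · have e : ∀ t : ℝ, Am δ n T (sw T t ((x - 1 / δ : ℝ) : ℂ) + (al T : ℂ) * I) =
        ∑ m ∈ Finset.Icc 1 (Nn δ T), ((fun m => (am δ n T m : ℂ)) m) *
            (m : ℂ) ^ (-(pl (1 / 2 + (x - 1 / δ) / Real.log T) (t + al T))) := by
      intro t
      rw [sw_eq', Am, Aa]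
    simp_rw [e]
    have h := edge_one (A := A + al T) (B := B + al T) (fun m => (am δ n T m : ℂ)) hT1 hδ hx
      (by linarith) (by linarith) hN hmv h3
    rw [← intervalIntegral.integral_comp_add_right] at h
    exact h

end Pool.Agent.MP_67227b_nt.Ah
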