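import Pool.Agent.MP_67227b_nt.Ah.AhBox
import Pool.Agent.MP_67227b_nt.Ah.AhMeans
import Pool.Agent.MP_67227b_nt.Pp.PpT0

set_option autoImplicit false

open Filter Topology Set MeasureTheory Complex
open scoped Real ArithmeticFunction ContDiff

namespace Pool.Agent.MP_67227b_nt.Ah

open Pool.Agent.Lib.ZetaCount_helper33 Pool.Agent.MP_67227b_nt Pool.Agent.MP_67227b_nt.Mo
open Pool.Agent.MP_67227b_nt.Sg Pool.Agent.MP_67227b_nt.Pp
open Pool.Agent.MP_67227b_nt.Mo.MomentBAux (DP)


private theorem EVA_wint {R : ℝ} (hR : 0 < R) :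
    Integrable (fun y : ℝ => 1 / (1 + (y / R) ^ 2)) := by
  have h := integrable_inv_one_add_sq.comp_div hR.ne'
  refine h.congr (Eventually.of_forall fun y => ?_)
  simp

private theorem EVA_wtot {R : ℝ} (hR : 0 < R) :
    ∫ y : ℝ, 1 / (1 + (y / R) ^ 2) = R * π := by
  have h := Measure.integral_comp_div (fun y : ℝ => (1 + y ^ 2)⁻¹) R
  rw [integral_univ_inv_one_add_sq, abs_of_pos hR, smul_eq_mul] at h
  rw [← h]
  simp

private theorem EVA_wmid {R : ℝ} (hR : 0 < R) (Y : ℝ) :
    ∫ y in (-Y)..Y, 1 / (1 + (y / R) ^ 2) = R * (2 * Real.arctan (Y / R)) := by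
  have h := intervalIntegral.integral_comp_div (fun y : ℝ => (1 + y ^ 2)⁻¹) hR.ne' (a := -Y) (b := Y)
  rw [integral_inv_one_add_sq, smul_eq_mul, neg_div, Real.arctan_neg] at h
  simp only [one_div]
  rw [h]
  ring

private theorem EVA_wtail {R Y : ℝ} (hR : 0 < R) (hY : 0 < Y) :
    R * π - R * (2 * Real.arctan (Y / R)) ≤ 2 * R ^ 2 / Y := by
  have h1 : Real.arctan (Y / R) = π / 2 - Real.arctan (R / Y) := by
    have h := Real.arctan_inv_of_pos (show 0 < R / Y by positivity)
    rwa [inv_div] at h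
  have h2 : Real.arctan (R / Y) ≤ R / Y := by
    have h3 : 0 < R / Y := by positivity
    have h4 := Real.le_tan (Real.arctan_pos.2 h3).le (Real.arctan_lt_pi_div_two (R / Y))
    rwa [Real.tan_arctan] at h4
  rw [h1]
  calc R * π - R * (2 * (π / 2 - Real.arctan (R / Y))) = 2 * R * Real.arctan (R / Y) := by ring
    _ ≤ 2 * R * (R / Y) := by gcongr
    _ = 2 * R ^ 2 / Y := by ring

private theorem EVA_int {φ : ℝ → ℝ} {B R : ℝ} (hφ : Continuous φ) (h0 : ∀ u, 0 ≤ φ u)
    (hB : ∀ u, φ u ≤ B) (hR : 0 < R) (L t : ℝ) :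
    Integrable (fun y : ℝ => φ (t + y / L) / (1 + (y / R) ^ 2)) := by
  have h := (EVA_wint hR).bdd_mul (c := B) (f := fun y : ℝ => φ (t + y / L))
    (by
      apply Continuous.aestronglyMeasurable
      fun_prop)
    (Eventually.of_forall fun y => by
      rw [Real.norm_of_nonneg (h0 _)]
      exact hB _)
  refine h.congr (Eventually.of_forall fun y => ?_)
  simp [div_eq_mul_inv]

private theorem EVA_split {φ : ℝ → ℝ} {B R Y : ℝ} (hφ : Continuous φ) (h0 : ∀ u, 0 ≤ φ u)
    (hB : ∀ u, φ u ≤ B) (hR : 0 < R) (hY : 0 < Y) (L t : ℝ) :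
    ∫ y : ℝ, φ (t + y / L) / (1 + (y / R) ^ 2) ≤
      (∫ y in (-Y)..Y, φ (t + y / L) / (1 + (y / R) ^ 2)) + B * (2 * R ^ 2 / Y) := by
  have hB0 : 0 ≤ B := (h0 0).trans (hB 0)
  have hi := EVA_int hφ h0 hB hR L t
  have hm : MeasurableSet (Ioc (-Y) Y) := measurableSet_Ioc
  have h1 := integral_add_compl hm hi
  have h2 := integral_add_compl hm (EVA_wint hR)
  rw [EVA_wtot hR, ← intervalIntegral.integral_of_le (by linarith), EVA_wmid hR] at h2
  rw [← intervalIntegral.integral_of_le (by linarith)] at h1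
  rw [← h1]
  have h3 : ∫ y in (Ioc (-Y) Y)ᶜ, φ (t + y / L) / (1 + (y / R) ^ 2) ≤
      B * ∫ y in (Ioc (-Y) Y)ᶜ, 1 / (1 + (y / R) ^ 2) := by
    rw [← integral_const_mul]
    apply integral_mono hi.integrableOn ((EVA_wint hR).integrableOn.const_mul B)
    intro y
    simp only
    rw [div_eq_mul_one_div]
    exact mul_le_mul_of_nonneg_right (hB _) (by positivity)
  have h4 : ∫ y in (Ioc (-Y) Y)ᶜ, 1 / (1 + (y / R) ^ 2) ≤ 2 * R ^ 2 / Y := by
    have := EVA_wtail hR hY
    linarith
  have h5 := mul_le_mul_of_nonneg_left h4 hB0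
  linarith

private theorem EVA_cont {φ : ℝ → ℝ} {R : ℝ} (hφ : Continuous φ) (L Y : ℝ) :
    Continuous (fun t : ℝ => ∫ y in (-Y)..Y, φ (t + y / L) / (1 + (y / R) ^ 2)) := by
  apply intervalIntegral.continuous_parametric_intervalIntegral_of_continuous'
  apply Continuous.div
  · show Continuous fun p : ℝ × ℝ => φ (p.1 + p.2 / L)
    fun_prop
  · show Continuous fun p : ℝ × ℝ => 1 + (p.2 / R) ^ 2
    fun_prop
  · intro p
    positivity

private theorem EVA_near {φ : ℝ → ℝ} {R L T s : ℝ} (hφ : Continuous φ) (h0 : ∀ u, 0 ≤ φ u)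
    (hR : 0 < R) (hL : 0 < L) (hT : 0 < T) (hs : 0 < s)
    (hC : ∫ u in (T / 4)..(4 * T), φ u ^ 2 ≤ s ^ 2 * T) :
    ∫ t in (T / 2)..T, ∫ y in (-(L * T / 4))..(L * T / 4), φ (t + y / L) / (1 + (y / R) ^ 2) ≤
      R * π * (4 * s * T) := by
  set Y : ℝ := L * T / 4 with hY
  have hY0 : 0 < Y := by positivity
  have hcont : Continuous (Function.uncurry fun t y : ℝ => φ (t + y / L) / (1 + (y / R) ^ 2)) := by
    apply Continuous.div
    · show Continuous fun p : ℝ × ℝ => φ (p.1 + p.2 / L)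
      fun_prop
    · show Continuous fun p : ℝ × ℝ => 1 + (p.2 / R) ^ 2
      fun_prop
    · intro p
      positivity
  rw [intervalIntegral_intervalIntegral_swap]
  rotate_left
  · apply (hcont.continuousOn (s := uIcc (T / 2) T ×ˢ uIcc (-Y) Y)).integrableOn_compact
      (isCompact_uIcc.prod isCompact_uIcc) |>.mono_set
    exact prod_mono uIoc_subset_uIcc uIoc_subset_uIcc
  have h1 : ∀ y ∈ Icc (-Y) Y, ∫ t in (T / 2)..T, φ (t + y / L) / (1 + (y / R) ^ 2) ≤
      4 * s * T * (1 / (1 + (y / R) ^ 2)) := by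
    intro y hy
    rw [intervalIntegral.integral_div, div_eq_mul_one_div]
    apply mul_le_mul_of_nonneg_right _ (by positivity)
    rw [intervalIntegral.integral_comp_add_right (fun u => φ u)]
    have hy1 : -(T / 4) ≤ y / L := by
      rw [le_div_iff₀ hL]
      have := hy.1
      rw [hY] at this
      linarith
    have hy2 : y / L ≤ T / 4 := by
      rw [div_le_iff₀ hL]
      have := hy.2
      rw [hY] at this
      linarith
    calc ∫ u in (T / 2 + y / L)..(T + y / L), φ u ≤ ∫ u in (T / 4)..(4 * T), φ u := by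
          apply intervalIntegral.integral_mono_interval
          · linarith
          · linarith
          · linarith
          · exact Eventually.of_forall fun u => h0 u
          · exact hφ.intervalIntegrable _ _
      _ ≤ ∫ u in (T / 4)..(4 * T), (s / 2 + φ u ^ 2 / (2 * s)) := by
          apply intervalIntegral.integral_mono_on (by linarith) (hφ.intervalIntegrable _ _)
          · apply Continuous.intervalIntegrable
            fun_prop
          · intro u _
            have h2 : s / 2 + φ u ^ 2 / (2 * s) - φ u = (s - φ u) ^ 2 / (2 * s) := by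
              field_simp
              ring
            have h3 : 0 ≤ (s - φ u) ^ 2 / (2 * s) := by positivity
            linarith
      _ = (4 * T - T / 4) * (s / 2) + (∫ u in (T / 4)..(4 * T), φ u ^ 2) / (2 * s) := by
          rw [intervalIntegral.integral_add, intervalIntegral.integral_const,
            intervalIntegral.integral_div, smul_eq_mul]
          · apply Continuous.intervalIntegrable
            fun_prop
          · apply Continuous.intervalIntegrable
            fun_prop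
      _ ≤ (4 * T - T / 4) * (s / 2) + (s ^ 2 * T) / (2 * s) := by gcongr
      _ = (4 * T - T / 4) * (s / 2) + s * T / 2 := by
          congr 1
          field_simp
      _ ≤ 4 * s * T := by nlinarith [mul_pos hs hT]
  calc ∫ y in (-Y)..Y, ∫ t in (T / 2)..T, φ (t + y / L) / (1 + (y / R) ^ 2)
      ≤ ∫ y in (-Y)..Y, 4 * s * T * (1 / (1 + (y / R) ^ 2)) := by
        apply intervalIntegral.integral_mono_on (by linarith)
        · apply Continuous.intervalIntegrable
          apply intervalIntegral.continuous_parametric_intervalIntegral_of_continuous'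
          apply Continuous.div
          · show Continuous fun p : ℝ × ℝ => φ (p.2 + p.1 / L)
            fun_prop
          · show Continuous fun p : ℝ × ℝ => 1 + (p.1 / R) ^ 2
            fun_prop
          · intro p
            positivity
        · apply Continuous.intervalIntegrable
          apply Continuous.mul continuous_const
          apply Continuous.div continuous_const (by fun_prop)
          intro y
          positivity
        · exact h1
    _ = 4 * s * T * (R * (2 * Real.arctan (Y / R))) := by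
        rw [intervalIntegral.integral_const_mul, EVA_wmid hR]
    _ ≤ 4 * s * T * (R * π) := by
        have := Real.arctan_lt_pi_div_two (Y / R)
        gcongr
        linarith
    _ = R * π * (4 * s * T) := by ring

private theorem EVA_bd {δ T : ℝ} (hT : 1 ≤ T) (hδ : 0 < δ) {n : ℕ} (u : ℝ) :
    ‖Am δ n T (sw T u 2)‖ ≤ Real.exp ⌈1 / δ⌉₊ * T := by
  have hre : 0 ≤ (sw T u 2).re := by
    have hL : 0 ≤ Real.log T := Real.log_nonneg hT
    unfold sw
    have h1 : ((2 : ℂ) / (Real.log T : ℂ)).re = 2 / Real.log T := by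
      rw [show (2 : ℂ) / (Real.log T : ℂ) = ((2 / Real.log T : ℝ) : ℂ) by push_cast; ring,
        Complex.ofReal_re]
    simp only [add_re, h1, mul_re, ofReal_re, I_re, ofReal_im, I_im]
    have h2 : 0 ≤ 2 / Real.log T := by positivity
    norm_num
    linarith
  unfold Am Aa
  calc ‖∑ m ∈ Finset.Icc 1 (Nn δ T), ((am δ n T m : ℝ) : ℂ) * (m : ℂ) ^ (-(sw T u 2))‖
      ≤ ∑ m ∈ Finset.Icc 1 (Nn δ T), ‖((am δ n T m : ℝ) : ℂ) * (m : ℂ) ^ (-(sw T u 2))‖ :=
        norm_sum_le _ _
    _ ≤ ∑ m ∈ Finset.Icc 1 (Nn δ T), Real.exp ⌈1 / δ⌉₊ := by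
        apply Finset.sum_le_sum
        intro m hm
        have hm1 : 1 ≤ m := (Finset.mem_Icc.1 hm).1
        rw [norm_mul, Complex.norm_real, Real.norm_eq_abs,
          Complex.norm_natCast_cpow_of_pos (by omega)]
        have h1 : |am δ n T m| ≤ Real.exp ⌈1 / δ⌉₊ := by
          unfold am
          exact ap_bound (by positivity) _ _ _ _
        have h2 : (m : ℝ) ^ (-(sw T u 2)).re ≤ 1 := by
          apply Real.rpow_le_one_of_one_le_of_nonpos
          · exact_mod_cast hm1
          · rw [neg_re]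
            linarith
        calc |am δ n T m| * (m : ℝ) ^ (-(sw T u 2)).re ≤ Real.exp ⌈1 / δ⌉₊ * 1 := by
              gcongr
          _ = _ := mul_one _
    _ = (Nn δ T : ℝ) * Real.exp ⌈1 / δ⌉₊ := by
        rw [Finset.sum_const, Nat.card_Icc, nsmul_eq_mul]
        simp
    _ ≤ T * Real.exp ⌈1 / δ⌉₊ := by
        apply mul_le_mul_of_nonneg_right _ (Real.exp_pos _).le
        unfold Nn
        have h1 : (⌊T ^ (1 - δ)⌋₊ : ℝ) ≤ T ^ (1 - δ) := Nat.floor_le (by positivity)
        refine h1.trans ?_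
        calc T ^ (1 - δ) ≤ T ^ (1 : ℝ) := by
              apply Real.rpow_le_rpow_of_exponent_le hT
              linarith
          _ = T := Real.rpow_one T
    _ = Real.exp ⌈1 / δ⌉₊ * T := mul_comm _ _

/-- MODULE EVA. The weighted line integral at `Re w = 2`. Split at `|y| = L T/4`: the near part by
Fubini and `PA_mean` (`∫ ‖Am(sw T t 2)‖ dt ≤ √(C/δ) T`, `∫ dy/(1 + (y/2r^24)²) = 2π r^24`), Markov; the
far part is at most `∑ |am m| m^{-1/2} (2r^24)² ∫_{|y| > LT/4} dy/y² ≤ e^K 2 T^{1/2} C_r/(L T) → 0`. -/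
theorem A_event {ε : ℝ} (hε : 0 < ε) : ∃ r₀ : ℝ, 1 ≤ r₀ ∧ ∀ r : ℝ, r₀ ≤ r →
    ∀ᶠ n : ℕ in atTop, ∀ᶠ T : ℝ in atTop, volume.real {t ∈ Icc (T / 2) T | ¬
      (Integrable (fun y : ℝ => ‖Am (Real.exp (-r ^ 12)) n T (sw T t (2 + (y : ℂ) * I))‖ /
        (1 + (y / (2 * r ^ 24)) ^ 2)) ∧
      ∫ y : ℝ, ‖Am (Real.exp (-r ^ 12)) n T (sw T t (2 + (y : ℂ) * I))‖ /
        (1 + (y / (2 * r ^ 24)) ^ 2) ≤ Real.exp (r ^ 13))} ≤ ε * T := by
  obtain ⟨C, hC, hPA⟩ := PA_mean
  have hlim : Tendsto (fun r : ℝ => 16 * π * √C * (2 ^ 24 * ((r / 2) ^ 24 *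
      Real.exp (-(r / 2))))) atTop (𝓝 0) := by
    have h1 : Tendsto (fun r : ℝ => r / 2) atTop atTop :=
      tendsto_id.atTop_div_const (by norm_num)
    have h2 := (Real.tendsto_pow_mul_exp_neg_atTop_nhds_zero 24).comp h1
    have h3 := (h2.const_mul ((2 : ℝ) ^ 24)).const_mul (16 * π * √C)
    simpa using h3
  obtain ⟨r₁, hr₁⟩ := (hlim.eventually (gt_mem_nhds hε)).exists_forall_of_atTop
  refine ⟨max r₁ 4, le_trans (by norm_num) (le_max_right _ _), ?_⟩
  intro r hr
  have hr4 : 4 ≤ r := (le_max_right _ _).trans hr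
  have hsmall := hr₁ r ((le_max_left _ _).trans hr)
  have hr12 : r ≤ r ^ 12 := le_self_pow₀ (by linarith) (by norm_num)
  set δ : ℝ := Real.exp (-r ^ 12) with hδ
  have hδ0 : 0 < δ := Real.exp_pos _
  have hδ16 : δ ≤ 1 / 16 := by
    have h1 : Real.exp (-4) ≤ 1 / 16 := by
      rw [Real.exp_neg, one_div]
      apply inv_anti₀ (by norm_num)
      have h2 : (2 : ℝ) ≤ Real.exp 1 := by
        have := Real.add_one_le_exp (1 : ℝ)
        linarith
      calc (16 : ℝ) = 2 ^ 4 := by norm_num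
        _ ≤ Real.exp 1 ^ 4 := by gcongr
        _ = Real.exp 4 := by rw [← Real.exp_nat_mul]; norm_num
    exact (Real.exp_le_exp.2 (by linarith)).trans h1
  filter_upwards [hPA δ hδ0 hδ16] with n hn
  set R : ℝ := 2 * r ^ 24 with hR
  have hR0 : 0 < R := by positivity
  set K : ℕ := ⌈1 / δ⌉₊ with hK
  have hfar : ∀ᶠ T : ℝ in atTop, 8 * Real.exp K * R ^ 2 / Real.log T ≤ Real.exp (r ^ 13) / 2 := by
    have h1 : Tendsto (fun T : ℝ => 8 * Real.exp K * R ^ 2 / Real.log T) atTop (𝓝 0) :=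
      Real.tendsto_log_atTop.const_div_atTop _
    have h2 : (0 : ℝ) < Real.exp (r ^ 13) / 2 := by positivity
    filter_upwards [h1.eventually (gt_mem_nhds h2)] with T hT
    exact hT.le
  filter_upwards [hn, hfar, eventually_gt_atTop 1] with T hT hTf hT1
  have hL : 0 < Real.log T := Real.log_pos hT1
  have hT0 : 0 < T := by linarith
  set φ : ℝ → ℝ := fun u => ‖Am δ n T (sw T u 2)‖ with hφ
  have hφc : Continuous φ := by
    apply Continuous.norm
    unfold Am
    apply (continuous_Aa _ _).comp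
    unfold sw
    fun_prop
  have hφ0 : ∀ u, 0 ≤ φ u := fun u => norm_nonneg _
  have hφB : ∀ u, φ u ≤ Real.exp K * T := fun u => EVA_bd hT1.le hδ0 _
  have hsw : ∀ t y : ℝ, ‖Am δ n T (sw T t (2 + (y : ℂ) * I))‖ = φ (t + y / Real.log T) := by
    intro t y
    simp only [hφ]
    congr 2
    unfold sw
    push_cast
    ring
  simp only [hsw]
  set Y : ℝ := Real.log T * T / 4 with hY
  have hY0 : 0 < Y := by positivity
  have hsub : {t ∈ Icc (T / 2) T | ¬
      (Integrable (fun y : ℝ => φ (t + y / Real.log T) / (1 + (y / R) ^ 2)) ∧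
      ∫ y : ℝ, φ (t + y / Real.log T) / (1 + (y / R) ^ 2) ≤ Real.exp (r ^ 13))} ⊆
      {t ∈ Icc (T / 2) T | Real.exp (r ^ 13) / 2 <
        ∫ y in (-Y)..Y, φ (t + y / Real.log T) / (1 + (y / R) ^ 2)} := by
    rintro t ⟨ht, ht2⟩
    refine ⟨ht, ?_⟩
    by_contra hc
    push Not at hc
    apply ht2
    refine ⟨EVA_int hφc hφ0 hφB hR0 _ _, ?_⟩
    have h1 := EVA_split hφc hφ0 hφB hR0 hY0 (Real.log T) t
    have h2 : Real.exp K * T * (2 * R ^ 2 / Y) = 8 * Real.exp K * R ^ 2 / Real.log T := by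
      rw [hY]
      field_simp
      ring
    rw [h2] at h1
    linarith
  have hfin : volume {t ∈ Icc (T / 2) T | Real.exp (r ^ 13) / 2 <
        ∫ y in (-Y)..Y, φ (t + y / Real.log T) / (1 + (y / R) ^ 2)} ≠ ⊤ := by
    apply ne_top_of_le_ne_top _ (measure_mono (Set.sep_subset _ _))
    rw [Real.volume_Icc]
    exact ENNReal.ofReal_ne_top
  refine (measureReal_mono hsub hfin).trans ?_
  have hmk := markov_int (F := fun t => ∫ y in (-Y)..Y, φ (t + y / Real.log T) /
    (1 + (y / R) ^ 2)) (A := T / 2) (B := T) (lam := Real.exp (r ^ 13) / 2) (by linarith)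
    (by positivity) (EVA_cont hφc _ _).continuousOn (fun t _ => by
      apply intervalIntegral.integral_nonneg (by linarith)
      intro y _
      have := hφ0 (t + y / Real.log T)
      positivity)
  refine hmk.trans ?_
  have hmean := (hT 2 (T / 4) (4 * T) (by norm_num) (by linarith) (by linarith) le_rfl).2
  have hs0 : 0 < √(C / δ) := Real.sqrt_pos.2 (by positivity)
  have hnear := EVA_near (s := √(C / δ)) hφc hφ0 hR0 hL hT0 hs0 (by
    rw [Real.sq_sqrt (by positivity)]
    refine le_trans (le_of_eq ?_) hmean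
    simp only [hφ]
    norm_num)
  have h1 := div_le_div_of_nonneg_right hnear (show 0 ≤ Real.exp (r ^ 13) / 2 by positivity)
  refine h1.trans ?_
  have hsq : √(C / δ) = √C * Real.exp (r ^ 12 / 2) := by
    rw [Real.sqrt_div' _ hδ0.le, hδ, div_eq_mul_inv, ← Real.sqrt_inv, ← Real.exp_neg, neg_neg]
    congr 1
    rw [Real.exp_half]
  rw [hsq, hR]
  have h2 : Real.exp (r ^ 12 / 2) / Real.exp (r ^ 13) ≤ Real.exp (-(r / 2)) := by
    rw [← Real.exp_sub]
    apply Real.exp_le_exp.2
    have h3 : r ^ 12 * 4 ≤ r ^ 12 * r := by gcongr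
    have h4 : r ^ 13 = r ^ 12 * r := by ring
    rw [h4]
    linarith
  calc 2 * r ^ 24 * π * (4 * (√C * Real.exp (r ^ 12 / 2)) * T) / (Real.exp (r ^ 13) / 2)
      = 16 * π * √C * (2 ^ 24 * ((r / 2) ^ 24 * (Real.exp (r ^ 12 / 2) / Real.exp (r ^ 13)))) *
        T := by
        have := (Real.exp_pos (r ^ 13)).ne'
        field_simp
        ring
    _ ≤ 16 * π * √C * (2 ^ 24 * ((r / 2) ^ 24 * Real.exp (-(r / 2)))) * T := by gcongr
    _ ≤ ε * T := by
        apply mul_le_mul_of_nonneg_right _ hT0.le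
        exact hsmall.le

end Pool.Agent.MP_67227b_nt.Ah
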