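import Pool.Agent.MP_67227b_nt.Ah.AhDefs

set_option autoImplicit false

open Filter Topology Set MeasureTheory Complex
open scoped Real ArithmeticFunction ContDiff

namespace Pool.Agent.MP_67227b_nt.Ah

open Pool.Agent.Lib.ZetaCount_helper33 Pool.Agent.MP_67227b_nt Pool.Agent.MP_67227b_nt.Mo
open Pool.Agent.MP_67227b_nt.Sg Pool.Agent.MP_67227b_nt.Pp
open Pool.Agent.MP_67227b_nt.Mo.MomentBAux (DP)

/-- Cauchy's theorem for a rectangle. -/
theorem bd_zero {f : ℂ → ℂ} {a b c d : ℝ} (hab : a ≤ b) (hcd : c ≤ d)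
    (hf : DifferentiableOn ℂ f (Icc a b ×ℂ Icc c d)) : bd f a b c d = 0 := by
  have h := Complex.integral_boundary_rect_eq_zero_of_differentiableOn f ⟨a, c⟩ ⟨b, d⟩ (by
    show DifferentiableOn ℂ f (uIcc a b ×ℂ uIcc c d)
    rwa [uIcc_of_le hab, uIcc_of_le hcd])
  exact h

namespace AhRectAux

/-- the integral of `1/(s - z)` along a line, by a branch of the logarithm -/
private theorem seg {u v : ℂ} {p q : ℝ} {z : ℂ} (w : ℂ) (hw : w ≠ 0)
    (h : ∀ x ∈ uIcc p q, w * (u + x * v - z) ∈ slitPlane) :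
    ∫ x in p..q, v * (1 / (u + (x : ℂ) * v - z)) =
      Complex.log (w * (u + q * v - z)) - Complex.log (w * (u + p * v - z)) := by
  have hd : ∀ x ∈ uIcc p q, HasDerivAt (fun x : ℝ => Complex.log (w * (u + (x : ℂ) * v - z)))
      (v * (1 / (u + (x : ℂ) * v - z))) x := by
    intro x hx
    have h1 : HasDerivAt (fun x : ℝ => w * (u + (x : ℂ) * v - z)) (w * v) x := by
      have h2 : HasDerivAt (fun x : ℝ => (x : ℂ)) 1 x := Complex.ofRealCLM.hasDerivAt
      have h3 := (((h2.mul_const v).const_add u).sub_const z).const_mul w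
      simpa using h3
    have h4 := h1.clog_real (h x hx)
    have h5 : u + (x : ℂ) * v - z ≠ 0 := by
      intro h6
      have := h x hx
      rw [h6, mul_zero] at this
      exact Complex.slitPlane_ne_zero this rfl
    have h6 : v * (1 / (u + (x : ℂ) * v - z)) = w * v / (w * (u + (x : ℂ) * v - z)) := by
      field_simp
    rw [h6]
    exact h4
  refine intervalIntegral.integral_eq_sub_of_hasDerivAt hd ?_
  refine ContinuousOn.intervalIntegrable ?_
  refine continuousOn_const.mul (ContinuousOn.div continuousOn_const ?_ ?_)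
  · fun_prop
  · intro x hx h6
    have := h x hx
    rw [h6, mul_zero] at this
    exact Complex.slitPlane_ne_zero this rfl

private theorem one {a b c d : ℝ} {z : ℂ} (h1 : a < z.re) (h2 : z.re < b)
    (h3 : c < z.im) (h4 : z.im < d) : bd (fun s => 1 / (s - z)) a b c d = 2 * π * I := by
  have e1 : ∫ x in a..b, (1 : ℂ) / ((x : ℂ) + c * I - z) =
      Complex.log ((b : ℂ) + c * I - z) - Complex.log ((a : ℂ) + c * I - z) := by
    have h := seg (u := c * I) (v := 1) (p := a) (q := b) (z := z) 1 one_ne_zero (by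
      intro x _
      rw [Complex.mem_slitPlane_iff]
      right
      simp
      linarith)
    simp only [one_mul, mul_one] at h
    rw [add_comm (b : ℂ), add_comm (a : ℂ), ← h]
    refine intervalIntegral.integral_congr fun x _ => ?_
    simp only [add_comm]
  have e2 : ∫ x in a..b, (1 : ℂ) / ((x : ℂ) + d * I - z) =
      Complex.log ((b : ℂ) + d * I - z) - Complex.log ((a : ℂ) + d * I - z) := by
    have h := seg (u := d * I) (v := 1) (p := a) (q := b) (z := z) 1 one_ne_zero (by
      intro x _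
      rw [Complex.mem_slitPlane_iff]
      right
      simp
      linarith)
    simp only [one_mul, mul_one] at h
    rw [add_comm (b : ℂ), add_comm (a : ℂ), ← h]
    refine intervalIntegral.integral_congr fun x _ => ?_
    simp only [add_comm]
  have e3 : I * ∫ y in c..d, (1 : ℂ) / ((b : ℂ) + y * I - z) =
      Complex.log ((b : ℂ) + d * I - z) - Complex.log ((b : ℂ) + c * I - z) := by
    have h := seg (u := b) (v := I) (p := c) (q := d) (z := z) 1 one_ne_zero (by
      intro x _
      rw [Complex.mem_slitPlane_iff]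
      left
      simp
      linarith)
    simp only [one_mul] at h
    rw [← h, ← intervalIntegral.integral_const_mul]
  have e4 : I * ∫ y in c..d, (1 : ℂ) / ((a : ℂ) + y * I - z) =
      Complex.log (-((a : ℂ) + d * I - z)) - Complex.log (-((a : ℂ) + c * I - z)) := by
    have h := seg (u := a) (v := I) (p := c) (q := d) (z := z) (-1) (by norm_num) (by
      intro x _
      rw [Complex.mem_slitPlane_iff]
      left
      simp
      linarith)
    simp only [neg_mul, one_mul] at h
    rw [← h, ← intervalIntegral.integral_const_mul]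
  have l1 : Complex.log (-((a : ℂ) + d * I - z)) = Complex.log ((a : ℂ) + d * I - z) - π * I := by
    unfold Complex.log
    rw [norm_neg, Complex.arg_neg_eq_arg_sub_pi_of_im_pos (by simp; linarith)]
    push_cast
    ring
  have l2 : Complex.log (-((a : ℂ) + c * I - z)) = Complex.log ((a : ℂ) + c * I - z) + π * I := by
    unfold Complex.log
    rw [norm_neg, Complex.arg_neg_eq_arg_add_pi_of_im_neg (by simp; linarith)]
    push_cast
    ring
  unfold bd
  rw [e1, e2, e3, e4, l1, l2]
  ring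

/-- the integral of `f(s)/(s - z)` along a line which does not contain `z` -/
private theorem side {f : ℂ → ℂ} {S : Set ℂ} {z : ℂ} (hz : S ∈ 𝓝 z) (hf : DifferentiableOn ℂ f S)
    {p q : ℝ} {g : ℝ → ℂ} (hg : Continuous g) (hS : ∀ x ∈ uIcc p q, g x ∈ S ∧ g x ≠ z) :
    ∫ x in p..q, f (g x) / (g x - z) = (∫ x in p..q, dslope f z (g x)) +
      f z * ∫ x in p..q, 1 / (g x - z) := by
  have hd : DifferentiableOn ℂ (dslope f z) S := (Complex.differentiableOn_dslope hz).2 hf
  have i1 : IntervalIntegrable (fun x => dslope f z (g x)) volume p q :=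
    (hd.continuousOn.comp hg.continuousOn fun x hx => (hS x hx).1).intervalIntegrable
  have i2 : IntervalIntegrable (fun x => f z * (1 / (g x - z))) volume p q := by
    refine ContinuousOn.intervalIntegrable (continuousOn_const.mul
      (ContinuousOn.div continuousOn_const (hg.sub continuous_const).continuousOn ?_))
    intro x hx
    exact sub_ne_zero.2 (hS x hx).2
  rw [← intervalIntegral.integral_const_mul, ← intervalIntegral.integral_add i1 i2]
  refine intervalIntegral.integral_congr fun x hx => ?_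
  have h1 := sub_ne_zero.2 (hS x hx).2
  rw [dslope_of_ne _ (hS x hx).2, slope_def_field]
  field_simp
  ring

end AhRectAux

/-- Cauchy's formula for a rectangle. -/
theorem bd_pole {f : ℂ → ℂ} {a b c d : ℝ} {z : ℂ} (h1 : a < z.re) (h2 : z.re < b)
    (h3 : c < z.im) (h4 : z.im < d) (hf : DifferentiableOn ℂ f (Icc a b ×ℂ Icc c d)) :
    bd (fun s => f s / (s - z)) a b c d = 2 * π * I * f z := by
  have hz : (Icc a b ×ℂ Icc c d) ∈ 𝓝 z := by
    have h5 : (Ioo a b ×ℂ Ioo c d) ∈ 𝓝 z := by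
      refine IsOpen.mem_nhds ?_ ⟨⟨h1, h2⟩, ⟨h3, h4⟩⟩
      exact isOpen_Ioo.reProdIm isOpen_Ioo
    refine Filter.mem_of_superset h5 ?_
    rintro s ⟨hs1, hs2⟩
    exact ⟨Ioo_subset_Icc_self hs1, Ioo_subset_Icc_self hs2⟩
  have hab : a ≤ b := (h1.trans h2).le
  have hcd : c ≤ d := (h3.trans h4).le
  have hd : DifferentiableOn ℂ (dslope f z) (Icc a b ×ℂ Icc c d) :=
    (Complex.differentiableOn_dslope hz).2 hf
  have key : bd (fun s => f s / (s - z)) a b c d = bd (dslope f z) a b c d +
      f z * bd (fun s => 1 / (s - z)) a b c d := by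
    have hx : ∀ y₀, y₀ ∈ Icc c d → y₀ ≠ z.im → ∀ x ∈ uIcc a b,
        ((x : ℂ) + y₀ * I) ∈ Icc a b ×ℂ Icc c d ∧ ((x : ℂ) + y₀ * I) ≠ z := by
      intro y₀ hy₀ hne x hx
      rw [uIcc_of_le hab] at hx
      refine ⟨?_, ?_⟩
      · rw [Complex.mem_reProdIm]
        simpa using ⟨hx, hy₀⟩
      · intro h
        apply hne
        rw [← h]
        simp
    have hy : ∀ x₀, x₀ ∈ Icc a b → x₀ ≠ z.re → ∀ y ∈ uIcc c d,
        ((x₀ : ℂ) + y * I) ∈ Icc a b ×ℂ Icc c d ∧ ((x₀ : ℂ) + y * I) ≠ z := by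
      intro x₀ hx₀ hne y hy
      rw [uIcc_of_le hcd] at hy
      refine ⟨?_, ?_⟩
      · rw [Complex.mem_reProdIm]
        simpa using ⟨hx₀, hy⟩
      · intro h
        apply hne
        rw [← h]
        simp
    unfold bd
    rw [AhRectAux.side hz hf (g := fun x : ℝ => (x : ℂ) + c * I) (by fun_prop)
        (hx c (left_mem_Icc.2 hcd) h3.ne),
      AhRectAux.side hz hf (g := fun x : ℝ => (x : ℂ) + d * I) (by fun_prop)
        (hx d (right_mem_Icc.2 hcd) h4.ne'),
      AhRectAux.side hz hf (g := fun y : ℝ => (b : ℂ) + y * I) (by fun_prop)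
        (hy b (right_mem_Icc.2 hab) h2.ne'),
      AhRectAux.side hz hf (g := fun y : ℝ => (a : ℂ) + y * I) (by fun_prop)
        (hy a (left_mem_Icc.2 hab) h1.ne)]
    ring
  rw [key, bd_zero hab hcd hd, AhRectAux.one h1 h2 h3 h4]
  ring

namespace AhRectAux

/-- the boundary integral is small -/
private theorem bd_le {f : ℂ → ℂ} {z : ℂ} {ρ h : ℝ} (h0 : 0 < h) (hh : h ≤ ρ)
    (hf : DifferentiableOn ℂ f
      (Icc (z.re - ρ) (z.re + ρ) ×ℂ Icc (z.im - ρ) (z.im + ρ))) {G : ℝ → ℝ → ℝ}
    (hG : Continuous (Function.uncurry G)) (hG0 : ∀ x y, 0 ≤ G x y)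
    (hGf : ∀ x ∈ Icc (z.re - ρ) (z.re + ρ), ∀ y ∈ Icc (z.im - ρ) (z.im + ρ),
      G x y = ‖f (x + y * I)‖) :
    h * (2 * π * ‖f z‖) ≤ (∫ x in (z.re - ρ)..(z.re + ρ), (G x (z.im - h) + G x (z.im + h))) +
      ∫ y in (z.im - ρ)..(z.im + ρ), (G (z.re + h) y + G (z.re - h) y) := by
  have hsub : (Icc (z.re - h) (z.re + h) ×ℂ Icc (z.im - h) (z.im + h)) ⊆
      (Icc (z.re - ρ) (z.re + ρ) ×ℂ Icc (z.im - ρ) (z.im + ρ)) := by
    rintro s ⟨hs1, hs2⟩
    exact ⟨⟨by linarith [hs1.1], by linarith [hs1.2]⟩, ⟨by linarith [hs2.1], by linarith [hs2.2]⟩⟩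
  have h1 := bd_pole (z := z) (a := z.re - h) (b := z.re + h) (c := z.im - h) (d := z.im + h)
    (by linarith) (by linarith) (by linarith) (by linarith) (hf.mono hsub)
  have h2 : ‖bd (fun s => f s / (s - z)) (z.re - h) (z.re + h) (z.im - h) (z.im + h)‖ =
      2 * π * ‖f z‖ := by
    rw [h1, norm_mul, norm_mul, norm_mul, Complex.norm_I, Complex.norm_real, Complex.norm_ofNat,
      Real.norm_of_nonneg Real.pi_pos.le, mul_one]
  have cG1 : ∀ y, Continuous fun x => G x y := fun y => by
    exact hG.comp (by fun_prop : Continuous fun x : ℝ => (x, y))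
  have cG2 : ∀ x, Continuous fun y => G x y := fun x => by
    exact hG.comp (by fun_prop : Continuous fun y : ℝ => (x, y))
  have hx : ∀ y₀, (y₀ = z.im - h ∨ y₀ = z.im + h) →
      h * ‖∫ x in (z.re - h)..(z.re + h), f ((x : ℂ) + y₀ * I) / ((x : ℂ) + y₀ * I - z)‖ ≤
        ∫ x in (z.re - ρ)..(z.re + ρ), G x y₀ := by
    intro y₀ hy₀
    have hy₁ : y₀ ∈ Icc (z.im - ρ) (z.im + ρ) := by
      rcases hy₀ with rfl | rfl <;> constructor <;> linarith
    have hle : ‖∫ x in (z.re - h)..(z.re + h), f ((x : ℂ) + y₀ * I) / ((x : ℂ) + y₀ * I - z)‖ ≤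
        ∫ x in (z.re - h)..(z.re + h), G x y₀ / h := by
      refine intervalIntegral.norm_integral_le_of_norm_le (by linarith) ?_
        (((cG1 y₀).div_const h).intervalIntegrable _ _)
      refine Eventually.of_forall fun x hx => ?_
      rw [norm_div, ← hGf x ⟨by linarith [hx.1], by linarith [hx.2]⟩ y₀ hy₁]
      refine div_le_div_of_nonneg_left (hG0 _ _) h0 ?_
      have h3 : |((x : ℂ) + y₀ * I - z).im| ≤ ‖(x : ℂ) + y₀ * I - z‖ := Complex.abs_im_le_norm _
      refine le_trans ?_ h3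
      rcases hy₀ with rfl | rfl
      · have : ((x : ℂ) + (z.im - h : ℝ) * I - z).im = -h := by simp
        rw [this, abs_neg, abs_of_pos h0]
      · have : ((x : ℂ) + (z.im + h : ℝ) * I - z).im = h := by simp
        rw [this, abs_of_pos h0]
    have hle2 : ∫ x in (z.re - h)..(z.re + h), G x y₀ ≤ ∫ x in (z.re - ρ)..(z.re + ρ), G x y₀ :=
      intervalIntegral.integral_mono_interval (by linarith) (by linarith) (by linarith)
        (Eventually.of_forall fun x => hG0 _ _) ((cG1 y₀).intervalIntegrable _ _)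
    rw [intervalIntegral.integral_div] at hle
    calc _ ≤ h * ((∫ x in (z.re - h)..(z.re + h), G x y₀) / h) :=
          mul_le_mul_of_nonneg_left hle h0.le
      _ = ∫ x in (z.re - h)..(z.re + h), G x y₀ := by field_simp
      _ ≤ _ := hle2
  have hy : ∀ x₀, (x₀ = z.re - h ∨ x₀ = z.re + h) →
      h * ‖∫ y in (z.im - h)..(z.im + h), f ((x₀ : ℂ) + y * I) / ((x₀ : ℂ) + y * I - z)‖ ≤
        ∫ y in (z.im - ρ)..(z.im + ρ), G x₀ y := by
    intro x₀ hx₀
    have hx₁ : x₀ ∈ Icc (z.re - ρ) (z.re + ρ) := by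
      rcases hx₀ with rfl | rfl <;> constructor <;> linarith
    have hle : ‖∫ y in (z.im - h)..(z.im + h), f ((x₀ : ℂ) + y * I) / ((x₀ : ℂ) + y * I - z)‖ ≤
        ∫ y in (z.im - h)..(z.im + h), G x₀ y / h := by
      refine intervalIntegral.norm_integral_le_of_norm_le (by linarith) ?_
        (((cG2 x₀).div_const h).intervalIntegrable _ _)
      refine Eventually.of_forall fun y hy => ?_
      rw [norm_div, ← hGf x₀ hx₁ y ⟨by linarith [hy.1], by linarith [hy.2]⟩]
      refine div_le_div_of_nonneg_left (hG0 _ _) h0 ?_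
      have h3 : |((x₀ : ℂ) + y * I - z).re| ≤ ‖(x₀ : ℂ) + y * I - z‖ := Complex.abs_re_le_norm _
      refine le_trans ?_ h3
      rcases hx₀ with rfl | rfl
      · have : (((z.re - h : ℝ) : ℂ) + y * I - z).re = -h := by simp
        rw [this, abs_neg, abs_of_pos h0]
      · have : (((z.re + h : ℝ) : ℂ) + y * I - z).re = h := by simp
        rw [this, abs_of_pos h0]
    have hle2 : ∫ y in (z.im - h)..(z.im + h), G x₀ y ≤ ∫ y in (z.im - ρ)..(z.im + ρ), G x₀ y :=
      intervalIntegral.integral_mono_interval (by linarith) (by linarith) (by linarith)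
        (Eventually.of_forall fun y => hG0 _ _) ((cG2 x₀).intervalIntegrable _ _)
    rw [intervalIntegral.integral_div] at hle
    calc _ ≤ h * ((∫ y in (z.im - h)..(z.im + h), G x₀ y) / h) :=
          mul_le_mul_of_nonneg_left hle h0.le
      _ = ∫ y in (z.im - h)..(z.im + h), G x₀ y := by field_simp
      _ ≤ _ := hle2
  rw [intervalIntegral.integral_add ((cG1 _).intervalIntegrable _ _)
    ((cG1 _).intervalIntegrable _ _), intervalIntegral.integral_add
    ((cG2 _).intervalIntegrable _ _) ((cG2 _).intervalIntegrable _ _), ← h2]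
  unfold bd
  have a1 := hx _ (Or.inl rfl)
  have a2 := hx _ (Or.inr rfl)
  have a3 := hy _ (Or.inl rfl)
  have a4 := hy _ (Or.inr rfl)
  set A1 := ∫ x in (z.re - h)..(z.re + h), f ((x : ℂ) + (z.im - h : ℝ) * I) /
    ((x : ℂ) + (z.im - h : ℝ) * I - z)
  set A2 := ∫ x in (z.re - h)..(z.re + h), f ((x : ℂ) + (z.im + h : ℝ) * I) /
    ((x : ℂ) + (z.im + h : ℝ) * I - z)
  set A3 := ∫ y in (z.im - h)..(z.im + h), f (((z.re - h : ℝ) : ℂ) + y * I) /
    (((z.re - h : ℝ) : ℂ) + y * I - z)
  set A4 := ∫ y in (z.im - h)..(z.im + h), f (((z.re + h : ℝ) : ℂ) + y * I) /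
    (((z.re + h : ℝ) : ℂ) + y * I - z)
  have h5 : ‖A1 - A2 + I * A4 - I * A3‖ ≤ ‖A1‖ + ‖A2‖ + ‖A4‖ + ‖A3‖ := by
    refine (norm_sub_le _ _).trans ?_
    rw [norm_mul, Complex.norm_I, one_mul]
    refine add_le_add ((norm_add_le _ _).trans ?_) le_rfl
    rw [norm_mul, Complex.norm_I, one_mul]
    exact add_le_add (norm_sub_le _ _) le_rfl
  have h6 := mul_le_mul_of_nonneg_left h5 h0.le
  linarith

end AhRectAux

/-- A mean value inequality. -/
theorem sub_mean {f : ℂ → ℂ} {z : ℂ} {ρ : ℝ} (hρ : 0 < ρ)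
    (hf : DifferentiableOn ℂ f
      (Icc (z.re - ρ) (z.re + ρ) ×ℂ Icc (z.im - ρ) (z.im + ρ))) :
    ‖f z‖ ≤ 4 / ρ ^ 2 * ∫ x in (z.re - ρ)..(z.re + ρ), ∫ y in (z.im - ρ)..(z.im + ρ),
      ‖f (x + y * I)‖ := by
  let P : ℝ → ℝ := fun x => max (z.re - ρ) (min (z.re + ρ) x)
  let Q : ℝ → ℝ := fun y => max (z.im - ρ) (min (z.im + ρ) y)
  have hP : Continuous P := by fun_prop
  have hQ : Continuous Q := by fun_prop
  have hPm : ∀ x, P x ∈ Icc (z.re - ρ) (z.re + ρ) := fun x =>
    ⟨le_max_left _ _, max_le (by linarith) (min_le_left _ _)⟩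
  have hQm : ∀ y, Q y ∈ Icc (z.im - ρ) (z.im + ρ) := fun x =>
    ⟨le_max_left _ _, max_le (by linarith) (min_le_left _ _)⟩
  have hPx : ∀ x ∈ Icc (z.re - ρ) (z.re + ρ), P x = x := fun x hx => by
    show max _ (min _ x) = x
    rw [min_eq_right hx.2, max_eq_right hx.1]
  have hQx : ∀ y ∈ Icc (z.im - ρ) (z.im + ρ), Q y = y := fun x hx => by
    show max _ (min _ x) = x
    rw [min_eq_right hx.2, max_eq_right hx.1]
  let G : ℝ → ℝ → ℝ := fun x y => ‖f (P x + Q y * I)‖
  have hG : Continuous (Function.uncurry G) := by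
    have h1 : Continuous fun p : ℝ × ℝ => ((P p.1 : ℂ) + Q p.2 * I) := by fun_prop
    have h2 : Continuous fun p : ℝ × ℝ => f ((P p.1 : ℂ) + Q p.2 * I) := by
      refine hf.continuousOn.comp_continuous h1 fun p => ?_
      rw [Complex.mem_reProdIm]
      have e1 : ((P p.1 : ℂ) + Q p.2 * I).re = P p.1 := by simp
      have e2 : ((P p.1 : ℂ) + Q p.2 * I).im = Q p.2 := by simp
      rw [e1, e2]
      exact ⟨hPm p.1, hQm p.2⟩
    exact h2.norm
  have hG0 : ∀ x y, 0 ≤ G x y := fun x y => norm_nonneg _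
  have hGf : ∀ x ∈ Icc (z.re - ρ) (z.re + ρ), ∀ y ∈ Icc (z.im - ρ) (z.im + ρ),
      G x y = ‖f (x + y * I)‖ := fun x hx y hy => by
    show ‖f (P x + Q y * I)‖ = _
    rw [hPx x hx, hQx y hy]
  have cG1 : ∀ y, Continuous fun x => G x y := fun y => by
    exact hG.comp (by fun_prop : Continuous fun x : ℝ => (x, y))
  have cG2 : ∀ x, Continuous fun y => G x y := fun x => by
    exact hG.comp (by fun_prop : Continuous fun y : ℝ => (x, y))
  -- integration over the half-side
  have hI : (∫ h in (0 : ℝ)..ρ, h * (2 * π * ‖f z‖)) ≤ ∫ h in (0 : ℝ)..ρ,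
      ((∫ x in (z.re - ρ)..(z.re + ρ), (G x (z.im - h) + G x (z.im + h))) +
      ∫ y in (z.im - ρ)..(z.im + ρ), (G (z.re + h) y + G (z.re - h) y)) := by
    refine intervalIntegral.integral_mono_on hρ.le ?_ ?_ ?_
    · exact (by fun_prop : Continuous fun h : ℝ => h * (2 * π * ‖f z‖)).intervalIntegrable _ _
    · refine Continuous.intervalIntegrable ?_ _ _
      refine Continuous.add ?_ ?_
      · refine intervalIntegral.continuous_parametric_intervalIntegral_of_continuous' ?_ _ _
        exact (hG.comp (by fun_prop : Continuous fun p : ℝ × ℝ => (p.2, z.im - p.1))).add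
          (hG.comp (by fun_prop : Continuous fun p : ℝ × ℝ => (p.2, z.im + p.1)))
      · refine intervalIntegral.continuous_parametric_intervalIntegral_of_continuous' ?_ _ _
        exact (hG.comp (by fun_prop : Continuous fun p : ℝ × ℝ => (z.re + p.1, p.2))).add
          (hG.comp (by fun_prop : Continuous fun p : ℝ × ℝ => (z.re - p.1, p.2)))
    · intro h hh
      rcases hh.1.eq_or_lt with h0 | h0
      · rw [← h0, zero_mul]
        refine add_nonneg ?_ ?_
        · exact intervalIntegral.integral_nonneg (by linarith) fun x _ =>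
            add_nonneg (hG0 _ _) (hG0 _ _)
        · exact intervalIntegral.integral_nonneg (by linarith) fun x _ =>
            add_nonneg (hG0 _ _) (hG0 _ _)
      · exact AhRectAux.bd_le h0 hh.2 hf hG hG0 hGf
  have hL : (∫ h in (0 : ℝ)..ρ, h * (2 * π * ‖f z‖)) = π * ρ ^ 2 * ‖f z‖ := by
    rw [intervalIntegral.integral_mul_const, integral_id]
    ring
  -- the two parts
  have hsplit : ∀ (F : ℝ → ℝ) (m : ℝ), Continuous F →
      ∫ h in (0 : ℝ)..ρ, (F (m - h) + F (m + h)) = ∫ y in (m - ρ)..(m + ρ), F y := by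
    intro F m hF
    have c1 : Continuous fun h : ℝ => F (m - h) := hF.comp (by fun_prop)
    have c2 : Continuous fun h : ℝ => F (m + h) := hF.comp (by fun_prop)
    rw [intervalIntegral.integral_add (c1.intervalIntegrable _ _) (c2.intervalIntegrable _ _)]
    rw [intervalIntegral.integral_comp_sub_left (fun y => F y) m,
      intervalIntegral.integral_comp_add_left (fun y => F y) m]
    rw [sub_zero, add_zero]
    exact intervalIntegral.integral_add_adjacent_intervals (hF.intervalIntegrable _ _)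
      (hF.intervalIntegrable _ _)
  have hswap : ∀ (F : ℝ → ℝ → ℝ) (a b c d : ℝ), Continuous (Function.uncurry F) →
      ∫ x in a..b, ∫ y in c..d, F x y = ∫ y in c..d, ∫ x in a..b, F x y := by
    intro F a b c d hF
    refine MeasureTheory.intervalIntegral_intervalIntegral_swap ?_
    refine IntegrableOn.mono_set (t := uIcc a b ×ˢ uIcc c d) ?_
      (prod_mono uIoc_subset_uIcc uIoc_subset_uIcc)
    exact hF.continuousOn.integrableOn_compact (isCompact_uIcc.prod isCompact_uIcc)
  have e1 : ∫ h in (0 : ℝ)..ρ, ∫ x in (z.re - ρ)..(z.re + ρ), (G x (z.im - h) + G x (z.im + h)) =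
      ∫ x in (z.re - ρ)..(z.re + ρ), ∫ y in (z.im - ρ)..(z.im + ρ), G x y := by
    rw [hswap (fun h x => G x (z.im - h) + G x (z.im + h)) _ _ _ _
      ((hG.comp (by fun_prop : Continuous fun p : ℝ × ℝ =>
      (p.2, z.im - p.1))).add (hG.comp (by fun_prop : Continuous fun p : ℝ × ℝ =>
      (p.2, z.im + p.1))))]
    refine intervalIntegral.integral_congr fun x _ => ?_
    exact hsplit (fun y => G x y) z.im (cG2 x)
  have e2 : ∫ h in (0 : ℝ)..ρ, ∫ y in (z.im - ρ)..(z.im + ρ), (G (z.re + h) y + G (z.re - h) y) =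
      ∫ x in (z.re - ρ)..(z.re + ρ), ∫ y in (z.im - ρ)..(z.im + ρ), G x y := by
    rw [hswap (fun h y => G (z.re + h) y + G (z.re - h) y) _ _ _ _
      ((hG.comp (by fun_prop : Continuous fun p : ℝ × ℝ =>
      (z.re + p.1, p.2))).add (hG.comp (by fun_prop : Continuous fun p : ℝ × ℝ =>
      (z.re - p.1, p.2)))), hswap G _ _ _ _ hG]
    refine intervalIntegral.integral_congr fun y _ => ?_
    rw [← hsplit (fun x => G x y) z.re (cG1 y)]
    refine intervalIntegral.integral_congr fun x _ => ?_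
    exact add_comm _ _
  have e3 : ∫ x in (z.re - ρ)..(z.re + ρ), ∫ y in (z.im - ρ)..(z.im + ρ), G x y =
      ∫ x in (z.re - ρ)..(z.re + ρ), ∫ y in (z.im - ρ)..(z.im + ρ), ‖f (x + y * I)‖ := by
    refine intervalIntegral.integral_congr fun x hx => ?_
    rw [uIcc_of_le (by linarith)] at hx
    refine intervalIntegral.integral_congr fun y hy => ?_
    rw [uIcc_of_le (by linarith)] at hy
    exact hGf x hx y hy
  rw [hL, intervalIntegral.integral_add, e1, e2, e3] at hI
  · have hpi := Real.pi_gt_three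
    have hnn : 0 ≤ ‖f z‖ := norm_nonneg _
    set J := ∫ x in (z.re - ρ)..(z.re + ρ), ∫ y in (z.im - ρ)..(z.im + ρ), ‖f (x + y * I)‖
    have hρ2 : 0 < ρ ^ 2 := by positivity
    rw [div_mul_eq_mul_div, le_div_iff₀ hρ2]
    nlinarith [mul_nonneg hρ2.le hnn, mul_nonneg (mul_nonneg hρ2.le hnn) (by linarith : 0 ≤ π - 3)]
  · refine Continuous.intervalIntegrable ?_ _ _
    refine intervalIntegral.continuous_parametric_intervalIntegral_of_continuous' ?_ _ _
    exact (hG.comp (by fun_prop : Continuous fun p : ℝ × ℝ => (p.2, z.im - p.1))).add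
      (hG.comp (by fun_prop : Continuous fun p : ℝ × ℝ => (p.2, z.im + p.1)))
  · refine Continuous.intervalIntegrable ?_ _ _
    refine intervalIntegral.continuous_parametric_intervalIntegral_of_continuous' ?_ _ _
    exact (hG.comp (by fun_prop : Continuous fun p : ℝ × ℝ => (z.re + p.1, p.2))).add
      (hG.comp (by fun_prop : Continuous fun p : ℝ × ℝ => (z.re - p.1, p.2)))

end Pool.Agent.MP_67227b_nt.Ah
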