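import Pool.Agent.MP_67227b_nt.Ah.AhDefs
import Pool.Agent.MP_67227b_nt.Sg.SgF

set_option autoImplicit false

open Filter Topology Set MeasureTheory Complex
open scoped Real ArithmeticFunction ContDiff

namespace Pool.Agent.MP_67227b_nt.Ah

open Pool.Agent.Lib.ZetaCount_helper33 Pool.Agent.MP_67227b_nt Pool.Agent.MP_67227b_nt.Mo
open Pool.Agent.MP_67227b_nt.Sg Pool.Agent.MP_67227b_nt.Pp
open Pool.Agent.MP_67227b_nt.Mo.MomentBAux (DP)

private lemma zm_ne_zero {s : ℂ} (ht : 0 < s.im) : s ≠ 0 := by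
  rintro rfl
  simp at ht

private lemma zm_ne_one {s : ℂ} (ht : 0 < s.im) : s ≠ 1 := by
  rintro rfl
  simp at ht

/-- the archimedean factor -/
private noncomputable def GG (s : ℂ) : ℂ := s * (1 - s) * Gammaℝ s

private lemma zm_logDeriv_Gammaℝ {s : ℂ} (hs : 0 < s.re) :
    DifferentiableAt ℂ Gammaℝ s ∧
    logDeriv Gammaℝ s = - (Real.log Real.pi : ℂ) / 2 + digamma (s / 2) / 2 := by
  have h0 : 0 < (s / 2).re := by
    have : (s / 2).re = s.re / 2 := by simp
    rw [this]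
    linarith
  have e : Gammaℝ = fun s : ℂ => exp (-(s / 2) * (Real.log Real.pi : ℂ)) * Gamma (s / 2) := by
    ext s
    rw [Gammaℝ_def, cpow_def_of_ne_zero (by exact_mod_cast Real.pi_ne_zero),
      ← ofReal_log Real.pi_pos.le]
    congr 2
    ring
  have h1 : HasDerivAt (fun s : ℂ => exp (-(s / 2) * (Real.log Real.pi : ℂ)))
      (exp (-(s / 2) * (Real.log Real.pi : ℂ)) * (-(1 / 2) * (Real.log Real.pi : ℂ))) s :=
    (((hasDerivAt_id s).div_const 2).neg.mul_const _).cexp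
  have h2 : HasDerivAt (fun s : ℂ => Gamma (s / 2)) (deriv Gamma (s / 2) * (1 / 2)) s := by
    have h3 : HasDerivAt Gamma (deriv Gamma (s / 2)) (s / 2) :=
      (differentiableAt_Gamma _ (ne_neg_nat h0)).hasDerivAt
    exact h3.comp s ((hasDerivAt_id s).div_const 2)
  have hG : Gamma (s / 2) ≠ 0 := Gamma_ne_zero_of_re_pos h0
  refine ⟨by rw [e]; exact (h1.mul h2).differentiableAt, ?_⟩
  rw [e, logDeriv_mul (f := fun s : ℂ => exp (-(s / 2) * (Real.log Real.pi : ℂ)))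
    (g := fun s : ℂ => Gamma (s / 2)) s (exp_ne_zero _) hG h1.differentiableAt
    h2.differentiableAt, logDeriv_apply, logDeriv_apply, h1.deriv, h2.deriv, mul_div_cancel_left₀ _ (exp_ne_zero _),
    digamma_def, logDeriv_apply]
  ring

private lemma GG_facts {s : ℂ} (hs0 : 0 < s.re) (ht : 0 < s.im) :
    DifferentiableAt ℂ GG s ∧ GG s ≠ 0 ∧ logDeriv GG s = archF s := by
  have h0 : s ≠ 0 := zm_ne_zero ht
  have h1 : s ≠ 1 := zm_ne_one ht
  have h1' : (1 : ℂ) - s ≠ 0 := sub_ne_zero.mpr h1.symm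
  have hGn : Gammaℝ s ≠ 0 := Gammaℝ_ne_zero_of_re_pos hs0
  have d1 : DifferentiableAt ℂ (fun s : ℂ => s) s := differentiableAt_id
  have d2 : DifferentiableAt ℂ (fun s : ℂ => 1 - s) s := (differentiableAt_const 1).sub d1
  obtain ⟨d3, hGl⟩ := zm_logDeriv_Gammaℝ hs0
  refine ⟨(d1.mul d2).mul d3, mul_ne_zero (mul_ne_zero h0 h1') hGn, ?_⟩
  have e : GG = fun s : ℂ => s * (1 - s) * Gammaℝ s := rfl
  rw [e, logDeriv_mul (f := fun s : ℂ => s * (1 - s)) (g := Gammaℝ) s
      (mul_ne_zero h0 h1') hGn (d1.mul d2) d3,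
    logDeriv_mul (f := fun s : ℂ => s) (g := fun s : ℂ => 1 - s) s h0 h1' d1 d2,
    hGl]
  have e3 : logDeriv (fun s : ℂ => s) s = s⁻¹ := by
    rw [logDeriv_apply, deriv_id'', one_div]
  have e4 : logDeriv (fun s : ℂ => 1 - s) s = (s - 1)⁻¹ := by
    have h5 : HasDerivAt (fun s : ℂ => 1 - s) (-1) s := (hasDerivAt_id s).const_sub 1
    rw [logDeriv_apply, h5.deriv, ← neg_sub s 1, neg_div_neg_eq, one_div]
  rw [e3, e4]
  unfold archF
  ring

private lemma GG_zeta {s : ℂ} (hs0 : 0 < s.re) (ht : 0 < s.im) : xi s = GG s * riemannZeta s :=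
  xi_eq' (zm_ne_zero ht) (zm_ne_one ht) (Gammaℝ_ne_zero_of_re_pos hs0)

/-- the derivative of `‖F‖²` in the horizontal direction -/
private lemma zm_deriv {F : ℂ → ℂ} {σ t : ℝ} (hF : DifferentiableAt ℂ F (pl σ t)) :
    HasDerivAt (fun σ : ℝ => ‖F (pl σ t)‖ ^ 2)
      (2 * ((starRingEnd ℂ) (F (pl σ t)) * deriv F (pl σ t)).re) σ := by
  have h1 : HasDerivAt (fun σ : ℝ => pl σ t) 1 σ := by
    have h6 : HasDerivAt (fun σ : ℝ => (σ : ℂ) + (t : ℂ) * I) 1 σ := by
      have := (hasDerivAt_id σ).ofReal_comp.add_const ((t : ℂ) * I)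
      simpa using this
    exact h6
  have h2 : HasDerivAt (fun σ : ℝ => F (pl σ t)) (deriv F (pl σ t) * 1) σ := hF.hasDerivAt.comp σ h1
  rw [mul_one] at h2
  have h3 := h2.norm_sq
  rw [Complex.inner, mul_comm (deriv F (pl σ t))] at h3
  exact h3

private lemma zm_re {z w : ℂ} (hz : z ≠ 0) :
    ((starRingEnd ℂ) z * w).re = ‖z‖ ^ 2 * (w / z).re := by
  have h1 : (starRingEnd ℂ) z * w = ((‖z‖ ^ 2 : ℝ) : ℂ) * (w / z) := by
    have h2 : ((‖z‖ ^ 2 : ℝ) : ℂ) = (starRingEnd ℂ) z * z := by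
      rw [Complex.conj_mul']
      push_cast
      rfl
    rw [h2]
    field_simp
  rw [h1, Complex.re_ofReal_mul]

private lemma zm_xi_mono (hRH : RiemannHypothesis) {b b' t : ℝ} (hb : 0 ≤ b) (hbb : b ≤ b') :
    ‖xi (pl (1 / 2 + b) t)‖ ≤ ‖xi (pl (1 / 2 + b') t)‖ := by
  have hm : MonotoneOn (fun σ : ℝ => ‖xi (pl σ t)‖ ^ 2) (Ici (1 / 2 : ℝ)) := by
    apply monotoneOn_of_deriv_nonneg (convex_Ici _)
    · intro σ _
      exact (zm_deriv (differentiable_xi _)).continuousAt.continuousWithinAt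
    · intro σ _
      exact (zm_deriv (differentiable_xi _)).differentiableAt.differentiableWithinAt
    · intro σ hσ
      rw [interior_Ici, mem_Ioi] at hσ
      rw [(zm_deriv (differentiable_xi (pl σ t))).deriv]
      by_cases h0 : xi (pl σ t) = 0
      · rw [h0]
        simp
      · rw [zm_re h0]
        have h1 := hasSum_reF hRH (b := σ - 1 / 2) (by linarith) t
        rw [show 1 / 2 + (σ - 1 / 2) = σ by ring] at h1
        have h2 : 0 ≤ (logDeriv xi (pl σ t)).re := by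
          refine h1.nonneg fun z => ?_
          have : 0 ≤ σ - 1 / 2 := by linarith
          exact mul_nonneg (mu_nonneg z) (div_nonneg this (by positivity))
        rw [logDeriv_apply] at h2
        positivity
  have h1 := hm (a := 1 / 2 + b) (b := 1 / 2 + b') (by simpa using hb)
    (by simpa using hb.trans hbb) (by linarith)
  exact (sq_le_sq₀ (norm_nonneg _) (norm_nonneg _)).1 h1

private lemma zm_xi_symm {b t : ℝ} (hb : 0 ≤ b) (ht : 0 < t) :
    ‖xi (pl (1 / 2 - b) t)‖ = ‖xi (pl (1 / 2 + b) t)‖ := by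
  have e1 : pl (1 / 2 - b) t = 1 - (starRingEnd ℂ) (pl (1 / 2 + b) t) := by
    unfold pl
    apply Complex.ext
    · simp
      ring
    · simp
  rw [e1, xi_one_sub]
  set s := pl (1 / 2 + b) t with hs
  have hre : 0 < s.re := by rw [hs, pl_re]; positivity
  have him : 0 < s.im := by rw [hs, pl_im]; exact ht
  have hre' : 0 < ((starRingEnd ℂ) s).re := by rw [Complex.conj_re]; exact hre
  have n0 : (starRingEnd ℂ) s ≠ 0 := by
    intro h
    rw [h] at hre'
    simp at hre'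
  have n1 : (starRingEnd ℂ) s ≠ 1 := by
    intro h
    have := congrArg Complex.im h
    rw [Complex.conj_im, Complex.one_im] at this
    linarith
  rw [xi_eq' n0 n1 (Gammaℝ_ne_zero_of_re_pos hre'), xi_eq' (zm_ne_zero him) (zm_ne_one him)
    (Gammaℝ_ne_zero_of_re_pos hre), riemannZeta_conj]
  have e2 : (1 : ℂ) - (starRingEnd ℂ) s = (starRingEnd ℂ) (1 - s) := by simp
  have e3 : (starRingEnd ℂ) s / 2 = (starRingEnd ℂ) (s / 2) := by
    rw [map_div₀, Complex.conj_ofNat]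
  rw [norm_mul, norm_mul, norm_mul, norm_mul, norm_mul, norm_mul, norm_Gammaℝ, norm_Gammaℝ, e2, e3,
    Complex.Gamma_conj, Complex.norm_conj, Complex.norm_conj, Complex.norm_conj, Complex.norm_conj,
    Complex.conj_re]

private lemma zm_GG {σ σ' t K : ℝ} (hσ : 0 < σ) (hσσ : σ ≤ σ') (ht : 0 < t)
    (hK : ∀ u ∈ Icc σ σ', (archF (pl u t)).re ≤ K) :
    ‖GG (pl σ' t)‖ ≤ Real.exp (K * (σ' - σ)) * ‖GG (pl σ t)‖ := by
  have hd : ∀ u ∈ Icc σ σ', HasDerivAt (fun u : ℝ => ‖GG (pl u t)‖ ^ 2 * Real.exp (-(2 * K * u)))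
      (2 * (‖GG (pl u t)‖ ^ 2 * (archF (pl u t)).re) * Real.exp (-(2 * K * u)) +
        ‖GG (pl u t)‖ ^ 2 * (Real.exp (-(2 * K * u)) * (-(2 * K)))) u := by
    intro u hu
    obtain ⟨h1, h2, h3⟩ := GG_facts (s := pl u t) (by rw [pl_re]; linarith [hu.1])
      (by rw [pl_im]; exact ht)
    have h4 := zm_deriv h1
    rw [zm_re h2, ← logDeriv_apply, h3] at h4
    have h5 : HasDerivAt (fun u : ℝ => Real.exp (-(2 * K * u)))
        (Real.exp (-(2 * K * u)) * (-(2 * K))) u := by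
      have h6 : HasDerivAt (fun u : ℝ => -(2 * K * u)) (-(2 * K)) u := by
        have := (hasDerivAt_id u).const_mul (-(2 * K))
        rw [mul_one] at this
        refine this.congr_of_eventuallyEq (Filter.Eventually.of_forall fun y => ?_)
        simp only [id]
        ring
      exact h6.exp
    exact h4.mul h5
  have hanti : AntitoneOn (fun u : ℝ => ‖GG (pl u t)‖ ^ 2 * Real.exp (-(2 * K * u)))
      (Icc σ σ') := by
    apply antitoneOn_of_deriv_nonpos (convex_Icc _ _)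
    · intro u hu
      exact (hd u hu).continuousAt.continuousWithinAt
    · intro u hu
      exact (hd u (interior_subset hu)).differentiableAt.differentiableWithinAt
    · intro u hu
      have hu' := interior_subset hu
      rw [(hd u hu').deriv]
      have h1 := hK u hu'
      have h2 : 2 * (‖GG (pl u t)‖ ^ 2 * (archF (pl u t)).re) * Real.exp (-(2 * K * u)) +
          ‖GG (pl u t)‖ ^ 2 * (Real.exp (-(2 * K * u)) * (-(2 * K))) =
          -(2 * ‖GG (pl u t)‖ ^ 2 * Real.exp (-(2 * K * u)) * (K - (archF (pl u t)).re)) := by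
        ring
      rw [h2, neg_nonpos]
      have : 0 ≤ K - (archF (pl u t)).re := by linarith
      positivity
  have h1 := hanti (left_mem_Icc.2 hσσ) (right_mem_Icc.2 hσσ) hσσ
  simp only at h1
  have h2 : ‖GG (pl σ' t)‖ ^ 2 ≤ (Real.exp (K * (σ' - σ)) * ‖GG (pl σ t)‖) ^ 2 := by
    have e1 : ‖GG (pl σ' t)‖ ^ 2 =
        ‖GG (pl σ' t)‖ ^ 2 * Real.exp (-(2 * K * σ')) * Real.exp (2 * K * σ') := by
      rw [mul_assoc, ← Real.exp_add]
      simp
    have e2 : (Real.exp (K * (σ' - σ)) * ‖GG (pl σ t)‖) ^ 2 =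
        ‖GG (pl σ t)‖ ^ 2 * Real.exp (-(2 * K * σ)) * Real.exp (2 * K * σ') := by
      rw [mul_pow, ← Real.exp_nat_mul, mul_assoc, ← Real.exp_add, mul_comm]
      congr 2
      push_cast
      ring
    rw [e1, e2]
    gcongr
  exact (sq_le_sq₀ (norm_nonneg _) (by positivity)).1 h2

/-- the archimedean factor for `0 < σ ≤ 2` (as `Sg.archF_near`) -/
private lemma zm_arch {σ t : ℝ} (hσ : 0 < σ) (hσ2 : σ ≤ 2) (ht : 2 ≤ t) :
    ‖archF (pl σ t) - ((Real.log t / 2 : ℝ) : ℂ)‖ ≤ 100 := by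
  have ht0 : 0 < t := by linarith
  have h1 : ((pl σ t) / 2).re = σ / 2 := by
    simp [pl]
  have h2 : ((pl σ t) / 2).im = t / 2 := by
    simp [pl]
  have h3 := digamma_bound (s := pl σ t / 2) (by rw [h1]; linarith) (by rw [h1]; linarith)
    (by rw [h2, abs_of_nonneg (by linarith)]; linarith)
  rw [h2, abs_of_nonneg (by linarith : (0 : ℝ) ≤ t / 2)] at h3
  have e1 : archF (pl σ t) - ((Real.log t / 2 : ℝ) : ℂ) =
      (pl σ t)⁻¹ + (pl σ t - 1)⁻¹ + (digamma (pl σ t / 2) - Real.log (t / 2)) / 2 +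
      (((Real.log (t / 2) - Real.log t - Real.log Real.pi) / 2 : ℝ) : ℂ) := by
    unfold archF
    push_cast
    ring
  rw [e1]
  have n1 : ‖(pl σ t)⁻¹‖ ≤ 1 := by
    rw [norm_inv]
    apply inv_le_one_of_one_le₀
    have := abs_im_le_norm (pl σ t)
    rw [pl_im, abs_of_nonneg ht0.le] at this
    linarith
  have n2 : ‖(pl σ t - 1)⁻¹‖ ≤ 1 := by
    rw [norm_inv]
    apply inv_le_one_of_one_le₀
    have h4 := abs_im_le_norm (pl σ t - 1)
    have h5 : (pl σ t - 1).im = t := by simp [pl]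
    rw [h5, abs_of_nonneg ht0.le] at h4
    linarith
  have n3 : ‖(digamma (pl σ t / 2) - Real.log (t / 2)) / 2‖ ≤ 91 := by
    rw [norm_div, norm_ofNat]
    have h5 : ‖digamma (pl σ t / 2) - Real.log (t / 2)‖ ≤ 181 := h3
    linarith
  have n4 : ‖(((Real.log (t / 2) - Real.log t - Real.log Real.pi) / 2 : ℝ) : ℂ)‖ ≤ 4 := by
    rw [norm_real, Real.norm_eq_abs, Real.log_div ht0.ne' (by norm_num)]
    have l3 : 0 ≤ Real.log Real.pi := Real.log_nonneg (by linarith [Real.pi_gt_three])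
    have l4 : Real.log Real.pi ≤ 3 := by
      have := Real.log_le_sub_one_of_pos Real.pi_pos
      linarith [Real.pi_lt_four]
    have l5 : 0 ≤ Real.log 2 := Real.log_nonneg (by norm_num)
    have l6 : Real.log 2 ≤ 1 := by
      have := Real.log_le_sub_one_of_pos (show (0 : ℝ) < 2 by norm_num)
      linarith
    rw [abs_le]
    constructor <;> linarith
  calc _ ≤ ‖(pl σ t)⁻¹ + (pl σ t - 1)⁻¹ + (digamma (pl σ t / 2) - Real.log (t / 2)) / 2‖ + 4 :=
        (norm_add_le _ _).trans (by gcongr)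
    _ ≤ (‖(pl σ t)⁻¹ + (pl σ t - 1)⁻¹‖ + 91) + 4 := by
        gcongr
        exact (norm_add_le _ _).trans (by gcongr)
    _ ≤ ((1 + 1) + 91) + 4 := by
        gcongr
        exact (norm_add_le _ _).trans (by gcongr)
    _ ≤ 100 := by norm_num

/-- MODULE ZMONO. Monotonicity of `|ξ|` in the distance from the critical line. For
`1/2 < σ ≤ σ' ≤ 1`: `log |ζ(σ'+it)| - log |ζ(σ+it)| = ∫_σ^{σ'} Re (F - archF) ≥ -∫ Re archF`
(`Re F > 0`, `Sg.hasSum_reF`) and `Re archF ≤ L/2 + C` (`archF_near`), so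
`|ζ(σ+it)| ≤ e^{(L/2+C)(σ'-σ)} |ζ(σ'+it)|`; let `σ → 1/2` by continuity. For `σ < 1/2` use
`ξ(1-s) = ξ(s)`, `ξ(conj s) = conj ξ(s)`: `|ξ(σ+it)| = |ξ(1-σ+it)| ≤ |ξ(σ'+it)|`, and the quotient
`ξ/ζ` (logarithmic derivative `archF`, `|Re archF - log(t)/2| ≤ C` also for `0 ≤ σ ≤ 1/2`,
same proof) changes by at most `e^{(L/2+C)(σ'-σ)}` between `σ` and `σ'`. In all cases the bound is
`C e^{(x'-x)/2}`. -/
theorem zeta_mono (hRH : RiemannHypothesis) : ∃ C : ℝ, 0 < C ∧ ∀ V : ℝ, 1 ≤ V →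
    ∀ᶠ T : ℝ in atTop, ∀ t ∈ Icc (T / 4) (4 * T), ∀ x x' : ℝ, |x| ≤ x' → x' ≤ V →
      ‖riemannZeta (sw T t x)‖ ≤ C * Real.exp ((x' - x) / 2) * ‖riemannZeta (sw T t x')‖ := by
  refine ⟨Real.exp 102, Real.exp_pos _, fun V hV => ?_⟩
  filter_upwards [Real.tendsto_log_atTop.eventually_ge_atTop (4 * V), eventually_ge_atTop 8]
    with T hL hT t ht x x' hxx hxV
  have hT0 : 0 < T := by linarith
  set L := Real.log T with hLdef
  have hL0 : 0 < L := by linarith
  have ht2 : 2 ≤ t := by linarith [ht.1]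
  have ht0 : 0 < t := by linarith
  have hx1 := abs_le.1 hxx
  have hx0 : 0 ≤ x' := (abs_nonneg x).trans hxx
  have hsw : ∀ y : ℝ, sw T t y = pl (1 / 2 + y / L) t := by
    intro y
    unfold sw pl
    push_cast
    ring
  rw [hsw, hsw]
  have hx'L : x' / L ≤ 1 / 4 := by
    rw [div_le_iff₀ hL0]; linarith
  have hx'L0 : 0 ≤ x' / L := by positivity
  have hxL : -(1 / 4) ≤ x / L := by
    rw [le_div_iff₀ hL0]; linarith
  have hxx' : x / L ≤ x' / L := by gcongr; exact hx1.2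
  have hxx'' : -(x' / L) ≤ x / L := by
    rw [← neg_div]
    gcongr
    exact hx1.1
  -- monotonicity of xi
  have h1 : ‖xi (pl (1 / 2 + x / L) t)‖ ≤ ‖xi (pl (1 / 2 + x' / L) t)‖ := by
    rcases le_or_gt 0 (x / L) with h | h
    · exact zm_xi_mono hRH h hxx'
    · have h2 : (1 : ℝ) / 2 + x / L = 1 / 2 - -(x / L) := by ring
      rw [h2, zm_xi_symm (by linarith) ht0]
      exact zm_xi_mono hRH (by linarith) (by linarith)
  have hre : ∀ y : ℝ, -(1 / 4) ≤ y / L → 0 < (pl (1 / 2 + y / L) t).re := by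
    intro y hy
    rw [pl_re]
    linarith
  have him : ∀ y : ℝ, 0 < (pl (1 / 2 + y / L) t).im := by
    intro y
    rw [pl_im]
    exact ht0
  rw [GG_zeta (hre x hxL) (him x), GG_zeta (hre x' (by linarith)) (him x'), norm_mul, norm_mul]
    at h1
  -- the archimedean factor
  have hK : ∀ u ∈ Icc (1 / 2 + x / L) (1 / 2 + x' / L), (archF (pl u t)).re ≤ L / 2 + 101 := by
    intro u hu
    have h3 := zm_arch (σ := u) (t := t) (by linarith [hu.1]) (by linarith [hu.2]) ht2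
    have h4 := (le_abs_self _).trans ((Complex.abs_re_le_norm _).trans h3)
    rw [Complex.sub_re, Complex.ofReal_re] at h4
    have h5 : Real.log t ≤ L + 2 := by
      have h6 : Real.log t ≤ Real.log (4 * T) := Real.log_le_log ht0 ht.2
      rw [Real.log_mul (by norm_num) hT0.ne'] at h6
      have h7 : Real.log 4 ≤ 2 := by
        have h8 : Real.log 4 = 2 * Real.log 2 := by
          rw [show (4 : ℝ) = 2 ^ 2 by norm_num, Real.log_pow]
          norm_num
        have h9 := Real.log_two_lt_d9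
        linarith
      linarith
    linarith
  have h2 := zm_GG (t := t) (by linarith) (by linarith) ht0 hK
  have hG0 : 0 < ‖GG (pl (1 / 2 + x / L) t)‖ :=
    norm_pos_iff.2 (GG_facts (hre x hxL) (him x)).2.1
  have h3 : Real.exp ((L / 2 + 101) * (1 / 2 + x' / L - (1 / 2 + x / L))) ≤
      Real.exp 102 * Real.exp ((x' - x) / 2) := by
    rw [← Real.exp_add]
    apply Real.exp_le_exp.2
    have h4 : (L / 2 + 101) * (1 / 2 + x' / L - (1 / 2 + x / L)) =
        (x' - x) / 2 + 101 * (x' / L - x / L) := by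
      field_simp
      ring
    rw [h4]
    linarith
  have h5 : ‖GG (pl (1 / 2 + x / L) t)‖ * ‖riemannZeta (pl (1 / 2 + x / L) t)‖ ≤
      ‖GG (pl (1 / 2 + x / L) t)‖ * (Real.exp 102 * Real.exp ((x' - x) / 2) *
        ‖riemannZeta (pl (1 / 2 + x' / L) t)‖) := by
    calc _ ≤ ‖GG (pl (1 / 2 + x' / L) t)‖ * ‖riemannZeta (pl (1 / 2 + x' / L) t)‖ := h1
      _ ≤ (Real.exp 102 * Real.exp ((x' - x) / 2) * ‖GG (pl (1 / 2 + x / L) t)‖) *
          ‖riemannZeta (pl (1 / 2 + x' / L) t)‖ := by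
          gcongr
          exact h2.trans (mul_le_mul_of_nonneg_right h3 (norm_nonneg _))
      _ = _ := by ring
  exact le_of_mul_le_mul_left h5 hG0

end Pool.Agent.MP_67227b_nt.Ah
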