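import Pool.Agent.MP_67227b_nt.Ah.AhBox
import Pool.Agent.MP_67227b_nt.Ah.AhBv
import Pool.Agent.MP_67227b_nt.Ah.AhRect
import Pool.Agent.MP_67227b_nt.Ah.AhZmono

set_option autoImplicit false

open Filter Topology Set MeasureTheory Complex
open scoped Real ArithmeticFunction ContDiff

namespace Pool.Agent.MP_67227b_nt.Ah

open Pool.Agent.Lib.ZetaCount_helper33 Pool.Agent.MP_67227b_nt Pool.Agent.MP_67227b_nt.Mo
open Pool.Agent.MP_67227b_nt.Sg Pool.Agent.MP_67227b_nt.Pp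
open Pool.Agent.MP_67227b_nt.Mo.MomentBAux (DP)

namespace EvBAux


/-- Jensen's inequality for powers on an interval of length one. -/
theorem pow_int_le {φ : ℝ → ℝ} (hφ : Continuous φ) (h0 : ∀ x, 0 ≤ φ x) (a : ℝ) (m : ℕ) :
    (∫ x in a..(a + 1), φ x) ^ m ≤ ∫ x in a..(a + 1), φ x ^ m := by
  rw [intervalIntegral.integral_of_le (by linarith), intervalIntegral.integral_of_le (by linarith)]
  haveI : IsProbabilityMeasure (volume.restrict (Ioc a (a + 1))) := by
    refine ⟨?_⟩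
    rw [Measure.restrict_apply_univ, Real.volume_Ioc]
    norm_num
  have hi1 : Integrable φ (volume.restrict (Ioc a (a + 1))) :=
    (hφ.integrableOn_Icc (a := a) (b := a + 1)).mono_set Ioc_subset_Icc_self
  have hi2 : Integrable (fun x => φ x ^ m) (volume.restrict (Ioc a (a + 1))) :=
    ((hφ.pow m).integrableOn_Icc (a := a) (b := a + 1)).mono_set Ioc_subset_Icc_self
  have h := (convexOn_pow m).map_integral_le (μ := volume.restrict (Ioc a (a + 1)))
    (f := φ) (continuous_pow m).continuousOn isClosed_Ici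
    (Filter.Eventually.of_forall fun x => h0 x) hi1 hi2
  exact h

/-- From mean values on lines to the supremum over a box. -/
theorem box_sup {G : ℝ → ℂ → ℂ} (hc : Continuous fun p : ℝ × ℂ => G p.1 p.2)
    (hd : ∀ t, Differentiable ℂ (G t)) {A B x₁ x₂ Y M lam : ℝ} {m : ℕ} (hm : 1 ≤ m)
    (hAB : A ≤ B) (hx : x₁ ≤ x₂) (hY : 0 ≤ Y) (hlam : 0 < lam)
    (hM : ∀ w : ℂ, x₁ - 1 / 2 ≤ w.re → w.re ≤ x₂ + 1 / 2 → |w.im| ≤ Y + 1 / 2 →
      ∫ t in A..B, ‖G t w‖ ^ m ≤ M) :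
    volume.real {t ∈ Icc A B | ¬ ∀ w : ℂ, x₁ ≤ w.re → w.re ≤ x₂ → |w.im| ≤ Y → ‖G t w‖ ≤ lam} ≤
      (16 / lam) ^ m * ((x₂ - x₁ + 1) * (2 * Y + 1) * M) := by
  have hg : Continuous fun p : ℝ × ℝ × ℝ => ‖G p.1 ((p.2.1 : ℂ) + (p.2.2 : ℂ) * I)‖ := by
    have h1 : Continuous fun p : ℝ × ℝ × ℝ => ((p.1, ((p.2.1 : ℂ) + (p.2.2 : ℂ) * I)) : ℝ × ℂ) := by
      fun_prop
    exact (hc.comp h1).norm
  have hgm : Continuous fun p : ℝ × ℝ × ℝ => ‖G p.1 ((p.2.1 : ℂ) + (p.2.2 : ℂ) * I)‖ ^ m :=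
    hg.pow m
  set X1 := x₁ - 1 / 2 with hX1
  set X2 := x₂ + 1 / 2 with hX2
  set Y1 := -(Y + 1 / 2) with hY1
  set Y2 := Y + 1 / 2 with hY2
  have hX12 : X1 ≤ X2 := by rw [hX1, hX2]; linarith
  have hY12 : Y1 ≤ Y2 := by rw [hY1, hY2]; linarith
  set inner : ℝ → ℝ → ℝ := fun t x => ∫ y in Y1..Y2, ‖G t ((x : ℂ) + (y : ℂ) * I)‖ ^ m with hin
  have hcin : Continuous fun p : ℝ × ℝ => inner p.1 p.2 := by
    have : Continuous (Function.uncurry fun (p : ℝ × ℝ) (y : ℝ) =>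
        ‖G p.1 ((p.2 : ℂ) + (y : ℂ) * I)‖ ^ m) := by
      have h1 : Continuous fun p : (ℝ × ℝ) × ℝ => ((p.1.1, p.1.2, p.2) : ℝ × ℝ × ℝ) := by fun_prop
      exact hgm.comp h1
    exact intervalIntegral.continuous_parametric_intervalIntegral_of_continuous' this Y1 Y2
  have hin0 : ∀ t x, 0 ≤ inner t x := fun t x =>
    intervalIntegral.integral_nonneg hY12 fun y _ => by positivity
  set Φ : ℝ → ℝ := fun t => ∫ x in X1..X2, inner t x with hΦ
  have hcΦ : Continuous Φ :=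
    intervalIntegral.continuous_parametric_intervalIntegral_of_continuous'
      (f := inner) (by simpa [Function.uncurry_def] using hcin) X1 X2
  have hΦ0 : ∀ t, 0 ≤ Φ t := fun t => intervalIntegral.integral_nonneg hX12 fun x _ => hin0 t x
  -- inclusion
  have hsub : {t ∈ Icc A B | ¬ ∀ w : ℂ, x₁ ≤ w.re → w.re ≤ x₂ → |w.im| ≤ Y → ‖G t w‖ ≤ lam} ⊆
      {t ∈ Icc A B | (lam / 16) ^ m < Φ t} := by
    rintro t ⟨ht, hbad⟩
    refine ⟨ht, ?_⟩
    push Not at hbad
    obtain ⟨w, h1, h2, h3, h4⟩ := hbad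
    have h5 := sub_mean (f := G t) (z := w) (ρ := 1 / 2) (by norm_num)
      (hd t).differentiableOn
    have e1 : w.re + 1 / 2 = (w.re - 1 / 2) + 1 := by ring
    have e2 : w.im + 1 / 2 = (w.im - 1 / 2) + 1 := by ring
    rw [e1, e2] at h5
    have hc2 : ∀ x : ℝ, Continuous fun y : ℝ => ‖G t ((x : ℂ) + (y : ℂ) * I)‖ := fun x => by
      have h1 : Continuous fun y : ℝ => ((t, x, y) : ℝ × ℝ × ℝ) := by fun_prop
      exact hg.comp h1
    have hc3 : Continuous fun x : ℝ => ∫ y in (w.im - 1 / 2)..(w.im - 1 / 2 + 1),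
        ‖G t ((x : ℂ) + (y : ℂ) * I)‖ := by
      have : Continuous (Function.uncurry fun (x : ℝ) (y : ℝ) =>
          ‖G t ((x : ℂ) + (y : ℂ) * I)‖) := by
        have h1 : Continuous fun p : ℝ × ℝ => ((t, p.1, p.2) : ℝ × ℝ × ℝ) := by fun_prop
        exact hg.comp h1
      exact intervalIntegral.continuous_parametric_intervalIntegral_of_continuous' this _ _
    have hc4 : Continuous fun x : ℝ => ∫ y in (w.im - 1 / 2)..(w.im - 1 / 2 + 1),
        ‖G t ((x : ℂ) + (y : ℂ) * I)‖ ^ m := by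
      have : Continuous (Function.uncurry fun (x : ℝ) (y : ℝ) =>
          ‖G t ((x : ℂ) + (y : ℂ) * I)‖ ^ m) := by
        have h1 : Continuous fun p : ℝ × ℝ => ((t, p.1, p.2) : ℝ × ℝ × ℝ) := by fun_prop
        exact hgm.comp h1
      exact intervalIntegral.continuous_parametric_intervalIntegral_of_continuous' this _ _
    have hn0 : ∀ x : ℝ, 0 ≤ ∫ y in (w.im - 1 / 2)..(w.im - 1 / 2 + 1),
        ‖G t ((x : ℂ) + (y : ℂ) * I)‖ := fun x =>
      intervalIntegral.integral_nonneg (by linarith) fun y _ => norm_nonneg _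
    have h6 := pow_int_le hc3 hn0 (w.re - 1 / 2) m
    have hw := abs_le.1 h3
    have h7 : ∫ x in (w.re - 1 / 2)..(w.re - 1 / 2 + 1),
        (∫ y in (w.im - 1 / 2)..(w.im - 1 / 2 + 1), ‖G t ((x : ℂ) + (y : ℂ) * I)‖) ^ m ≤
        ∫ x in (w.re - 1 / 2)..(w.re - 1 / 2 + 1), inner t x := by
      refine intervalIntegral.integral_mono_on (by linarith)
        ((hc3.pow m).intervalIntegrable _ _)
        ((hcin.comp (by fun_prop : Continuous fun x : ℝ => ((t, x) : ℝ × ℝ))).intervalIntegrable _ _)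
        fun x _ => ?_
      refine (pow_int_le (hc2 x) (fun y => norm_nonneg _) (w.im - 1 / 2) m).trans ?_
      refine intervalIntegral.integral_mono_interval (by rw [hY1]; linarith) (by linarith)
        (by rw [hY2]; linarith) (Filter.Eventually.of_forall fun y => by positivity)
        (((hc2 x).pow m).intervalIntegrable _ _)
    have h8 : ∫ x in (w.re - 1 / 2)..(w.re - 1 / 2 + 1), inner t x ≤ Φ t := by
      refine intervalIntegral.integral_mono_interval (by rw [hX1]; linarith) (by linarith)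
        (by rw [hX2]; linarith) (Filter.Eventually.of_forall fun x => hin0 t x)
        ((hcin.comp (by fun_prop : Continuous fun x : ℝ => ((t, x) : ℝ × ℝ))).intervalIntegrable _ _)
    have h9 : lam / 16 < ∫ x in (w.re - 1 / 2)..(w.re - 1 / 2 + 1),
        ∫ y in (w.im - 1 / 2)..(w.im - 1 / 2 + 1), ‖G t ((x : ℂ) + (y : ℂ) * I)‖ := by
      have h10 : (4 : ℝ) / (1 / 2) ^ 2 = 16 := by norm_num
      rw [h10] at h5
      rw [div_lt_iff₀ (by norm_num)]
      linarith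
    calc (lam / 16) ^ m < (∫ x in (w.re - 1 / 2)..(w.re - 1 / 2 + 1),
        ∫ y in (w.im - 1 / 2)..(w.im - 1 / 2 + 1), ‖G t ((x : ℂ) + (y : ℂ) * I)‖) ^ m :=
          pow_lt_pow_left₀ h9 (by positivity) (by omega)
      _ ≤ _ := h6
      _ ≤ _ := h7
      _ ≤ _ := h8
  have hfin : volume {t ∈ Icc A B | (lam / 16) ^ m < Φ t} ≠ ⊤ :=
    ne_top_of_le_ne_top (by simp) (measure_mono (fun t ht => ht.1 : _ ⊆ Icc A B))
  have hmk := markov_int (F := Φ) (lam := (lam / 16) ^ m) hAB (by positivity)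
    hcΦ.continuousOn (fun t _ => hΦ0 t)
  -- the integral of Φ
  have hI : ∫ t in A..B, Φ t ≤ (x₂ - x₁ + 1) * (2 * Y + 1) * M := by
    have hintg : ∀ (F : ℝ → ℝ → ℝ), (Continuous fun p : ℝ × ℝ => F p.1 p.2) → ∀ a b c d : ℝ,
        IntegrableOn (Function.uncurry F) (uIoc a b ×ˢ uIoc c d) := by
      intro F hF a b c d
      have h1 : IntegrableOn (Function.uncurry F) (uIcc a b ×ˢ uIcc c d) :=
        ContinuousOn.integrableOn_compact (isCompact_uIcc.prod isCompact_uIcc)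
          (by simpa [Function.uncurry_def] using hF.continuousOn)
      exact h1.mono_set (prod_mono uIoc_subset_uIcc uIoc_subset_uIcc)
    have h1 : ∫ t in A..B, Φ t = ∫ x in X1..X2, ∫ t in A..B, inner t x := by
      rw [hΦ]
      exact intervalIntegral_intervalIntegral_swap (hintg inner hcin _ _ _ _)
    have h2 : ∀ x : ℝ, ∫ t in A..B, inner t x = ∫ y in Y1..Y2, ∫ t in A..B,
        ‖G t ((x : ℂ) + (y : ℂ) * I)‖ ^ m := by
      intro x
      rw [hin]
      refine intervalIntegral_intervalIntegral_swap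
        (hintg (fun t y => ‖G t ((x : ℂ) + (y : ℂ) * I)‖ ^ m) ?_ _ _ _ _)
      have h1 : Continuous fun p : ℝ × ℝ => ((p.1, x, p.2) : ℝ × ℝ × ℝ) := by fun_prop
      exact hgm.comp h1
    rw [h1]
    have h3 : ∀ x ∈ Icc X1 X2, ∫ t in A..B, inner t x ≤ (2 * Y + 1) * M := by
      intro x hx'
      rw [h2 x]
      have hcy : Continuous fun y : ℝ => ∫ t in A..B, ‖G t ((x : ℂ) + (y : ℂ) * I)‖ ^ m := by
        have : Continuous (Function.uncurry fun (y : ℝ) (t : ℝ) =>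
            ‖G t ((x : ℂ) + (y : ℂ) * I)‖ ^ m) := by
          have h1 : Continuous fun p : ℝ × ℝ => ((p.2, x, p.1) : ℝ × ℝ × ℝ) := by fun_prop
          exact hgm.comp h1
        exact intervalIntegral.continuous_parametric_intervalIntegral_of_continuous' this _ _
      calc ∫ y in Y1..Y2, ∫ t in A..B, ‖G t ((x : ℂ) + (y : ℂ) * I)‖ ^ m ≤
          ∫ _ in Y1..Y2, M := by
            refine intervalIntegral.integral_mono_on hY12 (hcy.intervalIntegrable _ _)
              (by simp) fun y hy => ?_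
            refine hM _ ?_ ?_ ?_
            · simpa using hx'.1
            · simpa using hx'.2
            · have : (((x : ℂ) + (y : ℂ) * I)).im = y := by simp
              rw [this, abs_le]
              exact ⟨by rw [hY1] at hy; exact hy.1, hy.2⟩
        _ = (2 * Y + 1) * M := by
            rw [intervalIntegral.integral_const, smul_eq_mul, hY2, hY1]; ring
    have hcx : Continuous fun x : ℝ => ∫ t in A..B, inner t x := by
      have : Continuous (Function.uncurry fun (x : ℝ) (t : ℝ) => inner t x) := by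
        have h1 : Continuous fun p : ℝ × ℝ => ((p.2, p.1) : ℝ × ℝ) := by fun_prop
        exact hcin.comp h1
      exact intervalIntegral.continuous_parametric_intervalIntegral_of_continuous' this _ _
    calc ∫ x in X1..X2, ∫ t in A..B, inner t x ≤ ∫ _ in X1..X2, (2 * Y + 1) * M :=
          intervalIntegral.integral_mono_on hX12 (hcx.intervalIntegrable _ _) (by simp) h3
      _ = (x₂ - x₁ + 1) * (2 * Y + 1) * M := by
          rw [intervalIntegral.integral_const, smul_eq_mul, hX2, hX1]; ring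
  calc volume.real {t ∈ Icc A B | ¬ ∀ w : ℂ, x₁ ≤ w.re → w.re ≤ x₂ → |w.im| ≤ Y → ‖G t w‖ ≤ lam}
      ≤ volume.real {t ∈ Icc A B | (lam / 16) ^ m < Φ t} := measureReal_mono hsub hfin
    _ ≤ (∫ t in A..B, Φ t) / (lam / 16) ^ m := hmk
    _ ≤ ((x₂ - x₁ + 1) * (2 * Y + 1) * M) / (lam / 16) ^ m :=
        div_le_div_of_nonneg_right hI (by positivity)
    _ = (16 / lam) ^ m * ((x₂ - x₁ + 1) * (2 * Y + 1) * M) := by
        rw [div_pow, div_pow]
        field_simp



theorem diff_cpow (n : ℕ) (hn : n ≠ 0) : Differentiable ℂ fun s : ℂ => (n : ℂ) ^ (-s) :=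
  differentiable_neg.const_cpow (Or.inl (by exact_mod_cast hn))

theorem diff_Bs (δ T : ℝ) : Differentiable ℂ (Bs δ T) := by
  unfold Bs
  refine Differentiable.fun_sum fun n hn => ?_
  have hn' : n ≠ 0 := by have := (Finset.mem_Ioc.1 hn).1; omega
  exact (differentiable_const _).mul (diff_cpow n hn')

theorem cont_sw (T : ℝ) : Continuous fun p : ℝ × ℂ => sw T p.1 p.2 := by
  unfold sw
  fun_prop

theorem diff_sw (T t : ℝ) : Differentiable ℂ fun w : ℂ => sw T t w := by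
  unfold sw
  fun_prop

/-- The supremum of the variation of an entire function on a box. -/
theorem sup_var {F : ℂ → ℂ} (hF : Differentiable ℂ F) {w₀ : ℂ} {T A B x₁ x₂ Y M lam : ℝ} {m : ℕ}
    (hm : 1 ≤ m) (hAB : A ≤ B) (hx : x₁ ≤ x₂) (hY : 0 ≤ Y) (hlam : 0 < lam)
    (hM : ∀ w : ℂ, x₁ - 1 / 2 ≤ w.re → w.re ≤ x₂ + 1 / 2 → |w.im| ≤ Y + 1 / 2 →
      ∫ t in A..B, ‖F (sw T t w) - F (sw T t w₀)‖ ^ m ≤ M) :
    volume.real {t ∈ Icc A B | ¬ ∀ w : ℂ, x₁ ≤ w.re → w.re ≤ x₂ → |w.im| ≤ Y →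
      ‖F (sw T t w) - F (sw T t w₀)‖ ≤ lam} ≤
      (16 / lam) ^ m * ((x₂ - x₁ + 1) * (2 * Y + 1) * M) := by
  refine box_sup (G := fun t w => F (sw T t w) - F (sw T t w₀)) ?_ ?_ hm hAB hx hY hlam hM
  · refine ((hF.continuous.comp (cont_sw T)).sub (hF.continuous.comp ?_))
    have : Continuous fun p : ℝ × ℂ => ((p.1, w₀) : ℝ × ℂ) := by fun_prop
    exact (cont_sw T).comp this
  · intro t
    exact (hF.comp (diff_sw T t)).sub (differentiable_const _)

theorem sw_shift {T : ℝ} (hT : Real.log T ≠ 0) (t : ℝ) (w : ℂ) :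
    sw T t w = sw T (t + w.im / Real.log T) (w.re : ℝ) := by
  unfold sw
  have h1 : ((Real.log T : ℝ) : ℂ) ≠ 0 := by exact_mod_cast hT
  have h2 : (w : ℂ) = (w.re : ℂ) + (w.im : ℂ) * I := (Complex.re_add_im w).symm
  push_cast
  rw [show w / (Real.log T : ℂ) = ((w.re : ℂ) + (w.im : ℂ) * I) / (Real.log T : ℂ) by rw [← h2]]
  field_simp
  ring



theorem pow_exp_small (N : ℕ) {b c : ℝ} (hb : 0 < b) (hc : 0 < c) :
    ∀ᶠ u : ℝ in atTop, u ^ N ≤ c * Real.exp (b * u) := by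
  have h := (isLittleO_pow_exp_pos_mul_atTop N hb).bound hc
  filter_upwards [h, eventually_ge_atTop (0 : ℝ)] with u hu h0
  rw [Real.norm_of_nonneg (by positivity), Real.norm_of_nonneg (Real.exp_pos _).le] at hu
  exact hu


end EvBAux


open EvBAux in
/-- MODULE EVB1. The small primes do not vary on the box: `sub_mean`, `Bs_var`; measure
`≤ C r^{200} e^{-2r^12} e^{(3/2) r^12} T`. -/
theorem B_event {ε : ℝ} (hε : 0 < ε) : ∃ r₀ : ℝ, 1 ≤ r₀ ∧ ∀ r : ℝ, r₀ ≤ r →
    ∀ᶠ T : ℝ in atTop, volume.real {t ∈ Icc (T / 2) T | ¬ ∀ w : ℂ, |w.re| ≤ r ^ 36 + 1 →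
      |w.im| ≤ 9 * r ^ 24 → ‖Bs (Real.exp (-r ^ 12)) T (sw T t w) -
        Bs (Real.exp (-r ^ 12)) T (sw T t 0)‖ ≤ Real.exp (-(3 / 4 * r ^ 12))} ≤ ε * T := by
  obtain ⟨C, hC, hB⟩ := Bs_var
  set K : ℝ := 256 * (5 * 19 * (C * 169)) with hK
  have hK0 : 0 < K := by positivity
  obtain ⟨u₁, hu₁⟩ := eventually_atTop.1 ((pow_exp_small 11 (b := 1 / 2) (c := ε / K)
    (by norm_num) (by positivity)).and (pow_exp_small 3 (b := 1) (c := 1 / 13) (by norm_num)
    (by norm_num)))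
  refine ⟨max 2 u₁, by norm_num [le_max_iff], fun r hr => ?_⟩
  have hr2 : 2 ≤ r := (le_max_left _ _).trans hr
  have hr1 : 1 ≤ r := by linarith
  have hr0 : 0 < r := by linarith
  have hru : u₁ ≤ r ^ 12 :=
    ((le_max_right _ _).trans hr).trans (le_self_pow₀ hr1 (by norm_num))
  obtain ⟨hu1, hu2⟩ := hu₁ (r ^ 12) hru
  set δ := Real.exp (-r ^ 12) with hδdef
  have hδ0 : 0 < δ := Real.exp_pos _
  have hδ : δ ≤ 1 / 4 := by
    have h1 : (4096 : ℝ) ≤ r ^ 12 := by
      calc (4096 : ℝ) = 2 ^ 12 := by norm_num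
        _ ≤ r ^ 12 := pow_le_pow_left₀ (by norm_num) hr2 12
    have h2 : (4 : ℝ) ≤ Real.exp (r ^ 12) := by
      have := Real.add_one_le_exp (r ^ 12)
      linarith
    rw [hδdef, Real.exp_neg, one_div]
    exact inv_anti₀ (by norm_num) h2
  have hδi : 1 / δ = Real.exp (r ^ 12) := by
    rw [hδdef, Real.exp_neg, one_div, inv_inv]
  have h24 : (1 : ℝ) ≤ r ^ 24 := one_le_pow₀ hr1
  have h36 : (1 : ℝ) ≤ r ^ 36 := one_le_pow₀ hr1
  have h2436 : r ^ 24 ≤ r ^ 36 := pow_le_pow_right₀ hr1 (by norm_num)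
  have hV : 13 * r ^ 36 ≤ 1 / δ := by
    rw [hδi]
    have e : (r ^ 12) ^ 3 = r ^ 36 := by ring
    rw [e, one_mul] at hu2
    linarith
  filter_upwards [hB δ hδ0 hδ, eventually_gt_atTop (0 : ℝ)] with T hT hT0
  have hM : ∀ w : ℂ, -(r ^ 36 + 1) - 1 / 2 ≤ w.re → w.re ≤ (r ^ 36 + 1) + 1 / 2 →
      |w.im| ≤ 9 * r ^ 24 + 1 / 2 → ∫ t in (T / 2)..T,
        ‖Bs δ T (sw T t w) - Bs δ T (sw T t 0)‖ ^ 2 ≤ C * δ ^ 2 * (13 * r ^ 36) ^ 2 * T := by
    intro w h1 h2 h3
    have hre : |w.re| ≤ r ^ 36 + 1 + 1 / 2 := by rw [abs_le]; constructor <;> linarith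
    have hwV : ‖w‖ ≤ 13 * r ^ 36 := by
      refine (Complex.norm_le_abs_re_add_abs_im w).trans ?_
      linarith
    have h4 := hT w (hwV.trans hV)
    refine le_trans ?_ (h4.trans ?_)
    · refine intervalIntegral.integral_mono_interval (by linarith) (by linarith) (by linarith)
        (Filter.Eventually.of_forall fun t => by positivity) ?_
      refine Continuous.intervalIntegrable ?_ _ _
      have hc : Continuous (Bs δ T) := (diff_Bs _ _).continuous
      have hs : ∀ w : ℂ, Continuous fun t : ℝ => sw T t w := fun w => by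
        have : Continuous fun t : ℝ => ((t, w) : ℝ × ℂ) := by fun_prop
        exact (cont_sw T).comp this
      exact (((hc.comp (hs w)).sub (hc.comp (hs 0))).norm).pow 2
    · refine mul_le_mul_of_nonneg_right ?_ hT0.le
      exact mul_le_mul_of_nonneg_left (pow_le_pow_left₀ (norm_nonneg _) hwV 2) (by positivity)
  have hmain := sup_var (diff_Bs δ T) (w₀ := 0) (T := T)
    (A := T / 2) (B := T) (x₁ := -(r ^ 36 + 1)) (x₂ := r ^ 36 + 1) (Y := 9 * r ^ 24)
    (lam := Real.exp (-(3 / 4 * r ^ 12))) (m := 2) (by norm_num) (by linarith) (by linarith)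
    (by positivity) (Real.exp_pos _) hM
  have hset : {t ∈ Icc (T / 2) T | ¬ ∀ w : ℂ, |w.re| ≤ r ^ 36 + 1 →
      |w.im| ≤ 9 * r ^ 24 → ‖Bs δ T (sw T t w) - Bs δ T (sw T t 0)‖ ≤
        Real.exp (-(3 / 4 * r ^ 12))} = {t ∈ Icc (T / 2) T | ¬ ∀ w : ℂ, -(r ^ 36 + 1) ≤ w.re →
      w.re ≤ r ^ 36 + 1 → |w.im| ≤ 9 * r ^ 24 → ‖Bs δ T (sw T t w) - Bs δ T (sw T t 0)‖ ≤
        Real.exp (-(3 / 4 * r ^ 12))} := by
    ext t
    simp only [abs_le, and_imp, mem_setOf_eq]
  rw [hset]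
  refine hmain.trans ?_
  have hexp : (16 / Real.exp (-(3 / 4 * r ^ 12))) ^ 2 * δ ^ 2 =
      256 * Real.exp (-(1 / 2 * r ^ 12)) := by
    have h1 : Real.exp (-(3 / 4 * r ^ 12)) ≠ 0 := (Real.exp_pos _).ne'
    rw [div_pow, div_mul_eq_mul_div, div_eq_iff (by positivity), hδdef,
      ← Real.exp_nat_mul, ← Real.exp_nat_mul, mul_assoc, ← Real.exp_add]
    norm_num
    ring_nf
  calc (16 / Real.exp (-(3 / 4 * r ^ 12))) ^ 2 * ((r ^ 36 + 1 - -(r ^ 36 + 1) + 1) *
        (2 * (9 * r ^ 24) + 1) * (C * δ ^ 2 * (13 * r ^ 36) ^ 2 * T))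
      ≤ (16 / Real.exp (-(3 / 4 * r ^ 12))) ^ 2 * ((5 * r ^ 36) *
        (19 * r ^ 24) * (C * δ ^ 2 * (13 * r ^ 36) ^ 2 * T)) := by
        refine mul_le_mul_of_nonneg_left ?_ (by positivity)
        refine mul_le_mul_of_nonneg_right ?_ (by positivity)
        exact mul_le_mul (by linarith) (by linarith) (by positivity) (by positivity)
    _ = ((16 / Real.exp (-(3 / 4 * r ^ 12))) ^ 2 * δ ^ 2) *
        (5 * 19 * (C * 169) * (r ^ 12) ^ 11 * T) := by ring
    _ = K * (r ^ 12) ^ 11 * Real.exp (-(1 / 2 * r ^ 12)) * T := by rw [hexp, hK]; ring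
    _ ≤ ε * T := by
        refine mul_le_mul_of_nonneg_right ?_ hT0.le
        calc K * (r ^ 12) ^ 11 * Real.exp (-(1 / 2 * r ^ 12)) ≤
            K * (ε / K * Real.exp (1 / 2 * r ^ 12)) * Real.exp (-(1 / 2 * r ^ 12)) := by
              refine mul_le_mul_of_nonneg_right ?_ (Real.exp_pos _).le
              exact mul_le_mul_of_nonneg_left hu1 hK0.le
          _ = ε * (Real.exp (1 / 2 * r ^ 12) * Real.exp (-(1 / 2 * r ^ 12))) := by
              field_simp
          _ = ε := by rw [← Real.exp_add]; simp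

open EvBAux in
/-- MODULE EVB2. To the left of `Re w = 1`. `zeta_mono` with `x = Re w`, `x' = max |Re w| 1`
(`(x' - x)/2 ≤ |Re w| + 1/2`) at `t + Im w/L`, and `B_event` (`‖e^{-Bs(w) + Bs(w')}‖ ≤ e`). -/
theorem left_event (hRH : RiemannHypothesis) : ∃ C : ℝ, 0 < C ∧ ∀ ε : ℝ, 0 < ε →
    ∃ r₀ : ℝ, 1 ≤ r₀ ∧ ∀ r : ℝ, r₀ ≤ r → ∀ᶠ T : ℝ in atTop,
      volume.real {t ∈ Icc (T / 2) T | ¬ ∀ w : ℂ, -(2 * r ^ 4 + 1) ≤ w.re → w.re ≤ 1 →
        |w.im| ≤ 8 * r ^ 24 → ‖Dd (Real.exp (-r ^ 12)) T (sw T t w)‖ ≤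
          Real.exp (|w.re| + C) * ‖Dd (Real.exp (-r ^ 12)) T
            (sw T t ((max |w.re| 1 : ℝ) + (w.im : ℂ) * I))‖} ≤ ε * T := by
  obtain ⟨C₀, hC₀, hz⟩ := zeta_mono hRH
  refine ⟨|Real.log C₀| + 3, by positivity, fun ε hε => ?_⟩
  obtain ⟨r₀, hr₀, hB⟩ := B_event hε
  refine ⟨max r₀ 2, by simp [hr₀], fun r hr => ?_⟩
  have hr1 : r₀ ≤ r := (le_max_left _ _).trans hr
  have hr2 : 2 ≤ r := (le_max_right _ _).trans hr
  have hr1' : 1 ≤ r := by linarith
  have h24 : (1 : ℝ) ≤ r ^ 24 := one_le_pow₀ hr1'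
  have h4 : (1 : ℝ) ≤ r ^ 4 := one_le_pow₀ hr1'
  have h436 : 2 * r ^ 4 ≤ r ^ 36 := by
    have e : r ^ 36 = r ^ 4 * r ^ 32 := by ring
    have h32 : (2 : ℝ) ≤ r ^ 32 := by
      calc (2 : ℝ) ≤ r := hr2
        _ ≤ r ^ 32 := le_self_pow₀ hr1' (by norm_num)
    rw [e]; nlinarith
  filter_upwards [hB r hr1, hz (2 * r ^ 4 + 1) (by linarith), eventually_ge_atTop (4 : ℝ),
    Real.tendsto_log_atTop.eventually_ge_atTop (8 * r ^ 24)] with T hT1 hT2 hT4 hTL
  have hL0 : 0 < Real.log T := by linarith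
  refine le_trans (measureReal_mono ?_ ?_) hT1
  · rintro t ⟨ht, hbad⟩
    refine ⟨ht, fun hgood => hbad ?_⟩
    intro w h1 h2 h3
    set δ := Real.exp (-r ^ 12) with hδ
    set x' : ℝ := max |w.re| 1 with hx'
    set w' : ℂ := (x' : ℂ) + (w.im : ℂ) * I with hw'
    have hw're : w'.re = x' := by simp [hw']
    have hw'im : w'.im = w.im := by simp [hw']
    have hx1 : |w.re| ≤ x' := le_max_left _ _
    have hx2 : x' ≤ 2 * r ^ 4 + 1 := max_le (by rw [abs_le]; constructor <;> linarith) (by linarith)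
    have hx0 : 0 ≤ x' := (abs_nonneg _).trans hx1
    have himL : |w.im / Real.log T| ≤ 1 := by
      rw [abs_div, abs_of_pos hL0, div_le_one hL0]; linarith
    have himl := abs_le.1 himL
    have hzz := hT2 (t + w.im / Real.log T) ⟨by linarith [ht.1], by linarith [ht.2]⟩
      w.re x' hx1 hx2
    have e1 : sw T t w = sw T (t + w.im / Real.log T) (w.re : ℝ) := sw_shift hL0.ne' t w
    have e2 : sw T t w' = sw T (t + w.im / Real.log T) (x' : ℝ) := by
      rw [sw_shift hL0.ne' t w', hw're, hw'im]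
    have hg1 := hgood w (by rw [abs_le]; constructor <;> linarith) (by linarith)
    have hg2 := hgood w' (by rw [hw're, abs_of_nonneg hx0]; linarith) (by rw [hw'im]; linarith)
    have hexp1 : Real.exp (-(3 / 4 * r ^ 12)) ≤ 1 := Real.exp_le_one_iff.2 (by
      have : 0 ≤ r ^ 12 := by positivity
      linarith)
    have hdiff : ‖Bs δ T (sw T t w) - Bs δ T (sw T t w')‖ ≤ 2 := by
      have e : Bs δ T (sw T t w) - Bs δ T (sw T t w') =
          (Bs δ T (sw T t w) - Bs δ T (sw T t 0)) - (Bs δ T (sw T t w') - Bs δ T (sw T t 0)) := by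
        ring
      rw [e]
      refine (norm_sub_le _ _).trans ?_
      linarith
    have hE : ‖Complex.exp (-(Bs δ T (sw T t w)))‖ ≤
        Real.exp 2 * ‖Complex.exp (-(Bs δ T (sw T t w')))‖ := by
      rw [Complex.norm_exp, Complex.norm_exp, ← Real.exp_add]
      refine Real.exp_le_exp.2 ?_
      have h5 := (Complex.abs_re_le_norm (Bs δ T (sw T t w) - Bs δ T (sw T t w'))).trans hdiff
      rw [Complex.sub_re] at h5
      have h6 := abs_le.1 h5
      rw [Complex.neg_re, Complex.neg_re]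
      linarith
    have hx3 : (x' - w.re) / 2 ≤ |w.re| + 1 := by
      have h7 := neg_abs_le w.re
      rcases max_cases |w.re| 1 with ⟨h8, h9⟩ | ⟨h8, h9⟩
      · rw [hx', h8]; linarith
      · rw [hx', h8]; linarith [abs_nonneg w.re]
    have hC₀' : C₀ ≤ Real.exp |Real.log C₀| := by
      calc C₀ = Real.exp (Real.log C₀) := (Real.exp_log hC₀).symm
        _ ≤ Real.exp |Real.log C₀| := Real.exp_le_exp.2 (le_abs_self _)
    unfold Dd
    rw [norm_mul, norm_mul]
    calc ‖riemannZeta (sw T t w)‖ * ‖Complex.exp (-(Bs δ T (sw T t w)))‖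
        ≤ (C₀ * Real.exp ((x' - w.re) / 2) * ‖riemannZeta (sw T t w')‖) *
          (Real.exp 2 * ‖Complex.exp (-(Bs δ T (sw T t w')))‖) := by
          refine mul_le_mul ?_ hE (norm_nonneg _) (by positivity)
          rw [e1, e2]; exact hzz
      _ = (C₀ * Real.exp ((x' - w.re) / 2) * Real.exp 2) * (‖riemannZeta (sw T t w')‖ *
          ‖Complex.exp (-(Bs δ T (sw T t w')))‖) := by ring
      _ ≤ Real.exp (|w.re| + (|Real.log C₀| + 3)) * (‖riemannZeta (sw T t w')‖ *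
          ‖Complex.exp (-(Bs δ T (sw T t w')))‖) := by
          refine mul_le_mul_of_nonneg_right ?_ (by positivity)
          calc C₀ * Real.exp ((x' - w.re) / 2) * Real.exp 2 ≤
              Real.exp |Real.log C₀| * Real.exp (|w.re| + 1) * Real.exp 2 := by
                refine mul_le_mul_of_nonneg_right ?_ (Real.exp_pos _).le
                exact mul_le_mul hC₀' (Real.exp_le_exp.2 hx3) (Real.exp_pos _).le
                  (Real.exp_pos _).le
            _ = Real.exp (|w.re| + (|Real.log C₀| + 3)) := by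
                rw [← Real.exp_add, ← Real.exp_add]; ring_nf
  · exact ne_top_of_le_ne_top (by simp) (measure_mono (fun t ht => ht.1 : _ ⊆ Icc (T / 2) T))

end Pool.Agent.MP_67227b_nt.Ah
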