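import Pool.Agent.MP_67227b_nt.Ah.AhMf

set_option autoImplicit false

open Filter Topology Set MeasureTheory Complex
open scoped Real ArithmeticFunction ContDiff

namespace Pool.Agent.MP_67227b_nt.Ah

open Pool.Agent.Lib.ZetaCount_helper33 Pool.Agent.MP_67227b_nt Pool.Agent.MP_67227b_nt.Mo
open Pool.Agent.MP_67227b_nt.Sg Pool.Agent.MP_67227b_nt.Pp
open Pool.Agent.MP_67227b_nt.Mo.MomentBAux (DP)

private lemma mfm_pl_cont (σ a : ℝ) : Continuous (fun t : ℝ => pl σ (t + a)) := by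
  unfold pl
  fun_prop

private lemma mfm_Hq_cont (hRH : RiemannHypothesis) {α σ a b : ℝ} (hα : 0 ≤ α)
    (hσ : 1 / 2 < σ) (ha : 0 < a) : ContinuousOn (fun t : ℝ => Hq α (pl σ t)) (Icc a b) := by
  intro t ht
  have h1 : DifferentiableAt ℂ (Hq α) (pl σ t) :=
    differentiableAt_Hq hRH hα (by rw [pl_re]; exact hσ) (by rw [pl_im]; linarith [ht.1])
  have h2 : ContinuousAt (fun t : ℝ => pl σ t) t := by
    have := mfm_pl_cont σ 0
    simp only [add_zero] at this
    exact this.continuousAt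
  exact (ContinuousAt.comp (f := fun t : ℝ => pl σ t) (g := Hq α) h1.continuousAt h2).continuousWithinAt

/-- MODULE MF3. `‖mf‖ = 2 |Re Hq| ‖A‖` and Cauchy-Schwarz with `reHq_mean`, `reHq_mean_one`. -/
theorem mf_mean (hRH : RiemannHypothesis) : ∃ C : ℝ, 0 < C ∧ ∀ δ ε : ℝ, 0 < δ → δ ≤ 1 / 16 →
    0 < ε → ε ≤ 1 / 32 → ∀ l : Filter ℝ, Hyp l → ∀ᶠ n : ℕ in atTop, ∀ᶠ T : ℝ in l,
      ∫ t in ((1 / 2 + 3 * ε) * T)..((1 - 3 * ε) * T),
        ‖mf (am δ n T) (al T) (δ / Real.log T) (Nn δ T) t‖ ≤ C * T := by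
  obtain ⟨C₁, hC₁, h₁⟩ := reHq_mean hRH
  obtain ⟨C₂, hC₂, h₂⟩ := reHq_mean_one hRH
  refine ⟨C₂ + C₁, by positivity, ?_⟩
  intro δ ε hδ hδ1 hε hε1 l hl
  filter_upwards [h₁ δ ε hδ hδ1 hε hε1 l hl] with n hn
  filter_upwards [hn, h₂ δ ε hδ hδ1 hε hε1 l hl, hl.1 (eventually_gt_atTop 1)] with T hT1 hT2 hT
  have hT0 : 0 < T := by linarith
  have hL : 0 < Real.log T := Real.log_pos hT
  have hb : 0 < δ / Real.log T := div_pos hδ hL
  have hal : 0 ≤ al T := by
    unfold al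
    positivity
  have hlo : 0 < (1 / 2 + 3 * ε) * T := by positivity
  have hle : (1 / 2 + 3 * ε) * T ≤ (1 - 3 * ε) * T := by
    apply mul_le_mul_of_nonneg_right _ hT0.le
    linarith
  have hc1 : ContinuousOn (fun t : ℝ => Hq (al T) (pl (1 / 2 + δ / Real.log T) t))
      (Icc ((1 / 2 + 3 * ε) * T) ((1 - 3 * ε) * T)) :=
    mfm_Hq_cont hRH hal (by linarith) hlo
  have hc2 : Continuous (fun t : ℝ => Am δ n T (pl (1 / 2 + δ / Real.log T) (t + al T))) := by
    unfold Am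
    exact (continuous_Aa _ _).comp (mfm_pl_cont _ _)
  have hre : ContinuousOn (fun t : ℝ => (Hq (al T) (pl (1 / 2 + δ / Real.log T) t)).re)
      (Icc ((1 / 2 + 3 * ε) * T) ((1 - 3 * ε) * T)) :=
    Complex.continuous_re.comp_continuousOn hc1
  have hi1 : IntervalIntegrable (fun t : ℝ =>
      |(Hq (al T) (pl (1 / 2 + δ / Real.log T) t)).re|) volume
      ((1 / 2 + 3 * ε) * T) ((1 - 3 * ε) * T) := by
    apply ContinuousOn.intervalIntegrable
    rw [uIcc_of_le hle]
    exact hre.abs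
  have hi2 : IntervalIntegrable (fun t : ℝ =>
      |(Hq (al T) (pl (1 / 2 + δ / Real.log T) t)).re *
        ‖Am δ n T (pl (1 / 2 + δ / Real.log T) (t + al T))‖ ^ 2|) volume
      ((1 / 2 + 3 * ε) * T) ((1 - 3 * ε) * T) := by
    apply ContinuousOn.intervalIntegrable
    rw [uIcc_of_le hle]
    exact (hre.mul ((hc2.norm.pow 2).continuousOn)).abs
  have hi3 : IntervalIntegrable (fun t : ℝ =>
      ‖mf (am δ n T) (al T) (δ / Real.log T) (Nn δ T) t‖) volume
      ((1 / 2 + 3 * ε) * T) ((1 - 3 * ε) * T) := by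
    apply ContinuousOn.intervalIntegrable
    rw [uIcc_of_le hle]
    unfold mf
    apply ContinuousOn.norm
    apply ContinuousOn.mul
    · apply continuousOn_const.mul
      exact Complex.continuous_ofReal.comp_continuousOn hre
    · exact hc2.continuousOn
  calc ∫ t in ((1 / 2 + 3 * ε) * T)..((1 - 3 * ε) * T),
        ‖mf (am δ n T) (al T) (δ / Real.log T) (Nn δ T) t‖
      ≤ ∫ t in ((1 / 2 + 3 * ε) * T)..((1 - 3 * ε) * T),
        (|(Hq (al T) (pl (1 / 2 + δ / Real.log T) t)).re| +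
          |(Hq (al T) (pl (1 / 2 + δ / Real.log T) t)).re *
            ‖Am δ n T (pl (1 / 2 + δ / Real.log T) (t + al T))‖ ^ 2|) := by
        apply intervalIntegral.integral_mono_on hle hi3 (hi1.add hi2)
        intro t _
        have e1 : ‖mf (am δ n T) (al T) (δ / Real.log T) (Nn δ T) t‖ =
            2 * |(Hq (al T) (pl (1 / 2 + δ / Real.log T) t)).re| *
              ‖Am δ n T (pl (1 / 2 + δ / Real.log T) (t + al T))‖ := by
          unfold mf Am
          rw [norm_mul, norm_mul, Complex.norm_real]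
          simp
        rw [e1, abs_mul, abs_of_nonneg (sq_nonneg
          ‖Am δ n T (pl (1 / 2 + δ / Real.log T) (t + al T))‖)]
        have e2 := abs_nonneg (Hq (al T) (pl (1 / 2 + δ / Real.log T) t)).re
        nlinarith [sq_nonneg (‖Am δ n T (pl (1 / 2 + δ / Real.log T) (t + al T))‖ - 1),
          mul_nonneg e2 (sq_nonneg
            (‖Am δ n T (pl (1 / 2 + δ / Real.log T) (t + al T))‖ - 1))]
    _ = _ := intervalIntegral.integral_add hi1 hi2
    _ ≤ C₂ * T + C₁ * T := add_le_add hT2 hT1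
    _ = (C₂ + C₁) * T := by ring

end Pool.Agent.MP_67227b_nt.Ah
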