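import Pool.Agent.MP_67227b_nt.Ah.AhBnd
import Pool.Agent.MP_67227b_nt.Ah.AhClose

set_option autoImplicit false

open Filter Topology Set MeasureTheory Complex
open scoped Real ArithmeticFunction ContDiff

namespace Pool.Agent.MP_67227b_nt.Ah

open Pool.Agent.Lib.ZetaCount_helper33 Pool.Agent.MP_67227b_nt Pool.Agent.MP_67227b_nt.Mo
open Pool.Agent.MP_67227b_nt.Sg Pool.Agent.MP_67227b_nt.Pp
open Pool.Agent.MP_67227b_nt.Mo.MomentBAux (DP)

namespace ReprAux

lemma line_sum (a : ℕ → ℝ) (α b : ℝ) (N : ℕ) (t : ℝ) :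
    Fh a α N (pl (1 / 2 + b) t) + Hl a α b N (pl (1 / 2 + b) t) = mf a α b N t := by
  have h1 : 1 + 2 * (b : ℂ) - (starRingEnd ℂ) (pl (1 / 2 + b) t) = pl (1 / 2 + b) t := by
    apply Complex.ext
    · simp [pl]; ring
    · simp [pl]
  have h2 : pl (1 / 2 + b) t + (α : ℂ) * I = pl (1 / 2 + b) (t + α) := by
    unfold pl; push_cast; ring
  unfold Fh Hl mf
  rw [h1, h2]
  have h3 := Complex.add_conj (Hq α (pl (1 / 2 + b) t))
  have h4 : ((2 * (Hq α (pl (1 / 2 + b) t)).re : ℝ) : ℂ)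
      = 2 * ((Hq α (pl (1 / 2 + b) t)).re : ℂ) := by push_cast; ring
  rw [h4] at h3
  rw [← h3]
  ring

lemma pl_ne {σ y : ℝ} {p : ℂ} (hp : p.re ≠ σ) : pl σ y - p ≠ 0 := by
  intro h
  apply hp
  have := congrArg Complex.re h
  simp [pl] at this
  linarith

lemma cont_pl (σ : ℝ) : Continuous (pl σ) := by
  unfold pl
  fun_prop

lemma comb {F H o : ℂ → ℂ} {σ c d e : ℝ} {z z' : ℂ} (hcd : c ≤ d)
    (hF : ContinuousOn (fun y => F (pl σ y)) (Icc c d))
    (hH : ContinuousOn (fun y => H (pl σ y)) (Icc c d))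
    (ho : Continuous o) (hz : z.re ≠ σ) (hz' : z'.re ≠ σ)
    (b1 : ‖(1 / (2 * π) : ℂ) * (∫ y in c..d, F (pl σ y) * o (pl σ y) / (pl σ y - z)) +
      F z * o z‖ ≤ e)
    (b2 : ‖(1 / (2 * π) : ℂ) * (∫ y in c..d, F (pl σ y) * o (pl σ y) / (pl σ y - z'))‖ ≤ e)
    (b3 : ‖(1 / (2 * π) : ℂ) * (∫ y in c..d, H (pl σ y) * o (pl σ y) / (pl σ y - z))‖ ≤ e)
    (b4 : ‖(1 / (2 * π) : ℂ) * (∫ y in c..d, H (pl σ y) * o (pl σ y) / (pl σ y - z')) -
      H z' * o z'‖ ≤ e) (hoz : o z = 1) :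
    ‖F z‖ ≤ (∫ y in c..d, ‖F (pl σ y) + H (pl σ y)‖ * (1 / (2 * π) * ‖o (pl σ y)‖ *
        ‖(z - z') / ((pl σ y - z) * (pl σ y - z'))‖)) + ‖H z'‖ * ‖o z'‖ + 4 * e := by
  have co : Continuous (fun y : ℝ => o (pl σ y)) := ho.comp (cont_pl σ)
  have hi : ∀ (G : ℂ → ℂ), ContinuousOn (fun y => G (pl σ y)) (Icc c d) → ∀ p : ℂ, p.re ≠ σ →
      IntervalIntegrable (fun y => G (pl σ y) * o (pl σ y) / (pl σ y - p)) volume c d := by
    intro G hG p hp
    apply ContinuousOn.intervalIntegrable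
    rw [uIcc_of_le hcd]
    exact (hG.mul co.continuousOn).div ((cont_pl σ).sub continuous_const).continuousOn
      (fun y _ => pl_ne hp)
  set J : (ℂ → ℂ) → ℂ → ℂ := fun G p =>
    (1 / (2 * π) : ℂ) * (∫ y in c..d, G (pl σ y) * o (pl σ y) / (pl σ y - p)) with hJ
  have e1 : J F z + J H z - J F z' - J H z' = (1 / (2 * π) : ℂ) * ∫ y in c..d,
      (F (pl σ y) + H (pl σ y)) * (o (pl σ y) * ((z - z') / ((pl σ y - z) * (pl σ y - z')))) := by
    simp only [hJ]
    rw [← mul_add, ← mul_sub, ← mul_sub,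
      ← intervalIntegral.integral_add (hi F hF z hz) (hi H hH z hz),
      ← intervalIntegral.integral_sub ((hi F hF z hz).add (hi H hH z hz)) (hi F hF z' hz'),
      ← intervalIntegral.integral_sub
        (((hi F hF z hz).add (hi H hH z hz)).sub (hi F hF z' hz')) (hi H hH z' hz')]
    congr 1
    apply intervalIntegral.integral_congr
    intro y _
    have n1 := pl_ne (y := y) hz
    have n2 := pl_ne (y := y) hz'
    simp only
    field_simp
    ring
  have e2 : ‖J F z + J H z - J F z' - J H z'‖ ≤ ∫ y in c..d, ‖F (pl σ y) + H (pl σ y)‖ *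
      (1 / (2 * π) * ‖o (pl σ y)‖ * ‖(z - z') / ((pl σ y - z) * (pl σ y - z'))‖) := by
    rw [e1, norm_mul]
    have h9 : ‖(1 / (2 * π) : ℂ)‖ = 1 / (2 * π) := by
      rw [norm_div, norm_mul, norm_one]
      simp [abs_of_pos Real.pi_pos]
    rw [h9]
    have h10 := intervalIntegral.norm_integral_le_integral_norm (μ := volume) (f := fun y =>
      (F (pl σ y) + H (pl σ y)) * (o (pl σ y) *
        ((z - z') / ((pl σ y - z) * (pl σ y - z'))))) hcd
    calc 1 / (2 * π) * ‖∫ y in c..d, (F (pl σ y) + H (pl σ y)) * (o (pl σ y) *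
          ((z - z') / ((pl σ y - z) * (pl σ y - z'))))‖
        ≤ 1 / (2 * π) * ∫ y in c..d, ‖(F (pl σ y) + H (pl σ y)) * (o (pl σ y) *
          ((z - z') / ((pl σ y - z) * (pl σ y - z'))))‖ := by gcongr
      _ = _ := by
        rw [← intervalIntegral.integral_const_mul]
        apply intervalIntegral.integral_congr
        intro y _
        simp only [norm_mul]
        ring
  have e3 : F z = -(J F z + J H z - J F z' - J H z') + (J F z + F z * o z) + J H z - J F z' -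
      (J H z' - H z' * o z') - H z' * o z' := by
    rw [hoz]; ring
  rw [e3]
  refine (norm_sub_le _ _).trans ?_
  rw [norm_mul]
  have s1 := norm_sub_le (-(J F z + J H z - J F z' - J H z') + (J F z + F z * o z) + J H z -
    J F z') (J H z' - H z' * o z')
  have s2 := norm_sub_le (-(J F z + J H z - J F z' - J H z') + (J F z + F z * o z) + J H z)
    (J F z')
  have s3 := norm_add_le (-(J F z + J H z - J F z' - J H z') + (J F z + F z * o z)) (J H z)
  have s4 := norm_add_le (-(J F z + J H z - J F z' - J H z')) (J F z + F z * o z)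
  rw [norm_neg] at s4
  have c1 : ‖J F z + F z * o z‖ ≤ e := b1
  have c2 : ‖J F z'‖ ≤ e := b2
  have c3 : ‖J H z‖ ≤ e := b3
  have c4 : ‖J H z' - H z' * o z'‖ ≤ e := b4
  linarith

/-- norm of a point with separated real and imaginary parts -/
lemma norm_ge {w : ℂ} {L u Y : ℝ} (hL : 0 < L) (hu : 0 ≤ u) (h1 : u ≤ L * |w.re|)
    (h2 : L * w.im = Y) : Real.sqrt (u ^ 2 + Y ^ 2) / L ≤ ‖w‖ := by
  rw [div_le_iff₀ hL]
  have h3 : ‖w‖ * L = Real.sqrt ((L * |w.re|) ^ 2 + Y ^ 2) := by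
    rw [← h2, Complex.norm_eq_sqrt_sq_add_sq, ← Real.sqrt_sq hL.le]
    rw [← Real.sqrt_mul (by positivity)]
    congr 1
    rw [Real.sqrt_sq hL.le, mul_pow, mul_pow, sq_abs]
    ring
  rw [h3]
  apply Real.sqrt_le_sqrt
  gcongr

end ReprAux

namespace ReprAux

lemma sw_re (T t x : ℝ) : (sw T t (x : ℂ)).re = 1 / 2 + x / Real.log T := by
  have h : sw T t (x : ℂ) = ((1 / 2 + x / Real.log T : ℝ) : ℂ) + (t : ℂ) * I := by
    unfold sw; push_cast; ring
  rw [h]; simp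

lemma sw_im (T t x : ℝ) : (sw T t (x : ℂ)).im = t := by
  have h : sw T t (x : ℂ) = ((1 / 2 + x / Real.log T : ℝ) : ℂ) + (t : ℂ) * I := by
    unfold sw; push_cast; ring
  rw [h]; simp

lemma norm_four {z : ℂ} {t₀ : ℝ} (hzi : z.im = t₀) (hz : |z.re| ≤ 4) :
    ‖z - (t₀ : ℂ) * I‖ ≤ 4 := by
  have e : z - (t₀ : ℂ) * I = (z.re : ℂ) := by apply Complex.ext <;> simp [hzi]
  rw [e, Complex.norm_real, Real.norm_eq_abs]
  exact hz

lemma om_norm {M Δ : ℝ} (hM : 0 < M) (z s : ℂ) :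
    ‖om M Δ z s‖ = M ^ (s.re - z.re) *
      Real.exp (((s.re - z.re) ^ 2 - (s.im - z.im) ^ 2) / Δ ^ 2) := by
  unfold om
  rw [norm_mul, Complex.norm_cpow_eq_rpow_re_of_pos hM, Complex.norm_exp]
  have h1 : (((s - z) / (Δ : ℂ)) ^ 2).re
      = ((s.re - z.re) ^ 2 - (s.im - z.im) ^ 2) / Δ ^ 2 := by
    have h2 : ((s - z) / (Δ : ℂ)) ^ 2
        = (((s.re - z.re : ℝ) : ℂ) + ((s.im - z.im : ℝ) : ℂ) * I) ^ 2 / ((Δ ^ 2 : ℝ) : ℂ) := by
      have h3 : s - z = (((s.re - z.re : ℝ) : ℂ) + ((s.im - z.im : ℝ) : ℂ) * I) := by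
        apply Complex.ext <;> simp
      rw [div_pow, ← h3]
      push_cast
      ring
    rw [h2, Complex.div_ofReal_re]
    congr 1
    simp [pow_two, Complex.add_re, Complex.mul_re, Complex.mul_im]
  rw [h1, Complex.sub_re]

lemma om_cont {M Δ : ℝ} (hM : 0 < M) (z : ℂ) : Continuous (om M Δ z) := by
  unfold om
  have hM' : (M : ℂ) ≠ 0 := by exact_mod_cast hM.ne'
  have h1 : Differentiable ℂ (fun s : ℂ => (M : ℂ) ^ (s - z) *
      Complex.exp (((s - z) / (Δ : ℂ)) ^ 2)) :=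
    ((differentiable_id.sub_const z).const_cpow (Or.inl hM')).mul
      (((differentiable_id.sub_const z).div_const _).pow 2).cexp
  exact h1.continuous

lemma kk_cont {ρ : ℝ} (hρ : 0 < ρ) (L t₀ : ℝ) :
    Continuous (fun t : ℝ => L * kk ρ (L * (t - t₀))) := by
  unfold kk
  refine continuous_const.mul (Continuous.div continuous_const ?_ ?_)
  · fun_prop
  · intro t
    have q1 : 0 < Real.sqrt (1 / 16 + (L * (t - t₀)) ^ 2) := Real.sqrt_pos.2 (by positivity)
    have q2 : 0 < Real.sqrt (ρ ^ 2 / 4 + (L * (t - t₀)) ^ 2) := Real.sqrt_pos.2 (by positivity)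
    positivity

end ReprAux

/-- MODULE REPR. The representation formula. Put `L = log T`, `b = δ/L`, `α = al T`, `N = Nn δ T`,
`M = N + 1/2`, `Δ = T^{1-δ/4}`, `z = sw T t₀ x`, `z' = sw T t₀ (x - ρ) = z - ρ/L`. On the line
`mf = Fh + Hl` (`1 + 2b - conj s = s` there, `w + conj w = 2 Re w`). Apply `close_right` to `Fh`
with `p = z` (right of the line) and `p = z'` (left of it), `close_left` to `Hl` with the same two
points, and subtract:
`(1/2π) ∫ mf om (1/(s-z) - 1/(s-z')) = -Fh(z) - Hl(z') om(z') + O(4/T)` (`om(z) = 1`).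
`1/(s-z) - 1/(s-z') = (ρ/L)/((s-z)(s-z'))`, and with `y = L(t-t₀)`:
`‖s-z‖ = √((x-δ)² + y²)/L ≥ √(1/16 + y²)/L`, `‖s-z'‖ ≥ √(ρ²/4 + y²)/L`
(`ρ - x + δ ≥ ρ/2` as `x ≤ X₁ ≤ ρ/2`), `‖om(s)‖ ≤ M^{(δ-x)/L} e^{1} ≤ e` hence
`(1/2π) ‖om‖ ≤ 1`; `‖om(z')‖ = M^{-ρ/L} e^{(ρ/L)²/Δ²} ≤ 2 M^{-ρ/L}`. -/
theorem repr_le (hRH : RiemannHypothesis) {δ ε A X₁ R₁ : ℝ} (hδ : 0 < δ) (hδ1 : δ ≤ 1 / 16)
    (hε : 0 < ε) (hε1 : ε ≤ 1 / 8) (hA : 0 < A) (hX₁ : 1 / 2 ≤ X₁) : ∀ᶠ T : ℝ in atTop,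
      ∀ a : ℕ → ℝ, (∀ n, |a n| ≤ A) → ∀ x ρ t₀ : ℝ, 1 / 2 ≤ x → x ≤ X₁ → 2 * X₁ ≤ ρ →
        ρ ≤ R₁ → t₀ ∈ Icc ((1 / 2 + 2 * ε) * T) ((1 - 2 * ε) * T) →
        ‖Fh a (al T) (Nn δ T) (sw T t₀ x)‖ ≤
          (∫ t in (t₀ - ε * T)..(t₀ + ε * T),
            ‖mf a (al T) (δ / Real.log T) (Nn δ T) t‖ *
              (Real.log T * kk ρ (Real.log T * (t - t₀)))) +
          2 * ((Nn δ T : ℝ) + 1 / 2) ^ (-(ρ / Real.log T)) *
            ‖Hl a (al T) (δ / Real.log T) (Nn δ T) (sw T t₀ ((x - ρ : ℝ) : ℂ))‖ + 1 := by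
  obtain ⟨C₁, hC₁⟩ := Fh_bound hRH hδ hδ1 hε hε1 hA
  obtain ⟨C₂, hC₂⟩ := Hl_bound hRH hδ hδ1 hε hε1 hA
  have hLL : ∀ᶠ T : ℝ in atTop, 4 + 2 * |X₁| + 2 * |R₁| ≤ Real.log T :=
    Real.tendsto_log_atTop.eventually_ge_atTop _
  filter_upwards [hC₁, hC₂, close_right (C₁ := C₁) hδ (by linarith) hε hε1,
    close_left (C₁ := C₂) hδ (by linarith) hε hε1, hLL, eventually_ge_atTop (4 : ℝ)]
    with T hF hH hcr hcl hL hT4
  intro a ha x ρ t₀ hx hxX hρ hρR ht₀
  obtain ⟨F1, F2, F3⟩ := hF a ha t₀ ht₀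
  obtain ⟨H1, H2, H3⟩ := hH a ha t₀ ht₀
  have hT0 : 0 < T := by linarith
  set L := Real.log T with hLdef
  have hX0 : 0 ≤ |X₁| := abs_nonneg _
  have hR0 : 0 ≤ |R₁| := abs_nonneg _
  have hX1 : X₁ ≤ |X₁| := le_abs_self _
  have hR1 : R₁ ≤ |R₁| := le_abs_self _
  have hL4 : 4 ≤ L := by linarith
  have hL0 : 0 < L := by linarith
  set z : ℂ := sw T t₀ x with hz
  set z' : ℂ := sw T t₀ ((x - ρ : ℝ) : ℂ) with hz'
  have zre : z.re = 1 / 2 + x / L := ReprAux.sw_re T t₀ x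
  have zim : z.im = t₀ := ReprAux.sw_im T t₀ x
  have zre' : z'.re = 1 / 2 + (x - ρ) / L := ReprAux.sw_re T t₀ (x - ρ)
  have zim' : z'.im = t₀ := ReprAux.sw_im T t₀ (x - ρ)
  have hz4 : ‖z - (t₀ : ℂ) * I‖ ≤ 4 := by
    refine ReprAux.norm_four zim ?_
    rw [zre, abs_le]
    have h1 : x / L ≤ 1 := by rw [div_le_one hL0]; linarith
    have h2 : 0 ≤ x / L := by positivity
    constructor <;> linarith
  have hz4' : ‖z' - (t₀ : ℂ) * I‖ ≤ 4 := by
    refine ReprAux.norm_four zim' ?_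
    rw [zre', abs_le]
    have h1 : (x - ρ) / L ≤ 1 := by rw [div_le_one hL0]; linarith
    have h2 : -1 ≤ (x - ρ) / L := by rw [le_div_iff₀ hL0]; linarith
    constructor <;> linarith
  have hδL : δ / L ≤ 1 / 2 := by rw [div_le_iff₀ hL0]; linarith
  have hδL0 : 0 ≤ δ / L := by positivity
  have lt1 : 1 / 2 + δ / L < z.re := by
    rw [zre]
    have : δ / L < x / L := div_lt_div_of_pos_right (by linarith) hL0
    linarith
  have lt2 : z'.re < 1 / 2 + δ / L := by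
    rw [zre']
    have : (x - ρ) / L < δ / L := div_lt_div_of_pos_right (by linarith) hL0
    linarith
  have r1 := hcr (Fh a (al T) (Nn δ T)) (1 / 2 + δ / L) t₀ z z (by linarith) (by linarith) hz4
    zim zim hz4 lt1.ne' F1 F2 F3
  have r2 := hcr (Fh a (al T) (Nn δ T)) (1 / 2 + δ / L) t₀ z z' (by linarith) (by linarith) hz4
    zim zim' hz4' lt2.ne F1 F2 F3
  have l1 := hcl (Hl a (al T) (δ / L) (Nn δ T)) (1 / 2 + δ / L) t₀ z z (by linarith)
    (by linarith) hz4 zim zim hz4 lt1.ne' H1 H2 H3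
  have l2 := hcl (Hl a (al T) (δ / L) (Nn δ T)) (1 / 2 + δ / L) t₀ z z' (by linarith)
    (by linarith) hz4 zim zim' hz4' lt2.ne H1 H2 H3
  rw [if_pos lt1] at r1
  rw [if_neg (not_lt.2 lt2.le), add_zero] at r2
  rw [if_neg (not_lt.2 lt1.le), sub_zero] at l1
  rw [if_pos lt2] at l2
  have hN1 : (1 : ℝ) ≤ (Nn δ T : ℝ) := by
    have h1 : (1 : ℝ) ≤ T ^ (1 - δ) := Real.one_le_rpow (by linarith) (by linarith)
    have : 1 ≤ Nn δ T := Nat.le_floor (by exact_mod_cast h1)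
    exact_mod_cast this
  set M : ℝ := (Nn δ T : ℝ) + 1 / 2 with hM
  have hM1 : 1 ≤ M := by linarith
  have hM0 : 0 < M := by linarith
  set Δ : ℝ := T ^ (1 - δ / 4) with hΔ
  have hΔ1 : 1 ≤ Δ := Real.one_le_rpow (by linarith) (by linarith)
  have hcd : t₀ - ε * T ≤ t₀ + ε * T := by
    have : 0 ≤ ε * T := by positivity
    linarith
  have im_mem : ∀ y ∈ Icc (t₀ - ε * T) (t₀ + ε * T), |(pl (1 / 2 + δ / L) y).im - t₀| ≤ ε * T := by
    intro y hy
    have : (pl (1 / 2 + δ / L) y).im = y := by simp [pl]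
    rw [this, abs_le]
    constructor <;> linarith [hy.1, hy.2]
  have re_pl : ∀ y : ℝ, (pl (1 / 2 + δ / L) y).re = 1 / 2 + δ / L := by
    intro y; simp [pl]
  have cF : ContinuousOn (fun y => Fh a (al T) (Nn δ T) (pl (1 / 2 + δ / L) y))
      (Icc (t₀ - ε * T) (t₀ + ε * T)) :=
    F1.continuousOn.comp (ReprAux.cont_pl _).continuousOn
      (fun y hy => ⟨(re_pl y).ge, im_mem y hy⟩)
  have cH : ContinuousOn (fun y => Hl a (al T) (δ / L) (Nn δ T) (pl (1 / 2 + δ / L) y))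
      (Icc (t₀ - ε * T) (t₀ + ε * T)) :=
    H1.continuousOn.comp (ReprAux.cont_pl _).continuousOn
      (fun y hy => ⟨(re_pl y).le, im_mem y hy⟩)
  have ozz : om M Δ z z = 1 := by
    unfold om; simp
  have key := ReprAux.comb hcd cF cH (ReprAux.om_cont hM0 (Δ := Δ) z) lt1.ne' lt2.ne
    r1 r2 l1 l2 ozz
  have co : Continuous (fun y : ℝ => om M Δ z (pl (1 / 2 + δ / L) y)) :=
    (ReprAux.om_cont hM0 (Δ := Δ) z).comp (ReprAux.cont_pl _)
  have hρ0 : 0 < ρ := by linarith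
  have zz : z - z' = ((ρ / L : ℝ) : ℂ) := by
    apply Complex.ext
    · rw [Complex.sub_re, zre, zre', Complex.ofReal_re]
      field_simp
      ring
    · rw [Complex.sub_im, zim, zim', Complex.ofReal_im, sub_self]
  have hint : (∫ y in (t₀ - ε * T)..(t₀ + ε * T),
      ‖Fh a (al T) (Nn δ T) (pl (1 / 2 + δ / L) y) +
        Hl a (al T) (δ / L) (Nn δ T) (pl (1 / 2 + δ / L) y)‖ *
        (1 / (2 * π) * ‖om M Δ z (pl (1 / 2 + δ / L) y)‖ *
          ‖(z - z') / ((pl (1 / 2 + δ / L) y - z) * (pl (1 / 2 + δ / L) y - z'))‖)) ≤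
      ∫ t in (t₀ - ε * T)..(t₀ + ε * T), ‖mf a (al T) (δ / L) (Nn δ T) t‖ *
        (L * kk ρ (L * (t - t₀))) := by
    apply intervalIntegral.integral_mono_on hcd
    · apply ContinuousOn.intervalIntegrable
      rw [uIcc_of_le hcd]
      refine ((cF.add cH).norm).mul ((continuousOn_const.mul co.norm.continuousOn).mul ?_)
      refine ContinuousOn.norm (ContinuousOn.div continuousOn_const ?_ ?_)
      · exact (((ReprAux.cont_pl _).sub continuous_const).mul
          ((ReprAux.cont_pl _).sub continuous_const)).continuousOn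
      · intro y _
        exact mul_ne_zero (ReprAux.pl_ne lt1.ne') (ReprAux.pl_ne lt2.ne)
    · apply ContinuousOn.intervalIntegrable
      rw [uIcc_of_le hcd]
      refine ContinuousOn.mul ?_ (ReprAux.kk_cont hρ0 L t₀).continuousOn
      refine ContinuousOn.norm ((cF.add cH).congr ?_)
      intro y _
      exact (ReprAux.line_sum a (al T) (δ / L) (Nn δ T) y).symm
    · intro y hy
      rw [ReprAux.line_sum]
      refine mul_le_mul_of_nonneg_left ?_ (norm_nonneg _)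
      have n1 : Real.sqrt ((1 / 4) ^ 2 + (L * (y - t₀)) ^ 2) / L ≤
          ‖pl (1 / 2 + δ / L) y - z‖ := by
        refine ReprAux.norm_ge hL0 (by norm_num) ?_ ?_
        · rw [Complex.sub_re, re_pl, zre]
          have h1 : (1 / 2 + δ / L - (1 / 2 + x / L)) = -((x - δ) / L) := by
            field_simp; ring
          rw [h1, abs_neg, abs_of_nonneg (div_nonneg (by linarith) hL0.le),
            mul_div_cancel₀ _ hL0.ne']
          linarith
        · rw [Complex.sub_im, zim]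
          congr 2
          simp [pl]
      have n2 : Real.sqrt ((ρ / 2) ^ 2 + (L * (y - t₀)) ^ 2) / L ≤
          ‖pl (1 / 2 + δ / L) y - z'‖ := by
        refine ReprAux.norm_ge hL0 (by positivity) ?_ ?_
        · rw [Complex.sub_re, re_pl, zre']
          have h1 : (1 / 2 + δ / L - (1 / 2 + (x - ρ) / L)) = ((δ - x + ρ) / L) := by
            field_simp; ring
          rw [h1, abs_of_nonneg (div_nonneg (by linarith) hL0.le),
            mul_div_cancel₀ _ hL0.ne']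
          linarith
        · rw [Complex.sub_im, zim']
          congr 2
          simp [pl]
      have n3 : ‖om M Δ z (pl (1 / 2 + δ / L) y)‖ ≤ Real.exp 1 := by
        rw [ReprAux.om_norm hM0, re_pl, zre]
        have h1 : M ^ (1 / 2 + δ / L - (1 / 2 + x / L)) ≤ 1 := by
          apply Real.rpow_le_one_of_one_le_of_nonpos hM1
          have : δ / L ≤ x / L := div_le_div_of_nonneg_right (by linarith) hL0.le
          linarith
        have h2 : Real.exp (((1 / 2 + δ / L - (1 / 2 + x / L)) ^ 2 -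
            ((pl (1 / 2 + δ / L) y).im - z.im) ^ 2) / Δ ^ 2) ≤ Real.exp 1 := by
          apply Real.exp_le_exp.2
          rw [div_le_one (by positivity)]
          have h3 : (1 / 2 + δ / L - (1 / 2 + x / L)) = -((x - δ) / L) := by
            field_simp; ring
          have h4 : 0 ≤ (x - δ) / L := div_nonneg (by linarith) hL0.le
          have h5 : (x - δ) / L ≤ 1 := by rw [div_le_one hL0]; linarith
          have h6 : (1 : ℝ) ≤ Δ ^ 2 := one_le_pow₀ hΔ1
          rw [h3, neg_sq]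
          nlinarith [sq_nonneg ((pl (1 / 2 + δ / L) y).im - z.im)]
        calc _ ≤ 1 * Real.exp 1 := mul_le_mul h1 h2 (Real.exp_pos _).le one_pos.le
          _ = Real.exp 1 := one_mul _
      have h7 : 1 / (2 * π) * ‖om M Δ z (pl (1 / 2 + δ / L) y)‖ ≤ 1 := by
        have h8 : 1 / (2 * π) * Real.exp 1 ≤ 1 := by
          rw [one_div, inv_mul_le_iff₀ (by positivity)]
          nlinarith [Real.pi_gt_three, Real.exp_one_lt_d9]
        refine le_trans ?_ h8
        gcongr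
      have n4 : ‖(z - z') / ((pl (1 / 2 + δ / L) y - z) * (pl (1 / 2 + δ / L) y - z'))‖ ≤
          L * kk ρ (L * (y - t₀)) := by
        rw [norm_div, norm_mul, zz, Complex.norm_real, Real.norm_eq_abs,
          abs_of_pos (div_pos hρ0 hL0)]
        have q1 : 0 < Real.sqrt ((1 / 4) ^ 2 + (L * (y - t₀)) ^ 2) :=
          Real.sqrt_pos.2 (by positivity)
        have q2 : 0 < Real.sqrt ((ρ / 2) ^ 2 + (L * (y - t₀)) ^ 2) :=
          Real.sqrt_pos.2 (by positivity)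
        calc ρ / L / (‖pl (1 / 2 + δ / L) y - z‖ * ‖pl (1 / 2 + δ / L) y - z'‖)
            ≤ ρ / L / ((Real.sqrt ((1 / 4) ^ 2 + (L * (y - t₀)) ^ 2) / L) *
              (Real.sqrt ((ρ / 2) ^ 2 + (L * (y - t₀)) ^ 2) / L)) := by
              apply div_le_div_of_nonneg_left (by positivity) (by positivity)
              exact mul_le_mul n1 n2 (by positivity) (norm_nonneg _)
          _ = L * kk ρ (L * (y - t₀)) := by
              unfold kk
              rw [show (1 / 16 : ℝ) = (1 / 4) ^ 2 by norm_num,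
                show ρ ^ 2 / 4 = (ρ / 2) ^ 2 by ring]
              field_simp
      calc _ ≤ 1 * (L * kk ρ (L * (y - t₀))) :=
            mul_le_mul h7 n4 (norm_nonneg _) one_pos.le
        _ = _ := one_mul _
  have hoz' : ‖om M Δ z z'‖ ≤ 2 * M ^ (-(ρ / L)) := by
    rw [ReprAux.om_norm hM0, zre, zre', zim, zim']
    have h1 : 1 / 2 + (x - ρ) / L - (1 / 2 + x / L) = -(ρ / L) := by field_simp; ring
    rw [h1, mul_comm]
    refine mul_le_mul_of_nonneg_right ?_ (Real.rpow_nonneg hM0.le _)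
    have h2 : Real.exp (Real.log 2) = 2 := Real.exp_log (by norm_num)
    refine le_trans (Real.exp_le_exp.2 ?_) h2.le
    have h3 : ρ / L ≤ 1 / 2 := by rw [div_le_iff₀ hL0]; linarith
    have h4 : 0 ≤ ρ / L := by positivity
    have h5 := Real.log_two_gt_d9
    have h6 : (1 : ℝ) ≤ Δ ^ 2 := one_le_pow₀ hΔ1
    rw [div_le_iff₀ (by positivity)]
    nlinarith
  have h4T : 4 * (1 / T) ≤ 1 := by
    rw [mul_one_div, div_le_one hT0]; exact hT4
  calc ‖Fh a (al T) (Nn δ T) z‖ ≤ _ := key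
    _ ≤ (∫ t in (t₀ - ε * T)..(t₀ + ε * T), ‖mf a (al T) (δ / L) (Nn δ T) t‖ *
        (L * kk ρ (L * (t - t₀)))) + ‖Hl a (al T) (δ / L) (Nn δ T) z'‖ *
        (2 * M ^ (-(ρ / L))) + 1 := by
        gcongr
    _ = _ := by ring

end Pool.Agent.MP_67227b_nt.Ah
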