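import Pool.Agent.MP_67227b_nt.Ah.AhHl
import Pool.Agent.MP_67227b_nt.Ah.AhMfm
import Pool.Agent.MP_67227b_nt.Ah.AhRepr

set_option autoImplicit false

open Filter Topology Set MeasureTheory Complex
open scoped Real ArithmeticFunction ContDiff

namespace Pool.Agent.MP_67227b_nt.Ah

open Pool.Agent.Lib.ZetaCount_helper33 Pool.Agent.MP_67227b_nt Pool.Agent.MP_67227b_nt.Mo
open Pool.Agent.MP_67227b_nt.Sg Pool.Agent.MP_67227b_nt.Pp
open Pool.Agent.MP_67227b_nt.Mo.MomentBAux (DP)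

namespace FhmAux

lemma cont_sum (c : ℕ → ℂ) (N : ℕ) :
    Continuous (fun s : ℂ => ∑ m ∈ Finset.Icc 1 N, c m * (m : ℂ) ^ (-s)) := by
  apply continuous_finsetSum
  intro n hn
  apply Continuous.mul continuous_const
  apply Continuous.const_cpow continuous_neg
  left
  have : 1 ≤ n := (Finset.mem_Icc.mp hn).1
  exact_mod_cast (by omega : n ≠ 0)

lemma cont_Aa (a : ℕ → ℝ) (N : ℕ) : Continuous (Aa a N) := cont_sum (fun m => (a m : ℂ)) N

lemma cont_Pl (a : ℕ → ℝ) (α : ℝ) (N : ℕ) : Continuous (Pl a α N) :=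
  cont_sum (fun m => ca a α N m) N

lemma cont_sw (T : ℝ) (w : ℂ) : Continuous fun t : ℝ => sw T t w := by
  unfold sw
  fun_prop

lemma sw_re (T t x : ℝ) : (sw T t (x : ℂ)).re = 1 / 2 + x / Real.log T := by
  unfold sw
  rw [← Complex.ofReal_div]
  simp

lemma sw_im (T t x : ℝ) : (sw T t (x : ℂ)).im = t := by
  unfold sw
  rw [← Complex.ofReal_div]
  simp

lemma sw_eq_pl (T t x : ℝ) : sw T t (x : ℂ) = pl (1 / 2 + x / Real.log T) t := by
  apply Complex.ext
  · rw [sw_re, pl_re]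
  · rw [sw_im, pl_im]

lemma cont_Hq (hRH : RiemannHypothesis) {α T x A B : ℝ} (hα : 0 ≤ α) (hL : 0 < Real.log T)
    (hx : 0 < x) (hA : 0 < A) : ContinuousOn (fun t : ℝ => Hq α (sw T t (x : ℂ))) (Icc A B) := by
  intro t ht
  have h1 : DifferentiableAt ℂ (Hq α) (sw T t (x : ℂ)) := by
    apply differentiableAt_Hq hRH hα
    · rw [sw_re]
      have : 0 < x / Real.log T := by positivity
      linarith
    · rw [sw_im]
      linarith [ht.1]
  exact (ContinuousAt.comp (f := fun t : ℝ => sw T t (x : ℂ)) h1.continuousAt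
    (cont_sw T x).continuousAt).continuousWithinAt

lemma refl_pt (T t y δ : ℝ) :
    1 + 2 * ((δ / Real.log T : ℝ) : ℂ) - (starRingEnd ℂ) (sw T t (y : ℂ)) =
      sw T t ((2 * δ - y : ℝ) : ℂ) := by
  unfold sw
  apply Complex.ext
  · rw [← Complex.ofReal_div, ← Complex.ofReal_div]
    simp
    ring
  · rw [← Complex.ofReal_div, ← Complex.ofReal_div]
    simp

lemma cont_Fh (hRH : RiemannHypothesis) (a : ℕ → ℝ) (N : ℕ) {α T x A B : ℝ} (hα : 0 ≤ α)
    (hL : 0 < Real.log T) (hx : 0 < x) (hA : 0 < A) :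
    ContinuousOn (fun t : ℝ => ‖Fh a α N (sw T t (x : ℂ))‖) (Icc A B) := by
  unfold Fh
  apply ContinuousOn.norm
  apply ContinuousOn.sub
  · apply (cont_Hq hRH hα hL hx hA).mul
    exact ((cont_Aa _ _).comp ((cont_sw _ _).add continuous_const)).continuousOn
  · exact ((cont_Pl _ _ _).comp (cont_sw _ _)).continuousOn

lemma cont_Hl (hRH : RiemannHypothesis) (a : ℕ → ℝ) (N : ℕ) {α T y δ A B : ℝ} (hα : 0 ≤ α)
    (hL : 0 < Real.log T) (hx : 0 < 2 * δ - y) (hA : 0 < A) :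
    ContinuousOn (fun t : ℝ => ‖Hl a α (δ / Real.log T) N (sw T t (y : ℂ))‖) (Icc A B) := by
  have e3 : (fun t : ℝ => ‖Hl a α (δ / Real.log T) N (sw T t (y : ℂ))‖) = fun t : ℝ =>
        ‖Pl a α N (sw T t (y : ℂ)) +
          (starRingEnd ℂ) (Hq α (sw T t ((2 * δ - y : ℝ) : ℂ))) *
          Aa a N (sw T t (y : ℂ) + (α : ℂ) * I)‖ := by
    ext t
    unfold Hl
    rw [refl_pt]
  rw [e3]
  apply ContinuousOn.norm
  apply ContinuousOn.add
  · exact ((cont_Pl _ _ _).comp (cont_sw _ _)).continuousOn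
  · apply ContinuousOn.mul
    · exact Complex.continuous_conj.comp_continuousOn (cont_Hq hRH hα hL hx hA)
    · exact ((cont_Aa _ _).comp ((cont_sw _ _).add continuous_const)).continuousOn

lemma cont_mf (hRH : RiemannHypothesis) (a : ℕ → ℝ) (N : ℕ) {α T δ A B : ℝ} (hα : 0 ≤ α)
    (hL : 0 < Real.log T) (hδ : 0 < δ) (hA : 0 < A) :
    ContinuousOn (fun t : ℝ => ‖mf a α (δ / Real.log T) N t‖) (Icc A B) := by
  unfold mf
  apply ContinuousOn.norm
  apply ContinuousOn.mul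
  · apply continuousOn_const.mul
    have h1 := cont_Hq (B := B) hRH hα hL hδ hA
    simp only [sw_eq_pl] at h1
    exact Complex.continuous_ofReal.comp_continuousOn (Complex.continuous_re.comp_continuousOn h1)
  · have hpl : Continuous fun t : ℝ => pl (1 / 2 + δ / Real.log T) (t + α) := by
      unfold pl
      fun_prop
    exact ((cont_Aa _ _).comp hpl).continuousOn

lemma kk_cont {ρ : ℝ} (hρ : 0 < ρ) : Continuous (kk ρ) := by
  unfold kk
  apply Continuous.div continuous_const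
  · fun_prop
  · intro y
    positivity

lemma kk_nonneg {ρ : ℝ} (hρ : 0 ≤ ρ) (y : ℝ) : 0 ≤ kk ρ y := by
  unfold kk
  positivity

/-- The averaged convolution is a continuous function of the centre. -/
lemma conv_cont {g k : ℝ → ℝ} {A B X L : ℝ} (hX : 0 ≤ X) (hAB : A ≤ B)
    (hg : ContinuousOn g (Icc A B)) (hk : Continuous k) :
    ContinuousOn (fun t₀ : ℝ => ∫ t in (t₀ - X)..(t₀ + X), g t * (L * k (L * (t - t₀))))
      (Icc (A + X) (B - X)) := by
  have hg' : Continuous (IccExtend hAB ((Icc A B).restrict g)) :=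
    (continuousOn_iff_continuous_restrict.mp hg).Icc_extend'
  have h1 : ∀ t₀ ∈ Icc (A + X) (B - X),
      ∫ t in (t₀ - X)..(t₀ + X), g t * (L * k (L * (t - t₀))) =
      ∫ y in (-X)..X, IccExtend hAB ((Icc A B).restrict g) (t₀ + y) * (L * k (L * y)) := by
    intro t₀ ht₀
    have h2 : ∫ t in (t₀ - X)..(t₀ + X), g t * (L * k (L * (t - t₀))) =
        ∫ y in (-X)..X, g (t₀ + y) * (L * k (L * ((t₀ + y) - t₀))) := by
      rw [intervalIntegral.integral_comp_add_left (fun t => g t * (L * k (L * (t - t₀)))) t₀]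
      rfl
    rw [h2]
    apply intervalIntegral.integral_congr
    intro y hy
    rw [uIcc_of_le (by linarith)] at hy
    have hm : t₀ + y ∈ Icc A B := ⟨by linarith [ht₀.1, hy.1], by linarith [ht₀.2, hy.2]⟩
    simp only
    rw [IccExtend_of_mem hAB _ hm, add_sub_cancel_left]
    rfl
  have h3 : Continuous fun t₀ : ℝ =>
      ∫ y in (-X)..X, IccExtend hAB ((Icc A B).restrict g) (t₀ + y) * (L * k (L * y)) := by
    apply intervalIntegral.continuous_parametric_intervalIntegral_of_continuous'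
    apply Continuous.mul
    · exact hg'.comp (by fun_prop)
    · fun_prop
  exact h3.continuousOn.congr h1

end FhmAux

open FhmAux in
/-- MODULE FHM. The mean of the high part. Integrate `repr_le` (`ρ = 1/δ`, `X₁ = 1/(4δ)`,
`A = e^K`, `ap_bound`) over `t₀`; `conv_mean` with `g = ‖mf‖`, `k = kk (1/δ)`, `X = εT`, `mf_mean`,
`kk_int`; `Hl_mean`. -/
theorem Fh_mean (hRH : RiemannHypothesis) : ∃ C : ℝ, 0 < C ∧ ∀ δ ε : ℝ, 0 < δ → δ ≤ 1 / 16 →
    0 < ε → ε ≤ 1 / 32 → ∀ l : Filter ℝ, Hyp l → ∀ᶠ n : ℕ in atTop, ∀ᶠ T : ℝ in l,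
      ∀ x : ℝ, 1 / 2 ≤ x → x ≤ 1 / (4 * δ) →
      ∫ t in ((1 / 2 + 4 * ε) * T)..((1 - 4 * ε) * T),
        ‖Fh (am δ n T) (al T) (Nn δ T) (sw T t x)‖ ≤ C * (1 + Real.log (1 / δ)) * T := by
  obtain ⟨Cm, hCm, hmf⟩ := mf_mean hRH
  obtain ⟨Ch, hCh, hHl⟩ := Hl_mean hRH
  obtain ⟨Ck, hCk, hkk⟩ := kk_int
  refine ⟨Ck * Cm + 2 * Ch + 1, by positivity, ?_⟩
  intro δ ε hδ hδ1 hε hε1 l hl
  have hd1 : 16 ≤ 1 / δ := by
    rw [le_div_iff₀ hδ]
    linarith
  have hx3 : 1 / (4 * δ) = 1 / δ / 4 := by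
    field_simp
  have hlog : 0 ≤ Real.log (1 / δ) := Real.log_nonneg (by linarith)
  obtain ⟨hki, hkb⟩ := hkk (1 / δ) (by linarith)
  filter_upwards [hmf δ ε hδ hδ1 hε hε1 l hl, hHl δ ε hδ hδ1 hε hε1] with n hmf hHl
  have hrep := repr_le hRH (δ := δ) (ε := ε) (A := Real.exp (⌈1 / δ⌉₊ : ℕ)) (X₁ := 1 / (4 * δ))
    (R₁ := 1 / δ) hδ hδ1 hε (by linarith) (Real.exp_pos _) (by rw [hx3]; linarith)
  have hL : ∀ᶠ T : ℝ in atTop, 1 ≤ Real.log T := Real.tendsto_log_atTop.eventually_ge_atTop 1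
  filter_upwards [hmf, hl.1 hHl, hl.1 hrep, hl.1 hL, hl.1 (eventually_ge_atTop 1)] with
    T hmf hHl hrep hL hT1 x hx1 hx2
  have hT0 : 0 < T := by linarith
  have hL0 : 0 < Real.log T := by linarith
  have hπ := Real.pi_pos
  have hal : 0 ≤ al T := by unfold al; positivity
  have hη : 0 < δ / ((n : ℝ) + 1) := by positivity
  have hab : ∀ m, |am δ n T m| ≤ Real.exp (⌈1 / δ⌉₊ : ℕ) := fun m => ap_bound hη _ _ _ _
  have hH := hHl x hx1 hx2
  set A : ℝ := (1 / 2 + 4 * ε) * T with hA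
  set B : ℝ := (1 - 4 * ε) * T with hB
  have hA0 : 0 < A := by positivity
  have hAB : A ≤ B := by
    rw [hA, hB]
    apply mul_le_mul_of_nonneg_right _ hT0.le
    linarith
  have hA' : A = (1 / 2 + 3 * ε) * T + ε * T := by rw [hA]; ring
  have hB' : B = (1 - 3 * ε) * T - ε * T := by rw [hB]; ring
  have hX : 0 ≤ ε * T := by positivity
  have hA30 : 0 < (1 / 2 + 3 * ε) * T := by positivity
  have cmf := cont_mf (B := (1 - 3 * ε) * T) hRH (am δ n T) (Nn δ T) hal hL0 hδ hA30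
  have hkc : Continuous (kk (1 / δ)) := kk_cont (by positivity)
  have hconv := conv_mean (g := fun t => ‖mf (am δ n T) (al T) (δ / Real.log T) (Nn δ T) t‖)
    (k := kk (1 / δ)) (A := (1 / 2 + 3 * ε) * T) (B := (1 - 3 * ε) * T) (X := ε * T)
    (L := Real.log T) hL0 hX (by rw [← hA', ← hB']; exact hAB) cmf
    (fun t _ => norm_nonneg _) hkc (kk_nonneg (by positivity)) hki
  have cconv := conv_cont (L := Real.log T) (k := kk (1 / δ)) hX
    (by nlinarith : (1 / 2 + 3 * ε) * T ≤ (1 - 3 * ε) * T) cmf hkc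
  rw [← hA', ← hB'] at hconv cconv
  set W : ℝ := ((Nn δ T : ℝ) + 1 / 2) ^ (-(1 / δ / Real.log T)) with hW
  have cHl : ContinuousOn (fun t : ℝ => W * ‖Hl (am δ n T) (al T) (δ / Real.log T) (Nn δ T)
      (sw T t ((x - 1 / δ : ℝ) : ℂ))‖) (Icc A B) :=
    continuousOn_const.mul (cont_Hl hRH _ _ hal hL0 (by rw [hx3] at hx2; linarith) hA0)
  have i1 := cconv.intervalIntegrable_of_Icc (μ := volume) hAB
  have i2 := cHl.intervalIntegrable_of_Icc (μ := volume) hAB
  have i3 := (cont_Fh (B := B) (T := T) (x := x) hRH (am δ n T) (Nn δ T) hal hL0 (by linarith)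
    hA0).intervalIntegrable_of_Icc (μ := volume) hAB
  have i4 : IntervalIntegrable (fun _ : ℝ => (1 : ℝ)) volume A B := intervalIntegrable_const
  have key : ∀ t ∈ Icc A B, ‖Fh (am δ n T) (al T) (Nn δ T) (sw T t (x : ℂ))‖ ≤
      ((∫ s in (t - ε * T)..(t + ε * T),
        ‖mf (am δ n T) (al T) (δ / Real.log T) (Nn δ T) s‖ *
          (Real.log T * kk (1 / δ) (Real.log T * (s - t)))) +
      2 * (W * ‖Hl (am δ n T) (al T) (δ / Real.log T) (Nn δ T)
        (sw T t ((x - 1 / δ : ℝ) : ℂ))‖)) + 1 := by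
    intro t ht
    have h1 := hrep (am δ n T) hab x (1 / δ) t hx1 hx2 (by rw [hx3]; linarith) le_rfl
      ⟨by nlinarith [ht.1], by nlinarith [ht.2]⟩
    rw [← mul_assoc]
    exact h1
  have hkk2 : ∫ y : ℝ, kk (1 / δ) y ≤ Ck * (1 + Real.log (1 / δ)) := hkb
  have hmf0 : 0 ≤ ∫ t in ((1 / 2 + 3 * ε) * T)..((1 - 3 * ε) * T),
      ‖mf (am δ n T) (al T) (δ / Real.log T) (Nn δ T) t‖ := by
    apply intervalIntegral.integral_nonneg (by nlinarith)
    intro t _
    exact norm_nonneg _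
  calc ∫ t in A..B, ‖Fh (am δ n T) (al T) (Nn δ T) (sw T t (x : ℂ))‖
      ≤ ∫ t in A..B, (((∫ s in (t - ε * T)..(t + ε * T),
          ‖mf (am δ n T) (al T) (δ / Real.log T) (Nn δ T) s‖ *
            (Real.log T * kk (1 / δ) (Real.log T * (s - t)))) +
        2 * (W * ‖Hl (am δ n T) (al T) (δ / Real.log T) (Nn δ T)
          (sw T t ((x - 1 / δ : ℝ) : ℂ))‖)) + 1) :=
        intervalIntegral.integral_mono_on hAB i3 ((i1.add (i2.const_mul 2)).add i4) key
    _ = ((∫ t in A..B, ∫ s in (t - ε * T)..(t + ε * T),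
          ‖mf (am δ n T) (al T) (δ / Real.log T) (Nn δ T) s‖ *
            (Real.log T * kk (1 / δ) (Real.log T * (s - t)))) +
        2 * ∫ t in A..B, W * ‖Hl (am δ n T) (al T) (δ / Real.log T) (Nn δ T)
          (sw T t ((x - 1 / δ : ℝ) : ℂ))‖) + (B - A) := by
        rw [intervalIntegral.integral_add (i1.add (i2.const_mul 2)) i4,
          intervalIntegral.integral_add i1 (i2.const_mul 2),
          intervalIntegral.integral_const_mul, intervalIntegral.integral_const, smul_eq_mul,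
          mul_one]
    _ ≤ (Ck * (1 + Real.log (1 / δ)) * (Cm * T) + 2 * (Ch * T)) + T := by
        have e1 : B - A ≤ T := by
          rw [hA, hB]
          nlinarith
        have e2 : (∫ y : ℝ, kk (1 / δ) y) * ∫ t in ((1 / 2 + 3 * ε) * T)..((1 - 3 * ε) * T),
            ‖mf (am δ n T) (al T) (δ / Real.log T) (Nn δ T) t‖ ≤
            Ck * (1 + Real.log (1 / δ)) * (Cm * T) :=
          mul_le_mul hkk2 hmf hmf0 (by positivity)
        have e3 := hconv.trans e2
        linarith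
    _ ≤ (Ck * Cm + 2 * Ch + 1) * (1 + Real.log (1 / δ)) * T := by
        have e1 : 0 ≤ Real.log (1 / δ) * T := by positivity
        have e2 : 0 ≤ Ch * (Real.log (1 / δ) * T) := by positivity
        nlinarith

end Pool.Agent.MP_67227b_nt.Ah
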