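import Pool.Agent.MP_67227b_nt.Ah.AhBox
import Pool.Agent.MP_67227b_nt.Ah.AhFhm

set_option autoImplicit false

open Filter Topology Set MeasureTheory Complex
open scoped Real ArithmeticFunction ContDiff

namespace Pool.Agent.MP_67227b_nt.Ah

open Pool.Agent.Lib.ZetaCount_helper33 Pool.Agent.MP_67227b_nt Pool.Agent.MP_67227b_nt.Mo
open Pool.Agent.MP_67227b_nt.Sg Pool.Agent.MP_67227b_nt.Pp
open Pool.Agent.MP_67227b_nt.Mo.MomentBAux (DP)

namespace FEventAux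

theorem cont_Pl (a : ℕ → ℝ) (α : ℝ) (N : ℕ) : Continuous (Pl a α N) := by
  unfold Pl
  apply continuous_finsetSum
  intro m hm
  have hm1 : 1 ≤ m := (Finset.mem_Icc.1 hm).1
  have h0 : (m : ℂ) ≠ 0 := by
    have : m ≠ 0 := by omega
    exact_mod_cast this
  apply Continuous.mul continuous_const
  exact Continuous.const_cpow continuous_neg (Or.inl h0)

theorem cont_Am (δ : ℝ) (n : ℕ) (T : ℝ) : Continuous (Am δ n T) := Pp.continuous_Aa _ _

theorem cont_sw (T : ℝ) (w : ℂ) : Continuous fun t : ℝ => sw T t w := by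
  unfold sw
  fun_prop

/-- a box with Markov's inequality, in a form adapted to the application -/
theorem box {F : ℂ → ℝ} {T A B x₂ Y M lam ε : ℝ} (hT : 1 < T) (hx : 1 / 2 ≤ x₂)
    (hY : 0 ≤ Y) (hlam : 0 < lam) (hM0 : 0 ≤ M) (hYε : Y / Real.log T ≤ ε * T)
    (hAB : A + ε * T ≤ B - ε * T)
    (hF : ContinuousOn F {s | 1 / 2 + (1 / 2 : ℝ) / Real.log T ≤ s.re ∧
      s.re ≤ 1 / 2 + x₂ / Real.log T ∧ A ≤ s.im ∧ s.im ≤ B}) (hF0 : ∀ s, 0 ≤ F s)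
    (hM : ∀ x ∈ Icc (1 / 2 : ℝ) x₂, ∫ t in A..B, F (sw T t x) ≤ M) :
    volume.real {t ∈ Icc (A + ε * T) (B - ε * T) |
      ¬ (∫ x in (1 / 2 : ℝ)..x₂, ∫ y in (-Y)..Y, F (sw T t ((x : ℂ) + (y : ℂ) * I))) ≤ lam} ≤
      2 * Y * x₂ * M / lam := by
  have h1 := box_markov (F := F) hT hx hY hlam hM0 (by linarith) hF hF0 hM
  have h2 : {t ∈ Icc (A + ε * T) (B - ε * T) |
      ¬ (∫ x in (1 / 2 : ℝ)..x₂, ∫ y in (-Y)..Y, F (sw T t ((x : ℂ) + (y : ℂ) * I))) ≤ lam} ⊆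
      {t ∈ Icc (A + Y / Real.log T) (B - Y / Real.log T) |
      lam < ∫ x in (1 / 2 : ℝ)..x₂, ∫ y in (-Y)..Y, F (sw T t ((x : ℂ) + (y : ℂ) * I))} := by
    rintro t ⟨⟨h3, h4⟩, h5⟩
    exact ⟨⟨by linarith, by linarith⟩, not_le.1 h5⟩
  have h3 : volume {t ∈ Icc (A + Y / Real.log T) (B - Y / Real.log T) |
      lam < ∫ x in (1 / 2 : ℝ)..x₂, ∫ y in (-Y)..Y, F (sw T t ((x : ℂ) + (y : ℂ) * I))} ≠ ⊤ := by
    refine ne_of_lt (lt_of_le_of_lt (measure_mono (fun t ht => ht.1)) ?_)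
    rw [Real.volume_Icc]
    exact ENNReal.ofReal_lt_top
  refine (measureReal_mono h2 h3).trans (h1.trans ?_)
  have h4 : 2 * Y * (x₂ - 1 / 2) * M ≤ 2 * Y * x₂ * M := by
    have : 0 ≤ 2 * Y * M := by positivity
    nlinarith
  exact div_le_div_of_nonneg_right h4 hlam.le

/-- Cauchy-Schwarz -/
theorem cs {F : ℝ → ℝ} {A B c T : ℝ} (hAB : A ≤ B) (hBT : B - A ≤ T) (hc : 0 < c)
    (hF : Continuous F) (h : ∫ t in A..B, F t ^ 2 ≤ c ^ 2 * T) : ∫ t in A..B, F t ≤ c * T := by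
  have h1 : ∫ t in A..B, F t ≤ ∫ t in A..B, (1 / (2 * c) * F t ^ 2 + c / 2) := by
    apply intervalIntegral.integral_mono_on hAB (hF.intervalIntegrable _ _)
    · apply Continuous.intervalIntegrable
      fun_prop
    · intro t _
      have h2 : 1 / (2 * c) * F t ^ 2 + c / 2 - F t = 1 / (2 * c) * (F t - c) ^ 2 := by
        field_simp
        ring
      have h3 : 0 ≤ 1 / (2 * c) * (F t - c) ^ 2 := by positivity
      linarith
  have h2 : ∫ t in A..B, (1 / (2 * c) * F t ^ 2 + c / 2) =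
      1 / (2 * c) * (∫ t in A..B, F t ^ 2) + c / 2 * (B - A) := by
    rw [intervalIntegral.integral_add, intervalIntegral.integral_const_mul,
      intervalIntegral.integral_const, smul_eq_mul, mul_comm (B - A)]
    · apply Continuous.intervalIntegrable
      fun_prop
    · exact intervalIntegrable_const
  rw [h2] at h1
  calc ∫ t in A..B, F t ≤ 1 / (2 * c) * (∫ t in A..B, F t ^ 2) + c / 2 * (B - A) := h1
    _ ≤ 1 / (2 * c) * (c ^ 2 * T) + c / 2 * T := by gcongr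
    _ = c * T := by field_simp; ring

/-- the choice of `r₀` -/
theorem thr (K ε : ℝ) (hε : 0 < ε) : ∃ r₀ : ℝ, 1 ≤ r₀ ∧ ∀ r : ℝ, r₀ ≤ r →
    K * r ^ 72 ≤ ε * Real.exp r := by
  have h := Real.tendsto_pow_mul_exp_neg_atTop_nhds_zero 72
  have h1 := h.const_mul |K|
  rw [mul_zero] at h1
  have h2 := (h1.eventually (gt_mem_nhds hε)).and (eventually_ge_atTop (1 : ℝ))
  obtain ⟨r₀, hr₀⟩ := eventually_atTop.1 h2
  refine ⟨max r₀ 1, le_max_right _ _, fun r hr => ?_⟩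
  have h3 := (hr₀ r ((le_max_left _ _).trans hr)).1
  have h4 : 0 < Real.exp r := Real.exp_pos r
  have hr0 : 0 ≤ r := zero_le_one.trans ((le_max_right _ _).trans hr)
  have h5 : |K| * r ^ 72 ≤ ε * Real.exp r := by
    rw [Real.exp_neg] at h3
    have h6 : |K| * (r ^ 72 * (Real.exp r)⁻¹) * Real.exp r ≤ ε * Real.exp r :=
      mul_le_mul_of_nonneg_right h3.le h4.le
    have h7 : |K| * (r ^ 72 * (Real.exp r)⁻¹) * Real.exp r = |K| * r ^ 72 := by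
      field_simp
    linarith
  have h6 : K * r ^ 72 ≤ |K| * r ^ 72 := mul_le_mul_of_nonneg_right (le_abs_self K) (by positivity)
  linarith

end FEventAux

open FEventAux in
/-- MODULE EVF. The box integrals of the high part, of `Pl - Am` and of `Am`. `box_markov` with
`Fh_mean` (`x ≤ r^36 + 3/2 ≤ 1/(4δ)`, `δ = e^{-r^12}`, `log (1/δ) = r^12`), `PA_mean`
(`(∫∫ ‖f‖)² ≤ area ∫∫ ‖f‖²`); thresholds `e^r`, `e^{-r^12/4}`, `e^{(5/8) r^12}`, e.g.
`P(∫∫ ‖Fh‖ > e^r) ≤ C r^{24+36+12} e^{-r}`. -/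
theorem F_event (hRH : RiemannHypothesis) {ε : ℝ} (hε : 0 < ε) (hε1 : ε ≤ 1 / 32) :
    ∃ r₀ : ℝ, 1 ≤ r₀ ∧ ∀ r : ℝ, r₀ ≤ r → ∀ l : Filter ℝ, Hyp l →
      ∀ᶠ n : ℕ in atTop, ∀ᶠ T : ℝ in l,
      volume.real {t ∈ Icc ((1 / 2 + 5 * ε) * T) ((1 - 5 * ε) * T) | ¬
        ((∫ x in (1 / 2 : ℝ)..(r ^ 36 + 3 / 2), ∫ y in (-(8 * r ^ 24))..(8 * r ^ 24),
            ‖Fh (am (Real.exp (-r ^ 12)) n T) (al T) (Nn (Real.exp (-r ^ 12)) T)
              (sw T t ((x : ℂ) + (y : ℂ) * I))‖) ≤ Real.exp r ∧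
        (∫ x in (1 / 2 : ℝ)..(r ^ 36 + 3 / 2), ∫ y in (-(8 * r ^ 24))..(8 * r ^ 24),
            ‖Pl (am (Real.exp (-r ^ 12)) n T) (al T) (Nn (Real.exp (-r ^ 12)) T)
              (sw T t ((x : ℂ) + (y : ℂ) * I)) -
              Am (Real.exp (-r ^ 12)) n T (sw T t ((x : ℂ) + (y : ℂ) * I))‖) ≤
          Real.exp (-(r ^ 12 / 4)) ∧
        (∫ x in (1 / 2 : ℝ)..(r ^ 36 + 3 / 2), ∫ y in (-(8 * r ^ 24))..(8 * r ^ 24),
            ‖Am (Real.exp (-r ^ 12)) n T (sw T t ((x : ℂ) + (y : ℂ) * I))‖) ≤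
          Real.exp (5 / 8 * r ^ 12))} ≤ ε * T := by
  obtain ⟨C1, hC1, hFh⟩ := Fh_mean hRH
  obtain ⟨C2, hC2, hPA⟩ := PA_mean
  -- constants
  set c2 : ℝ := Real.sqrt C2 with hc2
  have hc2p : 0 < c2 := Real.sqrt_pos.2 hC2
  have hc2s : c2 ^ 2 = C2 := Real.sq_sqrt hC2.le
  obtain ⟨ra, hra1, hra⟩ := thr (80 * (2 * C1 + c2)) (ε / 3) (by positivity)
  obtain ⟨rb, hrb1, hrb⟩ := thr 16 1 one_pos
  refine ⟨max (max ra rb) 2, le_max_of_le_right (by norm_num), fun r hr l hl => ?_⟩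
  have hra' : ra ≤ r := ((le_max_left _ _).trans (le_max_left _ _)).trans hr
  have hrb' : rb ≤ r := ((le_max_right _ _).trans (le_max_left _ _)).trans hr
  have hr2 : 2 ≤ r := (le_max_right _ _).trans hr
  have hr0 : 0 < r := by linarith
  have hr1 : 1 ≤ r := by linarith
  have hA := hra r hra'
  have hB := hrb r hrb'
  rw [one_mul] at hB
  -- powers of `r`
  have hp12 : 8 * r ≤ r ^ 12 := by
    have h1 : (8 : ℝ) ≤ r ^ 11 := by
      calc (8 : ℝ) ≤ 2 ^ 11 := by norm_num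
        _ ≤ r ^ 11 := by gcongr
    calc 8 * r ≤ r ^ 11 * r := by gcongr
      _ = r ^ 12 := by ring
  have hp12' : 1 ≤ r ^ 12 := one_le_pow₀ hr1
  have hp36 : 1 ≤ r ^ 36 := one_le_pow₀ hr1
  have hp72 : r ^ 36 ≤ r ^ 72 := pow_le_pow_right₀ hr1 (by norm_num)
  have hp72a : 1 ≤ r ^ 72 := one_le_pow₀ hr1
  have hexpr : Real.exp r ≤ Real.exp (r ^ 12) := Real.exp_le_exp.2 (by linarith)
  set δ : ℝ := Real.exp (-r ^ 12) with hδ
  have hδ0 : 0 < δ := Real.exp_pos _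
  have hδinv : 1 / δ = Real.exp (r ^ 12) := by
    rw [hδ, Real.exp_neg, one_div, inv_inv]
  have hδlog : Real.log (1 / δ) = r ^ 12 := by rw [hδinv, Real.log_exp]
  have hδ16 : δ ≤ 1 / 16 := by
    have h1 : 16 ≤ 1 / δ := by
      rw [hδinv]
      calc (16 : ℝ) ≤ 16 * r ^ 72 := by linarith
        _ ≤ Real.exp r := hB
        _ ≤ _ := hexpr
    rw [le_div_iff₀ hδ0] at h1
    linarith
  have hx2 : r ^ 36 + 3 / 2 ≤ 1 / (4 * δ) := by
    have h1 : 1 / (4 * δ) = (1 / δ) / 4 := by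
      field_simp
    rw [h1, hδinv]
    linarith
  have hx2' : r ^ 36 + 3 / 2 ≤ 5 / 2 * r ^ 36 := by linarith
  have hY0 : 0 ≤ 8 * r ^ 24 := by positivity
  -- the three means
  have e1 := hFh δ ε hδ0 hδ16 hε hε1 l hl
  have e2 := hPA δ hδ0 hδ16
  filter_upwards [e1, e2] with n hn1 hn2
  have hlog : ∀ᶠ T : ℝ in l, 1 ≤ Real.log T :=
    hl.1 (Real.tendsto_log_atTop.eventually_ge_atTop 1)
  filter_upwards [hn1, hl.1 hn2, hl.1 (eventually_gt_atTop (1 : ℝ)),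
    hl.1 (eventually_ge_atTop (8 * r ^ 24 / ε)), hlog] with T hT1 hT2 hT3 hT4 hT5
  have hT0 : 0 < T := by linarith
  have hYε : 8 * r ^ 24 / Real.log T ≤ ε * T := by
    rw [div_le_iff₀ (by linarith)]
    rw [div_le_iff₀ hε] at hT4
    have h1 : ε * T ≤ ε * T * Real.log T := le_mul_of_one_le_right (by positivity) hT5
    linarith
  have hregion : ∀ s : ℂ, 1 / 2 + (1 / 2 : ℝ) / Real.log T ≤ s.re → 1 / 2 < s.re := by
    intro s hs
    have : 0 < (1 / 2 : ℝ) / Real.log T := by positivity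
    linarith
  have hα : 0 ≤ al T := by
    unfold al
    have := Real.pi_pos
    positivity
  have hεT0 : 0 ≤ ε * T := by positivity
  have hεT1 : ε * T ≤ 1 / 32 * T := mul_le_mul_of_nonneg_right hε1 hT0.le
  have hAB : (1 / 2 + 4 * ε) * T + ε * T ≤ (1 - 4 * ε) * T - ε * T := by linarith
  have hAB' : (1 / 2 + 4 * ε) * T ≤ (1 - 4 * ε) * T := by linarith
  have hBT : (1 - 4 * ε) * T ≤ 4 * T := by linarith
  have hBAT : (1 - 4 * ε) * T - (1 / 2 + 4 * ε) * T ≤ T := by linarith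
  have hA0 : 0 < (1 / 2 + 4 * ε) * T := by positivity
  -- first
  have b1 := box (F := fun s => ‖Fh (am δ n T) (al T) (Nn δ T) s‖) (A := (1 / 2 + 4 * ε) * T)
    (B := (1 - 4 * ε) * T) (x₂ := r ^ 36 + 3 / 2) (Y := 8 * r ^ 24)
    (M := C1 * (1 + Real.log (1 / δ)) * T) (lam := Real.exp r) (ε := ε) hT3 (by linarith) hY0
    (Real.exp_pos _) (by rw [hδlog]; positivity) hYε hAB (by
      intro s hs
      have h1 : DifferentiableAt ℂ (Hq (al T)) s :=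
        differentiableAt_Hq hRH hα (hregion s hs.1) (lt_of_lt_of_le hA0 hs.2.2.1)
      have h2 : Continuous fun s : ℂ => Aa (am δ n T) (Nn δ T) (s + (al T : ℂ) * I) :=
        (Pp.continuous_Aa _ _).comp (by fun_prop)
      exact (((h1.continuousAt.mul h2.continuousAt).sub
        (cont_Pl _ _ _).continuousAt).norm).continuousWithinAt) (fun s => norm_nonneg _)
    (fun x hx => hT1 x hx.1 (hx.2.trans hx2))
  -- second and third
  have hcs : Real.sqrt δ ^ 2 = δ := Real.sq_sqrt hδ0.le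
  have hsδ : 0 < Real.sqrt δ := Real.sqrt_pos.2 hδ0
  have hsδe : Real.sqrt δ = Real.exp (-(r ^ 12 / 2)) := by
    rw [hδ, Real.sqrt_eq_iff_mul_self_eq (Real.exp_pos _).le (Real.exp_pos _).le, ← Real.exp_add]
    congr 1
    ring
  have b2 := box (F := fun s => ‖Pl (am δ n T) (al T) (Nn δ T) s - Am δ n T s‖)
    (A := (1 / 2 + 4 * ε) * T)
    (B := (1 - 4 * ε) * T) (x₂ := r ^ 36 + 3 / 2) (Y := 8 * r ^ 24)
    (M := c2 * Real.sqrt δ * T) (lam := Real.exp (-(r ^ 12 / 4))) (ε := ε) hT3 (by linarith) hY0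
    (Real.exp_pos _) (by positivity) hYε hAB
    (((cont_Pl _ _ _).sub (cont_Am _ _ _)).norm.continuousOn) (fun s => norm_nonneg _) (by
      intro x hx
      have h1 := (hT2 x ((1 / 2 + 4 * ε) * T) ((1 - 4 * ε) * T) (by linarith [hx.1]) hA0.le hAB'
        hBT).1
      apply cs hAB' hBAT (by positivity)
      · exact (((cont_Pl _ _ _).comp (cont_sw T x)).sub ((cont_Am _ _ _).comp (cont_sw T x))).norm
      · rw [mul_pow, hc2s, hcs]
        exact h1)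
  have b3 := box (F := fun s => ‖Am δ n T s‖) (A := (1 / 2 + 4 * ε) * T)
    (B := (1 - 4 * ε) * T) (x₂ := r ^ 36 + 3 / 2) (Y := 8 * r ^ 24)
    (M := c2 / Real.sqrt δ * T) (lam := Real.exp (5 / 8 * r ^ 12)) (ε := ε) hT3 (by linarith) hY0
    (Real.exp_pos _) (by positivity) hYε hAB
    ((cont_Am _ _ _).norm.continuousOn) (fun s => norm_nonneg _) (by
      intro x hx
      have h1 := (hT2 x ((1 / 2 + 4 * ε) * T) ((1 - 4 * ε) * T) (by linarith [hx.1]) hA0.le hAB'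
        hBT).2
      apply cs hAB' hBAT (by positivity)
      · exact ((cont_Am _ _ _).comp (cont_sw T x)).norm
      · rw [div_pow, hc2s, hcs]
        exact h1)
  -- numerical bounds
  have hexp0 : 0 < Real.exp r := Real.exp_pos r
  have hp60 : r ^ 24 * r ^ 36 ≤ r ^ 72 := by
    rw [← pow_add]
    exact pow_le_pow_right₀ hr1 (by norm_num)
  have hp72' : r ^ 24 * r ^ 36 * r ^ 12 = r ^ 72 := by ring
  have hp72p : 0 < r ^ 72 := by positivity
  have hgen : 2 * (8 * r ^ 24) * (r ^ 36 + 3 / 2) ≤ 40 * (r ^ 24 * r ^ 36) := by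
    have h0 : r ^ 24 ≤ r ^ 24 * r ^ 36 := le_mul_of_one_le_right (by positivity) hp36
    linarith
  have n1 : 2 * (8 * r ^ 24) * (r ^ 36 + 3 / 2) * (C1 * (1 + Real.log (1 / δ)) * T) / Real.exp r ≤
      ε / 3 * T := by
    rw [hδlog, div_le_iff₀ hexp0]
    have h1 : 2 * (8 * r ^ 24) * (r ^ 36 + 3 / 2) * (C1 * (1 + r ^ 12)) ≤ 80 * C1 * r ^ 72 := by
      calc 2 * (8 * r ^ 24) * (r ^ 36 + 3 / 2) * (C1 * (1 + r ^ 12))
          ≤ 40 * (r ^ 24 * r ^ 36) * (C1 * (2 * r ^ 12)) := by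
            gcongr
            linarith
        _ = 80 * C1 * (r ^ 24 * r ^ 36 * r ^ 12) := by ring
        _ = 80 * C1 * r ^ 72 := by rw [hp72']
    have h2 : 80 * C1 * r ^ 72 ≤ ε / 3 * Real.exp r := by
      have h3 : 0 ≤ C1 * r ^ 72 := by positivity
      have h4 : 0 ≤ c2 * r ^ 72 := by positivity
      linarith
    have h3 := mul_le_mul_of_nonneg_right (h1.trans h2) hT0.le
    calc _ = 2 * (8 * r ^ 24) * (r ^ 36 + 3 / 2) * (C1 * (1 + r ^ 12)) * T := by ring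
      _ ≤ ε / 3 * Real.exp r * T := h3
      _ = _ := by ring
  have hc2r : 40 * c2 * r ^ 72 ≤ ε / 3 * Real.exp r := by
    have h3 : 0 ≤ C1 * r ^ 72 := by positivity
    have h4 : 0 ≤ c2 * r ^ 72 := by positivity
    linarith
  have hbase : 2 * (8 * r ^ 24) * (r ^ 36 + 3 / 2) * c2 ≤ ε / 3 * Real.exp r := by
    calc 2 * (8 * r ^ 24) * (r ^ 36 + 3 / 2) * c2 ≤ 40 * (r ^ 24 * r ^ 36) * c2 := by gcongr
      _ ≤ 40 * r ^ 72 * c2 := by gcongr
      _ = 40 * c2 * r ^ 72 := by ring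
      _ ≤ _ := hc2r
  have n2 : 2 * (8 * r ^ 24) * (r ^ 36 + 3 / 2) * (c2 * Real.sqrt δ * T) /
      Real.exp (-(r ^ 12 / 4)) ≤ ε / 3 * T := by
    have h1 : Real.sqrt δ / Real.exp (-(r ^ 12 / 4)) = Real.exp (-(r ^ 12 / 4)) := by
      rw [hsδe, ← Real.exp_sub]
      congr 1
      ring
    have h2 : Real.exp r * Real.exp (-(r ^ 12 / 4)) ≤ 1 := by
      rw [← Real.exp_add]
      apply Real.exp_le_one_iff.2
      linarith
    calc _ = 2 * (8 * r ^ 24) * (r ^ 36 + 3 / 2) * c2 *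
          (Real.sqrt δ / Real.exp (-(r ^ 12 / 4))) * T := by ring
      _ = 2 * (8 * r ^ 24) * (r ^ 36 + 3 / 2) * c2 * Real.exp (-(r ^ 12 / 4)) * T := by rw [h1]
      _ ≤ ε / 3 * Real.exp r * Real.exp (-(r ^ 12 / 4)) * T := by gcongr
      _ = ε / 3 * T * (Real.exp r * Real.exp (-(r ^ 12 / 4))) := by ring
      _ ≤ ε / 3 * T * 1 := by gcongr
      _ = ε / 3 * T := mul_one _
  have n3 : 2 * (8 * r ^ 24) * (r ^ 36 + 3 / 2) * (c2 / Real.sqrt δ * T) /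
      Real.exp (5 / 8 * r ^ 12) ≤ ε / 3 * T := by
    have h1 : 1 / Real.sqrt δ / Real.exp (5 / 8 * r ^ 12) = Real.exp (-(r ^ 12 / 8)) := by
      rw [hsδe, one_div, ← Real.exp_neg, ← Real.exp_sub]
      congr 1
      ring
    have h2 : Real.exp r * Real.exp (-(r ^ 12 / 8)) ≤ 1 := by
      rw [← Real.exp_add]
      apply Real.exp_le_one_iff.2
      linarith
    calc _ = 2 * (8 * r ^ 24) * (r ^ 36 + 3 / 2) * c2 *
          (1 / Real.sqrt δ / Real.exp (5 / 8 * r ^ 12)) * T := by ring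
      _ = 2 * (8 * r ^ 24) * (r ^ 36 + 3 / 2) * c2 * Real.exp (-(r ^ 12 / 8)) * T := by rw [h1]
      _ ≤ ε / 3 * Real.exp r * Real.exp (-(r ^ 12 / 8)) * T := by gcongr
      _ = ε / 3 * T * (Real.exp r * Real.exp (-(r ^ 12 / 8))) := by ring
      _ ≤ ε / 3 * T * 1 := by gcongr
      _ = ε / 3 * T := mul_one _
  -- union bound
  have ea : (1 / 2 + 5 * ε) * T = (1 / 2 + 4 * ε) * T + ε * T := by ring
  have eb : (1 - 5 * ε) * T = (1 - 4 * ε) * T - ε * T := by ring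
  rw [ea, eb]
  have hfin : ∀ S : Set ℝ, S ⊆ Icc ((1 / 2 + 4 * ε) * T + ε * T) ((1 - 4 * ε) * T - ε * T) →
      volume S ≠ ⊤ := by
    intro S hS
    refine ne_of_lt (lt_of_le_of_lt (measure_mono hS) ?_)
    rw [Real.volume_Icc]
    exact ENNReal.ofReal_lt_top
  refine le_trans (measureReal_mono (s₂ := ({t ∈ Icc ((1 / 2 + 4 * ε) * T + ε * T)
      ((1 - 4 * ε) * T - ε * T) | ¬ (∫ x in (1 / 2 : ℝ)..(r ^ 36 + 3 / 2),
        ∫ y in (-(8 * r ^ 24))..(8 * r ^ 24), ‖Fh (am δ n T) (al T) (Nn δ T)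
          (sw T t ((x : ℂ) + (y : ℂ) * I))‖) ≤ Real.exp r} ∪
      {t ∈ Icc ((1 / 2 + 4 * ε) * T + ε * T) ((1 - 4 * ε) * T - ε * T) |
        ¬ (∫ x in (1 / 2 : ℝ)..(r ^ 36 + 3 / 2), ∫ y in (-(8 * r ^ 24))..(8 * r ^ 24),
          ‖Pl (am δ n T) (al T) (Nn δ T) (sw T t ((x : ℂ) + (y : ℂ) * I)) -
            Am δ n T (sw T t ((x : ℂ) + (y : ℂ) * I))‖) ≤ Real.exp (-(r ^ 12 / 4))}) ∪
      {t ∈ Icc ((1 / 2 + 4 * ε) * T + ε * T) ((1 - 4 * ε) * T - ε * T) |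
        ¬ (∫ x in (1 / 2 : ℝ)..(r ^ 36 + 3 / 2), ∫ y in (-(8 * r ^ 24))..(8 * r ^ 24),
          ‖Am δ n T (sw T t ((x : ℂ) + (y : ℂ) * I))‖) ≤ Real.exp (5 / 8 * r ^ 12)}) ?_ ?_) ?_
  · rintro t ⟨ht, hnot⟩
    by_contra hcon
    simp only [mem_union, mem_ofPred_eq, not_or, not_and, not_not] at hcon
    exact hnot ⟨hcon.1.1 ht, hcon.1.2 ht, hcon.2 ht⟩
  · apply hfin
    apply union_subset (union_subset _ _) _ <;> exact fun t ht => ht.1
  · refine (measureReal_union_le _ _).trans ?_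
    have h1 := measureReal_union_le (μ := volume) {t ∈ Icc ((1 / 2 + 4 * ε) * T + ε * T)
      ((1 - 4 * ε) * T - ε * T) | ¬ (∫ x in (1 / 2 : ℝ)..(r ^ 36 + 3 / 2),
        ∫ y in (-(8 * r ^ 24))..(8 * r ^ 24), ‖Fh (am δ n T) (al T) (Nn δ T)
          (sw T t ((x : ℂ) + (y : ℂ) * I))‖) ≤ Real.exp r}
      {t ∈ Icc ((1 / 2 + 4 * ε) * T + ε * T) ((1 - 4 * ε) * T - ε * T) |
        ¬ (∫ x in (1 / 2 : ℝ)..(r ^ 36 + 3 / 2), ∫ y in (-(8 * r ^ 24))..(8 * r ^ 24),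
          ‖Pl (am δ n T) (al T) (Nn δ T) (sw T t ((x : ℂ) + (y : ℂ) * I)) -
            Am δ n T (sw T t ((x : ℂ) + (y : ℂ) * I))‖) ≤ Real.exp (-(r ^ 12 / 4))}
    have g1 := b1.trans n1
    have g2 := b2.trans n2
    have g3 := b3.trans n3
    exact (add_le_add (h1.trans (add_le_add g1 g2)) g3).trans (le_of_eq (by ring))

end Pool.Agent.MP_67227b_nt.Ah
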