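import Pool.Agent.MP_67227b_nt.Ah.AhDefs
import Pool.Agent.MP_67227b_nt.Pp.PpExp
import Pool.Agent.MP_67227b_nt.Pp.PpLDs

set_option autoImplicit false

open Filter Topology Set MeasureTheory Complex
open scoped Real ArithmeticFunction ContDiff

namespace Pool.Agent.MP_67227b_nt.Ah

open Pool.Agent.Lib.ZetaCount_helper33 Pool.Agent.MP_67227b_nt Pool.Agent.MP_67227b_nt.Mo
open Pool.Agent.MP_67227b_nt.Sg Pool.Agent.MP_67227b_nt.Pp
open Pool.Agent.MP_67227b_nt.Mo.MomentBAux (DP)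

/-- MODULE M1. All moments of `Mk L 1` are bounded (`exp_int` for `LD_Mk`; `x^q ≤ q! e^x`;
`Mk_log` gives the hypothesis `hb`). -/
theorem M1_mom (hRH : RiemannHypothesis) (q : ℕ) : ∃ C : ℝ, 0 < C ∧ ∀ᶠ T : ℝ in atTop,
    ∫ t in (T / 2)..(3 * T), Mk (Real.log T) 1 t ^ q ≤ C * T := by
  have hc : ∀ᶠ T : ℝ in atTop, ContinuousOn (fun t => Mk (Real.log T) 1 t)
      (Icc (T / 2) (3 * T)) := by
    filter_upwards [eventually_gt_atTop (1 : ℝ)] with T hT
    exact (continuous_Mk hRH (Real.log_pos hT) one_pos).continuousOn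
  have hb : ∃ C : ℝ, ∀ᶠ T : ℝ in atTop, ∀ t ∈ Icc (T / 2) (3 * T),
      Mk (Real.log T) 1 t ≤ C * Real.log T := by
    obtain ⟨C, hC, h⟩ := Mk_log hRH
    refine ⟨C, ?_⟩
    filter_upwards [h, eventually_gt_atTop (0 : ℝ)] with T hT hT0 t ht
    exact hT t (by linarith [ht.1]) (by linarith [ht.2])
  obtain ⟨K, hK, h⟩ := exp_int (LD_Mk hRH) hc hb (lam := 1) one_pos
  refine ⟨(q.factorial : ℝ) * K, by positivity, ?_⟩
  filter_upwards [h, eventually_gt_atTop (1 : ℝ)] with T hT hT1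
  have hL : 0 < Real.log T := Real.log_pos hT1
  have hcM := continuous_Mk hRH hL one_pos
  have h1 : ∫ t in (T / 2)..(3 * T), Mk (Real.log T) 1 t ^ q ≤
      ∫ t in (T / 2)..(3 * T), (q.factorial : ℝ) * Real.exp (1 * Mk (Real.log T) 1 t) := by
    refine intervalIntegral.integral_mono_on (by linarith) ((hcM.pow q).intervalIntegrable _ _)
      ((continuous_const.mul (Real.continuous_exp.comp
        (continuous_const.mul hcM))).intervalIntegrable _ _) ?_
    intro t _
    have h2 := Real.pow_div_factorial_le_exp (Mk (Real.log T) 1 t) (Mk_nonneg _ _ _) q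
    rw [one_mul]
    rwa [div_le_iff₀' (by positivity)] at h2
  rw [intervalIntegral.integral_const_mul] at h1
  calc ∫ t in (T / 2)..(3 * T), Mk (Real.log T) 1 t ^ q
      ≤ (q.factorial : ℝ) * ∫ t in (T / 2)..(3 * T), Real.exp (1 * Mk (Real.log T) 1 t) := h1
    _ ≤ (q.factorial : ℝ) * (K * T) := mul_le_mul_of_nonneg_left hT (by positivity)
    _ = (q.factorial : ℝ) * K * T := by ring

end Pool.Agent.MP_67227b_nt.Ah
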