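import Pool.Agent.MP_67227b_nt.Ah.AhDefs

set_option autoImplicit false

open Filter Topology Set MeasureTheory Complex
open scoped Real ArithmeticFunction ContDiff

namespace Pool.Agent.MP_67227b_nt.Ah

open Pool.Agent.Lib.ZetaCount_helper33 Pool.Agent.MP_67227b_nt Pool.Agent.MP_67227b_nt.Mo
open Pool.Agent.MP_67227b_nt.Sg Pool.Agent.MP_67227b_nt.Pp
open Pool.Agent.MP_67227b_nt.Mo.MomentBAux (DP)

/-- The sum over the primes in `(T^δ', T^δ]`. -/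
noncomputable def XP (δ' δ T : ℝ) (s : ℂ) : ℂ :=
  ∑ p ∈ (Finset.Ioc ⌊T ^ δ'⌋₊ ⌊T ^ δ⌋₊).filter Nat.Prime, (p : ℂ) ^ (-s)



namespace MomAux

open Pool.Agent.MP_67227b_nt.Mo.MomentBAux Pool.Agent.MP_67227b_nt.Mo.MeanBBAux

/-- Two tuples of primes with the same product are permutations of each other. -/
theorem perm_of_prod {q : ℕ} {m n : Fin q → ℕ} (hm : ∀ i, (m i).Prime) (hn : ∀ i, (n i).Prime)
    (h : ∏ i, m i = ∏ i, n i) : ∃ σ : Equiv.Perm (Fin q), m = n ∘ σ := by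
  have hp : (List.ofFn m).Perm (List.ofFn n) := by
    refine perm_of_prod_eq_prod ?_ ?_ ?_
    · rw [List.prod_ofFn, List.prod_ofFn, h]
    · intro p hp
      obtain ⟨i, rfl⟩ := List.mem_ofFn.1 hp
      exact (hm i).prime
    · intro p hp
      obtain ⟨i, rfl⟩ := List.mem_ofFn.1 hp
      exact (hn i).prime
  have h1 : m ∘ Tuple.sort m = n ∘ Tuple.sort n := by
    refine List.ofFn_injective ?_
    exact ((((Tuple.sort m).ofFn_comp_perm m).trans hp).trans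
      ((Tuple.sort n).ofFn_comp_perm n).symm).eq_of_pairwise'
      (Tuple.monotone_sort m).sortedLE_ofFn.pairwise (Tuple.monotone_sort n).sortedLE_ofFn.pairwise
  refine ⟨(Tuple.sort m).symm.trans (Tuple.sort n), ?_⟩
  funext i
  have h2 := congrFun h1 ((Tuple.sort m).symm i)
  simpa using h2

/-- The number of tuples of primes with a given product. -/
theorem card_le {q : ℕ} (S : Finset ℕ) (hS : ∀ p ∈ S, p.Prime) (n : Fin q → ℕ)
    (hn : ∀ i, n i ∈ S) :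
    ((Fintype.piFinset fun _ : Fin q => S).filter (fun m => ∏ i, m i = ∏ i, n i)).card ≤
      q.factorial := by
  classical
  have h : (Fintype.piFinset fun _ : Fin q => S).filter (fun m => ∏ i, m i = ∏ i, n i) ⊆
      (Finset.univ : Finset (Equiv.Perm (Fin q))).image
        (fun σ : Equiv.Perm (Fin q) => n ∘ σ) := by
    intro m hm
    obtain ⟨hm1, hm2⟩ := Finset.mem_filter.1 hm
    obtain ⟨σ, hσ⟩ := perm_of_prod (fun i => hS _ (Fintype.mem_piFinset.1 hm1 i))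
      (fun i => hS _ (hn i)) hm2
    exact Finset.mem_image.2 ⟨σ, Finset.mem_univ _, hσ.symm⟩
  refine (Finset.card_le_card h).trans (Finset.card_image_le.trans ?_)
  rw [Finset.card_univ, Fintype.card_perm, Fintype.card_fin]

/-- The bound for a fixed set of primes. -/
theorem moment_primes (q : ℕ) (S : Finset ℕ) (hS : ∀ p ∈ S, p.Prime) (b : ℕ → ℂ) {Y B : ℝ}
    (hY : 1 ≤ Y) (hSY : ∀ p ∈ S, (p : ℝ) ≤ Y) (hB : 0 ≤ B) :
    ∫ t in (0 : ℝ)..B, ‖DP S b t‖ ^ (2 * q) ≤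
      B * ((q.factorial : ℝ) * (∑ p ∈ S, ‖b p‖ ^ 2) ^ q) +
        2 * Y ^ q * (∑ p ∈ S, ‖b p‖) ^ (2 * q) := by
  classical
  set P := Fintype.piFinset fun _ : Fin q => S with hP
  have hmem : ∀ n ∈ P, ∀ i, n i ∈ S := fun n hn => Fintype.mem_piFinset.1 hn
  have hpos : ∀ n ∈ P, 1 ≤ ∏ i, n i := fun n hn =>
    Finset.one_le_prod' fun i _ => (hS _ (hmem n hn i)).one_le
  have hle : ∀ n ∈ P, ((∏ i, n i : ℕ) : ℝ) ≤ Y ^ q := by
    intro n hn
    push_cast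
    calc ∏ i, (n i : ℝ) ≤ ∏ _i : Fin q, Y :=
          Finset.prod_le_prod (fun i _ => Nat.cast_nonneg _) fun i _ => hSY _ (hmem n hn i)
      _ = Y ^ q := by simp
  have hlog : ∀ n ∈ P, ∑ i, Real.log (n i) = Real.log ((∏ i, n i : ℕ) : ℝ) := by
    intro n hn
    push_cast
    rw [Real.log_prod]
    intro i _
    have := (hS _ (hmem n hn i)).pos
    have : (0 : ℝ) < n i := by exact_mod_cast this
    exact this.ne'
  have hYq : (1 : ℝ) ≤ Y ^ q := one_le_pow₀ hY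
  -- one pair
  have hpair : ∀ n ∈ P, ∀ m ∈ P,
      ‖∫ t in (0 : ℝ)..B, E (∑ i, Real.log (m i) - ∑ i, Real.log (n i)) t‖ ≤
        (if ∏ i, m i = ∏ i, n i then B else 0) + 2 * Y ^ q := by
    intro n hn m hm
    rw [hlog n hn, hlog m hm]
    split_ifs with h
    · rw [h, sub_self, int_E_zero, sub_zero, Complex.norm_real, Real.norm_of_nonneg hB]
      have : 0 ≤ 2 * Y ^ q := by positivity
      linarith
    · rw [zero_add]
      have h1 := log_sub_log (hpos n hn) (hpos m hm) (hle n hn) (hle m hm) (Ne.symm h)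
      have h2 : 0 < |Real.log ((∏ i, m i : ℕ) : ℝ) - Real.log ((∏ i, n i : ℕ) : ℝ)| :=
        lt_of_lt_of_le (by positivity) h1
      refine (int_E_le (abs_pos.1 h2) _ _).trans ?_
      rw [div_le_iff₀ h2]
      have h3 := mul_le_mul_of_nonneg_left h1 (show 0 ≤ 2 * Y ^ q by positivity)
      have h4 : 2 * Y ^ q * (1 / Y ^ q) = 2 := by field_simp
      linarith
  have hprod : ∀ f : ℕ → ℝ, ∑ n ∈ P, ∏ i, f (n i) = (∑ n ∈ S, f n) ^ q := by
    intro f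
    have h := Finset.prod_univ_sum (fun _ : Fin q => S) (fun _ n => f n)
    rw [Finset.prod_const, Finset.card_univ, Fintype.card_fin] at h
    exact h.symm
  -- the diagonal
  have hdiag : ∑ n ∈ P, ‖∏ i, b (n i)‖ *
      ∑ m ∈ P, ‖∏ i, b (m i)‖ * (if ∏ i, m i = ∏ i, n i then B else 0) ≤
      B * ((q.factorial : ℝ) * (∑ p ∈ S, ‖b p‖ ^ 2) ^ q) := by
    have h1 : ∀ n ∈ P, ∀ m ∈ P, ‖∏ i, b (n i)‖ * (‖∏ i, b (m i)‖ *
        (if ∏ i, m i = ∏ i, n i then B else 0)) ≤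
        (if ∏ i, m i = ∏ i, n i then B / 2 * ‖∏ i, b (n i)‖ ^ 2 else 0) +
        (if ∏ i, n i = ∏ i, m i then B / 2 * ‖∏ i, b (m i)‖ ^ 2 else 0) := by
      intro n _ m _
      by_cases h : ∏ i, m i = ∏ i, n i
      · rw [if_pos h, if_pos h, if_pos h.symm]
        nlinarith [mul_nonneg hB (sq_nonneg (‖∏ i, b (n i)‖ - ‖∏ i, b (m i)‖))]
      · rw [if_neg h, if_neg h, if_neg (Ne.symm h)]
        simp
    have h2 : ∑ n ∈ P, ∑ m ∈ P, (if ∏ i, m i = ∏ i, n i then B / 2 * ‖∏ i, b (n i)‖ ^ 2 else 0) ≤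
        B / 2 * ((q.factorial : ℝ) * (∑ p ∈ S, ‖b p‖ ^ 2) ^ q) := by
      rw [← hprod, Finset.mul_sum, Finset.mul_sum]
      refine Finset.sum_le_sum fun n hn => ?_
      rw [← Finset.sum_filter, Finset.sum_const, nsmul_eq_mul, norm_prod, ← Finset.prod_pow]
      have h3 := card_le S hS n (hmem n hn)
      have h3' : (((Fintype.piFinset fun _ : Fin q => S).filter
        (fun m => ∏ i, m i = ∏ i, n i)).card : ℝ) ≤ (q.factorial : ℝ) := by exact_mod_cast h3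
      have h4 : 0 ≤ ∏ i, ‖b (n i)‖ ^ 2 := Finset.prod_nonneg fun i _ => sq_nonneg _
      calc _ ≤ (q.factorial : ℝ) * (B / 2 * ∏ i, ‖b (n i)‖ ^ 2) :=
            mul_le_mul_of_nonneg_right h3' (by positivity)
        _ = _ := by ring
    calc _ = ∑ n ∈ P, ∑ m ∈ P, ‖∏ i, b (n i)‖ * (‖∏ i, b (m i)‖ *
          (if ∏ i, m i = ∏ i, n i then B else 0)) := by simp only [Finset.mul_sum]
      _ ≤ ∑ n ∈ P, ∑ m ∈ P,
          ((if ∏ i, m i = ∏ i, n i then B / 2 * ‖∏ i, b (n i)‖ ^ 2 else 0) +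
            (if ∏ i, n i = ∏ i, m i then B / 2 * ‖∏ i, b (m i)‖ ^ 2 else 0)) :=
          Finset.sum_le_sum fun n hn => Finset.sum_le_sum fun m hm => h1 n hn m hm
      _ = (∑ n ∈ P, ∑ m ∈ P,
          (if ∏ i, m i = ∏ i, n i then B / 2 * ‖∏ i, b (n i)‖ ^ 2 else 0)) +
          ∑ n ∈ P, ∑ m ∈ P,
          (if ∏ i, m i = ∏ i, n i then B / 2 * ‖∏ i, b (n i)‖ ^ 2 else 0) := by
          simp only [Finset.sum_add_distrib]
          congr 1
          exact Finset.sum_comm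
      _ ≤ _ := by linarith
  -- conclusion
  have h0 : 0 ≤ ∫ t in (0 : ℝ)..B, ‖DP S b t‖ ^ (2 * q) :=
    intervalIntegral.integral_nonneg hB fun t _ => by positivity
  have h1 : ∫ t in (0 : ℝ)..B, ‖DP S b t‖ ^ (2 * q) =
      ‖((∫ t in (0 : ℝ)..B, ‖DP S b t‖ ^ (2 * q) : ℝ) : ℂ)‖ := by
    rw [Complex.norm_real, Real.norm_of_nonneg h0]
  rw [h1, int_moment]
  calc _ ≤ ∑ n ∈ P, ∑ m ∈ P, ‖∏ i, b (n i)‖ * ‖∏ i, b (m i)‖ *
        ((if ∏ i, m i = ∏ i, n i then B else 0) + 2 * Y ^ q) := by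
        refine (norm_sum_le _ _).trans (Finset.sum_le_sum fun n hn => ?_)
        refine (norm_sum_le _ _).trans (Finset.sum_le_sum fun m hm => ?_)
        rw [norm_mul, norm_mul, RCLike.norm_conj]
        exact mul_le_mul_of_nonneg_left (hpair n hn m hm) (by positivity)
    _ = ∑ n ∈ P, ‖∏ i, b (n i)‖ *
          (∑ m ∈ P, ‖∏ i, b (m i)‖ * (if ∏ i, m i = ∏ i, n i then B else 0)) +
        2 * Y ^ q * ((∑ n ∈ P, ‖∏ i, b (n i)‖) * ∑ m ∈ P, ‖∏ i, b (m i)‖) := by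
        rw [Finset.sum_mul_sum, Finset.mul_sum, ← Finset.sum_add_distrib]
        refine Finset.sum_congr rfl fun n _ => ?_
        rw [Finset.mul_sum, Finset.mul_sum, ← Finset.sum_add_distrib]
        refine Finset.sum_congr rfl fun m _ => ?_
        ring
    _ ≤ _ := by
        refine add_le_add hdiag (le_of_eq ?_)
        have h2 : ∑ n ∈ P, ‖∏ i, b (n i)‖ = (∑ n ∈ S, ‖b n‖) ^ q := by
          rw [← hprod]
          exact Finset.sum_congr rfl fun n _ => norm_prod _ _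
        rw [h2, ← pow_add, two_mul q]

/-- The sum of `1/√n`. -/
theorem sum_inv_sqrt (N : ℕ) : ∑ n ∈ Finset.Ioc 0 N, 1 / Real.sqrt n ≤ 2 * Real.sqrt N := by
  induction N with
  | zero => simp
  | succ N ih =>
    rw [← Finset.insert_Ioc_right_eq_Ioc_add_one (Nat.zero_le N), Finset.sum_insert (by simp)]
    have h1 : (0 : ℝ) < ((N + 1 : ℕ) : ℝ) := by positivity
    have h2 : 0 < Real.sqrt ((N + 1 : ℕ) : ℝ) := Real.sqrt_pos.2 h1
    have h3 : Real.sqrt ((N + 1 : ℕ) : ℝ) ^ 2 = ((N + 1 : ℕ) : ℝ) := Real.sq_sqrt h1.le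
    have h4 : Real.sqrt (N : ℝ) ^ 2 = N := Real.sq_sqrt (Nat.cast_nonneg N)
    have h5 : 0 ≤ Real.sqrt (N : ℝ) := Real.sqrt_nonneg _
    have h6 : 1 / Real.sqrt ((N + 1 : ℕ) : ℝ) ≤
        2 * Real.sqrt ((N + 1 : ℕ) : ℝ) - 2 * Real.sqrt N := by
      rw [div_le_iff₀ h2]
      push_cast at h3 ⊢
      nlinarith [sq_nonneg (Real.sqrt ((N : ℝ) + 1) - Real.sqrt N)]
    linarith

end MomAux

/-- MODULE MOMP. The moments of a sum over primes. `int_moment` (`Mo/MomentB.lean`); the diagonal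
terms are the tuples with `∏ p_i = ∏ p'_i`, i.e. permutations of each other, at most `q!` for each
`(p_i)`; with `2ab ≤ a² + b²` they give at most `q! (∑ ‖b p‖²)^q` times the length; the off-diagonal
terms are at most `2 Y^q (∑ ‖b p‖)^{2q} ≤ 2 T^{θq} (2 A T^{θ/2})^{2q} ≤ T` (`Y = T^θ`,
`‖b p‖ ≤ A/√p`, `4θq ≤ 1`... `2θq ≤ 1/2`). -/
theorem mom_primes (q : ℕ) (hq : 1 ≤ q) {θ A : ℝ} (hθ : 0 < θ) (hθq : 4 * θ * q ≤ 1)
    (hA : 0 < A) : ∀ᶠ T : ℝ in atTop, ∀ (S : Finset ℕ) (b : ℕ → ℂ),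
      (∀ p ∈ S, p.Prime ∧ (p : ℝ) ≤ T ^ θ) → (∀ p ∈ S, ‖b p‖ ≤ A / Real.sqrt p) →
      ∫ t in (0 : ℝ)..(4 * T), ‖DP S b t‖ ^ (2 * q) ≤
        4 * T * ((q.factorial : ℝ) * (∑ p ∈ S, ‖b p‖ ^ 2) ^ q + 1) := by
  have h1 : Tendsto (fun T : ℝ => T ^ (1 / 2 : ℝ)) atTop atTop :=
    tendsto_rpow_atTop (by norm_num)
  filter_upwards [h1.eventually_ge_atTop (2 * (2 * A) ^ (2 * q)), eventually_ge_atTop (1 : ℝ)]
    with T hT hT1 S b hS hb
  have hT0 : 0 < T := by linarith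
  have hY1 : 1 ≤ T ^ θ := Real.one_le_rpow hT1 hθ.le
  have hY0 : 0 < T ^ θ := by positivity
  have h2 := MomAux.moment_primes q S (fun p hp => (hS p hp).1) b hY1 (fun p hp => (hS p hp).2)
    (B := 4 * T) (by linarith)
  refine h2.trans ?_
  rw [mul_add]
  refine add_le_add le_rfl ?_
  -- the sum of the coefficients
  have h3 : ∑ p ∈ S, ‖b p‖ ≤ 2 * A * Real.sqrt (T ^ θ) := by
    calc ∑ p ∈ S, ‖b p‖ ≤ ∑ p ∈ S, A * (1 / Real.sqrt p) :=
          Finset.sum_le_sum fun p hp => (hb p hp).trans (le_of_eq (by ring))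
      _ ≤ ∑ p ∈ Finset.Ioc 0 ⌊T ^ θ⌋₊, A * (1 / Real.sqrt p) := by
          refine Finset.sum_le_sum_of_subset_of_nonneg ?_ fun p _ _ => by positivity
          intro p hp
          exact Finset.mem_Ioc.2 ⟨(hS p hp).1.pos, Nat.le_floor (hS p hp).2⟩
      _ = A * ∑ p ∈ Finset.Ioc 0 ⌊T ^ θ⌋₊, 1 / Real.sqrt p := by rw [Finset.mul_sum]
      _ ≤ A * (2 * Real.sqrt (⌊T ^ θ⌋₊ : ℝ)) :=
          mul_le_mul_of_nonneg_left (MomAux.sum_inv_sqrt _) hA.le
      _ ≤ A * (2 * Real.sqrt (T ^ θ)) := by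
          have : Real.sqrt (⌊T ^ θ⌋₊ : ℝ) ≤ Real.sqrt (T ^ θ) :=
            Real.sqrt_le_sqrt (Nat.floor_le hY0.le)
          gcongr
      _ = _ := by ring
  have h0 : 0 ≤ ∑ p ∈ S, ‖b p‖ := Finset.sum_nonneg fun _ _ => norm_nonneg _
  calc 2 * (T ^ θ) ^ q * (∑ p ∈ S, ‖b p‖) ^ (2 * q)
      ≤ 2 * (T ^ θ) ^ q * (2 * A * Real.sqrt (T ^ θ)) ^ (2 * q) := by gcongr
    _ = 2 * (2 * A) ^ (2 * q) * ((T ^ θ) ^ q * (T ^ θ) ^ q) := by
        rw [mul_pow, pow_mul (Real.sqrt (T ^ θ)), Real.sq_sqrt hY0.le]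
        ring
    _ = 2 * (2 * A) ^ (2 * q) * T ^ (2 * θ * q) := by
        have h5 : (T ^ θ) ^ q * (T ^ θ) ^ q = T ^ (2 * θ * q) := by
          rw [← pow_add, ← Real.rpow_natCast (T ^ θ), ← Real.rpow_mul hT0.le]
          congr 1
          push_cast
          ring
        rw [h5]
    _ ≤ T ^ (1 / 2 : ℝ) * T ^ (1 / 2 : ℝ) := by
        have h4 : T ^ (2 * θ * q) ≤ T ^ (1 / 2 : ℝ) :=
          Real.rpow_le_rpow_of_exponent_le hT1 (by linarith)
        gcongr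
    _ = T := by
        rw [← Real.rpow_add hT0]
        norm_num
    _ ≤ 4 * T * 1 := by linarith

end Pool.Agent.MP_67227b_nt.Ah
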