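import Pool.Agent.MP_67227b_nt.Ah.AhMert

set_option autoImplicit false

open Filter Topology Set MeasureTheory Complex
open scoped Real ArithmeticFunction ContDiff

namespace Pool.Agent.MP_67227b_nt.Ah

open Pool.Agent.Lib.ZetaCount_helper33 Pool.Agent.MP_67227b_nt Pool.Agent.MP_67227b_nt.Mo
open Pool.Agent.MP_67227b_nt.Sg Pool.Agent.MP_67227b_nt.Pp
open Pool.Agent.MP_67227b_nt.Mo.MomentBAux (DP)

namespace VarLeAux

theorem exp_lip {a b : ℂ} (ha : 0 ≤ a.re) (hb : 0 ≤ b.re) :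
    ‖Complex.exp (-a) - Complex.exp (-b)‖ ≤ ‖a - b‖ := by
  have h := Convex.norm_image_sub_le_of_norm_deriv_le (𝕜 := ℂ) (f := Complex.exp) (C := 1)
    (s := {z : ℂ | z.re ≤ 0}) (x := -b) (y := -a)
    (fun z _ => Complex.differentiable_exp.differentiableAt)
    (fun z hz => by
      rw [Complex.deriv_exp, Complex.norm_exp]
      exact Real.exp_le_one_iff.2 hz)
    (convex_halfSpace_re_le 0)
    (by show (-b).re ≤ 0; rw [Complex.neg_re]; linarith)
    (by show (-a).re ≤ 0; rw [Complex.neg_re]; linarith)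
  rw [one_mul] at h
  refine h.trans (le_of_eq ?_)
  rw [← norm_neg (-a - -b)]
  congr 1
  ring

theorem cpow_eq {p : ℕ} (hp : p.Prime) (w : ℂ) (L : ℝ) :
    (p : ℂ) ^ (-(w / (L : ℂ))) = Complex.exp (-(w * ((Real.log p / L : ℝ) : ℂ))) := by
  have h0 : (p : ℂ) ≠ 0 := by exact_mod_cast hp.ne_zero
  rw [Complex.cpow_def_of_ne_zero h0, ← Complex.natCast_log]
  congr 1
  push_cast
  ring

theorem term {p : ℕ} (hp : p.Prime) {w w' : ℂ} {L : ℝ} (hL : 0 < L) (hw : 0 ≤ w.re)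
    (hw' : 0 ≤ w'.re) :
    ‖(p : ℂ) ^ (-(w / (L : ℂ))) - (p : ℂ) ^ (-(w' / (L : ℂ)))‖ ≤ ‖w - w'‖ * (Real.log p / L) ∧
    ‖(p : ℂ) ^ (-(w / (L : ℂ))) - (p : ℂ) ^ (-(w' / (L : ℂ)))‖ ≤ 2 := by
  have hl : 0 ≤ Real.log p / L := by
    have : 0 ≤ Real.log (p : ℝ) := Real.log_nonneg (by exact_mod_cast hp.one_le)
    positivity
  rw [cpow_eq hp, cpow_eq hp]
  have h1 : 0 ≤ (w * ((Real.log p / L : ℝ) : ℂ)).re := by
    rw [Complex.re_mul_ofReal]
    positivity
  have h2 : 0 ≤ (w' * ((Real.log p / L : ℝ) : ℂ)).re := by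
    rw [Complex.re_mul_ofReal]
    positivity
  constructor
  · refine (exp_lip h1 h2).trans (le_of_eq ?_)
    rw [← sub_mul, norm_mul, Complex.norm_real, Real.norm_of_nonneg hl]
  · refine (norm_sub_le _ _).trans ?_
    rw [Complex.norm_exp, Complex.norm_exp, Complex.neg_re, Complex.neg_re]
    have e1 : Real.exp (-(w * ((Real.log p / L : ℝ) : ℂ)).re) ≤ 1 :=
      Real.exp_le_one_iff.2 (by linarith)
    have e2 : Real.exp (-(w' * ((Real.log p / L : ℝ) : ℂ)).re) ≤ 1 :=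
      Real.exp_le_one_iff.2 (by linarith)
    linarith

theorem inv_le_one' (n : ℕ) : (1 : ℝ) / n ≤ 1 := by
  rcases Nat.eq_zero_or_pos n with h | h
  · rw [h]; simp
  · have : (1 : ℝ) ≤ n := by exact_mod_cast h
    rw [div_le_one (by linarith)]
    exact this

end VarLeAux

/-- MODULE VAR. Mean square distance of two characters. With `y = log p/L ∈ (δ, θ]`,
`|p^{-w/L} - p^{-w'/L}| = |e^{-wy} - e^{-w'y}| ≤ min (2, ‖w - w'‖ y)` (`Re w, Re w' ≥ 0`). If
`‖w - w'‖ ≤ 4` the sum is at most `16 ∑ y²/p ≤ C` (`sum_log_sq_prime`). Otherwise the `p` with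
`y ≤ 1/‖w - w'‖` give at most `C`, the others `4 ∑ 1/p ≤ 4 log (‖w - w'‖) + C` (`sum_inv_prime`
with `a₀ = δ`). -/
theorem var_le : ∃ C : ℝ, 0 < C ∧ ∀ δ : ℝ, 0 < δ → δ ≤ 1 → ∀ᶠ T : ℝ in atTop,
    ∀ (w w' : ℂ) (S : Finset ℕ), 0 ≤ w.re → 0 ≤ w'.re →
      (∀ p ∈ S, p.Prime ∧ T ^ δ ≤ (p : ℝ) ∧ (p : ℝ) ≤ T) →
      ∑ p ∈ S, ‖(p : ℂ) ^ (-(w / (Real.log T : ℂ))) - (p : ℂ) ^ (-(w' / (Real.log T : ℂ)))‖ ^ 2 / p ≤
        C * (1 + Real.log (1 + ‖w - w'‖)) := by
  obtain ⟨C1, hC1, h1⟩ := sum_log_sq_prime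
  refine ⟨C1 + 8, by positivity, fun δ hδ hδ1 => ?_⟩
  filter_upwards [sum_inv_prime (a₀ := δ) (ε := 1) hδ one_pos, eventually_ge_atTop (2 : ℝ)] with
    T hT hT2 w w' S hw hw' hS
  have hT0 : 0 < T := by linarith
  have hT1 : 1 < T := by linarith
  have hL : 0 < Real.log T := Real.log_pos hT1
  obtain ⟨D, hD⟩ : ∃ D, D = ‖w - w'‖ := ⟨_, rfl⟩
  rw [← hD]
  have hD0 : 0 ≤ D := by rw [hD]; exact norm_nonneg _
  have hterm : ∀ p ∈ S, ‖(p : ℂ) ^ (-(w / (Real.log T : ℂ))) -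
      (p : ℂ) ^ (-(w' / (Real.log T : ℂ)))‖ ≤ D * (Real.log p / Real.log T) ∧
      ‖(p : ℂ) ^ (-(w / (Real.log T : ℂ))) - (p : ℂ) ^ (-(w' / (Real.log T : ℂ)))‖ ≤ 2 := by
    intro p hp
    rw [hD]
    exact VarLeAux.term (hS p hp).1 hL hw hw'
  -- small frequencies
  have hsmall : ∀ (x : ℝ) (S1 : Finset ℕ), S1 ⊆ S → (∀ p ∈ S1, (p : ℝ) ≤ x) →
      ∑ p ∈ S1, ‖(p : ℂ) ^ (-(w / (Real.log T : ℂ))) - (p : ℂ) ^ (-(w' / (Real.log T : ℂ)))‖ ^ 2 / p ≤
        C1 * (D * Real.log x / Real.log T) ^ 2 := by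
    intro x S1 hS1 hx
    rcases S1.eq_empty_or_nonempty with h0 | ⟨q, hq⟩
    · rw [h0, Finset.sum_empty]
      positivity
    · have hx2 : 2 ≤ x := by
        have h2 := (hS q (hS1 hq)).1.two_le
        have h3 : (2 : ℝ) ≤ q := by exact_mod_cast h2
        exact h3.trans (hx q hq)
      have h4 : ∑ p ∈ S1, Real.log p ^ 2 / p ≤
          ∑ p ∈ (Finset.Ioc 0 ⌊x⌋₊).filter Nat.Prime, Real.log p ^ 2 / p := by
        apply Finset.sum_le_sum_of_subset_of_nonneg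
        · intro p hp
          rw [Finset.mem_filter, Finset.mem_Ioc]
          exact ⟨⟨(hS p (hS1 hp)).1.pos, Nat.le_floor (hx p hp)⟩, (hS p (hS1 hp)).1⟩
        · intro p _ _
          positivity
      have h5 : ∑ p ∈ S1, ‖(p : ℂ) ^ (-(w / (Real.log T : ℂ))) -
          (p : ℂ) ^ (-(w' / (Real.log T : ℂ)))‖ ^ 2 / p ≤
          (D / Real.log T) ^ 2 * ∑ p ∈ S1, Real.log p ^ 2 / p := by
        rw [Finset.mul_sum]
        apply Finset.sum_le_sum
        intro p hp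
        have h6 := (hterm p (hS1 hp)).1
        have h7 := pow_le_pow_left₀ (norm_nonneg _) h6 2
        calc _ ≤ (D * (Real.log p / Real.log T)) ^ 2 / p := by gcongr
          _ = (D / Real.log T) ^ 2 * (Real.log p ^ 2 / p) := by ring
      refine h5.trans ?_
      calc (D / Real.log T) ^ 2 * ∑ p ∈ S1, Real.log p ^ 2 / p
          ≤ (D / Real.log T) ^ 2 * (C1 * Real.log x ^ 2) := by
            gcongr
            exact h4.trans (h1 x hx2)
        _ = C1 * (D * Real.log x / Real.log T) ^ 2 := by ring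
  have hlog1 : 0 ≤ Real.log (1 + D) := Real.log_nonneg (by linarith)
  rcases le_or_gt D 1 with hD1 | hD1
  · have h2 := hsmall T S (Finset.Subset.refl _) (fun p hp => (hS p hp).2.2)
    refine h2.trans ?_
    have e1 : D * Real.log T / Real.log T = D := by field_simp
    rw [e1]
    have e2 : D ^ 2 ≤ 1 := by nlinarith
    nlinarith
  · -- split at `T ^ (1 / D)`
    have hDp : 0 < D := by linarith
    have hsplit := Finset.sum_filter_add_sum_filter_not S (fun p : ℕ => (p : ℝ) ≤ T ^ (1 / D))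
      (fun p : ℕ => ‖(p : ℂ) ^ (-(w / (Real.log T : ℂ))) -
        (p : ℂ) ^ (-(w' / (Real.log T : ℂ)))‖ ^ 2 / p)
    rw [← hsplit]
    have hA := hsmall (T ^ (1 / D)) (S.filter fun p : ℕ => (p : ℝ) ≤ T ^ (1 / D))
      (Finset.filter_subset _ _) (fun p hp => (Finset.mem_filter.1 hp).2)
    have e1 : D * Real.log (T ^ (1 / D)) / Real.log T = 1 := by
      rw [Real.log_rpow hT0]
      field_simp
    rw [e1, one_pow, mul_one] at hA
    have ha : 0 < max (1 / D) δ := lt_max_of_lt_right hδ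
    have ha1 : max (1 / D) δ ≤ 1 := by
      apply max_le _ hδ1
      rw [div_le_one hDp]
      exact hD1.le
    have hM := hT (max (1 / D) δ) 1 (le_max_right _ _) ha1 le_rfl
    rw [Real.rpow_one] at hM
    have hM2 := (abs_le.1 hM).2
    have hlog : Real.log (1 / max (1 / D) δ) ≤ Real.log (1 + D) := by
      apply Real.log_le_log (by positivity)
      have h3 : 1 / max (1 / D) δ ≤ D := by
        rw [div_le_iff₀ ha]
        calc (1 : ℝ) = D * (1 / D) := by field_simp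
          _ ≤ D * max (1 / D) δ := by gcongr; exact le_max_left _ _
      linarith
    have hB : ∑ p ∈ S.filter (fun p : ℕ => ¬ (p : ℝ) ≤ T ^ (1 / D)),
        ‖(p : ℂ) ^ (-(w / (Real.log T : ℂ))) - (p : ℂ) ^ (-(w' / (Real.log T : ℂ)))‖ ^ 2 / p ≤
        4 * (Real.log (1 + D) + 2) := by
      have h3 : ∑ p ∈ S.filter (fun p : ℕ => ¬ (p : ℝ) ≤ T ^ (1 / D)),
          ‖(p : ℂ) ^ (-(w / (Real.log T : ℂ))) - (p : ℂ) ^ (-(w' / (Real.log T : ℂ)))‖ ^ 2 / p ≤
          ∑ p ∈ S.filter (fun p : ℕ => ¬ (p : ℝ) ≤ T ^ (1 / D)), 4 * ((1 : ℝ) / p) := by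
        apply Finset.sum_le_sum
        intro p hp
        have h4 := (hterm p (Finset.mem_filter.1 hp).1).2
        have h5 := pow_le_pow_left₀ (norm_nonneg _) h4 2
        calc _ ≤ (2 : ℝ) ^ 2 / p := by gcongr
          _ = 4 * ((1 : ℝ) / p) := by ring
      refine h3.trans ?_
      rw [← Finset.mul_sum]
      have h4 : ∑ p ∈ S.filter (fun p : ℕ => ¬ (p : ℝ) ≤ T ^ (1 / D)), ((1 : ℝ) / p) ≤
          ∑ p ∈ insert ⌊T ^ max (1 / D) δ⌋₊
            ((Finset.Ioc ⌊T ^ max (1 / D) δ⌋₊ ⌊T⌋₊).filter Nat.Prime), ((1 : ℝ) / p) := by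
        apply Finset.sum_le_sum_of_subset_of_nonneg
        · intro p hp
          rw [Finset.mem_filter, not_le] at hp
          have hq := hS p hp.1
          have h5 : T ^ max (1 / D) δ ≤ (p : ℝ) := by
            rcases le_total (1 / D) δ with h6 | h6
            · rw [max_eq_right h6]
              exact hq.2.1
            · rw [max_eq_left h6]
              exact hp.2.le
          have h6 : ⌊T ^ max (1 / D) δ⌋₊ ≤ p := by
            have := Nat.floor_mono h5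
            rwa [Nat.floor_natCast] at this
          rw [Finset.mem_insert, Finset.mem_filter, Finset.mem_Ioc]
          rcases h6.eq_or_lt with h7 | h7
          · exact Or.inl h7.symm
          · exact Or.inr ⟨⟨h7, Nat.le_floor hq.2.2⟩, hq.1⟩
        · intro p _ _
          positivity
      have h5 : ∑ p ∈ insert ⌊T ^ max (1 / D) δ⌋₊
            ((Finset.Ioc ⌊T ^ max (1 / D) δ⌋₊ ⌊T⌋₊).filter Nat.Prime), ((1 : ℝ) / p) ≤
          1 + ∑ p ∈ (Finset.Ioc ⌊T ^ max (1 / D) δ⌋₊ ⌊T⌋₊).filter Nat.Prime, ((1 : ℝ) / p) := by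
        rw [Finset.sum_insert (by
          rw [Finset.mem_filter, Finset.mem_Ioc]
          rintro ⟨⟨h6, -⟩, -⟩
          exact absurd h6 (lt_irrefl _))]
        have := VarLeAux.inv_le_one' ⌊T ^ max (1 / D) δ⌋₊
        linarith
      linarith
    have hCl : 0 ≤ C1 * Real.log (1 + D) := by positivity
    nlinarith

end Pool.Agent.MP_67227b_nt.Ah
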