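import Pool.Agent.MP_67227b_nt.Ah.AhMV
import Pool.Agent.MP_67227b_nt.Ah.AhMom
import Pool.Agent.MP_67227b_nt.Ah.AhVar
import Pool.Agent.MP_67227b_nt.Pp.PpQi

set_option autoImplicit false

open Filter Topology Set MeasureTheory Complex
open scoped Real ArithmeticFunction ContDiff

namespace Pool.Agent.MP_67227b_nt.Ah

open Pool.Agent.Lib.ZetaCount_helper33 Pool.Agent.MP_67227b_nt Pool.Agent.MP_67227b_nt.Mo
open Pool.Agent.MP_67227b_nt.Sg Pool.Agent.MP_67227b_nt.Pp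
open Pool.Agent.MP_67227b_nt.Mo.MomentBAux (DP)

/-- The prime sum of `log (Dd)`. -/
noncomputable def XX (h : ℝ → ℂ) (θ δ T : ℝ) (s : ℂ) : ℂ := PB h θ T s - Bs δ T s

/-- MODULE X1. For `δ ≤ θ/2` the terms `n ≤ T^δ` cancel (`h = 1` there). -/
theorem XX_eq {h : ℝ → ℂ} (hh : Cut h) {θ δ T : ℝ} (hδ : 0 < δ) (hδθ : δ ≤ θ / 2) (hT : 1 < T)
    (s : ℂ) : XX h θ δ T s = ∑ n ∈ Finset.Ioc ⌊T ^ δ⌋₊ ⌊T ^ θ⌋₊,
      ((Λ n / Real.log n : ℝ) : ℂ) * h (Real.log n / (θ * Real.log T)) * (n : ℂ) ^ (-s) := by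
  have hL : 0 < Real.log T := Real.log_pos hT
  have hT0 : 0 < T := by linarith
  have h1 : 1 ≤ ⌊T ^ δ⌋₊ := by
    apply Nat.le_floor
    rw [Nat.cast_one]
    exact Real.one_le_rpow hT.le hδ.le
  have h2 : ⌊T ^ δ⌋₊ ≤ ⌊T ^ θ⌋₊ :=
    Nat.floor_le_floor (Real.rpow_le_rpow_of_exponent_le hT.le (by linarith))
  unfold XX PB Bs
  rw [← Finset.sum_Ioc_consecutive _ h1 h2]
  have h3 : ∑ n ∈ Finset.Ioc 1 ⌊T ^ δ⌋₊, ((Λ n / Real.log n : ℝ) : ℂ) *
      h (Real.log n / (θ * Real.log T)) * (n : ℂ) ^ (-s) =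
      ∑ n ∈ Finset.Ioc 1 ⌊T ^ δ⌋₊, ((Λ n / Real.log n : ℝ) : ℂ) * (n : ℂ) ^ (-s) := by
    apply Finset.sum_congr rfl
    intro n hn
    rw [Finset.mem_Ioc] at hn
    have hn0 : (0 : ℝ) < n := by
      have : 0 < n := by omega
      exact_mod_cast this
    have h4 : (n : ℝ) ≤ T ^ δ := (Nat.le_floor_iff (Real.rpow_nonneg hT0.le _)).1 hn.2
    have h5 : Real.log n ≤ δ * Real.log T := by
      rw [← Real.log_rpow hT0]
      exact Real.log_le_log hn0 h4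
    have h6 : 0 < θ * Real.log T := mul_pos (by linarith) hL
    have h7 : |Real.log n / (θ * Real.log T)| ≤ 1 / 2 := by
      rw [abs_of_nonneg (div_nonneg (Real.log_natCast_nonneg n) h6.le), div_le_iff₀ h6]
      have h8 : δ * Real.log T ≤ θ / 2 * Real.log T := mul_le_mul_of_nonneg_right hδθ hL.le
      linarith
    rw [hh.one _ h7, mul_one]
  rw [h3]
  ring

namespace XAux

lemma bdd {h : ℝ → ℂ} {δ : ℝ} (hh : Bump δ h) : ∃ M : ℝ, 0 < M ∧ ∀ v, ‖h v‖ ≤ M := by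
  obtain ⟨C, hC⟩ := (isCompact_Icc (a := -δ) (b := δ)).exists_bound_of_continuousOn
    hh.smooth.continuous.continuousOn
  refine ⟨max C 1, lt_of_lt_of_le one_pos (le_max_right _ _), fun v => ?_⟩
  by_cases hv : δ < |v|
  · rw [hh.supp v hv, norm_zero]
    exact le_trans zero_le_one (le_max_right _ _)
  · exact (hC v (abs_le.1 (not_lt.1 hv))).trans (le_max_left _ _)

lemma c_real (n : ℕ) : 0 ≤ Λ n / Real.log n ∧ Λ n / Real.log n ≤ 1 := by
  have h1 : 0 ≤ Λ n := ArithmeticFunction.vonMangoldt_nonneg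
  have h2 : 0 ≤ Real.log n := Real.log_natCast_nonneg n
  exact ⟨div_nonneg h1 h2, div_le_one_of_le₀ ArithmeticFunction.vonMangoldt_le_log h2⟩

/-- the composite indices -/
noncomputable def NP (δ θ T : ℝ) : Finset ℕ :=
  (Finset.Ioc ⌊T ^ δ⌋₊ ⌊T ^ θ⌋₊).filter (fun n => ¬ n.Prime)

lemma ph_sum (η x : ℝ) (m : ℕ) : ∑ i ∈ Finset.Ico 1 (m + 1), ph η i x =
    Real.smoothTransition (x / η - 1) - Real.smoothTransition (x / η - (m + 1)) := by
  induction m with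
  | zero => simp
  | succ m ih =>
    rw [Finset.sum_Ico_succ_top (by omega), ih]
    unfold ph
    push_cast
    ring

/-- The sum over the proper prime powers in `(T^δ, T^θ]` is bounded. -/
lemma np_bound {δ θ : ℝ} (hδ : 0 < δ) (hθ1 : θ ≤ 1) : ∃ K : ℝ, 0 < K ∧ ∀ T : ℝ,
    Real.exp 1 ≤ T → ∑ n ∈ NP δ θ T, Λ n / Real.log n * (Real.sqrt n)⁻¹ ≤ K := by
  set η : ℝ := δ / 2 with hη
  have hη0 : 0 < η := by positivity
  set m : ℕ := ⌈θ / η⌉₊ with hm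
  have hC : ∀ i : ℕ, ∃ C : ℝ, 0 < C ∧ (1 ≤ i → ∀ T : ℝ, Real.exp 1 ≤ T →
      ∑ n ∈ (Finset.range (⌊T⌋₊ + 1)).filter (fun n => ¬ n.Prime),
        B3_F η i (Real.log T) n ≤ C) := by
    intro i
    by_cases hi : 1 ≤ i
    · obtain ⟨C, hC, h⟩ := B3_np hη0 hi
      exact ⟨C, hC, fun _ => h⟩
    · exact ⟨1, one_pos, fun h => absurd h hi⟩
  choose C hC0 hCb using hC
  refine ⟨∑ i ∈ Finset.Ico 1 (m + 1), C i + 1, ?_, fun T hT => ?_⟩
  · have : 0 ≤ ∑ i ∈ Finset.Ico 1 (m + 1), C i := Finset.sum_nonneg fun i _ => (hC0 i).le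
    linarith
  have hT0 : 0 < T := lt_of_lt_of_le (Real.exp_pos 1) hT
  have hL1 : 1 ≤ Real.log T := by
    rw [Real.le_log_iff_exp_le hT0]
    exact hT
  have hT1 : 1 ≤ T := by
    have := Real.add_one_le_exp (1 : ℝ)
    linarith
  have hpt : ∀ n ∈ NP δ θ T, Λ n / Real.log n * (Real.sqrt n)⁻¹ ≤
      ∑ i ∈ Finset.Ico 1 (m + 1), B3_F η i (Real.log T) n := by
    intro n hn
    have hn1 := Finset.mem_Ioc.1 (Finset.mem_filter.1 hn).1
    have h1 : T ^ δ < n := (Nat.floor_lt (Real.rpow_nonneg hT0.le _)).1 hn1.1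
    have h2 : (n : ℝ) ≤ T ^ θ := (Nat.le_floor_iff (Real.rpow_nonneg hT0.le _)).1 hn1.2
    have hn0 : (0 : ℝ) < n := lt_trans (Real.rpow_pos_of_pos hT0 _) h1
    set x : ℝ := Real.log n / Real.log T with hx
    have hx1 : δ ≤ x := by
      rw [hx, le_div_iff₀ (by linarith), ← Real.log_rpow hT0]
      exact Real.log_le_log (Real.rpow_pos_of_pos hT0 _) h1.le
    have hx2 : x ≤ θ := by
      rw [hx, div_le_iff₀ (by linarith), ← Real.log_rpow hT0]
      exact Real.log_le_log hn0 h2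
    have h3 : ∑ i ∈ Finset.Ico 1 (m + 1), ph η i x = 1 := by
      rw [ph_sum, Real.smoothTransition.one_of_one_le, Real.smoothTransition.zero_of_nonpos,
        sub_zero]
      · have h4 : x / η ≤ m := (div_le_div_of_nonneg_right hx2 hη0.le).trans (Nat.le_ceil _)
        linarith
      · have h4 : 2 ≤ x / η := by
          rw [le_div_iff₀ hη0, hη]
          linarith
        linarith
    have h4 : (1 : ℝ) ≤ ∑ i ∈ Finset.Ico 1 (m + 1), |ph η i x| := by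
      rw [← h3]
      exact Finset.sum_le_sum fun i _ => le_abs_self _
    have h5 : 0 ≤ Λ n / Real.log n * (Real.sqrt n)⁻¹ :=
      mul_nonneg (c_real n).1 (by positivity)
    calc Λ n / Real.log n * (Real.sqrt n)⁻¹ ≤
        Λ n / Real.log n * (Real.sqrt n)⁻¹ * ∑ i ∈ Finset.Ico 1 (m + 1), |ph η i x| :=
          le_mul_of_one_le_right h5 h4
      _ = ∑ i ∈ Finset.Ico 1 (m + 1), B3_F η i (Real.log T) n := by
          rw [Finset.mul_sum]
          rfl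
  refine (Finset.sum_le_sum hpt).trans ?_
  rw [Finset.sum_comm]
  have h6 : ∑ i ∈ Finset.Ico 1 (m + 1), ∑ n ∈ NP δ θ T, B3_F η i (Real.log T) n ≤
      ∑ i ∈ Finset.Ico 1 (m + 1), C i := by
    apply Finset.sum_le_sum
    intro i hi
    refine le_trans ?_ (hCb i (Finset.mem_Ico.1 hi).1 T hT)
    apply Finset.sum_le_sum_of_subset_of_nonneg
    · intro n hn
      rw [NP, Finset.mem_filter, Finset.mem_Ioc] at hn
      rw [Finset.mem_filter, Finset.mem_range]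
      have h7 : ⌊T ^ θ⌋₊ ≤ ⌊T⌋₊ := by
        apply Nat.floor_le_floor
        calc T ^ θ ≤ T ^ (1 : ℝ) := Real.rpow_le_rpow_of_exponent_le hT1 hθ1
          _ = T := Real.rpow_one T
      exact ⟨by omega, hn.2⟩
    · intro n _ _
      exact B3_F_nonneg _ _ _ _
  linarith

/-- The mean square weight of the proper prime powers is small. -/
lemma np_sq {δ θ K T : ℝ} (hK : ∑ n ∈ NP δ θ T, Λ n / Real.log n * (Real.sqrt n)⁻¹ ≤ K)
    (hT : 1 < T) : ∑ n ∈ NP δ θ T, (Λ n / Real.log n) ^ 2 * ((Real.sqrt n)⁻¹) ^ 2 ≤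
      T ^ (-(δ / 2)) * K := by
  have hT0 : 0 < T := by linarith
  refine le_trans ?_ (mul_le_mul_of_nonneg_left hK (Real.rpow_nonneg hT0.le _))
  rw [Finset.mul_sum]
  apply Finset.sum_le_sum
  intro n hn
  have hn1 := Finset.mem_Ioc.1 (Finset.mem_filter.1 hn).1
  have h1 : T ^ δ < n := (Nat.floor_lt (Real.rpow_nonneg hT0.le _)).1 hn1.1
  have hTd : 0 < T ^ δ := Real.rpow_pos_of_pos hT0 _
  have h2 : (Real.sqrt n)⁻¹ ≤ T ^ (-(δ / 2)) := by
    rw [Real.rpow_neg hT0.le]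
    apply inv_anti₀ (Real.rpow_pos_of_pos hT0 _)
    apply Real.le_sqrt_of_sq_le
    rw [← Real.rpow_natCast, ← Real.rpow_mul hT0.le]
    have : δ / 2 * ((2 : ℕ) : ℝ) = δ := by push_cast; ring
    rw [this]
    exact h1.le
  have h3 := c_real n
  have h4 : 0 ≤ (Real.sqrt n)⁻¹ := by positivity
  have h5 : (Λ n / Real.log n) ^ 2 ≤ Λ n / Real.log n := by nlinarith
  have h6 : ((Real.sqrt n)⁻¹) ^ 2 ≤ T ^ (-(δ / 2)) * (Real.sqrt n)⁻¹ := by
    rw [sq]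
    exact mul_le_mul_of_nonneg_right h2 h4
  calc (Λ n / Real.log n) ^ 2 * ((Real.sqrt n)⁻¹) ^ 2 ≤
      (Λ n / Real.log n) * (T ^ (-(δ / 2)) * (Real.sqrt n)⁻¹) :=
        mul_le_mul h5 h6 (by positivity) h3.1
    _ = T ^ (-(δ / 2)) * (Λ n / Real.log n * (Real.sqrt n)⁻¹) := by ring

lemma sw_eq (T t x : ℝ) : sw T t x = pl (1 / 2 + x / Real.log T) t := by
  simp only [sw, pl]
  push_cast
  ring

lemma norm_cpow_sw {n : ℕ} (hn : 1 ≤ n) {T : ℝ} (hT : 1 < T) (t : ℝ) {w : ℂ} (hw : 0 ≤ w.re) :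
    ‖(n : ℂ) ^ (-(sw T t w))‖ ≤ (Real.sqrt n)⁻¹ := by
  have hL : 0 < Real.log T := Real.log_pos hT
  have hn0 : (1 : ℝ) ≤ n := by exact_mod_cast hn
  have hre : (-(sw T t w)).re = -(1 / 2) - w.re / Real.log T := by
    simp only [sw, neg_re, add_re, mul_re, ofReal_re, I_re, mul_zero, ofReal_im, I_im, mul_one,
      sub_self, add_zero, div_ofReal_re]
    norm_num
    ring
  rw [Complex.norm_natCast_cpow_of_pos (by omega), hre, Real.sqrt_eq_rpow,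
    ← Real.rpow_neg (by linarith)]
  apply Real.rpow_le_rpow_of_exponent_le hn0
  have : 0 ≤ w.re / Real.log T := by positivity
  linarith

lemma continuous_cpow_sw (n : ℕ) (hn : n ≠ 0) (T : ℝ) (w : ℂ) :
    Continuous fun t : ℝ => (n : ℂ) ^ (-(sw T t w)) := by
  have h1 : Continuous fun t : ℝ => -(sw T t w) := by
    unfold sw
    fun_prop
  exact h1.const_cpow (Or.inl (by exact_mod_cast hn))

end XAux

/-- MODULE X2. The prime powers `p^k`, `k ≥ 2`, in `(T^δ, T^θ]`: for `Re s ≥ 1/2` their sum (with any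
coefficients `b n`, `‖b n‖ ≤ A Λ(n)/log n`) is bounded by a constant depending on `δ`, `A` only
(`∑_{p > T^{δ/2}, p ≤ T} 1/(2p) + O(1)`), and its mean square tends to zero (`mv_line`,
`∑_{p^k > T^δ, k ≥ 2} p^{-k} → 0`), so all its moments tend to zero. -/
theorem powers_small {δ θ A ε : ℝ} (q : ℕ) (hq : 1 ≤ q) (hδ : 0 < δ) (hθ : 0 < θ)
    (hθ1 : θ ≤ 1 / 2) (hA : 0 < A) (hε : 0 < ε) : ∀ᶠ T : ℝ in atTop, ∀ (b : ℕ → ℂ) (x : ℝ),
      0 ≤ x → (∀ n, ‖b n‖ ≤ A * (Λ n / Real.log n)) →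
      ∫ t in (T / 4)..(4 * T), ‖∑ n ∈ (Finset.Ioc ⌊T ^ δ⌋₊ ⌊T ^ θ⌋₊).filter
        (fun n => ¬ n.Prime), b n * (n : ℂ) ^ (-(sw T t x))‖ ^ (2 * q) ≤ ε * T := by
  obtain ⟨K, hK, hKb⟩ := XAux.np_bound hδ (by linarith : θ ≤ 1)
  obtain ⟨r, rfl⟩ : ∃ r, q = r + 1 := ⟨q - 1, by omega⟩
  have hmv := mv_line (κ := 1 / 2) (by norm_num) (by norm_num)
  have hlim : Tendsto (fun T : ℝ => (A * K) ^ (2 * r) * (5 * (A ^ 2 * K)) * T ^ (-(δ / 2))) atTop
      (𝓝 0) := by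
    have := (tendsto_rpow_neg_atTop (y := δ / 2) (by positivity)).const_mul
      ((A * K) ^ (2 * r) * (5 * (A ^ 2 * K)))
    simpa using this
  filter_upwards [hmv, hlim.eventually_le_const hε, eventually_ge_atTop (Real.exp 1)] with
    T hT1 hT2 hT3 b x hx hb
  have hT1' : 1 < T := by
    have := Real.add_one_le_exp (1 : ℝ)
    linarith
  have hT0 : 0 < T := by linarith
  have hL : 0 < Real.log T := Real.log_pos hT1'
  change ∫ t in (T / 4)..(4 * T), ‖∑ n ∈ XAux.NP δ θ T, b n * (n : ℂ) ^ (-(sw T t x))‖ ^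
    (2 * (r + 1)) ≤ ε * T
  have hKT := hKb T hT3
  have hmem : ∀ n ∈ XAux.NP δ θ T, 1 ≤ n ∧ n ≤ ⌊T ^ θ⌋₊ := by
    intro n hn
    have h1 := Finset.mem_Ioc.1 (Finset.mem_filter.1 hn).1
    exact ⟨by omega, h1.2⟩
  set F : ℝ → ℂ := fun t => ∑ n ∈ XAux.NP δ θ T, b n * (n : ℂ) ^ (-(sw T t x)) with hF
  have hFc : Continuous F := by
    refine continuous_finsetSum _ fun n hn => continuous_const.mul ?_
    exact XAux.continuous_cpow_sw n (by have := (hmem n hn).1; omega) T x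
  have hFb : ∀ t, ‖F t‖ ≤ A * K := by
    intro t
    refine (norm_sum_le _ _).trans ?_
    refine le_trans ?_ (mul_le_mul_of_nonneg_left hKT hA.le)
    rw [Finset.mul_sum]
    apply Finset.sum_le_sum
    intro n hn
    rw [norm_mul]
    calc ‖b n‖ * ‖(n : ℂ) ^ (-(sw T t x))‖ ≤ (A * (Λ n / Real.log n)) * (Real.sqrt n)⁻¹ := by
          apply mul_le_mul (hb n) (XAux.norm_cpow_sw (hmem n hn).1 hT1' t (by simpa using hx))
            (norm_nonneg _)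
          exact mul_nonneg hA.le (XAux.c_real n).1
      _ = A * (Λ n / Real.log n * (Real.sqrt n)⁻¹) := by ring
  -- the mean square
  set c : ℕ → ℂ := fun n => if n ∈ XAux.NP δ θ T then b n else 0 with hc
  have hFS : ∀ t, F t = ∑ m ∈ Finset.Icc 1 ⌊T ^ θ⌋₊,
      c m * (m : ℂ) ^ (-(pl (1 / 2 + x / Real.log T) t)) := by
    intro t
    simp only [hF, hc, XAux.sw_eq]
    have hsub : XAux.NP δ θ T ⊆ Finset.Icc 1 ⌊T ^ θ⌋₊ := fun n hn =>
      Finset.mem_Icc.2 (hmem n hn)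
    rw [← Finset.sum_subset hsub]
    · exact Finset.sum_congr rfl fun n hn => by rw [if_pos hn]
    · intro n _ hn
      rw [if_neg hn, zero_mul]
  have hms : ∫ t in (T / 4)..(4 * T), ‖F t‖ ^ 2 ≤ 5 * T * (A ^ 2 * (T ^ (-(δ / 2)) * K)) := by
    have h1 := hT1 ⌊T ^ θ⌋₊ c (1 / 2 + x / Real.log T) (T / 4) (4 * T)
      ((Nat.floor_le (Real.rpow_nonneg hT0.le _)).trans
        (Real.rpow_le_rpow_of_exponent_le hT1'.le hθ1)) (by linarith) (by linarith)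
    simp only [← hFS] at h1
    refine h1.trans (mul_le_mul_of_nonneg_left ?_ (by positivity))
    refine le_trans ?_ (mul_le_mul_of_nonneg_left (XAux.np_sq hKT hT1') (by positivity))
    rw [Finset.mul_sum]
    have hsub : XAux.NP δ θ T ⊆ Finset.Icc 1 ⌊T ^ θ⌋₊ := fun n hn =>
      Finset.mem_Icc.2 (hmem n hn)
    rw [← Finset.sum_subset hsub]
    · apply Finset.sum_le_sum
      intro n hn
      have hn1 : (1 : ℝ) ≤ n := by exact_mod_cast (hmem n hn).1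
      simp only [hc, if_pos hn]
      have h2 : ‖b n‖ ^ 2 ≤ A ^ 2 * (Λ n / Real.log n) ^ 2 := by
        rw [← mul_pow]
        exact pow_le_pow_left₀ (norm_nonneg _) (hb n) 2
      have h3 : (n : ℝ) ^ (-2 * (1 / 2 + x / Real.log T)) ≤ ((Real.sqrt n)⁻¹) ^ 2 := by
        rw [inv_pow, Real.sq_sqrt (by linarith), ← Real.rpow_neg_one]
        apply Real.rpow_le_rpow_of_exponent_le hn1
        have : 0 ≤ x / Real.log T := by positivity
        linarith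
      calc ‖b n‖ ^ 2 * (n : ℝ) ^ (-2 * (1 / 2 + x / Real.log T)) ≤
          (A ^ 2 * (Λ n / Real.log n) ^ 2) * ((Real.sqrt n)⁻¹) ^ 2 :=
            mul_le_mul h2 h3 (Real.rpow_nonneg (by linarith) _) (by positivity)
        _ = A ^ 2 * ((Λ n / Real.log n) ^ 2 * ((Real.sqrt n)⁻¹) ^ 2) := by ring
    · intro n _ hn
      simp [hc, if_neg hn]
  have h2 : ∫ t in (T / 4)..(4 * T), ‖F t‖ ^ (2 * (r + 1)) ≤
      ∫ t in (T / 4)..(4 * T), (A * K) ^ (2 * r) * ‖F t‖ ^ 2 := by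
    refine intervalIntegral.integral_mono_on (by linarith)
      ((hFc.norm.pow _).intervalIntegrable _ _)
      ((continuous_const.mul (hFc.norm.pow _)).intervalIntegrable _ _) fun t _ => ?_
    have e1 : ‖F t‖ ^ (2 * (r + 1)) = ‖F t‖ ^ (2 * r) * ‖F t‖ ^ 2 := by ring
    rw [e1]
    exact mul_le_mul_of_nonneg_right (pow_le_pow_left₀ (norm_nonneg _) (hFb t) _) (by positivity)
  rw [intervalIntegral.integral_const_mul] at h2
  calc ∫ t in (T / 4)..(4 * T), ‖F t‖ ^ (2 * (r + 1)) ≤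
      (A * K) ^ (2 * r) * ∫ t in (T / 4)..(4 * T), ‖F t‖ ^ 2 := h2
    _ ≤ (A * K) ^ (2 * r) * (5 * T * (A ^ 2 * (T ^ (-(δ / 2)) * K))) :=
        mul_le_mul_of_nonneg_left hms (by positivity)
    _ = ((A * K) ^ (2 * r) * (5 * (A ^ 2 * K)) * T ^ (-(δ / 2))) * T := by ring
    _ ≤ ε * T := mul_le_mul_of_nonneg_right hT2 hT0.le

namespace XAux

lemma pow_three {a b c : ℝ} (ha : 0 ≤ a) (hb : 0 ≤ b) (hc : 0 ≤ c) (n : ℕ) :
    (a + b + c) ^ n ≤ 3 ^ n * (a ^ n + b ^ n + c ^ n) := by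
  have key : ∀ m : ℝ, 0 ≤ m → a ≤ m → b ≤ m → c ≤ m → m ^ n ≤ a ^ n + b ^ n + c ^ n →
      (a + b + c) ^ n ≤ 3 ^ n * (a ^ n + b ^ n + c ^ n) := by
    intro m hm h1 h2 h3 h4
    calc (a + b + c) ^ n ≤ (3 * m) ^ n := pow_le_pow_left₀ (by positivity) (by linarith) n
      _ = 3 ^ n * m ^ n := mul_pow _ _ _
      _ ≤ 3 ^ n * (a ^ n + b ^ n + c ^ n) := mul_le_mul_of_nonneg_left h4 (by positivity)
  have pa : 0 ≤ a ^ n := pow_nonneg ha n
  have pb : 0 ≤ b ^ n := pow_nonneg hb n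
  have pc : 0 ≤ c ^ n := pow_nonneg hc n
  rcases le_total a b with hab | hab
  · rcases le_total b c with hbc | hbc
    · exact key c hc (by linarith) hbc le_rfl (by linarith)
    · exact key b hb hab le_rfl hbc (by linarith)
  · rcases le_total a c with hac | hac
    · exact key c hc hac (by linarith) le_rfl (by linarith)
    · exact key a ha le_rfl hab hac (by linarith)

/-- the coefficient -/
noncomputable def cf (h : ℝ → ℂ) (θ T : ℝ) (n : ℕ) : ℂ :=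
  ((Λ n / Real.log n : ℝ) : ℂ) * h (Real.log n / (θ * Real.log T))

lemma norm_cf {h : ℝ → ℂ} {H : ℝ} (hH : ∀ v, ‖h v‖ ≤ H) (θ T : ℝ) (n : ℕ) :
    ‖cf h θ T n‖ ≤ H * (Λ n / Real.log n) := by
  unfold cf
  rw [norm_mul, norm_real, Real.norm_of_nonneg (c_real n).1, mul_comm]
  exact mul_le_mul_of_nonneg_right (hH _) (c_real n).1

lemma cf_zero (h : ℝ → ℂ) (θ T : ℝ) : cf h θ T 0 = 0 := by
  simp [cf]

/-- Separate the imaginary part of `w`. -/
lemma cpow_sep {n : ℕ} (hn : n ≠ 0) (T t : ℝ) (w : ℂ) : (n : ℂ) ^ (-(sw T t w)) =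
    (n : ℂ) ^ (-(((w.im / Real.log T : ℝ) : ℂ) * I)) * (n : ℂ) ^ (-(sw T t (w.re : ℝ))) := by
  have hn0 : (n : ℂ) ≠ 0 := by exact_mod_cast hn
  rw [← Complex.cpow_add _ _ hn0]
  congr 1
  have hw : w = (w.re : ℂ) + (w.im : ℂ) * I := (re_add_im w).symm
  unfold sw
  conv_lhs => rw [hw]
  push_cast
  ring

lemma norm_cpow_I {n : ℕ} (hn : n ≠ 0) (y : ℝ) : ‖(n : ℂ) ^ (-((y : ℂ) * I))‖ = 1 := by
  rw [Complex.norm_natCast_cpow_of_pos (Nat.pos_of_ne_zero hn)]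
  simp

lemma np_mom {h : ℝ → ℂ} {H δ θ ε : ℝ} (hH0 : 0 < H) (hH : ∀ v, ‖h v‖ ≤ H) (q : ℕ) (hq : 1 ≤ q)
    (hδ : 0 < δ) (hθ : 0 < θ) (hθ1 : θ ≤ 1 / 2) (hε : 0 < ε) : ∀ᶠ T : ℝ in atTop, ∀ w : ℂ,
      0 ≤ w.re → ∫ t in (T / 4)..(4 * T), ‖∑ n ∈ NP δ θ T, cf h θ T n * (n : ℂ) ^ (-(sw T t w))‖ ^
        (2 * q) ≤ ε * T := by
  filter_upwards [powers_small q hq hδ hθ hθ1 hH0 hε] with T hT w hw
  have h1 := hT (fun n => cf h θ T n * (n : ℂ) ^ (-(((w.im / Real.log T : ℝ) : ℂ) * I))) w.re hw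
    (by
      intro n
      rcases Nat.eq_zero_or_pos n with h0 | h0
      · subst h0; simp [cf_zero]
      · rw [norm_mul, norm_cpow_I h0.ne', mul_one]
        exact norm_cf hH θ T n)
  refine le_trans (le_of_eq ?_) h1
  congr 1
  ext t
  congr 2
  apply Finset.sum_congr rfl
  intro n hn
  have hn0 : n ≠ 0 := by
    have := (Finset.mem_Ioc.1 (Finset.mem_filter.1 hn).1).1
    omega
  rw [cpow_sep hn0]
  ring

lemma cpow_DP {n : ℕ} (hn : n ≠ 0) (T t : ℝ) (w : ℂ) : (n : ℂ) ^ (-(sw T t w)) =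
    (((Real.sqrt n)⁻¹ : ℝ) : ℂ) * (n : ℂ) ^ (-(w / (Real.log T : ℂ))) *
      MeanBBAux.E (-(Real.log n)) t := by
  have hn0 : (n : ℂ) ≠ 0 := by exact_mod_cast hn
  have hnR : (0 : ℝ) < n := by exact_mod_cast Nat.pos_of_ne_zero hn
  have e1 : (((Real.sqrt n)⁻¹ : ℝ) : ℂ) = Complex.exp (-(((Real.log n : ℝ) : ℂ) / 2)) := by
    have : (Real.sqrt n)⁻¹ = Real.exp (-(Real.log n / 2)) := by
      rw [Real.sqrt_eq_rpow, Real.rpow_def_of_pos hnR, ← Real.exp_neg]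
      congr 1; ring
    rw [this]
    push_cast
    rfl
  rw [Complex.cpow_def_of_ne_zero hn0, Complex.cpow_def_of_ne_zero hn0, ← Complex.natCast_log, e1]
  unfold MeanBBAux.E
  rw [← Complex.exp_add, ← Complex.exp_add]
  congr 1
  unfold sw
  push_cast
  ring

end XAux

/-- MODULE X3. The moments of the differences. Split `XX_eq` into primes and prime powers
(`powers_small`); on the primes `mom_primes` (with `b p = h(..) p^{-1/2}(p^{-w/L} - p^{-1/L})`, the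
imaginary part of `w` is kept in `b`) and `var_le` (`h` is bounded). `θ = 1/64`, `q ≤ 16`. -/
theorem X_mom {h : ℝ → ℂ} (hh : Cut h) (q : ℕ) (hq : 1 ≤ q) (hq1 : q ≤ 16) :
    ∃ C : ℝ, 0 < C ∧ ∀ δ V : ℝ, 0 < δ → δ ≤ 1 / 256 → 1 ≤ V → ∀ᶠ T : ℝ in atTop, ∀ w : ℂ,
      0 ≤ w.re → ‖w‖ ≤ V → ∫ t in (T / 4)..(4 * T),
        ‖XX h (1 / 64) δ T (sw T t w) - XX h (1 / 64) δ T (sw T t 1)‖ ^ (2 * q) ≤
        C * (1 + Real.log (1 + ‖w‖)) ^ q * T := by
  obtain ⟨H, hH0, hH⟩ := XAux.bdd hh.bump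
  obtain ⟨CV, hCV, hvar⟩ := var_le
  refine ⟨3 ^ (2 * q) * (4 * (q.factorial * (H ^ 2 * (2 * CV)) ^ q + 1) + 2), by positivity,
    fun δ V hδ hδ1 hV => ?_⟩
  have hq1' : (q : ℝ) ≤ 16 := by exact_mod_cast hq1
  filter_upwards [XAux.np_mom hH0 hH q hq hδ (θ := 1 / 64) (by norm_num) (by norm_num) one_pos,
    mom_primes q hq (θ := 1 / 64) (A := 2 * H) (by norm_num) (by linarith) (by positivity),
    hvar δ hδ (by linarith), eventually_gt_atTop (1 : ℝ)] with T hT1 hT2 hT3 hT w hw hwV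
  have hT0 : 0 < T := by linarith
  have hL : 0 < Real.log T := Real.log_pos hT
  set S : Finset ℕ := (Finset.Ioc ⌊T ^ δ⌋₊ ⌊T ^ (1 / 64 : ℝ)⌋₊).filter Nat.Prime with hS
  have hSm : ∀ p ∈ S, p.Prime ∧ T ^ δ ≤ (p : ℝ) ∧ (p : ℝ) ≤ T ^ (1 / 64 : ℝ) := by
    intro p hp
    rw [hS, Finset.mem_filter, Finset.mem_Ioc] at hp
    exact ⟨hp.2, ((Nat.floor_lt (Real.rpow_nonneg hT0.le _)).1 hp.1.1).le,
      (Nat.le_floor_iff (Real.rpow_nonneg hT0.le _)).1 hp.1.2⟩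
  have hTle : T ^ (1 / 64 : ℝ) ≤ T := by
    calc T ^ (1 / 64 : ℝ) ≤ T ^ (1 : ℝ) :=
          Real.rpow_le_rpow_of_exponent_le hT.le (by norm_num)
      _ = T := Real.rpow_one T
  set b : ℕ → ℂ := fun p => h (Real.log p / (1 / 64 * Real.log T)) *
    (((Real.sqrt p)⁻¹ : ℝ) : ℂ) * ((p : ℂ) ^ (-(w / (Real.log T : ℂ))) -
      (p : ℂ) ^ (-((1 : ℂ) / (Real.log T : ℂ)))) with hb
  -- the decomposition
  have hdec : ∀ t : ℝ, XX h (1 / 64) δ T (sw T t w) - XX h (1 / 64) δ T (sw T t 1) =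
      DP S b t + (∑ n ∈ XAux.NP δ (1 / 64) T, XAux.cf h (1 / 64) T n * (n : ℂ) ^ (-(sw T t w))) -
        ∑ n ∈ XAux.NP δ (1 / 64) T, XAux.cf h (1 / 64) T n * (n : ℂ) ^ (-(sw T t 1)) := by
    intro t
    rw [XX_eq hh hδ (by linarith) hT, XX_eq hh hδ (by linarith) hT]
    rw [← Finset.sum_filter_add_sum_filter_not _ Nat.Prime,
      ← Finset.sum_filter_add_sum_filter_not (Finset.Ioc ⌊T ^ δ⌋₊ ⌊T ^ (1 / 64 : ℝ)⌋₊) Nat.Prime
        (fun n : ℕ => ((Λ n / Real.log n : ℝ) : ℂ) * h (Real.log n / (1 / 64 * Real.log T)) *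
          (n : ℂ) ^ (-(sw T t 1)))]
    have h1 : DP S b t = (∑ n ∈ S, ((Λ n / Real.log n : ℝ) : ℂ) *
        h (Real.log n / (1 / 64 * Real.log T)) * (n : ℂ) ^ (-(sw T t w))) -
        ∑ n ∈ S, ((Λ n / Real.log n : ℝ) : ℂ) *
        h (Real.log n / (1 / 64 * Real.log T)) * (n : ℂ) ^ (-(sw T t 1)) := by
      rw [← Finset.sum_sub_distrib]
      unfold DP
      apply Finset.sum_congr rfl
      intro p hp
      have hpp := (hSm p hp).1
      have hlog : 0 < Real.log p := Real.log_pos (by exact_mod_cast hpp.one_lt)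
      rw [ArithmeticFunction.vonMangoldt_apply_prime hpp, div_self hlog.ne', ofReal_one, one_mul,
        XAux.cpow_DP hpp.ne_zero, XAux.cpow_DP hpp.ne_zero]
      simp only [hb]
      ring
    rw [h1]
    change _ = _ - _ + (∑ n ∈ (Finset.Ioc ⌊T ^ δ⌋₊ ⌊T ^ (1 / 64 : ℝ)⌋₊).filter
      (fun n => ¬ n.Prime), ((Λ n / Real.log n : ℝ) : ℂ) *
        h (Real.log n / (1 / 64 * Real.log T)) * (n : ℂ) ^ (-(sw T t w))) -
      ∑ n ∈ (Finset.Ioc ⌊T ^ δ⌋₊ ⌊T ^ (1 / 64 : ℝ)⌋₊).filter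
      (fun n => ¬ n.Prime), ((Λ n / Real.log n : ℝ) : ℂ) *
        h (Real.log n / (1 / 64 * Real.log T)) * (n : ℂ) ^ (-(sw T t 1))
    ring
  -- the prime part
  have hnp : ∀ p ∈ S, ∀ z : ℂ, 0 ≤ z.re → ‖(p : ℂ) ^ (-(z / (Real.log T : ℂ)))‖ ≤ 1 := by
    intro p hp z hz
    have hpp := (hSm p hp).1
    rw [Complex.norm_natCast_cpow_of_pos hpp.pos]
    apply Real.rpow_le_one_of_one_le_of_nonpos (by exact_mod_cast hpp.one_le)
    rw [neg_re, div_ofReal_re]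
    have : 0 ≤ z.re / Real.log T := by positivity
    linarith
  have hbb : ∀ p ∈ S, ‖b p‖ ≤ 2 * H / Real.sqrt p := by
    intro p hp
    simp only [hb]
    rw [norm_mul, norm_mul, norm_real, Real.norm_of_nonneg (by positivity)]
    have h1 : ‖(p : ℂ) ^ (-(w / (Real.log T : ℂ))) - (p : ℂ) ^ (-((1 : ℂ) / (Real.log T : ℂ)))‖ ≤
        2 := by
      refine (norm_sub_le _ _).trans ?_
      have := hnp p hp w hw
      have := hnp p hp 1 (by simp)
      linarith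
    calc ‖h (Real.log p / (1 / 64 * Real.log T))‖ * (Real.sqrt p)⁻¹ *
          ‖(p : ℂ) ^ (-(w / (Real.log T : ℂ))) - (p : ℂ) ^ (-((1 : ℂ) / (Real.log T : ℂ)))‖ ≤
        H * (Real.sqrt p)⁻¹ * 2 := by
          gcongr
          exact hH _
      _ = 2 * H / Real.sqrt p := by ring
  have hbs : ∑ p ∈ S, ‖b p‖ ^ 2 ≤ H ^ 2 * (2 * CV) * (1 + Real.log (1 + ‖w‖)) := by
    have h1 := hT3 w 1 S hw (by simp) fun p hp =>
      ⟨(hSm p hp).1, (hSm p hp).2.1, (hSm p hp).2.2.trans hTle⟩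
    have h2 : ∑ p ∈ S, ‖b p‖ ^ 2 ≤ H ^ 2 * ∑ p ∈ S, ‖(p : ℂ) ^ (-(w / (Real.log T : ℂ))) -
        (p : ℂ) ^ (-((1 : ℂ) / (Real.log T : ℂ)))‖ ^ 2 / p := by
      rw [Finset.mul_sum]
      apply Finset.sum_le_sum
      intro p hp
      have hp0 : (0 : ℝ) < p := by exact_mod_cast (hSm p hp).1.pos
      simp only [hb]
      rw [norm_mul, norm_mul, norm_real, Real.norm_of_nonneg (by positivity), mul_pow, mul_pow,
        inv_pow, Real.sq_sqrt hp0.le]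
      have h3 : ‖h (Real.log p / (1 / 64 * Real.log T))‖ ^ 2 ≤ H ^ 2 :=
        pow_le_pow_left₀ (norm_nonneg _) (hH _) 2
      rw [mul_assoc, inv_mul_eq_div]
      exact mul_le_mul_of_nonneg_right h3 (by positivity)
    have h4 : 1 + Real.log (1 + ‖w - 1‖) ≤ 2 * (1 + Real.log (1 + ‖w‖)) := by
      have h5 : ‖w - 1‖ ≤ ‖w‖ + 1 := by
        have := norm_sub_le w 1
        rwa [norm_one] at this
      have h6 : Real.log (1 + ‖w - 1‖) ≤ Real.log (2 * (1 + ‖w‖)) := by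
        apply Real.log_le_log (by positivity)
        linarith [norm_nonneg w]
      rw [Real.log_mul (by norm_num) (by positivity)] at h6
      have h7 : Real.log 2 ≤ 1 := by
        have := Real.log_two_lt_d9
        linarith
      have h8 : 0 ≤ Real.log (1 + ‖w‖) := Real.log_nonneg (by linarith [norm_nonneg w])
      linarith
    calc ∑ p ∈ S, ‖b p‖ ^ 2 ≤ H ^ 2 * (CV * (1 + Real.log (1 + ‖w - 1‖))) :=
          h2.trans (mul_le_mul_of_nonneg_left h1 (by positivity))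
      _ ≤ H ^ 2 * (CV * (2 * (1 + Real.log (1 + ‖w‖)))) := by gcongr
      _ = H ^ 2 * (2 * CV) * (1 + Real.log (1 + ‖w‖)) := by ring
  have hlog0 : 0 ≤ Real.log (1 + ‖w‖) := Real.log_nonneg (by linarith [norm_nonneg w])
  set ℓ : ℝ := 1 + Real.log (1 + ‖w‖) with hℓ
  have hℓ1 : 1 ≤ ℓ ^ q := one_le_pow₀ (by linarith)
  have hP : ∫ t in (T / 4)..(4 * T), ‖DP S b t‖ ^ (2 * q) ≤
      4 * T * (q.factorial * (H ^ 2 * (2 * CV)) ^ q + 1) * ℓ ^ q := by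
    have hc : Continuous fun t => ‖DP S b t‖ ^ (2 * q) :=
      (MomentBAux.DP_continuous S b).norm.pow _
    have h1 : ∫ t in (T / 4)..(4 * T), ‖DP S b t‖ ^ (2 * q) ≤
        ∫ t in (0 : ℝ)..(4 * T), ‖DP S b t‖ ^ (2 * q) := by
      refine intervalIntegral.integral_mono_interval (by linarith) (by linarith) le_rfl
        (Eventually.of_forall fun t => by positivity) (hc.intervalIntegrable _ _)
    refine h1.trans ((hT2 S b (fun p hp => ⟨(hSm p hp).1, (hSm p hp).2.2⟩) hbb).trans ?_)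
    have h2 : (∑ p ∈ S, ‖b p‖ ^ 2) ^ q ≤ (H ^ 2 * (2 * CV)) ^ q * ℓ ^ q := by
      rw [← mul_pow]
      exact pow_le_pow_left₀ (Finset.sum_nonneg fun p _ => by positivity) hbs q
    have h3 : (q.factorial : ℝ) * (∑ p ∈ S, ‖b p‖ ^ 2) ^ q + 1 ≤
        (q.factorial * (H ^ 2 * (2 * CV)) ^ q + 1) * ℓ ^ q := by
      have h4 : (q.factorial : ℝ) * (∑ p ∈ S, ‖b p‖ ^ 2) ^ q ≤
        q.factorial * ((H ^ 2 * (2 * CV)) ^ q * ℓ ^ q) :=
        mul_le_mul_of_nonneg_left h2 (by positivity)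
      linarith
    calc 4 * T * ((q.factorial : ℝ) * (∑ p ∈ S, ‖b p‖ ^ 2) ^ q + 1) ≤
        4 * T * ((q.factorial * (H ^ 2 * (2 * CV)) ^ q + 1) * ℓ ^ q) :=
          mul_le_mul_of_nonneg_left h3 (by positivity)
      _ = _ := by ring
  have hN1 := hT1 w hw
  have hN2 := hT1 1 (by simp)
  set N1 : ℝ → ℂ := fun t => ∑ n ∈ XAux.NP δ (1 / 64) T,
    XAux.cf h (1 / 64) T n * (n : ℂ) ^ (-(sw T t w)) with hN1d
  set N2 : ℝ → ℂ := fun t => ∑ n ∈ XAux.NP δ (1 / 64) T,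
    XAux.cf h (1 / 64) T n * (n : ℂ) ^ (-(sw T t 1)) with hN2d
  have hne : ∀ n ∈ XAux.NP δ (1 / 64) T, n ≠ 0 := by
    intro n hn
    have := (Finset.mem_Ioc.1 (Finset.mem_filter.1 hn).1).1
    omega
  have hN1c : Continuous N1 := continuous_finsetSum _ fun n hn =>
    continuous_const.mul (XAux.continuous_cpow_sw n (hne n hn) T w)
  have hN2c : Continuous N2 := continuous_finsetSum _ fun n hn =>
    continuous_const.mul (XAux.continuous_cpow_sw n (hne n hn) T 1)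
  have hDc : Continuous (DP S b) := MomentBAux.DP_continuous S b
  have h1 : ∫ t in (T / 4)..(4 * T),
      ‖XX h (1 / 64) δ T (sw T t w) - XX h (1 / 64) δ T (sw T t 1)‖ ^ (2 * q) ≤
      ∫ t in (T / 4)..(4 * T), 3 ^ (2 * q) * (‖DP S b t‖ ^ (2 * q) + ‖N1 t‖ ^ (2 * q) +
        ‖N2 t‖ ^ (2 * q)) := by
    have hdec' : ∀ t : ℝ, XX h (1 / 64) δ T (sw T t w) - XX h (1 / 64) δ T (sw T t 1) =
      DP S b t + N1 t - N2 t := hdec
    simp only [hdec']
    refine intervalIntegral.integral_mono_on (by linarith)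
      ((((hDc.add hN1c).sub hN2c).norm.pow _).intervalIntegrable _ _)
      ((continuous_const.mul (((hDc.norm.pow _).add (hN1c.norm.pow _)).add
        (hN2c.norm.pow _))).intervalIntegrable _ _) fun t _ => ?_
    refine le_trans ?_ (XAux.pow_three (norm_nonneg _) (norm_nonneg _) (norm_nonneg _) _)
    refine pow_le_pow_left₀ (norm_nonneg _) ?_ _
    exact (norm_sub_le _ _).trans (by linarith [norm_add_le (DP S b t) (N1 t)])
  refine h1.trans ?_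
  have i1 : IntervalIntegrable (fun t => ‖DP S b t‖ ^ (2 * q)) volume (T / 4) (4 * T) :=
    (hDc.norm.pow _).intervalIntegrable _ _
  have i2 : IntervalIntegrable (fun t => ‖N1 t‖ ^ (2 * q)) volume (T / 4) (4 * T) :=
    (hN1c.norm.pow _).intervalIntegrable _ _
  have i3 : IntervalIntegrable (fun t => ‖N2 t‖ ^ (2 * q)) volume (T / 4) (4 * T) :=
    (hN2c.norm.pow _).intervalIntegrable _ _
  rw [intervalIntegral.integral_const_mul, intervalIntegral.integral_add (i1.add i2) i3,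
    intervalIntegral.integral_add i1 i2]
  calc 3 ^ (2 * q) * ((∫ t in (T / 4)..(4 * T), ‖DP S b t‖ ^ (2 * q)) +
        (∫ t in (T / 4)..(4 * T), ‖N1 t‖ ^ (2 * q)) + ∫ t in (T / 4)..(4 * T), ‖N2 t‖ ^ (2 * q))
      ≤ 3 ^ (2 * q) * (4 * T * (q.factorial * (H ^ 2 * (2 * CV)) ^ q + 1) * ℓ ^ q +
        1 * T + 1 * T) :=
        mul_le_mul_of_nonneg_left (by linarith) (by positivity)
    _ ≤ 3 ^ (2 * q) * (4 * T * (q.factorial * (H ^ 2 * (2 * CV)) ^ q + 1) * ℓ ^ q +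
        1 * T * ℓ ^ q + 1 * T * ℓ ^ q) := by
        have : 1 * T ≤ 1 * T * ℓ ^ q := le_mul_of_one_le_right (by linarith) hℓ1
        exact mul_le_mul_of_nonneg_left (by linarith) (by positivity)
    _ = _ := by ring

/-- MODULE X4. The mean square: `∑_{T^δ < p ≤ T^θ} 1/p ≤ log (1/δ)`. For every `θ ≤ 1/8`. -/
theorem X_sq {h : ℝ → ℂ} (hh : Cut h) : ∃ C : ℝ, 0 < C ∧ ∀ δ θ V : ℝ, 0 < δ → δ ≤ θ / 4 →
    θ ≤ 1 / 8 → 1 ≤ V → ∀ᶠ T : ℝ in atTop, ∀ w : ℂ, 0 ≤ w.re → ‖w‖ ≤ V →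
      ∫ t in (T / 4)..(4 * T), ‖XX h θ δ T (sw T t w)‖ ^ 2 ≤ C * (1 + Real.log (1 / δ)) * T := by
  obtain ⟨H, hH0, hH⟩ := XAux.bdd hh.bump
  refine ⟨10 * H ^ 2, by positivity, fun δ θ V hδ hδθ hθ hV => ?_⟩
  have hθ0 : 0 < θ := by linarith
  obtain ⟨K, hK, hKb⟩ := XAux.np_bound hδ (by linarith : θ ≤ 1)
  have hlim : Tendsto (fun T : ℝ => T ^ (-(δ / 2)) * K) atTop (𝓝 0) := by
    have := (tendsto_rpow_neg_atTop (y := δ / 2) (by positivity)).mul_const K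
    simpa using this
  filter_upwards [mv_line (κ := 1 / 8) (by norm_num) (by norm_num),
    sum_inv_prime hδ (ε := 1 / 2) (by norm_num),
    hlim.eventually_le_const (by norm_num : (0 : ℝ) < 1 / 2),
    eventually_ge_atTop (Real.exp 1)] with T hT1 hT2 hT3 hTe w hw hwV
  have hT : 1 < T := by
    have := Real.add_one_le_exp (1 : ℝ)
    linarith
  have hT0 : 0 < T := by linarith
  have hL : 0 < Real.log T := Real.log_pos hT
  set J : Finset ℕ := Finset.Ioc ⌊T ^ δ⌋₊ ⌊T ^ θ⌋₊ with hJ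
  have hJ1 : ∀ n ∈ J, 1 ≤ n ∧ n ≤ ⌊T ^ θ⌋₊ := by
    intro n hn
    have h1 := Finset.mem_Ioc.1 hn
    exact ⟨by omega, h1.2⟩
  set c : ℕ → ℂ := fun n => if n ∈ J then
    XAux.cf h θ T n * (n : ℂ) ^ (-(((w.im / Real.log T : ℝ) : ℂ) * I)) else 0 with hc
  have hsub : J ⊆ Finset.Icc 1 ⌊T ^ θ⌋₊ := fun n hn => Finset.mem_Icc.2 (hJ1 n hn)
  have hXS : ∀ t, XX h θ δ T (sw T t w) = ∑ m ∈ Finset.Icc 1 ⌊T ^ θ⌋₊,
      c m * (m : ℂ) ^ (-(pl (1 / 2 + w.re / Real.log T) t)) := by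
    intro t
    rw [XX_eq hh hδ (by linarith) hT, ← Finset.sum_subset hsub]
    · apply Finset.sum_congr rfl
      intro n hn
      have hnJ : n ∈ J := hn
      have hcn : c n = XAux.cf h θ T n * (n : ℂ) ^ (-(((w.im / Real.log T : ℝ) : ℂ) * I)) := by
        simp only [hc]
        exact if_pos hnJ
      rw [hcn, XAux.cpow_sep (by have := (hJ1 n hn).1; omega), XAux.sw_eq]
      unfold XAux.cf
      ring
    · intro n _ hn
      simp only [hc, if_neg hn, zero_mul]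
  have h1 := hT1 ⌊T ^ θ⌋₊ c (1 / 2 + w.re / Real.log T) (T / 4) (4 * T)
    ((Nat.floor_le (Real.rpow_nonneg hT0.le _)).trans
      (Real.rpow_le_rpow_of_exponent_le hT.le hθ)) (by linarith) (by linarith)
  simp only [← hXS] at h1
  refine h1.trans ?_
  have h2 : ∑ m ∈ Finset.Icc 1 ⌊T ^ θ⌋₊, ‖c m‖ ^ 2 *
      (m : ℝ) ^ (-2 * (1 / 2 + w.re / Real.log T)) ≤
      H ^ 2 * ∑ n ∈ J, (Λ n / Real.log n) ^ 2 * ((Real.sqrt n)⁻¹) ^ 2 := by
    rw [← Finset.sum_subset hsub, Finset.mul_sum]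
    · apply Finset.sum_le_sum
      intro n hn
      have hn1 : (1 : ℝ) ≤ n := by exact_mod_cast (hJ1 n hn).1
      simp only [hc, if_pos hn]
      rw [norm_mul, XAux.norm_cpow_I (by have := (hJ1 n hn).1; omega), mul_one]
      have h2 : ‖XAux.cf h θ T n‖ ^ 2 ≤ H ^ 2 * (Λ n / Real.log n) ^ 2 := by
        rw [← mul_pow]
        exact pow_le_pow_left₀ (norm_nonneg _) (XAux.norm_cf hH θ T n) 2
      have h3 : (n : ℝ) ^ (-2 * (1 / 2 + w.re / Real.log T)) ≤ ((Real.sqrt n)⁻¹) ^ 2 := by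
        rw [inv_pow, Real.sq_sqrt (by linarith), ← Real.rpow_neg_one]
        apply Real.rpow_le_rpow_of_exponent_le hn1
        have : 0 ≤ w.re / Real.log T := by positivity
        linarith
      calc ‖XAux.cf h θ T n‖ ^ 2 * (n : ℝ) ^ (-2 * (1 / 2 + w.re / Real.log T)) ≤
          (H ^ 2 * (Λ n / Real.log n) ^ 2) * ((Real.sqrt n)⁻¹) ^ 2 :=
            mul_le_mul h2 h3 (Real.rpow_nonneg (by linarith) _) (by positivity)
        _ = H ^ 2 * ((Λ n / Real.log n) ^ 2 * ((Real.sqrt n)⁻¹) ^ 2) := by ring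
    · intro n _ hn
      simp [hc, if_neg hn]
  have h3 : ∑ n ∈ J, (Λ n / Real.log n) ^ 2 * ((Real.sqrt n)⁻¹) ^ 2 ≤ 1 + Real.log (1 / δ) := by
    rw [← Finset.sum_filter_add_sum_filter_not J Nat.Prime]
    have h4 : ∑ n ∈ J.filter Nat.Prime, (Λ n / Real.log n) ^ 2 * ((Real.sqrt n)⁻¹) ^ 2 =
        ∑ p ∈ J.filter Nat.Prime, (1 : ℝ) / p := by
      apply Finset.sum_congr rfl
      intro p hp
      have hpp := (Finset.mem_filter.1 hp).2
      have hlog : 0 < Real.log p := Real.log_pos (by exact_mod_cast hpp.one_lt)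
      rw [ArithmeticFunction.vonMangoldt_apply_prime hpp, div_self hlog.ne', one_pow, one_mul,
        inv_pow, Real.sq_sqrt (Nat.cast_nonneg p), one_div]
    have h5 := hT2 δ θ le_rfl (by linarith) (by linarith)
    have h6 : Real.log (θ / δ) ≤ Real.log (1 / δ) := by
      apply Real.log_le_log (by positivity)
      exact div_le_div_of_nonneg_right (by linarith) hδ.le
    have h7 := (XAux.np_sq (hKb T hTe) hT).trans hT3
    change ∑ n ∈ J.filter (fun n => ¬ n.Prime), _ ≤ _ at h7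
    rw [h4]
    have h8 := (abs_le.1 h5).2
    linarith
  have hlog : 0 ≤ 1 + Real.log (1 / δ) := by
    have : 0 ≤ Real.log (1 / δ) := Real.log_nonneg (by
      rw [le_div_iff₀ hδ]; linarith)
    linarith
  calc 5 * T * ∑ m ∈ Finset.Icc 1 ⌊T ^ θ⌋₊, ‖c m‖ ^ 2 *
      (m : ℝ) ^ (-2 * (1 / 2 + w.re / Real.log T)) ≤
      5 * T * (H ^ 2 * (1 + Real.log (1 / δ))) :=
        mul_le_mul_of_nonneg_left (h2.trans (mul_le_mul_of_nonneg_left h3 (by positivity)))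
          (by positivity)
    _ ≤ 10 * H ^ 2 * (1 + Real.log (1 / δ)) * T := by
        have : 0 ≤ T * (H ^ 2 * (1 + Real.log (1 / δ))) := by positivity
        linarith

end Pool.Agent.MP_67227b_nt.Ah
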