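import Pool.Agent.MP_67227b_nt.Ah.AhDefs
import Pool.Agent.MP_67227b_nt.Pp.PpHalf
import Pool.Agent.MP_67227b_nt.Pp.PpKh
import Pool.Agent.MP_67227b_nt.Pp.PpMk

set_option autoImplicit false

open Filter Topology Set MeasureTheory Complex
open scoped Real ArithmeticFunction ContDiff

namespace Pool.Agent.MP_67227b_nt.Ah

open Pool.Agent.Lib.ZetaCount_helper33 Pool.Agent.MP_67227b_nt Pool.Agent.MP_67227b_nt.Mo
open Pool.Agent.MP_67227b_nt.Sg Pool.Agent.MP_67227b_nt.Pp
open Pool.Agent.MP_67227b_nt.Mo.MomentBAux (DP)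

/-! ### A smooth extension of `e^{-x}` -/

/-- smooth, all derivatives are bounded by `M e^{-|x|}` -/
private structure PhiNice (b : ℝ → ℂ) : Prop where
  smooth : ContDiff ℝ ∞ b
  bd : ∀ n : ℕ, ∃ M : ℝ, 0 ≤ M ∧ ∀ x : ℝ, ‖iteratedDeriv n b x‖ ≤ M * Real.exp (-|x|)

private noncomputable def phig (x : ℝ) : ℂ :=
  ((Real.smoothTransition (x + 1) : ℝ) : ℂ) * Complex.exp (-(x : ℂ))

private lemma phig_pos {x : ℝ} (hx : 0 ≤ x) : phig x = Complex.exp (-(x : ℂ)) := by
  unfold phig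
  rw [Real.smoothTransition.one_of_one_le (by linarith)]
  simp

private lemma phig_neg {x : ℝ} (hx : x ≤ -1) : phig x = 0 := by
  unfold phig
  rw [Real.smoothTransition.zero_of_nonpos (by linarith)]
  simp

private lemma phig_smooth : ContDiff ℝ ∞ phig := by
  unfold phig
  apply ContDiff.mul
  · have h1 : ContDiff ℝ ∞ fun x : ℝ => Real.smoothTransition (x + 1) :=
      Real.smoothTransition.contDiff.comp (contDiff_id.add contDiff_const)
    exact Complex.ofRealCLM.contDiff.comp h1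
  · apply ContDiff.cexp
    apply ContDiff.neg
    exact Complex.ofRealCLM.contDiff

private lemma phi_iter_exp (n : ℕ) (x : ℝ) :
    iteratedDeriv n (fun x : ℝ => Complex.exp (-(x : ℂ))) x = (-1) ^ n * Complex.exp (-(x : ℂ)) := by
  induction n generalizing x with
  | zero => simp
  | succ n ih =>
    rw [iteratedDeriv_succ]
    have h1 : iteratedDeriv n (fun x : ℝ => Complex.exp (-(x : ℂ))) =
        fun x : ℝ => (-1) ^ n * Complex.exp (-(x : ℂ)) := funext fun y => ih y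
    rw [h1]
    have h2 : HasDerivAt (fun x : ℝ => Complex.exp (-(x : ℂ))) (Complex.exp (-(x : ℂ)) * (-1)) x := by
      have h0 : HasDerivAt (fun v : ℝ => (v : ℂ)) 1 x := Complex.ofRealCLM.hasDerivAt
      exact h0.neg.cexp
    rw [(h2.const_mul ((-1 : ℂ) ^ n)).deriv]
    ring

private lemma phig_nice : PhiNice phig where
  smooth := phig_smooth
  bd := by
    intro n
    have hc : Continuous (iteratedDeriv n phig) :=
      phig_smooth.continuous_iteratedDeriv n (by exact_mod_cast le_top)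
    obtain ⟨M, hM⟩ := (isCompact_Icc : IsCompact (Icc (-1 : ℝ) 0)).exists_bound_of_continuousOn
      hc.continuousOn
    refine ⟨max M 0 * Real.exp 1 + 1, by positivity, fun x => ?_⟩
    have hM0 : 0 ≤ max M 0 := le_max_right _ _
    rcases lt_or_ge x (-1) with hx | hx
    · have h1 : phig =ᶠ[𝓝 x] fun _ => (0 : ℂ) := by
        filter_upwards [isOpen_Iio.mem_nhds hx] with y hy
        exact phig_neg (le_of_lt hy)
      rw [(h1.iteratedDeriv n).eq_of_nhds]
      have h2 : iteratedDeriv n (fun _ : ℝ => (0 : ℂ)) x = 0 := by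
        rw [iteratedDeriv_const]
        split_ifs <;> rfl
      rw [h2, norm_zero]
      positivity
    rcases le_or_gt x 0 with hx0 | hx0
    · have h1 := hM x ⟨hx, hx0⟩
      rw [abs_of_nonpos hx0, neg_neg]
      have h2 : Real.exp (-1) ≤ Real.exp x := Real.exp_le_exp.2 hx
      have h3 : Real.exp 1 * Real.exp (-1) = 1 := by rw [← Real.exp_add]; simp
      have h4 : 0 < Real.exp x := Real.exp_pos x
      have h5 : 1 ≤ Real.exp 1 * Real.exp x :=
        calc (1 : ℝ) = Real.exp 1 * Real.exp (-1) := h3.symm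
          _ ≤ Real.exp 1 * Real.exp x := mul_le_mul_of_nonneg_left h2 (Real.exp_pos 1).le
      calc ‖iteratedDeriv n phig x‖ ≤ max M 0 := h1.trans (le_max_left _ _)
        _ ≤ max M 0 * (Real.exp 1 * Real.exp x) := le_mul_of_one_le_right hM0 h5
        _ ≤ (max M 0 * Real.exp 1 + 1) * Real.exp x := by nlinarith
    · have h1 : phig =ᶠ[𝓝 x] fun x : ℝ => Complex.exp (-(x : ℂ)) := by
        filter_upwards [isOpen_Ioi.mem_nhds hx0] with y hy
        exact phig_pos (le_of_lt hy)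
      rw [(h1.iteratedDeriv n).eq_of_nhds, phi_iter_exp, norm_mul, norm_pow, norm_neg, norm_one,
        one_pow, one_mul, Complex.norm_exp, abs_of_pos hx0]
      have h2 : (-(x : ℂ)).re = -x := by simp
      rw [h2]
      have h3 : 0 < Real.exp (-x) := Real.exp_pos _
      have h4 : 0 ≤ max M 0 * Real.exp 1 := by positivity
      nlinarith

private lemma PhiNice.deriv' {b : ℝ → ℂ} (hb : PhiNice b) : PhiNice (deriv b) where
  smooth := ((contDiff_infty_iff_deriv (𝕜 := ℝ)).1 hb.smooth).2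
  bd := by
    intro n
    obtain ⟨M, hM, h⟩ := hb.bd (n + 1)
    refine ⟨M, hM, fun x => ?_⟩
    rw [← iteratedDeriv_succ']
    exact h x

private lemma phi_int_exp {c : ℝ} (hc : 0 < c) :
    (Integrable fun x : ℝ => Real.exp (-(c * |x|))) ∧ ∫ x : ℝ, Real.exp (-(c * |x|)) = 2 / c := by
  constructor
  · rw [← integrableOn_univ, ← Iic_union_Ioi (a := (0 : ℝ))]
    apply IntegrableOn.union
    · apply (integrableOn_exp_mul_Iic hc 0).congr_fun _ measurableSet_Iic
      intro x hx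
      simp only
      rw [abs_of_nonpos hx]
      congr 1
      ring
    · apply (integrableOn_exp_mul_Ioi (neg_neg_of_pos hc) 0).congr_fun _ measurableSet_Ioi
      intro x hx
      simp only
      rw [abs_of_pos hx]
      congr 1
      ring
  · rw [integral_comp_abs (f := fun x : ℝ => Real.exp (-(c * x)))]
    have h1 : ∫ x in Ioi (0 : ℝ), Real.exp (-(c * x)) = ∫ x in Ioi (0 : ℝ), Real.exp ((-c) * x) := by
      congr 1
      ext x
      congr 1
      ring
    rw [h1, integral_exp_mul_Ioi (neg_neg_of_pos hc)]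
    simp
    field_simp

private noncomputable def phF (a b : ℝ → ℂ) (w : ℝ) : ℝ → ℂ := fun v => a v * b (w * v)

private lemma phF_bump {a b : ℝ → ℂ} (ha : Bump 1 a) (hb : PhiNice b) (w : ℝ) :
    Bump 1 (phF a b w) where
  smooth := by
    unfold phF
    exact ha.smooth.mul (hb.smooth.comp (contDiff_const.mul contDiff_id))
  supp := fun v hv => by simp only [phF, ha.supp v hv, zero_mul]

private lemma phF_deriv {a b : ℝ → ℂ} (ha : Bump 1 a) (hb : PhiNice b) (w : ℝ) :
    deriv (phF a b w) = fun v => phF (deriv a) b w v + (w : ℂ) * phF a (deriv b) w v := by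
  funext v
  have h1 : HasDerivAt a (deriv a v) v :=
    ((ha.smooth.differentiable (by simp)) v).hasDerivAt
  have h2 : HasDerivAt b (deriv b (w * v)) (w * v) :=
    ((hb.smooth.differentiable (by simp)) (w * v)).hasDerivAt
  have h3 : HasDerivAt (fun v : ℝ => w * v) w v := by
    simpa using (hasDerivAt_id v).const_mul w
  have h4 : HasDerivAt (fun v : ℝ => b (w * v)) (w • deriv b (w * v)) v := h2.scomp v h3
  have h5 : deriv (fun v => a v * b (w * v)) v =
      deriv a v * b (w * v) + a v * w • deriv b (w * v) := (h1.mul h4).deriv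
  unfold phF
  rw [h5]
  simp only [Complex.real_smul]
  ring

private lemma gs_phF_deriv {a b : ℝ → ℂ} (ha : Bump 1 a) (hb : PhiNice b) (w : ℝ) (z : ℂ) :
    gs (deriv (phF a b w)) z = gs (phF (deriv a) b w) z + (w : ℂ) * gs (phF a (deriv b) w) z := by
  rw [phF_deriv ha hb]
  have h1 := Mo.DecayAux.bump_integrable_mul (phF_bump (Mo.DecayAux.bump_deriv ha) hb w)
    (Mo.DecayAux.continuous_kernel z)
  have h2 := Mo.DecayAux.bump_integrable_mul (phF_bump ha hb.deriv' w)
    (Mo.DecayAux.continuous_kernel z)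
  unfold gs
  rw [← integral_const_mul, ← integral_add h1 (h2.const_mul _)]
  refine integral_congr_ae (Eventually.of_forall fun v => ?_)
  simp only
  ring

private lemma phF_base {a b : ℝ → ℂ} (ha : Bump 1 a) (hb : PhiNice b) : ∃ C : ℝ, 0 < C ∧
    ∀ w : ℝ, 0 ≤ w → ∫ v, ‖phF a b w v‖ ≤ C / (1 + w) := by
  obtain ⟨Ma, hMa⟩ := (isCompact_Icc : IsCompact (Icc (-1 : ℝ) 1)).exists_bound_of_continuousOn
    (Mo.DecayAux.bump_continuous ha).continuousOn
  obtain ⟨Mb, hMb0, hMb⟩ := hb.bd 0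
  have hMa0 : 0 ≤ max Ma 0 := le_max_right _ _
  refine ⟨(max Ma 0 * Mb * Real.exp 1) * 2 + 1, by positivity, fun w hw => ?_⟩
  have hw1 : 0 < 1 + w := by linarith
  obtain ⟨h1, h2⟩ := phi_int_exp hw1
  have h3 : ∀ v, ‖phF a b w v‖ ≤ (max Ma 0 * Mb * Real.exp 1) * Real.exp (-((1 + w) * |v|)) := by
    intro v
    by_cases hv : 1 < |v|
    · rw [(phF_bump ha hb w).supp v hv, norm_zero]
      positivity
    · have hv' := not_lt.1 hv
      unfold phF
      rw [norm_mul]
      have e1 : ‖a v‖ ≤ max Ma 0 := (hMa v (abs_le.1 hv')).trans (le_max_left _ _)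
      have e2 : ‖b (w * v)‖ ≤ Mb * Real.exp (-|w * v|) := by
        have := hMb (w * v)
        simpa using this
      have e3 : Real.exp (-|w * v|) ≤ Real.exp 1 * Real.exp (-((1 + w) * |v|)) := by
        rw [← Real.exp_add]
        apply Real.exp_le_exp.2
        rw [abs_mul, abs_of_nonneg hw]
        linarith
      calc ‖a v‖ * ‖b (w * v)‖ ≤ max Ma 0 * (Mb * (Real.exp 1 * Real.exp (-((1 + w) * |v|)))) :=
            mul_le_mul e1 (e2.trans (mul_le_mul_of_nonneg_left e3 hMb0)) (norm_nonneg _) hMa0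
        _ = _ := by ring
  calc ∫ v, ‖phF a b w v‖ ≤ ∫ v, (max Ma 0 * Mb * Real.exp 1) * Real.exp (-((1 + w) * |v|)) :=
        integral_mono (Mo.DecayAux.bump_integrable (phF_bump ha hb w)).norm (h1.const_mul _) h3
    _ = (max Ma 0 * Mb * Real.exp 1) * (2 / (1 + w)) := by rw [integral_const_mul, h2]
    _ = (max Ma 0 * Mb * Real.exp 1) * 2 / (1 + w) := by ring
    _ ≤ _ := by
      apply div_le_div_of_nonneg_right _ hw1.le
      linarith

private lemma phF_decay (K : ℕ) : ∀ {a b : ℝ → ℂ}, Bump 1 a → PhiNice b → ∃ C : ℝ, 0 < C ∧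
    ∀ w : ℝ, 0 ≤ w → ∀ z : ℂ, ‖gs (phF a b w) z‖ ≤
      C * ((1 + w) ^ K / (1 + w)) * Real.exp (2 * π * |z.im|) / (1 + ‖z‖) ^ K := by
  induction K with
  | zero =>
    intro a b ha hb
    obtain ⟨C, hC, h⟩ := phF_base ha hb
    refine ⟨C, hC, fun w hw z => ?_⟩
    rw [pow_zero, pow_zero, div_one]
    have h1 := Mo.DecayAux.base (phF_bump ha hb w) z
    rw [mul_one] at h1
    refine h1.trans ?_
    refine mul_le_mul_of_nonneg_right ((h w hw).trans (le_of_eq ?_)) (Real.exp_pos _).le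
    ring
  | succ K ih =>
    intro a b ha hb
    obtain ⟨C, hC, h1⟩ := ih ha hb
    obtain ⟨C1, hC1, h2⟩ := ih (Mo.DecayAux.bump_deriv ha) hb
    obtain ⟨C2, hC2, h3⟩ := ih ha hb.deriv'
    refine ⟨C + C1 + C2, by linarith, fun w hw z => ?_⟩
    have hz : 0 < 1 + ‖z‖ := by linarith [norm_nonneg z]
    have hw1 : 0 < 1 + w := by linarith
    have e1 : ‖z‖ * ‖gs (phF a b w) z‖ ≤ ‖gs (deriv (phF a b w)) z‖ := by
      have h := congrArg norm (Mo.DecayAux.parts (phF_bump ha hb w) z)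
      rw [norm_neg, norm_mul] at h
      rw [← h]
      refine mul_le_mul_of_nonneg_right ?_ (norm_nonneg _)
      have h3 : ‖(2 * π * I * z : ℂ)‖ = 2 * π * ‖z‖ := by
        rw [norm_mul, norm_mul, norm_mul, Complex.norm_I, Complex.norm_real,
          Real.norm_of_nonneg Real.pi_pos.le]
        simp
      rw [h3]
      have := Real.pi_gt_three
      nlinarith [norm_nonneg z]
    have e2 : ‖gs (deriv (phF a b w)) z‖ ≤ ‖gs (phF (deriv a) b w) z‖ +
        w * ‖gs (phF a (deriv b) w) z‖ := by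
      rw [gs_phF_deriv ha hb]
      refine (norm_add_le _ _).trans ?_
      rw [norm_mul, Complex.norm_real, Real.norm_of_nonneg hw]
    set E : ℝ := Real.exp (2 * π * |z.im|) with hE
    have hE0 : 0 < E := Real.exp_pos _
    set X : ℝ := (1 + w) ^ K / (1 + w) * E / (1 + ‖z‖) ^ K with hX
    have hX0 : 0 < X := by positivity
    have f1 : ‖gs (phF a b w) z‖ ≤ C * X := (h1 w hw z).trans (le_of_eq (by rw [hX]; ring))
    have f2 : ‖gs (phF (deriv a) b w) z‖ ≤ C1 * X := (h2 w hw z).trans (le_of_eq (by rw [hX]; ring))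
    have f3 : ‖gs (phF a (deriv b) w) z‖ ≤ C2 * X := (h3 w hw z).trans (le_of_eq (by rw [hX]; ring))
    have f4 : ‖gs (phF a b w) z‖ * (1 + ‖z‖) ≤ (C + C1 + C2) * ((1 + w) * X) := by
      have g1 : ‖gs (phF a b w) z‖ * (1 + ‖z‖) ≤ C * X + (C1 * X + w * (C2 * X)) := by
        calc ‖gs (phF a b w) z‖ * (1 + ‖z‖) = ‖gs (phF a b w) z‖ + ‖z‖ * ‖gs (phF a b w) z‖ := by ring
          _ ≤ C * X + (C1 * X + w * (C2 * X)) := by
            apply add_le_add f1
            refine e1.trans (e2.trans (add_le_add f2 ?_))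
            exact mul_le_mul_of_nonneg_left f3 hw
      refine g1.trans ?_
      have g2 : 0 ≤ C * X := by positivity
      have g3 : 0 ≤ C1 * X := by positivity
      have g4 : 0 ≤ C2 * X := by positivity
      nlinarith [mul_nonneg hw g2, mul_nonneg hw g3]
    have f5 : (C + C1 + C2) * ((1 + w) ^ (K + 1) / (1 + w)) * E / (1 + ‖z‖) ^ (K + 1) =
        (C + C1 + C2) * ((1 + w) * X) / (1 + ‖z‖) := by
      rw [hX, pow_succ, pow_succ]
      field_simp
    rw [f5, le_div_iff₀ hz]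
    exact f4

private theorem phi_hsc_bound5 {η : ℝ → ℂ} {C : ℝ} (hC : 0 < C)
    (hb : ∀ z : ℂ, ‖gs η z‖ ≤ C * Real.exp (2 * π * |z.im|) / (1 + ‖z‖) ^ 5)
    {L : ℝ} (hL : 1 ≤ L) (t₀ t : ℝ) :
      ‖gs (hsc L η t₀) ((t : ℂ) + ((-1 : ℝ) : ℂ) * I)‖ ≤
        C * (2 * π) ^ 4 * (2 * π / L) * Real.exp L / (1 + |t - t₀|) ^ 4 := by
  have hL0 : 0 < L := by linarith
  rw [gs_hsc hL0]
  have hpi := Real.pi_gt_three
  have hpi0 : 0 < π := Real.pi_pos
  set z : ℂ := ((t : ℂ) + ((-1 : ℝ) : ℂ) * I - t₀) * L / (2 * π) with hz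
  have hz2 : z = (((t - t₀) * L / (2 * π) : ℝ) : ℂ) + ((-1 * L / (2 * π) : ℝ) : ℂ) * I := by
    rw [hz]
    push_cast
    ring
  have him : |z.im| = L / (2 * π) := by
    rw [hz2]
    simp only [add_im, ofReal_im, mul_im, ofReal_re, I_im, mul_one, I_re, mul_zero, add_zero,
      zero_add]
    rw [show -1 * L / (2 * π) = -(L / (2 * π)) by ring, abs_neg, abs_of_pos (by positivity)]
  have hre : |t - t₀| * L / (2 * π) ≤ ‖z‖ := by
    have h1 := abs_re_le_norm z
    have h2 : z.re = (t - t₀) * L / (2 * π) := by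
      rw [hz2]
      simp only [add_re, ofReal_re, mul_re, I_re, mul_zero, ofReal_im, I_im, zero_mul, sub_zero,
        add_zero]
    rw [h2, abs_div, abs_mul, abs_of_pos hL0, abs_of_pos (by positivity : 0 < 2 * π)] at h1
    exact h1
  have him2 : L / (2 * π) ≤ ‖z‖ := by
    rw [← him]; exact abs_im_le_norm z
  refine (hb z).trans ?_
  rw [him]
  have h3 : 2 * π * (L / (2 * π)) = L := by
    field_simp
  rw [h3]
  have h4 : (1 + |t - t₀|) / (2 * π) ≤ 1 + ‖z‖ := by
    have h5 : |t - t₀| / (2 * π) ≤ |t - t₀| * L / (2 * π) := by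
      gcongr
      exact le_mul_of_one_le_right (abs_nonneg _) hL
    have h6 : 1 / (2 * π) ≤ 1 := by
      rw [div_le_one (by positivity)]
      linarith
    rw [add_div]
    linarith
  have h0 := abs_nonneg (t - t₀)
  have h7 : ((1 + |t - t₀|) / (2 * π)) ^ 4 * (L / (2 * π)) ≤ (1 + ‖z‖) ^ 5 := by
    rw [pow_succ (1 + ‖z‖) 4]
    refine mul_le_mul (pow_le_pow_left₀ (by positivity) h4 4) (by linarith) (by positivity)
      (by positivity)
  calc C * Real.exp L / (1 + ‖z‖) ^ 5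
      ≤ C * Real.exp L / (((1 + |t - t₀|) / (2 * π)) ^ 4 * (L / (2 * π))) := by
        apply div_le_div_of_nonneg_left (by positivity) (by positivity) h7
    _ = C * (2 * π) ^ 4 * (2 * π / L) * Real.exp L / (1 + |t - t₀|) ^ 4 := by
        field_simp

/-- the archimedean term for any bump function with the decay constant `Cg` -/
private theorem phi_arch : ∃ C : ℝ, 0 < C ∧ ∀ {η : ℝ → ℂ}, Bump 1 η → ∀ {Cg : ℝ}, 0 < Cg →
    (∀ z : ℂ, ‖gs η z‖ ≤ Cg * Real.exp (2 * π * |z.im|) / (1 + ‖z‖) ^ 5) →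
    ∀ L' : ℝ, 1 ≤ L' → ∀ t : ℝ,
      ‖((L' / (2 * π) : ℝ) : ℂ) * (∫ τ : ℝ, archF (pt32 (1 * τ)) *
        gs (hsc L' η t) ((τ : ℂ) + ((-1 : ℝ) : ℂ) * I)) - archF (pt32 t) * η 0‖ ≤
        C * Cg * Real.exp L' / (1 + |t|) := by
  obtain ⟨Ca, hCa, ha⟩ := exists_arch_variation
  have hpi0 : 0 < π := Real.pi_pos
  refine ⟨Ca * (2 * π) ^ 4 * π, by positivity, fun {η} hη {Cg} hCg hg L hL t₀ => ?_⟩
  have hL0 : 0 < L := by linarith
  have hδL : 0 ≤ 1 * L / (2 * π) := by positivity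
  have hb := bump_hsc hL0 hη t₀
  have h1 : ∫ t : ℝ, gs (hsc L η t₀) ((t : ℂ) + ((-1 : ℝ) : ℂ) * I) =
      ((2 * π / L : ℝ) : ℂ) * η 0 := by
    have h2 := integral_gs_exp hδL hb (-1) 0
    simp only [ofReal_zero, mul_zero, zero_mul, neg_zero, Complex.exp_zero, mul_one,
      Real.exp_zero, ofReal_one] at h2
    rw [h2, hsc_zero]
  have h3 : Integrable fun t : ℝ => gs (hsc L η t₀) ((t : ℂ) + ((-1 : ℝ) : ℂ) * I) :=
    integrable_gs hδL hb (-1)
  have hpos : 0 < 1 + |t₀| := by positivity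
  have e0 : ((L / (2 * π) : ℝ) : ℂ) * (∫ τ : ℝ, archF (pt32 (1 * τ)) *
        gs (hsc L η t₀) ((τ : ℂ) + ((-1 : ℝ) : ℂ) * I)) - archF (pt32 t₀) * η 0 =
      ((L / (2 * π) : ℝ) : ℂ) * ((∫ τ : ℝ, archF (pt32 (1 * τ)) *
        gs (hsc L η t₀) ((τ : ℂ) + ((-1 : ℝ) : ℂ) * I)) -
        archF (pt32 t₀) * (((2 * π / L : ℝ) : ℂ) * η 0)) := by
    have hLC : (L : ℂ) ≠ 0 := by exact_mod_cast hL0.ne'
    have hpiC : (π : ℂ) ≠ 0 := by exact_mod_cast Real.pi_ne_zero
    rw [mul_sub]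
    congr 1
    push_cast
    field_simp
  rw [e0, norm_mul, Complex.norm_real, Real.norm_of_nonneg (by positivity)]
  rw [← h1, ← integral_const_mul, ← integral_sub (integrable_arch hδL hb 1 (-1) (by simp))
    (h3.const_mul _)]
  have hbound : ∀ t : ℝ, ‖archF (pt32 (1 * t)) *
      gs (hsc L η t₀) ((t : ℂ) + ((-1 : ℝ) : ℂ) * I) -
      archF (pt32 t₀) * gs (hsc L η t₀) ((t : ℂ) + ((-1 : ℝ) : ℂ) * I)‖ ≤
      Ca * (Cg * (2 * π) ^ 4 * (2 * π / L)) * Real.exp L / (1 + |t₀|) *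
        (1 / (1 + |t - t₀|) ^ 2) := by
    intro t
    rw [← sub_mul, norm_mul, one_mul]
    have h4 := ha t t₀
    have h5 := phi_hsc_bound5 hCg hg hL t₀ t
    have h6 := abs_nonneg (t - t₀)
    calc ‖archF (pt32 t) - archF (pt32 t₀)‖ *
          ‖gs (hsc L η t₀) ((t : ℂ) + ((-1 : ℝ) : ℂ) * I)‖
        ≤ (Ca * (1 + |t - t₀|) ^ 2 / (1 + |t₀|)) *
          (Cg * (2 * π) ^ 4 * (2 * π / L) * Real.exp L / (1 + |t - t₀|) ^ 4) :=
          mul_le_mul h4 h5 (norm_nonneg _) (by positivity)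
      _ = Ca * (Cg * (2 * π) ^ 4 * (2 * π / L)) * Real.exp L / (1 + |t₀|) *
        (1 / (1 + |t - t₀|) ^ 2) := by
          field_simp
  have hint : Integrable fun t : ℝ =>
      Ca * (Cg * (2 * π) ^ 4 * (2 * π / L)) * Real.exp L / (1 + |t₀|) *
        (1 / (1 + |t - t₀|) ^ 2) :=
    (integrable_inv_sq_abs t₀).const_mul _
  have hfin : ‖∫ t : ℝ, (archF (pt32 (1 * t)) *
      gs (hsc L η t₀) ((t : ℂ) + ((-1 : ℝ) : ℂ) * I) -
      archF (pt32 t₀) * gs (hsc L η t₀) ((t : ℂ) + ((-1 : ℝ) : ℂ) * I))‖ ≤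
      Ca * (Cg * (2 * π) ^ 4 * (2 * π / L)) * Real.exp L / (1 + |t₀|) * π := by
    refine (norm_integral_le_integral_norm _).trans ?_
    refine (integral_mono_of_nonneg (Eventually.of_forall fun t => norm_nonneg _) hint
      (Eventually.of_forall hbound)).trans ?_
    rw [integral_const_mul]
    exact mul_le_mul_of_nonneg_left (integral_inv_sq_abs_le t₀) (by positivity)
  calc L / (2 * π) * _ ≤ L / (2 * π) *
        (Ca * (Cg * (2 * π) ^ 4 * (2 * π / L)) * Real.exp L / (1 + |t₀|) * π) :=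
        mul_le_mul_of_nonneg_left hfin (by positivity)
    _ = Ca * (2 * π) ^ 4 * π * Cg * Real.exp L / (1 + |t₀|) := by
        field_simp

private lemma phi_eta {h : ℝ → ℂ} {w v : ℝ} (hw : 0 < w) (hv : 0 ≤ v) :
    phF h phig w v = h v * Complex.exp (-((w : ℂ) * v)) := by
  unfold phF
  rw [phig_pos (mul_nonneg hw.le hv)]
  push_cast
  rfl

private lemma phi_PS' {h : ℝ → ℂ} (hh : Bump 1 h) {L' : ℝ} (hL : 0 < L') {w : ℝ} (hw : 0 < w)
    (t : ℝ) :
    ∑' n : ℕ, ((Λ n / Real.sqrt n : ℝ) : ℂ) * (phF h phig w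
      (Real.log n / L') * Complex.exp (-(I * t * Real.log n))) =
      PS h L' (pl (1 / 2 + w / L') t) := by
  rw [tsum_eq_sum (s := Finset.Ioc 0 ⌊Real.exp L'⌋₊)]
  · unfold PS
    apply Finset.sum_congr rfl
    intro n hn
    have hn0 : n ≠ 0 := by have := (Finset.mem_Ioc.1 hn).1; omega
    have hnC : (n : ℂ) ≠ 0 := by exact_mod_cast hn0
    have hnR : (0 : ℝ) < n := by exact_mod_cast Nat.pos_of_ne_zero hn0
    rw [phi_eta hw (div_nonneg (Real.log_natCast_nonneg n) hL.le)]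
    rw [Complex.cpow_def_of_ne_zero hnC, ← Complex.natCast_log]
    have e1 : ((Real.sqrt n : ℝ) : ℂ)⁻¹ = Complex.exp (-(((Real.log n : ℝ) : ℂ) / 2)) := by
      have : Real.sqrt n = Real.exp (Real.log n / 2) := by
        rw [Real.sqrt_eq_rpow, Real.rpow_def_of_pos hnR]
        congr 1; ring
      rw [this, Complex.exp_neg]
      push_cast
      rfl
    have e2 : ((Λ n / Real.sqrt n : ℝ) : ℂ) = ((Λ n : ℝ) : ℂ) *
        Complex.exp (-(((Real.log n : ℝ) : ℂ) / 2)) := by
      rw [← e1]; push_cast; ring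
    rw [e2]
    have e3 : Complex.exp (((Real.log n : ℝ) : ℂ) * -(pl (1 / 2 + w / L') t)) =
        Complex.exp (-(((Real.log n : ℝ) : ℂ) / 2)) *
          (Complex.exp (-((w : ℂ) * ((Real.log n / L' : ℝ) : ℂ))) *
            Complex.exp (-(I * t * Real.log n))) := by
      rw [← Complex.exp_add, ← Complex.exp_add]
      congr 1
      unfold pl
      push_cast
      ring
    rw [e3]
    ring
  · intro n hn
    by_cases hn0 : n = 0
    · subst hn0; simp
    · have h1 : ⌊Real.exp L'⌋₊ < n := by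
        by_contra hcon
        exact hn (Finset.mem_Ioc.2 ⟨Nat.pos_of_ne_zero hn0, not_lt.1 hcon⟩)
      have h2 : Real.exp L' < n := (Nat.floor_lt (Real.exp_pos _).le).1 h1
      have h3 : L' < Real.log n := (Real.lt_log_iff_exp_lt
        (by exact_mod_cast Nat.pos_of_ne_zero hn0)).2 h2
      have h4 : 1 < |Real.log n / L'| := by
        rw [abs_of_pos (div_pos (by linarith) hL)]
        rw [one_lt_div hL]; exact h3
      simp only [phF, hh.supp _ h4, zero_mul, mul_zero]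

/-- MODULE PHI. `Pp.phi_formula` (`Pp/PpPhi.lean`) for all `w > 0`, with a polynomial dependence on `w`
of the error. The only place where `W` enters is `Pp.arch_uniform` (`Pp/PpArch.lean`): the transform of
`v ↦ h(v) e^{-wv}` (`h` smooth, supported in `[-1, 1]`; only `v ≥ 0` matters, so replace `h` on the
negative axis if the proof there needs `e^{-wv}` bounded: see how `half_formula` uses `η` only on
`(0, ∞)`; e.g. multiply by a smooth cutoff in `v ≥ -1/(1+w)`, whose derivatives are polynomial in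
`w`) decays with a constant bounded by a polynomial in `w` (two or three integrations by parts). -/
theorem phi_unif (hRH : RiemannHypothesis) {h : ℝ → ℂ} (hh : Cut h) :
    ∃ C : ℝ, 0 < C ∧ ∀ L' : ℝ, 1 ≤ L' → ∀ w : ℝ, 0 < w → ∀ t : ℝ,
      (Summable fun z : Zer => (mu z : ℂ) * Kh h ((w : ℂ) + ((L' * (t - ord z) : ℝ) : ℂ) * I)) ∧
      ‖logDeriv xi (pl (1 / 2 + w / L') t) - archF (pt32 t) + PS h L' (pl (1 / 2 + w / L') t) -
        (L' : ℂ) * ∑' z : Zer, (mu z : ℂ) * Kh h ((w : ℂ) + ((L' * (t - ord z) : ℝ) : ℂ) * I)‖ ≤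
        C * (1 + w) ^ 4 * Real.exp L' / (1 + |t|) := by
  obtain ⟨CK, hCK, hKb⟩ := Kh_bound hh
  obtain ⟨CA, hCA, hA⟩ := phi_arch
  obtain ⟨CD, hCD, hD⟩ := phF_decay 5 hh.bump phig_nice
  refine ⟨CA * CD, by positivity, fun L' hL' w hw t => ?_⟩
  have hL0 : 0 < L' := by linarith
  have hLC : (L' : ℂ) ≠ 0 := by exact_mod_cast hL0.ne'
  set om : Zer → ℂ := fun z => (w : ℂ) + ((L' * (t - ord z) : ℝ) : ℂ) * I with hom
  have homre : ∀ z, (om z).re = w := fun z => by simp [hom]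
  have homim : ∀ z, (om z).im = L' * (t - ord z) := fun z => by
    simp [hom]
  have hom0 : ∀ z, om z ≠ 0 := fun z h0 => by
    have := homre z
    rw [h0, Complex.zero_re] at this
    linarith
  have hsum : Summable fun z : Zer => (mu z : ℂ) * Kh h (om z) := by
    have h1 := (summable_Mk hRH hL0 hw t).mul_left (CK / w ^ 2)
    apply Summable.of_norm_bounded h1
    intro z
    rw [norm_mul, norm_real, Real.norm_of_nonneg (mu_nonneg z)]
    have h2 := (hKb (om z) (by rw [homre]; exact hw)).2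
    have h3 : ‖om z‖ ^ 2 = w ^ 2 + (L' * (t - ord z)) ^ 2 := by
      rw [Complex.sq_norm, Complex.normSq_apply, homre, homim]; ring
    have h4 : Real.exp (-((om z).re / 2)) ≤ 1 := by
      rw [homre, Real.exp_le_one_iff]; linarith
    have h5 : ‖Kh h (om z)‖ ≤ CK / (w ^ 2 + (L' * (t - ord z)) ^ 2) := by
      refine h2.trans ?_
      rw [h3]
      apply div_le_div_of_nonneg_right _ (by positivity)
      nlinarith [Real.exp_pos (-((om z).re / 2))]
    have h6 : CK / (w ^ 2 + (L' * (t - ord z)) ^ 2) =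
        CK / w ^ 2 * (1 / (1 + (L' * (t - ord z) / w) ^ 2)) := by
      field_simp
    calc mu z * ‖Kh h (om z)‖ ≤ mu z * (CK / w ^ 2 * (1 / (1 + (L' * (t - ord z) / w) ^ 2))) := by
          apply mul_le_mul_of_nonneg_left _ (mu_nonneg z)
          rw [← h6]; exact h5
      _ = CK / w ^ 2 * (mu z / (1 + (L' * (t - ord z) / w) ^ 2)) := by ring
  refine ⟨hsum, ?_⟩
  set s : ℂ := pl (1 / 2 + w / L') t with hs
  set η : ℝ → ℂ := phF h phig w with hη
  have hηb : Bump 1 η := phF_bump hh.bump phig_nice w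
  have hhalf := half_formula hRH zero_le_one hηb hL0 t
  rw [phi_PS' hh.bump hL0 hw t] at hhalf
  set X : ℂ := ((L' / (2 * π) : ℝ) : ℂ) * (∫ τ : ℝ, archF (pt32 (1 * τ)) *
        gs (hsc L' η t) ((τ : ℂ) + ((-1 : ℝ) : ℂ) * I)) with hX
  have hsz : ∀ z : Zer, s - z.1 = om z / L' := by
    intro z
    rw [zer_eq hRH z, hs, eq_div_iff hLC]
    simp only [pl, hom]
    push_cast
    field_simp
    ring
  have hterm : ∀ z : Zer, (mu z : ℂ) * ((L' : ℂ) * ∫ v in Ioi (0 : ℝ),
      η v * Complex.exp (I * ((L' * (ord z - t) : ℝ) : ℂ) * v)) =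
      (mu z : ℂ) / (s - z.1) - (L' : ℂ) * ((mu z : ℂ) * Kh h (om z)) := by
    intro z
    have e1 : ∫ v in Ioi (0 : ℝ), η v * Complex.exp (I * ((L' * (ord z - t) : ℝ) : ℂ) * v) =
        ∫ v in Ioi (0 : ℝ), h v * Complex.exp (-(om z * v)) := by
      apply setIntegral_congr_fun measurableSet_Ioi
      intro v hv
      simp only [hη, hom]
      rw [phi_eta hw (le_of_lt hv), mul_assoc, ← Complex.exp_add]
      congr 2
      push_cast
      ring
    have e2 : ∫ v in Ioi (0 : ℝ), h v * Complex.exp (-(om z * v)) = 1 / om z - Kh h (om z) := by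
      unfold Kh; ring
    rw [e1, e2, hsz]
    have := hom0 z
    field_simp
  have h1 : Tendsto (fun T' : ℝ => ∑ z ∈ ZZ T', (mu z : ℂ) / (s - z.1)) atTop
      (𝓝 (logDeriv xi s)) := by
    have hre : 1 / 2 < s.re := by
      rw [hs, pl_re]
      have : 0 < w / L' := by positivity
      linarith
    refine (tendsto_ST hRH hre).congr' ?_
    filter_upwards [eventually_ge_atTop 0] with T' hT'
    unfold Mo.ST
    rw [← sum_ZZ hRH hT' (fun u => (analyticOrderNatAt xi u : ℂ) / (s - u))]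
    apply Finset.sum_congr rfl
    intro z _
    simp [mu]
  have h2 : Tendsto (fun T' : ℝ => (L' : ℂ) * ∑ z ∈ ZZ T', (mu z : ℂ) * Kh h (om z)) atTop
      (𝓝 ((L' : ℂ) * ∑' z : Zer, (mu z : ℂ) * Kh h (om z))) :=
    (hsum.hasSum.comp (tendsto_ZZ hRH)).const_mul _
  have h3 : Tendsto (fun T' : ℝ => ∑ z ∈ ZZ T', (mu z : ℂ) * ((L' : ℂ) * ∫ v in Ioi (0 : ℝ),
      η v * Complex.exp (I * ((L' * (ord z - t) : ℝ) : ℂ) * v))) atTop
      (𝓝 (logDeriv xi s - (L' : ℂ) * ∑' z : Zer, (mu z : ℂ) * Kh h (om z))) := by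
    refine (h1.sub h2).congr ?_
    intro T'
    rw [Finset.mul_sum, ← Finset.sum_sub_distrib]
    apply Finset.sum_congr rfl
    intro z _
    rw [hterm]
  have h4 := tendsto_nhds_unique h3 hhalf
  have hdec : ∀ z : ℂ, ‖gs η z‖ ≤ CD * (1 + w) ^ 4 * Real.exp (2 * π * |z.im|) / (1 + ‖z‖) ^ 5 := by
    intro z
    refine (hD w hw.le z).trans (le_of_eq ?_)
    have : (1 + w) ^ 5 / (1 + w) = (1 + w) ^ 4 := by
      have : 1 + w ≠ 0 := by positivity
      field_simp
    rw [this]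
  have h5 := hA hηb (by positivity : 0 < CD * (1 + w) ^ 4) hdec L' hL' t
  have hη0 : η 0 = 1 := by
    rw [hη, phi_eta hw le_rfl, hh.one 0 (by simp)]
    simp
  rw [hη0, mul_one] at h5
  have h6 : logDeriv xi s - archF (pt32 t) + PS h L' s -
      (L' : ℂ) * ∑' z : Zer, (mu z : ℂ) * Kh h (om z) = X - archF (pt32 t) := by
    linear_combination h4
  rw [h6]
  refine h5.trans (le_of_eq ?_)
  ring

end Pool.Agent.MP_67227b_nt.Ah
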