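import Pool.Agent.MP_67227b_nt.Ah.AhArchF
import Pool.Agent.MP_67227b_nt.Ah.AhPhi

set_option autoImplicit false

open Filter Topology Set MeasureTheory Complex
open scoped Real ArithmeticFunction ContDiff

namespace Pool.Agent.MP_67227b_nt.Ah

open Pool.Agent.Lib.ZetaCount_helper33 Pool.Agent.MP_67227b_nt Pool.Agent.MP_67227b_nt.Mo
open Pool.Agent.MP_67227b_nt.Sg Pool.Agent.MP_67227b_nt.Pp
open Pool.Agent.MP_67227b_nt.Mo.MomentBAux (DP)

/-- MODULE ZEXP1. The kernel integrated: for `w > 0`, `x` real,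
`∫_w^∞ ‖K(v + ix)‖ dv ≤ C e^{-w/2}/(w² + x²)` (`Kh_bound`). -/
theorem Kh_int {h : ℝ → ℂ} (hh : Cut h) : ∃ C : ℝ, 0 < C ∧ ∀ w x W : ℝ, 0 < w → w ≤ W →
    ∫ v in w..W, ‖Kh h ((v : ℂ) + (x : ℂ) * I)‖ ≤ C * Real.exp (-(w / 2)) / (w ^ 2 + x ^ 2) := by
  obtain ⟨C, hC, hb⟩ := Kh_bound hh
  refine ⟨2 * C, by positivity, fun w x W hw hwW => ?_⟩
  have hd : 0 < w ^ 2 + x ^ 2 := by positivity
  have h1 : ‖∫ v in w..W, ‖Kh h ((v : ℂ) + (x : ℂ) * I)‖‖ ≤
      ∫ v in w..W, C / (w ^ 2 + x ^ 2) * Real.exp (-(v / 2)) := by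
    refine intervalIntegral.norm_integral_le_of_norm_le hwW (Eventually.of_forall fun v hv => ?_)
      ((by fun_prop : Continuous fun v : ℝ =>
        C / (w ^ 2 + x ^ 2) * Real.exp (-(v / 2))).intervalIntegrable _ _)
    have hv0 : 0 < v := lt_trans hw hv.1
    have hre : ((v : ℂ) + (x : ℂ) * I).re = v := by simp
    have him : ((v : ℂ) + (x : ℂ) * I).im = x := by simp
    have h2 := (hb ((v : ℂ) + (x : ℂ) * I) (by rw [hre]; exact hv0)).2
    have h3 : ‖(v : ℂ) + (x : ℂ) * I‖ ^ 2 = v ^ 2 + x ^ 2 := by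
      rw [Complex.sq_norm, Complex.normSq_apply, hre, him]; ring
    rw [hre, h3] at h2
    rw [norm_norm]
    refine h2.trans ?_
    rw [div_mul_eq_mul_div]
    apply div_le_div_of_nonneg_left _ hd
    · nlinarith [hv.1]
    · positivity
  have h2 : ∫ v in w..W, C / (w ^ 2 + x ^ 2) * Real.exp (-(v / 2)) =
      C / (w ^ 2 + x ^ 2) * (2 * Real.exp (-(w / 2)) - 2 * Real.exp (-(W / 2))) := by
    rw [intervalIntegral.integral_const_mul]
    congr 1
    have h3 : ∀ v ∈ uIcc w W, HasDerivAt (fun v : ℝ => -2 * Real.exp (-(v / 2)))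
        (Real.exp (-(v / 2))) v := by
      intro v _
      have h4 : HasDerivAt (fun v : ℝ => -(v / 2)) (-(1 / 2)) v :=
        ((hasDerivAt_id v).div_const 2).neg
      have h5 := (h4.exp).const_mul (-2)
      refine h5.congr_deriv ?_
      ring
    rw [intervalIntegral.integral_eq_sub_of_hasDerivAt h3
      ((by fun_prop : Continuous fun v : ℝ => Real.exp (-(v / 2))).intervalIntegrable _ _)]
    ring
  rw [h2] at h1
  have h3 : ∫ v in w..W, ‖Kh h ((v : ℂ) + (x : ℂ) * I)‖ ≤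
      C / (w ^ 2 + x ^ 2) * (2 * Real.exp (-(w / 2)) - 2 * Real.exp (-(W / 2))) :=
    (le_abs_self _).trans h1
  refine h3.trans ?_
  have h4 : 0 < Real.exp (-(W / 2)) := Real.exp_pos _
  have h5 : 0 < C / (w ^ 2 + x ^ 2) := by positivity
  calc C / (w ^ 2 + x ^ 2) * (2 * Real.exp (-(w / 2)) - 2 * Real.exp (-(W / 2)))
      ≤ C / (w ^ 2 + x ^ 2) * (2 * Real.exp (-(w / 2))) := by
        apply mul_le_mul_of_nonneg_left _ h5.le
        linarith
    _ = 2 * C * Real.exp (-(w / 2)) / (w ^ 2 + x ^ 2) := by ring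

namespace ZexpAux

lemma bdd {h : ℝ → ℂ} {δ : ℝ} (hh : Bump δ h) : ∃ M : ℝ, 0 < M ∧ ∀ v, ‖h v‖ ≤ M := by
  obtain ⟨C, hC⟩ := (isCompact_Icc (a := -δ) (b := δ)).exists_bound_of_continuousOn
    hh.smooth.continuous.continuousOn
  refine ⟨max C 1, lt_of_lt_of_le one_pos (le_max_right _ _), fun v => ?_⟩
  by_cases hv : δ < |v|
  · rw [hh.supp v hv, norm_zero]
    exact le_trans zero_le_one (le_max_right _ _)
  · exact (hC v (abs_le.1 (not_lt.1 hv))).trans (le_max_left _ _)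

/-- the coefficients of `log ζ` -/
noncomputable def lc (n : ℕ) : ℂ := ((Λ n / Real.log n : ℝ) : ℂ)

lemma lc_real (n : ℕ) : 0 ≤ Λ n / Real.log n ∧ Λ n / Real.log n ≤ 1 := by
  have h1 : 0 ≤ Λ n := ArithmeticFunction.vonMangoldt_nonneg
  have h2 : 0 ≤ Real.log n := Real.log_natCast_nonneg n
  exact ⟨div_nonneg h1 h2, div_le_one_of_le₀ ArithmeticFunction.vonMangoldt_le_log h2⟩

lemma lc_norm (n : ℕ) : ‖lc n‖ ≤ 1 := by
  unfold lc
  rw [norm_real, Real.norm_of_nonneg (lc_real n).1]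
  exact (lc_real n).2

lemma lc_absc : LSeries.abscissaOfAbsConv lc ≤ 1 :=
  LSeries.abscissaOfAbsConv_le_of_le_const ⟨1, fun n _ => lc_norm n⟩

lemma lc_one : lc 1 = 0 := by simp [lc]

lemma lc_logMul : LSeries.logMul lc = fun n => ((Λ n : ℝ) : ℂ) := by
  ext n
  unfold LSeries.logMul lc
  rcases Nat.eq_zero_or_pos n with h0 | h0
  · subst h0; simp
  rcases Nat.lt_or_ge 1 n with h1 | h1
  · have h2 : 0 < Real.log n := Real.log_pos (by exact_mod_cast h1)
    rw [← Complex.natCast_log, ← ofReal_mul, mul_div_cancel₀ _ h2.ne']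
  · have h3 : n = 1 := by omega
    subst h3; simp

lemma zeta_eq_exp {s : ℂ} (hs : 1 < s.re) : riemannZeta s = Complex.exp (LSeries lc s) := by
  set U : Set ℂ := {s | 1 < s.re} with hU
  have hUo : IsOpen U := isOpen_lt continuous_const Complex.continuous_re
  have hUc : IsPreconnected U := (convex_halfSpace_re_gt 1).isPreconnected
  set F : ℂ → ℂ := fun s => riemannZeta s * Complex.exp (-LSeries lc s) with hF
  have hne : ∀ s ∈ U, s ≠ 1 := by
    rintro s hs rfl
    have : (1 : ℝ) < (1 : ℂ).re := hs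
    simp at this
  have hd : ∀ s ∈ U, HasDerivAt F 0 s := by
    intro s hs
    have hs1 : 1 < s.re := hs
    have h1 : HasDerivAt riemannZeta (deriv riemannZeta s) s :=
      (differentiableAt_riemannZeta (hne s hs)).hasDerivAt
    have h2 : HasDerivAt (LSeries lc) (-LSeries (LSeries.logMul lc) s) s := by
      apply LSeries_hasDerivAt
      exact lt_of_le_of_lt lc_absc (by exact_mod_cast hs1)
    rw [lc_logMul, ArithmeticFunction.LSeries_vonMangoldt_eq_deriv_riemannZeta_div hs1] at h2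
    have h3 := h1.mul h2.neg.cexp
    have hz : riemannZeta s ≠ 0 := riemannZeta_ne_zero_of_one_lt_re hs1
    refine h3.congr_deriv ?_
    field_simp
    ring
  have hconst : ∀ x ∈ U, ∀ y ∈ U, F x = F y := by
    intro x hx y hy
    refine hUo.is_const_of_deriv_eq_zero hUc
      (fun s hs => (hd s hs).differentiableAt.differentiableWithinAt) ?_ hx hy
    intro s hs
    exact (hd s hs).deriv
  have hlim : Tendsto (fun x : ℝ => F x) atTop (𝓝 1) := by
    have h1 : Tendsto (fun x : ℝ => LSeries lc x) atTop (𝓝 0) := by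
      have := LSeries.tendsto_atTop (f := lc) (lt_of_le_of_lt lc_absc (EReal.coe_lt_top 1))
      rwa [lc_one] at this
    have h2 : Tendsto (fun x : ℝ => riemannZeta x) atTop (𝓝 1) := by
      have h3 := LSeries.tendsto_atTop (f := 1) (by
        rw [LSeries.abscissaOfAbsConv_one]; exact EReal.coe_lt_top 1)
      simp only [Pi.one_apply] at h3
      refine h3.congr' ?_
      filter_upwards [eventually_gt_atTop (1 : ℝ)] with x hx
      exact LSeries_one_eq_riemannZeta (by simpa using hx)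
    have h3 := h2.mul ((Complex.continuous_exp.tendsto _).comp h1.neg)
    simpa [hF] using h3
  have h1 : F s = 1 := by
    refine tendsto_nhds_unique (tendsto_const_nhds.congr' ?_) hlim
    filter_upwards [eventually_gt_atTop (1 : ℝ)] with x hx
    exact hconst s hs x (by simpa [hU] using hx)
  have h2 : riemannZeta s * Complex.exp (-LSeries lc s) = 1 := h1
  rw [Complex.exp_neg] at h2
  field_simp at h2
  exact h2

lemma ev_small (n : ℕ) {c ε : ℝ} (hc : 0 < c) (hε : 0 < ε) :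
    ∀ᶠ T : ℝ in atTop, Real.log T ^ n * Real.exp (-(c * Real.log T)) ≤ ε := by
  have h1 := Real.tendsto_pow_mul_exp_neg_atTop_nhds_zero n
  have h2 : Tendsto (fun T : ℝ => c * Real.log T) atTop atTop :=
    Real.tendsto_log_atTop.const_mul_atTop hc
  have h3 := (h1.comp h2).const_mul ((1 / c) ^ n)
  rw [mul_zero] at h3
  filter_upwards [h3.eventually_le_const hε] with T hT
  refine le_trans (le_of_eq ?_) hT
  simp only [Function.comp_apply]
  rw [← mul_assoc, ← mul_pow]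
  congr 2
  field_simp

/-- the difference at `2 + it` -/
lemma at_two {h : ℝ → ℂ} (hh : Cut h) : ∃ C : ℝ, 0 < C ∧ ∀ θ T t : ℝ, 0 < θ → 1 < T →
    ‖LSeries lc (pl 2 t) - PB h θ T (pl 2 t)‖ ≤ C * Real.exp (-(θ / 4 * Real.log T)) := by
  obtain ⟨H, hH0, hH⟩ := bdd hh.bump
  have hS : Summable fun n : ℕ => (n : ℝ) ^ (-(3 / 2) : ℝ) := by
    have := Real.summable_nat_rpow (p := -(3 / 2))
    exact this.2 (by norm_num)
  set S : ℝ := ∑' n : ℕ, (n : ℝ) ^ (-(3 / 2) : ℝ) with hSd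
  have hS0 : 0 ≤ S := tsum_nonneg fun n => Real.rpow_nonneg (Nat.cast_nonneg n) _
  refine ⟨(1 + |H|) * S + 1, by positivity, fun θ T t hθ hT => ?_⟩
  have hL : 0 < Real.log T := Real.log_pos hT
  have hT0 : 0 < T := by linarith
  set L' : ℝ := θ * Real.log T with hL'
  have hL'0 : 0 < L' := mul_pos hθ hL
  have hTθ : T ^ θ = Real.exp L' := by
    rw [Real.rpow_def_of_pos hT0, hL']; congr 1; ring
  have hs : (1 : ℝ) < (pl 2 t).re := by rw [pl_re]; norm_num
  set s := pl 2 t with hsd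
  have hsum : LSeriesSummable lc s := by
    apply LSeriesSummable_of_abscissaOfAbsConv_lt_re
    exact lt_of_le_of_lt lc_absc (by exact_mod_cast hs)
  -- the finite sum as a series
  have hPB : PB h θ T s = ∑' n : ℕ, LSeries.term lc s n * h (Real.log n / L') := by
    rw [tsum_eq_sum (s := Finset.Ioc 1 ⌊T ^ θ⌋₊)]
    · unfold PB
      apply Finset.sum_congr rfl
      intro n hn
      have hn0 : n ≠ 0 := by have := (Finset.mem_Ioc.1 hn).1; omega
      rw [LSeries.term_of_ne_zero hn0, Complex.cpow_neg, div_eq_mul_inv]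
      simp only [lc]
      rw [← hL']
      ring_nf
    · intro n hn
      rcases Nat.eq_zero_or_pos n with h0 | h0
      · subst h0; simp
      rcases Nat.lt_or_ge 1 n with h1 | h1
      · have h2 : ⌊T ^ θ⌋₊ < n := by
          by_contra hcon
          exact hn (Finset.mem_Ioc.2 ⟨h1, not_lt.1 hcon⟩)
        have h3 : T ^ θ < n := (Nat.floor_lt (Real.rpow_nonneg hT0.le _)).1 h2
        rw [hTθ] at h3
        have h4 : L' < Real.log n := (Real.lt_log_iff_exp_lt (by exact_mod_cast h0)).2 h3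
        have h5 : 1 < |Real.log n / L'| := by
          rw [abs_of_pos (div_pos (by linarith) hL'0), one_lt_div hL'0]
          exact h4
        rw [hh.bump.supp _ h5, mul_zero]
      · have h3 : n = 1 := by omega
        subst h3
        rw [LSeries.term_of_ne_zero one_ne_zero, lc_one]
        simp
  have hn : ∀ n : ℕ, ‖LSeries.term lc s n‖ ≤ (n : ℝ) ^ (-(2 : ℝ)) := by
    intro n
    rcases Nat.eq_zero_or_pos n with h0 | h0
    · subst h0; simp
    rw [LSeries.term_of_ne_zero h0.ne', norm_div, Complex.norm_natCast_cpow_of_pos h0, hsd, pl_re,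
      Real.rpow_neg (Nat.cast_nonneg n), div_eq_mul_inv]
    exact mul_le_of_le_one_left (by positivity) (lc_norm n)
  have hPs : Summable fun n : ℕ => LSeries.term lc s n * h (Real.log n / L') := by
    have h1 : Summable fun n : ℕ => (n : ℝ) ^ (-(2 : ℝ)) * |H| :=
      (Real.summable_nat_rpow.2 (by norm_num)).mul_right _
    refine Summable.of_norm_bounded h1 fun n => ?_
    rw [norm_mul]
    exact mul_le_mul (hn n) ((hH _).trans (le_abs_self _)) (norm_nonneg _)
      (Real.rpow_nonneg (Nat.cast_nonneg n) _)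
  have hdiff : LSeries lc s - PB h θ T s =
      ∑' n : ℕ, LSeries.term lc s n * (1 - h (Real.log n / L')) := by
    rw [hPB, LSeries, ← hsum.tsum_sub hPs]
    congr 1
    ext n
    ring
  rw [hdiff]
  have hE : Real.exp (-(θ / 4 * Real.log T)) = Real.exp (-(L' / 4)) := by
    congr 1; rw [hL']; ring
  rw [hE]
  have hb : ∀ n : ℕ, ‖LSeries.term lc s n * (1 - h (Real.log n / L'))‖ ≤
      (1 + |H|) * Real.exp (-(L' / 4)) * (n : ℝ) ^ (-(3 / 2) : ℝ) := by
    intro n
    have hr : 0 ≤ (n : ℝ) ^ (-(3 / 2) : ℝ) := Real.rpow_nonneg (Nat.cast_nonneg n) _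
    rcases Nat.eq_zero_or_pos n with h0 | h0
    · subst h0
      simp only [LSeries.term_zero, zero_mul, norm_zero]
      positivity
    have hn0 : (0 : ℝ) < n := by exact_mod_cast h0
    by_cases hc : Real.log n ≤ L' / 2
    · have h1 : |Real.log n / L'| ≤ 1 / 2 := by
        rw [abs_of_nonneg (div_nonneg (Real.log_natCast_nonneg n) hL'0.le), div_le_iff₀ hL'0]
        linarith
      rw [hh.one _ h1, sub_self, mul_zero, norm_zero]
      positivity
    · push Not at hc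
      rw [norm_mul]
      have h1 : ‖1 - h (Real.log n / L')‖ ≤ 1 + |H| := by
        refine (norm_sub_le _ _).trans ?_
        rw [norm_one]
        have := (hH (Real.log n / L')).trans (le_abs_self _)
        linarith
      have h2 : (n : ℝ) ^ (-(2 : ℝ)) ≤ Real.exp (-(L' / 4)) * (n : ℝ) ^ (-(3 / 2) : ℝ) := by
        have h3 : (-(2 : ℝ)) = -(1 / 2) + -(3 / 2) := by norm_num
        rw [h3, Real.rpow_add hn0]
        apply mul_le_mul_of_nonneg_right _ hr
        rw [Real.rpow_def_of_pos hn0]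
        apply Real.exp_le_exp.2
        linarith
      calc ‖LSeries.term lc s n‖ * ‖1 - h (Real.log n / L')‖
          ≤ (Real.exp (-(L' / 4)) * (n : ℝ) ^ (-(3 / 2) : ℝ)) * (1 + |H|) :=
            mul_le_mul ((hn n).trans h2) h1 (norm_nonneg _) (by positivity)
        _ = _ := by ring
  have hbs : Summable fun n : ℕ => (1 + |H|) * Real.exp (-(L' / 4)) * (n : ℝ) ^ (-(3 / 2) : ℝ) :=
    hS.mul_left _
  have h1 := tsum_of_norm_bounded hbs.hasSum hb
  rw [tsum_mul_left] at h1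
  refine h1.trans ?_
  have hE0 := Real.exp_pos (-(L' / 4))
  calc (1 + |H|) * Real.exp (-(L' / 4)) * S = ((1 + |H|) * S) * Real.exp (-(L' / 4)) := by ring
    _ ≤ ((1 + |H|) * S + 1) * Real.exp (-(L' / 4)) :=
      mul_le_mul_of_nonneg_right (by linarith) hE0.le

lemma z_ne_one {s : ℂ} (ht : 0 < s.im) : s ≠ 1 := by
  rintro rfl
  simp at ht

lemma z_ne_zero {s : ℂ} (ht : 0 < s.im) : s ≠ 0 := by
  rintro rfl
  simp at ht

lemma z_zeta_ne (hRH : RiemannHypothesis) {s : ℂ} (hs : 1 / 2 < s.re) (ht : 0 < s.im) :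
    riemannZeta s ≠ 0 := by
  intro h
  have h1 : s.re = 1 / 2 := by
    refine hRH s h ?_ (z_ne_one ht)
    rintro ⟨n, hn⟩
    rw [hn] at ht
    simp at ht
  linarith

lemma z_half_re {s : ℂ} (hs : 0 < s.re) : 0 < (s / 2).re := by
  have : (s / 2).re = s.re / 2 := by simp
  rw [this]
  linarith

lemma z_logDeriv_Gammaℝ {s : ℂ} (hs : 0 < s.re) :
    DifferentiableAt ℂ Gammaℝ s ∧
    logDeriv Gammaℝ s = - (Real.log Real.pi : ℂ) / 2 + digamma (s / 2) / 2 := by
  have h0 := z_half_re hs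
  have e : Gammaℝ = fun s : ℂ => exp (-(s / 2) * (Real.log Real.pi : ℂ)) * Gamma (s / 2) := by
    ext s
    rw [Gammaℝ_def, cpow_def_of_ne_zero (by exact_mod_cast Real.pi_ne_zero),
      ← ofReal_log Real.pi_pos.le]
    congr 2
    ring
  have h1 : HasDerivAt (fun s : ℂ => exp (-(s / 2) * (Real.log Real.pi : ℂ)))
      (exp (-(s / 2) * (Real.log Real.pi : ℂ)) * (-(1 / 2) * (Real.log Real.pi : ℂ))) s :=
    (((hasDerivAt_id s).div_const 2).neg.mul_const _).cexp
  have h2 : HasDerivAt (fun s : ℂ => Gamma (s / 2)) (deriv Gamma (s / 2) * (1 / 2)) s := by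
    have h3 : HasDerivAt Gamma (deriv Gamma (s / 2)) (s / 2) :=
      (differentiableAt_Gamma _ (ne_neg_nat h0)).hasDerivAt
    exact h3.comp s ((hasDerivAt_id s).div_const 2)
  have hG : Gamma (s / 2) ≠ 0 := Gamma_ne_zero_of_re_pos h0
  refine ⟨by rw [e]; exact (h1.mul h2).differentiableAt, ?_⟩
  rw [e, logDeriv_mul (f := fun s : ℂ => exp (-(s / 2) * (Real.log Real.pi : ℂ)))
    (g := fun s : ℂ => Gamma (s / 2)) s (exp_ne_zero _) hG h1.differentiableAt
    h2.differentiableAt, logDeriv_apply, logDeriv_apply, h1.deriv, h2.deriv,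
    mul_div_cancel_left₀ _ (exp_ne_zero _), digamma_def, logDeriv_apply]
  ring

/-- The logarithmic derivative of `xi` to the right of the critical line. -/
lemma z_logDeriv_xi (hRH : RiemannHypothesis) {s : ℂ} (hs : 1 / 2 < s.re)
    (ht : 0 < s.im) : logDeriv xi s = archF s + logDeriv riemannZeta s := by
  have h0 : s ≠ 0 := z_ne_zero ht
  have h1 : s ≠ 1 := z_ne_one ht
  have h1' : (1 : ℂ) - s ≠ 0 := sub_ne_zero.mpr h1.symm
  have hs0 : 0 < s.re := by linarith
  have hGn : Gammaℝ s ≠ 0 := Gammaℝ_ne_zero_of_re_pos hs0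
  have hz : riemannZeta s ≠ 0 := z_zeta_ne hRH hs ht
  have e : xi =ᶠ[𝓝 s] fun s => s * (1 - s) * Gammaℝ s * riemannZeta s := by
    filter_upwards [(isOpen_lt continuous_const continuous_re).mem_nhds hs0,
      (isOpen_lt continuous_const continuous_im).mem_nhds ht] with z hz hz2
    have hz' : 0 < z.re := hz
    exact xi_eq' (z_ne_zero hz2) (z_ne_one hz2) (Gammaℝ_ne_zero_of_re_pos hz')
  have d1 : DifferentiableAt ℂ (fun s : ℂ => s) s := differentiableAt_id
  have d2 : DifferentiableAt ℂ (fun s : ℂ => 1 - s) s := (differentiableAt_const 1).sub d1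
  obtain ⟨d3, hGl⟩ := z_logDeriv_Gammaℝ hs0
  have d4 : DifferentiableAt ℂ riemannZeta s := differentiableAt_riemannZeta h1
  have e2 : logDeriv xi s = logDeriv (fun s => s * (1 - s) * Gammaℝ s * riemannZeta s) s := by
    rw [logDeriv_apply, logDeriv_apply, e.deriv_eq, e.eq_of_nhds]
  rw [e2, logDeriv_mul (f := fun s : ℂ => s * (1 - s) * Gammaℝ s) (g := riemannZeta) s
      (mul_ne_zero (mul_ne_zero h0 h1') hGn) hz ((d1.mul d2).mul d3) d4,
    logDeriv_mul (f := fun s : ℂ => s * (1 - s)) (g := Gammaℝ) s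
      (mul_ne_zero h0 h1') hGn (d1.mul d2) d3,
    logDeriv_mul (f := fun s : ℂ => s) (g := fun s : ℂ => 1 - s) s h0 h1' d1 d2,
    hGl]
  have e3 : logDeriv (fun s : ℂ => s) s = s⁻¹ := by
    rw [logDeriv_apply, deriv_id'', one_div]
  have e4 : logDeriv (fun s : ℂ => 1 - s) s = (s - 1)⁻¹ := by
    have h5 : HasDerivAt (fun s : ℂ => 1 - s) (-1) s := (hasDerivAt_id s).const_sub 1
    rw [logDeriv_apply, h5.deriv, ← neg_sub s 1, neg_div_neg_eq, one_div]
  rw [e3, e4]
  unfold archF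
  ring

lemma z_hasDerivAt_pl (σ t : ℝ) : HasDerivAt (fun σ : ℝ => pl σ t) 1 σ := by
  have h6 : HasDerivAt (fun σ : ℝ => (σ : ℂ) + (t : ℂ) * I) 1 σ :=
    (hasDerivAt_id σ).ofReal_comp.add_const _
  exact h6

lemma z_continuous_pl (t : ℝ) : Continuous (fun σ : ℝ => pl σ t) := by
  unfold pl
  fun_prop

/-- `ζ'/ζ` is continuous on horizontal half-lines. -/
lemma z_cont (hRH : RiemannHypothesis) {σ t : ℝ} (hσ : 1 / 2 < σ) (ht : 0 < t) :
    ContinuousAt (fun σ : ℝ => logDeriv riemannZeta (pl σ t)) σ := by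
  have him : 0 < (pl σ t).im := by rw [pl_im]; exact ht
  have hU : IsOpen ({1}ᶜ : Set ℂ) := isOpen_compl_singleton
  have hz : AnalyticAt ℂ riemannZeta (pl σ t) := by
    have h1 : DifferentiableOn ℂ riemannZeta ({1}ᶜ : Set ℂ) := fun s hs =>
      (differentiableAt_riemannZeta hs).differentiableWithinAt
    exact h1.analyticAt (hU.mem_nhds (z_ne_one him))
  have h2 : AnalyticAt ℂ (fun s => deriv riemannZeta s / riemannZeta s) (pl σ t) :=
    hz.deriv.div hz (z_zeta_ne hRH (by rw [pl_re]; exact hσ) him)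
  have h3 : ContinuousAt (fun s => deriv riemannZeta s / riemannZeta s)
      ((fun σ : ℝ => pl σ t) σ) := h2.continuousAt
  exact ContinuousAt.comp (f := fun σ : ℝ => pl σ t) h3 (z_continuous_pl t).continuousAt

/-- the derivative of `PB` is `-PS` -/
lemma hasDerivAt_PB (h : ℝ → ℂ) {θ T : ℝ} (hT : 1 < T) (s : ℂ) :
    HasDerivAt (PB h θ T) (-PS h (θ * Real.log T) s) s := by
  have hL : 0 < Real.log T := Real.log_pos hT
  have hT0 : 0 < T := by linarith
  have hTθ : T ^ θ = Real.exp (θ * Real.log T) := by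
    rw [Real.rpow_def_of_pos hT0]; congr 1; ring
  have h1 : ∀ n ∈ Finset.Ioc 1 ⌊T ^ θ⌋₊, HasDerivAt (fun s : ℂ =>
      ((Λ n / Real.log n : ℝ) : ℂ) * h (Real.log n / (θ * Real.log T)) * (n : ℂ) ^ (-s))
      (-(((Λ n : ℝ) : ℂ) * h (Real.log n / (θ * Real.log T)) * (n : ℂ) ^ (-s))) s := by
    intro n hn
    have hn1 : 1 < n := (Finset.mem_Ioc.1 hn).1
    have hn0 : (n : ℂ) ≠ 0 := by
      have : n ≠ 0 := by omega
      exact_mod_cast this
    have hlog : 0 < Real.log n := Real.log_pos (by exact_mod_cast hn1)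
    have h2 : HasDerivAt (fun s : ℂ => (n : ℂ) ^ (-s))
        ((n : ℂ) ^ (-s) * Complex.log n * (-1)) s := by
      have := (hasDerivAt_id s).neg.const_cpow (c := (n : ℂ)) (Or.inl hn0)
      exact this
    have h3 := h2.const_mul (((Λ n / Real.log n : ℝ) : ℂ) * h (Real.log n / (θ * Real.log T)))
    refine h3.congr_deriv ?_
    rw [← Complex.natCast_log]
    have h4 : ((Λ n : ℝ) : ℂ) = ((Λ n / Real.log n : ℝ) : ℂ) * ((Real.log n : ℝ) : ℂ) := by
      rw [← ofReal_mul, div_mul_cancel₀ _ hlog.ne']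
    rw [h4]
    ring
  have h2 := HasDerivAt.fun_sum h1
  have h3 : PS h (θ * Real.log T) s = ∑ n ∈ Finset.Ioc 1 ⌊T ^ θ⌋₊,
      ((Λ n : ℝ) : ℂ) * h (Real.log n / (θ * Real.log T)) * (n : ℂ) ^ (-s) := by
    unfold PS
    rw [← hTθ]
    symm
    apply Finset.sum_subset
    · intro n hn
      rw [Finset.mem_Ioc] at hn ⊢
      exact ⟨by omega, hn.2⟩
    · intro n hn hn2
      rw [Finset.mem_Ioc] at hn
      have : n = 1 := by
        by_contra hcon
        exact hn2 (Finset.mem_Ioc.2 ⟨by omega, hn.2⟩)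
      subst this
      simp
  rw [h3, ← Finset.sum_neg_distrib]
  exact h2

lemma continuous_PS (h : ℝ → ℂ) (L' t : ℝ) : Continuous fun σ : ℝ => PS h L' (pl σ t) := by
  unfold PS
  refine continuous_finsetSum _ fun n hn => continuous_const.mul ?_
  have hn0 : (n : ℂ) ≠ 0 := by
    have : n ≠ 0 := by have := (Finset.mem_Ioc.1 hn).1; omega
    exact_mod_cast this
  exact (z_continuous_pl t).neg.const_cpow (Or.inl hn0)

/-- The exact formula: zeta on the horizontal segment `[σ₀, 2]`. -/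
lemma zeta_formula (hRH : RiemannHypothesis) (h : ℝ → ℂ) {θ T σ₀ t : ℝ} (hT : 1 < T)
    (hσ : 1 / 2 < σ₀) (hσ2 : σ₀ ≤ 2) (ht : 0 < t) :
    riemannZeta (pl σ₀ t) = Complex.exp (PB h θ T (pl σ₀ t) +
      ((LSeries lc (pl 2 t) - PB h θ T (pl 2 t)) -
        ∫ σ in σ₀..2, (logDeriv riemannZeta (pl σ t) + PS h (θ * Real.log T) (pl σ t)))) := by
  set r : ℝ → ℂ := fun σ => logDeriv riemannZeta (pl σ t) + PS h (θ * Real.log T) (pl σ t) with hr
  set r' : ℝ → ℂ := fun σ => r (max σ σ₀) with hr'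
  have hr'c : Continuous r' := by
    rw [continuous_iff_continuousAt]
    intro σ
    have h1 : ContinuousAt r (max σ σ₀) :=
      (z_cont hRH (lt_of_lt_of_le hσ (le_max_right _ _)) ht).add
        (continuous_PS h _ t).continuousAt
    exact ContinuousAt.comp (f := fun σ : ℝ => max σ σ₀) h1 (by fun_prop)
  have hint : ∫ σ in σ₀..2, r σ = ∫ σ in σ₀..2, r' σ := by
    apply intervalIntegral.integral_congr
    intro σ hσ'
    rw [uIcc_of_le hσ2] at hσ'
    simp only [hr']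
    rw [max_eq_left hσ'.1]
  rw [hint]
  set R : ℝ → ℂ := fun x => ∫ σ in σ₀..x, r' σ with hR
  have hRd : ∀ x : ℝ, HasDerivAt R (r' x) x := fun x =>
    (hr'c.integral_hasStrictDerivAt σ₀ x).hasDerivAt
  set g : ℝ → ℂ := fun x => riemannZeta (pl x t) *
    Complex.exp (-(PB h θ T (pl x t) + R x)) with hg
  have hgd : ∀ x : ℝ, σ₀ ≤ x → HasDerivAt g 0 x := by
    intro x hx
    have him : 0 < (pl x t).im := by rw [pl_im]; exact ht
    have hre : 1 / 2 < (pl x t).re := by rw [pl_re]; linarith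
    have hz : riemannZeta (pl x t) ≠ 0 := z_zeta_ne hRH hre him
    have h1 : HasDerivAt riemannZeta (deriv riemannZeta (pl x t)) (pl x t) :=
      (differentiableAt_riemannZeta (z_ne_one him)).hasDerivAt
    have h3 : HasDerivAt (fun x : ℝ => riemannZeta (pl x t))
        (deriv riemannZeta (pl x t) * 1) x :=
      HasDerivAt.comp (h₂ := riemannZeta) (h := fun x : ℝ => pl x t) x h1 (z_hasDerivAt_pl x t)
    have h3' : HasDerivAt (fun x : ℝ => PB h θ T (pl x t))
        (-PS h (θ * Real.log T) (pl x t) * 1) x :=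
      HasDerivAt.comp (h₂ := PB h θ T) (h := fun x : ℝ => pl x t) x
        (hasDerivAt_PB h hT (pl x t)) (z_hasDerivAt_pl x t)
    have h4 := h3.mul ((h3'.add (hRd x)).neg.cexp)
    refine h4.congr_deriv ?_
    have h5 : r' x = logDeriv riemannZeta (pl x t) + PS h (θ * Real.log T) (pl x t) := by
      simp only [hr', hr]
      rw [max_eq_left hx]
    rw [h5, logDeriv_apply]
    simp only [Pi.add_apply, Pi.neg_apply]
    field_simp
    ring
  have hconst := constant_of_has_deriv_right_zero (f := g) (a := σ₀) (b := 2)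
    (fun x hx => (hgd x hx.1).continuousAt.continuousWithinAt)
    (fun x hx => (hgd x hx.1).hasDerivWithinAt) 2 (right_mem_Icc.mpr hσ2)
  have hg0 : g σ₀ = riemannZeta (pl σ₀ t) * Complex.exp (-PB h θ T (pl σ₀ t)) := by
    simp only [hg, hR]
    simp
  have hgα : g 2 = Complex.exp (LSeries lc (pl 2 t)) *
      Complex.exp (-(PB h θ T (pl 2 t) + R 2)) := by
    simp only [hg]
    rw [zeta_eq_exp (s := pl 2 t) (by rw [pl_re]; norm_num)]
  rw [hg0, hgα] at hconst
  change riemannZeta (pl σ₀ t) = Complex.exp (PB h θ T (pl σ₀ t) +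
      ((LSeries lc (pl 2 t) - PB h θ T (pl 2 t)) - R 2))
  have e1 : riemannZeta (pl σ₀ t) = riemannZeta (pl σ₀ t) *
      Complex.exp (-PB h θ T (pl σ₀ t)) * Complex.exp (PB h θ T (pl σ₀ t)) := by
    rw [mul_assoc, ← Complex.exp_add, neg_add_cancel, Complex.exp_zero, mul_one]
  rw [e1, ← hconst, ← Complex.exp_add, ← Complex.exp_add]
  congr 1
  ring

/-- the zero sum is bounded -/
lemma zsum_le (hRH : RiemannHypothesis) {h : ℝ → ℂ} {CK : ℝ} (hCK : 0 < CK)
    (hKb : ∀ w : ℂ, 0 < w.re → ‖Kh h w‖ ≤ CK * Real.exp (-(w.re / 2)) / ‖w‖ ^ 2)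
    {θ L k w t : ℝ} (hθ : 0 < θ) (hL : 0 < L) (hk : 1 / 2 ≤ k) (hw : θ * k ≤ w) :
    ‖∑' z : Zer, (mu z : ℂ) * Kh h ((w : ℂ) + ((θ * L * (t - ord z) : ℝ) : ℂ) * I)‖ ≤
      4 * CK / θ ^ 2 * Real.exp (-(w / 2)) * Mk L 1 t := by
  have hk0 : 0 < k := by linarith
  have hw0 : 0 < w := lt_of_lt_of_le (mul_pos hθ hk0) hw
  have hsM := (summable_Mk hRH hL one_pos t).mul_left (4 * CK / θ ^ 2 * Real.exp (-(w / 2)))
  have hb : ∀ z : Zer, ‖(mu z : ℂ) * Kh h ((w : ℂ) + ((θ * L * (t - ord z) : ℝ) : ℂ) * I)‖ ≤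
      4 * CK / θ ^ 2 * Real.exp (-(w / 2)) * (mu z / (1 + (L * (t - ord z) / 1) ^ 2)) := by
    intro z
    rw [norm_mul, norm_real, Real.norm_of_nonneg (mu_nonneg z)]
    set y : ℝ := L * (t - ord z) with hy
    have e1 : θ * L * (t - ord z) = θ * y := by rw [hy]; ring
    rw [e1]
    have hre : ((w : ℂ) + ((θ * y : ℝ) : ℂ) * I).re = w := by simp
    have him : ((w : ℂ) + ((θ * y : ℝ) : ℂ) * I).im = θ * y := by simp
    have h2 := hKb ((w : ℂ) + ((θ * y : ℝ) : ℂ) * I) (by rw [hre]; exact hw0)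
    have h3 : ‖(w : ℂ) + ((θ * y : ℝ) : ℂ) * I‖ ^ 2 = w ^ 2 + (θ * y) ^ 2 := by
      rw [Complex.sq_norm, Complex.normSq_apply, hre, him]; ring
    rw [hre, h3] at h2
    have h4 : (θ ^ 2 / 4) * (1 + y ^ 2) ≤ w ^ 2 + (θ * y) ^ 2 := by
      have h5 : (θ * k) ^ 2 ≤ w ^ 2 := pow_le_pow_left₀ (by positivity) hw 2
      have h6 : θ ^ 2 * (1 / 4) ≤ (θ * k) ^ 2 := by
        rw [mul_pow]
        apply mul_le_mul_of_nonneg_left _ (by positivity)
        nlinarith
      nlinarith [sq_nonneg (θ * y)]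
    have h5 : ‖Kh h ((w : ℂ) + ((θ * y : ℝ) : ℂ) * I)‖ ≤
        CK * Real.exp (-(w / 2)) / ((θ ^ 2 / 4) * (1 + y ^ 2)) :=
      h2.trans (div_le_div_of_nonneg_left (by positivity) (by positivity) h4)
    calc mu z * ‖Kh h ((w : ℂ) + ((θ * y : ℝ) : ℂ) * I)‖
        ≤ mu z * (CK * Real.exp (-(w / 2)) / ((θ ^ 2 / 4) * (1 + y ^ 2))) :=
          mul_le_mul_of_nonneg_left h5 (mu_nonneg z)
      _ = 4 * CK / θ ^ 2 * Real.exp (-(w / 2)) * (mu z / (1 + (y / 1) ^ 2)) := by
        rw [div_one]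
        field_simp
  have h1 := tsum_of_norm_bounded hsM.hasSum hb
  rw [tsum_mul_left] at h1
  exact h1

end ZexpAux

/-- MODULE ZEXP2. Zeta as an exponential. Let `L = log T`, `L' = θL`, `s = sw T t k = pl (1/2 + k/L) t`,
`w = θk`. `log ζ(s) := log ζ(2+it) - ∫_{1/2+k/L}^2 (ζ'/ζ)(σ + it) dσ` exponentiates to `ζ(s)` (no
zeros on the segment, by RH), `ζ'/ζ = logDeriv xi - archF`. With `phi_unif` at `w' = L'(σ - 1/2)`:
`-∫ ζ'/ζ = ∫ PS - L' ∫ ∑ mu K + ∫ (archF - archF (pt32)) + error`. Here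
`∫ PS(σ + it) dσ = PB(s) - PB(2+it)` (`∫ n^{-σ} dσ = (n^{-σ₁} - n^{-2})/log n`),
`log ζ(2+it) - PB(2+it) = ∑ (Λ(n)/log n)(1 - h) n^{-2-it} = O(T^{-θ/2})`, the zero sum is at most
`∑ mu C e^{-w/2}/(w² + L'²(t-γ)²) = C e^{-w/2} w^{-2} Mk L k t` (`Kh_int`), `Mk L k ≤ 4 k² Mk L 1` for
`k ≥ 1/2` (`Mk_mono` for `k ≤ 1`; termwise for `k ≥ 1`), the archimedean part is `O(1/T)`
(`archF_flat`) and the error `O(L^4 T^θ/T)` (`w' ≤ 2 L'`). -/
theorem zeta_exp (hRH : RiemannHypothesis) {h : ℝ → ℂ} (hh : Cut h) : ∃ C : ℝ, 0 < C ∧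
    ∀ θ V : ℝ, 0 < θ → θ ≤ 1 / 4 → 1 ≤ V → ∀ᶠ T : ℝ in atTop, ∀ t ∈ Icc (T / 4) (4 * T),
      ∀ k ∈ Icc (1 / 2) V, ∃ e : ℂ,
        riemannZeta (sw T t k) = Complex.exp (PB h θ T (sw T t k) + e) ∧
        ‖e‖ ≤ C / θ ^ 2 * Real.exp (-(θ * k / 2)) * Mk (Real.log T) 1 t + 1 / Real.log T := by
  obtain ⟨CK, hCK, hKb'⟩ := Kh_bound hh
  have hKb : ∀ w : ℂ, 0 < w.re → ‖Kh h w‖ ≤ CK * Real.exp (-(w.re / 2)) / ‖w‖ ^ 2 :=
    fun w hw => (hKb' w hw).2
  obtain ⟨C1, hC1, hphi⟩ := phi_unif hRH hh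
  obtain ⟨C2, hC2, harch⟩ := archF_flat
  obtain ⟨C3, hC3, htwo⟩ := ZexpAux.at_two hh
  refine ⟨8 * CK, by positivity, fun θ V hθ hθ1 hV => ?_⟩
  have e1 := ZexpAux.ev_small 5 (c := 3 / 4) (ε := 1 / (288 * C1)) (by norm_num) (by positivity)
  have e2 := ZexpAux.ev_small 1 (c := 1) (ε := 1 / (18 * C2)) (by norm_num) (by positivity)
  have e3 := ZexpAux.ev_small 1 (c := θ / 4) (ε := 1 / (3 * C3)) (by positivity) (by positivity)
  filter_upwards [e1, e2, e3, Real.tendsto_log_atTop.eventually_ge_atTop (max V (1 / θ + 1)),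
    eventually_ge_atTop (32 : ℝ)] with T hT1 hT2 hT3 hLV hT t ht k hk
  have hT0 : 0 < T := by linarith
  have hT1' : 1 < T := by linarith
  have hL0 : 0 < Real.log T := Real.log_pos hT1'
  set L := Real.log T with hL
  have hLV1 : V ≤ L := (le_max_left _ _).trans hLV
  have hLθ : 1 / θ + 1 ≤ L := (le_max_right _ _).trans hLV
  have hθi : 0 < 1 / θ := by positivity
  have hL1 : 1 ≤ L := by linarith
  have hθL : 1 ≤ θ * L := by
    have h1 : θ * (1 / θ) ≤ θ * L := mul_le_mul_of_nonneg_left (by linarith) hθ.le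
    rwa [mul_one_div_cancel hθ.ne'] at h1
  have hTexp : Real.exp L = T := Real.exp_log hT0
  have ht0 : 0 < t := by linarith [ht.1]
  have ht8 : 8 ≤ t := by linarith [ht.1]
  have hk0 : 0 < k := by linarith [hk.1]
  set σ₀ : ℝ := 1 / 2 + k / L with hσ₀
  have hkL : k / L ≤ 1 := by
    rw [div_le_one hL0]; linarith [hk.2]
  have hkL0 : 0 < k / L := by positivity
  have hσ1 : 1 / 2 < σ₀ := by linarith
  have hσ2 : σ₀ ≤ 2 := by linarith
  have hsw : sw T t k = pl σ₀ t := by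
    simp only [sw, pl, hσ₀, ← hL]
    push_cast
    ring
  rw [hsw]
  set r : ℝ → ℂ := fun σ => logDeriv riemannZeta (pl σ t) + PS h (θ * L) (pl σ t) with hr
  refine ⟨(LSeries ZexpAux.lc (pl 2 t) - PB h θ T (pl 2 t)) - ∫ σ in σ₀..2, r σ,
    ZexpAux.zeta_formula hRH h hT1' hσ1 hσ2 ht0, ?_⟩
  have hM0 : 0 ≤ Mk L 1 t := Mk_nonneg _ _ _
  -- the pointwise bound
  set A : ℝ := 4 * CK / θ ^ 2 * Mk L 1 t with hA
  have hA0 : 0 ≤ A := by positivity
  set B : ℝ := 64 * C1 * (L ^ 4 * Real.exp (-(3 / 4 * L))) + 4 * C2 * Real.exp (-L) with hB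
  have hrb : ∀ σ ∈ Ioc σ₀ 2, ‖r σ‖ ≤ A * ((θ * L) * Real.exp (-(θ * L * (σ - 1 / 2) / 2))) + B := by
    intro σ hσ
    have hσ' : 1 / 2 < σ := lt_trans hσ1 hσ.1
    set w : ℝ := θ * L * (σ - 1 / 2) with hw
    have hw0 : 0 < w := by
      have : 0 < σ - 1 / 2 := by linarith
      positivity
    have hσw : 1 / 2 + w / (θ * L) = σ := by
      rw [hw]
      field_simp
      ring
    obtain ⟨-, hE⟩ := hphi (θ * L) hθL w hw0 t
    rw [hσw] at hE
    have hre : 1 / 2 < (pl σ t).re := by rw [pl_re]; exact hσ'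
    have him : 0 < (pl σ t).im := by rw [pl_im]; exact ht0
    rw [ZexpAux.z_logDeriv_xi hRH hre him] at hE
    have hkw : θ * k ≤ w := by
      rw [hw]
      have h1 : k / L ≤ σ - 1 / 2 := by
        have := hσ.1.le
        rw [hσ₀] at this
        linarith
      rw [div_le_iff₀ hL0] at h1
      calc θ * k ≤ θ * ((σ - 1 / 2) * L) := mul_le_mul_of_nonneg_left h1 hθ.le
        _ = θ * L * (σ - 1 / 2) := by ring
    have hZ := ZexpAux.zsum_le hRH hCK hKb (t := t) hθ hL0 hk.1 hkw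
    set Z : ℂ := ∑' z : Zer, (mu z : ℂ) * Kh h ((w : ℂ) + ((θ * L * (t - ord z) : ℝ) : ℂ) * I)
      with hZd
    have hF := harch σ t hσ'.le hσ.2 ht8
    have hdec : r σ = (archF (pl σ t) + logDeriv riemannZeta (pl σ t) - archF (pt32 t) +
        PS h (θ * L) (pl σ t) - ((θ * L : ℝ) : ℂ) * Z) + ((θ * L : ℝ) : ℂ) * Z -
        (archF (pl σ t) - archF (pt32 t)) := by
      simp only [hr]
      ring
    have h1 : ‖r σ‖ ≤ C1 * (1 + w) ^ 4 * Real.exp (θ * L) / (1 + |t|) +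
        θ * L * (4 * CK / θ ^ 2 * Real.exp (-(w / 2)) * Mk L 1 t) + C2 / t := by
      rw [hdec]
      refine (norm_sub_le _ _).trans (add_le_add ((norm_add_le _ _).trans (add_le_add hE ?_)) hF)
      rw [norm_mul, norm_real, Real.norm_of_nonneg (by positivity : 0 ≤ θ * L)]
      exact mul_le_mul_of_nonneg_left hZ (by positivity)
    refine h1.trans ?_
    have h2 : C1 * (1 + w) ^ 4 * Real.exp (θ * L) / (1 + |t|) ≤
        64 * C1 * (L ^ 4 * Real.exp (-(3 / 4 * L))) := by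
      have hw2 : 1 + w ≤ 2 * L := by
        have h3 : w ≤ 1 / 4 * L * (3 / 2) := by
          rw [hw]
          apply mul_le_mul _ _ (by linarith) (by positivity)
          · exact mul_le_mul_of_nonneg_right hθ1 hL0.le
          · linarith [hσ.2]
        linarith
      have h3 : (1 + w) ^ 4 ≤ (2 * L) ^ 4 := pow_le_pow_left₀ (by linarith) hw2 4
      have h4 : Real.exp (θ * L) ≤ Real.exp (1 / 4 * L) :=
        Real.exp_le_exp.2 (mul_le_mul_of_nonneg_right hθ1 hL0.le)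
      have h5 : T / 4 ≤ 1 + |t| := by
        have := le_abs_self t
        linarith [ht.1]
      have h6 : C1 * (1 + w) ^ 4 * Real.exp (θ * L) ≤ C1 * (2 * L) ^ 4 * Real.exp (1 / 4 * L) := by
        gcongr
      calc C1 * (1 + w) ^ 4 * Real.exp (θ * L) / (1 + |t|)
          ≤ C1 * (2 * L) ^ 4 * Real.exp (1 / 4 * L) / (T / 4) :=
            div_le_div₀ (by positivity) h6 (by positivity) h5
        _ = 64 * C1 * (L ^ 4 * (Real.exp (1 / 4 * L) / T)) := by
            field_simp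
            ring
        _ = 64 * C1 * (L ^ 4 * Real.exp (-(3 / 4 * L))) := by
            congr 2
            rw [← hTexp, ← Real.exp_sub]
            congr 1
            ring
    have h3 : C2 / t ≤ 4 * C2 * Real.exp (-L) := by
      rw [Real.exp_neg, hTexp]
      rw [div_le_iff₀ ht0]
      have h4 : 1 ≤ 4 * T⁻¹ * t := by
        have h5 : 4 * T⁻¹ * (T / 4) ≤ 4 * T⁻¹ * t :=
          mul_le_mul_of_nonneg_left ht.1 (by positivity)
        have h6 : 4 * T⁻¹ * (T / 4) = 1 := by field_simp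
        linarith
      nlinarith
    have h4 : θ * L * (4 * CK / θ ^ 2 * Real.exp (-(w / 2)) * Mk L 1 t) =
        A * ((θ * L) * Real.exp (-(w / 2))) := by
      rw [hA]; ring
    rw [h4, hB]
    linarith
  have hI : ‖∫ σ in σ₀..2, r σ‖ ≤
      ∫ σ in σ₀..2, (A * ((θ * L) * Real.exp (-(θ * L * (σ - 1 / 2) / 2))) + B) := by
    refine intervalIntegral.norm_integral_le_of_norm_le hσ2
      (Eventually.of_forall fun σ hσ => hrb σ hσ)
      ((by fun_prop : Continuous fun σ : ℝ =>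
        A * ((θ * L) * Real.exp (-(θ * L * (σ - 1 / 2) / 2))) + B).intervalIntegrable _ _)
  have hB0 : 0 ≤ B := by positivity
  have hI2 : ∫ σ in σ₀..2, (A * ((θ * L) * Real.exp (-(θ * L * (σ - 1 / 2) / 2))) + B) ≤
      2 * A * Real.exp (-(θ * k / 2)) + 3 / 2 * B := by
    have h3 : ∀ v ∈ uIcc σ₀ 2, HasDerivAt (fun σ : ℝ =>
        -2 * A * Real.exp (-(θ * L * (σ - 1 / 2) / 2)) + B * σ)
        (A * ((θ * L) * Real.exp (-(θ * L * (v - 1 / 2) / 2))) + B) v := by
      intro v _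
      have h4 : HasDerivAt (fun σ : ℝ => -(θ * L * (σ - 1 / 2) / 2)) (-(θ * L * 1 / 2)) v :=
        ((((hasDerivAt_id v).sub_const (1 / 2)).const_mul (θ * L)).div_const 2).neg
      have h5 := ((h4.exp).const_mul (-2 * A)).add ((hasDerivAt_id v).const_mul B)
      refine h5.congr_deriv ?_
      ring
    rw [intervalIntegral.integral_eq_sub_of_hasDerivAt h3
      ((by fun_prop : Continuous fun σ : ℝ =>
        A * ((θ * L) * Real.exp (-(θ * L * (σ - 1 / 2) / 2))) + B).intervalIntegrable _ _)]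
    have h4 : θ * L * (σ₀ - 1 / 2) / 2 = θ * k / 2 := by
      rw [hσ₀]
      field_simp
      ring
    rw [h4]
    have h5 : 0 < Real.exp (-(θ * L * (2 - 1 / 2) / 2)) := Real.exp_pos _
    have h6 : 0 ≤ A * Real.exp (-(θ * L * (2 - 1 / 2) / 2)) := by positivity
    have h7 : B * (2 - σ₀) ≤ B * (3 / 2) := mul_le_mul_of_nonneg_left (by linarith) hB0
    linarith
  have h2t := htwo θ T t hθ hT1'
  rw [← hL] at h2t
  have hfin : C3 * Real.exp (-(θ / 4 * L)) + 3 / 2 * B ≤ 1 / L := by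
    rw [le_div_iff₀ hL0]
    have f1 : C1 * (L ^ 5 * Real.exp (-(3 / 4 * L))) ≤ 1 / 288 := by
      have := mul_le_mul_of_nonneg_left hT1 hC1.le
      refine this.trans (le_of_eq ?_)
      field_simp
    have f2 : C2 * (L ^ 1 * Real.exp (-(1 * L))) ≤ 1 / 18 := by
      have := mul_le_mul_of_nonneg_left hT2 hC2.le
      refine this.trans (le_of_eq ?_)
      field_simp
    have f3 : C3 * (L ^ 1 * Real.exp (-(θ / 4 * L))) ≤ 1 / 3 := by
      have := mul_le_mul_of_nonneg_left hT3 hC3.le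
      refine this.trans (le_of_eq ?_)
      field_simp
    have f4 : (C3 * Real.exp (-(θ / 4 * L)) + 3 / 2 * B) * L =
        C3 * (L ^ 1 * Real.exp (-(θ / 4 * L))) + 96 * (C1 * (L ^ 5 * Real.exp (-(3 / 4 * L)))) +
        6 * (C2 * (L ^ 1 * Real.exp (-(1 * L)))) := by
      rw [hB, one_mul]
      ring
    rw [f4]
    linarith
  calc ‖(LSeries ZexpAux.lc (pl 2 t) - PB h θ T (pl 2 t)) - ∫ σ in σ₀..2, r σ‖
      ≤ ‖LSeries ZexpAux.lc (pl 2 t) - PB h θ T (pl 2 t)‖ + ‖∫ σ in σ₀..2, r σ‖ := norm_sub_le _ _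
    _ ≤ C3 * Real.exp (-(θ / 4 * L)) + (2 * A * Real.exp (-(θ * k / 2)) + 3 / 2 * B) :=
        add_le_add h2t (hI.trans hI2)
    _ = 2 * A * Real.exp (-(θ * k / 2)) + (C3 * Real.exp (-(θ / 4 * L)) + 3 / 2 * B) := by ring
    _ ≤ 2 * A * Real.exp (-(θ * k / 2)) + 1 / L := by linarith
    _ = 8 * CK / θ ^ 2 * Real.exp (-(θ * k / 2)) * Mk L 1 t + 1 / L := by rw [hA]; ring

end Pool.Agent.MP_67227b_nt.Ah
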