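import Pool.Agent.MP_67227b_nt.Ah.AhBox
import Pool.Agent.MP_67227b_nt.Ah.AhM1
import Pool.Agent.MP_67227b_nt.Ah.AhRect
import Pool.Agent.MP_67227b_nt.Ah.AhX
import Pool.Agent.MP_67227b_nt.Ah.AhZexp

set_option autoImplicit false

open Filter Topology Set MeasureTheory Complex
open scoped Real ArithmeticFunction ContDiff

namespace Pool.Agent.MP_67227b_nt.Ah

open Pool.Agent.Lib.ZetaCount_helper33 Pool.Agent.MP_67227b_nt Pool.Agent.MP_67227b_nt.Mo
open Pool.Agent.MP_67227b_nt.Sg Pool.Agent.MP_67227b_nt.Pp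
open Pool.Agent.MP_67227b_nt.Mo.MomentBAux (DP)

namespace EvRAux


/-- Jensen's inequality for powers on an interval of length one. -/
theorem pow_int_le {φ : ℝ → ℝ} (hφ : Continuous φ) (h0 : ∀ x, 0 ≤ φ x) (a : ℝ) (m : ℕ) :
    (∫ x in a..(a + 1), φ x) ^ m ≤ ∫ x in a..(a + 1), φ x ^ m := by
  rw [intervalIntegral.integral_of_le (by linarith), intervalIntegral.integral_of_le (by linarith)]
  haveI : IsProbabilityMeasure (volume.restrict (Ioc a (a + 1))) := by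
    refine ⟨?_⟩
    rw [Measure.restrict_apply_univ, Real.volume_Ioc]
    norm_num
  have hi1 : Integrable φ (volume.restrict (Ioc a (a + 1))) :=
    (hφ.integrableOn_Icc (a := a) (b := a + 1)).mono_set Ioc_subset_Icc_self
  have hi2 : Integrable (fun x => φ x ^ m) (volume.restrict (Ioc a (a + 1))) :=
    ((hφ.pow m).integrableOn_Icc (a := a) (b := a + 1)).mono_set Ioc_subset_Icc_self
  have h := (convexOn_pow m).map_integral_le (μ := volume.restrict (Ioc a (a + 1)))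
    (f := φ) (continuous_pow m).continuousOn isClosed_Ici
    (Filter.Eventually.of_forall fun x => h0 x) hi1 hi2
  exact h

/-- From mean values on lines to the supremum over a box. -/
theorem box_sup {G : ℝ → ℂ → ℂ} (hc : Continuous fun p : ℝ × ℂ => G p.1 p.2)
    (hd : ∀ t, Differentiable ℂ (G t)) {A B x₁ x₂ Y M lam : ℝ} {m : ℕ} (hm : 1 ≤ m)
    (hAB : A ≤ B) (hx : x₁ ≤ x₂) (hY : 0 ≤ Y) (hlam : 0 < lam)
    (hM : ∀ w : ℂ, x₁ - 1 / 2 ≤ w.re → w.re ≤ x₂ + 1 / 2 → |w.im| ≤ Y + 1 / 2 →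
      ∫ t in A..B, ‖G t w‖ ^ m ≤ M) :
    volume.real {t ∈ Icc A B | ¬ ∀ w : ℂ, x₁ ≤ w.re → w.re ≤ x₂ → |w.im| ≤ Y → ‖G t w‖ ≤ lam} ≤
      (16 / lam) ^ m * ((x₂ - x₁ + 1) * (2 * Y + 1) * M) := by
  have hg : Continuous fun p : ℝ × ℝ × ℝ => ‖G p.1 ((p.2.1 : ℂ) + (p.2.2 : ℂ) * I)‖ := by
    have h1 : Continuous fun p : ℝ × ℝ × ℝ => ((p.1, ((p.2.1 : ℂ) + (p.2.2 : ℂ) * I)) : ℝ × ℂ) := by
      fun_prop
    exact (hc.comp h1).norm
  have hgm : Continuous fun p : ℝ × ℝ × ℝ => ‖G p.1 ((p.2.1 : ℂ) + (p.2.2 : ℂ) * I)‖ ^ m :=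
    hg.pow m
  set X1 := x₁ - 1 / 2 with hX1
  set X2 := x₂ + 1 / 2 with hX2
  set Y1 := -(Y + 1 / 2) with hY1
  set Y2 := Y + 1 / 2 with hY2
  have hX12 : X1 ≤ X2 := by rw [hX1, hX2]; linarith
  have hY12 : Y1 ≤ Y2 := by rw [hY1, hY2]; linarith
  set inner : ℝ → ℝ → ℝ := fun t x => ∫ y in Y1..Y2, ‖G t ((x : ℂ) + (y : ℂ) * I)‖ ^ m with hin
  have hcin : Continuous fun p : ℝ × ℝ => inner p.1 p.2 := by
    have : Continuous (Function.uncurry fun (p : ℝ × ℝ) (y : ℝ) =>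
        ‖G p.1 ((p.2 : ℂ) + (y : ℂ) * I)‖ ^ m) := by
      have h1 : Continuous fun p : (ℝ × ℝ) × ℝ => ((p.1.1, p.1.2, p.2) : ℝ × ℝ × ℝ) := by fun_prop
      exact hgm.comp h1
    exact intervalIntegral.continuous_parametric_intervalIntegral_of_continuous' this Y1 Y2
  have hin0 : ∀ t x, 0 ≤ inner t x := fun t x =>
    intervalIntegral.integral_nonneg hY12 fun y _ => by positivity
  set Φ : ℝ → ℝ := fun t => ∫ x in X1..X2, inner t x with hΦ
  have hcΦ : Continuous Φ :=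
    intervalIntegral.continuous_parametric_intervalIntegral_of_continuous'
      (f := inner) (by simpa [Function.uncurry_def] using hcin) X1 X2
  have hΦ0 : ∀ t, 0 ≤ Φ t := fun t => intervalIntegral.integral_nonneg hX12 fun x _ => hin0 t x
  -- inclusion
  have hsub : {t ∈ Icc A B | ¬ ∀ w : ℂ, x₁ ≤ w.re → w.re ≤ x₂ → |w.im| ≤ Y → ‖G t w‖ ≤ lam} ⊆
      {t ∈ Icc A B | (lam / 16) ^ m < Φ t} := by
    rintro t ⟨ht, hbad⟩
    refine ⟨ht, ?_⟩
    push Not at hbad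
    obtain ⟨w, h1, h2, h3, h4⟩ := hbad
    have h5 := sub_mean (f := G t) (z := w) (ρ := 1 / 2) (by norm_num)
      (hd t).differentiableOn
    have e1 : w.re + 1 / 2 = (w.re - 1 / 2) + 1 := by ring
    have e2 : w.im + 1 / 2 = (w.im - 1 / 2) + 1 := by ring
    rw [e1, e2] at h5
    have hc2 : ∀ x : ℝ, Continuous fun y : ℝ => ‖G t ((x : ℂ) + (y : ℂ) * I)‖ := fun x => by
      have h1 : Continuous fun y : ℝ => ((t, x, y) : ℝ × ℝ × ℝ) := by fun_prop
      exact hg.comp h1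
    have hc3 : Continuous fun x : ℝ => ∫ y in (w.im - 1 / 2)..(w.im - 1 / 2 + 1),
        ‖G t ((x : ℂ) + (y : ℂ) * I)‖ := by
      have : Continuous (Function.uncurry fun (x : ℝ) (y : ℝ) =>
          ‖G t ((x : ℂ) + (y : ℂ) * I)‖) := by
        have h1 : Continuous fun p : ℝ × ℝ => ((t, p.1, p.2) : ℝ × ℝ × ℝ) := by fun_prop
        exact hg.comp h1
      exact intervalIntegral.continuous_parametric_intervalIntegral_of_continuous' this _ _
    have hc4 : Continuous fun x : ℝ => ∫ y in (w.im - 1 / 2)..(w.im - 1 / 2 + 1),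
        ‖G t ((x : ℂ) + (y : ℂ) * I)‖ ^ m := by
      have : Continuous (Function.uncurry fun (x : ℝ) (y : ℝ) =>
          ‖G t ((x : ℂ) + (y : ℂ) * I)‖ ^ m) := by
        have h1 : Continuous fun p : ℝ × ℝ => ((t, p.1, p.2) : ℝ × ℝ × ℝ) := by fun_prop
        exact hgm.comp h1
      exact intervalIntegral.continuous_parametric_intervalIntegral_of_continuous' this _ _
    have hn0 : ∀ x : ℝ, 0 ≤ ∫ y in (w.im - 1 / 2)..(w.im - 1 / 2 + 1),
        ‖G t ((x : ℂ) + (y : ℂ) * I)‖ := fun x =>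
      intervalIntegral.integral_nonneg (by linarith) fun y _ => norm_nonneg _
    have h6 := pow_int_le hc3 hn0 (w.re - 1 / 2) m
    have hw := abs_le.1 h3
    have h7 : ∫ x in (w.re - 1 / 2)..(w.re - 1 / 2 + 1),
        (∫ y in (w.im - 1 / 2)..(w.im - 1 / 2 + 1), ‖G t ((x : ℂ) + (y : ℂ) * I)‖) ^ m ≤
        ∫ x in (w.re - 1 / 2)..(w.re - 1 / 2 + 1), inner t x := by
      refine intervalIntegral.integral_mono_on (by linarith)
        ((hc3.pow m).intervalIntegrable _ _)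
        ((hcin.comp (by fun_prop : Continuous fun x : ℝ => ((t, x) : ℝ × ℝ))).intervalIntegrable _ _)
        fun x _ => ?_
      refine (pow_int_le (hc2 x) (fun y => norm_nonneg _) (w.im - 1 / 2) m).trans ?_
      refine intervalIntegral.integral_mono_interval (by rw [hY1]; linarith) (by linarith)
        (by rw [hY2]; linarith) (Filter.Eventually.of_forall fun y => by positivity)
        (((hc2 x).pow m).intervalIntegrable _ _)
    have h8 : ∫ x in (w.re - 1 / 2)..(w.re - 1 / 2 + 1), inner t x ≤ Φ t := by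
      refine intervalIntegral.integral_mono_interval (by rw [hX1]; linarith) (by linarith)
        (by rw [hX2]; linarith) (Filter.Eventually.of_forall fun x => hin0 t x)
        ((hcin.comp (by fun_prop : Continuous fun x : ℝ => ((t, x) : ℝ × ℝ))).intervalIntegrable _ _)
    have h9 : lam / 16 < ∫ x in (w.re - 1 / 2)..(w.re - 1 / 2 + 1),
        ∫ y in (w.im - 1 / 2)..(w.im - 1 / 2 + 1), ‖G t ((x : ℂ) + (y : ℂ) * I)‖ := by
      have h10 : (4 : ℝ) / (1 / 2) ^ 2 = 16 := by norm_num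
      rw [h10] at h5
      rw [div_lt_iff₀ (by norm_num)]
      linarith
    calc (lam / 16) ^ m < (∫ x in (w.re - 1 / 2)..(w.re - 1 / 2 + 1),
        ∫ y in (w.im - 1 / 2)..(w.im - 1 / 2 + 1), ‖G t ((x : ℂ) + (y : ℂ) * I)‖) ^ m :=
          pow_lt_pow_left₀ h9 (by positivity) (by omega)
      _ ≤ _ := h6
      _ ≤ _ := h7
      _ ≤ _ := h8
  have hfin : volume {t ∈ Icc A B | (lam / 16) ^ m < Φ t} ≠ ⊤ :=
    ne_top_of_le_ne_top (by simp) (measure_mono (fun t ht => ht.1 : _ ⊆ Icc A B))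
  have hmk := markov_int (F := Φ) (lam := (lam / 16) ^ m) hAB (by positivity)
    hcΦ.continuousOn (fun t _ => hΦ0 t)
  -- the integral of Φ
  have hI : ∫ t in A..B, Φ t ≤ (x₂ - x₁ + 1) * (2 * Y + 1) * M := by
    have hintg : ∀ (F : ℝ → ℝ → ℝ), (Continuous fun p : ℝ × ℝ => F p.1 p.2) → ∀ a b c d : ℝ,
        IntegrableOn (Function.uncurry F) (uIoc a b ×ˢ uIoc c d) := by
      intro F hF a b c d
      have h1 : IntegrableOn (Function.uncurry F) (uIcc a b ×ˢ uIcc c d) :=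
        ContinuousOn.integrableOn_compact (isCompact_uIcc.prod isCompact_uIcc)
          (by simpa [Function.uncurry_def] using hF.continuousOn)
      exact h1.mono_set (prod_mono uIoc_subset_uIcc uIoc_subset_uIcc)
    have h1 : ∫ t in A..B, Φ t = ∫ x in X1..X2, ∫ t in A..B, inner t x := by
      rw [hΦ]
      exact intervalIntegral_intervalIntegral_swap (hintg inner hcin _ _ _ _)
    have h2 : ∀ x : ℝ, ∫ t in A..B, inner t x = ∫ y in Y1..Y2, ∫ t in A..B,
        ‖G t ((x : ℂ) + (y : ℂ) * I)‖ ^ m := by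
      intro x
      rw [hin]
      refine intervalIntegral_intervalIntegral_swap
        (hintg (fun t y => ‖G t ((x : ℂ) + (y : ℂ) * I)‖ ^ m) ?_ _ _ _ _)
      have h1 : Continuous fun p : ℝ × ℝ => ((p.1, x, p.2) : ℝ × ℝ × ℝ) := by fun_prop
      exact hgm.comp h1
    rw [h1]
    have h3 : ∀ x ∈ Icc X1 X2, ∫ t in A..B, inner t x ≤ (2 * Y + 1) * M := by
      intro x hx'
      rw [h2 x]
      have hcy : Continuous fun y : ℝ => ∫ t in A..B, ‖G t ((x : ℂ) + (y : ℂ) * I)‖ ^ m := by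
        have : Continuous (Function.uncurry fun (y : ℝ) (t : ℝ) =>
            ‖G t ((x : ℂ) + (y : ℂ) * I)‖ ^ m) := by
          have h1 : Continuous fun p : ℝ × ℝ => ((p.2, x, p.1) : ℝ × ℝ × ℝ) := by fun_prop
          exact hgm.comp h1
        exact intervalIntegral.continuous_parametric_intervalIntegral_of_continuous' this _ _
      calc ∫ y in Y1..Y2, ∫ t in A..B, ‖G t ((x : ℂ) + (y : ℂ) * I)‖ ^ m ≤
          ∫ _ in Y1..Y2, M := by
            refine intervalIntegral.integral_mono_on hY12 (hcy.intervalIntegrable _ _)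
              (by simp) fun y hy => ?_
            refine hM _ ?_ ?_ ?_
            · simpa using hx'.1
            · simpa using hx'.2
            · have : (((x : ℂ) + (y : ℂ) * I)).im = y := by simp
              rw [this, abs_le]
              exact ⟨by rw [hY1] at hy; exact hy.1, hy.2⟩
        _ = (2 * Y + 1) * M := by
            rw [intervalIntegral.integral_const, smul_eq_mul, hY2, hY1]; ring
    have hcx : Continuous fun x : ℝ => ∫ t in A..B, inner t x := by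
      have : Continuous (Function.uncurry fun (x : ℝ) (t : ℝ) => inner t x) := by
        have h1 : Continuous fun p : ℝ × ℝ => ((p.2, p.1) : ℝ × ℝ) := by fun_prop
        exact hcin.comp h1
      exact intervalIntegral.continuous_parametric_intervalIntegral_of_continuous' this _ _
    calc ∫ x in X1..X2, ∫ t in A..B, inner t x ≤ ∫ _ in X1..X2, (2 * Y + 1) * M :=
          intervalIntegral.integral_mono_on hX12 (hcx.intervalIntegrable _ _) (by simp) h3
      _ = (x₂ - x₁ + 1) * (2 * Y + 1) * M := by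
          rw [intervalIntegral.integral_const, smul_eq_mul, hX2, hX1]; ring
  calc volume.real {t ∈ Icc A B | ¬ ∀ w : ℂ, x₁ ≤ w.re → w.re ≤ x₂ → |w.im| ≤ Y → ‖G t w‖ ≤ lam}
      ≤ volume.real {t ∈ Icc A B | (lam / 16) ^ m < Φ t} := measureReal_mono hsub hfin
    _ ≤ (∫ t in A..B, Φ t) / (lam / 16) ^ m := hmk
    _ ≤ ((x₂ - x₁ + 1) * (2 * Y + 1) * M) / (lam / 16) ^ m :=
        div_le_div_of_nonneg_right hI (by positivity)
    _ = (16 / lam) ^ m * ((x₂ - x₁ + 1) * (2 * Y + 1) * M) := by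
        rw [div_pow, div_pow]
        field_simp



theorem diff_cpow (n : ℕ) (hn : n ≠ 0) : Differentiable ℂ fun s : ℂ => (n : ℂ) ^ (-s) :=
  differentiable_neg.const_cpow (Or.inl (by exact_mod_cast hn))

theorem diff_Bs (δ T : ℝ) : Differentiable ℂ (Bs δ T) := by
  unfold Bs
  refine Differentiable.fun_sum fun n hn => ?_
  have hn' : n ≠ 0 := by have := (Finset.mem_Ioc.1 hn).1; omega
  exact (differentiable_const _).mul (diff_cpow n hn')

theorem diff_PB (h : ℝ → ℂ) (θ T : ℝ) : Differentiable ℂ (PB h θ T) := by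
  unfold PB
  refine Differentiable.fun_sum fun n hn => ?_
  have hn' : n ≠ 0 := by have := (Finset.mem_Ioc.1 hn).1; omega
  exact (differentiable_const _).mul (diff_cpow n hn')

theorem diff_XX (h : ℝ → ℂ) (θ δ T : ℝ) : Differentiable ℂ (XX h θ δ T) := by
  unfold XX
  exact (diff_PB h θ T).sub (diff_Bs δ T)

theorem cont_sw (T : ℝ) : Continuous fun p : ℝ × ℂ => sw T p.1 p.2 := by
  unfold sw
  fun_prop

theorem diff_sw (T t : ℝ) : Differentiable ℂ fun w : ℂ => sw T t w := by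
  unfold sw
  fun_prop

/-- The supremum of the variation of an entire function on a box. -/
theorem sup_var {F : ℂ → ℂ} (hF : Differentiable ℂ F) {w₀ : ℂ} {T A B x₁ x₂ Y M lam : ℝ} {m : ℕ}
    (hm : 1 ≤ m) (hAB : A ≤ B) (hx : x₁ ≤ x₂) (hY : 0 ≤ Y) (hlam : 0 < lam)
    (hM : ∀ w : ℂ, x₁ - 1 / 2 ≤ w.re → w.re ≤ x₂ + 1 / 2 → |w.im| ≤ Y + 1 / 2 →
      ∫ t in A..B, ‖F (sw T t w) - F (sw T t w₀)‖ ^ m ≤ M) :
    volume.real {t ∈ Icc A B | ¬ ∀ w : ℂ, x₁ ≤ w.re → w.re ≤ x₂ → |w.im| ≤ Y →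
      ‖F (sw T t w) - F (sw T t w₀)‖ ≤ lam} ≤
      (16 / lam) ^ m * ((x₂ - x₁ + 1) * (2 * Y + 1) * M) := by
  refine box_sup (G := fun t w => F (sw T t w) - F (sw T t w₀)) ?_ ?_ hm hAB hx hY hlam hM
  · refine ((hF.continuous.comp (cont_sw T)).sub (hF.continuous.comp ?_))
    have : Continuous fun p : ℝ × ℂ => ((p.1, w₀) : ℝ × ℂ) := by fun_prop
    exact (cont_sw T).comp this
  · intro t
    exact (hF.comp (diff_sw T t)).sub (differentiable_const _)

theorem sw_shift {T : ℝ} (hT : Real.log T ≠ 0) (t : ℝ) (w : ℂ) :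
    sw T t w = sw T (t + w.im / Real.log T) (w.re : ℝ) := by
  unfold sw
  have h1 : ((Real.log T : ℝ) : ℂ) ≠ 0 := by exact_mod_cast hT
  have h2 : (w : ℂ) = (w.re : ℂ) + (w.im : ℂ) * I := (Complex.re_add_im w).symm
  push_cast
  rw [show w / (Real.log T : ℂ) = ((w.re : ℂ) + (w.im : ℂ) * I) / (Real.log T : ℂ) by rw [← h2]]
  field_simp
  ring


end EvRAux


open EvRAux in
/-- MODULE EVR1. The local statistic on a long window: `sup_{|y| ≤ 9 r^24} Mk L 1 (t + y/L) ≤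
4 max_{|j| ≤ 9 r^24 + 1} Mk L 1 (t + j/L)` (`Mk_shift`, `A = 1`), union bound and `M1_mom` with `q = 9`:
the measure is at most `(18 r^24 + 3) C T/(κ' r^3/4)^9`, and `r^24 r^{-27} → 0`. -/
theorem M1_event (hRH : RiemannHypothesis) {ε κ' : ℝ} (hε : 0 < ε) (hκ' : 0 < κ') :
    ∃ r₀ : ℝ, 1 ≤ r₀ ∧ ∀ r : ℝ, r₀ ≤ r → ∀ᶠ T : ℝ in atTop,
      volume.real {t ∈ Icc (T / 2 + 1) T | ¬ ∀ y : ℝ, |y| ≤ 9 * r ^ 24 →
        Mk (Real.log T) 1 (t + y / Real.log T) ≤ κ' * r ^ 3} ≤ ε * T := by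
  obtain ⟨C, hC, hev⟩ := M1_mom hRH 9
  refine ⟨max 1 (21 * C * 4 ^ 9 / (κ' ^ 9 * ε)), le_max_left _ _, fun r hr => ?_⟩
  have hr1 : 1 ≤ r := (le_max_left _ _).trans hr
  have hr2 : 21 * C * 4 ^ 9 / (κ' ^ 9 * ε) ≤ r := (le_max_right _ _).trans hr
  have hr0 : 0 < r := by linarith
  set J : ℕ := ⌈9 * r ^ 24⌉₊ with hJ
  have hJ1 : 9 * r ^ 24 ≤ J := Nat.le_ceil _
  have hJ2 : (J : ℝ) < 9 * r ^ 24 + 1 := Nat.ceil_lt_add_one (by positivity)
  filter_upwards [hev, eventually_ge_atTop (2 : ℝ),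
    Real.tendsto_log_atTop.eventually_ge_atTop ((J : ℝ) + 1)] with T hT1 hT2 hT3
  set L := Real.log T with hL
  have hL0 : 0 < L := by
    have : (0 : ℝ) ≤ J := Nat.cast_nonneg _
    linarith
  have hcont := continuous_Mk hRH hL0 one_pos
  set G : Set ℝ := {u ∈ Icc (T / 2) (3 * T) | (κ' * r ^ 3 / 4) ^ 9 < Mk L 1 u ^ 9} with hG
  have hGfin : volume G ≠ ⊤ :=
    ne_top_of_le_ne_top (by simp) (measure_mono (fun t ht => ht.1 : _ ⊆ Icc (T / 2) (3 * T)))
  have hGm : volume.real G ≤ C * T / (κ' * r ^ 3 / 4) ^ 9 := by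
    refine (markov_int (F := fun u => Mk L 1 u ^ 9) (by linarith) (by positivity)
      (hcont.pow 9).continuousOn (fun u _ => pow_nonneg (Mk_nonneg _ _ _) _)).trans ?_
    exact div_le_div_of_nonneg_right hT1 (by positivity)
  have hsub : {t ∈ Icc (T / 2 + 1) T | ¬ ∀ y : ℝ, |y| ≤ 9 * r ^ 24 →
        Mk L 1 (t + y / L) ≤ κ' * r ^ 3} ⊆
      ⋃ j ∈ Finset.Icc (-(J : ℤ)) J, (fun t : ℝ => t + (j : ℝ) / L) ⁻¹' G := by
    rintro t ⟨ht, hbad⟩
    push Not at hbad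
    obtain ⟨y, hy1, hy2⟩ := hbad
    have hy := abs_le.1 hy1
    rw [mem_iUnion₂]
    have hj1 : -(J : ℤ) ≤ ⌊y⌋ := by
      rw [Int.le_floor]; push_cast; linarith
    have hj2 : ⌊y⌋ ≤ (J : ℤ) := by
      have : ((⌊y⌋ : ℤ) : ℝ) ≤ (J : ℤ) := by push_cast; linarith [Int.floor_le y]
      exact_mod_cast this
    refine ⟨⌊y⌋, Finset.mem_Icc.2 ⟨hj1, hj2⟩, ?_⟩
    have hj1' : -(J : ℝ) ≤ (⌊y⌋ : ℝ) := by exact_mod_cast hj1
    have hj2' : (⌊y⌋ : ℝ) ≤ (J : ℝ) := by exact_mod_cast hj2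
    have hb1 : (⌊y⌋ : ℝ) / L ≤ 1 := by rw [div_le_one hL0]; linarith
    have hb2 : -1 ≤ (⌊y⌋ : ℝ) / L := by rw [le_div_iff₀ hL0]; linarith
    have hfl := Int.floor_le y
    have hfl2 := Int.lt_floor_add_one y
    have h1 := Mk_shift hRH (L := L) (k := 1) (A := 1) (y := (y - ⌊y⌋) / L)
      (t := t + (⌊y⌋ : ℝ) / L) hL0 le_rfl zero_le_one (by
        rw [abs_div, abs_of_pos hL0]
        refine div_le_div_of_nonneg_right ?_ hL0.le
        rw [abs_le]; constructor <;> linarith)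
    have e1 : t + (⌊y⌋ : ℝ) / L + (y - ⌊y⌋) / L = t + y / L := by ring
    rw [e1] at h1
    refine ⟨⟨by have := ht.1; simp only; linarith, by have := ht.2; simp only; linarith⟩, ?_⟩
    refine pow_lt_pow_left₀ ?_ (by positivity) (by norm_num)
    norm_num at h1
    simp only
    linarith
  have hUfin : volume (⋃ j ∈ Finset.Icc (-(J : ℤ)) J,
      (fun t : ℝ => t + (j : ℝ) / L) ⁻¹' G) ≠ ⊤ := by
    refine ne_top_of_le_ne_top ?_ (measure_biUnion_finset_le _ _)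
    refine (ENNReal.sum_lt_top.2 fun j _ => ?_).ne
    rw [measure_preimage_add_right]
    exact lt_top_iff_ne_top.2 hGfin
  calc volume.real {t ∈ Icc (T / 2 + 1) T | ¬ ∀ y : ℝ, |y| ≤ 9 * r ^ 24 →
        Mk L 1 (t + y / L) ≤ κ' * r ^ 3}
      ≤ volume.real (⋃ j ∈ Finset.Icc (-(J : ℤ)) J, (fun t : ℝ => t + (j : ℝ) / L) ⁻¹' G) :=
        measureReal_mono hsub hUfin
    _ ≤ ∑ j ∈ Finset.Icc (-(J : ℤ)) J, volume.real ((fun t : ℝ => t + (j : ℝ) / L) ⁻¹' G) :=
        measureReal_biUnion_finset_le _ _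
    _ = ∑ j ∈ Finset.Icc (-(J : ℤ)) J, volume.real G := by
        refine Finset.sum_congr rfl fun j _ => ?_
        unfold Measure.real
        rw [measure_preimage_add_right]
    _ = (2 * J + 1) * volume.real G := by
        rw [Finset.sum_const, nsmul_eq_mul, Int.card_Icc]
        congr 1
        have : ((J : ℤ) + 1 - -(J : ℤ)).toNat = 2 * J + 1 := by omega
        rw [this]; push_cast; ring
    _ ≤ (21 * r ^ 24) * (C * T / (κ' * r ^ 3 / 4) ^ 9) := by
        have h24 : 1 ≤ r ^ 24 := one_le_pow₀ hr1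
        refine mul_le_mul (by linarith) hGm measureReal_nonneg (by positivity)
    _ ≤ ε * T := by
        have e1 : (21 * r ^ 24) * (C * T / (κ' * r ^ 3 / 4) ^ 9) =
            (21 * C * 4 ^ 9 / κ' ^ 9) / r ^ 3 * T := by
          field_simp
        rw [e1]
        refine mul_le_mul_of_nonneg_right ?_ (by linarith)
        rw [div_le_iff₀ (by positivity)]
        have h3 : r ≤ r ^ 3 := le_self_pow₀ hr1 (by norm_num)
        have h4 : 21 * C * 4 ^ 9 / κ' ^ 9 ≤ ε * r := by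
          rw [div_le_iff₀ (by positivity)] at hr2
          rw [div_le_iff₀ (by positivity)]
          nlinarith [hr2]
        nlinarith

open EvRAux in
/-- MODULE EVR2. The prime sums on a long box. `f(w) = XX(sw T t w) - XX(sw T t 1)` is entire;
`sub_mean` with `ρ = 1/2` and Jensen: `sup |f|^{22} ≤ 16^{22} ∫∫ |f|^{22}` over
`0 ≤ Re w ≤ r^36 + 3`, `|Im w| ≤ 8 r^24 + 1`; `X_mom` with `q = 11`, `box_markov`-like Fubini (here
with `F` depending on `t` too: integrate `‖f‖^{22}` over `t`, `x`, `y` directly): measure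
`≤ C r^{61} (1 + log r)^{11} (4/κ')^{22}/r^{66} T`. -/
theorem X_event {h : ℝ → ℂ} (hh : Cut h) {ε κ' : ℝ} (hε : 0 < ε) (hκ' : 0 < κ') :
    ∃ r₀ : ℝ, 1 ≤ r₀ ∧ ∀ r : ℝ, r₀ ≤ r → ∀ᶠ T : ℝ in atTop,
      volume.real {t ∈ Icc (T / 2) T | ¬ ∀ w : ℂ, 1 / 2 ≤ w.re → w.re ≤ r ^ 36 + 2 →
        |w.im| ≤ 8 * r ^ 24 → ‖XX h (1 / 64) (Real.exp (-r ^ 12)) T (sw T t w) -
          XX h (1 / 64) (Real.exp (-r ^ 12)) T (sw T t 1)‖ ≤ κ' * r ^ 3} ≤ ε * T := by
  obtain ⟨C, hC, hX⟩ := X_mom hh 11 (by norm_num) (by norm_num)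
  set K : ℝ := (16 / κ') ^ 22 * (4 * 18 * (C * 76 ^ 11)) with hK
  have hK0 : 0 < K := by positivity
  refine ⟨max 2 ((K / ε) ^ 2), by norm_num [le_max_iff], fun r hr => ?_⟩
  have hr2 : 2 ≤ r := (le_max_left _ _).trans hr
  have hr1 : 1 ≤ r := by linarith
  have hr0 : 0 < r := by linarith
  have hrK : (K / ε) ^ 2 ≤ r := (le_max_right _ _).trans hr
  have hδ : Real.exp (-r ^ 12) ≤ 1 / 256 := by
    have h1 : (4096 : ℝ) ≤ r ^ 12 := by
      calc (4096 : ℝ) = 2 ^ 12 := by norm_num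
        _ ≤ r ^ 12 := pow_le_pow_left₀ (by norm_num) hr2 12
    have h2 : (256 : ℝ) ≤ Real.exp (r ^ 12) := by
      have := Real.add_one_le_exp (r ^ 12)
      linarith
    rw [Real.exp_neg, one_div]
    exact inv_anti₀ (by norm_num) h2
  have h24 : (1 : ℝ) ≤ r ^ 24 := one_le_pow₀ hr1
  have h36 : (1 : ℝ) ≤ r ^ 36 := one_le_pow₀ hr1
  have h2436 : r ^ 24 ≤ r ^ 36 := pow_le_pow_right₀ hr1 (by norm_num)
  set V : ℝ := r ^ 36 + 3 + (8 * r ^ 24 + 1) with hV
  filter_upwards [hX (Real.exp (-r ^ 12)) V (Real.exp_pos _) hδ (by rw [hV]; linarith),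
    eventually_gt_atTop (0 : ℝ)] with T hT hT0
  have hM : ∀ w : ℂ, (1 / 2 : ℝ) - 1 / 2 ≤ w.re → w.re ≤ (r ^ 36 + 2) + 1 / 2 →
      |w.im| ≤ 8 * r ^ 24 + 1 / 2 → ∫ t in (T / 2)..T,
        ‖XX h (1 / 64) (Real.exp (-r ^ 12)) T (sw T t w) -
          XX h (1 / 64) (Real.exp (-r ^ 12)) T (sw T t 1)‖ ^ 22 ≤
        C * (76 * Real.sqrt r) ^ 11 * T := by
    intro w h1 h2 h3
    have hre : |w.re| ≤ r ^ 36 + 3 := by rw [abs_le]; constructor <;> linarith
    have hwV : ‖w‖ ≤ V := by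
      refine (Complex.norm_le_abs_re_add_abs_im w).trans ?_
      rw [hV]; linarith
    have h4 := hT w (by linarith) hwV
    have hlog : 1 + Real.log (1 + ‖w‖) ≤ 76 * Real.sqrt r := by
      have h5 : 1 + ‖w‖ ≤ 14 * r ^ 36 := by rw [hV] at hwV; linarith
      have h6 : Real.log (1 + ‖w‖) ≤ Real.log (14 * r ^ 36) :=
        Real.log_le_log (by positivity) h5
      rw [Real.log_mul (by norm_num) (by positivity), Real.log_pow] at h6
      have h7 : Real.log r ≤ 2 * (Real.sqrt r - 1) := by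
        have h8 : Real.log r = 2 * Real.log (Real.sqrt r) := by
          rw [Real.log_sqrt hr0.le]; ring
        rw [h8]
        have := Real.log_le_sub_one_of_pos (Real.sqrt_pos.2 hr0)
        linarith
      have h9 : Real.log 14 ≤ 13 := by
        have := Real.log_le_sub_one_of_pos (show (0 : ℝ) < 14 by norm_num)
        linarith
      have h10 : (1 : ℝ) ≤ Real.sqrt r := Real.one_le_sqrt.2 hr1
      push_cast at h6
      linarith
    have hnn : 0 ≤ 1 + Real.log (1 + ‖w‖) := by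
      have := Real.log_nonneg (show (1 : ℝ) ≤ 1 + ‖w‖ by linarith [norm_nonneg w])
      linarith
    refine le_trans ?_ (h4.trans ?_)
    · have e22 : 2 * 11 = 22 := rfl
      rw [e22]
      refine intervalIntegral.integral_mono_interval (by linarith) (by linarith) (by linarith)
        (Filter.Eventually.of_forall fun t => by positivity) ?_
      refine Continuous.intervalIntegrable ?_ _ _
      have hc : Continuous (XX h (1 / 64) (Real.exp (-r ^ 12)) T) := (diff_XX _ _ _ _).continuous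
      have hs : ∀ w : ℂ, Continuous fun t : ℝ => sw T t w := fun w => by
        have : Continuous fun t : ℝ => ((t, w) : ℝ × ℂ) := by fun_prop
        exact (cont_sw T).comp this
      exact (((hc.comp (hs w)).sub (hc.comp (hs 1))).norm).pow 22
    · refine mul_le_mul_of_nonneg_right ?_ hT0.le
      exact mul_le_mul_of_nonneg_left (pow_le_pow_left₀ hnn hlog 11) hC.le
  have hmain := sup_var (diff_XX h (1 / 64) (Real.exp (-r ^ 12)) T) (w₀ := 1) (T := T)
    (A := T / 2) (B := T) (x₁ := 1 / 2) (x₂ := r ^ 36 + 2) (Y := 8 * r ^ 24)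
    (lam := κ' * r ^ 3) (m := 22) (by norm_num) (by linarith) (by linarith) (by positivity)
    (by positivity) hM
  refine hmain.trans ?_
  have hs0 : 0 < Real.sqrt r := Real.sqrt_pos.2 hr0
  have hs2 : Real.sqrt r ^ 2 = r := Real.sq_sqrt hr0.le
  have hsK : K / ε ≤ Real.sqrt r := Real.le_sqrt_of_sq_le hrK
  have e1 : (16 / (κ' * r ^ 3)) ^ 22 * ((4 * r ^ 36) * (18 * r ^ 24) *
      (C * (76 * Real.sqrt r) ^ 11 * T)) = K * T / Real.sqrt r := by
    rw [hK]
    have hr66 : (r ^ 3) ^ 22 = r ^ 60 * (Real.sqrt r ^ 2) ^ 6 := by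
      rw [hs2]; ring
    have : (16 / (κ' * r ^ 3)) ^ 22 = (16 / κ') ^ 22 / (r ^ 3) ^ 22 := by
      rw [div_mul_eq_div_div, div_pow]
    rw [this, hr66]
    field_simp
  calc (16 / (κ' * r ^ 3)) ^ 22 * ((r ^ 36 + 2 - 1 / 2 + 1) * (2 * (8 * r ^ 24) + 1) *
        (C * (76 * Real.sqrt r) ^ 11 * T))
      ≤ (16 / (κ' * r ^ 3)) ^ 22 * ((4 * r ^ 36) * (18 * r ^ 24) *
      (C * (76 * Real.sqrt r) ^ 11 * T)) := by
        refine mul_le_mul_of_nonneg_left ?_ (by positivity)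
        refine mul_le_mul_of_nonneg_right ?_ (by positivity)
        exact mul_le_mul (by linarith) (by linarith) (by positivity) (by positivity)
    _ = K * T / Real.sqrt r := e1
    _ ≤ ε * T := by
        rw [div_le_iff₀ hs0]
        rw [div_le_iff₀ hε] at hsK
        nlinarith

open EvRAux in
/-- MODULE EVR3. The ratio of `Dd` at two points of the box. By `zeta_exp` (`θ = 1/64`,
`V = r^36 + 2`, at `t + Im w/L`, `k = Re w`) `Dd = exp (XX + e)`, `‖e‖ ≤ C Mk L 1 (t + Im w/L) + 1`;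
`M1_event`, `X_event`. (`sw T t w = sw T (t + Im w/L) (Re w)`.) -/
theorem ratio_event (hRH : RiemannHypothesis) {ε : ℝ} (hε : 0 < ε) :
    ∃ r₀ : ℝ, 1 ≤ r₀ ∧ ∀ r : ℝ, r₀ ≤ r → ∀ᶠ T : ℝ in atTop,
      volume.real {t ∈ Icc (T / 2) T | ¬ ∀ w : ℂ, 1 / 2 ≤ w.re → w.re ≤ r ^ 36 + 1 →
        |w.im| ≤ 8 * r ^ 24 → Dd (Real.exp (-r ^ 12)) T (sw T t w) ≠ 0 ∧
          |Real.log ‖Dd (Real.exp (-r ^ 12)) T (sw T t w)‖ -
            Real.log ‖Dd (Real.exp (-r ^ 12)) T (sw T t 1)‖| ≤ r ^ 3} ≤ ε * T := by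
  obtain ⟨h, hh⟩ := exists_cut
  obtain ⟨C, hC, hz⟩ := zeta_exp hRH hh
  set D : ℝ := C / (1 / 64) ^ 2 with hD
  have hD0 : 0 < D := by positivity
  obtain ⟨r₁, hr₁, hM1⟩ := M1_event hRH (ε := ε / 3) (κ' := 1 / (8 * D)) (by positivity)
    (by positivity)
  obtain ⟨r₂, hr₂, hX⟩ := X_event hh (ε := ε / 3) (κ' := 1 / 4) (by positivity) (by norm_num)
  refine ⟨max (max r₁ r₂) 2, by simp [hr₁], fun r hr => ?_⟩
  have h1r : r₁ ≤ r := (le_max_left _ _).trans ((le_max_left _ _).trans hr)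
  have h2r : r₂ ≤ r := (le_max_right _ _).trans ((le_max_left _ _).trans hr)
  have hr2 : 2 ≤ r := (le_max_right _ _).trans hr
  have hr1 : 1 ≤ r := by linarith
  have h24 : (1 : ℝ) ≤ r ^ 24 := one_le_pow₀ hr1
  have h36 : (1 : ℝ) ≤ r ^ 36 := one_le_pow₀ hr1
  have hr3 : (8 : ℝ) ≤ r ^ 3 := by
    calc (8 : ℝ) = 2 ^ 3 := by norm_num
      _ ≤ r ^ 3 := pow_le_pow_left₀ (by norm_num) hr2 3
  filter_upwards [hM1 r h1r, hX r h2r, hz (1 / 64) (r ^ 36 + 2) (by norm_num) (by norm_num)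
    (by linarith), eventually_ge_atTop (4 : ℝ), eventually_ge_atTop (3 / ε),
    Real.tendsto_log_atTop.eventually_ge_atTop (8 * r ^ 24)] with T hT1 hT2 hT3 hT4 hTε hTL
  have hL8 : 8 ≤ Real.log T := by linarith
  have hL0 : 0 < Real.log T := by linarith
  set L := Real.log T with hL
  set δ := Real.exp (-r ^ 12) with hδ
  set S1 : Set ℝ := {t ∈ Icc (T / 2 + 1) T | ¬ ∀ y : ℝ, |y| ≤ 9 * r ^ 24 →
        Mk L 1 (t + y / L) ≤ 1 / (8 * D) * r ^ 3} with hS1
  set S2 : Set ℝ := {t ∈ Icc (T / 2) T | ¬ ∀ w : ℂ, 1 / 2 ≤ w.re → w.re ≤ r ^ 36 + 2 →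
        |w.im| ≤ 8 * r ^ 24 → ‖XX h (1 / 64) δ T (sw T t w) -
          XX h (1 / 64) δ T (sw T t 1)‖ ≤ 1 / 4 * r ^ 3} with hS2
  set S3 : Set ℝ := Icc (T / 2) (T / 2 + 1) with hS3
  have hf1 : volume S1 ≠ ⊤ :=
    ne_top_of_le_ne_top (by simp) (measure_mono (fun t ht => ht.1 : _ ⊆ Icc (T / 2 + 1) T))
  have hf2 : volume S2 ≠ ⊤ :=
    ne_top_of_le_ne_top (by simp) (measure_mono (fun t ht => ht.1 : _ ⊆ Icc (T / 2) T))
  have hf3 : volume S3 ≠ ⊤ := by simp [hS3]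
  have hm3 : volume.real S3 ≤ ε / 3 * T := by
    rw [hS3, Measure.real, Real.volume_Icc, ENNReal.toReal_ofReal (by linarith)]
    rw [div_le_iff₀ hε] at hTε
    linarith
  have hsub : {t ∈ Icc (T / 2) T | ¬ ∀ w : ℂ, 1 / 2 ≤ w.re → w.re ≤ r ^ 36 + 1 →
        |w.im| ≤ 8 * r ^ 24 → Dd δ T (sw T t w) ≠ 0 ∧
          |Real.log ‖Dd δ T (sw T t w)‖ - Real.log ‖Dd δ T (sw T t 1)‖| ≤ r ^ 3} ⊆
      (S1 ∪ S2) ∪ S3 := by
    rintro t ⟨ht, hbad⟩
    by_contra hnot
    simp only [mem_union, not_or] at hnot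
    obtain ⟨⟨hn1, hn2⟩, hn3⟩ := hnot
    have ht3 : T / 2 + 1 ≤ t := by
      by_contra hlt
      push Not at hlt
      exact hn3 ⟨ht.1, hlt.le⟩
    have g1 : ∀ y : ℝ, |y| ≤ 9 * r ^ 24 → Mk L 1 (t + y / L) ≤ 1 / (8 * D) * r ^ 3 := by
      by_contra hcon
      exact hn1 ⟨⟨ht3, ht.2⟩, hcon⟩
    have g2 : ∀ w : ℂ, 1 / 2 ≤ w.re → w.re ≤ r ^ 36 + 2 →
        |w.im| ≤ 8 * r ^ 24 → ‖XX h (1 / 64) δ T (sw T t w) -
          XX h (1 / 64) δ T (sw T t 1)‖ ≤ 1 / 4 * r ^ 3 := by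
      by_contra hcon
      exact hn2 ⟨ht, hcon⟩
    -- the exponential formula
    have key : ∀ w : ℂ, 1 / 2 ≤ w.re → w.re ≤ r ^ 36 + 1 → |w.im| ≤ 8 * r ^ 24 →
        Dd δ T (sw T t w) ≠ 0 ∧ |Real.log ‖Dd δ T (sw T t w)‖ -
          (XX h (1 / 64) δ T (sw T t w)).re| ≤ 1 / 8 * r ^ 3 + 1 := by
      intro w h1 h2 h3
      have himL : |w.im / L| ≤ 1 := by
        rw [abs_div, abs_of_pos hL0, div_le_one hL0]; linarith
      have himl := abs_le.1 himL
      obtain ⟨e, he1, he2⟩ := hT3 (t + w.im / L) ⟨by linarith, by linarith [ht.2]⟩ w.re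
        ⟨h1, by linarith⟩
      have e1 : sw T t w = sw T (t + w.im / L) (w.re : ℝ) := sw_shift hL0.ne' t w
      rw [← e1] at he1
      have hDd : Dd δ T (sw T t w) = Complex.exp (XX h (1 / 64) δ T (sw T t w) + e) := by
        unfold Dd XX
        rw [he1, ← Complex.exp_add]
        congr 1
        ring
      rw [hDd]
      refine ⟨Complex.exp_ne_zero _, ?_⟩
      rw [Complex.norm_exp, Real.log_exp, Complex.add_re, add_sub_cancel_left]
      refine (Complex.abs_re_le_norm e).trans (he2.trans ?_)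
      have hMk := g1 w.im (by linarith)
      have hMk0 := Mk_nonneg L 1 (t + w.im / L)
      have hexp1 : Real.exp (-(1 / 64 * w.re / 2)) ≤ 1 := Real.exp_le_one_iff.2 (by linarith)
      have hLi : 1 / L ≤ 1 := by rw [div_le_one hL0]; linarith
      have h5 : C / (1 / 64) ^ 2 * Real.exp (-(1 / 64 * w.re / 2)) * Mk L 1 (t + w.im / L) ≤
          D * 1 * (1 / (8 * D) * r ^ 3) := by
        rw [← hD]
        refine mul_le_mul (mul_le_mul_of_nonneg_left hexp1 hD0.le) hMk hMk0 (by positivity)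
      have h6 : D * 1 * (1 / (8 * D) * r ^ 3) = 1 / 8 * r ^ 3 := by field_simp
      rw [h6] at h5
      linarith
    apply hbad
    intro w h1 h2 h3
    obtain ⟨k1, k2⟩ := key w h1 h2 h3
    obtain ⟨-, k3⟩ := key 1 (by norm_num) (by simp only [Complex.one_re]; linarith) (by
      simp only [Complex.one_im, abs_zero]; positivity)
    refine ⟨k1, ?_⟩
    have g3 := (Complex.abs_re_le_norm _).trans (g2 w h1 (by linarith) h3)
    rw [Complex.sub_re] at g3
    have a1 := abs_le.1 k2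
    have a2 := abs_le.1 k3
    have a3 := abs_le.1 g3
    rw [abs_le]
    constructor <;> linarith
  have hfU : volume ((S1 ∪ S2) ∪ S3) ≠ ⊤ := by
    refine (measure_union_lt_top (measure_union_lt_top ?_ ?_) ?_).ne
    · exact lt_top_iff_ne_top.2 hf1
    · exact lt_top_iff_ne_top.2 hf2
    · exact lt_top_iff_ne_top.2 hf3
  calc volume.real {t ∈ Icc (T / 2) T | ¬ ∀ w : ℂ, 1 / 2 ≤ w.re → w.re ≤ r ^ 36 + 1 →
        |w.im| ≤ 8 * r ^ 24 → Dd δ T (sw T t w) ≠ 0 ∧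
          |Real.log ‖Dd δ T (sw T t w)‖ - Real.log ‖Dd δ T (sw T t 1)‖| ≤ r ^ 3}
      ≤ volume.real ((S1 ∪ S2) ∪ S3) := measureReal_mono hsub hfU
    _ ≤ volume.real (S1 ∪ S2) + volume.real S3 := measureReal_union_le _ _
    _ ≤ (volume.real S1 + volume.real S2) + volume.real S3 := by
        have := measureReal_union_le (μ := volume) S1 S2
        linarith
    _ ≤ (ε / 3 * T + ε / 3 * T) + ε / 3 * T := add_le_add (add_le_add hT1 hT2) hm3
    _ = ε * T := by ring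

end Pool.Agent.MP_67227b_nt.Ah
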