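import Pool.Agent.MP_67227b_nt.Ah.AhBad
import Pool.Agent.MP_67227b_nt.Ah.AhFF
import Pool.Agent.MP_67227b_nt.Ah.AhMV
import Pool.Agent.MP_67227b_nt.Ah.AhMom
import Pool.Agent.MP_67227b_nt.Pp.PpApB
import Pool.Agent.MP_67227b_nt.Pp.PpApG

set_option autoImplicit false

open Filter Topology Set MeasureTheory Complex
open scoped Real ArithmeticFunction ContDiff

namespace Pool.Agent.MP_67227b_nt.Ah

open Pool.Agent.Lib.ZetaCount_helper33 Pool.Agent.MP_67227b_nt Pool.Agent.MP_67227b_nt.Mo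
open Pool.Agent.MP_67227b_nt.Sg Pool.Agent.MP_67227b_nt.Pp
open Pool.Agent.MP_67227b_nt.Mo.MomentBAux (DP)

/-- The truncated exponential of `-XP`. -/
noncomputable def EK (δ' θ T : ℝ) (K : ℕ) (s : ℂ) : ℂ :=
  ∑ k ∈ Finset.range (K + 1), (-(XP δ' θ T s)) ^ k / (k.factorial : ℂ)

/-- The tuples of length `k` with entries in `P` and product `n`. -/
private noncomputable def ekT (P : Finset ℕ) (k n : ℕ) : Finset (Fin k → ℕ) := by
  classical
  exact (Fintype.piFinset fun _ : Fin k => P).filter (fun p => ∏ j, p j = n)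

private lemma ekT_mem {P : Finset ℕ} {k n : ℕ} {p : Fin k → ℕ} :
    p ∈ ekT P k n ↔ (∀ j, p j ∈ P) ∧ ∏ j, p j = n := by
  classical
  unfold ekT
  rw [Finset.mem_filter, Fintype.mem_piFinset]

private lemma ekT_perm {P : Finset ℕ} (hP : ∀ p ∈ P, p.Prime) {k n : ℕ} {p : Fin k → ℕ}
    (hp : p ∈ ekT P k n) : (List.ofFn p).Perm n.primeFactorsList := by
  obtain ⟨h1, h2⟩ := ekT_mem.1 hp
  apply Nat.primeFactorsList_unique
  · rw [List.prod_ofFn, h2]
  · intro q hq
    obtain ⟨j, rfl⟩ := (List.mem_ofFn' _ _).1 hq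
    exact hP _ (h1 j)

private lemma ekT_len {P : Finset ℕ} (hP : ∀ p ∈ P, p.Prime) {k n : ℕ} {p : Fin k → ℕ}
    (hp : p ∈ ekT P k n) : n.primeFactorsList.length = k := by
  have h := (ekT_perm hP hp).length_eq
  rw [List.length_ofFn] at h
  exact h.symm

private lemma ekT_card_le {P : Finset ℕ} (hP : ∀ p ∈ P, p.Prime) (k n : ℕ) :
    (ekT P k n).card ≤ k.factorial := by
  classical
  rcases (ekT P k n).eq_empty_or_nonempty with h | ⟨p, hp⟩
  · rw [h, Finset.card_empty]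
    exact Nat.zero_le _
  · have hk := ekT_len hP hp
    calc (ekT P k n).card ≤ n.primeFactorsList.permutations.toFinset.card := by
          apply Finset.card_le_card_of_injOn (fun f => List.ofFn f)
          · intro f hf
            rw [Finset.mem_coe, List.mem_toFinset, List.mem_permutations]
            exact ekT_perm hP hf
          · intro f _ g _ hfg
            exact List.ofFn_injective hfg
      _ ≤ n.primeFactorsList.permutations.length := List.toFinset_card_le _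
      _ = k.factorial := by rw [List.length_permutations, hk]

private lemma ekT_card_eq {P : Finset ℕ} (hP : ∀ p ∈ P, p.Prime) {n : ℕ} (hn : Squarefree n)
    (hd : ∀ p : ℕ, p.Prime → p ∣ n → p ∈ P) :
    (ekT P n.primeFactors.card n).card = n.primeFactors.card.factorial := by
  classical
  have h1 : Fintype.card (Fin n.primeFactors.card ≃ {x // x ∈ n.primeFactors}) =
      n.primeFactors.card.factorial := by
    rw [Fintype.card_equiv n.primeFactors.equivFin.symm, Fintype.card_fin]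
  apply le_antisymm (ekT_card_le hP _ _)
  rw [← h1, ← Finset.card_univ]
  apply Finset.card_le_card_of_injOn
    (fun (e : Fin n.primeFactors.card ≃ {x // x ∈ n.primeFactors}) => fun j =>
      ((e j : {x // x ∈ n.primeFactors}) : ℕ))
  · intro e _
    rw [Finset.mem_coe, ekT_mem]
    refine ⟨fun j => ?_, ?_⟩
    · have h2 := (e j).2
      exact hd _ (Nat.prime_of_mem_primeFactors h2) (Nat.dvd_of_mem_primeFactors h2)
    · rw [Equiv.prod_comp e (fun x : {x // x ∈ n.primeFactors} => (x : ℕ)),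
        Finset.prod_coe_sort n.primeFactors (fun x => x), Nat.prod_primeFactors_of_squarefree hn]
  · intro e _ e' _ h
    apply Equiv.ext
    intro j
    exact Subtype.ext (congrFun h j)

/-- MODULE EK1. The coefficients of `EK`: `e n = ∑_{k ≤ K} ((-1)^k/k!) #{k-tuples of primes in
(T^δ, T^θ] with product n}`; so `e n = 0` unless all prime factors of `n` are in this range and
`n ≤ T^{θK}`; `|e n| ≤ 1`; and `e n = μ(n)` for `n` squarefree with at most `K` prime factors, all in the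
range. -/
theorem EK_coeff {δ θ T : ℝ} (hT : 1 < T) (hδ : 0 < δ) (hθ : 0 < θ) (K : ℕ) :
    ∃ e : ℕ → ℝ, (∀ s : ℂ, EK δ θ T K s =
        ∑ n ∈ Finset.Icc 1 ⌊T ^ (θ * K)⌋₊, (e n : ℂ) * (n : ℂ) ^ (-s)) ∧
      (∀ n, |e n| ≤ 1) ∧
      (∀ n, e n ≠ 0 → n ≠ 0 ∧ (n : ℝ) ≤ T ^ (θ * K) ∧ ∀ p : ℕ, p.Prime → p ∣ n →
        T ^ δ < p ∧ (p : ℝ) ≤ T ^ θ) ∧
      (∀ n, Squarefree n → n.primeFactors.card ≤ K →
        (∀ p : ℕ, p.Prime → p ∣ n → T ^ δ < p ∧ (p : ℝ) ≤ T ^ θ) →
        e n = (ArithmeticFunction.moebius n : ℤ)) := by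
  classical
  have hT0 : 0 < T := by linarith
  obtain ⟨P, hPdef⟩ : ∃ P : Finset ℕ, P = (Finset.Ioc ⌊T ^ δ⌋₊ ⌊T ^ θ⌋₊).filter Nat.Prime :=
    ⟨_, rfl⟩
  have hPm : ∀ p : ℕ, p ∈ P ↔ p.Prime ∧ T ^ δ < p ∧ (p : ℝ) ≤ T ^ θ := by
    intro p
    rw [hPdef, Finset.mem_filter, Finset.mem_Ioc, Nat.floor_lt (by positivity),
      Nat.le_floor_iff (by positivity)]
    tauto
  have hP : ∀ p ∈ P, p.Prime := fun p hp => ((hPm p).1 hp).1
  -- tuples have small products
  have hsize : ∀ k ≤ K, ∀ (n : ℕ) (p : Fin k → ℕ), p ∈ ekT P k n →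
      n ≠ 0 ∧ (n : ℝ) ≤ T ^ (θ * K) := by
    intro k hk n p hp
    obtain ⟨h1, h2⟩ := ekT_mem.1 hp
    constructor
    · rw [← h2]
      exact Finset.prod_ne_zero_iff.2 fun j _ => (hP _ (h1 j)).ne_zero
    · rw [← h2, Nat.cast_prod]
      calc ∏ j, (p j : ℝ) ≤ ∏ _j : Fin k, T ^ θ := by
            apply Finset.prod_le_prod
            · intro j _
              positivity
            · intro j _
              exact ((hPm _).1 (h1 j)).2.2
        _ = T ^ (θ * k) := by
            rw [Finset.prod_const, Finset.card_univ, Fintype.card_fin, ← Real.rpow_natCast,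
              ← Real.rpow_mul hT0.le]
        _ ≤ T ^ (θ * K) := by
            apply Real.rpow_le_rpow_of_exponent_le hT.le
            apply mul_le_mul_of_nonneg_left _ hθ.le
            exact_mod_cast hk
  obtain ⟨e, he⟩ : ∃ e : ℕ → ℝ, ∀ n, e n = ∑ k ∈ Finset.range (K + 1),
      ((-1) ^ k / (k.factorial : ℝ)) * ((ekT P k n).card : ℝ) := ⟨_, fun _ => rfl⟩
  -- only one length counts
  have hone : ∀ n, e n = if n.primeFactorsList.length ≤ K then
      ((-1) ^ n.primeFactorsList.length / (n.primeFactorsList.length.factorial : ℝ)) *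
        ((ekT P n.primeFactorsList.length n).card : ℝ) else 0 := by
    intro n
    rw [he]
    have hz : ∀ k, k ≠ n.primeFactorsList.length → (ekT P k n).card = 0 := by
      intro k hk
      rw [Finset.card_eq_zero]
      by_contra hne
      obtain ⟨p, hp⟩ := Finset.nonempty_iff_ne_empty.2 hne
      exact hk (ekT_len hP hp).symm
    split_ifs with hK
    · rw [Finset.sum_eq_single_of_mem n.primeFactorsList.length
        (Finset.mem_range.2 (by omega))]
      intro k _ hk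
      rw [hz k hk]
      simp
    · apply Finset.sum_eq_zero
      intro k hk
      rw [hz k]
      · simp
      · intro h
        rw [Finset.mem_range] at hk
        omega
  refine ⟨e, ?_, ?_, ?_, ?_⟩
  · intro s
    have hX : XP δ θ T s = ∑ p ∈ P, (p : ℂ) ^ (-s) := by
      rw [hPdef]
      rfl
    have hpow : ∀ k ≤ K, (XP δ θ T s) ^ k =
        ∑ n ∈ Finset.Icc 1 ⌊T ^ (θ * K)⌋₊, ((ekT P k n).card : ℂ) * (n : ℂ) ^ (-s) := by
      intro k hk
      have h1 : (XP δ θ T s) ^ k = ∑ p ∈ Fintype.piFinset fun _ : Fin k => P,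
          ((∏ j, p j : ℕ) : ℂ) ^ (-s) := by
        rw [hX]
        have h2 := Finset.prod_univ_sum (fun _ : Fin k => P)
          (fun (_ : Fin k) (p : ℕ) => (p : ℂ) ^ (-s))
        rw [Finset.prod_const, Finset.card_univ, Fintype.card_fin] at h2
        rw [h2]
        apply Finset.sum_congr rfl
        intro p _
        rw [Nat.cast_prod]
        symm
        induction (Finset.univ : Finset (Fin k)) using Finset.induction_on with
        | empty => simp
        | insert a A ha ih =>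
          rw [Finset.prod_insert ha, Finset.prod_insert ha, ← ih, ← Nat.cast_prod,
            Complex.natCast_mul_natCast_cpow]
      rw [h1]
      have hmaps : ∀ p ∈ Fintype.piFinset fun _ : Fin k => P,
          (∏ j, p j : ℕ) ∈ Finset.Icc 1 ⌊T ^ (θ * K)⌋₊ := by
        intro p hp
        have h3 := hsize k hk _ p (ekT_mem.2 ⟨fun j => Fintype.mem_piFinset.1 hp j, rfl⟩)
        rw [Finset.mem_Icc]
        exact ⟨Nat.one_le_iff_ne_zero.2 h3.1, Nat.le_floor h3.2⟩
      rw [← Finset.sum_fiberwise_of_maps_to hmaps]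
      apply Finset.sum_congr rfl
      intro n _
      rw [Finset.sum_congr rfl (g := fun _ => (n : ℂ) ^ (-s)), Finset.sum_const, nsmul_eq_mul]
      · congr 2
      · intro p hp
        rw [(Finset.mem_filter.1 hp).2]
    unfold EK
    calc ∑ k ∈ Finset.range (K + 1), (-(XP δ θ T s)) ^ k / (k.factorial : ℂ)
        = ∑ k ∈ Finset.range (K + 1), ∑ n ∈ Finset.Icc 1 ⌊T ^ (θ * K)⌋₊,
          (((-1) ^ k / (k.factorial : ℂ)) * ((ekT P k n).card : ℂ)) * (n : ℂ) ^ (-s) := by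
          apply Finset.sum_congr rfl
          intro k hk
          rw [neg_pow, hpow k (by rw [Finset.mem_range] at hk; omega), mul_div_right_comm,
            Finset.mul_sum]
          apply Finset.sum_congr rfl
          intro n _
          ring
      _ = ∑ n ∈ Finset.Icc 1 ⌊T ^ (θ * K)⌋₊, (e n : ℂ) * (n : ℂ) ^ (-s) := by
          rw [Finset.sum_comm]
          apply Finset.sum_congr rfl
          intro n _
          rw [← Finset.sum_mul, he]
          push_cast
          rfl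
  · intro n
    rw [hone]
    split_ifs with hK
    · have h1 : ((ekT P n.primeFactorsList.length n).card : ℝ) ≤
          (n.primeFactorsList.length.factorial : ℝ) := by
        exact_mod_cast ekT_card_le hP _ _
      have h2 : (0 : ℝ) < (n.primeFactorsList.length.factorial : ℝ) := by
        exact_mod_cast Nat.factorial_pos _
      rw [abs_mul, abs_div, abs_pow, abs_neg, abs_one, one_pow, Nat.abs_cast, Nat.abs_cast,
        one_div, inv_mul_le_iff₀ h2, mul_one]
      exact h1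
    · simp
  · intro n hn
    rw [hone] at hn
    split_ifs at hn with hK
    · have h1 : (ekT P n.primeFactorsList.length n).card ≠ 0 := by
        intro h
        rw [h] at hn
        simp at hn
      obtain ⟨p, hp⟩ := Finset.card_ne_zero.1 h1
      obtain ⟨h2, h3⟩ := hsize _ hK n p hp
      refine ⟨h2, h3, ?_⟩
      intro q hq hqn
      obtain ⟨h4, h5⟩ := ekT_mem.1 hp
      rw [← h5] at hqn
      obtain ⟨j, _, hj⟩ := (Prime.dvd_finsetProd_iff hq.prime _).1 hqn
      have h6 := (Nat.prime_dvd_prime_iff_eq hq (hP _ (h4 j))).1 hj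
      rw [h6]
      exact ((hPm _).1 (h4 j)).2
    · exact absurd rfl hn
  · intro n hn hcard hd
    have hd' : ∀ p : ℕ, p.Prime → p ∣ n → p ∈ P := fun p hp hpn => (hPm p).2 ⟨hp, hd p hp hpn⟩
    have hlen : n.primeFactorsList.length = n.primeFactors.card := by
      have h1 := List.toFinset_card_of_nodup
        ((Nat.squarefree_iff_nodup_primeFactorsList hn.ne_zero).1 hn)
      rw [← h1]
      rfl
    have hc := ekT_card_eq hP hn hd'
    rw [hone, hlen, if_pos hcard, hc, ArithmeticFunction.moebius_apply_of_squarefree hn,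
      ArithmeticFunction.cardFactors_apply, hlen]
    have h2 : (n.primeFactors.card.factorial : ℝ) ≠ 0 := by
      exact_mod_cast Nat.factorial_ne_zero _
    push_cast
    field_simp

/-- MODULE EK2. Numbers with many prime factors: `∑ 1/n ≤ S^{K+1}/(K+1)!` over squarefree `n` with more
than `K` prime factors, all in `(T^δ, T^θ]`, where `S = ∑ 1/p ≤ k^12` (`sum_inv_prime`,
`log (θ/δ) ≤ k^12 - log (100 k^12)`); for `K = 11 k^12`, `S^{K+1}/(K+1)! ≤ (e/11)^{11 k^12} ≤
e^{-15 k^12}`. -/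
theorem many_primes : ∃ k₀ : ℕ, 1 ≤ k₀ ∧ ∀ k : ℕ, k₀ ≤ k → ∀ᶠ T : ℝ in atTop,
    ∀ S : Finset ℕ, (∀ n ∈ S, Squarefree n ∧ 11 * k ^ 12 < n.primeFactors.card ∧
      ∀ p : ℕ, p.Prime → p ∣ n → T ^ (Real.exp (-(k : ℝ) ^ 12)) < p ∧
        (p : ℝ) ≤ T ^ (1 / (100 * (k : ℝ) ^ 12))) →
      ∑ n ∈ S, (1 : ℝ) / n ≤ Real.exp (-(15 * (k : ℝ) ^ 12)) := by
  classical
  refine ⟨2, by norm_num, ?_⟩
  intro k hk
  have hk2 : (2 : ℝ) ≤ k := by exact_mod_cast hk
  obtain ⟨M, hM⟩ : ∃ M : ℝ, M = (k : ℝ) ^ 12 := ⟨_, rfl⟩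
  have hM1 : (4096 : ℝ) ≤ M := by
    rw [hM]
    calc (4096 : ℝ) = 2 ^ 12 := by norm_num
      _ ≤ (k : ℝ) ^ 12 := pow_le_pow_left₀ (by norm_num) hk2 12
  have hM0 : 0 < M := by linarith
  have hδ : 0 < Real.exp (-(k : ℝ) ^ 12) := Real.exp_pos _
  have hab : Real.exp (-(k : ℝ) ^ 12) ≤ 1 / (100 * (k : ℝ) ^ 12) := by
    rw [← hM, Real.exp_neg, ← one_div]
    apply one_div_le_one_div_of_le (by positivity)
    have := Real.quadratic_le_exp_of_nonneg hM0.le
    nlinarith
  have hb1 : 1 / (100 * (k : ℝ) ^ 12) ≤ 1 := by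
    rw [← hM, div_le_one (by positivity)]
    linarith
  filter_upwards [sum_inv_prime hδ one_pos, eventually_gt_atTop 1] with T hT hT1
  intro S hS
  have hT0 : 0 < T := by linarith
  obtain ⟨P, hPdef⟩ : ∃ P : Finset ℕ, P = (Finset.Ioc ⌊T ^ (Real.exp (-(k : ℝ) ^ 12))⌋₊
    ⌊T ^ (1 / (100 * (k : ℝ) ^ 12))⌋₊).filter Nat.Prime := ⟨_, rfl⟩
  have hPm : ∀ p : ℕ, p ∈ P ↔ p.Prime ∧ T ^ (Real.exp (-(k : ℝ) ^ 12)) < p ∧
      (p : ℝ) ≤ T ^ (1 / (100 * (k : ℝ) ^ 12)) := by
    intro p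
    rw [hPdef, Finset.mem_filter, Finset.mem_Ioc, Nat.floor_lt (by positivity),
      Nat.le_floor_iff (by positivity)]
    tauto
  have hs : ∑ p ∈ P, (1 : ℝ) / p ≤ M := by
    have h1 := hT _ _ le_rfl hab hb1
    rw [← hPdef] at h1
    have h2 := (abs_le.1 h1).2
    have h3 : Real.log (1 / (100 * (k : ℝ) ^ 12) / Real.exp (-(k : ℝ) ^ 12)) =
        M - Real.log (100 * M) := by
      rw [← hM, Real.log_div (by positivity) (Real.exp_pos _).ne', Real.log_exp, one_div,
        Real.log_inv]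
      ring
    rw [h3] at h2
    have h4 : 1 ≤ Real.log (100 * M) := by
      rw [Real.le_log_iff_exp_le (by positivity)]
      have := Real.exp_one_lt_d9
      linarith
    linarith
  have hterm : ∀ n ∈ S, (1 : ℝ) / n ≤
      ((11 : ℝ) ^ (11 * k ^ 12))⁻¹ * ∏ p ∈ n.primeFactors, (11 / (p : ℝ)) := by
    intro n hn
    obtain ⟨h1, h2, h3⟩ := hS n hn
    have h4 : (n : ℝ) = ∏ p ∈ n.primeFactors, (p : ℝ) := by
      rw [← Nat.cast_prod, Nat.prod_primeFactors_of_squarefree h1]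
    have h5 : (0 : ℝ) < n := by exact_mod_cast Nat.pos_of_ne_zero h1.ne_zero
    rw [Finset.prod_div_distrib, Finset.prod_const, ← h4, ← mul_div_assoc]
    apply div_le_div_of_nonneg_right _ h5.le
    rw [← div_eq_inv_mul, one_le_div (by positivity)]
    exact pow_le_pow_right₀ (by norm_num) h2.le
  have hinj : Set.InjOn (fun n : ℕ => n.primeFactors) (S : Set ℕ) := by
    intro n hn m hm hnm
    have h1 := Nat.prod_primeFactors_of_squarefree (hS n hn).1
    have h2 := Nat.prod_primeFactors_of_squarefree (hS m hm).1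
    simp only at hnm
    rw [← h1, ← h2, hnm]
  have hsub : S.image (fun n : ℕ => n.primeFactors) ⊆ P.powerset := by
    intro A hA
    obtain ⟨n, hn, rfl⟩ := Finset.mem_image.1 hA
    rw [Finset.mem_powerset]
    intro p hp
    rw [hPm]
    exact ⟨Nat.prime_of_mem_primeFactors hp, (hS n hn).2.2 p (Nat.prime_of_mem_primeFactors hp)
      (Nat.dvd_of_mem_primeFactors hp)⟩
  have hprod : ∏ p ∈ P, (1 + 11 / (p : ℝ)) ≤ Real.exp (11 * M) := by
    calc ∏ p ∈ P, (1 + 11 / (p : ℝ)) ≤ ∏ p ∈ P, Real.exp (11 * (1 / (p : ℝ))) := by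
          apply Finset.prod_le_prod
          · intro p _
            positivity
          · intro p _
            have := Real.add_one_le_exp (11 * (1 / (p : ℝ)))
            have e : 11 / (p : ℝ) = 11 * (1 / (p : ℝ)) := by ring
            rw [e]
            linarith
      _ = Real.exp (11 * ∑ p ∈ P, (1 : ℝ) / p) := by
          rw [← Real.exp_sum, Finset.mul_sum]
      _ ≤ Real.exp (11 * M) := by
          apply Real.exp_le_exp.2
          linarith
  have h26 : Real.exp 26 ≤ (11 : ℝ) ^ 11 := by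
    have h1 : Real.exp 26 = Real.exp 1 ^ 26 := by
      rw [← Real.exp_nat_mul]
      norm_num
    rw [h1]
    calc Real.exp 1 ^ 26 ≤ (2.7182818286 : ℝ) ^ 26 := by
          apply pow_le_pow_left₀ (Real.exp_pos _).le Real.exp_one_lt_d9.le
      _ ≤ (11 : ℝ) ^ 11 := by norm_num
  have h26M : Real.exp (26 * M) ≤ (11 : ℝ) ^ (11 * k ^ 12) := by
    have h1 : Real.exp (26 * M) = Real.exp 26 ^ (k ^ 12) := by
      rw [← Real.exp_nat_mul, hM]
      push_cast
      ring_nf
    rw [h1, pow_mul]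
    exact pow_le_pow_left₀ (Real.exp_pos _).le h26 _
  calc ∑ n ∈ S, (1 : ℝ) / n
      ≤ ∑ n ∈ S, ((11 : ℝ) ^ (11 * k ^ 12))⁻¹ * ∏ p ∈ n.primeFactors, (11 / (p : ℝ)) :=
        Finset.sum_le_sum hterm
    _ = ((11 : ℝ) ^ (11 * k ^ 12))⁻¹ * ∑ A ∈ S.image (fun n : ℕ => n.primeFactors),
        ∏ p ∈ A, (11 / (p : ℝ)) := by
        rw [← Finset.mul_sum, Finset.sum_image hinj]
    _ ≤ ((11 : ℝ) ^ (11 * k ^ 12))⁻¹ * ∑ A ∈ P.powerset, ∏ p ∈ A, (11 / (p : ℝ)) := by
        apply mul_le_mul_of_nonneg_left _ (by positivity)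
        apply Finset.sum_le_sum_of_subset_of_nonneg hsub
        intro A _ _
        exact Finset.prod_nonneg fun p _ => by positivity
    _ = ((11 : ℝ) ^ (11 * k ^ 12))⁻¹ * ∏ p ∈ P, (1 + 11 / (p : ℝ)) := by
        rw [Finset.prod_one_add]
    _ ≤ (Real.exp (26 * M))⁻¹ * Real.exp (11 * M) := by
        apply mul_le_mul _ hprod (Finset.prod_nonneg fun p _ => by positivity) (by positivity)
        exact inv_anti₀ (Real.exp_pos _) h26M
    _ = Real.exp (-(15 * (k : ℝ) ^ 12)) := by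
        rw [← Real.exp_neg, ← Real.exp_add, ← hM]
        congr 1
        ring

namespace EK_meanAux

/-- The numerical inequality for the numbers with a large prime factor. -/
theorem num1 (C : ℝ) : ∀ᶠ u : ℝ in atTop,
    25 * (4 * (C * Real.exp u)) * Real.exp (-(2 * (u ^ 3 - 2) * (1 / (100 * u)))) ≤
      Real.exp (-(8 * u)) := by
  have h1 : ∀ᶠ u : ℝ in atTop, 100 * |C| * Real.exp 1 ≤ Real.exp u :=
    Real.tendsto_exp_atTop.eventually_ge_atTop _
  filter_upwards [h1, eventually_ge_atTop (500 : ℝ)] with u hu1 hu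
  have hu0 : 0 < u := by linarith
  have h2 : 2 * (u ^ 3 - 2) * (1 / (100 * u)) = u ^ 2 / 50 - 1 / (25 * u) := by
    field_simp
    ring
  have h3 : 1 / (25 * u) ≤ 1 := by
    rw [div_le_one (by positivity)]
    linarith
  have h4 : 10 * u ≤ u ^ 2 / 50 := by nlinarith
  have hC : C ≤ |C| := le_abs_self C
  calc 25 * (4 * (C * Real.exp u)) * Real.exp (-(2 * (u ^ 3 - 2) * (1 / (100 * u))))
      ≤ 25 * (4 * (|C| * Real.exp u)) * Real.exp (1 - 10 * u) := by
        have h5 : -(2 * (u ^ 3 - 2) * (1 / (100 * u))) ≤ 1 - 10 * u := by rw [h2]; linarith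
        have h6 := Real.exp_le_exp.2 h5
        have h7 := Real.exp_pos u
        have h8 := Real.exp_pos (-(2 * (u ^ 3 - 2) * (1 / (100 * u))))
        have h9 : 0 ≤ |C| := abs_nonneg C
        calc 25 * (4 * (C * Real.exp u)) * Real.exp (-(2 * (u ^ 3 - 2) * (1 / (100 * u))))
            ≤ 25 * (4 * (|C| * Real.exp u)) * Real.exp (-(2 * (u ^ 3 - 2) * (1 / (100 * u)))) := by
              gcongr
          _ ≤ 25 * (4 * (|C| * Real.exp u)) * Real.exp (1 - 10 * u) := by gcongr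
    _ = (100 * |C| * Real.exp 1) * (Real.exp u * Real.exp (-(10 * u))) := by
        rw [sub_eq_add_neg, Real.exp_add]
        ring
    _ ≤ Real.exp u * (Real.exp u * Real.exp (-(10 * u))) := by gcongr
    _ = Real.exp (-(8 * u)) := by
        rw [← Real.exp_add, ← Real.exp_add]
        congr 1
        ring

theorem num2 {u : ℝ} (hu : 1 ≤ u) :
    25 * (4 * Real.exp (-(15 * u))) ≤ Real.exp (-(8 * u)) := by
  have h1 : Real.exp (-(15 * u)) = Real.exp (-(8 * u)) * Real.exp (-(7 * u)) := by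
    rw [← Real.exp_add]
    congr 1
    ring
  have h2 : Real.exp (-(7 * u)) ≤ 1 / 100 := by
    have h3 : (100 : ℝ) ≤ Real.exp (7 * u) := by
      have h4 : Real.exp 7 ≤ Real.exp (7 * u) := Real.exp_le_exp.2 (by linarith)
      have h5 : (100 : ℝ) ≤ Real.exp 7 := by
        have h6 : Real.exp 7 = Real.exp 1 ^ 7 := by
          rw [← Real.exp_nat_mul]
          norm_num
        have h7 : (2 : ℝ) ≤ Real.exp 1 := by
          have := Real.add_one_le_exp (1 : ℝ)
          linarith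
        rw [h6]
        calc (100 : ℝ) ≤ 2 ^ 7 := by norm_num
          _ ≤ Real.exp 1 ^ 7 := by gcongr
      linarith
    rw [Real.exp_neg, inv_eq_one_div]
    exact one_div_le_one_div_of_le (by norm_num) h3
  rw [h1]
  nlinarith [Real.exp_pos (-(8 * u))]

/-- The mass of the rough numbers with the exceptional prime factor. -/
theorem exc_mass {δ C T : ℝ} (hδ : 0 < δ) (hT : 1 < T)
    (hC : ∀ S : Finset ℕ, (∀ n ∈ S, (n : ℝ) ≤ T ∧ Rgh (δ * Real.log T) n) →
      ∑ n ∈ S, (1 : ℝ) / n ≤ C) (S : Finset ℕ)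
    (hS : ∀ n ∈ S, (n : ℝ) ≤ T ∧ Rgh (δ * Real.log T) n ∧
      ∃ p : ℕ, p.Prime ∧ p ∣ n ∧ (p : ℝ) = T ^ δ) :
    ∑ n ∈ S, (1 : ℝ) / n ≤ C / T ^ δ := by
  classical
  have hT0 : 0 < T := by linarith
  have hTδ : 0 < T ^ δ := Real.rpow_pos_of_pos hT0 δ
  rcases S.eq_empty_or_nonempty with h0 | ⟨n0, hn0⟩
  · rw [h0, Finset.sum_empty]
    have := hC ∅ (by simp)
    rw [Finset.sum_empty] at this
    positivity
  · obtain ⟨_, _, p, hp, _, hpT⟩ := hS n0 hn0
    have hp0 : (0 : ℝ) < p := by exact_mod_cast hp.pos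
    have hall : ∀ n ∈ S, p ∣ n := by
      intro n hn
      obtain ⟨_, _, q, hq, hqn, hqT⟩ := hS n hn
      have h1 : (q : ℝ) = p := by rw [hqT, hpT]
      have h2 : q = p := by exact_mod_cast h1
      exact h2 ▸ hqn
    have hinj : Set.InjOn (fun n => n / p) (S : Set ℕ) := by
      intro a ha b hb hab
      have h1 := Nat.div_mul_cancel (hall a (Finset.mem_coe.1 ha))
      have h2 := Nat.div_mul_cancel (hall b (Finset.mem_coe.1 hb))
      simp only at hab
      rw [← h1, ← h2, hab]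
    have h3 : ∑ n ∈ S, (1 : ℝ) / n = (1 / (p : ℝ)) * ∑ m ∈ S.image (fun n => n / p), (1 : ℝ) / m := by
      rw [Finset.sum_image hinj, Finset.mul_sum]
      refine Finset.sum_congr rfl fun n hn => ?_
      have h1 := Nat.div_mul_cancel (hall n hn)
      have h2 : (n : ℝ) = ((n / p : ℕ) : ℝ) * p := by exact_mod_cast h1.symm
      rw [h2, mul_comm (((n / p : ℕ) : ℝ)) (p : ℝ), one_div_mul_one_div]
    have h4 : ∑ m ∈ S.image (fun n => n / p), (1 : ℝ) / m ≤ C := by
      apply hC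
      intro m hm
      obtain ⟨n, hn, rfl⟩ := Finset.mem_image.1 hm
      obtain ⟨h5, h6, _⟩ := hS n hn
      have h7 : n / p ≤ n := Nat.div_le_self n p
      refine ⟨le_trans (by exact_mod_cast h7) h5, ?_, ?_⟩
      · intro h8
        have h9 := Nat.div_mul_cancel (hall n hn)
        have h10 : n / p = 0 := h8
        rw [h10, zero_mul] at h9
        exact h6.1 h9.symm
      · intro q hq hqn
        exact h6.2 q hq (hqn.trans (Nat.div_dvd_of_dvd (hall n hn)))
    rw [h3, hpT, div_eq_mul_one_div C, mul_comm C]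
    exact mul_le_mul_of_nonneg_left h4 (by positivity)

/-- Splitting off one class. -/
theorem cls_sum {N : ℕ} {P : ℕ → Prop} [DecidablePred P] {b M : ℝ} (hb : 0 ≤ b)
    (h : ∑ m ∈ (Finset.Icc 1 N).filter P, (1 : ℝ) / m ≤ M) :
    ∑ m ∈ Finset.Icc 1 N, (if P m then b * ((1 : ℝ) / m) else 0) ≤ b * M := by
  rw [← Finset.sum_filter, ← Finset.mul_sum]
  exact mul_le_mul_of_nonneg_left h hb

/-- The weight. -/
theorem wt_le {x L : ℝ} (hx : 0 ≤ x) (hL : 0 < L) {m : ℕ} (hm : 1 ≤ m) :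
    (m : ℝ) ^ (-2 * (1 / 2 + x / L)) ≤ 1 / m ∧
    ∀ T θ : ℝ, 0 < T → Real.log T = L → T ^ θ ≤ m →
      (m : ℝ) ^ (-2 * (1 / 2 + x / L)) ≤ Real.exp (-(2 * x * θ)) * (1 / m) := by
  have hm1 : (1 : ℝ) ≤ m := by exact_mod_cast hm
  have hm0 : (0 : ℝ) < m := by linarith
  have h1 : (m : ℝ) ^ (-2 * (1 / 2 + x / L)) = (m : ℝ) ^ (-(2 * x / L)) * (1 / m) := by
    rw [show -2 * (1 / 2 + x / L) = -(2 * x / L) + (-1) by ring, Real.rpow_add hm0,
      Real.rpow_neg_one, one_div]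
  refine ⟨?_, fun T θ hT hTL hθ => ?_⟩
  · rw [h1]
    have h2 : (m : ℝ) ^ (-(2 * x / L)) ≤ 1 :=
      Real.rpow_le_one_of_one_le_of_nonpos hm1 (by
        have : 0 ≤ 2 * x / L := by positivity
        linarith)
    calc (m : ℝ) ^ (-(2 * x / L)) * (1 / m) ≤ 1 * (1 / m) := by gcongr
      _ = 1 / m := one_mul _
  · rw [h1]
    refine mul_le_mul_of_nonneg_right ?_ (by positivity)
    have h2 : Real.log (T ^ θ) ≤ Real.log m := Real.log_le_log (Real.rpow_pos_of_pos hT _) hθ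
    rw [Real.log_rpow hT, hTL] at h2
    rw [Real.rpow_def_of_pos hm0]
    apply Real.exp_le_exp.2
    have h3 : 2 * x * θ ≤ 2 * x / L * Real.log m := by
      calc 2 * x * θ = 2 * x / L * (θ * L) := by field_simp
        _ ≤ 2 * x / L * Real.log m := by gcongr
    linarith

/-- The comparison of the coefficients. -/
theorem cmp {δ θ T L x : ℝ} {n K m : ℕ} (hδ : 0 < δ) (hδ1 : δ ≤ 1 / 16) (hT : 1 < T)
    (hL : Real.log T = L) (hx : 0 ≤ x) (hm : 1 ≤ m)
    (hη : θ * K ≤ 1 - δ - 2 * ⌈1 / δ⌉₊ * (δ / (n + 1))) {e : ℕ → ℝ} (he2 : ∀ n, |e n| ≤ 1)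
    (he3 : ∀ n, e n ≠ 0 → n ≠ 0 ∧ (n : ℝ) ≤ T ^ (θ * K) ∧ ∀ p : ℕ, p.Prime → p ∣ n →
        T ^ δ < p ∧ (p : ℝ) ≤ T ^ θ)
    (he4 : ∀ n, Squarefree n → n.primeFactors.card ≤ K →
        (∀ p : ℕ, p.Prime → p ∣ n → T ^ δ < p ∧ (p : ℝ) ≤ T ^ θ) →
        e n = (ArithmeticFunction.moebius n : ℤ)) :
    (am δ n T m - e m) ^ 2 * (m : ℝ) ^ (-2 * (1 / 2 + x / L)) ≤
      (open Classical in
      (if Squarefree m ∧ Rgh (δ * L) m ∧ ∃ p : ℕ, p.Prime ∧ p ∣ m ∧ T ^ θ < p then
        (4 * Real.exp (-(2 * x * θ))) * ((1 : ℝ) / m) else 0) +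
      (if Rgh (δ * L) m ∧ ∃ p : ℕ, p.Prime ∧ p ∣ m ∧ (p : ℝ) = T ^ δ then
        4 * ((1 : ℝ) / m) else 0) +
      (if Squarefree m ∧ K < m.primeFactors.card ∧ ∀ p : ℕ, p.Prime → p ∣ m →
          T ^ δ < p ∧ (p : ℝ) ≤ T ^ θ then 4 * ((1 : ℝ) / m) else 0) +
      (if Rgh ((n : ℝ) * (δ / (n + 1)) * L) m ∧
        (¬ Squarefree m ∨ (∃ p : ℕ, p.Prime ∧ p ∣ m ∧ Real.log p < δ * L) ∨
          (1 - δ - 2 * ⌈1 / δ⌉₊ * (δ / (n + 1))) * L < Real.log m) then
        (Real.exp (⌈1 / δ⌉₊ : ℕ) + 1) ^ 2 * ((1 : ℝ) / m) else 0) +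
      (if ¬ Squarefree m ∧ Rgh (δ * L) m then 1 * ((1 : ℝ) / m) else 0)) := by
  classical
  have hT0 : 0 < T := by linarith
  have hL0 : 0 < L := by rw [← hL]; exact Real.log_pos hT
  have hm1 : (1 : ℝ) ≤ m := by exact_mod_cast hm
  have hm0 : (0 : ℝ) < m := by linarith
  have hmne : m ≠ 0 := by omega
  obtain ⟨hw, hw1⟩ := wt_le hx hL0 hm
  have hw0 : 0 ≤ (m : ℝ) ^ (-2 * (1 / 2 + x / L)) := by positivity
  have hinv : 0 ≤ (1 : ℝ) / m := by positivity
  have hn0 : (0 : ℝ) < (n : ℝ) + 1 := by positivity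
  set K' := ⌈1 / δ⌉₊ with hK'
  -- the terms are nonnegative
  have e1 : 0 ≤ (if Squarefree m ∧ Rgh (δ * L) m ∧ ∃ p : ℕ, p.Prime ∧ p ∣ m ∧ T ^ θ < p then
        (4 * Real.exp (-(2 * x * θ))) * ((1 : ℝ) / m) else 0) := by split_ifs <;> positivity
  have e2 : 0 ≤ (if Rgh (δ * L) m ∧ ∃ p : ℕ, p.Prime ∧ p ∣ m ∧ (p : ℝ) = T ^ δ then
        4 * ((1 : ℝ) / m) else 0) := by split_ifs <;> positivity
  have e3 : 0 ≤ (if Squarefree m ∧ K < m.primeFactors.card ∧ ∀ p : ℕ, p.Prime → p ∣ m →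
          T ^ δ < p ∧ (p : ℝ) ≤ T ^ θ then 4 * ((1 : ℝ) / m) else 0) := by
    split_ifs <;> positivity
  have e4 : 0 ≤ (if Rgh ((n : ℝ) * (δ / (n + 1)) * L) m ∧
        (¬ Squarefree m ∨ (∃ p : ℕ, p.Prime ∧ p ∣ m ∧ Real.log p < δ * L) ∨
          (1 - δ - 2 * K' * (δ / (n + 1))) * L < Real.log m) then
        (Real.exp (K' : ℕ) + 1) ^ 2 * ((1 : ℝ) / m) else 0) := by split_ifs <;> positivity
  have e5 : 0 ≤ (if ¬ Squarefree m ∧ Rgh (δ * L) m then 1 * ((1 : ℝ) / m) else 0) := by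
    split_ifs <;> positivity
  -- the good numbers
  have hgood : Squarefree m → (∀ p : ℕ, p.Prime → p ∣ m → δ * L ≤ Real.log p) →
      Real.log m ≤ (1 - δ - 2 * K' * (δ / (n + 1))) * L →
      am δ n T m = (ArithmeticFunction.moebius m : ℤ) := by
    intro h1 h2 h3
    have hc : (1 / δ : ℝ) ≤ K' := Nat.le_ceil _
    refine ap_good hT (by positivity) (by linarith) ?_ ?_ h1 ?_ ?_
    · have h4 : ((n : ℝ) + 1) / δ ≤ ⌈((n : ℝ) + 1) / δ⌉₊ := Nat.le_ceil _
      have h5 : ((n : ℝ) + 1) / δ * (δ / (n + 1)) = 1 := by field_simp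
      have h6 : ((n : ℝ) + 1) / δ * (δ / (n + 1)) ≤ ⌈((n : ℝ) + 1) / δ⌉₊ * (δ / (n + 1)) := by
        gcongr
      linarith
    · have h4 : ((n : ℝ) + 1) * (δ / (n + 1)) = δ := by field_simp
      rw [h4]
      have h5 : (1 / δ) * δ = 1 := by field_simp
      have h6 : (1 / δ) * δ ≤ (K' : ℝ) * δ := by gcongr
      nlinarith
    · rw [hL]
      exact h3
    · intro p hp hpm
      have h4 : ((n : ℝ) + 1) * (δ / (n + 1)) = δ := by field_simp
      rw [h4, hL]
      exact h2 p hp hpm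
  have hmoeb : |((ArithmeticFunction.moebius m : ℤ) : ℝ)| ≤ 1 := by
    have := ArithmeticFunction.abs_moebius_le_one (n := m)
    exact_mod_cast this
  -- primes `> T^δ` have large logarithms
  have hlog : ∀ p : ℕ, T ^ δ < p → δ * L ≤ Real.log p := by
    intro p hp
    have h1 := Real.log_le_log (Real.rpow_pos_of_pos hT0 δ) hp.le
    rwa [Real.log_rpow hT0, hL] at h1
  by_cases ham : am δ n T m = 0
  · by_cases hem : e m = 0
    · rw [ham, hem]
      simp only [sub_zero, ne_eq, OfNat.ofNat_ne_zero, not_false_eq_true, zero_pow, zero_mul]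
      linarith
    · obtain ⟨_, h2, h3⟩ := he3 m hem
      have hR : ∀ p : ℕ, p.Prime → p ∣ m → δ * L ≤ Real.log p := fun p hp hpm =>
        hlog p (h3 p hp hpm).1
      by_cases hsq : Squarefree m
      · exfalso
        have h4 : Real.log m ≤ (1 - δ - 2 * K' * (δ / (n + 1))) * L := by
          have h5 := Real.log_le_log hm0 h2
          rw [Real.log_rpow hT0, hL] at h5
          exact h5.trans (mul_le_mul_of_nonneg_right hη hL0.le)
        have h5 := hgood hsq hR h4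
        rw [ham] at h5
        have h6 := (ArithmeticFunction.moebius_ne_zero_iff_squarefree).2 hsq
        apply h6
        exact_mod_cast h5.symm
      · have h5 : ¬ Squarefree m ∧ Rgh (δ * L) m := ⟨hsq, hmne, hR⟩
        rw [ham, if_pos h5]
        have h6 : (0 - e m) ^ 2 ≤ 1 := by
          have h7 := he2 m
          rw [zero_sub, neg_sq]
          exact (sq_le_one_iff_abs_le_one _).2 h7
        have h7 : (0 - e m) ^ 2 * (m : ℝ) ^ (-2 * (1 / 2 + x / L)) ≤ 1 * ((1 : ℝ) / m) := by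
          gcongr
        linarith
  · have hR0 : Rgh ((n : ℝ) * (δ / (n + 1)) * L) m := by
      have h1 := ap_rough hT (η := δ / (n + 1)) (by positivity) ham
      rw [hL] at h1
      exact h1
    by_cases hB : ¬ Squarefree m ∨ (∃ p : ℕ, p.Prime ∧ p ∣ m ∧ Real.log p < δ * L) ∨
          (1 - δ - 2 * K' * (δ / (n + 1))) * L < Real.log m
    · rw [if_pos (⟨hR0, hB⟩ : _ ∧ _)]
      have h1 : |am δ n T m| ≤ Real.exp (K' : ℕ) := ap_bound (by positivity) _ _ _ _
      have h2 := he2 m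
      have h3 : |am δ n T m - e m| ≤ Real.exp (K' : ℕ) + 1 :=
        (abs_sub _ _).trans (add_le_add h1 h2)
      have h4 : (am δ n T m - e m) ^ 2 ≤ (Real.exp (K' : ℕ) + 1) ^ 2 := by
        rw [← sq_abs]
        gcongr
      have h7 : (am δ n T m - e m) ^ 2 * (m : ℝ) ^ (-2 * (1 / 2 + x / L)) ≤
          (Real.exp (K' : ℕ) + 1) ^ 2 * ((1 : ℝ) / m) := by
        gcongr
      linarith
    · push Not at hB
      obtain ⟨hsq, hR, hlm⟩ := hB
      have hR' : Rgh (δ * L) m := ⟨hmne, hR⟩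
      have ham' := hgood hsq hR hlm
      have h3 : |am δ n T m - e m| ≤ 2 := by
        rw [ham']
        exact (abs_sub _ _).trans (by linarith [he2 m])
      have h4 : (am δ n T m - e m) ^ 2 ≤ 4 := by
        rw [← sq_abs]
        nlinarith [abs_nonneg (am δ n T m - e m)]
      have h8 : (am δ n T m - e m) ^ 2 * (m : ℝ) ^ (-2 * (1 / 2 + x / L)) ≤
          4 * ((1 : ℝ) / m) := by
        gcongr
      by_cases hc1 : ∃ p : ℕ, p.Prime ∧ p ∣ m ∧ T ^ θ < p
      · rw [if_pos (⟨hsq, hR', hc1⟩ : _ ∧ _ ∧ _)]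
        obtain ⟨p, hp, hpm, hpT⟩ := hc1
        have h5 : T ^ θ ≤ m := hpT.le.trans (by exact_mod_cast Nat.le_of_dvd hm hpm)
        have h6 := hw1 T θ hT0 hL h5
        have h7 : (am δ n T m - e m) ^ 2 * (m : ℝ) ^ (-2 * (1 / 2 + x / L)) ≤
            4 * (Real.exp (-(2 * x * θ)) * ((1 : ℝ) / m)) := by
          gcongr
        linarith
      · push Not at hc1
        by_cases hc2 : ∃ p : ℕ, p.Prime ∧ p ∣ m ∧ (p : ℝ) = T ^ δ
        · rw [if_pos (⟨hR', hc2⟩ : _ ∧ _)]
          linarith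
        · push Not at hc2
          have hpr : ∀ p : ℕ, p.Prime → p ∣ m → T ^ δ < p ∧ (p : ℝ) ≤ T ^ θ := by
            intro p hp hpm
            refine ⟨?_, hc1 p hp hpm⟩
            have hp0 : (0 : ℝ) < p := by exact_mod_cast hp.pos
            have h5 : T ^ δ ≤ p := by
              rw [← Real.log_le_log_iff (Real.rpow_pos_of_pos hT0 δ) hp0, Real.log_rpow hT0, hL]
              exact hR p hp hpm
            exact lt_of_le_of_ne h5 (fun h => hc2 p hp hpm h.symm)
          by_cases hc3 : K < m.primeFactors.card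
          · rw [if_pos (⟨hsq, hc3, hpr⟩ : _ ∧ _ ∧ _)]
            linarith
          · have h5 := he4 m hsq (not_lt.1 hc3) hpr
            rw [ham', h5]
            simp only [sub_self, ne_eq, OfNat.ofNat_ne_zero, not_false_eq_true, zero_pow, zero_mul]
            linarith

end EK_meanAux

/-- MODULE EK3. The mollifier is close to `EK` far to the right. With `δ = e^{-k^12}`,
`θ = 1/(100 k^12)`, `K = 11 k^12` (`θ K < 1/4`), `x ≥ k^36 - 2`: `mv_line` for the difference of the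
coefficients (`n ≤ T^{1-δ}`). For `n` squarefree, `δ`-rough, `log n ≤ (1-δ-2K'η) L`: `am n = μ(n)`
(`ap_good`); then `e n = μ(n)` too, unless `n` has a prime factor `> T^θ` (weight
`n^{-2x/L} ≤ e^{-2xθ} ≤ e^{-k^24/60}`, mass `≤ FF ≤ C e^{k^12}`), or more than `K` prime factors
(`many_primes`), or a prime factor `= T^δ` (mass `→ 0`). All other `n` with `am n ≠ 0` or `e n ≠ 0`: those
with `am n ≠ 0` are in `bad_mass`; if `e n ≠ 0` then `n` is not squarefree, or `n ≤ T^{1/4}` is good or has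
the exceptional prime; non-squarefree rough numbers: `rough_sq`. `|am| ≤ e^{K'}`, `|e| ≤ 1`. -/
theorem EK_mean : ∃ k₀ : ℕ, 1 ≤ k₀ ∧ ∀ k : ℕ, k₀ ≤ k → ∀ᶠ n : ℕ in atTop,
    ∀ᶠ T : ℝ in atTop, ∀ x : ℝ, (k : ℝ) ^ 36 - 2 ≤ x → x ≤ (k : ℝ) ^ 36 + 2 →
      ∫ t in (T / 4)..(4 * T), ‖Am (Real.exp (-(k : ℝ) ^ 12)) n T (sw T t x) -
        EK (Real.exp (-(k : ℝ) ^ 12)) (1 / (100 * (k : ℝ) ^ 12)) T (11 * k ^ 12)
          (sw T t x)‖ ^ 2 ≤ Real.exp (-(8 * (k : ℝ) ^ 12)) * T := by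
  classical
  obtain ⟨C, hC, hFF⟩ := FF_le
  obtain ⟨k1, hk1, hmany⟩ := many_primes
  have hpow : Tendsto (fun k : ℕ => (k : ℝ) ^ 12) atTop atTop :=
    (tendsto_pow_atTop (by norm_num)).comp tendsto_natCast_atTop_atTop
  obtain ⟨k2, hk2⟩ := eventually_atTop.1 (hpow.eventually (EK_meanAux.num1 C))
  refine ⟨max (max k1 k2) 2, by omega, fun k hk => ?_⟩
  have hka : k1 ≤ k := by omega
  have hkb : k2 ≤ k := by omega
  have hkc : 2 ≤ k := by omega
  have hnum1 := hk2 k hkb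
  have hmanyk := hmany k hka
  have h36 : (k : ℝ) ^ 36 = ((k : ℝ) ^ 12) ^ 3 := by ring
  have hKθ0 : ((11 * k ^ 12 : ℕ) : ℝ) = 11 * (k : ℝ) ^ 12 := by push_cast; ring
  have hu4 : (4096 : ℝ) ≤ (k : ℝ) ^ 12 := by
    have h1 : (2 : ℝ) ≤ k := by exact_mod_cast hkc
    calc (4096 : ℝ) = 2 ^ 12 := by norm_num
      _ ≤ (k : ℝ) ^ 12 := by gcongr
  set u : ℝ := (k : ℝ) ^ 12 with hu
  have hu0 : 0 < u := by linarith
  set δ : ℝ := Real.exp (-u) with hδ
  have hδ0 : 0 < δ := Real.exp_pos _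
  have hδ1 : δ ≤ 1 / 16 := by
    have h1 : (16 : ℝ) ≤ Real.exp u := by
      have := Real.add_one_le_exp u
      linarith
    rw [hδ, Real.exp_neg, inv_eq_one_div]
    exact one_div_le_one_div_of_le (by norm_num) h1
  set θ : ℝ := 1 / (100 * u) with hθ
  have hθ0 : 0 < θ := by positivity
  set K : ℕ := 11 * k ^ 12 with hK
  have hKθ : θ * K = 11 / 100 := by
    rw [hKθ0, hθ]
    field_simp
  set K' := ⌈1 / δ⌉₊ with hK'
  set E : ℝ := Real.exp (-(8 * u)) with hE
  have hE0 : 0 < E := Real.exp_pos _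
  set εB : ℝ := E / (25 * (Real.exp (K' : ℕ) + 1) ^ 2) with hεB
  have hεB0 : 0 < εB := by positivity
  have hmesh : ∀ᶠ n : ℕ in atTop, 2 * (K' : ℝ) * (δ / (n + 1)) ≤ 1 / 4 := by
    have h1 : Tendsto (fun n : ℕ => 2 * (K' : ℝ) * (δ / (n + 1))) atTop (𝓝 0) := by
      have h2 : Tendsto (fun n : ℕ => (1 : ℝ) / (n + 1)) atTop (𝓝 0) :=
        tendsto_one_div_add_atTop_nhds_zero_nat
      have h3 := h2.const_mul (2 * (K' : ℝ) * δ)
      rw [mul_zero] at h3
      refine h3.congr fun n => ?_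
      ring
    exact (h1.eventually (gt_mem_nhds (show (0 : ℝ) < 1 / 4 by norm_num))).mono fun n hn => hn.le
  filter_upwards [bad_mass hδ0 hδ1 hεB0, hmesh] with n hbad hmesh
  obtain ⟨C2, hC2, hrough⟩ := rough_mass hδ0
  have hsq := rough_sq hδ0 (show 0 < E / 25 by positivity)
  have hTδ : ∀ᶠ T : ℝ in atTop, 25 * (4 * C2) / E ≤ T ^ δ :=
    (tendsto_rpow_atTop hδ0).eventually_ge_atTop _
  filter_upwards [hbad, hrough, hsq, hTδ, hmanyk, hFF δ hδ0 (by linarith),
    mv_line (κ := 1 - δ) (by linarith) (by linarith), eventually_gt_atTop (1 : ℝ)] with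
    T hbad hrough hsq hTδ hmanyT hFFT hmv hT x hx1 hx2
  have hT0 : 0 < T := by linarith
  have hL0 : 0 < Real.log T := Real.log_pos hT
  have hx0 : 0 ≤ x := by
    rw [h36] at hx1
    nlinarith [hu4, sq_nonneg u]
  obtain ⟨e, he1, he2, he3, he4⟩ := EK_coeff hT hδ0 hθ0 K
  set N := Nn δ T with hN
  have hNT : (N : ℝ) ≤ T ^ (1 - δ) := Nat.floor_le (Real.rpow_nonneg hT0.le _)
  -- the difference as a Dirichlet polynomial
  have hdiff : ∀ t : ℝ, Am δ n T (sw T t x) - EK δ θ T K (sw T t x) =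
      ∑ m ∈ Finset.Icc 1 N, ((am δ n T m - e m : ℝ) : ℂ) *
        (m : ℂ) ^ (-(pl (1 / 2 + x / Real.log T) t)) := by
    intro t
    have hs : sw T t x = pl (1 / 2 + x / Real.log T) t := by
      unfold sw pl
      push_cast
      ring
    rw [hs, he1]
    have h1 : ∑ m ∈ Finset.Icc 1 ⌊T ^ (θ * K)⌋₊, (e m : ℂ) *
        (m : ℂ) ^ (-(pl (1 / 2 + x / Real.log T) t)) =
        ∑ m ∈ Finset.Icc 1 N, (e m : ℂ) * (m : ℂ) ^ (-(pl (1 / 2 + x / Real.log T) t)) := by
      apply Finset.sum_subset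
      · apply Finset.Icc_subset_Icc_right
        apply Nat.floor_mono
        apply Real.rpow_le_rpow_of_exponent_le hT.le
        rw [hKθ]
        linarith
      · intro m hm hm2
        have h2 : e m = 0 := by
          by_contra h3
          obtain ⟨_, h4, _⟩ := he3 m h3
          apply hm2
          rw [Finset.mem_Icc] at hm ⊢
          exact ⟨hm.1, Nat.le_floor h4⟩
        rw [h2]
        simp
    rw [h1]
    unfold Am Aa
    rw [← hN, ← Finset.sum_sub_distrib]
    refine Finset.sum_congr rfl fun m _ => ?_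
    push_cast
    ring
  have hmv' := hmv N (fun m => ((am δ n T m - e m : ℝ) : ℂ)) (1 / 2 + x / Real.log T) (T / 4)
    (4 * T) hNT (by linarith) (by linarith)
  simp_rw [hdiff]
  refine hmv'.trans ?_
  -- the sum over the coefficients
  have hsum : ∑ m ∈ Finset.Icc 1 N, ‖((am δ n T m - e m : ℝ) : ℂ)‖ ^ 2 *
      (m : ℝ) ^ (-2 * (1 / 2 + x / Real.log T)) ≤ E / 5 := by
    have hterm := fun (m : ℕ) (hm : m ∈ Finset.Icc 1 N) =>
      EK_meanAux.cmp (n := n) (θ := θ) (K := K) hδ0 hδ1 hT rfl hx0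
        (Finset.mem_Icc.1 hm).1 (by rw [hKθ]; linarith) he2 he3 he4
    have hnorm : ∑ m ∈ Finset.Icc 1 N, ‖((am δ n T m - e m : ℝ) : ℂ)‖ ^ 2 *
        (m : ℝ) ^ (-2 * (1 / 2 + x / Real.log T)) =
        ∑ m ∈ Finset.Icc 1 N, (am δ n T m - e m) ^ 2 *
        (m : ℝ) ^ (-2 * (1 / 2 + x / Real.log T)) := by
      refine Finset.sum_congr rfl fun m _ => ?_
      rw [Complex.norm_real, Real.norm_eq_abs, sq_abs]
    rw [hnorm]
    refine (Finset.sum_le_sum hterm).trans ?_
    rw [Finset.sum_add_distrib, Finset.sum_add_distrib, Finset.sum_add_distrib,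
      Finset.sum_add_distrib]
    have hmT : ∀ m ∈ Finset.Icc 1 N, (m : ℝ) ≤ T ^ (1 - δ) := fun m hm =>
      le_trans (by exact_mod_cast (Finset.mem_Icc.1 hm).2) hNT
    have hTT : T ^ (1 - δ) ≤ T := by
      calc T ^ (1 - δ) ≤ T ^ (1 : ℝ) := Real.rpow_le_rpow_of_exponent_le hT.le (by linarith)
        _ = T := Real.rpow_one T
    have s1 := EK_meanAux.cls_sum (N := N) (P := fun m => Squarefree m ∧ Rgh (δ * Real.log T) m ∧
        ∃ p : ℕ, p.Prime ∧ p ∣ m ∧ T ^ θ < p) (b := 4 * Real.exp (-(2 * x * θ)))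
      (M := C / δ) (by positivity) (by
        refine le_trans ?_ hFFT
        unfold FF
        apply Finset.sum_le_sum_of_subset_of_nonneg
        · intro m hm
          rw [Finset.mem_filter] at hm ⊢
          refine ⟨?_, hm.2.1, hm.2.2.1⟩
          rw [Finset.mem_Icc]
          refine ⟨(Finset.mem_Icc.1 hm.1).1, Nat.le_floor ?_⟩
          rw [Real.rpow_one]
          exact (hmT m hm.1).trans hTT
        · intro m _ _
          positivity)
    have s2 := EK_meanAux.cls_sum (N := N) (P := fun m => Rgh (δ * Real.log T) m ∧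
        ∃ p : ℕ, p.Prime ∧ p ∣ m ∧ (p : ℝ) = T ^ δ) (b := 4) (M := C2 / T ^ δ) (by norm_num) (by
        refine EK_meanAux.exc_mass hδ0 hT hrough _ fun m hm => ?_
        rw [Finset.mem_filter] at hm
        exact ⟨(hmT m hm.1).trans hTT, hm.2.1, hm.2.2⟩)
    have s3 := EK_meanAux.cls_sum (N := N) (P := fun m => Squarefree m ∧
        K < m.primeFactors.card ∧ ∀ p : ℕ, p.Prime → p ∣ m → T ^ δ < p ∧ (p : ℝ) ≤ T ^ θ)
      (b := 4) (M := Real.exp (-(15 * u))) (by norm_num) (by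
        refine hmanyT _ fun m hm => ?_
        rw [Finset.mem_filter] at hm
        exact hm.2)
    have s4 := EK_meanAux.cls_sum (N := N) (P := fun m =>
        Rgh ((n : ℝ) * (δ / (n + 1)) * Real.log T) m ∧
        (¬ Squarefree m ∨ (∃ p : ℕ, p.Prime ∧ p ∣ m ∧ Real.log p < δ * Real.log T) ∨
          (1 - δ - 2 * K' * (δ / (n + 1))) * Real.log T < Real.log m))
      (b := (Real.exp (K' : ℕ) + 1) ^ 2) (M := εB) (by positivity) (by
        refine hbad _ fun m hm => ?_
        rw [Finset.mem_filter] at hm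
        exact ⟨hmT m hm.1, hm.2.1, hm.2.2⟩)
    have s5 := EK_meanAux.cls_sum (N := N) (P := fun m => ¬ Squarefree m ∧
        Rgh (δ * Real.log T) m) (b := 1) (M := E / 25) (by norm_num) (by
        refine hsq _ fun m hm => ?_
        rw [Finset.mem_filter] at hm
        exact ⟨(hmT m hm.1).trans hTT, hm.2.2, hm.2.1⟩)
    have n1 : 4 * Real.exp (-(2 * x * θ)) * (C / δ) ≤ E / 25 := by
      have h1 : Real.exp (-(2 * x * θ)) ≤ Real.exp (-(2 * (u ^ 3 - 2) * θ)) := by
        apply Real.exp_le_exp.2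
        have h2 : (u ^ 3 - 2) ≤ x := by rw [← h36]; exact hx1
        have h3 : 2 * (u ^ 3 - 2) * θ ≤ 2 * x * θ := by gcongr
        linarith
      have h2 : C / δ = C * Real.exp u := by
        rw [hδ, Real.exp_neg]
        field_simp
      rw [h2]
      have h3 : 0 ≤ C * Real.exp u := by positivity
      calc 4 * Real.exp (-(2 * x * θ)) * (C * Real.exp u) ≤
          4 * Real.exp (-(2 * (u ^ 3 - 2) * θ)) * (C * Real.exp u) := by gcongr
        _ = (25 * (4 * (C * Real.exp u)) * Real.exp (-(2 * (u ^ 3 - 2) * θ))) / 25 := by ring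
        _ ≤ E / 25 := by
            apply div_le_div_of_nonneg_right hnum1 (by norm_num)
    have n2 : 4 * (C2 / T ^ δ) ≤ E / 25 := by
      have h1 : 0 < T ^ δ := Real.rpow_pos_of_pos hT0 δ
      rw [div_le_iff₀ hE0] at hTδ
      rw [mul_div_assoc', div_le_div_iff₀ h1 (by norm_num)]
      linarith
    have n3 : 4 * Real.exp (-(15 * u)) ≤ E / 25 := by
      have := EK_meanAux.num2 (u := u) (by linarith)
      linarith
    have n4 : (Real.exp (K' : ℕ) + 1) ^ 2 * εB = E / 25 := by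
      have h1 : 0 < (Real.exp (K' : ℕ) + 1) ^ 2 := by positivity
      rw [hεB]
      field_simp
    have n5 : 1 * (E / 25) = E / 25 := one_mul _
    linarith
  calc 5 * T * ∑ m ∈ Finset.Icc 1 N, ‖((am δ n T m - e m : ℝ) : ℂ)‖ ^ 2 *
      (m : ℝ) ^ (-2 * (1 / 2 + x / Real.log T)) ≤ 5 * T * (E / 5) := by gcongr
    _ = E * T := by ring

end Pool.Agent.MP_67227b_nt.Ah
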