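import Pool.Agent.MP_67227b_nt.Ah.AhBox
import Pool.Agent.MP_67227b_nt.Ah.AhEK
import Pool.Agent.MP_67227b_nt.Ah.AhM1
import Pool.Agent.MP_67227b_nt.Ah.AhRect
import Pool.Agent.MP_67227b_nt.Ah.AhX
import Pool.Agent.MP_67227b_nt.Ah.AhZexp

set_option autoImplicit false

open Filter Topology Set MeasureTheory Complex
open scoped Real ArithmeticFunction ContDiff

namespace Pool.Agent.MP_67227b_nt.Ah

open Pool.Agent.Lib.ZetaCount_helper33 Pool.Agent.MP_67227b_nt Pool.Agent.MP_67227b_nt.Mo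
open Pool.Agent.MP_67227b_nt.Sg Pool.Agent.MP_67227b_nt.Pp
open Pool.Agent.MP_67227b_nt.Mo.MomentBAux (DP)

namespace XPEventAux

theorem h_bdd {h : ℝ → ℂ} (hh : Cut h) : ∃ A : ℝ, 0 < A ∧ ∀ v, ‖h v‖ ≤ A := by
  obtain ⟨C, hC⟩ := (isCompact_Icc (a := (-1 : ℝ)) (b := 1)).exists_bound_of_continuousOn
    hh.bump.smooth.continuous.continuousOn
  refine ⟨|C| + 1, by positivity, fun v => ?_⟩
  by_cases hv : |v| ≤ 1
  · have h1 := hC v (abs_le.1 hv)
    have h2 := le_abs_self C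
    linarith
  · rw [hh.bump.supp v (not_le.1 hv), norm_zero]
    positivity

theorem sw_real (T t x : ℝ) : sw T t (x : ℂ) = pl (1 / 2 + x / Real.log T) t := by
  unfold sw pl
  push_cast
  ring

/-- Dirichlet polynomial -/
noncomputable def DPo (N : ℕ) (c : ℕ → ℂ) (s : ℂ) : ℂ :=
  ∑ m ∈ Finset.Icc 1 N, c m * (m : ℂ) ^ (-s)

theorem sum_diff (S : Finset ℕ) (hS : ∀ n ∈ S, n ≠ 0) (c : ℕ → ℂ) :
    Differentiable ℂ fun s : ℂ => ∑ m ∈ S, c m * (m : ℂ) ^ (-s) := by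
  apply Differentiable.fun_sum
  intro m hm
  have h0 : (m : ℂ) ≠ 0 := by exact_mod_cast hS m hm
  exact (differentiable_neg.const_cpow (Or.inl h0)).const_mul (c m)

theorem DPo_diff (N : ℕ) (c : ℕ → ℂ) : Differentiable ℂ (DPo N c) :=
  sum_diff _ (fun n hn => by have := (Finset.mem_Icc.1 hn).1; omega) c

theorem sw_diff (T t : ℝ) : Differentiable ℂ fun w : ℂ => sw T t w := by
  unfold sw
  fun_prop

theorem sw_cont_t (T : ℝ) (w : ℂ) : Continuous fun t : ℝ => sw T t w := by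
  unfold sw
  fun_prop

/-- Cauchy-Schwarz -/
theorem cs {F : ℝ → ℝ} {A B c T : ℝ} (hAB : A ≤ B) (hBT : B - A ≤ T) (hc : 0 < c)
    (hF : Continuous F) (h : ∫ t in A..B, F t ^ 2 ≤ c ^ 2 * T) : ∫ t in A..B, F t ≤ c * T := by
  have h1 : ∫ t in A..B, F t ≤ ∫ t in A..B, (1 / (2 * c) * F t ^ 2 + c / 2) := by
    apply intervalIntegral.integral_mono_on hAB (hF.intervalIntegrable _ _)
    · apply Continuous.intervalIntegrable
      fun_prop
    · intro t _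
      have h2 : 1 / (2 * c) * F t ^ 2 + c / 2 - F t = 1 / (2 * c) * (F t - c) ^ 2 := by
        field_simp
        ring
      have h3 : 0 ≤ 1 / (2 * c) * (F t - c) ^ 2 := by positivity
      linarith
  have h2 : ∫ t in A..B, (1 / (2 * c) * F t ^ 2 + c / 2) =
      1 / (2 * c) * (∫ t in A..B, F t ^ 2) + c / 2 * (B - A) := by
    rw [intervalIntegral.integral_add, intervalIntegral.integral_const_mul,
      intervalIntegral.integral_const, smul_eq_mul, mul_comm (B - A)]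
    · apply Continuous.intervalIntegrable
      fun_prop
    · exact intervalIntegrable_const
  rw [h2] at h1
  calc ∫ t in A..B, F t ≤ 1 / (2 * c) * (∫ t in A..B, F t ^ 2) + c / 2 * (B - A) := h1
    _ ≤ 1 / (2 * c) * (c ^ 2 * T) + c / 2 * T := by gcongr
    _ = c * T := by field_simp; ring

/-- the mean value inequality on a small box inside a large one -/
theorem sup_box {f : ℂ → ℂ} (hf : Differentiable ℂ f) {x0 R : ℝ} {w : ℂ}
    (hre : |w.re - x0| ≤ 1) (him : |w.im| ≤ R) :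
    ‖f w‖ ≤ 16 * ∫ x in (x0 - 3 / 2)..(x0 + 3 / 2), ∫ y in (-(R + 1 / 2))..(R + 1 / 2),
      ‖f (x + y * I)‖ := by
  have h1 := sub_mean (f := f) (z := w) (ρ := 1 / 2) (by norm_num) hf.differentiableOn
  have e1 : (4 : ℝ) / (1 / 2) ^ 2 = 16 := by norm_num
  rw [e1] at h1
  have hre' := abs_le.1 hre
  have him' := abs_le.1 him
  have hc2 : Continuous (Function.uncurry fun x y : ℝ => ‖f ((x : ℂ) + (y : ℂ) * I)‖) := by
    have : Continuous fun q : ℝ × ℝ => ‖f ((q.1 : ℂ) + (q.2 : ℂ) * I)‖ := by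
      have h2 := hf.continuous
      fun_prop
    exact this
  have hcx : ∀ x : ℝ, Continuous fun y : ℝ => ‖f ((x : ℂ) + (y : ℂ) * I)‖ := fun x => by
    have h2 := hf.continuous
    fun_prop
  refine h1.trans (mul_le_mul_of_nonneg_left ?_ (by norm_num))
  have hpar : ∀ a b : ℝ, Continuous fun x : ℝ => ∫ y in a..b, ‖f ((x : ℂ) + (y : ℂ) * I)‖ :=
    fun a b => intervalIntegral.continuous_parametric_intervalIntegral_of_continuous' hc2 a b
  have hstep1 : ∫ x in (w.re - 1 / 2)..(w.re + 1 / 2), ∫ y in (w.im - 1 / 2)..(w.im + 1 / 2),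
      ‖f (x + y * I)‖ ≤ ∫ x in (w.re - 1 / 2)..(w.re + 1 / 2),
        ∫ y in (-(R + 1 / 2))..(R + 1 / 2), ‖f (x + y * I)‖ := by
    apply intervalIntegral.integral_mono_on (by linarith)
    · exact (hpar _ _).intervalIntegrable _ _
    · exact (hpar _ _).intervalIntegrable _ _
    · intro x _
      apply intervalIntegral.integral_mono_interval (by linarith) (by linarith) (by linarith)
      · exact Eventually.of_forall fun y => norm_nonneg _
      · exact (hcx x).intervalIntegrable _ _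
  refine hstep1.trans ?_
  apply intervalIntegral.integral_mono_interval (by linarith) (by linarith) (by linarith)
  · refine Eventually.of_forall fun x => ?_
    exact intervalIntegral.integral_nonneg (by linarith) fun y _ => norm_nonneg _
  · exact (hpar _ _).intervalIntegrable _ _

/-- from mean squares on lines to the supremum over a box -/
theorem sup_event {G : ℂ → ℂ} (hG : Differentiable ℂ G) {T x0 R c τ : ℝ} (hT : 1 < T)
    (hR : 0 < R) (hc : 0 < c) (hτ : 0 < τ) (hRT : (R + 1 / 2) / Real.log T ≤ T / 4)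
    (hM : ∀ x ∈ Icc (x0 - 3 / 2) (x0 + 3 / 2),
      ∫ t in (T / 4)..(4 * T), ‖G (sw T t (x : ℝ))‖ ^ 2 ≤ c ^ 2 * (4 * T)) :
    volume.real {t ∈ Icc (T / 2) T | ¬ ∀ w : ℂ, |w.re - x0| ≤ 1 → |w.im| ≤ R →
      ‖G (sw T t w)‖ ≤ τ} ≤ 384 * (R + 1 / 2) * c / τ * T := by
  have hT0 : 0 < T := by linarith
  have hRY : 0 < R + 1 / 2 := by linarith
  have h1 := box_markov (F := fun s => ‖G s‖) (T := T) (A := T / 4) (B := 4 * T)
    (x₁ := x0 - 3 / 2) (x₂ := x0 + 3 / 2) (Y := R + 1 / 2) (M := c * (4 * T)) (lam := τ / 16) hT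
    (by linarith) hRY.le (by positivity) (by positivity) (by linarith)
    hG.continuous.norm.continuousOn (fun s => norm_nonneg _) (by
      intro x hx
      apply cs (by linarith) (by linarith) hc
      · exact (hG.continuous.comp (sw_cont_t T x)).norm
      · exact hM x hx)
  have h2 : {t ∈ Icc (T / 2) T | ¬ ∀ w : ℂ, |w.re - x0| ≤ 1 → |w.im| ≤ R →
      ‖G (sw T t w)‖ ≤ τ} ⊆ {t ∈ Icc (T / 4 + (R + 1 / 2) / Real.log T)
        (4 * T - (R + 1 / 2) / Real.log T) | τ / 16 < ∫ x in (x0 - 3 / 2)..(x0 + 3 / 2),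
          ∫ y in (-(R + 1 / 2))..(R + 1 / 2), ‖G (sw T t ((x : ℂ) + (y : ℂ) * I))‖} := by
    rintro t ⟨⟨ht1, ht2⟩, hnot⟩
    refine ⟨⟨by linarith, by linarith⟩, ?_⟩
    by_contra hcon
    apply hnot
    intro w hre him
    have h3 := sup_box (f := fun w => G (sw T t w)) (hG.comp (sw_diff T t)) hre him
    refine h3.trans ?_
    have h4 := not_lt.1 hcon
    linarith
  have h3 : volume {t ∈ Icc (T / 4 + (R + 1 / 2) / Real.log T)
        (4 * T - (R + 1 / 2) / Real.log T) | τ / 16 < ∫ x in (x0 - 3 / 2)..(x0 + 3 / 2),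
          ∫ y in (-(R + 1 / 2))..(R + 1 / 2), ‖G (sw T t ((x : ℂ) + (y : ℂ) * I))‖} ≠ ⊤ := by
    refine ne_of_lt (lt_of_le_of_lt (measure_mono (fun t ht => ht.1)) ?_)
    rw [Real.volume_Icc]
    exact ENNReal.ofReal_lt_top
  refine (measureReal_mono h2 h3).trans (h1.trans (le_of_eq ?_))
  field_simp
  ring

/-- the coefficients -/
noncomputable def bb (h : ℝ → ℂ) (θ T : ℝ) (n : ℕ) : ℂ :=
  ((Λ n / Real.log n : ℝ) : ℂ) * h (Real.log n / (2 * θ * Real.log T))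

noncomputable def cbig (h : ℝ → ℂ) (θ T : ℝ) (n : ℕ) : ℂ :=
  if n.Prime ∧ ⌊T ^ θ⌋₊ < n then bb h θ T n else 0

noncomputable def cxp (δ T : ℝ) (n : ℕ) : ℂ :=
  if n.Prime ∧ ⌊T ^ δ⌋₊ < n then 1 else 0

theorem DPo_eq (b : ℕ → ℂ) (M N : ℕ) (s : ℂ) :
    DPo N (fun n => if n.Prime ∧ M < n then b n else 0) s =
      ∑ p ∈ (Finset.Ioc M N).filter Nat.Prime, b p * (p : ℂ) ^ (-s) := by
  unfold DPo
  have h1 : (Finset.Ioc M N).filter Nat.Prime ⊆ Finset.Icc 1 N := by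
    intro p hp
    rw [Finset.mem_filter, Finset.mem_Ioc] at hp
    rw [Finset.mem_Icc]
    exact ⟨hp.2.pos, hp.1.2⟩
  rw [← Finset.sum_subset h1]
  · apply Finset.sum_congr rfl
    intro p hp
    rw [Finset.mem_filter, Finset.mem_Ioc] at hp
    show (if p.Prime ∧ M < p then b p else 0) * (p : ℂ) ^ (-s) = b p * (p : ℂ) ^ (-s)
    rw [if_pos ⟨hp.2, hp.1.1⟩]
  · intro p hp hp2
    rw [Finset.mem_Icc] at hp
    rw [Finset.mem_filter, Finset.mem_Ioc] at hp2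
    show (if p.Prime ∧ M < p then b p else 0) * (p : ℂ) ^ (-s) = 0
    rw [if_neg, zero_mul]
    rintro ⟨h3, h4⟩
    exact hp2 ⟨⟨h4, hp.2⟩, h3⟩

theorem XP_eq (δ θ T : ℝ) (s : ℂ) : XP δ θ T s = DPo ⌊T ^ θ⌋₊ (cxp δ T) s := by
  unfold XP cxp
  rw [DPo_eq (fun _ => 1)]
  apply Finset.sum_congr rfl
  intro p _
  rw [one_mul]

theorem decomp {h : ℝ → ℂ} (hh : Cut h) {θ δ T : ℝ} (hδ : 0 < δ) (hδθ : δ ≤ θ) (hT : 1 < T)
    (s : ℂ) : XX h (2 * θ) δ T s - XP δ θ T s =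
      (∑ n ∈ (Finset.Ioc ⌊T ^ δ⌋₊ ⌊T ^ (2 * θ)⌋₊).filter (fun n => ¬ n.Prime),
        bb h θ T n * (n : ℂ) ^ (-s)) + DPo ⌊T ^ (2 * θ)⌋₊ (cbig h θ T) s := by
  have hθ : 0 < θ := lt_of_lt_of_le hδ hδθ
  have hL : 0 < Real.log T := Real.log_pos hT
  have hN12 : ⌊T ^ δ⌋₊ ≤ ⌊T ^ θ⌋₊ := Nat.floor_mono (Real.rpow_le_rpow_of_exponent_le hT.le hδθ)
  have hN23 : ⌊T ^ θ⌋₊ ≤ ⌊T ^ (2 * θ)⌋₊ :=
    Nat.floor_mono (Real.rpow_le_rpow_of_exponent_le hT.le (by linarith))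
  have e1 : XX h (2 * θ) δ T s = ∑ n ∈ Finset.Ioc ⌊T ^ δ⌋₊ ⌊T ^ (2 * θ)⌋₊,
      bb h θ T n * (n : ℂ) ^ (-s) := XX_eq hh hδ (by linarith) hT s
  have e2 : DPo ⌊T ^ (2 * θ)⌋₊ (cbig h θ T) s =
      ∑ p ∈ (Finset.Ioc ⌊T ^ θ⌋₊ ⌊T ^ (2 * θ)⌋₊).filter Nat.Prime,
        bb h θ T p * (p : ℂ) ^ (-s) := DPo_eq (bb h θ T) _ _ s
  have e3 : ∑ n ∈ Finset.Ioc ⌊T ^ δ⌋₊ ⌊T ^ (2 * θ)⌋₊, bb h θ T n * (n : ℂ) ^ (-s) =
      (∑ n ∈ (Finset.Ioc ⌊T ^ δ⌋₊ ⌊T ^ (2 * θ)⌋₊).filter Nat.Prime,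
        bb h θ T n * (n : ℂ) ^ (-s)) +
      ∑ n ∈ (Finset.Ioc ⌊T ^ δ⌋₊ ⌊T ^ (2 * θ)⌋₊).filter (fun n => ¬ n.Prime),
        bb h θ T n * (n : ℂ) ^ (-s) := (Finset.sum_filter_add_sum_filter_not _ _ _).symm
  have e4 : ∑ n ∈ (Finset.Ioc ⌊T ^ δ⌋₊ ⌊T ^ (2 * θ)⌋₊).filter Nat.Prime,
        bb h θ T n * (n : ℂ) ^ (-s) =
      (∑ n ∈ (Finset.Ioc ⌊T ^ δ⌋₊ ⌊T ^ θ⌋₊).filter Nat.Prime, bb h θ T n * (n : ℂ) ^ (-s)) +
      ∑ n ∈ (Finset.Ioc ⌊T ^ θ⌋₊ ⌊T ^ (2 * θ)⌋₊).filter Nat.Prime,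
        bb h θ T n * (n : ℂ) ^ (-s) := by
    rw [← Finset.sum_union]
    · congr 1
      rw [← Finset.filter_union]
      congr 1
      ext n
      simp only [Finset.mem_union, Finset.mem_Ioc]
      omega
    · apply Finset.disjoint_filter_filter
      rw [Finset.disjoint_left]
      intro n hn hn2
      rw [Finset.mem_Ioc] at hn hn2
      omega
  have e5 : ∑ n ∈ (Finset.Ioc ⌊T ^ δ⌋₊ ⌊T ^ θ⌋₊).filter Nat.Prime, bb h θ T n * (n : ℂ) ^ (-s) =
      XP δ θ T s := by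
    unfold XP
    apply Finset.sum_congr rfl
    intro p hp
    rw [Finset.mem_filter, Finset.mem_Ioc] at hp
    have hlp : 0 < Real.log (p : ℝ) := Real.log_pos (by exact_mod_cast hp.2.one_lt)
    have hp0 : (0 : ℝ) < p := by exact_mod_cast hp.2.pos
    have hpT : (p : ℝ) ≤ T ^ θ := (Nat.le_floor_iff (by positivity)).1 hp.1.2
    have hlpT : Real.log (p : ℝ) ≤ θ * Real.log T := by
      rw [← Real.log_rpow (by linarith)]
      exact Real.log_le_log hp0 hpT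
    have h1 : bb h θ T p = 1 := by
      unfold bb
      rw [ArithmeticFunction.vonMangoldt_apply_prime hp.2, div_self hlp.ne', hh.one, mul_one]
      · norm_num
      · rw [abs_of_nonneg (by positivity), div_le_iff₀ (by positivity)]
        linarith
    rw [h1, one_mul]
  rw [e1, e3, e4, e5, e2]
  ring

/-- the mean square of the primes in `(T^θ, T^(2θ)]` far to the right -/
theorem big_mean {h : ℝ → ℂ} {A θ T : ℝ} (hA : ∀ v, ‖h v‖ ≤ A) (hA0 : 0 < A) (hT : 1 < T)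
    (hθ : 0 < θ) (hmv : ∀ (N : ℕ) (c : ℕ → ℂ) (σ A B : ℝ), (N : ℝ) ≤ T ^ (1 / 2 : ℝ) → A ≤ B →
      B - A ≤ 4 * T → ∫ t in A..B, ‖∑ m ∈ Finset.Icc 1 N, c m * (m : ℂ) ^ (-(pl σ t))‖ ^ 2 ≤
      5 * T * ∑ m ∈ Finset.Icc 1 N, ‖c m‖ ^ 2 * (m : ℝ) ^ (-2 * σ)) (hθ2 : 2 * θ ≤ 1 / 2)
    (hinv : ∑ p ∈ (Finset.Ioc ⌊T ^ θ⌋₊ ⌊T ^ (2 * θ)⌋₊).filter Nat.Prime, (1 : ℝ) / p ≤ 2)
    {x : ℝ} (hx : 0 ≤ x) :
    ∫ t in (T / 4)..(4 * T), ‖DPo ⌊T ^ (2 * θ)⌋₊ (cbig h θ T) (sw T t x)‖ ^ 2 ≤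
      10 * A ^ 2 * Real.exp (-(2 * x * θ)) * T := by
  have hL : 0 < Real.log T := Real.log_pos hT
  have hT0 : 0 < T := by linarith
  have hN : ((⌊T ^ (2 * θ)⌋₊ : ℕ) : ℝ) ≤ T ^ (1 / 2 : ℝ) :=
    (Nat.floor_le (by positivity)).trans (Real.rpow_le_rpow_of_exponent_le hT.le hθ2)
  have h1 := hmv ⌊T ^ (2 * θ)⌋₊ (cbig h θ T) (1 / 2 + x / Real.log T) (T / 4) (4 * T) hN
    (by linarith) (by linarith)
  have h2 : ∫ t in (T / 4)..(4 * T), ‖DPo ⌊T ^ (2 * θ)⌋₊ (cbig h θ T) (sw T t x)‖ ^ 2 =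
      ∫ t in (T / 4)..(4 * T), ‖∑ m ∈ Finset.Icc 1 ⌊T ^ (2 * θ)⌋₊, cbig h θ T m *
        (m : ℂ) ^ (-(pl (1 / 2 + x / Real.log T) t))‖ ^ 2 := by
    apply intervalIntegral.integral_congr
    intro t _
    show ‖DPo ⌊T ^ (2 * θ)⌋₊ (cbig h θ T) (sw T t x)‖ ^ 2 = _
    rw [sw_real]
    rfl
  rw [h2]
  refine h1.trans ?_
  have h3 : ∑ m ∈ Finset.Icc 1 ⌊T ^ (2 * θ)⌋₊, ‖cbig h θ T m‖ ^ 2 *
      (m : ℝ) ^ (-2 * (1 / 2 + x / Real.log T)) ≤
      ∑ p ∈ (Finset.Ioc ⌊T ^ θ⌋₊ ⌊T ^ (2 * θ)⌋₊).filter Nat.Prime,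
        A ^ 2 * Real.exp (-(2 * x * θ)) * ((1 : ℝ) / p) := by
    have h4 : (Finset.Ioc ⌊T ^ θ⌋₊ ⌊T ^ (2 * θ)⌋₊).filter Nat.Prime ⊆
        Finset.Icc 1 ⌊T ^ (2 * θ)⌋₊ := by
      intro p hp
      rw [Finset.mem_filter, Finset.mem_Ioc] at hp
      rw [Finset.mem_Icc]
      exact ⟨hp.2.pos, hp.1.2⟩
    rw [← Finset.sum_subset h4]
    · apply Finset.sum_le_sum
      intro p hp
      rw [Finset.mem_filter, Finset.mem_Ioc] at hp
      have hp0 : (0 : ℝ) < p := by exact_mod_cast hp.2.pos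
      have hlp : 0 < Real.log (p : ℝ) := Real.log_pos (by exact_mod_cast hp.2.one_lt)
      have hpT : T ^ θ ≤ (p : ℝ) := (Nat.lt_of_floor_lt hp.1.1).le
      have hlpT : θ * Real.log T ≤ Real.log (p : ℝ) := by
        rw [← Real.log_rpow hT0]
        exact Real.log_le_log (by positivity) hpT
      have h5 : ‖cbig h θ T p‖ ≤ A := by
        unfold cbig
        rw [if_pos ⟨hp.2, hp.1.1⟩]
        unfold bb
        rw [ArithmeticFunction.vonMangoldt_apply_prime hp.2, div_self hlp.ne']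
        norm_num
        exact hA _
      have h6 : (p : ℝ) ^ (-2 * (1 / 2 + x / Real.log T)) ≤
          Real.exp (-(2 * x * θ)) * ((1 : ℝ) / p) := by
        have h7 : (1 : ℝ) / p = Real.exp (-Real.log p) := by
          rw [Real.exp_neg, Real.exp_log hp0, one_div]
        rw [Real.rpow_def_of_pos hp0, h7, ← Real.exp_add]
        apply Real.exp_le_exp.2
        have h8 : x * θ ≤ x / Real.log T * Real.log p := by
          rw [div_mul_eq_mul_div, le_div_iff₀ hL]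
          nlinarith
        nlinarith
      calc ‖cbig h θ T p‖ ^ 2 * (p : ℝ) ^ (-2 * (1 / 2 + x / Real.log T))
          ≤ A ^ 2 * (Real.exp (-(2 * x * θ)) * ((1 : ℝ) / p)) := by
            apply mul_le_mul (pow_le_pow_left₀ (norm_nonneg _) h5 2) h6 (by positivity)
              (by positivity)
        _ = A ^ 2 * Real.exp (-(2 * x * θ)) * ((1 : ℝ) / p) := by ring
    · intro p hp hp2
      rw [Finset.mem_Icc] at hp
      rw [Finset.mem_filter, Finset.mem_Ioc] at hp2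
      have h5 : cbig h θ T p = 0 := by
        unfold cbig
        rw [if_neg]
        rintro ⟨h3, h4⟩
        exact hp2 ⟨⟨h4, hp.2⟩, h3⟩
      rw [h5, norm_zero]
      ring
  rw [← Finset.mul_sum] at h3
  calc 5 * T * ∑ m ∈ Finset.Icc 1 ⌊T ^ (2 * θ)⌋₊, ‖cbig h θ T m‖ ^ 2 *
      (m : ℝ) ^ (-2 * (1 / 2 + x / Real.log T))
      ≤ 5 * T * (A ^ 2 * Real.exp (-(2 * x * θ)) * 2) := by
        apply mul_le_mul_of_nonneg_left (h3.trans _) (by positivity)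
        gcongr
    _ = 10 * A ^ 2 * Real.exp (-(2 * x * θ)) * T := by ring

/-- the mean square of the sum over the primes -/
theorem xp_mean {δ θ T K : ℝ} (hT : 1 < T)
    (hmv : ∀ (N : ℕ) (c : ℕ → ℂ) (σ A B : ℝ), (N : ℝ) ≤ T ^ (1 / 2 : ℝ) → A ≤ B →
      B - A ≤ 4 * T → ∫ t in A..B, ‖∑ m ∈ Finset.Icc 1 N, c m * (m : ℂ) ^ (-(pl σ t))‖ ^ 2 ≤
      5 * T * ∑ m ∈ Finset.Icc 1 N, ‖c m‖ ^ 2 * (m : ℝ) ^ (-2 * σ)) (hθ2 : θ ≤ 1 / 2)
    (hinv : ∑ p ∈ (Finset.Ioc ⌊T ^ δ⌋₊ ⌊T ^ θ⌋₊).filter Nat.Prime, (1 : ℝ) / p ≤ K)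
    {x : ℝ} (hx : 0 ≤ x) :
    ∫ t in (T / 4)..(4 * T), ‖XP δ θ T (sw T t x)‖ ^ 2 ≤ 5 * K * T := by
  have hL : 0 < Real.log T := Real.log_pos hT
  have hT0 : 0 < T := by linarith
  have hN : ((⌊T ^ θ⌋₊ : ℕ) : ℝ) ≤ T ^ (1 / 2 : ℝ) :=
    (Nat.floor_le (by positivity)).trans (Real.rpow_le_rpow_of_exponent_le hT.le hθ2)
  have h1 := hmv ⌊T ^ θ⌋₊ (cxp δ T) (1 / 2 + x / Real.log T) (T / 4) (4 * T) hN
    (by linarith) (by linarith)
  have h2 : ∫ t in (T / 4)..(4 * T), ‖XP δ θ T (sw T t x)‖ ^ 2 =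
      ∫ t in (T / 4)..(4 * T), ‖∑ m ∈ Finset.Icc 1 ⌊T ^ θ⌋₊, cxp δ T m *
        (m : ℂ) ^ (-(pl (1 / 2 + x / Real.log T) t))‖ ^ 2 := by
    apply intervalIntegral.integral_congr
    intro t _
    show ‖XP δ θ T (sw T t x)‖ ^ 2 = _
    rw [XP_eq, sw_real]
    rfl
  rw [h2]
  refine h1.trans ?_
  have h3 : ∑ m ∈ Finset.Icc 1 ⌊T ^ θ⌋₊, ‖cxp δ T m‖ ^ 2 *
      (m : ℝ) ^ (-2 * (1 / 2 + x / Real.log T)) ≤
      ∑ p ∈ (Finset.Ioc ⌊T ^ δ⌋₊ ⌊T ^ θ⌋₊).filter Nat.Prime, ((1 : ℝ) / p) := by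
    have h4 : (Finset.Ioc ⌊T ^ δ⌋₊ ⌊T ^ θ⌋₊).filter Nat.Prime ⊆ Finset.Icc 1 ⌊T ^ θ⌋₊ := by
      intro p hp
      rw [Finset.mem_filter, Finset.mem_Ioc] at hp
      rw [Finset.mem_Icc]
      exact ⟨hp.2.pos, hp.1.2⟩
    rw [← Finset.sum_subset h4]
    · apply Finset.sum_le_sum
      intro p hp
      rw [Finset.mem_filter, Finset.mem_Ioc] at hp
      have hp0 : (0 : ℝ) < p := by exact_mod_cast hp.2.pos
      have hlp : 0 < Real.log (p : ℝ) := Real.log_pos (by exact_mod_cast hp.2.one_lt)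
      have h5 : cxp δ T p = 1 := by
        unfold cxp
        rw [if_pos ⟨hp.2, hp.1.1⟩]
      have h7 : (1 : ℝ) / p = Real.exp (-Real.log p) := by
        rw [Real.exp_neg, Real.exp_log hp0, one_div]
      rw [h5, norm_one, one_pow, one_mul, Real.rpow_def_of_pos hp0, h7]
      apply Real.exp_le_exp.2
      have h8 : 0 ≤ x / Real.log T * Real.log p := by positivity
      nlinarith
    · intro p hp hp2
      rw [Finset.mem_Icc] at hp
      rw [Finset.mem_filter, Finset.mem_Ioc] at hp2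
      have h5 : cxp δ T p = 0 := by
        unfold cxp
        rw [if_neg]
        rintro ⟨h3, h4⟩
        exact hp2 ⟨⟨h4, hp.2⟩, h3⟩
      rw [h5, norm_zero]
      ring
  calc 5 * T * ∑ m ∈ Finset.Icc 1 ⌊T ^ θ⌋₊, ‖cxp δ T m‖ ^ 2 *
      (m : ℝ) ^ (-2 * (1 / 2 + x / Real.log T))
      ≤ 5 * T * K := mul_le_mul_of_nonneg_left (h3.trans hinv) (by positivity)
    _ = 5 * K * T := by ring

end XPEventAux

open XPEventAux in
/-- MODULE FARE1. Far to the right the smoothed sum is the sum over primes, and both are of size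
at most `k^12`. `δ = e^{-k^12}`, `θ = 1/(100 k^12)`: `XX h (2θ) δ - XP δ θ` consists of prime powers
(`powers_small`) and of the `T^θ < n ≤ T^{2θ}`, whose mean square at `x ≥ k^36 - 2` is at most
`C e^{-2xθ}`. Mean squares over the box `|Re w - k^36| ≤ 3/2`, `|Im w| ≤ R`, `sub_mean`;
`∫ ‖XP‖² ≤ C (1 + k^12) T` gives `P(sup ‖XP‖ > k^12) ≤ C_R k^{-12}`. -/
theorem XP_event {h : ℝ → ℂ} (hh : Cut h) {ε τ R : ℝ} (hε : 0 < ε) (hτ : 0 < τ) (hR : 0 < R) :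
    ∃ k₀ : ℕ, 1 ≤ k₀ ∧ ∀ k : ℕ, k₀ ≤ k → ∀ᶠ T : ℝ in atTop,
      volume.real {t ∈ Icc (T / 2) T | ¬ ∀ w : ℂ, |w.re - (k : ℝ) ^ 36| ≤ 1 → |w.im| ≤ R →
        ‖XX h (2 * (1 / (100 * (k : ℝ) ^ 12))) (Real.exp (-(k : ℝ) ^ 12)) T (sw T t w) -
          XP (Real.exp (-(k : ℝ) ^ 12)) (1 / (100 * (k : ℝ) ^ 12)) T (sw T t w)‖ ≤ τ ∧
        ‖XP (Real.exp (-(k : ℝ) ^ 12)) (1 / (100 * (k : ℝ) ^ 12)) T (sw T t w)‖ ≤
          (k : ℝ) ^ 12} ≤ ε * T := by
  obtain ⟨A, hA0, hA⟩ := h_bdd hh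
  have hY : 0 < R + 1 / 2 := by linarith
  -- thresholds
  obtain ⟨c1, hc1, hc1e⟩ : ∃ c1 : ℝ, 0 < c1 ∧ 384 * (R + 1 / 2) * c1 / τ = ε / 2 :=
    ⟨ε * τ / (768 * (R + 1 / 2)), by positivity, by field_simp; ring⟩
  have hlim : Tendsto (fun k : ℕ => 20 * A ^ 2 * Real.exp (-((k : ℝ) / 100))) atTop (𝓝 0) := by
    have h1 : Tendsto (fun k : ℕ => (k : ℝ) / 100) atTop atTop :=
      tendsto_natCast_atTop_atTop.atTop_div_const (by norm_num)
    have h2 := (Real.tendsto_exp_neg_atTop_nhds_zero.comp h1).const_mul (20 * A ^ 2)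
    rw [mul_zero] at h2
    exact h2
  have hk1 : ∀ᶠ k : ℕ in atTop, 20 * A ^ 2 * Real.exp (-((k : ℝ) / 100)) < c1 ^ 2 :=
    hlim.eventually_lt_const (by positivity)
  have hk2 : ∀ᶠ k : ℕ in atTop, 1536 * (R + 1 / 2) / ε ≤ (k : ℝ) :=
    tendsto_natCast_atTop_atTop.eventually_ge_atTop _
  obtain ⟨k1, hk⟩ := eventually_atTop.1 (hk1.and hk2)
  refine ⟨max k1 2, le_max_of_le_right (by norm_num), fun k hkk => ?_⟩
  obtain ⟨hkA, hkB⟩ := hk k ((le_max_left _ _).trans hkk)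
  have hk2 : 2 ≤ k := (le_max_right _ _).trans hkk
  have hkr : (2 : ℝ) ≤ k := by exact_mod_cast hk2
  have hk1' : (1 : ℝ) ≤ k := by linarith
  have hk0 : (0 : ℝ) < k := by linarith
  -- powers of `k`
  have hp12 : (4096 : ℝ) ≤ (k : ℝ) ^ 12 := by
    calc (4096 : ℝ) = 2 ^ 12 := by norm_num
      _ ≤ (k : ℝ) ^ 12 := by gcongr
  have hp12p : (0 : ℝ) < (k : ℝ) ^ 12 := by positivity
  have hp24 : (k : ℝ) ≤ (k : ℝ) ^ 24 := by
    calc (k : ℝ) = (k : ℝ) ^ 1 := (pow_one _).symm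
      _ ≤ (k : ℝ) ^ 24 := pow_le_pow_right₀ hk1' (by norm_num)
  have hp6 : (k : ℝ) ≤ (k : ℝ) ^ 6 := by
    calc (k : ℝ) = (k : ℝ) ^ 1 := (pow_one _).symm
      _ ≤ (k : ℝ) ^ 6 := pow_le_pow_right₀ hk1' (by norm_num)
  have hp36 : (4096 : ℝ) ≤ (k : ℝ) ^ 36 := by
    calc (4096 : ℝ) ≤ (k : ℝ) ^ 12 := hp12
      _ ≤ (k : ℝ) ^ 36 := pow_le_pow_right₀ hk1' (by norm_num)
  set θ : ℝ := 1 / (100 * (k : ℝ) ^ 12) with hθ
  set δ : ℝ := Real.exp (-(k : ℝ) ^ 12) with hδ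
  have hθ0 : 0 < θ := by positivity
  have hδ0 : 0 < δ := Real.exp_pos _
  have hθ1 : 2 * θ ≤ 1 / 2 := by
    rw [hθ, mul_one_div, div_le_div_iff₀ (by positivity) (by norm_num)]
    linarith
  have hδθ : δ ≤ θ := by
    rw [hδ, hθ, Real.exp_neg, ← one_div]
    apply one_div_le_one_div_of_le (by positivity)
    have h1 := Real.quadratic_le_exp_of_nonneg hp12p.le
    nlinarith
  have hlogr : Real.log (θ / δ) ≤ (k : ℝ) ^ 12 := by
    rw [Real.log_div hθ0.ne' hδ0.ne', hδ, Real.log_exp]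
    have h1 : Real.log θ ≤ 0 := Real.log_nonpos hθ0.le (by linarith)
    linarith
  have hxk : ∀ x ∈ Icc ((k : ℝ) ^ 36 - 3 / 2) ((k : ℝ) ^ 36 + 3 / 2), 0 ≤ x ∧
      20 * A ^ 2 * Real.exp (-(2 * x * θ)) ≤ c1 ^ 2 := by
    intro x hx
    refine ⟨by linarith [hx.1], ?_⟩
    refine le_trans ?_ hkA.le
    apply mul_le_mul_of_nonneg_left _ (by positivity)
    apply Real.exp_le_exp.2
    apply neg_le_neg
    have h1 : (k : ℝ) ^ 36 / 2 ≤ x := by linarith [hx.1]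
    have h2 : 2 * ((k : ℝ) ^ 36 / 2) * θ = (k : ℝ) ^ 24 / 100 := by
      rw [hθ]
      field_simp
    calc (k : ℝ) / 100 ≤ (k : ℝ) ^ 24 / 100 := by gcongr
      _ = 2 * ((k : ℝ) ^ 36 / 2) * θ := h2.symm
      _ ≤ 2 * x * θ := by gcongr
  -- large `T`
  have hT1 := mv_line (κ := 1 / 2) (by norm_num) (by norm_num)
  have hT2 := sum_inv_prime (a₀ := θ) (ε := 1) hθ0 one_pos
  have hT3 := sum_inv_prime (a₀ := δ) (ε := 1) hδ0 one_pos
  have hT4 := powers_small (δ := δ) (θ := 2 * θ) (A := A) (ε := c1 ^ 2) 1 le_rfl hδ0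
    (by positivity) hθ1 hA0 (by positivity)
  have hT5 : ∀ᶠ T : ℝ in atTop, 1 ≤ Real.log T :=
    Real.tendsto_log_atTop.eventually_ge_atTop 1
  filter_upwards [hT1, hT2, hT3, hT4, hT5, eventually_gt_atTop (1 : ℝ),
    eventually_ge_atTop (4 * (R + 1 / 2))] with T hmv hi1 hi2 hpow hlog hTgt hTR
  have hT0 : 0 < T := by linarith
  have hRT : (R + 1 / 2) / Real.log T ≤ T / 4 := by
    rw [div_le_iff₀ (by linarith)]
    nlinarith
  have hlog2 : Real.log 2 ≤ 1 := by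
    have := Real.log_two_lt_d9
    linarith
  have hinv1 : ∑ p ∈ (Finset.Ioc ⌊T ^ θ⌋₊ ⌊T ^ (2 * θ)⌋₊).filter Nat.Prime, (1 : ℝ) / p ≤ 2 := by
    have h1 := (abs_le.1 (hi1 θ (2 * θ) le_rfl (by linarith) (by linarith))).2
    have h2 : 2 * θ / θ = 2 := by field_simp
    rw [h2] at h1
    linarith
  have hinv2 : ∑ p ∈ (Finset.Ioc ⌊T ^ δ⌋₊ ⌊T ^ θ⌋₊).filter Nat.Prime, (1 : ℝ) / p ≤
      (k : ℝ) ^ 12 + 1 := by
    have h1 := (abs_le.1 (hi2 δ θ le_rfl hδθ (by linarith))).2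
    linarith
  -- first event
  have hdec : ∀ s, XX h (2 * θ) δ T s - XP δ θ T s =
      (∑ n ∈ (Finset.Ioc ⌊T ^ δ⌋₊ ⌊T ^ (2 * θ)⌋₊).filter (fun n => ¬ n.Prime),
        bb h θ T n * (n : ℂ) ^ (-s)) + DPo ⌊T ^ (2 * θ)⌋₊ (cbig h θ T) s :=
    fun s => decomp hh hδ0 hδθ hTgt s
  have hdpow : Differentiable ℂ fun s : ℂ =>
      ∑ n ∈ (Finset.Ioc ⌊T ^ δ⌋₊ ⌊T ^ (2 * θ)⌋₊).filter (fun n => ¬ n.Prime),
        bb h θ T n * (n : ℂ) ^ (-s) := by
    apply sum_diff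
    intro n hn
    have := (Finset.mem_Ioc.1 (Finset.mem_filter.1 hn).1).1
    omega
  have hG1 : Differentiable ℂ fun s => XX h (2 * θ) δ T s - XP δ θ T s := by
    have h1 : (fun s => XX h (2 * θ) δ T s - XP δ θ T s) = fun s =>
        (∑ n ∈ (Finset.Ioc ⌊T ^ δ⌋₊ ⌊T ^ (2 * θ)⌋₊).filter (fun n => ¬ n.Prime),
        bb h θ T n * (n : ℂ) ^ (-s)) + DPo ⌊T ^ (2 * θ)⌋₊ (cbig h θ T) s := funext hdec
    rw [h1]
    exact hdpow.fun_add (DPo_diff _ _)
  have hG2 : Differentiable ℂ (XP δ θ T) := by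
    have h1 : XP δ θ T = DPo ⌊T ^ θ⌋₊ (cxp δ T) := funext fun s => XP_eq δ θ T s
    rw [h1]
    exact DPo_diff _ _
  have hbb : ∀ n, ‖bb h θ T n‖ ≤ A * (Λ n / Real.log n) := by
    intro n
    have h1 : 0 ≤ Λ n / Real.log n := by
      apply div_nonneg ArithmeticFunction.vonMangoldt_nonneg
      exact Real.log_natCast_nonneg n
    unfold bb
    rw [norm_mul, Complex.norm_real, Real.norm_of_nonneg h1, mul_comm]
    exact mul_le_mul_of_nonneg_right (hA _) h1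
  have ev1 := sup_event (G := fun s => XX h (2 * θ) δ T s - XP δ θ T s) hG1 (x0 := (k : ℝ) ^ 36)
    (R := R) (c := c1) (τ := τ) hTgt hR hc1 hτ hRT (by
      intro x hx
      obtain ⟨hx0, hxe⟩ := hxk x hx
      have p1 := hpow (bb h θ T) x hx0 hbb
      rw [mul_one] at p1
      have p2 := big_mean hA hA0 hTgt hθ0 hmv hθ1 hinv1 hx0
      have hcp : Continuous fun t : ℝ =>
          ∑ n ∈ (Finset.Ioc ⌊T ^ δ⌋₊ ⌊T ^ (2 * θ)⌋₊).filter (fun n => ¬ n.Prime),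
            bb h θ T n * (n : ℂ) ^ (-(sw T t x)) := hdpow.continuous.comp (sw_cont_t T x)
      have hcd : Continuous fun t : ℝ => DPo ⌊T ^ (2 * θ)⌋₊ (cbig h θ T) (sw T t x) :=
        (DPo_diff _ _).continuous.comp (sw_cont_t T x)
      have p3 : ∫ t in (T / 4)..(4 * T), ‖XX h (2 * θ) δ T (sw T t x) -
          XP δ θ T (sw T t x)‖ ^ 2 ≤ ∫ t in (T / 4)..(4 * T),
          (2 * ‖∑ n ∈ (Finset.Ioc ⌊T ^ δ⌋₊ ⌊T ^ (2 * θ)⌋₊).filter (fun n => ¬ n.Prime),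
            bb h θ T n * (n : ℂ) ^ (-(sw T t x))‖ ^ 2 +
            2 * ‖DPo ⌊T ^ (2 * θ)⌋₊ (cbig h θ T) (sw T t x)‖ ^ 2) := by
        apply intervalIntegral.integral_mono_on (by linarith)
        · apply Continuous.intervalIntegrable
          exact ((hG1.continuous.comp (sw_cont_t T x)).norm).pow 2
        · apply Continuous.intervalIntegrable
          exact ((hcp.norm.pow 2).const_mul 2).add ((hcd.norm.pow 2).const_mul 2)
        · intro t _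
          rw [hdec]
          have h1 := norm_add_le (∑ n ∈ (Finset.Ioc ⌊T ^ δ⌋₊ ⌊T ^ (2 * θ)⌋₊).filter
            (fun n => ¬ n.Prime), bb h θ T n * (n : ℂ) ^ (-(sw T t x)))
            (DPo ⌊T ^ (2 * θ)⌋₊ (cbig h θ T) (sw T t x))
          have h2 := pow_le_pow_left₀ (norm_nonneg _) h1 2
          refine h2.trans ?_
          nlinarith [sq_nonneg (‖∑ n ∈ (Finset.Ioc ⌊T ^ δ⌋₊ ⌊T ^ (2 * θ)⌋₊).filter
            (fun n => ¬ n.Prime), bb h θ T n * (n : ℂ) ^ (-(sw T t x))‖ -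
            ‖DPo ⌊T ^ (2 * θ)⌋₊ (cbig h θ T) (sw T t x)‖)]
      have i1 : IntervalIntegrable (fun t : ℝ =>
          2 * ‖∑ n ∈ (Finset.Ioc ⌊T ^ δ⌋₊ ⌊T ^ (2 * θ)⌋₊).filter (fun n => ¬ n.Prime),
            bb h θ T n * (n : ℂ) ^ (-(sw T t x))‖ ^ 2) volume (T / 4) (4 * T) := by
        apply Continuous.intervalIntegrable
        exact (hcp.norm.pow 2).const_mul 2
      have i2 : IntervalIntegrable (fun t : ℝ =>
          2 * ‖DPo ⌊T ^ (2 * θ)⌋₊ (cbig h θ T) (sw T t x)‖ ^ 2) volume (T / 4) (4 * T) := by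
        apply Continuous.intervalIntegrable
        exact (hcd.norm.pow 2).const_mul 2
      rw [intervalIntegral.integral_add i1 i2,
        intervalIntegral.integral_const_mul, intervalIntegral.integral_const_mul] at p3
      have p4 := mul_le_mul_of_nonneg_right hxe hT0.le
      refine p3.trans ?_
      nlinarith)
  have ev2 := sup_event (G := XP δ θ T) hG2 (x0 := (k : ℝ) ^ 36) (R := R) (c := 2 * (k : ℝ) ^ 6)
    (τ := (k : ℝ) ^ 12) hTgt hR (by positivity) hp12p hRT (by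
      intro x hx
      have p1 := xp_mean (θ := θ) hTgt hmv (by linarith) hinv2 (hxk x hx).1
      refine p1.trans ?_
      have h1 : (2 * (k : ℝ) ^ 6) ^ 2 * (4 * T) = 16 * (k : ℝ) ^ 12 * T := by ring
      rw [h1]
      apply mul_le_mul_of_nonneg_right _ hT0.le
      linarith)
  rw [hc1e] at ev1
  have h2c : 384 * (R + 1 / 2) * (2 * (k : ℝ) ^ 6) / (k : ℝ) ^ 12 ≤ ε / 2 := by
    rw [div_le_iff₀ hp12p]
    rw [div_le_iff₀ hε] at hkB
    have h1 : (k : ℝ) ^ 12 = (k : ℝ) ^ 6 * (k : ℝ) ^ 6 := by ring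
    have h2 : 1536 * (R + 1 / 2) ≤ (k : ℝ) ^ 6 * ε := hkB.trans (by gcongr)
    have h3 : 0 < (k : ℝ) ^ 6 := by positivity
    rw [h1]
    nlinarith
  have ev2' : volume.real {t ∈ Icc (T / 2) T | ¬ ∀ w : ℂ, |w.re - (k : ℝ) ^ 36| ≤ 1 →
      |w.im| ≤ R → ‖XP δ θ T (sw T t w)‖ ≤ (k : ℝ) ^ 12} ≤ ε / 2 * T :=
    ev2.trans (mul_le_mul_of_nonneg_right h2c hT0.le)
  have hfin : volume ({t ∈ Icc (T / 2) T | ¬ ∀ w : ℂ, |w.re - (k : ℝ) ^ 36| ≤ 1 →
      |w.im| ≤ R → ‖XX h (2 * θ) δ T (sw T t w) - XP δ θ T (sw T t w)‖ ≤ τ} ∪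
      {t ∈ Icc (T / 2) T | ¬ ∀ w : ℂ, |w.re - (k : ℝ) ^ 36| ≤ 1 →
      |w.im| ≤ R → ‖XP δ θ T (sw T t w)‖ ≤ (k : ℝ) ^ 12}) ≠ ⊤ := by
    refine ne_of_lt (lt_of_le_of_lt (measure_mono (t := Icc (T / 2) T) ?_) ?_)
    · apply union_subset <;> exact fun t ht => ht.1
    · rw [Real.volume_Icc]
      exact ENNReal.ofReal_lt_top
  refine (measureReal_mono ?_ hfin).trans ((measureReal_union_le _ _).trans
    ((add_le_add ev1 ev2').trans (le_of_eq (by ring))))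
  rintro t ⟨ht, hnot⟩
  by_contra hcon
  simp only [mem_union, mem_ofPred_eq, not_or, not_and, not_not] at hcon
  exact hnot fun w hre him => ⟨hcon.1 ht w hre him, hcon.2 ht w hre him⟩


private theorem far_sw (T t x v : ℝ) :
    sw T t ((x : ℂ) + (v : ℂ) * I) = sw T (t + v / Real.log T) x := by
  unfold sw
  push_cast
  ring

private theorem far_sw_im (T t : ℝ) (w : ℂ) : (sw T t w).im = t + w.im / Real.log T := by
  unfold sw
  rw [Complex.add_im, Complex.add_im, Complex.div_ofReal_im]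
  simp

private theorem far_poly (S : Finset ℕ) (hS : ∀ n ∈ S, n ≠ 0) (c : ℕ → ℂ) :
    Differentiable ℂ (fun s : ℂ => ∑ n ∈ S, c n * (n : ℂ) ^ (-s)) := by
  refine Differentiable.fun_sum fun n hn => ?_
  refine Differentiable.const_mul ?_ _
  intro s
  exact DifferentiableAt.const_cpow differentiableAt_id.neg
    (Or.inl (Nat.cast_ne_zero.2 (hS n hn)))

private theorem far_Am (δ : ℝ) (n : ℕ) (T : ℝ) : Differentiable ℂ (Am δ n T) := by
  unfold Am Aa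
  exact far_poly _ (fun n hn => by have := (Finset.mem_Icc.1 hn).1; omega)
    (fun n => ((am δ _ T n : ℝ) : ℂ))

private theorem far_Bs (δ T : ℝ) : Differentiable ℂ (Bs δ T) := by
  unfold Bs
  exact far_poly _ (fun n hn => by have := (Finset.mem_Ioc.1 hn).1; omega)
    (fun n => ((Λ n / Real.log n : ℝ) : ℂ))

private theorem far_XP (δ θ T : ℝ) : Differentiable ℂ (XP δ θ T) := by
  have h := far_poly ((Finset.Ioc ⌊T ^ δ⌋₊ ⌊T ^ θ⌋₊).filter Nat.Prime)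
    (fun n hn => (Finset.mem_filter.1 hn).2.ne_zero) (fun _ => 1)
  have e : XP δ θ T = fun s : ℂ => ∑ p ∈ (Finset.Ioc ⌊T ^ δ⌋₊ ⌊T ^ θ⌋₊).filter Nat.Prime,
      (1 : ℂ) * (p : ℂ) ^ (-s) := by
    funext s
    simp only [XP, one_mul]
  rw [e]
  exact h

private theorem far_EK (δ θ T : ℝ) (K : ℕ) : Differentiable ℂ (EK δ θ T K) := by
  unfold EK
  refine Differentiable.fun_sum fun k _ => ?_
  exact ((far_XP δ θ T).neg.pow k).div_const _

private theorem far_tail {z : ℂ} {N : ℕ} (hz : ‖z‖ ≤ N) :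
    ‖Complex.exp z - ∑ j ∈ Finset.range (11 * N + 1), z ^ j / (j.factorial : ℂ)‖ ≤
      2 * Real.exp (-(11 * (N : ℝ))) := by
  have h1 : ‖z‖ / ((11 * N + 1).succ : ℕ) ≤ 1 / 2 := by
    rw [div_le_iff₀ (by positivity)]
    push_cast
    nlinarith [Nat.cast_nonneg (α := ℝ) N]
  have h2 := Complex.exp_bound' (x := z) (n := 11 * N + 1) h1
  refine h2.trans ?_
  have h3 : (11 * (N : ℝ)) ^ (11 * N + 1) / ((11 * N + 1).factorial : ℝ) ≤
      Real.exp (11 * (N : ℝ)) := Real.pow_div_factorial_le_exp _ (by positivity) _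
  have h4 : ‖z‖ ^ (11 * N + 1) ≤ (N : ℝ) ^ (11 * N + 1) :=
    pow_le_pow_left₀ (norm_nonneg _) hz _
  have h5 : (N : ℝ) ^ (11 * N + 1) = (11 * (N : ℝ)) ^ (11 * N + 1) * (1 / 11) ^ (11 * N + 1) := by
    rw [← mul_pow]
    congr 1
    ring
  have h6 : (1 / 11 : ℝ) ^ (11 * N + 1) ≤ Real.exp (-(22 * (N : ℝ))) := by
    have e1 : (1 / 11 : ℝ) ≤ Real.exp (-2) := by
      rw [Real.exp_neg, one_div]
      apply inv_anti₀ (Real.exp_pos _)
      have e2 := Real.exp_one_lt_d9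
      have e3 : Real.exp 2 = Real.exp 1 * Real.exp 1 := by rw [← Real.exp_add]; norm_num
      rw [e3]
      nlinarith [Real.exp_pos 1]
    calc (1 / 11 : ℝ) ^ (11 * N + 1) ≤ Real.exp (-2) ^ (11 * N + 1) :=
          pow_le_pow_left₀ (by norm_num) e1 _
      _ = Real.exp ((11 * N + 1 : ℕ) * (-2)) := by rw [Real.exp_nat_mul]
      _ ≤ Real.exp (-(22 * (N : ℝ))) := by
          apply Real.exp_le_exp.2
          push_cast
          linarith
  have hf : (0 : ℝ) < ((11 * N + 1).factorial : ℝ) := by positivity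
  calc ‖z‖ ^ (11 * N + 1) / ((11 * N + 1).factorial : ℝ) * 2
      ≤ (N : ℝ) ^ (11 * N + 1) / ((11 * N + 1).factorial : ℝ) * 2 := by gcongr
    _ = (11 * (N : ℝ)) ^ (11 * N + 1) / ((11 * N + 1).factorial : ℝ) *
          (1 / 11) ^ (11 * N + 1) * 2 := by rw [h5]; ring
    _ ≤ Real.exp (11 * (N : ℝ)) * Real.exp (-(22 * (N : ℝ))) * 2 := by gcongr
    _ = 2 * Real.exp (-(11 * (N : ℝ))) := by
        rw [← Real.exp_add]
        ring_nf

private theorem far_point {xx xp e am : ℂ} {N : ℕ} {τ : ℝ} (hτ : τ ≤ 1 / 4)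
    (h1 : ‖xx - xp‖ ≤ τ) (h2 : ‖xp‖ ≤ N) (h3 : ‖e‖ ≤ τ) :
    ‖Complex.exp (xx + e) * am - 1‖ ≤
      Real.exp (4 * (N : ℝ) + 1) / 2 *
        ‖am - ∑ j ∈ Finset.range (11 * N + 1), (-xp) ^ j / (j.factorial : ℂ)‖ ^ 2 +
      (Real.exp (1 - 2 * (N : ℝ)) / 2 + 2 * Real.exp (1 - 10 * (N : ℝ)) + 4 * τ) := by
  set S := ∑ j ∈ Finset.range (11 * N + 1), (-xp) ^ j / (j.factorial : ℂ) with hS
  have hτ0 : 0 ≤ τ := (norm_nonneg _).trans h3
  have e1 : Complex.exp (xx + e) * am - 1 = Complex.exp (xx + e) * (am - S) +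
      Complex.exp (xx + e) * (S - Complex.exp (-xp)) + (Complex.exp (xx - xp + e) - 1) := by
    have : Complex.exp (xx - xp + e) = Complex.exp (xx + e) * Complex.exp (-xp) := by
      rw [← Complex.exp_add]
      congr 1
      ring
    rw [this]
    ring
  have e2 : ‖Complex.exp (xx + e)‖ ≤ Real.exp ((N : ℝ) + 1) := by
    refine (Complex.norm_exp_le_exp_norm _).trans (Real.exp_le_exp.2 ?_)
    have : xx + e = (xx - xp) + xp + e := by ring
    rw [this]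
    have i1 := norm_add_le ((xx - xp) + xp) e
    have i2 := norm_add_le (xx - xp) xp
    linarith
  have e3 : ‖S - Complex.exp (-xp)‖ ≤ 2 * Real.exp (-(11 * (N : ℝ))) := by
    rw [norm_sub_rev]
    exact far_tail (by rwa [norm_neg])
  have e4 : ‖xx - xp + e‖ ≤ 2 * τ := by
    have := norm_add_le (xx - xp) e
    linarith
  have e5 : ‖Complex.exp (xx - xp + e) - 1‖ ≤ 4 * τ := by
    have := Complex.norm_exp_sub_one_le (x := xx - xp + e) (by linarith)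
    linarith
  have e6 : ‖Complex.exp (xx + e) * (S - Complex.exp (-xp))‖ ≤ 2 * Real.exp (1 - 10 * (N : ℝ)) := by
    rw [norm_mul]
    calc ‖Complex.exp (xx + e)‖ * ‖S - Complex.exp (-xp)‖
        ≤ Real.exp ((N : ℝ) + 1) * (2 * Real.exp (-(11 * (N : ℝ)))) := by gcongr
      _ = 2 * (Real.exp ((N : ℝ) + 1) * Real.exp (-(11 * (N : ℝ)))) := by ring
      _ = 2 * Real.exp (1 - 10 * (N : ℝ)) := by
          rw [← Real.exp_add]
          ring_nf
  have e7 : ‖Complex.exp (xx + e) * (am - S)‖ ≤ Real.exp (4 * (N : ℝ) + 1) / 2 * ‖am - S‖ ^ 2 +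
      Real.exp (1 - 2 * (N : ℝ)) / 2 := by
    rw [norm_mul]
    set D := ‖am - S‖ with hD
    have hD0 : 0 ≤ D := norm_nonneg _
    have i1 : D ≤ Real.exp (-(3 * (N : ℝ))) / 2 + Real.exp (3 * (N : ℝ)) / 2 * D ^ 2 := by
      have j1 : Real.exp (-(3 * (N : ℝ))) * Real.exp (3 * (N : ℝ)) = 1 := by
        rw [← Real.exp_add]; simp
      have j2 := sq_nonneg (Real.exp (3 * (N : ℝ)) * D - 1)
      have j3 := Real.exp_pos (-(3 * (N : ℝ)))
      have j4 : 0 ≤ Real.exp (-(3 * (N : ℝ))) * (Real.exp (3 * (N : ℝ)) * D - 1) ^ 2 := by positivity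
      have j5 : Real.exp (-(3 * (N : ℝ))) * (Real.exp (3 * (N : ℝ)) * D - 1) ^ 2 =
          (Real.exp (-(3 * (N : ℝ))) * Real.exp (3 * (N : ℝ))) * Real.exp (3 * (N : ℝ)) * D ^ 2 -
          2 * (Real.exp (-(3 * (N : ℝ))) * Real.exp (3 * (N : ℝ))) * D +
          Real.exp (-(3 * (N : ℝ))) := by ring
      rw [j5, j1] at j4
      linarith
    calc ‖Complex.exp (xx + e)‖ * D ≤ Real.exp ((N : ℝ) + 1) *
          (Real.exp (-(3 * (N : ℝ))) / 2 + Real.exp (3 * (N : ℝ)) / 2 * D ^ 2) := by gcongr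
      _ = (Real.exp ((N : ℝ) + 1) * Real.exp (3 * (N : ℝ))) / 2 * D ^ 2 +
          (Real.exp ((N : ℝ) + 1) * Real.exp (-(3 * (N : ℝ)))) / 2 := by ring
      _ = Real.exp (4 * (N : ℝ) + 1) / 2 * D ^ 2 + Real.exp (1 - 2 * (N : ℝ)) / 2 := by
          rw [← Real.exp_add, ← Real.exp_add]
          ring_nf
  rw [e1]
  have i1 := norm_add_le (Complex.exp (xx + e) * (am - S) +
      Complex.exp (xx + e) * (S - Complex.exp (-xp))) (Complex.exp (xx - xp + e) - 1)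
  have i2 := norm_add_le (Complex.exp (xx + e) * (am - S))
    (Complex.exp (xx + e) * (S - Complex.exp (-xp)))
  linarith

private theorem far_core {h : ℝ → ℂ} {T t R τ δ θ θ2 X0 : ℝ} {n N : ℕ} (hL : 0 < Real.log T)
    (hR : 0 < R) (hτ : τ ≤ 1 / 4)
    (hXP : ∀ w : ℂ, |w.re - X0| ≤ 1 → |w.im| ≤ R + 1 →
      ‖XX h θ2 δ T (sw T t w) - XP δ θ T (sw T t w)‖ ≤ τ ∧ ‖XP δ θ T (sw T t w)‖ ≤ N)
    (hz : ∀ w : ℂ, |w.re - X0| ≤ 1 → |w.im| ≤ R + 1 → ∃ e : ℂ,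
      riemannZeta (sw T t w) = Complex.exp (PB h θ2 T (sw T t w) + e) ∧ ‖e‖ ≤ τ)
    (hbox : ∫ x in (X0 - 1)..(X0 + 1), ∫ y in (-(R + 1))..(R + 1),
      ‖Am δ n T (sw T t ((x : ℂ) + (y : ℂ) * I)) -
        EK δ θ T (11 * N) (sw T t ((x : ℂ) + (y : ℂ) * I))‖ ^ 2 ≤ Real.exp (-(7 * (N : ℝ))))
    (him : (R + 1) / Real.log T < t) {y : ℝ} (hy : |y| ≤ R) :
    ‖Dd δ T (sw T t ((X0 : ℂ) + (y : ℂ) * I)) * Am δ n T (sw T t ((X0 : ℂ) + (y : ℂ) * I)) - 1‖ ≤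
      42 * Real.exp (1 - 2 * (N : ℝ)) + 64 * τ := by
  set f : ℂ → ℂ := fun w => Dd δ T (sw T t w) * Am δ n T (sw T t w) - 1 with hf
  set D : ℂ → ℝ := fun w => ‖Am δ n T (sw T t w) - EK δ θ T (11 * N) (sw T t w)‖ ^ 2 with hD
  have hsw : Differentiable ℂ (fun w : ℂ => sw T t w) := by
    unfold sw
    exact (differentiable_const _).add (differentiable_id.div_const _)
  have hDc : Continuous D := by
    have h1 := (far_Am δ n T).continuous.comp hsw.continuous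
    have h2 := (far_EK δ θ T (11 * N)).continuous.comp hsw.continuous
    exact (h1.sub h2).norm.pow 2
  have hD0 : ∀ w, 0 ≤ D w := fun w => by positivity
  set a : ℝ := Real.exp (4 * (N : ℝ) + 1) / 2 with ha
  set c : ℝ := Real.exp (1 - 2 * (N : ℝ)) / 2 + 2 * Real.exp (1 - 10 * (N : ℝ)) + 4 * τ with hc
  have hτ0 : 0 ≤ τ := by
    have h1 := (hXP (X0 : ℂ) (by simp) (by simp; linarith)).1
    exact (norm_nonneg _).trans h1
  have ha0 : 0 ≤ a := by positivity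
  have hc0 : 0 ≤ c := by positivity
  -- pointwise
  have hpt : ∀ w : ℂ, |w.re - X0| ≤ 1 → |w.im| ≤ R + 1 → ‖f w‖ ≤ a * D w + c := by
    intro w h1 h2
    obtain ⟨e, he1, he2⟩ := hz w h1 h2
    obtain ⟨h3, h4⟩ := hXP w h1 h2
    have h5 : Dd δ T (sw T t w) = Complex.exp (XX h θ2 δ T (sw T t w) + e) := by
      unfold Dd XX
      rw [he1, ← Complex.exp_add]
      congr 1
      ring
    have h6 := far_point (am := Am δ n T (sw T t w)) hτ h3 h4 he2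
    show ‖Dd δ T (sw T t w) * Am δ n T (sw T t w) - 1‖ ≤ _
    rw [h5]
    exact h6
  have hy2 := abs_le.1 hy
  have hdiff : DifferentiableOn ℂ f
      (Icc (X0 - 1) (X0 + 1) ×ℂ Icc (y - 1) (y + 1)) := by
    intro w hw
    rw [Complex.mem_reProdIm] at hw
    apply DifferentiableAt.differentiableWithinAt
    have h1 : sw T t w ≠ 1 := by
      intro h2
      have h3 := congrArg Complex.im h2
      rw [far_sw_im, Complex.one_im] at h3
      have h4 : -(R + 1) ≤ w.im := by linarith [hw.2.1]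
      have h5 : -(R + 1) / Real.log T ≤ w.im / Real.log T :=
        div_le_div_of_nonneg_right h4 hL.le
      rw [neg_div] at h5
      linarith
    have h2 : DifferentiableAt ℂ (fun w => riemannZeta (sw T t w)) w :=
      (differentiableAt_riemannZeta h1).comp w (hsw w)
    have h3 : DifferentiableAt ℂ (fun w => Complex.exp (-(Bs δ T (sw T t w)))) w :=
      (((far_Bs δ T).comp hsw).neg.cexp) w
    have h4 : DifferentiableAt ℂ (fun w => Am δ n T (sw T t w)) w := ((far_Am δ n T).comp hsw) w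
    exact ((h2.mul h3).mul h4).sub_const 1
  have hsm := sub_mean (f := f) (z := (X0 : ℂ) + (y : ℂ) * I) (ρ := 1) one_pos (by
    simpa using hdiff)
  have hre : ((X0 : ℂ) + (y : ℂ) * I).re = X0 := by simp
  have him' : ((X0 : ℂ) + (y : ℂ) * I).im = y := by simp
  rw [hre, him'] at hsm
  -- inner integrals
  have hDy : ∀ x : ℝ, Continuous fun v : ℝ => D ((x : ℂ) + (v : ℂ) * I) := fun x =>
    hDc.comp (by fun_prop)
  have hin : ∀ x ∈ Icc (X0 - 1) (X0 + 1), ∫ v in (y - 1)..(y + 1), ‖f ((x : ℂ) + (v : ℂ) * I)‖ ≤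
      a * (∫ v in (-(R + 1))..(R + 1), D ((x : ℂ) + (v : ℂ) * I)) + 2 * c := by
    intro x hx
    have hx' : |x - X0| ≤ 1 := abs_le.2 ⟨by linarith [hx.1], by linarith [hx.2]⟩
    have h1 : ∫ v in (y - 1)..(y + 1), ‖f ((x : ℂ) + (v : ℂ) * I)‖ ≤
        ∫ v in (y - 1)..(y + 1), (a * D ((x : ℂ) + (v : ℂ) * I) + c) := by
      refine intervalIntegral.integral_mono_on (by linarith) ?_ ?_ ?_
      · apply ContinuousOn.intervalIntegrable
        rw [uIcc_of_le (by linarith)]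
        refine (hdiff.continuousOn.comp (f := fun v : ℝ => (x : ℂ) + (v : ℂ) * I)
          (by fun_prop) ?_).norm
        intro v hv
        rw [Complex.mem_reProdIm]
        have r1 : ((x : ℂ) + (v : ℂ) * I).re = x := by simp
        have r2 : ((x : ℂ) + (v : ℂ) * I).im = v := by simp
        rw [r1, r2]
        exact ⟨hx, hv⟩
      · exact (((hDy x).const_mul a).add continuous_const).intervalIntegrable _ _
      · intro v hv
        refine hpt _ (by simpa using hx') ?_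
        have : ((x : ℂ) + (v : ℂ) * I).im = v := by simp
        rw [this]
        exact abs_le.2 ⟨by linarith [hv.1], by linarith [hv.2]⟩
    refine h1.trans ?_
    rw [intervalIntegral.integral_add (((hDy x).const_mul a).intervalIntegrable _ _)
      (continuous_const.intervalIntegrable _ _), intervalIntegral.integral_const_mul,
      intervalIntegral.integral_const]
    have h2 : ∫ v in (y - 1)..(y + 1), D ((x : ℂ) + (v : ℂ) * I) ≤
        ∫ v in (-(R + 1))..(R + 1), D ((x : ℂ) + (v : ℂ) * I) := by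
      refine intervalIntegral.integral_mono_interval (by linarith) (by linarith) (by linarith) ?_
        ((hDy x).intervalIntegrable _ _)
      exact Filter.Eventually.of_forall fun v => hD0 _
    have h3 : (y + 1 - (y - 1)) • c = 2 * c := by
      rw [smul_eq_mul]
      ring
    rw [h3]
    gcongr
  have hJ : Continuous fun x : ℝ => ∫ v in (-(R + 1))..(R + 1), D ((x : ℂ) + (v : ℂ) * I) := by
    apply intervalIntegral.continuous_parametric_intervalIntegral_of_continuous'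
    show Continuous fun p : ℝ × ℝ => D ((p.1 : ℂ) + (p.2 : ℂ) * I)
    exact hDc.comp (by fun_prop)
  have hout : ∫ x in (X0 - 1)..(X0 + 1), ∫ v in (y - 1)..(y + 1), ‖f ((x : ℂ) + (v : ℂ) * I)‖ ≤
      ∫ x in (X0 - 1)..(X0 + 1),
        (a * (∫ v in (-(R + 1))..(R + 1), D ((x : ℂ) + (v : ℂ) * I)) + 2 * c) := by
    rw [intervalIntegral.integral_of_le (by linarith), intervalIntegral.integral_of_le (by linarith)]
    refine MeasureTheory.integral_mono_of_nonneg ?_ ?_ ?_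
    · refine Filter.Eventually.of_forall fun x => ?_
      refine intervalIntegral.integral_nonneg (by linarith) fun v _ => norm_nonneg _
    · have h1 : Continuous fun x : ℝ =>
          a * (∫ v in (-(R + 1))..(R + 1), D ((x : ℂ) + (v : ℂ) * I)) + 2 * c :=
        (hJ.const_mul a).add continuous_const
      have h2 := h1.intervalIntegrable (μ := volume) (X0 - 1) (X0 + 1)
      rwa [intervalIntegrable_iff_integrableOn_Ioc_of_le (by linarith)] at h2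
    · refine (MeasureTheory.ae_restrict_iff' measurableSet_Ioc).2
        (Filter.Eventually.of_forall fun x hx => hin x ⟨hx.1.le, hx.2⟩)
  rw [intervalIntegral.integral_add ((hJ.const_mul a).intervalIntegrable _ _)
      (continuous_const.intervalIntegrable _ _), intervalIntegral.integral_const_mul,
      intervalIntegral.integral_const] at hout
  have h3 : (X0 + 1 - (X0 - 1)) • (2 * c) = 4 * c := by
    rw [smul_eq_mul]
    ring
  rw [h3] at hout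
  have h4 : a * (∫ x in (X0 - 1)..(X0 + 1), ∫ v in (-(R + 1))..(R + 1),
      D ((x : ℂ) + (v : ℂ) * I)) ≤ a * Real.exp (-(7 * (N : ℝ))) := by
    gcongr
  have h5 : a * Real.exp (-(7 * (N : ℝ))) = Real.exp (1 - 3 * (N : ℝ)) / 2 := by
    rw [ha, div_mul_eq_mul_div, ← Real.exp_add]
    ring_nf
  have h6 : Real.exp (1 - 3 * (N : ℝ)) ≤ Real.exp (1 - 2 * (N : ℝ)) :=
    Real.exp_le_exp.2 (by linarith [Nat.cast_nonneg (α := ℝ) N])
  have h7 : Real.exp (1 - 10 * (N : ℝ)) ≤ Real.exp (1 - 2 * (N : ℝ)) :=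
    Real.exp_le_exp.2 (by linarith [Nat.cast_nonneg (α := ℝ) N])
  have h8 : ‖f ((X0 : ℂ) + (y : ℂ) * I)‖ ≤ 4 * (Real.exp (1 - 3 * (N : ℝ)) / 2 + 4 * c) := by
    refine hsm.trans ?_
    rw [one_pow, div_one]
    linarith
  refine h8.trans ?_
  rw [hc]
  linarith

private theorem far_param (A B C ε τ₁ τ₂ : ℝ) (hC : 0 < C) (hε : 0 < ε) (h1 : 0 < τ₁)
    (h2 : 0 < τ₂) : ∀ᶠ k : ℕ in atTop, 1 ≤ k ∧ A ≤ k ∧ B * Real.exp (-(k : ℝ) ^ 12) ≤ ε ∧
      C / (2 * (1 / (100 * (k : ℝ) ^ 12))) ^ 2 *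
        Real.exp (-(2 * (1 / (100 * (k : ℝ) ^ 12)) * ((k : ℝ) ^ 36 - 1) / 2)) * k ≤ τ₁ ∧
      42 * Real.exp (1 - 2 * (k : ℝ) ^ 12) ≤ τ₂ := by
  have hcast : Tendsto (fun k : ℕ => (k : ℝ)) atTop atTop := tendsto_natCast_atTop_atTop
  have hpow : Tendsto (fun k : ℕ => (k : ℝ) ^ 12) atTop atTop :=
    (tendsto_pow_atTop (by norm_num)).comp hcast
  have t1 : Tendsto (fun k : ℕ => B * Real.exp (-(k : ℝ) ^ 12)) atTop (𝓝 0) := by
    have := (Real.tendsto_exp_neg_atTop_nhds_zero.comp hpow).const_mul B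
    simpa using this
  have t2 : Tendsto (fun k : ℕ => 42 * Real.exp (1 - 2 * (k : ℝ) ^ 12)) atTop (𝓝 0) := by
    have h3 : Tendsto (fun k : ℕ => 1 - 2 * (k : ℝ) ^ 12) atTop atBot := by
      have h4 : Tendsto (fun k : ℕ => 2 * (k : ℝ) ^ 12) atTop atTop :=
        hpow.const_mul_atTop (by norm_num)
      have h5 := tendsto_neg_atTop_atBot.comp h4
      have h6 := tendsto_atBot_add_const_left atTop (1 : ℝ) h5
      refine h6.congr fun k => ?_
      simp only [Function.comp_apply]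
      ring
    have := (Real.tendsto_exp_atBot.comp h3).const_mul 42
    simpa using this
  have t3 : Tendsto (fun k : ℕ => 2500 * C * Real.exp 1 * 100 ^ 25 *
      (((k : ℝ) / 100) ^ 25 * Real.exp (-((k : ℝ) / 100)))) atTop (𝓝 0) := by
    have h3 : Tendsto (fun k : ℕ => (k : ℝ) / 100) atTop atTop :=
      hcast.atTop_div_const (by norm_num)
    have := ((Real.tendsto_pow_mul_exp_neg_atTop_nhds_zero 25).comp h3).const_mul
      (2500 * C * Real.exp 1 * 100 ^ 25)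
    simpa using this
  filter_upwards [eventually_ge_atTop 1, hcast.eventually_ge_atTop A,
    t1.eventually_le_const hε, t2.eventually_le_const h2, t3.eventually_le_const h1]
    with k k1 k2 k3 k4 k5
  refine ⟨k1, k2, k3, ?_, k4⟩
  have hk : (1 : ℝ) ≤ k := by exact_mod_cast k1
  have hk0 : (0 : ℝ) < k := by linarith
  refine le_trans ?_ k5
  have e1 : C / (2 * (1 / (100 * (k : ℝ) ^ 12))) ^ 2 = 2500 * C * (k : ℝ) ^ 24 := by
    field_simp
    ring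
  have e2 : Real.exp (-(2 * (1 / (100 * (k : ℝ) ^ 12)) * ((k : ℝ) ^ 36 - 1) / 2)) ≤
      Real.exp 1 * Real.exp (-((k : ℝ) / 100)) := by
    rw [← Real.exp_add]
    apply Real.exp_le_exp.2
    have e3 : 2 * (1 / (100 * (k : ℝ) ^ 12)) * ((k : ℝ) ^ 36 - 1) / 2 =
        (k : ℝ) ^ 24 / 100 - 1 / (100 * (k : ℝ) ^ 12) := by
      field_simp
    rw [e3]
    have e4 : (k : ℝ) ≤ (k : ℝ) ^ 24 := le_self_pow₀ hk (by norm_num)
    have e5 : 1 / (100 * (k : ℝ) ^ 12) ≤ 1 := by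
      rw [div_le_one (by positivity)]
      have := one_le_pow₀ hk (n := 12)
      linarith
    linarith
  rw [e1]
  calc 2500 * C * (k : ℝ) ^ 24 *
        Real.exp (-(2 * (1 / (100 * (k : ℝ) ^ 12)) * ((k : ℝ) ^ 36 - 1) / 2)) * k
      ≤ 2500 * C * (k : ℝ) ^ 24 * (Real.exp 1 * Real.exp (-((k : ℝ) / 100))) * k := by gcongr
    _ = 2500 * C * Real.exp 1 * 100 ^ 25 *
      (((k : ℝ) / 100) ^ 25 * Real.exp (-((k : ℝ) / 100))) := by
        rw [div_pow]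
        field_simp

/-- MODULE FARE2. Far to the right `Dd · Am` is close to `1`. With `e` from `zeta_exp`
(`2θ = 1/(50 k^12) ≤ 1/4`, `V = k^36 + 2`): `Dd = exp (XX + e)`, `‖e‖ ≤ τ` (`M1_mom`: `Mk L 1 ≤ k` on the
window with high probability, and `(2θ)^{-2} e^{-θ k^36/2}` is tiny). On the box of `XP_event`
`Dd Am - 1 = e^{XX+e}(Am - EK) + e^{XX+e}(EK - e^{-XP}) + (e^{XX - XP + e} - 1)`,
`‖e^{XX+e}‖ ≤ e^{k^12 + 1}`, `‖EK - e^{-XP}‖ ≤ ‖XP‖^{K+1} e^{‖XP‖}/(K+1)! ≤ e^{-12 k^12}` (`K = 11 k^12`), the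
box integral of `‖Am - EK‖` is at most `e^{-3k^12}` outside a small set (`EK_mean`). So the box integral
of `‖Dd Am - 1‖` is small, and `sub_mean`. -/
theorem far_event (hRH : RiemannHypothesis) {ε τ R : ℝ} (hε : 0 < ε) (hτ : 0 < τ)
    (hR : 0 < R) : ∃ k₀ : ℕ, 1 ≤ k₀ ∧ ∀ k : ℕ, k₀ ≤ k → ∀ᶠ n : ℕ in atTop,
      ∀ᶠ T : ℝ in atTop, volume.real {t ∈ Icc (T / 2) T | ¬ ∀ y : ℝ, |y| ≤ R →
        ‖Dd (Real.exp (-(k : ℝ) ^ 12)) T (sw T t (((k : ℝ) : ℂ) ^ 36 + (y : ℂ) * I)) *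
          Am (Real.exp (-(k : ℝ) ^ 12)) n T (sw T t (((k : ℝ) : ℂ) ^ 36 + (y : ℂ) * I)) - 1‖ ≤
          τ} ≤ ε * T := by
  obtain ⟨h, hh⟩ := exists_cut
  obtain ⟨Cz, hCz, hz⟩ := zeta_exp hRH hh
  obtain ⟨Cm, hCm, hm⟩ := M1_mom hRH 1
  have hY0 : 0 < R + 1 := by linarith
  set Cs : ℝ := 2 + 2 * (R + 1) ^ 2 with hCs
  have hCs0 : 0 < Cs := by positivity
  set τ' : ℝ := min (1 / 4) (τ / 128) with hτ'
  have hτ'0 : 0 < τ' := lt_min (by norm_num) (by positivity)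
  have hτ'1 : τ' ≤ 1 / 4 := min_le_left _ _
  have hτ'2 : τ' ≤ τ / 128 := min_le_right _ _
  obtain ⟨k1, -, hk1⟩ := XP_event hh (ε := ε / 4) (τ := τ') (R := R + 1) (by positivity) hτ'0 hY0
  obtain ⟨k2, -, hk2⟩ := EK_mean
  obtain ⟨k3, hk3⟩ := eventually_atTop.1
    (far_param (max (4 * Cm * Cs / ε) 2) (4 * (R + 1)) Cz (ε / 4) (τ' / 2) (τ / 2) hCz (by positivity)
      (by positivity) (by positivity))
  refine ⟨max (max k1 k2) (max k3 1), le_max_of_le_right (le_max_right _ _), fun k hk => ?_⟩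
  have hkk1 : k1 ≤ k := (le_max_left _ _).trans ((le_max_left _ _).trans hk)
  have hkk2 : k2 ≤ k := (le_max_right _ _).trans ((le_max_left _ _).trans hk)
  have hkk3 : k3 ≤ k := (le_max_left _ _).trans ((le_max_right _ _).trans hk)
  obtain ⟨p1, p2', p3, p4, p5⟩ := hk3 k hkk3
  have p2 : 4 * Cm * Cs / ε ≤ k := (le_max_left _ _).trans p2'
  have hk2' : (2 : ℝ) ≤ k := (le_max_right _ _).trans p2'
  have hkR : (1 : ℝ) ≤ k := by exact_mod_cast p1
  have hk0 : (0 : ℝ) < k := by linarith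
  have hk12 : (1 : ℝ) ≤ (k : ℝ) ^ 12 := one_le_pow₀ hkR
  have hk36 : (2 : ℝ) ≤ (k : ℝ) ^ 36 := hk2'.trans (le_self_pow₀ hkR (by norm_num))
  have hθ0 : 0 < 2 * (1 / (100 * (k : ℝ) ^ 12)) := by positivity
  have hθ1 : 2 * (1 / (100 * (k : ℝ) ^ 12)) ≤ 1 / 4 := by
    rw [mul_one_div, div_le_iff₀ (by positivity)]
    linarith
  filter_upwards [hk2 k hkk2] with n hn
  filter_upwards [hn, hk1 k hkk1, hz _ ((k : ℝ) ^ 36 + 1) hθ0 hθ1 (by linarith), hm,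
    eventually_ge_atTop (max 3 (8 * (R + 1))),
    Real.tendsto_log_atTop.eventually_ge_atTop (max 1 (2 / τ'))] with T a1 a2 a3 a4 a5 a6
  have hT3 : 3 ≤ T := (le_max_left _ _).trans a5
  have hTY : 8 * (R + 1) ≤ T := (le_max_right _ _).trans a5
  have hL1 : 1 ≤ Real.log T := (le_max_left _ _).trans a6
  have hLτ : 2 / τ' ≤ Real.log T := (le_max_right _ _).trans a6
  have hL0 : 0 < Real.log T := by linarith
  have hT1 : 1 < T := by linarith
  have hYL : (R + 1) / Real.log T ≤ T / 8 := by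
    rw [div_le_iff₀ hL0]
    nlinarith
  have hYL0 : 0 < (R + 1) / Real.log T := by positivity
  have hLinv : 1 / Real.log T ≤ τ' / 2 := by
    rw [div_le_div_iff₀ hL0 (by norm_num)]
    rw [div_le_iff₀ hτ'0] at hLτ
    linarith
  -- the three bad sets
  set S1 : Set ℝ := {t ∈ Icc (T / 2) T | ¬ ∀ w : ℂ, |w.re - (k : ℝ) ^ 36| ≤ 1 → |w.im| ≤ R + 1 →
        ‖XX h (2 * (1 / (100 * (k : ℝ) ^ 12))) (Real.exp (-(k : ℝ) ^ 12)) T (sw T t w) -
          XP (Real.exp (-(k : ℝ) ^ 12)) (1 / (100 * (k : ℝ) ^ 12)) T (sw T t w)‖ ≤ τ' ∧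
        ‖XP (Real.exp (-(k : ℝ) ^ 12)) (1 / (100 * (k : ℝ) ^ 12)) T (sw T t w)‖ ≤
          (k : ℝ) ^ 12} with hS1
  set S2 : Set ℝ := {t ∈ Icc (T / 2) (3 * T) | (k : ℝ) / Cs < Mk (Real.log T) 1 t} with hS2
  set F : ℂ → ℝ := fun s => ‖Am (Real.exp (-(k : ℝ) ^ 12)) n T s -
    EK (Real.exp (-(k : ℝ) ^ 12)) (1 / (100 * (k : ℝ) ^ 12)) T (11 * k ^ 12) s‖ ^ 2 with hF
  set S3 : Set ℝ := {t ∈ Icc (T / 4 + (R + 1) / Real.log T) (4 * T - (R + 1) / Real.log T) |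
    Real.exp (-(7 * (k : ℝ) ^ 12)) < ∫ x in ((k : ℝ) ^ 36 - 1)..((k : ℝ) ^ 36 + 1),
      ∫ y in (-(R + 1))..(R + 1), F (sw T t ((x : ℂ) + (y : ℂ) * I))} with hS3
  have hFc : Continuous F := by
    rw [hF]
    exact ((far_Am _ n T).continuous.sub (far_EK _ _ T _).continuous).norm.pow 2
  have v1 : volume.real S1 ≤ ε / 4 * T := a2
  have v2 : volume.real S2 ≤ ε / 4 * T := by
    have i1 := markov_int (F := fun t => Mk (Real.log T) 1 t) (A := T / 2) (B := 3 * T)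
      (lam := (k : ℝ) / Cs) (by linarith) (by positivity)
      (continuous_Mk hRH hL0 one_pos).continuousOn (fun t _ => Mk_nonneg _ _ _)
    refine i1.trans ?_
    have i2 : ∫ t in (T / 2)..(3 * T), Mk (Real.log T) 1 t ≤ Cm * T := by
      simpa using a4
    rw [div_le_iff₀ (by positivity)]
    refine i2.trans ?_
    have i3 : ε / 4 * T * ((k : ℝ) / Cs) = (ε * k / (4 * Cs)) * T := by
      field_simp
    rw [i3]
    refine mul_le_mul_of_nonneg_right ?_ (by linarith)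
    rw [le_div_iff₀ (by positivity)]
    rw [div_le_iff₀ hε] at p2
    linarith
  have v3 : volume.real S3 ≤ ε / 4 * T := by
    have i1 := box_markov (F := F) (T := T) (A := T / 4) (B := 4 * T) (x₁ := (k : ℝ) ^ 36 - 1)
      (x₂ := (k : ℝ) ^ 36 + 1) (Y := R + 1) (M := Real.exp (-(8 * (k : ℝ) ^ 12)) * T)
      (lam := Real.exp (-(7 * (k : ℝ) ^ 12))) hT1 (by linarith) hY0.le (Real.exp_pos _)
      (by positivity) (by linarith) hFc.continuousOn (fun s => by positivity) (fun x hx =>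
        a1 x (by linarith [hx.1]) (by linarith [hx.2]))
    refine i1.trans ?_
    have i2 : 2 * (R + 1) * ((k : ℝ) ^ 36 + 1 - ((k : ℝ) ^ 36 - 1)) *
        (Real.exp (-(8 * (k : ℝ) ^ 12)) * T) / Real.exp (-(7 * (k : ℝ) ^ 12)) =
        4 * (R + 1) * (Real.exp (-(8 * (k : ℝ) ^ 12)) / Real.exp (-(7 * (k : ℝ) ^ 12))) * T := by
      field_simp
      ring
    rw [i2, ← Real.exp_sub]
    have i3 : -(8 * (k : ℝ) ^ 12) - -(7 * (k : ℝ) ^ 12) = -(k : ℝ) ^ 12 := by ring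
    rw [i3]
    exact mul_le_mul_of_nonneg_right p3 (by linarith)
  have hsub : {t ∈ Icc (T / 2) T | ¬ ∀ y : ℝ, |y| ≤ R →
        ‖Dd (Real.exp (-(k : ℝ) ^ 12)) T (sw T t (((k : ℝ) : ℂ) ^ 36 + (y : ℂ) * I)) *
          Am (Real.exp (-(k : ℝ) ^ 12)) n T (sw T t (((k : ℝ) : ℂ) ^ 36 + (y : ℂ) * I)) - 1‖ ≤
          τ} ⊆ S1 ∪ S2 ∪ S3 := by
    intro t ht
    by_contra hnot
    rw [Set.mem_union, Set.mem_union, not_or, not_or] at hnot
    obtain ⟨⟨n1, n2⟩, n3⟩ := hnot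
    apply ht.2
    intro y hy
    have ht1 : t ∈ Icc (T / 2) T := ht.1
    have g1 : ∀ w : ℂ, |w.re - (k : ℝ) ^ 36| ≤ 1 → |w.im| ≤ R + 1 →
        ‖XX h (2 * (1 / (100 * (k : ℝ) ^ 12))) (Real.exp (-(k : ℝ) ^ 12)) T (sw T t w) -
          XP (Real.exp (-(k : ℝ) ^ 12)) (1 / (100 * (k : ℝ) ^ 12)) T (sw T t w)‖ ≤ τ' ∧
        ‖XP (Real.exp (-(k : ℝ) ^ 12)) (1 / (100 * (k : ℝ) ^ 12)) T (sw T t w)‖ ≤
          (k : ℝ) ^ 12 := by
      by_contra hc
      exact n1 ⟨ht1, hc⟩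
    have g2 : Mk (Real.log T) 1 t ≤ (k : ℝ) / Cs := by
      by_contra hc
      exact n2 ⟨⟨ht1.1, by linarith [ht1.2]⟩, not_le.1 hc⟩
    have g3 : ∫ x in ((k : ℝ) ^ 36 - 1)..((k : ℝ) ^ 36 + 1),
        ∫ y in (-(R + 1))..(R + 1), F (sw T t ((x : ℂ) + (y : ℂ) * I)) ≤
        Real.exp (-(7 * (k : ℝ) ^ 12)) := by
      by_contra hc
      exact n3 ⟨⟨by linarith [ht1.1], by linarith [ht1.2]⟩, not_le.1 hc⟩
    have hcore := far_core (h := h) (T := T) (t := t) (R := R) (τ := τ')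
      (δ := Real.exp (-(k : ℝ) ^ 12)) (θ := 1 / (100 * (k : ℝ) ^ 12))
      (θ2 := 2 * (1 / (100 * (k : ℝ) ^ 12))) (X0 := (k : ℝ) ^ 36) (n := n) (N := k ^ 12)
      hL0 hR hτ'1 (fun w h1 h2 => by
        have := g1 w h1 h2
        push_cast
        exact this) (fun w h1 h2 => by
        have h1' := abs_le.1 h1
        have h2' := abs_le.1 h2
        have hv : |w.im / Real.log T| ≤ (R + 1) / Real.log T := by
          rw [abs_div, abs_of_pos hL0]
          exact div_le_div_of_nonneg_right h2 hL0.le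
        have hv' := abs_le.1 hv
        have hw : sw T t w = sw T (t + w.im / Real.log T) w.re := by
          conv_lhs => rw [← Complex.re_add_im w]
          exact far_sw T t w.re w.im
        obtain ⟨e, he1, he2⟩ := a3 (t + w.im / Real.log T)
          ⟨by linarith [ht1.1], by linarith [ht1.2]⟩ w.re ⟨by linarith, by linarith⟩
        refine ⟨e, by rw [hw]; exact he1, he2.trans ?_⟩
        have j1 : Mk (Real.log T) 1 (t + w.im / Real.log T) ≤ k := by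
          have j2 := Mk_shift hRH hL0 le_rfl hY0.le hv (t := t) (k := 1)
          refine j2.trans ?_
          rw [← hCs]
          calc Cs * Mk (Real.log T) 1 t ≤ Cs * ((k : ℝ) / Cs) := by gcongr
            _ = k := by field_simp
        have j3 : Real.exp (-(2 * (1 / (100 * (k : ℝ) ^ 12)) * w.re / 2)) ≤
            Real.exp (-(2 * (1 / (100 * (k : ℝ) ^ 12)) * ((k : ℝ) ^ 36 - 1) / 2)) := by
          apply Real.exp_le_exp.2
          have : 2 * (1 / (100 * (k : ℝ) ^ 12)) * ((k : ℝ) ^ 36 - 1) ≤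
              2 * (1 / (100 * (k : ℝ) ^ 12)) * w.re :=
            mul_le_mul_of_nonneg_left (by linarith) hθ0.le
          linarith
        have j4 : Cz / (2 * (1 / (100 * (k : ℝ) ^ 12))) ^ 2 *
            Real.exp (-(2 * (1 / (100 * (k : ℝ) ^ 12)) * w.re / 2)) *
            Mk (Real.log T) 1 (t + w.im / Real.log T) ≤
            Cz / (2 * (1 / (100 * (k : ℝ) ^ 12))) ^ 2 *
            Real.exp (-(2 * (1 / (100 * (k : ℝ) ^ 12)) * ((k : ℝ) ^ 36 - 1) / 2)) * k :=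
          mul_le_mul (mul_le_mul_of_nonneg_left j3 (by positivity)) j1 (Mk_nonneg _ _ _)
            (by positivity)
        linarith) (by
        push_cast
        exact g3) (by linarith [ht1.1]) (y := y) hy
    have hX : (((k : ℝ) ^ 36 : ℝ) : ℂ) = ((k : ℝ) : ℂ) ^ 36 := by push_cast; rfl
    rw [hX] at hcore
    refine hcore.trans ?_
    push_cast
    linarith
  have hfin : volume (S1 ∪ S2 ∪ S3) ≠ ⊤ := by
    refine ne_top_of_le_ne_top (measure_Icc_lt_top (a := T / 4) (b := 4 * T)).ne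
      (measure_mono ?_)
    intro t ht
    rcases ht with (ht | ht) | ht
    · exact ⟨by linarith [ht.1.1], by linarith [ht.1.2]⟩
    · exact ⟨by linarith [ht.1.1], by linarith [ht.1.2]⟩
    · exact ⟨by linarith [ht.1.1], by linarith [ht.1.2]⟩
  have w1 := measureReal_mono hsub hfin
  have w2 := measureReal_union_le (μ := (volume : Measure ℝ)) (S1 ∪ S2) S3
  have w3 := measureReal_union_le (μ := (volume : Measure ℝ)) S1 S2
  have w4 : 0 ≤ ε * T := by positivity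
  linarith

end Pool.Agent.MP_67227b_nt.Ah
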