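import Pool.Agent.MP_67227b_nt.Ah.AhGrow

set_option autoImplicit false

open Filter Topology Set MeasureTheory Complex
open scoped Real ArithmeticFunction ContDiff

namespace Pool.Agent.MP_67227b_nt.Ah

open Pool.Agent.Lib.ZetaCount_helper33 Pool.Agent.MP_67227b_nt Pool.Agent.MP_67227b_nt.Mo
open Pool.Agent.MP_67227b_nt.Sg Pool.Agent.MP_67227b_nt.Pp
open Pool.Agent.MP_67227b_nt.Mo.MomentBAux (DP)

/-- MODULE GROWOF. `Am(sw T t w) = ∑_{m ≤ N} (am m · m^{-1/2-it}) e^{-w (log m/L)}`, `0 ≤ log m/L ≤ 1`;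
`grow'` with `K = k^24`, `r = k`; `6 · 2^{-K/2} e^{r^13} ≤ 1` for `r` large. -/
theorem growA_of : ∃ k₀ : ℕ, 1 ≤ k₀ ∧ ∀ k : ℕ, k₀ ≤ k → ∀ᶠ T : ℝ in atTop,
    ∀ (n : ℕ) (t : ℝ),
      (∫ y : ℝ, ‖Am (Real.exp (-(k : ℝ) ^ 12)) n T (sw T t (2 + (y : ℂ) * I))‖ /
        (1 + (y / (2 * (k : ℝ) ^ 24)) ^ 2) ≤ Real.exp ((k : ℝ) ^ 13)) →
      ∀ s : ℝ, 0 ≤ s → (∀ η : ℝ, |η| ≤ 4 * (k : ℝ) ^ 24 →
        ‖Am (Real.exp (-(k : ℝ) ^ 12)) n T (sw T t (2 + (η : ℂ) * I))‖ ≤ s) →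
      ∀ w : ℂ, -(2 * (k : ℝ) ^ 4) ≤ w.re → w.re ≤ 1 → |w.im| ≤ 2 * (k : ℝ) ^ 24 →
        ‖Am (Real.exp (-(k : ℝ) ^ 12)) n T (sw T t w)‖ ≤
          Real.exp (2 * (2 - w.re)) * (4 * (k : ℝ) ^ 24 * s + 1) := by
  refine ⟨2, by norm_num, fun k hk => ?_⟩
  filter_upwards [eventually_gt_atTop (1 : ℝ)] with T hT n t hJ s hs0 hs w hw1 hw2 hw3
  set δ : ℝ := Real.exp (-(k : ℝ) ^ 12) with hδ
  have hδ0 : 0 < δ := Real.exp_pos _
  have hL : 0 < Real.log T := Real.log_pos hT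
  have hLc : (Real.log T : ℂ) ≠ 0 := by exact_mod_cast hL.ne'
  have hk2 : (2 : ℝ) ≤ k := by exact_mod_cast hk
  set c : ℕ → ℂ := fun m => (am δ n T m : ℂ) * (m : ℂ) ^ (-(1 / 2 + (t : ℂ) * I)) with hc
  set y : ℕ → ℝ := fun m => Real.log m / Real.log T with hy
  have hrep : ∀ z : ℂ, Am δ n T (sw T t z) =
      ∑ m ∈ Finset.Icc 1 (Nn δ T), c m * Complex.exp (-(z * y m)) := by
    intro z
    unfold Am Aa
    refine Finset.sum_congr rfl fun m hm => ?_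
    have hm1 : 1 ≤ m := (Finset.mem_Icc.1 hm).1
    have hm0 : (m : ℂ) ≠ 0 := by exact_mod_cast (by omega : m ≠ 0)
    simp only [hc, hy]
    rw [mul_assoc]
    congr 1
    have e1 : -(sw T t z) = -(1 / 2 + (t : ℂ) * I) + -(z / (Real.log T : ℂ)) := by
      unfold sw; ring
    rw [e1, Complex.cpow_add _ _ hm0]
    congr 1
    rw [Complex.cpow_def_of_ne_zero hm0, ← Complex.natCast_log]
    congr 1
    push_cast
    field_simp
  have hyb : ∀ m ∈ Finset.Icc 1 (Nn δ T), 0 ≤ y m ∧ y m ≤ 1 := by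
    intro m hm
    obtain ⟨hm1, hm2⟩ := Finset.mem_Icc.1 hm
    have hm1' : (1 : ℝ) ≤ m := by exact_mod_cast hm1
    refine ⟨div_nonneg (Real.log_nonneg hm1') hL.le, ?_⟩
    simp only [hy]
    rw [div_le_one hL]
    refine Real.log_le_log (by linarith) ?_
    have h1 : (m : ℝ) ≤ T ^ (1 - δ) := by
      refine le_trans ?_ (Nat.floor_le (Real.rpow_nonneg (by linarith) _))
      exact_mod_cast hm2
    calc (m : ℝ) ≤ T ^ (1 - δ) := h1
      _ ≤ T ^ (1 : ℝ) := Real.rpow_le_rpow_of_exponent_le hT.le (by linarith)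
      _ = T := Real.rpow_one T
  have hpow : (k : ℝ) ^ 4 ≤ (k : ℝ) ^ 23 := pow_le_pow_right₀ (by linarith) (by norm_num)
  have h23 : 2 * (k : ℝ) ^ 23 ≤ (k : ℝ) ^ 24 := by
    have : (k : ℝ) ^ 24 = k * (k : ℝ) ^ 23 := by ring
    rw [this]
    exact mul_le_mul_of_nonneg_right hk2 (by positivity)
  have h23' : (2 : ℝ) ^ 23 ≤ (k : ℝ) ^ 23 := pow_le_pow_left₀ (by norm_num) hk2 23
  have hKc : (((k ^ 24 : ℕ)) : ℝ) = (k : ℝ) ^ 24 := by push_cast; ring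
  have hK4 : 4 ≤ k ^ 24 := by
    calc 4 ≤ 2 ^ 24 := by norm_num
      _ ≤ k ^ 24 := Nat.pow_le_pow_left hk 24
  have hre : 2 - w.re ≤ ((k ^ 24 : ℕ) : ℝ) := by
    rw [hKc]
    by_cases h : (k : ℝ) ^ 4 ≤ (k : ℝ) ^ 23 - 2
    · linarith
    · push Not at h
      have h22 : 2 * (k : ℝ) ^ 22 ≤ (k : ℝ) ^ 23 := by
        have : (k : ℝ) ^ 23 = k * (k : ℝ) ^ 22 := by ring
        rw [this]
        exact mul_le_mul_of_nonneg_right hk2 (by positivity)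
      have h4 : (k : ℝ) ^ 4 ≤ (k : ℝ) ^ 22 := pow_le_pow_right₀ (by linarith) (by norm_num)
      have h5 : (2 : ℝ) ^ 22 ≤ (k : ℝ) ^ 22 := pow_le_pow_left₀ (by norm_num) hk2 22
      norm_num at h5
      linarith
  have hg := grow' (Finset.Icc 1 (Nn δ T)) c y hyb hK4 (w₁ := w) hw2 hre
    (by rw [hKc]; exact hw3) (s := s) (J := Real.exp ((k : ℝ) ^ 13))
    (by
      intro η hη
      rw [← hrep]
      exact hs η (by rw [hKc] at hη; exact hη))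
    (by
      rw [hKc]
      have e : (fun η : ℝ => ‖∑ i ∈ Finset.Icc 1 (Nn δ T), c i *
          Complex.exp (-((2 + (η : ℂ) * I) * y i))‖ / (1 + (η / (2 * (k : ℝ) ^ 24)) ^ 2)) =
          fun η : ℝ => ‖Am δ n T (sw T t (2 + (η : ℂ) * I))‖ /
            (1 + (η / (2 * (k : ℝ) ^ 24)) ^ 2) := by
        funext η
        rw [hrep]
      rw [e]
      exact hJ)
  rw [← hrep, hKc] at hg
  refine hg.trans (mul_le_mul_of_nonneg_left ?_ (Real.exp_pos _).le)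
  -- the tail is at most one
  have htail : 6 * (2 : ℝ) ^ (-((k : ℝ) ^ 24 / 2)) * Real.exp ((k : ℝ) ^ 13) ≤ 1 := by
    have h6 : (6 : ℝ) ≤ Real.exp 2 := by
      have h1 := Real.add_one_le_exp (1 : ℝ)
      have h2 : Real.exp 2 = Real.exp 1 * Real.exp 1 := by rw [← Real.exp_add]; norm_num
      have h3 := Real.exp_one_gt_d9
      rw [h2]
      nlinarith
    have h2 : (2 : ℝ) ^ (-((k : ℝ) ^ 24 / 2)) = Real.exp (Real.log 2 * (-((k : ℝ) ^ 24 / 2))) :=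
      Real.rpow_def_of_pos (by norm_num) _
    have hlog := Real.log_two_gt_d9
    have h13 : 2 ^ 11 * (k : ℝ) ^ 13 ≤ (k : ℝ) ^ 24 := by
      have : (k : ℝ) ^ 24 = (k : ℝ) ^ 11 * (k : ℝ) ^ 13 := by ring
      rw [this]
      exact mul_le_mul_of_nonneg_right (pow_le_pow_left₀ (by norm_num) hk2 11) (by positivity)
    have h13' : (1 : ℝ) ≤ (k : ℝ) ^ 13 := one_le_pow₀ (by linarith)
    calc 6 * (2 : ℝ) ^ (-((k : ℝ) ^ 24 / 2)) * Real.exp ((k : ℝ) ^ 13)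
        ≤ Real.exp 2 * Real.exp (Real.log 2 * (-((k : ℝ) ^ 24 / 2))) *
          Real.exp ((k : ℝ) ^ 13) := by
          rw [h2]
          gcongr
      _ = Real.exp (2 + Real.log 2 * (-((k : ℝ) ^ 24 / 2)) + (k : ℝ) ^ 13) := by
          rw [← Real.exp_add, ← Real.exp_add]
      _ ≤ Real.exp 0 := by
          apply Real.exp_le_exp.2
          nlinarith
      _ = 1 := Real.exp_zero
  linarith

end Pool.Agent.MP_67227b_nt.Ah
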