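import Pool.Agent.MP_67227b_nt.Ah.AhRect

set_option autoImplicit false

open Filter Topology Set MeasureTheory Complex
open scoped Real ArithmeticFunction ContDiff

namespace Pool.Agent.MP_67227b_nt.Ah

open Pool.Agent.Lib.ZetaCount_helper33 Pool.Agent.MP_67227b_nt Pool.Agent.MP_67227b_nt.Mo
open Pool.Agent.MP_67227b_nt.Sg Pool.Agent.MP_67227b_nt.Pp
open Pool.Agent.MP_67227b_nt.Mo.MomentBAux (DP)

namespace per_ofAux

theorem iter_eq {a b c d : ℝ} (hab : a ≤ b) (hcd : c ≤ d) {f : ℝ → ℝ → ℝ}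
    (hf : ContinuousOn (fun z : ℝ × ℝ => f z.1 z.2) (Icc a b ×ˢ Icc c d)) :
    IntegrableOn (fun z : ℝ × ℝ => f z.1 z.2) (Ioc a b ×ˢ Ioc c d) ∧
    ∫ x in a..b, ∫ y in c..d, f x y = ∫ z in Ioc a b ×ˢ Ioc c d, f z.1 z.2 := by
  have hi : IntegrableOn (fun z : ℝ × ℝ => f z.1 z.2) (Ioc a b ×ˢ Ioc c d) :=
    (hf.integrableOn_compact (isCompact_Icc.prod isCompact_Icc)).mono_set
      (prod_mono Ioc_subset_Icc_self Ioc_subset_Icc_self)
  refine ⟨hi, ?_⟩
  rw [intervalIntegral.integral_of_le hab]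
  simp_rw [intervalIntegral.integral_of_le hcd]
  rw [Measure.volume_eq_prod] at hi ⊢
  exact (setIntegral_prod _ hi).symm

theorem box_le {a b c d a' b' c' d' : ℝ} (ha : a ≤ a') (hab : a' ≤ b') (hb : b' ≤ b)
    (hc : c ≤ c') (hcd : c' ≤ d') (hd : d' ≤ d) {e f1 f2 f3 : ℝ → ℝ → ℝ} {p q s : ℝ}
    (hp : 0 ≤ p) (hq : 0 ≤ q) (hs : 0 ≤ s)
    (he : ContinuousOn (fun z : ℝ × ℝ => e z.1 z.2) (Icc a' b' ×ˢ Icc c' d'))
    (h1 : ContinuousOn (fun z : ℝ × ℝ => f1 z.1 z.2) (Icc a b ×ˢ Icc c d))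
    (h2 : ContinuousOn (fun z : ℝ × ℝ => f2 z.1 z.2) (Icc a b ×ˢ Icc c d))
    (h3 : ContinuousOn (fun z : ℝ × ℝ => f3 z.1 z.2) (Icc a b ×ˢ Icc c d))
    (n1 : ∀ x y, 0 ≤ f1 x y) (n2 : ∀ x y, 0 ≤ f2 x y) (n3 : ∀ x y, 0 ≤ f3 x y)
    (hle : ∀ x ∈ Icc a' b', ∀ y ∈ Icc c' d',
      e x y ≤ p * f1 x y + q * f2 x y + s * f3 x y) :
    ∫ x in a'..b', ∫ y in c'..d', e x y ≤ p * (∫ x in a..b, ∫ y in c..d, f1 x y) +
      q * (∫ x in a..b, ∫ y in c..d, f2 x y) + s * (∫ x in a..b, ∫ y in c..d, f3 x y) := by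
  have hab2 : a ≤ b := ha.trans (hab.trans hb)
  have hcd2 : c ≤ d := hc.trans (hcd.trans hd)
  have hsub : Ioc a' b' ×ˢ Ioc c' d' ⊆ Ioc a b ×ˢ Ioc c d :=
    prod_mono (Ioc_subset_Ioc ha hb) (Ioc_subset_Ioc hc hd)
  obtain ⟨ie, ee⟩ := iter_eq hab hcd he
  obtain ⟨i1, e1⟩ := iter_eq hab2 hcd2 h1
  obtain ⟨i2, e2⟩ := iter_eq hab2 hcd2 h2
  obtain ⟨i3, e3⟩ := iter_eq hab2 hcd2 h3
  rw [ee, e1, e2, e3]
  have hm : MeasurableSet (Ioc a' b' ×ˢ Ioc c' d') := measurableSet_Ioc.prod measurableSet_Ioc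
  have hm2 : MeasurableSet (Ioc a b ×ˢ Ioc c d) := measurableSet_Ioc.prod measurableSet_Ioc
  have j1 := i1.mono_set hsub
  have j2 := i2.mono_set hsub
  have j3 := i3.mono_set hsub
  have k1 : ∫ z in Ioc a' b' ×ˢ Ioc c' d', f1 z.1 z.2 ≤ ∫ z in Ioc a b ×ˢ Ioc c d, f1 z.1 z.2 :=
    setIntegral_mono_set i1 (Eventually.of_forall fun z => n1 _ _) hsub.eventuallyLE
  have k2 : ∫ z in Ioc a' b' ×ˢ Ioc c' d', f2 z.1 z.2 ≤ ∫ z in Ioc a b ×ˢ Ioc c d, f2 z.1 z.2 :=
    setIntegral_mono_set i2 (Eventually.of_forall fun z => n2 _ _) hsub.eventuallyLE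
  have k3 : ∫ z in Ioc a' b' ×ˢ Ioc c' d', f3 z.1 z.2 ≤ ∫ z in Ioc a b ×ˢ Ioc c d, f3 z.1 z.2 :=
    setIntegral_mono_set i3 (Eventually.of_forall fun z => n3 _ _) hsub.eventuallyLE
  have k4 : ∫ z in Ioc a' b' ×ˢ Ioc c' d', e z.1 z.2 ≤
      ∫ z in Ioc a' b' ×ˢ Ioc c' d', (p * f1 z.1 z.2 + q * f2 z.1 z.2 + s * f3 z.1 z.2) := by
    refine setIntegral_mono_on ie (((j1.const_mul p).add (j2.const_mul q)).add (j3.const_mul s)) hm
      fun z hz => ?_
    exact hle z.1 (Ioc_subset_Icc_self hz.1) z.2 (Ioc_subset_Icc_self hz.2)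
  have k5 : ∫ z in Ioc a' b' ×ˢ Ioc c' d', (p * f1 z.1 z.2 + q * f2 z.1 z.2 + s * f3 z.1 z.2) =
      p * (∫ z in Ioc a' b' ×ˢ Ioc c' d', f1 z.1 z.2) +
      q * (∫ z in Ioc a' b' ×ˢ Ioc c' d', f2 z.1 z.2) +
      s * (∫ z in Ioc a' b' ×ˢ Ioc c' d', f3 z.1 z.2) := by
    have a12 : IntegrableOn (fun z : ℝ × ℝ => p * f1 z.1 z.2 + q * f2 z.1 z.2)
        (Ioc a' b' ×ˢ Ioc c' d') := (j1.const_mul p).add (j2.const_mul q)
    rw [integral_add a12 (j3.const_mul s),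
      integral_add (j1.const_mul p) (j2.const_mul q), integral_const_mul, integral_const_mul,
      integral_const_mul]
  rw [k5] at k4
  have := mul_le_mul_of_nonneg_left k1 hp
  have := mul_le_mul_of_nonneg_left k2 hq
  have := mul_le_mul_of_nonneg_left k3 hs
  linarith

theorem npow_diff {n : ℕ} (hn : 1 ≤ n) : Differentiable ℂ (fun s : ℂ => (n : ℂ) ^ (-s)) := by
  intro s
  have hn0 : (n : ℂ) ≠ 0 := by exact_mod_cast (by omega : n ≠ 0)
  exact (differentiableAt_id.neg).const_cpow (Or.inl hn0)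

theorem Aa_diff (a : ℕ → ℝ) (N : ℕ) : Differentiable ℂ (Aa a N) := by
  unfold Aa
  refine Differentiable.fun_sum fun n hn => ?_
  exact (npow_diff (Finset.mem_Icc.1 hn).1).const_mul _

theorem Pl_diff (a : ℕ → ℝ) (α : ℝ) (N : ℕ) : Differentiable ℂ (Pl a α N) := by
  unfold Pl
  refine Differentiable.fun_sum fun n hn => ?_
  exact (npow_diff (Finset.mem_Icc.1 hn).1).const_mul _

theorem Bs_diff (δ T : ℝ) : Differentiable ℂ (Bs δ T) := by
  unfold Bs
  refine Differentiable.fun_sum fun n hn => ?_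
  exact (npow_diff (le_trans (by norm_num) (Finset.mem_Ioc.1 hn).1.le)).const_mul _

theorem Dd_diff {δ T : ℝ} {s : ℂ} (hs : s ≠ 1) : DifferentiableAt ℂ (Dd δ T) s := by
  unfold Dd
  exact (differentiableAt_riemannZeta hs).mul ((Bs_diff δ T s).neg.cexp)

theorem sw_diff (T t : ℝ) : Differentiable ℂ (sw T t) := by
  unfold sw
  fun_prop

theorem sw_shift {T t : ℝ} (w : ℂ) : sw T t (w + π * I) = sw T t w + (al T : ℂ) * I := by
  unfold sw al
  push_cast
  ring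

end per_ofAux

open per_ofAux in
/-- MODULE PER. Near periodicity on the right from the box integrals. With `s = sw T t w`,
`sw T t (w + πi) = s + i al T`, and `ζ(s + iα) A(s + iα) = ζ(s) (Fh + Pl)`:
`E(w) := Q(w + πi) - Q(w) = e^{B - B_a} D (Fh + Pl - Am) + (e^{B - B_a} - 1) D Am`, `B = Bs(w)`,
`B_a = Bs(w + πi)`, `‖B - B_a‖ ≤ 2 e^{-(3/4) r^12}`, `‖D‖ ≤ e^{r^3 - c r^6}` on the box. `E` is analytic;
`sub_mean` with `ρ = 1/2` in the square around `w`, which lies in the box: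
`‖E(w)‖ ≤ 16 (2 e^{r^3 - c r^6} (e^r + e^{-r^12/4}) + 4 e^{-(3/4) r^12} e^{r^3 - c r^6} e^{(5/8) r^12})
≤ e^{-r^5}` for `r` large. -/
theorem per_of (hRH : RiemannHypothesis) {c : ℝ} (hc : 0 < c) : ∃ r₀ : ℝ, 1 ≤ r₀ ∧
    ∀ r : ℝ, r₀ ≤ r → ∀ᶠ T : ℝ in atTop, ∀ (n : ℕ) (t : ℝ), t ∈ Icc (T / 2) T →
      (∀ w : ℂ, 1 / 2 ≤ w.re → w.re ≤ r ^ 36 + 1 → |w.im| ≤ 8 * r ^ 24 →
        Dd (Real.exp (-r ^ 12)) T (sw T t w) ≠ 0 ∧
          |Real.log ‖Dd (Real.exp (-r ^ 12)) T (sw T t w)‖ -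
            Real.log ‖Dd (Real.exp (-r ^ 12)) T (sw T t 1)‖| ≤ r ^ 3) →
      Real.log ‖Dd (Real.exp (-r ^ 12)) T (sw T t 1)‖ ≤ -(c * r ^ 6) →
      (∀ w : ℂ, |w.re| ≤ r ^ 36 + 1 → |w.im| ≤ 9 * r ^ 24 →
        ‖Bs (Real.exp (-r ^ 12)) T (sw T t w) - Bs (Real.exp (-r ^ 12)) T (sw T t 0)‖ ≤
          Real.exp (-(3 / 4 * r ^ 12))) →
      (∫ x in (1 / 2 : ℝ)..(r ^ 36 + 3 / 2), ∫ y in (-(8 * r ^ 24))..(8 * r ^ 24),
        ‖Fh (am (Real.exp (-r ^ 12)) n T) (al T) (Nn (Real.exp (-r ^ 12)) T)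
          (sw T t ((x : ℂ) + (y : ℂ) * I))‖) ≤ Real.exp r →
      (∫ x in (1 / 2 : ℝ)..(r ^ 36 + 3 / 2), ∫ y in (-(8 * r ^ 24))..(8 * r ^ 24),
        ‖Pl (am (Real.exp (-r ^ 12)) n T) (al T) (Nn (Real.exp (-r ^ 12)) T)
          (sw T t ((x : ℂ) + (y : ℂ) * I)) -
          Am (Real.exp (-r ^ 12)) n T (sw T t ((x : ℂ) + (y : ℂ) * I))‖) ≤
        Real.exp (-(r ^ 12 / 4)) →
      (∫ x in (1 / 2 : ℝ)..(r ^ 36 + 3 / 2), ∫ y in (-(8 * r ^ 24))..(8 * r ^ 24),
        ‖Am (Real.exp (-r ^ 12)) n T (sw T t ((x : ℂ) + (y : ℂ) * I))‖) ≤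
        Real.exp (5 / 8 * r ^ 12) →
      ∀ w : ℂ, 1 ≤ w.re → w.re ≤ r ^ 36 → |w.im| ≤ 6 * r ^ 24 →
        ‖Dd (Real.exp (-r ^ 12)) T (sw T t (w + π * I)) *
            Am (Real.exp (-r ^ 12)) n T (sw T t (w + π * I)) -
          Dd (Real.exp (-r ^ 12)) T (sw T t w) *
            Am (Real.exp (-r ^ 12)) n T (sw T t w)‖ ≤ Real.exp (-r ^ 5) := by
  refine ⟨max 2 (4 / c), le_trans (by norm_num) (le_max_left _ _), fun r hr => ?_⟩
  have hr2 : 2 ≤ r := (le_max_left _ _).trans hr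
  have hrc : 4 ≤ c * r := by
    have := (le_max_right 2 (4 / c)).trans hr
    rwa [div_le_iff₀' hc] at this
  have hr0 : 0 < r := by linarith
  have h24 : (16 : ℝ) ≤ r ^ 24 := by
    calc (16 : ℝ) ≤ 2 ^ 24 := by norm_num
      _ ≤ r ^ 24 := pow_le_pow_left₀ (by norm_num) hr2 24
  have h12 : (16 : ℝ) ≤ r ^ 12 := by
    calc (16 : ℝ) ≤ 2 ^ 12 := by norm_num
      _ ≤ r ^ 12 := pow_le_pow_left₀ (by norm_num) hr2 12
  have h36 : 0 ≤ r ^ 36 := by positivity
  filter_upwards [eventually_ge_atTop (Real.exp 1), eventually_gt_atTop (2 * (10 * r ^ 24))]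
    with T hT1 hT2 n t ht hD hD1 hB hI1 hI2 hI3 w hw1 hw2 hw3
  set δ : ℝ := Real.exp (-r ^ 12) with hδ
  have hTpos : 0 < T := lt_of_lt_of_le (Real.exp_pos 1) hT1
  have hL1 : 1 ≤ Real.log T := by
    rw [Real.le_log_iff_exp_le hTpos]; exact hT1
  have hL : 0 < Real.log T := by linarith
  have hpi := Real.pi_le_four
  have hpi0 := Real.pi_pos
  -- imaginary parts
  have him : ∀ z : ℂ, (sw T t z).im = t + z.im / Real.log T := by
    intro z
    unfold sw
    simp [Complex.add_im, Complex.div_ofReal_im]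
  have hre : ∀ z : ℂ, (sw T t z).re = 1 / 2 + z.re / Real.log T := by
    intro z
    unfold sw
    simp [Complex.add_re, Complex.div_ofReal_re]
  have hpos : ∀ z : ℂ, |z.im| ≤ 10 * r ^ 24 → 0 < (sw T t z).im := by
    intro z hz
    rw [him]
    have h1 : |z.im / Real.log T| ≤ 10 * r ^ 24 := by
      rw [abs_div, abs_of_pos hL, div_le_iff₀ hL]
      nlinarith [abs_nonneg z.im]
    have h2 := (abs_le.1 h1).1
    have h3 := ht.1
    linarith
  have hne1 : ∀ z : ℂ, |z.im| ≤ 10 * r ^ 24 → sw T t z ≠ 1 := by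
    intro z hz h0
    have := hpos z hz
    rw [h0] at this
    simp at this
  have hzeta : ∀ z : ℂ, |z.im| ≤ 10 * r ^ 24 → 0 < z.re → riemannZeta (sw T t z) ≠ 0 := by
    intro z hz hz2 h0
    have h1 := hRH _ h0 (by
      rintro ⟨m, hm⟩
      have h2 := hpos z hz
      rw [hm] at h2
      simp at h2) (hne1 z hz)
    rw [hre] at h1
    have : 0 < z.re / Real.log T := div_pos hz2 hL
    linarith
  have hshim : ∀ z : ℂ, |z.im| ≤ 8 * r ^ 24 → |(z + π * I).im| ≤ 9 * r ^ 24 := by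
    intro z hz
    have e : (z + π * I).im = z.im + π := by simp
    rw [e, abs_le]
    have := abs_le.1 hz
    constructor <;> linarith [this.1, this.2]
  -- the function
  set E : ℂ → ℂ := fun z => Dd δ T (sw T t (z + π * I)) * Am δ n T (sw T t (z + π * I)) -
    Dd δ T (sw T t z) * Am δ n T (sw T t z) with hE
  have hAmd : Differentiable ℂ (Am δ n T) := Aa_diff _ _
  have hEd : ∀ z : ℂ, |z.im| ≤ 8 * r ^ 24 → DifferentiableAt ℂ E z := by
    intro z hz
    have hz1 : sw T t z ≠ 1 := hne1 z (by linarith)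
    have hz2 : sw T t (z + π * I) ≠ 1 := hne1 _ (by linarith [hshim z hz])
    have d1 : DifferentiableAt ℂ (fun z : ℂ => sw T t (z + π * I)) z :=
      (sw_diff T t _).comp z (differentiableAt_id.add_const _)
    have d2 : DifferentiableAt ℂ (fun z : ℂ => sw T t z) z := sw_diff T t z
    exact (((Dd_diff hz2).comp z d1).mul ((hAmd _).comp z d1)).sub
      (((Dd_diff hz1).comp z d2).mul ((hAmd _).comp z d2))
  set M : ℝ := Real.exp (r ^ 3 - c * r ^ 6) with hM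
  set ε : ℝ := Real.exp (-(3 / 4 * r ^ 12)) with hε
  have hMpos : 0 < M := Real.exp_pos _
  have hεpos : 0 < ε := Real.exp_pos _
  have hε4 : ε ≤ 1 / 4 := by
    have h1 := Real.add_one_le_exp (3 / 4 * r ^ 12)
    rw [hε, Real.exp_neg, inv_eq_one_div]
    exact one_div_le_one_div_of_le (by norm_num) (by linarith)
  -- pointwise bound
  have hpt : ∀ z : ℂ, 1 / 2 ≤ z.re → z.re ≤ r ^ 36 + 1 → |z.im| ≤ 8 * r ^ 24 →
      ‖E z‖ ≤ 2 * M * ‖Fh (am δ n T) (al T) (Nn δ T) (sw T t z)‖ +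
        2 * M * ‖Pl (am δ n T) (al T) (Nn δ T) (sw T t z) - Am δ n T (sw T t z)‖ +
        4 * ε * M * ‖Am δ n T (sw T t z)‖ := by
    intro z hz1 hz2 hz3
    set s := sw T t z with hs
    have hζ : riemannZeta s ≠ 0 := hzeta z (by linarith) (by linarith)
    obtain ⟨hD0, hDl⟩ := hD z hz1 hz2 hz3
    have hDn : ‖Dd δ T s‖ ≤ M := by
      have h1 : 0 < ‖Dd δ T s‖ := norm_pos_iff.2 hD0
      rw [← Real.exp_log h1, hM]
      apply Real.exp_le_exp.2
      have := (abs_le.1 hDl).2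
      linarith
    set B := Bs δ T s with hBdef
    set Ba := Bs δ T (s + (al T : ℂ) * I) with hBa
    have habs : |z.re| ≤ r ^ 36 + 1 := by
      rw [abs_of_nonneg (by linarith)]; exact hz2
    have hBB : ‖B - Ba‖ ≤ 2 * ε := by
      have h1 := hB z habs (by linarith)
      have h2 := hB (z + π * I) (by simpa using habs) (hshim z hz3)
      rw [sw_shift] at h2
      have h3 : B - Ba = (B - Bs δ T (sw T t 0)) - (Ba - Bs δ T (sw T t 0)) := by ring
      rw [h3]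
      refine (norm_sub_le _ _).trans ?_
      linarith
    have hex : ‖Complex.exp (B - Ba) - 1‖ ≤ 4 * ε := by
      have := Complex.norm_exp_sub_one_le (x := B - Ba) (by linarith)
      linarith
    have hex2 : ‖Complex.exp (B - Ba)‖ ≤ 2 := by
      have h1 : Complex.exp (B - Ba) = (Complex.exp (B - Ba) - 1) + 1 := by ring
      rw [h1]
      refine (norm_add_le _ _).trans ?_
      rw [norm_one]
      linarith
    have key : E z = Complex.exp (B - Ba) * Dd δ T s *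
        (Fh (am δ n T) (al T) (Nn δ T) s + (Pl (am δ n T) (al T) (Nn δ T) s - Am δ n T s)) +
        (Complex.exp (B - Ba) - 1) * Dd δ T s * Am δ n T s := by
      simp only [hE]
      rw [sw_shift, ← hs]
      have e1 : Fh (am δ n T) (al T) (Nn δ T) s + Pl (am δ n T) (al T) (Nn δ T) s =
          riemannZeta (s + (al T : ℂ) * I) / riemannZeta s *
            Am δ n T (s + (al T : ℂ) * I) := by
        unfold Fh Hq Am
        ring
      have e2 : Dd δ T (s + (al T : ℂ) * I) = riemannZeta (s + (al T : ℂ) * I) *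
          Complex.exp (-Ba) := rfl
      have e3 : Dd δ T s = riemannZeta s * Complex.exp (-B) := rfl
      have e4 : Complex.exp (B - Ba) * Complex.exp (-B) = Complex.exp (-Ba) := by
        rw [← Complex.exp_add]
        congr 1
        ring
      have e5 : Complex.exp (B - Ba) * Dd δ T s *
          (Fh (am δ n T) (al T) (Nn δ T) s + Pl (am δ n T) (al T) (Nn δ T) s) =
          Dd δ T (s + (al T : ℂ) * I) * Am δ n T (s + (al T : ℂ) * I) := by
        rw [e1, e2, e3]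
        calc _ = (Complex.exp (B - Ba) * Complex.exp (-B)) *
              (riemannZeta s * (riemannZeta (s + (al T : ℂ) * I) / riemannZeta s)) *
                Am δ n T (s + (al T : ℂ) * I) := by ring
          _ = _ := by
            rw [e4, mul_div_cancel₀ _ hζ]
            ring
      rw [← e5]
      ring
    rw [key]
    refine (norm_add_le _ _).trans ?_
    rw [norm_mul, norm_mul, norm_mul, norm_mul]
    have hF0 := norm_nonneg (Fh (am δ n T) (al T) (Nn δ T) s)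
    have hP0 := norm_nonneg (Pl (am δ n T) (al T) (Nn δ T) s - Am δ n T s)
    have hA0 := norm_nonneg (Am δ n T s)
    have hD00 := norm_nonneg (Dd δ T s)
    have g1 : ‖Complex.exp (B - Ba)‖ * ‖Dd δ T s‖ *
        ‖Fh (am δ n T) (al T) (Nn δ T) s + (Pl (am δ n T) (al T) (Nn δ T) s - Am δ n T s)‖ ≤
        2 * M * (‖Fh (am δ n T) (al T) (Nn δ T) s‖ +
          ‖Pl (am δ n T) (al T) (Nn δ T) s - Am δ n T s‖) := by
      refine mul_le_mul (mul_le_mul hex2 hDn hD00 (by norm_num)) (norm_add_le _ _)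
        (norm_nonneg _) (by positivity)
    have g2 : ‖Complex.exp (B - Ba) - 1‖ * ‖Dd δ T s‖ * ‖Am δ n T s‖ ≤
        4 * ε * M * ‖Am δ n T s‖ :=
      mul_le_mul_of_nonneg_right (mul_le_mul hex hDn hD00 (by positivity)) hA0
    linarith
  -- the mean value inequality
  have hw3' := abs_le.1 hw3
  have hsm := sub_mean (f := E) (z := w) (ρ := 1 / 2) (by norm_num) (by
    intro z hz
    have h1 : z.im ∈ Icc (w.im - 1 / 2) (w.im + 1 / 2) := hz.2
    refine (hEd z ?_).differentiableWithinAt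
    rw [abs_le]
    constructor
    · linarith [h1.1, hw3'.1]
    · linarith [h1.2, hw3'.2])
  have hcast : ∀ z : ℝ × ℝ, ((z.1 : ℂ) + (z.2 : ℂ) * I).re = z.1 ∧
      ((z.1 : ℂ) + (z.2 : ℂ) * I).im = z.2 := by
    intro z
    simp
  have hcc : Continuous (fun z : ℝ × ℝ => (z.1 : ℂ) + (z.2 : ℂ) * I) := by fun_prop
  have hbox := box_le (a := 1 / 2) (b := r ^ 36 + 3 / 2) (c := -(8 * r ^ 24)) (d := 8 * r ^ 24)
    (a' := w.re - 1 / 2) (b' := w.re + 1 / 2) (c' := w.im - 1 / 2) (d' := w.im + 1 / 2)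
    (by linarith) (by linarith) (by linarith) (by linarith [hw3'.1]) (by linarith)
    (by linarith [hw3'.2])
    (e := fun x y => ‖E ((x : ℂ) + (y : ℂ) * I)‖)
    (f1 := fun x y => ‖Fh (am δ n T) (al T) (Nn δ T) (sw T t ((x : ℂ) + (y : ℂ) * I))‖)
    (f2 := fun x y => ‖Pl (am δ n T) (al T) (Nn δ T) (sw T t ((x : ℂ) + (y : ℂ) * I)) -
      Am δ n T (sw T t ((x : ℂ) + (y : ℂ) * I))‖)
    (f3 := fun x y => ‖Am δ n T (sw T t ((x : ℂ) + (y : ℂ) * I))‖)
    (p := 2 * M) (q := 2 * M) (s := 4 * ε * M) (by positivity) (by positivity) (by positivity)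
    (by
      intro z hz
      have h1 : z.2 ∈ Icc (w.im - 1 / 2) (w.im + 1 / 2) := hz.2
      refine ContinuousAt.continuousWithinAt ?_
      have h2 : ContinuousAt E ((z.1 : ℂ) + (z.2 : ℂ) * I) := by
        refine (hEd _ ?_).continuousAt
        rw [(hcast z).2, abs_le]
        constructor
        · linarith [h1.1, hw3'.1]
        · linarith [h1.2, hw3'.2]
      exact (ContinuousAt.comp (f := fun z : ℝ × ℝ => (z.1 : ℂ) + (z.2 : ℂ) * I) h2
        hcc.continuousAt).norm)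
    (by
      intro z hz
      have h1 : z.2 ∈ Icc (-(8 * r ^ 24)) (8 * r ^ 24) := hz.2
      have h0 : z.1 ∈ Icc (1 / 2 : ℝ) (r ^ 36 + 3 / 2) := hz.1
      have habs : |z.2| ≤ 8 * r ^ 24 := abs_le.2 h1
      refine ContinuousAt.continuousWithinAt ?_
      have h2 : ContinuousAt (fun u : ℂ => Fh (am δ n T) (al T) (Nn δ T) (sw T t u))
          ((z.1 : ℂ) + (z.2 : ℂ) * I) := by
        refine DifferentiableAt.continuousAt (𝕜 := ℂ) ?_
        have a1 : sw T t ((z.1 : ℂ) + (z.2 : ℂ) * I) ≠ 1 := hne1 _ (by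
          rw [(hcast z).2]; linarith)
        have a2 : sw T t ((z.1 : ℂ) + (z.2 : ℂ) * I) + (al T : ℂ) * I ≠ 1 := by
          rw [← sw_shift]
          refine hne1 _ ?_
          have := hshim ((z.1 : ℂ) + (z.2 : ℂ) * I) (by rw [(hcast z).2]; exact habs)
          linarith
        have a3 : riemannZeta (sw T t ((z.1 : ℂ) + (z.2 : ℂ) * I)) ≠ 0 := hzeta _ (by
          rw [(hcast z).2]; linarith) (by rw [(hcast z).1]; linarith [h0.1])
        have d0 : DifferentiableAt ℂ (fun u : ℂ => sw T t u) ((z.1 : ℂ) + (z.2 : ℂ) * I) :=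
          sw_diff T t _
        have d1 : DifferentiableAt ℂ (fun u : ℂ => sw T t u + (al T : ℂ) * I)
          ((z.1 : ℂ) + (z.2 : ℂ) * I) := d0.add_const _
        unfold Fh Hq
        refine DifferentiableAt.sub (DifferentiableAt.mul (DifferentiableAt.div ?_ ?_ a3) ?_) ?_
        · exact DifferentiableAt.comp (g := riemannZeta) _ (differentiableAt_riemannZeta a2) d1
        · exact DifferentiableAt.comp (g := riemannZeta) _ (differentiableAt_riemannZeta a1) d0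
        · exact DifferentiableAt.comp (g := Aa (am δ n T) (Nn δ T)) _ (Aa_diff _ _ _) d1
        · exact DifferentiableAt.comp (g := Pl (am δ n T) (al T) (Nn δ T)) _ (Pl_diff _ _ _ _) d0
      exact (ContinuousAt.comp (f := fun z : ℝ × ℝ => (z.1 : ℂ) + (z.2 : ℂ) * I) h2
        hcc.continuousAt).norm)
    (by
      have c1 : Continuous (fun z : ℝ × ℝ => sw T t ((z.1 : ℂ) + (z.2 : ℂ) * I)) :=
        (sw_diff T t).continuous.comp hcc
      exact (((Pl_diff _ _ _).continuous.comp c1).sub (hAmd.continuous.comp c1)).norm.continuousOn)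
    (by
      have c1 : Continuous (fun z : ℝ × ℝ => sw T t ((z.1 : ℂ) + (z.2 : ℂ) * I)) :=
        (sw_diff T t).continuous.comp hcc
      exact (hAmd.continuous.comp c1).norm.continuousOn)
    (fun _ _ => norm_nonneg _) (fun _ _ => norm_nonneg _) (fun _ _ => norm_nonneg _)
    (by
      intro x hx y hy
      refine hpt _ ?_ ?_ ?_
      · rw [(hcast (x, y)).1]; linarith [hx.1]
      · rw [(hcast (x, y)).1]; linarith [hx.2]
      · rw [(hcast (x, y)).2, abs_le]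
        constructor
        · linarith [hy.1, hw3'.1]
        · linarith [hy.2, hw3'.2])
  have hI1' := mul_le_mul_of_nonneg_left hI1 (show 0 ≤ 2 * M by positivity)
  have hI2' := mul_le_mul_of_nonneg_left hI2 (show 0 ≤ 2 * M by positivity)
  have hI3' := mul_le_mul_of_nonneg_left hI3 (show 0 ≤ 4 * ε * M by positivity)
  have her : 1 ≤ Real.exp r := Real.one_le_exp hr0.le
  have q1 : Real.exp (-(r ^ 12 / 4)) ≤ Real.exp r :=
    (Real.exp_le_exp.2 (by linarith)).trans (le_refl _)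
  have q2 : ε * Real.exp (5 / 8 * r ^ 12) ≤ Real.exp r := by
    rw [hε, ← Real.exp_add]
    exact Real.exp_le_exp.2 (by linarith)
  have q3 : 4 * ε * M * Real.exp (5 / 8 * r ^ 12) ≤ 4 * M * Real.exp r := by
    calc _ = 4 * M * (ε * Real.exp (5 / 8 * r ^ 12)) := by ring
      _ ≤ _ := mul_le_mul_of_nonneg_left q2 (by positivity)
  have q4 : 2 * M * Real.exp (-(r ^ 12 / 4)) ≤ 2 * M * Real.exp r :=
    mul_le_mul_of_nonneg_left q1 (by positivity)
  have hfin : ‖E w‖ ≤ 128 * (M * Real.exp r) := by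
    have h1 : (4 : ℝ) / (1 / 2) ^ 2 = 16 := by norm_num
    rw [h1] at hsm
    linarith
  have h128 : (128 : ℝ) ≤ Real.exp 5 := by
    have h1 := Real.exp_one_gt_d9
    have h2 : Real.exp 5 = Real.exp 1 ^ 5 := by
      rw [← Real.exp_nat_mul]; norm_num
    rw [h2]
    calc (128 : ℝ) ≤ (2.7 : ℝ) ^ 5 := by norm_num
      _ ≤ Real.exp 1 ^ 5 := pow_le_pow_left₀ (by norm_num) (by linarith) 5
  change ‖E w‖ ≤ Real.exp (-r ^ 5)
  refine hfin.trans ?_
  calc 128 * (M * Real.exp r) ≤ Real.exp 5 * (M * Real.exp r) :=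
        mul_le_mul_of_nonneg_right h128 (by positivity)
    _ = Real.exp (5 + ((r ^ 3 - c * r ^ 6) + r)) := by
        rw [hM, ← Real.exp_add, ← Real.exp_add]
    _ ≤ Real.exp (-r ^ 5) := by
        apply Real.exp_le_exp.2
        have a1 : 4 * r ^ 5 ≤ c * r ^ 6 := by
          calc 4 * r ^ 5 ≤ (c * r) * r ^ 5 := mul_le_mul_of_nonneg_right hrc (by positivity)
            _ = c * r ^ 6 := by ring
        have a2 : (32 : ℝ) ≤ r ^ 5 := by
          calc (32 : ℝ) = 2 ^ 5 := by norm_num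
            _ ≤ r ^ 5 := pow_le_pow_left₀ (by norm_num) hr2 5
        have a3 : r ^ 3 ≤ r ^ 5 := pow_le_pow_right₀ (by linarith) (by norm_num)
        have a4 : 16 * r ≤ r ^ 5 := by
          have : r ^ 5 = r ^ 4 * r := by ring
          rw [this]
          refine mul_le_mul_of_nonneg_right ?_ hr0.le
          calc (16 : ℝ) = 2 ^ 4 := by norm_num
            _ ≤ r ^ 4 := pow_le_pow_left₀ (by norm_num) hr2 4
        linarith

end Pool.Agent.MP_67227b_nt.Ah
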