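import Pool.Agent.MP_67227b_nt.Ah.AhDefs

set_option autoImplicit false

open Filter Topology Set MeasureTheory Complex
open scoped Real ArithmeticFunction ContDiff

namespace Pool.Agent.MP_67227b_nt.Ah

open Pool.Agent.Lib.ZetaCount_helper33 Pool.Agent.MP_67227b_nt Pool.Agent.MP_67227b_nt.Mo
open Pool.Agent.MP_67227b_nt.Sg Pool.Agent.MP_67227b_nt.Pp
open Pool.Agent.MP_67227b_nt.Mo.MomentBAux (DP)

namespace sel_lemmaAux

/-- Markov's inequality on an interval -/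
theorem markov {a b K : ℝ} (hab : a < b) (hK : 0 < K) {f : ℝ → ℝ} (hf : ContinuousOn f (Icc a b))
    (h0 : ∀ t, 0 ≤ f t) : volume.real {t ∈ Icc a b | K ≤ f t} ≤ (∫ t in a..b, f t) / K := by
  have hint : IntegrableOn f (Icc a b) := hf.integrableOn_Icc
  have h1 := mul_meas_ge_le_integral_of_nonneg (μ := volume.restrict (Icc a b))
    (Eventually.of_forall h0) hint K
  rw [Measure.real, Measure.restrict_apply' measurableSet_Icc] at h1
  rw [le_div_iff₀ hK, mul_comm, intervalIntegral.integral_of_le hab.le, ← integral_Icc_eq_integral_Ioc]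
  refine le_trans (le_of_eq ?_) h1
  rw [Measure.real]
  congr 3
  ext t
  simp only [Set.mem_ofPred_eq, Set.mem_inter_iff]
  exact and_comm

theorem int_sum {a b : ℝ} (hab : a < b) {I : ℕ} (f : ℕ → ℝ → ℝ)
    (hf : ∀ j, ContinuousOn (f j) (Icc a b)) :
    ∫ t in a..b, ∑ j ∈ Finset.range I, f j t = ∑ j ∈ Finset.range I, ∫ t in a..b, f j t :=
  intervalIntegral.integral_finsetSum fun j _ => (hf j).intervalIntegrable_of_Icc hab.le

theorem sum_sq_int {a b : ℝ} (hab : a < b) {I : ℕ} {Z : ℕ → ℝ → ℝ}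
    (hc : ∀ j, ContinuousOn (Z j) (Icc a b)) :
    ∫ t in a..b, (∑ j ∈ Finset.range I, Z j t) ^ 2 =
      ∑ i ∈ Finset.range I, ∑ j ∈ Finset.range I, ∫ t in a..b, Z i t * Z j t := by
  have h1 : ∀ t, (∑ j ∈ Finset.range I, Z j t) ^ 2 =
      ∑ i ∈ Finset.range I, ∑ j ∈ Finset.range I, Z i t * Z j t := fun t => by
    rw [sq, Finset.sum_mul_sum]
  simp_rw [h1]
  rw [int_sum hab (fun i t => ∑ j ∈ Finset.range I, Z i t * Z j t) fun i =>
    continuousOn_finsetSum _ fun j _ => (hc i).mul (hc j)]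
  refine Finset.sum_congr rfl fun i _ => ?_
  rw [int_sum hab (fun j t => Z i t * Z j t) fun j => (hc i).mul (hc j)]

/-- a double sum with the diagonal separated -/
theorem dbl {I : ℕ} {m : ℕ → ℕ → ℝ} {D E : ℝ} (hE : 0 ≤ E) (hD : ∀ i < I, m i i ≤ D)
    (h : ∀ i < I, ∀ j < I, i ≠ j → m i j ≤ E) :
    ∑ i ∈ Finset.range I, ∑ j ∈ Finset.range I, m i j ≤ I * D + (I : ℝ) * (I * E) := by
  have h1 : ∀ i ∈ Finset.range I, ∑ j ∈ Finset.range I, m i j ≤ D + I * E := by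
    intro i hi
    rw [← Finset.add_sum_erase _ _ hi]
    have h2 : ∑ j ∈ (Finset.range I).erase i, m i j ≤ ∑ j ∈ (Finset.range I).erase i, E :=
      Finset.sum_le_sum fun j hj => by
        rw [Finset.mem_erase, Finset.mem_range] at hj
        exact h i (Finset.mem_range.1 hi) j hj.2 hj.1.symm
    have h3 : ∑ j ∈ (Finset.range I).erase i, E ≤ I * E := by
      rw [Finset.sum_const, nsmul_eq_mul]
      refine mul_le_mul_of_nonneg_right ?_ hE
      have := (Finset.card_erase_le (s := Finset.range I) (a := i))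
      rw [Finset.card_range] at this
      exact_mod_cast this
    have h4 := hD i (Finset.mem_range.1 hi)
    linarith
  calc ∑ i ∈ Finset.range I, ∑ j ∈ Finset.range I, m i j
      ≤ ∑ i ∈ Finset.range I, (D + I * E) := Finset.sum_le_sum h1
    _ = I * D + (I : ℝ) * (I * E) := by
      rw [Finset.sum_const, Finset.card_range, nsmul_eq_mul]
      ring

/-- the deterministic part -/
theorem det {I : ℕ} (hI : 1 ≤ I) {A : ℝ} (hA : 0 ≤ A) {z : ℕ → ℝ}
    (hpos : ∀ j < I, -(1 / (4096 * (A + 1))) < z j)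
    (h1 : |∑ j ∈ Finset.range I, z j| < 1 / (4096 * (A + 1)) * I)
    (h2 : (I : ℝ) / 12 < ∑ j ∈ Finset.range I, z j ^ 2)
    (h4 : ∑ j ∈ Finset.range I, z j ^ 4 < A * I) : False := by
  have hA1 : 0 < A + 1 := by linarith
  obtain ⟨c, hc⟩ : ∃ c, c = 1 / (4096 * (A + 1)) := ⟨_, rfl⟩
  have hc0 : 0 < c := by rw [hc]; positivity
  have hcA : c * (A + 1) = 1 / 4096 := by rw [hc]; field_simp
  have hc1 : c ≤ 1 / 4096 := by nlinarith
  rw [← hc] at h1 hpos
  have hI' : (1 : ℝ) ≤ I := by exact_mod_cast hI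
  have hs : (0 : ℝ) < 32 * (A + 1) := by positivity
  -- pointwise
  have hp : ∀ j ∈ Finset.range I, (z j + c) ^ 2 ≤ 32 * (A + 1) * (z j + c) +
      (8 * z j ^ 4 + 8 * c ^ 4) / (32 * (A + 1)) ^ 2 := by
    intro j hj
    have hz : 0 < z j + c := by linarith [hpos j (Finset.mem_range.1 hj)]
    have e1 : (z j + c) ^ 4 ≤ 8 * z j ^ 4 + 8 * c ^ 4 := by
      nlinarith [sq_nonneg (z j - c), sq_nonneg (z j + c), sq_nonneg (z j ^ 2 - c ^ 2),
        mul_nonneg (sq_nonneg (z j - c)) (sq_nonneg (z j + c)), mul_nonneg (sq_nonneg (z j - c)) (sq_nonneg (z j)),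
        mul_nonneg (sq_nonneg (z j - c)) (sq_nonneg c), sq_nonneg (z j * c)]
    have e2 : (z j + c) ^ 2 ≤ 32 * (A + 1) * (z j + c) + (z j + c) ^ 4 / (32 * (A + 1)) ^ 2 := by
      rcases le_or_gt (z j + c) (32 * (A + 1)) with h | h
      · have : (z j + c) ^ 2 ≤ 32 * (A + 1) * (z j + c) := by nlinarith
        have h5 : 0 ≤ (z j + c) ^ 4 / (32 * (A + 1)) ^ 2 := by positivity
        linarith
      · have h5 : (z j + c) ^ 2 ≤ (z j + c) ^ 4 / (32 * (A + 1)) ^ 2 := by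
          rw [le_div_iff₀ (by positivity)]
          have h6 : (32 * (A + 1)) ^ 2 ≤ (z j + c) ^ 2 := by gcongr
          nlinarith [sq_nonneg (z j + c)]
        have h7 : 0 ≤ 32 * (A + 1) * (z j + c) := by positivity
        linarith
    have e3 : (z j + c) ^ 4 / (32 * (A + 1)) ^ 2 ≤ (8 * z j ^ 4 + 8 * c ^ 4) / (32 * (A + 1)) ^ 2 := by
      gcongr
    linarith
  have hsum := Finset.sum_le_sum hp
  have e1 : ∑ j ∈ Finset.range I, (z j + c) ^ 2 = ∑ j ∈ Finset.range I, z j ^ 2 +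
      2 * c * ∑ j ∈ Finset.range I, z j + I * c ^ 2 := by
    rw [Finset.mul_sum, ← Finset.sum_add_distrib]
    have : (I : ℝ) * c ^ 2 = ∑ j ∈ Finset.range I, c ^ 2 := by
      rw [Finset.sum_const, Finset.card_range, nsmul_eq_mul]
    rw [this, ← Finset.sum_add_distrib]
    exact Finset.sum_congr rfl fun j _ => by ring
  have e2 : ∑ j ∈ Finset.range I, (32 * (A + 1) * (z j + c) +
      (8 * z j ^ 4 + 8 * c ^ 4) / (32 * (A + 1)) ^ 2) =
      32 * (A + 1) * (∑ j ∈ Finset.range I, z j + I * c) +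
      (8 * ∑ j ∈ Finset.range I, z j ^ 4 + 8 * (I * c ^ 4)) / (32 * (A + 1)) ^ 2 := by
    rw [Finset.sum_add_distrib, ← Finset.mul_sum, Finset.sum_add_distrib, ← Finset.sum_div,
      Finset.sum_add_distrib, ← Finset.mul_sum, Finset.sum_const, Finset.card_range, nsmul_eq_mul,
      Finset.sum_const, Finset.card_range, nsmul_eq_mul]
    ring
  rw [e1, e2] at hsum
  obtain ⟨h1a, h1b⟩ := abs_lt.1 h1
  have f1 : 32 * (A + 1) * (∑ j ∈ Finset.range I, z j + I * c) ≤ I / 64 := by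
    have g1 : ∑ j ∈ Finset.range I, z j + I * c ≤ 2 * c * I := by linarith
    calc 32 * (A + 1) * (∑ j ∈ Finset.range I, z j + I * c) ≤ 32 * (A + 1) * (2 * c * I) := by
          gcongr
      _ = 64 * (c * (A + 1)) * I := by ring
      _ = I / 64 := by rw [hcA]; ring
  have f2 : (8 * ∑ j ∈ Finset.range I, z j ^ 4 + 8 * (I * c ^ 4)) / (32 * (A + 1)) ^ 2 ≤ I / 128 := by
    rw [div_le_iff₀ (by positivity)]
    have g1 : c ^ 4 ≤ 1 := pow_le_one₀ hc0.le (by linarith)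
    have g2 : (I : ℝ) * c ^ 4 ≤ I := by nlinarith
    have g3 : 8 * ∑ j ∈ Finset.range I, z j ^ 4 + 8 * (I * c ^ 4) ≤ 8 * ((A + 1) * I) := by
      nlinarith
    refine g3.trans ?_
    have g4 : (A + 1) * I ≤ (A + 1) ^ 2 * I := by
      have : 0 ≤ A * (A + 1) * I := by positivity
      nlinarith
    nlinarith
  have f3 : -(I * c ^ 2) ≤ c * ∑ j ∈ Finset.range I, z j := by nlinarith
  have f4 : c ^ 2 ≤ 1 / 4096 := by nlinarith
  have f5 : (I : ℝ) * c ^ 2 ≤ I / 4096 := by nlinarith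
  nlinarith

end sel_lemmaAux

open sel_lemmaAux in
/-- MODULE SEL1. A probabilistic lemma. Let `ℓ = b - a`, `S₁ = ∑ Z_j`, `S₂ = ∑ Z_j²`, `S₄ = ∑ Z_j⁴`.
Choose `A = 4B/ε`, `c` with `32 (2c)^{2/3} (8(A + 1))^{1/3} < 1`, `c ≤ 1/8`, then `I` large. If
`|S₁| ≤ cI`, `S₂ ≥ I/12`, `S₄ ≤ A I` and all `a_j = Z_j + c > 0`, then `∑ a_j ≤ 2cI`,
`∑ a_j² ≥ S₂ - 2c|S₁| ≥ I/32`, `∑ a_j⁴ ≤ 8(A+1)I`, against Hölder
`∑ a² ≤ (∑ a)^{2/3} (∑ a⁴)^{1/3}`. The exceptional sets: `∫ S₁² ≤ I ℓ + I ℓ`, measure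
`≤ 2ℓ/(c² I)`; `∫ S₂ ≥ I ℓ/8` and `∫ (S₂ - mean)² ≤ I B ℓ + I ℓ`, measure `≤ C_B ℓ/I`;
`∫ S₄ ≤ B I ℓ`, measure `≤ Bℓ/A`. -/
theorem sel_lemma {ε B : ℝ} (hε : 0 < ε) (hB : 1 ≤ B) : ∃ (c : ℝ) (I : ℕ), 0 < c ∧ 1 ≤ I ∧
    ∀ (a b : ℝ) (Z : ℕ → ℝ → ℝ), a < b → (∀ j, ContinuousOn (Z j) (Icc a b)) →
      (∀ j < I, (b - a) / 8 ≤ ∫ t in a..b, Z j t ^ 2) →
      (∀ j < I, ∫ t in a..b, Z j t ^ 2 ≤ b - a) →
      (∀ j < I, ∫ t in a..b, Z j t ^ 4 ≤ B * (b - a)) →
      (∀ i < I, ∀ j < I, i ≠ j → |∫ t in a..b, Z i t * Z j t| ≤ (b - a) / I) →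
      (∀ i < I, ∀ j < I, i ≠ j → ∫ t in a..b, Z i t ^ 2 * Z j t ^ 2 ≤
        1 / (b - a) * (∫ t in a..b, Z i t ^ 2) * (∫ t in a..b, Z j t ^ 2) + (b - a) / I) →
      volume.real {t ∈ Icc a b | ∀ j < I, -c < Z j t} ≤ ε * (b - a) := by
  obtain ⟨A, hA⟩ : ∃ A, A = 4 * B / ε := ⟨_, rfl⟩
  have hA0 : 0 < A := by rw [hA]; positivity
  obtain ⟨c, hc⟩ : ∃ c, c = 1 / (4096 * (A + 1)) := ⟨_, rfl⟩
  have hc0 : 0 < c := by rw [hc]; positivity
  obtain ⟨I, hI⟩ := exists_nat_ge (max 1 (max (8 / (c ^ 2 * ε)) (2304 * (B + 1) / ε)))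
  have hI1 : (1 : ℝ) ≤ I := (le_max_left _ _).trans hI
  have hI2 : 8 / (c ^ 2 * ε) ≤ I := (le_max_left _ _).trans ((le_max_right _ _).trans hI)
  have hI3 : 2304 * (B + 1) / ε ≤ I := (le_max_right _ _).trans ((le_max_right _ _).trans hI)
  have hI1' : 1 ≤ I := by exact_mod_cast hI1
  have hI0 : (0 : ℝ) < I := by linarith
  refine ⟨c, I, hc0, hI1', ?_⟩
  intro a b Z hab hcont hlow hup h4 hcr hcr2
  have hl : 0 < b - a := by linarith
  -- E1
  have hE1 : volume.real {t ∈ Icc a b | (c * I) ^ 2 ≤ (∑ j ∈ Finset.range I, Z j t) ^ 2} ≤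
      ε * (b - a) / 4 := by
    have h1 := markov hab (K := (c * I) ^ 2) (by positivity)
      (f := fun t => (∑ j ∈ Finset.range I, Z j t) ^ 2)
      ((continuousOn_finsetSum _ fun j _ => hcont j).pow 2) (fun t => sq_nonneg _)
    refine h1.trans ?_
    rw [sum_sq_int hab hcont]
    have h2 : ∑ i ∈ Finset.range I, ∑ j ∈ Finset.range I, ∫ t in a..b, Z i t * Z j t ≤
        I * (b - a) + (I : ℝ) * (I * ((b - a) / I)) := by
      refine dbl (by positivity) (fun i hi => ?_) (fun i hi j hj hij => (le_abs_self _).trans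
        (hcr i hi j hj hij))
      have := hup i hi
      simpa [sq] using this
    have h3 : (I : ℝ) * (b - a) + (I : ℝ) * (I * ((b - a) / I)) = 2 * I * (b - a) := by
      field_simp
      ring
    rw [h3] at h2
    rw [div_le_iff₀ (by positivity)]
    refine h2.trans ?_
    have h4 : 8 ≤ c ^ 2 * ε * I := by
      rw [div_le_iff₀ (by positivity)] at hI2
      linarith
    have h5 : 2 * (I : ℝ) * (b - a) * 4 ≤ (c ^ 2 * ε * I) * (I * (b - a)) := by
      have : 0 < (I : ℝ) * (b - a) := by positivity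
      nlinarith
    nlinarith
  -- E2
  have hE2 : volume.real {t ∈ Icc a b | ((I : ℝ) / 24) ^ 2 ≤
      ((∑ j ∈ Finset.range I, Z j t ^ 2) -
        (∑ j ∈ Finset.range I, ∫ t in a..b, Z j t ^ 2) / (b - a)) ^ 2} ≤ ε * (b - a) / 4 := by
    obtain ⟨M, hM⟩ : ∃ M, M = ∑ j ∈ Finset.range I, ∫ t in a..b, Z j t ^ 2 := ⟨_, rfl⟩
    rw [← hM]
    have hcS : ContinuousOn (fun t => ∑ j ∈ Finset.range I, Z j t ^ 2) (Icc a b) :=
      continuousOn_finsetSum _ fun j _ => (hcont j).pow 2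
    have h1 := markov hab (K := ((I : ℝ) / 24) ^ 2) (by positivity)
      (f := fun t => ((∑ j ∈ Finset.range I, Z j t ^ 2) - M / (b - a)) ^ 2)
      ((hcS.sub continuousOn_const).pow 2) (fun t => sq_nonneg _)
    refine h1.trans ?_
    have hMi : ∫ t in a..b, ∑ j ∈ Finset.range I, Z j t ^ 2 = M := by
      rw [int_sum hab (fun j t => Z j t ^ 2) fun j => (hcont j).pow 2, hM]
    have hvar : ∫ t in a..b, ((∑ j ∈ Finset.range I, Z j t ^ 2) - M / (b - a)) ^ 2 =
        (∫ t in a..b, (∑ j ∈ Finset.range I, Z j t ^ 2) ^ 2) - M ^ 2 / (b - a) := by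
      have e1 : ∀ t, ((∑ j ∈ Finset.range I, Z j t ^ 2) - M / (b - a)) ^ 2 =
          (∑ j ∈ Finset.range I, Z j t ^ 2) ^ 2 -
            (2 * (M / (b - a))) * (∑ j ∈ Finset.range I, Z j t ^ 2) + (M / (b - a)) ^ 2 := fun t => by
        ring
      simp_rw [e1]
      rw [intervalIntegral.integral_add, intervalIntegral.integral_sub,
        intervalIntegral.integral_const_mul, hMi, intervalIntegral.integral_const, smul_eq_mul]
      · field_simp
        ring
      · exact (hcS.pow 2).intervalIntegrable_of_Icc hab.le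
      · exact (continuousOn_const.mul hcS).intervalIntegrable_of_Icc hab.le
      · exact ((hcS.pow 2).sub (continuousOn_const.mul hcS)).intervalIntegrable_of_Icc hab.le
      · exact intervalIntegrable_const
    rw [hvar, sum_sq_int hab (Z := fun j t => Z j t ^ 2) (fun j => (hcont j).pow 2)]
    have h2 : ∑ i ∈ Finset.range I, ∑ j ∈ Finset.range I, (∫ t in a..b, Z i t ^ 2 * Z j t ^ 2) -
        M ^ 2 / (b - a) ≤ I * (B * (b - a)) + (I : ℝ) * (I * ((b - a) / I)) := by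
      have h3 : M ^ 2 / (b - a) = ∑ i ∈ Finset.range I, ∑ j ∈ Finset.range I,
          1 / (b - a) * (∫ t in a..b, Z i t ^ 2) * (∫ t in a..b, Z j t ^ 2) := by
        rw [hM, sq, Finset.sum_mul_sum, Finset.sum_div]
        refine Finset.sum_congr rfl fun i _ => ?_
        rw [Finset.sum_div]
        exact Finset.sum_congr rfl fun j _ => by ring
      rw [h3, ← Finset.sum_sub_distrib]
      simp_rw [← Finset.sum_sub_distrib]
      refine dbl (by positivity) (fun i hi => ?_) (fun i hi j hj hij => ?_)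
      · have h5 := h4 i hi
        have h6 : ∀ t, Z i t ^ 2 * Z i t ^ 2 = Z i t ^ 4 := fun t => by ring
        simp_rw [h6]
        have h7 : 0 ≤ 1 / (b - a) * (∫ t in a..b, Z i t ^ 2) * (∫ t in a..b, Z i t ^ 2) := by
          rw [mul_assoc]
          exact mul_nonneg (by positivity) (mul_self_nonneg _)
        linarith
      · have := hcr2 i hi j hj hij
        linarith
    have h3 : (I : ℝ) * (B * (b - a)) + (I : ℝ) * (I * ((b - a) / I)) = I * (B + 1) * (b - a) := by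
      field_simp
    rw [h3] at h2
    rw [div_le_iff₀ (by positivity)]
    refine h2.trans ?_
    have h5 : 2304 * (B + 1) ≤ I * ε := by
      rw [div_le_iff₀ hε] at hI3
      exact hI3
    have h6 : 0 < (I : ℝ) * (b - a) := by positivity
    have h7 : 2304 * (B + 1) * ((I : ℝ) * (b - a)) ≤ I * ε * (I * (b - a)) :=
      mul_le_mul_of_nonneg_right h5 h6.le
    nlinarith
  -- E4
  have hE4 : volume.real {t ∈ Icc a b | A * I ≤ ∑ j ∈ Finset.range I, Z j t ^ 4} ≤
      ε * (b - a) / 4 := by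
    have h1 := markov hab (K := A * I) (by positivity)
      (f := fun t => ∑ j ∈ Finset.range I, Z j t ^ 4)
      (continuousOn_finsetSum _ fun j _ => (hcont j).pow 4)
      (fun t => Finset.sum_nonneg fun j _ => by positivity)
    refine h1.trans ?_
    rw [int_sum hab (fun j t => Z j t ^ 4) fun j => (hcont j).pow 4]
    have h2 : ∑ j ∈ Finset.range I, ∫ t in a..b, Z j t ^ 4 ≤ I * (B * (b - a)) := by
      calc ∑ j ∈ Finset.range I, ∫ t in a..b, Z j t ^ 4 ≤ ∑ j ∈ Finset.range I, B * (b - a) :=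
            Finset.sum_le_sum fun j hj => h4 j (Finset.mem_range.1 hj)
        _ = I * (B * (b - a)) := by rw [Finset.sum_const, Finset.card_range, nsmul_eq_mul]
    rw [div_le_iff₀ (by positivity)]
    refine h2.trans (le_of_eq ?_)
    rw [hA]
    field_simp
  -- the union
  have hsub : {t ∈ Icc a b | ∀ j < I, -c < Z j t} ⊆
      ({t ∈ Icc a b | (c * I) ^ 2 ≤ (∑ j ∈ Finset.range I, Z j t) ^ 2} ∪
      {t ∈ Icc a b | ((I : ℝ) / 24) ^ 2 ≤ ((∑ j ∈ Finset.range I, Z j t ^ 2) -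
        (∑ j ∈ Finset.range I, ∫ t in a..b, Z j t ^ 2) / (b - a)) ^ 2}) ∪
      {t ∈ Icc a b | A * I ≤ ∑ j ∈ Finset.range I, Z j t ^ 4} := by
    rintro t ⟨ht, htj⟩
    by_contra hcon
    simp only [Set.mem_union, Set.mem_ofPred_eq, not_or, not_and, not_le] at hcon
    obtain ⟨⟨e1, e2⟩, e3⟩ := hcon
    have e1 := e1 ht
    have e2 := e2 ht
    have e3 := e3 ht
    refine det hI1' hA0.le (z := fun j => Z j t) (fun j hj => by rw [← hc]; exact htj j hj) ?_ ?_ e3
    · rw [← hc]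
      exact abs_lt_of_sq_lt_sq e1 (by positivity)
    · have h5 := (abs_lt.1 (abs_lt_of_sq_lt_sq e2 (by positivity))).1
      have h6 : (I : ℝ) / 8 ≤ (∑ j ∈ Finset.range I, ∫ t in a..b, Z j t ^ 2) / (b - a) := by
        rw [le_div_iff₀ hl]
        calc (I : ℝ) / 8 * (b - a) = ∑ j ∈ Finset.range I, (b - a) / 8 := by
              rw [Finset.sum_const, Finset.card_range, nsmul_eq_mul]
              ring
          _ ≤ _ := Finset.sum_le_sum fun j hj => hlow j (Finset.mem_range.1 hj)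
      show (I : ℝ) / 12 < ∑ j ∈ Finset.range I, Z j t ^ 2
      linarith
  have hfin : ∀ s : Set ℝ, s ⊆ Icc a b → volume s ≠ ⊤ := fun s hs =>
    ((measure_mono hs).trans_lt (by simp)).ne
  have hf1 := hfin {t ∈ Icc a b | (c * I) ^ 2 ≤ (∑ j ∈ Finset.range I, Z j t) ^ 2}
    (Set.sep_subset _ _)
  calc volume.real {t ∈ Icc a b | ∀ j < I, -c < Z j t} ≤ _ := measureReal_mono hsub
        (hfin _ (Set.union_subset (Set.union_subset (Set.sep_subset _ _) (Set.sep_subset _ _))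
          (Set.sep_subset _ _)))
    _ ≤ ε * (b - a) / 4 + ε * (b - a) / 4 + ε * (b - a) / 4 := by
      refine (measureReal_union_le _ _).trans (add_le_add ?_ hE4)
      exact (measureReal_union_le _ _).trans (add_le_add hE1 hE2)
    _ ≤ ε * (b - a) := by
      have : 0 < ε * (b - a) := by positivity
      linarith

end Pool.Agent.MP_67227b_nt.Ah
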