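import Pool.Agent.MP_67227b_nt.Ah.AhMert
import Pool.Agent.MP_67227b_nt.Ah.AhMom

set_option autoImplicit false

open Filter Topology Set MeasureTheory Complex
open scoped Real ArithmeticFunction ContDiff

namespace Pool.Agent.MP_67227b_nt.Ah

open Pool.Agent.Lib.ZetaCount_helper33 Pool.Agent.MP_67227b_nt Pool.Agent.MP_67227b_nt.Mo
open Pool.Agent.MP_67227b_nt.Sg Pool.Agent.MP_67227b_nt.Pp
open Pool.Agent.MP_67227b_nt.Mo.MomentBAux (DP)

/-- The real part of the sum over the primes in `(T^δ', T^δ]` at `Re w = 1`. -/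
noncomputable def Up (δ' δ T t : ℝ) : ℝ := (XP δ' δ T (sw T t 1)).re

namespace UMomAux

open MeanBBAux

/-- The primes of the block. -/
private noncomputable def SS (δ' δ T : ℝ) : Finset ℕ :=
  (Finset.Ioc ⌊T ^ δ'⌋₊ ⌊T ^ δ⌋₊).filter Nat.Prime

/-- The coefficient. -/
private noncomputable def bb (T : ℝ) (p : ℕ) : ℝ := (p : ℝ) ^ (-(1 / 2 + 1 / Real.log T))

private theorem bb_nonneg (T : ℝ) (p : ℕ) : 0 ≤ bb T p := Real.rpow_nonneg (Nat.cast_nonneg _) _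

private theorem bb_le_one {T : ℝ} (hT : 1 < T) {p : ℕ} (hp : 1 ≤ p) : bb T p ≤ 1 := by
  unfold bb
  have hL : 0 < Real.log T := Real.log_pos hT
  refine Real.rpow_le_one_of_one_le_of_nonpos (by exact_mod_cast hp) ?_
  have : 0 < 1 / Real.log T := by positivity
  linarith

private theorem bb_le {T : ℝ} (hT : 1 < T) {p : ℕ} (hp : 1 ≤ p) : bb T p ≤ 1 / Real.sqrt p := by
  unfold bb
  have hL : 0 < Real.log T := Real.log_pos hT
  have hp' : (1 : ℝ) ≤ p := by exact_mod_cast hp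
  have h1 : (p : ℝ) ^ (-(1 / 2 + 1 / Real.log T)) ≤ (p : ℝ) ^ (-(1 / 2 : ℝ)) := by
    refine Real.rpow_le_rpow_of_exponent_le hp' ?_
    have : 0 < 1 / Real.log T := by positivity
    linarith
  refine h1.trans (le_of_eq ?_)
  rw [Real.rpow_neg (by linarith), Real.sqrt_eq_rpow, one_div, one_div]

private theorem SS_pos {δ' δ T : ℝ} {p : ℕ} (hp : p ∈ SS δ' δ T) : 1 ≤ p :=
  (Finset.mem_filter.1 hp).2.one_lt.le

private theorem SS_prime {δ' δ T : ℝ} {p : ℕ} (hp : p ∈ SS δ' δ T) : p.Prime :=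
  (Finset.mem_filter.1 hp).2

private theorem SS_le {δ' δ T : ℝ} (hT : 0 ≤ T) {p : ℕ} (hp : p ∈ SS δ' δ T) :
    (p : ℝ) ≤ T ^ δ := by
  have h := (Finset.mem_Ioc.1 (Finset.mem_filter.1 hp).1).2
  exact (Nat.le_floor_iff (Real.rpow_nonneg hT _)).1 h

/-- The block as an exponential sum. -/
private theorem XP_eq {δ' δ T : ℝ} (t : ℝ) :
    XP δ' δ T (sw T t 1) = DP (SS δ' δ T) (fun p => (bb T p : ℂ)) t := by
  unfold XP DP
  refine Finset.sum_congr rfl fun p hp => ?_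
  have hp1 : 1 ≤ p := SS_pos hp
  have hp0 : (0 : ℝ) < p := by exact_mod_cast hp1
  have hpc : (p : ℂ) ≠ 0 := by
    have : p ≠ 0 := by omega
    exact_mod_cast this
  unfold bb E sw
  beta_reduce
  rw [Complex.cpow_def_of_ne_zero hpc, Real.rpow_def_of_pos hp0, Complex.ofReal_exp,
    ← Complex.exp_add, ← Complex.natCast_log]
  congr 1
  push_cast
  ring

private theorem E_re (l t : ℝ) : (E l t).re = Real.cos (l * t) := by
  unfold E
  rw [show I * (t : ℂ) * (l : ℂ) = ((l * t : ℝ) : ℂ) * I by push_cast; ring,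
    Complex.exp_ofReal_mul_I_re]

private theorem Up_eq {δ' δ T : ℝ} (t : ℝ) :
    Up δ' δ T t = ∑ p ∈ SS δ' δ T, bb T p * Real.cos (Real.log p * t) := by
  unfold Up
  rw [XP_eq]
  unfold DP
  rw [Complex.re_sum]
  refine Finset.sum_congr rfl fun p _ => ?_
  rw [Complex.re_ofReal_mul, E_re, neg_mul, Real.cos_neg]

private theorem Up_continuous (δ' δ T : ℝ) : Continuous (Up δ' δ T) := by
  have : Up δ' δ T = fun t => ∑ p ∈ SS δ' δ T, bb T p * Real.cos (Real.log p * t) := by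
    funext t
    exact Up_eq t
  rw [this]
  fun_prop

private theorem int_cos_zero {A B : ℝ} {N M : ℕ} (h : N = M) :
    ∫ t in A..B, Real.cos ((Real.log N - Real.log M) * t) = B - A := by
  subst h
  simp

private theorem int_cos_le {A B Z : ℝ} {N M : ℕ} (hN : 1 ≤ N) (hM : 1 ≤ M) (hNZ : (N : ℝ) ≤ Z)
    (hMZ : (M : ℝ) ≤ Z) (h : N ≠ M) :
    |∫ t in A..B, Real.cos ((Real.log N - Real.log M) * t)| ≤ 2 * Z := by
  have hZ : 0 < Z := lt_of_lt_of_le (by exact_mod_cast hN) hNZ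
  have h1 := MomentBAux.log_sub_log hM hN hMZ hNZ (Ne.symm h)
  set c := Real.log N - Real.log M with hc
  have hc0 : 0 < |c| := lt_of_lt_of_le (by positivity) h1
  have hc1 : c ≠ 0 := abs_pos.1 hc0
  have h2 : ∫ t in A..B, Real.cos (c * t) = (Real.sin (c * B) - Real.sin (c * A)) / c := by
    rw [intervalIntegral.integral_comp_mul_left (fun x => Real.cos x) hc1, integral_cos,
      smul_eq_mul]
    field_simp
  rw [h2, abs_div, div_le_iff₀ hc0]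
  have h3 : |Real.sin (c * B) - Real.sin (c * A)| ≤ 2 := by
    have h4 := Real.abs_sin_le_one (c * B)
    have h5 := Real.abs_sin_le_one (c * A)
    exact (abs_sub _ _).trans (by linarith)
  refine h3.trans ?_
  have h6 := mul_le_mul_of_nonneg_left h1 (show 0 ≤ 2 * Z by positivity)
  have h7 : 2 * Z * (1 / Z) = 2 := by field_simp
  linarith

/-- One frequency. -/
private theorem int_cos_freq {A B Z : ℝ} (_hAB : A ≤ B) {N M : ℕ} (hN : 1 ≤ N) (hM : 1 ≤ M)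
    (hNZ : (N : ℝ) ≤ Z) (hMZ : (M : ℝ) ≤ Z) (P : Prop) [Decidable P] (h : N = M ↔ P) :
    |(∫ t in A..B, Real.cos ((Real.log N - Real.log M) * t)) - (if P then B - A else 0)| ≤
      2 * Z := by
  have hZ : 0 < Z := lt_of_lt_of_le (by exact_mod_cast hN) hNZ
  by_cases hP : P
  · rw [if_pos hP, int_cos_zero (h.2 hP), sub_self, abs_zero]
    positivity
  · rw [if_neg hP, sub_zero]
    exact int_cos_le hN hM hNZ hMZ fun h' => hP (h.1 h')

private theorem log_mul_nat {p q : ℕ} (hp : 1 ≤ p) (hq : 1 ≤ q) :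
    Real.log ((p * q : ℕ) : ℝ) = Real.log p + Real.log q := by
  have hp0 : (p : ℝ) ≠ 0 := by
    have : p ≠ 0 := by omega
    exact_mod_cast this
  have hq0 : (q : ℝ) ≠ 0 := by
    have : q ≠ 0 := by omega
    exact_mod_cast this
  push_cast
  exact Real.log_mul hp0 hq0

private theorem two_cos {A B Z : ℝ} (hAB : A ≤ B) {p q : ℕ} (hp : p.Prime) (hq : q.Prime)
    (hpZ : (p : ℝ) ≤ Z) (hqZ : (q : ℝ) ≤ Z) :
    |(∫ t in A..B, Real.cos (Real.log p * t) * Real.cos (Real.log q * t)) -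
      (if p = q then (B - A) / 2 else 0)| ≤ 2 * Z ^ 2 := by
  have hp1 := hp.one_lt.le
  have hq1 := hq.one_lt.le
  have hp' : (1 : ℝ) ≤ p := by exact_mod_cast hp1
  have hq' : (1 : ℝ) ≤ q := by exact_mod_cast hq1
  have hZ1 : 1 ≤ Z := hp'.trans hpZ
  have hZZ : Z ≤ Z ^ 2 := by nlinarith
  have h1 : ∀ t : ℝ, Real.cos (Real.log p * t) * Real.cos (Real.log q * t) =
      1 / 2 * Real.cos ((Real.log p - Real.log q) * t) +
      1 / 2 * Real.cos ((Real.log ((p * q : ℕ) : ℝ) - Real.log ((1 : ℕ) : ℝ)) * t) := by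
    intro t
    rw [log_mul_nat hp1 hq1]
    simp only [Nat.cast_one, Real.log_one, sub_zero, sub_mul, add_mul, Real.cos_add,
      Real.cos_sub]
    ring
  simp only [h1]
  have hI : ∀ c : ℝ, IntervalIntegrable (fun t : ℝ => 1 / 2 * Real.cos (c * t)) volume A B :=
    fun c => Continuous.intervalIntegrable (by fun_prop) _ _
  rw [intervalIntegral.integral_add (hI _) (hI _),
    intervalIntegral.integral_const_mul, intervalIntegral.integral_const_mul]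
  have h2 := int_cos_freq hAB hp1 hq1 (hpZ.trans hZZ) (hqZ.trans hZZ) (p = q) Iff.rfl
  have h3 := int_cos_freq (N := p * q) (M := 1) (Z := Z ^ 2) hAB (Nat.mul_pos hp1 hq1) le_rfl
    (by push_cast; nlinarith) (by push_cast; nlinarith) False
    (by
      constructor
      · intro h
        have := hp.two_le
        have := hq.two_le
        nlinarith
      · exact False.elim)
  rw [if_neg not_false, sub_zero] at h3
  generalize (∫ t in A..B, Real.cos ((Real.log p - Real.log q) * t)) = J1 at h2 ⊢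
  generalize (∫ t in A..B, Real.cos ((Real.log ((p * q : ℕ) : ℝ) -
    Real.log ((1 : ℕ) : ℝ)) * t)) = J2 at h3 ⊢
  rw [abs_le] at h2 h3 ⊢
  obtain ⟨h2a, h2b⟩ := h2
  obtain ⟨h3a, h3b⟩ := h3
  split_ifs at h2a h2b ⊢ <;> constructor <;> linarith

private theorem two_sum {A B Z : ℝ} (hAB : A ≤ B) (S1 S2 : Finset ℕ) (b : ℕ → ℝ)
    (hb : ∀ p, 0 ≤ b p) (h1 : ∀ p ∈ S1, p.Prime ∧ (p : ℝ) ≤ Z) (h2 : ∀ p ∈ S2, p.Prime ∧ (p : ℝ) ≤ Z) :
    |(∫ t in A..B, (∑ p ∈ S1, b p * Real.cos (Real.log p * t)) *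
        (∑ p ∈ S2, b p * Real.cos (Real.log p * t))) -
      (B - A) / 2 * ∑ p ∈ S1, ∑ q ∈ S2, (if p = q then b p * b q else 0)| ≤
      2 * Z ^ 2 * ((∑ p ∈ S1, b p) * ∑ p ∈ S2, b p) := by
  have e1 : ∀ t : ℝ, (∑ p ∈ S1, b p * Real.cos (Real.log p * t)) *
        (∑ p ∈ S2, b p * Real.cos (Real.log p * t)) =
      ∑ p ∈ S1, ∑ q ∈ S2, b p * b q * (Real.cos (Real.log p * t) * Real.cos (Real.log q * t)) := by
    intro t
    rw [Finset.sum_mul_sum]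
    refine Finset.sum_congr rfl fun p _ => Finset.sum_congr rfl fun q _ => ?_
    ring
  simp only [e1]
  rw [intervalIntegral.integral_finsetSum (fun p _ => by
    refine Continuous.intervalIntegrable ?_ _ _
    fun_prop)]
  have e2 : ∀ p ∈ S1, (∫ t in A..B, ∑ q ∈ S2,
      b p * b q * (Real.cos (Real.log p * t) * Real.cos (Real.log q * t))) =
      ∑ q ∈ S2, b p * b q * ∫ t in A..B, Real.cos (Real.log p * t) * Real.cos (Real.log q * t) := by
    intro p _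
    rw [intervalIntegral.integral_finsetSum (fun q _ => by
      refine Continuous.intervalIntegrable ?_ _ _
      fun_prop)]
    refine Finset.sum_congr rfl fun q _ => ?_
    rw [intervalIntegral.integral_const_mul]
  rw [Finset.sum_congr rfl e2, Finset.sum_mul_sum, Finset.mul_sum, Finset.mul_sum,
    ← Finset.sum_sub_distrib]
  refine (Finset.abs_sum_le_sum_abs _ _).trans (Finset.sum_le_sum fun p hp => ?_)
  rw [Finset.mul_sum, Finset.mul_sum, ← Finset.sum_sub_distrib]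
  refine (Finset.abs_sum_le_sum_abs _ _).trans (Finset.sum_le_sum fun q hq => ?_)
  have h3 := two_cos hAB (h1 p hp).1 (h2 q hq).1 (h1 p hp).2 (h2 q hq).2
  have h4 : b p * b q * (∫ t in A..B, Real.cos (Real.log p * t) * Real.cos (Real.log q * t)) -
      (B - A) / 2 * (if p = q then b p * b q else 0) =
      b p * b q * ((∫ t in A..B, Real.cos (Real.log p * t) * Real.cos (Real.log q * t)) -
        (if p = q then (B - A) / 2 else 0)) := by
    split_ifs <;> ring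
  rw [h4, abs_mul, abs_of_nonneg (mul_nonneg (hb p) (hb q)), mul_comm]
  exact mul_le_mul_of_nonneg_right h3 (mul_nonneg (hb p) (hb q))

private theorem dvd_eq {p q : ℕ} (hp : p.Prime) (hq : q.Prime) (h : p ∣ q) : p = q :=
  (Nat.prime_dvd_prime_iff_eq hp hq).1 h

private theorem four_cos {A B Y : ℝ} (hAB : A ≤ B) {p p' q q' : ℕ} (hp : p.Prime)
    (hp' : p'.Prime) (hq : q.Prime) (hq' : q'.Prime) (hpY : (p : ℝ) ≤ Y) (hpY' : (p' : ℝ) ≤ Y)
    (hqY : (q : ℝ) ≤ Y) (hqY' : (q' : ℝ) ≤ Y) (n1 : p ≠ q) (n2 : p ≠ q') (n3 : p' ≠ q)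
    (n4 : p' ≠ q') :
    |(∫ t in A..B, Real.cos (Real.log p * t) * Real.cos (Real.log p' * t) *
        (Real.cos (Real.log q * t) * Real.cos (Real.log q' * t))) -
      (if p = p' ∧ q = q' then (B - A) / 4 else 0)| ≤ 2 * Y ^ 4 := by
  have a1 := hp.one_lt.le
  have a2 := hp'.one_lt.le
  have a3 := hq.one_lt.le
  have a4 := hq'.one_lt.le
  have b1 : (1 : ℝ) ≤ p := by exact_mod_cast a1
  have b2 : (1 : ℝ) ≤ p' := by exact_mod_cast a2
  have b3 : (1 : ℝ) ≤ q := by exact_mod_cast a3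
  have b4 : (1 : ℝ) ≤ q' := by exact_mod_cast a4
  have hY1 : 1 ≤ Y := b1.trans hpY
  have y1 : Y ≤ Y ^ 4 := by
    calc Y = Y ^ 1 := (pow_one Y).symm
      _ ≤ Y ^ 4 := pow_le_pow_right₀ hY1 (by norm_num)
  have y2 : Y ^ 2 ≤ Y ^ 4 := pow_le_pow_right₀ hY1 (by norm_num)
  have y3 : Y ^ 3 ≤ Y ^ 4 := pow_le_pow_right₀ hY1 (by norm_num)
  have y0 : (1 : ℝ) ≤ Y ^ 4 := one_le_pow₀ hY1
  have hm2 : ∀ x y : ℕ, (x : ℝ) ≤ Y → (y : ℝ) ≤ Y → ((x * y : ℕ) : ℝ) ≤ Y ^ 2 := by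
    intro x y hx hy
    push_cast
    have : (x : ℝ) * y ≤ Y * Y := mul_le_mul hx hy (Nat.cast_nonneg _) (by linarith)
    nlinarith
  have hm3 : ∀ x y z : ℕ, (x : ℝ) ≤ Y → (y : ℝ) ≤ Y → (z : ℝ) ≤ Y →
      ((x * y * z : ℕ) : ℝ) ≤ Y ^ 3 := by
    intro x y z hx hy hz
    have h := hm2 x y hx hy
    rw [Nat.cast_mul]
    have : ((x * y : ℕ) : ℝ) * z ≤ Y ^ 2 * Y := mul_le_mul h hz (Nat.cast_nonneg _) (by positivity)
    linarith [this, (by ring : Y ^ 2 * Y = Y ^ 3)]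
  have hm4 : ∀ x y z w : ℕ, (x : ℝ) ≤ Y → (y : ℝ) ≤ Y → (z : ℝ) ≤ Y → (w : ℝ) ≤ Y →
      ((x * y * z * w : ℕ) : ℝ) ≤ Y ^ 4 := by
    intro x y z w hx hy hz hw
    have h := hm3 x y z hx hy hz
    rw [Nat.cast_mul]
    have : ((x * y * z : ℕ) : ℝ) * w ≤ Y ^ 3 * Y :=
      mul_le_mul h hw (Nat.cast_nonneg _) (by positivity)
    linarith [this, (by ring : Y ^ 3 * Y = Y ^ 4)]
  have hM : ∀ x y : ℕ, 1 ≤ x → 1 ≤ y → 1 ≤ x * y := fun x y hx hy => Nat.mul_pos hx hy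
  have m12 := hM _ _ a1 a2
  have m34 := hM _ _ a3 a4
  have m13 := hM _ _ a1 a3
  have m14 := hM _ _ a1 a4
  have m23 := hM _ _ a2 a3
  have m24 := hM _ _ a2 a4
  have m123 := hM _ _ m12 a3
  have m124 := hM _ _ m12 a4
  have m134 := hM _ _ m13 a4
  have m234 := hM _ _ m23 a4
  have m1234 := hM _ _ m123 a4
  -- the eight frequencies
  have f1 := int_cos_freq (N := p * p' * q * q') (M := 1) (Z := Y ^ 4) hAB
    m1234 le_rfl (hm4 _ _ _ _ hpY hpY' hqY hqY') (by simpa using y0) False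
    ⟨fun h => by
      have h5 : p ∣ 1 := ⟨p' * q * q', by rw [← h]; ring⟩
      exact hp.one_lt.ne' (Nat.dvd_one.1 h5), False.elim⟩
  have f2 := int_cos_freq (N := p * p' * q) (M := q') (Z := Y ^ 4) hAB
    m123 a4 ((hm3 _ _ _ hpY hpY' hqY).trans y3) (hqY'.trans y1) False
    ⟨fun h => n2 (dvd_eq hp hq' ⟨p' * q, by rw [← h]; ring⟩), False.elim⟩
  have f3 := int_cos_freq (N := p * p' * q') (M := q) (Z := Y ^ 4) hAB
    m124 a3 ((hm3 _ _ _ hpY hpY' hqY').trans y3) (hqY.trans y1) False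
    ⟨fun h => n1 (dvd_eq hp hq ⟨p' * q', by rw [← h]; ring⟩), False.elim⟩
  have f4 := int_cos_freq (N := p * p') (M := q * q') (Z := Y ^ 4) hAB
    m12 m34 ((hm2 _ _ hpY hpY').trans y2) ((hm2 _ _ hqY hqY').trans y2)
    False
    ⟨fun h => by
      have h5 : p ∣ q * q' := ⟨p', h.symm⟩
      rcases (Nat.Prime.dvd_mul hp).1 h5 with h6 | h6
      · exact n1 (dvd_eq hp hq h6)
      · exact n2 (dvd_eq hp hq' h6), False.elim⟩
  have f5 := int_cos_freq (N := p * q * q') (M := p') (Z := Y ^ 4) hAB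
    m134 a2 ((hm3 _ _ _ hpY hqY hqY').trans y3) (hpY'.trans y1) False
    ⟨fun h => n3 (dvd_eq hq hp' ⟨p * q', by rw [← h]; ring⟩).symm, False.elim⟩
  have f6 := int_cos_freq (N := p * q) (M := p' * q') (Z := Y ^ 4) hAB
    m13 m24 ((hm2 _ _ hpY hqY).trans y2) ((hm2 _ _ hpY' hqY').trans y2)
    (p = p' ∧ q = q')
    ⟨fun h => by
      have h5 : p ∣ p' * q' := ⟨q, h.symm⟩
      rcases (Nat.Prime.dvd_mul hp).1 h5 with h6 | h6
      · have h7 := dvd_eq hp hp' h6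
        refine ⟨h7, ?_⟩
        subst h7
        exact Nat.eq_of_mul_eq_mul_left hp.pos h
      · exact absurd (dvd_eq hp hq' h6) n2, fun h => by rw [h.1, h.2]⟩
  have f7 := int_cos_freq (N := p * q') (M := p' * q) (Z := Y ^ 4) hAB
    m14 m23 ((hm2 _ _ hpY hqY').trans y2) ((hm2 _ _ hpY' hqY).trans y2)
    (p = p' ∧ q = q')
    ⟨fun h => by
      have h5 : p ∣ p' * q := ⟨q', h.symm⟩
      rcases (Nat.Prime.dvd_mul hp).1 h5 with h6 | h6
      · have h7 := dvd_eq hp hp' h6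
        refine ⟨h7, ?_⟩
        subst h7
        exact (Nat.eq_of_mul_eq_mul_left hp.pos h).symm
      · exact absurd (dvd_eq hp hq h6) n1, fun h => by rw [h.1, h.2]⟩
  have f8 := int_cos_freq (N := p) (M := p' * q * q') (Z := Y ^ 4) hAB
    a1 m234 (hpY.trans y1) ((hm3 _ _ _ hpY' hqY hqY').trans y3) False
    ⟨fun h => n1 (dvd_eq hq hp ⟨p' * q', by rw [h]; ring⟩).symm, False.elim⟩
  have l2 : Real.log ((q * q' : ℕ) : ℝ) = Real.log q + Real.log q' := log_mul_nat a3 a4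
  have e0 : ∀ t : ℝ, Real.cos (Real.log p * t) * Real.cos (Real.log p' * t) *
        (Real.cos (Real.log q * t) * Real.cos (Real.log q' * t)) =
      1 / 8 * Real.cos ((Real.log ((p * p' * q * q' : ℕ) : ℝ) - Real.log ((1 : ℕ) : ℝ)) * t) +
      1 / 8 * Real.cos ((Real.log ((p * p' * q : ℕ) : ℝ) - Real.log (q' : ℝ)) * t) +
      1 / 8 * Real.cos ((Real.log ((p * p' * q' : ℕ) : ℝ) - Real.log (q : ℝ)) * t) +
      1 / 8 * Real.cos ((Real.log ((p * p' : ℕ) : ℝ) - Real.log ((q * q' : ℕ) : ℝ)) * t) +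
      1 / 8 * Real.cos ((Real.log ((p * q * q' : ℕ) : ℝ) - Real.log (p' : ℝ)) * t) +
      1 / 8 * Real.cos ((Real.log ((p * q : ℕ) : ℝ) - Real.log ((p' * q' : ℕ) : ℝ)) * t) +
      1 / 8 * Real.cos ((Real.log ((p * q' : ℕ) : ℝ) - Real.log ((p' * q : ℕ) : ℝ)) * t) +
      1 / 8 * Real.cos ((Real.log (p : ℝ) - Real.log ((p' * q * q' : ℕ) : ℝ)) * t) := by
    intro t
    rw [log_mul_nat (p := p * p' * q) (q := q') m123 a4,
      log_mul_nat (p := p * p') (q := q) m12 a3,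
      log_mul_nat (p := p * p') (q := q') m12 a4,
      log_mul_nat a1 a2, log_mul_nat a3 a4,
      log_mul_nat (p := p * q) (q := q') m13 a4, log_mul_nat a1 a3,
      log_mul_nat a2 a4, log_mul_nat a1 a4,
      log_mul_nat (p := p' * q) (q := q') m23 a4, log_mul_nat a2 a3]
    simp only [Nat.cast_one, Real.log_one, sub_zero, sub_mul, add_mul, Real.cos_add,
      Real.cos_sub, Real.sin_add]
    ring
  simp only [e0]
  have hI : ∀ c : ℝ, IntervalIntegrable (fun t : ℝ => 1 / 8 * Real.cos (c * t)) volume A B :=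
    fun c => Continuous.intervalIntegrable (by fun_prop) _ _
  rw [intervalIntegral.integral_add (((((((hI _).add (hI _)).add (hI _)).add (hI _)).add
      (hI _)).add (hI _)).add (hI _)) (hI _),
    intervalIntegral.integral_add ((((((hI _).add (hI _)).add (hI _)).add (hI _)).add
      (hI _)).add (hI _)) (hI _),
    intervalIntegral.integral_add (((((hI _).add (hI _)).add (hI _)).add (hI _)).add
      (hI _)) (hI _),
    intervalIntegral.integral_add ((((hI _).add (hI _)).add (hI _)).add (hI _)) (hI _),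
    intervalIntegral.integral_add (((hI _).add (hI _)).add (hI _)) (hI _),
    intervalIntegral.integral_add ((hI _).add (hI _)) (hI _),
    intervalIntegral.integral_add (hI _) (hI _)]
  simp only [intervalIntegral.integral_const_mul]
  rw [if_neg not_false, sub_zero] at f1 f2 f3 f4 f5 f8
  generalize (∫ t in A..B, Real.cos ((Real.log ((p * p' * q * q' : ℕ) : ℝ) -
    Real.log ((1 : ℕ) : ℝ)) * t)) = J1 at f1 ⊢
  generalize (∫ t in A..B, Real.cos ((Real.log ((p * p' * q : ℕ) : ℝ) -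
    Real.log (q' : ℝ)) * t)) = J2 at f2 ⊢
  generalize (∫ t in A..B, Real.cos ((Real.log ((p * p' * q' : ℕ) : ℝ) -
    Real.log (q : ℝ)) * t)) = J3 at f3 ⊢
  generalize (∫ t in A..B, Real.cos ((Real.log ((p * p' : ℕ) : ℝ) -
    Real.log ((q * q' : ℕ) : ℝ)) * t)) = J4 at f4 ⊢
  generalize (∫ t in A..B, Real.cos ((Real.log ((p * q * q' : ℕ) : ℝ) -
    Real.log (p' : ℝ)) * t)) = J5 at f5 ⊢
  generalize (∫ t in A..B, Real.cos ((Real.log ((p * q : ℕ) : ℝ) -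
    Real.log ((p' * q' : ℕ) : ℝ)) * t)) = J6 at f6 ⊢
  generalize (∫ t in A..B, Real.cos ((Real.log ((p * q' : ℕ) : ℝ) -
    Real.log ((p' * q : ℕ) : ℝ)) * t)) = J7 at f7 ⊢
  generalize (∫ t in A..B, Real.cos ((Real.log (p : ℝ) -
    Real.log ((p' * q * q' : ℕ) : ℝ)) * t)) = J8 at f8 ⊢
  rw [abs_le] at f1 f2 f3 f4 f5 f6 f7 f8 ⊢
  obtain ⟨f1a, f1b⟩ := f1
  obtain ⟨f2a, f2b⟩ := f2
  obtain ⟨f3a, f3b⟩ := f3
  obtain ⟨f4a, f4b⟩ := f4
  obtain ⟨f5a, f5b⟩ := f5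
  obtain ⟨f6a, f6b⟩ := f6
  obtain ⟨f7a, f7b⟩ := f7
  obtain ⟨f8a, f8b⟩ := f8
  split_ifs at f6a f6b f7a f7b ⊢ <;> constructor <;> linarith

private theorem four_sum {A B Y : ℝ} (hAB : A ≤ B) (S1 S2 : Finset ℕ) (b : ℕ → ℝ)
    (hb : ∀ p, 0 ≤ b p) (h1 : ∀ p ∈ S1, p.Prime ∧ (p : ℝ) ≤ Y) (h2 : ∀ p ∈ S2, p.Prime ∧ (p : ℝ) ≤ Y)
    (hd : ∀ p ∈ S1, ∀ q ∈ S2, p ≠ q) :
    |(∫ t in A..B, (∑ p ∈ S1, b p * Real.cos (Real.log p * t)) ^ 2 *
        (∑ p ∈ S2, b p * Real.cos (Real.log p * t)) ^ 2) -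
      (B - A) / 4 * ((∑ p ∈ S1, b p ^ 2) * ∑ p ∈ S2, b p ^ 2)| ≤
      2 * Y ^ 4 * ((∑ p ∈ S1, b p) ^ 2 * (∑ p ∈ S2, b p) ^ 2) := by
  classical
  set X1 := S1 ×ˢ S1 with hX1
  set X2 := S2 ×ˢ S2 with hX2
  have sqs : ∀ (S : Finset ℕ) (f : ℕ → ℝ), (∑ p ∈ S, f p) ^ 2 =
      ∑ x ∈ S ×ˢ S, f x.1 * f x.2 := by
    intro S f
    rw [sq, Finset.sum_mul_sum, Finset.sum_product]
  have sqd : ∀ (S : Finset ℕ), ∑ p ∈ S, b p ^ 2 =
      ∑ x ∈ S ×ˢ S, if x.1 = x.2 then b x.1 * b x.2 else 0 := by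
    intro S
    rw [Finset.sum_product]
    refine Finset.sum_congr rfl fun p hp => ?_
    rw [Finset.sum_ite_eq S p fun q => b p * b q, if_pos hp, sq]
  have e1 : ∀ t : ℝ, (∑ p ∈ S1, b p * Real.cos (Real.log p * t)) ^ 2 *
        (∑ p ∈ S2, b p * Real.cos (Real.log p * t)) ^ 2 =
      ∑ x ∈ X1, ∑ y ∈ X2, b x.1 * b x.2 * (b y.1 * b y.2) *
        (Real.cos (Real.log x.1 * t) * Real.cos (Real.log x.2 * t) *
          (Real.cos (Real.log y.1 * t) * Real.cos (Real.log y.2 * t))) := by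
    intro t
    rw [sqs, sqs, Finset.sum_mul_sum]
    refine Finset.sum_congr rfl fun p _ => Finset.sum_congr rfl fun q _ => ?_
    ring
  simp only [e1]
  rw [intervalIntegral.integral_finsetSum (fun p _ => by
    refine Continuous.intervalIntegrable ?_ _ _
    fun_prop)]
  have e2 : ∀ x ∈ X1, (∫ t in A..B, ∑ y ∈ X2, b x.1 * b x.2 * (b y.1 * b y.2) *
        (Real.cos (Real.log x.1 * t) * Real.cos (Real.log x.2 * t) *
          (Real.cos (Real.log y.1 * t) * Real.cos (Real.log y.2 * t)))) =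
      ∑ y ∈ X2, b x.1 * b x.2 * (b y.1 * b y.2) *
        ∫ t in A..B, (Real.cos (Real.log x.1 * t) * Real.cos (Real.log x.2 * t) *
          (Real.cos (Real.log y.1 * t) * Real.cos (Real.log y.2 * t))) := by
    intro p _
    rw [intervalIntegral.integral_finsetSum (fun q _ => by
      refine Continuous.intervalIntegrable ?_ _ _
      fun_prop)]
    refine Finset.sum_congr rfl fun q _ => ?_
    rw [intervalIntegral.integral_const_mul]
  rw [Finset.sum_congr rfl e2, sqs, sqs, sqd, sqd, Finset.sum_mul_sum, Finset.sum_mul_sum,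
    Finset.mul_sum, Finset.mul_sum, ← Finset.sum_sub_distrib]
  refine (Finset.abs_sum_le_sum_abs _ _).trans (Finset.sum_le_sum fun x hx => ?_)
  rw [Finset.mul_sum, Finset.mul_sum, ← Finset.sum_sub_distrib]
  refine (Finset.abs_sum_le_sum_abs _ _).trans (Finset.sum_le_sum fun y hy => ?_)
  rw [hX1, Finset.mem_product] at hx
  rw [hX2, Finset.mem_product] at hy
  have h3 := four_cos hAB (h1 _ hx.1).1 (h1 _ hx.2).1 (h2 _ hy.1).1 (h2 _ hy.2).1
    (h1 _ hx.1).2 (h1 _ hx.2).2 (h2 _ hy.1).2 (h2 _ hy.2).2 (hd _ hx.1 _ hy.1) (hd _ hx.1 _ hy.2)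
    (hd _ hx.2 _ hy.1) (hd _ hx.2 _ hy.2)
  have hbn : 0 ≤ b x.1 * b x.2 * (b y.1 * b y.2) :=
    mul_nonneg (mul_nonneg (hb _) (hb _)) (mul_nonneg (hb _) (hb _))
  have h4 : ∀ J : ℝ, b x.1 * b x.2 * (b y.1 * b y.2) * J -
      (B - A) / 4 * ((if x.1 = x.2 then b x.1 * b x.2 else 0) *
        (if y.1 = y.2 then b y.1 * b y.2 else 0)) =
      b x.1 * b x.2 * (b y.1 * b y.2) * (J -
        (if x.1 = x.2 ∧ y.1 = y.2 then (B - A) / 4 else 0)) := by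
    intro J
    by_cases c1 : x.1 = x.2
    · by_cases c2 : y.1 = y.2
      · rw [if_pos c1, if_pos c2, if_pos ⟨c1, c2⟩]
        ring
      · have c3 : ¬ (x.1 = x.2 ∧ y.1 = y.2) := fun h => c2 h.2
        rw [if_neg c2, if_neg c3]
        ring
    · have c3 : ¬ (x.1 = x.2 ∧ y.1 = y.2) := fun h => c1 h.1
      rw [if_neg c1, if_neg c3]
      ring
  rw [h4, abs_mul, abs_of_nonneg hbn, mul_comm]
  exact mul_le_mul_of_nonneg_right h3 hbn

private theorem SS_card {δ' δ T : ℝ} (hT : 0 ≤ T) : ((SS δ' δ T).card : ℝ) ≤ T ^ δ := by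
  have h1 : (SS δ' δ T).card ≤ ⌊T ^ δ⌋₊ := by
    refine (Finset.card_filter_le _ _).trans ?_
    rw [Nat.card_Ioc]
    exact Nat.sub_le _ _
  exact le_trans (by exact_mod_cast h1) (Nat.floor_le (Real.rpow_nonneg hT _))

private theorem sum_bb {δ' δ T : ℝ} (hT : 1 < T) : ∑ p ∈ SS δ' δ T, bb T p ≤ T ^ δ := by
  have h1 : ∑ p ∈ SS δ' δ T, bb T p ≤ ∑ _p ∈ SS δ' δ T, (1 : ℝ) :=
    Finset.sum_le_sum fun p hp => bb_le_one hT (SS_pos hp)
  refine h1.trans ?_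
  rw [Finset.sum_const, nsmul_eq_mul, mul_one]
  exact SS_card (by linarith)

private theorem sum_bb_sq {δ' δ T : ℝ} (hT : 1 < T) : ∑ p ∈ SS δ' δ T, bb T p ^ 2 ≤ T ^ δ := by
  have h1 : ∑ p ∈ SS δ' δ T, bb T p ^ 2 ≤ ∑ _p ∈ SS δ' δ T, (1 : ℝ) :=
    Finset.sum_le_sum fun p hp => pow_le_one₀ (bb_nonneg _ _) (bb_le_one hT (SS_pos hp))
  refine h1.trans ?_
  rw [Finset.sum_const, nsmul_eq_mul, mul_one]
  exact SS_card (by linarith)

private theorem bb_sq_le {T : ℝ} (hT : 1 < T) {p : ℕ} (hp : 1 ≤ p) : bb T p ^ 2 ≤ 1 / p := by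
  have h := bb_le hT hp
  have h2 := pow_le_pow_left₀ (bb_nonneg T p) h 2
  rwa [div_pow, one_pow, Real.sq_sqrt (Nat.cast_nonneg _)] at h2

private theorem bb_sq_ge {T δ : ℝ} (hT : 1 < T) (hδ : δ ≤ 1 / 64) {p : ℕ} (hp : 1 ≤ p)
    (hpT : (p : ℝ) ≤ T ^ δ) : 9 / 10 * (1 / (p : ℝ)) ≤ bb T p ^ 2 := by
  have hL : 0 < Real.log T := Real.log_pos hT
  have hp0 : (0 : ℝ) < p := by exact_mod_cast hp
  have hp1 : (1 : ℝ) ≤ p := by exact_mod_cast hp
  have hlp : Real.log p ≤ δ * Real.log T := by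
    have := Real.log_le_log hp0 hpT
    rwa [Real.log_rpow (by linarith)] at this
  have e1 : bb T p ^ 2 = 1 / (p : ℝ) * Real.exp (-(2 * Real.log p / Real.log T)) := by
    have e2 : 1 / (p : ℝ) = Real.exp (-Real.log p) := by
      rw [Real.exp_neg, Real.exp_log hp0, one_div]
    unfold bb
    rw [e2, ← Real.rpow_natCast, ← Real.rpow_mul hp0.le, Real.rpow_def_of_pos hp0,
      ← Real.exp_add]
    congr 1
    push_cast
    field_simp
    ring
  rw [e1, mul_comm]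
  refine mul_le_mul_of_nonneg_left ?_ (by positivity)
  have h1 : 2 * Real.log p / Real.log T ≤ 1 / 32 := by
    rw [div_le_iff₀ hL]
    nlinarith
  have h2 := Real.add_one_le_exp (-(2 * Real.log p / Real.log T))
  linarith

/-- The size of `Y ^ 8`. -/
private theorem pow_small {ε : ℝ} (hε : 0 < ε) : ∀ᶠ T : ℝ in atTop,
    (T ^ (1 / 64 : ℝ)) ^ 8 ≤ ε * T := by
  have h1 : Tendsto (fun T : ℝ => T ^ (-(7 / 8 : ℝ))) atTop (𝓝 0) :=
    tendsto_rpow_neg_atTop (by norm_num)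
  filter_upwards [h1.eventually (gt_mem_nhds hε), eventually_gt_atTop 1] with T h2 hT
  have hT0 : 0 < T := by linarith
  have h4 : (T ^ (1 / 64 : ℝ)) ^ 8 = T ^ (-(7 / 8 : ℝ)) * T := by
    nth_rewrite 3 [← Real.rpow_one T]
    rw [← Real.rpow_add hT0, ← Real.rpow_natCast, ← Real.rpow_mul hT0.le]
    norm_num
  rw [h4]
  exact mul_le_mul_of_nonneg_right h2.le hT0.le

/-- The second moment of one block. -/
private theorem sq_block {δ' δ T : ℝ} (hT : 1 < T) (hδ : δ ≤ 1 / 64) :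
    |(∫ t in (T / 2)..T, Up δ' δ T t ^ 2) - T / 4 * ∑ p ∈ SS δ' δ T, bb T p ^ 2| ≤
      2 * (T ^ (1 / 64 : ℝ)) ^ 4 := by
  have hT0 : 0 < T := by linarith
  set Y := T ^ (1 / 64 : ℝ) with hY
  have hYδ : T ^ δ ≤ Y := Real.rpow_le_rpow_of_exponent_le hT.le hδ
  have hS : ∀ p ∈ SS δ' δ T, p.Prime ∧ (p : ℝ) ≤ Y := fun p hp =>
    ⟨SS_prime hp, (SS_le hT0.le hp).trans hYδ⟩
  have h := two_sum (A := T / 2) (B := T) (by linarith) (SS δ' δ T) (SS δ' δ T) (bb T)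
    (bb_nonneg T) hS hS
  have e1 : ∀ t : ℝ, Up δ' δ T t ^ 2 = (∑ p ∈ SS δ' δ T, bb T p * Real.cos (Real.log p * t)) *
        (∑ p ∈ SS δ' δ T, bb T p * Real.cos (Real.log p * t)) := by
    intro t
    rw [Up_eq, sq]
  have e2 : ∑ p ∈ SS δ' δ T, ∑ q ∈ SS δ' δ T, (if p = q then bb T p * bb T q else 0) =
      ∑ p ∈ SS δ' δ T, bb T p ^ 2 := by
    refine Finset.sum_congr rfl fun p hp => ?_
    rw [Finset.sum_ite_eq (SS δ' δ T) p fun q => bb T p * bb T q, if_pos hp, sq]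
  rw [e2] at h
  simp only [← e1] at h
  have e3 : (T - T / 2) / 2 = T / 4 := by ring
  rw [e3] at h
  refine h.trans ?_
  have h5 : ∑ p ∈ SS δ' δ T, bb T p ≤ Y := (sum_bb hT).trans hYδ
  have h6 : 0 ≤ ∑ p ∈ SS δ' δ T, bb T p := Finset.sum_nonneg fun p _ => bb_nonneg _ _
  have hY0 : 0 ≤ Y := Real.rpow_nonneg hT0.le _
  have h7 : (∑ p ∈ SS δ' δ T, bb T p) * ∑ p ∈ SS δ' δ T, bb T p ≤ Y * Y :=
    mul_le_mul h5 h5 h6 hY0
  calc 2 * Y ^ 2 * ((∑ p ∈ SS δ' δ T, bb T p) * ∑ p ∈ SS δ' δ T, bb T p) ≤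
        2 * Y ^ 2 * (Y * Y) := mul_le_mul_of_nonneg_left h7 (by positivity)
    _ = 2 * Y ^ 4 := by ring

private theorem one_le_Y {T : ℝ} (hT : 1 < T) : 1 ≤ T ^ (1 / 64 : ℝ) :=
  Real.one_le_rpow hT.le (by norm_num)

end UMomAux

/-- MODULE SEL2. Moments of one block, `v = log (δ/δ')`. `Re P = (P + conj P)/2`, `P = XP`; expand into
integrals of `(n/m)^{it}`, each off-diagonal integral is `O(T^{8δ})` and there are `O(T^{8δ})` of them
(`8δ + 8δ < 1`): `∫ (Re P)² = (T/2) (1/2) ∑ p^{-1-2/L} + o(T)` and `e^{-2δ} ≥ 9/10`;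
`∫ (Re P)⁴ ≤ ∫ ‖P‖⁴ ≤ 2 · 4T ((∑ 1/p)² + 1)` (`mom_primes`); `sum_inv_prime`. -/
theorem U_mom : ∃ C : ℝ, 0 < C ∧ ∀ δ' δ : ℝ, 0 < δ' → δ' < δ → δ ≤ 1 / 64 →
    1 ≤ Real.log (δ / δ') → ∀ᶠ T : ℝ in atTop,
      Real.log (δ / δ') / 8 * (T / 2) ≤ ∫ t in (T / 2)..T, Up δ' δ T t ^ 2 ∧
      ∫ t in (T / 2)..T, Up δ' δ T t ^ 2 ≤ Real.log (δ / δ') * (T / 2) ∧
      ∫ t in (T / 2)..T, Up δ' δ T t ^ 4 ≤ C * Real.log (δ / δ') ^ 2 * (T / 2) := by
  refine ⟨100, by norm_num, fun δ' δ h0 h1 h2 h3 => ?_⟩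
  have hδ0 : 0 < δ := h0.trans h1
  filter_upwards [sum_inv_prime (a₀ := δ') (ε := 1 / 100) h0 (by norm_num),
    mom_primes 2 (by norm_num) (θ := δ) (A := 1) hδ0 (by norm_num; linarith) one_pos,
    UMomAux.pow_small (ε := 1 / 100) (by norm_num), eventually_gt_atTop 1] with T hm hM hY hT
  have hT0 : 0 < T := by linarith
  set v := Real.log (δ / δ') with hv
  set S := UMomAux.SS δ' δ T with hS
  set σ := ∑ p ∈ S, UMomAux.bb T p ^ 2 with hσ
  have h4 := hm δ' δ le_rfl h1.le (by linarith)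
  have h5 : σ ≤ ∑ p ∈ S, (1 : ℝ) / p :=
    Finset.sum_le_sum fun p hp => UMomAux.bb_sq_le hT (UMomAux.SS_pos hp)
  have h6 : 9 / 10 * ∑ p ∈ S, (1 : ℝ) / p ≤ σ := by
    rw [Finset.mul_sum]
    exact Finset.sum_le_sum fun p hp => UMomAux.bb_sq_ge hT h2 (UMomAux.SS_pos hp)
      (UMomAux.SS_le hT0.le hp)
  have h4' : |(∑ p ∈ S, (1 : ℝ) / p) - v| ≤ 1 / 100 := h4
  rw [abs_le] at h4'
  have h7 := UMomAux.sq_block (δ' := δ') (δ := δ) hT h2
  rw [abs_le] at h7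
  have hY1 := UMomAux.one_le_Y hT
  have hY4 : (T ^ (1 / 64 : ℝ)) ^ 4 ≤ (T ^ (1 / 64 : ℝ)) ^ 8 :=
    pow_le_pow_right₀ hY1 (by norm_num)
  have hσ1 : σ ≤ v + 1 / 100 := by linarith [h4'.2]
  have hσ2 : 9 / 10 * (v - 1 / 100) ≤ σ := by linarith [h4'.1]
  have hσ0 : 0 ≤ σ := by linarith
  refine ⟨?_, ?_, ?_⟩
  · have h8 : T / 4 * (9 / 10 * (v - 1 / 100)) ≤ T / 4 * σ :=
      mul_le_mul_of_nonneg_left hσ2 (by positivity)
    have h9 : T ≤ v * T := by nlinarith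
    nlinarith [h7.1]
  · have h8 : T / 4 * σ ≤ T / 4 * (v + 1 / 100) :=
      mul_le_mul_of_nonneg_left hσ1 (by positivity)
    have h9 : T ≤ v * T := by nlinarith
    nlinarith [h7.2]
  · have h8 := hM S (fun p => (UMomAux.bb T p : ℂ))
      (fun p hp => ⟨UMomAux.SS_prime hp, UMomAux.SS_le hT0.le hp⟩)
      (fun p hp => by
        rw [Complex.norm_real, Real.norm_of_nonneg (UMomAux.bb_nonneg _ _)]
        exact UMomAux.bb_le hT (UMomAux.SS_pos hp))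
    have e1 : ∑ p ∈ S, ‖(UMomAux.bb T p : ℂ)‖ ^ 2 = σ := by
      refine Finset.sum_congr rfl fun p _ => ?_
      rw [Complex.norm_real, Real.norm_eq_abs, sq_abs]
    rw [e1] at h8
    have hcont : Continuous fun t => ‖DP S (fun p => (UMomAux.bb T p : ℂ)) t‖ ^ (2 * 2) :=
      (MomentBAux.DP_continuous S _).norm.pow _
    have h9 : ∫ t in (T / 2)..T, Up δ' δ T t ^ 4 ≤
        ∫ t in (T / 2)..T, ‖DP S (fun p => (UMomAux.bb T p : ℂ)) t‖ ^ (2 * 2) := by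
      refine intervalIntegral.integral_mono_on (by linarith)
        (((UMomAux.Up_continuous δ' δ T).pow 4).intervalIntegrable _ _)
        (hcont.intervalIntegrable _ _) fun t _ => ?_
      rw [show Up δ' δ T t = (XP δ' δ T (sw T t 1)).re from rfl, UMomAux.XP_eq,
        ← Even.pow_abs (by decide : Even 4)]
      exact pow_le_pow_left₀ (abs_nonneg _) (Complex.abs_re_le_norm _) 4
    have h10 : ∫ t in (T / 2)..T, ‖DP S (fun p => (UMomAux.bb T p : ℂ)) t‖ ^ (2 * 2) ≤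
        ∫ t in (0 : ℝ)..(4 * T), ‖DP S (fun p => (UMomAux.bb T p : ℂ)) t‖ ^ (2 * 2) :=
      intervalIntegral.integral_mono_interval (by positivity) (by linarith) (by linarith)
        (Eventually.of_forall fun t => by positivity) (hcont.intervalIntegrable _ _)
    refine h9.trans (h10.trans (h8.trans ?_))
    have h11 : σ ^ 2 ≤ (v + 1 / 100) ^ 2 := pow_le_pow_left₀ hσ0 hσ1 2
    have h12 : (v + 1 / 100) ^ 2 ≤ 2 * v ^ 2 := by nlinarith
    have h13 : 1 ≤ v ^ 2 := one_le_pow₀ h3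
    have h14 : ((Nat.factorial 2 : ℕ) : ℝ) * σ ^ 2 + 1 ≤ 5 * v ^ 2 := by
      norm_num [Nat.factorial]
      linarith
    calc 4 * T * (((Nat.factorial 2 : ℕ) : ℝ) * σ ^ 2 + 1) ≤ 4 * T * (5 * v ^ 2) :=
          mul_le_mul_of_nonneg_left h14 (by positivity)
      _ ≤ 100 * v ^ 2 * (T / 2) := by nlinarith [mul_nonneg (sq_nonneg v) hT0.le]

/-- MODULE SEL3. Two disjoint blocks are uncorrelated: the products `p q`, `p/q`,
`p₁^{±1} p₂^{±1} q₁^{±1} q₂^{±1}` (`p`'s in one block, `q`'s in the other) are `≠ 1` unless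
`p₁ = p₂`, `q₁ = q₂` with opposite signs, which gives exactly
`∫ U₁² U₂² = (T/2) (1/4) (∑ p^{-1-2/L}) (∑ q^{-1-2/L}) + o(T)`; the off-diagonal integrals are
`O(T^{8/64})` each, and there are at most `T^{4/64}` of them. -/
theorem U_cross {δ₁' δ₁ δ₂' δ₂ ε : ℝ} (h1 : 0 < δ₁') (h2 : δ₁' < δ₁) (h3 : δ₁ ≤ δ₂')
    (h4 : δ₂' < δ₂) (h5 : δ₂ ≤ 1 / 64) (hε : 0 < ε) : ∀ᶠ T : ℝ in atTop,
      |∫ t in (T / 2)..T, Up δ₁' δ₁ T t * Up δ₂' δ₂ T t| ≤ ε * T ∧
      ∫ t in (T / 2)..T, Up δ₁' δ₁ T t ^ 2 * Up δ₂' δ₂ T t ^ 2 ≤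
        1 / (T / 2) * (∫ t in (T / 2)..T, Up δ₁' δ₁ T t ^ 2) *
          (∫ t in (T / 2)..T, Up δ₂' δ₂ T t ^ 2) + ε * T := by
  filter_upwards [UMomAux.pow_small (ε := ε / 12) (by positivity),
    eventually_gt_atTop 1] with T hY hT
  have hT0 : 0 < T := by linarith
  have hY1 := UMomAux.one_le_Y hT
  set Y := T ^ (1 / 64 : ℝ) with hYd
  have hY0 : 0 ≤ Y := by linarith
  set S1 := UMomAux.SS δ₁' δ₁ T with hS1
  set S2 := UMomAux.SS δ₂' δ₂ T with hS2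
  have hY48 : Y ^ 4 ≤ Y ^ 8 := pow_le_pow_right₀ hY1 (by norm_num)
  have hY58 : Y ^ 5 ≤ Y ^ 8 := pow_le_pow_right₀ hY1 (by norm_num)
  have hδ₁ : δ₁ ≤ 1 / 64 := by linarith
  have g1 : ∀ p ∈ S1, p.Prime ∧ (p : ℝ) ≤ Y := fun p hp =>
    ⟨UMomAux.SS_prime hp, (UMomAux.SS_le hT0.le hp).trans
      (Real.rpow_le_rpow_of_exponent_le hT.le hδ₁)⟩
  have g2 : ∀ p ∈ S2, p.Prime ∧ (p : ℝ) ≤ Y := fun p hp =>
    ⟨UMomAux.SS_prime hp, (UMomAux.SS_le hT0.le hp).trans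
      (Real.rpow_le_rpow_of_exponent_le hT.le h5)⟩
  have hd : ∀ p ∈ S1, ∀ q ∈ S2, p ≠ q := by
    intro p hp q hq
    have a1 := (Finset.mem_Ioc.1 (Finset.mem_filter.1 hp).1).2
    have a2 := (Finset.mem_Ioc.1 (Finset.mem_filter.1 hq).1).1
    have a3 : ⌊T ^ δ₁⌋₊ ≤ ⌊T ^ δ₂'⌋₊ :=
      Nat.floor_le_floor (Real.rpow_le_rpow_of_exponent_le hT.le h3)
    omega
  have s1 : ∑ p ∈ S1, UMomAux.bb T p ≤ Y :=
    (UMomAux.sum_bb hT).trans (Real.rpow_le_rpow_of_exponent_le hT.le hδ₁)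
  have s2 : ∑ p ∈ S2, UMomAux.bb T p ≤ Y :=
    (UMomAux.sum_bb hT).trans (Real.rpow_le_rpow_of_exponent_le hT.le h5)
  have s1' : 0 ≤ ∑ p ∈ S1, UMomAux.bb T p := Finset.sum_nonneg fun p _ => UMomAux.bb_nonneg _ _
  have s2' : 0 ≤ ∑ p ∈ S2, UMomAux.bb T p := Finset.sum_nonneg fun p _ => UMomAux.bb_nonneg _ _
  refine ⟨?_, ?_⟩
  · have h := UMomAux.two_sum (A := T / 2) (B := T) (by linarith) S1 S2 (UMomAux.bb T)
      (UMomAux.bb_nonneg T) g1 g2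
    have e2 : ∑ p ∈ S1, ∑ q ∈ S2, (if p = q then UMomAux.bb T p * UMomAux.bb T q else 0) = 0 :=
      Finset.sum_eq_zero fun p hp => Finset.sum_eq_zero fun q hq => if_neg (hd p hp q hq)
    rw [e2, mul_zero, sub_zero] at h
    have e1 : ∀ t : ℝ, Up δ₁' δ₁ T t * Up δ₂' δ₂ T t =
        (∑ p ∈ S1, UMomAux.bb T p * Real.cos (Real.log p * t)) *
        (∑ p ∈ S2, UMomAux.bb T p * Real.cos (Real.log p * t)) := by
      intro t
      rw [UMomAux.Up_eq, UMomAux.Up_eq]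
    simp only [e1]
    refine h.trans ?_
    have h7 : (∑ p ∈ S1, UMomAux.bb T p) * ∑ p ∈ S2, UMomAux.bb T p ≤ Y * Y :=
      mul_le_mul s1 s2 s2' hY0
    calc 2 * Y ^ 2 * ((∑ p ∈ S1, UMomAux.bb T p) * ∑ p ∈ S2, UMomAux.bb T p) ≤
          2 * Y ^ 2 * (Y * Y) := mul_le_mul_of_nonneg_left h7 (by positivity)
      _ = 2 * Y ^ 4 := by ring
      _ ≤ ε * T := by nlinarith
  · have h := UMomAux.four_sum (A := T / 2) (B := T) (by linarith) S1 S2 (UMomAux.bb T)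
      (UMomAux.bb_nonneg T) g1 g2 hd
    have e1 : ∀ t : ℝ, Up δ₁' δ₁ T t ^ 2 * Up δ₂' δ₂ T t ^ 2 =
        (∑ p ∈ S1, UMomAux.bb T p * Real.cos (Real.log p * t)) ^ 2 *
        (∑ p ∈ S2, UMomAux.bb T p * Real.cos (Real.log p * t)) ^ 2 := by
      intro t
      rw [UMomAux.Up_eq, UMomAux.Up_eq]
    simp only [← e1] at h
    have q1 := UMomAux.sq_block (δ' := δ₁') (δ := δ₁) hT hδ₁
    have q2 := UMomAux.sq_block (δ' := δ₂') (δ := δ₂) hT h5
    set X1 := ∫ t in (T / 2)..T, Up δ₁' δ₁ T t ^ 2 with hX1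
    set X2 := ∫ t in (T / 2)..T, Up δ₂' δ₂ T t ^ 2 with hX2
    set σ1 := ∑ p ∈ S1, UMomAux.bb T p ^ 2 with hσ1
    set σ2 := ∑ p ∈ S2, UMomAux.bb T p ^ 2 with hσ2
    have t1 : σ1 ≤ Y :=
      (UMomAux.sum_bb_sq hT).trans (Real.rpow_le_rpow_of_exponent_le hT.le hδ₁)
    have t2 : σ2 ≤ Y :=
      (UMomAux.sum_bb_sq hT).trans (Real.rpow_le_rpow_of_exponent_le hT.le h5)
    have t1' : 0 ≤ σ1 := Finset.sum_nonneg fun p _ => sq_nonneg _
    have t2' : 0 ≤ σ2 := Finset.sum_nonneg fun p _ => sq_nonneg _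
    have q1' : |X1 - T / 4 * σ1| ≤ 2 * Y ^ 4 := q1
    have q2' : |X2 - T / 4 * σ2| ≤ 2 * Y ^ 4 := q2
    rw [abs_le] at q1' q2'
    have hX1' : 0 ≤ X1 := intervalIntegral.integral_nonneg (by linarith) fun t _ => sq_nonneg _
    have hX2' : 0 ≤ X2 := intervalIntegral.integral_nonneg (by linarith) fun t _ => sq_nonneg _
    have h8 : 2 * Y ^ 4 * ((∑ p ∈ S1, UMomAux.bb T p) ^ 2 * (∑ p ∈ S2, UMomAux.bb T p) ^ 2) ≤
        2 * Y ^ 8 := by
      have h9 : (∑ p ∈ S1, UMomAux.bb T p) ^ 2 * (∑ p ∈ S2, UMomAux.bb T p) ^ 2 ≤ Y ^ 2 * Y ^ 2 :=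
        mul_le_mul (pow_le_pow_left₀ s1' s1 2) (pow_le_pow_left₀ s2' s2 2) (sq_nonneg _)
          (sq_nonneg _)
      calc _ ≤ 2 * Y ^ 4 * (Y ^ 2 * Y ^ 2) := mul_le_mul_of_nonneg_left h9 (by positivity)
        _ = 2 * Y ^ 8 := by ring
    have h10 := (abs_le.1 (h.trans h8)).2
    have e3 : (T - T / 2) / 4 = T / 8 := by ring
    rw [e3] at h10
    -- the product of the second moments
    set m1 := T / 4 * σ1 with hm1
    set m2 := T / 4 * σ2 with hm2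
    have m1' : 0 ≤ m1 := by positivity
    have m2' : 0 ≤ m2 := by positivity
    have m1Y : m1 ≤ T / 4 * Y := mul_le_mul_of_nonneg_left t1 (by positivity)
    have m2Y : m2 ≤ T / 4 * Y := mul_le_mul_of_nonneg_left t2 (by positivity)
    have hE : 0 ≤ 2 * Y ^ 4 := by positivity
    have k1 : m1 * m2 - X1 * X2 ≤ 2 * Y ^ 4 * (m1 + X2) := by
      have c1 : (m1 - X1) * X2 ≤ 2 * Y ^ 4 * X2 :=
        mul_le_mul_of_nonneg_right (by linarith [q1'.1]) hX2'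
      have c2 : m1 * (m2 - X2) ≤ m1 * (2 * Y ^ 4) :=
        mul_le_mul_of_nonneg_left (by linarith [q2'.1]) m1'
      nlinarith
    have k2 : 2 * Y ^ 4 * (m1 + X2) ≤ T * Y ^ 5 + 4 * Y ^ 8 := by
      have c3 : m1 + X2 ≤ T / 2 * Y + 2 * Y ^ 4 := by linarith [q2'.2]
      calc 2 * Y ^ 4 * (m1 + X2) ≤ 2 * Y ^ 4 * (T / 2 * Y + 2 * Y ^ 4) :=
            mul_le_mul_of_nonneg_left c3 hE
        _ = T * Y ^ 5 + 4 * Y ^ 8 := by ring
    have k3 : 1 / (T / 2) * X1 * X2 = 2 / T * (X1 * X2) := by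
      field_simp
    have k4 : 2 / T * (m1 * m2) = T / 8 * (σ1 * σ2) := by
      rw [hm1, hm2]
      field_simp
      ring
    have k5 : 2 / T * (m1 * m2) ≤ 2 / T * (X1 * X2) + 2 / T * (T * Y ^ 5 + 4 * Y ^ 8) := by
      rw [← mul_add]
      exact mul_le_mul_of_nonneg_left (by linarith) (by positivity)
    have k6 : 2 / T * (T * Y ^ 5 + 4 * Y ^ 8) ≤ 10 * Y ^ 8 := by
      have c4 : 2 / T * (T * Y ^ 5 + 4 * Y ^ 8) = 2 * Y ^ 5 + 8 * Y ^ 8 / T := by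
        field_simp
        ring
      have c5 : 8 * Y ^ 8 / T ≤ 8 * Y ^ 8 := div_le_self (by positivity) hT.le
      rw [c4]
      linarith
    rw [k3]
    linarith

end Pool.Agent.MP_67227b_nt.Ah
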