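import Pool.Agent.MP_67227b_nt.Ah.AhBox
import Pool.Agent.MP_67227b_nt.Ah.AhM1
import Pool.Agent.MP_67227b_nt.Ah.AhSel1
import Pool.Agent.MP_67227b_nt.Ah.AhSel2
import Pool.Agent.MP_67227b_nt.Ah.AhX
import Pool.Agent.MP_67227b_nt.Ah.AhZexp

set_option autoImplicit false

open Filter Topology Set MeasureTheory Complex
open scoped Real ArithmeticFunction ContDiff

namespace Pool.Agent.MP_67227b_nt.Ah

open Pool.Agent.Lib.ZetaCount_helper33 Pool.Agent.MP_67227b_nt Pool.Agent.MP_67227b_nt.Mo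
open Pool.Agent.MP_67227b_nt.Sg Pool.Agent.MP_67227b_nt.Pp
open Pool.Agent.MP_67227b_nt.Mo.MomentBAux (DP)

namespace SelAux

theorem sw_cont (T : ℝ) (w : ℂ) : Continuous fun t : ℝ => sw T t w := by
  unfold sw
  fun_prop

theorem term_cont (T : ℝ) (w : ℂ) {n : ℕ} (hn : n ≠ 0) :
    Continuous fun t : ℝ => (n : ℂ) ^ (-(sw T t w)) :=
  (sw_cont T w).neg.const_cpow (Or.inl (Nat.cast_ne_zero.2 hn))

theorem sum_cont (T : ℝ) (w : ℂ) (S : Finset ℕ) (hS : ∀ n ∈ S, n ≠ 0) (a : ℕ → ℂ) :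
    Continuous fun t : ℝ => ∑ n ∈ S, a n * (n : ℂ) ^ (-(sw T t w)) :=
  continuous_finsetSum _ fun n hn => continuous_const.mul (term_cont T w (hS n hn))

theorem Bs_cont (δ T : ℝ) : Continuous fun t : ℝ => Bs δ T (sw T t 1) := by
  unfold Bs
  refine sum_cont T 1 _ (fun n hn => ?_) fun n => ((Λ n / Real.log n : ℝ) : ℂ)
  have := (Finset.mem_Ioc.1 hn).1
  omega

theorem PB_cont (h : ℝ → ℂ) (θ T : ℝ) : Continuous fun t : ℝ => PB h θ T (sw T t 1) := by
  unfold PB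
  refine sum_cont T 1 _ (fun n hn => ?_) fun n => ((Λ n / Real.log n : ℝ) : ℂ) *
    h (Real.log n / (θ * Real.log T))
  have := (Finset.mem_Ioc.1 hn).1
  omega

theorem XP_cont (δ' δ T : ℝ) : Continuous fun t : ℝ => XP δ' δ T (sw T t 1) := by
  unfold XP
  refine continuous_finsetSum _ fun n hn => term_cont T 1 ?_
  exact (Finset.mem_filter.1 hn).2.ne_zero

theorem sw_ne_one {T t : ℝ} (ht : t ≠ 0) : sw T t 1 ≠ 1 := by
  intro h
  have h1 := congrArg Complex.im h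
  have h2 : (sw T t 1).im = t := by
    unfold sw
    have h3 : (1 / (Real.log T : ℂ)).im = 0 := by
      rw [← Complex.ofReal_one, ← Complex.ofReal_div, Complex.ofReal_im]
    simp only [Complex.add_im, h3]
    simp
  rw [h2] at h1
  exact ht (by simpa using h1)

theorem zeta_cont {T : ℝ} (hT : 0 < T) :
    ContinuousOn (fun t : ℝ => riemannZeta (sw T t 1)) (Icc (T / 2) T) := by
  intro t ht
  have ht0 : t ≠ 0 := by
    have := ht.1
    intro h0
    rw [h0] at this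
    linarith
  have h1 := (differentiableAt_riemannZeta (sw_ne_one (T := T) ht0)).continuousAt
  exact (ContinuousAt.comp (f := fun t : ℝ => sw T t 1) h1
    (sw_cont T 1).continuousAt).continuousWithinAt

theorem log_Dd {δ T t : ℝ} (h : riemannZeta (sw T t 1) ≠ 0) :
    Real.log ‖Dd δ T (sw T t 1)‖ =
      Real.log ‖riemannZeta (sw T t 1)‖ - (Bs δ T (sw T t 1)).re := by
  unfold Dd
  rw [norm_mul, Complex.norm_exp, Real.log_mul (norm_ne_zero_iff.2 h) (Real.exp_pos _).ne',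
    Real.log_exp, Complex.neg_re]
  ring

theorem log_Dd_cont {δ T : ℝ} (hT : 0 < T)
    (h : ∀ t ∈ Icc (T / 2) T, riemannZeta (sw T t 1) ≠ 0) :
    ContinuousOn (fun t : ℝ => Real.log ‖Dd δ T (sw T t 1)‖) (Icc (T / 2) T) := by
  have h1 : ContinuousOn (fun t : ℝ => Real.log ‖riemannZeta (sw T t 1)‖ -
      (Bs δ T (sw T t 1)).re) (Icc (T / 2) T) := by
    refine ContinuousOn.sub ?_ (Complex.continuous_re.comp (Bs_cont δ T)).continuousOn
    exact ContinuousOn.log (zeta_cont hT).norm fun t ht => norm_ne_zero_iff.2 (h t ht)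
  exact h1.congr fun t ht => log_Dd (h t ht)

/-- the prime powers -/
noncomputable def PW (δ' δ T : ℝ) (s : ℂ) : ℂ :=
  ∑ n ∈ (Finset.Ioc ⌊T ^ δ'⌋₊ ⌊T ^ δ⌋₊).filter (fun n => ¬ n.Prime),
    ((Λ n / Real.log n : ℝ) : ℂ) * (n : ℂ) ^ (-s)

theorem Bs_sub {δ' δ T : ℝ} (hT : 1 < T) (h0 : 0 < δ') (h1 : δ' ≤ δ) (s : ℂ) :
    Bs δ T s - Bs δ' T s = XP δ' δ T s + PW δ' δ T s := by
  have h2 : 1 ≤ ⌊T ^ δ'⌋₊ := by
    rw [Nat.one_le_floor_iff]
    exact Real.one_le_rpow hT.le h0.le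
  have h3 : ⌊T ^ δ'⌋₊ ≤ ⌊T ^ δ⌋₊ :=
    Nat.floor_le_floor (Real.rpow_le_rpow_of_exponent_le hT.le h1)
  unfold Bs
  rw [← Finset.sum_Ioc_consecutive _ h2 h3, add_sub_cancel_left,
    ← Finset.sum_filter_add_sum_filter_not _ Nat.Prime]
  unfold XP PW
  congr 1
  refine Finset.sum_congr rfl fun p hp => ?_
  have hp' := (Finset.mem_filter.1 hp).2
  have h4 : Real.log p ≠ 0 := by
    have : (1 : ℝ) < p := by exact_mod_cast hp'.one_lt
    exact (Real.log_pos this).ne'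
  rw [ArithmeticFunction.vonMangoldt_apply_prime hp', div_self h4]
  simp

theorem log_step {δ' δ T t : ℝ} (hT : 1 < T) (h0 : 0 < δ') (h1 : δ' ≤ δ)
    (h : riemannZeta (sw T t 1) ≠ 0) : Real.log ‖Dd δ' T (sw T t 1)‖ =
      Real.log ‖Dd δ T (sw T t 1)‖ + Up δ' δ T t + (PW δ' δ T (sw T t 1)).re := by
  rw [log_Dd h, log_Dd h]
  have h2 := congrArg Complex.re (Bs_sub hT h0 h1 (sw T t 1))
  rw [Complex.sub_re, Complex.add_re] at h2
  unfold Up
  linarith

end SelAux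

open SelAux

/-- MODULE SEL4. The base scale: `log ‖Dd δ T (sw T t 1)‖ = Re (XX h (1/64) δ + e)`, `X_sq`, `zeta_exp`,
`M1_mom`. -/
theorem log_Dd_sq (hRH : RiemannHypothesis) : ∃ C : ℝ, 0 < C ∧ ∀ δ : ℝ, 0 < δ → δ ≤ 1 / 256 →
    ∀ᶠ T : ℝ in atTop, ∫ t in (T / 2)..T,
      Real.log ‖Dd δ T (sw T t 1)‖ ^ 2 ≤ C * (1 + Real.log (1 / δ)) * T := by
  obtain ⟨h, hh⟩ := exists_cut
  obtain ⟨C1, hC1, H1⟩ := zeta_exp hRH hh
  obtain ⟨C2, hC2, H2⟩ := X_sq hh
  obtain ⟨C3, hC3, H3⟩ := M1_mom hRH 2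
  have H1' := H1 (1 / 64) 1 (by norm_num) (by norm_num) le_rfl
  set c1 : ℝ := C1 / (1 / 64) ^ 2 * Real.exp (-(1 / 64 * 1 / 2)) with hc1
  have hc1p : 0 < c1 := by positivity
  refine ⟨2 * C2 + 4 * c1 ^ 2 * C3 + 4, by positivity, fun δ hδ hδ1 => ?_⟩
  filter_upwards [H1', H2 δ (1 / 64) 1 hδ (by linarith) (by norm_num) le_rfl, H3,
    eventually_ge_atTop (Real.exp 1)] with T h1 h2 h3 hT
  have hT1 : 1 < T := lt_of_lt_of_le (by linarith [Real.add_one_le_exp (1 : ℝ)]) hT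
  have hT0 : 0 < T := by linarith
  have hL : 1 ≤ Real.log T := (Real.le_log_iff_exp_le hT0).2 hT
  have hlog : 0 ≤ Real.log (1 / δ) := Real.log_nonneg (by
    rw [le_div_iff₀ hδ]
    linarith)
  have hXc : Continuous fun t : ℝ => XX h (1 / 64) δ T (sw T t 1) :=
    (PB_cont h (1 / 64) T).sub (Bs_cont δ T)
  have hXc2 : Continuous fun t : ℝ => ‖XX h (1 / 64) δ T (sw T t 1)‖ ^ 2 := hXc.norm.pow 2
  have hMc : Continuous fun t : ℝ => Mk (Real.log T) 1 t ^ 2 :=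
    (continuous_Mk hRH (by linarith) one_pos).pow 2
  -- the pointwise bound
  have hpt : ∀ t ∈ Icc (T / 2) T, Real.log ‖Dd δ T (sw T t 1)‖ ^ 2 ≤
      2 * ‖XX h (1 / 64) δ T (sw T t 1)‖ ^ 2 + 4 * c1 ^ 2 * Mk (Real.log T) 1 t ^ 2 + 4 := by
    intro t ht
    obtain ⟨e, he1, he2⟩ := h1 t ⟨by linarith [ht.1], by linarith [ht.2]⟩ 1 ⟨by norm_num, le_rfl⟩
    have e1 : ((1 : ℝ) : ℂ) = 1 := Complex.ofReal_one
    rw [e1] at he1
    rw [← hc1] at he2
    have h5 : Dd δ T (sw T t 1) = Complex.exp (XX h (1 / 64) δ T (sw T t 1) + e) := by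
      unfold Dd XX
      rw [he1, ← Complex.exp_add]
      congr 1
      ring
    rw [h5, Complex.norm_exp, Real.log_exp]
    have h6 : |(XX h (1 / 64) δ T (sw T t 1) + e).re| ≤
        ‖XX h (1 / 64) δ T (sw T t 1)‖ + ‖e‖ :=
      (Complex.abs_re_le_norm _).trans (norm_add_le _ _)
    have h7 : 1 / Real.log T ≤ 1 := by
      rw [div_le_one (by linarith)]
      exact hL
    have h8 : ‖e‖ ≤ c1 * Mk (Real.log T) 1 t + 1 := by linarith
    have h9 := Mk_nonneg (Real.log T) 1 t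
    set X := ‖XX h (1 / 64) δ T (sw T t 1)‖ with hX
    set m := c1 * Mk (Real.log T) 1 t with hm
    have hm0 : 0 ≤ m := mul_nonneg hc1p.le h9
    have h10 : |(XX h (1 / 64) δ T (sw T t 1) + e).re| ≤ X + (m + 1) := by linarith
    have h11 : (XX h (1 / 64) δ T (sw T t 1) + e).re ^ 2 ≤ (X + (m + 1)) ^ 2 := by
      rw [← sq_abs]
      exact pow_le_pow_left₀ (abs_nonneg _) h10 2
    have h12 : 4 * c1 ^ 2 * Mk (Real.log T) 1 t ^ 2 = 4 * m ^ 2 := by
      rw [hm]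
      ring
    rw [h12]
    nlinarith [sq_nonneg (X - (m + 1)), sq_nonneg (m - 1)]
  have hle : T / 2 ≤ T := by linarith
  have hi1 : IntervalIntegrable (fun t => 2 * ‖XX h (1 / 64) δ T (sw T t 1)‖ ^ 2)
      volume (T / 2) T := (continuous_const.mul hXc2).intervalIntegrable _ _
  have hi2 : IntervalIntegrable (fun t => 4 * c1 ^ 2 * Mk (Real.log T) 1 t ^ 2)
      volume (T / 2) T := (continuous_const.mul hMc).intervalIntegrable _ _
  have hi3 : IntervalIntegrable (fun _ : ℝ => (4 : ℝ)) volume (T / 2) T :=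
    continuous_const.intervalIntegrable _ _
  have hmain : ∫ t in (T / 2)..T, Real.log ‖Dd δ T (sw T t 1)‖ ^ 2 ≤
      ∫ t in (T / 2)..T, (2 * ‖XX h (1 / 64) δ T (sw T t 1)‖ ^ 2 +
        4 * c1 ^ 2 * Mk (Real.log T) 1 t ^ 2 + 4) := by
    rw [intervalIntegral.integral_of_le hle, intervalIntegral.integral_of_le hle]
    refine integral_mono_of_nonneg (Eventually.of_forall fun t => sq_nonneg _)
      ((hi1.add hi2).add hi3).1 ?_
    refine (ae_restrict_iff' measurableSet_Ioc).2 (Eventually.of_forall fun t ht => ?_)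
    exact hpt t ⟨ht.1.le, ht.2⟩
  refine hmain.trans ?_
  rw [intervalIntegral.integral_add (hi1.add hi2) hi3, intervalIntegral.integral_add hi1 hi2,
    intervalIntegral.integral_const_mul, intervalIntegral.integral_const_mul,
    intervalIntegral.integral_const, smul_eq_mul]
  have hX2 : ∫ t in (T / 2)..T, ‖XX h (1 / 64) δ T (sw T t 1)‖ ^ 2 ≤
      C2 * (1 + Real.log (1 / δ)) * T := by
    have h4 := h2 1 (by simp) (by simp)
    refine le_trans ?_ h4
    refine intervalIntegral.integral_mono_interval (by linarith) hle (by linarith) ?_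
      (hXc2.intervalIntegrable _ _)
    exact Eventually.of_forall fun t => sq_nonneg _
  have hM2 : ∫ t in (T / 2)..T, Mk (Real.log T) 1 t ^ 2 ≤ C3 * T := by
    refine le_trans ?_ h3
    refine intervalIntegral.integral_mono_interval le_rfl hle (by linarith) ?_
      (hMc.intervalIntegrable _ _)
    exact Eventually.of_forall fun t => sq_nonneg _
  have h20 : 4 * c1 ^ 2 * (∫ t in (T / 2)..T, Mk (Real.log T) 1 t ^ 2) ≤
      4 * c1 ^ 2 * (C3 * T) := mul_le_mul_of_nonneg_left hM2 (by positivity)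
  have h21 : 0 ≤ 4 * c1 ^ 2 * C3 * T * Real.log (1 / δ) := by positivity
  have h22 : 0 ≤ T * Real.log (1 / δ) := by positivity
  nlinarith

/-- MODULE SEL5. Selection of a scale. `log ‖Dd δ_{j+1}‖ = log ‖Dd δ_j‖ + Re (Bs δ_j - Bs δ_{j+1})`,
`Bs δ_j - Bs δ_{j+1} = XP δ_{j+1} δ_j + (prime powers)`, the latter small (`powers_small`),
`δ_j = e^{-(k j)^12}`. Put `v_j = (k (j+1))^12 - (k j)^12 ≥ (k (j+1))^12/2`,
`Z_j = Up δ_{j+1} δ_j/√(v_j)`. `sel_lemma` with `a = T/2`, `b = T`, `B = max C 1` (`U_mom`, `U_cross`): outside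
a set of measure `ε T/4` there is `j < I` with `Up ≤ -c √(v_j) ≤ -(c/2) (k (j+1))^6`. By `log_Dd_sq` and
Chebyshev `|log ‖Dd δ_j‖| ≤ (c/8) (k (j+1))^6` for all `j < I` outside measure
`∑_j C (1 + (k j)^12) · 64/(c² (k (j+1))^12) T ≤ C' I/(c² (k 0)^12) T`, small for `k 0` large. So
`log ‖Dd δ_{j+1}‖ ≤ -(c/4) (k (j+1))^6`. -/
theorem select (hRH : RiemannHypothesis) {ε : ℝ} (hε : 0 < ε) : ∃ (c : ℝ) (I k₁ : ℕ),
    0 < c ∧ 1 ≤ k₁ ∧ ∀ k : ℕ → ℕ, k₁ ≤ k 0 → (∀ j, k j ^ 2 ≤ k (j + 1)) →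
      ∀ᶠ T : ℝ in atTop, volume.real {t ∈ Icc (T / 2) T | ∀ j < I,
        -(c * (k (j + 1) : ℝ) ^ 6) <
          Real.log ‖Dd (Real.exp (-(k (j + 1) : ℝ) ^ 12)) T (sw T t 1)‖} ≤ ε * T := by
  obtain ⟨Cu, hCu, HU⟩ := U_mom
  obtain ⟨c0, I, hc0, hI, HS⟩ := sel_lemma hε (le_max_right Cu 1)
  obtain ⟨Cd, hCd, HD⟩ := log_Dd_sq hRH
  obtain ⟨h, hh⟩ := exists_cut
  obtain ⟨Cz, hCz, HZ⟩ := zeta_exp hRH hh
  obtain ⟨d, hd⟩ : ∃ d : ℝ, d = c0 / 8 := ⟨_, rfl⟩
  have hd0 : 0 < d := by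
    rw [hd]
    positivity
  have hI0 : (0 : ℝ) < I := by exact_mod_cast hI
  obtain ⟨k1, hk1⟩ : ∃ k1 : ℕ, k1 = max 2 ⌈8 * I * Cd / (d ^ 2 * ε)⌉₊ := ⟨_, rfl⟩
  have hk12 : 2 ≤ k1 := by
    rw [hk1]
    exact le_max_left _ _
  have hk1r : 8 * I * Cd ≤ d ^ 2 * ε * (k1 : ℝ) := by
    have h1 : 8 * I * Cd / (d ^ 2 * ε) ≤ (k1 : ℝ) := by
      refine (Nat.le_ceil _).trans ?_
      rw [hk1]
      exact_mod_cast le_max_right _ _
    rw [div_le_iff₀ (by positivity)] at h1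
    linarith
  refine ⟨c0 / 4, I, k1, by positivity, by omega, fun k hk0 hk => ?_⟩
  have hkk : ∀ j, k1 ≤ k j := by
    intro j
    induction j with
    | zero => exact hk0
    | succ j ih =>
      have h1 := hk j
      nlinarith
  have hklt : ∀ j, k j < k (j + 1) := by
    intro j
    have h1 := hk j
    have h2 := hkk j
    nlinarith
  obtain ⟨δ, hδ⟩ : ∃ δ : ℕ → ℝ, ∀ j, δ j = Real.exp (-(k j : ℝ) ^ 12) := ⟨_, fun _ => rfl⟩
  simp_rw [← hδ]
  have hδ0 : ∀ j, 0 < δ j := fun j => by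
    rw [hδ]
    exact Real.exp_pos _
  have hδa : StrictAnti δ := by
    refine strictAnti_nat_of_succ_lt fun j => ?_
    rw [hδ, hδ, Real.exp_lt_exp, neg_lt_neg_iff]
    have h1 : (k j : ℝ) < k (j + 1) := by exact_mod_cast hklt j
    exact pow_lt_pow_left₀ h1 (Nat.cast_nonneg _) (by norm_num)
  have hδs : ∀ j, δ j ≤ 1 / 256 := by
    intro j
    rw [hδ, Real.exp_neg, ← one_div]
    refine one_div_le_one_div_of_le (by norm_num) ?_
    have h1 : (2 : ℝ) ≤ k j := by exact_mod_cast hk12.trans (hkk j)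
    have h2 : (2 : ℝ) ^ 12 ≤ (k j : ℝ) ^ 12 := pow_le_pow_left₀ (by norm_num) h1 12
    have h3 := Real.add_one_le_exp ((k j : ℝ) ^ 12)
    norm_num at h2
    linarith
  -- the numbers `q j = (k (j + 1)) ^ 6` and `v j`
  obtain ⟨q, hq⟩ : ∃ q : ℕ → ℝ, ∀ j, q j = (k (j + 1) : ℝ) ^ 6 := ⟨_, fun _ => rfl⟩
  simp_rw [← hq]
  have hkq : ∀ j, (k j : ℝ) ^ 12 ≤ q j := by
    intro j
    have h1 : (k j : ℝ) ^ 2 ≤ k (j + 1) := by exact_mod_cast hk j
    rw [hq]
    calc (k j : ℝ) ^ 12 = ((k j : ℝ) ^ 2) ^ 6 := by ring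
      _ ≤ (k (j + 1) : ℝ) ^ 6 := pow_le_pow_left₀ (by positivity) h1 6
  have hq2 : ∀ j, (k1 : ℝ) ≤ q j ∧ 2 ≤ q j := by
    intro j
    have h1 : (k1 : ℝ) ≤ k (j + 1) := by exact_mod_cast hkk (j + 1)
    have h2 : (2 : ℝ) ≤ k1 := by exact_mod_cast hk12
    have h3 : (1 : ℝ) ≤ k (j + 1) := by linarith
    have h4 : (k (j + 1) : ℝ) ≤ q j := by
      rw [hq]
      calc (k (j + 1) : ℝ) = (k (j + 1) : ℝ) ^ 1 := (pow_one _).symm
        _ ≤ (k (j + 1) : ℝ) ^ 6 := pow_le_pow_right₀ h3 (by norm_num)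
    constructor <;> linarith
  obtain ⟨v, hv⟩ : ∃ v : ℕ → ℝ, ∀ j, v j = Real.log (δ j / δ (j + 1)) := ⟨_, fun _ => rfl⟩
  have hv' : ∀ j, v j = q j ^ 2 - (k j : ℝ) ^ 12 := by
    intro j
    rw [hv, Real.log_div (hδ0 j).ne' (hδ0 (j + 1)).ne', hδ, hδ, Real.log_exp, Real.log_exp, hq]
    ring
  have hv4 : ∀ j, q j ^ 2 / 4 ≤ v j ∧ 1 ≤ v j := by
    intro j
    have h1 := hkq j
    have h2 := (hq2 j).2
    rw [hv']
    constructor <;> nlinarith
  have hv0 : ∀ j, 0 < v j := fun j => by linarith [(hv4 j).2]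
  have hsv : ∀ j, q j / 2 ≤ Real.sqrt (v j) := by
    intro j
    refine Real.le_sqrt_of_sq_le ?_
    have := (hv4 j).1
    linarith
  have hsv1 : ∀ j, 1 ≤ Real.sqrt (v j) := by
    intro j
    rw [Real.one_le_sqrt]
    exact (hv4 j).2
  have hsv0 : ∀ j, 0 < Real.sqrt (v j) := fun j => Real.sqrt_pos.2 (hv0 j)
  -- the events for large `T`
  have hA : ∀ j, ∀ᶠ T : ℝ in atTop,
      v j / 8 * (T / 2) ≤ ∫ t in (T / 2)..T, Up (δ (j + 1)) (δ j) T t ^ 2 ∧
      ∫ t in (T / 2)..T, Up (δ (j + 1)) (δ j) T t ^ 2 ≤ v j * (T / 2) ∧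
      ∫ t in (T / 2)..T, Up (δ (j + 1)) (δ j) T t ^ 4 ≤ Cu * v j ^ 2 * (T / 2) := by
    intro j
    have h1 := HU (δ (j + 1)) (δ j) (hδ0 _) (hδa (Nat.lt_succ_self j))
      ((hδs j).trans (by norm_num)) (by rw [← hv]; exact (hv4 j).2)
    simp only [← hv] at h1
    exact h1
  obtain ⟨ε', hε'⟩ : ∃ ε' : ℝ, ε' = 1 / (2 * I) := ⟨_, rfl⟩
  have hε'0 : 0 < ε' := by
    rw [hε']
    positivity
  have hC : ∀ i j, ∀ᶠ T : ℝ in atTop, i < j →
      |∫ t in (T / 2)..T, Up (δ (j + 1)) (δ j) T t * Up (δ (i + 1)) (δ i) T t| ≤ ε' * T ∧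
      ∫ t in (T / 2)..T, Up (δ (j + 1)) (δ j) T t ^ 2 * Up (δ (i + 1)) (δ i) T t ^ 2 ≤
        1 / (T / 2) * (∫ t in (T / 2)..T, Up (δ (j + 1)) (δ j) T t ^ 2) *
          (∫ t in (T / 2)..T, Up (δ (i + 1)) (δ i) T t ^ 2) + ε' * T := by
    intro i j
    by_cases hij : i < j
    · filter_upwards [U_cross (hδ0 (j + 1)) (hδa (Nat.lt_succ_self j))
        (hδa.antitone (show i + 1 ≤ j from hij)) (hδa (Nat.lt_succ_self i))
        ((hδs i).trans (by norm_num)) hε'0] with T hT _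
      exact hT
    · exact Eventually.of_forall fun T h1 => absurd h1 hij
  have hD : ∀ j, ∀ᶠ T : ℝ in atTop, ∫ t in (T / 2)..T,
      Real.log ‖Dd (δ j) T (sw T t 1)‖ ^ 2 ≤ Cd * (1 + Real.log (1 / δ j)) * T :=
    fun j => HD (δ j) (hδ0 j) (hδs j)
  obtain ⟨ε'', hε''⟩ : ∃ ε'' : ℝ, ε'' = d ^ 2 * ε / (4 * I) := ⟨_, rfl⟩
  have hε''0 : 0 < ε'' := by
    rw [hε'']
    positivity
  have hP : ∀ j, ∀ᶠ T : ℝ in atTop, ∫ t in (T / 4)..(4 * T),
      ‖PW (δ (j + 1)) (δ j) T (sw T t 1)‖ ^ 2 ≤ ε'' * T := by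
    intro j
    filter_upwards [powers_small (A := 1) 1 le_rfl (hδ0 (j + 1)) (hδ0 j)
      ((hδs j).trans (by norm_num)) one_pos hε''0] with T hT
    have h1 := hT (fun n => ((Λ n / Real.log n : ℝ) : ℂ)) 1 zero_le_one (fun n => by
      rw [one_mul, Complex.norm_real, Real.norm_of_nonneg]
      exact div_nonneg ArithmeticFunction.vonMangoldt_nonneg (Real.log_natCast_nonneg n))
    rw [mul_one] at h1
    simp only [Complex.ofReal_one] at h1
    exact h1
  have hA' := (Filter.eventually_all_finset (Finset.range I)).2 fun j _ => hA j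
  have hC' := (Filter.eventually_all_finset (Finset.range I)).2 fun i _ =>
    (Filter.eventually_all_finset (Finset.range I)).2 fun j _ => hC i j
  have hD' := (Filter.eventually_all_finset (Finset.range I)).2 fun j _ => hD j
  have hP' := (Filter.eventually_all_finset (Finset.range I)).2 fun j _ => hP j
  filter_upwards [hA', hC', hD', hP', HZ (1 / 64) 1 (by norm_num) (by norm_num) le_rfl,
    eventually_gt_atTop 1] with T tA tC tD tP tZ hT1
  have hT0 : 0 < T := by linarith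
  have hTT : T - T / 2 = T / 2 := by ring
  have hle : T / 2 ≤ T := by linarith
  have hz : ∀ t ∈ Icc (T / 2) T, riemannZeta (sw T t 1) ≠ 0 := by
    intro t ht
    obtain ⟨e, he, -⟩ := tZ t ⟨by linarith [ht.1], by linarith [ht.2]⟩ 1 ⟨by norm_num, le_rfl⟩
    rw [Complex.ofReal_one] at he
    rw [he]
    exact Complex.exp_ne_zero _
  -- the normalised blocks
  obtain ⟨Z, hZ⟩ : ∃ Z : ℕ → ℝ → ℝ, ∀ j t, Z j t = Up (δ (j + 1)) (δ j) T t / Real.sqrt (v j) :=
    ⟨_, fun _ _ => rfl⟩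
  have hsq4 : ∀ j, Real.sqrt (v j) ^ 4 = v j ^ 2 := by
    intro j
    have h1 := Real.sq_sqrt (hv0 j).le
    calc Real.sqrt (v j) ^ 4 = (Real.sqrt (v j) ^ 2) ^ 2 := by ring
      _ = v j ^ 2 := by rw [h1]
  have hZc : ∀ j, ContinuousOn (Z j) (Icc (T / 2) T) := by
    intro j
    have h1 : Z j = fun t => Up (δ (j + 1)) (δ j) T t / Real.sqrt (v j) := funext (hZ j)
    rw [h1]
    unfold Up
    exact ((Complex.continuous_re.comp (XP_cont _ _ T)).div_const _).continuousOn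
  have e2 : ∀ j, ∫ t in (T / 2)..T, Z j t ^ 2 =
      (∫ t in (T / 2)..T, Up (δ (j + 1)) (δ j) T t ^ 2) / v j := by
    intro j
    simp only [hZ, div_pow, Real.sq_sqrt (hv0 j).le, intervalIntegral.integral_div]
  have e4 : ∀ j, ∫ t in (T / 2)..T, Z j t ^ 4 =
      (∫ t in (T / 2)..T, Up (δ (j + 1)) (δ j) T t ^ 4) / v j ^ 2 := by
    intro j
    simp only [hZ, div_pow, hsq4, intervalIntegral.integral_div]
  have eX : ∀ i j, ∫ t in (T / 2)..T, Z i t * Z j t =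
      (∫ t in (T / 2)..T, Up (δ (i + 1)) (δ i) T t * Up (δ (j + 1)) (δ j) T t) /
        (Real.sqrt (v i) * Real.sqrt (v j)) := by
    intro i j
    simp only [hZ, div_mul_div_comm, intervalIntegral.integral_div]
  have eY : ∀ i j, ∫ t in (T / 2)..T, Z i t ^ 2 * Z j t ^ 2 =
      (∫ t in (T / 2)..T, Up (δ (i + 1)) (δ i) T t ^ 2 * Up (δ (j + 1)) (δ j) T t ^ 2) /
        (v i * v j) := by
    intro i j
    simp only [hZ, div_pow, Real.sq_sqrt (hv0 _).le, div_mul_div_comm,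
      intervalIntegral.integral_div]
  have hcr : ∀ i < I, ∀ j < I, i ≠ j →
      |∫ t in (T / 2)..T, Up (δ (i + 1)) (δ i) T t * Up (δ (j + 1)) (δ j) T t| ≤ ε' * T ∧
      ∫ t in (T / 2)..T, Up (δ (i + 1)) (δ i) T t ^ 2 * Up (δ (j + 1)) (δ j) T t ^ 2 ≤
        1 / (T / 2) * (∫ t in (T / 2)..T, Up (δ (i + 1)) (δ i) T t ^ 2) *
          (∫ t in (T / 2)..T, Up (δ (j + 1)) (δ j) T t ^ 2) + ε' * T := by
    intro i hi j hj hij
    rcases Nat.lt_or_gt_of_ne hij with h1 | h1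
    · obtain ⟨h2, h3⟩ := tC i (Finset.mem_range.2 hi) j (Finset.mem_range.2 hj) h1
      have a1 : ∫ t in (T / 2)..T, Up (δ (i + 1)) (δ i) T t * Up (δ (j + 1)) (δ j) T t =
          ∫ t in (T / 2)..T, Up (δ (j + 1)) (δ j) T t * Up (δ (i + 1)) (δ i) T t :=
        intervalIntegral.integral_congr fun t _ => mul_comm _ _
      have a2 : ∫ t in (T / 2)..T, Up (δ (i + 1)) (δ i) T t ^ 2 *
          Up (δ (j + 1)) (δ j) T t ^ 2 =
          ∫ t in (T / 2)..T, Up (δ (j + 1)) (δ j) T t ^ 2 * Up (δ (i + 1)) (δ i) T t ^ 2 :=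
        intervalIntegral.integral_congr fun t _ => mul_comm _ _
      rw [a1, a2]
      refine ⟨h2, h3.trans (le_of_eq ?_)⟩
      ring
    · exact tC j (Finset.mem_range.2 hj) i (Finset.mem_range.2 hi) h1
  have hmes := HS (T / 2) T Z (by linarith) hZc
    (fun j hj => by
      rw [e2, hTT, le_div_iff₀ (hv0 j)]
      have := (tA j (Finset.mem_range.2 hj)).1
      linarith)
    (fun j hj => by
      rw [e2, hTT, div_le_iff₀ (hv0 j)]
      have := (tA j (Finset.mem_range.2 hj)).2.1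
      linarith)
    (fun j hj => by
      rw [e4, hTT, div_le_iff₀ (pow_pos (hv0 j) 2)]
      have h1 := (tA j (Finset.mem_range.2 hj)).2.2
      have h2 : Cu * v j ^ 2 * (T / 2) ≤ max Cu 1 * v j ^ 2 * (T / 2) := by
        gcongr
        exact le_max_left _ _
      linarith)
    (fun i hi j hj hij => by
      rw [eX, hTT, abs_div]
      have h1 := (hcr i hi j hj hij).1
      have h2 : (1 : ℝ) ≤ |Real.sqrt (v i) * Real.sqrt (v j)| := by
        rw [abs_of_pos (mul_pos (hsv0 i) (hsv0 j))]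
        exact one_le_mul_of_one_le_of_one_le (hsv1 i) (hsv1 j)
      have h3 : ε' * T = T / 2 / I := by
        rw [hε']
        field_simp
      rw [← h3]
      exact (div_le_self (abs_nonneg _) h2).trans h1)
    (fun i hi j hj hij => by
      rw [eY, e2, e2, hTT]
      have h1 := (hcr i hi j hj hij).2
      have hvv : 0 < v i * v j := mul_pos (hv0 i) (hv0 j)
      have h3 : ε' * T = T / 2 / I := by
        rw [hε']
        field_simp
      rw [← h3, div_le_iff₀ hvv]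
      refine h1.trans ?_
      have h4 : (1 : ℝ) ≤ v i * v j := one_le_mul_of_one_le_of_one_le (hv4 i).2 (hv4 j).2
      have h5 : ε' * T * 1 ≤ ε' * T * (v i * v j) :=
        mul_le_mul_of_nonneg_left h4 (mul_nonneg hε'0.le hT0.le)
      have h6 : 1 / (T / 2) * ((∫ t in (T / 2)..T, Up (δ (i + 1)) (δ i) T t ^ 2) / v i) *
          ((∫ t in (T / 2)..T, Up (δ (j + 1)) (δ j) T t ^ 2) / v j) * (v i * v j) =
          1 / (T / 2) * (∫ t in (T / 2)..T, Up (δ (i + 1)) (δ i) T t ^ 2) *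
          (∫ t in (T / 2)..T, Up (δ (j + 1)) (δ j) T t ^ 2) := by
        have := (hv0 i).ne'
        have := (hv0 j).ne'
        field_simp
      rw [add_mul, h6]
      linarith)
  rw [hTT] at hmes
  -- the exceptional sets
  obtain ⟨BS, hBS⟩ : ∃ BS : ℕ → Set ℝ, ∀ j, BS j = {t ∈ Icc (T / 2) T |
      (d * q j) ^ 2 < Real.log ‖Dd (δ j) T (sw T t 1)‖ ^ 2} := ⟨_, fun _ => rfl⟩
  obtain ⟨PS', hPS⟩ : ∃ PS' : ℕ → Set ℝ, ∀ j, PS' j = {t ∈ Icc (T / 2) T |
      d ^ 2 < ‖PW (δ (j + 1)) (δ j) T (sw T t 1)‖ ^ 2} := ⟨_, fun _ => rfl⟩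
  have hBm : ∀ j < I, volume.real (BS j) ≤ ε / (4 * I) * T := by
    intro j hj
    have hqj := hq2 j
    have hq0 : 0 < q j := by linarith [hqj.2]
    have h1 := markov_int (F := fun t => Real.log ‖Dd (δ j) T (sw T t 1)‖ ^ 2) hle
      (lam := (d * q j) ^ 2) (by positivity) ((log_Dd_cont hT0 hz).pow 2)
      (fun t _ => sq_nonneg _)
    rw [hBS]
    refine h1.trans ?_
    rw [div_le_iff₀ (by positivity)]
    refine (tD j (Finset.mem_range.2 hj)).trans ?_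
    have h2 : Real.log (1 / δ j) = (k j : ℝ) ^ 12 := by
      rw [hδ, one_div, Real.log_inv, Real.log_exp]
      ring
    rw [h2]
    have h3 := hkq j
    have h4 : 1 + (k j : ℝ) ^ 12 ≤ 2 * q j := by linarith [hqj.2]
    have h5 : Cd * (1 + (k j : ℝ) ^ 12) * T ≤ Cd * (2 * q j) * T := by gcongr
    refine h5.trans ?_
    have h6 : 8 * I * Cd ≤ d ^ 2 * ε * q j :=
      hk1r.trans (mul_le_mul_of_nonneg_left hqj.1 (by positivity))
    have h7 : ε / (4 * I) * T * (d * q j) ^ 2 = (d ^ 2 * ε * q j) * (q j * T / (4 * I)) := by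
      field_simp
    have h8 : Cd * (2 * q j) * T = (8 * I * Cd) * (q j * T / (4 * I)) := by
      field_simp
      ring
    rw [h7, h8]
    exact mul_le_mul_of_nonneg_right h6 (by positivity)
  have hPc : ∀ j, Continuous fun t : ℝ => PW (δ (j + 1)) (δ j) T (sw T t 1) := by
    intro j
    unfold PW
    refine sum_cont T 1 _ (fun n hn => ?_) fun n => ((Λ n / Real.log n : ℝ) : ℂ)
    have := (Finset.mem_Ioc.1 (Finset.mem_filter.1 hn).1).1
    omega
  have hPm : ∀ j < I, volume.real (PS' j) ≤ ε / (4 * I) * T := by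
    intro j hj
    have h1 := markov_int (F := fun t => ‖PW (δ (j + 1)) (δ j) T (sw T t 1)‖ ^ 2) hle
      (lam := d ^ 2) (by positivity) ((hPc j).norm.pow 2).continuousOn
      (fun t _ => sq_nonneg _)
    rw [hPS]
    refine h1.trans ?_
    rw [div_le_iff₀ (by positivity)]
    have h2 : ∫ t in (T / 2)..T, ‖PW (δ (j + 1)) (δ j) T (sw T t 1)‖ ^ 2 ≤ ε'' * T := by
      refine le_trans ?_ (tP j (Finset.mem_range.2 hj))
      refine intervalIntegral.integral_mono_interval (by linarith) hle (by linarith) ?_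
        (((hPc j).norm.pow 2).intervalIntegrable _ _)
      exact Eventually.of_forall fun t => sq_nonneg _
    refine h2.trans (le_of_eq ?_)
    rw [hε'']
    field_simp
  have hsub : {t ∈ Icc (T / 2) T | ∀ j < I, -(c0 / 4 * q j) <
      Real.log ‖Dd (δ (j + 1)) T (sw T t 1)‖} ⊆
      {t ∈ Icc (T / 2) T | ∀ j < I, -c0 < Z j t} ∪ ⋃ j ∈ Finset.range I, (BS j ∪ PS' j) := by
    rintro t ⟨ht, hS⟩
    by_contra hc
    rw [Set.mem_union, not_or] at hc
    obtain ⟨hc1, hc2⟩ := hc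
    apply hc1
    refine ⟨ht, fun j hj => ?_⟩
    have hc3 : t ∉ BS j ∪ PS' j := fun h1 => hc2 (Set.mem_biUnion (Finset.mem_range.2 hj) h1)
    rw [Set.mem_union, not_or, hBS, hPS] at hc3
    have hq0 : 0 < q j := by linarith [(hq2 j).2]
    have h1 : |Real.log ‖Dd (δ j) T (sw T t 1)‖| ≤ d * q j := by
      refine abs_le_of_sq_le_sq ?_ (by positivity)
      by_contra h2
      exact hc3.1 ⟨ht, not_le.1 h2⟩
    have h2 : ‖PW (δ (j + 1)) (δ j) T (sw T t 1)‖ ≤ d := by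
      have h3 : |‖PW (δ (j + 1)) (δ j) T (sw T t 1)‖| ≤ d := by
        refine abs_le_of_sq_le_sq ?_ hd0.le
        by_contra h2
        exact hc3.2 ⟨ht, not_le.1 h2⟩
      rwa [abs_norm] at h3
    have h3 := log_step hT1 (hδ0 (j + 1)) (hδa (Nat.lt_succ_self j)).le (hz t ht)
    have h4 := hS j hj
    have h5 := (abs_le.1 h1).2
    have h6 : (PW (δ (j + 1)) (δ j) T (sw T t 1)).re ≤ d := (Complex.re_le_norm _).trans h2
    have h7 : d ≤ d * q j := by
      have := (hq2 j).2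
      nlinarith
    have h8 : -(c0 / 2 * q j) < Up (δ (j + 1)) (δ j) T t := by
      have h9 : c0 = 8 * d := by
        rw [hd]
        ring
      rw [h9] at h4 ⊢
      linarith
    rw [hZ, lt_div_iff₀ (hsv0 j)]
    have h9 := hsv j
    have h10 : c0 * (q j / 2) ≤ c0 * Real.sqrt (v j) := mul_le_mul_of_nonneg_left h9 hc0.le
    linarith
  have hIcc : volume (Icc (T / 2) T) ≠ ⊤ := measure_Icc_lt_top.ne
  have hbig : {t ∈ Icc (T / 2) T | ∀ j < I, -c0 < Z j t} ∪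
      ⋃ j ∈ Finset.range I, (BS j ∪ PS' j) ⊆ Icc (T / 2) T := by
    intro t ht
    rcases ht with ht | ht
    · exact ht.1
    · obtain ⟨j, -, hj⟩ := Set.mem_iUnion₂.1 ht
      rw [hBS, hPS] at hj
      rcases hj with hj | hj
      · exact hj.1
      · exact hj.1
  have hfin : volume ({t ∈ Icc (T / 2) T | ∀ j < I, -c0 < Z j t} ∪
      ⋃ j ∈ Finset.range I, (BS j ∪ PS' j)) ≠ ⊤ :=
    ne_top_of_le_ne_top hIcc (measure_mono hbig)
  have h30 : volume.real (⋃ j ∈ Finset.range I, (BS j ∪ PS' j)) ≤ ε / 2 * T := by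
    refine (measureReal_biUnion_finset_le _ _).trans ?_
    have h31 : ∀ j ∈ Finset.range I, volume.real (BS j ∪ PS' j) ≤ ε / (2 * I) * T := by
      intro j hj
      refine (measureReal_union_le _ _).trans ?_
      have h32 := hBm j (Finset.mem_range.1 hj)
      have h33 := hPm j (Finset.mem_range.1 hj)
      have h34 : ε / (2 * I) * T = ε / (4 * I) * T + ε / (4 * I) * T := by
        field_simp
        ring
      rw [h34]
      linarith
    refine (Finset.sum_le_sum h31).trans (le_of_eq ?_)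
    rw [Finset.sum_const, Finset.card_range, nsmul_eq_mul]
    field_simp
  calc volume.real {t ∈ Icc (T / 2) T | ∀ j < I, -(c0 / 4 * q j) <
      Real.log ‖Dd (δ (j + 1)) T (sw T t 1)‖} ≤ _ := measureReal_mono hsub hfin
    _ ≤ _ := measureReal_union_le _ _
    _ ≤ ε * (T / 2) + ε / 2 * T := add_le_add hmes h30
    _ = ε * T := by ring

end Pool.Agent.MP_67227b_nt.Ah
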