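import Pool.Agent.MP_67227b_nt.Ah.AhDet4
import Pool.Agent.MP_67227b_nt.Ah.AhEvA
import Pool.Agent.MP_67227b_nt.Ah.AhEvB
import Pool.Agent.MP_67227b_nt.Ah.AhEvF
import Pool.Agent.MP_67227b_nt.Ah.AhEvR
import Pool.Agent.MP_67227b_nt.Ah.AhFarE
import Pool.Agent.MP_67227b_nt.Ah.AhGrowOf
import Pool.Agent.MP_67227b_nt.Ah.AhPer
import Pool.Agent.MP_67227b_nt.Ah.AhSel

set_option autoImplicit false

open Filter Topology Set MeasureTheory Complex
open scoped Real ArithmeticFunction ContDiff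

namespace Pool.Agent.MP_67227b_nt.Ah

open Pool.Agent.Lib.ZetaCount_helper33 Pool.Agent.MP_67227b_nt Pool.Agent.MP_67227b_nt.Mo
open Pool.Agent.MP_67227b_nt.Sg Pool.Agent.MP_67227b_nt.Pp
open Pool.Agent.MP_67227b_nt.Mo.MomentBAux (DP)

namespace cosetAux

def eR (r T t : ℝ) : Prop := ∀ w : ℂ, 1 / 2 ≤ w.re → w.re ≤ r ^ 36 + 1 →
  |w.im| ≤ 8 * r ^ 24 → Dd (Real.exp (-r ^ 12)) T (sw T t w) ≠ 0 ∧
    |Real.log ‖Dd (Real.exp (-r ^ 12)) T (sw T t w)‖ -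
      Real.log ‖Dd (Real.exp (-r ^ 12)) T (sw T t 1)‖| ≤ r ^ 3

def eB (r T t : ℝ) : Prop := ∀ w : ℂ, |w.re| ≤ r ^ 36 + 1 →
  |w.im| ≤ 9 * r ^ 24 → ‖Bs (Real.exp (-r ^ 12)) T (sw T t w) -
    Bs (Real.exp (-r ^ 12)) T (sw T t 0)‖ ≤ Real.exp (-(3 / 4 * r ^ 12))

def eL (C r T t : ℝ) : Prop := ∀ w : ℂ, -(2 * r ^ 4 + 1) ≤ w.re → w.re ≤ 1 →
  |w.im| ≤ 8 * r ^ 24 → ‖Dd (Real.exp (-r ^ 12)) T (sw T t w)‖ ≤
    Real.exp (|w.re| + C) * ‖Dd (Real.exp (-r ^ 12)) T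
      (sw T t ((max |w.re| 1 : ℝ) + (w.im : ℂ) * I))‖

def eF (n : ℕ) (r T t : ℝ) : Prop :=
  (∫ x in (1 / 2 : ℝ)..(r ^ 36 + 3 / 2), ∫ y in (-(8 * r ^ 24))..(8 * r ^ 24),
      ‖Fh (am (Real.exp (-r ^ 12)) n T) (al T) (Nn (Real.exp (-r ^ 12)) T)
        (sw T t ((x : ℂ) + (y : ℂ) * I))‖) ≤ Real.exp r ∧
  (∫ x in (1 / 2 : ℝ)..(r ^ 36 + 3 / 2), ∫ y in (-(8 * r ^ 24))..(8 * r ^ 24),
      ‖Pl (am (Real.exp (-r ^ 12)) n T) (al T) (Nn (Real.exp (-r ^ 12)) T)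
        (sw T t ((x : ℂ) + (y : ℂ) * I)) -
        Am (Real.exp (-r ^ 12)) n T (sw T t ((x : ℂ) + (y : ℂ) * I))‖) ≤
    Real.exp (-(r ^ 12 / 4)) ∧
  (∫ x in (1 / 2 : ℝ)..(r ^ 36 + 3 / 2), ∫ y in (-(8 * r ^ 24))..(8 * r ^ 24),
      ‖Am (Real.exp (-r ^ 12)) n T (sw T t ((x : ℂ) + (y : ℂ) * I))‖) ≤
    Real.exp (5 / 8 * r ^ 12)

def eA (n : ℕ) (r T t : ℝ) : Prop :=
  Integrable (fun y : ℝ => ‖Am (Real.exp (-r ^ 12)) n T (sw T t (2 + (y : ℂ) * I))‖ /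
    (1 + (y / (2 * r ^ 24)) ^ 2)) ∧
  ∫ y : ℝ, ‖Am (Real.exp (-r ^ 12)) n T (sw T t (2 + (y : ℂ) * I))‖ /
    (1 + (y / (2 * r ^ 24)) ^ 2) ≤ Real.exp (r ^ 13)

def eG (θ R : ℝ) (n : ℕ) (r T t : ℝ) : Prop := ∀ y : ℝ, |y| ≤ R →
  ‖Dd (Real.exp (-r ^ 12)) T (sw T t ((r : ℂ) ^ 36 + (y : ℂ) * I)) *
    Am (Real.exp (-r ^ 12)) n T (sw T t ((r : ℂ) ^ 36 + (y : ℂ) * I)) - 1‖ ≤ θ

theorem npow_diff {n : ℕ} (hn : 1 ≤ n) : Differentiable ℂ (fun s : ℂ => (n : ℂ) ^ (-s)) := by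
  intro s
  have hn0 : (n : ℂ) ≠ 0 := by exact_mod_cast (by omega : n ≠ 0)
  exact (differentiableAt_id.neg).const_cpow (Or.inl hn0)

theorem Aa_diff (a : ℕ → ℝ) (N : ℕ) : Differentiable ℂ (Aa a N) := by
  unfold Aa
  refine Differentiable.fun_sum fun n hn => ?_
  exact (npow_diff (Finset.mem_Icc.1 hn).1).const_mul _

theorem Bs_diff (δ T : ℝ) : Differentiable ℂ (Bs δ T) := by
  unfold Bs
  refine Differentiable.fun_sum fun n hn => ?_
  exact (npow_diff (le_trans (by norm_num) (Finset.mem_Ioc.1 hn).1.le)).const_mul _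

theorem Dd_diff {δ T : ℝ} {s : ℂ} (hs : s ≠ 1) : DifferentiableAt ℂ (Dd δ T) s := by
  unfold Dd
  exact (differentiableAt_riemannZeta hs).mul ((Bs_diff δ T s).neg.cexp)

theorem sw_diff (T t : ℝ) : Differentiable ℂ (sw T t) := by
  unfold sw
  fun_prop

theorem sw_ne {T t b : ℝ} (hT : 1 ≤ Real.log T) (ht : T / 2 ≤ t) (hb : 2 * b < T) {z : ℂ}
    (hz : |z.im| ≤ b) : sw T t z ≠ 1 := by
  have him : (sw T t z).im = t + z.im / Real.log T := by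
    unfold sw
    simp [Complex.add_im, Complex.div_ofReal_im]
  intro h0
  rw [h0] at him
  have h1 : |z.im / Real.log T| ≤ b := by
    rw [abs_div, abs_of_pos (by linarith : 0 < Real.log T), div_le_iff₀ (by linarith)]
    nlinarith [abs_nonneg z.im]
  have h2 := (abs_le.1 h1).1
  simp only [Complex.one_im] at him
  linarith

/-- the deterministic part: the facts on the box -/
theorem facts {c C θ R' T t : ℝ} {k n : ℕ} (hL : 1 ≤ Real.log T) (ht : t ∈ Icc (T / 2) T)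
    (hT2 : 2 * (10 * (k : ℝ) ^ 24) < T)
    (hper : (∀ w : ℂ, 1 ≤ w.re → w.re ≤ (k : ℝ) ^ 36 → |w.im| ≤ 6 * (k : ℝ) ^ 24 →
        ‖Dd (Real.exp (-(k : ℝ) ^ 12)) T (sw T t (w + π * I)) *
            Am (Real.exp (-(k : ℝ) ^ 12)) n T (sw T t (w + π * I)) -
          Dd (Real.exp (-(k : ℝ) ^ 12)) T (sw T t w) *
            Am (Real.exp (-(k : ℝ) ^ 12)) n T (sw T t w)‖ ≤ Real.exp (-(k : ℝ) ^ 5)))
    (hgrow : ∀ s : ℝ, 0 ≤ s → (∀ η : ℝ, |η| ≤ 4 * (k : ℝ) ^ 24 →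
        ‖Am (Real.exp (-(k : ℝ) ^ 12)) n T (sw T t (2 + (η : ℂ) * I))‖ ≤ s) →
      ∀ w : ℂ, -(2 * (k : ℝ) ^ 4) ≤ w.re → w.re ≤ 1 → |w.im| ≤ 2 * (k : ℝ) ^ 24 →
        ‖Am (Real.exp (-(k : ℝ) ^ 12)) n T (sw T t w)‖ ≤
          Real.exp (2 * (2 - w.re)) * (4 * (k : ℝ) ^ 24 * s + 1))
    (h1 : eR k T t) (h3 : eL C k T t)
    (h6 : eG θ (R' + 4) n k T t)
    (hs : Real.log ‖Dd (Real.exp (-(k : ℝ) ^ 12)) T (sw T t 1)‖ ≤ -(c * (k : ℝ) ^ 6)) :
    Facts k c C θ R' (fun w => Dd (Real.exp (-(k : ℝ) ^ 12)) T (sw T t w))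
      (fun w => Am (Real.exp (-(k : ℝ) ^ 12)) n T (sw T t w)) where
  dD := by
    intro w hw
    have hne : sw T t w ≠ 1 := sw_ne (b := 10 * (k : ℝ) ^ 24) hL ht.1 hT2 (by
      have h0 := hw.2
      have : 0 ≤ (k : ℝ) ^ 24 := by positivity
      linarith)
    exact (DifferentiableAt.comp (g := Dd (Real.exp (-(k : ℝ) ^ 12)) T) _ (Dd_diff hne)
      (sw_diff T t w)).differentiableWithinAt
  dA := (Aa_diff _ _).comp (sw_diff T t)
  ratio := h1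
  small := hs
  left := h3
  per := hper
  growA := hgrow
  far := h6

end cosetAux

open cosetAux in
/-- MODULE COSET. The local rigidity. Let `R' = max R 4`. `select` (`ε/4`) gives `c`, `I`, `k₁`;
`left_event` gives `C`; `det4` (`c`, `C`, `R'`, `τ`) gives `θ`, `r₀`. Choose `k 0` so large that with
`k (j+1) = (k j)^2` all thresholds are passed for the `r = k (j+1)`, `j < I`: `r₀`, `per_of`, `growA_of`,
and the events `ratio_event`, `B_event`, `left_event`, `F_event`, `A_event`,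
`far_event` (`θ`, `R' + 4`) with `ε/(100 (I+1))`; then for each `j < I` a mesh `n_j` (finitely many
conditions `∀ᶠ n`), then `T` large along `l` (`F_event` covers `Icc ((1/2 + 5ε')T) ((1 - 5ε')T)`, the rest of
`Icc (T/2) T` has measure `10 ε' T`). Outside the union of the exceptional sets there is `j < I` with
`log ‖Dd‖ ≤ -(c r^6)`, and `Facts r c C θ R' D A` holds for `D w = Dd (e^{-r^12}) T (sw T t w)`,
`A w = Am (e^{-r^12}) n_j T (sw T t w)` (`dD`: `s ≠ 1`). Zeros: `sw T t (i L (ord z - t)) = z`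
(`zer_eq`), `riemannZeta z = 0`. -/
theorem coset (hRH : RiemannHypothesis) {l : Filter ℝ} (hl : Hyp l) {R ε τ : ℝ} (hR : 0 < R)
    (hε : 0 < ε) (hτ : 0 < τ) : ∀ᶠ T : ℝ in l, volume.real {t ∈ Icc (T / 2) T |
      ¬ ∀ z z' : Zer, |ord z - t| ≤ R / Real.log T → |ord z' - t| ≤ R / Real.log T →
        ‖Complex.exp (-2 * ((Real.log T * (ord z - t) : ℝ) : ℂ) * I) -
          Complex.exp (-2 * ((Real.log T * (ord z' - t) : ℝ) : ℂ) * I)‖ ≤ τ} ≤ ε * T := by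
  classical
  have hlt : l ≤ atTop := hl.1
  set R' : ℝ := max R 4 with hR'
  have hR'4 : 4 ≤ R' := le_max_right _ _
  have hR'R : R ≤ R' := le_max_left _ _
  obtain ⟨c, N, k₁, hc, -, hsel⟩ := select hRH (show 0 < ε / 4 by positivity)
  obtain ⟨C, hC, hleft⟩ := left_event hRH
  obtain ⟨θ, r₀, hθ, -, hdet⟩ := det4 hc hC.le hR'4 hτ
  obtain ⟨rp, -, hper⟩ := per_of hRH hc
  obtain ⟨kg, -, hgrow⟩ := growA_of
  set η : ℝ := min (ε / (100 * (N + 1))) (1 / 32) with hη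
  have hηpos : 0 < η := lt_min (by positivity) (by norm_num)
  have hηε : η * (100 * (N + 1)) ≤ ε := by
    have h := min_le_left (ε / (100 * ((N : ℝ) + 1))) (1 / 32)
    rw [← hη] at h
    rwa [le_div_iff₀ (by positivity)] at h
  obtain ⟨r1, -, h1⟩ := ratio_event hRH hηpos
  obtain ⟨r2, -, h2⟩ := B_event hηpos
  obtain ⟨r3, -, h3⟩ := hleft η hηpos
  obtain ⟨r4, -, h4⟩ := F_event hRH hηpos (min_le_right _ _)
  obtain ⟨r5, -, h5⟩ := A_event hηpos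
  obtain ⟨kf, -, h6⟩ := far_event hRH hηpos hθ (show 0 < R' + 4 by linarith)
  obtain ⟨K0, hK0⟩ : ∃ K0 : ℕ, (1 ≤ K0 ∧ k₁ ≤ K0 ∧ kg ≤ K0 ∧ kf ≤ K0) ∧ r₀ ≤ K0 ∧ rp ≤ K0 ∧
      r1 ≤ K0 ∧ r2 ≤ K0 ∧ r3 ≤ K0 ∧ r4 ≤ K0 ∧ r5 ≤ K0 := by
    obtain ⟨m, hm⟩ := exists_nat_ge (|r₀| + |rp| + |r1| + |r2| + |r3| + |r4| + |r5|)
    refine ⟨m + 1 + k₁ + kg + kf, ⟨by omega, by omega, by omega, by omega⟩, ?_⟩
    have a0 := le_abs_self r₀
    have ap := le_abs_self rp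
    have a1 := le_abs_self r1
    have a2 := le_abs_self r2
    have a3 := le_abs_self r3
    have a4 := le_abs_self r4
    have a5 := le_abs_self r5
    have b0 := abs_nonneg r₀
    have bp := abs_nonneg rp
    have b1 := abs_nonneg r1
    have b2 := abs_nonneg r2
    have b3 := abs_nonneg r3
    have b4 := abs_nonneg r4
    have b5 := abs_nonneg r5
    have c1 : (0 : ℝ) ≤ k₁ := Nat.cast_nonneg _
    have c2 : (0 : ℝ) ≤ kg := Nat.cast_nonneg _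
    have c3 : (0 : ℝ) ≤ kf := Nat.cast_nonneg _
    push_cast
    refine ⟨?_, ?_, ?_, ?_, ?_, ?_, ?_⟩ <;> linarith
  obtain ⟨⟨hK1, hKs, hKg, hKf⟩, g0, gp', g1, g2, g3, g4, g5⟩ := hK0
  set k : ℕ → ℕ := fun j => K0 ^ (2 ^ j) with hk
  have hk0 : k 0 = K0 := by simp [hk]
  have hks : ∀ j, k j ^ 2 ≤ k (j + 1) := by
    intro j
    simp only [hk]
    rw [← pow_mul, ← pow_succ]
  have hkK : ∀ j, K0 ≤ k j := by
    intro j
    simp only [hk]
    exact Nat.le_self_pow (by positivity) K0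
  have hkKr : ∀ j, (K0 : ℝ) ≤ k j := fun j => by exact_mod_cast hkK j
  -- the conditions at the scale `j`
  have hev : ∀ j, ∃ n : ℕ, ∀ᶠ T : ℝ in l,
      (volume.real {t ∈ Icc (T / 2) T | ¬ eR (k (j + 1)) T t} ≤ η * T ∧
      volume.real {t ∈ Icc (T / 2) T | ¬ eB (k (j + 1)) T t} ≤ η * T ∧
      volume.real {t ∈ Icc (T / 2) T | ¬ eL C (k (j + 1)) T t} ≤ η * T ∧
      volume.real {t ∈ Icc ((1 / 2 + 5 * η) * T) ((1 - 5 * η) * T) |
        ¬ eF n (k (j + 1)) T t} ≤ η * T ∧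
      volume.real {t ∈ Icc (T / 2) T | ¬ eA n (k (j + 1)) T t} ≤ η * T ∧
      volume.real {t ∈ Icc (T / 2) T | ¬ eG θ (R' + 4) n (k (j + 1)) T t} ≤ η * T) ∧
      ∀ t ∈ Icc (T / 2) T, eR (k (j + 1)) T t → eB (k (j + 1)) T t → eL C (k (j + 1)) T t →
        eF n (k (j + 1)) T t → eA n (k (j + 1)) T t → eG θ (R' + 4) n (k (j + 1)) T t →
        Real.log ‖Dd (Real.exp (-(k (j + 1) : ℝ) ^ 12)) T (sw T t 1)‖ ≤
          -(c * (k (j + 1) : ℝ) ^ 6) →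
        Facts (k (j + 1)) c C θ R' (fun w => Dd (Real.exp (-(k (j + 1) : ℝ) ^ 12)) T (sw T t w))
          (fun w => Am (Real.exp (-(k (j + 1) : ℝ) ^ 12)) n T (sw T t w)) := by
    intro j
    have gk := hkKr (j + 1)
    have e4 := h4 (k (j + 1)) (g4.trans gk) l hl
    have e5 := h5 (k (j + 1)) (g5.trans gk)
    have e6 := h6 (k (j + 1)) (hKf.trans (hkK _))
    obtain ⟨n, ⟨hn4, hn5⟩, hn6⟩ := ((e4.and e5).and e6).exists
    refine ⟨n, ?_⟩
    filter_upwards [hlt (h1 (k (j + 1)) (g1.trans gk)), hlt (h2 (k (j + 1)) (g2.trans gk)),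
      hlt (h3 (k (j + 1)) (g3.trans gk)), hn4, hlt hn5, hlt hn6,
      hlt (hper (k (j + 1)) (gp'.trans gk)), hlt (hgrow (k (j + 1)) (hKg.trans (hkK _))),
      hlt (eventually_ge_atTop (Real.exp 1)),
      hlt (eventually_gt_atTop (2 * (10 * (k (j + 1) : ℝ) ^ 24)))]
      with T m1 m2 m3 m4 m5 m6 mp mg hT1 hT2
    refine ⟨⟨m1, m2, m3, m4, m5, m6⟩, ?_⟩
    intro t ht p1 p2 p3 p4 p5 p6 ps
    have hTpos : 0 < T := lt_of_lt_of_le (Real.exp_pos 1) hT1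
    have hL1 : 1 ≤ Real.log T := by
      rw [Real.le_log_iff_exp_le hTpos]; exact hT1
    exact facts hL1 ht hT2 (mp n t ht p1 ps p2 p4.1 p4.2.1 p4.2.2) (mg n t p5.2) p1 p3 p6 ps
  choose n hn using hev
  have hall := (Filter.eventually_all_finset (Finset.range N)).2 (fun j _ => hn j)
  filter_upwards [hall, hlt (hsel k (by rw [hk0]; exact hKs) hks),
    hlt (eventually_ge_atTop (Real.exp 1)), hlt (eventually_gt_atTop (2 * R))]
    with T hT hTs hT1 hT2R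
  have hTpos : 0 < T := lt_of_lt_of_le (Real.exp_pos 1) hT1
  have hL1 : 1 ≤ Real.log T := by
    rw [Real.le_log_iff_exp_le hTpos]; exact hT1
  have hL : 0 < Real.log T := by linarith
  set S0 : Set ℝ := {t ∈ Icc (T / 2) T | ∀ j < N, -(c * (k (j + 1) : ℝ) ^ 6) <
    Real.log ‖Dd (Real.exp (-(k (j + 1) : ℝ) ^ 12)) T (sw T t 1)‖} with hS0
  set U : ℕ → Set ℝ := fun j =>
    ((({t ∈ Icc (T / 2) T | ¬ eR (k (j + 1)) T t} ∪ {t ∈ Icc (T / 2) T | ¬ eB (k (j + 1)) T t}) ∪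
    {t ∈ Icc (T / 2) T | ¬ eL C (k (j + 1)) T t}) ∪
    {t ∈ Icc ((1 / 2 + 5 * η) * T) ((1 - 5 * η) * T) | ¬ eF (n j) (k (j + 1)) T t}) ∪
    ({t ∈ Icc (T / 2) T | ¬ eA (n j) (k (j + 1)) T t} ∪
    {t ∈ Icc (T / 2) T | ¬ eG θ (R' + 4) (n j) (k (j + 1)) T t}) with hU
  have hUm : ∀ j ∈ Finset.range N, volume.real (U j) ≤ 6 * (η * T) := by
    intro j hj
    obtain ⟨m1, m2, m3, m4, m5, m6⟩ := (hT j hj).1
    have u1 := measureReal_union_le (μ := volume) {t ∈ Icc (T / 2) T | ¬ eR (k (j + 1)) T t}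
      {t ∈ Icc (T / 2) T | ¬ eB (k (j + 1)) T t}
    have u2 := measureReal_union_le (μ := volume)
      ({t ∈ Icc (T / 2) T | ¬ eR (k (j + 1)) T t} ∪ {t ∈ Icc (T / 2) T | ¬ eB (k (j + 1)) T t})
      {t ∈ Icc (T / 2) T | ¬ eL C (k (j + 1)) T t}
    have u3 := measureReal_union_le (μ := volume)
      (({t ∈ Icc (T / 2) T | ¬ eR (k (j + 1)) T t} ∪ {t ∈ Icc (T / 2) T | ¬ eB (k (j + 1)) T t}) ∪
      {t ∈ Icc (T / 2) T | ¬ eL C (k (j + 1)) T t})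
      {t ∈ Icc ((1 / 2 + 5 * η) * T) ((1 - 5 * η) * T) | ¬ eF (n j) (k (j + 1)) T t}
    have u4 := measureReal_union_le (μ := volume)
      {t ∈ Icc (T / 2) T | ¬ eA (n j) (k (j + 1)) T t}
      {t ∈ Icc (T / 2) T | ¬ eG θ (R' + 4) (n j) (k (j + 1)) T t}
    have u5 := measureReal_union_le (μ := volume)
      ((({t ∈ Icc (T / 2) T | ¬ eR (k (j + 1)) T t} ∪
        {t ∈ Icc (T / 2) T | ¬ eB (k (j + 1)) T t}) ∪
      {t ∈ Icc (T / 2) T | ¬ eL C (k (j + 1)) T t}) ∪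
      {t ∈ Icc ((1 / 2 + 5 * η) * T) ((1 - 5 * η) * T) | ¬ eF (n j) (k (j + 1)) T t})
      ({t ∈ Icc (T / 2) T | ¬ eA (n j) (k (j + 1)) T t} ∪
      {t ∈ Icc (T / 2) T | ¬ eG θ (R' + 4) (n j) (k (j + 1)) T t})
    simp only [hU]
    linarith
  have hsub : {t ∈ Icc (T / 2) T |
      ¬ ∀ z z' : Zer, |ord z - t| ≤ R / Real.log T → |ord z' - t| ≤ R / Real.log T →
        ‖Complex.exp (-2 * ((Real.log T * (ord z - t) : ℝ) : ℂ) * I) -
          Complex.exp (-2 * ((Real.log T * (ord z' - t) : ℝ) : ℂ) * I)‖ ≤ τ} ⊆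
      (S0 ∪ (Icc (T / 2) ((1 / 2 + 5 * η) * T) ∪ Icc ((1 - 5 * η) * T) T)) ∪
        ⋃ j ∈ Finset.range N, U j := by
    intro t ht
    obtain ⟨ht1, ht2⟩ := ht
    by_contra hcon
    rw [mem_union, not_or, mem_union, not_or, mem_union, not_or] at hcon
    obtain ⟨⟨n0, nE1, nE2⟩, nU⟩ := hcon
    have htI : t ∈ Icc ((1 / 2 + 5 * η) * T) ((1 - 5 * η) * T) := by
      constructor
      · by_contra h
        push Not at h
        exact nE1 ⟨ht1.1, h.le⟩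
      · by_contra h
        push Not at h
        exact nE2 ⟨h.le, ht1.2⟩
    have hj : ∃ j < N, Real.log ‖Dd (Real.exp (-(k (j + 1) : ℝ) ^ 12)) T (sw T t 1)‖ ≤
        -(c * (k (j + 1) : ℝ) ^ 6) := by
      by_contra h
      push Not at h
      exact n0 ⟨ht1, fun j hj => h j hj⟩
    obtain ⟨j, hjN, hjs⟩ := hj
    have hjr : j ∈ Finset.range N := Finset.mem_range.2 hjN
    have nUj : t ∉ U j := fun h => nU (mem_iUnion₂.2 ⟨j, hjr, h⟩)
    simp only [hU, mem_union, not_or, mem_setOf_eq, not_and, not_not] at nUj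
    obtain ⟨⟨⟨⟨q1, q2⟩, q3⟩, q4⟩, q5, q6⟩ := nUj
    have hF := (hT j hjr).2 t ht1 (q1 ht1) (q2 ht1) (q3 ht1) (q4 htI) (q5 ht1) (q6 ht1) hjs
    apply ht2
    intro z z' hz hz'
    have hzero : ∀ z : Zer, |ord z - t| ≤ R / Real.log T → Dd (Real.exp (-(k (j + 1) : ℝ) ^ 12)) T
        (sw T t (((Real.log T * (ord z - t) : ℝ) : ℂ) * I)) = 0 := by
      intro z hz
      have e : sw T t (((Real.log T * (ord z - t) : ℝ) : ℂ) * I) = z.1 := by
        rw [zer_eq hRH z]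
        unfold sw
        have hLc : (Real.log T : ℂ) ≠ 0 := by exact_mod_cast hL.ne'
        push_cast
        field_simp
        ring
      rw [e, Dd]
      have hdiv : R / Real.log T ≤ R := div_le_self hR.le hL1
      have him : z.1.im ≠ 0 := by
        have h1 := (abs_le.1 hz).1
        have h2 := ht1.1
        have h3 : 0 < ord z := by linarith
        exact ne_of_gt h3
      have hz0 : riemannZeta z.1 = 0 := (xi_eq_zero_iff him).1 z.2
      rw [hz0, zero_mul]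
    have habs : ∀ z : Zer, |ord z - t| ≤ R / Real.log T → |Real.log T * (ord z - t)| ≤ R' := by
      intro z hz
      rw [abs_mul, abs_of_pos hL]
      rw [le_div_iff₀ hL] at hz
      linarith
    exact hdet (k (j + 1)) (g0.trans (hkKr _)) _ _ hF _ _ (habs z hz) (habs z' hz') (hzero z hz)
      (hzero z' hz')
  have hbd : Bornology.IsBounded ((S0 ∪ (Icc (T / 2) ((1 / 2 + 5 * η) * T) ∪
      Icc ((1 - 5 * η) * T) T)) ∪ ⋃ j ∈ Finset.range N, U j) := by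
    refine (((Metric.isBounded_Icc _ _).subset (fun t ht => ht.1)).union
      ((Metric.isBounded_Icc _ _).union (Metric.isBounded_Icc _ _))).union ?_
    refine (Bornology.isBounded_biUnion_finset _).2 fun j _ => ?_
    simp only [hU]
    refine ((((Bornology.IsBounded.subset (Metric.isBounded_Icc _ _) (fun t ht => ht.1)).union
      (Bornology.IsBounded.subset (Metric.isBounded_Icc _ _) (fun t ht => ht.1))).union
      (Bornology.IsBounded.subset (Metric.isBounded_Icc _ _) (fun t ht => ht.1))).union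
      (Bornology.IsBounded.subset (Metric.isBounded_Icc _ _) (fun t ht => ht.1))).union
      ((Bornology.IsBounded.subset (Metric.isBounded_Icc _ _) (fun t ht => ht.1)).union
      (Bornology.IsBounded.subset (Metric.isBounded_Icc _ _) (fun t ht => ht.1)))
  have hmono := measureReal_mono (μ := volume) hsub hbd.measure_lt_top.ne
  have v1 := measureReal_union_le (μ := volume) (S0 ∪ (Icc (T / 2) ((1 / 2 + 5 * η) * T) ∪
      Icc ((1 - 5 * η) * T) T)) (⋃ j ∈ Finset.range N, U j)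
  have v2 := measureReal_union_le (μ := volume) S0 (Icc (T / 2) ((1 / 2 + 5 * η) * T) ∪
      Icc ((1 - 5 * η) * T) T)
  have v3 := measureReal_union_le (μ := volume) (Icc (T / 2) ((1 / 2 + 5 * η) * T))
    (Icc ((1 - 5 * η) * T) T)
  have v4 := measureReal_biUnion_finset_le (μ := volume) (Finset.range N) U
  have v5 : ∑ j ∈ Finset.range N, volume.real (U j) ≤ N * (6 * (η * T)) := by
    refine (Finset.sum_le_sum hUm).trans (le_of_eq ?_)
    rw [Finset.sum_const, Finset.card_range, nsmul_eq_mul]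
  have hηT : 0 < η * T := mul_pos hηpos hTpos
  have v6 : volume.real (Icc (T / 2) ((1 / 2 + 5 * η) * T)) = 5 * (η * T) := by
    rw [Real.volume_real_Icc_of_le (by nlinarith)]
    ring
  have v7 : volume.real (Icc ((1 - 5 * η) * T) T) = 5 * (η * T) := by
    rw [Real.volume_real_Icc_of_le (by nlinarith)]
    ring
  have v8 : η * T * (100 * (N + 1)) ≤ ε * T := by
    have := mul_le_mul_of_nonneg_right hηε hTpos.le
    linarith
  have hN0 : (0 : ℝ) ≤ N := Nat.cast_nonneg _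
  have v9 : 0 ≤ η * T * N := by positivity
  linarith

end Pool.Agent.MP_67227b_nt.Ah
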