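import Pool.Agent.MP_67227b_nt.Ppw.PpwDefs

set_option autoImplicit false

open Filter Topology Set MeasureTheory Complex
open scoped Real ArithmeticFunction ContDiff

namespace Pool.Agent.MP_67227b_nt.Ah

open Pool.Agent.Lib.ZetaCount_helper33 Pool.Agent.MP_67227b_nt Pool.Agent.MP_67227b_nt.Mo
open Pool.Agent.MP_67227b_nt.Sg Pool.Agent.MP_67227b_nt.Pp
open Pool.Agent.MP_67227b_nt.Mo.MomentBAux (DP)

/-- The point `1/2 + i t + w / log T`. -/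
noncomputable def sw (T t : ℝ) (w : ℂ) : ℂ := 1 / 2 + (t : ℂ) * I + w / (Real.log T : ℂ)

/-- The shift `π / log T` (half the mean spacing). -/
noncomputable def al (T : ℝ) : ℝ := 2 * π * (1 / 2) / Real.log T

/-- The coefficients of the mollifier with roughness `δ` and mesh `δ / (n + 1)`. -/
noncomputable def am (δ : ℝ) (n : ℕ) (T : ℝ) : ℕ → ℝ :=
  ap T (δ / (n + 1)) (1 - δ) n ⌈((n : ℝ) + 1) / δ⌉₊ ⌈1 / δ⌉₊

/-- The length of the mollifier. -/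
noncomputable def Nn (δ T : ℝ) : ℕ := ⌊T ^ (1 - δ)⌋₊

/-- The mollifier. -/
noncomputable def Am (δ : ℝ) (n : ℕ) (T : ℝ) (s : ℂ) : ℂ := Aa (am δ n T) (Nn δ T) s

/-- The part of `Hq(s) A(s + iα)` with the frequencies `m ≤ N`. -/
noncomputable def Pl (a : ℕ → ℝ) (α : ℝ) (N : ℕ) (s : ℂ) : ℂ :=
  ∑ m ∈ Finset.Icc 1 N, ca a α N m * (m : ℂ) ^ (-s)

/-- The part of `Hq(s) A(s + iα)` with the frequencies `m > N`. -/
noncomputable def Fh (a : ℕ → ℝ) (α : ℝ) (N : ℕ) (s : ℂ) : ℂ :=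
  Hq α s * Aa a N (s + (α : ℂ) * I) - Pl a α N s

/-- The function `2 Re(Hq) A(s + iα)` on the line `Re s = 1/2 + b`. -/
noncomputable def mf (a : ℕ → ℝ) (α b : ℝ) (N : ℕ) (t : ℝ) : ℂ :=
  2 * ((Hq α (pl (1 / 2 + b) t)).re : ℂ) * Aa a N (pl (1 / 2 + b) (t + α))

/-- The function to the left of the line `Re s = 1/2 + b`; `mf = Fh + Hl` on the line. -/
noncomputable def Hl (a : ℕ → ℝ) (α b : ℝ) (N : ℕ) (s : ℂ) : ℂ :=
  Pl a α N s + (starRingEnd ℂ) (Hq α (1 + 2 * (b : ℂ) - (starRingEnd ℂ) s)) *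
    Aa a N (s + (α : ℂ) * I)

/-- The sum `∑_{1 < n ≤ T^δ} (Λ(n)/log n) n^{-s}`. -/
noncomputable def Bs (δ T : ℝ) (s : ℂ) : ℂ :=
  ∑ n ∈ Finset.Ioc 1 ⌊T ^ δ⌋₊, ((Λ n / Real.log n : ℝ) : ℂ) * (n : ℂ) ^ (-s)

/-- Zeta without its small primes. -/
noncomputable def Dd (δ T : ℝ) (s : ℂ) : ℂ := riemannZeta s * Complex.exp (-(Bs δ T s))

/-- The smoothed sum `∑_{1 < n ≤ T^θ} (Λ(n)/log n) h(log n/(θ log T)) n^{-s}`. -/
noncomputable def PB (h : ℝ → ℂ) (θ T : ℝ) (s : ℂ) : ℂ :=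
  ∑ n ∈ Finset.Ioc 1 ⌊T ^ θ⌋₊, ((Λ n / Real.log n : ℝ) : ℂ) *
    h (Real.log n / (θ * Real.log T)) * (n : ℂ) ^ (-s)

/-- The weight `M^{s - z} exp (((s - z)/Δ)^2)`. -/
noncomputable def om (M Δ : ℝ) (z s : ℂ) : ℂ :=
  (M : ℂ) ^ (s - z) * Complex.exp (((s - z) / (Δ : ℂ)) ^ 2)

/-- The kernel of the representation formula. -/
noncomputable def kk (ρ y : ℝ) : ℝ :=
  ρ / (Real.sqrt (1 / 16 + y ^ 2) * Real.sqrt (ρ ^ 2 / 4 + y ^ 2))

/-- The hypothesis along a filter `l`: in `[T/2, T]` there are only `o(T log T)` pairs of distinct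
zeros at normalised distance at most `lam`, for every `lam < 1/2`. -/
def Hyp (l : Filter ℝ) : Prop :=
  l ≤ atTop ∧ ∀ lam : ℝ, lam < 1 / 2 →
    Tendsto (fun T : ℝ => ((windowPairs T (T / 2) lam).ncard : ℝ) / (T * Real.log T)) l (𝓝 0)

/-- The boundary integral over the rectangle `[a, b] × [c, d]`, counterclockwise. -/
noncomputable def bd (f : ℂ → ℂ) (a b c d : ℝ) : ℂ :=
  (∫ x in a..b, f (x + c * I)) - (∫ x in a..b, f (x + d * I)) +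
    I * (∫ y in c..d, f (b + y * I)) - I * ∫ y in c..d, f (a + y * I)

end Pool.Agent.MP_67227b_nt.Ah
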