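import Pool.Agent.MP_67227b_nt.Ah.AhDetD

set_option autoImplicit false

open Filter Topology Set MeasureTheory Complex
open scoped Real ArithmeticFunction ContDiff

namespace Pool.Agent.MP_67227b_nt.Ah

open Pool.Agent.Lib.ZetaCount_helper33 Pool.Agent.MP_67227b_nt Pool.Agent.MP_67227b_nt.Mo
open Pool.Agent.MP_67227b_nt.Sg Pool.Agent.MP_67227b_nt.Pp
open Pool.Agent.MP_67227b_nt.Mo.MomentBAux (DP)

private lemma det1_ev (K : ℝ) (hK : 0 < K) (m : ℕ) : ∀ᶠ r : ℝ in atTop, r ^ m ≤ K * Real.exp r := by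
  have h := Real.tendsto_pow_mul_exp_neg_atTop_nhds_zero m
  have h2 := h.eventually (ge_mem_nhds hK)
  filter_upwards [h2] with r hr
  have h3 : r ^ m = r ^ m * Real.exp (-r) * Real.exp r := by
    rw [mul_assoc, ← Real.exp_add]; simp
  rw [h3]
  exact mul_le_mul_of_nonneg_right hr (Real.exp_pos r).le

private lemma det1_up {r δ M : ℝ} {Q : ℂ → ℂ} (hδ : 0 ≤ δ)
    (hper : ∀ y : ℝ, |y| ≤ 6 * r ^ 24 → ‖Q (2 + (y : ℂ) * I + π * I) - Q (2 + (y : ℂ) * I)‖ ≤ δ)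
    (hM : ∀ y ∈ Icc 0 π, ‖Q (2 + (y : ℂ) * I)‖ ≤ M) (k : ℕ) :
    ∀ y : ℝ, 0 ≤ y → y ≤ (k + 1) * π → y ≤ 6 * r ^ 24 → ‖Q (2 + (y : ℂ) * I)‖ ≤ M + k * δ := by
  induction k with
  | zero =>
    intro y hy hy2 _
    have := hM y ⟨hy, by simpa using hy2⟩
    simpa using this
  | succ k ih =>
    intro y hy hy2 hy3
    rcases le_or_gt y ((k + 1) * π) with h | h
    · have := ih y hy h hy3
      push_cast
      nlinarith
    · have hpi := Real.pi_pos
      have hk : (0 : ℝ) ≤ k := Nat.cast_nonneg k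
      have hy4 : 0 ≤ y - π := by nlinarith
      have hy5 : y - π ≤ (k + 1) * π := by push_cast at hy2; nlinarith
      have h1 := ih (y - π) hy4 hy5 (by linarith)
      have h2 := hper (y - π) (by rw [abs_of_nonneg hy4]; linarith)
      have h3 : (2 + ((y - π : ℝ) : ℂ) * I + π * I) = 2 + (y : ℂ) * I := by push_cast; ring
      rw [h3] at h2
      have h4 := norm_sub_norm_le (Q (2 + (y : ℂ) * I)) (Q (2 + ((y - π : ℝ) : ℂ) * I))
      push_cast at *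
      nlinarith

private lemma det1_dn {r δ M : ℝ} {Q : ℂ → ℂ} (hδ : 0 ≤ δ) (hr : π ≤ 6 * r ^ 24)
    (hper : ∀ y : ℝ, |y| ≤ 6 * r ^ 24 → ‖Q (2 + (y : ℂ) * I + π * I) - Q (2 + (y : ℂ) * I)‖ ≤ δ)
    (hM : ∀ y ∈ Icc 0 π, ‖Q (2 + (y : ℂ) * I)‖ ≤ M) (k : ℕ) :
    ∀ y : ℝ, -(k * π) ≤ y → y ≤ π → -(6 * r ^ 24) ≤ y → ‖Q (2 + (y : ℂ) * I)‖ ≤ M + k * δ := by
  induction k with
  | zero =>
    intro y hy hy2 _
    have := hM y ⟨by simpa using hy, hy2⟩
    simpa using this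
  | succ k ih =>
    intro y hy hy2 hy3
    rcases le_or_gt (-(k * π)) y with h | h
    · have := ih y h hy2 hy3
      push_cast
      nlinarith
    · have hpi := Real.pi_pos
      have hk : (0 : ℝ) ≤ k := Nat.cast_nonneg k
      have hy0 : y < 0 := by nlinarith
      have h1 := ih (y + π) (by push_cast at hy; nlinarith) (by linarith) (by linarith)
      have h2 := hper y (by rw [abs_le]; constructor <;> linarith)
      have h3 : (2 + (y : ℂ) * I + π * I) = 2 + ((y + π : ℝ) : ℂ) * I := by push_cast; ring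
      rw [h3] at h2
      have h4 := norm_sub_norm_le (Q (2 + (y : ℂ) * I)) (Q (2 + ((y + π : ℝ) : ℂ) * I))
      rw [norm_sub_rev] at h4
      push_cast at *
      nlinarith

/-- MODULE DET1. Size of `Q = D A` to the left. (i) `‖Q(2+iy)‖ ≤ M + 1` for `|y| ≤ 5 r^24`: move to
`[0, π]` in at most `2 r^24` steps of length `π`, each costing `e^{-r^5}` (`per`). (ii) for `|η| ≤ 4 r^24`:
`‖A(2+iη)‖ = ‖Q‖/‖D‖ ≤ (M+1) e^{r^3}/‖D 1‖ =: s` (`ratio`), so by `growA`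
`‖A w‖ ≤ e^{2(2-Re w)} (4 r^24 s + 1)`; by `left`, `ratio` (`max |Re w| 1 ≤ 2r^4 ≤ r^36 + 1`)
`‖D w‖ ≤ e^{|Re w| + C + r^3} ‖D 1‖`, and `‖D 1‖ ≤ 1`. Multiply:
`‖Q w‖ ≤ e^{|Re w| + C + r^3} e^{4 + 2|Re w|} (4 r^24 (M+1) e^{r^3} + 1) ≤
e^{3|Re w| + C + 4 + 2r^3} 5 r^24 (M+1)`. -/
theorem det1 {c C : ℝ} (hc : 0 < c) (hC : 0 ≤ C) : ∃ r₀ : ℝ, 1 ≤ r₀ ∧ ∀ r : ℝ, r₀ ≤ r →
    ∀ (θ R M : ℝ) (D A : ℂ → ℂ), Facts r c C θ R D A → 0 ≤ M →
      (∀ y ∈ Icc 0 π, ‖D (2 + (y : ℂ) * I) * A (2 + (y : ℂ) * I)‖ ≤ M) →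
      (∀ y : ℝ, |y| ≤ 5 * r ^ 24 → ‖D (2 + (y : ℂ) * I) * A (2 + (y : ℂ) * I)‖ ≤ M + 1) ∧
      ∀ w : ℂ, -(2 * r ^ 4) ≤ w.re → w.re ≤ 1 → |w.im| ≤ 2 * r ^ 24 →
        ‖D w * A w‖ ≤ Real.exp (3 * |w.re| + 3 * r ^ 3) * (M + 1) := by
  have hev := (((det1_ev (1 / 2) (by norm_num) 24).and
    (det1_ev (Real.exp (-(C + 4)) / 5) (by positivity) 24)).and (eventually_ge_atTop (2 : ℝ)))
  obtain ⟨r₀, hr₀⟩ := eventually_atTop.1 hev
  refine ⟨max r₀ 2, le_trans (by norm_num) (le_max_right _ _), ?_⟩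
  intro r hr θ R M D A hF hM0 hM
  obtain ⟨⟨he1, he2⟩, hr2⟩ := hr₀ r (le_trans (le_max_left _ _) hr)
  have hr1 : 1 ≤ r := by linarith
  have hr24 : (16777216 : ℝ) ≤ r ^ 24 := by
    calc (16777216 : ℝ) = 2 ^ 24 := by norm_num
      _ ≤ r ^ 24 := pow_le_pow_left₀ (by norm_num) hr2 24
  have hr36 : r ^ 24 ≤ r ^ 36 := pow_le_pow_right₀ hr1 (by norm_num)
  have hpi3 := Real.pi_gt_three
  have hpi4 := Real.pi_le_four
  set δ : ℝ := Real.exp (-r ^ 5) with hδ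
  have hδ0 : 0 ≤ δ := (Real.exp_pos _).le
  have hrr5 : r ≤ r ^ 5 := le_self_pow₀ hr1 (by norm_num)
  have hrr3 : r ≤ r ^ 3 := le_self_pow₀ hr1 (by norm_num)
  have hδ1 : 2 * r ^ 24 * δ ≤ 1 := by
    have h1 : r ^ 24 ≤ 1 / 2 * Real.exp (r ^ 5) :=
      he1.trans (mul_le_mul_of_nonneg_left (Real.exp_le_exp.2 hrr5) (by norm_num))
    have h2 : Real.exp (r ^ 5) * δ = 1 := by
      rw [hδ, ← Real.exp_add]; simp
    nlinarith
  set Q : ℂ → ℂ := fun w => D w * A w with hQ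
  have hper : ∀ y : ℝ, |y| ≤ 6 * r ^ 24 →
      ‖Q (2 + (y : ℂ) * I + π * I) - Q (2 + (y : ℂ) * I)‖ ≤ δ := by
    intro y hy
    have := hF.per (2 + (y : ℂ) * I) (by simp) (by simp; linarith) (by simpa using hy)
    simpa [hQ] using this
  have hi : ∀ y : ℝ, |y| ≤ 5 * r ^ 24 → ‖D (2 + (y : ℂ) * I) * A (2 + (y : ℂ) * I)‖ ≤ M + 1 := by
    intro y hy
    rw [abs_le] at hy
    rcases le_or_gt 0 y with h0 | h0
    · have h1 := det1_up (Q := Q) hδ0 hper hM ⌈y / π⌉₊ y h0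
        (by
          have := Nat.le_ceil (y / π)
          rw [div_le_iff₀ Real.pi_pos] at this
          nlinarith) (by linarith)
      have h2 : (⌈y / π⌉₊ : ℝ) ≤ 2 * r ^ 24 := by
        have h3 := (Nat.ceil_lt_add_one (div_nonneg h0 Real.pi_pos.le)).le
        have h4 : y / π ≤ 5 * r ^ 24 / 3 := by
          rw [div_le_div_iff₀ Real.pi_pos (by norm_num)]
          nlinarith
        linarith
      have h5 : (⌈y / π⌉₊ : ℝ) * δ ≤ 1 := (mul_le_mul_of_nonneg_right h2 hδ0).trans hδ1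
      have h6 : ‖Q (2 + (y : ℂ) * I)‖ ≤ M + 1 := by linarith
      simpa [hQ] using h6
    · have h1 := det1_dn (Q := Q) hδ0 (by linarith) hper hM ⌈-y / π⌉₊ y
        (by
          have := Nat.le_ceil (-y / π)
          rw [div_le_iff₀ Real.pi_pos] at this
          linarith) (by linarith) (by linarith)
      have h2 : (⌈-y / π⌉₊ : ℝ) ≤ 2 * r ^ 24 := by
        have h3 := (Nat.ceil_lt_add_one (div_nonneg (by linarith : (0:ℝ) ≤ -y) Real.pi_pos.le)).le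
        have h4 : -y / π ≤ 5 * r ^ 24 / 3 := by
          rw [div_le_div_iff₀ Real.pi_pos (by norm_num)]
          nlinarith
        linarith
      have h5 : (⌈-y / π⌉₊ : ℝ) * δ ≤ 1 := (mul_le_mul_of_nonneg_right h2 hδ0).trans hδ1
      have h6 : ‖Q (2 + (y : ℂ) * I)‖ ≤ M + 1 := by linarith
      simpa [hQ] using h6
  refine ⟨hi, ?_⟩
  intro w hw1 hw2 hw3
  have hD1 := hF.ratio 1 (by norm_num) (by simp; positivity) (by simp; positivity)
  have hD1pos : 0 < ‖D 1‖ := norm_pos_iff.2 hD1.1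
  have hD1le : ‖D 1‖ ≤ 1 := by
    have h1 := hF.small
    have h2 : Real.log ‖D 1‖ ≤ 0 := h1.trans (by nlinarith [pow_pos (by linarith : (0:ℝ) < r) 6])
    by_contra h
    push Not at h
    have := Real.log_pos h
    linarith
  set s : ℝ := (M + 1) * Real.exp (r ^ 3) / ‖D 1‖ with hs
  have hs0 : 0 ≤ s := by positivity
  have hA := hF.growA s hs0 (by
    intro η hη
    have h1 := hi η (by linarith)
    have h2 := hF.ratio (2 + (η : ℂ) * I) (by simp; norm_num) (by simp; nlinarith)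
      (by simp; linarith)
    have h3 := (abs_le.1 h2.2).1
    have h4 : 0 < ‖D (2 + (η : ℂ) * I)‖ := norm_pos_iff.2 h2.1
    have h5 : ‖D 1‖ * Real.exp (-r ^ 3) ≤ ‖D (2 + (η : ℂ) * I)‖ := by
      rw [← Real.exp_log hD1pos, ← Real.exp_log h4, ← Real.exp_add]
      exact Real.exp_le_exp.2 (by linarith)
    rw [norm_mul] at h1
    rw [hs, le_div_iff₀ hD1pos]
    have h6 : ‖D 1‖ ≤ ‖D (2 + (η : ℂ) * I)‖ * Real.exp (r ^ 3) := by
      have h7 : ‖D 1‖ = ‖D 1‖ * Real.exp (-r ^ 3) * Real.exp (r ^ 3) := by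
        rw [mul_assoc, ← Real.exp_add]; simp
      rw [h7]
      exact mul_le_mul_of_nonneg_right h5 (Real.exp_pos _).le
    calc ‖A (2 + (η : ℂ) * I)‖ * ‖D 1‖
        ≤ ‖A (2 + (η : ℂ) * I)‖ * (‖D (2 + (η : ℂ) * I)‖ * Real.exp (r ^ 3)) :=
          mul_le_mul_of_nonneg_left h6 (norm_nonneg _)
      _ = ‖D (2 + (η : ℂ) * I)‖ * ‖A (2 + (η : ℂ) * I)‖ * Real.exp (r ^ 3) := by ring
      _ ≤ (M + 1) * Real.exp (r ^ 3) := mul_le_mul_of_nonneg_right h1 (Real.exp_pos _).le) w hw1 hw2 hw3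
  have hr4 : 2 * r ^ 4 ≤ r ^ 36 := by
    have h1 : 2 * r ^ 4 ≤ r * r ^ 4 := mul_le_mul_of_nonneg_right hr2 (by positivity)
    have h2 : r * r ^ 4 ≤ r ^ 36 := by
      rw [← pow_succ']; exact pow_le_pow_right₀ hr1 (by norm_num)
    linarith
  have hwre : |w.re| ≤ 2 * r ^ 4 := by
    have : (1 : ℝ) ≤ r ^ 4 := one_le_pow₀ hr1
    rw [abs_le]; constructor <;> linarith
  have hD := hF.left w (by linarith) hw2 (by linarith [abs_nonneg w.im])
  have hrat := hF.ratio ((max |w.re| 1 : ℝ) + (w.im : ℂ) * I)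
    (by simp; right; norm_num) (by
      simp only [add_re, ofReal_re, mul_re, I_re, mul_zero, ofReal_im, I_im, mul_one, sub_self,
        add_zero]
      refine max_le (by linarith) ?_
      have : (0 : ℝ) ≤ r ^ 36 := by positivity
      linarith) (by simp; linarith [abs_nonneg w.im])
  have h3 := (abs_le.1 hrat.2).2
  have h4 : 0 < ‖D ((max |w.re| 1 : ℝ) + (w.im : ℂ) * I)‖ := norm_pos_iff.2 hrat.1
  have h5 : ‖D ((max |w.re| 1 : ℝ) + (w.im : ℂ) * I)‖ ≤ ‖D 1‖ * Real.exp (r ^ 3) := by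
    rw [← Real.log_le_log_iff h4 (by positivity), Real.log_mul hD1pos.ne' (Real.exp_pos _).ne',
      Real.log_exp]
    linarith
  have hDw : ‖D w‖ ≤ Real.exp (|w.re| + C) * (‖D 1‖ * Real.exp (r ^ 3)) :=
    hD.trans (mul_le_mul_of_nonneg_left h5 (Real.exp_pos _).le)
  rw [norm_mul]
  have hfin : (4 * r ^ 24 + 1) * Real.exp (C + 4) ≤ Real.exp (r ^ 3) := by
    have h1 : 4 * r ^ 24 + 1 ≤ 5 * r ^ 24 := by linarith
    have h2 : 5 * r ^ 24 ≤ Real.exp (-(C + 4)) * Real.exp (r ^ 3) := by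
      have : Real.exp (-(C + 4)) / 5 * Real.exp r ≤ Real.exp (-(C + 4)) / 5 * Real.exp (r ^ 3) :=
        mul_le_mul_of_nonneg_left (Real.exp_le_exp.2 hrr3) (by positivity)
      linarith
    calc (4 * r ^ 24 + 1) * Real.exp (C + 4)
        ≤ Real.exp (-(C + 4)) * Real.exp (r ^ 3) * Real.exp (C + 4) :=
          mul_le_mul_of_nonneg_right (h1.trans h2) (Real.exp_pos _).le
      _ = Real.exp (r ^ 3) * (Real.exp (-(C + 4)) * Real.exp (C + 4)) := by ring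
      _ = Real.exp (r ^ 3) := by rw [← Real.exp_add]; simp
  have hsD : ‖D 1‖ * (4 * r ^ 24 * s + 1) ≤ (4 * r ^ 24 + 1) * ((M + 1) * Real.exp (r ^ 3)) := by
    have h1 : ‖D 1‖ * s = (M + 1) * Real.exp (r ^ 3) := by
      rw [hs]; field_simp
    have h2 : (1 : ℝ) ≤ (M + 1) * Real.exp (r ^ 3) := by
      have : (1 : ℝ) ≤ Real.exp (r ^ 3) := Real.one_le_exp (by positivity)
      nlinarith
    calc ‖D 1‖ * (4 * r ^ 24 * s + 1) = 4 * r ^ 24 * (‖D 1‖ * s) + ‖D 1‖ := by ring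
      _ ≤ 4 * r ^ 24 * ((M + 1) * Real.exp (r ^ 3)) + (M + 1) * Real.exp (r ^ 3) := by
          rw [h1]; linarith
      _ = _ := by ring
  calc ‖D w‖ * ‖A w‖
      ≤ (Real.exp (|w.re| + C) * (‖D 1‖ * Real.exp (r ^ 3))) *
          (Real.exp (2 * (2 - w.re)) * (4 * r ^ 24 * s + 1)) :=
        mul_le_mul hDw hA (norm_nonneg _) (by positivity)
    _ = Real.exp (|w.re| + C) * Real.exp (r ^ 3) * Real.exp (2 * (2 - w.re)) *
          (‖D 1‖ * (4 * r ^ 24 * s + 1)) := by ring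
    _ ≤ Real.exp (|w.re| + C) * Real.exp (r ^ 3) * Real.exp (2 * (2 - w.re)) *
          ((4 * r ^ 24 + 1) * ((M + 1) * Real.exp (r ^ 3))) :=
        mul_le_mul_of_nonneg_left hsD (by positivity)
    _ = (Real.exp (|w.re| - 2 * w.re) * Real.exp (r ^ 3) * Real.exp (r ^ 3)) *
          ((4 * r ^ 24 + 1) * Real.exp (C + 4)) * (M + 1) := by
        have : Real.exp (|w.re| + C) * Real.exp (2 * (2 - w.re)) =
            Real.exp (|w.re| - 2 * w.re) * Real.exp (C + 4) := by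
          rw [← Real.exp_add, ← Real.exp_add]; congr 1; ring
        linear_combination (Real.exp (r ^ 3) * (4 * r ^ 24 + 1) * (M + 1) * Real.exp (r ^ 3)) * this
    _ ≤ (Real.exp (3 * |w.re|) * Real.exp (r ^ 3) * Real.exp (r ^ 3)) * Real.exp (r ^ 3) *
          (M + 1) := by
        refine mul_le_mul_of_nonneg_right ?_ (by linarith)
        refine mul_le_mul ?_ hfin (by positivity) (by positivity)
        refine mul_le_mul_of_nonneg_right ?_ (Real.exp_pos _).le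
        refine mul_le_mul_of_nonneg_right ?_ (Real.exp_pos _).le
        exact Real.exp_le_exp.2 (by linarith [neg_abs_le w.re])
    _ = Real.exp (3 * |w.re| + 3 * r ^ 3) * (M + 1) := by
        rw [← Real.exp_add, ← Real.exp_add, ← Real.exp_add]
        congr 2; ring

end Pool.Agent.MP_67227b_nt.Ah
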