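import Pool.Agent.MP_67227b_nt.Ah.AhDet1

set_option autoImplicit false

open Filter Topology Set MeasureTheory Complex
open scoped Real ArithmeticFunction ContDiff

namespace Pool.Agent.MP_67227b_nt.Ah

open Pool.Agent.Lib.ZetaCount_helper33 Pool.Agent.MP_67227b_nt Pool.Agent.MP_67227b_nt.Mo
open Pool.Agent.MP_67227b_nt.Sg Pool.Agent.MP_67227b_nt.Pp
open Pool.Agent.MP_67227b_nt.Mo.MomentBAux (DP)

private lemma det2_wt (κ : ℝ) (w v : ℂ) :
    ‖Complex.exp ((κ : ℂ) * (w - v) ^ 2)‖ =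
      Real.exp (κ * ((w.re - v.re) ^ 2 - (w.im - v.im) ^ 2)) := by
  rw [Complex.norm_exp]
  congr 1
  simp [pow_two]

private lemma det2_wt2 (μ : ℝ) (w : ℂ) :
    ‖Complex.exp ((μ : ℂ) * (w - 1))‖ = Real.exp (μ * (w.re - 1)) := by
  rw [Complex.norm_exp]
  congr 1
  simp

/-- MODULE DET2. Near periodicity on the left: three lines. Let
`E(w) = (Q(w + πi) - Q(w))/(M+1)`, analytic on `[-2r^4, 1] × [-2r^24 + 4, 2r^24 - 4]`,
`‖E‖ ≤ 2 e^{6r^4 + 3r^3} ≤ e^{7r^4}` there (`det1`) and `‖E‖ ≤ e^{-r^5}` for `Re w = 1` (`per`). Fix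
`w_c` with `-r^4 ≤ Re w_c ≤ 1`, `|Im w_c| ≤ r^24` and put
`f(w) = E(w) e^{r^{-8} (w - w_c)^2} e^{μ(w - 1)}`, `μ = (7r^4 + r^5)/(2r^4 + 1)`, on the rectangle
`[-2r^4, 1] × [Im w_c ± r^24/2]`. As `|e^{r^{-8}(w-w_c)^2}| = exp (r^{-8} (Re² - Im²))`:
`‖f‖ ≤ e^9 e^{-r^5}` on the two vertical sides and `‖f‖ ≤ e^{7r^4 + 9 - r^{40}/4} ≤ e^{-r^5}` on the
horizontal sides. By the maximum principle `‖E(w_c)‖ ≤ e^{μ(1 - Re w_c)} e^{9 - r^5}`, and
`(r^4 + 1)/(2r^4 + 1) ≤ 2/3`: `‖E(w_c)‖ ≤ e^{9 - r^5 + (2/3)(7r^4 + r^5)} ≤ e^{-r^4}` for `r` large. -/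
theorem det2 {c C : ℝ} (hc : 0 < c) (hC : 0 ≤ C) : ∃ r₀ : ℝ, 1 ≤ r₀ ∧ ∀ r : ℝ, r₀ ≤ r →
    ∀ (θ R M : ℝ) (D A : ℂ → ℂ), Facts r c C θ R D A → 0 ≤ M →
      (∀ y ∈ Icc 0 π, ‖D (2 + (y : ℂ) * I) * A (2 + (y : ℂ) * I)‖ ≤ M) →
      ∀ w : ℂ, -(r ^ 4) ≤ w.re → w.re ≤ 1 → |w.im| ≤ r ^ 24 →
        ‖D (w + π * I) * A (w + π * I) - D w * A w‖ ≤ Real.exp (-r ^ 4) * (M + 1) := by
  obtain ⟨r₁, hr₁, h1⟩ := det1 (c := c) (C := C) hc hC
  refine ⟨max r₁ 18, le_trans hr₁ (le_max_left _ _), ?_⟩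
  intro r hr θ R M D A hF hM0 hM v hv1 hv2 hv3
  have hr18 : 18 ≤ r := le_trans (le_max_right _ _) hr
  have hr1 : 1 ≤ r := by linarith
  obtain ⟨-, hQ⟩ := h1 r (le_trans (le_max_left _ _) hr) θ R M D A hF hM0 hM
  have hpi3 := Real.pi_gt_three
  have hpi4 := Real.pi_le_four
  have e3 : (18 : ℝ) ≤ r ^ 3 := hr18.trans (le_self_pow₀ hr1 (by norm_num))
  have e4 : 18 * r ^ 3 ≤ r ^ 4 := by
    have : r ^ 4 = r * r ^ 3 := by ring
    rw [this]; exact mul_le_mul_of_nonneg_right hr18 (by positivity)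
  have e5 : 18 * r ^ 4 ≤ r ^ 5 := by
    have : r ^ 5 = r * r ^ 4 := by ring
    rw [this]; exact mul_le_mul_of_nonneg_right hr18 (by positivity)
  have e24 : 100 * r ^ 4 ≤ r ^ 24 := by
    have h : r ^ 24 = r ^ 20 * r ^ 4 := by ring
    rw [h]
    refine mul_le_mul_of_nonneg_right ?_ (by positivity)
    calc (100 : ℝ) ≤ 18 ^ 20 := by norm_num
      _ ≤ r ^ 20 := pow_le_pow_left₀ (by norm_num) hr18 20
  have e40 : 100 * r ^ 5 ≤ r ^ 40 := by
    have h : r ^ 40 = r ^ 35 * r ^ 5 := by ring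
    rw [h]
    refine mul_le_mul_of_nonneg_right ?_ (by positivity)
    calc (100 : ℝ) ≤ 18 ^ 35 := by norm_num
      _ ≤ r ^ 35 := pow_le_pow_left₀ (by norm_num) hr18 35
  have e36 : r ^ 24 ≤ r ^ 36 := pow_le_pow_right₀ hr1 (by norm_num)
  have hM1 : 0 < M + 1 := by linarith
  set F : ℂ → ℂ := fun w => D (w + π * I) * A (w + π * I) - D w * A w with hFdef
  set μ : ℝ := (7 * r ^ 4 + r ^ 5) / (2 * r ^ 4 + 1) with hμ
  have hμ0 : 0 ≤ μ := by positivity
  set f : ℂ → ℂ := fun w => F w * Complex.exp ((((r ^ 8)⁻¹ : ℝ) : ℂ) * (w - v) ^ 2) *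
    Complex.exp ((μ : ℂ) * (w - 1)) with hf
  set U : Set ℂ := Ioo (-(2 * r ^ 4)) 1 ×ℂ Ioo (v.im - r ^ 24 / 2) (v.im + r ^ 24 / 2) with hU
  have hne1 : (-(2 * r ^ 4)) ≠ 1 := by
    have : 0 ≤ 2 * r ^ 4 := by positivity
    linarith
  have hne2 : v.im - r ^ 24 / 2 ≠ v.im + r ^ 24 / 2 := by
    have : 0 < r ^ 24 := by positivity
    linarith
  have hclU : closure U = Icc (-(2 * r ^ 4)) 1 ×ℂ Icc (v.im - r ^ 24 / 2) (v.im + r ^ 24 / 2) := by
    rw [hU, Complex.closure_reProdIm, closure_Ioo hne1, closure_Ioo hne2]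
  rw [abs_le] at hv3
  -- bounds on the closed rectangle
  have hbox : ∀ w ∈ closure U, w.re ∈ Icc (-(2 * r ^ 4)) 1 ∧
      w.im ∈ Icc (v.im - r ^ 24 / 2) (v.im + r ^ 24 / 2) := by
    intro w hw
    rw [hclU, Complex.mem_reProdIm] at hw
    exact hw
  have hFall : ∀ w ∈ closure U, ‖F w‖ ≤ Real.exp (7 * r ^ 4) * (M + 1) := by
    intro w hw
    obtain ⟨⟨ha, hb⟩, hc', hd⟩ := hbox w hw
    have h2 := hQ w ha hb (by rw [abs_le]; constructor <;> linarith)
    have h3 := hQ (w + π * I) (by simpa using ha) (by simpa using hb) (by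
      simp only [add_im, mul_im, ofReal_re, I_im, mul_one, ofReal_im, I_re, mul_zero, add_zero]
      rw [abs_le]; constructor <;> linarith)
    have h4 : |w.re| ≤ 2 * r ^ 4 := by rw [abs_le]; constructor <;> linarith
    have h5 : (w + π * I).re = w.re := by simp
    rw [h5] at h3
    have h6 : Real.exp (3 * |w.re| + 3 * r ^ 3) ≤ Real.exp (7 * r ^ 4 - 1) :=
      Real.exp_le_exp.2 (by linarith)
    have h7 : 2 * Real.exp (7 * r ^ 4 - 1) ≤ Real.exp (7 * r ^ 4) := by
      have h8 : Real.exp (7 * r ^ 4) = Real.exp 1 * Real.exp (7 * r ^ 4 - 1) := by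
        rw [← Real.exp_add]; congr 1; ring
      rw [h8]
      exact mul_le_mul_of_nonneg_right (by linarith [Real.add_one_le_exp (1 : ℝ)])
        (Real.exp_pos _).le
    calc ‖F w‖ ≤ ‖D (w + π * I) * A (w + π * I)‖ + ‖D w * A w‖ := norm_sub_le _ _
      _ ≤ 2 * Real.exp (3 * |w.re| + 3 * r ^ 3) * (M + 1) := by linarith
      _ ≤ 2 * Real.exp (7 * r ^ 4 - 1) * (M + 1) := by
          refine mul_le_mul_of_nonneg_right ?_ hM1.le
          linarith
      _ ≤ _ := mul_le_mul_of_nonneg_right h7 hM1.le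
  have hr8 : (r ^ 8)⁻¹ * (9 * r ^ 8) = 9 := by
    field_simp
  have hwt : ∀ w ∈ closure U, (r ^ 8)⁻¹ * ((w.re - v.re) ^ 2 - (w.im - v.im) ^ 2) ≤
      9 - (r ^ 8)⁻¹ * (w.im - v.im) ^ 2 := by
    intro w hw
    obtain ⟨⟨ha, hb⟩, hc', hd⟩ := hbox w hw
    have h2 : (w.re - v.re) ^ 2 ≤ 9 * r ^ 8 := by
      have h3 : |w.re - v.re| ≤ 3 * r ^ 4 := by rw [abs_le]; constructor <;> linarith
      have h4 := pow_le_pow_left₀ (abs_nonneg _) h3 2
      rw [sq_abs] at h4
      calc (w.re - v.re) ^ 2 ≤ (3 * r ^ 4) ^ 2 := h4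
        _ = 9 * r ^ 8 := by ring
    have h5 : (r ^ 8)⁻¹ * (w.re - v.re) ^ 2 ≤ 9 := by
      rw [← hr8]; exact mul_le_mul_of_nonneg_left h2 (by positivity)
    linarith
  have hnorm : ∀ w, ‖f w‖ = ‖F w‖ * Real.exp ((r ^ 8)⁻¹ * ((w.re - v.re) ^ 2 - (w.im - v.im) ^ 2)) *
      Real.exp (μ * (w.re - 1)) := by
    intro w
    rw [hf]
    simp only [norm_mul]
    rw [det2_wt, det2_wt2]
  have hdiff : DiffContOnCl ℂ f U := by
    apply DifferentiableOn.diffContOnCl
    have hDd : DifferentiableOn ℂ D (closure U) := hF.dD.mono (by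
      intro w hw
      obtain ⟨⟨ha, hb⟩, hc', hd⟩ := hbox w hw
      refine ⟨?_, ?_⟩
      · rw [abs_le]; constructor <;> nlinarith
      · rw [abs_le]; constructor <;> linarith)
    have hDs : DifferentiableOn ℂ (fun w => D (w + π * I)) (closure U) := by
      refine DifferentiableOn.comp (t := {w | |w.re| ≤ r ^ 36 + 1 ∧ |w.im| ≤ 8 * r ^ 24}) hF.dD
        (Differentiable.differentiableOn (by fun_prop)) ?_
      intro w hw
      obtain ⟨⟨ha, hb⟩, hc', hd⟩ := hbox w hw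
      refine ⟨?_, ?_⟩
      · simp only [add_re, mul_re, ofReal_re, I_re, mul_zero, ofReal_im, I_im, mul_one, sub_self,
          add_zero]
        rw [abs_le]; constructor <;> linarith
      · simp only [add_im, mul_im, ofReal_re, I_im, mul_one, ofReal_im, I_re, mul_zero, add_zero]
        rw [abs_le]; constructor <;> linarith
    have hAd : DifferentiableOn ℂ A (closure U) := hF.dA.differentiableOn
    have hAs : DifferentiableOn ℂ (fun w => A (w + π * I)) (closure U) :=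
      (hF.dA.comp (by fun_prop : Differentiable ℂ fun w : ℂ => w + π * I)).differentiableOn
    have hFd : DifferentiableOn ℂ F (closure U) := (hDs.mul hAs).sub (hDd.mul hAd)
    refine (hFd.mul (Differentiable.differentiableOn ?_)).mul
      (Differentiable.differentiableOn ?_)
    · fun_prop
    · fun_prop
  have hbd : Bornology.IsBounded U := by
    rw [hU]
    exact (Metric.isBounded_Ioo _ _).reProdIm (Metric.isBounded_Ioo _ _)
  have hmain := Complex.norm_le_of_forall_mem_frontier_norm_le hbd hdiff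
    (C := Real.exp (9 - r ^ 5) * (M + 1)) (by
      intro w hw
      have hwU : w ∈ closure U := frontier_subset_closure hw
      obtain ⟨⟨ha, hb⟩, hc', hd⟩ := hbox w hwU
      have h2 := hwt w hwU
      have h3 := hFall w hwU
      rw [hnorm]
      rw [hU, Complex.frontier_reProdIm, closure_Ioo hne1, closure_Ioo hne2,
        frontier_Ioo (by linarith [pow_pos (by linarith : (0:ℝ) < r) 24]),
        frontier_Ioo (by linarith [pow_pos (by linarith : (0:ℝ) < r) 4])] at hw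
      have hμle : Real.exp (μ * (w.re - 1)) ≤ 1 := by
        rw [Real.exp_le_one_iff]
        nlinarith
      rcases hw with hw | hw
      · -- horizontal sides
        rw [Complex.mem_reProdIm] at hw
        have h4 : (w.im - v.im) ^ 2 = r ^ 48 / 4 := by
          rcases hw.2 with h | h
          · rw [h]; ring
          · rw [h]; ring
        rw [h4] at h2
        have h5 : (r ^ 8)⁻¹ * (r ^ 48 / 4) = r ^ 40 / 4 := by
          have : r ^ 48 = r ^ 8 * r ^ 40 := by ring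
          rw [this]; field_simp
        rw [h5] at h2
        rw [h4]
        calc ‖F w‖ * Real.exp ((r ^ 8)⁻¹ * ((w.re - v.re) ^ 2 - r ^ 48 / 4)) *
              Real.exp (μ * (w.re - 1))
            ≤ (Real.exp (7 * r ^ 4) * (M + 1)) * Real.exp (9 - r ^ 40 / 4) * 1 := by
              refine mul_le_mul ?_ hμle (Real.exp_pos _).le (by positivity)
              exact mul_le_mul h3 (Real.exp_le_exp.2 h2) (Real.exp_pos _).le (by positivity)
          _ = Real.exp (7 * r ^ 4 + (9 - r ^ 40 / 4)) * (M + 1) := by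
              rw [Real.exp_add]; ring
          _ ≤ Real.exp (9 - r ^ 5) * (M + 1) := by
              refine mul_le_mul_of_nonneg_right (Real.exp_le_exp.2 ?_) hM1.le
              linarith
      · rw [Complex.mem_reProdIm] at hw
        have h6 : (r ^ 8)⁻¹ * ((w.re - v.re) ^ 2 - (w.im - v.im) ^ 2) ≤ 9 := by
          have : 0 ≤ (r ^ 8)⁻¹ * (w.im - v.im) ^ 2 := by positivity
          linarith
        rcases hw.1 with h | h
        · -- left side
          have h7 : μ * (w.re - 1) = -(7 * r ^ 4 + r ^ 5) := by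
            rw [h, hμ]; field_simp; ring
          rw [h7]
          calc _ ≤ (Real.exp (7 * r ^ 4) * (M + 1)) * Real.exp 9 *
                Real.exp (-(7 * r ^ 4 + r ^ 5)) := by
                refine mul_le_mul_of_nonneg_right ?_ (Real.exp_pos _).le
                exact mul_le_mul h3 (Real.exp_le_exp.2 h6) (Real.exp_pos _).le (by positivity)
            _ = Real.exp (9 - r ^ 5) * (M + 1) := by
                have : Real.exp (9 - r ^ 5) = Real.exp (7 * r ^ 4) * Real.exp 9 *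
                    Real.exp (-(7 * r ^ 4 + r ^ 5)) := by
                  rw [← Real.exp_add, ← Real.exp_add]; congr 1; ring
                rw [this]; ring
        · -- right side
          have hwre : w.re = 1 := h
          have h8 := hF.per w (by rw [hwre]) (by rw [hwre]; nlinarith) (by
            rw [abs_le]; constructor <;> linarith)
          have h9 : ‖F w‖ ≤ Real.exp (-r ^ 5) * (M + 1) := by
            refine le_trans h8 ?_
            nlinarith [Real.exp_pos (-r ^ 5)]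
          calc _ ≤ (Real.exp (-r ^ 5) * (M + 1)) * Real.exp 9 * 1 := by
                refine mul_le_mul ?_ hμle (Real.exp_pos _).le (by positivity)
                exact mul_le_mul h9 (Real.exp_le_exp.2 h6) (Real.exp_pos _).le (by positivity)
            _ = Real.exp (9 - r ^ 5) * (M + 1) := by
                have : Real.exp (9 - r ^ 5) = Real.exp (-r ^ 5) * Real.exp 9 := by
                  rw [← Real.exp_add]; congr 1; ring
                rw [this]; ring)
    (z := v) (by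
      rw [hclU, Complex.mem_reProdIm]
      have : 0 ≤ r ^ 24 := by positivity
      refine ⟨⟨by linarith, hv2⟩, ⟨by linarith, by linarith⟩⟩)
  rw [hnorm] at hmain
  have h10 : (r ^ 8)⁻¹ * ((v.re - v.re) ^ 2 - (v.im - v.im) ^ 2) = 0 := by ring
  rw [h10, Real.exp_zero, mul_one] at hmain
  have hfin : ‖F v‖ ≤ Real.exp (9 - r ^ 5) * (M + 1) * Real.exp (μ * (1 - v.re)) := by
    have h11 : ‖F v‖ = ‖F v‖ * Real.exp (μ * (v.re - 1)) * Real.exp (μ * (1 - v.re)) := by
      rw [mul_assoc, ← Real.exp_add]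
      have : μ * (v.re - 1) + μ * (1 - v.re) = 0 := by ring
      rw [this]; simp
    rw [h11]
    exact mul_le_mul_of_nonneg_right hmain (Real.exp_pos _).le
  have hμ2 : μ * (1 - v.re) ≤ 2 / 3 * (7 * r ^ 4 + r ^ 5) := by
    have h12 : μ * (1 - v.re) ≤ μ * (r ^ 4 + 1) := mul_le_mul_of_nonneg_left (by linarith) hμ0
    refine h12.trans ?_
    rw [hμ, div_mul_eq_mul_div, div_le_iff₀ (by positivity)]
    have h13 : r ^ 4 + 1 ≤ 2 / 3 * (2 * r ^ 4 + 1) := by linarith
    calc (7 * r ^ 4 + r ^ 5) * (r ^ 4 + 1) ≤ (7 * r ^ 4 + r ^ 5) * (2 / 3 * (2 * r ^ 4 + 1)) :=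
          mul_le_mul_of_nonneg_left h13 (by positivity)
      _ = _ := by ring
  calc ‖F v‖ ≤ Real.exp (9 - r ^ 5) * (M + 1) * Real.exp (μ * (1 - v.re)) := hfin
    _ = Real.exp (9 - r ^ 5 + μ * (1 - v.re)) * (M + 1) := by rw [Real.exp_add]; ring
    _ ≤ Real.exp (-r ^ 4) * (M + 1) := by
        refine mul_le_mul_of_nonneg_right (Real.exp_le_exp.2 ?_) hM1.le
        linarith

end Pool.Agent.MP_67227b_nt.Ah
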