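import Pool.Agent.MP_67227b_nt.Ah.AhDet2
import Pool.Agent.MP_67227b_nt.Ah.AhRect

set_option autoImplicit false

open Filter Topology Set MeasureTheory Complex
open scoped Real ArithmeticFunction ContDiff

namespace Pool.Agent.MP_67227b_nt.Ah

open Pool.Agent.Lib.ZetaCount_helper33 Pool.Agent.MP_67227b_nt Pool.Agent.MP_67227b_nt.Mo
open Pool.Agent.MP_67227b_nt.Sg Pool.Agent.MP_67227b_nt.Pp
open Pool.Agent.MP_67227b_nt.Mo.MomentBAux (DP)

namespace det3Aux

/-- The periodic kernel. -/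
noncomputable def ker (z w : ℂ) : ℂ := 2 / (1 - Complex.exp (-2 * (w - z)))

lemma exists_h : ∃ h : ℂ → ℂ, Differentiable ℂ h ∧ h 0 = 2 ∧
    ∀ u : ℂ, u ≠ 0 → h u * u = 1 - Complex.exp (-2 * u) := by
  set f : ℂ → ℂ := fun u => 1 - Complex.exp (-2 * u) with hf
  have hfd : Differentiable ℂ f := by fun_prop
  refine ⟨dslope f 0, ?_, ?_, ?_⟩
  · rw [← differentiableOn_univ]
    exact (Complex.differentiableOn_dslope univ_mem).2 hfd.differentiableOn
  · rw [dslope_same]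
    have h1 : HasDerivAt f 2 0 := by
      have := (((hasDerivAt_id (0 : ℂ)).const_mul (-2)).cexp).const_sub 1
      simpa [hf] using this
    exact h1.deriv
  · intro u hu
    rw [dslope_of_ne _ hu, slope_def_field]
    simp only [hf, mul_zero, Complex.exp_zero, sub_self, sub_zero]
    field_simp

lemma ne_zero {u : ℂ} (hu : |u.im| ≤ π / 2) (h0 : u ≠ 0) : 1 - Complex.exp (-2 * u) ≠ 0 := by
  intro h
  have h1 : Complex.exp (-2 * u) = 1 := (sub_eq_zero.1 h).symm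
  rw [Complex.exp_eq_one_iff] at h1
  obtain ⟨n, hn⟩ := h1
  have h2 : u = -(n * (π * I)) := by linear_combination (-1 / 2 : ℂ) * hn
  have h3 : u.im = -(n * π) := by rw [h2]; simp
  rw [h3, abs_neg, abs_mul, abs_of_pos Real.pi_pos] at hu
  have h4 : |(n : ℝ)| ≤ 1 / 2 := by
    have := Real.pi_pos
    by_contra h5
    push Not at h5
    nlinarith
  have h5 : n = 0 := by
    by_contra h6
    have h7 : (1 : ℤ) ≤ |n| := Int.one_le_abs h6
    have h8 : (1 : ℝ) ≤ |(n : ℝ)| := by exact_mod_cast h7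
    linarith
  apply h0
  rw [h2, h5]; simp

lemma ker_period (z w : ℂ) : ker z (w + π * I) = ker z w := by
  unfold ker
  have h : Complex.exp (-2 * (w + π * I - z)) = Complex.exp (-2 * (w - z)) := by
    have h1 : -2 * (w + π * I - z) = -2 * (w - z) - 2 * π * I := by ring
    rw [h1, Complex.exp_sub, Complex.exp_two_pi_mul_I, div_one]
  rw [h]

lemma ker_hor (x x₁ y₁ : ℝ) : ‖ker (x₁ + (y₁ : ℂ) * I) (x + ((y₁ - π / 2 : ℝ) : ℂ) * I)‖ ≤ 2 := by
  unfold ker
  have h1 : -2 * ((x : ℂ) + ((y₁ - π / 2 : ℝ) : ℂ) * I - (x₁ + (y₁ : ℂ) * I)) =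
      ((-2 * (x - x₁) : ℝ) : ℂ) + π * I := by push_cast; ring
  rw [h1, Complex.exp_add, Complex.exp_pi_mul_I, ← Complex.ofReal_exp]
  have h2 : (1 : ℂ) - ((Real.exp (-2 * (x - x₁)) : ℝ) : ℂ) * (-1) =
      ((1 + Real.exp (-2 * (x - x₁)) : ℝ) : ℂ) := by push_cast; ring
  rw [h2, norm_div, Complex.norm_real, Real.norm_of_nonneg (by positivity)]
  have h3 : ‖(2 : ℂ)‖ = 2 := by simp
  rw [h3, div_le_iff₀ (by positivity)]
  nlinarith [Real.exp_pos (-2 * (x - x₁))]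

/-- Cauchy's formula with the periodic kernel. -/
lemma cauchy {Q : ℂ → ℂ} {a b x₁ y₁ : ℝ} (h1 : a < x₁) (h2 : x₁ < b)
    (hQ : DifferentiableOn ℂ Q (Icc a b ×ℂ Icc (y₁ - π / 2) (y₁ + π / 2))) :
    2 * π * I * Q (x₁ + (y₁ : ℂ) * I) =
      (∫ x in a..b, (Q (x + ((y₁ - π / 2 : ℝ) : ℂ) * I) -
        Q (x + ((y₁ - π / 2 : ℝ) : ℂ) * I + π * I)) *
          ker (x₁ + (y₁ : ℂ) * I) (x + ((y₁ - π / 2 : ℝ) : ℂ) * I)) +
      I * (∫ y in (y₁ - π / 2)..(y₁ + π / 2), Q (b + (y : ℂ) * I) *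
        ker (x₁ + (y₁ : ℂ) * I) (b + (y : ℂ) * I)) -
      I * ∫ y in (y₁ - π / 2)..(y₁ + π / 2), Q (a + (y : ℂ) * I) *
        ker (x₁ + (y₁ : ℂ) * I) (a + (y : ℂ) * I) := by
  have hpi := Real.pi_pos
  obtain ⟨h, hd, h0, hu⟩ := exists_h
  set z : ℂ := x₁ + (y₁ : ℂ) * I with hz
  have hzre : z.re = x₁ := by simp [hz]
  have hzim : z.im = y₁ := by simp [hz]
  set K : Set ℂ := Icc a b ×ℂ Icc (y₁ - π / 2) (y₁ + π / 2) with hK
  have hne : ∀ w ∈ K, w ≠ z → 1 - Complex.exp (-2 * (w - z)) ≠ 0 := by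
    intro w hw hwz
    rw [hK, Complex.mem_reProdIm] at hw
    apply ne_zero _ (sub_ne_zero.2 hwz)
    rw [Complex.sub_im, hzim, abs_le]
    constructor <;> linarith [hw.2.1, hw.2.2]
  have hhne : ∀ w ∈ K, h (w - z) ≠ 0 := by
    intro w hw
    by_cases hwz : w = z
    · rw [hwz, sub_self, h0]; norm_num
    · intro h3
      have h4 := hu (w - z) (sub_ne_zero.2 hwz)
      rw [h3, zero_mul] at h4
      exact hne w hw hwz h4.symm
  have hker : ∀ w : ℂ, w ≠ z → Q w * (2 / h (w - z)) / (w - z) = Q w * ker z w := by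
    intro w hwz
    unfold ker
    rw [← hu (w - z) (sub_ne_zero.2 hwz), mul_div_assoc, div_div]
  have hpole := bd_pole (f := fun w => Q w * (2 / h (w - z))) (a := a) (b := b)
    (c := y₁ - π / 2) (d := y₁ + π / 2) (z := z) (by rw [hzre]; exact h1) (by rw [hzre]; exact h2)
    (by rw [hzim]; linarith) (by rw [hzim]; linarith) (by
      refine hQ.mul (DifferentiableOn.div (differentiableOn_const _) ?_ hhne)
      exact (hd.comp (differentiable_id.sub_const z)).differentiableOn)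
  simp only [sub_self, h0] at hpole
  rw [div_self (by norm_num : (2 : ℂ) ≠ 0), mul_one] at hpole
  rw [← hpole]
  unfold bd
  have hcK : ContinuousOn Q K := hQ.continuousOn
  have hkc : ∀ w ∈ K, w ≠ z → ContinuousAt (ker z) w := by
    intro w hw hwz
    unfold ker
    exact ContinuousAt.div continuousAt_const (by fun_prop) (hne w hw hwz)
  have memc : ∀ x ∈ uIcc a b, ((x : ℂ) + ((y₁ - π / 2 : ℝ) : ℂ) * I) ∈ K := by
    intro x hx
    rw [uIcc_of_le (by linarith)] at hx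
    rw [hK, Complex.mem_reProdIm]
    constructor
    · simpa using hx
    · simp; linarith
  have memd : ∀ x ∈ uIcc a b, ((x : ℂ) + ((y₁ + π / 2 : ℝ) : ℂ) * I) ∈ K := by
    intro x hx
    rw [uIcc_of_le (by linarith)] at hx
    rw [hK, Complex.mem_reProdIm]
    constructor
    · simpa using hx
    · simp; linarith
  have nec : ∀ x : ℝ, ((x : ℂ) + ((y₁ - π / 2 : ℝ) : ℂ) * I) ≠ z := by
    intro x hx
    have := congrArg Complex.im hx
    rw [hzim] at this
    simp at this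
  have ned : ∀ x : ℝ, ((x : ℂ) + ((y₁ + π / 2 : ℝ) : ℂ) * I) ≠ z := by
    intro x hx
    have := congrArg Complex.im hx
    rw [hzim] at this
    simp at this
  have nea : ∀ y : ℝ, ((a : ℂ) + (y : ℂ) * I) ≠ z := by
    intro y hy
    have := congrArg Complex.re hy
    rw [hzre] at this
    simp at this
    linarith
  have neb : ∀ y : ℝ, ((b : ℂ) + (y : ℂ) * I) ≠ z := by
    intro y hy
    have := congrArg Complex.re hy
    rw [hzre] at this
    simp at this
    linarith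
  have hdc : ∀ x : ℝ, ((x : ℂ) + ((y₁ + π / 2 : ℝ) : ℂ) * I) =
      (x : ℂ) + ((y₁ - π / 2 : ℝ) : ℂ) * I + π * I := by
    intro x; push_cast; ring
  have e1 : (∫ x in a..b, Q ((x : ℂ) + ((y₁ - π / 2 : ℝ) : ℂ) * I) *
      (2 / h ((x : ℂ) + ((y₁ - π / 2 : ℝ) : ℂ) * I - z)) /
        ((x : ℂ) + ((y₁ - π / 2 : ℝ) : ℂ) * I - z)) =
      ∫ x in a..b, Q ((x : ℂ) + ((y₁ - π / 2 : ℝ) : ℂ) * I) *
        ker z ((x : ℂ) + ((y₁ - π / 2 : ℝ) : ℂ) * I) :=
    intervalIntegral.integral_congr fun x _ => hker _ (nec x)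
  have e2 : (∫ x in a..b, Q ((x : ℂ) + ((y₁ + π / 2 : ℝ) : ℂ) * I) *
      (2 / h ((x : ℂ) + ((y₁ + π / 2 : ℝ) : ℂ) * I - z)) /
        ((x : ℂ) + ((y₁ + π / 2 : ℝ) : ℂ) * I - z)) =
      ∫ x in a..b, Q ((x : ℂ) + ((y₁ + π / 2 : ℝ) : ℂ) * I) *
        ker z ((x : ℂ) + ((y₁ + π / 2 : ℝ) : ℂ) * I) :=
    intervalIntegral.integral_congr fun x _ => hker _ (ned x)
  have e3 : (∫ y in (y₁ - π / 2)..(y₁ + π / 2), Q ((b : ℂ) + (y : ℂ) * I) *
      (2 / h ((b : ℂ) + (y : ℂ) * I - z)) / ((b : ℂ) + (y : ℂ) * I - z)) =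
      ∫ y in (y₁ - π / 2)..(y₁ + π / 2), Q ((b : ℂ) + (y : ℂ) * I) *
        ker z ((b : ℂ) + (y : ℂ) * I) :=
    intervalIntegral.integral_congr fun y _ => hker _ (neb y)
  have e4 : (∫ y in (y₁ - π / 2)..(y₁ + π / 2), Q ((a : ℂ) + (y : ℂ) * I) *
      (2 / h ((a : ℂ) + (y : ℂ) * I - z)) / ((a : ℂ) + (y : ℂ) * I - z)) =
      ∫ y in (y₁ - π / 2)..(y₁ + π / 2), Q ((a : ℂ) + (y : ℂ) * I) *
        ker z ((a : ℂ) + (y : ℂ) * I) :=
    intervalIntegral.integral_congr fun y _ => hker _ (nea y)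
  rw [e1, e2, e3, e4]
  have i1 : IntervalIntegrable (fun x : ℝ => Q ((x : ℂ) + ((y₁ - π / 2 : ℝ) : ℂ) * I) *
        ker z ((x : ℂ) + ((y₁ - π / 2 : ℝ) : ℂ) * I)) volume a b := by
    apply ContinuousOn.intervalIntegrable
    refine ContinuousOn.mul (hcK.comp (Continuous.continuousOn (by fun_prop)) memc) ?_
    intro x hx
    exact (ContinuousAt.comp (f := fun x : ℝ => (x : ℂ) + ((y₁ - π / 2 : ℝ) : ℂ) * I)
      (hkc _ (memc x hx) (nec x)) (Continuous.continuousAt (by fun_prop))).continuousWithinAt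
  have i2 : IntervalIntegrable (fun x : ℝ => Q ((x : ℂ) + ((y₁ + π / 2 : ℝ) : ℂ) * I) *
        ker z ((x : ℂ) + ((y₁ + π / 2 : ℝ) : ℂ) * I)) volume a b := by
    apply ContinuousOn.intervalIntegrable
    refine ContinuousOn.mul (hcK.comp (Continuous.continuousOn (by fun_prop)) memd) ?_
    intro x hx
    exact (ContinuousAt.comp (f := fun x : ℝ => (x : ℂ) + ((y₁ + π / 2 : ℝ) : ℂ) * I)
      (hkc _ (memd x hx) (ned x)) (Continuous.continuousAt (by fun_prop))).continuousWithinAt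
  rw [← intervalIntegral.integral_sub i1 i2]
  congr 2
  congr 1
  funext x
  rw [hdc x, ker_period]
  ring


lemma ker_right {z w : ℂ} (h : Real.exp (-2 * (w.re - z.re)) ≤ 1 / 2) :
    ‖ker z w - 2‖ ≤ 4 * Real.exp (-2 * (w.re - z.re)) := by
  unfold ker
  set e : ℂ := Complex.exp (-2 * (w - z)) with he
  have hn : ‖e‖ = Real.exp (-2 * (w.re - z.re)) := by
    rw [he, Complex.norm_exp]; congr 1; simp
  rw [← hn] at h ⊢
  have h1 : 1 / 2 ≤ ‖1 - e‖ := by
    have := norm_sub_norm_le (1 : ℂ) e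
    rw [norm_one] at this
    linarith
  have hne : 1 - e ≠ 0 := by
    intro h0; rw [h0, norm_zero] at h1; linarith
  have h2 : 2 / (1 - e) - 2 = 2 * e / (1 - e) := by field_simp; ring
  rw [h2, norm_div, norm_mul, div_le_iff₀ (by linarith)]
  have h3 : ‖(2 : ℂ)‖ = 2 := by simp
  rw [h3]
  nlinarith [norm_nonneg e]

lemma ker_left {z w : ℂ} (h : Real.exp (2 * (w.re - z.re)) ≤ 1 / 2) :
    ‖ker z w + 2 * Complex.exp (2 * (w - z))‖ ≤ 4 * Real.exp (2 * (w.re - z.re)) ^ 2 := by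
  unfold ker
  set e : ℂ := Complex.exp (2 * (w - z)) with he
  have hn : ‖e‖ = Real.exp (2 * (w.re - z.re)) := by
    rw [he, Complex.norm_exp]; congr 1; simp
  have he0 : e ≠ 0 := Complex.exp_ne_zero _
  have hinv : Complex.exp (-2 * (w - z)) = e⁻¹ := by
    rw [he, ← Complex.exp_neg]; congr 1; ring
  rw [hinv]
  rw [← hn] at h ⊢
  have h1 : 1 / 2 ≤ ‖1 - e‖ := by
    have := norm_sub_norm_le (1 : ℂ) e
    rw [norm_one] at this
    linarith
  have hne : 1 - e ≠ 0 := by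
    intro h0; rw [h0, norm_zero] at h1; linarith
  have hne2 : 1 - e⁻¹ ≠ 0 := by
    intro h0
    apply hne
    have : e * (1 - e⁻¹) = 0 := by rw [h0, mul_zero]
    rw [mul_sub, mul_one, mul_inv_cancel₀ he0] at this
    rw [← neg_sub, this, neg_zero]
  have h2 : 2 / (1 - e⁻¹) + 2 * e = -(2 * e ^ 2 / (1 - e)) := by
    have hne3 : e - 1 ≠ 0 := by
      intro h0; apply hne; rw [← neg_sub, h0, neg_zero]
    have h3 : 1 - e⁻¹ = (e - 1) / e := by field_simp
    rw [h3]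
    have h4 : 1 - e = -(e - 1) := by ring
    rw [h4, div_neg, neg_neg]
    field_simp
    ring
  rw [h2, norm_neg, norm_div, norm_mul, norm_pow, div_le_iff₀ (by linarith)]
  have h3 : ‖(2 : ℂ)‖ = 2 := by simp
  rw [h3]
  nlinarith [sq_nonneg ‖e‖]

lemma ker_cont {z : ℂ} {a y₁ : ℝ} (ha : a ≠ z.re) (hy : z.im = y₁) :
    ContinuousOn (fun y : ℝ => ker z (a + (y : ℂ) * I)) (uIcc (y₁ - π / 2) (y₁ + π / 2)) := by
  unfold ker
  refine ContinuousOn.div continuousOn_const (Continuous.continuousOn (by fun_prop)) ?_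
  intro y hyy
  rw [uIcc_of_le (by linarith [Real.pi_pos])] at hyy
  apply ne_zero
  · simp [hy]
    rw [abs_le]; constructor <;> linarith [hyy.1, hyy.2]
  · intro h
    apply ha
    have := congrArg Complex.re h
    simp at this
    linarith

lemma ev (K : ℝ) (hK : 0 < K) (m : ℕ) : ∀ᶠ r : ℝ in atTop, r ^ m ≤ K * Real.exp r := by
  have h := Real.tendsto_pow_mul_exp_neg_atTop_nhds_zero m
  have h2 := h.eventually (ge_mem_nhds hK)
  filter_upwards [h2] with r hr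
  have h3 : r ^ m = r ^ m * Real.exp (-r) * Real.exp r := by
    rw [mul_assoc, ← Real.exp_add]; simp
  rw [h3]
  exact mul_le_mul_of_nonneg_right hr (Real.exp_pos r).le

end det3Aux

open det3Aux in
/-- MODULE DET3. The Cauchy formula. Let `w₁ = x₁ + i y₁`, `x₁ ∈ {0, 2}`, and
`k(w) = 2/(1 - e^{-2(w - w₁)})`: period `πi`, in the rectangle
`[-r^4, r^36] × [y₁ - π/2, y₁ + π/2]` only the simple pole `w₁` with residue `1` (write
`k(w) = g(w)/(w - w₁)`, `g` analytic, `g(w₁) = 1`). `bd_pole` for `Q g`. Right side: `k = 2 + O(e^{-r^36})`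
and `far` give `1 + O(θ) + O(e^{-r^36})` after division by `2πi`. Left side:
`k = -2 e^{2(w-w₁)} - 2 e^{4(w-w₁)}/(1 - e^{2(w-w₁)})`, the first term gives `vv(y₁) e^{-2w₁}`, the second
at most `C e^{-4r^4} sup ‖Q(-r^4 + i·)‖ ≤ C e^{-4r^4 + 3r^4 + 3r^3} (M+1)` (`det1`). The horizontal
sides: `k` is the same at `w` and `w + πi`, `|k| ≤ 2` there (`Im (w - w₁) = -π/2`:
`k = 2/(1 + e^{-2 Re (w-w₁)})`), so they give at most `(1/π) ∫_{-r^4}^{r^36} ‖Q(w+πi) - Q(w)‖`,
at most `(r^4 + 1) e^{-r^4} (M+1) + r^36 e^{-r^5}` (`det2`, `per`). -/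
theorem det3 {c C R : ℝ} (hc : 0 < c) (hC : 0 ≤ C) (hR : 0 < R) : ∃ r₀ : ℝ, 1 ≤ r₀ ∧
    ∀ r : ℝ, r₀ ≤ r → ∀ (θ M : ℝ) (D A : ℂ → ℂ), 0 ≤ θ → θ ≤ 1 → Facts r c C θ R D A →
      0 ≤ M → (∀ y ∈ Icc 0 π, ‖D (2 + (y : ℂ) * I) * A (2 + (y : ℂ) * I)‖ ≤ M) →
      ∀ x₁ y₁ : ℝ, (x₁ = 0 ∨ x₁ = 2) → |y₁| ≤ R →
        ‖D (x₁ + (y₁ : ℂ) * I) * A (x₁ + (y₁ : ℂ) * I) - 1 -
          vv r (fun w => D w * A w) y₁ * Complex.exp (-2 * (x₁ + (y₁ : ℂ) * I))‖ ≤
          Real.exp (-r ^ 3) * (M + 1) + θ := by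
  obtain ⟨r₁, hr₁, hd1⟩ := det1 (c := c) (C := C) hc hC
  obtain ⟨r₂, hr₂, hd2⟩ := det2 (c := c) (C := C) hc hC
  obtain ⟨r₃, hr₃⟩ := eventually_atTop.1 (ev (1 / 4) (by norm_num) 36)
  refine ⟨max (max r₁ r₂) (max r₃ (max 18 (R + 4))), hr₁.trans ((le_max_left _ _).trans
    (le_max_left _ _)), ?_⟩
  intro r hr θ M D A hθ0 hθ1 hF hM0 hM x₁ y₁ hx₁ hy₁
  have hrr₁ : r₁ ≤ r := ((le_max_left _ _).trans (le_max_left _ _)).trans hr
  have hrr₂ : r₂ ≤ r := ((le_max_right _ _).trans (le_max_left _ _)).trans hr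
  have hrr₃ : r₃ ≤ r := ((le_max_left _ _).trans (le_max_right _ _)).trans hr
  have hr18 : 18 ≤ r :=
    (((le_max_left _ _).trans (le_max_right _ _)).trans (le_max_right _ _)).trans hr
  have hrR : R + 4 ≤ r :=
    (((le_max_right _ _).trans (le_max_right _ _)).trans (le_max_right _ _)).trans hr
  have hr1 : 1 ≤ r := by linarith
  have hpi := Real.pi_pos
  have hpi3 := Real.pi_gt_three
  have hpi4 := Real.pi_le_four
  have e3 : (18 : ℝ) ≤ r ^ 3 := hr18.trans (le_self_pow₀ hr1 (by norm_num))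
  have e3' : r ≤ r ^ 3 := le_self_pow₀ hr1 (by norm_num)
  have e4 : 18 * r ^ 3 ≤ r ^ 4 := by
    have : r ^ 4 = r * r ^ 3 := by ring
    rw [this]; exact mul_le_mul_of_nonneg_right hr18 (by positivity)
  have e5 : 18 * r ^ 4 ≤ r ^ 5 := by
    have : r ^ 5 = r * r ^ 4 := by ring
    rw [this]; exact mul_le_mul_of_nonneg_right hr18 (by positivity)
  have e24 : r ≤ r ^ 24 := le_self_pow₀ hr1 (by norm_num)
  have e24' : r ^ 4 ≤ r ^ 24 := pow_le_pow_right₀ hr1 (by norm_num)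
  have e36 : r ^ 24 ≤ r ^ 36 := pow_le_pow_right₀ hr1 (by norm_num)
  have hM1 : 0 < M + 1 := by linarith
  rw [abs_le] at hy₁
  have hx0 : 0 ≤ x₁ := by rcases hx₁ with h | h <;> rw [h]; norm_num
  have hx2 : x₁ ≤ 2 := by rcases hx₁ with h | h <;> rw [h]; norm_num
  obtain ⟨-, hQl⟩ := hd1 r hrr₁ θ R M D A hF hM0 hM
  have hQp := hd2 r hrr₂ θ R M D A hF hM0 hM
  set Q : ℂ → ℂ := fun w => D w * A w with hQ
  set z : ℂ := x₁ + (y₁ : ℂ) * I with hz
  have hzre : z.re = x₁ := by simp [hz]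
  have hzim : z.im = y₁ := by simp [hz]
  set a : ℝ := -r ^ 4 with ha
  set b : ℝ := r ^ 36 with hb
  have hQd : DifferentiableOn ℂ Q (Icc a b ×ℂ Icc (y₁ - π / 2) (y₁ + π / 2)) := by
    refine DifferentiableOn.mul (hF.dD.mono ?_) hF.dA.differentiableOn
    intro w hw
    rw [Complex.mem_reProdIm] at hw
    obtain ⟨⟨h1, h2⟩, h3, h4⟩ := hw
    refine ⟨?_, ?_⟩
    · rw [abs_le]; constructor <;> linarith
    · rw [abs_le]; constructor <;> linarith
  have hcau := cauchy (Q := Q) (a := a) (b := b) (x₁ := x₁) (y₁ := y₁) (by linarith) (by linarith) hQd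
  rw [← hz] at hcau
  -- horizontal part
  have hhor : ‖∫ x in a..b, (Q (x + ((y₁ - π / 2 : ℝ) : ℂ) * I) -
        Q (x + ((y₁ - π / 2 : ℝ) : ℂ) * I + π * I)) *
          ker z (x + ((y₁ - π / 2 : ℝ) : ℂ) * I)‖ ≤
      (Real.exp (-r ^ 4) * (M + 1) * 2) * |b - a| := by
    apply intervalIntegral.norm_integral_le_of_norm_le_const
    intro x hx
    rw [uIoc_of_le (by linarith)] at hx
    rw [norm_mul, norm_sub_rev]
    refine mul_le_mul ?_ (ker_hor x x₁ y₁) (norm_nonneg _) (by positivity)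
    have hre : ((x : ℂ) + ((y₁ - π / 2 : ℝ) : ℂ) * I).re = x := by simp
    have him : ((x : ℂ) + ((y₁ - π / 2 : ℝ) : ℂ) * I).im = y₁ - π / 2 := by simp
    rcases le_or_gt x 1 with h | h
    · refine hQp _ (by rw [hre]; exact hx.1.le) (by rw [hre]; exact h) ?_
      rw [him, abs_le]; constructor <;> linarith
    · have h5 := hF.per ((x : ℂ) + ((y₁ - π / 2 : ℝ) : ℂ) * I) (by rw [hre]; exact h.le)
        (by rw [hre]; exact hx.2) (by rw [him, abs_le]; constructor <;> linarith)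
      refine h5.trans ?_
      have h6 : Real.exp (-r ^ 5) ≤ Real.exp (-r ^ 4) := Real.exp_le_exp.2 (by linarith)
      nlinarith [Real.exp_pos (-r ^ 4)]
  have hside : ∀ t : ℝ, (t = a ∨ t = b) → ContinuousOn (fun y : ℝ => Q (t + (y : ℂ) * I))
      (uIcc (y₁ - π / 2) (y₁ + π / 2)) := by
    intro t ht
    refine hQd.continuousOn.comp (Continuous.continuousOn (by fun_prop)) ?_
    intro y hy
    rw [uIcc_of_le (by linarith)] at hy
    rw [Complex.mem_reProdIm]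
    refine ⟨?_, by simpa using hy⟩
    have h1 : ((t : ℂ) + (y : ℂ) * I).re = t := by simp
    rw [h1]
    rcases ht with h | h
    · rw [h]; exact ⟨le_rfl, by linarith⟩
    · rw [h]; exact ⟨by linarith, le_rfl⟩
  -- right part
  have hri : IntervalIntegrable (fun y : ℝ => Q (b + (y : ℂ) * I) * ker z (b + (y : ℂ) * I))
      volume (y₁ - π / 2) (y₁ + π / 2) :=
    ((hside b (Or.inr rfl)).mul (ker_cont (by rw [hzre]; linarith) hzim)).intervalIntegrable
  have hright : ‖(∫ y in (y₁ - π / 2)..(y₁ + π / 2), Q (b + (y : ℂ) * I) *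
        ker z (b + (y : ℂ) * I)) - 2 * π‖ ≤
      (2 * θ + 8 * Real.exp (-2 * (b - x₁))) * π := by
    have h1 : (∫ y in (y₁ - π / 2)..(y₁ + π / 2), (2 : ℂ)) = 2 * π := by
      rw [intervalIntegral.integral_const]
      have : y₁ + π / 2 - (y₁ - π / 2) = π := by ring
      rw [this, Complex.real_smul]; ring
    rw [← h1, ← intervalIntegral.integral_sub hri intervalIntegrable_const]
    have h2 := intervalIntegral.norm_integral_le_of_norm_le_const
      (f := fun y : ℝ => Q (b + (y : ℂ) * I) * ker z (b + (y : ℂ) * I) - 2)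
      (a := y₁ - π / 2) (b := y₁ + π / 2) (C := 2 * θ + 8 * Real.exp (-2 * (b - x₁))) ?_
    · have h3 : |y₁ + π / 2 - (y₁ - π / 2)| = π := by
        have : y₁ + π / 2 - (y₁ - π / 2) = π := by ring
        rw [this, abs_of_pos hpi]
      rw [h3] at h2
      exact h2
    · intro y hy
      rw [uIoc_of_le (by linarith)] at hy
      have hf := hF.far y (by rw [abs_le]; constructor <;> linarith [hy.1, hy.2])
      have hbb : ((b : ℝ) : ℂ) = (r : ℂ) ^ 36 := by rw [hb]; push_cast; rfl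
      rw [← hbb] at hf
      have h4 : ‖Q (b + (y : ℂ) * I) - 1‖ ≤ θ := hf
      have hre : ((b : ℂ) + (y : ℂ) * I).re - z.re = b - x₁ := by rw [hzre]; simp
      have hsm : Real.exp (-2 * (b - x₁)) ≤ 1 / 2 := by
        have h6 : Real.exp (-2 * (b - x₁)) ≤ Real.exp (-1) := Real.exp_le_exp.2 (by linarith)
        have h7 : Real.exp (-1) ≤ 1 / 2 := by
          rw [Real.exp_neg, one_div]
          exact inv_anti₀ (by norm_num) (by linarith [Real.add_one_le_exp (1 : ℝ)])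
        exact h6.trans h7
      have h8 := ker_right (z := z) (w := (b : ℂ) + (y : ℂ) * I) (by rw [hre]; exact hsm)
      rw [hre] at h8
      have h9 : Q (b + (y : ℂ) * I) * ker z (b + (y : ℂ) * I) - 2 =
          2 * (Q (b + (y : ℂ) * I) - 1) +
            ((Q (b + (y : ℂ) * I) - 1) + 1) * (ker z (b + (y : ℂ) * I) - 2) := by ring
      rw [h9]
      refine (norm_add_le _ _).trans ?_
      have h10 : ‖2 * (Q (b + (y : ℂ) * I) - 1)‖ ≤ 2 * θ := by
        rw [norm_mul]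
        have : ‖(2 : ℂ)‖ = 2 := by simp
        rw [this]; linarith
      have h11 : ‖((Q (b + (y : ℂ) * I) - 1) + 1) * (ker z (b + (y : ℂ) * I) - 2)‖ ≤
          2 * (4 * Real.exp (-2 * (b - x₁))) := by
        rw [norm_mul]
        refine mul_le_mul ?_ h8 (norm_nonneg _) (by norm_num)
        refine (norm_add_le _ _).trans ?_
        rw [norm_one]; linarith
      linarith
  -- left part
  have hli : IntervalIntegrable (fun y : ℝ => Q (a + (y : ℂ) * I) * ker z (a + (y : ℂ) * I))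
      volume (y₁ - π / 2) (y₁ + π / 2) :=
    ((hside a (Or.inl rfl)).mul (ker_cont (by rw [hzre]; linarith) hzim)).intervalIntegrable
  have hli2 : IntervalIntegrable (fun y : ℝ => Q (a + (y : ℂ) * I) *
      (-2 * Complex.exp (2 * ((a : ℂ) + (y : ℂ) * I - z)))) volume (y₁ - π / 2) (y₁ + π / 2) :=
    ((hside a (Or.inl rfl)).mul (Continuous.continuousOn (by fun_prop))).intervalIntegrable
  have hvv : (∫ y in (y₁ - π / 2)..(y₁ + π / 2), Q (a + (y : ℂ) * I) *
      (-2 * Complex.exp (2 * ((a : ℂ) + (y : ℂ) * I - z)))) =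
      -(2 * π * (vv r Q y₁ * Complex.exp (-2 * z))) := by
    unfold vv
    have h1 : ∀ y : ℝ, Q (a + (y : ℂ) * I) *
      (-2 * Complex.exp (2 * ((a : ℂ) + (y : ℂ) * I - z))) =
        (-2 * Complex.exp (-2 * z)) * (Q (-((r : ℂ) ^ 4) + (y : ℂ) * I) *
          Complex.exp (2 * (-((r : ℂ) ^ 4) + (y : ℂ) * I))) := by
      intro y
      have haa : ((a : ℝ) : ℂ) = -((r : ℂ) ^ 4) := by rw [ha]; push_cast; rfl
      have h2 : 2 * ((a : ℂ) + (y : ℂ) * I - z) = -2 * z + 2 * ((a : ℂ) + (y : ℂ) * I) := by ring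
      rw [h2, Complex.exp_add, haa]
      ring
    rw [intervalIntegral.integral_congr (fun y _ => h1 y), intervalIntegral.integral_const_mul]
    have hpc : (π : ℂ) ≠ 0 := by exact_mod_cast hpi.ne'
    generalize (∫ y in (y₁ - π / 2)..(y₁ + π / 2), (Q (-((r : ℂ) ^ 4) + (y : ℂ) * I) *
          Complex.exp (2 * (-((r : ℂ) ^ 4) + (y : ℂ) * I)))) = J
    field_simp
  have hleft : ‖(∫ y in (y₁ - π / 2)..(y₁ + π / 2), Q (a + (y : ℂ) * I) *
        ker z (a + (y : ℂ) * I)) + 2 * π * (vv r Q y₁ * Complex.exp (-2 * z))‖ ≤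
      (Real.exp (3 * r ^ 4 + 3 * r ^ 3) * (M + 1) * (4 * Real.exp (2 * (a - x₁)) ^ 2)) * π := by
    have h0 : (∫ y in (y₁ - π / 2)..(y₁ + π / 2), Q (a + (y : ℂ) * I) *
        ker z (a + (y : ℂ) * I)) + 2 * π * (vv r Q y₁ * Complex.exp (-2 * z)) =
        ∫ y in (y₁ - π / 2)..(y₁ + π / 2), (Q (a + (y : ℂ) * I) * ker z (a + (y : ℂ) * I) -
          Q (a + (y : ℂ) * I) * (-2 * Complex.exp (2 * ((a : ℂ) + (y : ℂ) * I - z)))) := by
      rw [intervalIntegral.integral_sub hli hli2, hvv, sub_neg_eq_add]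
    rw [h0]
    have h2 := intervalIntegral.norm_integral_le_of_norm_le_const
      (f := fun y : ℝ => Q (a + (y : ℂ) * I) * ker z (a + (y : ℂ) * I) -
          Q (a + (y : ℂ) * I) * (-2 * Complex.exp (2 * ((a : ℂ) + (y : ℂ) * I - z))))
      (a := y₁ - π / 2) (b := y₁ + π / 2)
      (C := Real.exp (3 * r ^ 4 + 3 * r ^ 3) * (M + 1) * (4 * Real.exp (2 * (a - x₁)) ^ 2)) ?_
    · have h3 : |y₁ + π / 2 - (y₁ - π / 2)| = π := by
        have : y₁ + π / 2 - (y₁ - π / 2) = π := by ring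
        rw [this, abs_of_pos hpi]
      rw [h3] at h2
      exact h2
    · intro y hy
      rw [uIoc_of_le (by linarith)] at hy
      have hre : ((a : ℂ) + (y : ℂ) * I).re = a := by simp
      have him : ((a : ℂ) + (y : ℂ) * I).im = y := by simp
      have hre2 : ((a : ℂ) + (y : ℂ) * I).re - z.re = a - x₁ := by rw [hzre, hre]
      have h4 := hQl ((a : ℂ) + (y : ℂ) * I) (by rw [hre]; linarith) (by rw [hre]; linarith)
        (by rw [him, abs_le]; constructor <;> linarith [hy.1, hy.2])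
      rw [hre] at h4
      have h5 : |a| = r ^ 4 := by rw [ha, abs_neg, abs_of_nonneg (by positivity)]
      rw [h5] at h4
      have hsm : Real.exp (2 * (a - x₁)) ≤ 1 / 2 := by
        have h6 : Real.exp (2 * (a - x₁)) ≤ Real.exp (-1) := Real.exp_le_exp.2 (by linarith)
        have h7 : Real.exp (-1) ≤ 1 / 2 := by
          rw [Real.exp_neg, one_div]
          exact inv_anti₀ (by norm_num) (by linarith [Real.add_one_le_exp (1 : ℝ)])
        exact h6.trans h7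
      have h8 := ker_left (z := z) (w := (a : ℂ) + (y : ℂ) * I) (by rw [hre2]; exact hsm)
      rw [hre2] at h8
      have h9 : Q (a + (y : ℂ) * I) * ker z (a + (y : ℂ) * I) -
          Q (a + (y : ℂ) * I) * (-2 * Complex.exp (2 * ((a : ℂ) + (y : ℂ) * I - z))) =
          Q (a + (y : ℂ) * I) * (ker z (a + (y : ℂ) * I) +
            2 * Complex.exp (2 * ((a : ℂ) + (y : ℂ) * I - z))) := by ring
      rw [h9, norm_mul]
      exact mul_le_mul h4 h8 (norm_nonneg _) (by positivity)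
  -- assembly
  set H := ∫ x in a..b, (Q (x + ((y₁ - π / 2 : ℝ) : ℂ) * I) -
        Q (x + ((y₁ - π / 2 : ℝ) : ℂ) * I + π * I)) *
          ker z (x + ((y₁ - π / 2 : ℝ) : ℂ) * I) with hH
  set RR := ∫ y in (y₁ - π / 2)..(y₁ + π / 2), Q (b + (y : ℂ) * I) *
        ker z (b + (y : ℂ) * I) with hRR
  set LL := ∫ y in (y₁ - π / 2)..(y₁ + π / 2), Q (a + (y : ℂ) * I) *
        ker z (a + (y : ℂ) * I) with hLL
  set X : ℂ := Q z - 1 - vv r Q y₁ * Complex.exp (-2 * z) with hX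
  have hid : 2 * π * I * X = H + I * (RR - 2 * π) -
      I * (LL + 2 * π * (vv r Q y₁ * Complex.exp (-2 * z))) := by
    rw [hX]
    linear_combination hcau
  have hnX : 2 * π * ‖X‖ ≤ (Real.exp (-r ^ 4) * (M + 1) * 2) * |b - a| +
      (2 * θ + 8 * Real.exp (-2 * (b - x₁))) * π +
      (Real.exp (3 * r ^ 4 + 3 * r ^ 3) * (M + 1) * (4 * Real.exp (2 * (a - x₁)) ^ 2)) * π := by
    have h1 : ‖2 * π * I * X‖ = 2 * π * ‖X‖ := by
      rw [norm_mul, norm_mul, norm_mul, Complex.norm_I, mul_one, Complex.norm_real,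
        Real.norm_of_nonneg hpi.le]
      simp
    rw [← h1, hid]
    refine (norm_sub_le _ _).trans ?_
    refine add_le_add ((norm_add_le _ _).trans ?_) ?_
    · refine add_le_add hhor ?_
      rw [norm_mul, Complex.norm_I, one_mul]
      exact hright
    · rw [norm_mul, Complex.norm_I, one_mul]
      exact hleft
  have hba : |b - a| ≤ 2 * r ^ 36 := by
    rw [abs_of_nonneg (by linarith)]; linarith
  have h36 := hr₃ r hrr₃
  -- numbers
  have n0 : Real.exp (-5) ≤ 1 / 32 := by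
    rw [Real.exp_neg, one_div]
    refine inv_anti₀ (by norm_num) ?_
    have h9 : (2 : ℝ) ≤ Real.exp 1 := by linarith [Real.add_one_le_exp (1 : ℝ)]
    calc (32 : ℝ) = 2 ^ 5 := by norm_num
      _ ≤ Real.exp 1 ^ 5 := pow_le_pow_left₀ (by norm_num) h9 5
      _ = Real.exp 5 := by rw [← Real.exp_nat_mul]; norm_num
  have n1 : (Real.exp (-r ^ 4) * (M + 1) * 2) * |b - a| ≤ Real.exp (-r ^ 3) * (M + 1) * 1 := by
    have h1 : Real.exp (-r ^ 4) * Real.exp r ≤ Real.exp (-r ^ 3) := by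
      rw [← Real.exp_add]; exact Real.exp_le_exp.2 (by linarith)
    calc (Real.exp (-r ^ 4) * (M + 1) * 2) * |b - a|
        ≤ (Real.exp (-r ^ 4) * (M + 1) * 2) * (2 * (1 / 4 * Real.exp r)) :=
          mul_le_mul_of_nonneg_left (hba.trans (by linarith)) (by positivity)
      _ = (Real.exp (-r ^ 4) * Real.exp r) * (M + 1) * 1 := by ring
      _ ≤ _ := by
          refine mul_le_mul_of_nonneg_right (mul_le_mul_of_nonneg_right h1 hM1.le) (by norm_num)
  have n2 : 8 * Real.exp (-2 * (b - x₁)) ≤ Real.exp (-r ^ 3) * (1 / 4) := by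
    have h1 : Real.exp (-2 * (b - x₁)) ≤ Real.exp (-5) * Real.exp (-r ^ 3) := by
      rw [← Real.exp_add]; exact Real.exp_le_exp.2 (by linarith)
    have h2 : Real.exp (-5) * Real.exp (-r ^ 3) ≤ 1 / 32 * Real.exp (-r ^ 3) :=
      mul_le_mul_of_nonneg_right n0 (Real.exp_pos _).le
    linarith
  have n3 : Real.exp (3 * r ^ 4 + 3 * r ^ 3) * (M + 1) * (4 * Real.exp (2 * (a - x₁)) ^ 2) ≤
      Real.exp (-r ^ 3) * (M + 1) * (1 / 8) := by
    have h1 : Real.exp (3 * r ^ 4 + 3 * r ^ 3) * Real.exp (2 * (a - x₁)) ^ 2 ≤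
        1 / 32 * Real.exp (-r ^ 3) := by
      have h2 : Real.exp (3 * r ^ 4 + 3 * r ^ 3) * Real.exp (2 * (a - x₁)) ^ 2 ≤
          Real.exp (-5) * Real.exp (-r ^ 3) := by
        rw [← Real.exp_nat_mul, ← Real.exp_add, ← Real.exp_add]
        refine Real.exp_le_exp.2 ?_
        push_cast
        rw [ha]
        linarith
      exact h2.trans (mul_le_mul_of_nonneg_right n0 (Real.exp_pos _).le)
    calc Real.exp (3 * r ^ 4 + 3 * r ^ 3) * (M + 1) * (4 * Real.exp (2 * (a - x₁)) ^ 2)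
        = 4 * (M + 1) * (Real.exp (3 * r ^ 4 + 3 * r ^ 3) * Real.exp (2 * (a - x₁)) ^ 2) := by ring
      _ ≤ 4 * (M + 1) * (1 / 32 * Real.exp (-r ^ 3)) := mul_le_mul_of_nonneg_left h1 (by positivity)
      _ = _ := by ring
  have hE : 0 < Real.exp (-r ^ 3) := Real.exp_pos _
  have n4 : 2 * π * ‖X‖ ≤ 2 * π * (Real.exp (-r ^ 3) * (M + 1) + θ) := by
    have h1 : (2 * θ + 8 * Real.exp (-2 * (b - x₁))) * π ≤
        (2 * θ + Real.exp (-r ^ 3) * (1 / 4)) * π :=
      mul_le_mul_of_nonneg_right (by linarith) hpi.le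
    have h2 : (Real.exp (3 * r ^ 4 + 3 * r ^ 3) * (M + 1) * (4 * Real.exp (2 * (a - x₁)) ^ 2)) * π ≤
        (Real.exp (-r ^ 3) * (M + 1) * (1 / 8)) * π := mul_le_mul_of_nonneg_right n3 hpi.le
    have h3 : Real.exp (-r ^ 3) ≤ Real.exp (-r ^ 3) * (M + 1) :=
      le_mul_of_one_le_right hE.le (by linarith)
    have hE1 : 0 < Real.exp (-r ^ 3) * (M + 1) := mul_pos hE hM1
    generalize Real.exp (-r ^ 3) * (M + 1) = E1 at n1 n3 h2 h3 hE1 ⊢
    have h4 : E1 ≤ E1 * (1 / 3) * π := by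
      have := mul_le_mul_of_nonneg_left hpi3.le (by linarith : (0 : ℝ) ≤ E1 * (1 / 3))
      linarith
    have h5 : Real.exp (-r ^ 3) * (1 / 4) * π ≤ E1 * (1 / 4) * π :=
      mul_le_mul_of_nonneg_right (by linarith) hpi.le
    have h6 : 0 < E1 * π := mul_pos hE1 hpi
    linarith
  exact le_of_mul_le_mul_left n4 (by positivity)

/-- MODULE DET3b. `v` is nearly constant: by `hasDerivAt` of the integral,
`v'(y) = (1/π) (Q(-r^4 + i(y+π/2)) - Q(-r^4 + i(y-π/2))) e^{2(-r^4 + i(y+π/2))}`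
(`e^{iπ·2...}`: the exponential has period `πi`), bounded by `e^{-2r^4} e^{-r^4} (M+1)` (`det2`). -/
theorem det3b {c C R : ℝ} (hc : 0 < c) (hC : 0 ≤ C) (hR : 0 < R) : ∃ r₀ : ℝ, 1 ≤ r₀ ∧
    ∀ r : ℝ, r₀ ≤ r → ∀ (θ M : ℝ) (D A : ℂ → ℂ), Facts r c C θ R D A →
      0 ≤ M → (∀ y ∈ Icc 0 π, ‖D (2 + (y : ℂ) * I) * A (2 + (y : ℂ) * I)‖ ≤ M) →
      ∀ y y' : ℝ, |y| ≤ R → |y'| ≤ R →
        ‖vv r (fun w => D w * A w) y - vv r (fun w => D w * A w) y'‖ ≤
          Real.exp (-r ^ 3) * (M + 1) := by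
  obtain ⟨r₂, hr₂, hd2⟩ := det2 (c := c) (C := C) hc hC
  refine ⟨max r₂ (max 18 (R + 4)), hr₂.trans (le_max_left _ _), ?_⟩
  intro r hr θ M D A hF hM0 hM y y' hy hy'
  have hrr₂ : r₂ ≤ r := (le_max_left _ _).trans hr
  have hr18 : 18 ≤ r := ((le_max_left _ _).trans (le_max_right _ _)).trans hr
  have hrR : R + 4 ≤ r := ((le_max_right _ _).trans (le_max_right _ _)).trans hr
  have hr1 : 1 ≤ r := by linarith
  have hpi := Real.pi_pos
  have hpi3 := Real.pi_gt_three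
  have hpi4 := Real.pi_le_four
  have e3' : r ≤ r ^ 3 := le_self_pow₀ hr1 (by norm_num)
  have e4 : 18 * r ^ 3 ≤ r ^ 4 := by
    have : r ^ 4 = r * r ^ 3 := by ring
    rw [this]; exact mul_le_mul_of_nonneg_right hr18 (by positivity)
  have e24 : r ≤ r ^ 24 := le_self_pow₀ hr1 (by norm_num)
  have e436 : r ^ 4 ≤ r ^ 36 := pow_le_pow_right₀ hr1 (by norm_num)
  have hM1 : 0 < M + 1 := by linarith
  have hQp := hd2 r hrr₂ θ R M D A hF hM0 hM
  rw [abs_le] at hy hy'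
  set Q : ℂ → ℂ := fun w => D w * A w with hQ
  set q : ℝ → ℂ := fun t => Q (-((r : ℂ) ^ 4) + (t : ℂ) * I) *
    Complex.exp (2 * (-((r : ℂ) ^ 4) + (t : ℂ) * I)) with hq
  have hre : ∀ t : ℝ, (-((r : ℂ) ^ 4) + (t : ℂ) * I).re = -r ^ 4 := by
    intro t
    have : (-((r : ℂ) ^ 4) + (t : ℂ) * I) = ((-r ^ 4 : ℝ) : ℂ) + (t : ℂ) * I := by push_cast; rfl
    rw [this, Complex.add_re, Complex.ofReal_re, Complex.mul_re, Complex.ofReal_re,
      Complex.ofReal_im, Complex.I_re, Complex.I_im]; ring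
  have him : ∀ t : ℝ, (-((r : ℂ) ^ 4) + (t : ℂ) * I).im = t := by
    intro t
    have : (-((r : ℂ) ^ 4) + (t : ℂ) * I) = ((-r ^ 4 : ℝ) : ℂ) + (t : ℂ) * I := by push_cast; rfl
    rw [this, Complex.add_im, Complex.ofReal_im, Complex.mul_im, Complex.ofReal_re,
      Complex.ofReal_im, Complex.I_re, Complex.I_im]; ring
  have hqc : ContinuousOn q (Icc (-(R + 4)) (R + 4)) := by
    refine ContinuousOn.mul (ContinuousOn.mul ?_ ?_) (Continuous.continuousOn (by fun_prop))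
    · refine ContinuousOn.comp (t := {w : ℂ | |w.re| ≤ r ^ 36 + 1 ∧ |w.im| ≤ 8 * r ^ 24})
        hF.dD.continuousOn (Continuous.continuousOn (by fun_prop)) ?_
      intro t ht
      refine ⟨?_, ?_⟩
      · rw [hre, abs_neg, abs_of_nonneg (by positivity)]; linarith
      · rw [him, abs_le]; constructor <;> linarith [ht.1, ht.2]
    · exact (hF.dA.continuous.comp (by fun_prop)).continuousOn
  have hint : ∀ s t : ℝ, s ∈ Icc (-(R + 4)) (R + 4) → t ∈ Icc (-(R + 4)) (R + 4) →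
      IntervalIntegrable q volume s t := by
    intro s t hs ht
    apply ContinuousOn.intervalIntegrable
    exact hqc.mono (uIcc_subset_Icc hs ht)
  have hvv : ∀ t : ℝ, vv r Q t = 1 / π * ∫ u in (t - π / 2)..(t + π / 2), q u := fun t => rfl
  rw [hvv, hvv, ← mul_sub]
  rw [intervalIntegral.integral_interval_sub_interval_comm
    (hint _ _ ⟨by linarith, by linarith⟩ ⟨by linarith, by linarith⟩)
    (hint _ _ ⟨by linarith, by linarith⟩ ⟨by linarith, by linarith⟩)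
    (hint _ _ ⟨by linarith, by linarith⟩ ⟨by linarith, by linarith⟩)]
  have hsh : (∫ u in (y + π / 2)..(y' + π / 2), q u) =
      ∫ u in (y - π / 2)..(y' - π / 2), q (u + π) := by
    rw [intervalIntegral.integral_comp_add_right]
    congr 1 <;> ring
  have hqshift : ∀ u : ℝ, q u - q (u + π) = -((Q (-((r : ℂ) ^ 4) + (u : ℂ) * I + π * I) -
      Q (-((r : ℂ) ^ 4) + (u : ℂ) * I)) * Complex.exp (2 * (-((r : ℂ) ^ 4) + (u : ℂ) * I))) := by
    intro u
    have h1 : (-((r : ℂ) ^ 4) + ((u + π : ℝ) : ℂ) * I) =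
      -((r : ℂ) ^ 4) + (u : ℂ) * I + π * I := by push_cast; ring
    have h2 : Complex.exp (2 * (-((r : ℂ) ^ 4) + (u : ℂ) * I + π * I)) =
        Complex.exp (2 * (-((r : ℂ) ^ 4) + (u : ℂ) * I)) := by
      have h3 : 2 * (-((r : ℂ) ^ 4) + (u : ℂ) * I + π * I) =
        2 * (-((r : ℂ) ^ 4) + (u : ℂ) * I) + 2 * π * I := by ring
      rw [h3, Complex.exp_add, Complex.exp_two_pi_mul_I, mul_one]
    simp only [hq]
    rw [h1, h2]
    ring
  have hint2 : IntervalIntegrable (fun u : ℝ => q (u + π)) volume (y - π / 2) (y' - π / 2) := by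
    have h1 := (hint (y - π / 2 + π) (y' - π / 2 + π) ⟨by linarith, by linarith⟩
      ⟨by linarith, by linarith⟩).comp_add_right π
    simpa using h1
  rw [hsh, ← intervalIntegral.integral_sub
    (hint _ _ ⟨by linarith, by linarith⟩ ⟨by linarith, by linarith⟩) hint2]
  have hbound := intervalIntegral.norm_integral_le_of_norm_le_const
      (f := fun u : ℝ => q u - q (u + π)) (a := y - π / 2) (b := y' - π / 2)
      (C := Real.exp (-r ^ 4) * (M + 1) * Real.exp (-2 * r ^ 4)) (by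
    intro u hu
    have hu2 : u ∈ Icc (-(R + 4)) (R + 4) :=
      (uIcc_subset_Icc (a₁ := y - π / 2) (b₁ := y' - π / 2) ⟨by linarith, by linarith⟩
        ⟨by linarith, by linarith⟩) (uIoc_subset_uIcc hu)
    rw [hqshift, norm_neg, norm_mul]
    have h1 := hQp (-((r : ℂ) ^ 4) + (u : ℂ) * I) (by rw [hre]) (by rw [hre]; nlinarith) (by
      rw [him, abs_le]; constructor <;> linarith [hu2.1, hu2.2])
    have h2 : ‖Complex.exp (2 * (-((r : ℂ) ^ 4) + (u : ℂ) * I))‖ = Real.exp (-2 * r ^ 4) := by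
      rw [Complex.norm_exp]
      congr 1
      have : (2 * (-((r : ℂ) ^ 4) + (u : ℂ) * I)) =
        ((2 : ℝ) : ℂ) * (-((r : ℂ) ^ 4) + (u : ℂ) * I) := by push_cast; rfl
      rw [this, Complex.re_ofReal_mul, hre]; ring
    rw [h2]
    exact mul_le_mul_of_nonneg_right h1 (Real.exp_pos _).le)
  rw [norm_mul]
  have h1 : ‖(1 / π : ℂ)‖ ≤ 1 / 2 := by
    rw [norm_div, norm_one, Complex.norm_real, Real.norm_of_nonneg hpi.le]
    exact one_div_le_one_div_of_le (by norm_num) (by linarith)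
  have h2 : |y' - π / 2 - (y - π / 2)| ≤ 2 * r := by
    rw [abs_le]; constructor <;> linarith
  have h3 : r ≤ Real.exp r := by linarith [Real.add_one_le_exp r]
  have h4 : Real.exp (-r ^ 4) * Real.exp (-2 * r ^ 4) * Real.exp r ≤ Real.exp (-r ^ 3) := by
    rw [← Real.exp_add, ← Real.exp_add]
    exact Real.exp_le_exp.2 (by linarith)
  calc ‖(1 / π : ℂ)‖ * ‖∫ u in (y - π / 2)..(y' - π / 2), (q u - q (u + π))‖
      ≤ 1 / 2 * (Real.exp (-r ^ 4) * (M + 1) * Real.exp (-2 * r ^ 4) * (2 * r)) :=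
        mul_le_mul h1 (hbound.trans (mul_le_mul_of_nonneg_left h2 (by positivity)))
          (norm_nonneg _) (by norm_num)
    _ = Real.exp (-r ^ 4) * (M + 1) * Real.exp (-2 * r ^ 4) * r := by ring
    _ ≤ Real.exp (-r ^ 4) * (M + 1) * Real.exp (-2 * r ^ 4) * Real.exp r :=
        mul_le_mul_of_nonneg_left h3 (by positivity)
    _ = (Real.exp (-r ^ 4) * Real.exp (-2 * r ^ 4) * Real.exp r) * (M + 1) := by ring
    _ ≤ _ := mul_le_mul_of_nonneg_right h4 hM1.le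

end Pool.Agent.MP_67227b_nt.Ah
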