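import Pool.Agent.MP_67227b_nt.Ah.AhDet3

set_option autoImplicit false

open Filter Topology Set MeasureTheory Complex
open scoped Real ArithmeticFunction ContDiff

namespace Pool.Agent.MP_67227b_nt.Ah

open Pool.Agent.Lib.ZetaCount_helper33 Pool.Agent.MP_67227b_nt Pool.Agent.MP_67227b_nt.Mo
open Pool.Agent.MP_67227b_nt.Sg Pool.Agent.MP_67227b_nt.Pp
open Pool.Agent.MP_67227b_nt.Mo.MomentBAux (DP)

/-- MODULE DET4. Rigidity. Let `M` be the maximum of `‖Q(2+iy)‖` on `[0, π]` (`R ≥ 4`), `v = vv 0`,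
`κ = e^{-r^3}`. `det3` with `x₁ = 2` at the maximum and `det3b`:
`M ≤ 1 + e^{-4}(‖v‖ + κ(M+1)) + κ(M+1) + θ`, so `M ≤ 3 + ‖v‖`. For a zero `iγ`, `|γ| ≤ R`:
`‖1 + v e^{-2iγ}‖ ≤ 2κ(M+1) + θ ≤ 2κ(4 + ‖v‖) + θ =: τ(1)`. Hence `‖v‖ ≤ 2` and
`‖1 + v e^{-2iγ}‖ ≤ 12κ + θ ≤ 1/2`, `‖v‖ ≥ 1/2`, and for two zeros
`‖v‖ ‖e^{-2iγ} - e^{-2iγ'}‖ ≤ 2(12κ + θ)`. Choose `θ = ε/16` etc. -/
theorem det4 {c C R ε : ℝ} (hc : 0 < c) (hC : 0 ≤ C) (hR : 4 ≤ R) (hε : 0 < ε) :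
    ∃ θ r₀ : ℝ, 0 < θ ∧ 1 ≤ r₀ ∧ ∀ r : ℝ, r₀ ≤ r → ∀ D A : ℂ → ℂ, Facts r c C θ R D A →
      ∀ γ γ' : ℝ, |γ| ≤ R → |γ'| ≤ R → D ((γ : ℂ) * I) = 0 → D ((γ' : ℂ) * I) = 0 →
        ‖Complex.exp (-2 * (γ : ℂ) * I) - Complex.exp (-2 * (γ' : ℂ) * I)‖ ≤ ε := by
  obtain ⟨r₁, hr₁, h1⟩ := det3 (c := c) (C := C) (R := R) hc hC (by linarith)
  obtain ⟨r₂, hr₂, h2⟩ := det3b (c := c) (C := C) (R := R) hc hC (by linarith)
  set K : ℝ := min (1 / 48) (ε / 96) with hK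
  have hK0 : 0 < K := lt_min (by norm_num) (by positivity)
  obtain ⟨r₃, hr₃⟩ := eventually_atTop.1 (Real.tendsto_exp_neg_atTop_nhds_zero.eventually
    (ge_mem_nhds hK0))
  set θ : ℝ := min (1 / 4) (ε / 8) with hθ
  have hθ0 : 0 < θ := lt_min (by norm_num) (by positivity)
  have hθ1 : θ ≤ 1 / 4 := min_le_left _ _
  have hθ2 : θ ≤ ε / 8 := min_le_right _ _
  refine ⟨θ, max (max r₁ r₂) r₃, hθ0, le_trans hr₁ ((le_max_left _ _).trans (le_max_left _ _)), ?_⟩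
  intro r hr D A hF γ γ' hγ hγ' hz hz'
  have hrr₁ : r₁ ≤ r := ((le_max_left _ _).trans (le_max_left _ _)).trans hr
  have hrr₂ : r₂ ≤ r := ((le_max_right _ _).trans (le_max_left _ _)).trans hr
  have hrr₃ : r₃ ≤ r := (le_max_right _ _).trans hr
  have hr1 : 1 ≤ r := hr₁.trans hrr₁
  set κ : ℝ := Real.exp (-r ^ 3) with hκ
  have hκ0 : 0 < κ := Real.exp_pos _
  have hκK : κ ≤ K := by
    refine le_trans (Real.exp_le_exp.2 ?_) (hr₃ r hrr₃)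
    have : r ≤ r ^ 3 := le_self_pow₀ hr1 (by norm_num)
    linarith
  have hκ1 : κ ≤ 1 / 48 := hκK.trans (min_le_left _ _)
  have hκ2 : κ ≤ ε / 96 := hκK.trans (min_le_right _ _)
  have hpi3 := Real.pi_gt_three
  have hpi4 := Real.pi_le_four
  -- the maximum
  have hcont : ContinuousOn (fun y : ℝ => ‖D (2 + (y : ℂ) * I) * A (2 + (y : ℂ) * I)‖)
      (Icc 0 π) := by
    refine ContinuousOn.norm (ContinuousOn.mul ?_ ?_)
    · refine ContinuousOn.comp (t := {w : ℂ | |w.re| ≤ r ^ 36 + 1 ∧ |w.im| ≤ 8 * r ^ 24})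
        hF.dD.continuousOn (Continuous.continuousOn (by fun_prop)) ?_
      intro y hy
      have h36 : (1 : ℝ) ≤ r ^ 36 := one_le_pow₀ hr1
      have h24 : (1 : ℝ) ≤ r ^ 24 := one_le_pow₀ hr1
      refine ⟨?_, ?_⟩
      · simp only [add_re, re_ofNat, mul_re, ofReal_re, I_re, mul_zero, ofReal_im, I_im, mul_one,
          sub_self, add_zero]
        rw [abs_of_nonneg (by norm_num)]; linarith
      · simp only [add_im, im_ofNat, mul_im, ofReal_re, I_im, mul_one, ofReal_im, I_re, mul_zero,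
          add_zero, zero_add]
        rw [abs_of_nonneg hy.1]; linarith [hy.2]
    · exact (hF.dA.continuous.comp (by fun_prop)).continuousOn
  obtain ⟨y₀, hy₀, hmax⟩ := isCompact_Icc.exists_isMaxOn (nonempty_Icc.2 Real.pi_pos.le) hcont
  set M : ℝ := ‖D (2 + (y₀ : ℂ) * I) * A (2 + (y₀ : ℂ) * I)‖ with hMdef
  have hM0 : 0 ≤ M := norm_nonneg _
  have hM : ∀ y ∈ Icc 0 π, ‖D (2 + (y : ℂ) * I) * A (2 + (y : ℂ) * I)‖ ≤ M := fun y hy => hmax hy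
  set Q : ℂ → ℂ := fun w => D w * A w with hQ
  set v : ℂ := vv r Q 0 with hv
  have hvy : ∀ y : ℝ, |y| ≤ R → ‖vv r Q y - v‖ ≤ κ * (M + 1) := by
    intro y hy
    exact h2 r hrr₂ θ M D A hF hM0 hM y 0 hy (by simp; linarith)
  have h3 := fun x₁ y₁ hx hy => h1 r hrr₁ θ M D A hθ0.le (by linarith) hF hM0 hM x₁ y₁ hx hy
  -- upper bound for M
  have hMle : M ≤ 3 + ‖v‖ := by
    have hy₀R : |y₀| ≤ R := by rw [abs_of_nonneg hy₀.1]; linarith [hy₀.2]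
    have h4 := h3 2 y₀ (Or.inr rfl) hy₀R
    have h5 := hvy y₀ hy₀R
    push_cast at h4
    have h6 : ‖Complex.exp (-2 * (2 + (y₀ : ℂ) * I))‖ ≤ 1 / 16 := by
      rw [Complex.norm_exp]
      have h7 : (-2 * (2 + (y₀ : ℂ) * I)).re = -4 := by simp; norm_num
      rw [h7, Real.exp_neg]
      have h8 : (16 : ℝ) ≤ Real.exp 4 := by
        have h9 : (2 : ℝ) ≤ Real.exp 1 := by linarith [Real.add_one_le_exp (1 : ℝ)]
        calc (16 : ℝ) = 2 ^ 4 := by norm_num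
          _ ≤ Real.exp 1 ^ 4 := pow_le_pow_left₀ (by norm_num) h9 4
          _ = Real.exp 4 := by rw [← Real.exp_nat_mul]; norm_num
      rw [one_div]
      exact inv_anti₀ (by norm_num) h8
    have h10 : ‖vv r Q y₀‖ ≤ ‖v‖ + κ * (M + 1) := by
      have := norm_sub_norm_le (vv r Q y₀) v
      linarith
    have h11 : M ≤ ‖D (2 + (y₀ : ℂ) * I) * A (2 + (y₀ : ℂ) * I) - 1 -
          vv r Q y₀ * Complex.exp (-2 * (2 + (y₀ : ℂ) * I))‖ + 1 +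
          ‖vv r Q y₀ * Complex.exp (-2 * (2 + (y₀ : ℂ) * I))‖ := by
      have h12 : D (2 + (y₀ : ℂ) * I) * A (2 + (y₀ : ℂ) * I) =
          (D (2 + (y₀ : ℂ) * I) * A (2 + (y₀ : ℂ) * I) - 1 -
          vv r Q y₀ * Complex.exp (-2 * (2 + (y₀ : ℂ) * I))) + 1 +
          vv r Q y₀ * Complex.exp (-2 * (2 + (y₀ : ℂ) * I)) := by ring
      calc M = ‖(D (2 + (y₀ : ℂ) * I) * A (2 + (y₀ : ℂ) * I) - 1 -
          vv r Q y₀ * Complex.exp (-2 * (2 + (y₀ : ℂ) * I))) + 1 +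
          vv r Q y₀ * Complex.exp (-2 * (2 + (y₀ : ℂ) * I))‖ := by rw [hMdef, ← h12]
        _ ≤ _ := (norm_add_le _ _).trans (by
            gcongr
            refine (norm_add_le _ _).trans ?_
            simp)
    have h13 : ‖vv r Q y₀ * Complex.exp (-2 * (2 + (y₀ : ℂ) * I))‖ ≤
        (‖v‖ + κ * (M + 1)) * (1 / 16) := by
      rw [norm_mul]
      exact mul_le_mul h10 h6 (norm_nonneg _) (by positivity)
    have h14 : κ * (M + 1) ≤ 1 / 48 * (M + 1) := mul_le_mul_of_nonneg_right hκ1 (by linarith)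
    have h15 := norm_nonneg v
    linarith
  -- the zeros
  have hzero : ∀ g : ℝ, |g| ≤ R → D ((g : ℂ) * I) = 0 →
      ‖1 + v * Complex.exp (-2 * (g : ℂ) * I)‖ ≤ 2 * (κ * (M + 1)) + θ := by
    intro g hg hDg
    have h4 := h3 0 g (Or.inl rfl) hg
    have h5 := hvy g hg
    rw [ofReal_zero, zero_add, hDg, zero_mul] at h4
    have h6 : -2 * ((g : ℂ) * I) = -2 * (g : ℂ) * I := by ring
    rw [h6] at h4
    have h7 : ‖Complex.exp (-2 * (g : ℂ) * I)‖ = 1 := by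
      rw [Complex.norm_exp]; simp
    have h8 : 1 + v * Complex.exp (-2 * (g : ℂ) * I) =
        -(0 - 1 - vv r Q g * Complex.exp (-2 * (g : ℂ) * I)) -
          (vv r Q g - v) * Complex.exp (-2 * (g : ℂ) * I) := by ring
    rw [h8]
    refine (norm_sub_le _ _).trans ?_
    rw [norm_neg, norm_mul, h7, mul_one]
    have h9 : ‖0 - 1 - vv r Q g * Complex.exp (-2 * (g : ℂ) * I)‖ ≤ κ * (M + 1) + θ := h4
    linarith
  have hz1 := hzero γ hγ hz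
  have hz2 := hzero γ' hγ' hz'
  have hex : ∀ g : ℝ, ‖Complex.exp (-2 * (g : ℂ) * I)‖ = 1 := by
    intro g; rw [Complex.norm_exp]; simp
  have hκM : κ * (M + 1) ≤ κ * (4 + ‖v‖) := mul_le_mul_of_nonneg_left (by linarith) hκ0.le
  have hv2 : ‖v‖ ≤ 2 := by
    have h4 : ‖v‖ ≤ 1 + ‖1 + v * Complex.exp (-2 * (γ : ℂ) * I)‖ := by
      have h5 : ‖v‖ = ‖v * Complex.exp (-2 * (γ : ℂ) * I)‖ := by rw [norm_mul, hex, mul_one]
      have h6 : v * Complex.exp (-2 * (γ : ℂ) * I) =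
        (1 + v * Complex.exp (-2 * (γ : ℂ) * I)) - 1 := by ring
      rw [h5]
      calc ‖v * Complex.exp (-2 * (γ : ℂ) * I)‖ =
          ‖(1 + v * Complex.exp (-2 * (γ : ℂ) * I)) - 1‖ := by rw [← h6]
        _ ≤ ‖1 + v * Complex.exp (-2 * (γ : ℂ) * I)‖ + ‖(1 : ℂ)‖ := norm_sub_le _ _
        _ = _ := by rw [norm_one]; ring
    have h7 : κ * (4 + ‖v‖) ≤ 1 / 48 * (4 + ‖v‖) :=
      mul_le_mul_of_nonneg_right hκ1 (by positivity)
    linarith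
  have hκ6 : κ * (M + 1) ≤ 6 * κ := by nlinarith
  have hvlow : 1 / 2 ≤ ‖v‖ := by
    have h4 : 1 ≤ ‖v‖ + ‖1 + v * Complex.exp (-2 * (γ : ℂ) * I)‖ := by
      have h5 : ‖v‖ = ‖v * Complex.exp (-2 * (γ : ℂ) * I)‖ := by rw [norm_mul, hex, mul_one]
      have h6 : (1 : ℂ) = (1 + v * Complex.exp (-2 * (γ : ℂ) * I)) -
        v * Complex.exp (-2 * (γ : ℂ) * I) := by ring
      calc (1 : ℝ) = ‖(1 : ℂ)‖ := norm_one.symm
        _ = ‖(1 + v * Complex.exp (-2 * (γ : ℂ) * I)) -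
          v * Complex.exp (-2 * (γ : ℂ) * I)‖ := by rw [← h6]
        _ ≤ ‖1 + v * Complex.exp (-2 * (γ : ℂ) * I)‖ + ‖v * Complex.exp (-2 * (γ : ℂ) * I)‖ :=
          norm_sub_le _ _
        _ = _ := by rw [← h5]; ring
    linarith
  have hdiff : ‖v‖ * ‖Complex.exp (-2 * (γ : ℂ) * I) - Complex.exp (-2 * (γ' : ℂ) * I)‖ ≤
      2 * (12 * κ + θ) := by
    rw [← norm_mul]
    have h4 : v * (Complex.exp (-2 * (γ : ℂ) * I) - Complex.exp (-2 * (γ' : ℂ) * I)) =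
      (1 + v * Complex.exp (-2 * (γ : ℂ) * I)) - (1 + v * Complex.exp (-2 * (γ' : ℂ) * I)) := by
      ring
    rw [h4]
    refine (norm_sub_le _ _).trans ?_
    linarith
  have h0 := norm_nonneg (Complex.exp (-2 * (γ : ℂ) * I) - Complex.exp (-2 * (γ' : ℂ) * I))
  have h4 : 1 / 2 * ‖Complex.exp (-2 * (γ : ℂ) * I) - Complex.exp (-2 * (γ' : ℂ) * I)‖ ≤
      2 * (12 * κ + θ) := (mul_le_mul_of_nonneg_right hvlow h0).trans hdiff
  linarith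

end Pool.Agent.MP_67227b_nt.Ah
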