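import Pool.Agent.MP_67227b_nt.Ah.AhDefs

set_option autoImplicit false

open Filter Topology Set MeasureTheory Complex
open scoped Real ArithmeticFunction ContDiff

namespace Pool.Agent.MP_67227b_nt.Ah

open Pool.Agent.Lib.ZetaCount_helper33 Pool.Agent.MP_67227b_nt Pool.Agent.MP_67227b_nt.Mo
open Pool.Agent.MP_67227b_nt.Sg Pool.Agent.MP_67227b_nt.Pp
open Pool.Agent.MP_67227b_nt.Mo.MomentBAux (DP)

/-- The facts on the box. `D` is zeta without its small primes, `A` the mollifier, in the normalised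
variable `w` (critical line `Re w = 0`, zeros at mean distance `2π`). -/
structure Facts (r c C θ R : ℝ) (D A : ℂ → ℂ) : Prop where
  dD : DifferentiableOn ℂ D {w | |w.re| ≤ r ^ 36 + 1 ∧ |w.im| ≤ 8 * r ^ 24}
  dA : Differentiable ℂ A
  ratio : ∀ w : ℂ, 1 / 2 ≤ w.re → w.re ≤ r ^ 36 + 1 → |w.im| ≤ 8 * r ^ 24 →
    D w ≠ 0 ∧ |Real.log ‖D w‖ - Real.log ‖D 1‖| ≤ r ^ 3
  small : Real.log ‖D 1‖ ≤ -(c * r ^ 6)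
  left : ∀ w : ℂ, -(2 * r ^ 4 + 1) ≤ w.re → w.re ≤ 1 → |w.im| ≤ 8 * r ^ 24 →
    ‖D w‖ ≤ Real.exp (|w.re| + C) * ‖D ((max |w.re| 1 : ℝ) + (w.im : ℂ) * I)‖
  per : ∀ w : ℂ, 1 ≤ w.re → w.re ≤ r ^ 36 → |w.im| ≤ 6 * r ^ 24 →
    ‖D (w + π * I) * A (w + π * I) - D w * A w‖ ≤ Real.exp (-r ^ 5)
  growA : ∀ s : ℝ, 0 ≤ s → (∀ η : ℝ, |η| ≤ 4 * r ^ 24 → ‖A (2 + (η : ℂ) * I)‖ ≤ s) →
    ∀ w : ℂ, -(2 * r ^ 4) ≤ w.re → w.re ≤ 1 → |w.im| ≤ 2 * r ^ 24 →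
      ‖A w‖ ≤ Real.exp (2 * (2 - w.re)) * (4 * r ^ 24 * s + 1)
  far : ∀ y : ℝ, |y| ≤ R + 4 →
    ‖D ((r : ℂ) ^ 36 + (y : ℂ) * I) * A ((r : ℂ) ^ 36 + (y : ℂ) * I) - 1‖ ≤ θ

/-- The coefficient `v(y)` of `e^{-2w}`, computed on the line `Re w = -r^4`. -/
noncomputable def vv (r : ℝ) (Q : ℂ → ℂ) (y₁ : ℝ) : ℂ :=
  1 / π * ∫ y in (y₁ - π / 2)..(y₁ + π / 2),
    Q (-((r : ℂ) ^ 4) + (y : ℂ) * I) * Complex.exp (2 * (-((r : ℂ) ^ 4) + (y : ℂ) * I))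

end Pool.Agent.MP_67227b_nt.Ah
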