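import Pool.Agent.MP_67227b_nt.Ah.AhDefs
import Pool.Agent.MP_67227b_nt.PairDefs67

set_option autoImplicit false

open Filter Topology Set MeasureTheory Complex
open scoped Real ArithmeticFunction ContDiff

namespace Pool.Agent.MP_67227b_nt.Ah

open Pool.Agent.Lib.ZetaCount_helper33 Pool.Agent.MP_67227b_nt Pool.Agent.MP_67227b_nt.Mo
open Pool.Agent.MP_67227b_nt.Sg Pool.Agent.MP_67227b_nt.Pp
open Pool.Agent.MP_67227b_nt.Mo.MomentBAux (DP)

/-- The assumption of the theorem: along `l` there are only `o(T log T)` pairs of distinct zeros up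
to height `T` with normalised difference in `[0, lam]`, for every `lam < 1/2`. -/
def NoSmall (l : Filter ℝ) : Prop :=
  ∀ lam : ℝ, lam < 1 / 2 →
    Tendsto (fun T : ℝ => (pairCount T 0 lam : ℝ) / zeroScale T) l (𝓝 0)

/-- MODULE HYPO. From the heights `T` to the dyadic windows. For `T' = T/2^i`: a pair in
`windowPairs T' (T'/2) lam` has both ordinates `≤ T` and
`(γ - γ') log T/(2π) ∈ [0, lam log T/log T'] ⊆ [0, lam']` for `lam < lam' < 1/2` and `T` large, so
`#windowPairs ≤ pairCount T 0 lam'` (the larger set is finite), and `zeroScale T/(T' log T')` is bounded.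
(For `lam < 0` the set is empty.) -/
theorem hyp_of {l : Filter ℝ} (hl : l ≤ atTop) (h : NoSmall l) (i : ℕ) :
    Hyp (map (fun T : ℝ => T / 2 ^ i) l) := by
  have h2 : ∀ T : ℝ, T / 2 ^ i = T * (1 / 2 ^ i) := fun T => by ring
  have h2p : (0 : ℝ) < 2 ^ i := by positivity
  have h2one : (1 : ℝ) ≤ 2 ^ i := one_le_pow₀ (by norm_num)
  have htend : Tendsto (fun T : ℝ => T / 2 ^ i) atTop atTop := tendsto_id.atTop_div_const h2p
  refine ⟨htend.mono_left hl, fun lam hlam => ?_⟩
  rw [tendsto_map'_iff]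
  -- the slightly larger constant
  obtain ⟨lam', hl1, hl2⟩ : ∃ lam' : ℝ, max lam 0 < lam' ∧ lam' < 1 / 2 :=
    exists_between (max_lt hlam (by norm_num))
  have hratio : Tendsto (fun T : ℝ => Real.log T / Real.log (T / 2 ^ i)) atTop (𝓝 1) := by
    have h3 : Tendsto (fun T : ℝ => 1 + Real.log (2 ^ i) / Real.log (T / 2 ^ i)) atTop
        (𝓝 (1 + 0)) :=
      tendsto_const_nhds.add (tendsto_const_nhds.div_atTop (Real.tendsto_log_atTop.comp htend))
    rw [add_zero] at h3
    refine h3.congr' ?_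
    filter_upwards [htend.eventually_gt_atTop 1, eventually_gt_atTop (0 : ℝ)] with T hT hT0
    have hL : 0 < Real.log (T / 2 ^ i) := Real.log_pos hT
    have h4 : Real.log T = Real.log (T / 2 ^ i) + Real.log (2 ^ i) := by
      rw [← Real.log_mul (by positivity) h2p.ne', div_mul_cancel₀ _ h2p.ne']
    rw [h4]
    field_simp
  have hr1 : ∀ᶠ T : ℝ in atTop, max lam 0 * (Real.log T / Real.log (T / 2 ^ i)) < lam' := by
    have h3 : Tendsto (fun T : ℝ => max lam 0 * (Real.log T / Real.log (T / 2 ^ i))) atTop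
        (𝓝 (max lam 0 * 1)) := hratio.const_mul _
    rw [mul_one] at h3
    exact h3.eventually (gt_mem_nhds hl1)
  have hr2 : ∀ᶠ T : ℝ in atTop, Real.log T / Real.log (T / 2 ^ i) < 2 :=
    hratio.eventually (gt_mem_nhds (by norm_num))
  have hz := (h lam' hl2).const_mul ((2 : ℝ) ^ i)
  rw [mul_zero] at hz
  refine squeeze_zero' ?_ ?_ hz
  · filter_upwards [hl (htend.eventually_gt_atTop 1)] with T hT
    have hL : 0 < Real.log (T / 2 ^ i) := Real.log_pos hT
    have hT0 : 0 < T / 2 ^ i := by linarith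
    simp only [Function.comp_apply]
    positivity
  · filter_upwards [hl (htend.eventually_gt_atTop 1), hl (eventually_gt_atTop (1 : ℝ)), hl hr1,
      hl hr2] with T hT hT1 hr1 hr2
    simp only [Function.comp_apply]
    have hL' : 0 < Real.log (T / 2 ^ i) := Real.log_pos hT
    have hL : 0 < Real.log T := Real.log_pos hT1
    have hT0 : 0 < T := by linarith
    have hle : T / 2 ^ i ≤ T := div_le_self hT0.le h2one
    have hcount : ((windowPairs (T / 2 ^ i) (T / 2 ^ i / 2) lam).ncard : ℝ) ≤
        (pairCount T 0 lam' : ℝ) := by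
      have hfin : {p : ZetaZeroIdx × ZetaZeroIdx | p.1 ≠ p.2 ∧ zetaOrdinate p.1 ≤ T ∧
          zetaOrdinate p.2 ≤ T ∧
          (zetaOrdinate p.1 - zetaOrdinate p.2) * (Real.log T / (2 * π)) ∈
            Set.Icc 0 lam'}.Finite := by
        refine ((goodFamily_zeta.fin T).prod (goodFamily_zeta.fin T)).subset ?_
        rintro p ⟨-, h3, h4, -⟩
        exact ⟨h3, h4⟩
      unfold pairCount
      refine Nat.cast_le.2 (Set.ncard_le_ncard ?_ hfin)
      rintro p ⟨h3, h4, h5, h6, h7⟩
      have hπ := Real.pi_pos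
      have h8 : (zetaOrdinate p.1 - zetaOrdinate p.2) * (Real.log T / (2 * π)) =
          (zetaOrdinate p.1 - zetaOrdinate p.2) * (Real.log (T / 2 ^ i) / (2 * π)) *
            (Real.log T / Real.log (T / 2 ^ i)) := by
        field_simp
      refine ⟨h3, h4.2.trans hle, h5.2.trans hle, ?_, ?_⟩
      · rw [h8]
        exact mul_nonneg h6 (by positivity)
      · rw [h8]
        refine le_trans ?_ hr1.le
        exact mul_le_mul_of_nonneg_right (h7.trans (le_max_left _ _)) (by positivity)
    have hsc : zeroScale T ≤ 2 ^ i * (T / 2 ^ i * Real.log (T / 2 ^ i)) := by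
      unfold zeroScale
      rw [div_lt_iff₀ hL'] at hr2
      have hπ : 2 ≤ 2 * π := by linarith [Real.pi_gt_three]
      have h3 : T / (2 * π) ≤ T / 2 := div_le_div_of_nonneg_left hT0.le (by norm_num) hπ
      calc T / (2 * π) * Real.log T ≤ T / 2 * Real.log T := by gcongr
        _ ≤ T / 2 * (2 * Real.log (T / 2 ^ i)) := by gcongr
        _ = 2 ^ i * (T / 2 ^ i * Real.log (T / 2 ^ i)) := by field_simp
    have hsc0 : 0 < zeroScale T := by
      unfold zeroScale
      have hπ := Real.pi_pos
      positivity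
    have hden : 0 < T / 2 ^ i * Real.log (T / 2 ^ i) := by positivity
    rw [div_le_iff₀ hden]
    calc ((windowPairs (T / 2 ^ i) (T / 2 ^ i / 2) lam).ncard : ℝ) ≤ (pairCount T 0 lam' : ℝ) :=
          hcount
      _ = (pairCount T 0 lam' : ℝ) / zeroScale T * zeroScale T := by
          rw [div_mul_cancel₀ _ hsc0.ne']
      _ ≤ (pairCount T 0 lam' : ℝ) / zeroScale T *
          (2 ^ i * (T / 2 ^ i * Real.log (T / 2 ^ i))) := by gcongr
      _ = _ := by ring

end Pool.Agent.MP_67227b_nt.Ah
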