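import Pool.Agent.MP_67227b_nt.Ah.AhDefs
import Pool.Agent.MP_67227b_nt.Pp.PpMk

set_option autoImplicit false

open Filter Topology Set MeasureTheory Complex
open scoped Real ArithmeticFunction ContDiff

namespace Pool.Agent.MP_67227b_nt.Ah

open Pool.Agent.Lib.ZetaCount_helper33 Pool.Agent.MP_67227b_nt Pool.Agent.MP_67227b_nt.Mo
open Pool.Agent.MP_67227b_nt.Sg Pool.Agent.MP_67227b_nt.Pp
open Pool.Agent.MP_67227b_nt.Mo.MomentBAux (DP)

private theorem card_near (hRH : RiemannHypothesis) {L r : ℝ} (hL : 0 < L) (hr : 0 ≤ r) (t : ℝ) :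
    {j : ZetaZeroIdx | |zetaOrdinate j - t| ≤ r}.Finite ∧
    ({j : ZetaZeroIdx | |zetaOrdinate j - t| ≤ r}.ncard : ℝ) ≤
      (1 + (L * r) ^ 2) * Mk L 1 t := by
  classical
  have hsub : {j : ZetaZeroIdx | |zetaOrdinate j - t| ≤ r} ⊆
      ((PT goodFamily_zeta (t + r) : Finset ZetaZeroIdx) : Set ZetaZeroIdx) := by
    intro j hj
    rw [Finset.mem_coe, mem_PT]
    have h0 : |zetaOrdinate j - t| ≤ r := hj
    have h1 := (abs_le.1 h0).2
    linarith
  refine ⟨(Finset.finite_toSet _).subset hsub, ?_⟩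
  have hset : {j : ZetaZeroIdx | |zetaOrdinate j - t| ≤ r} =
      (((PT goodFamily_zeta (t + r)).filter (fun j => |zetaOrdinate j - t| ≤ r) :
        Finset ZetaZeroIdx) : Set ZetaZeroIdx) := by
    ext j
    simp only [Set.mem_ofPred_eq, Finset.coe_filter]
    constructor
    · intro hj
      exact ⟨by simpa using hsub hj, hj⟩
    · intro hj
      exact hj.2
  rw [hset, Set.ncard_coe_finset, Finset.card_filter]
  push_cast
  have h1 := sum_PT_eq_real (t + r) (fun y => if |y - t| ≤ r then (1 : ℝ) else 0)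
  rw [h1]
  unfold Mk
  rw [← tsum_mul_left]
  have hnn : ∀ u : Zer, 0 ≤ mu u * (if 0 < ord u ∧ ord u ≤ t + r then
      (if |ord u - t| ≤ r then (1 : ℝ) else 0) else 0) := by
    intro u
    refine mul_nonneg (mu_nonneg u) ?_
    split_ifs <;> norm_num
  have hle : ∀ u : Zer, mu u * (if 0 < ord u ∧ ord u ≤ t + r then
      (if |ord u - t| ≤ r then (1 : ℝ) else 0) else 0) ≤
      (1 + (L * r) ^ 2) * (mu u / (1 + (L * (t - ord u) / 1) ^ 2)) := by
    intro u
    have hmu := mu_nonneg u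
    have hpos : 0 ≤ (1 + (L * r) ^ 2) * (mu u / (1 + (L * (t - ord u) / 1) ^ 2)) := by positivity
    split_ifs with h2 h3
    · have h4 : (L * (t - ord u) / 1) ^ 2 ≤ (L * r) ^ 2 := by
        rw [div_one, ← sq_abs (L * (t - ord u)), abs_mul, abs_of_pos hL]
        refine pow_le_pow_left₀ (by positivity) ?_ 2
        rw [abs_sub_comm] at h3
        exact mul_le_mul_of_nonneg_left h3 hL.le
      rw [mul_one, mul_div_assoc', le_div_iff₀ (by positivity)]
      nlinarith
    · rw [mul_zero]; exact hpos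
    · rw [mul_zero]; exact hpos
  have hs := (summable_Mk hRH hL one_pos t).mul_left (1 + (L * r) ^ 2)
  exact (Summable.of_nonneg_of_le hnn hle hs).tsum_le_tsum hle hs

/-- MODULE WIN. The number of indices in a window: finite (a subset of `PT goodFamily_zeta (t + R/L)`),
and `sum_PT_eq_real` (`Mo/Zeros.lean`) with the indicator of the window turns it into a sum of `mu` over
the zeros of `xi`; each weight in `Mk` is at least `1/(1 + R^2)` there (`summable_Mk`). -/
theorem card_window (hRH : RiemannHypothesis) {R T : ℝ} (hR : 0 ≤ R) (hT : 1 < T) (t : ℝ) :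
    {j : ZetaZeroIdx | |zetaOrdinate j - t| ≤ R / Real.log T}.Finite ∧
    ({j : ZetaZeroIdx | |zetaOrdinate j - t| ≤ R / Real.log T}.ncard : ℝ) ≤
      (1 + R ^ 2) * Mk (Real.log T) 1 t := by
  have hL : 0 < Real.log T := Real.log_pos hT
  have h := card_near hRH hL (div_nonneg hR hL.le) t
  have e : Real.log T * (R / Real.log T) = R := by field_simp
  rw [e] at h
  exact h

/-- MODULE NEAR. Few indices near a point: the number of indices with `|γ - S| ≤ 1` is at most
`2 ∑ mu/(1 + (S - ord)^2) ≤ C log T` (`Mo.exists_density`, `Mo/Zeros.lean`; `sum_PT_eq_real`), so the number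
of tuples is at most the `(m+1)`-st power. -/
theorem near_point (hRH : RiemannHypothesis) (m : ℕ) : ∃ C : ℝ, 0 < C ∧ ∀ᶠ T : ℝ in atTop,
    ∀ S : ℝ, 0 ≤ S → S ≤ T →
      {j : Fin (m + 1) → ZetaZeroIdx | ∀ i, |zetaOrdinate (j i) - S| ≤ 1}.Finite ∧
      ({j : Fin (m + 1) → ZetaZeroIdx | ∀ i, |zetaOrdinate (j i) - S| ≤ 1}.ncard : ℝ) ≤
        (C * Real.log T) ^ (m + 1) := by
  classical
  obtain ⟨C, hC, hd⟩ := exists_density hRH
  refine ⟨4 * C, by positivity, ?_⟩
  filter_upwards [eventually_ge_atTop (3 : ℝ)] with T hT S hS0 hST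
  have h := card_near hRH one_pos (zero_le_one) S
  set W : Set ZetaZeroIdx := {j : ZetaZeroIdx | |zetaOrdinate j - S| ≤ 1} with hW
  have hset : {j : Fin (m + 1) → ZetaZeroIdx | ∀ i, |zetaOrdinate (j i) - S| ≤ 1} =
      ((Fintype.piFinset (fun _ : Fin (m + 1) => h.1.toFinset) :
        Finset (Fin (m + 1) → ZetaZeroIdx)) : Set (Fin (m + 1) → ZetaZeroIdx)) := by
    ext j
    simp [hW]
  have hMk : Mk 1 1 S ≤ C * Real.log (|S| + 3) := by
    have h1 := hd S
    unfold Mk
    simpa using h1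
  have hlog : Real.log (|S| + 3) ≤ 2 * Real.log T := by
    rw [abs_of_nonneg hS0]
    have h5 : S + 3 ≤ T ^ 2 := by nlinarith
    calc Real.log (S + 3) ≤ Real.log (T ^ 2) := Real.log_le_log (by linarith) h5
      _ = 2 * Real.log T := by rw [Real.log_pow]; norm_num
  have hcard : (W.ncard : ℝ) ≤ 4 * C * Real.log T := by
    calc (W.ncard : ℝ) ≤ (1 + (1 * 1) ^ 2) * Mk 1 1 S := h.2
      _ = 2 * Mk 1 1 S := by norm_num
      _ ≤ 2 * (C * Real.log (|S| + 3)) := by linarith
      _ ≤ 2 * (C * (2 * Real.log T)) := by gcongr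
      _ = 4 * C * Real.log T := by ring
  refine ⟨?_, ?_⟩
  · rw [hset]
    exact Finset.finite_toSet _
  · rw [hset, Set.ncard_coe_finset, Fintype.card_piFinset]
    simp only [Finset.prod_const, Finset.card_univ, Fintype.card_fin]
    push_cast
    rw [← Set.ncard_eq_toFinset_card W h.1]
    exact pow_le_pow_left₀ (Nat.cast_nonneg _) hcard _

end Pool.Agent.MP_67227b_nt.Ah
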