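import Pool.Agent.MP_67227b_nt.Ah.AhCoset
import Pool.Agent.MP_67227b_nt.Ah.AhWin

set_option autoImplicit false

open Filter Topology Set MeasureTheory Complex
open scoped Real ArithmeticFunction ContDiff

namespace Pool.Agent.MP_67227b_nt.Ah

open Pool.Agent.Lib.ZetaCount_helper33 Pool.Agent.MP_67227b_nt Pool.Agent.MP_67227b_nt.Mo
open Pool.Agent.MP_67227b_nt.Sg Pool.Agent.MP_67227b_nt.Pp
open Pool.Agent.MP_67227b_nt.Mo.MomentBAux (DP)

namespace TupAux

/-- the zero of an index -/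
noncomputable def zr (j : ZetaZeroIdx) : Zer := ⟨j.1.1, (xi_eq_zero_iff j.2.2.1.ne').2 j.2.1⟩

lemma ord_zr (j : ZetaZeroIdx) : ord (zr j) = zetaOrdinate j := rfl

lemma gap {a b : ℝ} (hab : a ≤ b) (h : ∀ k : ℤ, (k : ℝ) / 2 ∉ Icc a b) :
    ∃ τ : ℝ, 0 < τ ∧ ∀ v ∈ Icc a b,
      τ < ‖Complex.exp (((-2 * (2 * π * v) : ℝ) : ℂ) * I) - 1‖ := by
  have hc : IsCompact (Icc a b) := isCompact_Icc
  have hcont : ContinuousOn (fun v : ℝ =>
      ‖Complex.exp (((-2 * (2 * π * v) : ℝ) : ℂ) * I) - 1‖) (Icc a b) := by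
    apply Continuous.continuousOn
    fun_prop
  obtain ⟨v₀, hv₀, hmin⟩ := hc.exists_isMinOn ⟨a, left_mem_Icc.2 hab⟩ hcont
  have hpos : 0 < ‖Complex.exp (((-2 * (2 * π * v₀) : ℝ) : ℂ) * I) - 1‖ := by
    rw [norm_pos_iff, sub_ne_zero]
    intro he
    rw [Complex.exp_eq_one_iff] at he
    obtain ⟨n, hn⟩ := he
    have h1 : (((-2 * (2 * π * v₀) : ℝ) : ℂ) * I).im = ((n : ℂ) * (2 * π * I)).im := by rw [hn]
    simp at h1
    have h2 : ((-n : ℤ) : ℝ) / 2 = v₀ := by
      push_cast
      have h3 : (2 * π) * (-2 * v₀) = (2 * π) * n := by linarith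
      have h4 := mul_left_cancel₀ (by positivity : (2 * π : ℝ) ≠ 0) h3
      linarith
    exact h (-n) (by rw [h2]; exact hv₀)
  refine ⟨‖Complex.exp (((-2 * (2 * π * v₀) : ℝ) : ℂ) * I) - 1‖ / 2, by linarith, ?_⟩
  intro v hv
  have := hmin hv
  simp only [mem_setOf_eq] at this
  linarith

lemma exp_diff (L t g g' v : ℝ) (h : L * (g - g') = 2 * π * v) :
    ‖Complex.exp (-2 * ((L * (g - t) : ℝ) : ℂ) * I) -
      Complex.exp (-2 * ((L * (g' - t) : ℝ) : ℂ) * I)‖ =
    ‖Complex.exp (((-2 * (2 * π * v) : ℝ) : ℂ) * I) - 1‖ := by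
  have e : Complex.exp (-2 * ((L * (g - t) : ℝ) : ℂ) * I) =
      Complex.exp (((-2 * (L * (g' - t)) : ℝ) : ℂ) * I) *
        Complex.exp (((-2 * (2 * π * v) : ℝ) : ℂ) * I) := by
    rw [← Complex.exp_add, ← h]
    congr 1
    push_cast
    ring
  have e2 : Complex.exp (-2 * ((L * (g' - t) : ℝ) : ℂ) * I) =
      Complex.exp (((-2 * (L * (g' - t)) : ℝ) : ℂ) * I) * 1 := by
    rw [mul_one]; congr 1; push_cast; ring
  rw [e, e2, ← mul_sub, norm_mul, Complex.norm_exp_ofReal_mul_I, one_mul]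

lemma len {T L g : ℝ} (hL : 0 < L) (hTL : 2 / L ≤ T / 2) (hg : g ∈ Icc (T / 2) T) :
    1 / L ≤ volume.real (Icc (T / 2) T ∩ Icc (g - 1 / L) (g + 1 / L)) := by
  have hL1 : 0 < 1 / L := by positivity
  have h2 : 2 / L = 1 / L + 1 / L := by ring
  have fin : volume (Icc (T / 2) T ∩ Icc (g - 1 / L) (g + 1 / L)) ≠ ⊤ :=
    ne_top_of_le_ne_top (by rw [Real.volume_Icc]; exact ENNReal.ofReal_ne_top)
      (measure_mono inter_subset_left)
  by_cases h : g + 1 / L ≤ T
  · have hs : Icc g (g + 1 / L) ⊆ Icc (T / 2) T ∩ Icc (g - 1 / L) (g + 1 / L) := by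
      intro y hy
      exact ⟨⟨hg.1.trans hy.1, hy.2.trans h⟩, ⟨by linarith [hy.1], hy.2⟩⟩
    have := measureReal_mono hs fin
    rw [Real.volume_real_Icc_of_le (by linarith)] at this
    linarith
  · have hs : Icc (g - 1 / L) g ⊆ Icc (T / 2) T ∩ Icc (g - 1 / L) (g + 1 / L) := by
      intro y hy
      exact ⟨⟨by linarith [hy.1], hy.2.trans hg.2⟩, ⟨hy.1, by linarith [hy.2]⟩⟩
    have := measureReal_mono hs fin
    rw [Real.volume_real_Icc_of_le (by linarith)] at this
    linarith

lemma amgm {F η : ℝ} (hη : 0 < η) : F ≤ 1 / (2 * η) + η / 2 * F ^ 2 := by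
  have h : 0 ≤ (1 - η * F) ^ 2 / (2 * η) := by positivity
  have e : (1 - η * F) ^ 2 / (2 * η) = 1 / (2 * η) + η / 2 * F ^ 2 - F := by
    field_simp
    ring
  linarith

end TupAux

/-- MODULE TUP. Few clusters contain a difference outside the half-integers. Trivial if `a > b`. The
function `v ↦ ‖exp (-4π i v) - 1‖` is positive on the compact `[a, b]`; let `2τ` be its minimum. Let `B` be
the exceptional set of `coset` for `R + 1`, `ε₁`, `τ` (take a measurable hull inside `[T/2, T]`). For a tuple `j`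
in the set, `t ∈ [T/2, T]` and `|t - γ_last| ≤ 1/L` imply `t ∈ B`: all ordinates are within `(R+1)/L` of `t`,
and `L (γ_x - γ_last) = 2π v`, `v ∈ [a, b]`. These `t` have measure at least `1/L`. So
`#tuples/L ≤ ∫_B #{tuples with all |γ_i - t| ≤ (R+1)/L} dt ≤ ∫_B ((1 + (R+1)²) Mk L 1 t)^{m+1} dt`
(`card_window`), at most `|B|^{1/2} (C T)^{1/2} ≤ (C ε₁)^{1/2} T` by Cauchy-Schwarz and `M1_mom`
(`q = 2(m+1)`). -/
theorem tuples_small (hRH : RiemannHypothesis) {l : Filter ℝ} (hl : Hyp l) {m : ℕ}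
    (x : Fin m) {R a b ε : ℝ} (hR : 0 < R) (hab : ∀ k : ℤ, (k : ℝ) / 2 ∉ Icc a b)
    (hε : 0 < ε) : ∀ᶠ T : ℝ in l,
      ({j : Fin (m + 1) → ZetaZeroIdx | (∀ i, zetaOrdinate (j i) ∈ Icc (T / 2) T) ∧
        (∀ i, |zetaOrdinate (j i) - zetaOrdinate (j (Fin.last m))| ≤ R / Real.log T) ∧
        (zetaOrdinate (j x.castSucc) - zetaOrdinate (j (Fin.last m))) *
          (Real.log T / (2 * π)) ∈ Icc a b}.ncard : ℝ) ≤ ε * (T * Real.log T) := by
  classical
  obtain ⟨hla, -⟩ := id hl
  -- the trivial case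
  rcases lt_or_ge b a with hba | hab'
  · have h1 : ∀ᶠ T : ℝ in l, 1 < T := hla (eventually_gt_atTop 1)
    filter_upwards [h1] with T hT
    have hL : 0 < Real.log T := Real.log_pos hT
    rw [Set.Icc_eq_empty (not_le.2 hba)]
    simp only [mem_empty_iff_false, and_false, setOf_false, ncard_empty, Nat.cast_zero]
    positivity
  obtain ⟨τ, hτ, hgap⟩ := TupAux.gap hab' hab
  obtain ⟨C, hC, hmom⟩ := M1_mom hRH (2 * (m + 1))
  set c : ℝ := 1 + (R + 1) ^ 2 with hc
  have hc0 : 0 < c := by positivity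
  set C' : ℝ := c ^ (2 * (m + 1)) * C with hC'
  have hC'0 : 0 < C' := by positivity
  set η : ℝ := ε / C' with hη
  have hη0 : 0 < η := by positivity
  have hco := coset hRH hl (R := R + 1) (ε := η * ε) (τ := τ) (by linarith) (by positivity) hτ
  have hTL : ∀ᶠ T : ℝ in atTop, 4 ≤ Real.log T := Real.tendsto_log_atTop.eventually_ge_atTop 4
  filter_upwards [hco, hla hmom, hla hTL, hla (eventually_ge_atTop (4 : ℝ))]
    with T hB hM hL4 hT4
  have hT0 : 0 < T := by linarith
  set L := Real.log T with hLdef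
  have hL0 : 0 < L := by linarith
  set S := {j : Fin (m + 1) → ZetaZeroIdx | (∀ i, zetaOrdinate (j i) ∈ Icc (T / 2) T) ∧
        (∀ i, |zetaOrdinate (j i) - zetaOrdinate (j (Fin.last m))| ≤ R / L) ∧
        (zetaOrdinate (j x.castSucc) - zetaOrdinate (j (Fin.last m))) *
          (L / (2 * π)) ∈ Icc a b} with hS
  set Bad := {t ∈ Icc (T / 2) T |
      ¬ ∀ z z' : Zer, |ord z - t| ≤ (R + 1) / L → |ord z' - t| ≤ (R + 1) / L →
        ‖Complex.exp (-2 * ((L * (ord z - t) : ℝ) : ℂ) * I) -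
          Complex.exp (-2 * ((L * (ord z' - t) : ℝ) : ℂ) * I)‖ ≤ τ} with hBad
  have Sfin : S.Finite := by
    have h1 : S ⊆ (Fintype.piFinset (fun _ : Fin (m + 1) => PT goodFamily_zeta T) :
        Finset (Fin (m + 1) → ZetaZeroIdx)) := by
      intro j hj
      rw [Finset.mem_coe, Fintype.mem_piFinset]
      exact fun i => (mem_PT _ _ _).2 (hj.1 i).2
    exact (Finset.finite_toSet _).subset h1
  set SF := Sfin.toFinset with hSF
  have hSc : S.ncard = SF.card := Set.ncard_eq_toFinset_card S Sfin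
  have hmemSF : ∀ j, j ∈ SF ↔ j ∈ S := fun j => Sfin.mem_toFinset
  have hw : ∀ j ∈ S, ∀ t, |t - zetaOrdinate (j (Fin.last m))| ≤ 1 / L →
      ∀ i, |zetaOrdinate (j i) - t| ≤ (R + 1) / L := by
    intro j hj t ht i
    have h1 := hj.2.1 i
    rw [abs_sub_comm] at ht
    calc |zetaOrdinate (j i) - t| = |(zetaOrdinate (j i) - zetaOrdinate (j (Fin.last m))) +
          (zetaOrdinate (j (Fin.last m)) - t)| := by ring_nf
      _ ≤ _ := abs_add_le _ _
      _ ≤ R / L + 1 / L := add_le_add h1 ht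
      _ = (R + 1) / L := by ring
  have hbad : ∀ j ∈ S, ∀ t ∈ Icc (T / 2) T, |t - zetaOrdinate (j (Fin.last m))| ≤ 1 / L →
      t ∈ Bad := by
    intro j hj t htm ht
    refine ⟨htm, fun H => ?_⟩
    have h1 := H (TupAux.zr (j x.castSucc)) (TupAux.zr (j (Fin.last m)))
      (hw j hj t ht _) (hw j hj t ht _)
    rw [TupAux.ord_zr, TupAux.ord_zr, TupAux.exp_diff L t _ _
      ((zetaOrdinate (j x.castSucc) - zetaOrdinate (j (Fin.last m))) * (L / (2 * π)))
      (by field_simp)] at h1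
    exact absurd (hgap _ hj.2.2) (not_lt.2 h1)
  set u : (Fin (m + 1) → ZetaZeroIdx) → ℝ → ℝ := fun j =>
    (Icc (zetaOrdinate (j (Fin.last m)) - 1 / L)
      (zetaOrdinate (j (Fin.last m)) + 1 / L)).indicator (fun _ => (1 : ℝ)) with hu
  have u_one : ∀ j t, |t - zetaOrdinate (j (Fin.last m))| ≤ 1 / L → u j t = 1 := by
    intro j t ht
    have : t ∈ Icc (zetaOrdinate (j (Fin.last m)) - 1 / L)
      (zetaOrdinate (j (Fin.last m)) + 1 / L) := by
      rw [abs_le] at ht; constructor <;> linarith [ht.1, ht.2]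
    simp only [hu, indicator_of_mem this]
  have u_zero : ∀ j t, ¬ |t - zetaOrdinate (j (Fin.last m))| ≤ 1 / L → u j t = 0 := by
    intro j t ht
    have : t ∉ Icc (zetaOrdinate (j (Fin.last m)) - 1 / L)
      (zetaOrdinate (j (Fin.last m)) + 1 / L) := by
      intro h; apply ht; rw [abs_le]; constructor <;> linarith [h.1, h.2]
    simp only [hu, indicator_of_notMem this]
  set F : ℝ → ℝ := fun t => (c * Mk L 1 t) ^ (m + 1) with hF
  have F0 : ∀ t, 0 ≤ F t := fun t => by
    have := Mk_nonneg L 1 t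
    simp only [hF]
    positivity
  -- the number of tuples seen from t
  have hnum : ∀ t, ∑ j ∈ SF, u j t ≤ F t := by
    intro t
    obtain ⟨wfin, wle⟩ := card_window hRH (R := R + 1) (T := T) (by linarith) (by linarith) t
    set W := {j : ZetaZeroIdx | |zetaOrdinate j - t| ≤ (R + 1) / Real.log T} with hW
    have h1 : ∑ j ∈ SF, u j t =
        ((SF.filter (fun j => |t - zetaOrdinate (j (Fin.last m))| ≤ 1 / L)).card : ℝ) := by
      rw [Finset.card_filter]
      push_cast
      apply Finset.sum_congr rfl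
      intro j _
      split_ifs with h
      · exact u_one j t h
      · exact u_zero j t h
    have h2 : (SF.filter (fun j => |t - zetaOrdinate (j (Fin.last m))| ≤ 1 / L)).card ≤
        W.ncard ^ (m + 1) := by
      have h3 : SF.filter (fun j => |t - zetaOrdinate (j (Fin.last m))| ≤ 1 / L) ⊆
          Fintype.piFinset (fun _ : Fin (m + 1) => wfin.toFinset) := by
        intro j hj
        rw [Finset.mem_filter] at hj
        rw [Fintype.mem_piFinset]
        intro i
        rw [wfin.mem_toFinset]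
        exact hw j ((hmemSF j).1 hj.1) t hj.2 i
      refine (Finset.card_le_card h3).trans ?_
      rw [Fintype.card_piFinset_const, Set.ncard_eq_toFinset_card W wfin]
    rw [h1]
    calc ((SF.filter (fun j => |t - zetaOrdinate (j (Fin.last m))| ≤ 1 / L)).card : ℝ)
        ≤ ((W.ncard ^ (m + 1) : ℕ) : ℝ) := by exact_mod_cast h2
      _ = (W.ncard : ℝ) ^ (m + 1) := by push_cast; ring
      _ ≤ F t := by
        simp only [hF]
        exact pow_le_pow_left₀ (Nat.cast_nonneg _) wle _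
  set B := toMeasurable volume Bad with hBdef
  have Bmeas : MeasurableSet B := measurableSet_toMeasurable _ _
  have BadB : Bad ⊆ B := subset_toMeasurable _ _
  have hpt : ∀ t ∈ Icc (T / 2) T, ∑ j ∈ SF, u j t ≤
      B.indicator (fun _ => 1 / (2 * η)) t + η / 2 * F t ^ 2 := by
    intro t ht
    by_cases hex : ∃ j ∈ SF, |t - zetaOrdinate (j (Fin.last m))| ≤ 1 / L
    · obtain ⟨j, hj, hjt⟩ := hex
      have hb : t ∈ B := BadB (hbad j ((hmemSF j).1 hj) t ht hjt)
      rw [indicator_of_mem hb]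
      exact (hnum t).trans (TupAux.amgm hη0)
    · push Not at hex
      have h0 : ∑ j ∈ SF, u j t = 0 :=
        Finset.sum_eq_zero fun j hj => u_zero j t (not_le.2 (hex j hj))
      rw [h0]
      have h1 : 0 ≤ B.indicator (fun _ => 1 / (2 * η)) t :=
        indicator_nonneg (fun _ _ => by positivity) _
      have h2 := F0 t
      positivity
  have Mc : Continuous (Mk L 1) := continuous_Mk hRH hL0 one_pos
  have Fc : Continuous F := (continuous_const.mul Mc).pow _
  have i1 : IntegrableOn (fun t => ∑ j ∈ SF, u j t) (Icc (T / 2) T) := by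
    apply integrable_finset_sum
    intro j _
    exact (integrableOn_const (by rw [Real.volume_Icc]; exact ENNReal.ofReal_ne_top)
      (by simp)).indicator measurableSet_Icc
  have i2 : IntegrableOn (B.indicator (fun _ => 1 / (2 * η))) (Icc (T / 2) T) :=
    (integrableOn_const (by rw [Real.volume_Icc]; exact ENNReal.ofReal_ne_top)
      enorm_ne_top).indicator Bmeas
  have i3 : IntegrableOn (fun t => η / 2 * F t ^ 2) (Icc (T / 2) T) :=
    (continuous_const.mul (Fc.pow 2)).integrableOn_Icc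
  have hint : (∫ t in Icc (T / 2) T, ∑ j ∈ SF, u j t) ≤ ∫ t in Icc (T / 2) T,
      (B.indicator (fun _ => 1 / (2 * η)) t + η / 2 * F t ^ 2) :=
    setIntegral_mono_on i1 (i2.add i3) measurableSet_Icc hpt
  have lower : (SF.card : ℝ) * (1 / L) ≤ ∫ t in Icc (T / 2) T, ∑ j ∈ SF, u j t := by
    rw [integral_finset_sum]
    · rw [← nsmul_eq_mul]
      apply Finset.card_nsmul_le_sum
      intro j hj
      simp only [hu]
      rw [setIntegral_indicator measurableSet_Icc, setIntegral_const, smul_eq_mul, mul_one]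
      refine TupAux.len hL0 ?_ ((((hmemSF j).1 hj).1) _)
      rw [div_le_div_iff₀ hL0 (by norm_num)]
      nlinarith
    · intro j _
      exact (integrableOn_const (by rw [Real.volume_Icc]; exact ENNReal.ofReal_ne_top)
        (by simp)).indicator measurableSet_Icc
  have up1 : ∫ t in Icc (T / 2) T, B.indicator (fun _ => 1 / (2 * η)) t ≤
      1 / (2 * η) * (η * ε * T) := by
    rw [setIntegral_indicator Bmeas, setIntegral_const, smul_eq_mul, mul_comm]
    refine mul_le_mul_of_nonneg_left ?_ (by positivity)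
    have hBfin : volume B ≠ ⊤ := by
      rw [hBdef, measure_toMeasurable]
      exact ne_top_of_le_ne_top (by rw [Real.volume_Icc]; exact ENNReal.ofReal_ne_top)
        (measure_mono (fun t ht => ht.1 : Bad ⊆ Icc (T / 2) T))
    calc volume.real (Icc (T / 2) T ∩ B) ≤ volume.real B :=
          measureReal_mono inter_subset_right hBfin
      _ = volume.real Bad := by
          unfold Measure.real
          rw [hBdef, measure_toMeasurable]
      _ ≤ η * ε * T := hB
  have up2 : ∫ t in Icc (T / 2) T, η / 2 * F t ^ 2 ≤ η / 2 * (C' * T) := by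
    rw [integral_const_mul]
    refine mul_le_mul_of_nonneg_left ?_ (by positivity)
    have e1 : ∀ t, F t ^ 2 = c ^ (2 * (m + 1)) * Mk L 1 t ^ (2 * (m + 1)) := by
      intro t
      simp only [hF]
      rw [← pow_mul, mul_pow, mul_comm (m + 1) 2]
    simp only [e1]
    rw [integral_const_mul, hC', mul_assoc]
    refine mul_le_mul_of_nonneg_left ?_ (by positivity)
    refine le_trans ?_ hM
    rw [intervalIntegral.integral_of_le (by linarith), ← integral_Icc_eq_integral_Ioc]
    refine setIntegral_mono_set ((Mc.pow _).integrableOn_Icc) ?_ ?_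
    · exact Eventually.of_forall fun t => pow_nonneg (Mk_nonneg L 1 t) _
    · exact HasSubset.Subset.eventuallyLE (Icc_subset_Icc_right (by linarith))
  have h3 : ∫ t in Icc (T / 2) T, (B.indicator (fun _ => 1 / (2 * η)) t + η / 2 * F t ^ 2) =
      (∫ t in Icc (T / 2) T, B.indicator (fun _ => 1 / (2 * η)) t) +
        ∫ t in Icc (T / 2) T, η / 2 * F t ^ 2 := integral_add i2 i3
  have h4 : (SF.card : ℝ) * (1 / L) ≤ 1 / (2 * η) * (η * ε * T) + η / 2 * (C' * T) := by
    refine lower.trans (hint.trans ?_)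
    rw [h3]
    exact add_le_add up1 up2
  have h5 : 1 / (2 * η) * (η * ε * T) + η / 2 * (C' * T) = ε * T := by
    have : η * C' = ε := by rw [hη]; field_simp
    calc 1 / (2 * η) * (η * ε * T) + η / 2 * (C' * T) = ε * T / 2 + (η * C') * T / 2 := by
          field_simp
      _ = ε * T := by rw [this]; ring
  rw [h5] at h4
  rw [hSc]
  have h6 : (SF.card : ℝ) = (SF.card : ℝ) * (1 / L) * L := by field_simp
  rw [h6]
  calc (SF.card : ℝ) * (1 / L) * L ≤ ε * T * L := by gcongr
    _ = ε * (T * L) := by ring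

end Pool.Agent.MP_67227b_nt.Ah
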