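import Pool.Agent.MP_67227b_nt.Ah.AhCell
import Pool.Agent.MP_67227b_nt.Ah.AhHypo
import Pool.Agent.MP_67227b_nt.Ah.AhTup

set_option autoImplicit false

open Filter Topology Set MeasureTheory Complex
open scoped Real ArithmeticFunction ContDiff

namespace Pool.Agent.MP_67227b_nt.Ah

open Pool.Agent.Lib.ZetaCount_helper33 Pool.Agent.MP_67227b_nt Pool.Agent.MP_67227b_nt.Mo
open Pool.Agent.MP_67227b_nt.Sg Pool.Agent.MP_67227b_nt.Pp
open Pool.Agent.MP_67227b_nt.Mo.MomentBAux (DP)

namespace LevAux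

/-- the classification -/
lemma classify {m : ℕ} {g : Fin (m + 1) → ℝ} {T : ℝ} (hT : ∀ i, g i ≤ T) (n : ℕ) :
    (∃ i < n, ∀ k, g k ∈ Icc (T / 2 ^ (i + 1)) (T / 2 ^ i)) ∨
    (∃ i < n, ∃ k k', g k ≤ T / 2 ^ (i + 1) ∧ T / 2 ^ (i + 1) ≤ g k') ∨
    (∀ k, g k ≤ T / 2 ^ n) := by
  induction n with
  | zero => right; right; simpa using hT
  | succ n ih =>
    rcases ih with ⟨i, hi, h⟩ | ⟨i, hi, h⟩ | h
    · left; exact ⟨i, by omega, h⟩
    · right; left; exact ⟨i, by omega, h⟩
    · by_cases h1 : ∀ k, T / 2 ^ (n + 1) ≤ g k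
      · left; exact ⟨n, by omega, fun k => ⟨h1 k, h k⟩⟩
      · push Not at h1
        obtain ⟨k, hk⟩ := h1
        by_cases h2 : ∀ k', g k' ≤ T / 2 ^ (n + 1)
        · right; right; exact h2
        · push Not at h2
          obtain ⟨k', hk'⟩ := h2
          right; left; exact ⟨n, by omega, k, k', hk.le, hk'.le⟩

lemma enlarge {a b : ℝ} (hab : a ≤ b) (h : ∀ k : ℤ, (k : ℝ) / 2 ∉ Icc a b) :
    ∃ η : ℝ, 0 < η ∧ ∀ k : ℤ, (k : ℝ) / 2 ∉ Icc (a - η) (b + η) := by
  have h1 : ((⌊2 * a⌋ : ℤ) : ℝ) ≤ 2 * a := Int.floor_le _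
  have h2 : 2 * a < (⌊2 * a⌋ : ℤ) + 1 := Int.lt_floor_add_one _
  set k₀ := ⌊2 * a⌋ with hk
  have h3 : (k₀ : ℝ) / 2 < a := by
    rcases lt_or_ge ((k₀ : ℝ) / 2) a with h4 | h4
    · exact h4
    · exact absurd ⟨h4, by linarith⟩ (h k₀)
  have h5 : b < ((k₀ : ℝ) + 1) / 2 := by
    rcases lt_or_ge b (((k₀ : ℝ) + 1) / 2) with h4 | h4
    · exact h4
    · refine absurd ?_ (h (k₀ + 1))
      push_cast
      exact ⟨by linarith, h4⟩
  refine ⟨min (a - k₀ / 2) ((k₀ + 1) / 2 - b) / 2, ?_, ?_⟩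
  · have := lt_min (sub_pos.2 h3) (sub_pos.2 h5)
    linarith
  · intro k hk'
    have m1 := min_le_left (a - k₀ / 2) (((k₀ : ℝ) + 1) / 2 - b)
    have m2 := min_le_right (a - k₀ / 2) (((k₀ : ℝ) + 1) / 2 - b)
    have m3 := lt_min (sub_pos.2 h3) (sub_pos.2 h5)
    have c1 : (k₀ : ℝ) < k := by linarith [hk'.1]
    have c2 : (k : ℝ) < k₀ + 1 := by linarith [hk'.2]
    have d1 : k₀ < k := by exact_mod_cast c1
    have d2 : k < k₀ + 1 := by exact_mod_cast c2
    omega

lemma ncard_biUnion {α : Type*} (B : ℕ → Set α) (n : ℕ) :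
    (⋃ i ∈ Finset.range n, B i).ncard ≤ ∑ i ∈ Finset.range n, (B i).ncard := by
  induction n with
  | zero => simp
  | succ n ih =>
    rw [Finset.range_add_one, Finset.set_biUnion_insert, Finset.sum_insert (by simp)]
    exact (Set.ncard_union_le _ _).trans (Nat.add_le_add_left ih _)

lemma fin_idx {m : ℕ} (T : ℝ) {S : Set (Fin (m + 1) → ZetaZeroIdx)}
    (h : ∀ j ∈ S, ∀ i, zetaOrdinate (j i) ≤ T) : S.Finite := by
  classical
  have h1 : S ⊆ (Fintype.piFinset (fun _ : Fin (m + 1) => PT goodFamily_zeta T) :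
      Finset (Fin (m + 1) → ZetaZeroIdx)) := by
    intro j hj
    rw [Finset.mem_coe, Fintype.mem_piFinset]
    exact fun i => (mem_PT _ _ _).2 (h j hj i)
  exact (Finset.finite_toSet _).subset h1

end LevAux

/-- MODULE LEV. All levels. Put `B = max_i (|a i| + |b i|) + 1`, and choose `η > 0` such that
`[a x - η, b x + η]` contains no `k/2`. Given `ε`, choose `I` with `C 2^{-I} ≤ ε`. Let `T` be large. A tuple
counted by `tupleCount` at `T`, with largest ordinate `G`:
(i) `G ≤ T/2^I =: Y`: counted in `tuples_le` at `Y` with `R = 4πB` (`|γ_i - γ_last| ≤ 2πB/log T ≤ R/log Y`);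
(ii) `T' /2 < G ≤ T'`, `T' = T/2^i`, `i < I`, and all ordinates are `≥ T'/2`: counted in `tuples_small` at `T'`
(filter `map (· / 2^i) l`, `hyp_of`) with `[a x - η, b x + η]`, as `v log T'/log T` is within `η` of `v`;
(iii) the same `G` and some ordinate `< T'/2`: all ordinates are within `1` of `S = T'/2`, counted in
`near_point`. -/
theorem level_small (hRH : RiemannHypothesis) {l : Filter ℝ} (hl : l ≤ atTop) (h : NoSmall l)
    {m : ℕ} {a b : Fin m → ℝ} (x : Fin m) (hx : ∀ k : ℤ, (k : ℝ) / 2 ∉ Icc (a x) (b x)) :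
    Tendsto (fun T : ℝ => (tupleCount zetaOrdinate m T a b : ℝ) / zeroScale T) l (𝓝 0) := by
  classical
  -- the trivial case
  rcases lt_or_ge (b x) (a x) with hba | hab
  · have h0 : ∀ T : ℝ, (tupleCount zetaOrdinate m T a b : ℝ) / zeroScale T = 0 := by
      intro T
      have : {j : Fin (m + 1) → ZetaZeroIdx | Function.Injective j ∧
          (∀ i, zetaOrdinate (j i) ≤ T) ∧
          ∀ i : Fin m, (zetaOrdinate (j i.castSucc) - zetaOrdinate (j (Fin.last m))) *
            (Real.log T / (2 * π)) ∈ Set.Icc (a i) (b i)} = ∅ := by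
        apply Set.eq_empty_of_forall_notMem
        rintro j ⟨-, -, h3⟩
        have := h3 x
        exact absurd (this.1.trans this.2) (not_le.2 hba)
      unfold tupleCount
      rw [this, ncard_empty]
      simp
    simp only [h0]
    exact tendsto_const_nhds
  obtain ⟨η, hη, hηx⟩ := LevAux.enlarge hab hx
  set B : ℝ := 1 + ∑ i, (|a i| + |b i|) with hB
  have hB1 : 1 ≤ B := by
    have : 0 ≤ ∑ i, (|a i| + |b i|) := Finset.sum_nonneg fun i _ => by positivity
    linarith
  have hBi : ∀ i, |a i| + |b i| ≤ B := by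
    intro i
    have := Finset.single_le_sum (f := fun i => |a i| + |b i|) (fun i _ => by positivity)
      (Finset.mem_univ i)
    linarith
  have hR : 0 < 2 * π * B := by positivity
  obtain ⟨C, hC, hCY⟩ := tuples_le hRH m hR
  obtain ⟨C₂, hC₂, hnear⟩ := near_point hRH m
  rw [tendsto_order]
  refine ⟨fun c hc => ?_, fun ε hε => ?_⟩
  · filter_upwards [hl (eventually_gt_atTop (1 : ℝ))] with T hT
    have := zeroScale_pos hT
    exact hc.trans_le (by positivity)
  obtain ⟨I, hI⟩ := pow_unbounded_of_one_lt (8 * π * C / ε) (one_lt_two (α := ℝ))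
  set ε₁ : ℝ := ε / (8 * π * (I + 1)) with hε₁
  have hε₁0 : 0 < ε₁ := by positivity
  have hcT : 0 < ε / (8 * π * ((I + 1) * C₂ ^ (m + 1))) := by positivity
  have ev1 : ∀ᶠ T : ℝ in l, _ := hl
    ((tendsto_id.atTop_div_const (show (0 : ℝ) < 2 ^ I by positivity)).eventually hCY)
  have ev2 : ∀ᶠ T : ℝ in l, ∀ i ∈ Finset.range I, _ :=
    (Filter.eventually_all_finset (Finset.range I)).2 fun i _ =>
      eventually_map.1 (tuples_small hRH (hyp_of hl h i) x hR hηx hε₁0)
  have ev3 : ∀ᶠ T : ℝ in l, _ := hl hnear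
  have ev4 : ∀ᶠ T : ℝ in l, 2 ^ (I + 1) ≤ T := hl (eventually_ge_atTop _)
  have ev5 : ∀ᶠ T : ℝ in l, 1 + 4 * π * B + B * I / η ≤ Real.log T :=
    hl (Real.tendsto_log_atTop.eventually_ge_atTop _)
  have ev6 : ∀ᶠ T : ℝ in l, ‖Real.log T ^ (m + 1)‖ ≤
      ε / (8 * π * ((I + 1) * C₂ ^ (m + 1))) * ‖T‖ :=
    hl ((Real.isLittleO_pow_log_id_atTop (n := m + 1)).def hcT)
  filter_upwards [ev1, ev2, ev3, ev4, ev5, ev6] with T h1 h2 h3 h4 h5 h6
  have hT2 : 2 ≤ T := by
    have : (2 : ℝ) ≤ 2 ^ (I + 1) := by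
      rw [pow_succ]
      have : (1 : ℝ) ≤ 2 ^ I := one_le_pow₀ (by norm_num)
      linarith
    linarith
  have hT0 : 0 < T := by linarith
  set L := Real.log T with hLdef
  have hBI : 0 ≤ B * I / η := by positivity
  have hπB : 0 < 4 * π * B := by positivity
  have hL1 : 1 ≤ L := by linarith
  have hL0 : 0 < L := by linarith
  -- the logarithms of the smaller heights
  have hpos : ∀ i, i ≤ I → 1 < T / 2 ^ i := by
    intro i hi
    rw [lt_div_iff₀ (by positivity), one_mul]
    have h7 : (2 : ℝ) ^ i ≤ 2 ^ I := pow_le_pow_right₀ (by norm_num) hi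
    have h8 : (2 : ℝ) ^ I < 2 ^ (I + 1) := pow_lt_pow_right₀ (by norm_num) (by omega)
    linarith
  have hle : ∀ i : ℕ, T / 2 ^ i ≤ T := fun i =>
    div_le_self hT0.le (one_le_pow₀ (by norm_num))
  have hlog : ∀ i : ℕ, Real.log (T / 2 ^ i) = L - i * Real.log 2 := by
    intro i
    rw [Real.log_div hT0.ne' (by positivity), Real.log_pow]
  have hlogle : ∀ i : ℕ, Real.log (T / 2 ^ i) ≤ L := fun i =>
    Real.log_le_log (by positivity) (hle i)
  have hlog0 : ∀ i, i ≤ I → 0 < Real.log (T / 2 ^ i) := fun i hi => Real.log_pos (hpos i hi)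
  set S : Set (Fin (m + 1) → ZetaZeroIdx) := {j | Function.Injective j ∧
      (∀ i, zetaOrdinate (j i) ≤ T) ∧
      ∀ i : Fin m, (zetaOrdinate (j i.castSucc) - zetaOrdinate (j (Fin.last m))) *
        (L / (2 * π)) ∈ Set.Icc (a i) (b i)} with hS
  have hScount : tupleCount zetaOrdinate m T a b = S.ncard := rfl
  have habs : ∀ j ∈ S, ∀ i : Fin m,
      |(zetaOrdinate (j i.castSucc) - zetaOrdinate (j (Fin.last m))) * (L / (2 * π))| ≤ B := by
    rintro j ⟨-, -, j3⟩ i
    have h7 := j3 i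
    refine le_trans ?_ (hBi i)
    rw [abs_le]
    constructor
    · linarith [neg_abs_le (a i), abs_nonneg (b i), h7.1]
    · linarith [le_abs_self (b i), abs_nonneg (a i), h7.2]
  have hdist : ∀ j ∈ S, ∀ i,
      |zetaOrdinate (j i) - zetaOrdinate (j (Fin.last m))| ≤ 2 * π * B / L := by
    intro j hj i
    refine Fin.lastCases ?_ (fun i => ?_) i
    · rw [sub_self, abs_zero]; positivity
    · have h7 := habs j hj i
      rw [abs_mul, abs_of_pos (by positivity : 0 < L / (2 * π))] at h7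
      rw [le_div_iff₀ hL0]
      have h8 : |zetaOrdinate (j i.castSucc) - zetaOrdinate (j (Fin.last m))| * L =
          2 * π * (|zetaOrdinate (j i.castSucc) - zetaOrdinate (j (Fin.last m))| *
            (L / (2 * π))) := by
        field_simp
      rw [h8]
      gcongr
  have hdist' : ∀ i, i ≤ I → 2 * π * B / L ≤ 2 * π * B / Real.log (T / 2 ^ i) := fun i hi =>
    div_le_div_of_nonneg_left hR.le (hlog0 i hi) (hlogle i)
  -- the three types of sets
  set A : Set (Fin (m + 1) → ZetaZeroIdx) := {j | (∀ i, zetaOrdinate (j i) ≤ T / 2 ^ I) ∧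
      ∀ i, |zetaOrdinate (j i) - zetaOrdinate (j (Fin.last m))| ≤
        2 * π * B / Real.log (T / 2 ^ I)} with hA
  set P : ℕ → Set (Fin (m + 1) → ZetaZeroIdx) := fun n =>
    {j | (∀ i, zetaOrdinate (j i) ∈ Icc (T / 2 ^ n / 2) (T / 2 ^ n)) ∧
      (∀ i, |zetaOrdinate (j i) - zetaOrdinate (j (Fin.last m))| ≤
        2 * π * B / Real.log (T / 2 ^ n)) ∧
      (zetaOrdinate (j x.castSucc) - zetaOrdinate (j (Fin.last m))) *
        (Real.log (T / 2 ^ n) / (2 * π)) ∈ Icc (a x - η) (b x + η)} with hP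
  set D : ℕ → Set (Fin (m + 1) → ZetaZeroIdx) := fun n =>
    {j | ∀ i, |zetaOrdinate (j i) - T / 2 ^ (n + 1)| ≤ 1} with hD
  have hsub : S ⊆ A ∪ ((⋃ i ∈ Finset.range I, P i) ∪ ⋃ i ∈ Finset.range I, D i) := by
    intro j hj
    have hj' := hj
    obtain ⟨j1, j2, j3⟩ := hj'
    rcases LevAux.classify j2 I with ⟨n, hn, hc⟩ | ⟨n, hn, k, k', hk, hk'⟩ | hc
    · right; left
      rw [Set.mem_iUnion₂]
      refine ⟨n, Finset.mem_range.2 hn, ?_, ?_, ?_⟩
      · intro i
        have := hc i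
        rw [pow_succ, ← div_div] at this
        exact this
      · exact fun i => (hdist j hj i).trans (hdist' n hn.le)
      · set v := (zetaOrdinate (j x.castSucc) - zetaOrdinate (j (Fin.last m))) *
          (L / (2 * π)) with hv
        have hv1 : v ∈ Icc (a x) (b x) := j3 x
        have hvB : |v| ≤ B := habs j hj x
        have e : (zetaOrdinate (j x.castSucc) - zetaOrdinate (j (Fin.last m))) *
            (Real.log (T / 2 ^ n) / (2 * π)) = v - v * (n * Real.log 2 / L) := by
          rw [hlog n, hv]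
          field_simp
        have h7 : |v * (n * Real.log 2 / L)| ≤ η := by
          have h8 : (0 : ℝ) ≤ n * Real.log 2 / L := by
            have := Real.log_nonneg (one_le_two (α := ℝ))
            positivity
          rw [abs_mul, abs_of_nonneg h8]
          have h9 : (n : ℝ) * Real.log 2 ≤ I := by
            have l2 : Real.log 2 ≤ 1 := by
              have := Real.log_two_lt_d9
              linarith
            have l3 : (n : ℝ) ≤ I := by exact_mod_cast hn.le
            have l4 := Real.log_nonneg (one_le_two (α := ℝ))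
            calc (n : ℝ) * Real.log 2 ≤ (I : ℝ) * 1 := by gcongr
              _ = I := mul_one _
          calc |v| * (n * Real.log 2 / L) ≤ B * (I / L) := by gcongr
            _ ≤ η := by
              have h10 : B * I / η ≤ L := by linarith
              rw [div_le_iff₀ hη] at h10
              rw [← mul_div_assoc, div_le_iff₀ hL0]
              linarith
        rw [e]
        have h11 := abs_le.1 h7
        constructor <;> linarith [hv1.1, hv1.2, h11.1, h11.2]
    · right; right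
      rw [Set.mem_iUnion₂]
      refine ⟨n, Finset.mem_range.2 hn, ?_⟩
      have hd1 : 2 * π * B / L + 2 * π * B / L ≤ 1 := by
        rw [← add_div, div_le_one hL0]
        linarith
      have hd2 : ∀ i i', |zetaOrdinate (j i) - zetaOrdinate (j i')| ≤ 1 := by
        intro i i'
        have q1 := hdist j hj i
        have q2 := hdist j hj i'
        rw [abs_sub_comm] at q2
        calc |zetaOrdinate (j i) - zetaOrdinate (j i')| =
            |(zetaOrdinate (j i) - zetaOrdinate (j (Fin.last m))) +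
              (zetaOrdinate (j (Fin.last m)) - zetaOrdinate (j i'))| := by ring_nf
          _ ≤ _ := abs_add_le _ _
          _ ≤ 1 := by linarith
      intro i
      have q3 := abs_le.1 (hd2 i k)
      have q4 := abs_le.1 (hd2 i k')
      rw [abs_le]
      constructor <;> linarith [q3.1, q3.2, q4.1, q4.2]
    · left
      exact ⟨hc, fun i => (hdist j hj i).trans (hdist' I le_rfl)⟩
  have hAf : A.Finite := h1.1
  have hPf : ∀ n, (P n).Finite := fun n =>
    LevAux.fin_idx (T / 2 ^ n) fun j hj i => (hj.1 i).2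
  have hDn : ∀ n : ℕ, (D n).Finite ∧ ((D n).ncard : ℝ) ≤ (C₂ * L) ^ (m + 1) := fun n =>
    h3 (T / 2 ^ (n + 1)) (by positivity) (hle _)
  have hUf : (A ∪ ((⋃ i ∈ Finset.range I, P i) ∪ ⋃ i ∈ Finset.range I, D i)).Finite := by
    refine hAf.union (Set.Finite.union ?_ ?_)
    · exact Set.Finite.biUnion (Finset.finite_toSet _) fun n _ => hPf n
    · exact Set.Finite.biUnion (Finset.finite_toSet _) fun n _ => (hDn n).1
  have hcard : (S.ncard : ℝ) ≤ A.ncard + (∑ i ∈ Finset.range I, ((P i).ncard : ℝ) +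
      ∑ i ∈ Finset.range I, ((D i).ncard : ℝ)) := by
    have q1 := (Set.ncard_le_ncard hsub hUf).trans ((Set.ncard_union_le _ _).trans
      (Nat.add_le_add_left ((Set.ncard_union_le _ _).trans (Nat.add_le_add
        (LevAux.ncard_biUnion P I) (LevAux.ncard_biUnion D I))) _))
    exact_mod_cast q1
  have bA : (A.ncard : ℝ) ≤ C * (T / 2 ^ I * L) := by
    refine h1.2.trans ?_
    have := hlogle I
    have q0 : 0 ≤ T / 2 ^ I := by positivity
    simp only [id]
    gcongr
  have bP : ∑ i ∈ Finset.range I, ((P i).ncard : ℝ) ≤ I * (ε₁ * (T * L)) := by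
    have q1 : ∀ i ∈ Finset.range I, ((P i).ncard : ℝ) ≤ ε₁ * (T * L) := by
      intro i hi
      refine (h2 i hi).trans ?_
      have q2 := hlogle i
      have q3 := hle i
      have q4 := hlog0 i (Finset.mem_range.1 hi).le
      gcongr
    have := Finset.sum_le_card_nsmul _ _ _ q1
    rwa [Finset.card_range, nsmul_eq_mul] at this
  have bD : ∑ i ∈ Finset.range I, ((D i).ncard : ℝ) ≤ I * (C₂ * L) ^ (m + 1) := by
    have := Finset.sum_le_card_nsmul _ _ _ (fun i (_ : i ∈ Finset.range I) => (hDn i).2)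
    rwa [Finset.card_range, nsmul_eq_mul] at this
  have bD' : I * (C₂ * L) ^ (m + 1) ≤ ε / (8 * π) * (T * L) := by
    rw [Real.norm_of_nonneg (by positivity), Real.norm_of_nonneg hT0.le] at h6
    calc (I : ℝ) * (C₂ * L) ^ (m + 1) ≤ (I + 1) * (C₂ * L) ^ (m + 1) := by gcongr; linarith
      _ = ((I + 1) * C₂ ^ (m + 1)) * L ^ (m + 1) := by rw [mul_pow]; ring
      _ ≤ ((I + 1) * C₂ ^ (m + 1)) * (ε / (8 * π * ((I + 1) * C₂ ^ (m + 1))) * T) := by
          gcongr
      _ = ε / (8 * π) * T := by field_simp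
      _ ≤ ε / (8 * π) * (T * L) := by
          gcongr
          exact le_mul_of_one_le_right hT0.le hL1
  have bA' : C * (T / 2 ^ I * L) ≤ ε / (8 * π) * (T * L) := by
    have q1 : C / 2 ^ I ≤ ε / (8 * π) := by
      rw [div_le_div_iff₀ (by positivity) (by positivity)]
      have := hI.le
      rw [div_le_iff₀ hε] at this
      linarith
    calc C * (T / 2 ^ I * L) = C / 2 ^ I * (T * L) := by ring
      _ ≤ _ := by gcongr
  have bP' : I * (ε₁ * (T * L)) ≤ ε / (8 * π) * (T * L) := by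
    have q1 : (I : ℝ) * ε₁ ≤ ε / (8 * π) := by
      rw [hε₁, ← mul_div_assoc, div_le_div_iff₀ (by positivity) (by positivity)]
      have q7 : 0 ≤ ε * π := by positivity
      have q8 : (I : ℝ) * ε * (8 * π) + 8 * (ε * π) = ε * (8 * π * (I + 1)) := by ring
      rw [← q8]
      exact le_add_of_nonneg_right (by positivity)
    calc (I : ℝ) * (ε₁ * (T * L)) = I * ε₁ * (T * L) := by ring
      _ ≤ _ := by gcongr
  have hz : zeroScale T = T * L / (2 * π) := by unfold zeroScale; ring
  have hTL : 0 < T * L := by positivity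
  rw [hScount, hz, div_lt_iff₀ (by positivity)]
  have q5 : ε * (T * L / (2 * π)) = 4 * (ε / (8 * π) * (T * L)) := by
    field_simp
    ring
  rw [q5]
  have q6 : 0 < ε / (8 * π) * (T * L) := by positivity
  linarith

end Pool.Agent.MP_67227b_nt.Ah
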