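import Mathlib

set_option autoImplicit false

open scoped Real

namespace Pool.Agent.MP_67227b_nt.Ah

/-- The mass at `k/2` of the pair measure of the Alternative Hypothesis. -/
noncomputable def ahMass (k : ℤ) : ℝ :=
  if k = 0 then 0 else 1 / 2 - (1 - (-1 : ℝ) ^ k) / (π ^ 2 * (k : ℝ) ^ 2)

end Pool.Agent.MP_67227b_nt.Ah
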