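import Pool.Agent.MP_67227b_nt.Ah.AhAtom
import Pool.Agent.MP_67227b_nt.Ah.AhLev
import Pool.Agent.MP_67227b_nt.Ah.AhMass

set_option autoImplicit false

open Filter Topology Set MeasureTheory Complex
open scoped Real ArithmeticFunction ContDiff

namespace Pool.Agent.MP_67227b_nt.Ah

open Pool.Agent.Lib.ZetaCount_helper33 Pool.Agent.MP_67227b_nt Pool.Agent.MP_67227b_nt.Mo
open Pool.Agent.MP_67227b_nt.Sg Pool.Agent.MP_67227b_nt.Pp
open Pool.Agent.MP_67227b_nt.Mo.MomentBAux (DP)

namespace PairLimitAux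

lemma mono_nu {T : ℝ} {A B : Set (Fin 1 → ℝ)} (h : A ⊆ B) :
    (nuT goodFamily_zeta 1 T).real A ≤ (nuT goodFamily_zeta 1 T).real B :=
  measureReal_mono h (measure_ne_top _ _)

lemma pc_nu {T : ℝ} (hT : 1 < T) (a b : ℝ) : (pairCount T a b : ℝ) / zeroScale T =
    (nuT goodFamily_zeta 1 T).real (Icc (fun _ => a) (fun _ => b)) := by
  rw [real_nuT goodFamily_zeta hT, pairCount_eq]

lemma ball_bd (hRH : RiemannHypothesis) (R : ℝ) : ∃ C : ℝ, ∀ᶠ T in (atTop : Filter ℝ),
    (nuT goodFamily_zeta 1 T).real (Metric.closedBall 0 R) ≤ C := by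
  have hband : BandLim (fun T => nuT goodFamily_zeta 1 T) (sineDet 1)
      {ξ : Fin 1 → ℝ | |ξ 0| < 1} atTop := by
    intro φ hφ
    refine (Mo.montgomery hRH φ hφ).congr' ?_
    filter_upwards [eventually_gt_atTop 1] with T hT
    exact (integral_nuT_complex goodFamily_zeta hT _).symm
  refine hband.ball_bounded (ε := 1) one_pos ?_ R
  intro ξ hξ
  rw [mem_ball_zero_iff] at hξ
  exact (norm_le_pi_norm ξ 0).trans_lt hξ

lemma zero_atom {l : Filter ℝ} [l.NeBot] (hl : l ≤ atTop) (h : NoSmall l)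
    {μ : Measure (Fin 1 → ℝ)} [IsLocallyFiniteMeasure μ]
    (hμ : VagueLim (fun T => nuT goodFamily_zeta 1 T) l μ) : μ {fun _ => (0 : ℝ)} = 0 := by
  have hK : IsCompact ({fun _ => (0 : ℝ)} : Set (Fin 1 → ℝ)) := isCompact_singleton
  have hV : IsOpen {u : Fin 1 → ℝ | |u 0| < 1 / 4} :=
    isOpen_lt (continuous_abs.comp (continuous_apply 0)) continuous_const
  have hKV : ({fun _ => (0 : ℝ)} : Set (Fin 1 → ℝ)) ⊆ {u : Fin 1 → ℝ | |u 0| < 1 / 4} := by
    intro u hu
    rw [mem_singleton_iff] at hu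
    subst hu
    simp
  have hle : ∀ δ : ℝ, 0 < δ → μ.real {fun _ => (0 : ℝ)} ≤ δ + 2 * δ := by
    intro δ hδ
    have h1 := vague_lower hμ hK hV hKV hδ
    have h2 := (h (1 / 4) (by norm_num)).eventually (gt_mem_nhds hδ)
    have h3 : ∀ᶠ T in l, 1 < T := hl (eventually_gt_atTop 1)
    obtain ⟨T, h4, h5, h6⟩ := (h1.and (h2.and h3)).exists
    have e1 : (nuT goodFamily_zeta 1 T).real {u : Fin 1 → ℝ | |u 0| < 1 / 4} ≤
        (nuT goodFamily_zeta 1 T).real (Icc (fun _ => (-(1 / 4) : ℝ)) (fun _ => -(0:ℝ))) +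
        (nuT goodFamily_zeta 1 T).real (Icc (fun _ => (0 : ℝ)) (fun _ => (1 / 4 : ℝ))) := by
      refine (mono_nu ?_).trans (measureReal_union_le _ _)
      intro u hu
      have hu' : |u 0| < 1 / 4 := hu
      rw [abs_lt] at hu'
      rcases le_total 0 (u 0) with h0 | h0
      · right
        refine ⟨fun i => ?_, fun i => ?_⟩
        · rw [Subsingleton.elim i 0]; exact h0
        · rw [Subsingleton.elim i 0]; exact hu'.2.le
      · left
        refine ⟨fun i => ?_, fun i => ?_⟩
        · rw [Subsingleton.elim i 0]; exact hu'.1.le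
        · rw [Subsingleton.elim i 0]; dsimp only; linarith
    rw [← pc_nu h6, ← pc_nu h6, pairCount_symm] at e1
    linarith
  have hr : μ.real {fun _ => (0 : ℝ)} ≤ 0 := by
    apply le_of_forall_pos_le_add
    intro ε hε
    have := hle (ε / 3) (by positivity)
    linarith
  have hr0 : μ.real {fun _ => (0 : ℝ)} = 0 := le_antisymm hr measureReal_nonneg
  rw [measureReal_eq_zero_iff hK.measure_lt_top.ne] at hr0
  exact hr0

lemma ceil_le_iff' {a : ℝ} {k : ℤ} (ha : (k : ℝ) / 2 ≠ a) : ⌈2 * a⌉ ≤ k ↔ a < (k : ℝ) / 2 := by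
  rw [Int.ceil_le]
  constructor
  · intro h
    rcases lt_or_eq_of_le (show a ≤ (k : ℝ) / 2 by linarith) with h1 | h1
    · exact h1
    · exact absurd h1.symm ha
  · intro h
    linarith

lemma le_floor_iff' {b : ℝ} {k : ℤ} (hb : (k : ℝ) / 2 ≠ b) : k ≤ ⌊2 * b⌋ ↔ (k : ℝ) / 2 < b := by
  rw [Int.le_floor]
  constructor
  · intro h
    rcases lt_or_eq_of_le (show (k : ℝ) / 2 ≤ b by linarith) with h1 | h1
    · exact h1
    · exact absurd h1 hb
  · intro h
    linarith

end PairLimitAux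

open PairLimitAux in
/-- MODULE END1. The limit. By `tendsto_iff_ultrafilter` take an ultrafilter `U ≤ l`;
`exists_limit_measure` (the bound of the balls from `BandLim.ball_bounded` as in `conj_of_far`, or from
`Mo.montgomery`) gives `μ`. `level_small` (`m = 1`, `pairCount_eq`) gives the hypothesis of `mu_half`;
`μ {0} = 0` because `pairCount T (-1/4) (1/4) ≤ pairCount T 0 (1/4) + pairCount T (-1/4) 0` (`pairCount_symm`).
As `μ {a} = μ {b} = 0`, `ν_T [a, b] → μ [a, b]` (`vague_upper`, `vague_lower` with slightly smaller and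
larger intervals containing the same half-integers), and `μ [a, b]` is the sum of the atoms. -/
theorem pair_limit (hRH : RiemannHypothesis) {l : Filter ℝ} (hl : l ≤ atTop) (h : NoSmall l)
    {a b : ℝ} (hab : a ≤ b) (ha : ∀ k : ℤ, (k : ℝ) / 2 ≠ a) (hb : ∀ k : ℤ, (k : ℝ) / 2 ≠ b) :
    Tendsto (fun T : ℝ => (pairCount T a b : ℝ) / zeroScale T) l
      (𝓝 (∑ k ∈ Finset.Icc ⌈2 * a⌉ ⌊2 * b⌋, ahMass k)) := by
  rw [tendsto_iff_ultrafilter]
  intro U hUl
  have hU : (U : Filter ℝ) ≤ atTop := hUl.trans hl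
  have hNS : NoSmall (U : Filter ℝ) := fun lam hlam => (h lam hlam).mono_left hUl
  obtain ⟨μ, hμ1, hμ⟩ := exists_limit_measure (fun T => nuT goodFamily_zeta 1 T) U (by
    intro R
    obtain ⟨C, hC⟩ := ball_bd hRH R
    exact ⟨C, hU hC⟩)
  have hs : ∀ a b : ℝ, (∀ k : ℤ, (k : ℝ) / 2 ∉ Icc a b) →
      Tendsto (fun T : ℝ => (pairCount T a b : ℝ) / zeroScale T) (U : Filter ℝ) (𝓝 0) := by
    intro a b hk
    have h1 := level_small hRH hU hNS (m := 1) (a := fun _ => a) (b := fun _ => b) 0 hk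
    simpa only [pairCount_eq] using h1
  have hhalf := mu_half hU hμ hs
  have h0 := zero_atom hU hNS hμ
  have hmass : ∀ k : ℤ, μ.real {fun _ => (k : ℝ) / 2} = ahMass k := by
    intro k
    by_cases hk : k = 0
    · subst hk
      have e : ((0 : ℤ) : ℝ) / 2 = 0 := by norm_num
      rw [e, ahMass, if_pos rfl, Measure.real, h0, ENNReal.toReal_zero]
    · rw [mu_atom hRH hU hμ hhalf h0 hk, ahMass, if_neg hk]
  set S : Finset ℤ := Finset.Icc ⌈2 * a⌉ ⌊2 * b⌋ with hS
  set K' : Set (Fin 1 → ℝ) := ⋃ k ∈ S, {fun _ => (k : ℝ) / 2} with hK'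
  set K : Set (Fin 1 → ℝ) := Icc (fun _ => a) (fun _ => b) with hKdef
  have hKc : IsCompact K := isCompact_Icc
  have hK'c : IsCompact K' := S.isCompact_biUnion fun k _ => isCompact_singleton
  set V : Set (Fin 1 → ℝ) := {u | a < u 0 ∧ u 0 < b} with hV
  have hVo : IsOpen V := (isOpen_lt continuous_const (continuous_apply 0)).inter
    (isOpen_lt (continuous_apply 0) continuous_const)
  have hK'V : K' ⊆ V := by
    intro u hu
    simp only [hK', mem_iUnion, mem_singleton_iff, exists_prop] at hu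
    obtain ⟨k, hk, rfl⟩ := hu
    rw [hS, Finset.mem_Icc, ceil_le_iff' (ha k), le_floor_iff' (hb k)] at hk
    exact hk
  have hVK : V ⊆ K := by
    rintro u ⟨h1, h2⟩
    refine ⟨fun i => ?_, fun i => ?_⟩
    · rw [Subsingleton.elim i 0]; exact h1.le
    · rw [Subsingleton.elim i 0]; exact h2.le
  have hdiff : K ⊆ K' ∪ {u | ∀ k : ℤ, u 0 ≠ (k : ℝ) / 2} := by
    intro u hu
    by_cases hex : ∃ k : ℤ, u 0 = (k : ℝ) / 2
    · left
      obtain ⟨k, hk⟩ := hex
      have h1 : a ≤ (k : ℝ) / 2 := by rw [← hk]; exact hu.1 0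
      have h2 : (k : ℝ) / 2 ≤ b := by rw [← hk]; exact hu.2 0
      simp only [hK', mem_iUnion, mem_singleton_iff, exists_prop]
      refine ⟨k, ?_, ?_⟩
      · rw [hS, Finset.mem_Icc, ceil_le_iff' (ha k), le_floor_iff' (hb k)]
        exact ⟨lt_of_le_of_ne h1 (ha k).symm, lt_of_le_of_ne h2 (hb k)⟩
      · ext i
        rw [Subsingleton.elim i 0]
        exact hk
    · right
      intro k hk
      exact hex ⟨k, hk⟩
  have hKK' : μ.real K ≤ μ.real K' := by
    have h1 : μ K ≤ μ K' := by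
      refine (measure_mono hdiff).trans ((measure_union_le _ _).trans ?_)
      rw [hhalf, add_zero]
    exact ENNReal.toReal_mono hK'c.measure_lt_top.ne h1
  have hsum : μ.real K' = ∑ k ∈ S, ahMass k := by
    rw [hK', measureReal_biUnion_finset (h := fun k _ => isCompact_singleton.measure_lt_top.ne)]
    · exact Finset.sum_congr rfl fun k _ => hmass k
    · intro i _ j _ hij
      rw [Function.onFun, Set.disjoint_singleton]
      intro he
      apply hij
      have h1 := congrFun he 0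
      have h2 : (i : ℝ) = j := by linarith
      exact_mod_cast h2
    · intro k _
      exact measurableSet_singleton _
  rw [Metric.tendsto_nhds]
  intro ε hε
  filter_upwards [vague_upper hμ hKc (half_pos hε), vague_lower hμ hK'c hVo hK'V (half_pos hε),
    hU (eventually_gt_atTop 1)] with T h1 h2 h3
  rw [pc_nu h3, Real.dist_eq, abs_lt, ← hsum]
  have h4 := mono_nu (T := T) hVK
  rw [← hKdef]
  constructor <;> linarith

/-- MODULE END2. The converse: for `0 ≤ lam < 1/2` choose `b ∈ (max lam 0, 1/2)`; the interval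
`[-1/4, b]` contains only `k = 0`, and `pairCount T 0 lam ≤ pairCount T (-1/4) b`. -/
theorem noSmall_of {l : Filter ℝ} (hl : l ≤ atTop)
    (h : ∀ a b : ℝ, a ≤ b → (∀ k : ℤ, (k : ℝ) / 2 ≠ a) → (∀ k : ℤ, (k : ℝ) / 2 ≠ b) →
      Tendsto (fun T : ℝ => (pairCount T a b : ℝ) / zeroScale T) l
        (𝓝 (∑ k ∈ Finset.Icc ⌈2 * a⌉ ⌊2 * b⌋, ahMass k))) : NoSmall l := by
  intro lam hlam
  by_cases h0 : lam < 0
  · have e : ∀ T : ℝ, (pairCount T 0 lam : ℝ) / zeroScale T = 0 := by
      intro T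
      have : pairCount T 0 lam = 0 := by
        unfold pairCount
        rw [Set.Icc_eq_empty (by linarith)]
        simp
      rw [this]
      simp
    simp only [e]
    exact tendsto_const_nhds
  · push Not at h0
    set b : ℝ := (lam + 1 / 2) / 2 with hb
    have hb1 : lam < b := by linarith
    have hb2 : b < 1 / 2 := by linarith
    have hint : ∀ k : ℤ, (k : ℝ) / 2 ≠ -(1 / 4) := by
      intro k hk
      have h1 : (2 * k : ℝ) = -1 := by linarith
      have h2 : (2 * k : ℤ) = -1 := by exact_mod_cast h1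
      omega
    have hint2 : ∀ k : ℤ, (k : ℝ) / 2 ≠ b := by
      intro k hk
      have h1 : (0 : ℝ) < k := by linarith
      have h2 : (k : ℝ) < 1 := by linarith
      have h3 : (0 : ℤ) < k := by exact_mod_cast h1
      have h4 : k < (1 : ℤ) := by exact_mod_cast h2
      omega
    have h1 := h (-(1 / 4)) b (by linarith) hint hint2
    have e1 : ⌈2 * (-(1 / 4) : ℝ)⌉ = 0 := by
      rw [Int.ceil_eq_iff]
      norm_num
    have e2 : ⌊2 * b⌋ = 0 := by
      rw [Int.floor_eq_iff]
      norm_num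
      constructor <;> linarith
    rw [e1, e2] at h1
    simp only [Finset.Icc_self, Finset.sum_singleton, ahMass, if_true] at h1
    refine squeeze_zero' ?_ ?_ h1
    · filter_upwards [hl (eventually_gt_atTop 1)] with T hT
      have := zeroScale_pos hT
      positivity
    · filter_upwards [hl (eventually_gt_atTop 1)] with T hT
      rw [PairLimitAux.pc_nu hT, PairLimitAux.pc_nu hT]
      apply PairLimitAux.mono_nu
      exact Icc_subset_Icc (fun _ => by norm_num) (fun _ => hb1.le)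

end Pool.Agent.MP_67227b_nt.Ah
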