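import Pool.Agent.MP_67227b_nt.Ah.AhEnd

set_option autoImplicit false

open Filter Topology Set MeasureTheory
open scoped Real

namespace Pool.Agent.MP_67227b_nt.Ah

open Pool.Agent.MP_67227b_nt

lemma pairCount_set_finite (T a b : ℝ) : {p : ZetaZeroIdx × ZetaZeroIdx | p.1 ≠ p.2 ∧
    zetaOrdinate p.1 ≤ T ∧ zetaOrdinate p.2 ≤ T ∧
    (zetaOrdinate p.1 - zetaOrdinate p.2) * (Real.log T / (2 * π)) ∈ Set.Icc a b}.Finite := by
  have h := goodFamily_zeta.fin T
  refine (h.prod h).subset ?_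
  rintro p ⟨_, h1, h2, _⟩
  exact ⟨h1, h2⟩

lemma pairCount_mono {T a b a' b' : ℝ} (ha : a' ≤ a) (hb : b ≤ b') :
    pairCount T a b ≤ pairCount T a' b' := by
  unfold pairCount
  refine Set.ncard_le_ncard ?_ (pairCount_set_finite T a' b')
  rintro p ⟨h0, h1, h2, h3⟩
  exact ⟨h0, h1, h2, ha.trans h3.1, h3.2.trans hb⟩

/-- The form for single heights. -/
theorem dichotomy (hRH : RiemannHypothesis) {a b : ℝ} (hab : a ≤ b)
    (ha : ∀ k : ℤ, (k : ℝ) / 2 ≠ a) (hb : ∀ k : ℤ, (k : ℝ) / 2 ≠ b) {ε : ℝ} (hε : 0 < ε) :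
    ∃ δ : ℝ, 0 < δ ∧ ∀ᶠ T : ℝ in atTop,
      (pairCount T 0 (1 / 2 - δ) : ℝ) ≤ δ * zeroScale T →
      |(pairCount T a b : ℝ) / zeroScale T - ∑ k ∈ Finset.Icc ⌈2 * a⌉ ⌊2 * b⌋, ahMass k| ≤ ε := by
  by_contra hcon
  push Not at hcon
  have hseq : ∀ n : ℕ, ∃ T : ℝ, ((n : ℝ) ≤ T ∧ 1 < T) ∧
      (pairCount T 0 (1 / 2 - 1 / ((n : ℝ) + 1)) : ℝ) ≤ 1 / ((n : ℝ) + 1) * zeroScale T ∧
      ε < |(pairCount T a b : ℝ) / zeroScale T - ∑ k ∈ Finset.Icc ⌈2 * a⌉ ⌊2 * b⌋, ahMass k| := by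
    intro n
    have h1 := hcon (1 / ((n : ℝ) + 1)) (by positivity)
    obtain ⟨T, hT, hT'⟩ := (h1.and_eventually
      ((eventually_ge_atTop (n : ℝ)).and (eventually_gt_atTop 1))).exists
    exact ⟨T, hT', hT⟩
  choose t ht using hseq
  have htt : Tendsto t atTop atTop :=
    tendsto_atTop_mono (fun n => (ht n).1.1) tendsto_natCast_atTop_atTop
  have hNo : NoSmall (map t atTop) := by
    intro lam hlam
    rw [tendsto_map'_iff]
    have h2 : Tendsto (fun n : ℕ => 1 / ((n : ℝ) + 1)) atTop (𝓝 0) :=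
      tendsto_one_div_add_atTop_nhds_zero_nat
    refine tendsto_of_tendsto_of_tendsto_of_le_of_le' tendsto_const_nhds h2 ?_ ?_
    · filter_upwards with n
      have := zeroScale_pos (ht n).1.2
      simp only [Function.comp_apply]
      positivity
    · have h3 : ∀ᶠ n : ℕ in atTop, 1 / ((n : ℝ) + 1) < 1 / 2 - lam :=
        h2.eventually (gt_mem_nhds (by linarith))
      filter_upwards [h3] with n hn
      have hs := zeroScale_pos (ht n).1.2
      simp only [Function.comp_apply]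
      rw [div_le_iff₀ hs]
      refine le_trans ?_ (ht n).2.1
      have := pairCount_mono (T := t n) (a := 0) (a' := 0) (b := lam)
        (b' := 1 / 2 - 1 / ((n : ℝ) + 1)) le_rfl (by linarith)
      exact_mod_cast this
  have hlim := pair_limit hRH (l := map t atTop) htt hNo hab ha hb
  rw [tendsto_map'_iff] at hlim
  have h4 := (Metric.tendsto_nhds.1 hlim) ε hε
  obtain ⟨n, hn⟩ := h4.exists
  rw [Real.dist_eq, Function.comp_apply] at hn
  exact absurd hn (not_lt.2 (ht n).2.2.le)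

end Pool.Agent.MP_67227b_nt.Ah
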