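import Pool.Agent.MP_67227b_nt.Ah.AhDefs

set_option autoImplicit false

open Filter Topology Set MeasureTheory Complex
open scoped Real ArithmeticFunction ContDiff

namespace Pool.Agent.MP_67227b_nt.Ah

open Pool.Agent.Lib.ZetaCount_helper33 Pool.Agent.MP_67227b_nt Pool.Agent.MP_67227b_nt.Mo
open Pool.Agent.MP_67227b_nt.Sg Pool.Agent.MP_67227b_nt.Pp
open Pool.Agent.MP_67227b_nt.Mo.MomentBAux (DP)

/-- The coefficients of `ζ(s + iα)/ζ(s)`. -/
noncomputable def gg (α : ℝ) (n : ℕ) : ℂ :=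
  ∑ p ∈ n.divisorsAntidiagonal, ((ArithmeticFunction.moebius p.1 : ℤ) : ℂ) *
    (p.2 : ℂ) ^ (-((α : ℂ) * I))

namespace AhGgAux

/-- the function `n^{-iα}` -/
noncomputable def P (α : ℝ) : ArithmeticFunction ℂ :=
  ⟨fun n => if n = 0 then 0 else (n : ℂ) ^ (-((α : ℂ) * I)), if_pos rfl⟩

theorem P_apply (α : ℝ) {n : ℕ} (hn : n ≠ 0) : P α n = (n : ℂ) ^ (-((α : ℂ) * I)) := if_neg hn

theorem P_one (α : ℝ) : P α 1 = 1 := by
  rw [P_apply α one_ne_zero, Nat.cast_one, Complex.one_cpow]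

theorem P_mul (α : ℝ) (m n : ℕ) : P α (m * n) = P α m * P α n := by
  rcases eq_or_ne m 0 with rfl | hm
  · rw [zero_mul, ArithmeticFunction.map_zero, zero_mul]
  rcases eq_or_ne n 0 with rfl | hn
  · rw [mul_zero, ArithmeticFunction.map_zero, mul_zero]
  rw [P_apply α (mul_ne_zero hm hn), P_apply α hm, P_apply α hn, Nat.cast_mul,
    Complex.natCast_mul_natCast_cpow]

/-- the Möbius function -/
noncomputable def M : ArithmeticFunction ℂ :=
  ((ArithmeticFunction.moebius : ArithmeticFunction ℤ) : ArithmeticFunction ℂ)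

theorem M_apply (n : ℕ) : M n = ((ArithmeticFunction.moebius n : ℤ) : ℂ) := rfl

theorem gg_eq (α : ℝ) (n : ℕ) : gg α n = (M * P α) n := by
  rw [ArithmeticFunction.mul_apply]
  unfold gg
  refine Finset.sum_congr rfl fun p hp => ?_
  rw [Nat.mem_divisorsAntidiagonal] at hp
  rw [M_apply, P_apply α]
  intro h
  apply hp.2
  rw [← hp.1, h, mul_zero]

theorem mult (α : ℝ) : (M * P α).IsMultiplicative :=
  ArithmeticFunction.IsMultiplicative.mul
    (ArithmeticFunction.isMultiplicative_moebius.intCast) ⟨P_one α, fun _ => P_mul α _ _⟩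

/-- the coefficients of the truncated polynomial, twisted -/
noncomputable def AP (a : ℕ → ℝ) (α : ℝ) (N : ℕ) : ArithmeticFunction ℂ :=
  ⟨fun d => if d = 0 then 0 else if d ≤ N then (a d : ℂ) * (d : ℂ) ^ (-((α : ℂ) * I)) else 0,
    if_pos rfl⟩

theorem AP_apply (a : ℕ → ℝ) (α : ℝ) (N : ℕ) {d : ℕ} (hd : d ≠ 0) :
    AP a α N d = if d ≤ N then (a d : ℂ) * (d : ℂ) ^ (-((α : ℂ) * I)) else 0 := if_neg hd

theorem inner (a : ℕ → ℝ) (α : ℝ) (N : ℕ) {n : ℕ} (hn : n ≠ 0) :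
    (n : ℂ) ^ (-((α : ℂ) * I)) * ∑ d ∈ n.divisors, (if d ≤ N then (a d : ℂ) else 0) =
      (AP a α N * P α) n := by
  rw [ArithmeticFunction.mul_apply,
    Nat.sum_divisorsAntidiagonal (f := fun x y => AP a α N x * P α y), Finset.mul_sum]
  refine Finset.sum_congr rfl fun d hd => ?_
  have hd' := Nat.mem_divisors.1 hd
  have hd0 : d ≠ 0 := fun h => hn (by rw [h] at hd'; exact Nat.eq_zero_of_zero_dvd hd'.1)
  have hdm : d * (n / d) = n := Nat.mul_div_cancel' hd'.1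
  have h1 : P α n = P α d * P α (n / d) := by rw [← P_mul, hdm]
  rw [← P_apply α hn, h1, AP_apply a α N hd0, P_apply α hd0]
  split_ifs
  · ring
  · ring

theorem ca_conv (a : ℕ → ℝ) (α : ℝ) (N m : ℕ) : ca a α N m = (AP a α N * (M * P α)) m := by
  have h : AP a α N * (M * P α) = M * (AP a α N * P α) := by ring
  rw [h, ArithmeticFunction.mul_apply]
  unfold ca
  refine Finset.sum_congr rfl fun p hp => ?_
  rw [Nat.mem_divisorsAntidiagonal] at hp
  rw [M_apply, inner a α N]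
  intro h
  apply hp.2
  rw [← hp.1, h, mul_zero]

end AhGgAux

open AhGgAux in
/-- MODULE GG1. -/
theorem gg_one (α : ℝ) : gg α 1 = 1 := by
  rw [gg_eq, (mult α).1]

open AhGgAux in
/-- MODULE GG1. `gg` is multiplicative (Dirichlet convolution of multiplicative functions). -/
theorem gg_mul (α : ℝ) {m n : ℕ} (h : Nat.Coprime m n) : gg α (m * n) = gg α m * gg α n := by
  rw [gg_eq, gg_eq, gg_eq, (mult α).2 h]

/-- MODULE GG1. `gg (p^k) = p^{-ikα} - p^{-i(k-1)α}`. -/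
theorem gg_pow {α : ℝ} (hα : 0 ≤ α) {p k : ℕ} (hp : p.Prime) (hk : 1 ≤ k) :
    ‖gg α (p ^ k)‖ ≤ α * Real.log p ∧ ‖gg α (p ^ k)‖ ≤ 2 := by
  have hp0 : p ≠ 0 := hp.ne_zero
  have h1 : gg α (p ^ k) = ((p ^ k : ℕ) : ℂ) ^ (-((α : ℂ) * I)) -
      ((p ^ (k - 1) : ℕ) : ℂ) ^ (-((α : ℂ) * I)) := by
    unfold gg
    rw [Nat.sum_divisorsAntidiagonal (f := fun x y => ((ArithmeticFunction.moebius x : ℤ) : ℂ) *
      (y : ℂ) ^ (-((α : ℂ) * I))), Nat.sum_divisors_prime_pow hp]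
    obtain ⟨j, rfl⟩ : ∃ j, k = j + 1 := ⟨k - 1, by omega⟩
    rw [Finset.sum_range_succ', Finset.sum_range_succ']
    have h2 : ∑ i ∈ Finset.range j, ((ArithmeticFunction.moebius (p ^ (i + 1 + 1)) : ℤ) : ℂ) *
        ((p ^ (j + 1) / p ^ (i + 1 + 1) : ℕ) : ℂ) ^ (-((α : ℂ) * I)) = 0 := by
      refine Finset.sum_eq_zero fun i _ => ?_
      rw [ArithmeticFunction.moebius_apply_prime_pow hp (by omega), if_neg (by omega)]
      simp
    rw [h2, zero_add, zero_add, pow_one, ArithmeticFunction.moebius_apply_prime hp, pow_zero,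
      ArithmeticFunction.moebius_apply_one, Nat.div_one, pow_succ,
      Nat.mul_div_cancel _ hp.pos, Nat.add_sub_cancel]
    push_cast
    ring
  have h2 : ((p ^ k : ℕ) : ℂ) ^ (-((α : ℂ) * I)) = ((p ^ (k - 1) : ℕ) : ℂ) ^ (-((α : ℂ) * I)) *
      (p : ℂ) ^ (-((α : ℂ) * I)) := by
    rw [← Complex.natCast_mul_natCast_cpow, ← Nat.cast_mul, ← pow_succ, Nat.sub_add_cancel hk]
  have h3 : ‖((p ^ (k - 1) : ℕ) : ℂ) ^ (-((α : ℂ) * I))‖ = 1 := by
    rw [Complex.norm_natCast_cpow_of_pos (pow_pos hp.pos _)]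
    simp
  have h4 : (p : ℂ) ^ (-((α : ℂ) * I)) = Complex.exp (I * ((-(α * Real.log p) : ℝ) : ℂ)) := by
    rw [Complex.cpow_def_of_ne_zero (by exact_mod_cast hp0), ← Complex.natCast_log]
    congr 1
    push_cast
    ring
  have h5 : ‖gg α (p ^ k)‖ = ‖Complex.exp (I * ((-(α * Real.log p) : ℝ) : ℂ)) - 1‖ := by
    rw [h1, h2, ← h4]
    have : ((p ^ (k - 1) : ℕ) : ℂ) ^ (-((α : ℂ) * I)) * (p : ℂ) ^ (-((α : ℂ) * I)) -
        ((p ^ (k - 1) : ℕ) : ℂ) ^ (-((α : ℂ) * I)) = ((p ^ (k - 1) : ℕ) : ℂ) ^ (-((α : ℂ) * I)) *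
        ((p : ℂ) ^ (-((α : ℂ) * I)) - 1) := by ring
    rw [this, norm_mul, h3, one_mul]
  constructor
  · rw [h5]
    refine (Real.norm_exp_I_mul_ofReal_sub_one_le (x := -(α * Real.log p))).trans ?_
    rw [norm_neg, Real.norm_of_nonneg (mul_nonneg hα (Real.log_natCast_nonneg p))]
  · rw [h5]
    refine (norm_sub_le _ _).trans ?_
    rw [mul_comm, Complex.norm_exp_ofReal_mul_I, norm_one]
    norm_num

open AhGgAux in
/-- MODULE GG2. The coefficients `ca` as a convolution: `ca m = ∑_{d ∣ m, d ≤ N} a(d) d^{-iα} gg(m/d)`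
(exchange the sums). -/
theorem ca_eq (a : ℕ → ℝ) (α : ℝ) (N : ℕ) {m : ℕ} (hm : m ≠ 0) :
    ca a α N m = ∑ d ∈ m.divisors, if d ≤ N then
      (a d : ℂ) * (d : ℂ) ^ (-((α : ℂ) * I)) * gg α (m / d) else 0 := by
  rw [ca_conv, ArithmeticFunction.mul_apply,
    Nat.sum_divisorsAntidiagonal (f := fun x y => AP a α N x * (M * P α) y)]
  refine Finset.sum_congr rfl fun d hd => ?_
  have hd' := Nat.mem_divisors.1 hd
  have hd0 : d ≠ 0 := fun h => hm (by rw [h] at hd'; exact Nat.eq_zero_of_zero_dvd hd'.1)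
  rw [AP_apply a α N hd0, gg_eq]
  split_ifs
  · rfl
  · rw [zero_mul]

/-- MODULE GG2. Splitting off a part coprime to the support of `a`. If `a d = 0` for all `d ∣ m q`
that have a prime factor in `q`, and `q`, `m` are coprime, then `ca (q m) = gg(q) ca(m)`: only the
`d ∣ m` contribute, and `gg (q m/d) = gg(q) gg(m/d)`. -/
theorem ca_split {a : ℕ → ℝ} (α : ℝ) (N : ℕ) {q m : ℕ} (hq : q ≠ 0) (hm : m ≠ 0)
    (hc : Nat.Coprime q m)
    (h : ∀ d : ℕ, d ∣ q * m → a d ≠ 0 → Nat.Coprime q d) :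
    ca a α N (q * m) = gg α q * ca a α N m := by
  rw [ca_eq a α N (mul_ne_zero hq hm), ca_eq a α N hm, Finset.mul_sum]
  symm
  refine Finset.sum_subset_zero_on_sdiff (Nat.divisors_subset_of_dvd (mul_ne_zero hq hm)
    (dvd_mul_left m q)) ?_ ?_
  · intro d hd
    rw [Finset.mem_sdiff, Nat.mem_divisors, Nat.mem_divisors] at hd
    have had : a d = 0 := by
      by_contra hne
      have h1 := h d hd.1.1 hne
      exact hd.2 ⟨(Nat.Coprime.dvd_of_dvd_mul_left h1.symm hd.1.1), hm⟩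
    rw [had]
    simp
  · intro d hd
    have hd' := (Nat.mem_divisors.1 hd).1
    rw [Nat.mul_div_assoc q hd', gg_mul α (Nat.Coprime.coprime_dvd_right
      (Nat.div_dvd_of_dvd hd') hc)]
    split_ifs
    · ring
    · ring

end Pool.Agent.MP_67227b_nt.Ah
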