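import Pool.Agent.MP_67227b_nt.Ah.AhDefs

set_option autoImplicit false

open Filter Topology Set MeasureTheory Complex
open scoped Real ArithmeticFunction ContDiff

namespace Pool.Agent.MP_67227b_nt.Ah

open Pool.Agent.Lib.ZetaCount_helper33 Pool.Agent.MP_67227b_nt Pool.Agent.MP_67227b_nt.Mo
open Pool.Agent.MP_67227b_nt.Sg Pool.Agent.MP_67227b_nt.Pp
open Pool.Agent.MP_67227b_nt.Mo.MomentBAux (DP)

namespace growAux

theorem re_line (x η : ℝ) : ((x : ℂ) + (η : ℂ) * I).re = x := by simp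

theorem im_line (x η : ℝ) : ((x : ℂ) + (η : ℂ) * I).im = η := by simp

theorem cont_line {G : ℂ → ℂ} {x x' : ℝ} (hxx : x < x') (hG : DifferentiableOn ℂ G {ζ | ζ.re < x'}) :
    Continuous fun η : ℝ => G ((x : ℂ) + (η : ℂ) * I) := by
  rw [continuous_iff_continuousAt]
  intro η
  have hopen : IsOpen {ζ : ℂ | ζ.re < x'} := isOpen_lt Complex.continuous_re continuous_const
  have h1 : ContinuousAt G ((x : ℂ) + (η : ℂ) * I) := by
    refine (hG.differentiableAt (hopen.mem_nhds ?_)).continuousAt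
    show ((x : ℂ) + (η : ℂ) * I).re < x'
    rw [re_line]
    exact hxx
  have h2 : ContinuousAt (fun η : ℝ => (x : ℂ) + (η : ℂ) * I) η := by fun_prop
  exact ContinuousAt.comp (f := fun η : ℝ => (x : ℂ) + (η : ℂ) * I) (g := G) h1 h2

theorem int_line {G : ℂ → ℂ} {x C : ℝ} (hc : Continuous fun η : ℝ => G ((x : ℂ) + (η : ℂ) * I))
    (hC : 0 ≤ C) (hb : ∀ ζ : ℂ, ζ.re ≤ x → 1 ≤ ‖ζ‖ → ‖G ζ‖ ≤ C / ‖ζ‖ ^ 2) :
    Integrable fun η : ℝ => G ((x : ℂ) + (η : ℂ) * I) := by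
  obtain ⟨M, hM⟩ := (isCompact_Icc (a := (-1 : ℝ)) (b := 1)).exists_bound_of_continuousOn
    hc.continuousOn
  have hM0 : 0 ≤ M := (norm_nonneg _).trans (hM 0 (by norm_num))
  refine Integrable.mono' (g := fun η : ℝ => (2 * (C + M)) * (1 + η ^ 2)⁻¹)
    (integrable_inv_one_add_sq.const_mul _) hc.aestronglyMeasurable ?_
  refine Eventually.of_forall fun η => ?_
  rw [← div_eq_mul_inv, le_div_iff₀ (by positivity)]
  rcases le_or_gt |η| 1 with h | h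
  · have h1 := hM η (abs_le.1 h)
    have h2 : η ^ 2 ≤ 1 := by rw [← sq_abs]; nlinarith [abs_nonneg η]
    nlinarith [norm_nonneg (G ((x : ℂ) + (η : ℂ) * I))]
  · have h0 : |η| ≤ ‖(x : ℂ) + (η : ℂ) * I‖ := by
      have := Complex.abs_im_le_norm ((x : ℂ) + (η : ℂ) * I)
      rwa [im_line] at this
    have h1 := hb ((x : ℂ) + (η : ℂ) * I) (by rw [re_line]) (by linarith)
    have h2 : η ^ 2 ≤ ‖(x : ℂ) + (η : ℂ) * I‖ ^ 2 := by
      rw [← sq_abs]
      gcongr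
    have h3 : 1 ≤ η ^ 2 := by rw [← sq_abs]; nlinarith
    have h4 : ‖G ((x : ℂ) + (η : ℂ) * I)‖ * ‖(x : ℂ) + (η : ℂ) * I‖ ^ 2 ≤ C := by
      rwa [le_div_iff₀ (by linarith)] at h1
    nlinarith [norm_nonneg (G ((x : ℂ) + (η : ℂ) * I))]

/-- moving a line to `-∞` -/
theorem half_plane {G : ℂ → ℂ} {x x' C : ℝ} (hxx : x < x')
    (hG : DifferentiableOn ℂ G {ζ | ζ.re < x'}) (hC : 0 ≤ C)
    (hb : ∀ ζ : ℂ, ζ.re ≤ x → 1 ≤ ‖ζ‖ → ‖G ζ‖ ≤ C / ‖ζ‖ ^ 2) :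
    ∫ η : ℝ, G ((x : ℂ) + (η : ℂ) * I) = 0 := by
  have hint := int_line (cont_line hxx hG) hC hb
  have hlim := intervalIntegral_tendsto_integral hint
    (tendsto_neg_atTop_atBot.comp tendsto_id) (tendsto_id (x := (atTop : Filter ℝ)))
  refine tendsto_nhds_unique hlim ?_
  rw [tendsto_zero_iff_norm_tendsto_zero]
  have hz : Tendsto (fun R : ℝ => 10 * C / R) atTop (𝓝 0) := tendsto_const_nhds.div_atTop tendsto_id
  refine squeeze_zero' (Eventually.of_forall fun _ => norm_nonneg _) ?_ hz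
  filter_upwards [eventually_ge_atTop (max 2 (2 * |x|))] with R hR
  have hR2 : 2 ≤ R := (le_max_left _ _).trans hR
  have hRx : 2 * |x| ≤ R := (le_max_right _ _).trans hR
  have hR0 : 0 < R := by linarith
  have hrect := Complex.integral_boundary_rect_eq_zero_of_differentiableOn G
    (((x - R : ℝ) : ℂ) + ((-R : ℝ) : ℂ) * I) ((x : ℂ) + ((R : ℝ) : ℂ) * I) (by
      refine hG.mono fun ζ hζ => ?_
      rw [Complex.mem_reProdIm, re_line, re_line, Set.uIcc_of_le (by linarith)] at hζ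
      show ζ.re < x'
      exact lt_of_le_of_lt hζ.1.2 hxx)
  simp only [re_line, im_line] at hrect
  have hhor : ∀ y : ℝ, |y| = R → ‖∫ u in (x - R)..x, G ((u : ℂ) + (y : ℂ) * I)‖ ≤ C / R := by
    intro y hy
    have h1 := intervalIntegral.norm_integral_le_of_norm_le_const (a := x - R) (b := x)
      (f := fun u : ℝ => G ((u : ℂ) + (y : ℂ) * I)) (C := C / R ^ 2) (by
        intro u hu
        rw [Set.uIoc_of_le (by linarith)] at hu
        have h0 : R ≤ ‖(u : ℂ) + (y : ℂ) * I‖ := by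
          have := Complex.abs_im_le_norm ((u : ℂ) + (y : ℂ) * I)
          rwa [im_line, hy] at this
        refine (hb _ (by rw [re_line]; exact hu.2) (by linarith)).trans ?_
        gcongr)
    refine h1.trans (le_of_eq ?_)
    rw [show x - (x - R) = R by ring, abs_of_pos hR0]
    field_simp
  have hver : ‖∫ y in (-R)..R, G (((x - R : ℝ) : ℂ) + (y : ℂ) * I)‖ ≤ 8 * C / R := by
    have h1 := intervalIntegral.norm_integral_le_of_norm_le_const (a := -R) (b := R)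
      (f := fun y : ℝ => G (((x - R : ℝ) : ℂ) + (y : ℂ) * I)) (C := C / (R / 2) ^ 2) (by
        intro y hy
        have h0 : R / 2 ≤ ‖((x - R : ℝ) : ℂ) + (y : ℂ) * I‖ := by
          have := Complex.abs_re_le_norm (((x - R : ℝ) : ℂ) + (y : ℂ) * I)
          rw [re_line] at this
          refine le_trans ?_ this
          rw [abs_of_neg (by linarith [le_abs_self x])]
          linarith [le_abs_self x]
        refine (hb _ (by rw [re_line]; linarith) (by linarith)).trans ?_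
        gcongr)
    refine h1.trans (le_of_eq ?_)
    rw [show R - -R = 2 * R by ring, abs_of_pos (by positivity)]
    field_simp
    ring
  have e1 := hhor (-R) (by rw [abs_neg, abs_of_pos hR0])
  have e2 := hhor R (abs_of_pos hR0)
  have e3 : ‖I • ∫ y in (-R)..R, G ((x : ℂ) + (y : ℂ) * I)‖ ≤ 10 * C / R := by
    have h1 : I • ∫ y in (-R)..R, G ((x : ℂ) + (y : ℂ) * I) =
        (∫ u in (x - R)..x, G ((u : ℂ) + (R : ℂ) * I)) -
        (∫ u in (x - R)..x, G ((u : ℂ) + ((-R : ℝ) : ℂ) * I)) +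
          I • ∫ y in (-R)..R, G (((x - R : ℝ) : ℂ) + (y : ℂ) * I) := by
      linear_combination hrect
    rw [h1]
    refine (norm_add_le _ _).trans ?_
    rw [norm_smul, Complex.norm_I, one_mul]
    have h2 := norm_sub_le (∫ u in (x - R)..x, G ((u : ℂ) + (R : ℂ) * I))
      (∫ u in (x - R)..x, G ((u : ℂ) + ((-R : ℝ) : ℂ) * I))
    have h3 : 10 * C / R = C / R + C / R + 8 * C / R := by ring
    rw [h3]
    linarith
  rw [norm_smul, Complex.norm_I, one_mul] at e3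
  exact e3

/-- the weight -/
theorem weight {K : ℕ} (hK : 2 ≤ K) {x : ℝ} (hx : 1 ≤ x) (hxK : x ≤ K) (η : ℝ) :
    (2 * (K : ℝ) / ‖(2 * (K : ℂ)) - ((x : ℂ) + (η : ℂ) * I)‖) ^ K ≤
      Real.exp x * (1 + (η / (2 * K)) ^ 2) ^ (-((K : ℝ) / 2)) := by
  have hK0 : (2 : ℝ) ≤ K := by exact_mod_cast hK
  have hKp : (0 : ℝ) < 2 * K := by linarith
  obtain ⟨u, hu⟩ : ∃ u, u = x / (2 * K) := ⟨_, rfl⟩
  have hu0 : 0 < u := by rw [hu]; positivity
  have hu1 : u ≤ 1 / 2 := by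
    rw [hu, div_le_iff₀ hKp]
    linarith
  have hux : u * (2 * K) = x := by rw [hu]; field_simp
  obtain ⟨q, hq⟩ : ∃ q, q = 1 + (η / (2 * K)) ^ 2 := ⟨_, rfl⟩
  have hq1 : 1 ≤ q := by rw [hq]; nlinarith [sq_nonneg (η / (2 * K))]
  rw [← hq]
  have hnorm : (1 - u) * (2 * K) * Real.sqrt q ≤ ‖(2 * (K : ℂ)) - ((x : ℂ) + (η : ℂ) * I)‖ := by
    refine abs_le_of_sq_le_sq' ?_ (norm_nonneg _) |>.2
    rw [mul_pow, Real.sq_sqrt (by linarith), ← Complex.normSq_eq_norm_sq, Complex.normSq_apply]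
    have e1 : ((2 * (K : ℂ)) - ((x : ℂ) + (η : ℂ) * I)).re = 2 * K - x := by simp
    have e2 : ((2 * (K : ℂ)) - ((x : ℂ) + (η : ℂ) * I)).im = -η := by simp
    rw [e1, e2, hq, ← hux]
    have e3 : ((1 - u) * (2 * K)) ^ 2 * (1 + (η / (2 * K)) ^ 2) =
        (1 - u) ^ 2 * ((2 * K) ^ 2 + η ^ 2) := by
      field_simp
    rw [e3]
    have e4 : (1 - u) ^ 2 * η ^ 2 ≤ 1 * η ^ 2 := by
      refine mul_le_mul_of_nonneg_right ?_ (sq_nonneg _)
      nlinarith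
    nlinarith
  have hs0 : 0 < Real.sqrt q := Real.sqrt_pos.2 (by linarith)
  have h1u : 0 < 1 - u := by linarith
  have h1 : 2 * (K : ℝ) / ‖(2 * (K : ℂ)) - ((x : ℂ) + (η : ℂ) * I)‖ ≤
      Real.exp (2 * u) * (Real.sqrt q)⁻¹ := by
    have h2 : 2 * (K : ℝ) / ‖(2 * (K : ℂ)) - ((x : ℂ) + (η : ℂ) * I)‖ ≤
        2 * K / ((1 - u) * (2 * K) * Real.sqrt q) := by
      gcongr
    refine h2.trans ?_
    have h3 : 2 * (K : ℝ) / ((1 - u) * (2 * K) * Real.sqrt q) = (1 - u)⁻¹ * (Real.sqrt q)⁻¹ := by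
      field_simp
    rw [h3]
    refine mul_le_mul_of_nonneg_right ?_ (by positivity)
    rw [inv_le_comm₀ h1u (Real.exp_pos _), ← Real.exp_neg]
    have h4 := Real.add_one_le_exp (2 * u)
    rw [Real.exp_neg, inv_le_comm₀ (Real.exp_pos _) h1u]
    refine le_trans ?_ h4
    rw [inv_le_iff_one_le_mul₀ h1u]
    nlinarith
  calc (2 * (K : ℝ) / ‖(2 * (K : ℂ)) - ((x : ℂ) + (η : ℂ) * I)‖) ^ K
      ≤ (Real.exp (2 * u) * (Real.sqrt q)⁻¹) ^ K := by gcongr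
    _ = Real.exp x * q ^ (-((K : ℝ) / 2)) := by
      rw [mul_pow, ← Real.exp_nat_mul, inv_pow]
      congr 1
      · congr 1
        rw [← hux]
        ring
      · rw [Real.rpow_neg (by linarith), Real.sqrt_eq_rpow, ← Real.rpow_natCast, ← Real.rpow_mul (by linarith)]
        congr 2
        ring

/-- the kernel integral -/
theorem ker {K : ℕ} (hK : 2 ≤ K) {x : ℝ} (hx : 1 ≤ x) (hxK : x ≤ K)
    (hint : Integrable fun η : ℝ => (2 * (K : ℂ)) / ((2 * K - ((x : ℂ) + (η : ℂ) * I)) *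
      ((x : ℂ) + (η : ℂ) * I))) :
    1 ≤ ‖∫ η : ℝ, (2 * (K : ℂ)) / ((2 * K - ((x : ℂ) + (η : ℂ) * I)) *
      ((x : ℂ) + (η : ℂ) * I))‖ := by
  have hx0 : 0 < x := by linarith
  have hK0 : (2 : ℝ) ≤ K := by exact_mod_cast hK
  have h1 : (∫ η : ℝ, (2 * (K : ℂ)) / ((2 * K - ((x : ℂ) + (η : ℂ) * I)) *
      ((x : ℂ) + (η : ℂ) * I))).re = ∫ η : ℝ, ((2 * (K : ℂ)) / ((2 * K - ((x : ℂ) + (η : ℂ) * I)) *
      ((x : ℂ) + (η : ℂ) * I))).re := by
    have := integral_re hint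
    simpa using this.symm
  have h2 : π = ∫ η : ℝ, x⁻¹ * (1 + (η / x) ^ 2)⁻¹ := by
    rw [integral_const_mul, Measure.integral_comp_div (fun η : ℝ => (1 + η ^ 2)⁻¹),
      integral_univ_inv_one_add_sq, abs_of_pos hx0, smul_eq_mul]
    field_simp
  have hint2 : Integrable fun η : ℝ => x⁻¹ * (1 + (η / x) ^ 2)⁻¹ :=
    (integrable_inv_one_add_sq.comp_div hx0.ne').const_mul _
  have h3 : ∫ η : ℝ, x⁻¹ * (1 + (η / x) ^ 2)⁻¹ ≤ ∫ η : ℝ, ((2 * (K : ℂ)) /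
      ((2 * K - ((x : ℂ) + (η : ℂ) * I)) * ((x : ℂ) + (η : ℂ) * I))).re := by
    refine integral_mono hint2 hint.re fun η => ?_
    have hz : (x : ℂ) + (η : ℂ) * I ≠ 0 := fun h => by
      have := congrArg Complex.re h
      rw [re_line] at this
      simp only [Complex.zero_re] at this
      linarith
    have hz2 : (2 * K - ((x : ℂ) + (η : ℂ) * I)) ≠ 0 := fun h => by
      have := congrArg Complex.re h
      simp at this
      linarith
    have e1 : (2 * (K : ℂ)) / ((2 * K - ((x : ℂ) + (η : ℂ) * I)) * ((x : ℂ) + (η : ℂ) * I)) =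
        1 / ((x : ℂ) + (η : ℂ) * I) + 1 / (2 * K - ((x : ℂ) + (η : ℂ) * I)) := by
      field_simp
      ring
    have e2 : (1 / ((x : ℂ) + (η : ℂ) * I)).re = x⁻¹ * (1 + (η / x) ^ 2)⁻¹ := by
      rw [one_div, Complex.inv_re, re_line, Complex.normSq_apply, re_line, im_line]
      field_simp
    have e3 : 0 ≤ (1 / (2 * K - ((x : ℂ) + (η : ℂ) * I))).re := by
      rw [one_div, Complex.inv_re]
      refine div_nonneg ?_ (Complex.normSq_nonneg _)
      simp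
      linarith
    show x⁻¹ * (1 + (η / x) ^ 2)⁻¹ ≤ ((2 * (K : ℂ)) / ((2 * K - ((x : ℂ) + (η : ℂ) * I)) *
      ((x : ℂ) + (η : ℂ) * I))).re
    rw [e1, Complex.add_re, e2]
    linarith
  have h4 := Complex.re_le_norm (∫ η : ℝ, (2 * (K : ℂ)) / ((2 * K - ((x : ℂ) + (η : ℂ) * I)) *
      ((x : ℂ) + (η : ℂ) * I)))
  have h5 := Real.pi_gt_three
  linarith

end growAux

open growAux in
/-- MODULE GROW1. Growth to the left of a band-limited function. `A(w) = ∑ c_m e^{-w y_m}`,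
`0 ≤ y_m ≤ 1`; for `Re w₁ ≤ 1`, `x = 2 - Re w₁ ≥ 1`, `K ≥ x`, put
`W(ζ) = (2K/(2K - ζ))^K`. Then `A(w) e^w W(w - w₁)/(w - w₁)` is analytic for `Re w ≤ 2`, `w ≠ w₁`
(`Re (w - w₁) ≤ x ≤ K < 2K`) and, as `A(w) e^w` is bounded for `Re w ≤ 2`, it is `O(|w|^{-2})` there:
`A(w₁) e^{w₁} = (1/2πi) ∫_{Re w = 2} A(w) e^w W(w - w₁)/(w - w₁) dw`. With `ζ = x + iη`:
`|2K - ζ|² = (2K-x)² + η² ≥ (1 - x/2K)² (4K² + η²)`, so
`|W| ≤ (1 - x/2K)^{-K} (1 + η²/4K²)^{-K/2} ≤ e^x (1 + η²/4K²)^{-K/2}`; `|w - w₁| ≥ 1`, and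
`|e^{w-w₁}| = e^x`. -/
theorem grow {ι : Type*} (S : Finset ι) (c : ι → ℂ) (y : ι → ℝ) (hy : ∀ i ∈ S, 0 ≤ y i ∧ y i ≤ 1)
    {K : ℕ} (hK : 2 ≤ K) {w₁ : ℂ} (hw : w₁.re ≤ 1) (hK1 : 2 - w₁.re ≤ K) :
    ‖∑ i ∈ S, c i * Complex.exp (-(w₁ * y i))‖ ≤ Real.exp (2 * (2 - w₁.re)) *
      ∫ η : ℝ, ‖∑ i ∈ S, c i * Complex.exp (-((2 + (η : ℂ) * I) * y i))‖ *
        ((1 + ((η - w₁.im) / (2 * K)) ^ 2) ^ (-((K : ℝ) / 2))) := by
  obtain ⟨x, hx⟩ : ∃ x, x = 2 - w₁.re := ⟨_, rfl⟩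
  have hx1 : 1 ≤ x := by linarith
  have hxK : x ≤ K := by linarith
  have hK0 : (2 : ℝ) ≤ K := by exact_mod_cast hK
  rw [← hx]
  -- the functions
  set F : ℂ → ℂ := fun ζ => (∑ i ∈ S, c i * Complex.exp (-((w₁ + ζ) * y i))) *
    Complex.exp (w₁ + ζ) * (2 * K / (2 * K - ζ)) ^ K with hF
  set N : ℂ → ℂ := fun ζ => F ζ - F 0 * (2 * K / (2 * K - ζ)) with hN
  have hne : ∀ ζ : ℂ, ζ.re < 2 * K → (2 * (K : ℂ) - ζ) ≠ 0 := fun ζ hζ h => by
    have := congrArg Complex.re h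
    simp at this
    linarith
  have hopen : IsOpen {ζ : ℂ | ζ.re < 2 * (K : ℝ)} := isOpen_lt Complex.continuous_re continuous_const
  have h0mem : (0 : ℂ) ∈ {ζ : ℂ | ζ.re < 2 * (K : ℝ)} := by
    show (0 : ℂ).re < 2 * (K : ℝ)
    simp only [Complex.zero_re]
    linarith
  have hdF : DifferentiableOn ℂ F {ζ : ℂ | ζ.re < 2 * (K : ℝ)} := by
    intro ζ hζ
    have h1 := hne ζ hζ
    have h2 : DifferentiableAt ℂ (fun ζ : ℂ => (2 * (K : ℂ) / (2 * K - ζ)) ^ K) ζ := by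
      refine DifferentiableAt.pow (DifferentiableAt.div (by fun_prop) (by fun_prop) h1) K
    have h3 : DifferentiableAt ℂ (fun ζ : ℂ => (∑ i ∈ S, c i * Complex.exp (-((w₁ + ζ) * y i))) *
        Complex.exp (w₁ + ζ)) ζ := by fun_prop
    exact (h3.mul h2).differentiableWithinAt
  have hdN : DifferentiableOn ℂ N {ζ : ℂ | ζ.re < 2 * (K : ℝ)} := by
    intro ζ hζ
    have h1 := hne ζ hζ
    have h2 : DifferentiableAt ℂ (fun ζ : ℂ => F 0 * (2 * (K : ℂ) / (2 * K - ζ))) ζ :=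
      (DifferentiableAt.div (by fun_prop) (by fun_prop) h1).const_mul _
    exact (hdF ζ hζ).sub h2.differentiableWithinAt
  have hN0 : N 0 = 0 := by
    have hK' : (2 * (K : ℂ)) ≠ 0 := by
      have := hne 0 h0mem
      simpa using this
    simp only [hN, sub_zero, div_self hK', mul_one, sub_self]
  set G : ℂ → ℂ := dslope N 0 with hG
  have hdG : DifferentiableOn ℂ G {ζ : ℂ | ζ.re < 2 * (K : ℝ)} :=
    (Complex.differentiableOn_dslope (hopen.mem_nhds h0mem)).2 hdN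
  have hGa : ∀ ζ : ℂ, ζ ≠ 0 → G ζ = N ζ / ζ := fun ζ hζ => by
    rw [hG, dslope_of_ne _ hζ, slope_def_field, hN0, sub_zero, sub_zero]
  -- bounds
  set M : ℝ := Real.exp 2 * ∑ i ∈ S, ‖c i‖ with hM
  have hM0 : 0 ≤ M := by positivity
  have hAe : ∀ ζ : ℂ, ζ.re ≤ x → ‖(∑ i ∈ S, c i * Complex.exp (-((w₁ + ζ) * y i))) *
      Complex.exp (w₁ + ζ)‖ ≤ M := by
    intro ζ hζ
    rw [Finset.sum_mul, hM, Finset.mul_sum]
    refine (norm_sum_le _ _).trans (Finset.sum_le_sum fun i hi => ?_)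
    rw [mul_assoc, ← Complex.exp_add, norm_mul, Complex.norm_exp, mul_comm]
    refine mul_le_mul_of_nonneg_right ?_ (norm_nonneg _)
    rw [Real.exp_le_exp]
    have e1 : (-((w₁ + ζ) * y i) + (w₁ + ζ)).re = (w₁.re + ζ.re) * (1 - y i) := by
      simp
      ring
    rw [e1]
    obtain ⟨h1, h2⟩ := hy i hi
    have h3 : w₁.re + ζ.re ≤ 2 := by linarith
    nlinarith
  have hden : ∀ ζ : ℂ, ζ.re ≤ x → (K : ℝ) ≤ ‖2 * (K : ℂ) - ζ‖ ∧ ‖ζ‖ ≤ 3 * ‖2 * (K : ℂ) - ζ‖ := by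
    intro ζ hζ
    have h1 : (K : ℝ) ≤ ‖2 * (K : ℂ) - ζ‖ := by
      refine le_trans ?_ (Complex.re_le_norm _)
      simp
      linarith
    refine ⟨h1, ?_⟩
    have h2 : ‖ζ‖ ≤ ‖2 * (K : ℂ)‖ + ‖2 * (K : ℂ) - ζ‖ := by
      calc ‖ζ‖ = ‖2 * (K : ℂ) - (2 * (K : ℂ) - ζ)‖ := by congr 1; ring
        _ ≤ _ := norm_sub_le _ _
    have h3 : ‖2 * (K : ℂ)‖ = 2 * K := by
      rw [norm_mul, Complex.norm_natCast, Complex.norm_ofNat]
    linarith
  have hquo : ∀ ζ : ℂ, ‖2 * (K : ℂ) / (2 * K - ζ)‖ = 2 * K / ‖2 * (K : ℂ) - ζ‖ := by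
    intro ζ
    rw [norm_div, norm_mul, Complex.norm_natCast, Complex.norm_ofNat]
  have hq1 : ∀ ζ : ℂ, ζ.re ≤ x → 2 * K / ‖2 * (K : ℂ) - ζ‖ ≤ 2 := by
    intro ζ hζ
    obtain ⟨h1, -⟩ := hden ζ hζ
    rw [div_le_iff₀ (by linarith)]
    linarith
  have hq2 : ∀ ζ : ℂ, ζ.re ≤ x → 1 ≤ ‖ζ‖ → 2 * K / ‖2 * (K : ℂ) - ζ‖ ≤ 6 * K / ‖ζ‖ := by
    intro ζ hζ hζ1
    obtain ⟨h1, h2⟩ := hden ζ hζ
    rw [div_le_div_iff₀ (by linarith) (by linarith)]
    nlinarith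
  have hFb : ∀ ζ : ℂ, ζ.re ≤ x → ‖F ζ‖ ≤ M * (2 * K / ‖2 * (K : ℂ) - ζ‖) ^ K := by
    intro ζ hζ
    rw [hF]
    simp only
    rw [norm_mul, norm_pow, hquo]
    exact mul_le_mul_of_nonneg_right (hAe ζ hζ) (by positivity)
  have hFb2 : ∀ ζ : ℂ, ζ.re ≤ x → 1 ≤ ‖ζ‖ → ‖F ζ‖ ≤ M * 2 ^ (K - 1) * (6 * K) / ‖ζ‖ := by
    intro ζ hζ hζ1
    refine (hFb ζ hζ).trans ?_
    obtain ⟨k, hk⟩ : ∃ k, K = k + 1 := ⟨K - 1, by omega⟩
    have e1 : (2 * K / ‖2 * (K : ℂ) - ζ‖) ^ K = (2 * K / ‖2 * (K : ℂ) - ζ‖) ^ (K - 1) *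
        (2 * K / ‖2 * (K : ℂ) - ζ‖) := by
      rw [← pow_succ, Nat.sub_add_cancel (by omega)]
    rw [e1]
    have e2 : M * 2 ^ (K - 1) * (6 * K) / ‖ζ‖ = M * (2 ^ (K - 1) * (6 * K / ‖ζ‖)) := by ring
    rw [e2]
    refine mul_le_mul_of_nonneg_left ?_ hM0
    exact mul_le_mul (pow_le_pow_left₀ (by positivity) (hq1 ζ hζ) _) (hq2 ζ hζ hζ1) (by positivity)
      (by positivity)
  set C : ℝ := M * 2 ^ (K - 1) * (6 * K) + ‖F 0‖ * (6 * K) with hC
  have hC0 : 0 ≤ C := by positivity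
  have hGb : ∀ ζ : ℂ, ζ.re ≤ x → 1 ≤ ‖ζ‖ → ‖G ζ‖ ≤ C / ‖ζ‖ ^ 2 := by
    intro ζ hζ hζ1
    have hζ0 : ζ ≠ 0 := fun h => by rw [h, norm_zero] at hζ1; linarith
    rw [hGa ζ hζ0, norm_div, pow_two, ← div_div]
    refine div_le_div_of_nonneg_right ?_ (norm_nonneg _)
    have h1 : ‖N ζ‖ ≤ ‖F ζ‖ + ‖F 0 * (2 * K / (2 * K - ζ))‖ := norm_sub_le _ _
    rw [norm_mul (F 0), hquo] at h1
    have h2 := hFb2 ζ hζ hζ1
    have h3 : ‖F 0‖ * (2 * K / ‖2 * (K : ℂ) - ζ‖) ≤ ‖F 0‖ * (6 * K) / ‖ζ‖ := by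
      have e6 : ‖F 0‖ * (6 * K) / ‖ζ‖ = ‖F 0‖ * (6 * K / ‖ζ‖) := by ring
      rw [e6]
      exact mul_le_mul_of_nonneg_left (hq2 ζ hζ hζ1) (norm_nonneg (F 0))
    rw [hC, add_div]
    linarith
  have hx2K : x < 2 * (K : ℝ) := by linarith
  have hzero := half_plane hx2K hdG hC0 hGb
  -- splitting
  have hζ0 : ∀ η : ℝ, (x : ℂ) + (η : ℂ) * I ≠ 0 := fun η h => by
    have := congrArg Complex.re h
    rw [re_line] at this
    simp only [Complex.zero_re] at this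
    linarith
  have hζ1 : ∀ η : ℝ, 1 ≤ ‖(x : ℂ) + (η : ℂ) * I‖ := fun η => by
    have := Complex.re_le_norm ((x : ℂ) + (η : ℂ) * I)
    rw [re_line] at this
    linarith
  have hcF : Continuous fun η : ℝ => F ((x : ℂ) + (η : ℂ) * I) := cont_line hx2K hdF
  have hcl : Continuous fun η : ℝ => (x : ℂ) + (η : ℂ) * I := by fun_prop
  have hcK : Continuous fun η : ℝ => (2 * (K : ℂ)) / ((2 * K - ((x : ℂ) + (η : ℂ) * I)) *
      ((x : ℂ) + (η : ℂ) * I)) := by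
    refine continuous_const.div ((continuous_const.sub hcl).mul hcl) fun η => ?_
    exact mul_ne_zero (hne _ (by rw [re_line]; exact hx2K)) (hζ0 η)
  have hintK : Integrable fun η : ℝ => (2 * (K : ℂ)) / ((2 * K - ((x : ℂ) + (η : ℂ) * I)) *
      ((x : ℂ) + (η : ℂ) * I)) := by
    refine int_line (G := fun ζ => (2 * (K : ℂ)) / ((2 * K - ζ) * ζ)) (C := 6 * K) hcK (by positivity)
      fun ζ hζ hζ1 => ?_
    show ‖(2 * (K : ℂ)) / ((2 * K - ζ) * ζ)‖ ≤ _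
    rw [← div_div, norm_div, hquo, pow_two, ← div_div]
    exact div_le_div_of_nonneg_right (hq2 ζ hζ hζ1) (norm_nonneg _)
  have hintF : Integrable fun η : ℝ => F ((x : ℂ) + (η : ℂ) * I) / ((x : ℂ) + (η : ℂ) * I) := by
    refine int_line (G := fun ζ => F ζ / ζ) (C := M * 2 ^ (K - 1) * (6 * K))
      (hcF.div hcl hζ0) (by positivity) fun ζ hζ hζ1 => ?_
    show ‖F ζ / ζ‖ ≤ _
    rw [norm_div, pow_two, ← div_div]
    exact div_le_div_of_nonneg_right (hFb2 ζ hζ hζ1) (norm_nonneg _)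
  have hsplit : (∫ η : ℝ, F ((x : ℂ) + (η : ℂ) * I) / ((x : ℂ) + (η : ℂ) * I)) =
      F 0 * ∫ η : ℝ, (2 * (K : ℂ)) / ((2 * K - ((x : ℂ) + (η : ℂ) * I)) *
      ((x : ℂ) + (η : ℂ) * I)) := by
    have h1 : ∀ η : ℝ, G ((x : ℂ) + (η : ℂ) * I) =
        F ((x : ℂ) + (η : ℂ) * I) / ((x : ℂ) + (η : ℂ) * I) -
        F 0 * ((2 * (K : ℂ)) / ((2 * K - ((x : ℂ) + (η : ℂ) * I)) * ((x : ℂ) + (η : ℂ) * I))) := by
      intro η
      have e5 : F 0 * (2 * K / (2 * K - ((x : ℂ) + (η : ℂ) * I))) / ((x : ℂ) + (η : ℂ) * I) =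
          F 0 * ((2 * (K : ℂ)) / ((2 * K - ((x : ℂ) + (η : ℂ) * I)) * ((x : ℂ) + (η : ℂ) * I))) := by
        rw [mul_div_assoc, div_div]
      rw [hGa _ (hζ0 η), ← e5, ← sub_div]
    simp_rw [h1] at hzero
    rw [integral_sub hintF (hintK.const_mul _), integral_const_mul] at hzero
    exact sub_eq_zero.1 hzero
  -- conclusion
  have hF0 : ‖F 0‖ = ‖∑ i ∈ S, c i * Complex.exp (-(w₁ * y i))‖ * Real.exp w₁.re := by
    have hK' : (2 * (K : ℂ)) ≠ 0 := by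
      have := hne 0 h0mem
      simpa using this
    simp only [hF, add_zero, sub_zero, div_self hK', one_pow, mul_one]
    rw [norm_mul, Complex.norm_exp]
  have hker := ker hK hx1 hxK hintK
  have hle1 : ‖F 0‖ ≤ ‖∫ η : ℝ, F ((x : ℂ) + (η : ℂ) * I) / ((x : ℂ) + (η : ℂ) * I)‖ := by
    rw [hsplit, norm_mul (F 0)]
    exact le_mul_of_one_le_right (norm_nonneg _) hker
  -- the majorant
  set Q : ℝ → ℝ := fun η => ‖∑ i ∈ S, c i * Complex.exp (-((2 + (η : ℂ) * I) * y i))‖ *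
    ((1 + ((η - w₁.im) / (2 * K)) ^ 2) ^ (-((K : ℝ) / 2))) with hQ
  have hQc : Continuous Q := by
    refine Continuous.mul (by fun_prop) ?_
    refine Continuous.rpow_const (by fun_prop) fun η => Or.inl ?_
    positivity
  have hQi : Integrable Q := by
    have hg : Integrable fun η : ℝ => (∑ i ∈ S, ‖c i‖) * (1 + ((η - w₁.im) / (2 * K)) ^ 2)⁻¹ := by
      have h1 : Integrable fun η : ℝ => (1 + (η / (2 * K)) ^ 2)⁻¹ :=
        integrable_inv_one_add_sq.comp_div (by positivity)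
      exact (h1.comp_sub_right w₁.im).const_mul _
    refine hg.mono' hQc.aestronglyMeasurable (Eventually.of_forall fun η => ?_)
    rw [hQ]
    simp only
    rw [norm_mul, norm_norm, Real.norm_of_nonneg (by positivity)]
    refine mul_le_mul ?_ ?_ (by positivity) (by positivity)
    · refine (norm_sum_le _ _).trans (Finset.sum_le_sum fun i hi => ?_)
      rw [norm_mul, Complex.norm_exp]
      refine mul_le_of_le_one_right (norm_nonneg _) ?_
      rw [Real.exp_le_one_iff]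
      have h1 := (hy i hi).1
      simp
      linarith
    · rw [← Real.rpow_neg_one]
      refine Real.rpow_le_rpow_of_exponent_le ?_ ?_
      · nlinarith [sq_nonneg ((η - w₁.im) / (2 * (K : ℝ)))]
      · linarith
  have hle2 : ‖∫ η : ℝ, F ((x : ℂ) + (η : ℂ) * I) / ((x : ℂ) + (η : ℂ) * I)‖ ≤
      ∫ η : ℝ, (Real.exp 2 * Real.exp x) * Q (η + w₁.im) := by
    refine norm_integral_le_of_norm_le ((hQi.comp_add_right w₁.im).const_mul _)
      (Eventually.of_forall fun η => ?_)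
    have e1 : w₁ + ((x : ℂ) + (η : ℂ) * I) = 2 + ((η + w₁.im : ℝ) : ℂ) * I := by
      rw [hx]
      apply Complex.ext
      · simp
      · simp
        ring
    have e2 : ‖F ((x : ℂ) + (η : ℂ) * I)‖ ≤ ‖∑ i ∈ S, c i * Complex.exp (-((2 +
        ((η + w₁.im : ℝ) : ℂ) * I) * y i))‖ * Real.exp 2 *
        (Real.exp x * (1 + (η / (2 * K)) ^ 2) ^ (-((K : ℝ) / 2))) := by
      rw [hF]
      simp only
      rw [e1, norm_mul, norm_mul, norm_pow, hquo, Complex.norm_exp]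
      have e3 : (2 + ((η + w₁.im : ℝ) : ℂ) * I).re = 2 := by simp
      rw [e3]
      exact mul_le_mul_of_nonneg_left (weight hK hx1 hxK η) (by positivity)
    have e4 : ‖F ((x : ℂ) + (η : ℂ) * I) / ((x : ℂ) + (η : ℂ) * I)‖ ≤ ‖F ((x : ℂ) + (η : ℂ) * I)‖ := by
      rw [norm_div]
      exact div_le_self (norm_nonneg _) (hζ1 η)
    refine (e4.trans e2).trans (le_of_eq ?_)
    rw [hQ]
    simp only
    rw [show η + w₁.im - w₁.im = η by ring]
    ring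
  rw [integral_const_mul, integral_add_right_eq_self] at hle2
  have hfin := hle1.trans hle2
  rw [hF0] at hfin
  have hexp : Real.exp (2 * x) = Real.exp 2 * Real.exp x / Real.exp w₁.re := by
    rw [← Real.exp_add, ← Real.exp_sub, hx]
    congr 1
    ring
  rw [hexp, div_mul_eq_mul_div, le_div_iff₀ (Real.exp_pos _)]
  exact hfin

/-- MODULE GROW2. Split the integral at `|η - Im w₁| = 2K`: near, `|η| ≤ 4K`; far,
`(1 + v²)^{-K/2} ≤ 2^{1 - K/2} (1 + v²)^{-1} ≤ 2^{1-K/2} · 3 (1 + (η/2K)²)^{-1}` for `|v| ≥ 1`,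
`v = (η - Im w₁)/2K`, `|Im w₁| ≤ 2K`. -/
theorem grow' {ι : Type*} (S : Finset ι) (c : ι → ℂ) (y : ι → ℝ)
    (hy : ∀ i ∈ S, 0 ≤ y i ∧ y i ≤ 1) {K : ℕ} (hK : 4 ≤ K) {w₁ : ℂ} (hw : w₁.re ≤ 1)
    (hK1 : 2 - w₁.re ≤ K) (him : |w₁.im| ≤ 2 * K) {s J : ℝ}
    (hs : ∀ η : ℝ, |η| ≤ 4 * K →
      ‖∑ i ∈ S, c i * Complex.exp (-((2 + (η : ℂ) * I) * y i))‖ ≤ s)
    (hJ : ∫ η : ℝ, ‖∑ i ∈ S, c i * Complex.exp (-((2 + (η : ℂ) * I) * y i))‖ /
      (1 + (η / (2 * K)) ^ 2) ≤ J) :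
    ‖∑ i ∈ S, c i * Complex.exp (-(w₁ * y i))‖ ≤
      Real.exp (2 * (2 - w₁.re)) * (4 * K * s + 6 * 2 ^ (-((K : ℝ) / 2)) * J) := by
  refine (grow S c y hy (by omega) hw hK1).trans ?_
  refine mul_le_mul_of_nonneg_left ?_ (Real.exp_pos _).le
  have hK0 : (4 : ℝ) ≤ K := by exact_mod_cast hK
  set A : ℝ → ℝ := fun η => ‖∑ i ∈ S, c i * Complex.exp (-((2 + (η : ℂ) * I) * y i))‖ with hA
  have hA0 : ∀ η, 0 ≤ A η := fun η => norm_nonneg _
  have hAc : Continuous A := by fun_prop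
  have hAb : ∀ η, A η ≤ ∑ i ∈ S, ‖c i‖ := by
    intro η
    refine (norm_sum_le _ _).trans (Finset.sum_le_sum fun i hi => ?_)
    rw [norm_mul, Complex.norm_exp]
    refine mul_le_of_le_one_right (norm_nonneg _) ?_
    rw [Real.exp_le_one_iff]
    have h1 := (hy i hi).1
    simp
    linarith
  have hs0 : 0 ≤ s := (hA0 0).trans (hs 0 (by rw [abs_zero]; positivity))
  have hJi : Integrable fun η : ℝ => A η / (1 + (η / (2 * K)) ^ 2) := by
    have hg : Integrable fun η : ℝ => (∑ i ∈ S, ‖c i‖) * (1 + (η / (2 * K)) ^ 2)⁻¹ :=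
      (integrable_inv_one_add_sq.comp_div (by positivity)).const_mul _
    refine hg.mono' ?_ (Eventually.of_forall fun η => ?_)
    · refine (hAc.div (by fun_prop) fun η => ?_).aestronglyMeasurable
      positivity
    · rw [norm_div, Real.norm_of_nonneg (hA0 η), Real.norm_of_nonneg (by positivity), div_eq_mul_inv]
      exact mul_le_mul_of_nonneg_right (hAb η) (by positivity)
  -- pointwise bound
  have hpt : ∀ η : ℝ, A η * ((1 + ((η - w₁.im) / (2 * K)) ^ 2) ^ (-((K : ℝ) / 2))) ≤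
      (Icc (w₁.im - 2 * K) (w₁.im + 2 * K)).indicator (fun _ => s) η +
        6 * 2 ^ (-((K : ℝ) / 2)) * (A η / (1 + (η / (2 * K)) ^ 2)) := by
    intro η
    have hq : 1 ≤ 1 + ((η - w₁.im) / (2 * K)) ^ 2 := by nlinarith [sq_nonneg ((η - w₁.im) / (2 * (K : ℝ)))]
    have hr0 : 0 ≤ 6 * (2 : ℝ) ^ (-((K : ℝ) / 2)) * (A η / (1 + (η / (2 * K)) ^ 2)) := by
      have := hA0 η
      positivity
    by_cases hη : η ∈ Icc (w₁.im - 2 * K) (w₁.im + 2 * K)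
    · rw [Set.indicator_of_mem hη]
      have h1 : (1 + ((η - w₁.im) / (2 * (K : ℝ))) ^ 2) ^ (-((K : ℝ) / 2)) ≤ 1 :=
        Real.rpow_le_one_of_one_le_of_nonpos hq (by linarith)
      have h2 : A η ≤ s := by
        refine hs η ?_
        obtain ⟨h3, h4⟩ := abs_le.1 him
        rw [abs_le]
        constructor <;> linarith [hη.1, hη.2]
      have h3 : A η * ((1 + ((η - w₁.im) / (2 * K)) ^ 2) ^ (-((K : ℝ) / 2))) ≤ A η * 1 :=
        mul_le_mul_of_nonneg_left h1 (hA0 η)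
      linarith
    · rw [Set.indicator_of_notMem hη, zero_add]
      have hv : 2 ≤ 1 + ((η - w₁.im) / (2 * K)) ^ 2 := by
        have h1 : 2 * (K : ℝ) ≤ |η - w₁.im| := by
          by_contra hcon
          push Not at hcon
          apply hη
          obtain ⟨h3, h4⟩ := abs_lt.1 hcon
          constructor <;> linarith
        have h2 : 1 ≤ |(η - w₁.im) / (2 * K)| := by
          rw [abs_div, abs_of_pos (show (0 : ℝ) < 2 * K by positivity), one_le_div (by positivity)]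
          exact h1
        have h3 : 1 ≤ ((η - w₁.im) / (2 * K)) ^ 2 := by
          rw [← sq_abs]
          nlinarith
        linarith
      set q : ℝ := 1 + ((η - w₁.im) / (2 * K)) ^ 2 with hqd
      have h1 : q ^ (-((K : ℝ) / 2)) ≤ 2 * (2 : ℝ) ^ (-((K : ℝ) / 2)) * q⁻¹ := by
        have e1 : q ^ (-((K : ℝ) / 2)) = q ^ (-((K : ℝ) / 2 - 1)) * q⁻¹ := by
          rw [← Real.rpow_neg_one, ← Real.rpow_add (by linarith)]
          congr 1
          ring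
        have e2 : q ^ (-((K : ℝ) / 2 - 1)) ≤ (2 : ℝ) ^ (-((K : ℝ) / 2 - 1)) :=
          Real.rpow_le_rpow_of_nonpos (by norm_num) hv (by linarith)
        have e3 : (2 : ℝ) ^ (-((K : ℝ) / 2 - 1)) = 2 * (2 : ℝ) ^ (-((K : ℝ) / 2)) := by
          rw [show -((K : ℝ) / 2 - 1) = 1 + -((K : ℝ) / 2) by ring, Real.rpow_add (by norm_num),
            Real.rpow_one]
        rw [e1, ← e3]
        exact mul_le_mul_of_nonneg_right e2 (by positivity)
      have h2 : q⁻¹ ≤ 3 / (1 + (η / (2 * K)) ^ 2) := by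
        rw [inv_eq_one_div, div_le_div_iff₀ (by linarith) (by positivity)]
        have e1 : η / (2 * K) = (η - w₁.im) / (2 * K) + w₁.im / (2 * K) := by ring
        have e2 : (w₁.im / (2 * K)) ^ 2 ≤ 1 := by
          have : |w₁.im / (2 * K)| ≤ 1 := by
            rw [abs_div, abs_of_pos (show (0 : ℝ) < 2 * K by positivity), div_le_one (by positivity)]
            exact him
          rw [← sq_abs]
          nlinarith [abs_nonneg (w₁.im / (2 * (K : ℝ)))]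
        rw [e1, hqd]
        nlinarith [sq_nonneg ((η - w₁.im) / (2 * (K : ℝ)) - w₁.im / (2 * K)),
          sq_nonneg ((η - w₁.im) / (2 * (K : ℝ)))]
      calc A η * q ^ (-((K : ℝ) / 2)) ≤ A η * (2 * (2 : ℝ) ^ (-((K : ℝ) / 2)) * q⁻¹) :=
            mul_le_mul_of_nonneg_left h1 (hA0 η)
        _ ≤ A η * (2 * (2 : ℝ) ^ (-((K : ℝ) / 2)) * (3 / (1 + (η / (2 * K)) ^ 2))) := by
            have := hA0 η
            gcongr
        _ = 6 * 2 ^ (-((K : ℝ) / 2)) * (A η / (1 + (η / (2 * K)) ^ 2)) := by ring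
  have hi1 : Integrable ((Icc (w₁.im - 2 * K) (w₁.im + 2 * K)).indicator (fun _ : ℝ => s)) := by
    rw [integrable_indicator_iff measurableSet_Icc]
    exact integrableOn_const (by simp)
  have hi2 := hJi.const_mul (6 * (2 : ℝ) ^ (-((K : ℝ) / 2)))
  calc ∫ η : ℝ, A η * ((1 + ((η - w₁.im) / (2 * K)) ^ 2) ^ (-((K : ℝ) / 2)))
      ≤ ∫ η : ℝ, ((Icc (w₁.im - 2 * K) (w₁.im + 2 * K)).indicator (fun _ => s) η +
        6 * 2 ^ (-((K : ℝ) / 2)) * (A η / (1 + (η / (2 * K)) ^ 2))) := by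
        refine integral_mono_of_nonneg (Eventually.of_forall fun η => ?_) (hi1.add hi2)
          (Eventually.of_forall hpt)
        have := hA0 η
        positivity
    _ = 4 * K * s + 6 * 2 ^ (-((K : ℝ) / 2)) * ∫ η : ℝ, (A η / (1 + (η / (2 * K)) ^ 2)) := by
        rw [integral_add hi1 hi2, integral_const_mul, integral_indicator measurableSet_Icc,
          setIntegral_const, smul_eq_mul, Measure.real, Real.volume_Icc, ENNReal.toReal_ofReal (by linarith)]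
        ring
    _ ≤ 4 * K * s + 6 * 2 ^ (-((K : ℝ) / 2)) * J := by
        gcongr

end Pool.Agent.MP_67227b_nt.Ah
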