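import Pool.Agent.MP_67227b_nt.Ah.AhRect
import Pool.Agent.MP_67227b_nt.Sg.SgG

set_option autoImplicit false

open Filter Topology Set MeasureTheory Complex
open scoped Real ArithmeticFunction ContDiff

namespace Pool.Agent.MP_67227b_nt.Ah

open Pool.Agent.Lib.ZetaCount_helper33 Pool.Agent.MP_67227b_nt Pool.Agent.MP_67227b_nt.Mo
open Pool.Agent.MP_67227b_nt.Sg Pool.Agent.MP_67227b_nt.Pp
open Pool.Agent.MP_67227b_nt.Mo.MomentBAux (DP)

/-- Crude bounds for zeta on `2 ≤ Re s` (copy of a private lemma of `Sg/SgG.lean`). -/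
private lemma pois_zeta {s : ℂ} (hs : 2 ≤ s.re) :
    ‖riemannZeta s‖ ≤ 2 ∧ 1 / 3 ≤ ‖riemannZeta s‖ := by
  have hs1 : 1 < s.re := by linarith
  have hsum2 : HasSum (fun n : ℕ => 1 / (n : ℝ) ^ 2) (π ^ 2 / 6) := hasSum_zeta_two
  have hnorm : ∀ n : ℕ, ‖1 / (n : ℂ) ^ s‖ ≤ 1 / (n : ℝ) ^ 2 := by
    intro n
    rcases Nat.eq_zero_or_pos n with h0 | h0
    · subst h0
      have : s ≠ 0 := by
        rintro rfl
        simp at hs
        linarith
      simp [Complex.zero_cpow this]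
    · rw [norm_div, norm_one, Complex.norm_natCast_cpow_of_pos h0]
      apply one_div_le_one_div_of_le (by positivity)
      rw [← Real.rpow_natCast]
      apply Real.rpow_le_rpow_of_exponent_le
      · exact_mod_cast h0
      · exact_mod_cast hs
  have hsumm : Summable fun n : ℕ => 1 / (n : ℂ) ^ s :=
    Summable.of_norm_bounded hsum2.summable hnorm
  have hpi : π ^ 2 / 6 ≤ 1.6451 := by
    have h1 := Real.pi_lt_d6
    have h2 := Real.pi_pos
    nlinarith
  have hz : riemannZeta s = ∑' n : ℕ, 1 / (n : ℂ) ^ s := zeta_eq_tsum_one_div_nat_cpow hs1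
  constructor
  · rw [hz]
    have h1 : ‖∑' n : ℕ, 1 / (n : ℂ) ^ s‖ ≤ π ^ 2 / 6 :=
      tsum_of_norm_bounded hsum2 hnorm
    linarith
  · have h1 : ∑' n : ℕ, 1 / (n : ℂ) ^ s = (∑ n ∈ Finset.range 2, 1 / (n : ℂ) ^ s) +
        ∑' n : ℕ, 1 / ((n + 2 : ℕ) : ℂ) ^ s := (hsumm.sum_add_tsum_nat_add 2).symm
    have h2 : ∑ n ∈ Finset.range 2, 1 / (n : ℂ) ^ s = 1 := by
      have : s ≠ 0 := by
        rintro rfl
        simp at hs
        linarith
      simp [Finset.sum_range_succ, Complex.zero_cpow this]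
    have h3 : HasSum (fun n : ℕ => 1 / ((n + 2 : ℕ) : ℝ) ^ 2)
        (π ^ 2 / 6 - ∑ n ∈ Finset.range 2, 1 / (n : ℝ) ^ 2) := by
      have := (hasSum_nat_add_iff' (f := fun n : ℕ => 1 / (n : ℝ) ^ 2) (g := π ^ 2 / 6) 2).mpr hsum2
      exact this
    have h4 : ∑ n ∈ Finset.range 2, 1 / (n : ℝ) ^ 2 = 1 := by
      simp [Finset.sum_range_succ]
    rw [h4] at h3
    have h5 : ‖∑' n : ℕ, 1 / ((n + 2 : ℕ) : ℂ) ^ s‖ ≤ π ^ 2 / 6 - 1 :=
      tsum_of_norm_bounded h3 (fun n => hnorm (n + 2))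
    rw [hz, h1, h2]
    have h6 := norm_sub_le_norm_add (1 : ℂ) (∑' n : ℕ, 1 / ((n + 2 : ℕ) : ℂ) ^ s)
    rw [norm_one] at h6
    linarith

private lemma pois_Hq {α : ℝ} {s : ℂ} (hs : 2 ≤ s.re) : ‖Hq α s‖ ≤ 6 := by
  have h1 := (pois_zeta hs).2
  have h2 : ‖riemannZeta (s + (α : ℂ) * I)‖ ≤ 2 := (pois_zeta (by simpa using hs)).1
  unfold Hq
  rw [norm_div, div_le_iff₀ (by linarith)]
  linarith

/-- the norm of the Gaussian weight -/
private lemma pois_w (s z : ℂ) (D : ℝ) :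
    ‖Complex.exp (((s - z) / (D : ℂ)) ^ 2)‖ =
      Real.exp (((s.re - z.re) ^ 2 - (s.im - z.im) ^ 2) / D ^ 2) := by
  rw [Complex.norm_exp]
  congr 1
  have : ((s - z) / (D : ℂ)) ^ 2 = (s - z) ^ 2 / ((D ^ 2 : ℝ) : ℂ) := by
    push_cast
    rw [div_pow]
  rw [this, Complex.div_ofReal_re]
  congr 1
  rw [sq, Complex.mul_re, Complex.sub_re, Complex.sub_im]
  ring

/-- the norm of the kernel on the left side -/
private lemma pois_ker {L x t t₀ : ℝ} (hL : 0 < L) (hx : 1 < x) :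
    ‖(((2 * (x - 1) / L : ℝ) : ℂ) / ((pl (1 / 2 + 1 / L) t - pl (1 / 2 + (2 - x) / L) t₀))) /
      (pl (1 / 2 + 1 / L) t - pl (1 / 2 + x / L) t₀)‖ =
      2 * (L * ((x - 1) / ((x - 1) ^ 2 + (L * (t - t₀)) ^ 2))) := by
  have h1 : pl (1 / 2 + 1 / L) t - pl (1 / 2 + (2 - x) / L) t₀ =
      (((x - 1) / L : ℝ) : ℂ) + ((t - t₀ : ℝ) : ℂ) * I := by
    unfold pl
    push_cast
    ring
  have h2 : pl (1 / 2 + 1 / L) t - pl (1 / 2 + x / L) t₀ =
      ((-((x - 1) / L) : ℝ) : ℂ) + ((t - t₀ : ℝ) : ℂ) * I := by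
    unfold pl
    push_cast
    ring
  have h3 : ‖(((x - 1) / L : ℝ) : ℂ) + ((t - t₀ : ℝ) : ℂ) * I‖ =
      Real.sqrt (((x - 1) / L) ^ 2 + (t - t₀) ^ 2) := Complex.norm_add_mul_I _ _
  have h4 : ‖((-((x - 1) / L) : ℝ) : ℂ) + ((t - t₀ : ℝ) : ℂ) * I‖ =
      Real.sqrt (((x - 1) / L) ^ 2 + (t - t₀) ^ 2) := by
    rw [Complex.norm_add_mul_I, neg_sq]
  have hp : 0 < ((x - 1) / L) ^ 2 + (t - t₀) ^ 2 := by
    have : 0 < (x - 1) / L := div_pos (by linarith) hL
    positivity
  rw [h1, h2, norm_div, norm_div, h3, h4, div_div, Real.mul_self_sqrt hp.le, Complex.norm_real,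
    Real.norm_of_nonneg (div_nonneg (by linarith) hL.le)]
  have hx0 : 0 < x - 1 := by linarith
  have hq : (0 : ℝ) < (x - 1) ^ 2 + (L * (t - t₀)) ^ 2 := by positivity
  field_simp

private lemma pois_exp : Real.exp (1 / 2) ≤ 2 := by
  have h5 := Real.exp_one_lt_d9
  have h6 : Real.exp (1 / 2) * Real.exp (1 / 2) = Real.exp 1 := by
    rw [← Real.exp_add]; norm_num
  nlinarith [Real.exp_pos (1 / 2)]

private lemma pois_decay (a : ℝ) {k δ : ℝ} (hδ : 0 < δ) (hk : 0 < k) :
    Tendsto (fun T : ℝ => T ^ a * Real.exp (-(k * T ^ δ))) atTop (𝓝 0) := by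
  have h1 : Tendsto (fun x : ℝ => x ^ (a / δ) * Real.exp (-k * x)) atTop (𝓝 0) :=
    tendsto_rpow_mul_exp_neg_mul_atTop_nhds_zero _ _ hk
  have h2 := h1.comp (tendsto_rpow_atTop hδ)
  refine h2.congr' ?_
  filter_upwards [eventually_gt_atTop 0] with T hT
  simp only [Function.comp]
  rw [← Real.rpow_mul hT.le, mul_div_cancel₀ _ hδ.ne', neg_mul]

/-- MODULE POIS. A Poisson inequality for `Hq²`. Put `σ₀ = 1/2 + 1/L`, `z = sw T t₀ x`,
`z* = sw T t₀ (2 - x)` (the reflection of `z` in the line), `f = Hq²`, `w(s) = exp (((s - z)/T^{3/4})²)`.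
Apply `bd_pole` (pole `z`) minus `bd_zero` (pole `z*` outside) to `f w/(s - z) - f w/(s - z*)` in
`[σ₀, T^{1/2}] × [t₀ - εT, t₀ + εT]`: on the left side
`‖1/(s-z) - 1/(s-z*)‖ = 2((x-1)/L)/(((x-1)/L)² + (t-t₀)²)` and `‖w‖ ≤ 2`; on the horizontal sides
`‖w‖ ≤ exp (-ε² T^{1/2} + 1)`, `‖f‖ ≤ T^{2C}` (`Hq_growth` for `Re s ≤ 4`, bounded for `Re s ≥ 2`); on
the right side `‖f‖ ≤ C`, `‖w‖ ≤ e`, and `∫ 2((x-1)/L)/(T + y²) dy ≤ C T^{-1/2}`. -/
theorem Hq_sq_le (hRH : RiemannHypothesis) {ε V : ℝ} (hε : 0 < ε) (hε1 : ε ≤ 1 / 8)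
    (hV : 1 < V) : ∀ᶠ T : ℝ in atTop, ∀ x ∈ Ioc 1 V,
      ∀ t₀ ∈ Icc ((1 / 2 + 2 * ε) * T) ((1 - 2 * ε) * T),
        ‖Hq (al T) (sw T t₀ x)‖ ^ 2 ≤
          (∫ t in (t₀ - ε * T)..(t₀ + ε * T), ‖Hq (al T) (sw T t 1)‖ ^ 2 *
            (Real.log T * ((x - 1) / ((x - 1) ^ 2 + (Real.log T * (t - t₀)) ^ 2)))) + 1 := by
  obtain ⟨C, hC, hgr⟩ := Hq_growth hRH (u := 1 / 2) (β := 1) (by norm_num) one_pos
  have e1 : Tendsto (fun T : ℝ => 2 * Real.exp 1 *
      (T ^ (2 * C + 1 / 2) * Real.exp (-(ε ^ 2 * T ^ (1 / 2 : ℝ)))) +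
      72 * Real.exp 1 * (T ^ (1 / 2 : ℝ) * Real.exp (-(ε ^ 2 * T ^ (1 / 2 : ℝ)))) +
      576 * Real.exp 1 * ε * V * (Real.log T)⁻¹) atTop (𝓝 0) := by
    have t1 := pois_decay (2 * C + 1 / 2) (k := ε ^ 2) (δ := 1 / 2) (by norm_num) (by positivity)
    have t2 := pois_decay (1 / 2) (k := ε ^ 2) (δ := 1 / 2) (by norm_num) (by positivity)
    have t3 := Real.tendsto_log_atTop.inv_tendsto_atTop
    have := ((t1.const_mul (2 * Real.exp 1)).add (t2.const_mul (72 * Real.exp 1))).add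
      (t3.const_mul (576 * Real.exp 1 * ε * V))
    simpa using this
  have ev1 := e1.eventually (gt_mem_nhds (zero_lt_one))
  have ev2 : ∀ᶠ T : ℝ in atTop, (4 : ℝ) ≤ T ^ (1 / 2 : ℝ) :=
    (tendsto_rpow_atTop (by norm_num : (0 : ℝ) < 1 / 2)).eventually_ge_atTop 4
  have ev3 : ∀ᶠ T : ℝ in atTop, 2 * π + 2 * V + 1 ≤ Real.log T :=
    Real.tendsto_log_atTop.eventually_ge_atTop _
  have ev4 : ∀ᶠ T : ℝ in atTop, 1 ≤ ε * T :=
    (tendsto_id.const_mul_atTop hε).eventually_ge_atTop 1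
  filter_upwards [hgr, ev1, ev2, ev3, ev4, eventually_ge_atTop 16] with T hgr' hE hR4 hLV hεT hT16
    x hx t₀ ht₀
  have hT0 : 0 < T := by linarith
  have hT1 : 1 ≤ T := by linarith
  have hπ := Real.pi_pos
  set L := Real.log T with hLdef
  have hL0 : 0 < L := by linarith
  set R : ℝ := T ^ (1 / 2 : ℝ) with hR
  have hRR : R * R = T := by
    rw [hR, ← Real.rpow_add hT0]
    norm_num
  set D : ℝ := T ^ (3 / 4 : ℝ) with hD
  have hD0 : 0 < D := Real.rpow_pos_of_pos hT0 _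
  have hDD : D ^ 2 = T * R := by
    rw [hD, hR, ← Real.rpow_natCast, ← Real.rpow_mul hT0.le]
    nth_rewrite 2 [← Real.rpow_one T]
    rw [← Real.rpow_add hT0]
    norm_num
  set X : ℝ := ε * T with hX
  have hx1 : 1 < x := hx.1
  have hxV : x ≤ V := hx.2
  set z : ℂ := pl (1 / 2 + x / L) t₀ with hz
  set z' : ℂ := pl (1 / 2 + (2 - x) / L) t₀ with hz'
  set a : ℝ := 1 / 2 + 1 / L with ha
  have hzre : z.re = 1 / 2 + x / L := pl_re _ _
  have hzim : z.im = t₀ := pl_im _ _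
  have hz're : z'.re = 1 / 2 + (2 - x) / L := pl_re _ _
  have hz'im : z'.im = t₀ := pl_im _ _
  have hxL : x / L ≤ 1 / 2 := by
    rw [div_le_iff₀ hL0]; linarith
  have hxL0 : 1 / L < x / L := by gcongr
  have hxL1 : (2 - x) / L < 1 / L := by gcongr; linarith
  have h1L : 0 < 1 / L := by positivity
  have hazr : a < z.re := by rw [hzre, ha]; linarith
  have hzR : z.re < R := by rw [hzre]; linarith
  have haR : a ≤ R := (hazr.trans hzR).le
  have hzz : z - z' = ((2 * (x - 1) / L : ℝ) : ℂ) := by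
    rw [hz, hz']
    unfold pl
    push_cast
    ring
  have hxL2 : 0 < 2 * (x - 1) / L := by
    apply div_pos _ hL0
    linarith
  have hxL3 : 2 * (x - 1) / L ≤ 2 * V / L := by gcongr; linarith
  have hxL4 : 2 * V / L ≤ 1 := by
    rw [div_le_one hL0]; linarith
  have hal : al T = 2 * π * (1 / 2) / L := rfl
  have hal0 : 0 ≤ al T := by rw [hal]; positivity
  set g : ℂ → ℂ := fun s => Hq (al T) s ^ 2 * Complex.exp (((s - z) / (D : ℂ)) ^ 2) *
    (((2 * (x - 1) / L : ℝ) : ℂ) / (s - z')) with hg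
  have hX0 : 0 < X := by linarith
  have hTt : T / 2 ≤ t₀ - X := by
    have := ht₀.1
    rw [hX]
    linarith
  have hTt' : t₀ + X ≤ 4 * T := by
    have := ht₀.2
    rw [hX]
    linarith
  -- differentiability
  have hgd : DifferentiableOn ℂ g (Icc a R ×ℂ Icc (t₀ - X) (t₀ + X)) := by
    intro s hs
    rw [Complex.mem_reProdIm] at hs
    have hre : 1 / 2 < s.re := by
      have := hs.1.1
      rw [ha] at this
      linarith
    have him : 0 < s.im := by
      have := hs.2.1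
      linarith
    have d1 : DifferentiableAt ℂ (Hq (al T)) s := differentiableAt_Hq hRH hal0 hre him
    have d2 : DifferentiableAt ℂ (fun s : ℂ => Complex.exp (((s - z) / (D : ℂ)) ^ 2)) s := by
      fun_prop
    have hne : s - z' ≠ 0 := by
      intro h
      have h1 : s.re = z'.re := by rw [sub_eq_zero.1 h]
      have h2 := hs.1.1
      rw [h1, hz're, ha] at h2
      linarith
    have d3 : DifferentiableAt ℂ (fun s : ℂ => ((2 * (x - 1) / L : ℝ) : ℂ) / (s - z')) s :=
      (differentiableAt_const _).div (by fun_prop) hne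
    exact (((d1.pow 2).mul d2).mul d3).differentiableWithinAt
  have hbd := bd_pole (f := g) (a := a) (b := R) (c := t₀ - X) (d := t₀ + X) (z := z) hazr hzR
    (by rw [hzim]; linarith) (by rw [hzim]; linarith) hgd
  have hgz : g z = Hq (al T) z ^ 2 := by
    have : z - z' ≠ 0 := by
      rw [hzz]
      exact_mod_cast hxL2.ne'
    simp only [hg, sub_self, zero_div, ne_eq, OfNat.ofNat_ne_zero, not_false_eq_true, zero_pow,
      Complex.exp_zero, mul_one]
    rw [← hzz, div_self this, mul_one]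
  rw [hgz] at hbd
  -- norms on the sides
  have hnorm : ∀ s : ℂ, ‖g s / (s - z)‖ = ‖Hq (al T) s‖ ^ 2 *
      Real.exp (((s.re - z.re) ^ 2 - (s.im - z.im) ^ 2) / D ^ 2) *
      ‖(((2 * (x - 1) / L : ℝ) : ℂ) / (s - z')) / (s - z)‖ := by
    intro s
    simp only [hg]
    rw [mul_div_assoc, norm_mul, norm_mul, norm_pow, pois_w s z D]
  have hker : ∀ (s : ℂ) (m : ℝ), 0 < m → m ≤ ‖s - z‖ → m ≤ ‖s - z'‖ →
      ‖(((2 * (x - 1) / L : ℝ) : ℂ) / (s - z')) / (s - z)‖ ≤ 2 * V / L / m ^ 2 := by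
    intro s m hm h1 h2
    rw [norm_div, norm_div, Complex.norm_real, Real.norm_of_nonneg hxL2.le, div_div, sq]
    gcongr
  have hre_le : ∀ (s : ℂ), |s.re - z.re| ≤ ‖s - z‖ := fun s => by
    simpa using Complex.abs_re_le_norm (s - z)
  have hre_le' : ∀ (s : ℂ), |s.re - z'.re| ≤ ‖s - z'‖ := fun s => by
    simpa using Complex.abs_re_le_norm (s - z')
  have him_le : ∀ (s : ℂ), |s.im - z.im| ≤ ‖s - z‖ := fun s => by
    simpa using Complex.abs_im_le_norm (s - z)
  have him_le' : ∀ (s : ℂ), |s.im - z'.im| ≤ ‖s - z'‖ := fun s => by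
    simpa using Complex.abs_im_le_norm (s - z')
  have hHq : ∀ s : ℂ, a ≤ s.re → t₀ - X ≤ s.im → s.im ≤ t₀ + X →
      ‖Hq (al T) s‖ ^ 2 ≤ T ^ (2 * C) + 36 := by
    intro s h1 h2 h3
    have hpl : s = pl s.re s.im := by
      unfold pl
      exact (Complex.re_add_im s).symm
    have hTC : 0 ≤ T ^ (2 * C) := by positivity
    rcases le_or_gt s.re 4 with h4 | h4
    · have := hgr' s.re s.im h1 h4 (by linarith) (by linarith)
      rw [← hpl, ← hal] at this
      have h6 : (T ^ C) ^ 2 = T ^ (2 * C) := by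
        rw [sq, ← Real.rpow_add hT0, two_mul]
      have h5 : ‖Hq (al T) s‖ ^ 2 ≤ (T ^ C) ^ 2 := pow_le_pow_left₀ (norm_nonneg _) this 2
      rw [h6] at h5
      linarith
    · have := pow_le_pow_left₀ (norm_nonneg _) (pois_Hq (α := al T) (s := s) (by linarith)) 2
      linarith
  -- the horizontal sides
  have hhor : ∀ c : ℝ, (c = t₀ - X ∨ c = t₀ + X) →
      ‖∫ u in a..R, g (u + c * I) / (u + c * I - z)‖ ≤
        (T ^ (2 * C) + 36) * (Real.exp 1 * Real.exp (-(ε ^ 2 * R))) * R := by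
    intro c hc
    have h1 : ‖∫ u in a..R, g (u + c * I) / (u + c * I - z)‖ ≤
        ((T ^ (2 * C) + 36) * (Real.exp 1 * Real.exp (-(ε ^ 2 * R)))) * |R - a| := by
      apply intervalIntegral.norm_integral_le_of_norm_le_const
      intro u hu
      rw [uIoc_of_le haR] at hu
      have hre : ((u : ℂ) + c * I).re = u := by simp
      have him : ((u : ℂ) + c * I).im = c := by simp
      have hcX : (c - t₀) ^ 2 = X ^ 2 := by
        rcases hc with h | h <;> rw [h] <;> ring
      have hcX' : |c - t₀| = X := by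
        rcases hc with h | h <;> rw [h]
        · rw [show t₀ - X - t₀ = -X by ring, abs_neg, abs_of_pos hX0]
        · rw [show t₀ + X - t₀ = X by ring, abs_of_pos hX0]
      rw [hnorm, hre, him, hzim, hcX]
      have h2 : ‖Hq (al T) ((u : ℂ) + c * I)‖ ^ 2 ≤ T ^ (2 * C) + 36 := by
        apply hHq
        · rw [hre]; exact hu.1.le
        · rw [him]
          rcases hc with h | h <;> rw [h]
          linarith
        · rw [him]
          rcases hc with h | h <;> rw [h]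
          linarith
      have h3 : ((u - z.re) ^ 2 - X ^ 2) / D ^ 2 ≤ 1 + -(ε ^ 2 * R) := by
        rw [hDD, div_le_iff₀ (by positivity)]
        have hz0 : 0 ≤ z.re := by rw [hzre]; positivity
        have h4 : (u - z.re) ^ 2 ≤ T := by
          rw [← hRR, ← sq]
          have hu1 := hu.1
          have hu2 := hu.2
          exact sq_le_sq' (by linarith) (by linarith)
        have h5 : X ^ 2 = ε ^ 2 * R * (T * R) := by
          rw [hX, mul_pow, show ε ^ 2 * R * (T * R) = ε ^ 2 * (T * (R * R)) by ring, hRR]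
          ring
        have h6 : T ≤ T * R := le_mul_of_one_le_right hT0.le (by linarith)
        rw [h5]
        linarith
      have h7 : Real.exp (((u - z.re) ^ 2 - X ^ 2) / D ^ 2) ≤
          Real.exp 1 * Real.exp (-(ε ^ 2 * R)) := by
        rw [← Real.exp_add]
        exact Real.exp_le_exp.2 h3
      have h8 : ‖(((2 * (x - 1) / L : ℝ) : ℂ) / ((u : ℂ) + c * I - z')) / ((u : ℂ) + c * I - z)‖ ≤
          1 := by
        refine (hker _ 1 one_pos ?_ ?_).trans ?_
        · refine le_trans ?_ (him_le _)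
          rw [him, hzim, hcX']
          exact hεT
        · refine le_trans ?_ (him_le' _)
          rw [him, hz'im, hcX']
          exact hεT
        · simpa using hxL4
      calc ‖Hq (al T) ((u : ℂ) + c * I)‖ ^ 2 * Real.exp (((u - z.re) ^ 2 - X ^ 2) / D ^ 2) *
          ‖(((2 * (x - 1) / L : ℝ) : ℂ) / ((u : ℂ) + c * I - z')) / ((u : ℂ) + c * I - z)‖ ≤
          (T ^ (2 * C) + 36) * (Real.exp 1 * Real.exp (-(ε ^ 2 * R))) * 1 := by gcongr
        _ = _ := mul_one _
    refine h1.trans ?_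
    have ha0 : 0 ≤ a := by rw [ha]; positivity
    gcongr
    rw [abs_of_nonneg (by linarith)]
    linarith
  -- the right side
  have hrt : ‖∫ y in (t₀ - X)..(t₀ + X), g (R + y * I) / (R + y * I - z)‖ ≤
      576 * Real.exp 1 * ε * V * L⁻¹ := by
    have h1 : ‖∫ y in (t₀ - X)..(t₀ + X), g (R + y * I) / (R + y * I - z)‖ ≤
        (36 * Real.exp 1 * (2 * V / L / (R / 2) ^ 2)) * |t₀ + X - (t₀ - X)| := by
      apply intervalIntegral.norm_integral_le_of_norm_le_const
      intro y hy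
      have hre : ((R : ℂ) + y * I).re = R := by simp
      have him : ((R : ℂ) + y * I).im = y := by simp
      rw [hnorm, hre, him, hzim]
      have h2 : ‖Hq (al T) ((R : ℂ) + y * I)‖ ^ 2 ≤ 36 := by
        have := pow_le_pow_left₀ (norm_nonneg _)
          (pois_Hq (α := al T) (s := (R : ℂ) + y * I) (by rw [hre]; linarith)) 2
        linarith
      have h3 : Real.exp (((R - z.re) ^ 2 - (y - t₀) ^ 2) / D ^ 2) ≤ Real.exp 1 := by
        apply Real.exp_le_exp.2
        rw [hDD, div_le_one (by positivity)]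
        have hz0 : 0 ≤ z.re := by rw [hzre]; positivity
        have h4 : (R - z.re) ^ 2 ≤ T := by
          rw [← hRR, ← sq]
          exact sq_le_sq' (by linarith) (by linarith)
        have h6 : T ≤ T * R := le_mul_of_one_le_right hT0.le (by linarith)
        linarith [sq_nonneg (y - t₀)]
      have h8 : ‖(((2 * (x - 1) / L : ℝ) : ℂ) / ((R : ℂ) + y * I - z')) / ((R : ℂ) + y * I - z)‖ ≤
          2 * V / L / (R / 2) ^ 2 := by
        refine hker _ (R / 2) (by linarith) ?_ ?_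
        · refine le_trans ?_ (hre_le _)
          rw [hre, hzre]
          refine le_trans ?_ (le_abs_self _)
          linarith
        · refine le_trans ?_ (hre_le' _)
          rw [hre, hz're]
          refine le_trans ?_ (le_abs_self _)
          linarith
      gcongr
    refine h1.trans (le_of_eq ?_)
    rw [show t₀ + X - (t₀ - X) = 2 * X by ring, abs_of_pos (by linarith), hX]
    have hR0 : R ≠ 0 := by linarith
    rw [← hRR]
    field_simp
    ring
  -- the left side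
  set J : ℝ := ∫ t in (t₀ - X)..(t₀ + X), ‖Hq (al T) (sw T t 1)‖ ^ 2 *
    (L * ((x - 1) / ((x - 1) ^ 2 + (L * (t - t₀)) ^ 2))) with hJ
  have hsw : ∀ t : ℝ, sw T t 1 = (a : ℂ) + t * I := by
    intro t
    unfold sw
    rw [ha]
    push_cast
    ring
  have hsw' : ∀ t : ℝ, sw T t 1 = pl a t := hsw
  have hcont : ContinuousOn (fun t : ℝ => ‖Hq (al T) (sw T t 1)‖ ^ 2 *
      (L * ((x - 1) / ((x - 1) ^ 2 + (L * (t - t₀)) ^ 2)))) (uIcc (t₀ - X) (t₀ + X)) := by
    rw [uIcc_of_le (by linarith)]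
    apply ContinuousOn.mul
    · apply ContinuousOn.pow
      apply ContinuousOn.norm
      intro t ht
      have h1 : DifferentiableAt ℂ (Hq (al T)) (sw T t 1) := by
        apply differentiableAt_Hq hRH hal0
        · rw [hsw', pl_re, ha]
          linarith
        · rw [hsw', pl_im]
          linarith [ht.1]
      have h2 : Continuous fun t : ℝ => sw T t 1 := by
        unfold sw
        fun_prop
      exact (h1.continuousAt.comp (f := fun t : ℝ => sw T t 1) h2.continuousAt).continuousWithinAt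
    · apply Continuous.continuousOn
      have hne : ∀ t : ℝ, (x - 1) ^ 2 + (L * (t - t₀)) ^ 2 ≠ 0 := by
        intro t
        have : 0 < x - 1 := by linarith
        positivity
      exact continuous_const.mul (continuous_const.div (by fun_prop) hne)
  have hlf : ‖∫ y in (t₀ - X)..(t₀ + X), g (a + y * I) / (a + y * I - z)‖ ≤ 4 * J := by
    rw [hJ, ← intervalIntegral.integral_const_mul]
    apply intervalIntegral.norm_integral_le_of_norm_le (by linarith)
    · refine Filter.Eventually.of_forall fun y hy => ?_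
      have hre : ((a : ℂ) + y * I).re = a := by simp
      have him : ((a : ℂ) + y * I).im = y := by simp
      have hk := pois_ker (t := y) (t₀ := t₀) hL0 hx1
      rw [← ha, ← hz, ← hz'] at hk
      rw [hnorm, hre, him, hzim, show (a : ℂ) + y * I = pl a y from rfl, hk, hsw']
      have h3 : Real.exp (((a - z.re) ^ 2 - (y - t₀) ^ 2) / D ^ 2) ≤ 2 := by
        have h4 : ((a - z.re) ^ 2 - (y - t₀) ^ 2) / D ^ 2 ≤ 1 / 2 := by
          rw [hDD, div_le_iff₀ (by positivity)]
          have h5 : (a - z.re) ^ 2 ≤ 1 := by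
            rw [hzre, ha]
            have h6 := sq_le_sq' (a := 1 / 2 + 1 / L - (1 / 2 + x / L)) (b := 1)
              (by linarith) (by linarith)
            linarith
          have h6 : T ≤ T * R := le_mul_of_one_le_right hT0.le (by linarith)
          linarith [sq_nonneg (y - t₀)]
        exact (Real.exp_le_exp.2 h4).trans pois_exp
      have h9 : 0 ≤ (x - 1) / ((x - 1) ^ 2 + (L * (y - t₀)) ^ 2) :=
        div_nonneg (by linarith) (by positivity)
      calc ‖Hq (al T) (pl a y)‖ ^ 2 * Real.exp (((a - z.re) ^ 2 - (y - t₀) ^ 2) / D ^ 2) *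
            (2 * (L * ((x - 1) / ((x - 1) ^ 2 + (L * (y - t₀)) ^ 2)))) ≤
          ‖Hq (al T) (pl a y)‖ ^ 2 * 2 *
            (2 * (L * ((x - 1) / ((x - 1) ^ 2 + (L * (y - t₀)) ^ 2)))) := by gcongr
        _ = _ := by ring
    · exact (hcont.const_mul 4).intervalIntegrable
  -- conclusion
  have hbot := hhor (t₀ - X) (Or.inl rfl)
  have htop := hhor (t₀ + X) (Or.inr rfl)
  have hfin : 2 * π * ‖Hq (al T) z‖ ^ 2 ≤
      (T ^ (2 * C) + 36) * (Real.exp 1 * Real.exp (-(ε ^ 2 * R))) * R +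
      (T ^ (2 * C) + 36) * (Real.exp 1 * Real.exp (-(ε ^ 2 * R))) * R +
      576 * Real.exp 1 * ε * V * L⁻¹ + 4 * J := by
    have h1 : ‖(2 : ℂ) * π * I * Hq (al T) z ^ 2‖ = 2 * π * ‖Hq (al T) z‖ ^ 2 := by
      rw [norm_mul, norm_mul, norm_mul, norm_pow, Complex.norm_I, Complex.norm_real,
        Real.norm_of_nonneg hπ.le]
      simp
    rw [← h1, ← hbd]
    unfold bd
    refine (norm_sub_le _ _).trans ?_
    refine add_le_add ((norm_add_le _ _).trans (add_le_add ((norm_sub_le _ _).trans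
      (add_le_add hbot htop)) ?_)) ?_
    · rw [norm_mul, Complex.norm_I, one_mul]
      exact hrt
    · rw [norm_mul, Complex.norm_I, one_mul]
      exact hlf
  have hswx : sw T t₀ x = z := by
    rw [hz]
    unfold sw pl
    push_cast
    ring
  rw [hswx]
  have hJ0 : 0 ≤ J := by
    rw [hJ]
    apply intervalIntegral.integral_nonneg (by linarith)
    intro t _
    have h9 : 0 ≤ (x - 1) / ((x - 1) ^ 2 + (L * (t - t₀)) ^ 2) :=
      div_nonneg (by linarith) (by positivity)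
    positivity
  have hE' : (T ^ (2 * C) + 36) * (Real.exp 1 * Real.exp (-(ε ^ 2 * R))) * R +
      (T ^ (2 * C) + 36) * (Real.exp 1 * Real.exp (-(ε ^ 2 * R))) * R +
      576 * Real.exp 1 * ε * V * L⁻¹ < 1 := by
    refine lt_of_le_of_lt (le_of_eq ?_) hE
    rw [Real.rpow_add hT0, ← hR]
    ring
  have hπ3 := mul_le_mul_of_nonneg_right Real.pi_gt_three.le (sq_nonneg ‖Hq (al T) z‖)
  linarith

end Pool.Agent.MP_67227b_nt.Ah
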