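import Pool.Agent.MP_67227b_nt.Ah.AhKer
import Pool.Agent.MP_67227b_nt.Ah.AhPois
import Pool.Agent.MP_67227b_nt.Pp.PpMean

set_option autoImplicit false

open Filter Topology Set MeasureTheory Complex
open scoped Real ArithmeticFunction ContDiff

namespace Pool.Agent.MP_67227b_nt.Ah

open Pool.Agent.Lib.ZetaCount_helper33 Pool.Agent.MP_67227b_nt Pool.Agent.MP_67227b_nt.Mo
open Pool.Agent.MP_67227b_nt.Sg Pool.Agent.MP_67227b_nt.Pp
open Pool.Agent.MP_67227b_nt.Mo.MomentBAux (DP)

private lemma hfar_Ap (T η : ℝ) (s : ℂ) : Ap T η (1 / 2) 1 1 0 s = 1 := by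
  classical
  unfold Ap Tup
  simp only [zero_add, Finset.range_one, Finset.sum_singleton, pow_zero, Nat.factorial_zero,
    Nat.cast_one, div_one, one_mul]
  rw [Finset.filter_true_of_mem]
  · simp
  · intro I _
    simp

private lemma hfar_cont (hRH : RiemannHypothesis) {α L x A B : ℝ} {T : ℝ} (hα : 0 ≤ α)
    (hL : Real.log T = L) (hL0 : 0 < L) (hx : 0 < x) (hA : 0 < A) :
    ContinuousOn (fun t : ℝ => ‖Hq α (sw T t x)‖ ^ 2) (Icc A B) := by
  apply ContinuousOn.pow
  apply ContinuousOn.norm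
  intro t ht
  have h1 : DifferentiableAt ℂ (Hq α) (sw T t x) := by
    apply differentiableAt_Hq hRH hα
    · have : (sw T t x).re = 1 / 2 + x / L := by
        unfold sw
        rw [hL, ← Complex.ofReal_div]
        simp
      rw [this]
      have : 0 < x / L := by positivity
      linarith
    · have : (sw T t x).im = t := by
        unfold sw
        rw [hL, ← Complex.ofReal_div]
        simp
      rw [this]
      linarith [ht.1]
  have h2 : Continuous fun t : ℝ => sw T t x := by
    unfold sw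
    fun_prop
  exact (h1.continuousAt.comp (f := fun t : ℝ => sw T t x) h2.continuousAt).continuousWithinAt

/-- the kernel of the Poisson inequality -/
private noncomputable def hfar_k (d y : ℝ) : ℝ := d / (d ^ 2 + y ^ 2)

private lemma hfar_k_eq {d : ℝ} (hd : 0 < d) (y : ℝ) :
    hfar_k d y = d⁻¹ * (1 + (y / d) ^ 2)⁻¹ := by
  unfold hfar_k
  have : d ^ 2 + y ^ 2 ≠ 0 := by positivity
  field_simp

private lemma hfar_k_cont {d : ℝ} (hd : 0 < d) : Continuous (hfar_k d) := by
  unfold hfar_k
  refine continuous_const.div (by fun_prop) fun y => ?_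
  positivity

private lemma hfar_k_int {d : ℝ} (hd : 0 < d) : Integrable (hfar_k d) ∧ ∫ y, hfar_k d y = π := by
  have e : hfar_k d = fun y => d⁻¹ * (fun u : ℝ => (1 + u ^ 2)⁻¹) (y / d) := by
    funext y
    exact hfar_k_eq hd y
  constructor
  · rw [e]
    exact (integrable_inv_one_add_sq.comp_div hd.ne').const_mul _
  · have h := Measure.integral_comp_div (fun u : ℝ => (1 + u ^ 2)⁻¹) d
    rw [e, integral_const_mul]
    refine (congrArg (d⁻¹ * ·) h).trans ?_
    rw [integral_univ_inv_one_add_sq,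
      abs_of_pos hd, smul_eq_mul, ← mul_assoc, inv_mul_cancel₀ hd.ne', one_mul]

/-- continuity of the averaged kernel integral -/
private lemma hfar_par {g k : ℝ → ℝ} {A B X L : ℝ} (hX : 0 ≤ X) (hAB : A + X ≤ B - X)
    (hg : ContinuousOn g (Icc A B)) (hk : Continuous k) :
    ContinuousOn (fun t₀ : ℝ => ∫ t in (t₀ - X)..(t₀ + X), g t * (L * k (L * (t - t₀))))
      (Icc (A + X) (B - X)) := by
  -- extend `g` continuously
  have hAB' : A ≤ B := by linarith
  set g' : ℝ → ℝ := IccExtend hAB' ((Icc A B).domRestrict g) with hg'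
  have hgc : Continuous g' := by
    rw [hg', continuous_IccExtend_iff]
    exact continuousOn_iff_continuous_domRestrict.1 hg
  have hgg : ∀ t ∈ Icc A B, g' t = g t := by
    intro t ht
    rw [hg', IccExtend_of_mem hAB' _ ht]
    rfl
  have h1 : Continuous fun t₀ : ℝ => ∫ s in (-X)..X, g' (s + t₀) * (L * k (L * s)) := by
    apply intervalIntegral.continuous_parametric_intervalIntegral_of_continuous'
    fun_prop
  refine h1.continuousOn.congr fun t₀ ht₀ => ?_
  have h2 : ∫ s in (-X)..X, g' (s + t₀) * (L * k (L * s)) =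
      ∫ t in (t₀ - X)..(t₀ + X), g' t * (L * k (L * (t - t₀))) := by
    have := intervalIntegral.integral_comp_add_right
      (fun t => g' t * (L * k (L * (t - t₀)))) (a := -X) (b := X) t₀
    simp only [add_sub_cancel_right] at this
    rw [this]
    congr 1 <;> ring
  simp only
  rw [h2]
  apply intervalIntegral.integral_congr
  intro t ht
  rw [uIcc_of_le (by linarith)] at ht
  simp only
  rw [hgg t ⟨by linarith [ht.1, ht₀.1], by linarith [ht.2, ht₀.2]⟩]

/-- MODULE HFAR. The mean square of `Hq` to the right of `1/2 + 1/L` is bounded. At `x = 1`: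
`∫_{T/2}^{3T} ‖Hq(sw T t 1)‖² ≤ K T` (`Pp.exp_int` for `Pp.LD_Hq` with `u = 1/2`, `β = 1`:
`‖Hq‖² ≤ exp (2 log (1 + ‖Hq‖))`; or `Pp.mean_sq` with `K = 0`, `‖Hq‖² ≤ 1 + ‖Hq‖^2...`, note
`mean_sq` with `Ap = 1` is exactly the integral of `‖Hq‖²`). For `x > 1`: `Hq_sq_le` and `conv_mean`
with `k(y) = (x-1)/((x-1)² + y²)`, `∫ k = π`. -/
theorem Hq_far (hRH : RiemannHypothesis) : ∃ K : ℝ, 0 < K ∧ ∀ ε V : ℝ, 0 < ε → ε ≤ 1 / 32 →
    1 < V → ∀ᶠ T : ℝ in atTop, ∀ x ∈ Icc 1 V,
      ∫ t in ((1 / 2 + 4 * ε) * T)..((1 - 4 * ε) * T), ‖Hq (al T) (sw T t x)‖ ^ 2 ≤ K * T := by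
  obtain ⟨C, hC, hms⟩ := mean_sq hRH (u := 1 / 2) (β := 1) (κ := 1 / 2) (η := 1) (by norm_num)
    one_pos (by norm_num) one_pos (i0 := 1) (i1 := 1) (K := 0) le_rfl
  have hπ := Real.pi_pos
  refine ⟨π * C + 1, by positivity, fun ε V hε hε1 hV => ?_⟩
  filter_upwards [hms, Hq_sq_le hRH hε (by linarith) hV,
    Real.tendsto_log_atTop.eventually_ge_atTop 1, eventually_ge_atTop 4] with T hT hP hL1 hT4 x hx
  have hT0 : 0 < T := by linarith
  set L := Real.log T with hL
  have hL0 : 0 < L := by linarith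
  have hal : al T = 2 * π * (1 / 2) / L := rfl
  have hal0 : 0 ≤ al T := by rw [hal]; positivity
  have hεT : 0 < ε * T := by positivity
  have hsw : ∀ t : ℝ, sw T t 1 = pl (1 / 2 + 1 / L) t := by
    intro t
    unfold sw pl
    push_cast
    ring
  -- the mean square on the first line
  have h1 : ∫ t in (T / 2)..(3 * T), ‖Hq (al T) (sw T t 1)‖ ^ 2 ≤ C * T := by
    refine le_trans (le_of_eq ?_) hT
    apply intervalIntegral.integral_congr
    intro t _
    simp only
    rw [hfar_Ap, norm_one, hsw]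
    simp [hal]
  have hc1 : ContinuousOn (fun t : ℝ => ‖Hq (al T) (sw T t 1)‖ ^ 2) (Icc (T / 2) (3 * T)) := by
    have := hfar_cont hRH (T := T) (x := 1) (A := T / 2) (B := 3 * T) hal0 hL.symm hL0 one_pos
      (by linarith)
    simpa using this
  have hsub : ∀ A B : ℝ, T / 2 ≤ A → A ≤ B → B ≤ 3 * T →
      ∫ t in A..B, ‖Hq (al T) (sw T t 1)‖ ^ 2 ≤ C * T := by
    intro A B hA hAB hB
    refine le_trans ?_ h1
    apply intervalIntegral.integral_mono_interval hA hAB hB
    · exact Filter.Eventually.of_forall fun t => by positivity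
    · exact (hc1.mono (by rw [uIcc_of_le (by linarith)])).intervalIntegrable
  rcases eq_or_lt_of_le hx.1 with hx1 | hx1
  · rw [← hx1]
    refine (le_of_eq ?_).trans ((hsub ((1 / 2 + 4 * ε) * T) ((1 - 4 * ε) * T) (by linarith)
      (by nlinarith) (by linarith)).trans ?_)
    · simp
    · have : 0 ≤ π * C * T := by positivity
      have h3 := mul_le_mul_of_nonneg_right Real.pi_gt_three.le (by positivity : 0 ≤ C * T)
      nlinarith [mul_pos hC hT0]
  · set A : ℝ := (1 / 2 + 3 * ε) * T with hA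
    set B : ℝ := (1 - 3 * ε) * T with hB
    set X : ℝ := ε * T with hX
    have e1 : (1 / 2 + 4 * ε) * T = A + X := by rw [hA, hX]; ring
    have e2 : (1 - 4 * ε) * T = B - X := by rw [hB, hX]; ring
    have hAB : A + X ≤ B - X := by
      rw [← e1, ← e2]
      gcongr
      linarith
    have hd : 0 < x - 1 := by linarith
    have hgc : ContinuousOn (fun t : ℝ => ‖Hq (al T) (sw T t 1)‖ ^ 2) (Icc A B) := by
      apply hc1.mono
      apply Icc_subset_Icc
      · rw [hA]; linarith
      · rw [hB]; linarith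
    have hxc : ContinuousOn (fun t : ℝ => ‖Hq (al T) (sw T t x)‖ ^ 2) (Icc (A + X) (B - X)) :=
      hfar_cont hRH (T := T) (x := x) hal0 hL.symm hL0 (by linarith) (by
        rw [hA, hX]; positivity)
    have hpc := hfar_par (L := L) (X := X) hεT.le hAB hgc (hfar_k_cont hd)
    have hcv := conv_mean (L := L) (X := X) hL0 hεT.le hAB hgc (fun t _ => by positivity)
      (hfar_k_cont hd) (fun y => by unfold hfar_k; positivity) (hfar_k_int hd).1
    rw [(hfar_k_int hd).2] at hcv
    rw [e1, e2]
    have hii : IntervalIntegrable (fun t₀ : ℝ => ∫ t in (t₀ - X)..(t₀ + X),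
        ‖Hq (al T) (sw T t 1)‖ ^ 2 * (L * hfar_k (x - 1) (L * (t - t₀)))) volume (A + X)
        (B - X) := (hpc.mono (by rw [uIcc_of_le hAB])).intervalIntegrable
    have hmono : ∫ t in (A + X)..(B - X), ‖Hq (al T) (sw T t x)‖ ^ 2 ≤
        ∫ t₀ in (A + X)..(B - X), ((∫ t in (t₀ - X)..(t₀ + X),
          ‖Hq (al T) (sw T t 1)‖ ^ 2 * (L * hfar_k (x - 1) (L * (t - t₀)))) + 1) := by
      apply intervalIntegral.integral_mono_on hAB
      · exact (hxc.mono (by rw [uIcc_of_le hAB])).intervalIntegrable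
      · exact hii.add intervalIntegrable_const
      · intro t₀ ht₀
        have := hP x ⟨hx1, hx.2⟩ t₀ ⟨by
          refine le_trans ?_ ht₀.1
          rw [← e1]
          gcongr
          norm_num, by
          refine ht₀.2.trans ?_
          rw [← e2]
          gcongr
          norm_num⟩
        exact this
    refine hmono.trans ?_
    rw [intervalIntegral.integral_add hii intervalIntegrable_const,
      intervalIntegral.integral_const, smul_eq_mul, mul_one]
    have h4 := hsub A B (by rw [hA]; linarith) (by linarith) (by rw [hB]; linarith)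
    have h5 : π * ∫ t in A..B, ‖Hq (al T) (sw T t 1)‖ ^ 2 ≤ π * (C * T) :=
      mul_le_mul_of_nonneg_left h4 hπ.le
    have h6 : B - X - (A + X) ≤ T := by
      rw [← e1, ← e2]
      linarith
    linarith

end Pool.Agent.MP_67227b_nt.Ah
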