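import Pool.Agent.MP_67227b_nt.Ah.AhHfar
import Pool.Agent.MP_67227b_nt.Ah.AhMeans

set_option autoImplicit false

open Filter Topology Set MeasureTheory Complex
open scoped Real ArithmeticFunction ContDiff

namespace Pool.Agent.MP_67227b_nt.Ah

open Pool.Agent.Lib.ZetaCount_helper33 Pool.Agent.MP_67227b_nt Pool.Agent.MP_67227b_nt.Mo
open Pool.Agent.MP_67227b_nt.Sg Pool.Agent.MP_67227b_nt.Pp
open Pool.Agent.MP_67227b_nt.Mo.MomentBAux (DP)

namespace HlAux

lemma cont_sum (c : ℕ → ℂ) (N : ℕ) :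
    Continuous (fun s : ℂ => ∑ m ∈ Finset.Icc 1 N, c m * (m : ℂ) ^ (-s)) := by
  apply continuous_finsetSum
  intro n hn
  apply Continuous.mul continuous_const
  apply Continuous.const_cpow continuous_neg
  left
  have : 1 ≤ n := (Finset.mem_Icc.mp hn).1
  exact_mod_cast (by omega : n ≠ 0)

lemma cont_Aa (a : ℕ → ℝ) (N : ℕ) : Continuous (Aa a N) := cont_sum (fun m => (a m : ℂ)) N

lemma cont_Pl (a : ℕ → ℝ) (α : ℝ) (N : ℕ) : Continuous (Pl a α N) :=
  cont_sum (fun m => ca a α N m) N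

lemma cont_sw (T : ℝ) (w : ℂ) : Continuous fun t : ℝ => sw T t w := by
  unfold sw
  fun_prop

lemma sw_re (T t x : ℝ) : (sw T t (x : ℂ)).re = 1 / 2 + x / Real.log T := by
  unfold sw
  rw [← Complex.ofReal_div]
  simp

lemma sw_im (T t x : ℝ) : (sw T t (x : ℂ)).im = t := by
  unfold sw
  rw [← Complex.ofReal_div]
  simp

lemma cont_Hq (hRH : RiemannHypothesis) {α T x A B : ℝ} (hα : 0 ≤ α) (hL : 0 < Real.log T)
    (hx : 0 < x) (hA : 0 < A) : ContinuousOn (fun t : ℝ => Hq α (sw T t (x : ℂ))) (Icc A B) := by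
  intro t ht
  have h1 : DifferentiableAt ℂ (Hq α) (sw T t (x : ℂ)) := by
    apply differentiableAt_Hq hRH hα
    · rw [sw_re]
      have : 0 < x / Real.log T := by positivity
      linarith
    · rw [sw_im]
      linarith [ht.1]
  exact (ContinuousAt.comp (f := fun t : ℝ => sw T t (x : ℂ)) h1.continuousAt
    (cont_sw T x).continuousAt).continuousWithinAt

/-- The reflected point. -/
lemma refl_pt (T t y δ : ℝ) :
    1 + 2 * ((δ / Real.log T : ℝ) : ℂ) - (starRingEnd ℂ) (sw T t (y : ℂ)) =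
      sw T t ((2 * δ - y : ℝ) : ℂ) := by
  unfold sw
  apply Complex.ext
  · rw [← Complex.ofReal_div, ← Complex.ofReal_div]
    simp
    ring
  · rw [← Complex.ofReal_div, ← Complex.ofReal_div]
    simp

end HlAux

open HlAux in
/-- MODULE HL. The left remainder. `1 + 2b - conj (sw T t (x - 1/δ)) = sw T t (1/δ + 2δ - x)`, at
distance between `3/(4δ)` and `1/δ + 1` of the critical line; `‖Hl‖ ≤ ‖Pl‖ + ‖Hq‖ ‖Am‖`,
Cauchy-Schwarz, `edge_mean`, `Hq_far` (`V = 1/δ + 1`). -/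
theorem Hl_mean (hRH : RiemannHypothesis) : ∃ C : ℝ, 0 < C ∧ ∀ δ ε : ℝ, 0 < δ → δ ≤ 1 / 16 →
    0 < ε → ε ≤ 1 / 32 → ∀ᶠ n : ℕ in atTop, ∀ᶠ T : ℝ in atTop, ∀ x : ℝ, 1 / 2 ≤ x →
      x ≤ 1 / (4 * δ) →
      ∫ t in ((1 / 2 + 4 * ε) * T)..((1 - 4 * ε) * T),
        ((Nn δ T : ℝ) + 1 / 2) ^ (-(1 / δ / Real.log T)) *
          ‖Hl (am δ n T) (al T) (δ / Real.log T) (Nn δ T) (sw T t ((x - 1 / δ : ℝ) : ℂ))‖ ≤
        C * T := by
  obtain ⟨C, hC, hedge⟩ := edge_mean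
  obtain ⟨K, hK, hfar⟩ := Hq_far hRH
  refine ⟨(1 + C + K + C) / 2, by positivity, ?_⟩
  intro δ ε hδ hδ1 hε hε1
  have hd1 : 16 ≤ 1 / δ := by
    rw [le_div_iff₀ hδ]
    linarith
  have hf := hfar ε (1 / δ + 1) hε hε1 (by linarith)
  filter_upwards [hedge δ hδ hδ1] with n hn
  have hL : ∀ᶠ T : ℝ in atTop, 1 ≤ Real.log T := Real.tendsto_log_atTop.eventually_ge_atTop 1
  filter_upwards [hn, hf, hL, eventually_ge_atTop 1] with T hn hf hL hT1 x hx1 hx2
  have hT0 : 0 < T := by linarith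
  have hL0 : 0 < Real.log T := by linarith
  have hπ := Real.pi_pos
  have hal : 0 ≤ al T := by unfold al; positivity
  have hx3 : 1 / (4 * δ) = 1 / δ / 4 := by
    field_simp
  set A : ℝ := (1 / 2 + 4 * ε) * T with hA
  set B : ℝ := (1 - 4 * ε) * T with hB
  have hA0 : 0 < A := by positivity
  have hAB : A ≤ B := by
    rw [hA, hB]
    apply mul_le_mul_of_nonneg_right _ hT0.le
    linarith
  have hB4 : B ≤ 4 * T := by
    rw [hB]
    nlinarith
  obtain ⟨h1, h2⟩ := hn x A B (by linarith) hA0.le hAB hB4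
  have hx' : 2 * δ - (x - 1 / δ) ∈ Icc 1 (1 / δ + 1) := by
    rw [hx3] at hx2
    constructor <;> linarith
  have h3 := hf (2 * δ - (x - 1 / δ)) hx'
  set W : ℝ := ((Nn δ T : ℝ) + 1 / 2) ^ (-(1 / δ / Real.log T)) with hW
  have hW0 : 0 ≤ W := by positivity
  -- the three functions
  obtain ⟨P, hP⟩ : ∃ P : ℝ → ℝ, P = fun t => W *
      ‖Pl (am δ n T) (al T) (Nn δ T) (sw T t ((x - 1 / δ : ℝ) : ℂ))‖ := ⟨_, rfl⟩
  obtain ⟨Q, hQ⟩ : ∃ Q : ℝ → ℝ, Q = fun t => W *
      ‖Am δ n T (sw T t ((x - 1 / δ : ℝ) : ℂ) + (al T : ℂ) * I)‖ := ⟨_, rfl⟩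
  obtain ⟨H, hH⟩ : ∃ H : ℝ → ℝ, H = fun t =>
      ‖Hq (al T) (sw T t ((2 * δ - (x - 1 / δ) : ℝ) : ℂ))‖ := ⟨_, rfl⟩
  have cP : Continuous P := by
    rw [hP]
    exact continuous_const.mul ((cont_Pl _ _ _).comp (cont_sw _ _)).norm
  have cQ : Continuous Q := by
    rw [hQ]
    unfold Am
    exact continuous_const.mul ((cont_Aa _ _).comp ((cont_sw _ _).add continuous_const)).norm
  have cH : ContinuousOn H (Icc A B) := by
    rw [hH]
    exact (cont_Hq hRH hal hL0 (by linarith [hx'.1]) hA0).norm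
  have h1' : ∫ t in A..B, P t ^ 2 ≤ C * T := by rw [hP]; exact h1
  have h2' : ∫ t in A..B, Q t ^ 2 ≤ C * T := by rw [hQ]; exact h2
  have h3' : ∫ t in A..B, H t ^ 2 ≤ K * T := by rw [hH]; exact h3
  have key : ∀ t ∈ Icc A B, W * ‖Hl (am δ n T) (al T) (δ / Real.log T) (Nn δ T)
      (sw T t ((x - 1 / δ : ℝ) : ℂ))‖ ≤ (1 + P t ^ 2) / 2 + (H t ^ 2 + Q t ^ 2) / 2 := by
    intro t _
    have e1 : ‖Hl (am δ n T) (al T) (δ / Real.log T) (Nn δ T) (sw T t ((x - 1 / δ : ℝ) : ℂ))‖ ≤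
        ‖Pl (am δ n T) (al T) (Nn δ T) (sw T t ((x - 1 / δ : ℝ) : ℂ))‖ +
        H t * ‖Am δ n T (sw T t ((x - 1 / δ : ℝ) : ℂ) + (al T : ℂ) * I)‖ := by
      unfold Hl
      refine (norm_add_le _ _).trans (add_le_add le_rfl ?_)
      rw [norm_mul, RCLike.norm_conj, refl_pt, hH]
      rfl
    have e2 : W * ‖Hl (am δ n T) (al T) (δ / Real.log T) (Nn δ T)
        (sw T t ((x - 1 / δ : ℝ) : ℂ))‖ ≤ P t + H t * Q t := by
      calc _ ≤ W * (‖Pl (am δ n T) (al T) (Nn δ T) (sw T t ((x - 1 / δ : ℝ) : ℂ))‖ +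
            H t * ‖Am δ n T (sw T t ((x - 1 / δ : ℝ) : ℂ) + (al T : ℂ) * I)‖) :=
            mul_le_mul_of_nonneg_left e1 hW0
        _ = P t + H t * Q t := by
            rw [hP, hQ]
            ring
    nlinarith [sq_nonneg (P t - 1), sq_nonneg (H t - Q t)]
  have cI : ContinuousOn (fun t : ℝ => W * ‖Hl (am δ n T) (al T) (δ / Real.log T) (Nn δ T)
      (sw T t ((x - 1 / δ : ℝ) : ℂ))‖) (Icc A B) := by
    have e3 : (fun t : ℝ => W * ‖Hl (am δ n T) (al T) (δ / Real.log T) (Nn δ T)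
      (sw T t ((x - 1 / δ : ℝ) : ℂ))‖) = fun t : ℝ => W *
        ‖Pl (am δ n T) (al T) (Nn δ T) (sw T t ((x - 1 / δ : ℝ) : ℂ)) +
          (starRingEnd ℂ) (Hq (al T) (sw T t ((2 * δ - (x - 1 / δ) : ℝ) : ℂ))) *
          Aa (am δ n T) (Nn δ T) (sw T t ((x - 1 / δ : ℝ) : ℂ) + (al T : ℂ) * I)‖ := by
      ext t
      unfold Hl
      rw [refl_pt]
    rw [e3]
    apply continuousOn_const.mul
    apply ContinuousOn.norm
    apply ContinuousOn.add
    · exact ((cont_Pl _ _ _).comp (cont_sw _ _)).continuousOn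
    · apply ContinuousOn.mul
      · exact Complex.continuous_conj.comp_continuousOn
          (cont_Hq hRH hal hL0 (by linarith [hx'.1]) hA0)
      · exact ((cont_Aa _ _).comp ((cont_sw _ _).add continuous_const)).continuousOn
  have iI := cI.intervalIntegrable_of_Icc (μ := volume) hAB
  have iP : IntervalIntegrable (fun t => P t ^ 2) volume A B := (cP.pow 2).intervalIntegrable _ _
  have iQ : IntervalIntegrable (fun t => Q t ^ 2) volume A B := (cQ.pow 2).intervalIntegrable _ _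
  have iH : IntervalIntegrable (fun t => H t ^ 2) volume A B :=
    (cH.pow 2).intervalIntegrable_of_Icc hAB
  have i1 : IntervalIntegrable (fun t => (1 + P t ^ 2) / 2) volume A B :=
    (intervalIntegrable_const.add iP).div_const 2
  have i2 : IntervalIntegrable (fun t => (H t ^ 2 + Q t ^ 2) / 2) volume A B :=
    (iH.add iQ).div_const 2
  calc ∫ t in A..B, W * ‖Hl (am δ n T) (al T) (δ / Real.log T) (Nn δ T)
        (sw T t ((x - 1 / δ : ℝ) : ℂ))‖
      ≤ ∫ t in A..B, ((1 + P t ^ 2) / 2 + (H t ^ 2 + Q t ^ 2) / 2) :=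
        intervalIntegral.integral_mono_on hAB iI (i1.add i2) key
    _ = ((B - A) + ∫ t in A..B, P t ^ 2) / 2 +
        ((∫ t in A..B, H t ^ 2) + ∫ t in A..B, Q t ^ 2) / 2 := by
        rw [intervalIntegral.integral_add i1 i2, intervalIntegral.integral_div,
          intervalIntegral.integral_div, intervalIntegral.integral_add iH iQ,
          intervalIntegral.integral_add intervalIntegrable_const iP,
          intervalIntegral.integral_const, smul_eq_mul, mul_one]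
    _ ≤ (T + C * T) / 2 + (K * T + C * T) / 2 := by
        have : B - A ≤ T := by
          rw [hA, hB]
          nlinarith
        linarith
    _ = (1 + C + K + C) / 2 * T := by ring

end Pool.Agent.MP_67227b_nt.Ah
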