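import Pool.Agent.MP_67227b_nt.Ah.AhDefs

set_option autoImplicit false

open Filter Topology Set MeasureTheory Complex
open scoped Real ArithmeticFunction ContDiff

namespace Pool.Agent.MP_67227b_nt.Ah

open Pool.Agent.Lib.ZetaCount_helper33 Pool.Agent.MP_67227b_nt Pool.Agent.MP_67227b_nt.Mo
open Pool.Agent.MP_67227b_nt.Sg Pool.Agent.MP_67227b_nt.Pp
open Pool.Agent.MP_67227b_nt.Mo.MomentBAux (DP)

private theorem kk_cont {ρ : ℝ} (hρ : 1 ≤ ρ) : Continuous (kk ρ) := by
  unfold kk
  refine continuous_const.div (by fun_prop) fun y => ?_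
  have h1 : 0 < Real.sqrt (1 / 16 + y ^ 2) := Real.sqrt_pos.2 (by positivity)
  have h2 : 0 < Real.sqrt (ρ ^ 2 / 4 + y ^ 2) := Real.sqrt_pos.2 (by positivity)
  positivity

private theorem kk_nonneg {ρ : ℝ} (hρ : 1 ≤ ρ) (y : ℝ) : 0 ≤ kk ρ y := by
  unfold kk
  positivity

private theorem kk_div {ρ a b y : ℝ} (hρ : 1 ≤ ρ) (ha : 0 < a) (hb : 0 < b)
    (h1 : a ^ 2 ≤ 1 / 16 + y ^ 2) (h2 : b ^ 2 ≤ ρ ^ 2 / 4 + y ^ 2) : kk ρ y ≤ ρ / (a * b) := by
  unfold kk
  have h3 := Real.le_sqrt_of_sq_le h1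
  have h4 := Real.le_sqrt_of_sq_le h2
  refine div_le_div_of_nonneg_left (by linarith) (by positivity) ?_
  exact mul_le_mul h3 h4 hb.le (ha.le.trans h3)

private theorem kk_integrable {ρ : ℝ} (hρ : 1 ≤ ρ) : Integrable (kk ρ) := by
  refine Integrable.mono' (integrable_inv_one_add_sq.const_mul (8 * ρ))
    (kk_cont hρ).aestronglyMeasurable (Eventually.of_forall fun y => ?_)
  rw [Real.norm_of_nonneg (kk_nonneg hρ y)]
  have hs : 0 < 1 + y ^ 2 := by positivity
  have hsq := Real.sq_sqrt hs.le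
  have h := kk_div (ρ := ρ) (y := y) (a := Real.sqrt (1 + y ^ 2) / 4)
    (b := Real.sqrt (1 + y ^ 2) / 2) hρ (by positivity) (by positivity)
    (by rw [div_pow, hsq]; nlinarith [sq_nonneg y])
    (by rw [div_pow, hsq]; nlinarith [sq_nonneg y])
  refine h.trans (le_of_eq ?_)
  have h5 : Real.sqrt (1 + y ^ 2) / 4 * (Real.sqrt (1 + y ^ 2) / 2) = (1 + y ^ 2) / 8 := by
    rw [div_mul_div_comm, ← pow_two, hsq]
    norm_num
  rw [h5]
  field_simp

/-- The mass of the kernel. -/
theorem kk_int : ∃ C : ℝ, 0 < C ∧ ∀ ρ : ℝ, 1 ≤ ρ → Integrable (kk ρ) ∧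
    ∫ y : ℝ, kk ρ y ≤ C * (1 + Real.log ρ) := by
  have hl5 : 0 < Real.log 5 := Real.log_pos (by norm_num)
  refine ⟨6 * Real.log 5 + 8, by positivity, fun ρ hρ => ⟨kk_integrable hρ, ?_⟩⟩
  have hρ0 : 0 < ρ := by linarith
  have hlρ : 0 ≤ Real.log ρ := Real.log_nonneg hρ
  have hi := kk_integrable hρ
  have habs : ∫ y : ℝ, kk ρ y = 2 * ∫ y in Ioi (0 : ℝ), kk ρ y := by
    rw [← integral_comp_abs]
    refine integral_congr_ae (Eventually.of_forall fun y => ?_)
    simp only [kk, sq_abs]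
  have hsplit : (∫ y in (0 : ℝ)..ρ, kk ρ y) + ∫ y in Ioi ρ, kk ρ y = ∫ y in Ioi (0 : ℝ), kk ρ y :=
    intervalIntegral.integral_interval_add_Ioi hi.integrableOn hi.integrableOn
  have h1 : ∫ y in (0 : ℝ)..ρ, kk ρ y ≤ 3 * (Real.log 5 + Real.log ρ) := by
    have hd : ∫ y in (0 : ℝ)..ρ, 3 / (1 / 4 + y) = 3 * Real.log (1 / 4 + ρ) -
        3 * Real.log (1 / 4 + 0) := by
      refine intervalIntegral.integral_eq_sub_of_hasDerivAt
        (f := fun y => 3 * Real.log (1 / 4 + y)) (fun y hy => ?_) ?_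
      · rw [uIcc_of_le hρ0.le] at hy
        have h2 : (1 : ℝ) / 4 + y ≠ 0 := by linarith [hy.1]
        have h3 := (((hasDerivAt_id y).const_add (1 / 4)).log h2).const_mul 3
        exact h3.congr_deriv (mul_one_div _ _)
      · refine ContinuousOn.intervalIntegrable (continuousOn_const.div (by fun_prop) ?_)
        intro y hy
        rw [uIcc_of_le hρ0.le] at hy
        linarith [hy.1]
    have hle : ∫ y in (0 : ℝ)..ρ, kk ρ y ≤ ∫ y in (0 : ℝ)..ρ, 3 / (1 / 4 + y) := by
      refine intervalIntegral.integral_mono_on hρ0.le ((kk_cont hρ).intervalIntegrable _ _) ?_ ?_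
      · refine ContinuousOn.intervalIntegrable (continuousOn_const.div (by fun_prop) ?_)
        intro y hy
        rw [uIcc_of_le hρ0.le] at hy
        linarith [hy.1]
      · intro y hy
        have hy0 : 0 ≤ y := hy.1
        have h := kk_div (ρ := ρ) (y := y) (a := 2 / 3 * (1 / 4 + y)) (b := ρ / 2) hρ
          (by positivity) (by positivity) (by nlinarith [sq_nonneg (y - 1 / 4)])
          (by nlinarith [sq_nonneg y])
        refine h.trans (le_of_eq ?_)
        field_simp
    refine hle.trans ?_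
    rw [hd, ← mul_sub, ← Real.log_div (by positivity) (by norm_num),
      ← Real.log_mul (by norm_num) hρ0.ne']
    refine mul_le_mul_of_nonneg_left (Real.log_le_log (by positivity) ?_) (by norm_num)
    rw [add_zero, div_le_iff₀ (by norm_num)]
    linarith
  have h2 : ∫ y in Ioi ρ, kk ρ y ≤ 1 := by
    have hle : ∫ y in Ioi ρ, kk ρ y ≤ ∫ y in Ioi ρ, ρ * y ^ (-2 : ℝ) := by
      refine setIntegral_mono_on hi.integrableOn
        ((integrableOn_Ioi_rpow_of_lt (by norm_num) hρ0).const_mul ρ) measurableSet_Ioi ?_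
      intro y hy
      have hy0 : 0 < y := lt_trans hρ0 hy
      have h := kk_div (ρ := ρ) (y := y) (a := y) (b := y) hρ hy0 hy0
        (by nlinarith [sq_nonneg y]) (by nlinarith [sq_nonneg ρ])
      refine h.trans (le_of_eq ?_)
      rw [Real.rpow_neg hy0.le, Real.rpow_two]
      field_simp
    refine hle.trans ?_
    rw [integral_const_mul, integral_Ioi_rpow_of_lt (by norm_num) hρ0]
    have h3 : ((-2 : ℝ) + 1) = -1 := by norm_num
    rw [h3, Real.rpow_neg_one]
    have : ρ * (-ρ⁻¹ / -1) = 1 := by field_simp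
    rw [this]
  rw [habs, ← hsplit]
  nlinarith

private theorem clamp {g : ℝ → ℝ} {A B : ℝ} (hAB : A ≤ B) (hg : ContinuousOn g (Icc A B))
    (hg0 : ∀ t ∈ Icc A B, 0 ≤ g t) : ∃ G : ℝ → ℝ, Continuous G ∧ (∀ t, 0 ≤ G t) ∧
      ∀ t ∈ Icc A B, G t = g t := by
  have hm : ∀ t, max A (min B t) ∈ Icc A B := fun t =>
    ⟨le_max_left _ _, max_le hAB (min_le_left _ _)⟩
  refine ⟨fun t => g (max A (min B t)), hg.comp_continuous (by fun_prop) hm,
    fun t => hg0 _ (hm t), fun t ht => ?_⟩
  show g (max A (min B t)) = g t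
  rw [min_eq_right ht.2, max_eq_right ht.1]

/-- Averaging a convolution. -/
theorem conv_mean {g : ℝ → ℝ} {k : ℝ → ℝ} {A B X L : ℝ} (hL : 0 < L) (hX : 0 ≤ X)
    (hAB : A + X ≤ B - X) (hg : ContinuousOn g (Icc A B)) (hg0 : ∀ t ∈ Icc A B, 0 ≤ g t)
    (hk : Continuous k) (hk0 : ∀ y, 0 ≤ k y) (hki : Integrable k) :
    ∫ t₀ in (A + X)..(B - X), ∫ t in (t₀ - X)..(t₀ + X), g t * (L * k (L * (t - t₀))) ≤
      (∫ y : ℝ, k y) * ∫ t in A..B, g t := by
  have hAB' : A ≤ B := by linarith
  obtain ⟨G, hG, hG0, hGg⟩ := clamp hAB' hg hg0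
  have hc : Continuous (Function.uncurry fun t₀ t => G t * (L * k (L * (t - t₀)))) := by
    show Continuous fun p : ℝ × ℝ => G p.2 * (L * k (L * (p.2 - p.1)))
    fun_prop
  have hnn : ∀ t₀ t, 0 ≤ G t * (L * k (L * (t - t₀))) := fun t₀ t =>
    mul_nonneg (hG0 t) (mul_nonneg hL.le (hk0 _))
  -- the inner integral
  have h1 : ∀ t₀ ∈ Icc (A + X) (B - X), ∫ t in (t₀ - X)..(t₀ + X), g t * (L * k (L * (t - t₀))) =
      ∫ t in (t₀ - X)..(t₀ + X), G t * (L * k (L * (t - t₀))) := by
    intro t₀ ht₀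
    refine intervalIntegral.integral_congr fun t ht => ?_
    rw [uIcc_of_le (by linarith)] at ht
    rw [hGg t ⟨by linarith [ht.1, ht₀.1], by linarith [ht.2, ht₀.2]⟩]
  have h2 : ∀ t₀ ∈ Icc (A + X) (B - X), ∫ t in (t₀ - X)..(t₀ + X), g t * (L * k (L * (t - t₀))) ≤
      ∫ t in A..B, G t * (L * k (L * (t - t₀))) := by
    intro t₀ ht₀
    rw [h1 t₀ ht₀]
    refine intervalIntegral.integral_mono_interval (by linarith [ht₀.1]) (by linarith)
      (by linarith [ht₀.2]) (Eventually.of_forall fun t => hnn t₀ t) ?_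
    exact (hc.comp (by fun_prop : Continuous fun t : ℝ => (t₀, t))).intervalIntegrable _ _
  have h3 : ∫ t₀ in (A + X)..(B - X), ∫ t in (t₀ - X)..(t₀ + X), g t * (L * k (L * (t - t₀))) ≤
      ∫ t₀ in (A + X)..(B - X), ∫ t in A..B, G t * (L * k (L * (t - t₀))) := by
    refine intervalIntegral.integral_mono_on hAB ?_ ?_ h2
    · have h4 : ContinuousOn (fun t₀ => ∫ t in (t₀ - X)..(t₀ + X), G t * (L * k (L * (t - t₀))))
          (uIcc (A + X) (B - X)) := by
        refine Continuous.continuousOn ?_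
        have h5 : ∀ t₀ : ℝ, ∫ t in (t₀ - X)..(t₀ + X), G t * (L * k (L * (t - t₀))) =
            ∫ u in (-X)..X, G (t₀ + u) * (L * k (L * u)) := by
          intro t₀
          have h6 := intervalIntegral.integral_comp_add_left
            (fun t => G t * (L * k (L * (t - t₀)))) (a := -X) (b := X) t₀
          rw [show t₀ + -X = t₀ - X by ring] at h6
          rw [← h6]
          refine intervalIntegral.integral_congr fun u _ => ?_
          rw [add_sub_cancel_left]
        simp only [h5]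
        refine intervalIntegral.continuous_parametric_intervalIntegral_of_continuous' ?_ _ _
        show Continuous fun p : ℝ × ℝ => G (p.1 + p.2) * (L * k (L * p.2))
        fun_prop
      refine (h4.intervalIntegrable).congr ?_
      rw [uIoc_of_le hAB]
      intro t₀ ht₀
      exact (h1 t₀ (Ioc_subset_Icc_self ht₀)).symm
    · refine Continuous.intervalIntegrable ?_ _ _
      exact intervalIntegral.continuous_parametric_intervalIntegral_of_continuous' hc _ _
  refine h3.trans ?_
  rw [MeasureTheory.intervalIntegral_intervalIntegral_swap (by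
    refine IntegrableOn.mono_set (t := uIcc (A + X) (B - X) ×ˢ uIcc A B) ?_
      (prod_mono uIoc_subset_uIcc uIoc_subset_uIcc)
    exact hc.continuousOn.integrableOn_compact (isCompact_uIcc.prod isCompact_uIcc))]
  rw [mul_comm, ← intervalIntegral.integral_mul_const]
  have h7 : ∫ t in A..B, g t * ∫ y : ℝ, k y = ∫ t in A..B, G t * ∫ y : ℝ, k y := by
    refine intervalIntegral.integral_congr fun t ht => ?_
    rw [uIcc_of_le hAB'] at ht
    rw [hGg t ht]
  rw [h7]
  refine intervalIntegral.integral_mono_on hAB' ?_ ?_ ?_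
  · refine Continuous.intervalIntegrable ?_ _ _
    refine intervalIntegral.continuous_parametric_intervalIntegral_of_continuous' ?_ _ _
    exact hc.comp (by fun_prop : Continuous fun p : ℝ × ℝ => (p.2, p.1))
  · exact (hG.mul_const _).intervalIntegrable _ _
  · intro t _
    rw [intervalIntegral.integral_const_mul]
    refine mul_le_mul_of_nonneg_left ?_ (hG0 t)
    have hi : Integrable fun t₀ => L * k (L * (t - t₀)) := by
      have := (hki.comp_mul_left' hL.ne').comp_sub_left t
      exact this.const_mul L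
    have h8 : ∫ t₀ : ℝ, L * k (L * (t - t₀)) = ∫ y : ℝ, k y := by
      rw [integral_sub_left_eq_self (fun u => L * k (L * u)) volume t, integral_const_mul,
        Measure.integral_comp_mul_left, abs_of_pos (by positivity), smul_eq_mul,
        mul_inv_cancel_left₀ hL.ne']
    rw [← h8, intervalIntegral.integral_of_le hAB]
    exact setIntegral_le_integral hi (Eventually.of_forall fun t₀ => mul_nonneg hL.le (hk0 _))

end Pool.Agent.MP_67227b_nt.Ah
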