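import Pool.Agent.MP_67227b_nt.Ah.AhDefs
import Pool.Agent.MP_67227b_nt.Pp.PpT0

set_option autoImplicit false

open Filter Topology Set MeasureTheory Complex
open scoped Real ArithmeticFunction ContDiff

namespace Pool.Agent.MP_67227b_nt.Ah

open Pool.Agent.Lib.ZetaCount_helper33 Pool.Agent.MP_67227b_nt Pool.Agent.MP_67227b_nt.Mo
open Pool.Agent.MP_67227b_nt.Sg Pool.Agent.MP_67227b_nt.Pp
open Pool.Agent.MP_67227b_nt.Mo.MomentBAux (DP)

/-- Decay: a power times an exponential of a negative power tends to zero. -/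
private lemma MEAN1_decay (a k : ℝ) {δ : ℝ} (hδ : 0 < δ) (hk : 0 < k) :
    Tendsto (fun T : ℝ => T ^ a * Real.exp (-(k * T ^ δ))) atTop (𝓝 0) := by
  have h1 : Tendsto (fun x : ℝ => x ^ (a / δ) * Real.exp (-k * x)) atTop (𝓝 0) :=
    tendsto_rpow_mul_exp_neg_mul_atTop_nhds_zero _ _ hk
  have h2 := h1.comp (tendsto_rpow_atTop hδ)
  refine h2.congr' ?_
  filter_upwards [eventually_gt_atTop 0] with T hT
  simp only [Function.comp]
  rw [← Real.rpow_mul hT.le, mul_div_cancel₀ _ hδ.ne', neg_mul]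

/-- MODULE MEAN1. The mean of `Re Hq ‖A‖²` at each centre. This is the computation in the proof of
`Pp.neg_at` (`Pp/PpT0.lean`) with general coefficients `a`, `‖a n‖ ≤ A`, `N ≤ T^κ`, `u = 1/2`,
`ψ = π/2` (`(I z).im = z.re`), `Δ = T^{(1+κ)/2}`, `X = ε T` in place of `T/4` (`right_line_a`,
`move_line_a`, `Hq_growth`, `im_left`; all error terms are `O(T^A exp(-T^c))`). -/
theorem mean_at (hRH : RiemannHypothesis) {β κ A ε ε' : ℝ} (hβ : 0 < β) (hκ : 0 < κ)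
    (hκ1 : κ < 1) (hA : 0 < A) (hε : 0 < ε) (hε1 : ε ≤ 1 / 8) (hε' : 0 < ε') :
    ∀ᶠ T : ℝ in atTop, ∀ (a : ℕ → ℝ) (N : ℕ), (∀ n, |a n| ≤ A) → 1 ≤ N → (N : ℝ) ≤ T ^ κ →
      ∀ t₀ ∈ Icc ((1 / 2 + ε) * T) ((1 - ε) * T),
        |(∫ t in (t₀ - ε * T)..(t₀ + ε * T),
          (Hq (al T) (pl (1 / 2 + β / Real.log T) t)).re *
          ‖Aa a N (pl (1 / 2 + β / Real.log T) (t + al T))‖ ^ 2 *
          Real.exp (-(((t - t₀) / T ^ ((1 + κ) / 2)) ^ 2))) -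
          T ^ ((1 + κ) / 2) * Real.sqrt π * (Sa a (al T) (β / Real.log T) N).re| ≤
        ε' * T ^ ((1 + κ) / 2) := by
  obtain ⟨θ, hθ⟩ : ∃ θ : ℝ, θ = (1 + κ) / 2 := ⟨_, rfl⟩
  have hθ0 : 0 < θ := by rw [hθ]; linarith
  have hθ1 : θ < 1 := by rw [hθ]; linarith
  have hκθ : κ < θ := by rw [hθ]; linarith
  obtain ⟨C₂, hC₂, hgr⟩ := Hq_growth hRH (u := 1 / 2) (by norm_num) hβ
  obtain ⟨C₃, hC₃, hright⟩ := right_line_a
  have e1 : Tendsto (fun T : ℝ => C₃ * A ^ 2 *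
      (T ^ (12 * κ) * Real.exp (-(1 / 32 * T ^ (2 * (θ - κ)))) +
      T ^ (12 * κ) * Real.exp (-(ε ^ 2 / 2 * T ^ (2 * (1 - θ))))) +
      100 * A ^ 2 * (T ^ (C₂ + 12 * κ) * Real.exp (-(ε ^ 2 * T ^ (2 * (1 - θ)))))) atTop
      (𝓝 0) := by
    have t1 := MEAN1_decay (12 * κ) (1 / 32) (δ := 2 * (θ - κ)) (by linarith) (by norm_num)
    have t2 := MEAN1_decay (12 * κ) (ε ^ 2 / 2) (δ := 2 * (1 - θ)) (by linarith) (by positivity)
    have t3 := MEAN1_decay (C₂ + 12 * κ) (ε ^ 2) (δ := 2 * (1 - θ)) (by linarith) (by positivity)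
    have := ((t1.add t2).const_mul (C₃ * A ^ 2)).add (t3.const_mul (100 * A ^ 2))
    simpa using this
  have ev1 := e1.eventually (gt_mem_nhds hε')
  have ev2 : ∀ᶠ T : ℝ in atTop, (32 : ℝ) ≤ T ^ (θ - κ) :=
    (tendsto_rpow_atTop (by linarith : 0 < θ - κ)).eventually_ge_atTop 32
  have ev3 : ∀ᶠ T : ℝ in atTop, 2 * π * (1 / 2) + β + 1 ≤ Real.log T :=
    Real.tendsto_log_atTop.eventually_ge_atTop _
  rw [← hθ]
  filter_upwards [hgr, ev1, ev2, ev3, eventually_ge_atTop 4] with T hgr' hE h32 hL hT4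
    a N hab hN1 hNle t₀ ht₀
  have hT0 : 0 < T := by linarith
  have hT1 : 1 ≤ T := by linarith
  have hπ := Real.pi_pos
  have hL0 : 0 < Real.log T := by
    have : 0 < 2 * π * (1 / 2) + β + 1 := by positivity
    linarith
  have hgr'' : ∀ σ t : ℝ, 1 / 2 + β / Real.log T ≤ σ → σ ≤ 4 →
      T / 2 ≤ t → t ≤ 4 * T → ‖Hq (al T) (pl σ t)‖ ≤ T ^ C₂ := hgr'
  have hα0 : 0 ≤ al T := by unfold al; positivity
  have hα1 : al T ≤ 1 := by
    unfold al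
    rw [div_le_one hL0]
    linarith
  obtain ⟨α, hα⟩ : ∃ α : ℝ, α = al T := ⟨_, rfl⟩
  rw [← hα] at hgr'' hα0 hα1 ⊢
  set L := Real.log T with hLdef
  set b : ℝ := β / L with hb
  set X : ℝ := ε * T with hX
  set Δ : ℝ := T ^ θ with hΔ
  have hb0 : 0 < b := by positivity
  have hb1 : b ≤ 1 := by
    rw [hb, div_le_one hL0]
    have : 0 < 2 * π * (1 / 2) := by positivity
    linarith
  have hN1' : (1 : ℝ) ≤ N := by exact_mod_cast hN1
  have hΔ0 : 0 < Δ := by positivity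
  have hΔN : 32 * (N : ℝ) ≤ Δ := by
    have : Δ = T ^ (θ - κ) * T ^ κ := by
      rw [hΔ, ← Real.rpow_add hT0]
      congr 1
      ring
    rw [this]
    gcongr
  have hΔ4 : 4 ≤ Δ := by linarith
  have hX0 : 0 < X := by positivity
  have hεT : ε * T ≤ 1 / 8 * T := mul_le_mul_of_nonneg_right hε1 hT0.le
  have hXt : X < t₀ := by
    have := ht₀.1
    rw [hX]
    nlinarith
  have hlow : T / 2 ≤ t₀ - X := by
    have := ht₀.1
    rw [hX]
    linarith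
  have hupp : t₀ + X ≤ T := by
    have := ht₀.2
    rw [hX]
    linarith
  -- rewrite the integral
  have hint : (∫ t in (t₀ - X)..(t₀ + X), (Hq α (pl (1 / 2 + b) t)).re *
      ‖Aa a N (pl (1 / 2 + b) (t + α))‖ ^ 2 *
      Real.exp (-(((t - t₀) / Δ) ^ 2))) =
      (∫ t in (t₀ - X)..(t₀ + X), Pa a α b t₀ Δ N (pl (1 / 2 + b) t)).re := by
    have h1 := im_left hRH (a := a) (α := α) (b := b) (t₀ := t₀) (Δ := Δ) (X := X) (N := N) I
      hα0 hb0 hX0 hXt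
    have h2 : ∀ z : ℂ, (I * z).im = z.re := fun z => by simp
    rw [h2] at h1
    rw [h1]
    apply intervalIntegral.integral_congr
    intro t _
    simp only
    rw [h2]
  rw [hint]
  have hr := hright a A α b t₀ Δ X N hab hN1 hα0 hb0 hb1 hΔN hX0
  have hm := move_line_a hRH (a := a) (A := A) (α := α) (b := b) (t₀ := t₀) (Δ := Δ) (X := X)
    (K := T ^ C₂) (N := N) hab hα0 hα1 hb0 hb1 hΔ4 hX0 hXt hN1 (by
      intro σ t hσ1 hσ2 ht
      apply hgr'' σ t hσ1 hσ2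
      · rcases ht with rfl | rfl <;> linarith
      · rcases ht with rfl | rfl <;> linarith)
  set IL := ∫ t in (t₀ - X)..(t₀ + X), Pa a α b t₀ Δ N (pl (1 / 2 + b) t) with hIL
  set IR := ∫ t in (t₀ - X)..(t₀ + X), Pa a α b t₀ Δ N (pl 4 t) with hIR
  set M : ℂ := ((Δ * Real.sqrt π : ℝ) : ℂ) * Sa a α b N with hM
  have hMre : M.re = Δ * Real.sqrt π * (Sa a α b N).re := by
    rw [hM, Complex.re_ofReal_mul]
  rw [← hMre]
  have hdiff : |IL.re - M.re| ≤ ‖IL - IR‖ + ‖IR - M‖ := by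
    rw [← Complex.sub_re]
    calc |(IL - M).re| ≤ ‖IL - M‖ := Complex.abs_re_le_norm _
      _ = ‖(IL - IR) + (IR - M)‖ := by congr 1; ring
      _ ≤ _ := norm_add_le _ _
  have hN12 : (N : ℝ) ^ 12 ≤ T ^ (12 * κ) := by
    calc (N : ℝ) ^ 12 ≤ (T ^ κ) ^ 12 := by gcongr
      _ = T ^ (12 * κ) := by
        rw [← Real.rpow_natCast, ← Real.rpow_mul hT0.le]
        congr 1
        push_cast
        ring
  have hx1 : Real.exp (-(Δ ^ 2 / (32 * (N : ℝ) ^ 2))) ≤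
      Real.exp (-(1 / 32 * T ^ (2 * (θ - κ)))) := by
    apply Real.exp_le_exp.mpr
    apply neg_le_neg
    have h8 : T ^ (2 * (θ - κ)) = Δ ^ 2 / (T ^ κ) ^ 2 := by
      rw [hΔ, ← Real.rpow_natCast, ← Real.rpow_natCast, ← Real.rpow_mul hT0.le,
        ← Real.rpow_mul hT0.le, ← Real.rpow_sub hT0]
      congr 1
      push_cast
      ring
    rw [h8]
    rw [div_mul_div_comm, one_mul]
    gcongr
  have hx2 : X ^ 2 / (2 * Δ ^ 2) = ε ^ 2 / 2 * T ^ (2 * (1 - θ)) := by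
    have h8 : T ^ (2 * (1 - θ)) = T ^ 2 / Δ ^ 2 := by
      rw [hΔ, ← Real.rpow_natCast, ← Real.rpow_natCast, ← Real.rpow_mul hT0.le,
        ← Real.rpow_sub hT0]
      congr 1
      push_cast
      ring
    rw [h8, hX]
    field_simp
  have hx3 : X ^ 2 / Δ ^ 2 = ε ^ 2 * T ^ (2 * (1 - θ)) := by
    have : X ^ 2 / Δ ^ 2 = 2 * (X ^ 2 / (2 * Δ ^ 2)) := by field_simp
    rw [this, hx2]
    ring
  rw [hx2] at hr
  rw [hx3] at hm
  have hr' : ‖IR - M‖ ≤ Δ * (C₃ * A ^ 2 * (T ^ (12 * κ) *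
      Real.exp (-(1 / 32 * T ^ (2 * (θ - κ)))) +
      T ^ (12 * κ) * Real.exp (-(ε ^ 2 / 2 * T ^ (2 * (1 - θ)))))) := by
    refine hr.trans ?_
    calc C₃ * A ^ 2 * (N : ℝ) ^ 12 * Δ * (Real.exp (-(Δ ^ 2 / (32 * (N : ℝ) ^ 2))) +
          Real.exp (-(ε ^ 2 / 2 * T ^ (2 * (1 - θ)))))
        ≤ C₃ * A ^ 2 * T ^ (12 * κ) * Δ * (Real.exp (-(1 / 32 * T ^ (2 * (θ - κ)))) +
          Real.exp (-(ε ^ 2 / 2 * T ^ (2 * (1 - θ))))) := by gcongr
      _ = _ := by ring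
  have hm' : ‖IL - IR‖ ≤ Δ * (100 * A ^ 2 * (T ^ (C₂ + 12 * κ) *
      Real.exp (-(ε ^ 2 * T ^ (2 * (1 - θ)))))) := by
    refine hm.trans ?_
    rw [Real.rpow_add hT0]
    calc 100 * A ^ 2 * T ^ C₂ * (N : ℝ) ^ 12 * Real.exp (-(ε ^ 2 * T ^ (2 * (1 - θ))))
        ≤ 100 * A ^ 2 * T ^ C₂ * T ^ (12 * κ) * Real.exp (-(ε ^ 2 * T ^ (2 * (1 - θ)))) := by
          gcongr
      _ = 1 * (100 * A ^ 2 * (T ^ C₂ * T ^ (12 * κ) *
          Real.exp (-(ε ^ 2 * T ^ (2 * (1 - θ)))))) := by ring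
      _ ≤ _ := by
        gcongr
        linarith
  calc |IL.re - M.re| ≤ ‖IL - IR‖ + ‖IR - M‖ := hdiff
    _ ≤ _ := add_le_add hm' hr'
    _ = Δ * (C₃ * A ^ 2 * (T ^ (12 * κ) * Real.exp (-(1 / 32 * T ^ (2 * (θ - κ)))) +
        T ^ (12 * κ) * Real.exp (-(ε ^ 2 / 2 * T ^ (2 * (1 - θ))))) +
        100 * A ^ 2 * (T ^ (C₂ + 12 * κ) * Real.exp (-(ε ^ 2 * T ^ (2 * (1 - θ)))))) := by ring
    _ ≤ Δ * ε' := by gcongr
    _ = ε' * Δ := by ring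

end Pool.Agent.MP_67227b_nt.Ah
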