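import Pool.Agent.MP_67227b_nt.Ah.AhSaC
import Pool.Agent.MP_67227b_nt.Pp.PpSep

set_option autoImplicit false

open Filter Topology Set MeasureTheory Complex
open scoped Real ArithmeticFunction ContDiff

namespace Pool.Agent.MP_67227b_nt.Ah

open Pool.Agent.Lib.ZetaCount_helper33 Pool.Agent.MP_67227b_nt Pool.Agent.MP_67227b_nt.Mo
open Pool.Agent.MP_67227b_nt.Sg Pool.Agent.MP_67227b_nt.Pp
open Pool.Agent.MP_67227b_nt.Mo.MomentBAux (DP)

namespace SepAux

/-- The kernel `b / (b² + v²)`. -/
private noncomputable def ff (b v : ℝ) : ℝ := b / (b ^ 2 + v ^ 2)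

private lemma ff_eq (b v : ℝ) : ff b v = SG5_P b 0 v := by
  unfold ff SG5_P
  rw [zero_sub, neg_sq]

private lemma ff_int {b : ℝ} (hb : 0 < b) : Integrable (ff b) := by
  have h : ff b = SG5_P b 0 := by funext v; exact ff_eq b v
  rw [h]; exact SG5_P_int hb 0

private lemma ff_cont {b : ℝ} (hb : 0 < b) : Continuous (ff b) := by
  have h : ff b = SG5_P b 0 := by funext v; exact ff_eq b v
  rw [h]; exact SG5_P_cont hb 0

private lemma ff_pi {b : ℝ} (hb : 0 < b) : ∫ v, ff b v = π := by
  simp_rw [ff_eq]; exact SG5_P_pi hb 0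

private lemma ff_nonneg {b : ℝ} (hb : 0 < b) (v : ℝ) : 0 ≤ ff b v := by
  unfold ff; positivity

private lemma ff_le {b : ℝ} (hb : 0 < b) (v : ℝ) : ff b v ≤ 1 / b := by
  unfold ff
  rw [div_le_div_iff₀ (by positivity) hb]
  nlinarith [sq_nonneg v]

private lemma ff_mono {b : ℝ} (hb : 0 < b) {v w : ℝ} (h : |w| ≤ |v|) : ff b v ≤ ff b w := by
  unfold ff
  apply div_le_div_of_nonneg_left hb.le (by positivity)
  have := sq_le_sq.2 h
  linarith

/-- Disjoint intervals of length `a`. -/
private lemma disj_le {ι : Type*} {b a : ℝ} (hb : 0 < b) (ha : 0 ≤ a) (s : Finset ι) (lo : ι → ℝ)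
    (h : ∀ x ∈ s, ∀ y ∈ s, x ≠ y → lo x + a ≤ lo y ∨ lo y + a ≤ lo x) :
    ∑ x ∈ s, ∫ v in (lo x)..(lo x + a), ff b v ≤ π := by
  have h1 : ∀ x ∈ s, ∫ v in (lo x)..(lo x + a), ff b v = ∫ v in Ioc (lo x) (lo x + a), ff b v := by
    intro x _
    exact intervalIntegral.integral_of_le (by linarith)
  rw [Finset.sum_congr rfl h1, ← integral_biUnion_finset s (fun z _ => measurableSet_Ioc) ?_
    (fun z _ => (ff_int hb).integrableOn)]
  · rw [← ff_pi hb]
    exact setIntegral_le_integral (ff_int hb) (Eventually.of_forall fun x => ff_nonneg hb x)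
  · intro z hz z' hz' hne
    rw [Function.onFun, Set.disjoint_left]
    intro x hx hx'
    rcases h z hz z' hz' hne with h | h
    · linarith [hx.1, hx.2, hx'.1, hx'.2]
    · linarith [hx.1, hx.2, hx'.1, hx'.2]

/-- The sum of the kernel over separated points. -/
private lemma pk_sum {s : Finset ℝ} {a b : ℝ} (hb : 0 < b) (ha : 0 < a)
    (hs : ∀ x ∈ s, ∀ y ∈ s, x ≠ y → a < |x - y|) (u : ℝ) :
    ∑ x ∈ s, ff b (u - x) ≤ 2 / b + π / a := by
  classical
  set M := s.filter (fun x => |u - x| ≤ a) with hM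
  set Q := s.filter (fun x => ¬ |u - x| ≤ a) with hQ
  have hsplit : ∑ x ∈ s, ff b (u - x) = ∑ x ∈ M, ff b (u - x) + ∑ x ∈ Q, ff b (u - x) :=
    (Finset.sum_filter_add_sum_filter_not s _ _).symm
  have hcard : M.card ≤ 2 := by
    by_contra hcon
    push Not at hcon
    obtain ⟨x, y, z, hx, hy, hz, hxy, hxz, hyz⟩ := Finset.two_lt_card_iff.1 hcon
    obtain ⟨hx1, hx2⟩ := Finset.mem_filter.1 hx
    obtain ⟨hy1, hy2⟩ := Finset.mem_filter.1 hy
    obtain ⟨hz1, hz2⟩ := Finset.mem_filter.1 hz
    have a1 := hs x hx1 y hy1 hxy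
    have a2 := hs x hx1 z hz1 hxz
    have a3 := hs y hy1 z hz1 hyz
    rw [abs_le] at hx2 hy2 hz2
    rcases lt_abs.1 a1 with b1 | b1 <;> rcases lt_abs.1 a2 with b2 | b2 <;>
      rcases lt_abs.1 a3 with b3 | b3 <;> linarith [hx2.1, hx2.2, hy2.1, hy2.2, hz2.1, hz2.2]
  have h1 : ∑ x ∈ M, ff b (u - x) ≤ 2 / b := by
    calc ∑ x ∈ M, ff b (u - x) ≤ ∑ x ∈ M, 1 / b := Finset.sum_le_sum fun x _ => ff_le hb _
      _ = M.card * (1 / b) := by rw [Finset.sum_const, nsmul_eq_mul]
      _ ≤ 2 * (1 / b) := by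
          apply mul_le_mul_of_nonneg_right _ (by positivity)
          exact_mod_cast hcard
      _ = 2 / b := by ring
  set lo : ℝ → ℝ := fun x => if a < u - x then u - x - a else u - x with hlo
  have h2 : ∑ x ∈ Q, ff b (u - x) ≤ π / a := by
    have h3 : ∀ x ∈ Q, a * ff b (u - x) ≤ ∫ v in (lo x)..(lo x + a), ff b v := by
      intro x hx
      have hx2 := not_le.1 (Finset.mem_filter.1 hx).2
      have h4 := intervalIntegral.integral_mono_on (μ := volume) (a := lo x) (b := lo x + a)
        (f := fun _ => ff b (u - x)) (g := ff b) (by linarith) (intervalIntegrable_const)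
        ((ff_cont hb).intervalIntegrable _ _) ?_
      · rw [intervalIntegral.integral_const, smul_eq_mul] at h4
        calc a * ff b (u - x) = (lo x + a - lo x) * ff b (u - x) := by ring
          _ ≤ _ := h4
      · intro v hv
        apply ff_mono hb
        by_cases hc : a < u - x
        · simp only [hlo, if_pos hc] at hv
          rw [abs_of_nonneg (by linarith [hv.1]), abs_of_nonneg (by linarith)]
          linarith [hv.2]
        · simp only [hlo, if_neg hc] at hv
          have hn : u - x < -a := by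
            rcases lt_abs.1 hx2 with h | h
            · exact absurd h hc
            · linarith
          rw [abs_of_nonpos (by linarith [hv.2]), abs_of_nonpos (by linarith)]
          linarith [hv.1]
    have h5 := disj_le hb ha.le Q lo (by
      intro x hx y hy hxy
      obtain ⟨hx1, hx2⟩ := Finset.mem_filter.1 hx
      obtain ⟨hy1, hy2⟩ := Finset.mem_filter.1 hy
      have hx2 := not_le.1 hx2
      have hy2 := not_le.1 hy2
      have hd := hs x hx1 y hy1 hxy
      by_cases hcx : a < u - x <;> by_cases hcy : a < u - y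
      · simp only [hlo, if_pos hcx, if_pos hcy]
        rcases lt_abs.1 hd with h | h
        · left; linarith
        · right; linarith
      · simp only [hlo, if_pos hcx, if_neg hcy]
        right
        rcases lt_abs.1 hy2 with h | h
        · exact absurd h hcy
        · linarith
      · simp only [hlo, if_neg hcx, if_pos hcy]
        left
        rcases lt_abs.1 hx2 with h | h
        · exact absurd h hcx
        · linarith
      · simp only [hlo, if_neg hcx, if_neg hcy]
        rcases lt_abs.1 hd with h | h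
        · left; linarith
        · right; linarith)
    have h6 : a * ∑ x ∈ Q, ff b (u - x) ≤ π := by
      rw [Finset.mul_sum]
      exact (Finset.sum_le_sum h3).trans h5
    rw [le_div_iff₀ ha, mul_comm]
    exact h6
  rw [hsplit]
  linarith

end SepAux

open SepAux in
/-- MODULE SEP1. Points that are `a`-separated with `a ≤ α`. As `∫_0^α b/(b²+(t+y-x)²) dy` is the
integral of the Poisson kernel `P(v) = b/(b²+(t-v)²)` over `[x-α, x]` (`Sg.SG5_subst`), split it into
`[x-a, x]` (disjoint intervals, total at most `π`, `Sg.SG5_disj`) and `[x-α, x-a]`: the second parts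
are `∫_0^{α-a} ∑_x P(x - a - v) dv`, and `∑_x P(x - c) ≤ 2/b + π/a` for `a`-separated points (at most
two terms bounded by `1/b`, the others by `1/a` times the integral of `P` over the adjacent interval
of length `a` on the side of the maximum, disjoint intervals). -/
theorem sum_sep' {s : Finset ℝ} {a α b t : ℝ} (hb : 0 < b) (ha : 0 < a) (haα : a ≤ α)
    (hs : ∀ x ∈ s, ∀ y ∈ s, x ≠ y → a < |x - y|) :
    ∑ x ∈ s, ∫ y in (0 : ℝ)..α, b / (b ^ 2 + (t + y - x) ^ 2) ≤
      π + (α - a) * (2 / b + π / a) := by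
  classical
  have hcont : ∀ x : ℝ, Continuous fun y : ℝ => ff b (t + y - x) := fun x =>
    (ff_cont hb).comp (by fun_prop)
  have e0 : ∀ x : ℝ, ∫ y in (0 : ℝ)..α, b / (b ^ 2 + (t + y - x) ^ 2) =
      (∫ y in (0 : ℝ)..a, ff b (t + y - x)) + ∫ y in a..α, ff b (t + y - x) := by
    intro x
    rw [intervalIntegral.integral_add_adjacent_intervals ((hcont x).intervalIntegrable _ _)
      ((hcont x).intervalIntegrable _ _)]
    rfl
  simp_rw [e0]
  rw [Finset.sum_add_distrib]
  refine add_le_add ?_ ?_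
  · have e1 : ∀ x ∈ s, ∫ y in (0 : ℝ)..a, ff b (t + y - x) =
        ∫ v in (t - x)..(t - x + a), ff b v := by
      intro x _
      have h := intervalIntegral.integral_comp_add_right (a := 0) (b := a) (fun v => ff b v) (t - x)
      rw [zero_add, add_comm a (t - x)] at h
      rw [← h]
      refine intervalIntegral.integral_congr fun y _ => ?_
      have e3 : t + y - x = y + (t - x) := by ring
      rw [e3]
    rw [Finset.sum_congr rfl e1]
    refine disj_le hb ha.le s (fun x => t - x) ?_
    intro x hx y hy hxy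
    rcases lt_abs.1 (hs x hx y hy hxy) with h | h
    · left; linarith
    · right; linarith
  · rw [← intervalIntegral.integral_finsetSum fun x _ => (hcont x).intervalIntegrable _ _]
    have h1 := intervalIntegral.integral_mono_on (μ := volume) (a := a) (b := α)
      (f := fun y => ∑ x ∈ s, ff b (t + y - x)) (g := fun _ => 2 / b + π / a) haα
      ((continuous_finsetSum s fun x _ => hcont x).intervalIntegrable _ _)
      (intervalIntegrable_const) (fun y _ => pk_sum hb ha hs (t + y))
    rw [intervalIntegral.integral_const, smul_eq_mul] at h1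
    exact h1

/-- MODULE SEP2. Copy of `Pp.Th_sep` (`Pp/PpSep.lean`) with `u = 1/2` and `sum_sep'` in place of
`sum_sep`: `a = 2π lam/L`, `α = π/L`, `b = β/L`, `(α - a)(2/b + π/a) =
π (1 - 2 lam) (2/β + 1/(2 lam)) ≤ ε` for `lam` close to `1/2`. -/
theorem Th_sep' (hRH : RiemannHypothesis) {β ε : ℝ} (hβ : 0 < β) (hε : 0 < ε) :
    ∃ lam C R₀ : ℝ, 0 < lam ∧ lam < 1 / 2 ∧ 0 < C ∧ 0 < R₀ ∧ ∀ R : ℝ, R₀ ≤ R →
      ∀ᶠ T : ℝ in atTop, ∀ t ∈ Icc (T / 2) (3 * T),
        Sg.Sep (Icc (t - R / Real.log T) (t + R / Real.log T)) (2 * π * lam / Real.log T) →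
        Th (al T) (β / Real.log T) t ≤ π + ε + C * Far (Real.log T) R t := by
  classical
  have hpi : 0 < π := Real.pi_pos
  obtain ⟨q, hq0, hq1, hq2⟩ : ∃ q : ℝ, 0 < q ∧ q ≤ 1 / 2 ∧ π * q * (2 / β + 2) ≤ ε / 2 := by
    have h1 : 0 < π * (2 / β + 2) := by positivity
    refine ⟨min (1 / 2) (ε / 2 / (π * (2 / β + 2))), by positivity, min_le_left _ _, ?_⟩
    calc π * min (1 / 2) (ε / 2 / (π * (2 / β + 2))) * (2 / β + 2)
        = min (1 / 2) (ε / 2 / (π * (2 / β + 2))) * (π * (2 / β + 2)) := by ring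
      _ ≤ ε / 2 / (π * (2 / β + 2)) * (π * (2 / β + 2)) :=
          mul_le_mul_of_nonneg_right (min_le_right _ _) h1.le
      _ = ε / 2 := div_mul_cancel₀ _ h1.ne'
  set lam : ℝ := (1 - q) / 2 with hlam'
  have hlam : 1 / 4 ≤ lam := by rw [hlam']; linarith
  have hlam0 : 0 < lam := by linarith
  have hlam1 : lam < 1 / 2 := by rw [hlam']; linarith
  set u : ℝ := 1 / 2 with hu'
  have hu : 0 < u := by rw [hu']; norm_num
  refine ⟨lam, 8 * π * u * β, 4 * π * u, hlam0, hlam1, by positivity, by positivity,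
    fun R hR => ?_⟩
  have hR0 : 0 < R := lt_of_lt_of_le (by positivity) hR
  have hlog : Tendsto Real.log atTop atTop := Real.tendsto_log_atTop
  filter_upwards [hlog.eventually_ge_atTop β, hlog.eventually_ge_atTop (2 * π * u)]
    with T hT1 hT2 t _ hsep
  have hal : al T = 2 * π * u / Real.log T := by rw [al, hu']
  rw [hal]
  set L := Real.log T with hL
  have hL0 : 0 < L := lt_of_lt_of_le hβ hT1
  set b := β / L with hb
  set α := 2 * π * u / L with hα
  set a := 2 * π * lam / L with ha
  have hb0 : 0 < b := by positivity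
  have hb1 : b ≤ 1 := (div_le_one hL0).2 hT1
  have hα0 : 0 < α := by positivity
  have hα1 : α ≤ 1 := (div_le_one hL0).2 hT2
  have hαa : a < α := by
    rw [hα, ha]
    apply div_lt_div_of_pos_right _ hL0
    nlinarith [Real.pi_pos]
  have ha0 : 0 < a := by positivity
  -- the finite set
  set g : Zer → ℝ := fun z => mu z / (1 + (t - ord z) ^ 2) with hg
  have hgs : Summable g := summable_zer hRH t
  obtain ⟨δ, hδ0, hδ2⟩ : ∃ δ : ℝ, 0 < δ ∧ α * (3 / b * δ) ≤ ε / 2 := by
    refine ⟨ε / 2 / (α * (3 / b)), by positivity, le_of_eq ?_⟩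
    have h1 : 0 < α * (3 / b) := by positivity
    calc α * (3 / b * (ε / 2 / (α * (3 / b)))) = α * (3 / b) * (ε / 2 / (α * (3 / b))) := by ring
      _ = ε / 2 := by rw [mul_div_assoc', mul_div_cancel_left₀ _ h1.ne']
  obtain ⟨S, hS⟩ : ∃ S : Finset Zer, ∑' z, g z - ∑ z ∈ S, g z < δ := by
    have h0 : Tendsto (fun S : Finset Zer => ∑ z ∈ S, g z) atTop (𝓝 (∑' z, g z)) := by
      have := hgs.hasSum
      rw [HasSum, SummationFilter.unconditional_filter] at this
      exact this
    have h1 : ∀ᶠ S in (atTop : Filter (Finset Zer)), ∑' z, g z - δ < ∑ z ∈ S, g z :=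
      h0.eventually_const_lt (by linarith)
    obtain ⟨S, hS⟩ := h1.exists
    exact ⟨S, by linarith⟩
  have hfin := SG5_fin hRH hb0 hb1 hα0.le hα1 (t := t) S
  -- split
  rw [← Finset.sum_filter_add_sum_filter_not S (fun z => R / L < |t - ord z|)] at hfin
  set S2 := S.filter (fun z => R / L < |t - ord z|) with hS2
  set S1 := S.filter (fun z => ¬ R / L < |t - ord z|) with hS1
  have hfar : ∀ z ∈ S2, R / L < |t - ord z| := fun z hz => (Finset.mem_filter.1 hz).2
  have hnear : ∀ z ∈ S1, ord z ∈ Icc (t - R / L) (t + R / L) := by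
    intro z hz
    have h1 := not_lt.1 (Finset.mem_filter.1 hz).2
    rw [abs_le] at h1
    exact ⟨by linarith [h1.2], by linarith [h1.1]⟩
  have hsum2 : ∑ z ∈ S2, mu z * (∫ x in (ord z - α)..(ord z), SG5_P b t x) ≤
      8 * π * u * β * Far L R t := by
    have hf : ∀ z ∈ S2, mu z * (∫ x in (ord z - α)..(ord z), SG5_P b t x) ≤
        8 * π * u * β *
          (if R / L < |t - ord z| then mu z / (L * (t - ord z)) ^ 2 else 0) := by
      intro z hz
      rw [if_pos (hfar z hz)]
      have h1 := hfar z hz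
      have h2 : 2 * α < |t - ord z| := by
        refine lt_of_le_of_lt ?_ h1
        rw [hα, mul_div_assoc']
        apply div_le_div_of_nonneg_right _ hL0.le
        linarith
      refine (mul_le_mul_of_nonneg_left (C2b_far hb0 hα0.le h2) (mu_nonneg z)).trans
        (le_of_eq ?_)
      have h3 : t - ord z ≠ 0 := abs_pos.1 (by linarith)
      rw [hα, hb]
      field_simp
      ring
    refine (Finset.sum_le_sum hf).trans ?_
    rw [← Finset.mul_sum]
    refine mul_le_mul_of_nonneg_left ?_ (by positivity)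
    unfold Far
    refine (C2b_sum hRH hL0 hR0 t).sum_le_tsum S2 fun z _ => ?_
    split_ifs
    · exact div_nonneg (mu_nonneg z) (sq_nonneg _)
    · exact le_rfl
  have hinj : Set.InjOn ord (S1 : Set Zer) := by
    intro z hz z' hz' h
    by_contra hne
    have h1 := hsep.2 z z' (hnear z hz) (hnear z' hz') hne
    rw [h, sub_self, abs_zero] at h1
    linarith
  have hsum1 : ∑ z ∈ S1, mu z * (∫ x in (ord z - α)..(ord z), SG5_P b t x) ≤
      π + (α - a) * (2 / b + π / a) := by
    have h1 := sum_sep' (s := S1.image ord) (t := t) hb0 ha0 hαa.le (by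
      intro x hx y hy hxy
      obtain ⟨z, hz, rfl⟩ := Finset.mem_image.1 hx
      obtain ⟨z', hz', rfl⟩ := Finset.mem_image.1 hy
      exact hsep.2 z z' (hnear z hz) (hnear z' hz') fun h => hxy (by rw [h]))
    rw [Finset.sum_image hinj] at h1
    refine le_trans (le_of_eq (Finset.sum_congr rfl fun z hz => ?_)) h1
    rw [hsep.1 z (hnear z hz), one_mul, SG5_subst hb0]
  have hmain : (α - a) * (2 / b + π / a) ≤ ε / 2 := by
    have e1 : (α - a) * (2 / b + π / a) = π * q * (2 / β + 1 / (2 * lam)) := by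
      rw [ha, hα, hb]
      have e2 : q = 2 * u - 2 * lam := by rw [hlam', hu']; ring
      rw [e2]
      field_simp
    rw [e1]
    refine le_trans ?_ hq2
    apply mul_le_mul_of_nonneg_left _ (by positivity)
    have e3 : 1 / (2 * lam) ≤ 2 := by
      rw [div_le_iff₀ (by positivity)]
      linarith
    linarith
  have hlast : α * (3 / b * (∑' z, g z - ∑ z ∈ S, g z)) ≤ ε / 2 := by
    refine le_trans ?_ hδ2
    apply mul_le_mul_of_nonneg_left _ hα0.le
    exact mul_le_mul_of_nonneg_left hS.le (by positivity)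
  linarith

end Pool.Agent.MP_67227b_nt.Ah
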