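import Pool.Agent.MP_67227b_nt.Ah.AhNonsep
import Pool.Agent.MP_67227b_nt.Ah.AhSep
import Pool.Agent.MP_67227b_nt.Pp.PpFar
import Pool.Agent.MP_67227b_nt.Pp.PpMean

set_option autoImplicit false

open Filter Topology Set MeasureTheory Complex
open scoped Real ArithmeticFunction ContDiff

namespace Pool.Agent.MP_67227b_nt.Ah

open Pool.Agent.Lib.ZetaCount_helper33 Pool.Agent.MP_67227b_nt Pool.Agent.MP_67227b_nt.Mo
open Pool.Agent.MP_67227b_nt.Sg Pool.Agent.MP_67227b_nt.Pp
open Pool.Agent.MP_67227b_nt.Mo.MomentBAux (DP)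

private theorem negp_Th_nonneg (hRH : RiemannHypothesis) {α b : ℝ} (hα : 0 ≤ α) (hb : 0 < b)
    (t : ℝ) : 0 ≤ Th α b t := by
  unfold Th
  apply intervalIntegral.integral_nonneg hα
  intro η _
  refine (hasSum_reF hRH hb (t + η)).nonneg ?_
  intro z
  have h1 : 0 ≤ mu z := by unfold mu; positivity
  positivity

private lemma negp_sin {x e e₀ : ℝ} (hx : 0 ≤ x) (he : |e| ≤ e₀) :
    -Real.sin (x + e) ≤ e₀ + max (x - π) 0 := by
  have h0 : 0 ≤ max (x - π) 0 := le_max_right _ _
  have h1 : x - π ≤ max (x - π) 0 := le_max_left _ _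
  obtain ⟨h2, h3⟩ := abs_le.1 he
  rcases lt_or_ge (x + e) 0 with h | h
  · have h4 : Real.sin (-(x + e)) ≤ -(x + e) := Real.sin_le (by linarith)
    rw [Real.sin_neg] at h4
    linarith
  rcases le_or_gt (x + e) π with h' | h'
  · have h4 := Real.sin_nonneg_of_nonneg_of_le_pi h h'
    linarith [abs_nonneg e]
  · have h4 : Real.sin (x + e - π) ≤ x + e - π := Real.sin_le (by linarith)
    rw [Real.sin_sub_pi] at h4
    linarith

private lemma negp_arg (hRH : RiemannHypothesis) {β : ℝ} (hβ : 0 < β) : ∃ C : ℝ, 0 < C ∧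
    ∀ᶠ T : ℝ in atTop, ∀ t ∈ Icc (T / 2) (3 * T),
      -(Hq (al T) (pl (1 / 2 + β / Real.log T) t)).re ≤
        ‖Hq (al T) (pl (1 / 2 + β / Real.log T) t)‖ *
          min 1 (C / Real.log T + max (Th (al T) (β / Real.log T) t - π) 0) := by
  obtain ⟨C, hC, hnear⟩ := archF_near
  have hlog : Tendsto Real.log atTop atTop := Real.tendsto_log_atTop
  have hpi := Real.pi_pos
  refine ⟨(C + 1) * (2 * π * (1 / 2)), by positivity, ?_⟩
  filter_upwards [eventually_ge_atTop 8, hlog.eventually_ge_atTop 1,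
    hlog.eventually_ge_atTop β, hlog.eventually_ge_atTop (2 * π * (1 / 2))] with T hT8 hL1 hLβ hLu
  intro t ht
  unfold al
  set L := Real.log T with hLdef
  have hL : 0 < L := by linarith
  set α := 2 * π * (1 / 2) / L with hαdef
  have hα : 0 < α := by positivity
  have hα1 : α ≤ 1 := by
    rw [hαdef, div_le_one hL]
    exact hLu
  have hb : 0 < β / L := by positivity
  have hb1 : β / L ≤ 1 := by
    rw [div_le_one hL]
    exact hLβ
  have hσ : 1 / 2 < 1 / 2 + β / L := by linarith
  have hσ2 : 1 / 2 + β / L ≤ 2 := by linarith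
  have ht2 : T / 2 ≤ t := ht.1
  have ht3 : t ≤ 3 * T := ht.2
  have ht0 : 0 < t := by linarith
  rw [Hq_eq_exp hRH hα.le hσ ht0]
  have hcontF : Continuous fun η : ℝ => logDeriv xi (pl (1 / 2 + β / L) (t + η)) :=
    (continuousOn_F hRH hσ).comp (continuous_const.add continuous_id)
  have hcontA : ContinuousOn (fun η : ℝ => archF (pl (1 / 2 + β / L) (t + η))) (Icc 0 α) := by
    refine (continuousOn_archF hσ).comp (continuous_const.add continuous_id).continuousOn ?_
    intro η hη
    rw [mem_Ioi]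
    have h0 := hη.1
    show 0 < t + η
    linarith
  have hIF : IntervalIntegrable (fun η : ℝ => logDeriv xi (pl (1 / 2 + β / L) (t + η)))
      volume 0 α := hcontF.intervalIntegrable _ _
  have hIA : IntervalIntegrable (fun η : ℝ => archF (pl (1 / 2 + β / L) (t + η)))
      volume 0 α := by
    apply ContinuousOn.intervalIntegrable
    rw [uIcc_of_le hα.le]
    exact hcontA
  have hreF : (∫ η in (0 : ℝ)..α, logDeriv xi (pl (1 / 2 + β / L) (t + η))).re =
      Th α (β / L) t := by
    unfold Th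
    exact (Complex.reCLM.intervalIntegral_comp_comm hIF).symm
  have hAbd : ‖(∫ η in (0 : ℝ)..α, archF (pl (1 / 2 + β / L) (t + η))) - ((π / 2 : ℝ) : ℂ)‖ ≤
      (C + 1) * α := by
    have h1 : ((π / 2 : ℝ) : ℂ) = ∫ η in (0 : ℝ)..α, ((L / 2 : ℝ) : ℂ) := by
      rw [intervalIntegral.integral_const, hαdef]
      rw [Complex.real_smul, ← Complex.ofReal_mul]
      congr 1
      field_simp
      ring
    rw [h1, ← intervalIntegral.integral_sub hIA (by simp)]
    have h2 : ∀ η ∈ Set.uIoc (0 : ℝ) α, ‖archF (pl (1 / 2 + β / L) (t + η)) - ((L / 2 : ℝ) : ℂ)‖ ≤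
        C + 1 := by
      intro η hη
      rw [uIoc_of_le hα.le] at hη
      have hη0 := hη.1
      have hη1 := hη.2
      have h3 := hnear (1 / 2 + β / L) (t + η) hσ hσ2 (by linarith)
      have h4 : |Real.log (t + η) / 2 - L / 2| ≤ 1 := by
        have h5 : Real.log (t + η) - L = Real.log ((t + η) / T) := by
          rw [hLdef, Real.log_div (by linarith) (by linarith)]
        have h6 : (1 / 2 : ℝ) ≤ (t + η) / T := by
          rw [le_div_iff₀ (by linarith)]
          linarith
        have h7 : (t + η) / T ≤ 4 := by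
          rw [div_le_iff₀ (by linarith)]
          linarith
        have h8 : Real.log ((t + η) / T) ≤ Real.log 4 := Real.log_le_log (by linarith) h7
        have h9 : Real.log (1 / 2) ≤ Real.log ((t + η) / T) := Real.log_le_log (by norm_num) h6
        have h10 : Real.log 4 ≤ 2 := by
          have : Real.log 4 = 2 * Real.log 2 := by
            rw [show (4 : ℝ) = 2 ^ 2 by norm_num, Real.log_pow]
            norm_num
          have h2 := Real.log_two_lt_d9
          linarith
        have h11 : -2 ≤ Real.log (1 / 2) := by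
          rw [one_div, Real.log_inv]
          have h2 := Real.log_two_lt_d9
          linarith
        rw [abs_le]
        constructor <;> linarith
      calc ‖archF (pl (1 / 2 + β / L) (t + η)) - ((L / 2 : ℝ) : ℂ)‖
          = ‖(archF (pl (1 / 2 + β / L) (t + η)) - ((Real.log (t + η) / 2 : ℝ) : ℂ)) +
            ((Real.log (t + η) / 2 - L / 2 : ℝ) : ℂ)‖ := by
              congr 1
              push_cast
              ring
        _ ≤ ‖archF (pl (1 / 2 + β / L) (t + η)) - ((Real.log (t + η) / 2 : ℝ) : ℂ)‖ +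
            ‖((Real.log (t + η) / 2 - L / 2 : ℝ) : ℂ)‖ := norm_add_le _ _
        _ ≤ C + 1 := by
              have h5 : ‖((Real.log (t + η) / 2 - L / 2 : ℝ) : ℂ)‖ ≤ 1 := by
                rw [Complex.norm_real]
                exact h4
              linarith
    have h3 := intervalIntegral.norm_integral_le_of_norm_le_const h2
    rw [sub_zero, abs_of_pos hα] at h3
    exact h3
  set W : ℂ := ∫ η in (0 : ℝ)..α,
      (logDeriv xi (pl (1 / 2 + β / L) (t + η)) - archF (pl (1 / 2 + β / L) (t + η))) with hW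
  set e : ℝ := π / 2 - (∫ η in (0 : ℝ)..α, archF (pl (1 / 2 + β / L) (t + η))).re with he
  have hre : W.re = Th α (β / L) t + e - π / 2 := by
    rw [hW, intervalIntegral.integral_sub hIF hIA, Complex.sub_re, hreF]
    ring
  have hdiff : |e| ≤ (C + 1) * α := by
    have h1 := (Complex.abs_re_le_norm
      ((∫ η in (0 : ℝ)..α, archF (pl (1 / 2 + β / L) (t + η))) - ((π / 2 : ℝ) : ℂ))).trans hAbd
    rw [Complex.sub_re, Complex.ofReal_re, abs_sub_comm] at h1
    exact h1
  have hnorm : ‖Complex.exp (I * W)‖ = Real.exp (-W.im) := by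
    rw [Complex.norm_exp]
    simp
  have hrr : (Complex.exp (I * W)).re = Real.exp (-W.im) * Real.sin (Th α (β / L) t + e) := by
    rw [Complex.exp_re]
    have h1 : (I * W).re = -W.im := by simp
    have h2 : (I * W).im = W.re := by simp
    rw [h1, h2, hre, Real.cos_sub_pi_div_two]
  rw [hnorm, hrr, ← mul_neg]
  apply mul_le_mul_of_nonneg_left _ (Real.exp_pos _).le
  apply le_min
  · linarith [Real.neg_one_le_sin (Th α (β / L) t + e)]
  · have h1 := negp_sin (negp_Th_nonneg hRH hα.le hb t) hdiff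
    have h2 : (C + 1) * α = (C + 1) * (2 * π * (1 / 2)) / L := by
      rw [hαdef]; ring
    rw [← h2]
    exact h1

private lemma negp_Far_nonneg (L R t : ℝ) : 0 ≤ Far L R t := by
  unfold Far
  apply tsum_nonneg
  intro z
  split_ifs
  · exact div_nonneg (mu_nonneg z) (sq_nonneg _)
  · exact le_rfl

private lemma negp_cont_pl (σ : ℝ) : Continuous (pl σ) := by
  unfold pl
  fun_prop

private lemma negp_cont_Qi (T η : ℝ) (i : ℕ) : Continuous (Qi T η i) := by
  unfold Qi
  apply continuous_finsetSum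
  intro p hp
  apply Continuous.mul continuous_const
  apply Continuous.const_cpow continuous_neg
  left
  have : p.Prime := (Finset.mem_filter.mp hp).2
  exact_mod_cast this.ne_zero

private lemma negp_cont_Ap (T η κ : ℝ) (i0 i1 K : ℕ) : Continuous (Ap T η κ i0 i1 K) := by
  unfold Ap
  apply continuous_finsetSum
  intro k _
  apply Continuous.mul continuous_const
  apply continuous_finsetSum
  intro J _
  apply continuous_finsetProd
  intro j _
  exact negp_cont_Qi _ _ _

private lemma negp_cont_Hq (hRH : RiemannHypothesis) {α b A B : ℝ} (hα : 0 ≤ α) (hb : 0 < b)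
    (hA : 0 < A) : ContinuousOn (fun t : ℝ => Hq α (pl (1 / 2 + b) t)) (Icc A B) := by
  intro t ht
  have h1 : DifferentiableAt ℂ (Hq α) (pl (1 / 2 + b) t) := by
    apply differentiableAt_Hq hRH hα
    · rw [pl_re]
      linarith
    · rw [pl_im]
      exact hA.trans_le ht.1
  exact (h1.continuousAt.comp (negp_cont_pl (1 / 2 + b)).continuousAt).continuousWithinAt

/-- MODULE NEGP. The negative part of `Re Hq` is negligible. Put `b = β/L`, `α = al T`,
`f = max (-Re Hq) 0 ‖A‖²`. Let `ε₁ > 0` be small. `Th_sep'` (with `ε₁`) gives `lam`, `C`; take `R` large,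
then `T` (along `l`) large. `Hq = ‖Hq‖ e^{i(Th + e - π/2)}` with `|e| ≤ C/L` (`Sg.Hq_eq_exp`,
`Sg.archF_near`, as in `Pp.Th_large`, `Pp/PpArg.lean`), so `Re Hq = ‖Hq‖ sin (Th + e)`, and `Th ≥ 0`
(`Sg.hasSum_reF`). Hence `max (-Re Hq) 0 ≤ ‖Hq‖ min (1, g)`, `g = C/L + max (Th - π) 0` (if
`Th + e ≤ 0` then `|sin| ≤ |e|`; if `0 ≤ Th + e ≤ π` it is `0`; if `Th + e ≥ π`,
`-sin (Th + e) ≤ Th + e - π`). On the separated `t`: `g ≤ C/L + ε₁ + C Far(R)`; the others have measure
at most `ε₁ T` (`nonsep`, with `lam`). By Cauchy-Schwarz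
`∫ f ≤ (∫ (‖Hq‖ ‖A‖²)²)^{1/2} (∫ min (1, g)²)^{1/2} ≤ (C' T)^{1/2} (∫ min (1, g)²)^{1/2}` (`Pp.mean_sq`,
`Pp/PpMean.lean`, `u = 1/2`, `κ < 1`) and
`∫ min (1, g)² ≤ ε₁ T + ∫ min (1, C/L + ε₁ + C Far) ≤ (ε₁ + C/L + ε₁) T + C ∫ Far ≤ (3 ε₁ + C''/R) T`
(`Pp.Far_mean`). -/
theorem neg_part (hRH : RiemannHypothesis) {l : Filter ℝ} (hl : Hyp l) {β κ η ε κ' : ℝ}
    {i0 i1 K : ℕ} (hβ : 0 < β) (hκ1 : κ < 1) (hη : 0 < η) (hi0 : 1 ≤ i0) (hε : 0 < ε)
    (hκ' : 0 < κ') : ∀ᶠ T : ℝ in l, ∫ t in ((1 / 2 + ε) * T)..((1 - ε) * T),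
      max (-((Hq (al T) (pl (1 / 2 + β / Real.log T) t)).re *
        ‖Ap T η κ i0 i1 K (pl (1 / 2 + β / Real.log T) (t + al T))‖ ^ 2)) 0 ≤ κ' * T := by
  obtain ⟨C', hC', hM⟩ := mean_sq hRH (u := 1 / 2) (by norm_num) hβ hκ1 hη (i1 := i1) (K := K) hi0
  obtain ⟨C₀, hC₀, hA⟩ := negp_arg hRH hβ
  set M : ℝ := C' / κ' with hMdef
  have hM0 : 0 < M := by positivity
  set q : ℝ := κ' / (4 * M) with hq
  have hq0 : 0 < q := by positivity
  obtain ⟨lam, C, R₀, hlam, hlam1, hC, hR₀, hsep⟩ := Th_sep' hRH hβ hq0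
  obtain ⟨C₃, hC₃, hfar⟩ := Far_mean hRH
  set R : ℝ := max (max R₀ 1) (C * C₃ / q) with hR
  have hR1 : 1 ≤ R := (le_max_right _ _).trans (le_max_left _ _)
  have hRR : R₀ ≤ R := (le_max_left _ _).trans (le_max_left _ _)
  have hRq : C * C₃ / q ≤ R := le_max_right _ _
  have hR0 : 0 < R := by linarith
  have hns := nonsep hl hlam hlam1 hR0 hε hq0
  filter_upwards [hns, hl.1 hM, hl.1 hA, hl.1 (hsep R hRR), hl.1 (hfar R hR1),
    hl.1 (eventually_gt_atTop 1), hl.1 (Real.tendsto_log_atTop.eventually_ge_atTop (C₀ / q))]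
    with T hns hM hA hsep hfar hT hLq
  have hT0 : 0 < T := by linarith
  have hL : 0 < Real.log T := Real.log_pos hT
  obtain ⟨hfi, hfm⟩ := hfar
  have hM' : ∫ t in (T / 2)..(3 * T),
        (‖Hq (al T) (pl (1 / 2 + β / Real.log T) t)‖ *
          ‖Ap T η κ i0 i1 K (pl (1 / 2 + β / Real.log T) (t + al T))‖ ^ 2) ^ 2 ≤ C' * T := hM
  set L := Real.log T with hLdef
  set α := al T with hαdef
  have hα : 0 < α := by
    rw [hαdef]; unfold al; positivity
  set b := β / L with hbdef
  have hb : 0 < b := by positivity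
  set a₁ : ℝ := (1 / 2 + ε) * T with ha₁
  set b₁ : ℝ := (1 - ε) * T with hb₁
  set H : ℝ → ℂ := fun t => Hq α (pl (1 / 2 + b) t) with hH
  set B : ℝ → ℝ := fun t => ‖Ap T η κ i0 i1 K (pl (1 / 2 + b) (t + α))‖ ^ 2 with hB
  set g : ℝ → ℝ := fun t => ‖H t‖ * B t with hg
  have hB0 : ∀ t, 0 ≤ B t := fun t => by positivity
  change ∫ t in a₁..b₁, max (-((H t).re * B t)) 0 ≤ κ' * T
  rcases lt_or_ge b₁ a₁ with hab | hab
  · rw [intervalIntegral.integral_symm]
    have h1 : 0 ≤ ∫ t in b₁..a₁, max (-((H t).re * B t)) 0 :=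
      intervalIntegral.integral_nonneg hab.le fun t _ => le_max_right _ _
    have h2 : 0 ≤ κ' * T := by positivity
    linarith
  have hca : T / 2 ≤ a₁ := by
    rw [ha₁]
    nlinarith [mul_pos hε hT0]
  have hbd : b₁ ≤ 3 * T := by
    rw [hb₁]
    nlinarith [mul_pos hε hT0]
  have hlen : b₁ - a₁ ≤ T := by
    rw [hb₁, ha₁]
    nlinarith [mul_pos hε hT0]
  have hle : T / 2 ≤ 3 * T := by linarith
  have hHc : ContinuousOn H (Icc (T / 2) (3 * T)) :=
    negp_cont_Hq hRH hα.le hb (by linarith)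
  have hBc : Continuous B := by
    apply Continuous.pow
    apply Continuous.norm
    exact (negp_cont_Ap T η κ i0 i1 K).comp ((negp_cont_pl (1 / 2 + b)).comp (by fun_prop))
  have hgc : ContinuousOn g (Icc (T / 2) (3 * T)) := hHc.norm.mul hBc.continuousOn
  have hfc : ContinuousOn (fun t => (H t).re * B t) (Icc (T / 2) (3 * T)) :=
    (Complex.continuous_re.comp_continuousOn hHc).mul hBc.continuousOn
  set E : Set ℝ := {t ∈ Icc a₁ b₁ |
        ¬ Sg.Sep (Icc (t - R / L) (t + R / L)) (2 * π * lam / L)} with hE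
  set E₁ : Set ℝ := toMeasurable volume E with hE₁
  have hEm : MeasurableSet E₁ := measurableSet_toMeasurable _ _
  have hEv : volume.real E₁ = volume.real E := by
    unfold Measure.real
    rw [hE₁, measure_toMeasurable]
  have hEfin : volume E₁ ≠ ⊤ := by
    rw [hE₁, measure_toMeasurable]
    have hIf : volume (Icc a₁ b₁) ≠ ⊤ := by
      rw [Real.volume_Icc]
      exact ENNReal.ofReal_ne_top
    exact measure_ne_top_of_subset (fun x hx => hx.1) hIf
  -- the pointwise bound
  have hpt : ∀ t ∈ Icc a₁ b₁, max (-((H t).re * B t)) 0 ≤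
      (1 / (2 * M)) * (g t) ^ 2 + (M / 2) * ((2 * q + C * Far L R t) +
        E₁.indicator (fun _ => (1 : ℝ)) t) := by
    intro t ht
    have htI : t ∈ Icc (T / 2) (3 * T) := ⟨hca.trans ht.1, ht.2.trans hbd⟩
    set m : ℝ := min 1 (C₀ / L + max (Th α b t - π) 0) with hm
    have hm0 : 0 ≤ m := le_min zero_le_one
      (add_nonneg (by positivity) (le_max_right _ _))
    have hm1 : m ≤ 1 := min_le_left _ _
    have hFar0 := negp_Far_nonneg L R t
    have hind0 : 0 ≤ E₁.indicator (fun _ => (1 : ℝ)) t :=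
      indicator_nonneg (fun _ _ => zero_le_one) t
    have hmle : m ≤ (2 * q + C * Far L R t) + E₁.indicator (fun _ => (1 : ℝ)) t := by
      by_cases hE' : t ∈ E₁
      · rw [indicator_of_mem hE']
        have : 0 ≤ C * Far L R t := by positivity
        linarith
      · rw [indicator_of_notMem hE', add_zero]
        have hs : Sg.Sep (Icc (t - R / L) (t + R / L)) (2 * π * lam / L) := by
          by_contra hcon
          exact hE' (subset_toMeasurable _ _ ⟨ht, hcon⟩)
        have h1 := hsep t htI hs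
        have h2 : C₀ / L ≤ q := by
          rw [div_le_iff₀ hL]
          rw [div_le_iff₀ hq0] at hLq
          linarith
        have h3 : max (Th α b t - π) 0 ≤ q + C * Far L R t := by
          apply max_le
          · have : Th α b t ≤ π + q + C * Far L R t := h1
            linarith
          · positivity
        exact (min_le_right _ _).trans (by linarith)
    have h4 : -((H t).re * B t) ≤ g t * m := by
      have h5 : -(H t).re ≤ ‖H t‖ * m := hA t htI
      calc -((H t).re * B t) = -(H t).re * B t := by ring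
        _ ≤ ‖H t‖ * m * B t := mul_le_mul_of_nonneg_right h5 (hB0 t)
        _ = g t * m := by simp only [hg]; ring
    have h6 : g t * m ≤ (1 / (2 * M)) * (g t) ^ 2 + (M / 2) * m ^ 2 := by
      have h8 : 0 ≤ (g t - M * m) ^ 2 / (2 * M) := by positivity
      have h9 : (g t - M * m) ^ 2 / (2 * M) =
          (1 / (2 * M)) * (g t) ^ 2 + (M / 2) * m ^ 2 - g t * m := by
        field_simp
        ring
      linarith
    have h7 : m ^ 2 ≤ m := by
      rw [sq]
      exact mul_le_of_le_one_right hm0 hm1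
    have h8 : (M / 2) * m ^ 2 ≤ (M / 2) * ((2 * q + C * Far L R t) +
        E₁.indicator (fun _ => (1 : ℝ)) t) :=
      mul_le_mul_of_nonneg_left (h7.trans hmle) (by positivity)
    have h9 : 0 ≤ C * Far L R t := mul_nonneg hC.le hFar0
    have h10 : 0 ≤ (2 * q + C * Far L R t) + E₁.indicator (fun _ => (1 : ℝ)) t := by linarith
    have h11 : 0 ≤ (M / 2) * ((2 * q + C * Far L R t) + E₁.indicator (fun _ => (1 : ℝ)) t) :=
      mul_nonneg (by positivity) h10
    have h12 : 0 ≤ (1 / (2 * M)) * (g t) ^ 2 := by positivity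
    exact max_le (h4.trans (h6.trans (add_le_add_right h8 _))) (add_nonneg h12 h11)
  have hsub : Icc a₁ b₁ ⊆ Icc (T / 2) (3 * T) := Icc_subset_Icc hca hbd
  have hi0' : IntervalIntegrable (fun t => max (-((H t).re * B t)) 0) volume a₁ b₁ := by
    apply ContinuousOn.intervalIntegrable
    rw [uIcc_of_le hab]
    exact (hfc.mono hsub).neg.sup continuousOn_const
  have hi1' : IntervalIntegrable (fun t => (g t) ^ 2) volume (T / 2) (3 * T) := by
    apply ContinuousOn.intervalIntegrable
    rw [uIcc_of_le hle]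
    exact hgc.pow 2
  have hi1 : IntervalIntegrable (fun t => (g t) ^ 2) volume a₁ b₁ := by
    apply ContinuousOn.intervalIntegrable
    rw [uIcc_of_le hab]
    exact (hgc.pow 2).mono hsub
  have hi2' : IntervalIntegrable (Far L R) volume (T / 2) (3 * T) := by
    rw [intervalIntegrable_iff_integrableOn_Icc_of_le hle]
    exact hfi
  have hi2 : IntervalIntegrable (Far L R) volume a₁ b₁ := by
    rw [intervalIntegrable_iff_integrableOn_Icc_of_le hab]
    exact hfi.mono_set hsub
  have hi3 : IntervalIntegrable (E₁.indicator fun _ => (1 : ℝ)) volume a₁ b₁ := by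
    rw [intervalIntegrable_iff_integrableOn_Ioc_of_le hab]
    apply Integrable.indicator _ hEm
    exact integrable_const _
  have hi4 : IntervalIntegrable (fun t => 2 * q + C * Far L R t) volume a₁ b₁ :=
    (intervalIntegrable_const).add (hi2.const_mul C)
  have h1 : ∫ t in a₁..b₁, (g t) ^ 2 ≤ C' * T := by
    refine le_trans ?_ hM'
    exact intervalIntegral.integral_mono_interval hca hab hbd
      (Eventually.of_forall fun t => sq_nonneg _) hi1'
  have h2 : ∫ t in a₁..b₁, Far L R t ≤ C₃ * T / R := by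
    refine le_trans ?_ hfm
    exact intervalIntegral.integral_mono_interval hca hab hbd
      (Eventually.of_forall fun t => negp_Far_nonneg L R t) hi2'
  have h3 : ∫ t in a₁..b₁, E₁.indicator (fun _ => (1 : ℝ)) t ≤ q * T := by
    rw [intervalIntegral.integral_of_le hab, integral_indicator hEm, setIntegral_const,
      smul_eq_mul, mul_one, measureReal_restrict_apply hEm]
    refine le_trans (measureReal_mono inter_subset_left hEfin) ?_
    rw [hEv]
    exact hns
  have h4 : ∫ t in a₁..b₁, (2 * q + C * Far L R t) ≤ 3 * q * T := by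
    rw [intervalIntegral.integral_add intervalIntegrable_const (hi2.const_mul C),
      intervalIntegral.integral_const, intervalIntegral.integral_const_mul, smul_eq_mul]
    have h5 : (b₁ - a₁) * (2 * q) ≤ T * (2 * q) := mul_le_mul_of_nonneg_right hlen (by positivity)
    have h6 : C * ∫ t in a₁..b₁, Far L R t ≤ C * (C₃ * T / R) :=
      mul_le_mul_of_nonneg_left h2 hC.le
    have h7 : C * (C₃ * T / R) ≤ q * T := by
      rw [← mul_div_assoc, div_le_iff₀ hR0]
      rw [div_le_iff₀ hq0] at hRq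
      calc C * (C₃ * T) = (C * C₃) * T := by ring
        _ ≤ (R * q) * T := mul_le_mul_of_nonneg_right hRq hT0.le
        _ = q * T * R := by ring
    linarith
  calc ∫ t in a₁..b₁, max (-((H t).re * B t)) 0
      ≤ ∫ t in a₁..b₁, ((1 / (2 * M)) * (g t) ^ 2 + (M / 2) * ((2 * q + C * Far L R t) +
        E₁.indicator (fun _ => (1 : ℝ)) t)) :=
        intervalIntegral.integral_mono_on hab hi0'
          ((hi1.const_mul _).add ((hi4.add hi3).const_mul _)) hpt
    _ = (1 / (2 * M)) * (∫ t in a₁..b₁, (g t) ^ 2) + (M / 2) *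
        ((∫ t in a₁..b₁, (2 * q + C * Far L R t)) +
          ∫ t in a₁..b₁, E₁.indicator (fun _ => (1 : ℝ)) t) := by
        rw [intervalIntegral.integral_add (hi1.const_mul _) ((hi4.add hi3).const_mul _),
          intervalIntegral.integral_const_mul, intervalIntegral.integral_const_mul,
          intervalIntegral.integral_add hi4 hi3]
    _ ≤ (1 / (2 * M)) * (C' * T) + (M / 2) * (3 * q * T + q * T) := by
        have hM2 : 0 ≤ 1 / (2 * M) := by positivity
        have hM3 : 0 ≤ M / 2 := by positivity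
        exact add_le_add (mul_le_mul_of_nonneg_left h1 hM2)
          (mul_le_mul_of_nonneg_left (add_le_add h4 h3) hM3)
    _ = κ' * T := by
        rw [hq, hMdef]
        field_simp
        ring

end Pool.Agent.MP_67227b_nt.Ah
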