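import Pool.Agent.MP_67227b_nt.Ah.AhFF
import Pool.Agent.MP_67227b_nt.Ah.AhSaC

set_option autoImplicit false

open Filter Topology Set MeasureTheory Complex
open scoped Real ArithmeticFunction ContDiff

namespace Pool.Agent.MP_67227b_nt.Ah

open Pool.Agent.Lib.ZetaCount_helper33 Pool.Agent.MP_67227b_nt Pool.Agent.MP_67227b_nt.Mo
open Pool.Agent.MP_67227b_nt.Sg Pool.Agent.MP_67227b_nt.Pp
open Pool.Agent.MP_67227b_nt.Mo.MomentBAux (DP)

private theorem SaLe_J {δ : ℝ} (hδ : 0 < δ) (hδ1 : δ ≤ 1 / 16) :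
    |(∫ x in (0 : ℝ)..(1 - δ), Complex.exp ((((-2 * δ : ℝ) : ℂ) +
      ((2 * π * (1 / 2) : ℝ) : ℂ) * I) * x)).re| ≤ 2 * δ := by
  set z : ℂ := (((-2 * δ : ℝ) : ℂ) + ((2 * π * (1 / 2) : ℝ) : ℂ) * I) with hz
  have hκ : 0 ≤ 1 - δ := by linarith
  have hcont : Continuous fun x : ℝ => Complex.exp (z * x) := by fun_prop
  have h1 : (∫ x in (0 : ℝ)..(1 - δ), Complex.exp (z * x)).re =
      ∫ x in (0 : ℝ)..(1 - δ), Real.exp (-2 * δ * x) * Real.cos (π * x) := by
    have h2 := Complex.reCLM.intervalIntegral_comp_comm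
      (hcont.intervalIntegrable (μ := volume) 0 (1 - δ))
    simp only [Complex.reCLM_apply] at h2
    rw [← h2]
    refine intervalIntegral.integral_congr fun x _ => ?_
    show (Complex.exp (z * x)).re = _
    rw [Complex.exp_re]
    have e1 : (z * x).re = -2 * δ * x := by
      rw [hz]; simp
    have e2 : (z * x).im = π * x := by
      rw [hz]; simp
      left; ring
    rw [e1, e2]
  have h3 : ∫ x in (0 : ℝ)..(1 - δ), Real.cos (π * x) = Real.sin (π * (1 - δ)) / π := by
    rw [intervalIntegral.integral_comp_mul_left (fun x => Real.cos x) Real.pi_ne_zero,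
      integral_cos]
    simp
    ring
  have h4 : |Real.sin (π * (1 - δ)) / π| ≤ δ := by
    have e1 : Real.sin (π * (1 - δ)) = Real.sin (π * δ) := by
      rw [mul_sub, mul_one, Real.sin_pi_sub]
    rw [e1, abs_div, abs_of_pos Real.pi_pos, div_le_iff₀ Real.pi_pos]
    have e2 := Real.abs_sin_le_abs (x := π * δ)
    rw [abs_of_pos (by positivity : 0 < π * δ)] at e2
    linarith
  have h5 : |(∫ x in (0 : ℝ)..(1 - δ), Real.exp (-2 * δ * x) * Real.cos (π * x)) -
      ∫ x in (0 : ℝ)..(1 - δ), Real.cos (π * x)| ≤ δ := by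
    rw [← intervalIntegral.integral_sub]
    · have e1 : ∀ x ∈ Icc (0 : ℝ) (1 - δ),
          |Real.exp (-2 * δ * x) * Real.cos (π * x) - Real.cos (π * x)| ≤ 2 * δ * x := by
        intro x hx
        have e2 : Real.exp (-2 * δ * x) * Real.cos (π * x) - Real.cos (π * x) =
            (Real.exp (-2 * δ * x) - 1) * Real.cos (π * x) := by ring
        rw [e2, abs_mul]
        have e3 : |Real.exp (-2 * δ * x) - 1| ≤ 2 * δ * x := by
          have e4 := Real.add_one_le_exp (-2 * δ * x)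
          have e5 : Real.exp (-2 * δ * x) ≤ 1 := by
            rw [Real.exp_le_one_iff]
            nlinarith [hx.1]
          rw [abs_le]
          constructor <;> nlinarith [hx.1]
        calc |Real.exp (-2 * δ * x) - 1| * |Real.cos (π * x)|
            ≤ (2 * δ * x) * 1 := mul_le_mul e3 (Real.abs_cos_le_one _) (abs_nonneg _)
              (by nlinarith [hx.1])
          _ = 2 * δ * x := mul_one _
      refine (intervalIntegral.abs_integral_le_integral_abs hκ).trans ?_
      have e6 : (∫ x in (0 : ℝ)..(1 - δ),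
          |Real.exp (-2 * δ * x) * Real.cos (π * x) - Real.cos (π * x)|) ≤
          ∫ x in (0 : ℝ)..(1 - δ), 2 * δ * x := by
        refine intervalIntegral.integral_mono_on hκ ?_ ?_ e1
        · exact Continuous.intervalIntegrable (by fun_prop) _ _
        · exact Continuous.intervalIntegrable (by fun_prop) _ _
      refine e6.trans ?_
      rw [intervalIntegral.integral_const_mul, integral_id]
      have e7 : (1 - δ) ^ 2 ≤ 1 := by nlinarith
      have e8 := mul_le_mul_of_nonneg_left e7 hδ.le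
      linarith
    · exact Continuous.intervalIntegrable (by fun_prop) _ _
    · exact Continuous.intervalIntegrable (by fun_prop) _ _
  rw [h1]
  rw [h3] at h5
  have h6 := abs_sub_abs_le_abs_sub (∫ x in (0 : ℝ)..(1 - δ), Real.exp (-2 * δ * x) *
    Real.cos (π * x)) (Real.sin (π * (1 - δ)) / π)
  linarith

/-- MODULE SALE. The diagonal sum is bounded, uniformly in `δ`. With `κ = 1 - δ`, `z = -2δ + iπ`
(`‖z‖ ≤ 4`), `I = ∫_0^κ FF`: by `Sa_close'` (`ε = 1`) and `analysis_unif` (`FF_mono`, `one_le_FF`,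
`FF_right`, `FF_ineq`), `|Re Sa| ≤ 1 + (2/κ²) I |Re ∫_0^κ e^{zx} dx| + C δ I`, `I ≤ FF T δ 1 ≤ C/δ`
(`FF_le`, `FF_mono`), and `∫_0^1 e^{iπx} dx = 2i/π` is purely imaginary, so
`|Re ∫_0^κ e^{zx} dx| ≤ (1 - κ) + ∫_0^1 (1 - e^{-2δx}) dx ≤ 2δ`. -/
theorem Sa_re_le : ∃ C : ℝ, 0 < C ∧ ∀ δ : ℝ, 0 < δ → δ ≤ 1 / 16 →
    ∀ᶠ n : ℕ in atTop, ∀ᶠ T : ℝ in atTop,
      (Sa (am δ n T) (al T) (δ / Real.log T) (Nn δ T)).re ≤ C := by
  obtain ⟨C1, hC1, hA⟩ := analysis_unif
  obtain ⟨C2, hC2, hF⟩ := FF_le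
  refine ⟨1 + 16 * C2 + C1 * C2, by positivity, fun δ hδ hδ1 => ?_⟩
  filter_upwards [Sa_close' hδ hδ1 one_pos] with n hn
  filter_upwards [hn, hF δ hδ (by linarith), FF_ineq hδ (show δ < 1 by linarith),
    eventually_gt_atTop (1 : ℝ)] with T h1 h2 h3 hT
  set z : ℂ := (((-2 * δ : ℝ) : ℂ) + ((2 * π * (1 / 2) : ℝ) : ℂ) * I) with hz
  set κ : ℝ := 1 - δ with hκ
  have hz4 : ‖z‖ ≤ 4 := by
    rw [hz]
    refine (norm_add_le _ _).trans ?_
    rw [norm_mul, Complex.norm_I, mul_one, Complex.norm_real, Complex.norm_real,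
      Real.norm_eq_abs, Real.norm_eq_abs, abs_of_nonpos (by linarith),
      abs_of_pos (by positivity)]
    have := Real.pi_lt_d2
    linarith
  obtain ⟨-, h4, -⟩ := hA κ z δ (by rw [hκ]; linarith) (by rw [hκ]; linarith) hz4 hδ hδ1
    (FF T δ) (FF_mono hT) (fun y hy => one_le_FF hT hy) (fun y => FF_right hT y)
    (fun y hy hy1 => h3 y hy (hy1.trans (by rw [hκ]; linarith)))
  set J : ℝ := ∫ x in (0 : ℝ)..κ, FF T δ x with hJ
  have hκ0 : 0 ≤ κ := by rw [hκ]; linarith
  have hJ0 : 0 ≤ J := intervalIntegral.integral_nonneg hκ0 fun x hx =>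
    zero_le_one.trans (one_le_FF hT hx.1)
  have hJ1 : δ * J ≤ C2 := by
    have e1 : J ≤ ∫ _ in (0 : ℝ)..κ, C2 / δ := by
      refine intervalIntegral.integral_mono_on hκ0 ?_ intervalIntegrable_const ?_
      · exact (FF_mono hT).intervalIntegrable
      · intro x hx
        exact (FF_mono hT (hx.2.trans (by rw [hκ]; linarith))).trans h2
    rw [intervalIntegral.integral_const, sub_zero, smul_eq_mul] at e1
    have e2 : κ * (C2 / δ) ≤ C2 / δ :=
      mul_le_of_le_one_left (by positivity) (by rw [hκ]; linarith)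
    have e3 := mul_le_mul_of_nonneg_left (e1.trans e2) hδ.le
    have e4 : δ * (C2 / δ) = C2 := by field_simp
    linarith
  have hre := SaLe_J hδ hδ1
  rw [← hz, ← hκ] at hre
  set c : ℝ := 2 / κ ^ 2 * J with hc
  set W : ℂ := ∫ x in (0 : ℝ)..κ, Complex.exp (z * x) with hW
  set E : ℂ := Complex.exp (z * κ) * (FF T δ κ : ℂ) -
    z * ∫ x in (0 : ℝ)..κ, Complex.exp (z * x) * (FF T δ x : ℂ) with hE
  have g1 : (Sa (am δ n T) (al T) (δ / Real.log T) (Nn δ T)).re ≤ 1 + E.re := by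
    have := (Complex.re_le_norm _).trans h1
    rw [Complex.sub_re] at this
    linarith
  have g2 : E.re ≤ C1 * δ * J + c * W.re := by
    have := (Complex.re_le_norm _).trans h4
    rw [Complex.sub_re, Complex.re_ofReal_mul] at this
    linarith
  have g3 : c * W.re ≤ c * (2 * δ) := by
    refine mul_le_mul_of_nonneg_left ((le_abs_self _).trans hre) ?_
    positivity
  have g4 : c * (2 * δ) ≤ 16 * C2 := by
    have e1 : (1 : ℝ) / 2 ≤ κ ^ 2 := by
      have : 15 / 16 ≤ κ := by rw [hκ]; linarith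
      nlinarith
    have e2 : 2 / κ ^ 2 ≤ 4 := by
      rw [div_le_iff₀ (by linarith)]
      linarith
    have e3 : c * (2 * δ) = 2 / κ ^ 2 * (2 * (δ * J)) := by rw [hc]; ring
    rw [e3]
    have e4 : 0 ≤ δ * J := by positivity
    calc 2 / κ ^ 2 * (2 * (δ * J)) ≤ 4 * (2 * (δ * J)) :=
          mul_le_mul_of_nonneg_right e2 (by positivity)
      _ ≤ 16 * C2 := by linarith
  have g5 : C1 * δ * J ≤ C1 * C2 := by
    rw [mul_assoc]
    exact mul_le_mul_of_nonneg_left hJ1 hC1.le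
  linarith

end Pool.Agent.MP_67227b_nt.Ah
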