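import Pool.Agent.MP_67227b_nt.Ah.AhAvg
import Pool.Agent.MP_67227b_nt.Ah.AhMeanAt
import Pool.Agent.MP_67227b_nt.Ah.AhNegp
import Pool.Agent.MP_67227b_nt.Ah.AhSaLe

set_option autoImplicit false

open Filter Topology Set MeasureTheory Complex
open scoped Real ArithmeticFunction ContDiff

namespace Pool.Agent.MP_67227b_nt.Ah

open Pool.Agent.Lib.ZetaCount_helper33 Pool.Agent.MP_67227b_nt Pool.Agent.MP_67227b_nt.Mo
open Pool.Agent.MP_67227b_nt.Sg Pool.Agent.MP_67227b_nt.Pp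
open Pool.Agent.MP_67227b_nt.Mo.MomentBAux (DP)

namespace MfAux

lemma cont_Aa (a : ℕ → ℝ) (N : ℕ) : Continuous (Aa a N) := by
  unfold Aa
  apply continuous_finsetSum
  intro n hn
  apply Continuous.mul continuous_const
  apply Continuous.const_cpow continuous_neg
  left
  have : 1 ≤ n := (Finset.mem_Icc.mp hn).1
  exact_mod_cast (by omega : n ≠ 0)

/-- Continuity of the integrand. -/
lemma cont_f (hRH : RiemannHypothesis) (a : ℕ → ℝ) (N : ℕ) {α b T : ℝ} (hα : 0 ≤ α) (hb : 0 < b)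
    (hT : 0 < T) : ContinuousOn (fun t : ℝ => (Hq α (pl (1 / 2 + b) t)).re *
      ‖Aa a N (pl (1 / 2 + b) (t + α))‖ ^ 2) (Icc (T / 2) T) := by
  have hpl : Continuous (pl (1 / 2 + b)) := by
    unfold pl
    fun_prop
  have hH : ContinuousOn (fun t : ℝ => Hq α (pl (1 / 2 + b) t)) (Icc (T / 2) T) := by
    intro t ht
    have h1 : DifferentiableAt ℂ (Hq α) (pl (1 / 2 + b) t) := by
      apply differentiableAt_Hq hRH hα
      · rw [pl_re]
        linarith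
      · rw [pl_im]
        linarith [ht.1]
    exact (h1.continuousAt.comp hpl.continuousAt).continuousWithinAt
  have hA : Continuous fun t : ℝ => ‖Aa a N (pl (1 / 2 + b) (t + α))‖ ^ 2 := by
    apply Continuous.pow
    apply Continuous.norm
    exact (cont_Aa a N).comp (hpl.comp (by fun_prop))
  exact (Complex.continuous_re.comp_continuousOn hH).mul hA.continuousOn

/-- The common part of the two modules. -/
lemma core (hRH : RiemannHypothesis) {δ ε M : ℝ} (hδ : 0 < δ) (hδ1 : δ ≤ 1 / 16)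
    (hε : 0 < ε) (hε1 : ε ≤ 1 / 32) {l : Filter ℝ} (hl : l ≤ atTop) {A : ℝ} (hA : 0 < A)
    (hM : 0 ≤ M) (a : ℝ → ℕ → ℝ) (N : ℝ → ℕ) (ha : ∀ T n, |a T n| ≤ A)
    (hN1 : ∀ᶠ T : ℝ in atTop, 1 ≤ N T) (hN : ∀ᶠ T : ℝ in atTop, (N T : ℝ) ≤ T ^ (1 - δ))
    (hS : ∀ᶠ T : ℝ in atTop, (Sa (a T) (al T) (δ / Real.log T) (N T)).re ≤ M)
    (hneg : ∀ᶠ T : ℝ in l, ∫ t in ((1 / 2 + ε) * T)..((1 - ε) * T),
      max (-((Hq (al T) (pl (1 / 2 + δ / Real.log T) t)).re *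
        ‖Aa (a T) (N T) (pl (1 / 2 + δ / Real.log T) (t + al T))‖ ^ 2)) 0 ≤ 1 * T) :
    ∀ᶠ T : ℝ in l, ∫ t in ((1 / 2 + 3 * ε) * T)..((1 - 3 * ε) * T),
        |(Hq (al T) (pl (1 / 2 + δ / Real.log T) t)).re *
          ‖Aa (a T) (N T) (pl (1 / 2 + δ / Real.log T) (t + al T))‖ ^ 2| ≤
        ((Real.sqrt π * M + 1) + 4 * 1 + 1 * (Real.sqrt π * M + 1)) * T := by
  have hm := mean_at hRH (β := δ) (κ := 1 - δ) (A := A) (ε := ε) (ε' := 1) hδ (by linarith)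
    (by linarith) hA hε (by linarith) one_pos
  have hav := avg (ε := ε) (θ := (1 + (1 - δ)) / 2) (M := Real.sqrt π * M + 1) (κ' := 1) hε hε1
    (by linarith) (by linarith) (by positivity) one_pos
  have hL : ∀ᶠ T : ℝ in atTop, 1 ≤ Real.log T := Real.tendsto_log_atTop.eventually_ge_atTop 1
  filter_upwards [hl hm, hl hav, hl hN1, hl hN, hl hS, hneg, hl hL,
    hl (eventually_ge_atTop 1)] with T hm hav hN1 hN hS hneg hL hT1
  have hT0 : 0 < T := by linarith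
  have hL0 : 0 < Real.log T := by linarith
  have hπ := Real.pi_pos
  have hal : 0 ≤ al T := by unfold al; positivity
  refine hav _ (cont_f hRH (a T) (N T) hal (by positivity) hT0) ?_ hneg
  intro t₀ ht₀
  have h1 := hm (a T) (N T) (ha T) hN1 hN t₀ ⟨by nlinarith [ht₀.1], by nlinarith [ht₀.2]⟩
  have h2 := (abs_le.mp h1).2
  have h3 : 0 ≤ T ^ ((1 + (1 - δ)) / 2) := by positivity
  have h4 : T ^ ((1 + (1 - δ)) / 2) * Real.sqrt π * (Sa (a T) (al T) (δ / Real.log T) (N T)).re ≤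
      T ^ ((1 + (1 - δ)) / 2) * Real.sqrt π * M := by
    apply mul_le_mul_of_nonneg_left hS
    positivity
  simp only [mul_assoc] at h2 h4 ⊢
  nlinarith

lemma Tup_zero {η κ : ℝ} (hκ : 0 ≤ κ) (i0 i1 : ℕ) : (Tup η κ i0 i1 0).card = 1 := by
  classical
  unfold Tup
  rw [Finset.filter_true_of_mem]
  · simp
  · intro J _
    simpa using hκ

lemma Ap_zero {T η κ : ℝ} (hκ : 0 ≤ κ) (i0 i1 : ℕ) (s : ℂ) : Ap T η κ i0 i1 0 s = 1 := by
  unfold Ap
  rw [zero_add, Finset.sum_range_one]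
  simp only [Finset.univ_eq_empty, Finset.prod_empty, Finset.sum_const, Tup_zero hκ]
  simp

lemma Aa_one (s : ℂ) : Aa (fun n => if n = 1 then 1 else 0) 1 s = 1 := by
  unfold Aa
  simp

lemma Sa_one (α b : ℝ) : Sa (fun n => if n = 1 then 1 else 0) α b 1 = 1 := by
  unfold Sa ca
  simp

end MfAux

open MfAux in
/-- MODULE MF1. The absolute mean of `Re Hq ‖A‖²`, uniformly in `δ`. `mean_at` with `a = am δ n T`
(`|a| ≤ e^K`, `ap_bound`), `κ = 1 - δ`, `β = δ`, `ε' = 1`, `Sa_re_le`: the hypothesis of `avg` holds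
with `θ = (1 + κ)/2`, `M = C √π + 1`; `neg_part` (with `κ' = 1`); `Am = Ap` by `Ap_eq`. -/
theorem reHq_mean (hRH : RiemannHypothesis) : ∃ C : ℝ, 0 < C ∧ ∀ δ ε : ℝ, 0 < δ → δ ≤ 1 / 16 →
    0 < ε → ε ≤ 1 / 32 → ∀ l : Filter ℝ, Hyp l → ∀ᶠ n : ℕ in atTop, ∀ᶠ T : ℝ in l,
      ∫ t in ((1 / 2 + 3 * ε) * T)..((1 - 3 * ε) * T),
        |(Hq (al T) (pl (1 / 2 + δ / Real.log T) t)).re *
          ‖Am δ n T (pl (1 / 2 + δ / Real.log T) (t + al T))‖ ^ 2| ≤ C * T := by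
  obtain ⟨C₀, hC₀, hSa⟩ := Sa_re_le
  refine ⟨(Real.sqrt π * C₀ + 1) + 4 * 1 + 1 * (Real.sqrt π * C₀ + 1), by positivity, ?_⟩
  intro δ ε hδ hδ1 hε hε1 l hl
  filter_upwards [hSa δ hδ hδ1, eventually_ge_atTop 1] with n hSn hn1
  have hη : 0 < δ / ((n : ℝ) + 1) := by positivity
  refine core hRH hδ hδ1 hε hε1 hl.1 (A := Real.exp (⌈1 / δ⌉₊ : ℕ)) (Real.exp_pos _) hC₀.le
    (am δ n) (Nn δ) ?_ ?_ ?_ hSn ?_
  · intro T m
    exact ap_bound hη _ _ _ _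
  · filter_upwards [eventually_ge_atTop 1] with T hT
    exact (Nat.one_le_floor_iff _).mpr (Real.one_le_rpow hT (by linarith))
  · filter_upwards [eventually_ge_atTop 0] with T hT
    exact Nat.floor_le (by positivity)
  · have h1 := neg_part hRH hl (β := δ) (κ := 1 - δ) (η := δ / ((n : ℝ) + 1)) (ε := ε) (κ' := 1)
      (i0 := n) (i1 := ⌈((n : ℝ) + 1) / δ⌉₊) (K := ⌈1 / δ⌉₊) hδ (by linarith) hη hn1 hε one_pos
    filter_upwards [h1, hl.1 (eventually_gt_atTop 1)] with T h1 hT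
    have h2 : ∀ s : ℂ, Ap T (δ / ((n : ℝ) + 1)) (1 - δ) n ⌈((n : ℝ) + 1) / δ⌉₊ ⌈1 / δ⌉₊ s =
        Aa (am δ n T) (Nn δ T) s := fun s => Ap_eq hT hη (by linarith) _ _ _ s
    simpa only [h2] using h1

open MfAux in
/-- MODULE MF2. The same with `A = 1`: take `K = 0` in `Ap` (`Ap T η κ i0 i1 0 s = 1`), coefficients
`a 1 = 1`, `a n = 0` otherwise, `Sa = 1`. -/
theorem reHq_mean_one (hRH : RiemannHypothesis) : ∃ C : ℝ, 0 < C ∧ ∀ δ ε : ℝ, 0 < δ →
    δ ≤ 1 / 16 → 0 < ε → ε ≤ 1 / 32 → ∀ l : Filter ℝ, Hyp l → ∀ᶠ T : ℝ in l,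
      ∫ t in ((1 / 2 + 3 * ε) * T)..((1 - 3 * ε) * T),
        |(Hq (al T) (pl (1 / 2 + δ / Real.log T) t)).re| ≤ C * T := by
  refine ⟨(Real.sqrt π * 1 + 1) + 4 * 1 + 1 * (Real.sqrt π * 1 + 1), by positivity, ?_⟩
  intro δ ε hδ hδ1 hε hε1 l hl
  have h := core hRH hδ hδ1 hε hε1 hl.1 (A := 1) one_pos (M := 1) zero_le_one
    (fun _ n => if n = 1 then 1 else 0) (fun _ => 1) ?_ ?_ ?_ ?_ ?_
  · simpa only [Aa_one, norm_one, one_pow, mul_one] using h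
  · intro T n
    split_ifs <;> simp
  · exact Eventually.of_forall fun _ => le_rfl
  · filter_upwards [eventually_ge_atTop 1] with T hT
    rw [Nat.cast_one]
    exact Real.one_le_rpow hT (by linarith)
  · refine Eventually.of_forall fun T => ?_
    rw [Sa_one]
    simp
  · have h1 := neg_part hRH hl (β := δ) (κ := 1 - δ) (η := 1) (ε := ε) (κ' := 1)
      (i0 := 1) (i1 := 1) (K := 0) hδ (by linarith) one_pos le_rfl hε one_pos
    filter_upwards [h1] with T h1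
    simpa only [Aa_one, Ap_zero (show (0 : ℝ) ≤ 1 - δ by linarith)] using h1

end Pool.Agent.MP_67227b_nt.Ah
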