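import Pool.Agent.MP_67227b_nt.Ah.AhDefs
import Pool.Agent.MP_67227b_nt.Ppw.PpwCov

set_option autoImplicit false

open Filter Topology Set MeasureTheory Complex
open scoped Real ArithmeticFunction ContDiff

namespace Pool.Agent.MP_67227b_nt.Ah

open Pool.Agent.Lib.ZetaCount_helper33 Pool.Agent.MP_67227b_nt Pool.Agent.MP_67227b_nt.Mo
open Pool.Agent.MP_67227b_nt.Sg Pool.Agent.MP_67227b_nt.Pp
open Pool.Agent.MP_67227b_nt.Mo.MomentBAux (DP)

/-- MODULE NONSEP. Few points see a close pair. For `t` in the set, `exists_pair_of_not_sep`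
(`Sg/SgZ_a.lean`) gives a pair `(j', j)` of distinct indices with ordinates in
`[t - R/L, t + R/L] ⊆ [T/2, T]` and `0 ≤ γ_{j'} - γ_j ≤ 2π lam/L`, an element of
`windowPairs T (T/2) lam`; the set is covered by the intervals `[γ - R/L, γ + R/L]` over these
pairs, so its measure is at most `(2R/L) #pairs = o(T)` along `l`. -/
theorem nonsep {l : Filter ℝ} (hl : Hyp l) {lam R ε κ' : ℝ} (hlam : 0 < lam)
    (hlam1 : lam < 1 / 2) (hR : 0 < R) (hε : 0 < ε) (hκ' : 0 < κ') : ∀ᶠ T : ℝ in l,
      volume.real {t ∈ Icc ((1 / 2 + ε) * T) ((1 - ε) * T) |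
        ¬ Sg.Sep (Icc (t - R / Real.log T) (t + R / Real.log T)) (2 * π * lam / Real.log T)} ≤
      κ' * T := by
  rcases le_or_gt (1 / 4) ε with hε4 | hε4
  · filter_upwards [hl.1 (eventually_gt_atTop (0 : ℝ))] with T hT
    have h1 : volume.real {t ∈ Icc ((1 / 2 + ε) * T) ((1 - ε) * T) |
        ¬ Sg.Sep (Icc (t - R / Real.log T) (t + R / Real.log T)) (2 * π * lam / Real.log T)} ≤
        volume.real (Icc ((1 / 2 + ε) * T) ((1 - ε) * T)) := by
      refine measureReal_mono (fun t ht => ht.1) ?_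
      rw [Real.volume_Icc]
      exact ENNReal.ofReal_ne_top
    refine h1.trans ?_
    rw [Real.volume_real_Icc]
    have h2 : (1 - ε) * T - (1 / 2 + ε) * T ≤ 0 := by nlinarith
    rw [max_eq_right h2]
    positivity
  · obtain ⟨c', hc', hev⟩ := Pp.pairs_of_meas_w (R := R) (c := κ') hlam hR hκ'
    have hd : 0 < 1 / 2 - 2 * ε := by linarith
    have h1 : ∀ᶠ T : ℝ in l,
        ((windowPairs T (T / 2) lam).ncard : ℝ) / (T * Real.log T) < c' * (1 / 2 - 2 * ε) :=
      (hl.2 lam hlam1).eventually_lt_const (by positivity)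
    filter_upwards [h1, hl.1 hev, hl.1 (eventually_gt_atTop (1 : ℝ)),
      hl.1 (eventually_ge_atTop (1 / ε))] with T hT1 hT2 hT3 hT4
    by_contra hcon
    push Not at hcon
    have hL : 0 < Real.log T := Real.log_pos hT3
    have hεT : 1 ≤ ε * T := by
      rw [div_le_iff₀ hε] at hT4
      linarith
    have e1 : (1 / 2 + ε) * T + (1 / 2 - 2 * ε) * T = (1 - ε) * T := by ring
    have h2 := hT2 (T / 2) ((1 / 2 + ε) * T) ((1 / 2 - 2 * ε) * T) (by nlinarith)
      (by positivity) (by nlinarith) (by rw [e1]; nlinarith) (by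
        rw [e1]
        refine le_trans ?_ hcon.le
        have : (1 / 2 - 2 * ε) * T ≤ 1 * T := by gcongr; linarith
        nlinarith)
    rw [div_lt_iff₀ (by positivity)] at hT1
    nlinarith

end Pool.Agent.MP_67227b_nt.Ah
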